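import Pool.Agent.T2h98.QD.Stm

/-!
# Translation invariance
-/

set_option autoImplicit false

open scoped BigOperators
open MeasureTheory ProbabilityTheory

namespace Pool.Agent.T2h98.QD

open Pool.Agent.W788.MFP.Four (T e NN adj K)
open Pool.Agent.W788.BK (nsq hs PP JJ hi Low cr)

theorem inv : T_INV := by
  intro d L _ a
  constructor
  · intro F
    have hmp := measurePreserving_piCongrLeft (α := fun _ : T d L => ℝ)
      (fun _ => gaussianReal 0 1) (Equiv.addRight a).symm
    have h := hmp.integral_comp (MeasurableEquiv.measurableEmbedding _) F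
    have hTv : ∀ V : T d L → ℝ, MeasurableEquiv.piCongrLeft (fun _ : T d L => ℝ)
        (Equiv.addRight a).symm V = fun z => V (z + a) := by
      intro V
      funext z
      have h1 := MeasurableEquiv.piCongrLeft_apply_apply (Equiv.addRight a).symm
        (β := fun _ : T d L => ℝ) V (z + a)
      have h2 : (Equiv.addRight a).symm (z + a) = z := by simp
      rw [h2] at h1
      exact h1
    simp only [hTv] at h
    exact h
  · intro σ E δ θ η V x y
    have hMo : ∀ (m : T d L → ℂ) (x y : T d L), Mo m (x + a) (y + a) = Mo m x y := by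
      intro m x y
      simp only [Mo, Matrix.of_apply, add_sub_add_right_eq_sub]
    have hX : XG (h0 E) (J0 E δ) (fun y => (σ : ℂ) • PY θ y) η (fun z => V (z + a)) =
        (XG (h0 E) (J0 E δ) (fun y => (σ : ℂ) • PY θ y) η V).submatrix
          (Equiv.addRight a) (Equiv.addRight a) := by
      ext u v
      simp only [XG, Matrix.submatrix_apply, Matrix.sub_apply, Matrix.add_apply,
        Matrix.smul_apply, Matrix.sum_apply, Equiv.coe_addRight, h0, J0, hMo]
      congr 2
      symm
      rw [← Equiv.sum_comp (Equiv.addRight a)]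
      refine Finset.sum_congr rfl fun z _ => ?_
      simp only [Equiv.coe_addRight, PY, Matrix.diagonal_apply, add_left_inj,
        add_sub_add_right_eq_sub]
    show (XG (h0 E) (J0 E δ) (fun y => (σ : ℂ) • PY θ y) η (fun z => V (z + a)))⁻¹ x y =
      (XG (h0 E) (J0 E δ) (fun y => (σ : ℂ) • PY θ y) η V)⁻¹ (x + a) (y + a)
    rw [hX, Matrix.inv_submatrix_equiv]
    rfl

end Pool.Agent.T2h98.QD
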