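import Pool.Agent.T2h98.QD.Calc

/-! Variances. -/

set_option autoImplicit false
set_option linter.unusedSectionVars false

open scoped BigOperators Matrix
open MeasureTheory ProbabilityTheory

namespace Pool.Agent.T2h98.QD

open Pool.Agent.W788.BK
open Pool.Agent.W240.BK (BC BM cs_int)

variable {n m : Type} [Fintype n] [DecidableEq n] [Fintype m] [DecidableEq m]

theorem form_dl (B : Matrix n n ℂ) (x y : n) : star (dl x) ⬝ᵥ (B *ᵥ dl y) = B x y :=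
  form_single B x y

theorem nsq_dl (x : n) : nsq (dl x) = 1 := nsq_single x

theorem cj_eq (u : n → ℂ) (Z : Matrix n n ℂ) :
    cj u Z = Matrix.diagonal u * Z * (Matrix.diagonal u)ᴴ := by
  ext x y
  rw [Matrix.diagonal_conjTranspose, Matrix.mul_diagonal, Matrix.diagonal_mul]
  rfl

theorem nsq_diag {u : n → ℂ} (hu : ∀ x, ‖u x‖ = 1) (w : n → ℂ) :
    nsq (Matrix.diagonal u *ᵥ w) = nsq w ∧ nsq ((Matrix.diagonal u)ᴴ *ᵥ w) = nsq w := by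
  rw [Matrix.diagonal_conjTranspose]
  unfold nsq
  constructor <;> refine Finset.sum_congr rfl fun x _ => ?_
  · rw [Matrix.mulVec_diagonal, norm_mul, hu, one_mul]
  · rw [Matrix.mulVec_diagonal, Pi.star_apply, norm_mul, norm_star, hu, one_mul]

theorem cj_diag {u : n → ℂ} (hu : ∀ x, ‖u x‖ = 1) (Z : Matrix n n ℂ) (x : n) :
    cj u Z x x = Z x x := by
  unfold cj
  rw [Matrix.of_apply]
  have h1 : u x * star (u x) = 1 := by
    rw [RCLike.star_def, Complex.mul_conj, Complex.normSq_eq_norm_sq, hu]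
    simp
  calc u x * Z x x * star (u x) = (u x * star (u x)) * Z x x := by ring
    _ = _ := by rw [h1, one_mul]

theorem cj_mul {u : n → ℂ} (hu : ∀ x, ‖u x‖ = 1) (Y Z : Matrix n n ℂ) :
    cj u (Y * Z) = cj u Y * cj u Z := by
  ext x y
  unfold cj
  rw [Matrix.mul_apply, Matrix.of_apply, Matrix.mul_apply, Finset.mul_sum, Finset.sum_mul]
  refine Finset.sum_congr rfl fun z _ => ?_
  have h1 : star (u z) * u z = 1 := by
    rw [RCLike.star_def, mul_comm, Complex.mul_conj, Complex.normSq_eq_norm_sq, hu]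
    simp
  simp only [Matrix.of_apply]
  calc u x * (Y x z * Z z y) * star (u y) = u x * Y x z * 1 * Z z y * star (u y) := by ring
    _ = _ := by
      rw [← h1]
      ring

theorem cj_star (u : n → ℂ) (Z : Matrix n n ℂ) : cj u Zᴴ = (cj u Z)ᴴ := by
  ext x y
  unfold cj
  simp only [Matrix.of_apply, Matrix.conjTranspose_apply, star_mul', star_star]
  ring

theorem cj_one {u : n → ℂ} (hu : ∀ x, ‖u x‖ = 1) : cj u (1 : Matrix n n ℂ) = 1 := by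
  ext x y
  by_cases h : x = y
  · subst h
    rw [cj_diag hu]
  · unfold cj
    rw [Matrix.of_apply, Matrix.one_apply_ne h]
    ring

theorem cj_smul (u : n → ℂ) (c : ℂ) (Z : Matrix n n ℂ) : cj u (c • Z) = c • cj u Z := by
  ext x y
  simp only [cj, Matrix.of_apply, Matrix.smul_apply, smul_eq_mul]
  ring

theorem cj_add (u : n → ℂ) (Y Z : Matrix n n ℂ) : cj u (Y + Z) = cj u Y + cj u Z := by
  ext x y
  simp only [cj, Matrix.of_apply, Matrix.add_apply]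
  ring

theorem cj_sub (u : n → ℂ) (Y Z : Matrix n n ℂ) : cj u (Y - Z) = cj u Y - cj u Z := by
  ext x y
  simp only [cj, Matrix.of_apply, Matrix.sub_apply]
  ring

theorem cj_neg (u : n → ℂ) (Z : Matrix n n ℂ) : cj u (-Z) = -cj u Z := by
  ext x y
  simp only [cj, Matrix.of_apply, Matrix.neg_apply]
  ring

theorem cj_sum {ι : Type} (s : Finset ι) (u : n → ℂ) (Z : ι → Matrix n n ℂ) :
    cj u (∑ i ∈ s, Z i) = ∑ i ∈ s, cj u (Z i) := by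
  ext x y
  simp only [cj, Matrix.of_apply, Matrix.sum_apply]
  rw [Finset.mul_sum, Finset.sum_mul]

theorem norm_sub_sq_le (p q : ℂ) : ‖-p - q‖ ^ 2 ≤ 2 * ‖p‖ ^ 2 + 2 * ‖q‖ ^ 2 := by
  have h1 : ‖-p - q‖ ≤ ‖p‖ + ‖q‖ := by
    have := norm_sub_le (-p) q
    rwa [norm_neg] at this
  have h2 : ‖-p - q‖ ^ 2 ≤ (‖p‖ + ‖q‖) ^ 2 := pow_le_pow_left₀ (norm_nonneg _) h1 2
  nlinarith [sq_nonneg (‖p‖ - ‖q‖)]

section sys

variable {h J : Matrix n n ℂ} {A : m → Matrix n n ℂ} {η δ Q : ℝ}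

theorem bm_gg (S : Sys h J A η δ Q) : BM fun V : m → ℝ => GG h J A η V := (MD.gg S).bm

theorem rc_gg_im (S : Sys h J A η δ Q) (w : n → ℂ) :
    RC fun V : m → ℝ => (star w ⬝ᵥ (GG h J A η V *ᵥ w)).im := RC.im ((bm_gg S).dot _ _)

theorem var_star (F : (m → ℝ) → ℂ) : var (fun V => star (F V)) = var F := by
  unfold var
  have h1 : ∫ V, star (F V) ∂(GP m) = star (∫ V, F V ∂(GP m)) := integral_conj
  rw [h1]
  refine integral_congr_ae (Filter.Eventually.of_forall fun V => ?_)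
  simp only
  rw [← star_sub, norm_star]

/-- the variance of a matrix element of the resolvent -/
theorem var1 (hP : T_POIN) (S : Sys h J A η δ Q) (a b : n → ℂ) :
    var (fun V => star a ⬝ᵥ (GG h J A η V *ᵥ b)) ≤
      ∫ V, Q * ((star a ⬝ᵥ (GG h J A η V *ᵥ a)).im / η *
        ((star b ⬝ᵥ (GG h J A η V *ᵥ b)).im / η)) ∂(GP m) := by
  refine var_le_of hP ((MD.gg S).form (star a) b) ?_ fun V => ?_
  · simp only [div_eq_mul_inv]
    exact (RC.const Q).mul (((rc_gg_im S a).mul (RC.const _)).mul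
      ((rc_gg_im S b).mul (RC.const _)))
  · have h1 : ∀ y, star a ⬝ᵥ (-(GG h J A η V * A y * GG h J A η V) *ᵥ b) =
        -(star ((GG h J A η V)ᴴ *ᵥ a) ⬝ᵥ (A y *ᵥ (GG h J A η V *ᵥ b))) := by
      intro y
      rw [Matrix.neg_mulVec, dotProduct_neg, ← Matrix.mulVec_mulVec, ← Matrix.mulVec_mulVec,
        adjoint (GG h J A η V)]
    simp only [h1, norm_neg]
    refine (S.hQ _ _).trans (le_of_eq ?_)
    rw [(qf_gg_eq S V a).2, (qf_gg_eq S V b).1]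

/-- the variance of the diagonal elements -/
theorem varD (hP : T_POIN) (S : Sys h J A η δ Q) (x : n) (mb : ℂ) (ν : ℝ)
    (hm : ∫ V, GG h J A η V x x ∂(GP m) = mb) (hν : Q ≤ ν * η ^ 2) (hν2 : ν ≤ 1 / 2) :
    var (fun V => GG h J A η V x x) ≤ 2 * ν * mb.im ^ 2 ∧
    ∫ V, (GG h J A η V x x).im ^ 2 ∂(GP m) ≤ 2 * mb.im ^ 2 ∧ 0 ≤ ν := by
  have hη := S.hη
  have hν0 : 0 ≤ ν := by
    have h1 := S.hQ0.trans hν
    by_contra hc
    push Not at hc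
    have : ν * η ^ 2 < 0 := mul_neg_of_neg_of_pos hc (by positivity)
    linarith
  have h1 := var1 hP S (dl x) (dl x)
  simp only [form_dl] at h1
  have h2 := sq_im_le ((bm_gg S) x x)
  rw [hm] at h2
  have h3 : ∫ V, Q * ((GG h J A η V x x).im / η * ((GG h J A η V x x).im / η)) ∂(GP m) =
      Q / η ^ 2 * ∫ V, (GG h J A η V x x).im ^ 2 ∂(GP m) := by
    rw [← integral_const_mul]
    refine integral_congr_ae (Filter.Eventually.of_forall fun V => ?_)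
    simp only
    ring
  rw [h3] at h1
  have h4 : Q / η ^ 2 ≤ ν := by
    rw [div_le_iff₀ (by positivity)]
    exact hν
  have h5 : 0 ≤ ∫ V, (GG h J A η V x x).im ^ 2 ∂(GP m) :=
    integral_nonneg fun V => sq_nonneg _
  have h6 : var (fun V => GG h J A η V x x) ≤ ν * (mb.im ^ 2 + var (fun V => GG h J A η V x x)) :=
    calc _ ≤ Q / η ^ 2 * ∫ V, (GG h J A η V x x).im ^ 2 ∂(GP m) := h1
      _ ≤ ν * ∫ V, (GG h J A η V x x).im ^ 2 ∂(GP m) := by gcongr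
      _ ≤ _ := by gcongr
  have h7 := var_nonneg (fun V => GG h J A η V x x)
  have h8 : var (fun V => GG h J A η V x x) ≤ 2 * ν * mb.im ^ 2 := by nlinarith
  refine ⟨h8, ?_, hν0⟩
  nlinarith [sq_nonneg mb.im]

/-- matrix elements with one site -/
theorem varR (hP : T_POIN) (S : Sys h J A η δ Q) (x : n) (mb : ℂ)
    (hm : ∫ V, GG h J A η V x x ∂(GP m) = mb) (b : n → ℂ) :
    var (fun V => star (dl x) ⬝ᵥ (GG h J A η V *ᵥ b)) ≤ Q * mb.im * nsq b / (η ^ 3 * δ) ∧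
    var (fun V => star b ⬝ᵥ (GG h J A η V *ᵥ dl x)) ≤ Q * mb.im * nsq b / (η ^ 3 * δ) := by
  have hη := S.hη
  have hδ := S.hδ
  have hQ := S.hQ0
  have him : ∫ V, (GG h J A η V x x).im ∂(GP m) = mb.im := by
    rw [← hm]
    exact integral_im (((bm_gg S) x x).integrable _)
  have hI : ∀ V : m → ℝ, 0 ≤ (GG h J A η V x x).im := fun V => by
    have := form_im_nonneg S V (dl x)
    rwa [form_dl] at this
  have hb : ∀ V : m → ℝ, (star b ⬝ᵥ (GG h J A η V *ᵥ b)).im / η ≤ nsq b / (η ^ 2 * δ) := fun V => by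
    rw [← (qf_gg_eq S V b).1]
    exact (qf_gg S V b).1
  have key : ∫ V, Q * ((GG h J A η V x x).im / η *
      ((star b ⬝ᵥ (GG h J A η V *ᵥ b)).im / η)) ∂(GP m) ≤ Q * mb.im * nsq b / (η ^ 3 * δ) := by
    calc _ ≤ ∫ V, Q / η * (nsq b / (η ^ 2 * δ)) * (GG h J A η V x x).im ∂(GP m) := by
          refine integral_mono ?_ ((RC.im ((bm_gg S) x x)).integrable.const_mul _) fun V => ?_
          · simp only [div_eq_mul_inv]
            exact ((RC.const Q).mul (((RC.im ((bm_gg S) x x)).mul (RC.const _)).mul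
              ((rc_gg_im S b).mul (RC.const _)))).integrable
          · calc Q * ((GG h J A η V x x).im / η * ((star b ⬝ᵥ (GG h J A η V *ᵥ b)).im / η)) ≤
                Q * ((GG h J A η V x x).im / η * (nsq b / (η ^ 2 * δ))) := by
                  exact mul_le_mul_of_nonneg_left (mul_le_mul_of_nonneg_left (hb V)
                    (div_nonneg (hI V) hη.le)) hQ
              _ = _ := by ring
      _ = _ := by
          rw [integral_const_mul, him]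
          field_simp
  constructor
  · have h1 := var1 hP S (dl x) b
    simp only [form_dl] at h1
    exact h1.trans key
  · have h1 := var1 hP S b (dl x)
    simp only [form_dl] at h1
    refine h1.trans (le_trans (le_of_eq ?_) key)
    refine integral_congr_ae (Filter.Eventually.of_forall fun V => ?_)
    simp only
    ring

/-- pointwise bound for the product of two resolvents -/
theorem var2 (hP : T_POIN) (S : Sys h J A η δ Q) {u : n → ℂ} (hu : ∀ x, ‖u x‖ = 1) (x : n)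
    (c : n → ℂ) {g : (m → ℝ) → ℝ} (hg : RC g)
    (hb : ∀ V, 2 * Q * ((GG h J A η V x x).im / η * (nsq ((GG h J A η V)ᴴ *ᵥ c) / (η ^ 2 * δ))) +
      2 * Q * ((GG h J A η V x x).im / (η * δ) / (η ^ 2 * δ) * qf J ((GG h J A η V)ᴴ *ᵥ c)) ≤ g V) :
    var (fun V => star (dl x) ⬝ᵥ ((cj u (GG h J A η V) * (GG h J A η V)ᴴ) *ᵥ c)) ≤
      ∫ V, g V ∂(GP m) := by
  have hη := S.hη
  have hδ := S.hδ
  have hQ := S.hQ0
  refine var_le_of hP ((((MD.gg S).cj u).mul (MD.gg S).star').form (star (dl x)) c) hg fun V => ?_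
  refine le_trans ?_ (hb V)
  obtain ⟨G, hG⟩ : ∃ G, G = GG h J A η V := ⟨_, rfl⟩
  obtain ⟨U, hU⟩ : ∃ U, U = Matrix.diagonal u := ⟨_, rfl⟩
  have hform : ∀ y, star (dl x) ⬝ᵥ ((cj u (-(GG h J A η V * A y * GG h J A η V)) *
      (GG h J A η V)ᴴ + cj u (GG h J A η V) * (-(GG h J A η V * A y * GG h J A η V))ᴴ) *ᵥ c) =
      -(star (Gᴴ *ᵥ (Uᴴ *ᵥ dl x)) ⬝ᵥ (A y *ᵥ (G *ᵥ (Uᴴ *ᵥ (Gᴴ *ᵥ c))))) -
        star (G *ᵥ (U *ᵥ (Gᴴ *ᵥ (Uᴴ *ᵥ dl x)))) ⬝ᵥ (A y *ᵥ (Gᴴ *ᵥ c)) := by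
    intro y
    rw [← hG, cj_neg, Matrix.conjTranspose_neg, Matrix.conjTranspose_mul,
      Matrix.conjTranspose_mul, (S.hA y).eq, cj_eq, cj_eq, ← hU]
    rw [← adjoint, ← adjoint]
    have e1 : star (G *ᵥ (U *ᵥ (Gᴴ *ᵥ (Uᴴ *ᵥ dl x)))) ⬝ᵥ (A y *ᵥ (Gᴴ *ᵥ c)) =
        star (dl x) ⬝ᵥ ((U * G * Uᴴ * Gᴴ * A y * Gᴴ) *ᵥ c) := by
      have h1 := adjoint Gᴴ (U *ᵥ (Gᴴ *ᵥ (Uᴴ *ᵥ dl x))) (A y *ᵥ (Gᴴ *ᵥ c))
      rw [Matrix.conjTranspose_conjTranspose] at h1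
      rw [← h1]
      have h2 := adjoint Uᴴ (Gᴴ *ᵥ (Uᴴ *ᵥ dl x)) (Gᴴ *ᵥ (A y *ᵥ (Gᴴ *ᵥ c)))
      rw [Matrix.conjTranspose_conjTranspose] at h2
      rw [← h2, ← adjoint, ← adjoint]
      simp only [Matrix.mulVec_mulVec, Matrix.mul_assoc]
    have e2 : star (dl x) ⬝ᵥ (U *ᵥ (G *ᵥ (A y *ᵥ (G *ᵥ (Uᴴ *ᵥ (Gᴴ *ᵥ c)))))) =
        star (dl x) ⬝ᵥ ((U * (G * A y * G) * Uᴴ * Gᴴ) *ᵥ c) := by
      simp only [Matrix.mulVec_mulVec, Matrix.mul_assoc]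
    rw [e1, e2, ← dotProduct_neg, ← dotProduct_sub]
    congr 1
    rw [← Matrix.neg_mulVec, ← Matrix.sub_mulVec]
    congr 1
    noncomm_ring
  simp only [hform]
  have hqU : (star (Uᴴ *ᵥ dl x) ⬝ᵥ (G *ᵥ (Uᴴ *ᵥ dl x))).im = (G x x).im := by
    have h1 := adjoint U (dl x) (G *ᵥ (Uᴴ *ᵥ dl x))
    rw [← h1, ← cj_diag hu G x, cj_eq, ← hU, ← form_dl (U * G * Uᴴ) x x, Matrix.mulVec_mulVec,
      Matrix.mulVec_mulVec, Matrix.mul_assoc]
  have hq1 : qf J (Gᴴ *ᵥ (Uᴴ *ᵥ dl x)) = (G x x).im / η := by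
    rw [hG, (qf_gg_eq S V _).2, ← hG, hqU]
  have hq2 : qf J (G *ᵥ (Uᴴ *ᵥ (Gᴴ *ᵥ c))) ≤ nsq (Gᴴ *ᵥ c) / (η ^ 2 * δ) := by
    have h1 := (qf_gg S V (Uᴴ *ᵥ (Gᴴ *ᵥ c))).1
    rw [← hG] at h1
    rwa [hU, (nsq_diag hu _).2, ← hU] at h1
  have hq3 : qf J (G *ᵥ (U *ᵥ (Gᴴ *ᵥ (Uᴴ *ᵥ dl x)))) ≤ (G x x).im / (η * δ) / (η ^ 2 * δ) := by
    have h1 := (qf_gg S V (U *ᵥ (Gᴴ *ᵥ (Uᴴ *ᵥ dl x)))).1
    rw [← hG] at h1
    have h2 : nsq (U *ᵥ (Gᴴ *ᵥ (Uᴴ *ᵥ dl x))) ≤ (G x x).im / (η * δ) := by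
      rw [hU, (nsq_diag hu _).1, ← hU]
      have h3 := (nsq_gg_im S V (Uᴴ *ᵥ dl x)).2
      rwa [← hG, hqU] at h3
    refine h1.trans ?_
    gcongr
  have hc0 : 0 ≤ qf J (Gᴴ *ᵥ c) := qf_nonneg S _
  have hI : 0 ≤ (G x x).im := by
    have := form_im_nonneg S V (dl x)
    rwa [form_dl, ← hG] at this
  have s1 := S.hQ (Gᴴ *ᵥ (Uᴴ *ᵥ dl x)) (G *ᵥ (Uᴴ *ᵥ (Gᴴ *ᵥ c)))
  have s2 := S.hQ (G *ᵥ (U *ᵥ (Gᴴ *ᵥ (Uᴴ *ᵥ dl x)))) (Gᴴ *ᵥ c)
  calc _ ≤ ∑ y, (2 * ‖star (Gᴴ *ᵥ (Uᴴ *ᵥ dl x)) ⬝ᵥ (A y *ᵥ (G *ᵥ (Uᴴ *ᵥ (Gᴴ *ᵥ c))))‖ ^ 2 +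
        2 * ‖star (G *ᵥ (U *ᵥ (Gᴴ *ᵥ (Uᴴ *ᵥ dl x)))) ⬝ᵥ (A y *ᵥ (Gᴴ *ᵥ c))‖ ^ 2) :=
        Finset.sum_le_sum fun y _ => norm_sub_sq_le _ _
    _ = 2 * ∑ y, ‖star (Gᴴ *ᵥ (Uᴴ *ᵥ dl x)) ⬝ᵥ (A y *ᵥ (G *ᵥ (Uᴴ *ᵥ (Gᴴ *ᵥ c))))‖ ^ 2 +
        2 * ∑ y, ‖star (G *ᵥ (U *ᵥ (Gᴴ *ᵥ (Uᴴ *ᵥ dl x)))) ⬝ᵥ (A y *ᵥ (Gᴴ *ᵥ c))‖ ^ 2 := by
        rw [Finset.sum_add_distrib, Finset.mul_sum, Finset.mul_sum]
    _ ≤ 2 * (Q * (qf J (Gᴴ *ᵥ (Uᴴ *ᵥ dl x)) * qf J (G *ᵥ (Uᴴ *ᵥ (Gᴴ *ᵥ c))))) +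
        2 * (Q * (qf J (G *ᵥ (U *ᵥ (Gᴴ *ᵥ (Uᴴ *ᵥ dl x)))) * qf J (Gᴴ *ᵥ c))) := by gcongr
    _ ≤ 2 * (Q * ((G x x).im / η * (nsq (Gᴴ *ᵥ c) / (η ^ 2 * δ)))) +
        2 * (Q * ((G x x).im / (η * δ) / (η ^ 2 * δ) * qf J (Gᴴ *ᵥ c))) := by
        rw [hq1]
        gcongr
    _ = _ := by
        rw [← hG]
        ring

theorem var2a (hP : T_POIN) (S : Sys h J A η δ Q) {u : n → ℂ} (hu : ∀ x, ‖u x‖ = 1) (x : n)
    (mb : ℂ) (ν : ℝ) (hm : ∫ V, GG h J A η V x x ∂(GP m) = mb) (hν : Q ≤ ν * η ^ 2)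
    (hν2 : ν ≤ 1 / 2) :
    var (fun V => (cj u (GG h J A η V) * (GG h J A η V)ᴴ) x x) ≤
      8 * ν * mb.im ^ 2 / (η * δ) ^ 2 := by
  have hη := S.hη
  have hδ := S.hδ
  have hQ := S.hQ0
  obtain ⟨-, h2, h3⟩ := varD hP S x mb ν hm hν hν2
  have h1 := var2 hP S hu x (dl x)
    (g := fun V => 4 * Q / (η ^ 4 * δ ^ 2) * (GG h J A η V x x).im ^ 2)
    ((RC.const _).mul (RC.im ((bm_gg S) x x)).sq) (fun V => by
      have hI : 0 ≤ (GG h J A η V x x).im := by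
        have := form_im_nonneg S V (dl x)
        rwa [form_dl] at this
      have e1 := (nsq_gg_im S V (dl x)).2
      rw [form_dl] at e1
      have e2 := (qf_gg_eq S V (dl x)).2
      rw [form_dl] at e2
      rw [e2]
      calc _ ≤ 2 * Q * ((GG h J A η V x x).im / η *
            (((GG h J A η V x x).im / (η * δ)) / (η ^ 2 * δ))) +
            2 * Q * ((GG h J A η V x x).im / (η * δ) / (η ^ 2 * δ) *
              ((GG h J A η V x x).im / η)) := by gcongr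
        _ = _ := by
            field_simp
            ring)
  simp only [form_dl] at h1
  refine h1.trans ?_
  rw [integral_const_mul]
  calc 4 * Q / (η ^ 4 * δ ^ 2) * ∫ V, (GG h J A η V x x).im ^ 2 ∂(GP m) ≤
      4 * (ν * η ^ 2) / (η ^ 4 * δ ^ 2) * (2 * mb.im ^ 2) := by gcongr
    _ = _ := by
      field_simp
      ring

theorem var2b (hP : T_POIN) (S : Sys h J A η δ Q) {u : n → ℂ} (hu : ∀ x, ‖u x‖ = 1) (x : n)
    (mb : ℂ) (hm : ∫ V, GG h J A η V x x ∂(GP m) = mb) (c : n → ℂ) :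
    var (fun V => star (dl x) ⬝ᵥ ((cj u (GG h J A η V) * (GG h J A η V)ᴴ) *ᵥ c)) ≤
      4 * (Q * mb.im * nsq c / (η ^ 3 * δ)) / (η * δ) ^ 2 := by
  have hη := S.hη
  have hδ := S.hδ
  have hQ := S.hQ0
  have hc := nsq_nonneg c
  have him : ∫ V, (GG h J A η V x x).im ∂(GP m) = mb.im := by
    rw [← hm]
    exact integral_im (((bm_gg S) x x).integrable _)
  have h1 := var2 hP S hu x c
    (g := fun V => 4 * Q * nsq c / (η ^ 5 * δ ^ 3) * (GG h J A η V x x).im)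
    ((RC.const _).mul (RC.im ((bm_gg S) x x))) (fun V => by
      have hI : 0 ≤ (GG h J A η V x x).im := by
        have := form_im_nonneg S V (dl x)
        rwa [form_dl] at this
      have e1 := (nsq_gg S V c).2
      have e2 := (qf_gg S V c).2
      calc _ ≤ 2 * Q * ((GG h J A η V x x).im / η *
            ((nsq c / (η * δ) ^ 2) / (η ^ 2 * δ))) +
            2 * Q * ((GG h J A η V x x).im / (η * δ) / (η ^ 2 * δ) *
              (nsq c / (η ^ 2 * δ))) := by gcongr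
        _ = _ := by
            field_simp
            ring)
  refine h1.trans (le_of_eq ?_)
  rw [integral_const_mul, him]
  field_simp

end sys

end Pool.Agent.T2h98.QD
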