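import Pool.Agent.T2h98.QD.KQ
import Pool.Agent.T2h98.QD.Var

/-! The algebra of Fourier multipliers. -/

set_option autoImplicit false
set_option linter.unusedSectionVars false

open scoped BigOperators Matrix
open MeasureTheory ProbabilityTheory

namespace Pool.Agent.T2h98.QD

open Pool.Agent.W788.MFP.Four (T e NN adj K)
open Pool.Agent.W788.BK (nsq hs PP JJ hi Low cr nsq_nonneg)

variable {d L : ℕ} [NeZero L]

theorem sum_ee (k l : T d L) : ∑ y, e k y * (starRingEnd ℂ) (e l y) =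
    if k = l then (NN d L : ℂ) else 0 := by
  have h1 : ∀ y, e k y * (starRingEnd ℂ) (e l y) = e y (k - l) := by
    intro y
    rw [KQ.e_sub, Pool.Agent.W788.MFP.Four.e_comm y k, Pool.Agent.W788.MFP.Four.e_comm y l]
  simp only [h1]
  rw [Pool.Agent.W788.MFP.Four.sum_e]
  by_cases h : k = l
  · rw [if_pos h, if_pos (sub_eq_zero.2 h)]
  · rw [if_neg h, if_neg (sub_ne_zero.2 h)]

theorem mo_apply (m : T d L → ℂ) (x y : T d L) :
    Mo m x y = ((NN d L : ℝ) : ℂ)⁻¹ * ∑ k, m k * (e k y * (starRingEnd ℂ) (e k x)) := by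
  unfold Mo
  rw [Matrix.of_apply]
  simp only [KQ.e_sub]

theorem mo_mul (m n : T d L → ℂ) : Mo m * Mo n = Mo fun k => m k * n k := by
  ext x z
  rw [Matrix.mul_apply]
  simp only [mo_apply]
  have h2 : ∀ y, (((NN d L : ℝ) : ℂ)⁻¹ * ∑ k, m k * (e k y * (starRingEnd ℂ) (e k x))) *
      (((NN d L : ℝ) : ℂ)⁻¹ * ∑ l, n l * (e l z * (starRingEnd ℂ) (e l y))) =
      (((NN d L : ℝ) : ℂ)⁻¹) ^ 2 * ∑ k, ∑ l, (m k * (starRingEnd ℂ) (e k x) * n l * e l z) *
        (e k y * (starRingEnd ℂ) (e l y)) := by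
    intro y
    rw [mul_mul_mul_comm, Finset.sum_mul_sum, sq]
    congr 1
    refine Finset.sum_congr rfl fun k _ => Finset.sum_congr rfl fun l _ => ?_
    ring
  simp only [h2]
  rw [← Finset.mul_sum, Finset.sum_comm]
  have h3 : ∀ k, ∑ y, ∑ l, (m k * (starRingEnd ℂ) (e k x) * n l * e l z) *
        (e k y * (starRingEnd ℂ) (e l y)) =
      (NN d L : ℂ) * (m k * n k * (e k z * (starRingEnd ℂ) (e k x))) := by
    intro k
    rw [Finset.sum_comm]
    simp only [← Finset.mul_sum, sum_ee]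
    rw [Finset.sum_eq_single k]
    · rw [if_pos rfl]
      ring
    · intro l _ hl
      rw [if_neg (Ne.symm hl), mul_zero]
    · intro h
      exact absurd (Finset.mem_univ k) h
  rw [Finset.sum_congr rfl fun k _ => h3 k, ← Finset.mul_sum]
  have hN := KQ.N_ne (d := d) (L := L)
  field_simp

theorem mo_one : Mo (fun _ : T d L => (1 : ℂ)) = 1 := by
  ext x y
  rw [mo_apply]
  have h1 : ∀ k, (1 : ℂ) * (e k y * (starRingEnd ℂ) (e k x)) = e k (y - x) := by
    intro k
    rw [one_mul, KQ.e_sub]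
  simp only [h1]
  rw [Pool.Agent.W788.MFP.Four.sum_e]
  have hN := KQ.N_ne (d := d) (L := L)
  by_cases h : x = y
  · subst h
    rw [sub_self, if_pos rfl, Matrix.one_apply_eq, inv_mul_cancel₀ hN]
  · rw [if_neg (sub_ne_zero.2 (Ne.symm h)), Matrix.one_apply_ne h, mul_zero]

theorem mo_star (m : T d L → ℂ) : (Mo m)ᴴ = Mo fun k => (starRingEnd ℂ) (m k) := by
  ext x y
  rw [Matrix.conjTranspose_apply, mo_apply, mo_apply, Complex.star_def, map_mul, map_sum, map_inv₀,
    Complex.conj_ofReal]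
  congr 1
  refine Finset.sum_congr rfl fun k _ => ?_
  rw [map_mul, map_mul, Complex.conj_conj]
  ring

theorem mo_smul (c : ℂ) (m : T d L → ℂ) : c • Mo m = Mo fun k => c * m k := by
  ext x y
  rw [Matrix.smul_apply, mo_apply, mo_apply, smul_eq_mul, mul_left_comm, Finset.mul_sum]
  congr 1
  refine Finset.sum_congr rfl fun k _ => ?_
  ring

theorem mo_sub (m n : T d L → ℂ) : Mo m - Mo n = Mo fun k => m k - n k := by
  ext x y
  rw [Matrix.sub_apply, mo_apply, mo_apply, mo_apply, ← mul_sub, ← Finset.sum_sub_distrib]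
  congr 1
  refine Finset.sum_congr rfl fun k _ => ?_
  ring

theorem mo_add (m n : T d L → ℂ) : Mo m + Mo n = Mo fun k => m k + n k := by
  ext x y
  rw [Matrix.add_apply, mo_apply, mo_apply, mo_apply, ← mul_add, ← Finset.sum_add_distrib]
  congr 1
  refine Finset.sum_congr rfl fun k _ => ?_
  ring

theorem mo_diag (m : T d L → ℂ) (x : T d L) :
    Mo m x x = ((NN d L : ℝ) : ℂ)⁻¹ * ∑ k, m k := by
  rw [mo_apply]
  congr 1
  refine Finset.sum_congr rfl fun k _ => ?_
  rw [Pool.Agent.W788.MFP.Four.e_normSq, mul_one]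

theorem mo_trace (m : T d L → ℂ) : (Mo m).trace = ∑ k, m k := by
  unfold Matrix.trace
  have h1 : ∀ x, Matrix.diag (Mo m) x = ((NN d L : ℝ) : ℂ)⁻¹ * ∑ k, m k := fun x => mo_diag m x
  simp only [h1]
  have hc := Pool.Agent.W788.MFP.Four.card_T (d := d) (L := L)
  have hc2 : (Fintype.card (T d L) : ℂ) = ((NN d L : ℝ) : ℂ) := by
    rw [← hc]
    push_cast
    rfl
  rw [Finset.sum_const, Finset.card_univ, nsmul_eq_mul, hc2, ← mul_assoc,
    mul_inv_cancel₀ (KQ.N_ne (d := d) (L := L)), one_mul]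

theorem cj_mo (q : T d L) (m : T d L → ℂ) : cj (e q) (Mo m) = Mo fun k => m (k + q) := by
  ext x y
  unfold cj
  rw [Matrix.of_apply, mo_apply, mo_apply, ← Equiv.sum_comp (Equiv.addRight q)
    (fun k => m k * (e k y * (starRingEnd ℂ) (e k x)))]
  rw [mul_comm (e q x), mul_assoc, mul_assoc, Finset.sum_mul]
  congr 1
  refine Finset.sum_congr rfl fun k _ => ?_
  rw [Equiv.coe_addRight, Pool.Agent.W788.MFP.Four.e_add_left,
    Pool.Agent.W788.MFP.Four.e_add_left, map_mul, Complex.star_def]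
  have h1 := Pool.Agent.W788.MFP.Four.e_normSq q x
  have h2 := Pool.Agent.W788.MFP.Four.e_normSq q y
  linear_combination (m (k + q) * e k y * (starRingEnd ℂ) (e k x)) *
    ((e q x * (starRingEnd ℂ) (e q x)) * h2 + h1)

theorem fc_mo (m : T d L → ℂ) (w : T d L → ℂ) (l : T d L) :
    KQ.fc (Mo m *ᵥ w) l = m l * KQ.fc w l := by
  unfold KQ.fc
  have h1 : ∀ x, (Mo m *ᵥ w) x = ∑ y, Mo m x y * w y := fun x => rfl
  simp only [h1, mo_apply]
  have h2 : ∀ x, (∑ y, ((NN d L : ℝ) : ℂ)⁻¹ * (∑ k, m k * (e k y * (starRingEnd ℂ) (e k x))) *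
      w y) * e l x = ∑ y, ∑ k, ((NN d L : ℝ) : ℂ)⁻¹ * (m k * e k y * w y) *
        (e l x * (starRingEnd ℂ) (e k x)) := by
    intro x
    rw [Finset.sum_mul]
    refine Finset.sum_congr rfl fun y _ => ?_
    rw [Finset.mul_sum, Finset.sum_mul, Finset.sum_mul]
    refine Finset.sum_congr rfl fun k _ => ?_
    ring
  simp only [h2]
  rw [Finset.sum_comm, Finset.mul_sum]
  refine Finset.sum_congr rfl fun y _ => ?_
  rw [Finset.sum_comm]
  simp only [← Finset.mul_sum, sum_ee]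
  rw [Finset.sum_eq_single l]
  · rw [if_pos rfl]
    have hN := KQ.N_ne (d := d) (L := L)
    field_simp
  · intro k _ hk
    rw [if_neg (Ne.symm hk), mul_zero]
  · intro h
    exact absurd (Finset.mem_univ l) h

theorem nsq_fc (w : T d L → ℂ) : nsq w = (NN d L)⁻¹ * ∑ k, ‖KQ.fc w k‖ ^ 2 := by
  have hN := Pool.Agent.W788.MFP.Four.NN_pos (d := d) (L := L)
  unfold KQ.fc
  rw [KQ.planchC]
  unfold nsq
  field_simp

theorem nsq_mo (m : T d L → ℂ) (c : ℝ) (hm : ∀ k, ‖m k‖ ^ 2 ≤ c) (w : T d L → ℂ) :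
    nsq (Mo m *ᵥ w) ≤ c * nsq w := by
  have hN := Pool.Agent.W788.MFP.Four.NN_pos (d := d) (L := L)
  rw [nsq_fc, nsq_fc w, mul_left_comm]
  apply mul_le_mul_of_nonneg_left _ (by positivity)
  rw [Finset.mul_sum]
  refine Finset.sum_le_sum fun k _ => ?_
  rw [fc_mo, norm_mul, mul_pow]
  exact mul_le_mul_of_nonneg_right (hm k) (by positivity)

theorem fc_dl (x k : T d L) : KQ.fc (dl x) k = e k x := by
  unfold KQ.fc dl
  rw [Finset.sum_eq_single x]
  · rw [Pi.single_eq_same, one_mul]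
  · intro y _ hy
    rw [Pi.single_eq_of_ne hy, zero_mul]
  · intro h
    exact absurd (Finset.mem_univ x) h

theorem e_norm (k x : T d L) : ‖e k x‖ = 1 := by
  have h1 := Pool.Agent.W788.MFP.Four.e_normSq k x
  rw [Complex.mul_conj, Complex.normSq_eq_norm_sq] at h1
  have h2 : ‖e k x‖ ^ 2 = 1 := by exact_mod_cast h1
  have h3 := norm_nonneg (e k x)
  nlinarith

theorem nsq_mo_dl (m : T d L → ℂ) (x : T d L) :
    nsq (Mo m *ᵥ dl x) = (NN d L)⁻¹ * ∑ k, ‖m k‖ ^ 2 := by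
  rw [nsq_fc]
  congr 1
  refine Finset.sum_congr rfl fun k _ => ?_
  rw [fc_mo, fc_dl, norm_mul, e_norm, mul_one]

end Pool.Agent.T2h98.QD
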