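import Pool.Agent.T2h98.QD.Stm

/-! Spectral projections are bounded by the resolvent. -/

set_option autoImplicit false
set_option linter.unusedSectionVars false

open scoped BigOperators Matrix
open MeasureTheory ProbabilityTheory

namespace Pool.Agent.T2h98.QD

open Pool.Agent.W788.MFP.Four (T e NN adj K Op ft)
open Pool.Agent.W788.BK (nsq hs PP JJ hi Low cr nsq_nonneg nsq_eq nsq_smul nsq_eq_zero cs_norm adjoint herm)

namespace Win

section abs

variable {n : Type} [Fintype n] [DecidableEq n]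

theorem im_herm {H : Matrix n n ℂ} (hH : H.IsHermitian) (w : n → ℂ) :
    (star w ⬝ᵥ (H *ᵥ w)).im = 0 := by
  have h1 : (starRingEnd ℂ) (star w ⬝ᵥ (H *ᵥ w)) = star w ⬝ᵥ (H *ᵥ w) := by
    have h2 : star (star w ⬝ᵥ (H *ᵥ w)) = star (H *ᵥ w) ⬝ᵥ w := by
      rw [Matrix.star_dotProduct, star_star]
    rw [← Complex.star_def, h2, ← herm hH]
  exact Complex.conj_eq_iff_im.1 h1

theorem qf_eq {H : Matrix n n ℂ} (hH : H.IsHermitian) (w : n → ℂ) :
    star w ⬝ᵥ (H *ᵥ w) = ((qf H w : ℝ) : ℂ) := by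
  apply Complex.ext
  · rfl
  · rw [im_herm hH, Complex.ofReal_im]

open scoped ComplexOrder MatrixOrder in
theorem exists_root {J : Matrix n n ℂ} (hJ : J.IsHermitian) (hpos : ∀ w : n → ℂ, 0 ≤ qf J w) :
    ∃ B : Matrix n n ℂ, J = Bᴴ * B := by
  have hP : J.PosSemidef := Matrix.PosSemidef.of_dotProduct_mulVec_nonneg hJ fun x => by
    rw [qf_eq hJ]
    exact_mod_cast hpos x
  obtain ⟨B, hB⟩ := CStarAlgebra.nonneg_iff_eq_star_mul_self.mp hP.nonneg
  exact ⟨B, hB⟩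

/-- Cauchy-Schwarz for a positive semidefinite form -/
theorem cs_form {J : Matrix n n ℂ} (hJ : J.IsHermitian) (hpos : ∀ w : n → ℂ, 0 ≤ qf J w)
    (u v : n → ℂ) :
    ‖star u ⬝ᵥ (J *ᵥ v)‖ ≤ Real.sqrt (qf J u) * Real.sqrt (qf J v) := by
  obtain ⟨B, hB⟩ := exists_root hJ hpos
  have h1 : ∀ a b : n → ℂ, star a ⬝ᵥ (J *ᵥ b) = star (B *ᵥ a) ⬝ᵥ (B *ᵥ b) := by
    intro a b
    rw [hB, ← Matrix.mulVec_mulVec, adjoint, Matrix.conjTranspose_conjTranspose]
  have h2 : ∀ a : n → ℂ, qf J a = nsq (B *ᵥ a) := by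
    intro a
    unfold qf
    rw [h1, ← nsq_eq, Complex.ofReal_re]
  rw [h1, h2, h2]
  exact cs_norm _ _

variable {H J : Matrix n n ℂ} {η δ : ℝ}

/-- `H - i η J` -/
noncomputable abbrev XX' (H J : Matrix n n ℂ) (η : ℝ) : Matrix n n ℂ :=
  H - ((η : ℂ) * Complex.I) • J

theorem im_X (hH : H.IsHermitian) (hJ : J.IsHermitian) (w : n → ℂ) :
    (star w ⬝ᵥ (XX' H J η *ᵥ w)).im = -(η * qf J w) := by
  unfold XX'
  rw [Matrix.sub_mulVec, Matrix.smul_mulVec, dotProduct_sub, dotProduct_smul, qf_eq hH, qf_eq hJ]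
  simp

theorem isUnit_X (hH : H.IsHermitian) (hJ : J.IsHermitian) (hη : 0 < η) (hδ : 0 < δ)
    (hJδ : ∀ w : n → ℂ, δ * nsq w ≤ qf J w) : IsUnit (XX' H J η) := by
  rw [← Matrix.mulVec_injective_iff_isUnit]
  intro u w huw
  have h1 : XX' H J η *ᵥ (u - w) = 0 := by
    rw [Matrix.mulVec_sub]
    exact sub_eq_zero.2 huw
  have h2 := im_X (η := η) hH hJ (u - w)
  rw [h1, dotProduct_zero, Complex.zero_im] at h2
  have h3 := hJδ (u - w)
  have h4 := nsq_nonneg (u - w)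
  have h5 : nsq (u - w) = 0 := by
    have h6 : qf J (u - w) = 0 := by
      have h7 : η * qf J (u - w) = 0 := by linarith
      exact (mul_eq_zero.1 h7).resolve_left hη.ne'
    rw [h6] at h3
    nlinarith
  exact sub_eq_zero.1 (nsq_eq_zero _ h5)

/-- the imaginary part of the resolvent -/
theorem im_G (hH : H.IsHermitian) (hJ : J.IsHermitian) (hη : 0 < η) (hδ : 0 < δ)
    (hJδ : ∀ w : n → ℂ, δ * nsq w ≤ qf J w) (φ : n → ℂ) :
    (star φ ⬝ᵥ ((XX' H J η)⁻¹ *ᵥ φ)).im = η * qf J (((XX' H J η)⁻¹)ᴴ *ᵥ φ) := by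
  have hu := isUnit_X hH hJ hη hδ hJδ
  have hdet : IsUnit (XX' H J η).det := (Matrix.isUnit_iff_isUnit_det _).1 hu
  obtain ⟨u, huE⟩ : ∃ u : n → ℂ, u = ((XX' H J η)⁻¹)ᴴ *ᵥ φ := ⟨_, rfl⟩
  have h1 : (XX' H J η)ᴴ *ᵥ u = φ := by
    rw [huE, Matrix.mulVec_mulVec, ← Matrix.conjTranspose_mul, Matrix.nonsing_inv_mul _ hdet,
      Matrix.conjTranspose_one, Matrix.one_mulVec]
  have h2 : star φ ⬝ᵥ ((XX' H J η)⁻¹ *ᵥ φ) = star u ⬝ᵥ φ := by
    rw [adjoint, ← huE]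
  have h3 : star u ⬝ᵥ φ = star (XX' H J η *ᵥ u) ⬝ᵥ u := by
    conv_lhs => rw [← h1, adjoint, Matrix.conjTranspose_conjTranspose]
  have h4 : star (XX' H J η *ᵥ u) ⬝ᵥ u = (starRingEnd ℂ) (star u ⬝ᵥ (XX' H J η *ᵥ u)) := by
    rw [← Complex.star_def, Matrix.star_dotProduct]
  rw [h2, h3, h4, Complex.conj_im, im_X hH hJ, ← huE, neg_neg]

/-- the abstract form of the bound -/
theorem abs_win (hH : H.IsHermitian) (hJ : J.IsHermitian) (hη : 0 < η) (hδ : 0 < δ)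
    (hJδ : ∀ w : n → ℂ, δ * nsq w ≤ qf J w) (φ v r : n → ℂ)
    (hv : star φ ⬝ᵥ v = ((nsq v : ℝ) : ℂ))
    (hX : XX' H J η *ᵥ v = r - ((η : ℂ) * Complex.I) • (J *ᵥ v))
    (hr : nsq r ≤ (2 * η * δ) ^ 2 * nsq v) (hJv : qf J v ≤ 4 * δ * nsq v) :
    nsq v ≤ 16 * η * δ * (star φ ⬝ᵥ ((XX' H J η)⁻¹ *ᵥ φ)).im := by
  have hu := isUnit_X hH hJ hη hδ hJδ
  have hdet : IsUnit (XX' H J η).det := (Matrix.isUnit_iff_isUnit_det _).1 hu
  have hpos : ∀ w : n → ℂ, 0 ≤ qf J w := fun w =>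
    (mul_nonneg hδ.le (nsq_nonneg w)).trans (hJδ w)
  rw [im_G hH hJ hη hδ hJδ φ]
  obtain ⟨u, huE⟩ : ∃ u : n → ℂ, u = ((XX' H J η)⁻¹)ᴴ *ᵥ φ := ⟨_, rfl⟩
  rw [← huE]
  have h1 : v = (XX' H J η)⁻¹ *ᵥ (r - ((η : ℂ) * Complex.I) • (J *ᵥ v)) := by
    rw [← hX, Matrix.mulVec_mulVec, Matrix.nonsing_inv_mul _ hdet, Matrix.one_mulVec]
  have h2 : star φ ⬝ᵥ v = star u ⬝ᵥ r - ((η : ℂ) * Complex.I) * (star u ⬝ᵥ (J *ᵥ v)) := by
    conv_lhs => rw [h1, adjoint, ← huE, dotProduct_sub, dotProduct_smul, smul_eq_mul]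
  have h3 : nsq v ≤ ‖star u ⬝ᵥ r‖ + η * ‖star u ⬝ᵥ (J *ᵥ v)‖ := by
    have h4 : ‖star φ ⬝ᵥ v‖ = nsq v := by
      rw [hv, Complex.norm_real, Real.norm_eq_abs, abs_of_nonneg (nsq_nonneg v)]
    rw [← h4, h2]
    refine (norm_sub_le _ _).trans ?_
    rw [norm_mul, norm_mul, Complex.norm_I, mul_one, Complex.norm_real, Real.norm_eq_abs,
      abs_of_pos hη]
  obtain ⟨a, ha⟩ : ∃ a : ℝ, a = Real.sqrt (qf J u) := ⟨_, rfl⟩
  obtain ⟨b, hb⟩ : ∃ b : ℝ, b = Real.sqrt (nsq v) := ⟨_, rfl⟩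
  obtain ⟨s, hs⟩ : ∃ s : ℝ, s = Real.sqrt δ := ⟨_, rfl⟩
  have ha0 : 0 ≤ a := by rw [ha]; exact Real.sqrt_nonneg _
  have hb0 : 0 ≤ b := by rw [hb]; exact Real.sqrt_nonneg _
  have hs0 : 0 < s := by rw [hs]; exact Real.sqrt_pos.2 hδ
  have ha2 : a ^ 2 = qf J u := by rw [ha]; exact Real.sq_sqrt (hpos u)
  have hb2 : b ^ 2 = nsq v := by rw [hb]; exact Real.sq_sqrt (nsq_nonneg v)
  have hs2 : s ^ 2 = δ := by rw [hs]; exact Real.sq_sqrt hδ.le
  -- first term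
  have h5 : ‖star u ⬝ᵥ r‖ ≤ 2 * η * s * a * b := by
    refine (cs_norm u r).trans ?_
    have h6 : Real.sqrt (nsq u) ≤ a / s := by
      apply Real.sqrt_le_iff.2
      refine ⟨by positivity, ?_⟩
      rw [div_pow, ha2, hs2, le_div_iff₀ hδ, mul_comm]
      exact hJδ u
    have h7 : Real.sqrt (nsq r) ≤ 2 * η * δ * b := by
      apply Real.sqrt_le_iff.2
      refine ⟨by positivity, ?_⟩
      rw [mul_pow, hb2]
      exact hr
    calc Real.sqrt (nsq u) * Real.sqrt (nsq r) ≤ (a / s) * (2 * η * δ * b) := by gcongr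
      _ = _ := by
        rw [← hs2]
        field_simp
  have h6 : ‖star u ⬝ᵥ (J *ᵥ v)‖ ≤ 2 * s * a * b := by
    refine (cs_form hJ hpos u v).trans ?_
    have h7 : Real.sqrt (qf J v) ≤ 2 * s * b := by
      apply Real.sqrt_le_iff.2
      refine ⟨by positivity, ?_⟩
      rw [mul_pow, mul_pow, hb2, hs2]
      linarith
    rw [← ha]
    calc a * Real.sqrt (qf J v) ≤ a * (2 * s * b) := by gcongr
      _ = _ := by ring
  have h7 : b ^ 2 ≤ (4 * η * s * a) * b := by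
    rw [hb2]
    calc nsq v ≤ ‖star u ⬝ᵥ r‖ + η * ‖star u ⬝ᵥ (J *ᵥ v)‖ := h3
      _ ≤ 2 * η * s * a * b + η * (2 * s * a * b) := by gcongr
      _ = _ := by ring
  have h8 : b ≤ 4 * η * s * a := by
    rcases hb0.eq_or_lt with h | h
    · rw [← h]; positivity
    · rw [sq] at h7
      exact le_of_mul_le_mul_right h7 h
  calc nsq v = b ^ 2 := hb2.symm
    _ ≤ (4 * η * s * a) ^ 2 := pow_le_pow_left₀ hb0 h8 2
    _ = 16 * η * δ * (η * qf J u) := by rw [← ha2, ← hs2]; ring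

end abs

section torus

variable {d L : ℕ} [NeZero L]

/-- a real even multiplier is the real kernel -/
theorem Mo_apply (m : T d L → ℝ) (hm : ∀ k, m (-k) = m k) (x y : T d L) :
    Mo (fun k => ((m k : ℝ) : ℂ)) x y = ((K m (x - y) : ℝ) : ℂ) := by
  have h1 : ∑ k, (m k : ℂ) * e k (y - x) = ((∑ k, m k * (e k (x - y)).re : ℝ) : ℂ) := by
    have h2 : ∑ k, (m k : ℂ) * e k (y - x) = ∑ k, (m k : ℂ) * e k (x - y) := by
      rw [← Equiv.sum_comp (Equiv.neg (T d L))]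
      refine Finset.sum_congr rfl fun k _ => ?_
      rw [Equiv.neg_apply, hm, Pool.Agent.W788.MFP.Four.e_neg_left,
        ← Pool.Agent.W788.MFP.Four.e_neg, neg_sub]
    have h3 : ∀ k, e k (y - x) = (starRingEnd ℂ) (e k (x - y)) := fun k => by
      rw [← Pool.Agent.W788.MFP.Four.e_neg, neg_sub]
    have h4 : 2 * ∑ k, (m k : ℂ) * e k (y - x) = 2 * ((∑ k, m k * (e k (x - y)).re : ℝ) : ℂ) := by
      calc 2 * ∑ k, (m k : ℂ) * e k (y - x) =
            ∑ k, (m k : ℂ) * e k (x - y) + ∑ k, (m k : ℂ) * e k (y - x) := by rw [← h2]; ring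
        _ = ∑ k, (m k : ℂ) * (e k (x - y) + (starRingEnd ℂ) (e k (x - y))) := by
            rw [← Finset.sum_add_distrib]
            exact Finset.sum_congr rfl fun k _ => by rw [h3]; ring
        _ = _ := by
            push_cast
            rw [Finset.mul_sum]
            refine Finset.sum_congr rfl fun k _ => ?_
            rw [Complex.add_conj]
            push_cast
            ring
    exact mul_left_cancel₀ two_ne_zero h4
  unfold Mo K
  rw [Matrix.of_apply, h1]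
  push_cast
  rfl

theorem Mo_re (m : T d L → ℝ) (hm : ∀ k, m (-k) = m k) (w : T d L → ℂ) (x : T d L) :
    ((Mo (fun k => ((m k : ℝ) : ℂ)) *ᵥ w) x).re = Op m (fun y => (w y).re) x := by
  have h0 : (Mo (fun k => ((m k : ℝ) : ℂ)) *ᵥ w) x =
      ∑ y, Mo (fun k => ((m k : ℝ) : ℂ)) x y * w y := rfl
  rw [h0, Complex.re_sum]
  unfold Op
  refine Finset.sum_congr rfl fun y _ => ?_
  rw [Mo_apply m hm, Complex.re_ofReal_mul]

theorem Mo_im (m : T d L → ℝ) (hm : ∀ k, m (-k) = m k) (w : T d L → ℂ) (x : T d L) :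
    ((Mo (fun k => ((m k : ℝ) : ℂ)) *ᵥ w) x).im = Op m (fun y => (w y).im) x := by
  have h0 : (Mo (fun k => ((m k : ℝ) : ℂ)) *ᵥ w) x =
      ∑ y, Mo (fun k => ((m k : ℝ) : ℂ)) x y * w y := rfl
  rw [h0, Complex.im_sum]
  unfold Op
  refine Finset.sum_congr rfl fun y _ => ?_
  rw [Mo_apply m hm, Complex.im_ofReal_mul]

theorem Mo_herm (m : T d L → ℝ) (hm : ∀ k, m (-k) = m k) :
    (Mo (fun k => ((m k : ℝ) : ℂ))).IsHermitian := by
  ext x y
  rw [Matrix.conjTranspose_apply, Mo_apply m hm, Mo_apply m hm, ← neg_sub y x,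
    Pool.Agent.W788.MFP.Four.K_neg, Complex.star_def, Complex.conj_ofReal]

theorem Mo_qf (m : T d L → ℝ) (hm : ∀ k, m (-k) = m k) (w : T d L → ℂ) :
    qf (Mo (fun k => ((m k : ℝ) : ℂ))) w =
      Pool.Agent.W788.MFP.Four.q m (fun y => (w y).re) +
        Pool.Agent.W788.MFP.Four.q m (fun y => (w y).im) := by
  unfold qf dotProduct
  rw [Complex.re_sum, ← Pool.Agent.W788.MFP.Four.sum_mul_Op m _ hm,
    ← Pool.Agent.W788.MFP.Four.sum_mul_Op m _ hm, ← Finset.sum_add_distrib]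
  refine Finset.sum_congr rfl fun x _ => ?_
  rw [← Mo_re m hm, ← Mo_im m hm, Pi.star_apply, Complex.star_def, Complex.mul_re,
    Complex.conj_re, Complex.conj_im]
  ring

theorem nsq_parts (w : T d L → ℂ) :
    nsq w = ∑ x, (w x).re ^ 2 + ∑ x, (w x).im ^ 2 := by
  unfold nsq
  rw [← Finset.sum_add_distrib]
  refine Finset.sum_congr rfl fun x _ => ?_
  rw [← Complex.normSq_eq_norm_sq, Complex.normSq_apply]
  ring

theorem JJ_eq (E δ : ℝ) : (JJ E δ : T d L → ℝ) = Pool.Agent.W788.MFP.Form.J E δ := rfl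

theorem JJ_neg (E δ : ℝ) (k : T d L) : JJ E δ (-k) = JJ E δ k :=
  Pool.Agent.W788.MFP.Form.J_neg E δ k

theorem J0_herm (E δ : ℝ) : (J0 E δ : Matrix (T d L) (T d L) ℂ).IsHermitian :=
  Mo_herm _ (JJ_neg E δ)

theorem h0_herm (E : ℝ) : (h0 E : Matrix (T d L) (T d L) ℂ).IsHermitian :=
  Mo_herm _ fun k => by rw [Pool.Agent.W788.MFP.Four.adj_neg]

theorem J0_ge (E δ : ℝ) (hδ : 0 < δ) (w : T d L → ℂ) : δ * nsq w ≤ qf (J0 E δ) w := by
  unfold J0
  rw [Mo_qf _ (JJ_neg E δ), nsq_parts, mul_add]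
  have h1 : ∀ f : T d L → ℝ, δ * ∑ x, f x ^ 2 ≤ Pool.Agent.W788.MFP.Four.q (JJ E δ) f := by
    intro f
    rw [Pool.Agent.W788.MFP.Four.sum_sq, ← Pool.Agent.W788.MFP.Four.q_const]
    apply Pool.Agent.W788.MFP.Four.q_mono
    intro k
    rw [mul_one]
    exact Pool.Agent.W788.MFP.Form.J_ge E δ hδ k
  exact add_le_add (h1 _) (h1 _)

theorem PY_herm (θ : ℝ) (y : T d L) : (PY θ y).IsHermitian := by
  unfold PY
  rw [Matrix.isHermitian_diagonal_iff]
  intro i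
  rw [isSelfAdjoint_iff, Complex.star_def, Complex.conj_ofReal]

/-- `H` of the resolvent `Gt` -/
noncomputable def Hm (σ E θ : ℝ) (ξ : T d L → ℝ) : Matrix (T d L) (T d L) ℂ :=
  h0 E + ∑ y, (ξ y : ℂ) • ((σ : ℂ) • PY θ y)

theorem Hm_herm (σ E θ : ℝ) (ξ : T d L → ℝ) : (Hm σ E θ ξ).IsHermitian := by
  unfold Hm Matrix.IsHermitian
  rw [Matrix.conjTranspose_add, (h0_herm E).eq, Matrix.conjTranspose_sum]
  congr 1
  refine Finset.sum_congr rfl fun y _ => ?_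
  rw [Matrix.conjTranspose_smul, Matrix.conjTranspose_smul, (PY_herm θ y).eq]
  simp

theorem Gt_eq (σ E δ θ η : ℝ) (ξ : T d L → ℝ) :
    Gt σ E δ θ η ξ = (XX' (Hm σ E θ ξ) (J0 E δ) η)⁻¹ := rfl

theorem K_one (x : T d L) : K (fun _ => 1) x = if x = 0 then 1 else 0 := by
  unfold K
  simp only [one_mul]
  rw [← Complex.re_sum, Pool.Agent.W788.MFP.Four.sum_e]
  have hN := (Pool.Agent.W788.MFP.Four.NN_pos (d := d) (L := L)).ne'
  split_ifs
  · rw [Complex.ofReal_re, inv_mul_cancel₀ hN]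
  · simp

theorem K_add (m n : T d L → ℝ) (x : T d L) : K (fun k => m k + n k) x = K m x + K n x := by
  unfold K
  rw [← mul_add, ← Finset.sum_add_distrib]
  congr 1
  exact Finset.sum_congr rfl fun k _ => by ring

theorem xi_split (θ : ℝ) (ξ : T d L → ℝ) (x : T d L) :
    ∑ y, ξ y * K (hi θ) (x - y) + ∑ y, ξ y * K (fun Q => 1 - hi θ Q) (x - y) = ξ x := by
  rw [← Finset.sum_add_distrib]
  have h1 : ∀ y, ξ y * K (hi θ) (x - y) + ξ y * K (fun Q => 1 - hi θ Q) (x - y) =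
      if y = x then ξ y else 0 := by
    intro y
    rw [← mul_add, ← K_add]
    have h2 : (fun k : T d L => hi θ k + (1 - hi θ k)) = fun _ => 1 := by
      funext k
      ring
    rw [h2, K_one]
    by_cases h : y = x
    · rw [if_pos h, if_pos (by rw [h, sub_self]), mul_one]
    · rw [if_neg h, if_neg (fun h3 => h (sub_eq_zero.1 h3).symm), mul_zero]
  rw [Finset.sum_congr rfl fun y _ => h1 y, Finset.sum_ite_eq', if_pos (Finset.mem_univ _)]

theorem Hm_apply (σ E θ : ℝ) (ξ : T d L → ℝ) (v : T d L → ℂ) (x : T d L) :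
    (Hm σ E θ ξ *ᵥ v) x = (h0 E *ᵥ v) x +
      ((σ * ∑ y, ξ y * K (hi θ) (x - y) : ℝ) : ℂ) * v x := by
  unfold Hm
  rw [Matrix.add_mulVec, Pi.add_apply, Matrix.sum_mulVec, Finset.sum_apply]
  congr 1
  push_cast
  rw [Finset.mul_sum, Finset.sum_mul]
  refine Finset.sum_congr rfl fun y _ => ?_
  rw [Matrix.smul_mulVec, Matrix.smul_mulVec, Pi.smul_apply, Pi.smul_apply]
  unfold PY
  rw [Matrix.mulVec_diagonal, smul_eq_mul, smul_eq_mul]
  ring

theorem h0_eq (E : ℝ) : (h0 E : Matrix (T d L) (T d L) ℂ) =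
    Mo (fun k => ((adj k : ℝ) : ℂ)) - (E : ℂ) • (1 : Matrix (T d L) (T d L) ℂ) := by
  have e1 := Pool.Agent.W788.MFP.Four.adj_neg (d := d) (L := L)
  ext x y
  rw [Matrix.sub_apply, Matrix.smul_apply, Mo_apply _ e1]
  unfold h0
  rw [Mo_apply (fun k : T d L => adj k - E) (fun k => by rw [e1]), Matrix.one_apply]
  have h1 : K (fun k : T d L => adj k) (x - y) =
      K (fun k : T d L => adj k - E) (x - y) + K (fun _ : T d L => E) (x - y) := by
    rw [← K_add]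
    congr 1
    funext k
    ring
  have h2 : K (fun _ : T d L => E) (x - y) = E * K (fun _ : T d L => 1) (x - y) := by
    unfold K
    rw [Finset.mul_sum, Finset.mul_sum, Finset.mul_sum]
    exact Finset.sum_congr rfl fun k _ => by ring
  rw [h1, h2, K_one]
  by_cases h : x = y
  · rw [if_pos h, if_pos (by rw [h, sub_self])]
    push_cast
    simp
  · rw [if_neg h, if_neg (fun h3 => h (sub_eq_zero.1 h3))]
    push_cast
    simp

theorem HT_apply (σ E : ℝ) (ξ : T d L → ℝ) (v : T d L → ℂ) (x : T d L) :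
    ((HT σ ξ - (E : ℂ) • (1 : Matrix (T d L) (T d L) ℂ)) *ᵥ v) x =
      (h0 E *ᵥ v) x + ((σ * ξ x : ℝ) : ℂ) * v x := by
  have h1 : HT σ ξ - (E : ℂ) • (1 : Matrix (T d L) (T d L) ℂ) =
      h0 E + Matrix.diagonal fun x => ((σ * ξ x : ℝ) : ℂ) := by
    rw [h0_eq]
    unfold HT
    abel
  rw [h1, Matrix.add_mulVec, Pi.add_apply, Matrix.mulVec_diagonal]

end torus

end Win

open Win in
theorem win : T_WIN := by
  intro d L _ E δ θ η t σ hδ hη hη1 ht hσ hσt ξ hf hlow P hP hPP hwin φ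
  obtain ⟨v, hv⟩ : ∃ v : T d L → ℂ, v = P *ᵥ φ := ⟨_, rfl⟩
  obtain ⟨r, hr⟩ : ∃ r : T d L → ℂ, r = (HT σ ξ - (E : ℂ) • (1 : Matrix (T d L) (T d L) ℂ)) *ᵥ v :=
    ⟨_, rfl⟩
  have hrv : nsq r ≤ (η * δ) ^ 2 * nsq v := by
    rw [hr, hv]
    exact hwin φ
  have hφv : star φ ⬝ᵥ v = ((nsq v : ℝ) : ℂ) := by
    rw [nsq_eq]
    conv_rhs => rw [hv, ← herm hP, Matrix.mulVec_mulVec, hPP]
    rw [hv]
  rw [show (star φ ⬝ᵥ (P *ᵥ φ)).re = nsq v by rw [← hv, hφv, Complex.ofReal_re], Gt_eq]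
  -- the low part
  obtain ⟨lo, hlo⟩ : ∃ lo : T d L → ℝ, lo = fun x => σ * ∑ y, ξ y * K (fun Q => 1 - hi θ Q) (x - y) :=
    ⟨_, rfl⟩
  obtain ⟨r2, hr2⟩ : ∃ r2 : T d L → ℂ, r2 = fun x => r x - (lo x : ℂ) * v x := ⟨_, rfl⟩
  have hX : XX' (Hm σ E θ ξ) (J0 E δ) η *ᵥ v = r2 - ((η : ℂ) * Complex.I) • (J0 E δ *ᵥ v) := by
    unfold XX'
    rw [Matrix.sub_mulVec, Matrix.smul_mulVec]
    congr 1
    funext x
    rw [Hm_apply, hr2, hr]
    simp only
    rw [HT_apply, hlo]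
    simp only
    rw [← xi_split θ ξ x]
    push_cast
    ring
  have hr2v : nsq r2 ≤ (2 * η * δ) ^ 2 * nsq v := by
    have h1 : ∀ x, ‖r2 x‖ ^ 2 ≤ 2 * ‖r x‖ ^ 2 + 2 * ((η * δ) ^ 2 * ‖v x‖ ^ 2) := by
      intro x
      have h2 : ‖r2 x‖ ≤ ‖r x‖ + η * δ * ‖v x‖ := by
        rw [hr2]
        refine (norm_sub_le _ _).trans ?_
        rw [norm_mul, Complex.norm_real, Real.norm_eq_abs]
        have h3 : |lo x| ≤ η * δ := by rw [hlo]; exact hlow x
        gcongr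
      have h3 : 0 ≤ ‖r2 x‖ := norm_nonneg _
      calc ‖r2 x‖ ^ 2 ≤ (‖r x‖ + η * δ * ‖v x‖) ^ 2 := pow_le_pow_left₀ h3 h2 2
        _ ≤ _ := by nlinarith [sq_nonneg (‖r x‖ - η * δ * ‖v x‖)]
    have h2 : nsq r2 ≤ 2 * nsq r + 2 * ((η * δ) ^ 2 * nsq v) := by
      unfold nsq
      rw [Finset.mul_sum, Finset.mul_sum, Finset.mul_sum, ← Finset.sum_add_distrib]
      exact Finset.sum_le_sum fun x _ => h1 x
    calc nsq r2 ≤ 2 * nsq r + 2 * ((η * δ) ^ 2 * nsq v) := h2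
      _ ≤ 2 * ((η * δ) ^ 2 * nsq v) + 2 * ((η * δ) ^ 2 * nsq v) := by gcongr
      _ = _ := by ring
  have hJv : qf (J0 E δ) v ≤ 4 * δ * nsq v := by
    have e1 := Pool.Agent.W788.MFP.Four.adj_neg (d := d) (L := L)
    have he : ∀ k : T d L, (fun k : T d L => adj k - E) (-k) = (fun k : T d L => adj k - E) k :=
      fun k => by simp only [e1]
    have hre := Pool.Agent.W788.MFP.Form.eig E δ t σ hδ ht hσ hσt ξ (fun x => (v x).re)
      (fun x => (r x).re) hf (fun x => by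
        have h1 := Mo_re (fun k : T d L => adj k - E) he v x
        have h2 := HT_apply σ E ξ v x
        rw [← hr] at h2
        have h3 := congrArg Complex.re h2
        rw [Complex.add_re, Complex.re_ofReal_mul] at h3
        show Op (fun k => adj k - E) (fun y => (v y).re) x = _
        rw [← h1]
        show ((h0 E *ᵥ v) x).re = _
        linarith)
    have him := Pool.Agent.W788.MFP.Form.eig E δ t σ hδ ht hσ hσt ξ (fun x => (v x).im)
      (fun x => (r x).im) hf (fun x => by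
        have h1 := Mo_im (fun k : T d L => adj k - E) he v x
        have h2 := HT_apply σ E ξ v x
        rw [← hr] at h2
        have h3 := congrArg Complex.im h2
        rw [Complex.add_im, Complex.im_ofReal_mul] at h3
        show Op (fun k => adj k - E) (fun y => (v y).im) x = _
        rw [← h1]
        show ((h0 E *ᵥ v) x).im = _
        linarith)
    have h1 : qf (J0 E δ) v ≤ 3 * δ * nsq v + δ⁻¹ * nsq r := by
      unfold J0
      rw [Mo_qf _ (JJ_neg E δ), nsq_parts v, nsq_parts r]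
      have h2 := add_le_add hre him
      rw [← JJ_eq] at h2
      refine h2.trans (le_of_eq ?_)
      ring
    have h2 : δ⁻¹ * nsq r ≤ δ * nsq v := by
      calc δ⁻¹ * nsq r ≤ δ⁻¹ * ((η * δ) ^ 2 * nsq v) := by gcongr
        _ = η ^ 2 * (δ * nsq v) := by field_simp
        _ ≤ 1 * (δ * nsq v) := by
            have := nsq_nonneg v
            have h3 : η ^ 2 ≤ 1 := pow_le_one₀ hη.le hη1
            gcongr
        _ = _ := one_mul _
    linarith
  exact abs_win (Hm_herm σ E θ ξ) (J0_herm E δ) hη hδ (J0_ge E δ hδ) φ v r2 hφv hX hr2v hJv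

end Pool.Agent.T2h98.QD
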