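import Pool.Agent.T2h98.QD.Defs

/-! Statements of the parts. -/

set_option autoImplicit false
set_option linter.unusedSectionVars false

open scoped BigOperators Matrix
open MeasureTheory ProbabilityTheory

namespace Pool.Agent.T2h98.QD

open Pool.Agent.W788.MFP.Four (T e NN adj K)
open Pool.Agent.W788.BK (nsq hs PP JJ hi Low cr)

/-- Poincare inequality for Gaussian variables -/
def T_POIN : Prop := ∀ (m : Type) [Fintype m] [DecidableEq m] (F : (m → ℝ) → ℂ)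
  (D : m → (m → ℝ) → ℂ) (C : ℝ), Continuous F → (∀ V, ‖F V‖ ≤ C) → (∀ y, Continuous (D y)) →
  (∀ y V, ‖D y V‖ ≤ C) →
  (∀ (y : m) (V : m → ℝ),
    HasDerivAt (fun t : ℝ => F (Function.update V y t)) (D y V) (V y)) →
  ∫ V, ‖F V - ∫ U, F U ∂(GP m)‖ ^ 2 ∂(GP m) ≤ ∑ y, ∫ V, ‖D y V‖ ^ 2 ∂(GP m)

/-- integration by parts for Gaussian variables -/
def T_IBP : Prop := ∀ (m : Type) [Fintype m] [DecidableEq m] (y : m) (F D : (m → ℝ) → ℂ)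
  (C : ℝ), Continuous F → (∀ V, ‖F V‖ ≤ C) → Continuous D → (∀ V, ‖D V‖ ≤ C) →
  (∀ V : m → ℝ, HasDerivAt (fun t : ℝ => F (Function.update V y t)) (D V) (V y)) →
  ∫ V, (V y : ℂ) * F V ∂(GP m) = ∫ V, D V ∂(GP m)

/-- the quadratic form bound for the filtered indicator functions -/
def T_KQ : Prop := ∀ (d L : ℕ) [NeZero L] (E δ θ Q : ℝ), 0 < δ → 0 ≤ Q →
  (∀ P : T d L, ¬ Low θ P → ∑ k : T d L, (JJ E δ k * JJ E δ (k + P))⁻¹ ≤ Q * NN d L) →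
  ∀ a b : T d L → ℂ, ∑ y, ‖star a ⬝ᵥ (PY θ y *ᵥ b)‖ ^ 2 ≤
    Q * (qf (J0 E δ) a * qf (J0 E δ) b)

/-- the self-energy map of the filtered potential -/
def T_PSI : Prop := ∀ (d L : ℕ) [NeZero L] (θ : ℝ) (Z : Matrix (T d L) (T d L) ℂ),
  ∑ y, PY θ y * Z * PY θ y = Matrix.diagonal (fun x => Z x x) -
    ∑ Q : T d L, (((NN d L)⁻¹ * (1 - hi θ Q) : ℝ) : ℂ) • cj (e Q) Z

/-- translation invariance -/
def T_INV : Prop := ∀ (d L : ℕ) [NeZero L] (a : T d L),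
  (∀ F : (T d L → ℝ) → ℂ, ∫ V, F (fun z => V (z + a)) ∂(GP (T d L)) = ∫ V, F V ∂(GP (T d L))) ∧
  ∀ (σ E δ θ η : ℝ) (V : T d L → ℝ) (x y : T d L),
    Gt σ E δ θ η (fun z => V (z + a)) x y = Gt σ E δ θ η V (x + a) (y + a)

/-- the Green function in dimension at least two -/
def T_SLICE : Prop := ∃ C : ℝ, 0 < C ∧ ∀ (n L : ℕ) [NeZero L], 2 ≤ n → ∀ t s : ℝ,
  1 / (L : ℝ) ≤ s → s ≤ 1 / 2 →
  ∑ k : T n L, (max |adj k - t| s)⁻¹ ≤ C * Real.log (1 / s) ^ 2 * NN n L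

/-- momenta at which the dispersion relation hardly changes under a shift by `q` -/
def T_BADK : Prop := ∀ (L : ℕ) [NeZero L] (c : ℝ), 1 / (L : ℝ) ≤ c → c ≤ 1 → ∀ q : ZMod L,
  ((Finset.univ.filter fun k : ZMod L => |2 * cr (k + q) - 2 * cr k| <
    2 * ‖1 - (ZMod.stdAddChar q : ℂ)‖ * c).card : ℝ) ≤ 4 * c * L

/-- small momenta -/
def T_SMQ : Prop := ∀ (L : ℕ) [NeZero L] (c : ℝ), 1 / (L : ℝ) ≤ c →
  ((Finset.univ.filter fun q : ZMod L => ‖1 - (ZMod.stdAddChar q : ℂ)‖ < c).card : ℝ) ≤ 4 * c * L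

/-- the low frequency part of a Gaussian potential -/
def T_LOWG : Prop := ∀ (d L : ℕ) [NeZero L] (θ τ : ℝ), 0 < θ → 0 < τ →
  (GP (T d L)).real {V | ∃ x : T d L, τ < |∑ y, V y * K (fun Q => 1 - hi θ Q) (x - y)|} ≤
    2 * NN d L * Real.exp (-(τ ^ 2 * NN d L / (2 * ∑ Q : T d L, (1 - hi θ Q))))

/-- the maximum of the Gaussian potential -/
def T_MAXG : Prop := ∀ (d L : ℕ) [NeZero L] (τ : ℝ), 0 < τ →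
  (GP (T d L)).real {V | ∃ x : T d L, τ < |V x|} ≤ 2 * NN d L * Real.exp (-(τ ^ 2 / 2))

/-- the spectral gap of the ladder equation: `X k = a k - i η J k - σ2 mb` -/
def T_GAP : Prop := ∀ (ι : Type) [Fintype ι] (N : ℝ) (a J : ι → ℝ) (mb : ℂ)
  (η δ s2 g ε Δ : ℝ) (π : Equiv.Perm ι) (X : ι → ℂ) (B : Finset ι),
  0 < N → 0 < η → 0 < δ → 0 < s2 → 0 < mb.im → 0 ≤ g → 0 ≤ ε → 0 < Δ →
  (∀ k, 0 ≤ J k) → (∀ k, J k ≤ |a k| + δ) →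
  (∀ k, X k = (a k : ℂ) - (η * J k : ℝ) * Complex.I - (s2 : ℂ) * mb) →
  ‖mb - (N : ℂ)⁻¹ * ∑ k, (X k)⁻¹‖ ≤ ε →
  s2 * ‖mb‖ ≤ δ → N⁻¹ * ∑ k, ‖X k‖⁻¹ ≤ g →
  3 * η * δ * g ≤ s2 * mb.im ^ 2 / 8 → ε ≤ mb.im / 8 →
  N⁻¹ * ∑ k ∈ B, ‖X k‖⁻¹ ≤ mb.im / 8 →
  (∀ k, k ∉ B → Δ ≤ ‖X (π k) - X k‖) →
  1 / 4 * (Δ / (8 * s2 * g + Δ)) ^ 2 - ε / mb.im ≤
    1 - s2 * ((N : ℂ)⁻¹ * ∑ k, (starRingEnd ℂ) (X k)⁻¹ * (X (π k))⁻¹).re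

/-- the Fourier transform of the tent function -/
def T_TENT : Prop := ∀ (L M : ℕ) [NeZero L], 1 ≤ M → M ≤ L →
  (∀ q : ZMod L, 0 ≤ fh M q) ∧ ∑ q : ZMod L, fh M q = 1 ∧
  (∀ q : ZMod L, fh M q ≤ (M : ℝ) / L) ∧ (∀ m : ZMod L, 0 ≤ ff M m ∧ ff M m ≤ 1) ∧
  (∀ m : ZMod L, ff M (-m) = ff M m) ∧
  (∀ a b : ℕ, a < M → b < M → 2 * ((a : ℤ) - b).natAbs ≤ M →
    1 / 2 ≤ ff M (((a : ℕ) : ZMod L) - ((b : ℕ) : ZMod L))) ∧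
  ∀ m : ZMod L, ((ff M m : ℝ) : ℂ) = ∑ q : ZMod L, (fh M q : ℂ) * (ZMod.stdAddChar (q * m) : ℂ)

/-- the functional `Phi` -/
def T_PHI : Prop := ∀ (d L M : ℕ) [NeZero L] (i : Fin d), 1 ≤ M → M ≤ L →
  (∀ A : Matrix (T d L) (T d L) ℂ, ((Phi i M A : ℝ) : ℂ) =
    ∑ q : ZMod L, (fh M q : ℂ) * (cj (e (qi i q)) A * Aᴴ).trace) ∧
  (∀ A B : Matrix (T d L) (T d L) ℂ, PSD A → PSD (B - A) → Phi i M A ≤ Phi i M B) ∧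
  (∀ A : Matrix (T d L) (T d L) ℂ,
    Phi i M ((2 * Complex.I)⁻¹ • (A - Aᴴ)) ≤ Phi i M A) ∧
  (∀ (J : Type) [Fintype J] (u : J → T d L → ℂ),
    ∑ j, Phi i M (Matrix.vecMulVec (u j) (star (u j))) ≤
      Phi i M (∑ j, Matrix.vecMulVec (u j) (star (u j)))) ∧
  Phi i M (1 : Matrix (T d L) (T d L) ℂ) = NN d L

/-- spectral projections are bounded by the resolvent -/
def T_WIN : Prop := ∀ (d L : ℕ) [NeZero L] (E δ θ η t σ : ℝ), 0 < δ → 0 < η → η ≤ 1 → 0 ≤ t →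
  0 ≤ σ → σ * t ≤ 1 / 2 → ∀ ξ : T d L → ℝ,
  (∀ w : T d L → ℝ, |∑ x, ξ x * w x ^ 2| ≤ t * Pool.Agent.W788.MFP.Four.q (JJ E δ) w) →
  (∀ x : T d L, |σ * ∑ y, ξ y * K (fun Q => 1 - hi θ Q) (x - y)| ≤ η * δ) →
  ∀ P : Matrix (T d L) (T d L) ℂ, P.IsHermitian → P * P = P →
  (∀ w : T d L → ℂ, nsq ((HT σ ξ - (E : ℂ) • (1 : Matrix (T d L) (T d L) ℂ)) *ᵥ (P *ᵥ w)) ≤
    (η * δ) ^ 2 * nsq (P *ᵥ w)) →
  ∀ φ : T d L → ℂ, (star φ ⬝ᵥ (P *ᵥ φ)).re ≤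
    16 * η * δ * (star φ ⬝ᵥ (Gt σ E δ θ η ξ *ᵥ φ)).im

end Pool.Agent.T2h98.QD
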