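import Pool.Agent.T2h98.QD.Stm

/-! The quadratic form bound for the filtered indicator functions. -/

set_option autoImplicit false
set_option linter.unusedSectionVars false

open scoped BigOperators Matrix
open MeasureTheory ProbabilityTheory

namespace Pool.Agent.T2h98.QD

open Pool.Agent.W788.MFP.Four (T e NN adj K)
open Pool.Agent.W788.BK (nsq hs PP JJ hi Low cr)

namespace KQ

variable {d L : ℕ} [NeZero L]

/-- Fourier coefficients of complex functions -/
noncomputable def fc (a : T d L → ℂ) (k : T d L) : ℂ := ∑ x, a x * e k x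

theorem e_sub (k x y : T d L) : e k (x - y) = e k x * (starRingEnd ℂ) (e k y) := by
  rw [sub_eq_add_neg, Pool.Agent.W788.MFP.Four.e_add, Pool.Agent.W788.MFP.Four.e_neg]

theorem N_ne : ((NN d L : ℝ) : ℂ) ≠ 0 := by
  exact_mod_cast (Pool.Agent.W788.MFP.Four.NN_pos (d := d) (L := L)).ne'

/-- Plancherel for complex functions -/
theorem planchC (w : T d L → ℂ) : ∑ k, ‖∑ x, w x * e k x‖ ^ 2 = NN d L * ∑ x, ‖w x‖ ^ 2 := by
  have h1 : ((∑ k, ‖∑ x, w x * e k x‖ ^ 2 : ℝ) : ℂ) = ((NN d L * ∑ x, ‖w x‖ ^ 2 : ℝ) : ℂ) := by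
    push_cast
    have h2 : ∀ k : T d L, (‖∑ x, w x * e k x‖ : ℂ) ^ 2 =
        ∑ x, ∑ y, w x * (starRingEnd ℂ) (w y) * e k (x - y) := by
      intro k
      rw [← Complex.mul_conj', map_sum, Finset.sum_mul_sum]
      refine Finset.sum_congr rfl fun x _ => Finset.sum_congr rfl fun y _ => ?_
      rw [map_mul, e_sub]
      ring
    simp only [h2]
    rw [Finset.sum_comm]
    have h3 : ∀ x : T d L, ∑ k : T d L, ∑ y, w x * (starRingEnd ℂ) (w y) * e k (x - y) =
        (NN d L : ℂ) * (‖w x‖ : ℂ) ^ 2 := by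
      intro x
      rw [Finset.sum_comm]
      have h4 : ∀ y, ∑ k, w x * (starRingEnd ℂ) (w y) * e k (x - y) =
          w x * (starRingEnd ℂ) (w y) * (if x - y = 0 then (NN d L : ℂ) else 0) := by
        intro y
        rw [← Finset.mul_sum, Pool.Agent.W788.MFP.Four.sum_e]
      simp only [h4]
      rw [Finset.sum_eq_single x]
      · rw [sub_self, if_pos rfl, Complex.mul_conj']
        ring
      · intro y _ hy
        rw [if_neg (sub_ne_zero.2 hy.symm), mul_zero]
      · intro h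
        exact absurd (Finset.mem_univ x) h
    simp only [h3]
    rw [Finset.mul_sum]
  exact_mod_cast h1

theorem low_neg (θ : ℝ) (P : T d L) : Low θ (-P) ↔ Low θ P := by
  have h : ∀ q : ZMod L, cr (-q) = cr q := by
    intro q
    unfold cr
    rw [ZMod.stdAddChar_apply, ZMod.stdAddChar_apply, AddChar.map_neg_eq_inv]
    simp
  unfold Low
  simp only [Pi.neg_apply, h]

theorem hi_neg (θ : ℝ) (P : T d L) : hi θ (-P) = hi θ P := by
  by_cases h : Low θ P
  · have h1 := (low_neg θ P).2 h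
    unfold hi
    rw [if_pos h, if_pos h1]
  · have h1 : ¬ Low θ (-P) := fun h1 => h ((low_neg θ P).1 h1)
    unfold hi
    rw [if_neg h, if_neg h1]

/-- the kernel as a complex sum -/
theorem K_eq (m : T d L → ℝ) (hm : ∀ k, m (-k) = m k) (x : T d L) :
    ((K m x : ℝ) : ℂ) = ((NN d L : ℝ) : ℂ)⁻¹ * ∑ k, (m k : ℂ) * e k x := by
  have h1 : ∑ k, (m k : ℂ) * (starRingEnd ℂ) (e k x) = ∑ k, (m k : ℂ) * e k x := by
    rw [← Equiv.sum_comp (Equiv.neg (T d L)) (fun k => (m k : ℂ) * e k x)]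
    refine Finset.sum_congr rfl fun k _ => ?_
    rw [Equiv.neg_apply, hm, Pool.Agent.W788.MFP.Four.e_neg_left]
  have h2 : ∑ k, ((m k * (e k x).re : ℝ) : ℂ) = ∑ k, (m k : ℂ) * e k x := by
    have h3 : ∑ k, ((m k * (e k x).re : ℝ) : ℂ) =
        1 / 2 * (∑ k, (m k : ℂ) * e k x + ∑ k, (m k : ℂ) * (starRingEnd ℂ) (e k x)) := by
      rw [← Finset.sum_add_distrib, Finset.mul_sum]
      refine Finset.sum_congr rfl fun k _ => ?_
      have h4 : ((e k x).re : ℂ) = 1 / 2 * (e k x + (starRingEnd ℂ) (e k x)) := by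
        rw [Complex.add_conj]
        push_cast
        ring
      push_cast
      rw [h4]
      ring
    rw [h3, h1]
    ring
  unfold K
  rw [Complex.ofReal_mul, Complex.ofReal_sum, h2, Complex.ofReal_inv]

/-- the quadratic form of a Fourier multiplier -/
theorem qf_Mo (m : T d L → ℝ) (a : T d L → ℂ) :
    qf (Mo fun k => ((m k : ℝ) : ℂ)) a = (NN d L)⁻¹ * ∑ k, m k * ‖fc a k‖ ^ 2 := by
  have h1 : (star a ⬝ᵥ ((Mo fun k => ((m k : ℝ) : ℂ)) *ᵥ a)) =
      (((NN d L)⁻¹ * ∑ k, m k * ‖fc a k‖ ^ 2 : ℝ) : ℂ) := by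
    have h2 : ∀ k, ((m k * ‖fc a k‖ ^ 2 : ℝ) : ℂ) =
        ∑ x, ∑ y, star (a x) * ((m k : ℂ) * e k (y - x) * a y) := by
      intro k
      push_cast
      rw [← Complex.mul_conj']
      unfold fc
      rw [map_sum, Finset.sum_mul_sum, Finset.mul_sum, Finset.sum_comm]
      simp only [Finset.mul_sum]
      rw [Finset.sum_comm]
      rw [Finset.sum_comm]
      refine Finset.sum_congr rfl fun x _ => Finset.sum_congr rfl fun y _ => ?_
      rw [map_mul, e_sub]
      simp only [Complex.star_def]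
      ring
    rw [Complex.ofReal_mul, Complex.ofReal_sum, Finset.sum_congr rfl fun k _ => h2 k,
      Finset.sum_comm, Complex.ofReal_inv, Finset.mul_sum]
    unfold dotProduct
    refine Finset.sum_congr rfl fun x _ => ?_
    rw [Finset.sum_comm, Finset.mul_sum, Pi.star_apply]
    unfold Matrix.mulVec dotProduct
    rw [Finset.mul_sum]
    refine Finset.sum_congr rfl fun y _ => ?_
    have e1 : (Mo fun k => ((m k : ℝ) : ℂ)) x y = ((NN d L : ℝ) : ℂ)⁻¹ *
        ∑ k, (m k : ℂ) * e k (y - x) := rfl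
    rw [← Finset.mul_sum, ← Finset.sum_mul]
    change star (a x) * ((Mo fun k => ((m k : ℝ) : ℂ)) x y * a y) = _
    rw [e1]
    ring
  unfold qf
  rw [h1, Complex.ofReal_re]

/-- convolution -/
theorem conv (a b : T d L → ℂ) (P : T d L) : ∑ x, star (a x) * b x * e P x =
    ((NN d L : ℝ) : ℂ)⁻¹ * ∑ k, star (fc a k) * fc b (k + P) := by
  have h1 : ∑ k, star (fc a k) * fc b (k + P) =
      ((NN d L : ℝ) : ℂ) * ∑ x, star (a x) * b x * e P x := by
    have h2 : ∀ k, star (fc a k) * fc b (k + P) =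
        ∑ x, ∑ y, star (a x) * b y * e P y * e k (y - x) := by
      intro k
      unfold fc
      rw [star_sum, Finset.sum_mul_sum]
      refine Finset.sum_congr rfl fun x _ => Finset.sum_congr rfl fun y _ => ?_
      rw [star_mul', e_sub, Pool.Agent.W788.MFP.Four.e_add_left]
      simp only [Complex.star_def]
      ring
    simp only [h2]
    rw [Finset.sum_comm, Finset.mul_sum]
    refine Finset.sum_congr rfl fun x _ => ?_
    rw [Finset.sum_comm]
    have h4 : ∀ y, ∑ k, star (a x) * b y * e P y * e k (y - x) =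
        star (a x) * b y * e P y * (if y - x = 0 then (NN d L : ℂ) else 0) := by
      intro y
      rw [← Finset.mul_sum, Pool.Agent.W788.MFP.Four.sum_e]
    simp only [h4]
    rw [Finset.sum_eq_single x]
    · rw [sub_self, if_pos rfl]
      ring
    · intro y _ hy
      rw [if_neg (sub_ne_zero.2 hy), mul_zero]
    · intro h
      exact absurd (Finset.mem_univ x) h
  rw [h1, ← mul_assoc, inv_mul_cancel₀ N_ne, one_mul]

end KQ

open KQ in
theorem kq : T_KQ := by
  intro d L _ E δ θ Q hδ hQ0 hQ a b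
  have hN := Pool.Agent.W788.MFP.Four.NN_pos (d := d) (L := L)
  have hJp : ∀ k : T d L, 0 < JJ E δ k := fun k => Real.sqrt_pos.2 (by positivity)
  -- the values
  set G : T d L → ℂ := fun P => ∑ x, star (a x) * b x * e P x with hG
  have h1 : ∀ y : T d L, star a ⬝ᵥ (PY θ y *ᵥ b) =
      ∑ P, (((NN d L : ℝ) : ℂ)⁻¹ * ((hi θ P : ℂ) * G P)) * e P (-y) := by
    intro y
    unfold PY
    simp only [Matrix.mulVec_diagonal, dotProduct, Pi.star_apply]
    simp only [hG, Finset.mul_sum, Finset.sum_mul]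
    rw [Finset.sum_comm]
    refine Finset.sum_congr rfl fun x _ => ?_
    rw [K_eq _ (hi_neg θ), Finset.mul_sum, Finset.sum_mul, Finset.mul_sum]
    refine Finset.sum_congr rfl fun P _ => ?_
    rw [e_sub, Pool.Agent.W788.MFP.Four.e_neg]
    ring
  have h2 : ∑ y, ‖star a ⬝ᵥ (PY θ y *ᵥ b)‖ ^ 2 = (NN d L)⁻¹ * ∑ P, hi θ P ^ 2 * ‖G P‖ ^ 2 := by
    simp only [h1]
    refine (Equiv.sum_comp (Equiv.neg (T d L)) (fun y => ‖∑ P, (((NN d L : ℝ) : ℂ)⁻¹ *
      ((hi θ P : ℂ) * G P)) * e P y‖ ^ 2)).trans ?_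
    have h3 : ∀ y : T d L, ∑ P, (((NN d L : ℝ) : ℂ)⁻¹ * ((hi θ P : ℂ) * G P)) * e P y =
        ∑ P, (((NN d L : ℝ) : ℂ)⁻¹ * ((hi θ P : ℂ) * G P)) * e y P := fun y =>
      Finset.sum_congr rfl fun P _ => by rw [Pool.Agent.W788.MFP.Four.e_comm]
    simp only [h3]
    rw [planchC, Finset.mul_sum, Finset.mul_sum]
    refine Finset.sum_congr rfl fun P _ => ?_
    rw [norm_mul, norm_mul, norm_inv, Complex.norm_real, Complex.norm_real, Real.norm_of_nonneg hN.le,
      mul_pow, mul_pow, Real.norm_eq_abs, sq_abs]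
    field_simp
  rw [h2]
  -- the bound for one momentum
  have h4 : ∀ P : T d L, hi θ P ^ 2 * ‖G P‖ ^ 2 ≤ Q * (NN d L)⁻¹ *
      ∑ k, (JJ E δ k * ‖fc a k‖ ^ 2) * (JJ E δ (k + P) * ‖fc b (k + P)‖ ^ 2) := by
    intro P
    have hs0 : 0 ≤ ∑ k, (JJ E δ k * ‖fc a k‖ ^ 2) * (JJ E δ (k + P) * ‖fc b (k + P)‖ ^ 2) :=
      Finset.sum_nonneg fun k _ => by
        have := hJp k
        have := hJp (k + P)
        positivity
    by_cases hL : Low θ P
    · have : hi θ P = 0 := by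
        unfold hi
        rw [if_pos hL]
      rw [this]
      have : 0 ≤ Q * (NN d L)⁻¹ := by positivity
      nlinarith [mul_nonneg this hs0]
    · have e1 : hi θ P = 1 := by
        unfold hi
        rw [if_neg hL]
      rw [e1, one_pow, one_mul]
      have e2 : G P = ((NN d L : ℝ) : ℂ)⁻¹ * ∑ k, star (fc a k) * fc b (k + P) := conv a b P
      have e3 : ‖∑ k, star (fc a k) * fc b (k + P)‖ ^ 2 ≤
          (∑ k : T d L, (JJ E δ k * JJ E δ (k + P))⁻¹) *
          ∑ k, (JJ E δ k * ‖fc a k‖ ^ 2) * (JJ E δ (k + P) * ‖fc b (k + P)‖ ^ 2) := by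
        have e4 : ‖∑ k, star (fc a k) * fc b (k + P)‖ ≤ ∑ k, ‖fc a k‖ * ‖fc b (k + P)‖ := by
          refine (norm_sum_le _ _).trans (Finset.sum_le_sum fun k _ => ?_)
          rw [norm_mul, norm_star]
        have e5 : (∑ k, ‖fc a k‖ * ‖fc b (k + P)‖) ^ 2 ≤
            (∑ k : T d L, (JJ E δ k * JJ E δ (k + P))⁻¹) *
            ∑ k, (JJ E δ k * ‖fc a k‖ ^ 2) * (JJ E δ (k + P) * ‖fc b (k + P)‖ ^ 2) := by
          have e6 := Finset.sum_mul_sq_le_sq_mul_sq Finset.univ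
            (fun k : T d L => Real.sqrt (JJ E δ k * JJ E δ (k + P))⁻¹)
            (fun k : T d L => Real.sqrt (JJ E δ k * JJ E δ (k + P)) *
              (‖fc a k‖ * ‖fc b (k + P)‖))
          have e7 : ∀ k : T d L, Real.sqrt (JJ E δ k * JJ E δ (k + P))⁻¹ *
              (Real.sqrt (JJ E δ k * JJ E δ (k + P)) * (‖fc a k‖ * ‖fc b (k + P)‖)) =
              ‖fc a k‖ * ‖fc b (k + P)‖ := by
            intro k
            have := Real.sqrt_pos.2 (mul_pos (hJp k) (hJp (k + P)))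
            rw [Real.sqrt_inv, ← mul_assoc, inv_mul_cancel₀ this.ne', one_mul]
          have e8 : ∀ k : T d L, Real.sqrt (JJ E δ k * JJ E δ (k + P))⁻¹ ^ 2 =
              (JJ E δ k * JJ E δ (k + P))⁻¹ := fun k =>
            Real.sq_sqrt (inv_nonneg.2 (mul_pos (hJp k) (hJp (k + P))).le)
          have e9 : ∀ k : T d L, (Real.sqrt (JJ E δ k * JJ E δ (k + P)) *
              (‖fc a k‖ * ‖fc b (k + P)‖)) ^ 2 =
              (JJ E δ k * ‖fc a k‖ ^ 2) * (JJ E δ (k + P) * ‖fc b (k + P)‖ ^ 2) := by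
            intro k
            rw [mul_pow, Real.sq_sqrt (mul_pos (hJp k) (hJp (k + P))).le]
            ring
          simp only [e7, e8, e9] at e6
          exact e6
        exact (pow_le_pow_left₀ (norm_nonneg _) e4 2).trans e5
      rw [e2, norm_mul, mul_pow, norm_inv, Complex.norm_real, Real.norm_of_nonneg hN.le]
      calc (NN d L)⁻¹ ^ 2 * ‖∑ k, star (fc a k) * fc b (k + P)‖ ^ 2
          ≤ (NN d L)⁻¹ ^ 2 * ((Q * NN d L) *
            ∑ k, (JJ E δ k * ‖fc a k‖ ^ 2) * (JJ E δ (k + P) * ‖fc b (k + P)‖ ^ 2)) := by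
            apply mul_le_mul_of_nonneg_left _ (by positivity)
            exact e3.trans (mul_le_mul_of_nonneg_right (hQ P hL) hs0)
        _ = _ := by field_simp
  have h5 : ∑ P : T d L, ∑ k, (JJ E δ k * ‖fc a k‖ ^ 2) *
      (JJ E δ (k + P) * ‖fc b (k + P)‖ ^ 2) =
      (∑ k, JJ E δ k * ‖fc a k‖ ^ 2) * ∑ k, JJ E δ k * ‖fc b k‖ ^ 2 := by
    rw [Finset.sum_comm, Finset.sum_mul]
    refine Finset.sum_congr rfl fun k _ => ?_
    rw [← Finset.mul_sum]
    congr 1
    exact Equiv.sum_comp (Equiv.addLeft k) (fun p => JJ E δ p * ‖fc b p‖ ^ 2)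
  calc (NN d L)⁻¹ * ∑ P, hi θ P ^ 2 * ‖G P‖ ^ 2
      ≤ (NN d L)⁻¹ * ∑ P : T d L, Q * (NN d L)⁻¹ *
        ∑ k, (JJ E δ k * ‖fc a k‖ ^ 2) * (JJ E δ (k + P) * ‖fc b (k + P)‖ ^ 2) := by
        apply mul_le_mul_of_nonneg_left _ (by positivity)
        exact Finset.sum_le_sum fun P _ => h4 P
    _ = Q * (((NN d L)⁻¹ * ∑ k, JJ E δ k * ‖fc a k‖ ^ 2) *
        ((NN d L)⁻¹ * ∑ k, JJ E δ k * ‖fc b k‖ ^ 2)) := by
        rw [← Finset.mul_sum, h5]
        ring
    _ = Q * (qf (J0 E δ) a * qf (J0 E δ) b) := by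
        unfold J0
        rw [qf_Mo, qf_Mo]

end Pool.Agent.T2h98.QD
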