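import Pool.Agent.T2h98.QD.Stm5
import Pool.Agent.T2h98.QD.KQ

/-! The bound for the sum of products, low momenta included. -/

set_option autoImplicit false
set_option linter.unusedSectionVars false

open scoped BigOperators Matrix
open MeasureTheory ProbabilityTheory

namespace Pool.Agent.T2h98.QD

open Pool.Agent.W788.MFP.Four (T e NN adj K)
open Pool.Agent.W788.BK (nsq hs PP JJ hi Low cr)

namespace KERS

open KQ

variable {d L : ℕ} [NeZero L]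

theorem JJ_pos {E δ : ℝ} (hδ : 0 < δ) (k : T d L) : 0 < JJ E δ k := Real.sqrt_pos.2 (by positivity)

theorem le_JJ {E δ : ℝ} (k : T d L) : δ ≤ JJ E δ k := by
  unfold JJ
  exact Real.le_sqrt_of_sq_le (by nlinarith [sq_nonneg (adj k - E)])

/-- the bound for one high momentum -/
theorem one_mom {E δ θ Q : ℝ} (hδ : 0 < δ)
    (hQ : ∀ P : T d L, ¬ Low θ P → ∑ k : T d L, (JJ E δ k * JJ E δ (k + P))⁻¹ ≤ Q * NN d L)
    (a b : T d L → ℂ) (P : T d L) (hL : ¬ Low θ P) :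
    ‖∑ x, star (a x) * b x * e P x‖ ^ 2 ≤ Q * (NN d L)⁻¹ *
      ∑ k, (JJ E δ k * ‖fc a k‖ ^ 2) * (JJ E δ (k + P) * ‖fc b (k + P)‖ ^ 2) := by
  have hN := Pool.Agent.W788.MFP.Four.NN_pos (d := d) (L := L)
  have hJp : ∀ k : T d L, 0 < JJ E δ k := JJ_pos hδ
  have hs0 : 0 ≤ ∑ k, (JJ E δ k * ‖fc a k‖ ^ 2) * (JJ E δ (k + P) * ‖fc b (k + P)‖ ^ 2) :=
    Finset.sum_nonneg fun k _ => by
      have := hJp k
      have := hJp (k + P)
      positivity
  have e3 : ‖∑ k, star (fc a k) * fc b (k + P)‖ ^ 2 ≤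
      (∑ k : T d L, (JJ E δ k * JJ E δ (k + P))⁻¹) *
      ∑ k, (JJ E δ k * ‖fc a k‖ ^ 2) * (JJ E δ (k + P) * ‖fc b (k + P)‖ ^ 2) := by
    have e4 : ‖∑ k, star (fc a k) * fc b (k + P)‖ ≤ ∑ k, ‖fc a k‖ * ‖fc b (k + P)‖ := by
      refine (norm_sum_le _ _).trans (Finset.sum_le_sum fun k _ => ?_)
      rw [norm_mul, norm_star]
    have e5 : (∑ k, ‖fc a k‖ * ‖fc b (k + P)‖) ^ 2 ≤
        (∑ k : T d L, (JJ E δ k * JJ E δ (k + P))⁻¹) *
        ∑ k, (JJ E δ k * ‖fc a k‖ ^ 2) * (JJ E δ (k + P) * ‖fc b (k + P)‖ ^ 2) := by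
      have e6 := Finset.sum_mul_sq_le_sq_mul_sq Finset.univ
        (fun k : T d L => Real.sqrt (JJ E δ k * JJ E δ (k + P))⁻¹)
        (fun k : T d L => Real.sqrt (JJ E δ k * JJ E δ (k + P)) *
          (‖fc a k‖ * ‖fc b (k + P)‖))
      have e7 : ∀ k : T d L, Real.sqrt (JJ E δ k * JJ E δ (k + P))⁻¹ *
          (Real.sqrt (JJ E δ k * JJ E δ (k + P)) * (‖fc a k‖ * ‖fc b (k + P)‖)) =
          ‖fc a k‖ * ‖fc b (k + P)‖ := by
        intro k
        have := Real.sqrt_pos.2 (mul_pos (hJp k) (hJp (k + P)))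
        rw [Real.sqrt_inv, ← mul_assoc, inv_mul_cancel₀ this.ne', one_mul]
      have e8 : ∀ k : T d L, Real.sqrt (JJ E δ k * JJ E δ (k + P))⁻¹ ^ 2 =
          (JJ E δ k * JJ E δ (k + P))⁻¹ := fun k =>
        Real.sq_sqrt (inv_nonneg.2 (mul_pos (hJp k) (hJp (k + P))).le)
      have e9 : ∀ k : T d L, (Real.sqrt (JJ E δ k * JJ E δ (k + P)) *
          (‖fc a k‖ * ‖fc b (k + P)‖)) ^ 2 =
          (JJ E δ k * ‖fc a k‖ ^ 2) * (JJ E δ (k + P) * ‖fc b (k + P)‖ ^ 2) := by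
        intro k
        rw [mul_pow, Real.sq_sqrt (mul_pos (hJp k) (hJp (k + P))).le]
        ring
      simp only [e7, e8, e9] at e6
      exact e6
    exact (pow_le_pow_left₀ (norm_nonneg _) e4 2).trans e5
  rw [conv a b P, norm_mul, mul_pow, norm_inv, Complex.norm_real, Real.norm_of_nonneg hN.le]
  calc (NN d L)⁻¹ ^ 2 * ‖∑ k, star (fc a k) * fc b (k + P)‖ ^ 2
      ≤ (NN d L)⁻¹ ^ 2 * ((Q * NN d L) *
        ∑ k, (JJ E δ k * ‖fc a k‖ ^ 2) * (JJ E δ (k + P) * ‖fc b (k + P)‖ ^ 2)) := by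
        apply mul_le_mul_of_nonneg_left _ (by positivity)
        exact e3.trans (mul_le_mul_of_nonneg_right (hQ P hL) hs0)
    _ = _ := by field_simp

theorem sum_pairs (E δ : ℝ) (a b : T d L → ℂ) : ∑ P : T d L, ∑ k, (JJ E δ k * ‖fc a k‖ ^ 2) *
      (JJ E δ (k + P) * ‖fc b (k + P)‖ ^ 2) =
      (∑ k, JJ E δ k * ‖fc a k‖ ^ 2) * ∑ k, JJ E δ k * ‖fc b k‖ ^ 2 := by
  rw [Finset.sum_comm, Finset.sum_mul]
  refine Finset.sum_congr rfl fun k _ => ?_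
  rw [← Finset.mul_sum]
  congr 1
  exact Equiv.sum_comp (Equiv.addLeft k) (fun p => JJ E δ p * ‖fc b p‖ ^ 2)

theorem nsq_le {E δ : ℝ} (hδ : 0 < δ) (a : T d L → ℂ) : δ * nsq a ≤ qf (J0 E δ) a := by
  have hN := Pool.Agent.W788.MFP.Four.NN_pos (d := d) (L := L)
  unfold J0
  rw [qf_Mo]
  have h1 := planchC a
  have h2 : nsq a = (NN d L)⁻¹ * ∑ k, ‖fc a k‖ ^ 2 := by
    have : ∑ k, ‖fc a k‖ ^ 2 = NN d L * ∑ x, ‖a x‖ ^ 2 := h1
    rw [this]
    unfold nsq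
    field_simp
  rw [h2, Finset.mul_sum, Finset.mul_sum, Finset.mul_sum]
  refine Finset.sum_le_sum fun k _ => ?_
  have := le_JJ (E := E) (δ := δ) k
  calc δ * ((NN d L)⁻¹ * ‖fc a k‖ ^ 2) = (NN d L)⁻¹ * (δ * ‖fc a k‖ ^ 2) := by ring
    _ ≤ _ := by gcongr

theorem norm_e (k x : T d L) : ‖e k x‖ = 1 := by
  have h1 := Pool.Agent.W788.MFP.Four.e_normSq k x
  rw [Complex.mul_conj'] at h1
  have h2 : ‖e k x‖ ^ 2 = 1 := by exact_mod_cast h1
  nlinarith [norm_nonneg (e k x)]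

theorem low_mom (a b : T d L → ℂ) (P : T d L) : ‖∑ x, star (a x) * b x * e P x‖ ^ 2 ≤ nsq a * nsq b := by
  have h1 : ‖∑ x, star (a x) * b x * e P x‖ ≤ ∑ x, ‖a x‖ * ‖b x‖ := by
    refine (norm_sum_le _ _).trans (Finset.sum_le_sum fun x _ => ?_)
    rw [norm_mul, norm_mul, norm_star]
    have : ‖e P x‖ ≤ 1 := (norm_e P x).le
    exact mul_le_of_le_one_right (by positivity) this
  exact (pow_le_pow_left₀ (norm_nonneg _) h1 2).trans (Finset.sum_mul_sq_le_sq_mul_sq _ _ _)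

end KERS

open KQ KERS in
theorem ker : T_KER := by
  intro d L _ E δ θ Q cn hδ hQ0 hQ hcn a b
  have hN := Pool.Agent.W788.MFP.Four.NN_pos (d := d) (L := L)
  set G : T d L → ℂ := fun P => ∑ x, star (a x) * b x * e P x with hG
  set S : T d L → ℝ := fun P => ∑ k, (JJ E δ k * ‖fc a k‖ ^ 2) * (JJ E δ (k + P) * ‖fc b (k + P)‖ ^ 2) with hS
  have hS0 : ∀ P, 0 ≤ S P := fun P => Finset.sum_nonneg fun k _ => by
    have := JJ_pos (d := d) (L := L) (E := E) hδ k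
    have := JJ_pos (d := d) (L := L) (E := E) hδ (k + P)
    positivity
  have h1 : ∑ y, ‖a y‖ ^ 2 * ‖b y‖ ^ 2 = (NN d L)⁻¹ * ∑ P, ‖G P‖ ^ 2 := by
    have h2 := planchC fun x => star (a x) * b x
    have h3 : ∑ P, ‖G P‖ ^ 2 = NN d L * ∑ x, ‖star (a x) * b x‖ ^ 2 := h2
    rw [h3, ← mul_assoc, inv_mul_cancel₀ hN.ne', one_mul]
    refine Finset.sum_congr rfl fun y _ => ?_
    rw [norm_mul, norm_star, mul_pow]
  have hab : nsq a * nsq b ≤ (qf (J0 E δ) a * qf (J0 E δ) b) / δ ^ 2 := by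
    have ha := nsq_le (E := E) hδ a
    have hb := nsq_le (E := E) hδ b
    have ha0 : 0 ≤ nsq a := Finset.sum_nonneg fun _ _ => sq_nonneg _
    have hb0 : 0 ≤ nsq b := Finset.sum_nonneg fun _ _ => sq_nonneg _
    rw [le_div_iff₀ (by positivity)]
    calc nsq a * nsq b * δ ^ 2 = (δ * nsq a) * (δ * nsq b) := by ring
      _ ≤ _ := mul_le_mul ha hb (by positivity) ((mul_nonneg hδ.le ha0).trans ha)
  have h4 : ∀ P, ‖G P‖ ^ 2 ≤ Q * (NN d L)⁻¹ * S P + (1 - hi θ P) * (nsq a * nsq b) := by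
    intro P
    by_cases hL : Low θ P
    · have e1 : hi θ P = 0 := by
        unfold hi
        rw [if_pos hL]
      rw [e1, sub_zero, one_mul]
      have h5 : 0 ≤ Q * (NN d L)⁻¹ * S P := mul_nonneg (by positivity) (hS0 P)
      have h6 := low_mom a b P
      have h7 : ‖G P‖ ^ 2 ≤ nsq a * nsq b := h6
      linarith
    · have e1 : hi θ P = 1 := by
        unfold hi
        rw [if_neg hL]
      rw [e1, sub_self, zero_mul, add_zero]
      exact one_mom hδ hQ a b P hL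
  have hq : ∀ c : T d L → ℂ, qf (J0 E δ) c = (NN d L)⁻¹ * ∑ k, JJ E δ k * ‖fc c k‖ ^ 2 := fun c => by
    unfold J0
    rw [qf_Mo]
  have hab0 : 0 ≤ nsq a * nsq b :=
    mul_nonneg (Finset.sum_nonneg fun _ _ => sq_nonneg _) (Finset.sum_nonneg fun _ _ => sq_nonneg _)
  rw [h1]
  calc (NN d L)⁻¹ * ∑ P, ‖G P‖ ^ 2
      ≤ (NN d L)⁻¹ * ∑ P : T d L, (Q * (NN d L)⁻¹ * S P + (1 - hi θ P) * (nsq a * nsq b)) := by
        apply mul_le_mul_of_nonneg_left _ (by positivity)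
        exact Finset.sum_le_sum fun P _ => h4 P
    _ = Q * (((NN d L)⁻¹ * ∑ k, JJ E δ k * ‖fc a k‖ ^ 2) *
        ((NN d L)⁻¹ * ∑ k, JJ E δ k * ‖fc b k‖ ^ 2)) +
        (NN d L)⁻¹ * (∑ P : T d L, (1 - hi θ P)) * (nsq a * nsq b) := by
        rw [Finset.sum_add_distrib, ← Finset.mul_sum, ← Finset.sum_mul]
        have := sum_pairs E δ a b
        simp only [hS]
        rw [this]
        ring
    _ = Q * (qf (J0 E δ) a * qf (J0 E δ) b) + (NN d L)⁻¹ * (∑ P : T d L, (1 - hi θ P)) * (nsq a * nsq b) := by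
        rw [hq, hq]
    _ ≤ Q * (qf (J0 E δ) a * qf (J0 E δ) b) +
        cn * ((qf (J0 E δ) a * qf (J0 E δ) b) / δ ^ 2) := by
        have h8 : (NN d L)⁻¹ * (∑ P : T d L, (1 - hi θ P)) ≤ cn := by
          rw [inv_mul_eq_div, div_le_iff₀ hN]
          exact hcn
        have h9 : 0 ≤ (NN d L)⁻¹ * (∑ P : T d L, (1 - hi θ P)) := by
          refine mul_nonneg (by positivity) (Finset.sum_nonneg fun P _ => ?_)
          unfold hi
          split_ifs <;> norm_num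
        have h10 := mul_le_mul h8 hab hab0 (h9.trans h8)
        linarith
    _ = _ := by ring

end Pool.Agent.T2h98.QD
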