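import Pool.Agent.T2h98.QD.Stm5
import Pool.Agent.T2h98.QD.KER
import Pool.Agent.T2h98.QD.Win
import Pool.Agent.T2h98.QD.MoA

/-! The form bound for the resolvent, on the good event. -/

set_option autoImplicit false
set_option linter.unusedSectionVars false

open scoped BigOperators Matrix
open MeasureTheory ProbabilityTheory

namespace Pool.Agent.T2h98.QD

open Pool.Agent.W788.MFP.Four (T e NN adj K Op ft)
open Pool.Agent.W788.BK (nsq hs PP JJ hi Low cr nsq_nonneg nsq_eq nsq_smul nsq_eq_zero cs_norm adjoint herm)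

namespace RQFS

open KQ

variable {d L : ℕ} [NeZero L]

/-- Parseval -/
theorem parse (a b : T d L → ℂ) : ∑ x, star (a x) * b x =
    ((NN d L : ℝ) : ℂ)⁻¹ * ∑ k, star (fc a k) * fc b k := by
  have h1 := conv a b 0
  simp only [add_zero] at h1
  rw [← h1]
  refine Finset.sum_congr rfl fun x _ => ?_
  rw [Pool.Agent.W788.MFP.Four.e_comm, Pool.Agent.W788.MFP.Four.e_zero, mul_one]

theorem qf_J0 (E δ : ℝ) (w : T d L → ℂ) :
    qf (J0 E δ) w = (NN d L)⁻¹ * ∑ k, JJ E δ k * ‖fc w k‖ ^ 2 := by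
  unfold J0
  rw [qf_Mo]

theorem qf_J1 (E δ : ℝ) (w : T d L → ℂ) :
    qf (J1 E δ) w = (NN d L)⁻¹ * ∑ k, (JJ E δ k)⁻¹ * ‖fc w k‖ ^ 2 := by
  unfold J1
  rw [qf_Mo]

theorem fc_add (a b : T d L → ℂ) (k : T d L) : fc (fun x => a x + b x) k = fc a k + fc b k := by
  unfold fc
  rw [← Finset.sum_add_distrib]
  exact Finset.sum_congr rfl fun x _ => by ring

theorem fc_sub (a b : T d L → ℂ) (k : T d L) : fc (fun x => a x - b x) k = fc a k - fc b k := by
  unfold fc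
  rw [← Finset.sum_sub_distrib]
  exact Finset.sum_congr rfl fun x _ => by ring

theorem paral (z w : ℂ) : ‖z + w‖ ^ 2 + ‖z - w‖ ^ 2 = 2 * ‖z‖ ^ 2 + 2 * ‖w‖ ^ 2 := by
  have := parallelogram_law_with_norm ℝ z w
  nlinarith

theorem polar (z w : ℂ) : ‖z + w‖ ^ 2 - ‖z - w‖ ^ 2 = 4 * (star z * w).re := by
  rw [← Complex.normSq_eq_norm_sq, ← Complex.normSq_eq_norm_sq, Complex.normSq_apply, Complex.normSq_apply,
    Complex.star_def, Complex.mul_re]
  simp only [Complex.add_re, Complex.add_im, Complex.sub_re, Complex.sub_im, Complex.conj_re, Complex.conj_im]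
  ring

/-- the form bound for complex functions -/
theorem form_c {E δ t : ℝ} {ξ : T d L → ℝ}
    (hf : ∀ w : T d L → ℝ, |∑ x, ξ x * w x ^ 2| ≤ t * Pool.Agent.W788.MFP.Four.q (JJ E δ) w)
    (w : T d L → ℂ) : |∑ x, ξ x * ‖w x‖ ^ 2| ≤ t * qf (J0 E δ) w := by
  have h1 : ∑ x, ξ x * ‖w x‖ ^ 2 = ∑ x, ξ x * (w x).re ^ 2 + ∑ x, ξ x * (w x).im ^ 2 := by
    rw [← Finset.sum_add_distrib]
    refine Finset.sum_congr rfl fun x _ => ?_
    rw [← Complex.normSq_eq_norm_sq, Complex.normSq_apply]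
    ring
  have h2 : qf (J0 E δ) w = Pool.Agent.W788.MFP.Four.q (JJ E δ) (fun y => (w y).re) +
        Pool.Agent.W788.MFP.Four.q (JJ E δ) (fun y => (w y).im) := by
    unfold J0
    rw [Win.Mo_qf _ (Win.JJ_neg E δ)]
  rw [h1, h2, mul_add]
  exact (abs_add_le _ _).trans (add_le_add (hf _) (hf _))

theorem form_pol {E δ t : ℝ} {ξ : T d L → ℝ}
    (hf : ∀ w : T d L → ℝ, |∑ x, ξ x * w x ^ 2| ≤ t * Pool.Agent.W788.MFP.Four.q (JJ E δ) w)
    (u v : T d L → ℂ) : |∑ x, ξ x * (star (u x) * v x).re| ≤ t / 2 * (qf (J0 E δ) u + qf (J0 E δ) v) := by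
  have h1 := form_c hf (fun x => u x + v x)
  have h2 := form_c hf (fun x => u x - v x)
  have h3 : ∑ x, ξ x * (star (u x) * v x).re =
      1 / 4 * (∑ x, ξ x * ‖u x + v x‖ ^ 2 - ∑ x, ξ x * ‖u x - v x‖ ^ 2) := by
    rw [← Finset.sum_sub_distrib, Finset.mul_sum]
    refine Finset.sum_congr rfl fun x _ => ?_
    have := polar (u x) (v x)
    linear_combination (-(1 / 4) * ξ x) * this
  have h4 : qf (J0 E δ) (fun x => u x + v x) + qf (J0 E δ) (fun x => u x - v x) =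
      2 * (qf (J0 E δ) u + qf (J0 E δ) v) := by
    rw [qf_J0, qf_J0, qf_J0, qf_J0, ← mul_add, ← mul_add, ← Finset.sum_add_distrib, ← Finset.sum_add_distrib,
      mul_left_comm (2 : ℝ)]
    congr 1
    rw [Finset.mul_sum]
    refine Finset.sum_congr rfl fun k _ => ?_
    rw [fc_add, fc_sub]
    have := paral (fc u k) (fc v k)
    linear_combination (JJ E δ k) * this
  rw [h3, abs_mul, abs_of_pos (by norm_num : (0 : ℝ) < 1 / 4)]
  have h5 : |∑ x, ξ x * ‖u x + v x‖ ^ 2 - ∑ x, ξ x * ‖u x - v x‖ ^ 2| ≤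
      |∑ x, ξ x * ‖u x + v x‖ ^ 2| + |∑ x, ξ x * ‖u x - v x‖ ^ 2| := abs_sub _ _
  calc 1 / 4 * |∑ x, ξ x * ‖u x + v x‖ ^ 2 - ∑ x, ξ x * ‖u x - v x‖ ^ 2|
      ≤ 1 / 4 * (t * qf (J0 E δ) (fun x => u x + v x) + t * qf (J0 E δ) (fun x => u x - v x)) := by
        apply mul_le_mul_of_nonneg_left _ (by norm_num)
        exact h5.trans (add_le_add h1 h2)
    _ = t / 4 * (qf (J0 E δ) (fun x => u x + v x) + qf (J0 E δ) (fun x => u x - v x)) := by ring
    _ = _ := by rw [h4]; ring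

/-- the main estimate -/
theorem core {E δ t σ ε : ℝ} (hδ : 0 < δ) (hσ : 0 ≤ σ) (hσt : σ * t ≤ 1 / 2) {ξ : T d L → ℝ}
    (hf : ∀ w : T d L → ℝ, |∑ x, ξ x * w x ^ 2| ≤ t * Pool.Agent.W788.MFP.Four.q (JJ E δ) w)
    (f b : T d L → ℂ)
    (hx : ∀ x, (h0 E *ᵥ f) x + ((σ * ξ x : ℝ) : ℂ) * f x - ((ε : ℂ) * Complex.I) * f x = b x) :
    qf (J0 E δ) f ≤ 4 * (qf (J1 E δ) b + δ * nsq f) := by
  have hN := Pool.Agent.W788.MFP.Four.NN_pos (d := d) (L := L)
  have hJ : ∀ k : T d L, 0 < JJ E δ k := KERS.JJ_pos hδ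
  obtain ⟨s, hs⟩ : ∃ s : T d L → ℝ, s = fun k => (adj k - E) / JJ E δ k := ⟨_, rfl⟩
  have hs1 : ∀ k, |s k| ≤ 1 := fun k => by
    rw [hs]
    simp only
    rw [abs_div, abs_of_pos (hJ k), div_le_one (hJ k)]
    exact Pool.Agent.W788.MFP.Form.J_ge' E δ k
  obtain ⟨u, hu⟩ : ∃ u : T d L → ℂ, u = Mo (fun k => ((s k : ℝ) : ℂ)) *ᵥ f := ⟨_, rfl⟩
  have huF : ∀ k, fc u k = (s k : ℂ) * fc f k := fun k => by rw [hu, fc_mo]
  have hh : ∀ k, fc (h0 E *ᵥ f) k = ((adj k - E : ℝ) : ℂ) * fc f k := fun k => by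
    unfold h0
    rw [fc_mo]
  -- the decomposition
  have h1 : ∑ x, star (u x) * b x = ∑ x, star (u x) * (h0 E *ᵥ f) x +
      (σ : ℂ) * ∑ x, (ξ x : ℂ) * (star (u x) * f x) - ((ε : ℂ) * Complex.I) * ∑ x, star (u x) * f x := by
    rw [Finset.mul_sum, Finset.mul_sum, ← Finset.sum_add_distrib, ← Finset.sum_sub_distrib]
    refine Finset.sum_congr rfl fun x _ => ?_
    rw [← hx x]
    push_cast
    ring
  have h2 : ∑ x, star (u x) * (h0 E *ᵥ f) x =
      (((NN d L)⁻¹ * ∑ k, s k * (adj k - E) * ‖fc f k‖ ^ 2 : ℝ) : ℂ) := by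
    rw [parse]
    push_cast
    congr 1
    refine Finset.sum_congr rfl fun k _ => ?_
    rw [huF, hh, star_mul', ← Complex.conj_mul']
    simp only [Complex.star_def, Complex.conj_ofReal]
    push_cast
    ring
  have h3 : ∑ x, star (u x) * f x = (((NN d L)⁻¹ * ∑ k, s k * ‖fc f k‖ ^ 2 : ℝ) : ℂ) := by
    rw [parse]
    push_cast
    congr 1
    refine Finset.sum_congr rfl fun k _ => ?_
    rw [huF, star_mul', ← Complex.conj_mul']
    simp only [Complex.star_def, Complex.conj_ofReal]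
    ring
  have h4 : (∑ x, star (u x) * b x).re = (NN d L)⁻¹ * ∑ k, s k * (adj k - E) * ‖fc f k‖ ^ 2 +
      σ * ∑ x, ξ x * (star (u x) * f x).re := by
    rw [h1, h2, h3, Complex.sub_re, Complex.add_re, Complex.ofReal_re, Complex.re_ofReal_mul, Complex.re_sum]
    have e1 : ∀ x, ((ξ x : ℂ) * (star (u x) * f x)).re = ξ x * (star (u x) * f x).re := fun x =>
      Complex.re_ofReal_mul _ _
    have e2 : ∀ r : ℝ, (((ε : ℂ) * Complex.I) * (r : ℂ)).re = 0 := fun r => by simp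
    rw [Finset.sum_congr rfl fun x _ => e1 x, e2, sub_zero]
  -- the bounds
  have h5 : qf (J0 E δ) f - δ * nsq f ≤ (NN d L)⁻¹ * ∑ k, s k * (adj k - E) * ‖fc f k‖ ^ 2 := by
    rw [qf_J0, nsq_fc, mul_left_comm δ, ← mul_sub, Finset.mul_sum, ← Finset.sum_sub_distrib]
    apply mul_le_mul_of_nonneg_left _ (by positivity)
    refine Finset.sum_le_sum fun k _ => ?_
    rw [← sub_mul]
    apply mul_le_mul_of_nonneg_right _ (by positivity)
    have hk := hJ k
    have e1 : s k * (adj k - E) = (adj k - E) ^ 2 / JJ E δ k := by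
      rw [hs]
      simp only
      ring
    have e2 : JJ E δ k ^ 2 = (adj k - E) ^ 2 + δ ^ 2 := Pool.Agent.W788.MFP.Form.J_sq E δ k
    have e3 : δ ≤ JJ E δ k := KERS.le_JJ k
    rw [e1, le_div_iff₀ hk]
    nlinarith
  have h6 : |∑ x, ξ x * (star (u x) * f x).re| ≤ t / 2 * (qf (J0 E δ) u + qf (J0 E δ) f) := form_pol hf u f
  have h7 : qf (J0 E δ) u ≤ qf (J0 E δ) f := by
    rw [qf_J0, qf_J0]
    apply mul_le_mul_of_nonneg_left _ (by positivity)
    refine Finset.sum_le_sum fun k _ => ?_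
    apply mul_le_mul_of_nonneg_left _ (hJ k).le
    rw [huF, norm_mul, Complex.norm_real, Real.norm_eq_abs]
    have := hs1 k
    have h8 : |s k| * ‖fc f k‖ ≤ ‖fc f k‖ := mul_le_of_le_one_left (norm_nonneg _) this
    exact pow_le_pow_left₀ (by positivity) h8 2
  have hq0 : 0 ≤ qf (J0 E δ) f := by
    rw [qf_J0]
    exact mul_nonneg (by positivity) (Finset.sum_nonneg fun k _ => mul_nonneg (hJ k).le (by positivity))
  have ht : 0 ≤ t ∨ qf (J0 E δ) f = 0 := by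
    by_cases h : 0 ≤ t
    · exact Or.inl h
    · right
      have h9 := form_c hf f
      have h10 : 0 ≤ t * qf (J0 E δ) f := (abs_nonneg _).trans h9
      push Not at h
      nlinarith
  have h8 : σ * |∑ x, ξ x * (star (u x) * f x).re| ≤ 1 / 2 * qf (J0 E δ) f := by
    rcases ht with ht | ht
    · calc σ * |∑ x, ξ x * (star (u x) * f x).re|
          ≤ σ * (t / 2 * (qf (J0 E δ) u + qf (J0 E δ) f)) := mul_le_mul_of_nonneg_left h6 hσ
        _ ≤ σ * (t / 2 * (qf (J0 E δ) f + qf (J0 E δ) f)) := by gcongr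
        _ = (σ * t) * qf (J0 E δ) f := by ring
        _ ≤ _ := mul_le_mul_of_nonneg_right hσt hq0
    · have hu0 : qf (J0 E δ) u = 0 := by
        apply le_antisymm (h7.trans ht.le)
        rw [qf_J0]
        exact mul_nonneg (by positivity) (Finset.sum_nonneg fun k _ => mul_nonneg (hJ k).le (by positivity))
      rw [hu0, ht, add_zero, mul_zero] at h6
      rw [ht, mul_zero]
      have := abs_nonneg (∑ x, ξ x * (star (u x) * f x).re)
      nlinarith
  have h9 : (∑ x, star (u x) * b x).re ≤ 1 / 4 * qf (J0 E δ) f + qf (J1 E δ) b := by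
    rw [parse, ← Complex.ofReal_inv, Complex.re_ofReal_mul, Complex.re_sum, qf_J0, qf_J1, mul_left_comm (1 / 4 : ℝ),
      ← mul_add]
    apply mul_le_mul_of_nonneg_left _ (by positivity)
    rw [Finset.mul_sum, ← Finset.sum_add_distrib]
    refine Finset.sum_le_sum fun k _ => ?_
    refine (Complex.re_le_norm _).trans ?_
    rw [norm_mul, norm_star, huF, norm_mul, Complex.norm_real, Real.norm_eq_abs]
    have hk := hJ k
    have e1 : |s k| * ‖fc f k‖ * ‖fc b k‖ ≤ ‖fc f k‖ * ‖fc b k‖ := by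
      apply mul_le_mul_of_nonneg_right _ (norm_nonneg _)
      exact mul_le_of_le_one_left (norm_nonneg _) (hs1 k)
    refine e1.trans ?_
    have e2 : 1 / 4 * (JJ E δ k * ‖fc f k‖ ^ 2) + (JJ E δ k)⁻¹ * ‖fc b k‖ ^ 2 - ‖fc f k‖ * ‖fc b k‖ =
        (JJ E δ k)⁻¹ * (JJ E δ k * ‖fc f k‖ / 2 - ‖fc b k‖) ^ 2 := by
      field_simp
      ring
    have e3 : 0 ≤ (JJ E δ k)⁻¹ * (JJ E δ k * ‖fc f k‖ / 2 - ‖fc b k‖) ^ 2 := by positivity
    linarith
  have h10 : -(σ * |∑ x, ξ x * (star (u x) * f x).re|) ≤ σ * ∑ x, ξ x * (star (u x) * f x).re := by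
    have := neg_abs_le (∑ x, ξ x * (star (u x) * f x).re)
    nlinarith
  linarith

/-- the Hermitian part -/
noncomputable def HH (E σ : ℝ) (ξ : T d L → ℝ) : Matrix (T d L) (T d L) ℂ :=
  h0 E + ∑ y, (ξ y : ℂ) • ((σ : ℂ) • EY y)

theorem HH_apply (E σ : ℝ) (ξ : T d L → ℝ) (v : T d L → ℂ) (x : T d L) :
    (HH E σ ξ *ᵥ v) x = (h0 E *ᵥ v) x + ((σ * ξ x : ℝ) : ℂ) * v x := by
  unfold HH
  rw [Matrix.add_mulVec, Pi.add_apply, Matrix.sum_mulVec, Finset.sum_apply]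
  congr 1
  rw [Finset.sum_eq_single x]
  · rw [Matrix.smul_mulVec, Matrix.smul_mulVec, Pi.smul_apply, Pi.smul_apply]
    unfold EY
    rw [Matrix.mulVec_diagonal, Pi.single_eq_same, smul_eq_mul, smul_eq_mul]
    push_cast
    ring
  · intro y _ hy
    rw [Matrix.smul_mulVec, Matrix.smul_mulVec, Pi.smul_apply, Pi.smul_apply]
    unfold EY
    rw [Matrix.mulVec_diagonal, Pi.single_eq_of_ne hy.symm]
    simp
  · intro h
    exact absurd (Finset.mem_univ x) h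

theorem HH_herm (E σ : ℝ) (ξ : T d L → ℝ) : (HH E σ ξ : Matrix (T d L) (T d L) ℂ).IsHermitian := by
  unfold HH Matrix.IsHermitian
  rw [Matrix.conjTranspose_add, (Win.h0_herm E).eq, Matrix.conjTranspose_sum]
  congr 1
  refine Finset.sum_congr rfl fun y _ => ?_
  have h1 : (EY y : Matrix (T d L) (T d L) ℂ)ᴴ = EY y := by
    unfold EY
    rw [Matrix.diagonal_conjTranspose]
    congr 1
    funext i
    by_cases h : i = y
    · subst h; simp
    · simp [Pi.single_eq_of_ne h]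
  rw [Matrix.conjTranspose_smul, Matrix.conjTranspose_smul, h1]
  simp

theorem Rh_eq (E σ ε : ℝ) (ξ : T d L → ℝ) : Rh (h0 (d := d) (L := L) E) σ ε ξ = (Win.XX' (HH E σ ξ) 1 ε)⁻¹ := rfl

end RQFS

open RQFS in
theorem rqf : T_RQF := by
  intro d L _ E δ ε t σ hδ hε ht hσ hσt ξ hf b
  have hH := HH_herm (d := d) (L := L) E σ ξ
  have hu : IsUnit (Win.XX' (HH E σ ξ) (1 : Matrix (T d L) (T d L) ℂ) ε) := by
    refine Win.isUnit_X hH Matrix.isHermitian_one hε one_pos fun w => ?_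
    rw [one_mul]
    unfold qf
    rw [Matrix.one_mulVec, ← nsq_eq, Complex.ofReal_re]
  have hdet : IsUnit (Win.XX' (HH E σ ξ) (1 : Matrix (T d L) (T d L) ℂ) ε).det :=
    (Matrix.isUnit_iff_isUnit_det _).1 hu
  constructor
  · refine core (ε := ε) hδ hσ hσt hf _ b fun x => ?_
    have h1 : Win.XX' (HH E σ ξ) (1 : Matrix (T d L) (T d L) ℂ) ε *ᵥ (Rh (h0 E) σ ε ξ *ᵥ b) = b := by
      rw [Rh_eq, Matrix.mulVec_mulVec, Matrix.mul_nonsing_inv _ hdet, Matrix.one_mulVec]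
    have h2 := congrFun h1 x
    rw [Matrix.sub_mulVec, Matrix.smul_mulVec, Matrix.one_mulVec, Pi.sub_apply, Pi.smul_apply, HH_apply,
      smul_eq_mul] at h2
    exact h2
  · refine core (ε := -ε) hδ hσ hσt hf _ b fun x => ?_
    have h1 : (Win.XX' (HH E σ ξ) (1 : Matrix (T d L) (T d L) ℂ) ε)ᴴ *ᵥ ((Rh (h0 E) σ ε ξ)ᴴ *ᵥ b) = b := by
      rw [Rh_eq, Matrix.mulVec_mulVec, ← Matrix.conjTranspose_mul, Matrix.nonsing_inv_mul _ hdet,
        Matrix.conjTranspose_one, Matrix.one_mulVec]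
    have h3 : (Win.XX' (HH E σ ξ) (1 : Matrix (T d L) (T d L) ℂ) ε)ᴴ =
        HH E σ ξ - (((-ε : ℝ) : ℂ) * Complex.I) • (1 : Matrix (T d L) (T d L) ℂ) := by
      unfold Win.XX'
      rw [Matrix.conjTranspose_sub, hH.eq, Matrix.conjTranspose_smul, Matrix.conjTranspose_one]
      congr 2
      simp
    rw [h3] at h1
    have h2 := congrFun h1 x
    rw [Matrix.sub_mulVec, Matrix.smul_mulVec, Matrix.one_mulVec, Pi.sub_apply, Pi.smul_apply, HH_apply,
      smul_eq_mul] at h2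
    exact h2

end Pool.Agent.T2h98.QD
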