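import Pool.Agent.T2h98.QD.Defs

/-! Basic facts about the resolvent with the regularisation `η J`. -/

set_option autoImplicit false
set_option linter.unusedSectionVars false

open scoped BigOperators Matrix
open MeasureTheory ProbabilityTheory

namespace Pool.Agent.T2h98.QD

open Pool.Agent.W788.BK

variable {n m : Type} [Fintype n] [DecidableEq n] [Fintype m] [DecidableEq m]

theorem form_real {X : Matrix n n ℂ} (hX : X.IsHermitian) (w : n → ℂ) :
    (star w ⬝ᵥ (X *ᵥ w)).im = 0 := by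
  have h1 := herm hX w w
  have h2 : star (X *ᵥ w) ⬝ᵥ w = star (star w ⬝ᵥ (X *ᵥ w)) := by
    rw [← Matrix.star_dotProduct_star, star_star, dotProduct_comm]
  rw [h2] at h1
  have h3 := congrArg Complex.im h1
  have h4 : (star (star w ⬝ᵥ (X *ᵥ w))).im = -(star w ⬝ᵥ (X *ᵥ w)).im := rfl
  rw [h4] at h3
  linarith

theorem star_form (B : Matrix n n ℂ) (a b : n → ℂ) :
    star (star a ⬝ᵥ (B *ᵥ b)) = star b ⬝ᵥ (Bᴴ *ᵥ a) := by
  rw [adjoint, ← Matrix.star_dotProduct_star, star_star, dotProduct_comm]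

theorem qf_ofReal {J : Matrix n n ℂ} (hJ : J.IsHermitian) (w : n → ℂ) :
    ((qf J w : ℝ) : ℂ) = star w ⬝ᵥ (J *ᵥ w) := by
  apply Complex.ext
  · rfl
  · rw [form_real hJ]
    simp

section sys

variable {h J : Matrix n n ℂ} {A : m → Matrix n n ℂ} {η δ Q : ℝ}

/-- the Hermitian part -/
theorem hp_herm (S : Sys h J A η δ Q) (V : m → ℝ) :
    (h + ∑ y, (V y : ℂ) • A y).IsHermitian := XX_herm S.hh S.hA V

theorem qf_nonneg (S : Sys h J A η δ Q) (w : n → ℂ) : 0 ≤ qf J w :=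
  (mul_nonneg S.hδ.le (nsq_nonneg w)).trans (S.hJδ w)

theorem xg_im (S : Sys h J A η δ Q) (V : m → ℝ) (w : n → ℂ) :
    (star w ⬝ᵥ (XG h J A η V *ᵥ w)).im = -(η * qf J w) := by
  unfold XG
  rw [Matrix.sub_mulVec, dotProduct_sub, Complex.sub_im, form_real (hp_herm S V),
    Matrix.smul_mulVec, dotProduct_smul, smul_eq_mul, ← qf_ofReal S.hJ]
  simp

theorem isUnit_xg (S : Sys h J A η δ Q) (V : m → ℝ) : IsUnit (XG h J A η V) := by
  rw [← Matrix.mulVec_injective_iff_isUnit]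
  intro u w huw
  have h1 : XG h J A η V *ᵥ (u - w) = 0 := by
    rw [Matrix.mulVec_sub]
    exact sub_eq_zero.2 huw
  have h2 := xg_im S V (u - w)
  rw [h1, dotProduct_zero, Complex.zero_im] at h2
  have h3 := S.hJδ (u - w)
  have h4 : η * qf J (u - w) = 0 := by linarith
  have h5 : qf J (u - w) = 0 := by
    rcases mul_eq_zero.1 h4 with h | h
    · exact absurd h S.hη.ne'
    · exact h
  have h6 : nsq (u - w) = 0 := by
    have h7 := nsq_nonneg (u - w)
    have h8 := S.hδ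
    by_contra hne
    have h9 : 0 < nsq (u - w) := lt_of_le_of_ne h7 (Ne.symm hne)
    have : 0 < δ * nsq (u - w) := mul_pos h8 h9
    linarith
  exact sub_eq_zero.1 (nsq_eq_zero _ h6)

theorem xg_gg (S : Sys h J A η δ Q) (V : m → ℝ) : XG h J A η V * GG h J A η V = 1 :=
  Matrix.mul_nonsing_inv _ ((Matrix.isUnit_iff_isUnit_det _).1 (isUnit_xg S V))

theorem gg_xg (S : Sys h J A η δ Q) (V : m → ℝ) : GG h J A η V * XG h J A η V = 1 :=
  Matrix.nonsing_inv_mul _ ((Matrix.isUnit_iff_isUnit_det _).1 (isUnit_xg S V))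

theorem xgH (S : Sys h J A η δ Q) (V : m → ℝ) :
    (XG h J A η V)ᴴ = XG h J A η V + (2 * (η : ℂ) * Complex.I) • J := by
  unfold XG
  rw [Matrix.conjTranspose_sub, (hp_herm S V).eq, Matrix.conjTranspose_smul, S.hJ.eq]
  have h3 : star ((η : ℂ) * Complex.I) = -((η : ℂ) * Complex.I) := by
    rw [star_mul']
    simp
  rw [h3, neg_smul, sub_neg_eq_add, sub_add, ← sub_smul]
  rw [show ((η : ℂ) * Complex.I - 2 * (η : ℂ) * Complex.I) = -((η : ℂ) * Complex.I) by ring,
    neg_smul, sub_neg_eq_add]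

theorem xgH_ggH (S : Sys h J A η δ Q) (V : m → ℝ) :
    (XG h J A η V)ᴴ * (GG h J A η V)ᴴ = 1 := by
  rw [← Matrix.conjTranspose_mul, gg_xg S V, Matrix.conjTranspose_one]

theorem ggH_xgH (S : Sys h J A η δ Q) (V : m → ℝ) :
    (GG h J A η V)ᴴ * (XG h J A η V)ᴴ = 1 := by
  rw [← Matrix.conjTranspose_mul, xg_gg S V, Matrix.conjTranspose_one]

/-- `G - G* = 2 i η G* J G = 2 i η G J G*` -/
theorem gg_diff (S : Sys h J A η δ Q) (V : m → ℝ) :
    GG h J A η V - (GG h J A η V)ᴴ =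
      (2 * (η : ℂ) * Complex.I) • ((GG h J A η V)ᴴ * J * GG h J A η V) ∧
    GG h J A η V - (GG h J A η V)ᴴ =
      (2 * (η : ℂ) * Complex.I) • (GG h J A η V * J * (GG h J A η V)ᴴ) := by
  have h1 := xg_gg S V
  have h2 := gg_xg S V
  have h3 := xgH_ggH S V
  have h4 := ggH_xgH S V
  have h5 := xgH S V
  have h6 : (2 * (η : ℂ) * Complex.I) • J = (XG h J A η V)ᴴ - XG h J A η V := by
    rw [h5]
    abel
  constructor
  · calc GG h J A η V - (GG h J A η V)ᴴ = ((GG h J A η V)ᴴ * (XG h J A η V)ᴴ) * GG h J A η V -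
          (GG h J A η V)ᴴ * (XG h J A η V * GG h J A η V) := by rw [h4, h1, one_mul, mul_one]
      _ = (GG h J A η V)ᴴ * ((XG h J A η V)ᴴ - XG h J A η V) * GG h J A η V := by
          noncomm_ring
      _ = _ := by rw [← h6, mul_smul_comm, smul_mul_assoc]
  · calc GG h J A η V - (GG h J A η V)ᴴ = GG h J A η V * ((XG h J A η V)ᴴ * (GG h J A η V)ᴴ) -
          (GG h J A η V * XG h J A η V) * (GG h J A η V)ᴴ := by rw [h3, h2, one_mul, mul_one]
      _ = GG h J A η V * ((XG h J A η V)ᴴ - XG h J A η V) * (GG h J A η V)ᴴ := by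
          noncomm_ring
      _ = _ := by rw [← h6, mul_smul_comm, smul_mul_assoc]

/-- the Ward identity -/
theorem gg_ward (S : Sys h J A η δ Q) (V : m → ℝ) (w : n → ℂ) :
    (star w ⬝ᵥ (GG h J A η V *ᵥ w)).im = η * qf J (GG h J A η V *ᵥ w) ∧
    (star w ⬝ᵥ (GG h J A η V *ᵥ w)).im = η * qf J ((GG h J A η V)ᴴ *ᵥ w) := by
  obtain ⟨d1, d2⟩ := gg_diff S V
  have key : ∀ B : Matrix n n ℂ, GG h J A η V - (GG h J A η V)ᴴ =
      (2 * (η : ℂ) * Complex.I) • (Bᴴ * J * B) →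
      (star w ⬝ᵥ (GG h J A η V *ᵥ w)).im = η * qf J (B *ᵥ w) := by
    intro B hB
    have h1 : star w ⬝ᵥ ((GG h J A η V - (GG h J A η V)ᴴ) *ᵥ w) =
        (2 * (η : ℂ) * Complex.I) * (qf J (B *ᵥ w) : ℂ) := by
      rw [hB, Matrix.smul_mulVec, dotProduct_smul, smul_eq_mul, Matrix.mul_assoc,
        ← Matrix.mulVec_mulVec, adjoint, Matrix.conjTranspose_conjTranspose,
        ← Matrix.mulVec_mulVec, qf_ofReal S.hJ]
    rw [Matrix.sub_mulVec, dotProduct_sub, ← star_form] at h1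
    have h3 := congrArg Complex.im h1
    have h4 : ∀ z : ℂ, (z - star z).im = 2 * z.im := by
      intro z
      rw [Complex.sub_im]
      have : (star z).im = -z.im := rfl
      rw [this]
      ring
    rw [h4] at h3
    simp at h3
    linarith
  refine ⟨key _ d1, key _ ?_⟩
  rw [Matrix.conjTranspose_conjTranspose]
  exact d2

theorem form_im_nonneg (S : Sys h J A η δ Q) (V : m → ℝ) (w : n → ℂ) :
    0 ≤ (star w ⬝ᵥ (GG h J A η V *ᵥ w)).im := by
  rw [(gg_ward S V w).1]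
  exact mul_nonneg S.hη.le (qf_nonneg S _)

theorem qf_gg_eq (S : Sys h J A η δ Q) (V : m → ℝ) (w : n → ℂ) :
    qf J (GG h J A η V *ᵥ w) = (star w ⬝ᵥ (GG h J A η V *ᵥ w)).im / η ∧
    qf J ((GG h J A η V)ᴴ *ᵥ w) = (star w ⬝ᵥ (GG h J A η V *ᵥ w)).im / η := by
  have hη := S.hη
  obtain ⟨h1, h2⟩ := gg_ward S V w
  constructor
  · rw [h1]
    field_simp
  · rw [h2]
    field_simp

/-- `‖G w‖² ≤ Im ⟨w, G w⟩ / (η δ)` -/
theorem nsq_gg_im (S : Sys h J A η δ Q) (V : m → ℝ) (w : n → ℂ) :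
    nsq (GG h J A η V *ᵥ w) ≤ (star w ⬝ᵥ (GG h J A η V *ᵥ w)).im / (η * δ) ∧
    nsq ((GG h J A η V)ᴴ *ᵥ w) ≤ (star w ⬝ᵥ (GG h J A η V *ᵥ w)).im / (η * δ) := by
  have hη := S.hη
  have hδ := S.hδ
  obtain ⟨h1, h2⟩ := qf_gg_eq S V w
  have h3 := S.hJδ (GG h J A η V *ᵥ w)
  have h4 := S.hJδ ((GG h J A η V)ᴴ *ᵥ w)
  rw [h1] at h3
  rw [h2] at h4
  constructor
  · rw [le_div_iff₀ (by positivity)]
    rw [le_div_iff₀ hη] at h3
    linarith
  · rw [le_div_iff₀ (by positivity)]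
    rw [le_div_iff₀ hη] at h4
    linarith

/-- `‖G w‖ ≤ ‖w‖ / (η δ)` -/
theorem nsq_gg (S : Sys h J A η δ Q) (V : m → ℝ) (w : n → ℂ) :
    nsq (GG h J A η V *ᵥ w) ≤ nsq w / (η * δ) ^ 2 ∧
    nsq ((GG h J A η V)ᴴ *ᵥ w) ≤ nsq w / (η * δ) ^ 2 := by
  have hη := S.hη
  have hδ := S.hδ
  have hp : 0 < η * δ := mul_pos hη hδ
  obtain ⟨h1, h2⟩ := nsq_gg_im S V w
  have key : ∀ u : n → ℂ, nsq u ≤ (star w ⬝ᵥ (GG h J A η V *ᵥ w)).im / (η * δ) →
      (star w ⬝ᵥ (GG h J A η V *ᵥ w)).im ≤ Real.sqrt (nsq w) * Real.sqrt (nsq u) →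
      nsq u ≤ nsq w / (η * δ) ^ 2 := by
    intro u hu hb
    rw [le_div_iff₀ hp] at hu
    have e1 := nsq_nonneg u
    have e2 := nsq_nonneg w
    have e3 : nsq u * (η * δ) ≤ Real.sqrt (nsq w) * Real.sqrt (nsq u) := hu.trans hb
    have e4 : (nsq u * (η * δ)) ^ 2 ≤ nsq w * nsq u := by
      calc (nsq u * (η * δ)) ^ 2 ≤ (Real.sqrt (nsq w) * Real.sqrt (nsq u)) ^ 2 :=
            pow_le_pow_left₀ (by positivity) e3 2
        _ = nsq w * nsq u := by rw [mul_pow, Real.sq_sqrt e2, Real.sq_sqrt e1]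
    rw [le_div_iff₀ (by positivity)]
    rcases e1.eq_or_lt with h0 | h0
    · rw [← h0]
      simpa using e2
    · have e5 : nsq u * (nsq u * (η * δ) ^ 2) ≤ nsq u * nsq w := by
        calc nsq u * (nsq u * (η * δ) ^ 2) = (nsq u * (η * δ)) ^ 2 := by ring
          _ ≤ nsq w * nsq u := e4
          _ = nsq u * nsq w := by ring
      exact le_of_mul_le_mul_left e5 h0
  have hc : (star w ⬝ᵥ (GG h J A η V *ᵥ w)).im ≤ ‖star w ⬝ᵥ (GG h J A η V *ᵥ w)‖ :=
    (le_abs_self _).trans (Complex.abs_im_le_norm _)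
  refine ⟨key _ h1 (hc.trans (cs_norm _ _)), key _ h2 (hc.trans ?_)⟩
  rw [adjoint]
  have h5 := cs_norm ((GG h J A η V)ᴴ *ᵥ w) w
  rw [mul_comm] at h5
  exact h5

/-- `⟨G w, J G w⟩ ≤ ‖w‖² / (η² δ)` -/
theorem qf_gg (S : Sys h J A η δ Q) (V : m → ℝ) (w : n → ℂ) :
    qf J (GG h J A η V *ᵥ w) ≤ nsq w / (η ^ 2 * δ) ∧
    qf J ((GG h J A η V)ᴴ *ᵥ w) ≤ nsq w / (η ^ 2 * δ) := by
  have hη := S.hη
  have hδ := S.hδ
  have hp : 0 < η * δ := mul_pos hη hδ
  obtain ⟨h1, h2⟩ := qf_gg_eq S V w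
  have h3 : (star w ⬝ᵥ (GG h J A η V *ᵥ w)).im ≤ nsq w / (η * δ) := by
    refine ((le_abs_self _).trans (Complex.abs_im_le_norm _)).trans ((cs_norm _ _).trans ?_)
    have h4 := Real.sqrt_le_sqrt (nsq_gg S V w).1
    rw [Real.sqrt_div' _ (by positivity), Real.sqrt_sq hp.le] at h4
    calc Real.sqrt (nsq w) * Real.sqrt (nsq (GG h J A η V *ᵥ w)) ≤
        Real.sqrt (nsq w) * (Real.sqrt (nsq w) / (η * δ)) := by gcongr
      _ = (Real.sqrt (nsq w) * Real.sqrt (nsq w)) / (η * δ) := by ring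
      _ = _ := by rw [Real.mul_self_sqrt (nsq_nonneg w)]
  rw [h1, h2, and_self]
  calc (star w ⬝ᵥ (GG h J A η V *ᵥ w)).im / η ≤ nsq w / (η * δ) / η := by gcongr
    _ = _ := by
      rw [div_div]
      congr 1
      ring

/-- bound of forms -/
theorem gg_form_bd (S : Sys h J A η δ Q) (V : m → ℝ) (a b : n → ℂ) :
    ‖star a ⬝ᵥ (GG h J A η V *ᵥ b)‖ ≤ Real.sqrt (nsq a) * Real.sqrt (nsq b) / (η * δ) := by
  have hp : 0 < η * δ := mul_pos S.hη S.hδ
  refine (cs_norm _ _).trans ?_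
  have h4 := Real.sqrt_le_sqrt (nsq_gg S V b).1
  rw [Real.sqrt_div' _ (by positivity), Real.sqrt_sq hp.le] at h4
  calc Real.sqrt (nsq a) * Real.sqrt (nsq (GG h J A η V *ᵥ b)) ≤
      Real.sqrt (nsq a) * (Real.sqrt (nsq b) / (η * δ)) := by gcongr
    _ = _ := by ring

/-- bound of entries -/
theorem gg_entry (S : Sys h J A η δ Q) (V : m → ℝ) (x y : n) :
    ‖GG h J A η V x y‖ ≤ (η * δ)⁻¹ := by
  have h1 := gg_form_bd S V (Pi.single x 1) (Pi.single y 1)
  rw [form_single, nsq_single, nsq_single] at h1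
  simpa using h1

/-- continuity -/
theorem continuous_gg (S : Sys h J A η δ Q) : Continuous fun V : m → ℝ => GG h J A η V := by
  have h1 : Continuous fun V : m → ℝ => XG h J A η V :=
    (continuous_XX (X0 := h) (A := A)).sub continuous_const
  unfold GG
  rw [continuous_iff_continuousAt]
  intro V
  simp only [Matrix.inv_def]
  have h2 : (XG h J A η V).det ≠ 0 :=
    ((Matrix.isUnit_iff_isUnit_det _).1 (isUnit_xg S V)).ne_zero
  have h3 : Continuous fun V : m → ℝ => (XG h J A η V).det := h1.matrix_det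
  have h4 : Continuous fun V : m → ℝ => (XG h J A η V).adjugate := h1.matrix_adjugate
  simp only [Ring.inverse_eq_inv']
  exact (h3.continuousAt.inv₀ h2).smul h4.continuousAt

theorem continuous_gg_entry (S : Sys h J A η δ Q) (x y : n) :
    Continuous fun V : m → ℝ => GG h J A η V x y := (continuous_gg S).matrix_elem x y

/-- the resolvent identity -/
theorem gg_resolvent (S : Sys h J A η δ Q) (V : m → ℝ) (y : m) (t : ℝ) :
    GG h J A η (Function.update V y t) - GG h J A η V =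
      -(((t - V y : ℝ) : ℂ) • (GG h J A η (Function.update V y t) * A y * GG h J A η V)) := by
  have h1 := xg_gg S V
  have h2 := gg_xg S (Function.update V y t)
  have h5 := XX_update (X0 := h) (A := A) V y t
  have h6 : XG h J A η V = XG h J A η (Function.update V y t) + ((V y - t : ℝ) : ℂ) • A y := by
    have e1 : ∀ U : m → ℝ, XG h J A η U = XX h A U - ((η : ℂ) * Complex.I) • J := fun U => rfl
    rw [e1, e1, h5]
    abel
  have h7 : ((t - V y : ℝ) : ℂ) • A y = XG h J A η (Function.update V y t) - XG h J A η V := by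
    rw [h6]
    push_cast
    rw [sub_smul, sub_smul]
    abel
  have e1 : ((t - V y : ℝ) : ℂ) • (GG h J A η (Function.update V y t) * A y * GG h J A η V) =
      GG h J A η (Function.update V y t) * (((t - V y : ℝ) : ℂ) • A y) * GG h J A η V := by
    rw [mul_smul_comm, smul_mul_assoc]
  rw [e1, h7, mul_sub, sub_mul, h2, one_mul, mul_assoc, h1, mul_one]
  abel

/-- the derivative of the entries -/
theorem gg_deriv (S : Sys h J A η δ Q) (V : m → ℝ) (y : m) (a b : n) :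
    HasDerivAt (fun t : ℝ => GG h J A η (Function.update V y t) a b)
      (-(GG h J A η V * A y * GG h J A η V) a b) (V y) := by
  rw [hasDerivAt_iff_tendsto_slope]
  have hc : Continuous fun t : ℝ => (GG h J A η (Function.update V y t) * A y * GG h J A η V) a b := by
    have h1 : Continuous fun t : ℝ => GG h J A η (Function.update V y t) :=
      (continuous_gg S).comp (continuous_const.update y continuous_id)
    exact ((h1.matrix_mul continuous_const).matrix_mul continuous_const).matrix_elem a b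
  have h2 : Filter.Tendsto (fun t : ℝ =>
      -(GG h J A η (Function.update V y t) * A y * GG h J A η V) a b)
      (nhdsWithin (V y) {V y}ᶜ) (nhds (-(GG h J A η V * A y * GG h J A η V) a b)) := by
    have h3 := (hc.neg.tendsto (V y)).mono_left (nhdsWithin_le_nhds (s := {V y}ᶜ))
    have h4 : (-fun t : ℝ => (GG h J A η (Function.update V y t) * A y * GG h J A η V) a b) (V y) =
        -(GG h J A η V * A y * GG h J A η V) a b := by
      simp only [Pi.neg_apply, Function.update_eq_self]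
    rw [h4] at h3
    exact h3
  refine h2.congr' ?_
  filter_upwards [self_mem_nhdsWithin] with t ht
  have ht' : t - V y ≠ 0 := sub_ne_zero.2 ht
  unfold slope
  simp only [vsub_eq_sub, Function.update_eq_self]
  have h4 := congrFun (congrFun (gg_resolvent S V y t) a) b
  rw [Matrix.sub_apply] at h4
  rw [h4, Matrix.neg_apply, Matrix.smul_apply, smul_eq_mul, Complex.real_smul]
  have h5 : ((t - V y : ℝ) : ℂ) ≠ 0 := by exact_mod_cast ht'
  push_cast at h5 ⊢
  field_simp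

end sys

end Pool.Agent.T2h98.QD
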