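import Pool.Agent.T2h98.QD.Stm
import Pool.Agent.T2h98.QD.Res
import Pool.Agent.W240.BK.Fluct

/-! Differentiation with respect to the Gaussian variables. -/

set_option autoImplicit false
set_option linter.unusedSectionVars false

open scoped BigOperators Matrix
open MeasureTheory ProbabilityTheory

namespace Pool.Agent.T2h98.QD

open Pool.Agent.W788.BK
open Pool.Agent.W240.BK (BC BM cs_int)

variable {n m : Type} [Fintype n] [DecidableEq n] [Fintype m] [DecidableEq m]

theorem BC.star' {F : (m → ℝ) → ℂ} (hF : BC F) : BC fun V => star (F V) := by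
  obtain ⟨h1, C, hC⟩ := hF
  exact ⟨h1.star, C, fun V => by rw [norm_star]; exact hC V⟩

theorem BC.neg' {F : (m → ℝ) → ℂ} (hF : BC F) : BC fun V => -(F V) := by
  obtain ⟨h1, C, hC⟩ := hF
  exact ⟨h1.neg, C, fun V => by rw [norm_neg]; exact hC V⟩

theorem BC.congr' {F G : (m → ℝ) → ℂ} (hF : BC F) (h : ∀ V, G V = F V) : BC G := by
  have : G = F := funext h
  rw [this]
  exact hF

theorem BC.ofReal_re {F : (m → ℝ) → ℂ} (hF : BC F) : BC fun V => (((F V).re : ℝ) : ℂ) := by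
  obtain ⟨h1, C, hC⟩ := hF
  refine ⟨Complex.continuous_ofReal.comp (Complex.continuous_re.comp h1), C, fun V => ?_⟩
  rw [Complex.norm_real]
  exact (Complex.abs_re_le_norm _).trans (hC V)

theorem BC.ofReal_im {F : (m → ℝ) → ℂ} (hF : BC F) : BC fun V => (((F V).im : ℝ) : ℂ) := by
  obtain ⟨h1, C, hC⟩ := hF
  refine ⟨Complex.continuous_ofReal.comp (Complex.continuous_im.comp h1), C, fun V => ?_⟩
  rw [Complex.norm_real]
  exact (Complex.abs_im_le_norm _).trans (hC V)

/-- real bounded continuous functions -/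
def RC (f : (m → ℝ) → ℝ) : Prop := Continuous f ∧ ∃ C : ℝ, ∀ V, |f V| ≤ C

theorem RC.integrable {f : (m → ℝ) → ℝ} (h : RC f) : Integrable f (GP m) := by
  obtain ⟨h1, C, hC⟩ := h
  exact Integrable.of_bound h1.aestronglyMeasurable C (Filter.Eventually.of_forall hC)

theorem RC.const (c : ℝ) : RC (m := m) fun _ => c := ⟨continuous_const, |c|, fun _ => le_rfl⟩

theorem RC.mul {f g : (m → ℝ) → ℝ} (hf : RC f) (hg : RC g) : RC fun V => f V * g V := by
  obtain ⟨h1, C, hC⟩ := hf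
  obtain ⟨h2, D, hD⟩ := hg
  refine ⟨h1.mul h2, C * D, fun V => ?_⟩
  rw [abs_mul]
  exact mul_le_mul (hC V) (hD V) (abs_nonneg _) ((abs_nonneg _).trans (hC V))

theorem RC.add {f g : (m → ℝ) → ℝ} (hf : RC f) (hg : RC g) : RC fun V => f V + g V := by
  obtain ⟨h1, C, hC⟩ := hf
  obtain ⟨h2, D, hD⟩ := hg
  exact ⟨h1.add h2, C + D, fun V => (abs_add_le _ _).trans (add_le_add (hC V) (hD V))⟩

theorem RC.norm {F : (m → ℝ) → ℂ} (hF : BC F) : RC fun V => ‖F V‖ := by
  obtain ⟨h1, C, hC⟩ := hF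
  exact ⟨h1.norm, C, fun V => by rw [abs_of_nonneg (norm_nonneg _)]; exact hC V⟩

theorem RC.im {F : (m → ℝ) → ℂ} (hF : BC F) : RC fun V => (F V).im := by
  obtain ⟨h1, C, hC⟩ := hF
  exact ⟨Complex.continuous_im.comp h1, C, fun V => (Complex.abs_im_le_norm _).trans (hC V)⟩

theorem RC.re {F : (m → ℝ) → ℂ} (hF : BC F) : RC fun V => (F V).re := by
  obtain ⟨h1, C, hC⟩ := hF
  exact ⟨Complex.continuous_re.comp h1, C, fun V => (Complex.abs_re_le_norm _).trans (hC V)⟩

theorem RC.sq {f : (m → ℝ) → ℝ} (hf : RC f) : RC fun V => f V ^ 2 := by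
  have := hf.mul hf
  have e : (fun V => f V ^ 2) = fun V => f V * f V := funext fun V => by ring
  rw [e]
  exact this

theorem RC.sum {ι : Type} (s : Finset ι) {f : ι → (m → ℝ) → ℝ} (hF : ∀ i ∈ s, RC (f i)) :
    RC fun V => ∑ i ∈ s, f i V := by
  classical
  induction s using Finset.induction_on with
  | empty => simpa using RC.const (m := m) 0
  | insert a s ha ih =>
    have h1 : (fun V => ∑ i ∈ insert a s, f i V) = fun V => f a V + ∑ i ∈ s, f i V := by
      funext V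
      rw [Finset.sum_insert ha]
    rw [h1]
    exact (hF a (Finset.mem_insert_self _ _)).add
      (ih fun i hi => hF i (Finset.mem_insert_of_mem hi))

/-- functions of the Gaussian variables with bounded continuous partial derivatives -/
structure GD (F : (m → ℝ) → ℂ) (D : m → (m → ℝ) → ℂ) : Prop where
  bF : BC F
  bD : ∀ y, BC (D y)
  dv : ∀ (y : m) (V : m → ℝ),
    HasDerivAt (fun t : ℝ => F (Function.update V y t)) (D y V) (V y)

theorem GD.const (c : ℂ) : GD (m := m) (fun _ => c) (fun _ _ => 0) :=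
  ⟨BC.const c, fun _ => BC.const 0, fun _ _ => hasDerivAt_const _ _⟩

theorem GD.add {F G : (m → ℝ) → ℂ} {D E : m → (m → ℝ) → ℂ} (hF : GD F D) (hG : GD G E) :
    GD (fun V => F V + G V) (fun y V => D y V + E y V) :=
  ⟨hF.bF.add hG.bF, fun y => (hF.bD y).add (hG.bD y), fun y V => (hF.dv y V).add (hG.dv y V)⟩

theorem GD.sub {F G : (m → ℝ) → ℂ} {D E : m → (m → ℝ) → ℂ} (hF : GD F D) (hG : GD G E) :
    GD (fun V => F V - G V) (fun y V => D y V - E y V) :=
  ⟨hF.bF.sub hG.bF, fun y => (hF.bD y).sub (hG.bD y), fun y V => (hF.dv y V).sub (hG.dv y V)⟩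

theorem GD.mul {F G : (m → ℝ) → ℂ} {D E : m → (m → ℝ) → ℂ} (hF : GD F D) (hG : GD G E) :
    GD (fun V => F V * G V) (fun y V => D y V * G V + F V * E y V) :=
  ⟨hF.bF.mul hG.bF, fun y => ((hF.bD y).mul hG.bF).add (hF.bF.mul (hG.bD y)), fun y V => by
    have h := (hF.dv y V).mul (hG.dv y V)
    simp only [Function.update_eq_self] at h
    exact h⟩

theorem GD.star' {F : (m → ℝ) → ℂ} {D : m → (m → ℝ) → ℂ} (hF : GD F D) :
    GD (fun V => star (F V)) (fun y V => star (D y V)) :=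
  ⟨BC.star' hF.bF, fun y => BC.star' (hF.bD y), fun y V => (hF.dv y V).star⟩

theorem GD.sum {ι : Type} (s : Finset ι) {F : ι → (m → ℝ) → ℂ} {D : ι → m → (m → ℝ) → ℂ}
    (h : ∀ i ∈ s, GD (F i) (D i)) :
    GD (fun V => ∑ i ∈ s, F i V) (fun y V => ∑ i ∈ s, D i y V) :=
  ⟨BC.sum s fun i hi => (h i hi).bF, fun y => BC.sum s fun i hi => (h i hi).bD y,
    fun y V => HasDerivAt.fun_sum fun i hi => (h i hi).dv y V⟩

theorem GD.congr' {F : (m → ℝ) → ℂ} {D E : m → (m → ℝ) → ℂ} (hF : GD F D)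
    (h : ∀ y V, E y V = D y V) : GD F E := by
  have : E = D := by
    funext y V
    exact h y V
  rw [this]
  exact hF

/-- matrix functions -/
def MD (B : (m → ℝ) → Matrix n n ℂ) (D : m → (m → ℝ) → Matrix n n ℂ) : Prop :=
  ∀ i j, GD (fun V => B V i j) (fun y V => D y V i j)

theorem MD.bm {B : (m → ℝ) → Matrix n n ℂ} {D : m → (m → ℝ) → Matrix n n ℂ} (h : MD B D) :
    BM B := fun i j => (h i j).bF

theorem MD.bmD {B : (m → ℝ) → Matrix n n ℂ} {D : m → (m → ℝ) → Matrix n n ℂ} (h : MD B D)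
    (y : m) : BM (D y) := fun i j => (h i j).bD y

theorem MD.const (C : Matrix n n ℂ) : MD (m := m) (fun _ => C) (fun _ _ => 0) :=
  fun i j => GD.const (C i j)

theorem MD.mul {B C : (m → ℝ) → Matrix n n ℂ} {D E : m → (m → ℝ) → Matrix n n ℂ}
    (hB : MD B D) (hC : MD C E) :
    MD (fun V => B V * C V) (fun y V => D y V * C V + B V * E y V) := fun i j => by
  simp only [Matrix.mul_apply, Matrix.add_apply]
  refine (GD.sum _ fun k _ => (hB i k).mul (hC k j)).congr' fun y V => ?_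
  rw [← Finset.sum_add_distrib]

theorem MD.star' {B : (m → ℝ) → Matrix n n ℂ} {D : m → (m → ℝ) → Matrix n n ℂ} (h : MD B D) :
    MD (fun V => (B V)ᴴ) (fun y V => (D y V)ᴴ) := fun i j => by
  simp only [Matrix.conjTranspose_apply]
  exact (h j i).star'

theorem MD.congr' {B : (m → ℝ) → Matrix n n ℂ} {D E : m → (m → ℝ) → Matrix n n ℂ} (h : MD B D)
    (hE : ∀ y V, E y V = D y V) : MD B E := by
  have : E = D := by
    funext y V
    exact hE y V
  rw [this]
  exact h

theorem MD.cj {B : (m → ℝ) → Matrix n n ℂ} {D : m → (m → ℝ) → Matrix n n ℂ} (h : MD B D)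
    (u : n → ℂ) : MD (fun V => QD.cj u (B V)) (fun y V => QD.cj u (D y V)) := fun i j => by
  simp only [QD.cj, Matrix.of_apply]
  refine (((GD.const (m := m) (u i)).mul (h i j)).mul (GD.const (star (u j)))).congr'
    fun y V => ?_
  ring

theorem MD.trace {B : (m → ℝ) → Matrix n n ℂ} {D : m → (m → ℝ) → Matrix n n ℂ} (h : MD B D) :
    GD (fun V => (B V).trace) (fun y V => (D y V).trace) := by
  simp only [Matrix.trace]
  exact GD.sum _ fun k _ => h k k

theorem MD.vec {B : (m → ℝ) → Matrix n n ℂ} {D : m → (m → ℝ) → Matrix n n ℂ} (h : MD B D)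
    (g : n → ℂ) (i : n) : GD (fun V => (B V *ᵥ g) i) (fun y V => (D y V *ᵥ g) i) := by
  simp only [Matrix.mulVec, dotProduct]
  refine (GD.sum _ fun k _ => (h i k).mul (GD.const (m := m) (g k))).congr' fun y V => ?_
  refine Finset.sum_congr rfl fun k _ => ?_
  ring

theorem MD.form {B : (m → ℝ) → Matrix n n ℂ} {D : m → (m → ℝ) → Matrix n n ℂ} (h : MD B D)
    (f g : n → ℂ) : GD (fun V => f ⬝ᵥ (B V *ᵥ g)) (fun y V => f ⬝ᵥ (D y V *ᵥ g)) := by
  simp only [dotProduct]
  refine (GD.sum _ fun k _ => (GD.const (m := m) (f k)).mul (h.vec g k)).congr' fun y V => ?_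
  refine Finset.sum_congr rfl fun k _ => ?_
  ring

/-- the resolvent -/
theorem MD.gg {h J : Matrix n n ℂ} {A : m → Matrix n n ℂ} {η δ Q : ℝ} (S : Sys h J A η δ Q) :
    MD (fun V => GG h J A η V) (fun y V => -(GG h J A η V * A y * GG h J A η V)) := by
  have hb : BM fun V => GG h J A η V := fun i j =>
    ⟨continuous_gg_entry S i j, (η * δ)⁻¹, fun V => gg_entry S V i j⟩
  intro i j
  refine ⟨hb i j, fun y => ?_, fun y V => gg_deriv S V y i j⟩
  simp only [Matrix.neg_apply]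
  exact BC.neg' (((hb.mul (BM.const (A y))).mul hb) i j)

/-! ### the Poincare inequality and integration by parts -/

/-- the variance -/
noncomputable def var (F : (m → ℝ) → ℂ) : ℝ := ∫ V, ‖F V - ∫ U, F U ∂(GP m)‖ ^ 2 ∂(GP m)

theorem var_nonneg (F : (m → ℝ) → ℂ) : 0 ≤ var F := integral_nonneg fun _ => by positivity

theorem poin' (hP : T_POIN) {F : (m → ℝ) → ℂ} {D : m → (m → ℝ) → ℂ} (h : GD F D) :
    var F ≤ ∑ y, ∫ V, ‖D y V‖ ^ 2 ∂(GP m) := by
  obtain ⟨C0, hC0⟩ := h.bF.2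
  choose C hC using fun y => (h.bD y).2
  have hC1 : ∀ y, C y ≤ |C0| + ∑ z, |C z| := fun y => by
    have := Finset.single_le_sum (f := fun z => |C z|) (fun z _ => abs_nonneg (C z))
      (Finset.mem_univ y)
    have h2 := le_abs_self (C y)
    have h3 := abs_nonneg C0
    linarith
  have hC2 : C0 ≤ |C0| + ∑ z, |C z| := by
    have h2 := le_abs_self C0
    have h3 : 0 ≤ ∑ z, |C z| := Finset.sum_nonneg fun _ _ => abs_nonneg _
    linarith
  exact hP m F D (|C0| + ∑ z, |C z|) h.bF.1 (fun V => (hC0 V).trans hC2) (fun y => (h.bD y).1)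
    (fun y V => (hC y V).trans (hC1 y)) h.dv

theorem ibp' (hI : T_IBP) {F : (m → ℝ) → ℂ} {D : m → (m → ℝ) → ℂ} (h : GD F D) (y : m) :
    ∫ V, (V y : ℂ) * F V ∂(GP m) = ∫ V, D y V ∂(GP m) := by
  obtain ⟨C0, hC0⟩ := h.bF.2
  obtain ⟨C1, hC1⟩ := (h.bD y).2
  exact hI m y F (D y) (max C0 C1) h.bF.1 (fun V => (hC0 V).trans (le_max_left _ _)) (h.bD y).1
    (fun V => (hC1 V).trans (le_max_right _ _)) (h.dv y)

theorem var_le_of (hP : T_POIN) {F : (m → ℝ) → ℂ} {D : m → (m → ℝ) → ℂ} (h : GD F D)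
    {g : (m → ℝ) → ℝ} (hg : RC g) (hb : ∀ V, ∑ y, ‖D y V‖ ^ 2 ≤ g V) :
    var F ≤ ∫ V, g V ∂(GP m) := by
  refine (poin' hP h).trans ?_
  rw [← integral_finsetSum _ fun y _ => (RC.norm (h.bD y)).sq.integrable]
  exact integral_mono (RC.sum _ fun y _ => (RC.norm (h.bD y)).sq).integrable hg.integrable hb

/-- the covariance -/
theorem cov {F K : (m → ℝ) → ℂ} (hF : BC F) (hK : BC K) (c : ℂ) (hc : ∫ V, F V ∂(GP m) = c) :
    ‖∫ V, (F V - c) * K V ∂(GP m)‖ ≤ Real.sqrt (var F) * Real.sqrt (var K) := by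
  obtain ⟨e, he⟩ : ∃ e, e = ∫ V, K V ∂(GP m) := ⟨_, rfl⟩
  have hF1 : BC fun V => F V - c := hF.sub (BC.const c)
  have hK1 : BC fun V => K V - e := hK.sub (BC.const e)
  have h1 : ∫ V, (F V - c) * K V ∂(GP m) = ∫ V, (F V - c) * (K V - e) ∂(GP m) := by
    have e1 : (fun V => (F V - c) * (K V - e)) = fun V => (F V - c) * K V - (F V - c) * e := by
      funext V
      ring
    rw [e1, integral_sub ((hF1.mul hK).integrable _) ((hF1.integrable _).mul_const _),
      integral_mul_const, integral_sub (hF.integrable _) (integrable_const _), hc, integral_const,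
      probReal_univ, one_smul, sub_self, zero_mul, sub_zero]
  rw [h1]
  have h2 : ‖∫ V, (F V - c) * (K V - e) ∂(GP m)‖ ≤ ∫ V, ‖F V - c‖ * ‖K V - e‖ ∂(GP m) := by
    refine (norm_integral_le_integral_norm _).trans (le_of_eq ?_)
    simp only [norm_mul]
  refine h2.trans ?_
  rw [← Real.sqrt_mul (var_nonneg _)]
  apply Real.le_sqrt_of_sq_le
  have h3 := cs_int (m := m) (gaussianReal 0 1) (a := fun V => ‖F V - c‖)
    (b := fun V => ‖K V - e‖) (RC.norm hF1).sq.integrable (RC.norm hK1).sq.integrable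
    ((RC.norm hF1).mul (RC.norm hK1)).integrable
  unfold var
  rw [hc, ← he]
  exact h3

/-- the second moment of the imaginary part -/
theorem sq_im_le {F : (m → ℝ) → ℂ} (hF : BC F) :
    ∫ V, (F V).im ^ 2 ∂(GP m) ≤ (∫ V, F V ∂(GP m)).im ^ 2 + var F := by
  obtain ⟨c, hc⟩ : ∃ c, c = ∫ V, F V ∂(GP m) := ⟨_, rfl⟩
  have him : ∫ V, (F V).im ∂(GP m) = c.im := by
    rw [hc]
    exact integral_im (hF.integrable _)
  have h1 : ∀ V, (F V).im ^ 2 ≤ ‖F V - c‖ ^ 2 + 2 * c.im * (F V).im - c.im ^ 2 := by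
    intro V
    have h2 : (F V - c).im ^ 2 ≤ ‖F V - c‖ ^ 2 := by
      rw [← sq_abs (F V - c).im]
      exact pow_le_pow_left₀ (abs_nonneg _) (Complex.abs_im_le_norm _) 2
    rw [Complex.sub_im] at h2
    nlinarith
  have i1 := (RC.im hF).sq.integrable
  have i2 := (RC.norm (hF.sub (BC.const c))).sq.integrable
  have i3 := (RC.im hF).integrable.const_mul (2 * c.im)
  have i4 : Integrable (fun V => ‖F V - c‖ ^ 2 + 2 * c.im * (F V).im) (GP m) := i2.add i3
  calc ∫ V, (F V).im ^ 2 ∂(GP m) ≤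
      ∫ V, (‖F V - c‖ ^ 2 + 2 * c.im * (F V).im - c.im ^ 2) ∂(GP m) :=
        integral_mono i1 (i4.sub (integrable_const _)) h1
    _ = _ := by
      rw [integral_sub i4 (integrable_const _), integral_add i2 i3, integral_const_mul,
        him, integral_const, probReal_univ, one_smul, ← hc]
      unfold var
      rw [← hc]
      ring

end Pool.Agent.T2h98.QD
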