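import Pool.Agent.T2h98.QD.Stm12
import Mathlib.Analysis.Fourier.AddCircleMulti

/-! Quantum ergodicity on tori: from characters to continuous functions. -/

set_option autoImplicit false
set_option linter.unusedSectionVars false

open scoped BigOperators Matrix Topology
open MeasureTheory ProbabilityTheory Filter

namespace Pool.Agent.T2h98.QD.QE

open Pool.Agent.W788.MFP.Four (T e NN adj K)

variable {d L : ℕ} [NeZero L]

/-- the point `x / L` of the unit torus -/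
noncomputable def pt (x : T d L) (i : Fin d) : UnitAddCircle := ((((x i).val : ℝ) / L : ℝ) : UnitAddCircle)

theorem ac_sum (ψ : AddChar (ZMod L) ℂ) (s : Finset (Fin d)) (f : Fin d → ZMod L) :
    ψ (∑ i ∈ s, f i) = ∏ i ∈ s, ψ (f i) := by
  classical
  induction s using Finset.induction_on with
  | empty => simp
  | insert a s ha ih => rw [Finset.sum_insert ha, Finset.prod_insert ha, AddChar.map_add_eq_mul, ih]

theorem mf_pt (m : Fin d → ℤ) (x : T d L) :
    UnitAddTorus.mFourier m (pt x) = e (fun i => (m i : ZMod L)) x := by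
  have hL : (L : ℂ) ≠ 0 := by exact_mod_cast NeZero.ne L
  unfold e
  rw [ac_sum]
  show ∏ i, fourier (m i) (pt x i) = _
  refine Finset.prod_congr rfl fun i _ => ?_
  unfold pt
  rw [fourier_coe_apply]
  have h1 : ((m i : ℤ) : ZMod L) * x i = ((m i * ((x i).val : ℤ) : ℤ) : ZMod L) := by
    push_cast
    rw [ZMod.natCast_zmod_val]
  rw [h1, ZMod.stdAddChar_coe]
  congr 1
  push_cast
  field_simp

/-- the mean of a character of the unit torus -/
theorem mf_int (m : Fin d → ℤ) : ∫ x in Set.Icc (0 : Fin d → ℝ) 1,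
    UnitAddTorus.mFourier m (fun i => (x i : UnitAddCircle)) = if m = 0 then 1 else 0 := by
  have e4 : (volume : Measure (Fin d → ℝ)).restrict (Set.Icc (0 : Fin d → ℝ) 1) =
      Measure.pi fun _ : Fin d => volume.restrict (Set.Icc (0 : ℝ) 1) := by
    rw [← Set.pi_univ_Icc]
    exact Measure.restrict_pi_pi _ _
  rw [e4]
  have e5 : ∀ x : Fin d → ℝ, UnitAddTorus.mFourier m (fun i => (x i : UnitAddCircle)) =
      ∏ i, fourier (m i) (x i : UnitAddCircle) := fun x => rfl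
  simp only [e5]
  rw [integral_fintype_prod_eq_prod (f := fun (i : Fin d) (x : ℝ) =>
    fourier (m i) (x : UnitAddCircle))]
  have e6 : ∀ i : Fin d, ∫ x in Set.Icc (0 : ℝ) 1, (fourier (m i) (x : UnitAddCircle) : ℂ) =
      if m i = 0 then 1 else 0 := by
    intro i
    rw [integral_Icc_eq_integral_Ioc, ← intervalIntegral.integral_of_le zero_le_one]
    by_cases hm : m i = 0
    · rw [if_pos hm, hm]
      simp
    · rw [if_neg hm]
      simp only [fourier_coe_apply]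
      have hc : (2 * Real.pi * Complex.I * (m i : ℂ)) ≠ 0 := by
        have : (m i : ℂ) ≠ 0 := by exact_mod_cast hm
        simp [Real.pi_ne_zero, this]
      have e7 : ∀ x : ℝ, Complex.exp (2 * Real.pi * Complex.I * (m i : ℂ) * (x : ℂ) / ((1 : ℝ) : ℂ)) =
          Complex.exp ((2 * Real.pi * Complex.I * (m i : ℂ)) * (x : ℂ)) := by
        intro x
        congr 1
        push_cast
        ring
      simp only [e7]
      rw [integral_exp_mul_complex hc]
      have e8 : Complex.exp ((2 * Real.pi * Complex.I * (m i : ℂ)) * ((1 : ℝ) : ℂ)) = 1 := by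
        have := Complex.exp_int_mul_two_pi_mul_I (m i)
        rw [← this]
        congr 1
        push_cast
        ring
      rw [e8]
      simp
  rw [Finset.prod_congr rfl fun i _ => e6 i]
  by_cases hm : m = 0
  · rw [if_pos hm]
    apply Finset.prod_eq_one
    intro i _
    rw [if_pos (by rw [hm]; rfl)]
  · rw [if_neg hm]
    obtain ⟨i, hi⟩ := Function.ne_iff.1 hm
    exact Finset.prod_eq_zero (Finset.mem_univ i) (if_neg hi)

/-- trigonometric polynomials are dense -/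
theorem approx (f : (Fin d → UnitAddCircle) → ℂ) (hf : Continuous f) (ε : ℝ) (hε : 0 < ε) :
    ∃ (S : Finset (Fin d → ℤ)) (c : (Fin d → ℤ) → ℂ), ∀ y,
      ‖f y - ∑ m ∈ S, c m * UnitAddTorus.mFourier m y‖ ≤ ε := by
  obtain ⟨F, hF⟩ : ∃ F : C(UnitAddTorus (Fin d), ℂ), F = ⟨f, hf⟩ := ⟨_, rfl⟩
  have h1 : F ∈ (Submodule.span ℂ (Set.range <| UnitAddTorus.mFourier
      (d := Fin d))).topologicalClosure := by
    rw [UnitAddTorus.span_mFourier_closure_eq_top]
    trivial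
  have h2 : F ∈ closure ((Submodule.span ℂ (Set.range <| UnitAddTorus.mFourier
      (d := Fin d)) : Submodule ℂ C(UnitAddTorus (Fin d), ℂ)) : Set C(UnitAddTorus (Fin d), ℂ)) := h1
  rw [Metric.mem_closure_iff] at h2
  obtain ⟨p, hp, hd⟩ := h2 ε hε
  obtain ⟨c, hc⟩ := (Finsupp.mem_span_range_iff_exists_finsupp).1 hp
  refine ⟨c.support, fun m => c m, fun y => ?_⟩
  have h3 : p y = ∑ m ∈ c.support, c m * UnitAddTorus.mFourier m y := by
    rw [← hc, Finsupp.sum, ContinuousMap.coe_sum, Finset.sum_apply]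
    refine Finset.sum_congr rfl fun m _ => ?_
    rw [ContinuousMap.coe_smul, Pi.smul_apply, smul_eq_mul]
  rw [← h3]
  have h4 : f y = F y := by rw [hF]; rfl
  rw [h4, ← dist_eq_norm]
  exact (ContinuousMap.dist_apply_le_dist y).trans hd.le

/-- the average of `f` in a state, from the averages of the characters -/
theorem avg_le (f : (Fin d → UnitAddCircle) → ℂ) (hf : Continuous f) (ε : ℝ)
    (S : Finset (Fin d → ℤ)) (c : (Fin d → ℤ) → ℂ)
    (hS : ∀ y, ‖f y - ∑ m ∈ S, c m * UnitAddTorus.mFourier m y‖ ≤ ε) (u : T d L → ℂ)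
    (hu : ∑ x, ‖u x‖ ^ 2 = 1) :
    ‖∑ x, f (pt x) * ((‖u x‖ ^ 2 : ℝ) : ℂ) -
      ∫ x in Set.Icc (0 : Fin d → ℝ) 1, f (fun i => (x i : UnitAddCircle))‖ ≤
      2 * ε + ∑ m ∈ S.erase 0, ‖c m‖ * ‖∑ x, e (fun i => (m i : ZMod L)) x *
        ((‖u x‖ ^ 2 : ℝ) : ℂ)‖ := by
  obtain ⟨p, hp⟩ : ∃ p : (Fin d → UnitAddCircle) → ℂ, p = fun y =>
    ∑ m ∈ S, c m * UnitAddTorus.mFourier m y := ⟨_, rfl⟩
  have hpc : Continuous p := by
    rw [hp]
    fun_prop
  have hpr : Continuous fun x : Fin d → ℝ => fun i => (x i : UnitAddCircle) := by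
    apply continuous_pi
    intro i
    exact (AddCircle.continuous_mk' 1).comp (continuous_apply i)
  have hcpt : IsCompact (Set.Icc (0 : Fin d → ℝ) 1) := isCompact_Icc
  have i1 : IntegrableOn (fun x : Fin d → ℝ => f (fun i => (x i : UnitAddCircle)))
      (Set.Icc (0 : Fin d → ℝ) 1) := (hf.comp hpr).continuousOn.integrableOn_compact hcpt
  have i2 : IntegrableOn (fun x : Fin d → ℝ => p (fun i => (x i : UnitAddCircle)))
      (Set.Icc (0 : Fin d → ℝ) 1) := (hpc.comp hpr).continuousOn.integrableOn_compact hcpt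
  have hvol : (volume : Measure (Fin d → ℝ)).real (Set.Icc (0 : Fin d → ℝ) 1) = 1 := by
    rw [measureReal_def, Real.volume_Icc_pi]
    simp
  -- the two differences
  have h1 : ‖∑ x, f (pt x) * ((‖u x‖ ^ 2 : ℝ) : ℂ) - ∑ x, p (pt x) * ((‖u x‖ ^ 2 : ℝ) : ℂ)‖ ≤
      ε := by
    rw [← Finset.sum_sub_distrib]
    calc _ ≤ ∑ x, ‖f (pt x) * ((‖u x‖ ^ 2 : ℝ) : ℂ) - p (pt x) * ((‖u x‖ ^ 2 : ℝ) : ℂ)‖ :=
          norm_sum_le _ _
      _ ≤ ∑ x, ε * ‖u x‖ ^ 2 := by
          refine Finset.sum_le_sum fun x _ => ?_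
          rw [← sub_mul, norm_mul, Complex.norm_real, Real.norm_of_nonneg (sq_nonneg _)]
          apply mul_le_mul_of_nonneg_right _ (sq_nonneg _)
          rw [hp]
          exact hS _
      _ = ε := by rw [← Finset.mul_sum, hu, mul_one]
  have h2 : ‖(∫ x in Set.Icc (0 : Fin d → ℝ) 1, f (fun i => (x i : UnitAddCircle))) -
      ∫ x in Set.Icc (0 : Fin d → ℝ) 1, p (fun i => (x i : UnitAddCircle))‖ ≤ ε := by
    rw [← integral_sub i1 i2]
    have h3 := norm_setIntegral_le_of_norm_le_const (μ := (volume : Measure (Fin d → ℝ)))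
      (s := Set.Icc (0 : Fin d → ℝ) 1) (C := ε)
      (f := fun x => f (fun i => (x i : UnitAddCircle)) - p (fun i => (x i : UnitAddCircle)))
      hcpt.measure_lt_top (fun x _ => by
        rw [hp]
        exact hS _)
    rwa [hvol, mul_one] at h3
  -- the polynomial
  have h4 : ∑ x, p (pt x) * ((‖u x‖ ^ 2 : ℝ) : ℂ) = ∑ m ∈ S, c m *
      ∑ x, e (fun i => (m i : ZMod L)) x * ((‖u x‖ ^ 2 : ℝ) : ℂ) := by
    rw [hp]
    simp only [mf_pt, Finset.sum_mul, Finset.mul_sum]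
    rw [Finset.sum_comm]
    refine Finset.sum_congr rfl fun m _ => Finset.sum_congr rfl fun x _ => ?_
    ring
  have h5 : ∫ x in Set.Icc (0 : Fin d → ℝ) 1, p (fun i => (x i : UnitAddCircle)) =
      ∑ m ∈ S, c m * if m = 0 then 1 else 0 := by
    rw [hp]
    simp only
    have i3 : ∀ m : Fin d → ℤ, IntegrableOn (fun x : Fin d → ℝ =>
        c m * UnitAddTorus.mFourier m (fun i => (x i : UnitAddCircle)))
        (Set.Icc (0 : Fin d → ℝ) 1) := fun m =>
      (continuous_const.mul ((UnitAddTorus.mFourier m).continuous.comp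
        hpr)).continuousOn.integrableOn_compact hcpt
    rw [integral_finsetSum _ fun m _ => i3 m]
    refine Finset.sum_congr rfl fun m _ => ?_
    rw [integral_const_mul, mf_int]
  have h6 : ‖∑ x, p (pt x) * ((‖u x‖ ^ 2 : ℝ) : ℂ) -
      ∫ x in Set.Icc (0 : Fin d → ℝ) 1, p (fun i => (x i : UnitAddCircle))‖ ≤
      ∑ m ∈ S.erase 0, ‖c m‖ * ‖∑ x, e (fun i => (m i : ZMod L)) x *
        ((‖u x‖ ^ 2 : ℝ) : ℂ)‖ := by
    rw [h4, h5, ← Finset.sum_sub_distrib]
    have h7 : ∑ m ∈ S, (c m * ∑ x, e (fun i => (m i : ZMod L)) x * ((‖u x‖ ^ 2 : ℝ) : ℂ) -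
        c m * if m = 0 then 1 else 0) = ∑ m ∈ S.erase 0,
        c m * ∑ x, e (fun i => (m i : ZMod L)) x * ((‖u x‖ ^ 2 : ℝ) : ℂ) := by
      rw [← Finset.sum_subset (Finset.erase_subset (0 : Fin d → ℤ) S)]
      · refine Finset.sum_congr rfl fun m hm => ?_
        rw [if_neg (Finset.ne_of_mem_erase hm), mul_zero, sub_zero]
      · intro m hm hm2
        have hm0 : m = 0 := by
          by_contra h0
          exact hm2 (Finset.mem_erase.2 ⟨h0, hm⟩)
        rw [if_pos hm0, ← mul_sub]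
        have h8 : ∑ x, e (fun i => (m i : ZMod L)) x * ((‖u x‖ ^ 2 : ℝ) : ℂ) = 1 := by
          have h9 : ∀ x : T d L, e (fun i => (m i : ZMod L)) x = 1 := by
            intro x
            rw [← mf_pt, hm0, UnitAddTorus.mFourier_zero]
            rfl
          simp only [h9, one_mul]
          rw [← Complex.ofReal_sum, hu, Complex.ofReal_one]
        rw [h8, sub_self, mul_zero]
    rw [h7]
    refine (norm_sum_le _ _).trans (Finset.sum_le_sum fun m _ => ?_)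
    rw [norm_mul]
  -- the sum
  have h7 := norm_sub_le_norm_sub_add_norm_sub (∑ x, f (pt x) * ((‖u x‖ ^ 2 : ℝ) : ℂ))
    (∑ x, p (pt x) * ((‖u x‖ ^ 2 : ℝ) : ℂ))
    (∫ x in Set.Icc (0 : Fin d → ℝ) 1, f (fun i => (x i : UnitAddCircle)))
  have h8 := norm_sub_le_norm_sub_add_norm_sub (∑ x, p (pt x) * ((‖u x‖ ^ 2 : ℝ) : ℂ))
    (∫ x in Set.Icc (0 : Fin d → ℝ) 1, p (fun i => (x i : UnitAddCircle)))
    (∫ x in Set.Icc (0 : Fin d → ℝ) 1, f (fun i => (x i : UnitAddCircle)))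
  rw [norm_sub_rev (∫ x in Set.Icc (0 : Fin d → ℝ) 1, p (fun i => (x i : UnitAddCircle)))] at h8
  linarith

/-- the number of large terms -/
theorem count_le (v : T d L → ℂ) {t B : ℝ} (ht : 0 < t) (hB : ∑ j, ‖v j‖ ^ 2 ≤ B) :
    (((Finset.univ.filter fun j => t < ‖v j‖).card : ℕ) : ℝ) ≤ B / t ^ 2 := by
  rw [le_div_iff₀ (by positivity)]
  refine le_trans ?_ hB
  rw [← nsmul_eq_mul, ← Finset.sum_const]
  calc _ ≤ ∑ j ∈ Finset.univ.filter fun j => t < ‖v j‖, ‖v j‖ ^ 2 :=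
        Finset.sum_le_sum fun j hj => by
          have := (Finset.mem_filter.1 hj).2
          exact pow_le_pow_left₀ ht.le this.le 2
    _ ≤ _ := Finset.sum_le_sum_of_subset_of_nonneg (Finset.filter_subset _ _)
        fun j _ _ => by positivity

/-- **quantum ergodicity on tori** -/
theorem qe_main (hint : T_INT3) (hqem : T_QEM) (d : ℕ) (hd : 3 ≤ d) (a b : ℝ) (ha : 0 < a)
    (hb : b < if d = 3 then 1 / 5 else 2 / 5) (f : (Fin d → UnitAddCircle) → ℂ)
    (hf : Continuous f) (η : ℝ) (hη : 0 < η) :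
    ∀ᶠ σ : ℝ in 𝓝[>] 0, ∀ (L : ℕ) [NeZero L], σ ^ (-2 - a) ≤ (L : ℝ) → (L : ℝ) ≤ σ ^ (-2 - b) →
      ∃ Ω : Set (T d L → ℝ), MeasurableSet Ω ∧ 1 - η ≤ (GP (T d L)).real Ω ∧
        ∀ V ∈ Ω, ∀ (u : T d L → T d L → ℂ) (E : T d L → ℝ),
        (∀ j, HT (d := d) (L := L) σ V *ᵥ u j = (E j : ℂ) • u j) →
        (∀ j k, star (u j) ⬝ᵥ u k = if j = k then 1 else 0) →
        ({j | η < ‖∑ x, f (pt x) * ((‖u j x‖ ^ 2 : ℝ) : ℂ) -
          ∫ x in Set.Icc (0 : Fin d → ℝ) 1, f (fun i => (x i : UnitAddCircle))‖}.ncard : ℝ) ≤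
          η * NN d L := by
  classical
  obtain ⟨S, c, hS⟩ := approx f hf (η / 4) (by positivity)
  obtain ⟨C, hC⟩ : ∃ C, C = 1 + ∑ m ∈ S.erase 0, ‖c m‖ := ⟨_, rfl⟩
  have hC0 : 0 ≤ ∑ m ∈ S.erase 0, ‖c m‖ := Finset.sum_nonneg fun m _ => norm_nonneg _
  have hC1 : 1 ≤ C := by
    rw [hC]
    linarith
  obtain ⟨n, hn⟩ : ∃ n : ℝ, n = ((S.erase 0).card : ℝ) + 1 := ⟨_, rfl⟩
  have hn1 : 1 ≤ n := by
    rw [hn]
    have : (0 : ℝ) ≤ ((S.erase 0).card : ℝ) := Nat.cast_nonneg _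
    linarith
  obtain ⟨t, ht⟩ : ∃ t, t = η / (2 * C) := ⟨_, rfl⟩
  have ht0 : 0 < t := by
    rw [ht]
    positivity
  obtain ⟨η1, hη1⟩ : ∃ η1, η1 = η / n * t ^ 2 := ⟨_, rfl⟩
  have hη10 : 0 < η1 := by
    rw [hη1]
    positivity
  obtain ⟨A, hA⟩ : ∃ A, A = η1 * (η / n) := ⟨_, rfl⟩
  have hA0 : 0 < A := by
    rw [hA]
    positivity
  have hex : ∀ m : Fin d → ℤ, ∃ τ : ℝ, 0 < τ ∧ (m ≠ 0 → ∀ᶠ σ : ℝ in 𝓝[>] 0,
      ∀ (L : ℕ) [NeZero L], σ ^ (-2 - a) ≤ (L : ℝ) → (L : ℝ) ≤ σ ^ (-2 - b) →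
      ‖((1 / (2 * (τ * σ ^ 2 * (L : ℝ) ^ 2)) / Real.pi : ℝ) : ℂ) * ∫ E : ℝ,
        Sr d L σ E (1 / (2 * (τ * σ ^ 2 * (L : ℝ) ^ 2))) (fun i => (m i : ZMod L))‖ ≤ A) := by
    intro m
    by_cases hm : m = 0
    · exact ⟨1, one_pos, fun h => absurd hm h⟩
    · obtain ⟨τ, h1, h2⟩ := hint d hd a b ha hb m hm A hA0
      exact ⟨τ, h1, fun _ => h2⟩
  choose τ hτ0 hτ using hex
  have hev : ∀ᶠ σ : ℝ in 𝓝[>] 0, ∀ m ∈ S.erase 0, ∀ (L : ℕ) [NeZero L],
      σ ^ (-2 - a) ≤ (L : ℝ) → (L : ℝ) ≤ σ ^ (-2 - b) →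
      ‖((1 / (2 * (τ m * σ ^ 2 * (L : ℝ) ^ 2)) / Real.pi : ℝ) : ℂ) * ∫ E : ℝ,
        Sr d L σ E (1 / (2 * (τ m * σ ^ 2 * (L : ℝ) ^ 2))) (fun i => (m i : ZMod L))‖ ≤ A := by
    rw [eventually_all_finset]
    intro m hm
    exact hτ m (Finset.ne_of_mem_erase hm)
  filter_upwards [hev, self_mem_nhdsWithin] with σ hσ hσ0 L _ hL1 hL2
  have hσ0' : 0 < σ := hσ0
  have hL0 : (0 : ℝ) < L := by exact_mod_cast Nat.pos_of_ne_zero (NeZero.ne L)
  have hN := Pool.Agent.W788.MFP.Four.NN_pos (d := d) (L := L)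
  have hprob : IsProbabilityMeasure (GP (T d L)) := by
    show IsProbabilityMeasure (Measure.pi fun _ : T d L => gaussianReal 0 1)
    infer_instance
  have hex2 : ∀ m : Fin d → ℤ, ∃ Ω : Set (T d L → ℝ), MeasurableSet Ω ∧ (m ∈ S.erase 0 →
      1 - A / η1 ≤ (GP (T d L)).real Ω ∧
      ∀ V ∈ Ω, ∀ (u : T d L → T d L → ℂ) (E : T d L → ℝ),
      (∀ j, HT (d := d) (L := L) σ V *ᵥ u j = (E j : ℂ) • u j) →
      (∀ j k, star (u j) ⬝ᵥ u k = if j = k then 1 else 0) →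
      ∑ j, ‖∑ x, e (fun i => (m i : ZMod L)) x * ((‖u j x‖ ^ 2 : ℝ) : ℂ)‖ ^ 2 ≤
        η1 * NN d L) := by
    intro m
    by_cases hm : m ∈ S.erase 0
    · have hτm := hτ0 m
      obtain ⟨Ω, h1, h2⟩ := hqem d L (fun i => (m i : ZMod L)) σ (τ m * σ ^ 2 * (L : ℝ) ^ 2) A η1
        (by positivity) hη10 (hσ m hm L hL1 hL2)
      exact ⟨Ω, h1, fun _ => h2⟩
    · exact ⟨∅, MeasurableSet.empty, fun h => absurd h hm⟩
  choose Ω hΩm hΩ using hex2
  refine ⟨⋂ m ∈ S.erase 0, Ω m, Finset.measurableSet_biInter _ fun m _ => hΩm m, ?_, ?_⟩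
  · -- the probability
    have h1 : (GP (T d L)).real (⋂ m ∈ S.erase 0, Ω m)ᶜ ≤ ∑ m ∈ S.erase 0, A / η1 := by
      have h2 : (⋂ m ∈ S.erase 0, Ω m)ᶜ = ⋃ m ∈ S.erase 0, (Ω m)ᶜ := by
        simp only [Set.compl_iInter]
      rw [h2]
      refine (measureReal_biUnion_finset_le _ _).trans (Finset.sum_le_sum fun m hm => ?_)
      rw [probReal_compl_eq_one_sub (hΩm m)]
      linarith [(hΩ m hm).1]
    rw [probReal_compl_eq_one_sub (Finset.measurableSet_biInter _ fun m _ => hΩm m),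
      Finset.sum_const, nsmul_eq_mul] at h1
    have h3 : A / η1 = η / n := by
      rw [hA]
      field_simp
    have h4 : ((S.erase 0).card : ℝ) * (η / n) ≤ η := by
      rw [mul_div_assoc', div_le_iff₀ (by linarith), hn]
      nlinarith
    rw [h3] at h1
    linarith
  · intro V hV u E hE ho
    have hu1 : ∀ j, ∑ x, ‖u j x‖ ^ 2 = 1 := by
      intro j
      have h1 := ho j j
      rw [if_pos rfl] at h1
      have h2 : star (u j) ⬝ᵥ u j = ((∑ x, ‖u j x‖ ^ 2 : ℝ) : ℂ) := by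
        unfold dotProduct
        push_cast
        refine Finset.sum_congr rfl fun x _ => ?_
        rw [Pi.star_apply, Complex.star_def, Complex.conj_mul']
      rw [h2] at h1
      exact_mod_cast h1
    have hV' : ∀ m ∈ S.erase 0, V ∈ Ω m := fun m hm => Set.mem_iInter₂.1 hV m hm
    have hsub : {j | η < ‖∑ x, f (pt x) * ((‖u j x‖ ^ 2 : ℝ) : ℂ) -
        ∫ x in Set.Icc (0 : Fin d → ℝ) 1, f (fun i => (x i : UnitAddCircle))‖} ⊆
        (((S.erase 0).biUnion fun m => Finset.univ.filter fun j => t < ‖∑ x,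
          e (fun i => (m i : ZMod L)) x * ((‖u j x‖ ^ 2 : ℝ) : ℂ)‖ : Finset (T d L)) :
          Set (T d L)) := by
      intro j hj
      by_contra hcon
      have h1 : ∀ m ∈ S.erase 0, ‖∑ x, e (fun i => (m i : ZMod L)) x *
          ((‖u j x‖ ^ 2 : ℝ) : ℂ)‖ ≤ t := by
        intro m hm
        by_contra h2
        rw [not_le] at h2
        apply hcon
        rw [Finset.mem_coe, Finset.mem_biUnion]
        exact ⟨m, hm, Finset.mem_filter.2 ⟨Finset.mem_univ _, h2⟩⟩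
      have h2 := avg_le f hf (η / 4) S c hS (u j) (hu1 j)
      have h3 : ∑ m ∈ S.erase 0, ‖c m‖ * ‖∑ x, e (fun i => (m i : ZMod L)) x *
          ((‖u j x‖ ^ 2 : ℝ) : ℂ)‖ ≤ (∑ m ∈ S.erase 0, ‖c m‖) * t := by
        rw [Finset.sum_mul]
        exact Finset.sum_le_sum fun m hm => mul_le_mul_of_nonneg_left (h1 m hm) (norm_nonneg _)
      have h4 : (∑ m ∈ S.erase 0, ‖c m‖) * t ≤ η / 2 := by
        have h5 : (∑ m ∈ S.erase 0, ‖c m‖) ≤ C := by
          rw [hC]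
          linarith
        calc (∑ m ∈ S.erase 0, ‖c m‖) * t ≤ C * t := by gcongr
          _ = η / 2 := by
              rw [ht]
              field_simp
      have h6 : η < ‖∑ x, f (pt x) * ((‖u j x‖ ^ 2 : ℝ) : ℂ) -
        ∫ x in Set.Icc (0 : Fin d → ℝ) 1, f (fun i => (x i : UnitAddCircle))‖ := hj
      linarith
    have h1 : ({j | η < ‖∑ x, f (pt x) * ((‖u j x‖ ^ 2 : ℝ) : ℂ) -
        ∫ x in Set.Icc (0 : Fin d → ℝ) 1, f (fun i => (x i : UnitAddCircle))‖}.ncard : ℝ) ≤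
        (((S.erase 0).biUnion fun m => Finset.univ.filter fun j => t < ‖∑ x,
          e (fun i => (m i : ZMod L)) x * ((‖u j x‖ ^ 2 : ℝ) : ℂ)‖ : Finset (T d L)).card : ℝ) := by
      have := Set.ncard_le_ncard hsub (Finset.finite_toSet _)
      rw [Set.ncard_coe_finset] at this
      exact_mod_cast this
    refine h1.trans ?_
    calc ((((S.erase 0).biUnion fun m => Finset.univ.filter fun j => t < ‖∑ x,
          e (fun i => (m i : ZMod L)) x * ((‖u j x‖ ^ 2 : ℝ) : ℂ)‖ : Finset (T d L)).card : ℕ) : ℝ)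
        ≤ ∑ m ∈ S.erase 0, ((Finset.univ.filter fun j => t < ‖∑ x,
          e (fun i => (m i : ZMod L)) x * ((‖u j x‖ ^ 2 : ℝ) : ℂ)‖).card : ℝ) := by
          exact_mod_cast Finset.card_biUnion_le
      _ ≤ ∑ _m ∈ S.erase 0, η1 * NN d L / t ^ 2 := by
          refine Finset.sum_le_sum fun m hm => ?_
          exact count_le (fun j => ∑ x, e (fun i => (m i : ZMod L)) x *
            ((‖u j x‖ ^ 2 : ℝ) : ℂ)) ht0 ((hΩ m hm).2 V (hV' m hm) u E hE ho)
      _ = ((S.erase 0).card : ℝ) * (η / n) * NN d L := by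
          rw [Finset.sum_const, nsmul_eq_mul, hη1]
          field_simp
      _ ≤ η * NN d L := by
          apply mul_le_mul_of_nonneg_right _ hN.le
          rw [mul_div_assoc', div_le_iff₀ (by linarith), hn]
          nlinarith

end Pool.Agent.T2h98.QD.QE
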