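import Pool.Agent.T2h98.QD.Stm12
import Pool.Agent.T2h98.QD.Dif

/-! The difference of the free resolvents at close momenta, small tori (DIF3). -/

set_option autoImplicit false
set_option linter.unusedSectionVars false

open scoped BigOperators Topology
open MeasureTheory Filter Set

namespace Pool.Agent.T2h98.QD

open Pool.Agent.W788.MFP.Four (T NN NN_pos adj)
open Pool.Agent.W788.BK (cr)

open Dif0 in
/-- **the difference of the free resolvents, small tori** -/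
theorem dif3 (hp : T_POI3) : T_DIF3 := by
  intro d hd E θ η hθ hη
  have hd0 : (1 : ℝ) ≤ d := by exact_mod_cast (by omega : 1 ≤ d)
  obtain ⟨r₁, hr₁, hp1⟩ := hp d hd θ 1 hθ one_pos
  obtain ⟨r₂, hr₂, hp2⟩ := hp d hd θ η hθ hη
  set B : ℝ := |Real.pi * dn d E| + 1 with hB
  have hB0 : 0 < B := by positivity
  refine ⟨min (min r₁ r₂) (min (1 / (4 * d)) (η / (280 * d ^ 3 * B))), by positivity, ?_⟩
  set r : ℝ := min (min r₁ r₂) (min (1 / (4 * d)) (η / (280 * d ^ 3 * B))) with hr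
  have hrr1 : r ≤ r₁ := (min_le_left _ _).trans (min_le_left _ _)
  have hrr2 : r ≤ r₂ := (min_le_left _ _).trans (min_le_right _ _)
  have hr0 : 0 < r := by positivity
  have hr3 : 4 * d * r ≤ 1 := by
    have h1 : r ≤ 1 / (4 * d) := (min_le_right _ _).trans (min_le_left _ _)
    rw [le_div_iff₀ (by positivity)] at h1
    linarith
  have hr4 : 280 * d ^ 3 * B * r ≤ η := by
    have h1 : r ≤ η / (280 * d ^ 3 * B) := (min_le_right _ _).trans (min_le_right _ _)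
    rw [le_div_iff₀ (by positivity)] at h1
    linarith
  have hr5 : r ≤ 1 := by nlinarith
  intro E' Γ L _ κ hE hΓ hΓr hLr hκ
  set S2 : ℝ := ∑ i, mo κ i ^ 2 with hS2
  have hS20 : 0 ≤ S2 := Finset.sum_nonneg fun i _ => sq_nonneg _
  set M : ℝ := Real.sqrt S2 with hM
  have hM0 : 0 ≤ M := Real.sqrt_nonneg _
  have hMS : M ^ 2 = S2 := Real.sq_sqrt hS20
  have hG1 : Γ ≤ 1 := by linarith
  have hM1 : M ≤ 1 := hκ.trans (by nlinarith)
  have hmo : ∀ i, |mo κ i| ≤ M := by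
    intro i
    rw [hM]
    apply Real.abs_le_sqrt
    exact Finset.single_le_sum (f := fun i => mo κ i ^ 2) (fun j _ => sq_nonneg _)
      (Finset.mem_univ i)
  -- the pointwise quantities
  set b : T d L → ℝ := fun k => adj k - E' with hb
  set D : T d L → ℝ := fun k => adj (k + κ) - adj k with hDd
  set V : T d L → ℝ := fun k => -(2 * ∑ i, mo κ i * sr (k i)) with hV
  have hVb : ∀ k, |V k| ≤ 2 * d * M := by
    intro k
    simp only [hV]
    rw [abs_neg, abs_mul, abs_of_pos (by norm_num : (0:ℝ) < 2)]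
    have h1 : |∑ i, mo κ i * sr (k i)| ≤ ∑ _i : Fin d, M := by
      refine (Finset.abs_sum_le_sum_abs _ _).trans (Finset.sum_le_sum fun i _ => ?_)
      rw [abs_mul]
      calc |mo κ i| * |sr (k i)| ≤ M * 1 := mul_le_mul (hmo i) (sr_abs _) (abs_nonneg _) hM0
        _ = M := mul_one _
    rw [Finset.sum_const, Finset.card_univ, Fintype.card_fin, nsmul_eq_mul] at h1
    linarith
  have hR : ∀ k, |D k - V k| ≤ 2 * M ^ 2 := by
    intro k
    have e : D k - V k = ∑ i, 2 * (cr (k i + κ i) - cr (k i) + mo κ i * sr (k i)) := by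
      simp only [hDd, hV]
      rw [Poi0.adj_sum, Poi0.adj_sum, Finset.mul_sum, sub_neg_eq_add, ← Finset.sum_sub_distrib,
        ← Finset.sum_add_distrib]
      apply Finset.sum_congr rfl
      intro i _
      rw [Pi.add_apply]
      ring
    rw [e, hMS, hS2, Finset.mul_sum]
    refine (Finset.abs_sum_le_sum_abs _ _).trans (Finset.sum_le_sum fun i _ => ?_)
    rw [abs_mul, abs_of_pos (by norm_num : (0:ℝ) < 2)]
    have := cr_diff κ i (k i) ((hmo i).trans hM1)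
    linarith
  have hDb : ∀ k, |D k| ≤ 4 * d * M := by
    intro k
    have h1 := hR k
    have h2 := hVb k
    have e : D k = (D k - V k) + V k := by ring
    rw [e]
    refine (abs_add_le _ _).trans ?_
    nlinarith
  have hD2 : ∀ k, D k ^ 2 ≤ 16 * d ^ 2 * M ^ 2 := by
    intro k
    have h1 := hDb k
    rw [← sq_abs]
    have := abs_nonneg (D k)
    nlinarith
  have hDV : ∀ k, |D k ^ 2 - V k ^ 2| ≤ 12 * d * M ^ 3 := by
    intro k
    have e : D k ^ 2 - V k ^ 2 = (D k - V k) * (D k + V k) := by ring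
    rw [e, abs_mul]
    have h1 : |D k + V k| ≤ 6 * d * M := by
      refine (abs_add_le _ _).trans ?_
      have := hDb k
      have := hVb k
      linarith
    calc |D k - V k| * |D k + V k| ≤ (2 * M ^ 2) * (6 * d * M) :=
          mul_le_mul (hR k) h1 (abs_nonneg _) (by positivity)
      _ = _ := by ring
  have hMr : M ≤ r * Γ := hκ
  have hnum : ∀ k, |D k ^ 2 - V k ^ 2| + 2 * (4 * d * r) * D k ^ 2 ≤ 140 * d ^ 3 * r * M ^ 2 := by
    intro k
    have h1 := hDV k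
    have h2 := hD2 k
    have h3 : 12 * d * M ^ 3 ≤ 12 * d ^ 3 * r * M ^ 2 := by
      have h4 : M ≤ r := by nlinarith
      have h5 : (d : ℝ) ≤ d ^ 3 := by nlinarith [sq_nonneg ((d:ℝ) - 1)]
      calc 12 * (d : ℝ) * M ^ 3 = 12 * (d : ℝ) * (M * M ^ 2) := by ring
        _ ≤ 12 * (d : ℝ) ^ 3 * (r * M ^ 2) := by gcongr
        _ = _ := by ring
    have h4 : 2 * (4 * d * r) * D k ^ 2 ≤ 2 * (4 * d * r) * (16 * d ^ 2 * M ^ 2) := by gcongr
    nlinarith
  have hB2 : ∀ k, 0 < b k ^ 2 + Γ ^ 2 := fun k => by positivity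
  -- the bound of the sum of the errors
  have hNN : 0 < NN d L := NN_pos
  have hsumB : Γ ^ 3 * ((NN d L)⁻¹ * ∑ k : T d L, 1 / (b k ^ 2 + Γ ^ 2) ^ 2) ≤ B := by
    have h1 := (hp1 E E' Γ L (hE.trans_le hrr1) hΓ (hΓr.trans_le hrr1) hLr).1
    have h2 : (NN d L)⁻¹ * ∑ k : T d L, Γ / ((adj k - E') ^ 2 + Γ ^ 2) ≤ B := by
      have h3 := (abs_le.1 h1).2
      have h4 := le_abs_self (Real.pi * dn d E)
      linarith
    refine le_trans ?_ h2
    rw [mul_left_comm, Finset.mul_sum]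
    apply mul_le_mul_of_nonneg_left _ (by positivity)
    apply Finset.sum_le_sum
    intro k _
    have hk := hB2 k
    rw [mul_one_div, div_le_div_iff₀ (by positivity) hk]
    have : Γ ^ 2 ≤ b k ^ 2 + Γ ^ 2 := by linarith [sq_nonneg (b k)]
    simp only [hb] at *
    calc Γ ^ 3 * ((adj k - E') ^ 2 + Γ ^ 2) = Γ * (Γ ^ 2 * ((adj k - E') ^ 2 + Γ ^ 2)) := by ring
      _ ≤ Γ * (((adj k - E') ^ 2 + Γ ^ 2) * ((adj k - E') ^ 2 + Γ ^ 2)) := by gcongr
      _ = _ := by ring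
  have herr : |Γ ^ 3 * ((NN d L)⁻¹ * ∑ k : T d L,
      ‖(((adj (k + κ) - E' : ℝ) : ℂ) - (Γ : ℂ) * Complex.I)⁻¹ -
        (((adj k - E' : ℝ) : ℂ) - (Γ : ℂ) * Complex.I)⁻¹‖ ^ 2) -
      Γ ^ 3 * ((NN d L)⁻¹ * ∑ k : T d L, V k ^ 2 / (b k ^ 2 + Γ ^ 2) ^ 2)| ≤
      140 * d ^ 3 * r * M ^ 2 * B := by
    rw [← mul_sub, ← mul_sub, ← Finset.sum_sub_distrib, abs_mul, abs_mul,
      abs_of_pos (by positivity : 0 < Γ ^ 3), abs_of_pos (by positivity : 0 < (NN d L)⁻¹)]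
    have h1 : |∑ k : T d L, (‖(((adj (k + κ) - E' : ℝ) : ℂ) - (Γ : ℂ) * Complex.I)⁻¹ -
        (((adj k - E' : ℝ) : ℂ) - (Γ : ℂ) * Complex.I)⁻¹‖ ^ 2 -
        V k ^ 2 / (b k ^ 2 + Γ ^ 2) ^ 2)| ≤
        ∑ k : T d L, 140 * d ^ 3 * r * M ^ 2 * (1 / (b k ^ 2 + Γ ^ 2) ^ 2) := by
      refine (Finset.abs_sum_le_sum_abs _ _).trans (Finset.sum_le_sum fun k _ => ?_)
      rw [inv_sub hΓ]
      have e1 : adj (k + κ) - E' - (adj k - E') = D k := by simp only [hDd]; ring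
      rw [e1]
      have h2 := point (a := adj (k + κ) - E') (b := b k) (D := D k) (V := V k) (Γ := Γ)
        (ρ := 4 * d * r) hΓ (by simp only [hb, hDd]; ring)
        ((hDb k).trans (by nlinarith)) (by positivity) hr3
      refine h2.trans ?_
      rw [mul_one_div]
      exact div_le_div_of_nonneg_right (hnum k) (by positivity)
    calc Γ ^ 3 * ((NN d L)⁻¹ * _) ≤ Γ ^ 3 * ((NN d L)⁻¹ *
          ∑ k : T d L, 140 * d ^ 3 * r * M ^ 2 * (1 / (b k ^ 2 + Γ ^ 2) ^ 2)) := by gcongr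
      _ = 140 * d ^ 3 * r * M ^ 2 *
          (Γ ^ 3 * ((NN d L)⁻¹ * ∑ k : T d L, 1 / (b k ^ 2 + Γ ^ 2) ^ 2)) := by
          rw [← Finset.mul_sum]; ring
      _ ≤ _ := by gcongr
  -- the main term
  have hmain : |Γ ^ 3 * ((NN d L)⁻¹ * ∑ k : T d L, V k ^ 2 / (b k ^ 2 + Γ ^ 2) ^ 2) -
      Real.pi / 2 * dw d E * S2| ≤ η / 2 * S2 := by
    have e1 : ∑ k : T d L, V k ^ 2 / (b k ^ 2 + Γ ^ 2) ^ 2 =
        ∑ i, mo κ i ^ 2 * ∑ k : T d L, sr (k i) ^ 2 *
          (4 / (((adj k - E') ^ 2 + Γ ^ 2) ^ 2)) := by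
      rw [← sq_sum (L := L) (mo κ) (fun x => 4 / (((x - E') ^ 2 + Γ ^ 2) ^ 2))]
      apply Finset.sum_congr rfl
      intro k _
      simp only [hV, hb]
      ring
    have e2 : Γ ^ 3 * ((NN d L)⁻¹ * ∑ k : T d L, V k ^ 2 / (b k ^ 2 + Γ ^ 2) ^ 2) =
        ∑ i, mo κ i ^ 2 * (1 / 2 * ((NN d L)⁻¹ * ∑ k : T d L, 4 * (1 - cr (k i) ^ 2) *
          (2 * Γ ^ 3 / ((adj k - E') ^ 2 + Γ ^ 2) ^ 2))) := by
      rw [e1, Finset.mul_sum, Finset.mul_sum]
      apply Finset.sum_congr rfl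
      intro i _
      have e3 : ∀ k : T d L, 4 * (1 - cr (k i) ^ 2) * (2 * Γ ^ 3 / ((adj k - E') ^ 2 + Γ ^ 2) ^ 2) =
          2 * Γ ^ 3 * (sr (k i) ^ 2 * (4 / (((adj k - E') ^ 2 + Γ ^ 2) ^ 2))) := by
        intro k
        have := cs (k i)
        have e4 : 1 - cr (k i) ^ 2 = sr (k i) ^ 2 := by linarith
        rw [e4]
        ring
      rw [Finset.sum_congr rfl fun k _ => e3 k, ← Finset.mul_sum]
      ring
    rw [e2, hS2, Finset.mul_sum, ← Finset.sum_sub_distrib, Finset.mul_sum]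
    refine (Finset.abs_sum_le_sum_abs _ _).trans (Finset.sum_le_sum fun i _ => ?_)
    have h1 := (hp2 E E' Γ L (hE.trans_le hrr2) hΓ (hΓr.trans_le hrr2) hLr).2 i
    set Q := (NN d L)⁻¹ * ∑ k : T d L, 4 * (1 - cr (k i) ^ 2) *
          (2 * Γ ^ 3 / ((adj k - E') ^ 2 + Γ ^ 2) ^ 2) with hQ
    have e5 : mo κ i ^ 2 * (1 / 2 * Q) - Real.pi / 2 * dw d E * mo κ i ^ 2 =
        (mo κ i ^ 2 / 2) * (Q - Real.pi * dw d E) := by ring
    rw [e5, abs_mul, abs_of_nonneg (by positivity : 0 ≤ mo κ i ^ 2 / 2)]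
    calc mo κ i ^ 2 / 2 * |Q - Real.pi * dw d E| ≤ mo κ i ^ 2 / 2 * η := by gcongr
      _ = _ := by ring
  have hfin : 140 * d ^ 3 * r * M ^ 2 * B ≤ η / 2 * S2 := by
    rw [hMS]
    have : 140 * d ^ 3 * r * B ≤ η / 2 := by linarith
    calc 140 * d ^ 3 * r * S2 * B = (140 * d ^ 3 * r * B) * S2 := by ring
      _ ≤ _ := by gcongr
  have htri := abs_sub_le (Γ ^ 3 * ((NN d L)⁻¹ * ∑ k : T d L,
      ‖(((adj (k + κ) - E' : ℝ) : ℂ) - (Γ : ℂ) * Complex.I)⁻¹ -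
        (((adj k - E' : ℝ) : ℂ) - (Γ : ℂ) * Complex.I)⁻¹‖ ^ 2))
      (Γ ^ 3 * ((NN d L)⁻¹ * ∑ k : T d L, V k ^ 2 / (b k ^ 2 + Γ ^ 2) ^ 2))
      (Real.pi / 2 * dw d E * S2)
  linarith

end Pool.Agent.T2h98.QD
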