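import Pool.Agent.T2h98.QD.Stm7
import Pool.Agent.T2h98.QD.KER

/-! The embedding: from sets to functions. -/

set_option autoImplicit false
set_option linter.unusedSectionVars false

open scoped BigOperators Matrix Topology
open MeasureTheory ProbabilityTheory Filter

namespace Pool.Agent.T2h98.QD

open Pool.Agent.W788.MFP.Four (T e NN adj K)
open Pool.Agent.W788.BK (nsq hs PP JJ hi Low cr)

namespace EMBS

open KQ KERS

variable {d L : ℕ} [NeZero L]

/-- duality of the two forms -/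
theorem dual {E δ : ℝ} (hδ : 0 < δ) (g b : T d L → ℂ) :
    ‖∑ x, star (g x) * b x‖ ^ 2 ≤ qf (J1 E δ) g * qf (J0 E δ) b := by
  have hN := Pool.Agent.W788.MFP.Four.NN_pos (d := d) (L := L)
  have hJp : ∀ k : T d L, 0 < JJ E δ k := JJ_pos hδ
  have h0 : ∑ x, star (g x) * b x = ((NN d L : ℝ) : ℂ)⁻¹ * ∑ k, star (fc g k) * fc b k := by
    have h := conv g b 0
    simp only [add_zero] at h
    rw [← h]
    refine Finset.sum_congr rfl fun x _ => ?_
    rw [Pool.Agent.W788.MFP.Four.e_comm, Pool.Agent.W788.MFP.Four.e_zero, mul_one]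
  have h1 : qf (J1 E δ) g = (NN d L)⁻¹ * ∑ k, (JJ E δ k)⁻¹ * ‖fc g k‖ ^ 2 := by
    unfold J1
    rw [qf_Mo]
  have h2 : qf (J0 E δ) b = (NN d L)⁻¹ * ∑ k, JJ E δ k * ‖fc b k‖ ^ 2 := by
    unfold J0
    rw [qf_Mo]
  have h3 : ‖∑ k, star (fc g k) * fc b k‖ ^ 2 ≤
      (∑ k, (JJ E δ k)⁻¹ * ‖fc g k‖ ^ 2) * ∑ k, JJ E δ k * ‖fc b k‖ ^ 2 := by
    have e4 : ‖∑ k, star (fc g k) * fc b k‖ ≤ ∑ k, ‖fc g k‖ * ‖fc b k‖ := by
      refine (norm_sum_le _ _).trans (Finset.sum_le_sum fun k _ => ?_)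
      rw [norm_mul, norm_star]
    have e6 := Finset.sum_mul_sq_le_sq_mul_sq Finset.univ
        (fun k : T d L => Real.sqrt (JJ E δ k)⁻¹ * ‖fc g k‖)
        (fun k : T d L => Real.sqrt (JJ E δ k) * ‖fc b k‖)
    have e7 : ∀ k : T d L, Real.sqrt (JJ E δ k)⁻¹ * ‖fc g k‖ * (Real.sqrt (JJ E δ k) * ‖fc b k‖) =
        ‖fc g k‖ * ‖fc b k‖ := by
      intro k
      have := Real.sqrt_pos.2 (hJp k)
      rw [Real.sqrt_inv]
      field_simp
    have e8 : ∀ k : T d L, (Real.sqrt (JJ E δ k)⁻¹ * ‖fc g k‖) ^ 2 =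
        (JJ E δ k)⁻¹ * ‖fc g k‖ ^ 2 := fun k => by
      rw [mul_pow, Real.sq_sqrt (inv_nonneg.2 (hJp k).le)]
    have e9 : ∀ k : T d L, (Real.sqrt (JJ E δ k) * ‖fc b k‖) ^ 2 =
        JJ E δ k * ‖fc b k‖ ^ 2 := fun k => by
      rw [mul_pow, Real.sq_sqrt (hJp k).le]
    simp only [e7, e8, e9] at e6
    exact (pow_le_pow_left₀ (norm_nonneg _) e4 2).trans e6
  rw [h0, h1, h2, norm_mul, mul_pow, norm_inv, Complex.norm_real, Real.norm_of_nonneg hN.le]
  calc (NN d L)⁻¹ ^ 2 * ‖∑ k, star (fc g k) * fc b k‖ ^ 2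
      ≤ (NN d L)⁻¹ ^ 2 * ((∑ k, (JJ E δ k)⁻¹ * ‖fc g k‖ ^ 2) * ∑ k, JJ E δ k * ‖fc b k‖ ^ 2) :=
        mul_le_mul_of_nonneg_left h3 (by positivity)
    _ = _ := by ring

theorem qf0_nonneg {E δ : ℝ} (hδ : 0 < δ) (b : T d L → ℂ) : 0 ≤ qf (J0 E δ) b := by
  have := nsq_le (E := E) hδ b
  exact (mul_nonneg hδ.le (Finset.sum_nonneg fun _ _ => sq_nonneg _)).trans this

/-- the bound for the sum over a set -/
theorem set_sum {E δ κ : ℝ} (hδ : 0 < δ)
    (h : ∀ (A : Finset (T d L)) (g : T d L → ℂ), (∀ x, ‖g x‖ ≤ if x ∈ A then 1 else 0) →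
      qf (J1 E δ) g ≤ κ * (A.card : ℝ) ^ (3 / 2 : ℝ)) (b : T d L → ℂ) (A : Finset (T d L)) :
    (∑ x ∈ A, ‖b x‖) ^ 2 ≤ κ * qf (J0 E δ) b * (A.card : ℝ) ^ (3 / 2 : ℝ) := by
  classical
  set g : T d L → ℂ := fun x => if x ∈ A then b x / ‖b x‖ else 0 with hg
  have h1 := h A g fun x => by
    simp only [hg]
    by_cases hx : x ∈ A
    · simp only [hx, if_true]
      rw [norm_div, Complex.norm_real, norm_norm]
      exact div_self_le_one _
    · simp [hx]
  have h2 := dual (E := E) hδ g b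
  have h3 : ∑ x, star (g x) * b x = ((∑ x ∈ A, ‖b x‖ : ℝ) : ℂ) := by
    rw [Complex.ofReal_sum, ← Finset.sum_filter_add_sum_filter_not Finset.univ (fun x => x ∈ A)]
    have e1 : ∑ x ∈ Finset.univ.filter (fun x => ¬ x ∈ A), star (g x) * b x = 0 := by
      refine Finset.sum_eq_zero fun x hx => ?_
      have : ¬ x ∈ A := (Finset.mem_filter.1 hx).2
      simp [hg, this]
    rw [e1, add_zero]
    have e2 : Finset.univ.filter (fun x => x ∈ A) = A := by
      ext x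
      simp
    rw [e2]
    refine Finset.sum_congr rfl fun x hx => ?_
    simp only [hg, hx, if_true]
    by_cases h0 : b x = 0
    · simp [h0]
    · have h4 : (‖b x‖ : ℂ) ≠ 0 := by
        exact_mod_cast norm_ne_zero_iff.2 h0
      rw [Complex.star_def, map_div₀, Complex.conj_ofReal, div_mul_eq_mul_div,
        Complex.conj_mul', pow_two, mul_div_assoc, div_self h4, mul_one]
  rw [h3, Complex.norm_real, Real.norm_eq_abs, sq_abs] at h2
  refine h2.trans ?_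
  calc qf (J1 E δ) g * qf (J0 E δ) b ≤ κ * (A.card : ℝ) ^ (3 / 2 : ℝ) * qf (J0 E δ) b :=
        mul_le_mul_of_nonneg_right h1 (qf0_nonneg hδ b)
    _ = _ := by ring

/-- the weak type bound -/
theorem weak {E δ κ : ℝ} (hδ : 0 < δ) (hκ : 0 ≤ κ)
    (h : ∀ (A : Finset (T d L)) (g : T d L → ℂ), (∀ x, ‖g x‖ ≤ if x ∈ A then 1 else 0) →
      qf (J1 E δ) g ≤ κ * (A.card : ℝ) ^ (3 / 2 : ℝ)) (b : T d L → ℂ) (lam : ℝ) (hl : 0 ≤ lam) :
    lam ^ 4 * ((Finset.univ.filter fun x => lam < ‖b x‖).card : ℝ) ≤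
      (κ * qf (J0 E δ) b) ^ 2 := by
  set A := Finset.univ.filter fun x => lam < ‖b x‖ with hA
  set W := κ * qf (J0 E δ) b with hW
  have hW0 : 0 ≤ W := mul_nonneg hκ (qf0_nonneg hδ b)
  rcases Nat.eq_zero_or_pos A.card with h0 | h0
  · rw [h0]
    simp only [Nat.cast_zero, mul_zero]
    positivity
  have hc : (0 : ℝ) < A.card := by exact_mod_cast h0
  have h1 : lam * A.card ≤ ∑ x ∈ A, ‖b x‖ := by
    rw [mul_comm, ← nsmul_eq_mul]
    exact Finset.card_nsmul_le_sum _ _ _ fun x hx => (Finset.mem_filter.1 hx).2.le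
  have h2 := (pow_le_pow_left₀ (by positivity) h1 2).trans (set_sum hδ h b A)
  have h3 : (A.card : ℝ) ^ (3 / 2 : ℝ) = (A.card : ℝ) * Real.sqrt A.card := by
    rw [Real.sqrt_eq_rpow, ← Real.rpow_one_add' hc.le (by norm_num)]
    norm_num
  rw [h3] at h2
  have hs := Real.sqrt_pos.2 hc
  have hss := Real.mul_self_sqrt hc.le
  have h4 : lam ^ 2 * Real.sqrt A.card ≤ W := by
    have h5 : (A.card : ℝ) * Real.sqrt A.card * (lam ^ 2 * Real.sqrt A.card) ≤
        (A.card : ℝ) * Real.sqrt A.card * W := by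
      calc (A.card : ℝ) * Real.sqrt A.card * (lam ^ 2 * Real.sqrt A.card) =
            lam ^ 2 * A.card * (Real.sqrt A.card * Real.sqrt A.card) := by ring
        _ = (lam * A.card) ^ 2 := by rw [hss]; ring
        _ ≤ _ := h2
        _ = _ := by ring
    exact le_of_mul_le_mul_left h5 (by positivity)
  calc lam ^ 4 * (A.card : ℝ) = (lam ^ 2 * Real.sqrt A.card) ^ 2 := by
        rw [mul_pow, Real.sq_sqrt hc.le]
        ring
    _ ≤ W ^ 2 := pow_le_pow_left₀ (by positivity) h4 2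

/-- the fourth moment -/
theorem four {E δ κ : ℝ} (hδ : 0 < δ) (hκ : 0 ≤ κ)
    (h : ∀ (A : Finset (T d L)) (g : T d L → ℂ), (∀ x, ‖g x‖ ≤ if x ∈ A then 1 else 0) →
      qf (J1 E δ) g ≤ κ * (A.card : ℝ) ^ (3 / 2 : ℝ)) (b : T d L → ℂ) (J : ℕ) :
    ∑ x, ‖b x‖ ^ 4 ≤ 16 * J * (κ * qf (J0 E δ) b) ^ 2 +
      κ * qf (J0 E δ) b / 4 ^ J * (qf (J0 E δ) b / δ) := by
  set W := κ * qf (J0 E δ) b with hW
  have hW0 : 0 ≤ W := mul_nonneg hκ (qf0_nonneg hδ b)
  set M := Real.sqrt W with hM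
  have hM0 : 0 ≤ M := Real.sqrt_nonneg _
  have hM2 : M ^ 2 = W := Real.sq_sqrt hW0
  have hb : ∀ x, ‖b x‖ ≤ M := by
    intro x
    have h1 := set_sum hδ h b {x}
    rw [Finset.sum_singleton, Finset.card_singleton, Nat.cast_one, Real.one_rpow, mul_one] at h1
    exact Real.le_sqrt_of_sq_le h1
  set F : ℕ → ℝ := fun j => ∑ x ∈ Finset.univ.filter (fun x => ‖b x‖ ≤ M / 2 ^ j), ‖b x‖ ^ 4 with hF
  have h0 : F 0 = ∑ x, ‖b x‖ ^ 4 := by
    simp only [hF, pow_zero, div_one]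
    rw [Finset.filter_true_of_mem fun x _ => hb x]
  have hstep : ∀ j, F j ≤ 16 * W ^ 2 + F (j + 1) := by
    intro j
    have e1 : F j ≤ ∑ x ∈ Finset.univ.filter (fun x => M / 2 ^ (j + 1) < ‖b x‖), (M / 2 ^ j) ^ 4 +
        F (j + 1) := by
      simp only [hF]
      rw [← Finset.sum_filter_add_sum_filter_not (Finset.univ.filter fun x => ‖b x‖ ≤ M / 2 ^ j)
        (fun x => M / 2 ^ (j + 1) < ‖b x‖)]
      refine add_le_add ?_ ?_
      · refine (Finset.sum_le_sum (g := fun _ => (M / 2 ^ j) ^ 4) fun x hx => ?_).trans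
          (Finset.sum_le_sum_of_subset_of_nonneg ?_ fun _ _ _ => by positivity)
        · have := (Finset.mem_filter.1 (Finset.mem_filter.1 hx).1).2
          exact pow_le_pow_left₀ (norm_nonneg _) this 4
        · intro x hx
          exact Finset.mem_filter.2 ⟨Finset.mem_univ _, (Finset.mem_filter.1 hx).2⟩
      · refine Finset.sum_le_sum_of_subset_of_nonneg ?_ fun _ _ _ => by positivity
        intro x hx
        exact Finset.mem_filter.2 ⟨Finset.mem_univ _, not_lt.1 (Finset.mem_filter.1 hx).2⟩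
    have e2 := weak hδ hκ h b (M / 2 ^ (j + 1)) (by positivity)
    rw [Finset.sum_const, nsmul_eq_mul] at e1
    have e3 : (M / 2 ^ j) ^ 4 = 16 * (M / 2 ^ (j + 1)) ^ 4 := by
      rw [pow_succ]
      field_simp
      ring
    rw [e3] at e1
    linarith
  have hind : ∀ J : ℕ, F 0 ≤ 16 * J * W ^ 2 + F J := by
    intro J
    induction J with
    | zero => simp
    | succ J ih =>
      have := hstep J
      push_cast
      linarith
  have hlast : F J ≤ W / 4 ^ J * (qf (J0 E δ) b / δ) := by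
    have e1 : F J ≤ ∑ x, (M / 2 ^ J) ^ 2 * ‖b x‖ ^ 2 := by
      simp only [hF]
      refine (Finset.sum_le_sum (g := fun x => (M / 2 ^ J) ^ 2 * ‖b x‖ ^ 2) fun x hx => ?_).trans
          (Finset.sum_le_sum_of_subset_of_nonneg (Finset.filter_subset _ _) fun _ _ _ => by positivity)
      have := (Finset.mem_filter.1 hx).2
      have h5 := pow_le_pow_left₀ (norm_nonneg _) this 2
      calc ‖b x‖ ^ 4 = ‖b x‖ ^ 2 * ‖b x‖ ^ 2 := by ring
        _ ≤ _ := mul_le_mul_of_nonneg_right h5 (by positivity)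
    rw [← Finset.mul_sum] at e1
    have e2 : (M / 2 ^ J) ^ 2 = W / 4 ^ J := by
      rw [div_pow, hM2, ← pow_mul, mul_comm J 2, pow_mul]
      norm_num
    rw [e2] at e1
    refine e1.trans (mul_le_mul_of_nonneg_left ?_ (by positivity))
    rw [le_div_iff₀ hδ, mul_comm]
    exact nsq_le hδ b
  rw [← h0]
  exact (hind J).trans (by linarith)

end EMBS

open KQ KERS EMBS in
theorem emb (h : T_SET) : T_EMB := by
  intro d hd
  obtain ⟨C, hC, hS⟩ := h d hd
  refine ⟨48 * C ^ 2 + 16 * C, by positivity, fun L _ E δ hδ hδ2 hL a b => ?_⟩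
  set l := Real.log (1 / δ) with hl
  have hl2 : 1 / 2 ≤ l := by
    have h1 : Real.log 2 ≤ l := Real.log_le_log (by norm_num) (by
      rw [le_div_iff₀ hδ]
      linarith)
    have := Real.log_two_gt_d9
    linarith
  have hl0 : 0 < l := by linarith
  set r : ℝ := if d = 3 then δ ^ (-(1 / 4) : ℝ) else 1 with hr
  have hr1 : 1 ≤ r := by
    simp only [hr]
    split_ifs
    · exact Real.one_le_rpow_of_pos_of_le_one_of_nonpos hδ (by linarith) (by norm_num)
    · exact le_rfl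
  have hkd : kd d δ = r * l ^ 3 := rfl
  have hke : ke d δ = r ^ 2 * l ^ 7 := by
    unfold ke
    congr 1
    simp only [hr]
    split_ifs
    · rw [← Real.rpow_natCast, ← Real.rpow_mul hδ.le]
      norm_num
    · norm_num
  have hkd0 : 0 < kd d δ := by
    rw [hkd]
    positivity
  have hke0 : 0 < ke d δ := by
    rw [hke]
    positivity
  have hk1 : kd d δ ^ 2 * l = ke d δ := by
    rw [hkd, hke]
    ring
  have hk2 : kd d δ ≤ 16 * ke d δ := by
    rw [hkd, hke]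
    have h1 : (1 / 2 : ℝ) ^ 4 ≤ l ^ 4 := pow_le_pow_left₀ (by norm_num) hl2 4
    have h2 : 1 ≤ 16 * (r * l ^ 4) := by nlinarith
    calc r * l ^ 3 = r * l ^ 3 * 1 := by ring
      _ ≤ r * l ^ 3 * (16 * (r * l ^ 4)) := mul_le_mul_of_nonneg_left h2 (by positivity)
      _ = _ := by ring
  set J := ⌈l⌉₊ with hJ
  have hJ1 : (J : ℝ) ≤ 3 * l := by
    have := Nat.ceil_lt_add_one hl0.le
    linarith
  have hJ2 : 1 / δ ≤ 4 ^ J := by
    have h1 : 1 / δ = Real.exp l := by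
      rw [hl, Real.exp_log (by positivity)]
    have h2 : Real.exp l ≤ Real.exp J := Real.exp_le_exp.2 (Nat.le_ceil l)
    have h3 : Real.exp J ≤ 4 ^ J := by
      rw [← Real.exp_one_pow]
      exact pow_le_pow_left₀ (Real.exp_pos 1).le (by linarith [Real.exp_one_lt_d9]) J
    rw [h1]
    exact h2.trans h3
  have key : ∀ c : T d L → ℂ, ∑ x, ‖c x‖ ^ 4 ≤
      (48 * C ^ 2 + 16 * C) * ke d δ * qf (J0 E δ) c ^ 2 := by
    intro c
    have h1 := four (E := E) hδ (mul_pos hC hkd0).le (fun A g hg => hS L E δ hδ hδ2 hL A g hg) c J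
    have hq := qf0_nonneg (E := E) hδ c
    set q := qf (J0 E δ) c with hqd
    refine h1.trans ?_
    have h2 : 16 * (J : ℝ) * (C * kd d δ * q) ^ 2 ≤ 48 * C ^ 2 * ke d δ * q ^ 2 := by
      calc 16 * (J : ℝ) * (C * kd d δ * q) ^ 2 ≤ 16 * (3 * l) * (C * kd d δ * q) ^ 2 := by gcongr
        _ = 48 * C ^ 2 * (kd d δ ^ 2 * l) * q ^ 2 := by ring
        _ = _ := by rw [hk1]
    have h3 : C * kd d δ * q / 4 ^ J * (q / δ) ≤ 16 * C * ke d δ * q ^ 2 := by
      have h4 : 1 / δ / 4 ^ J ≤ 1 := (div_le_one (by positivity)).2 hJ2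
      calc C * kd d δ * q / 4 ^ J * (q / δ) = C * kd d δ * q ^ 2 * (1 / δ / 4 ^ J) := by
            field_simp
        _ ≤ C * kd d δ * q ^ 2 * 1 := mul_le_mul_of_nonneg_left h4 (by positivity)
        _ ≤ C * (16 * ke d δ) * q ^ 2 * 1 := by gcongr
        _ = _ := by ring
    calc 16 * (J : ℝ) * (C * kd d δ * q) ^ 2 + C * kd d δ * q / 4 ^ J * (q / δ)
        ≤ 48 * C ^ 2 * ke d δ * q ^ 2 + 16 * C * ke d δ * q ^ 2 := add_le_add h2 h3
      _ = _ := by ring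
  set D := (48 * C ^ 2 + 16 * C) * ke d δ with hD
  have hD0 : 0 ≤ D := by positivity
  have ha := key a
  have hb := key b
  have hqa := qf0_nonneg (E := E) hδ a
  have hqb := qf0_nonneg (E := E) hδ b
  have hcs := Finset.sum_mul_sq_le_sq_mul_sq Finset.univ (fun y => ‖a y‖ ^ 2) (fun y => ‖b y‖ ^ 2)
  have e1 : ∀ c : T d L → ℂ, ∑ y, (‖c y‖ ^ 2) ^ 2 = ∑ y, ‖c y‖ ^ 4 := fun c =>
    Finset.sum_congr rfl fun y _ => by ring
  rw [e1, e1] at hcs
  have h5 : (∑ y, ‖a y‖ ^ 2 * ‖b y‖ ^ 2) ^ 2 ≤ (D * (qf (J0 E δ) a * qf (J0 E δ) b)) ^ 2 := by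
    refine hcs.trans ((mul_le_mul ha hb (Finset.sum_nonneg fun _ _ => by positivity)
      (by positivity)).trans (le_of_eq (by ring)))
  exact le_of_sq_le_sq h5 (by positivity)

end Pool.Agent.T2h98.QD
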