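import Pool.Agent.T2h98.QD.Stm7
import Pool.Agent.T2h98.QD.KER

/-! The embedding on sets, from time integrals of the kernel. -/

set_option autoImplicit false
set_option linter.unusedSectionVars false

open scoped BigOperators Matrix Topology
open MeasureTheory ProbabilityTheory Filter

namespace Pool.Agent.T2h98.QD

open Pool.Agent.W788.MFP.Four (T e NN adj K)
open Pool.Agent.W788.BK (nsq hs PP JJ hi Low cr)

namespace SETS

open KQ KERS

/-- Lorentzians and time integrals -/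
theorem lor {ι : Type} [Fintype ι] (w v : ι → ℝ) (E ρ : ℝ) (hρ : 0 < ρ) :
    ∑ k, w k * (ρ / ((v k - E) ^ 2 + ρ ^ 2)) ≤
      ∫ t in Set.Ioi (0 : ℝ), Real.exp (-(ρ * t)) *
        ‖∑ k, (w k : ℂ) * Complex.exp (((t * v k : ℝ) : ℂ) * Complex.I)‖ := by
  set c : ι → ℂ := fun k => ((-ρ : ℝ) : ℂ) + ((v k - E : ℝ) : ℂ) * Complex.I with hc
  have hre : ∀ k, (c k).re = -ρ := fun k => by simp [hc]
  have him : ∀ k, (c k).im = v k - E := fun k => by simp [hc]
  have hre' : ∀ k, (c k).re < 0 := fun k => by rw [hre]; linarith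
  have h1 : ∀ k, ∫ t in Set.Ioi (0 : ℝ), Complex.exp (c k * t) = -1 / c k := fun k => by
    rw [integral_exp_mul_complex_Ioi (hre' k)]
    simp
  have h2 : ∀ k, IntegrableOn (fun t : ℝ => Complex.exp (c k * t)) (Set.Ioi 0) := fun k =>
    integrableOn_exp_mul_complex_Ioi (hre' k) 0
  have h3 : ∀ k, (-1 / c k).re = ρ / ((v k - E) ^ 2 + ρ ^ 2) := fun k => by
    rw [Complex.div_re, Complex.normSq_apply, hre, him]
    simp
    ring
  have h4 : ∑ k, w k * (ρ / ((v k - E) ^ 2 + ρ ^ 2)) =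
      (∫ t in Set.Ioi (0 : ℝ), ∑ k, (w k : ℂ) * Complex.exp (c k * t)).re := by
    rw [integral_finsetSum _ fun k _ => (h2 k).const_mul _]
    rw [Complex.re_sum]
    refine Finset.sum_congr rfl fun k _ => ?_
    rw [integral_const_mul, h1, Complex.re_ofReal_mul, h3]
  rw [h4]
  refine (Complex.re_le_norm _).trans ((norm_integral_le_integral_norm _).trans (le_of_eq ?_))
  refine integral_congr_ae (Filter.Eventually.of_forall fun t => ?_)
  simp only
  have h5 : ∑ k, (w k : ℂ) * Complex.exp (c k * t) =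
      Complex.exp (((-(ρ * t) : ℝ) : ℂ) + ((-(E * t) : ℝ) : ℂ) * Complex.I) *
        ∑ k, (w k : ℂ) * Complex.exp (((t * v k : ℝ) : ℂ) * Complex.I) := by
    rw [Finset.mul_sum]
    refine Finset.sum_congr rfl fun k _ => ?_
    rw [mul_left_comm, ← Complex.exp_add]
    congr 2
    simp only [hc]
    push_cast
    ring
  rw [h5, norm_mul, Complex.norm_exp]
  simp

/-- splitting of the time integral -/
theorem split {h : ℝ → ℝ} {a ρ β : ℝ} (hc : Continuous h) (h0 : ∀ t, 0 ≤ h t) (ha : 0 ≤ a)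
    (hρ : 0 < ρ) (hh : ∀ t, 0 ≤ t → h t ≤ a * Real.exp (-(ρ * t))) (I : ℕ)
    (hb : ∀ i < I, ∫ t in (2 ^ i : ℝ)..(2 * 2 ^ i), h t ≤ β) :
    ∫ t in Set.Ioi (0 : ℝ), h t ≤ a + I * β + a * (Real.exp (-(ρ * 2 ^ I)) / ρ) := by
  have hρ' : -ρ < 0 := by linarith
  have hint : ∀ c : ℝ, 0 ≤ c → IntegrableOn h (Set.Ioi c) := by
    intro c hc0
    have h1 : IntegrableOn (fun t : ℝ => a * Real.exp (-ρ * t)) (Set.Ioi c) :=
      (integrableOn_exp_mul_Ioi hρ' c).const_mul a
    refine Integrable.mono' h1 hc.aestronglyMeasurable ?_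
    refine (ae_restrict_iff' measurableSet_Ioi).2 (Filter.Eventually.of_forall fun t ht => ?_)
    rw [Real.norm_of_nonneg (h0 t), neg_mul]
    exact hh t (hc0.trans (le_of_lt ht))
  have hii : ∀ x y : ℝ, IntervalIntegrable h volume x y := fun x y => hc.intervalIntegrable x y
  have e1 := intervalIntegral.integral_interval_add_Ioi (hint 0 le_rfl) (hint (2 ^ I) (by positivity))
  have e2 : ∫ t in (0 : ℝ)..1, h t ≤ a := by
    have e3 : ∫ t in (0 : ℝ)..1, h t ≤ ∫ _t in (0 : ℝ)..1, a := by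
      refine intervalIntegral.integral_mono_on zero_le_one (hii _ _) intervalIntegrable_const ?_
      intro t ht
      refine (hh t ht.1).trans (mul_le_of_le_one_right ha ?_)
      rw [Real.exp_le_one_iff]
      have := mul_nonneg hρ.le ht.1
      linarith
    simpa using e3
  have e3 : ∀ n : ℕ, n ≤ I → ∫ t in (1 : ℝ)..(2 ^ n), h t ≤ n * β := by
    intro n
    induction n with
    | zero => intro _; simp
    | succ n ih =>
      intro hn
      have e4 := intervalIntegral.integral_add_adjacent_intervals (hii 1 (2 ^ n)) (hii (2 ^ n) (2 ^ (n + 1)))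
      have e5 := hb n (by omega)
      have e6 : (2 : ℝ) * 2 ^ n = 2 ^ (n + 1) := by ring
      rw [e6] at e5
      have e7 := ih (by omega)
      push_cast
      linarith
  have e4 := intervalIntegral.integral_add_adjacent_intervals (hii 0 1) (hii 1 (2 ^ I))
  have e5 : ∫ t in Set.Ioi ((2 : ℝ) ^ I), h t ≤ a * (Real.exp (-(ρ * 2 ^ I)) / ρ) := by
    have e6 : ∫ t in Set.Ioi ((2 : ℝ) ^ I), h t ≤ ∫ t in Set.Ioi ((2 : ℝ) ^ I), a * Real.exp (-ρ * t) := by
      refine setIntegral_mono_on (hint _ (by positivity))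
        ((integrableOn_exp_mul_Ioi hρ' _).const_mul a) measurableSet_Ioi fun t ht => ?_
      rw [neg_mul]
      exact hh t ((by positivity : (0 : ℝ) ≤ 2 ^ I).trans (le_of_lt ht))
    rw [integral_const_mul, integral_exp_mul_Ioi hρ'] at e6
    refine e6.trans (le_of_eq ?_)
    rw [neg_div_neg_eq, neg_mul]
  have e6 := e3 I le_rfl
  linarith

/-- the Lorentzians add up to the inverse of the absolute value -/
theorem lsum (u δ : ℝ) (hδ : 0 < δ) (J : ℕ) (hJ : 1 ≤ 2 ^ J * δ) :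
    (Real.sqrt (u ^ 2 + δ ^ 2))⁻¹ ≤
      4 * ∑ j ∈ Finset.range (J + 1), (2 ^ j * δ) / (u ^ 2 + (2 ^ j * δ) ^ 2) + 1 := by
  have hs0 : ∀ j ∈ Finset.range (J + 1), 0 ≤ (2 ^ j * δ) / (u ^ 2 + (2 ^ j * δ) ^ 2) :=
    fun j _ => by positivity
  have hsq : 0 < Real.sqrt (u ^ 2 + δ ^ 2) := Real.sqrt_pos.2 (by positivity)
  rcases le_or_gt 1 |u| with h1 | h1
  · have h2 : 1 ≤ Real.sqrt (u ^ 2 + δ ^ 2) := by
      apply Real.le_sqrt_of_sq_le
      have := one_le_sq_iff_one_le_abs u |>.2 h1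
      nlinarith
    have h3 := inv_le_one_of_one_le₀ h2
    have := Finset.sum_nonneg hs0
    linarith
  · have key : ∃ j ∈ Finset.range (J + 1), (Real.sqrt (u ^ 2 + δ ^ 2))⁻¹ ≤
        4 * ((2 ^ j * δ) / (u ^ 2 + (2 ^ j * δ) ^ 2)) := by
      rcases le_or_gt |u| δ with h2 | h2
      · refine ⟨0, Finset.mem_range.2 (by omega), ?_⟩
        have h3 : δ ≤ Real.sqrt (u ^ 2 + δ ^ 2) := Real.le_sqrt_of_sq_le (by nlinarith [sq_nonneg u])
        have h4 : u ^ 2 ≤ δ ^ 2 := sq_le_sq' (by linarith [neg_abs_le u]) (by linarith [le_abs_self u])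
        have h5 : (Real.sqrt (u ^ 2 + δ ^ 2))⁻¹ ≤ δ⁻¹ := inv_anti₀ hδ h3
        refine h5.trans ?_
        rw [pow_zero, one_mul, ← mul_div_assoc, inv_eq_one_div, div_le_div_iff₀ hδ (by positivity)]
        nlinarith
      · -- the scale of `u`
        have hex : ∃ j : ℕ, |u| < 2 ^ j * δ := ⟨J, by linarith⟩
        classical
        set m := Nat.find hex with hm
        have hm1 : |u| < 2 ^ m * δ := Nat.find_spec hex
        have hm0 : m ≠ 0 := by
          intro h0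
          rw [h0, pow_zero, one_mul] at hm1
          linarith
        have hm2 : ¬ |u| < 2 ^ (m - 1) * δ := Nat.find_min hex (by omega)
        have hm3 : m ≤ J := Nat.find_min' hex (by linarith)
        have h3 := not_lt.1 hm2
        have h4 : (2 : ℝ) ^ m = 2 * 2 ^ (m - 1) := by
          rw [← pow_succ']
          congr 1
          omega
        set r := 2 ^ (m - 1) * δ with hr
        have hr0 : 0 < r := by positivity
        have h5 : |u| < 2 * r := by
          rw [h4] at hm1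
          calc |u| < 2 * 2 ^ (m - 1) * δ := hm1
            _ = 2 * r := by rw [hr]; ring
        refine ⟨m - 1, Finset.mem_range.2 (by omega), ?_⟩
        have hu0 : 0 < |u| := hδ.trans h2
        have h6 : |u| ≤ Real.sqrt (u ^ 2 + δ ^ 2) := Real.le_sqrt_of_sq_le (by
          rw [sq_abs]
          nlinarith [sq_nonneg δ])
        have h7 : (Real.sqrt (u ^ 2 + δ ^ 2))⁻¹ ≤ |u|⁻¹ := inv_anti₀ hu0 h6
        refine h7.trans ?_
        rw [← hr, ← mul_div_assoc, inv_eq_one_div, div_le_div_iff₀ hu0 (by positivity)]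
        have h8 : u ^ 2 = |u| ^ 2 := (sq_abs u).symm
        rw [h8]
        nlinarith
    obtain ⟨j, hj, hj2⟩ := key
    have := Finset.single_le_sum hs0 hj
    linarith

variable {d L : ℕ} [NeZero L]

theorem pk_norm (t : ℝ) (x : ZMod L) : ‖pk L t x‖ ≤ 1 := by
  have hL : (0 : ℝ) < L := by exact_mod_cast Nat.pos_of_ne_zero (NeZero.ne L)
  unfold pk
  rw [norm_mul, norm_inv, Complex.norm_natCast]
  have h1 : ‖∑ j : ZMod L, Complex.exp (((2 * t * cr j : ℝ) : ℂ) * Complex.I) *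
    (ZMod.stdAddChar (j * x) : ℂ)‖ ≤ ∑ _j : ZMod L, (1 : ℝ) := by
    refine (norm_sum_le _ _).trans (Finset.sum_le_sum fun j _ => ?_)
    rw [norm_mul, Complex.norm_exp_ofReal_mul_I, one_mul]
    rw [ZMod.stdAddChar_apply, Circle.norm_coe]
  rw [Finset.sum_const, Finset.card_univ, ZMod.card, nsmul_eq_mul, mul_one] at h1
  calc (L : ℝ)⁻¹ * _ ≤ (L : ℝ)⁻¹ * L := mul_le_mul_of_nonneg_left h1 (by positivity)
    _ = 1 := inv_mul_cancel₀ hL.ne'

theorem pk_cont (x : ZMod L) : Continuous fun t : ℝ => pk L t x := by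
  unfold pk
  fun_prop

theorem char_sum {ι : Type} (s : Finset ι) (f : ι → ZMod L) :
    (ZMod.stdAddChar (∑ i ∈ s, f i) : ℂ) = ∏ i ∈ s, (ZMod.stdAddChar (f i) : ℂ) := by
  classical
  induction s using Finset.induction_on with
  | empty => simp
  | insert a s ha ih => rw [Finset.sum_insert ha, Finset.prod_insert ha, AddChar.map_add_eq_mul, ih]

theorem pk_prod (t : ℝ) (z : T d L) : ∏ i, pk L t (z i) =
    ((NN d L : ℝ) : ℂ)⁻¹ * ∑ k : T d L, Complex.exp (((t * adj k : ℝ) : ℂ) * Complex.I) * e k z := by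
  unfold pk
  rw [Finset.prod_mul_distrib, Finset.prod_const, Finset.card_univ, Fintype.card_fin,
    Finset.prod_univ_sum, Fintype.piFinset_univ]
  congr 1
  · unfold NN
    push_cast
    rw [inv_pow]
  · refine Finset.sum_congr rfl fun k _ => ?_
    rw [Finset.prod_mul_distrib, ← Complex.exp_sum]
    congr 1
    · congr 1
      rw [← Finset.sum_mul]
      congr 1
      unfold adj cr
      push_cast
      rw [Finset.mul_sum]
      exact Finset.sum_congr rfl fun i _ => by ring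
    · unfold e
      rw [char_sum]

theorem ker_form (g : T d L → ℂ) (t : ℝ) :
    ∑ k, (((NN d L)⁻¹ * ‖fc g k‖ ^ 2 : ℝ) : ℂ) * Complex.exp (((t * adj k : ℝ) : ℂ) * Complex.I) =
      ∑ x, ∑ y, g x * (starRingEnd ℂ) (g y) * ∏ i, pk L t ((x - y) i) := by
  have h1 : ∀ k : T d L, ((‖fc g k‖ : ℝ) : ℂ) ^ 2 =
      ∑ x, ∑ y, g x * (starRingEnd ℂ) (g y) * e k (x - y) := by
    intro k
    rw [← Complex.mul_conj']
    unfold fc
    rw [map_sum, Finset.sum_mul_sum]
    refine Finset.sum_congr rfl fun x _ => Finset.sum_congr rfl fun y _ => ?_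
    rw [map_mul, e_sub]
    ring
  have h2 : ∀ k : T d L, (((NN d L)⁻¹ * ‖fc g k‖ ^ 2 : ℝ) : ℂ) *
      Complex.exp (((t * adj k : ℝ) : ℂ) * Complex.I) =
      ∑ x, ∑ y, g x * (starRingEnd ℂ) (g y) * (((NN d L : ℝ) : ℂ)⁻¹ *
        (Complex.exp (((t * adj k : ℝ) : ℂ) * Complex.I) * e k (x - y))) := by
    intro k
    rw [Complex.ofReal_mul, Complex.ofReal_pow, h1, Complex.ofReal_inv, mul_assoc, Finset.sum_mul,
      Finset.mul_sum]
    refine Finset.sum_congr rfl fun x _ => ?_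
    rw [Finset.sum_mul, Finset.mul_sum]
    exact Finset.sum_congr rfl fun y _ => by ring
  simp only [h2]
  rw [Finset.sum_comm]
  refine Finset.sum_congr rfl fun x _ => ?_
  rw [Finset.sum_comm]
  refine Finset.sum_congr rfl fun y _ => ?_
  rw [pk_prod, ← Finset.mul_sum, ← Finset.mul_sum]

/-- the form as a function of time -/
noncomputable def FF (g : T d L → ℂ) (t : ℝ) : ℂ :=
  ∑ k, (((NN d L)⁻¹ * ‖fc g k‖ ^ 2 : ℝ) : ℂ) * Complex.exp (((t * adj k : ℝ) : ℂ) * Complex.I)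

theorem FF_cont (g : T d L → ℂ) : Continuous (FF g) := by
  unfold FF
  fun_prop

theorem nsq_card {A : Finset (T d L)} {g : T d L → ℂ} (hg : ∀ x, ‖g x‖ ≤ if x ∈ A then 1 else 0) :
    ∑ x, ‖g x‖ ^ 2 ≤ (A.card : ℝ) := by
  have h1 : ∀ x, ‖g x‖ ^ 2 ≤ if x ∈ A then 1 else 0 := by
    intro x
    have := hg x
    split_ifs at this ⊢
    · exact pow_le_one₀ (norm_nonneg _) this
    · have h2 := norm_nonneg (g x)
      have h3 : ‖g x‖ = 0 := le_antisymm this h2
      rw [h3]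
      norm_num
  refine (Finset.sum_le_sum fun x _ => h1 x).trans ?_
  rw [Finset.sum_ite_mem, Finset.univ_inter, Finset.sum_const, nsmul_eq_mul, mul_one]

theorem FF_le {A : Finset (T d L)} {g : T d L → ℂ} (hg : ∀ x, ‖g x‖ ≤ if x ∈ A then 1 else 0)
    (t : ℝ) : ‖FF g t‖ ≤ A.card := by
  have hN := Pool.Agent.W788.MFP.Four.NN_pos (d := d) (L := L)
  refine (norm_sum_le _ _).trans ?_
  have h1 : ∀ k : T d L, ‖(((NN d L)⁻¹ * ‖fc g k‖ ^ 2 : ℝ) : ℂ) *
      Complex.exp (((t * adj k : ℝ) : ℂ) * Complex.I)‖ = (NN d L)⁻¹ * ‖fc g k‖ ^ 2 := by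
    intro k
    rw [norm_mul, Complex.norm_exp_ofReal_mul_I, mul_one, Complex.norm_real,
      Real.norm_of_nonneg (by positivity)]
  simp only [h1]
  rw [← Finset.mul_sum]
  have h2 : ∑ k, ‖fc g k‖ ^ 2 = NN d L * ∑ x, ‖g x‖ ^ 2 := planchC g
  rw [h2, ← mul_assoc, inv_mul_cancel₀ hN.ne', one_mul]
  exact nsq_card hg

theorem FF_ker {A : Finset (T d L)} {g : T d L → ℂ} (hg : ∀ x, ‖g x‖ ≤ if x ∈ A then 1 else 0)
    (t : ℝ) : ‖FF g t‖ ≤ ∑ x ∈ A, ∑ y ∈ A, ∏ i, ‖pk L t ((x - y) i)‖ := by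
  classical
  unfold FF
  rw [ker_form]
  have h1 : ∀ x y, ‖g x * (starRingEnd ℂ) (g y) * ∏ i, pk L t ((x - y) i)‖ ≤
      if x ∈ A then (if y ∈ A then ∏ i, ‖pk L t ((x - y) i)‖ else 0) else 0 := by
    intro x y
    rw [norm_mul, norm_mul, RCLike.norm_conj, norm_prod]
    have hx := hg x
    have hy := hg y
    have hp : 0 ≤ ∏ i, ‖pk L t ((x - y) i)‖ := Finset.prod_nonneg fun _ _ => norm_nonneg _
    split_ifs at hx hy ⊢
    · exact mul_le_of_le_one_left hp (mul_le_one₀ hx (norm_nonneg _) hy)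
    · have h3 : ‖g y‖ = 0 := le_antisymm hy (norm_nonneg _)
      rw [h3]
      simp
    · have h3 : ‖g x‖ = 0 := le_antisymm hx (norm_nonneg _)
      rw [h3]
      simp
    · have h3 : ‖g x‖ = 0 := le_antisymm hx (norm_nonneg _)
      rw [h3]
      simp
  refine (norm_sum_le _ _).trans ((Finset.sum_le_sum fun x _ => (norm_sum_le _ _).trans
    (Finset.sum_le_sum fun y _ => h1 x y)).trans (le_of_eq ?_))
  rw [← Finset.sum_filter_add_sum_filter_not Finset.univ (fun x => x ∈ A)]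
  have e2 : Finset.univ.filter (fun x => x ∈ A) = A := by
    ext x
    simp
  have e1 : ∑ x ∈ Finset.univ.filter (fun x => ¬ x ∈ A),
      ∑ y, (if x ∈ A then (if y ∈ A then ∏ i, ‖pk L t ((x - y) i)‖ else 0) else 0) = 0 := by
    refine Finset.sum_eq_zero fun x hx => Finset.sum_eq_zero fun y _ => ?_
    rw [if_neg (Finset.mem_filter.1 hx).2]
  rw [e1, add_zero, e2]
  refine Finset.sum_congr rfl fun x hx => ?_
  simp only [hx, if_true]
  rw [Finset.sum_ite_mem, Finset.univ_inter]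

/-- a product is at most the sum of the powers -/
theorem prod_le_pow {y : Fin d → ℝ} (h0 : ∀ i, 0 ≤ y i) (h1 : ∀ i, y i ≤ 1) {m : ℕ} (hd : 0 < d)
    (hm : m ≤ d) : ∏ i, y i ≤ ∑ i, y i ^ m := by
  haveI : Nonempty (Fin d) := ⟨⟨0, hd⟩⟩
  obtain ⟨j, -, hj⟩ := Finset.exists_max_image Finset.univ y Finset.univ_nonempty
  calc ∏ i, y i ≤ ∏ _i : Fin d, y j :=
        Finset.prod_le_prod (fun i _ => h0 i) fun i hi => hj i hi
    _ = y j ^ d := by rw [Finset.prod_const, Finset.card_univ, Fintype.card_fin]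
    _ ≤ y j ^ m := pow_le_pow_of_le_one (h0 j) (h1 j) hm
    _ ≤ ∑ i, y i ^ m := Finset.single_le_sum (fun i _ => pow_nonneg (h0 i) m) (Finset.mem_univ j)

/-- the time integral of the product over a block -/
theorem block_prod {m : ℕ} (hd : 0 < d) (hm : m ≤ d) {s B : ℝ} (hs : 0 ≤ s)
    (hB : ∀ x : ZMod L, ∫ t in s..(2 * s), ‖pk L t x‖ ^ m ≤ B) (z : T d L) :
    ∫ t in s..(2 * s), ∏ i, ‖pk L t (z i)‖ ≤ d * B := by
  have hc : ∀ x : ZMod L, Continuous fun t : ℝ => ‖pk L t x‖ := fun x => (pk_cont x).norm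
  have h1 : ∫ t in s..(2 * s), ∏ i, ‖pk L t (z i)‖ ≤
      ∫ t in s..(2 * s), ∑ i, ‖pk L t (z i)‖ ^ m := by
    refine intervalIntegral.integral_mono_on (by linarith) ?_ ?_ fun t _ => ?_
    · exact (continuous_finset_prod _ fun i _ => hc (z i)).intervalIntegrable _ _
    · exact (continuous_finset_sum _ fun i _ => (hc (z i)).pow m).intervalIntegrable _ _
    · exact prod_le_pow (fun i => norm_nonneg _) (fun i => pk_norm t (z i)) hd hm
  refine h1.trans ?_
  rw [intervalIntegral.integral_finsetSum (f := fun i t => ‖pk L t (z i)‖ ^ m)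
    fun i _ => ((hc (z i)).pow m).intervalIntegrable _ _]
  refine (Finset.sum_le_sum fun i _ => hB (z i)).trans (le_of_eq ?_)
  rw [Finset.sum_const, Finset.card_univ, Fintype.card_fin, nsmul_eq_mul]

/-- the square of the integral over a block -/
theorem block {m : ℕ} (hd : 0 < d) (hm : m ≤ d) {s B : ℝ} (hs : 0 ≤ s)
    (hB : ∀ x : ZMod L, ∫ t in s..(2 * s), ‖pk L t x‖ ^ m ≤ B)
    {A : Finset (T d L)} {g : T d L → ℂ} (hg : ∀ x, ‖g x‖ ≤ if x ∈ A then 1 else 0) {ρ : ℝ}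
    (hρ : 0 < ρ) :
    (∫ t in s..(2 * s), Real.exp (-(ρ * t)) * ‖FF g t‖) ^ 2 ≤
      Real.exp (-(ρ * s)) ^ 2 * (s * (d * B)) * (A.card : ℝ) ^ 3 := by
  have hFc := (FF_cont g).norm
  have hc : Continuous fun t : ℝ => Real.exp (-(ρ * t)) * ‖FF g t‖ :=
    (by fun_prop : Continuous fun t : ℝ => Real.exp (-(ρ * t))).mul hFc
  have hpc : ∀ z : T d L, Continuous fun t : ℝ => ∏ i, ‖pk L t (z i)‖ := fun z =>
    continuous_finset_prod _ fun i _ => (pk_cont (z i)).norm
  have hle : s ≤ 2 * s := by linarith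
  have hexp : ∀ t ∈ Set.Icc s (2 * s), Real.exp (-(ρ * t)) ≤ Real.exp (-(ρ * s)) := fun t ht =>
    Real.exp_le_exp.2 (neg_le_neg (mul_le_mul_of_nonneg_left ht.1 hρ.le))
  have h0 : 0 ≤ ∫ t in s..(2 * s), Real.exp (-(ρ * t)) * ‖FF g t‖ :=
    intervalIntegral.integral_nonneg hle fun t _ => by positivity
  have h1 : ∫ t in s..(2 * s), Real.exp (-(ρ * t)) * ‖FF g t‖ ≤ Real.exp (-(ρ * s)) * (s * A.card) := by
    have e1 : ∫ t in s..(2 * s), Real.exp (-(ρ * t)) * ‖FF g t‖ ≤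
        ∫ _t in s..(2 * s), Real.exp (-(ρ * s)) * A.card := by
      refine intervalIntegral.integral_mono_on hle (hc.intervalIntegrable _ _)
        intervalIntegrable_const fun t ht => ?_
      exact mul_le_mul (hexp t ht) (FF_le hg t) (norm_nonneg _) (Real.exp_pos _).le
    refine e1.trans (le_of_eq ?_)
    rw [intervalIntegral.integral_const, smul_eq_mul]
    ring
  have h2 : ∫ t in s..(2 * s), Real.exp (-(ρ * t)) * ‖FF g t‖ ≤
      Real.exp (-(ρ * s)) * ((A.card : ℝ) ^ 2 * (d * B)) := by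
    have e1 : ∫ t in s..(2 * s), Real.exp (-(ρ * t)) * ‖FF g t‖ ≤
        ∫ t in s..(2 * s), Real.exp (-(ρ * s)) * ∑ x ∈ A, ∑ y ∈ A, ∏ i, ‖pk L t ((x - y) i)‖ := by
      refine intervalIntegral.integral_mono_on hle (hc.intervalIntegrable _ _)
        (Continuous.intervalIntegrable ?_ _ _) fun t ht => ?_
      · exact continuous_const.mul (continuous_finset_sum _ fun x _ =>
          continuous_finset_sum _ fun y _ => hpc (x - y))
      · exact mul_le_mul (hexp t ht) (FF_ker hg t) (norm_nonneg _) (Real.exp_pos _).le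
    refine e1.trans ?_
    rw [intervalIntegral.integral_const_mul]
    apply mul_le_mul_of_nonneg_left _ (Real.exp_pos _).le
    rw [intervalIntegral.integral_finsetSum fun x _ => (continuous_finset_sum _ fun y _ =>
      hpc (x - y)).intervalIntegrable _ _]
    refine (Finset.sum_le_sum (g := fun _ => ∑ _y ∈ A, (d * B)) fun x _ => ?_).trans (le_of_eq ?_)
    · rw [intervalIntegral.integral_finsetSum fun y _ => (hpc (x - y)).intervalIntegrable _ _]
      exact Finset.sum_le_sum fun y _ => block_prod hd hm hs hB (x - y)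
    · rw [Finset.sum_const, Finset.sum_const, nsmul_eq_mul, nsmul_eq_mul]
      ring
  calc (∫ t in s..(2 * s), Real.exp (-(ρ * t)) * ‖FF g t‖) ^ 2
      ≤ (Real.exp (-(ρ * s)) * (s * A.card)) *
        (Real.exp (-(ρ * s)) * ((A.card : ℝ) ^ 2 * (d * B))) := by
        rw [sq]
        exact mul_le_mul h1 h2 h0 (h0.trans h1)
    _ = _ := by ring

theorem exists_scale {δ : ℝ} (hδ : 0 < δ) (hδ2 : δ ≤ 1 / 2) : ∃ I : ℕ,
    (∀ i < I, 64 * (2 : ℝ) ^ i ≤ 1 / δ ^ 2) ∧ 1 / δ ^ 2 ≤ 128 * 2 ^ I ∧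
      (I : ℝ) ≤ 3 * Real.log (1 / δ) := by
  classical
  have hex : ∃ I : ℕ, 1 / δ ^ 2 ≤ 128 * (2 : ℝ) ^ I := by
    obtain ⟨n, hn⟩ := pow_unbounded_of_one_lt (1 / δ ^ 2) (by norm_num : (1 : ℝ) < 2)
    exact ⟨n, by linarith [pow_pos (by norm_num : (0 : ℝ) < 2) n]⟩
  refine ⟨Nat.find hex, fun i hi => ?_, Nat.find_spec hex, ?_⟩
  · set m := Nat.find hex with hm
    have h1 : ¬ 1 / δ ^ 2 ≤ 128 * (2 : ℝ) ^ (m - 1) := Nat.find_min hex (by omega)
    have h2 : (2 : ℝ) ^ i ≤ 2 ^ (m - 1) := pow_le_pow_right₀ (by norm_num) (by omega)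
    have h3 := not_le.1 h1
    have h4 : (0 : ℝ) < 2 ^ i := by positivity
    linarith
  · set m := Nat.find hex with hm
    have hl : 0 ≤ Real.log (1 / δ) := Real.log_nonneg (by
      rw [le_div_iff₀ hδ]
      linarith)
    rcases Nat.eq_zero_or_pos m with h0 | h0
    · rw [h0]
      simp only [Nat.cast_zero]
      linarith
    · have h1 : ¬ 1 / δ ^ 2 ≤ 128 * (2 : ℝ) ^ (m - 1) := Nat.find_min hex (by omega)
      have h2 : (2 : ℝ) ^ m = 2 * 2 ^ (m - 1) := by
        rw [← pow_succ']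
        congr 1
        omega
      have h3 : (2 : ℝ) ^ m ≤ (1 / δ) ^ 2 := by
        have := not_le.1 h1
        have h4 : (0 : ℝ) < 2 ^ (m - 1) := by positivity
        rw [div_pow, one_pow, h2]
        linarith
      have h5 := Real.log_le_log (by positivity) h3
      rw [Real.log_pow, Real.log_pow] at h5
      push_cast at h5
      have h6 := Real.log_two_gt_d9
      have h7 : (0 : ℝ) ≤ m := Nat.cast_nonneg m
      nlinarith

theorem tail_bd {δ ρ : ℝ} (hδ : 0 < δ) (hρδ : δ ≤ ρ) {I : ℕ} (hI2 : 1 / δ ^ 2 ≤ 128 * 2 ^ I) :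
    Real.exp (-(ρ * 2 ^ I)) / ρ ≤ 128 := by
  have hρ : 0 < ρ := hδ.trans_le hρδ
  have e1 : (128 * δ)⁻¹ ≤ ρ * 2 ^ I := by
    have e2 : 1 / δ ^ 2 / 128 ≤ 2 ^ I := by linarith
    have e3 : (128 * δ)⁻¹ = δ * (1 / δ ^ 2 / 128) := by field_simp
    rw [e3]
    exact mul_le_mul hρδ e2 (by positivity) hρ.le
  have e2 : Real.exp (-(ρ * 2 ^ I)) ≤ 128 * δ := by
    rw [Real.exp_neg, inv_le_comm₀ (Real.exp_pos _) (by positivity)]
    exact e1.trans (by linarith [Real.add_one_le_exp (ρ * 2 ^ I)])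
  rw [div_le_iff₀ hρ]
  linarith

/-- the form through Lorentzians -/
theorem qf_le {E δ : ℝ} (hδ : 0 < δ) {A : Finset (T d L)} {g : T d L → ℂ}
    (hg : ∀ x, ‖g x‖ ≤ if x ∈ A then 1 else 0) (J : ℕ) (hJ : 1 ≤ 2 ^ J * δ) :
    qf (J1 E δ) g ≤ 4 * ∑ j ∈ Finset.range (J + 1), (∫ t in Set.Ioi (0 : ℝ),
      Real.exp (-((2 ^ j * δ) * t)) * ‖FF g t‖) + A.card := by
  have hN := Pool.Agent.W788.MFP.Four.NN_pos (d := d) (L := L)
  have h1 : qf (J1 E δ) g = ∑ k, ((NN d L)⁻¹ * ‖fc g k‖ ^ 2) * (JJ E δ k)⁻¹ := by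
    unfold J1
    rw [qf_Mo, Finset.mul_sum]
    exact Finset.sum_congr rfl fun k _ => by ring
  have h2 : ∑ k, (NN d L)⁻¹ * ‖fc g k‖ ^ 2 ≤ A.card := by
    rw [← Finset.mul_sum]
    have h2 : ∑ k, ‖fc g k‖ ^ 2 = NN d L * ∑ x, ‖g x‖ ^ 2 := planchC g
    rw [h2, ← mul_assoc, inv_mul_cancel₀ hN.ne', one_mul]
    exact nsq_card hg
  have h3 : ∀ k : T d L, (JJ E δ k)⁻¹ ≤ 4 * ∑ j ∈ Finset.range (J + 1),
      (2 ^ j * δ) / ((adj k - E) ^ 2 + (2 ^ j * δ) ^ 2) + 1 := fun k => lsum _ δ hδ J hJ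
  rw [h1]
  calc ∑ k, ((NN d L)⁻¹ * ‖fc g k‖ ^ 2) * (JJ E δ k)⁻¹
      ≤ ∑ k, ((NN d L)⁻¹ * ‖fc g k‖ ^ 2) * (4 * ∑ j ∈ Finset.range (J + 1),
        (2 ^ j * δ) / ((adj k - E) ^ 2 + (2 ^ j * δ) ^ 2) + 1) :=
        Finset.sum_le_sum fun k _ => mul_le_mul_of_nonneg_left (h3 k) (by positivity)
    _ = 4 * ∑ j ∈ Finset.range (J + 1), (∑ k, ((NN d L)⁻¹ * ‖fc g k‖ ^ 2) *
        ((2 ^ j * δ) / ((adj k - E) ^ 2 + (2 ^ j * δ) ^ 2))) +
        ∑ k, (NN d L)⁻¹ * ‖fc g k‖ ^ 2 := by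
        rw [Finset.sum_comm, Finset.mul_sum, ← Finset.sum_add_distrib]
        refine Finset.sum_congr rfl fun k _ => ?_
        rw [← Finset.mul_sum]
        ring
    _ ≤ _ := by
        refine add_le_add (mul_le_mul_of_nonneg_left (Finset.sum_le_sum fun j _ => ?_)
          (by norm_num)) h2
        exact lor _ _ E _ (by positivity)

end SETS

open SETS in
theorem set_bd (h : T_PKI) : T_SET := by
  intro d hd
  obtain ⟨C, hC, hP⟩ := h
  set D := Real.sqrt (12 * d * C) with hD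
  have hD2 : D ^ 2 = 12 * d * C := Real.sq_sqrt (by positivity)
  have hD0 : 0 ≤ D := Real.sqrt_nonneg _
  refine ⟨76 * (3 * D + 516) + 8, by positivity, fun L _ E δ hδ hδ2 hL A g hg => ?_⟩
  obtain ⟨I, hI1, hI2, hI3⟩ := exists_scale hδ hδ2
  set l := Real.log (1 / δ) with hl
  have hl2 : 1 / 2 ≤ l := by
    have h1 : Real.log 2 ≤ l := Real.log_le_log (by norm_num) (by
      rw [le_div_iff₀ hδ]
      linarith)
    have := Real.log_two_gt_d9
    linarith
  have hl0 : 0 < l := by linarith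
  have hl4 : 1 / 4 ≤ l ^ 2 := by nlinarith
  have hl5 : l ≤ 2 * l ^ 2 := by nlinarith
  set r : ℝ := if d = 3 then δ ^ (-(1 / 4) : ℝ) else 1 with hr
  have hr1 : 1 ≤ r := by
    simp only [hr]
    split_ifs
    · exact Real.one_le_rpow_of_pos_of_le_one_of_nonpos hδ (by linarith) (by norm_num)
    · exact le_rfl
  have hkd : kd d δ = r * l ^ 3 := rfl
  set a : ℝ := (A.card : ℝ) with ha
  have ha0 : 0 ≤ a := Nat.cast_nonneg _
  have haa : a ≤ a ^ (3 / 2 : ℝ) := by
    rcases Nat.eq_zero_or_pos A.card with h0 | h0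
    · rw [ha, h0]
      simp
    · have h1 : (1 : ℝ) ≤ a := by
        rw [ha]
        exact_mod_cast h0
      calc a = a ^ (1 : ℝ) := (Real.rpow_one a).symm
        _ ≤ a ^ (3 / 2 : ℝ) := Real.rpow_le_rpow_of_exponent_le h1 (by norm_num)
  have ha3 : (a ^ (3 / 2 : ℝ)) ^ 2 = a ^ 3 := by
    rw [← Real.rpow_natCast, ← Real.rpow_mul ha0, ← Real.rpow_natCast]
    norm_num
  have hFa : ∀ t, ‖FF g t‖ ≤ a := FF_le hg
  have hrd : d = 3 → r = δ ^ (-(1 / 4) : ℝ) := fun h3 => by rw [hr, if_pos h3]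
  clear_value a r D l
  -- one scale
  have key : ∀ ρ : ℝ, δ ≤ ρ → ∫ t in Set.Ioi (0 : ℝ), Real.exp (-(ρ * t)) * ‖FF g t‖ ≤
      (3 * D + 516) * (r * l ^ 2) * a ^ (3 / 2 : ℝ) := by
    intro ρ hρδ
    have hρ : 0 < ρ := hδ.trans_le hρδ
    set β := D * r * l * a ^ (3 / 2 : ℝ) with hβ
    have hβ0 : 0 ≤ β := by positivity
    have hblock : ∀ i < I, ∫ t in (2 ^ i : ℝ)..(2 * 2 ^ i), Real.exp (-(ρ * t)) * ‖FF g t‖ ≤ β := by
      intro i hi
      set s : ℝ := 2 ^ i with hs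
      have hs1 : 1 ≤ s := one_le_pow₀ (by norm_num)
      have hs0 : 0 < s := by positivity
      have hsδ : 64 * s ≤ 1 / δ ^ 2 := hI1 i hi
      have hsL : 64 * s ≤ L := hsδ.trans hL
      have hlog : Real.log s ≤ 2 * l := by
        have h1 : s ≤ (1 / δ) ^ 2 := by
          rw [div_pow, one_pow]
          linarith
        have h2 := Real.log_le_log hs0 h1
        have h3 : Real.log ((1 / δ) ^ 2) = 2 * l := by
          rw [Real.log_pow, hl]
          norm_num
        rw [h3] at h2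
        exact h2
      have hlog0 : 0 ≤ Real.log s := Real.log_nonneg hs1
      have hPP := fun x : ZMod L => hP L s x hs1 hsL
      clear_value s
      refine le_of_sq_le_sq ?_ hβ0
      have hβ2 : β ^ 2 = 12 * d * C * r ^ 2 * l ^ 2 * a ^ 3 := by
        rw [hβ, mul_pow, mul_pow, mul_pow, ha3, hD2]
      rw [hβ2]
      have hexp1 : Real.exp (-(ρ * s)) ≤ 1 := by
        rw [Real.exp_le_one_iff]
        have := mul_pos hρ hs0
        linarith
      by_cases h3 : d = 3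
      · have hb := block (m := 3) (by omega) (by omega) hs0.le (fun x => (hPP x).1) hg hρ
        rw [← ha] at hb
        refine hb.trans (mul_le_mul_of_nonneg_right ?_ (pow_nonneg ha0 3))
        have hr2 : r ^ 2 = 1 / Real.sqrt δ := by
          rw [hrd h3]
          rw [eq_div_iff (Real.sqrt_pos.2 hδ).ne', Real.sqrt_eq_rpow, ← Real.rpow_natCast,
            ← Real.rpow_mul hδ.le, ← Real.rpow_add hδ]
          norm_num
        have e1 : Real.exp (-(ρ * s)) ^ 2 * Real.sqrt s ≤ r ^ 2 := by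
          have e2 : Real.exp (-(ρ * s)) ≤ Real.exp (-(δ * s)) :=
            Real.exp_le_exp.2 (neg_le_neg (mul_le_mul_of_nonneg_right hρδ hs0.le))
          have e3 : Real.sqrt (δ * s) ≤ Real.exp (δ * s) := by
            have e4 : Real.sqrt (δ * s) ≤ 1 + δ * s := by
              rw [Real.sqrt_le_left (by positivity)]
              nlinarith [mul_pos hδ hs0]
            have e5 := Real.add_one_le_exp (δ * s)
            linarith
          have hsq := Real.sqrt_pos.2 hδ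
          rw [hr2, le_div_iff₀ hsq]
          calc Real.exp (-(ρ * s)) ^ 2 * Real.sqrt s * Real.sqrt δ
              = Real.exp (-(ρ * s)) * Real.exp (-(ρ * s)) * Real.sqrt (δ * s) := by
                rw [Real.sqrt_mul hδ.le]
                ring
            _ ≤ 1 * Real.exp (-(δ * s)) * Real.exp (δ * s) := by gcongr
            _ = 1 := by rw [one_mul, ← Real.exp_add]; simp
        have e2 : s * (d * (C / Real.sqrt s)) = d * C * Real.sqrt s := by
          have h4 := Real.sqrt_pos.2 hs0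
          have h5 := Real.mul_self_sqrt hs0.le
          field_simp
          rw [sq]
          linarith
        rw [e2]
        have e3 : 1 ≤ 12 * l ^ 2 := by linarith
        have e4 : 0 ≤ d * C * r ^ 2 := by positivity
        calc Real.exp (-(ρ * s)) ^ 2 * (d * C * Real.sqrt s)
            = d * C * (Real.exp (-(ρ * s)) ^ 2 * Real.sqrt s) := by ring
          _ ≤ d * C * r ^ 2 := by gcongr
          _ ≤ d * C * r ^ 2 * (12 * l ^ 2) := le_mul_of_one_le_right e4 e3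
          _ = _ := by ring
      · have hb := block (m := 4) (by omega) (by omega) hs0.le (fun x => (hPP x).2) hg hρ
        rw [← ha] at hb
        refine hb.trans (mul_le_mul_of_nonneg_right ?_ (pow_nonneg ha0 3))
        have e2 : s * (d * (C * (1 + Real.log s) / s)) = d * C * (1 + Real.log s) := by
          field_simp
        rw [e2]
        have e3 : 1 + Real.log s ≤ 12 * r ^ 2 * l ^ 2 := by
          have e4 : (1 : ℝ) ≤ r ^ 2 := one_le_pow₀ hr1
          have e5 : 1 + Real.log s ≤ 12 * l ^ 2 := by linarith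
          have e6 : 12 * l ^ 2 ≤ 12 * l ^ 2 * r ^ 2 := le_mul_of_one_le_right (by positivity) e4
          linarith
        have e4 : Real.exp (-(ρ * s)) ^ 2 ≤ 1 := pow_le_one₀ (Real.exp_pos _).le hexp1
        calc Real.exp (-(ρ * s)) ^ 2 * (d * C * (1 + Real.log s))
            ≤ 1 * (d * C * (12 * r ^ 2 * l ^ 2)) := by gcongr
          _ = _ := by ring
    have hFc := (FF_cont g).norm
    have hsp := split (h := fun t => Real.exp (-(ρ * t)) * ‖FF g t‖) (a := a) (ρ := ρ) (β := β)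
      ((by fun_prop : Continuous fun t : ℝ => Real.exp (-(ρ * t))).mul hFc)
      (fun t => by positivity) ha0 hρ (fun t _ => by
        rw [mul_comm]
        exact mul_le_mul_of_nonneg_right (hFa t) (Real.exp_pos _).le) I hblock
    have htail := tail_bd hδ hρδ hI2
    have e1 : a * (Real.exp (-(ρ * 2 ^ I)) / ρ) ≤ a * 128 := mul_le_mul_of_nonneg_left htail ha0
    have e2 : (I : ℝ) * β ≤ 3 * l * β := mul_le_mul_of_nonneg_right hI3 hβ0
    have e3 : 1 ≤ 4 * (r * l ^ 2) := by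
      have h1 : (1 : ℝ) ≤ 4 * l ^ 2 := by linarith
      have h2 : 4 * l ^ 2 ≤ 4 * l ^ 2 * r := le_mul_of_one_le_right (by positivity) hr1
      linarith
    have e4 : 129 * a ≤ 516 * (r * l ^ 2) * a ^ (3 / 2 : ℝ) := by
      calc 129 * a ≤ 129 * a ^ (3 / 2 : ℝ) := by linarith
        _ ≤ 129 * a ^ (3 / 2 : ℝ) * (4 * (r * l ^ 2)) :=
          le_mul_of_one_le_right (by positivity) e3
        _ = _ := by ring
    calc ∫ t in Set.Ioi (0 : ℝ), Real.exp (-(ρ * t)) * ‖FF g t‖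
        ≤ a + I * β + a * (Real.exp (-(ρ * 2 ^ I)) / ρ) := hsp
      _ ≤ a + 3 * l * β + a * 128 := by linarith
      _ = 129 * a + 3 * D * (r * l ^ 2) * a ^ (3 / 2 : ℝ) := by rw [hβ]; ring
      _ ≤ 516 * (r * l ^ 2) * a ^ (3 / 2 : ℝ) + 3 * D * (r * l ^ 2) * a ^ (3 / 2 : ℝ) := by linarith
      _ = _ := by ring
  -- all scales
  have hJ : 1 ≤ 2 ^ (I + 7) * δ := by
    have h1 : 1 / δ ^ 2 ≤ 2 ^ (I + 7) := by
      rw [pow_add]
      linarith
    have h2 : 1 / δ ^ 2 * δ ≤ 2 ^ (I + 7) * δ := mul_le_mul_of_nonneg_right h1 hδ.le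
    have h3 : 1 / δ ^ 2 * δ = 1 / δ := by field_simp
    have h4 : 1 ≤ 1 / δ := by
      rw [le_div_iff₀ hδ]
      linarith
    linarith
  have hq := qf_le (E := E) hδ hg (I + 7) hJ
  rw [← ha] at hq
  have hsum : ∑ j ∈ Finset.range (I + 7 + 1), (∫ t in Set.Ioi (0 : ℝ),
      Real.exp (-((2 ^ j * δ) * t)) * ‖FF g t‖) ≤
      (I + 8 : ℝ) * ((3 * D + 516) * (r * l ^ 2) * a ^ (3 / 2 : ℝ)) := by
    refine (Finset.sum_le_sum fun j _ => key (2 ^ j * δ) ?_).trans (le_of_eq ?_)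
    · exact le_mul_of_one_le_left hδ.le (one_le_pow₀ (by norm_num))
    · rw [Finset.sum_const, Finset.card_range, nsmul_eq_mul]
      push_cast
      ring
  have hX0 : 0 ≤ (3 * D + 516) * (r * l ^ 2) * a ^ (3 / 2 : ℝ) := by positivity
  have e1 : (I + 8 : ℝ) ≤ 19 * l := by linarith
  have e2 : 1 ≤ 8 * (r * l ^ 3) := by
    have h1 : (1 / 2 : ℝ) ^ 3 ≤ l ^ 3 := pow_le_pow_left₀ (by norm_num) hl2 3
    have h2 : (1 : ℝ) ≤ 8 * l ^ 3 := by linarith
    have h3 : 8 * l ^ 3 ≤ 8 * l ^ 3 * r := le_mul_of_one_le_right (by positivity) hr1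
    linarith
  rw [hkd]
  calc qf (J1 E δ) g ≤ 4 * ∑ j ∈ Finset.range (I + 7 + 1), (∫ t in Set.Ioi (0 : ℝ),
      Real.exp (-((2 ^ j * δ) * t)) * ‖FF g t‖) + a := hq
    _ ≤ 4 * ((I + 8 : ℝ) * ((3 * D + 516) * (r * l ^ 2) * a ^ (3 / 2 : ℝ))) + a ^ (3 / 2 : ℝ) := by
        linarith
    _ ≤ 4 * (19 * l * ((3 * D + 516) * (r * l ^ 2) * a ^ (3 / 2 : ℝ))) +
        a ^ (3 / 2 : ℝ) * (8 * (r * l ^ 3)) := by
        have := mul_le_mul_of_nonneg_right e1 hX0
        have := le_mul_of_one_le_right (by positivity : 0 ≤ a ^ (3 / 2 : ℝ)) e2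
        linarith
    _ = _ := by ring

end Pool.Agent.T2h98.QD
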