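import Pool.Agent.T2h98.QD.Stm12
import Pool.Agent.T2h98.QD.SetB
import Pool.Agent.T2h98.QD.Emb

/-! The embedding on small tori (EMB3). -/

set_option autoImplicit false
set_option linter.unusedSectionVars false

open scoped BigOperators Matrix Topology
open MeasureTheory ProbabilityTheory Filter

namespace Pool.Agent.T2h98.QD

open Pool.Agent.W788.MFP.Four (T e NN adj K)
open Pool.Agent.W788.BK (nsq hs PP JJ hi Low cr)

/-- the embedding on sets, small tori -/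
def T_SET3 : Prop := ∀ d : ℕ, 3 ≤ d → ∀ θ : ℝ, 0 < θ → θ ≤ 1 → ∃ C : ℝ, 0 < C ∧
  ∀ (L : ℕ) [NeZero L] (E δ : ℝ), 0 < δ →
  δ ≤ 1 / 2 → (1 / δ) ^ (1 + θ) ≤ L → ∀ (A : Finset (T d L)) (g : T d L → ℂ),
  (∀ x, ‖g x‖ ≤ if x ∈ A then 1 else 0) →
  qf (J1 E δ) g ≤ C * kd d δ * (A.card : ℝ) ^ (3 / 2 : ℝ)

namespace SETS3

theorem exists_scale3 {δ M : ℝ} (hδ : 0 < δ) (hδ2 : δ ≤ 1 / 2) (hM : M ≤ (1 / δ) ^ 2) : ∃ I : ℕ,
    (∀ i < I, 64 * (2 : ℝ) ^ i ≤ M) ∧ M ≤ 128 * 2 ^ I ∧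
      (I : ℝ) ≤ 3 * Real.log (1 / δ) := by
  classical
  have hex : ∃ I : ℕ, M ≤ 128 * (2 : ℝ) ^ I := by
    obtain ⟨n, hn⟩ := pow_unbounded_of_one_lt M (by norm_num : (1 : ℝ) < 2)
    exact ⟨n, by linarith [pow_pos (by norm_num : (0 : ℝ) < 2) n]⟩
  refine ⟨Nat.find hex, fun i hi => ?_, Nat.find_spec hex, ?_⟩
  · set m := Nat.find hex with hm
    have h1 : ¬ M ≤ 128 * (2 : ℝ) ^ (m - 1) := Nat.find_min hex (by omega)
    have h2 : (2 : ℝ) ^ i ≤ 2 ^ (m - 1) := pow_le_pow_right₀ (by norm_num) (by omega)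
    have h3 := not_le.1 h1
    have h4 : (0 : ℝ) < 2 ^ i := by positivity
    linarith
  · set m := Nat.find hex with hm
    have hl : 0 ≤ Real.log (1 / δ) := Real.log_nonneg (by
      rw [le_div_iff₀ hδ]
      linarith)
    rcases Nat.eq_zero_or_pos m with h0 | h0
    · rw [h0]
      simp only [Nat.cast_zero]
      linarith
    · have h1 : ¬ M ≤ 128 * (2 : ℝ) ^ (m - 1) := Nat.find_min hex (by omega)
      have h2 : (2 : ℝ) ^ m = 2 * 2 ^ (m - 1) := by
        rw [← pow_succ']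
        congr 1
        omega
      have h3 : (2 : ℝ) ^ m ≤ (1 / δ) ^ 2 := by
        have := not_le.1 h1
        have h4 : (0 : ℝ) < 2 ^ (m - 1) := by positivity
        rw [h2]
        linarith
      have h5 := Real.log_le_log (by positivity) h3
      rw [Real.log_pow, Real.log_pow] at h5
      push_cast at h5
      have h6 := Real.log_two_gt_d9
      have h7 : (0 : ℝ) ≤ m := Nat.cast_nonneg m
      nlinarith

theorem tail_bd3 {δ ρ θ : ℝ} (hδ : 0 < δ) (hδ2 : δ ≤ 1 / 2) (hθ : 0 < θ) (hρδ : δ ≤ ρ) {I : ℕ}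
    (hI2 : (1 / δ) ^ (1 + θ) ≤ 128 * 2 ^ I) :
    Real.exp (-(ρ * 2 ^ I)) / ρ ≤ 128 ^ ⌈1 / θ⌉₊ * (⌈1 / θ⌉₊).factorial := by
  have hρ : 0 < ρ := hδ.trans_le hρδ
  set n := ⌈1 / θ⌉₊ with hn
  have h1δ : 1 ≤ 1 / δ := by
    rw [le_div_iff₀ hδ]
    linarith
  have h0δ : 0 < 1 / δ := by positivity
  set v : ℝ := (1 / δ) ^ θ / 128 with hv
  have hv0 : 0 < v := by positivity
  have e1 : v ≤ ρ * 2 ^ I := by
    have e2 : (1 / δ) ^ (1 + θ) / 128 ≤ 2 ^ I := by linarith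
    have e3 : v = δ * ((1 / δ) ^ (1 + θ) / 128) := by
      rw [Real.rpow_add h0δ, Real.rpow_one, hv]
      field_simp
    rw [e3]
    exact mul_le_mul hρδ e2 (by positivity) hρ.le
  have e4 : 1 / δ ≤ 128 ^ n * n.factorial * Real.exp v := by
    have h3 : v ^ n / n.factorial ≤ Real.exp v := Real.pow_div_factorial_le_exp v hv0.le n
    have h4 : 1 / δ ≤ ((1 / δ) ^ θ) ^ n := by
      rw [← Real.rpow_natCast, ← Real.rpow_mul h0δ.le]
      calc 1 / δ = (1 / δ) ^ (1 : ℝ) := (Real.rpow_one _).symm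
        _ ≤ _ := Real.rpow_le_rpow_of_exponent_le h1δ (by
          have := Nat.le_ceil (1 / θ)
          rw [div_le_iff₀ hθ] at this
          rw [hn]
          linarith)
    have h5 : ((1 / δ) ^ θ) ^ n = 128 ^ n * v ^ n := by
      rw [← mul_pow]
      congr 1
      rw [hv]
      ring
    have hf : (0 : ℝ) < n.factorial := by exact_mod_cast Nat.factorial_pos n
    rw [div_le_iff₀ hf] at h3
    calc 1 / δ ≤ 128 ^ n * v ^ n := by rw [← h5]; exact h4
      _ ≤ 128 ^ n * (Real.exp v * n.factorial) := by gcongr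
      _ = _ := by ring
  have e5 : Real.exp (-(ρ * 2 ^ I)) ≤ Real.exp (-v) := Real.exp_le_exp.2 (neg_le_neg e1)
  rw [div_le_iff₀ hρ]
  have hc0 : (0 : ℝ) ≤ 128 ^ n * n.factorial := by positivity
  have e6 : Real.exp (-v) ≤ 128 ^ n * n.factorial * δ := by
    rw [div_le_iff₀ hδ] at e4
    have e7 : Real.exp (-v) * 1 ≤ Real.exp (-v) * (128 ^ n * n.factorial * Real.exp v * δ) :=
      mul_le_mul_of_nonneg_left e4 (Real.exp_pos _).le
    have e8 : Real.exp (-v) * Real.exp v = 1 := by rw [← Real.exp_add]; simp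
    calc Real.exp (-v) = Real.exp (-v) * 1 := (mul_one _).symm
      _ ≤ _ := e7
      _ = (Real.exp (-v) * Real.exp v) * (128 ^ n * n.factorial * δ) := by ring
      _ = _ := by rw [e8, one_mul]
  exact e5.trans (e6.trans (mul_le_mul_of_nonneg_left hρδ hc0))

end SETS3

open SETS SETS3 in
theorem set_bd3 (h : T_PKI) : T_SET3 := by
  intro d hd θ hθ hθ1
  obtain ⟨C, hC, hP⟩ := h
  set D := Real.sqrt (12 * d * C) with hD
  have hD2 : D ^ 2 = 12 * d * C := Real.sq_sqrt (by positivity)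
  have hD0 : 0 ≤ D := Real.sqrt_nonneg _
  set R : ℝ := 128 ^ ⌈1 / θ⌉₊ * (⌈1 / θ⌉₊).factorial with hR
  have hR0 : 0 < R := by positivity
  refine ⟨76 * (3 * D + 4 * (1 + R)) + 8, by positivity, fun L _ E δ hδ hδ2 hL A g hg => ?_⟩
  have hM2 : (1 / δ) ^ (1 + θ) ≤ (1 / δ) ^ 2 := by
    have h1 : 1 ≤ 1 / δ := by
      rw [le_div_iff₀ hδ]
      linarith
    calc (1 / δ) ^ (1 + θ) ≤ (1 / δ) ^ (2 : ℝ) :=
          Real.rpow_le_rpow_of_exponent_le h1 (by linarith)
      _ = _ := by rw [← Real.rpow_natCast]; norm_num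
  obtain ⟨I, hI1, hI2, hI3⟩ := exists_scale3 hδ hδ2 hM2
  set l := Real.log (1 / δ) with hl
  have hl2 : 1 / 2 ≤ l := by
    have h1 : Real.log 2 ≤ l := Real.log_le_log (by norm_num) (by
      rw [le_div_iff₀ hδ]
      linarith)
    have := Real.log_two_gt_d9
    linarith
  have hl0 : 0 < l := by linarith
  have hl4 : 1 / 4 ≤ l ^ 2 := by nlinarith
  have hl5 : l ≤ 2 * l ^ 2 := by nlinarith
  set r : ℝ := if d = 3 then δ ^ (-(1 / 4) : ℝ) else 1 with hr
  have hr1 : 1 ≤ r := by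
    simp only [hr]
    split_ifs
    · exact Real.one_le_rpow_of_pos_of_le_one_of_nonpos hδ (by linarith) (by norm_num)
    · exact le_rfl
  have hkd : kd d δ = r * l ^ 3 := rfl
  set a : ℝ := (A.card : ℝ) with ha
  have ha0 : 0 ≤ a := Nat.cast_nonneg _
  have haa : a ≤ a ^ (3 / 2 : ℝ) := by
    rcases Nat.eq_zero_or_pos A.card with h0 | h0
    · rw [ha, h0]
      simp
    · have h1 : (1 : ℝ) ≤ a := by
        rw [ha]
        exact_mod_cast h0
      calc a = a ^ (1 : ℝ) := (Real.rpow_one a).symm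
        _ ≤ a ^ (3 / 2 : ℝ) := Real.rpow_le_rpow_of_exponent_le h1 (by norm_num)
  have ha3 : (a ^ (3 / 2 : ℝ)) ^ 2 = a ^ 3 := by
    rw [← Real.rpow_natCast, ← Real.rpow_mul ha0, ← Real.rpow_natCast]
    norm_num
  have hFa : ∀ t, ‖SETS.FF g t‖ ≤ a := SETS.FF_le hg
  have hrd : d = 3 → r = δ ^ (-(1 / 4) : ℝ) := fun h3 => by rw [hr, if_pos h3]
  have htl : ∀ ρ : ℝ, δ ≤ ρ → Real.exp (-(ρ * 2 ^ I)) / ρ ≤ R := fun ρ hρ =>
    tail_bd3 hδ hδ2 hθ hρ hI2
  clear_value a r D l R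
  -- one scale
  have key : ∀ ρ : ℝ, δ ≤ ρ → ∫ t in Set.Ioi (0 : ℝ), Real.exp (-(ρ * t)) * ‖SETS.FF g t‖ ≤
      (3 * D + (4 * (1 + R))) * (r * l ^ 2) * a ^ (3 / 2 : ℝ) := by
    intro ρ hρδ
    have hρ : 0 < ρ := hδ.trans_le hρδ
    set β := D * r * l * a ^ (3 / 2 : ℝ) with hβ
    have hβ0 : 0 ≤ β := by positivity
    have hblock : ∀ i < I, ∫ t in (2 ^ i : ℝ)..(2 * 2 ^ i), Real.exp (-(ρ * t)) * ‖SETS.FF g t‖ ≤ β := by
      intro i hi
      set s : ℝ := 2 ^ i with hs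
      have hs1 : 1 ≤ s := one_le_pow₀ (by norm_num)
      have hs0 : 0 < s := by positivity
      have hsδ : 64 * s ≤ (1 / δ) ^ (1 + θ) := hI1 i hi
      have hsL : 64 * s ≤ L := hsδ.trans hL
      have hlog : Real.log s ≤ 2 * l := by
        have h1 : s ≤ (1 / δ) ^ 2 := by linarith
        have h2 := Real.log_le_log hs0 h1
        have h3 : Real.log ((1 / δ) ^ 2) = 2 * l := by
          rw [Real.log_pow, hl]
          norm_num
        rw [h3] at h2
        exact h2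
      have hlog0 : 0 ≤ Real.log s := Real.log_nonneg hs1
      have hPP := fun x : ZMod L => hP L s x hs1 hsL
      clear_value s
      refine le_of_sq_le_sq ?_ hβ0
      have hβ2 : β ^ 2 = 12 * d * C * r ^ 2 * l ^ 2 * a ^ 3 := by
        rw [hβ, mul_pow, mul_pow, mul_pow, ha3, hD2]
      rw [hβ2]
      have hexp1 : Real.exp (-(ρ * s)) ≤ 1 := by
        rw [Real.exp_le_one_iff]
        have := mul_pos hρ hs0
        linarith
      by_cases h3 : d = 3
      · have hb := block (m := 3) (by omega) (by omega) hs0.le (fun x => (hPP x).1) hg hρ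
        rw [← ha] at hb
        refine hb.trans (mul_le_mul_of_nonneg_right ?_ (pow_nonneg ha0 3))
        have hr2 : r ^ 2 = 1 / Real.sqrt δ := by
          rw [hrd h3]
          rw [eq_div_iff (Real.sqrt_pos.2 hδ).ne', Real.sqrt_eq_rpow, ← Real.rpow_natCast,
            ← Real.rpow_mul hδ.le, ← Real.rpow_add hδ]
          norm_num
        have e1 : Real.exp (-(ρ * s)) ^ 2 * Real.sqrt s ≤ r ^ 2 := by
          have e2 : Real.exp (-(ρ * s)) ≤ Real.exp (-(δ * s)) :=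
            Real.exp_le_exp.2 (neg_le_neg (mul_le_mul_of_nonneg_right hρδ hs0.le))
          have e3 : Real.sqrt (δ * s) ≤ Real.exp (δ * s) := by
            have e4 : Real.sqrt (δ * s) ≤ 1 + δ * s := by
              rw [Real.sqrt_le_left (by positivity)]
              nlinarith [mul_pos hδ hs0]
            have e5 := Real.add_one_le_exp (δ * s)
            linarith
          have hsq := Real.sqrt_pos.2 hδ
          rw [hr2, le_div_iff₀ hsq]
          calc Real.exp (-(ρ * s)) ^ 2 * Real.sqrt s * Real.sqrt δ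
              = Real.exp (-(ρ * s)) * Real.exp (-(ρ * s)) * Real.sqrt (δ * s) := by
                rw [Real.sqrt_mul hδ.le]
                ring
            _ ≤ 1 * Real.exp (-(δ * s)) * Real.exp (δ * s) := by gcongr
            _ = 1 := by rw [one_mul, ← Real.exp_add]; simp
        have e2 : s * (d * (C / Real.sqrt s)) = d * C * Real.sqrt s := by
          have h4 := Real.sqrt_pos.2 hs0
          have h5 := Real.mul_self_sqrt hs0.le
          field_simp
          rw [sq]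
          linarith
        rw [e2]
        have e3 : 1 ≤ 12 * l ^ 2 := by linarith
        have e4 : 0 ≤ d * C * r ^ 2 := by positivity
        calc Real.exp (-(ρ * s)) ^ 2 * (d * C * Real.sqrt s)
            = d * C * (Real.exp (-(ρ * s)) ^ 2 * Real.sqrt s) := by ring
          _ ≤ d * C * r ^ 2 := by gcongr
          _ ≤ d * C * r ^ 2 * (12 * l ^ 2) := le_mul_of_one_le_right e4 e3
          _ = _ := by ring
      · have hb := block (m := 4) (by omega) (by omega) hs0.le (fun x => (hPP x).2) hg hρ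
        rw [← ha] at hb
        refine hb.trans (mul_le_mul_of_nonneg_right ?_ (pow_nonneg ha0 3))
        have e2 : s * (d * (C * (1 + Real.log s) / s)) = d * C * (1 + Real.log s) := by
          field_simp
        rw [e2]
        have e3 : 1 + Real.log s ≤ 12 * r ^ 2 * l ^ 2 := by
          have e4 : (1 : ℝ) ≤ r ^ 2 := one_le_pow₀ hr1
          have e5 : 1 + Real.log s ≤ 12 * l ^ 2 := by linarith
          have e6 : 12 * l ^ 2 ≤ 12 * l ^ 2 * r ^ 2 := le_mul_of_one_le_right (by positivity) e4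
          linarith
        have e4 : Real.exp (-(ρ * s)) ^ 2 ≤ 1 := pow_le_one₀ (Real.exp_pos _).le hexp1
        calc Real.exp (-(ρ * s)) ^ 2 * (d * C * (1 + Real.log s))
            ≤ 1 * (d * C * (12 * r ^ 2 * l ^ 2)) := by gcongr
          _ = _ := by ring
    have hFc := (SETS.FF_cont g).norm
    have hsp := split (h := fun t => Real.exp (-(ρ * t)) * ‖SETS.FF g t‖) (a := a) (ρ := ρ) (β := β)
      ((by fun_prop : Continuous fun t : ℝ => Real.exp (-(ρ * t))).mul hFc)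
      (fun t => by positivity) ha0 hρ (fun t _ => by
        rw [mul_comm]
        exact mul_le_mul_of_nonneg_right (hFa t) (Real.exp_pos _).le) I hblock
    have htail := htl ρ hρδ
    have e1 : a * (Real.exp (-(ρ * 2 ^ I)) / ρ) ≤ a * R := mul_le_mul_of_nonneg_left htail ha0
    have e2 : (I : ℝ) * β ≤ 3 * l * β := mul_le_mul_of_nonneg_right hI3 hβ0
    have e3 : 1 ≤ 4 * (r * l ^ 2) := by
      have h1 : (1 : ℝ) ≤ 4 * l ^ 2 := by linarith
      have h2 : 4 * l ^ 2 ≤ 4 * l ^ 2 * r := le_mul_of_one_le_right (by positivity) hr1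
      linarith
    have e4 : (1 + R) * a ≤ (4 * (1 + R)) * (r * l ^ 2) * a ^ (3 / 2 : ℝ) := by
      calc (1 + R) * a ≤ (1 + R) * a ^ (3 / 2 : ℝ) := mul_le_mul_of_nonneg_left haa (by linarith)
        _ ≤ (1 + R) * a ^ (3 / 2 : ℝ) * (4 * (r * l ^ 2)) :=
          le_mul_of_one_le_right (by positivity) e3
        _ = _ := by ring
    calc ∫ t in Set.Ioi (0 : ℝ), Real.exp (-(ρ * t)) * ‖SETS.FF g t‖
        ≤ a + I * β + a * (Real.exp (-(ρ * 2 ^ I)) / ρ) := hsp
      _ ≤ a + 3 * l * β + a * R := by linarith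
      _ = (1 + R) * a + 3 * D * (r * l ^ 2) * a ^ (3 / 2 : ℝ) := by rw [hβ]; ring
      _ ≤ (4 * (1 + R)) * (r * l ^ 2) * a ^ (3 / 2 : ℝ) + 3 * D * (r * l ^ 2) * a ^ (3 / 2 : ℝ) := by linarith
      _ = _ := by ring
  -- all scales
  have hJ : 1 ≤ 2 ^ (I + 7) * δ := by
    have h4 : 1 ≤ 1 / δ := by
      rw [le_div_iff₀ hδ]
      linarith
    have h0 : 1 / δ ≤ (1 / δ) ^ (1 + θ) := by
      calc 1 / δ = (1 / δ) ^ (1 : ℝ) := (Real.rpow_one _).symm
        _ ≤ _ := Real.rpow_le_rpow_of_exponent_le h4 (by linarith)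
    have h1 : 1 / δ ≤ 2 ^ (I + 7) := by
      rw [pow_add]
      linarith
    have h2 : 1 / δ * δ ≤ 2 ^ (I + 7) * δ := mul_le_mul_of_nonneg_right h1 hδ.le
    have h3 : 1 / δ * δ = 1 := by field_simp
    linarith
  have hq := qf_le (E := E) hδ hg (I + 7) hJ
  rw [← ha] at hq
  have hsum : ∑ j ∈ Finset.range (I + 7 + 1), (∫ t in Set.Ioi (0 : ℝ),
      Real.exp (-((2 ^ j * δ) * t)) * ‖SETS.FF g t‖) ≤
      (I + 8 : ℝ) * ((3 * D + (4 * (1 + R))) * (r * l ^ 2) * a ^ (3 / 2 : ℝ)) := by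
    refine (Finset.sum_le_sum fun j _ => key (2 ^ j * δ) ?_).trans (le_of_eq ?_)
    · exact le_mul_of_one_le_left hδ.le (one_le_pow₀ (by norm_num))
    · rw [Finset.sum_const, Finset.card_range, nsmul_eq_mul]
      push_cast
      ring
  have hX0 : 0 ≤ (3 * D + (4 * (1 + R))) * (r * l ^ 2) * a ^ (3 / 2 : ℝ) := by positivity
  have e1 : (I + 8 : ℝ) ≤ 19 * l := by linarith
  have e2 : 1 ≤ 8 * (r * l ^ 3) := by
    have h1 : (1 / 2 : ℝ) ^ 3 ≤ l ^ 3 := pow_le_pow_left₀ (by norm_num) hl2 3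
    have h2 : (1 : ℝ) ≤ 8 * l ^ 3 := by linarith
    have h3 : 8 * l ^ 3 ≤ 8 * l ^ 3 * r := le_mul_of_one_le_right (by positivity) hr1
    linarith
  rw [hkd]
  calc qf (J1 E δ) g ≤ 4 * ∑ j ∈ Finset.range (I + 7 + 1), (∫ t in Set.Ioi (0 : ℝ),
      Real.exp (-((2 ^ j * δ) * t)) * ‖SETS.FF g t‖) + a := hq
    _ ≤ 4 * ((I + 8 : ℝ) * ((3 * D + (4 * (1 + R))) * (r * l ^ 2) * a ^ (3 / 2 : ℝ))) + a ^ (3 / 2 : ℝ) := by
        linarith
    _ ≤ 4 * (19 * l * ((3 * D + (4 * (1 + R))) * (r * l ^ 2) * a ^ (3 / 2 : ℝ))) +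
        a ^ (3 / 2 : ℝ) * (8 * (r * l ^ 3)) := by
        have := mul_le_mul_of_nonneg_right e1 hX0
        have := le_mul_of_one_le_right (by positivity : 0 ≤ a ^ (3 / 2 : ℝ)) e2
        linarith
    _ = _ := by ring

open KQ KERS EMBS in
theorem emb_set3 (h : T_SET3) : T_EMB3 := by
  intro d hd θ0 hθ0
  set θ := min θ0 1 with hθd
  have hθ : 0 < θ := lt_min hθ0 one_pos
  obtain ⟨C, hC, hS⟩ := h d hd θ hθ (min_le_right _ _)
  refine ⟨48 * C ^ 2 + 16 * C, by positivity, fun L _ E δ hδ hδ2 hL0 a b => ?_⟩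
  have hL : (1 / δ) ^ (1 + θ) ≤ L := by
    have h1 : 1 ≤ 1 / δ := by
      rw [le_div_iff₀ hδ]
      linarith
    exact (Real.rpow_le_rpow_of_exponent_le h1 (by
      have := min_le_left θ0 1
      rw [← hθd] at this
      linarith)).trans hL0
  set l := Real.log (1 / δ) with hl
  have hl2 : 1 / 2 ≤ l := by
    have h1 : Real.log 2 ≤ l := Real.log_le_log (by norm_num) (by
      rw [le_div_iff₀ hδ]
      linarith)
    have := Real.log_two_gt_d9
    linarith
  have hl0 : 0 < l := by linarith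
  set r : ℝ := if d = 3 then δ ^ (-(1 / 4) : ℝ) else 1 with hr
  have hr1 : 1 ≤ r := by
    simp only [hr]
    split_ifs
    · exact Real.one_le_rpow_of_pos_of_le_one_of_nonpos hδ (by linarith) (by norm_num)
    · exact le_rfl
  have hkd : kd d δ = r * l ^ 3 := rfl
  have hke : ke d δ = r ^ 2 * l ^ 7 := by
    unfold ke
    congr 1
    simp only [hr]
    split_ifs
    · rw [← Real.rpow_natCast, ← Real.rpow_mul hδ.le]
      norm_num
    · norm_num
  have hkd0 : 0 < kd d δ := by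
    rw [hkd]
    positivity
  have hke0 : 0 < ke d δ := by
    rw [hke]
    positivity
  have hk1 : kd d δ ^ 2 * l = ke d δ := by
    rw [hkd, hke]
    ring
  have hk2 : kd d δ ≤ 16 * ke d δ := by
    rw [hkd, hke]
    have h1 : (1 / 2 : ℝ) ^ 4 ≤ l ^ 4 := pow_le_pow_left₀ (by norm_num) hl2 4
    have h2 : 1 ≤ 16 * (r * l ^ 4) := by nlinarith
    calc r * l ^ 3 = r * l ^ 3 * 1 := by ring
      _ ≤ r * l ^ 3 * (16 * (r * l ^ 4)) := mul_le_mul_of_nonneg_left h2 (by positivity)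
      _ = _ := by ring
  set J := ⌈l⌉₊ with hJ
  have hJ1 : (J : ℝ) ≤ 3 * l := by
    have := Nat.ceil_lt_add_one hl0.le
    linarith
  have hJ2 : 1 / δ ≤ 4 ^ J := by
    have h1 : 1 / δ = Real.exp l := by
      rw [hl, Real.exp_log (by positivity)]
    have h2 : Real.exp l ≤ Real.exp J := Real.exp_le_exp.2 (Nat.le_ceil l)
    have h3 : Real.exp J ≤ 4 ^ J := by
      rw [← Real.exp_one_pow]
      exact pow_le_pow_left₀ (Real.exp_pos 1).le (by linarith [Real.exp_one_lt_d9]) J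
    rw [h1]
    exact h2.trans h3
  have key : ∀ c : T d L → ℂ, ∑ x, ‖c x‖ ^ 4 ≤
      (48 * C ^ 2 + 16 * C) * ke d δ * qf (J0 E δ) c ^ 2 := by
    intro c
    have h1 := four (E := E) hδ (mul_pos hC hkd0).le (fun A g hg => hS L E δ hδ hδ2 hL A g hg) c J
    have hq := qf0_nonneg (E := E) hδ c
    set q := qf (J0 E δ) c with hqd
    refine h1.trans ?_
    have h2 : 16 * (J : ℝ) * (C * kd d δ * q) ^ 2 ≤ 48 * C ^ 2 * ke d δ * q ^ 2 := by
      calc 16 * (J : ℝ) * (C * kd d δ * q) ^ 2 ≤ 16 * (3 * l) * (C * kd d δ * q) ^ 2 := by gcongr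
        _ = 48 * C ^ 2 * (kd d δ ^ 2 * l) * q ^ 2 := by ring
        _ = _ := by rw [hk1]
    have h3 : C * kd d δ * q / 4 ^ J * (q / δ) ≤ 16 * C * ke d δ * q ^ 2 := by
      have h4 : 1 / δ / 4 ^ J ≤ 1 := (div_le_one (by positivity)).2 hJ2
      calc C * kd d δ * q / 4 ^ J * (q / δ) = C * kd d δ * q ^ 2 * (1 / δ / 4 ^ J) := by
            field_simp
        _ ≤ C * kd d δ * q ^ 2 * 1 := mul_le_mul_of_nonneg_left h4 (by positivity)
        _ ≤ C * (16 * ke d δ) * q ^ 2 * 1 := by gcongr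
        _ = _ := by ring
    calc 16 * (J : ℝ) * (C * kd d δ * q) ^ 2 + C * kd d δ * q / 4 ^ J * (q / δ)
        ≤ 48 * C ^ 2 * ke d δ * q ^ 2 + 16 * C * ke d δ * q ^ 2 := add_le_add h2 h3
      _ = _ := by ring
  set D := (48 * C ^ 2 + 16 * C) * ke d δ with hD
  have hD0 : 0 ≤ D := by positivity
  have ha := key a
  have hb := key b
  have hqa := qf0_nonneg (E := E) hδ a
  have hqb := qf0_nonneg (E := E) hδ b
  have hcs := Finset.sum_mul_sq_le_sq_mul_sq Finset.univ (fun y => ‖a y‖ ^ 2) (fun y => ‖b y‖ ^ 2)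
  have e1 : ∀ c : T d L → ℂ, ∑ y, (‖c y‖ ^ 2) ^ 2 = ∑ y, ‖c y‖ ^ 4 := fun c =>
    Finset.sum_congr rfl fun y _ => by ring
  rw [e1, e1] at hcs
  have h5 : (∑ y, ‖a y‖ ^ 2 * ‖b y‖ ^ 2) ^ 2 ≤ (D * (qf (J0 E δ) a * qf (J0 E δ) b)) ^ 2 := by
    refine hcs.trans ((mul_le_mul ha hb (Finset.sum_nonneg fun _ _ => by positivity)
      (by positivity)).trans (le_of_eq (by ring)))
  exact le_of_sq_le_sq h5 (by positivity)


/-- EMB3 -/
theorem emb3 (h : T_PKI) : T_EMB3 := emb_set3 (set_bd3 h)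

end Pool.Agent.T2h98.QD
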