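import Pool.Agent.T2h98.QD.Stm12

/-! The mean of the diagonal at good energies, small tori. -/

set_option autoImplicit false
set_option linter.unusedSectionVars false

open scoped BigOperators Matrix Topology
open MeasureTheory ProbabilityTheory Filter

namespace Pool.Agent.T2h98.QD

open Pool.Agent.W788.MFP.Four (T e NN adj K)
open Pool.Agent.W788.BK (nsq hs PP JJ hi Low cr)

/-- the torus is large -/
theorem small_L {a c0 : ℝ} (ha : 0 < a) (hc : 0 < c0) : ∀ᶠ σ : ℝ in 𝓝[>] 0,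
    ∀ (L : ℕ) (Γ : ℝ), σ ^ (-2 - a) ≤ (L : ℝ) → c0 * σ ^ 2 ≤ Γ →
      1 / (L : ℝ) ≤ Γ ^ (1 + a / 4) := by
  have h1 : Tendsto (fun σ : ℝ => σ ^ (a / 2)) (𝓝[>] 0) (𝓝 0) := by
    have := (Real.continuousAt_rpow_const 0 (a / 2) (Or.inr (by positivity))).tendsto
    rw [Real.zero_rpow (by positivity)] at this
    exact this.mono_left (nhdsWithin_le_nhds (s := Set.Ioi (0 : ℝ)))
  have hc' : 0 < c0 ^ (1 + a / 4) := Real.rpow_pos_of_pos hc _
  filter_upwards [h1.eventually (gt_mem_nhds hc'), self_mem_nhdsWithin] with σ hσ hσ0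
  have hσ0' : 0 < σ := hσ0
  intro L Γ hL hΓ
  have e1 : 1 / (L : ℝ) ≤ σ ^ (2 + a) := by
    rw [one_div]
    calc (L : ℝ)⁻¹ ≤ (σ ^ (-2 - a))⁻¹ := inv_anti₀ (Real.rpow_pos_of_pos hσ0' _) hL
      _ = σ ^ (2 + a) := by
        rw [← Real.rpow_neg hσ0'.le]
        congr 1
        ring
  have e2 : σ ^ (2 + a) = σ ^ (2 + a / 2) * σ ^ (a / 2) := by
    rw [← Real.rpow_add hσ0']
    congr 1
    ring
  have e3 : (c0 * σ ^ 2) ^ (1 + a / 4) = c0 ^ (1 + a / 4) * σ ^ (2 + a / 2) := by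
    rw [Real.mul_rpow hc.le (by positivity), ← Real.rpow_natCast, ← Real.rpow_mul hσ0'.le]
    congr 2
    push_cast
    ring
  calc 1 / (L : ℝ) ≤ σ ^ (2 + a) := e1
    _ = σ ^ (2 + a / 2) * σ ^ (a / 2) := e2
    _ ≤ σ ^ (2 + a / 2) * c0 ^ (1 + a / 4) := by
      apply mul_le_mul_of_nonneg_left hσ.le (Real.rpow_pos_of_pos hσ0' _).le
    _ = (c0 * σ ^ 2) ^ (1 + a / 4) := by
      rw [e3]
      ring
    _ ≤ Γ ^ (1 + a / 4) := Real.rpow_le_rpow (by positivity) hΓ (by positivity)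

theorem ims (hs : T_SCAL3) (hf : T_FIN3) (hp : T_POI3) (h0 : T_SR0) : T_IMS := by
  intro d hd h a hh hh2 ha c η hc hη
  have hpi := Real.pi_pos
  obtain ⟨η', hη'⟩ : ∃ η', η' = min η (Real.pi * c / 2) := ⟨_, rfl⟩
  have hη0 : 0 < η' := by
    rw [hη']
    positivity
  have hηη : η' ≤ η := by
    rw [hη']
    exact min_le_left _ _
  have hηc : η' ≤ Real.pi * c / 2 := by
    rw [hη']
    exact min_le_right _ _
  obtain ⟨m0, hm0⟩ : ∃ m0, m0 = min 1 (Real.pi * c / 2) := ⟨_, rfl⟩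
  have hm00 : 0 < m0 := by
    rw [hm0]
    positivity
  have hm01 : m0 ≤ 1 := by
    rw [hm0]
    exact min_le_left _ _
  have hm0c : m0 ≤ Real.pi * c / 2 := by
    rw [hm0]
    exact min_le_right _ _
  obtain ⟨r, hr, hpoi⟩ := hp d hd (a / 4) (η' / 4) (by positivity) (by positivity)
  obtain ⟨ζ, hζ⟩ : ∃ ζ, ζ = min (1 / 4) (min (r / 2) (η' / 4)) := ⟨_, rfl⟩
  have hζ0 : 0 < ζ := by
    rw [hζ]
    positivity
  have hζ4 : ζ ≤ 1 / 4 := by
    rw [hζ]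
    exact min_le_left _ _
  have hζr : ζ ≤ r / 2 := by
    rw [hζ]
    exact (min_le_right _ _).trans (min_le_left _ _)
  have hζη : ζ ≤ η' / 4 := by
    rw [hζ]
    exact (min_le_right _ _).trans (min_le_right _ _)
  filter_upwards [hs (1 / 2) (by norm_num) le_rfl d hd h hh hh2 a ha m0 ζ hm00 hζ0 hζ4,
    small_L ha hm00, self_mem_nhdsWithin] with σ hσ hσL hσ0
  have hσ0' : 0 < σ := hσ0
  intro L _ hL1 hL2 ε he1 he2 E hcE
  obtain ⟨δ, t, Q, g, p0, Ω, hg, hpar⟩ := hσ L hL1 hL2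
  have hσ2 : 0 < σ ^ 2 := by positivity
  have hε0 : 0 < ε := lt_of_lt_of_le (Real.rpow_pos_of_pos hσ0' _) he1
  have key : ∀ ε' : ℝ, σ ^ (2 + h) ≤ ε' → ε' ≤ σ ^ 2 →
      m0 * σ ^ 2 ≤ ε' + σ ^ 2 * (mT d L σ E ε').im →
      |(mT d L σ E ε').im - Real.pi * dn d E| ≤ η' / 2 := by
    intro ε' k1 k2 k3
    obtain ⟨p, s⟩ := hpar ε' k1 k2
    obtain ⟨-, -, f3, f4, f5, -, f7, -, -⟩ := hf d L σ E δ ε' t Q g p0 ζ (1 / 2) Ω (p E) s
      (by norm_num) _ _ rfl rfl (hg _ _ k3)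
    have h1 := (hpoi E _ _ L (lt_of_le_of_lt f3 (by linarith)) f4
      (lt_of_le_of_lt f5 (by linarith)) (hσL L _ hL1 k3)).1
    have h2 : |(mT d L σ E ε').im - Real.pi * dn d E| ≤ ζ + η' / 4 :=
      (abs_sub_le _ _ _).trans (add_le_add f7 h1)
    linarith
  refine le_trans ?_ hηη
  by_contra hcon
  push Not at hcon
  have hcont : ContinuousOn (fun x : ℝ => |(mT d L σ E x).im - Real.pi * dn d E|)
      (Set.Icc ε (σ ^ 2)) := by
    have h1 := (h0 d L σ ε hε0).2.2.2.2.2 E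
    have h2 : ContinuousOn (fun x : ℝ => (mT d L σ E x).im) (Set.Icc ε (σ ^ 2)) :=
      h1.mono fun x hx => lt_of_lt_of_le hε0 hx.1
    exact (h2.sub continuousOn_const).abs
  have hend : |(mT d L σ E (σ ^ 2)).im - Real.pi * dn d E| ≤ η' / 2 := by
    refine key _ (he1.trans he2) le_rfl ?_
    have h1 := (h0 d L σ (σ ^ 2) hσ2).1 E
    nlinarith
  obtain ⟨x, hx, hfx⟩ := intermediate_value_Icc' he2 hcont
    (show 3 * η' / 4 ∈ Set.Icc _ _ from ⟨hend.trans (by linarith), by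
      refine le_trans ?_ hcon.le
      linarith⟩)
  have hfx' : |(mT d L σ E x).im - Real.pi * dn d E| = 3 * η' / 4 := hfx
  have hx0 : 0 < x := lt_of_lt_of_le hε0 hx.1
  have h3 : Real.pi * c / 2 ≤ (mT d L σ E x).im := by
    have h4 := (abs_le.1 hfx'.le).1
    have h5 : Real.pi * c ≤ Real.pi * dn d E := by gcongr
    linarith
  have h6 := key x (he1.trans hx.1) hx.2 (by nlinarith)
  rw [hfx'] at h6
  linarith

end Pool.Agent.T2h98.QD
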