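import Pool.Agent.T2h98.QD.Stm2

/-! Average over the starting point. -/

set_option autoImplicit false
set_option linter.unusedSectionVars false

open scoped BigOperators Matrix
open MeasureTheory ProbabilityTheory

namespace Pool.Agent.T2h98.QD

open Pool.Agent.W788.MFP.Four (T e NN adj K)
open Pool.Agent.W788.BK (nsq hs PP JJ hi Low cr)

section abs
variable {n : Type} [Fintype n] [DecidableEq n]

set_option backward.isDefEq.respectTransparency false in
open scoped Matrix.Norms.Operator in
theorem mexp_continuous : Continuous (NormedSpace.exp : Matrix n n ℂ → Matrix n n ℂ) :=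
  NormedSpace.exp_continuous

set_option backward.isDefEq.respectTransparency false in
open scoped Matrix.Norms.Operator in
theorem mexp_submatrix (f : n ≃ n) (A : Matrix n n ℂ) :
    NormedSpace.exp (A.submatrix f f) = (NormedSpace.exp A).submatrix f f := by
  have hc : Continuous (Matrix.reindexAlgEquiv ℂ ℂ f.symm : Matrix n n ℂ → Matrix n n ℂ) := by
    refine continuous_matrix fun i j => ?_
    simp only [Matrix.coe_reindexAlgEquiv, Matrix.reindex_apply, Matrix.submatrix_apply]
    exact continuous_id.matrix_elem _ _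
  have := NormedSpace.map_exp (Matrix.reindexAlgEquiv ℂ ℂ f.symm) hc A
  simp only [Matrix.coe_reindexAlgEquiv, Matrix.reindex_apply, Equiv.symm_symm] at this
  exact this.symm

theorem ev_unit (H : Matrix n n ℂ) (hH : H.IsHermitian) (t : ℝ) : (ev H t)ᴴ * ev H t = 1 := by
  unfold ev
  rw [← Matrix.exp_conjTranspose, Matrix.conjTranspose_smul, hH.eq,
    ← Matrix.exp_add_of_commute]
  · have : star (-((t : ℂ) * Complex.I)) = (t : ℂ) * Complex.I := by
      simp
    rw [this, ← add_smul, add_neg_cancel, zero_smul, NormedSpace.exp_zero]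
  · exact ((Commute.refl H).smul_left _).smul_right _

theorem ev_col (H : Matrix n n ℂ) (hH : H.IsHermitian) (t : ℝ) (y : n) :
    ∑ x, ‖ev H t x y‖ ^ 2 = 1 := by
  have h1 := congrFun (congrFun (ev_unit H hH t) y) y
  rw [Matrix.mul_apply, Matrix.one_apply_eq] at h1
  have h2 : ((∑ x, ‖ev H t x y‖ ^ 2 : ℝ) : ℂ) = 1 := by
    rw [← h1]
    push_cast
    refine Finset.sum_congr rfl fun x _ => ?_
    rw [Matrix.conjTranspose_apply, ← Complex.conj_mul']
    rfl
  exact_mod_cast h2

theorem ev_continuous {X : Type} [TopologicalSpace X] (H : X → Matrix n n ℂ) (t : X → ℝ)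
    (hH : Continuous H) (ht : Continuous t) : Continuous fun x => ev (H x) (t x) := by
  unfold ev
  refine mexp_continuous.comp ?_
  fun_prop

theorem abel_int {τ : ℝ} (hτ : 0 < τ) :
    Integrable (fun t : ℝ => Real.exp (-(t / τ))) (volume.restrict (Set.Ioi 0)) ∧
      ∫ t in Set.Ioi (0 : ℝ), Real.exp (-(t / τ)) = τ := by
  have h1 : ∀ t : ℝ, Real.exp (-(t / τ)) = Real.exp ((-τ⁻¹) * t) := by
    intro t
    congr 1
    field_simp
  have h2 : -τ⁻¹ < 0 := by
    have := inv_pos.mpr hτ
    linarith
  simp_rw [h1]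
  refine ⟨integrableOn_exp_mul_Ioi h2 0, ?_⟩
  rw [integral_exp_mul_Ioi h2]
  simp

theorem abel_integrable {τ C : ℝ} (hτ : 0 < τ) (F : ℝ → ℝ) (hF : Continuous F)
    (hC : ∀ t, |F t| ≤ C) :
    Integrable (fun t : ℝ => Real.exp (-(t / τ)) * F t) (volume.restrict (Set.Ioi 0)) := by
  have := (abel_int hτ).1.bdd_mul (f := F) (c := C) hF.aestronglyMeasurable
    (Filter.Eventually.of_forall fun t => by simpa using hC t)
  refine this.congr (Filter.Eventually.of_forall fun t => ?_)
  simp only [mul_comm]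

end abs

section torus
variable {d L : ℕ} [NeZero L]

theorem Mo_adj_herm : (Mo (fun k : T d L => ((adj k : ℝ) : ℂ))).IsHermitian := by
  unfold Matrix.IsHermitian
  ext x y
  simp only [Mo, Matrix.conjTranspose_apply, Matrix.of_apply, star_mul', star_inv₀, star_sum]
  congr 1
  · simp
  · refine Finset.sum_congr rfl fun k _ => ?_
    have h1 := Pool.Agent.W788.MFP.Four.e_neg k (x - y)
    rw [neg_sub] at h1
    rw [h1]
    simp

theorem HT_herm (σ : ℝ) (V : T d L → ℝ) : (HT σ V).IsHermitian := by
  unfold HT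
  refine Mo_adj_herm.add ?_
  refine Matrix.isHermitian_diagonal_of_self_adjoint _ ?_
  ext x
  simp

theorem HT_cont (σ : ℝ) : Continuous (fun V : T d L → ℝ => HT σ V) := by
  unfold HT
  refine continuous_const.add ?_
  refine Continuous.matrix_diagonal ?_
  fun_prop

theorem HT_shift (σ : ℝ) (V : T d L → ℝ) (a : T d L) :
    HT σ (fun z => V (z + a)) = (HT σ V).submatrix (Equiv.addRight a) (Equiv.addRight a) := by
  ext x y
  simp only [HT, Matrix.submatrix_apply, Matrix.add_apply, Equiv.coe_addRight, Mo,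
    Matrix.of_apply, add_sub_add_right_eq_sub, Matrix.diagonal_apply, add_left_inj]

theorem ev_shift (σ : ℝ) (V : T d L → ℝ) (a : T d L) (t : ℝ) (x y : T d L) :
    ev (HT σ (fun z => V (z + a))) t x y = ev (HT σ V) t (x + a) (y + a) := by
  unfold ev
  rw [HT_shift]
  have : (-((t : ℂ) * Complex.I)) • (HT σ V).submatrix (Equiv.addRight a) (Equiv.addRight a) =
      ((-((t : ℂ) * Complex.I)) • HT σ V).submatrix (Equiv.addRight a) (Equiv.addRight a) := rfl
  rw [this, mexp_submatrix]
  rfl

theorem Wl_cont_integrand (σ τ : ℝ) (i : Fin d) (M : ℕ) :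
    Continuous fun p : (T d L → ℝ) × ℝ => Real.exp (-(p.2 / τ)) *
      ∑ x, ff M (x i) * ‖ev (HT σ p.1) p.2 x 0‖ ^ 2 := by
  have hev := ev_continuous (fun p : (T d L → ℝ) × ℝ => HT σ p.1) (fun p => p.2)
    ((HT_cont σ).comp continuous_fst) continuous_snd
  refine Continuous.mul (by fun_prop) ?_
  refine continuous_finsetSum _ fun x _ => ?_
  exact continuous_const.mul ((hev.matrix_elem x 0).norm.pow 2)

theorem Wt_cont_integrand (σ τ : ℝ) (i : Fin d) (M : ℕ) :
    Continuous fun p : (T d L → ℝ) × ℝ => Real.exp (-(p.2 / τ)) *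
      Phi i M (ev (HT σ p.1) p.2) := by
  have hev := ev_continuous (fun p : (T d L → ℝ) × ℝ => HT σ p.1) (fun p => p.2)
    ((HT_cont σ).comp continuous_fst) continuous_snd
  unfold Phi
  refine Continuous.mul (by fun_prop) ?_
  refine continuous_finsetSum _ fun x _ => continuous_finsetSum _ fun y _ => ?_
  exact continuous_const.mul ((hev.matrix_elem x y).norm.pow 2)

theorem avg (ht : T_TENT) (h : T_INV) : T_AVG := by
  intro d L M _ i h1 hM σ τ hτ
  have hff : ∀ m : ZMod L, 0 ≤ ff M m ∧ ff M m ≤ 1 := (ht L M h1 hM).2.2.2.1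
  have hbase : ∀ (V : T d L → ℝ) (t : ℝ) (a : T d L),
      0 ≤ ∑ x, ff M (x i - a i) * ‖ev (HT σ V) t x a‖ ^ 2 ∧
      ∑ x, ff M (x i - a i) * ‖ev (HT σ V) t x a‖ ^ 2 ≤ 1 := by
    intro V t a
    refine ⟨Finset.sum_nonneg fun x _ => mul_nonneg (hff _).1 (by positivity), ?_⟩
    rw [← ev_col (HT σ V) (HT_herm σ V) t a]
    refine Finset.sum_le_sum fun x _ => ?_
    exact mul_le_of_le_one_left (by positivity) (hff _).2
  have hbase0 : ∀ (V : T d L → ℝ) (t : ℝ),
      0 ≤ ∑ x, ff M (x i) * ‖ev (HT σ V) t x 0‖ ^ 2 ∧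
      ∑ x, ff M (x i) * ‖ev (HT σ V) t x 0‖ ^ 2 ≤ 1 := by
    intro V t
    have := hbase V t 0
    simpa using this
  have mWl : Measurable (fun V : T d L → ℝ => Wl (HT σ V) i M τ) := by
    unfold Wl
    refine Measurable.const_mul ?_ _
    exact ((Wl_cont_integrand σ τ i M).stronglyMeasurable.integral_prod_right
      (ν := volume.restrict (Set.Ioi 0))).measurable
  have mWt : Measurable (fun V : T d L → ℝ => Wt (HT σ V) i M τ) := by
    unfold Wt
    refine Measurable.const_mul ?_ _
    exact ((Wt_cont_integrand σ τ i M).stronglyMeasurable.integral_prod_right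
      (ν := volume.restrict (Set.Ioi 0))).measurable
  have hevc : ∀ (V : T d L → ℝ), Continuous fun t => ev (HT σ V) t := fun V =>
    ev_continuous (fun _ : ℝ => HT σ V) (fun t => t) continuous_const continuous_id
  have hint : ∀ (V : T d L → ℝ) (a : T d L), Integrable (fun t : ℝ => Real.exp (-(t / τ)) *
      ∑ x, ff M (x i - a i) * ‖ev (HT σ V) t x a‖ ^ 2) (volume.restrict (Set.Ioi 0)) := by
    intro V a
    refine abel_integrable (C := 1) hτ _ ?_ ?_
    · refine continuous_finsetSum _ fun x _ => ?_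
      exact continuous_const.mul (((hevc V).matrix_elem x a).norm.pow 2)
    · intro t
      rw [abs_of_nonneg (hbase V t a).1]
      exact (hbase V t a).2
  have hbd : ∀ V : T d L → ℝ, 0 ≤ Wl (HT σ V) i M τ ∧ Wl (HT σ V) i M τ ≤ 1 := by
    intro V
    unfold Wl
    have hi := hint V 0
    simp only [Pi.zero_apply, sub_zero] at hi
    constructor
    · refine mul_nonneg (inv_pos.mpr hτ).le (integral_nonneg fun t => ?_)
      exact mul_nonneg (Real.exp_pos _).le (hbase0 V t).1
    · rw [inv_mul_le_iff₀ hτ, mul_one, ← (abel_int hτ).2]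
      rw [(abel_int hτ).2]
      conv_rhs => rw [← (abel_int hτ).2]
      refine integral_mono hi (abel_int hτ).1 fun t => ?_
      exact mul_le_of_le_one_right (Real.exp_pos _).le (hbase0 V t).2
  refine ⟨mWl, mWt, hbd, ?_⟩
  -- the sum over the starting points
  have hsum : ∀ V : T d L → ℝ, Wt (HT σ V) i M τ =
      ∑ a : T d L, Wl (HT σ (fun z => V (z + a))) i M τ := by
    intro V
    have e1 : ∀ a : T d L, Wl (HT σ (fun z => V (z + a))) i M τ = τ⁻¹ *
        ∫ t in Set.Ioi (0 : ℝ), Real.exp (-(t / τ)) *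
          ∑ x, ff M (x i - a i) * ‖ev (HT σ V) t x a‖ ^ 2 := by
      intro a
      unfold Wl
      congr 2
      funext t
      congr 1
      rw [← Equiv.sum_comp (Equiv.addRight a)
        (fun x => ff M (x i - a i) * ‖ev (HT σ V) t x a‖ ^ 2)]
      refine Finset.sum_congr rfl fun x _ => ?_
      rw [ev_shift, zero_add]
      simp only [Equiv.coe_addRight, Pi.add_apply, add_sub_cancel_right]
    simp_rw [e1]
    rw [← Finset.mul_sum, ← integral_finsetSum _ fun a _ => hint V a]
    unfold Wt
    congr 2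
    funext t
    rw [← Finset.mul_sum]
    congr 1
    unfold Phi
    rw [Finset.sum_comm]
  have hgp : IsProbabilityMeasure (GP (T d L)) := by
    unfold GP PP
    infer_instance
  have hinv : ∀ a : T d L, ∫ V, Wl (HT σ (fun z => V (z + a))) i M τ ∂(GP (T d L)) =
      ∫ V, Wl (HT σ V) i M τ ∂(GP (T d L)) := by
    intro a
    have := (h d L a).1 (fun V => ((Wl (HT σ V) i M τ : ℝ) : ℂ))
    rw [integral_complex_ofReal, integral_complex_ofReal] at this
    exact_mod_cast this
  have hWli : ∀ a : T d L,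
      Integrable (fun V => Wl (HT σ (fun z => V (z + a))) i M τ) (GP (T d L)) := by
    intro a
    have hm : Measurable (fun V : T d L → ℝ => Wl (HT σ (fun z => V (z + a))) i M τ) :=
      mWl.comp (measurable_pi_lambda _ fun z => measurable_pi_apply _)
    refine Integrable.of_bound hm.aestronglyMeasurable 1 (Filter.Eventually.of_forall fun V => ?_)
    have := hbd (fun z => V (z + a))
    rw [Real.norm_of_nonneg this.1]
    exact this.2
  simp_rw [hsum]
  rw [integral_finsetSum _ fun a _ => hWli a]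
  simp_rw [hinv]
  rw [Finset.sum_const, Finset.card_univ, nsmul_eq_mul, Pool.Agent.W788.MFP.Four.card_T,
    ← mul_assoc, inv_mul_cancel₀ (Pool.Agent.W788.MFP.Four.NN_pos).ne', one_mul]

end torus

end Pool.Agent.T2h98.QD
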