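import Pool.Agent.T2h98.QD.Stm2

/-! Continuity of the time evolution. -/

set_option autoImplicit false

open scoped BigOperators Matrix
open MeasureTheory ProbabilityTheory

namespace Pool.Agent.T2h98.QD

/-- the evolution depends continuously on the potential (product topology) and on time -/
def T_MEAS : Prop := ∀ (d : ℕ) (Ψ : (Zd d → ℝ) → ℝ → Zd d → ℂ), (∀ v, Evol v (Ψ v)) →
  ∀ x : Zd d, Continuous fun p : (Zd d → ℝ) × ℝ => Ψ p.1 p.2 x

end Pool.Agent.T2h98.QD
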