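import Pool.Agent.T2h98.QD.Stm2

/-! The diffusive limit: definitions and statements of the parts. -/

set_option autoImplicit false
set_option linter.unusedSectionVars false

open scoped BigOperators Matrix Topology
open MeasureTheory ProbabilityTheory Filter

namespace Pool.Agent.T2h98.QD

open Pool.Agent.W788.MFP.Four (T e NN adj K)
open Pool.Agent.W788.BK (nsq hs PP JJ hi Low cr)

section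

variable {n : Type} [Fintype n] [DecidableEq n]

/-- the projection onto the site `y` -/
noncomputable def EY (y : n) : Matrix n n ℂ := Matrix.diagonal (Pi.single y 1)

/-- the resolvent `(h + σ V - i ε)⁻¹` -/
noncomputable def Rh (h : Matrix n n ℂ) (σ ε : ℝ) (V : n → ℝ) : Matrix n n ℂ :=
  GG h 1 (fun y => (σ : ℂ) • EY y) ε V

end

section torus

variable {d L : ℕ} [NeZero L]

/-- `|Δ - E - i δ|⁻¹` -/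
noncomputable def J1 (E δ : ℝ) : Matrix (T d L) (T d L) ℂ :=
  Mo fun k => (((JJ E δ k)⁻¹ : ℝ) : ℂ)

/-- the momentum `κ` as a vector with components in `(-π, π]` -/
noncomputable def mo (κ : T d L) (i : Fin d) : ℝ := 2 * Real.pi * ((κ i).valMinAbs : ℝ) / L

end torus

/-- the ladder of the resolvent `(Δ + σ V - E - i ε)⁻¹` -/
noncomputable def Sr (d L : ℕ) [NeZero L] (σ E ε : ℝ) (q : T d L) : ℂ :=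
  ∫ V, (cj (e q) (Rh (h0 (d := d) (L := L) E) σ ε V) * (Rh (h0 E) σ ε V)ᴴ) 0 0 ∂(GP (T d L))

/-- the form bound for the resolvent, on the good event -/
def T_RQF : Prop := ∀ (d L : ℕ) [NeZero L] (E δ ε t σ : ℝ), 0 < δ → 0 < ε → 0 ≤ t → 0 ≤ σ →
  σ * t ≤ 1 / 2 → ∀ ξ : T d L → ℝ,
  (∀ w : T d L → ℝ, |∑ x, ξ x * w x ^ 2| ≤ t * Pool.Agent.W788.MFP.Four.q (JJ E δ) w) →
  ∀ b : T d L → ℂ,
    qf (J0 E δ) (Rh (h0 E) σ ε ξ *ᵥ b) ≤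
      4 * (qf (J1 E δ) b + δ * nsq (Rh (h0 E) σ ε ξ *ᵥ b)) ∧
    qf (J0 E δ) ((Rh (h0 E) σ ε ξ)ᴴ *ᵥ b) ≤
      4 * (qf (J1 E δ) b + δ * nsq ((Rh (h0 E) σ ε ξ)ᴴ *ᵥ b))

/-- the bound for the sum of products, low momenta included -/
def T_KER : Prop := ∀ (d L : ℕ) [NeZero L] (E δ θ Q cn : ℝ), 0 < δ → 0 ≤ Q →
  (∀ P : T d L, ¬ Low θ P → ∑ k : T d L, (JJ E δ k * JJ E δ (k + P))⁻¹ ≤ Q * NN d L) →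
  ∑ P : T d L, (1 - hi θ P) ≤ cn * NN d L →
  ∀ a b : T d L → ℂ, ∑ y, ‖a y‖ ^ 2 * ‖b y‖ ^ 2 ≤
    (Q + cn / δ ^ 2) * (qf (J0 E δ) a * qf (J0 E δ) b)

/-- the good event has overwhelming probability -/
def T_PROB2 : Prop := ∀ (d K : ℕ) (s : ℝ), 3 ≤ d → 0 < s → s ≤ 1 / 100 →
  ∃ y0 : ℝ, 1 ≤ y0 ∧ ∀ y : ℝ, y0 ≤ y →
  ∀ (L : ℕ) [NeZero L], Real.exp (3 * y) ≤ L → (L : ℝ) ≤ Real.exp (K * y) →
  ∃ Ω : Set (T d L → ℝ), MeasurableSet Ω ∧ (GP (T d L)).real Ωᶜ ≤ Real.exp (-(K : ℝ) * y) ∧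
    ∀ ξ ∈ Ω, ∀ (E : ℝ) (w : T d L → ℝ), |∑ z, ξ z * w z ^ 2| ≤
      Real.exp y / 2 * Pool.Agent.W788.MFP.Four.q (JJ E (Real.exp (-(2 - s) * y))) w

/-- Abel means in time and integrals over the energy -/
def T_PLAN : Prop := ∀ (n : Type) [Fintype n] [DecidableEq n] (H : Matrix n n ℂ),
  H.IsHermitian → ∀ (u : n → ℂ) (x0 : n) (τ : ℝ), 0 < τ →
  Integrable (fun E : ℝ => ∑ x, u x * ((‖(H - ((E : ℂ) + ((1 / (2 * τ) : ℝ) : ℂ) * Complex.I) •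
    (1 : Matrix n n ℂ))⁻¹ x x0‖ ^ 2 : ℝ) : ℂ)) ∧
  ((τ⁻¹ : ℝ) : ℂ) * ∫ t in Set.Ioi (0 : ℝ), ((Real.exp (-(t / τ)) : ℝ) : ℂ) *
      ∑ x, u x * ((‖ev H t x x0‖ ^ 2 : ℝ) : ℂ) =
    ((1 / (2 * τ) / Real.pi : ℝ) : ℂ) * ∫ E : ℝ, ∑ x, u x *
      ((‖(H - ((E : ℂ) + ((1 / (2 * τ) : ℝ) : ℂ) * Complex.I) •
        (1 : Matrix n n ℂ))⁻¹ x x0‖ ^ 2 : ℝ) : ℂ)

/-- the mean of the Abel means in terms of the ladder -/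
def T_EN : Prop := ∀ (d L : ℕ) [NeZero L] (σ τ : ℝ) (q : T d L), 0 < τ →
  Integrable (fun E : ℝ => Sr d L σ E (1 / (2 * τ)) q) ∧
  ∫ V, (((τ⁻¹ : ℝ) : ℂ) * ∫ t in Set.Ioi (0 : ℝ), ((Real.exp (-(t / τ)) : ℝ) : ℂ) *
      ∑ x, e q x * ((‖ev (HT (d := d) (L := L) σ V) t x 0‖ ^ 2 : ℝ) : ℂ)) ∂(GP (T d L)) =
    ((1 / (2 * τ) / Real.pi : ℝ) : ℂ) * ∫ E : ℝ, Sr d L σ E (1 / (2 * τ)) q

/-- comparison of the lattice with the torus for characters -/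
def T_CMPQ : Prop := ∀ d : ℕ, ∃ C : ℝ, 0 < C ∧ ∀ (L : ℕ) [NeZero L] (κ : T d L)
  (q : Fin d → ℝ), (∀ i, |q i - mo κ i| ≤ 2 * Real.pi / L) →
  ∀ (σ : ℝ) (ξ : Zd d → ℝ) (ψ : ℝ → Zd d → ℂ), Evol (fun x => σ * ξ x) ψ → ∀ t : ℝ, 0 ≤ t →
  ‖∑' x : Zd d, Complex.exp (((∑ i, q i * (x i : ℝ) : ℝ) : ℂ) * Complex.I) *
      ((‖ψ t x‖ ^ 2 : ℝ) : ℂ) -
    ∑ k : T d L, e κ k * ((‖ev (HT σ fun k : T d L => ξ (rep k)) t k 0‖ ^ 2 : ℝ) : ℂ)‖ ≤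
    C * (1 + t) ^ 2 / Real.sqrt L

/-- from Abel means to time windows -/
def T_ABEL : Prop := ∀ (ι : Type) (l : Filter ι) (F : ι → ℝ → ℂ) (F0 : ℝ → ℂ),
  (∀ i, Measurable (F i)) → Measurable F0 → (∀ i t, ‖F i t‖ ≤ 1) → (∀ t, ‖F0 t‖ ≤ 1) →
  (∀ τ : ℝ, 0 < τ → Tendsto (fun i => ∫ t in Set.Ioi (0 : ℝ),
    ((Real.exp (-(t / τ)) : ℝ) : ℂ) * F i t) l
    (𝓝 (∫ t in Set.Ioi (0 : ℝ), ((Real.exp (-(t / τ)) : ℝ) : ℂ) * F0 t))) →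
  ∀ a b : ℝ, 0 ≤ a → a ≤ b → Tendsto (fun i => ∫ t in a..b, F i t) l (𝓝 (∫ t in a..b, F0 t))

/-- the mean of `exp(2 i s cos k)` -/
noncomputable def jb (s : ℝ) : ℂ := ((2 * Real.pi : ℝ) : ℂ)⁻¹ *
  ∫ k in (-Real.pi)..Real.pi, Complex.exp (((2 * s * Real.cos k : ℝ) : ℂ) * Complex.I)

/-- the mean of `4 sin² k exp(2 i s cos k)` -/
noncomputable def kb (s : ℝ) : ℂ := ((2 * Real.pi : ℝ) : ℂ)⁻¹ *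
  ∫ k in (-Real.pi)..Real.pi, ((4 * Real.sin k ^ 2 : ℝ) : ℂ) *
    Complex.exp (((2 * s * Real.cos k : ℝ) : ℂ) * Complex.I)

/-- the density of states of `Δ` -/
noncomputable def dn (d : ℕ) (E : ℝ) : ℝ := (((2 * Real.pi : ℝ) : ℂ)⁻¹ *
  ∫ s : ℝ, Complex.exp (((-(E * s) : ℝ) : ℂ) * Complex.I) * jb s ^ d).re

/-- the density of the squared velocity -/
noncomputable def dw (d : ℕ) (E : ℝ) : ℝ := (((2 * Real.pi : ℝ) : ℂ)⁻¹ *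
  ∫ s : ℝ, Complex.exp (((-(E * s) : ℝ) : ℂ) * Complex.I) * (kb s * jb s ^ (d - 1))).re

/-- decay of `jb` and `kb` -/
def T_BES : Prop := ∃ C : ℝ, 0 < C ∧ ∀ s : ℝ, ‖jb s‖ ≤ C / Real.sqrt (1 + |s|) ∧
  ‖kb s‖ ≤ C / (1 + |s|)

/-- Riemann sums -/
def T_JL : Prop := ∃ C : ℝ, 0 < C ∧ ∀ (L : ℕ) [NeZero L] (s : ℝ),
  ‖((L : ℂ)⁻¹ * ∑ j : ZMod L, Complex.exp (((2 * s * cr j : ℝ) : ℂ) * Complex.I)) - jb s‖ ≤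
    C * (1 + |s|) / L ∧
  ‖((L : ℂ)⁻¹ * ∑ j : ZMod L, ((4 * (1 - cr j ^ 2) : ℝ) : ℂ) *
    Complex.exp (((2 * s * cr j : ℝ) : ℂ) * Complex.I)) - kb s‖ ≤ C * (1 + |s|) / L

/-- Poisson integrals -/
def T_POI : Prop := ∀ d : ℕ, 3 ≤ d → ∀ η : ℝ, 0 < η → ∃ r : ℝ, 0 < r ∧
  ∀ (E E' Γ : ℝ) (L : ℕ) [NeZero L], |E - E'| < r → 0 < Γ → Γ < r → 1 / (L : ℝ) ≤ r * Γ ^ 2 →
  |(NN d L)⁻¹ * ∑ k : T d L, Γ / ((adj k - E') ^ 2 + Γ ^ 2) - Real.pi * dn d E| ≤ η ∧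
  ∀ i : Fin d, |(NN d L)⁻¹ * ∑ k : T d L, 4 * (1 - cr (k i) ^ 2) *
    (2 * Γ ^ 3 / ((adj k - E') ^ 2 + Γ ^ 2) ^ 2) - Real.pi * dw d E| ≤ η

/-- the densities -/
def T_DOS : Prop := ∀ d : ℕ, 3 ≤ d → Continuous (dn d) ∧ Continuous (dw d) ∧
  (∀ E, 0 ≤ dn d E) ∧ (∀ E, 0 ≤ dw d E) ∧ (∀ E, 2 * (d : ℝ) ≤ |E| → dn d E = 0 ∧ dw d E = 0) ∧
  ∀ f : ℝ → ℝ, Continuous f →
    (2 * Real.pi)⁻¹ ^ d * ∫ k in Set.Icc (fun _ : Fin d => -Real.pi) (fun _ => Real.pi),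
      f (∑ i, 2 * Real.cos (k i)) = ∫ E : ℝ, f E * dn d E ∧
    ∀ j : Fin d, (2 * Real.pi)⁻¹ ^ d *
      ∫ k in Set.Icc (fun _ : Fin d => -Real.pi) (fun _ => Real.pi),
        4 * Real.sin (k j) ^ 2 * f (∑ i, 2 * Real.cos (k i)) = ∫ E : ℝ, f E * dw d E

/-- the difference of the free resolvents at close momenta -/
def T_DIF : Prop := ∀ d : ℕ, 3 ≤ d → ∀ E η : ℝ, 0 < η → ∃ r : ℝ, 0 < r ∧
  ∀ (E' Γ : ℝ) (L : ℕ) [NeZero L] (κ : T d L), |E - E'| < r → 0 < Γ → Γ < r →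
  1 / (L : ℝ) ≤ r * Γ ^ 2 → Real.sqrt (∑ i, mo κ i ^ 2) ≤ r * Γ →
  |Γ ^ 3 * ((NN d L)⁻¹ * ∑ k : T d L,
      ‖(((adj (k + κ) - E' : ℝ) : ℂ) - (Γ : ℂ) * Complex.I)⁻¹ -
        (((adj k - E' : ℝ) : ℂ) - (Γ : ℂ) * Complex.I)⁻¹‖ ^ 2) -
    Real.pi / 2 * dw d E * ∑ i, mo κ i ^ 2| ≤ η * ∑ i, mo κ i ^ 2

end Pool.Agent.T2h98.QD
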