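import Pool.Agent.T2h98.QD.Stm6
import Pool.Agent.T2h98.QD.Stm5
import Pool.Agent.T2h98.QD.Stm4
import Pool.Agent.T2h98.QD.Avg

/-! The lattice and the torus: characters. -/

set_option autoImplicit false
set_option linter.unusedSectionVars false

open scoped BigOperators Matrix Topology
open MeasureTheory ProbabilityTheory Filter

namespace Pool.Agent.T2h98.QD

open Pool.Agent.W788.MFP.Four (T e NN adj K)

namespace LQ

instance gz_prob (d : ℕ) : IsProbabilityMeasure (GZ d) := by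
  show IsProbabilityMeasure (Measure.infinitePi fun _ : Zd d => gaussianReal 0 1)
  infer_instance

theorem gz_neg (d : ℕ) : (GZ d).map (fun ξ x => -ξ x) = GZ d := by
  have h1 := Measure.infinitePi_map_pi (μ := fun _ : Zd d => gaussianReal 0 1)
    (f := fun _ (s : ℝ) => -s) (fun _ => measurable_neg)
  simp only [gaussianReal_map_neg, neg_zero] at h1
  exact h1

variable {d : ℕ}

theorem expn (q : Fin d → ℝ) (x : Zd d) :
    ‖Complex.exp (((∑ i, q i * (x i : ℝ) : ℝ) : ℂ) * Complex.I)‖ = 1 :=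
  Complex.norm_exp_ofReal_mul_I _

theorem term_norm (q : Fin d → ℝ) (p : Zd d → ℂ) (x : Zd d) :
    ‖Complex.exp (((∑ i, q i * (x i : ℝ) : ℝ) : ℂ) * Complex.I) * ((‖p x‖ ^ 2 : ℝ) : ℂ)‖ =
      ‖p x‖ ^ 2 := by
  rw [norm_mul, expn, one_mul, Complex.norm_real, Real.norm_eq_abs, abs_of_nonneg (by positivity)]

theorem Fz_summable (q : Fin d → ℝ) (p : Zd d → ℂ) (h : Summable fun x => ‖p x‖ ^ 2) :
    Summable fun x : Zd d => Complex.exp (((∑ i, q i * (x i : ℝ) : ℝ) : ℂ) * Complex.I) *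
      ((‖p x‖ ^ 2 : ℝ) : ℂ) := by
  apply Summable.of_norm
  simp only [term_norm]
  exact h

theorem Fz_norm (q : Fin d → ℝ) (p : Zd d → ℂ) (h : HasSum (fun x => ‖p x‖ ^ 2) 1) :
    ‖Fz q p‖ ≤ 1 :=
  tsum_of_norm_bounded h fun x => (term_norm q p x).le

variable {Ψ : (Zd d → ℝ) → ℝ → Zd d → ℂ}

theorem Fz_meas (hΨ : ∀ v, Evol v (Ψ v))
    (hc : ∀ x : Zd d, Continuous fun p : (Zd d → ℝ) × ℝ => Ψ p.1 p.2 x) (q : Fin d → ℝ) (σ : ℝ) :
    Measurable fun p : (Zd d → ℝ) × ℝ => Fz q (Ψ (fun x => σ * p.1 x) p.2) := by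
  unfold Fz
  refine measurable_of_tendsto_metrizable' Filter.atTop
    (f := fun (s : Finset (Zd d)) (p : (Zd d → ℝ) × ℝ) =>
      ∑ x ∈ s, Complex.exp (((∑ i, q i * (x i : ℝ) : ℝ) : ℂ) * Complex.I) *
        ((‖Ψ (fun x => σ * p.1 x) p.2 x‖ ^ 2 : ℝ) : ℂ)) (fun s => ?_) ?_
  · apply Finset.measurable_sum
    intro x _
    have h1 : Continuous fun p : (Zd d → ℝ) × ℝ => (((fun x => σ * p.1 x), p.2) : (Zd d → ℝ) × ℝ) := by
      fun_prop
    have h2 : Continuous fun p : (Zd d → ℝ) × ℝ => Ψ (fun x => σ * p.1 x) p.2 x := (hc x).comp h1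
    exact (continuous_const.mul (Complex.continuous_ofReal.comp (h2.norm.pow 2))).measurable
  · rw [tendsto_pi_nhds]
    intro p
    exact (Fz_summable q _ ((hΨ _).mass p.2).summable).hasSum

theorem FF_meas (hΨ : ∀ v, Evol v (Ψ v))
    (hc : ∀ x : Zd d, Continuous fun p : (Zd d → ℝ) × ℝ => Ψ p.1 p.2 x) (q : Fin d → ℝ) (σ : ℝ) :
    Measurable fun t => FF Ψ q σ t := by
  unfold FF
  exact ((Fz_meas hΨ hc q σ).stronglyMeasurable.integral_prod_left' (μ := GZ d)).measurable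

theorem FF_norm (hΨ : ∀ v, Evol v (Ψ v)) (q : Fin d → ℝ) (σ t : ℝ) : ‖FF Ψ q σ t‖ ≤ 1 := by
  unfold FF
  calc _ ≤ 1 * (GZ d).real Set.univ := by
        apply norm_integral_le_of_norm_le_const
        exact Eventually.of_forall fun ξ => Fz_norm q _ ((hΨ _).mass t)
    _ = 1 := by simp

theorem slice_meas {F : (Zd d → ℝ) → ℝ → ℂ} (hF : Measurable fun p : (Zd d → ℝ) × ℝ => F p.1 p.2)
    (t : ℝ) : Measurable fun ξ => F ξ t := by
  have h0 : Measurable fun ξ : Zd d → ℝ => ((ξ, t) : (Zd d → ℝ) × ℝ) := by fun_prop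
  exact hF.comp h0

theorem FF_neg (hΨ : ∀ v, Evol v (Ψ v))
    (hc : ∀ x : Zd d, Continuous fun p : (Zd d → ℝ) × ℝ => Ψ p.1 p.2 x) (q : Fin d → ℝ) (σ t : ℝ) :
    FF Ψ q (-σ) t = FF Ψ q σ t := by
  unfold FF
  have h1 : Measurable fun ξ : Zd d → ℝ => Fz q (Ψ (fun x => σ * ξ x) t) :=
    slice_meas (F := fun ξ t => Fz q (Ψ (fun x => σ * ξ x) t)) (Fz_meas hΨ hc q σ) t
  have h2 : Measurable fun (ξ : Zd d → ℝ) (x : Zd d) => -ξ x := by fun_prop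
  conv_rhs => rw [← gz_neg d]
  rw [integral_map h2.aemeasurable h1.aestronglyMeasurable]
  congr 1
  funext ξ
  congr 2
  funext x
  ring

/-- an integral -/
theorem sq_int {τ : ℝ} (hτ : 0 < τ) :
    IntegrableOn (fun t : ℝ => (1 + t) ^ 2 * Real.exp (-(t / τ))) (Set.Ioi (0 : ℝ)) ∧
      ∫ t in Set.Ioi (0 : ℝ), (1 + t) ^ 2 * Real.exp (-(t / τ)) ≤ τ * (2 * (1 + τ) ^ 2) := by
  have h1 : ∀ t ∈ Set.Ici (0 : ℝ), HasDerivAt (fun t : ℝ =>
      -((τ * (1 + t) ^ 2 + 2 * τ ^ 2 * (1 + t) + 2 * τ ^ 3) * Real.exp (-(t / τ))))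
      ((1 + t) ^ 2 * Real.exp (-(t / τ))) t := by
    intro t _
    have e1 : HasDerivAt (fun t : ℝ => τ * (1 + t) ^ 2 + 2 * τ ^ 2 * (1 + t) + 2 * τ ^ 3)
        (τ * (2 * (1 + t)) + 2 * τ ^ 2) t := by
      have e2 : HasDerivAt (fun t : ℝ => 1 + t) 1 t := (hasDerivAt_id t).const_add 1
      have e3 := ((e2.pow 2).const_mul τ).add (e2.const_mul (2 * τ ^ 2))
      have e4 := e3.add_const (2 * τ ^ 3)
      refine e4.congr_deriv ?_
      push_cast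
      ring
    have e5 : HasDerivAt (fun t : ℝ => Real.exp (-(t / τ))) (Real.exp (-(t / τ)) * (-(1 / τ))) t :=
      (((hasDerivAt_id t).div_const τ).neg).exp
    refine ((e1.mul e5).neg).congr_deriv ?_
    field_simp
    ring
  have h2 : ∀ t ∈ Set.Ioi (0 : ℝ), 0 ≤ (1 + t) ^ 2 * Real.exp (-(t / τ)) :=
    fun t _ => by positivity
  have h3 : Tendsto (fun t : ℝ =>
      -((τ * (1 + t) ^ 2 + 2 * τ ^ 2 * (1 + t) + 2 * τ ^ 3) * Real.exp (-(t / τ)))) atTop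
      (𝓝 0) := by
    have hd : Tendsto (fun t : ℝ => t / τ) atTop atTop := tendsto_id.atTop_div_const hτ
    have p0 := (Real.tendsto_pow_mul_exp_neg_atTop_nhds_zero 0).comp hd
    have p1 := (Real.tendsto_pow_mul_exp_neg_atTop_nhds_zero 1).comp hd
    have p2 := (Real.tendsto_pow_mul_exp_neg_atTop_nhds_zero 2).comp hd
    have p3 := (((p2.const_mul (τ ^ 3)).add (p1.const_mul (2 * τ ^ 2 + 2 * τ ^ 3))).add
      (p0.const_mul (τ + 2 * τ ^ 2 + 2 * τ ^ 3))).neg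
    simp only [mul_zero, add_zero, neg_zero] at p3
    refine p3.congr fun t => ?_
    simp only [Function.comp_apply]
    field_simp
    ring
  refine ⟨integrableOn_Ioi_deriv_of_nonneg' h1 h2 h3, ?_⟩
  rw [integral_Ioi_of_hasDerivAt_of_nonneg' h1 h2 h3]
  simp only [zero_div, neg_zero, Real.exp_zero]
  have : 0 < τ ^ 2 := by positivity
  ring_nf
  nlinarith

variable {L : ℕ} [NeZero L]

theorem norm_e' (k x : T d L) : ‖e k x‖ = 1 := by
  have h1 := Pool.Agent.W788.MFP.Four.e_normSq k x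
  rw [Complex.mul_conj'] at h1
  have h2 : ‖e k x‖ ^ 2 = 1 := by exact_mod_cast h1
  have h3 := norm_nonneg (e k x)
  nlinarith

/-- the sum on the torus -/
noncomputable def F2 (κ : T d L) (σ : ℝ) (V : T d L → ℝ) (t : ℝ) : ℂ :=
  ∑ x, e κ x * ((‖ev (HT (d := d) (L := L) σ V) t x 0‖ ^ 2 : ℝ) : ℂ)

theorem F2_cont (κ : T d L) (σ : ℝ) : Continuous fun p : (T d L → ℝ) × ℝ => F2 κ σ p.1 p.2 := by
  unfold F2
  have hev := ev_continuous (fun p : (T d L → ℝ) × ℝ => HT σ p.1) (fun p => p.2)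
    ((HT_cont σ).comp continuous_fst) continuous_snd
  exact continuous_finsetSum _ fun x _ => continuous_const.mul
    (Complex.continuous_ofReal.comp ((hev.matrix_elem x 0).norm.pow 2))

theorem F2_norm (κ : T d L) (σ : ℝ) (V : T d L → ℝ) (t : ℝ) : ‖F2 κ σ V t‖ ≤ 1 := by
  unfold F2
  refine (norm_sum_le _ _).trans (le_of_eq ?_)
  rw [← ev_col (HT σ V) (HT_herm σ V) t 0]
  refine Finset.sum_congr rfl fun x _ => ?_
  rw [norm_mul, norm_e', one_mul, Complex.norm_real, Real.norm_eq_abs,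
    abs_of_nonneg (by positivity)]

theorem rep_meas : Measurable fun (ξ : Zd d → ℝ) (k : T d L) => ξ (rep k) := by fun_prop

/-- integrability on the product -/
theorem prod_int {F : (Zd d → ℝ) → ℝ → ℂ} (hF : Measurable fun p : (Zd d → ℝ) × ℝ => F p.1 p.2)
    (hb : ∀ ξ t, ‖F ξ t‖ ≤ 1) {τ : ℝ} (hτ : 0 < τ) :
    Integrable (fun p : (Zd d → ℝ) × ℝ => ((Real.exp (-(p.2 / τ)) : ℝ) : ℂ) * F p.1 p.2)
      ((GZ d).prod (volume.restrict (Set.Ioi (0 : ℝ)))) := by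
  have h1 : Integrable (fun p : (Zd d → ℝ) × ℝ => Real.exp (-(p.2 / τ)))
      ((GZ d).prod (volume.restrict (Set.Ioi (0 : ℝ)))) := by
    have := (integrable_const (μ := GZ d) (1 : ℝ)).mul_prod (abel_int hτ).1
    refine this.congr (Eventually.of_forall fun p => ?_)
    simp
  refine Integrable.mono' h1 ?_ (Eventually.of_forall fun p => ?_)
  · apply Measurable.aestronglyMeasurable
    exact Measurable.mul (by fun_prop) hF
  · rw [norm_mul, Complex.norm_real, Real.norm_eq_abs, abs_of_pos (Real.exp_pos _)]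
    exact mul_le_of_le_one_right (Real.exp_pos _).le (hb _ _)

theorem F2_eq (κ : T d L) (σ : ℝ) (V : T d L → ℝ) (t : ℝ) : F2 κ σ V t =
    ∑ x, e κ x * ((‖ev (HT (d := d) (L := L) σ V) t x 0‖ ^ 2 : ℝ) : ℂ) := rfl

attribute [irreducible] F2

theorem hm2 (κ : T d L) (σ : ℝ) :
    Measurable fun p : (Zd d → ℝ) × ℝ => F2 κ σ (fun k : T d L => p.1 (rep k)) p.2 := by
  have h1 : Measurable fun p : (Zd d → ℝ) × ℝ => (((fun k : T d L => p.1 (rep k)), p.2) :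
    (T d L → ℝ) × ℝ) := by fun_prop
  have h2 : Measurable fun p : (T d L → ℝ) × ℝ => F2 κ σ p.1 p.2 := (F2_cont κ σ).measurable
  exact h2.comp h1

theorem torus_side (h3 : T_LAW) (κ : T d L) (σ τ : ℝ) (hτ : 0 < τ) :
    ∫ V, (((τ⁻¹ : ℝ) : ℂ) * ∫ t in Set.Ioi (0 : ℝ), ((Real.exp (-(t / τ)) : ℝ) : ℂ) *
      F2 κ σ V t) ∂(GP (T d L)) =
    ((τ⁻¹ : ℝ) : ℂ) * ∫ t in Set.Ioi (0 : ℝ), ∫ ξ, ((Real.exp (-(t / τ)) : ℝ) : ℂ) *
        F2 κ σ (fun k : T d L => ξ (rep k)) t ∂(GZ d) := by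
  have i2 := prod_int (F := fun ξ t => F2 κ σ (fun k : T d L => ξ (rep k)) t) (hm2 κ σ)
    (fun ξ t => F2_norm κ σ _ t) hτ
  have hG : Measurable fun V : T d L → ℝ => ((τ⁻¹ : ℝ) : ℂ) * ∫ t in Set.Ioi (0 : ℝ),
      ((Real.exp (-(t / τ)) : ℝ) : ℂ) * F2 κ σ V t := by
    apply Measurable.const_mul
    have : Measurable fun p : (T d L → ℝ) × ℝ => ((Real.exp (-(p.2 / τ)) : ℝ) : ℂ) *
        F2 κ σ p.1 p.2 := Measurable.mul (by fun_prop) (F2_cont κ σ).measurable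
    exact (this.stronglyMeasurable.integral_prod_right'
      (ν := volume.restrict (Set.Ioi (0 : ℝ)))).measurable
  have e2 := integral_map (μ := GZ d) (rep_meas (d := d) (L := L)).aemeasurable
    hG.aestronglyMeasurable
  rw [h3 d L] at e2
  rw [e2, integral_const_mul]
  congr 1
  exact integral_integral_swap (f := fun (ξ : Zd d → ℝ) (t : ℝ) =>
    ((Real.exp (-(t / τ)) : ℝ) : ℂ) * F2 κ σ (fun k : T d L => ξ (rep k)) t) i2

theorem torus_side' (h2 : T_EN) (h3 : T_LAW) (κ : T d L) (σ τ : ℝ) (hτ : 0 < τ) :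
    ((1 / (2 * τ) / Real.pi : ℝ) : ℂ) * ∫ E : ℝ, Sr d L σ E (1 / (2 * τ)) κ =
      ((τ⁻¹ : ℝ) : ℂ) * ∫ t in Set.Ioi (0 : ℝ), ∫ ξ, ((Real.exp (-(t / τ)) : ℝ) : ℂ) *
        F2 κ σ (fun k : T d L => ξ (rep k)) t ∂(GZ d) := by
  rw [← (h2 d L σ τ κ hτ).2, ← torus_side h3 κ σ τ hτ]
  simp only [F2_eq]

end LQ

open LQ in
theorem latq (h1 : T_CMPQ) (h2 : T_EN) (h3 : T_LAW) (h4 : T_MEAS) : T_LATQ := by
  intro d Ψ hΨ
  have hc := h4 d Ψ hΨ
  refine ⟨fun q σ => FF_meas hΨ hc q σ, fun q σ t => FF_norm hΨ q σ t,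
    fun q σ t => FF_neg hΨ hc q σ t, ?_⟩
  obtain ⟨C, hC, hcmp⟩ := h1 d
  refine ⟨C * 2, by positivity, ?_⟩
  intro L _ κ q hq σ τ hτ
  have hL0 : (0 : ℝ) < L := by exact_mod_cast Nat.pos_of_ne_zero (NeZero.ne L)
  have hsL : 0 < Real.sqrt L := Real.sqrt_pos.2 hL0
  rw [torus_side' h2 h3 κ σ τ hτ]
  obtain ⟨A, hA⟩ : ∃ A : (Zd d → ℝ) → ℝ → ℂ, A = fun ξ t => Fz q (Ψ (fun x => σ * ξ x) t) :=
    ⟨_, rfl⟩
  obtain ⟨B, hB⟩ : ∃ B : (Zd d → ℝ) → ℝ → ℂ, B = fun ξ t => F2 κ σ (fun k : T d L => ξ (rep k)) t :=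
    ⟨_, rfl⟩
  have hm1 : Measurable fun p : (Zd d → ℝ) × ℝ => A p.1 p.2 := by
    rw [hA]
    exact Fz_meas hΨ hc q σ
  have hb1 : ∀ (ξ : Zd d → ℝ) (t : ℝ), ‖A ξ t‖ ≤ 1 := by
    rw [hA]
    exact fun ξ t => Fz_norm q _ ((hΨ _).mass t)
  have hm2 : Measurable fun p : (Zd d → ℝ) × ℝ => B p.1 p.2 := by
    rw [hB]
    exact hm2 κ σ
  have hb2 : ∀ (ξ : Zd d → ℝ) (t : ℝ), ‖B ξ t‖ ≤ 1 := by
    rw [hB]
    exact fun ξ t => F2_norm κ σ _ t
  have hAB : ∀ (ξ : Zd d → ℝ) (t : ℝ), 0 ≤ t → ‖A ξ t - B ξ t‖ ≤ C * (1 + t) ^ 2 / Real.sqrt L := by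
    intro ξ t ht
    rw [hA, hB]
    simp only [F2_eq]
    exact hcmp L κ q hq σ ξ _ (hΨ _) t ht
  have e1 : ∀ (ξ : Zd d → ℝ) (t : ℝ), F2 κ σ (fun k : T d L => ξ (rep k)) t = B ξ t := by
    rw [hB]
    exact fun _ _ => rfl
  have e2 : ∀ t : ℝ, FF Ψ q σ t = ∫ ξ, A ξ t ∂(GZ d) := by
    rw [hA]
    exact fun _ => rfl
  simp only [e1, e2]
  clear hA hB e1 e2 hcmp hc hq hΨ
  have i1 := prod_int hm1 hb1 hτ
  have i2 := prod_int hm2 hb2 hτ
  have e3 : ∀ t : ℝ, ((Real.exp (-(t / τ)) : ℝ) : ℂ) * ∫ ξ, A ξ t ∂(GZ d) =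
      ∫ ξ, ((Real.exp (-(t / τ)) : ℝ) : ℂ) * A ξ t ∂(GZ d) := by
    intro t
    rw [integral_const_mul]
  simp only [e3]
  rw [← mul_sub, ← integral_sub i1.integral_prod_right i2.integral_prod_right, norm_mul,
    Complex.norm_real, Real.norm_eq_abs, abs_of_pos (inv_pos.2 hτ)]
  obtain ⟨s1, s2⟩ := sq_int hτ
  have e4 : ∀ t ∈ Set.Ioi (0 : ℝ), ‖∫ ξ, ((Real.exp (-(t / τ)) : ℝ) : ℂ) * A ξ t ∂(GZ d) -
      ∫ ξ, ((Real.exp (-(t / τ)) : ℝ) : ℂ) * B ξ t ∂(GZ d)‖ ≤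
      C / Real.sqrt L * ((1 + t) ^ 2 * Real.exp (-(t / τ))) := by
    intro t ht
    rw [integral_const_mul, integral_const_mul, ← mul_sub, norm_mul, Complex.norm_real,
      Real.norm_eq_abs, abs_of_pos (Real.exp_pos _)]
    have j1 : Integrable (fun ξ : Zd d → ℝ => A ξ t) (GZ d) :=
      Integrable.of_bound (slice_meas hm1 t).aestronglyMeasurable 1
        (Eventually.of_forall fun ξ => hb1 ξ t)
    have j2 : Integrable (fun ξ : Zd d → ℝ => B ξ t) (GZ d) :=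
      Integrable.of_bound (slice_meas hm2 t).aestronglyMeasurable 1
        (Eventually.of_forall fun ξ => hb2 ξ t)
    rw [← integral_sub j1 j2]
    have j3 : ‖∫ ξ, (A ξ t - B ξ t) ∂(GZ d)‖ ≤ C * (1 + t) ^ 2 / Real.sqrt L := by
      calc _ ≤ C * (1 + t) ^ 2 / Real.sqrt L * (GZ d).real Set.univ := by
            apply norm_integral_le_of_norm_le_const
            exact Eventually.of_forall fun ξ => hAB ξ t (le_of_lt ht)
        _ = _ := by simp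
    calc _ ≤ Real.exp (-(t / τ)) * (C * (1 + t) ^ 2 / Real.sqrt L) :=
          mul_le_mul_of_nonneg_left j3 (Real.exp_pos _).le
      _ = _ := by ring
  have e5 : ‖∫ t in Set.Ioi (0 : ℝ), (∫ ξ, ((Real.exp (-(t / τ)) : ℝ) : ℂ) * A ξ t ∂(GZ d) -
      ∫ ξ, ((Real.exp (-(t / τ)) : ℝ) : ℂ) * B ξ t ∂(GZ d))‖ ≤
      C / Real.sqrt L * (τ * (2 * (1 + τ) ^ 2)) := by
    calc _ ≤ ∫ t in Set.Ioi (0 : ℝ), C / Real.sqrt L * ((1 + t) ^ 2 * Real.exp (-(t / τ))) :=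
          norm_integral_le_of_norm_le (s1.const_mul _)
            ((ae_restrict_iff' measurableSet_Ioi).2 (Eventually.of_forall e4))
      _ = C / Real.sqrt L * ∫ t in Set.Ioi (0 : ℝ), (1 + t) ^ 2 * Real.exp (-(t / τ)) :=
          integral_const_mul _ _
      _ ≤ _ := mul_le_mul_of_nonneg_left s2 (by positivity)
  calc _ ≤ τ⁻¹ * (C / Real.sqrt L * (τ * (2 * (1 + τ) ^ 2))) :=
        mul_le_mul_of_nonneg_left e5 (inv_nonneg.2 hτ.le)
    _ = C * 2 * (1 + τ) ^ 2 / Real.sqrt L := by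
        field_simp

end Pool.Agent.T2h98.QD
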