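import Pool.Agent.T2h98.QD.Stm10
import Pool.Agent.T2h98.QD.LatQ

/-! Spreading at one time. -/

set_option autoImplicit false
set_option linter.unusedSectionVars false

open scoped BigOperators Matrix Topology
open MeasureTheory ProbabilityTheory Filter

namespace Pool.Agent.T2h98.QD

open Pool.Agent.W788.MFP.Four (T e NN adj K)
open Pool.Agent.W788.BK (nsq hs PP JJ hi Low cr)

namespace SP

/-! ### the null set -/

/-- the kinetic energy -/
noncomputable def ek {d : ℕ} (k : Fin d → ℝ) : ℝ := ∑ i, 2 * Real.cos (k i)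

theorem ek_cont {d : ℕ} : Continuous (ek (d := d)) := by
  unfold ek
  fun_prop

noncomputable abbrev Bx (d : ℕ) : Set (Fin d → ℝ) :=
  Set.Icc (fun _ : Fin d => -Real.pi) (fun _ => Real.pi)

theorem sin_ne {d : ℕ} (j : Fin d) : ∀ᵐ k : Fin d → ℝ, Real.sin (k j) ≠ 0 := by
  have h1 : ∀ n : ℤ, ∀ᵐ k : Fin d → ℝ, k j ≠ n * Real.pi := by
    intro n
    have := Measure.ae_eval_ne (μ := fun _ : Fin d => (volume : Measure ℝ)) j ((n : ℝ) * Real.pi)
    exact this
  have h2 := ae_all_iff.2 h1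
  filter_upwards [h2] with k hk hs
  obtain ⟨n, hn⟩ := Real.sin_eq_zero_iff.1 hs
  exact hk n hn.symm

/-- the regularised indicator -/
noncomputable def gn (d : ℕ) (n : ℕ) (E : ℝ) : ℝ := 1 / (1 + (n : ℝ) * dw d E)

theorem gn_pos {d : ℕ} (w0 : ∀ E, 0 ≤ dw d E) (n : ℕ) (E : ℝ) : 0 < gn d n E := by
  unfold gn
  have := w0 E
  positivity

theorem gn_le {d : ℕ} (w0 : ∀ E, 0 ≤ dw d E) (n : ℕ) (E : ℝ) : gn d n E ≤ 1 := by
  unfold gn
  have h1 : 0 ≤ (n : ℝ) * dw d E := mul_nonneg (Nat.cast_nonneg n) (w0 E)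
  rw [div_le_one (by linarith)]
  linarith

theorem gn_cont {d : ℕ} (cw : Continuous (dw d)) (w0 : ∀ E, 0 ≤ dw d E) (n : ℕ) :
    Continuous (gn d n) := by
  unfold gn
  refine continuous_const.div (continuous_const.add (continuous_const.mul cw)) fun E => ?_
  have h1 : 0 ≤ (n : ℝ) * dw d E := mul_nonneg (Nat.cast_nonneg n) (w0 E)
  linarith

theorem gn_zero {d : ℕ} (n : ℕ) {E : ℝ} (h : dw d E = 0) : gn d n E = 1 := by
  unfold gn
  rw [h]
  simp

theorem gn_lim {d : ℕ} (w0 : ∀ E, 0 ≤ dw d E) {E : ℝ} (h : dw d E ≠ 0) :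
    Tendsto (fun n : ℕ => gn d n E) atTop (𝓝 0) := by
  unfold gn
  have h1 : 0 < dw d E := lt_of_le_of_ne (w0 E) (Ne.symm h)
  have h2 : Tendsto (fun n : ℕ => 1 + (n : ℝ) * dw d E) atTop atTop :=
    tendsto_atTop_add_const_left _ _ (tendsto_natCast_atTop_atTop.atTop_mul_const h1)
  have h3 := h2.inv_tendsto_atTop
  refine h3.congr fun n => ?_
  simp only [Pi.inv_apply, one_div]

theorem nullset (h2 : T_DOS) {d : ℕ} (hd : 3 ≤ d) : ∀ᵐ E : ℝ, dw d E = 0 → dn d E = 0 := by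
  obtain ⟨cn, cw, n0, w0, hvan, hchar⟩ := h2 d hd
  have hpi := Real.pi_pos
  have hc0 : (0 : ℝ) < (2 * Real.pi)⁻¹ ^ d := by positivity
  obtain ⟨j⟩ : Nonempty (Fin d) := ⟨⟨0, by omega⟩⟩
  -- step 1: the energy side
  have s1 : ∀ n : ℕ, 1 ≤ n → ∫ E : ℝ, gn d n E * dw d E ≤ 4 * (d : ℝ) / n := by
    intro n hn
    have hn' : (0 : ℝ) < n := by exact_mod_cast hn
    have hb : ∀ E : ℝ, gn d n E * dw d E ≤
        Set.indicator (Set.Icc (-(2 * (d : ℝ))) (2 * d)) (fun _ => 1 / (n : ℝ)) E := by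
      intro E
      by_cases hE : E ∈ Set.Icc (-(2 * (d : ℝ))) (2 * d)
      · rw [Set.indicator_of_mem hE]
        unfold gn
        rw [div_mul_eq_mul_div, one_mul, div_le_div_iff₀ _ hn']
        · have := w0 E
          nlinarith
        · have := w0 E
          positivity
      · rw [Set.indicator_of_notMem hE]
        have : 2 * (d : ℝ) ≤ |E| := by
          by_contra hcon
          push Not at hcon
          exact hE ⟨(abs_lt.1 hcon).1.le, (abs_lt.1 hcon).2.le⟩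
        rw [(hvan E this).2, mul_zero]
    have hi : Integrable (Set.indicator (Set.Icc (-(2 * (d : ℝ))) (2 * d))
        (fun _ : ℝ => 1 / (n : ℝ))) := by
      rw [integrable_indicator_iff measurableSet_Icc]
      exact integrableOn_const (by simp)
    calc _ ≤ ∫ E : ℝ, Set.indicator (Set.Icc (-(2 * (d : ℝ))) (2 * d)) (fun _ => 1 / (n : ℝ)) E :=
          integral_mono_of_nonneg (Eventually.of_forall fun E =>
            mul_nonneg (gn_pos w0 n E).le (w0 E)) hi (Eventually.of_forall hb)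
      _ = 4 * (d : ℝ) / n := by
          rw [integral_indicator measurableSet_Icc, setIntegral_const, smul_eq_mul,
            Measure.real, Real.volume_Icc, ENNReal.toReal_ofReal (by
              have : (0 : ℝ) ≤ d := Nat.cast_nonneg d
              linarith)]
          ring
  -- step 2: the momentum side
  have hmeas : MeasurableSet {k : Fin d → ℝ | dw d (ek k) = 0} :=
    (isClosed_eq (cw.comp ek_cont) continuous_const).measurableSet
  have hbox : (volume : Measure (Fin d → ℝ)) (Bx d) < ⊤ := isCompact_Icc.measure_lt_top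
  have : IsFiniteMeasure ((volume : Measure (Fin d → ℝ)).restrict (Bx d)) :=
    ⟨by rw [Measure.restrict_apply_univ]; exact hbox⟩
  have s2 : ∫ k in Bx d, 4 * Real.sin (k j) ^ 2 *
      Set.indicator {k : Fin d → ℝ | dw d (ek k) = 0} (fun _ => (1 : ℝ)) k = 0 := by
    apply le_antisymm
    · have hle : ∀ n : ℕ, 1 ≤ n → ∫ k in Bx d, 4 * Real.sin (k j) ^ 2 *
          Set.indicator {k : Fin d → ℝ | dw d (ek k) = 0} (fun _ => (1 : ℝ)) k ≤
          ((2 * Real.pi)⁻¹ ^ d)⁻¹ * (4 * (d : ℝ) / n) := by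
        intro n hn
        have e1 := (hchar (gn d n) (gn_cont cw w0 n)).2 j
        have e2 := s1 n hn
        rw [← e1] at e2
        have e3 : ∫ k in Bx d, 4 * Real.sin (k j) ^ 2 *
            Set.indicator {k : Fin d → ℝ | dw d (ek k) = 0} (fun _ => (1 : ℝ)) k ≤
            ∫ k in Bx d, 4 * Real.sin (k j) ^ 2 * gn d n (∑ i, 2 * Real.cos (k i)) := by
          apply integral_mono_of_nonneg
          · refine Eventually.of_forall fun k => ?_
            refine mul_nonneg (by positivity) ?_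
            exact Set.indicator_nonneg (fun _ _ => zero_le_one) _
          · apply ContinuousOn.integrableOn_compact isCompact_Icc
            apply Continuous.continuousOn
            have := (gn_cont cw w0 n).comp (ek_cont (d := d))
            have h3 : Continuous fun k : Fin d → ℝ => 4 * Real.sin (k j) ^ 2 := by fun_prop
            exact h3.mul this
          · refine Eventually.of_forall fun k => ?_
            refine mul_le_mul_of_nonneg_left ?_ (by positivity)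
            by_cases hk : k ∈ {k : Fin d → ℝ | dw d (ek k) = 0}
            · rw [Set.indicator_of_mem hk]
              exact (gn_zero n hk).ge
            · rw [Set.indicator_of_notMem hk]
              exact (gn_pos w0 n _).le
        calc _ ≤ _ := e3
          _ = ((2 * Real.pi)⁻¹ ^ d)⁻¹ * ((2 * Real.pi)⁻¹ ^ d * ∫ k in Bx d,
              4 * Real.sin (k j) ^ 2 * gn d n (∑ i, 2 * Real.cos (k i))) := by
              rw [← mul_assoc, inv_mul_cancel₀ hc0.ne', one_mul]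
          _ ≤ _ := mul_le_mul_of_nonneg_left e2 (inv_pos.2 hc0).le
      have hlim : Tendsto (fun n : ℕ => ((2 * Real.pi)⁻¹ ^ d)⁻¹ * (4 * (d : ℝ) / n)) atTop
          (𝓝 (((2 * Real.pi)⁻¹ ^ d)⁻¹ * 0)) :=
        (tendsto_const_div_atTop_nhds_zero_nat _).const_mul _
      rw [mul_zero] at hlim
      exact ge_of_tendsto hlim ((eventually_ge_atTop 1).mono hle)
    · apply integral_nonneg
      intro k
      refine mul_nonneg (by positivity) ?_
      exact Set.indicator_nonneg (fun _ _ => zero_le_one) _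
  have s3 : ∀ᵐ k ∂((volume : Measure (Fin d → ℝ)).restrict (Bx d)), dw d (ek k) ≠ 0 := by
    rw [integral_eq_zero_iff_of_nonneg] at s2
    · have h3 := ae_restrict_of_ae (s := Bx d) (sin_ne j)
      filter_upwards [s2, h3] with k hk hs hcon
      have : k ∈ {k : Fin d → ℝ | dw d (ek k) = 0} := hcon
      rw [Set.indicator_of_mem this] at hk
      simp at hk
      exact hs hk
    · intro k
      refine mul_nonneg (by positivity) ?_
      exact Set.indicator_nonneg (fun _ _ => zero_le_one) _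
    · refine Integrable.mono' (g := fun _ => 4) (integrable_const _) ?_ ?_
      · apply Measurable.aestronglyMeasurable
        exact Measurable.mul (by fun_prop) (measurable_const.indicator hmeas)
      · refine Eventually.of_forall fun k => ?_
        rw [norm_mul]
        have q1 : ‖4 * Real.sin (k j) ^ 2‖ ≤ 4 := by
          rw [Real.norm_eq_abs, abs_of_nonneg (by positivity)]
          have := Real.sin_sq_le_one (k j)
          linarith
        have q2 : ‖Set.indicator {k : Fin d → ℝ | dw d (ek k) = 0} (fun _ => (1 : ℝ)) k‖ ≤ 1 := by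
          by_cases hk : k ∈ {k : Fin d → ℝ | dw d (ek k) = 0}
          · rw [Set.indicator_of_mem hk]; simp
          · rw [Set.indicator_of_notMem hk]; simp
        calc _ ≤ 4 * 1 := mul_le_mul q1 q2 (norm_nonneg _) (by norm_num)
          _ = 4 := by norm_num
  -- step 3: back to energies
  have s4 : Tendsto (fun n : ℕ => ∫ E : ℝ, gn d n E * dn d E) atTop (𝓝 0) := by
    have e1 : ∀ n : ℕ, ∫ E : ℝ, gn d n E * dn d E =
        (2 * Real.pi)⁻¹ ^ d * ∫ k in Bx d, gn d n (ek k) := fun n =>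
      ((hchar (gn d n) (gn_cont cw w0 n)).1).symm
    simp only [e1]
    have e2 : Tendsto (fun n : ℕ => ∫ k in Bx d, gn d n (ek k)) atTop
        (𝓝 (∫ k in Bx d, (0 : ℝ))) := by
      refine tendsto_integral_of_dominated_convergence (fun _ => (1 : ℝ)) ?_ (integrable_const _)
        ?_ ?_
      · intro n
        exact ((gn_cont cw w0 n).comp ek_cont).aestronglyMeasurable
      · intro n
        refine Eventually.of_forall fun k => ?_
        rw [Real.norm_eq_abs, abs_of_pos (gn_pos w0 n _)]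
        exact gn_le w0 n _
      · filter_upwards [s3] with k hk
        exact gn_lim w0 hk
    have e3 := e2.const_mul ((2 * Real.pi)⁻¹ ^ d)
    simpa using e3
  have hsupp : HasCompactSupport (dn d) := by
    apply HasCompactSupport.intro (isCompact_Icc (a := -(2 * (d : ℝ))) (b := 2 * d))
    intro E hE
    refine (hvan E ?_).1
    by_contra hcon
    push Not at hcon
    exact hE ⟨(abs_lt.1 hcon).1.le, (abs_lt.1 hcon).2.le⟩
  have hni : Integrable (dn d) := cn.integrable_of_hasCompactSupport hsupp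
  have hmeas' : MeasurableSet {E : ℝ | dw d E = 0} :=
    (isClosed_eq cw continuous_const).measurableSet
  have hI0 : ∀ E, 0 ≤ Set.indicator {E : ℝ | dw d E = 0} (dn d) E := fun E =>
    Set.indicator_nonneg (fun _ _ => n0 _) _
  have s5 : ∫ E : ℝ, Set.indicator {E : ℝ | dw d E = 0} (dn d) E = 0 := by
    apply le_antisymm
    · refine ge_of_tendsto s4 (Eventually.of_forall fun n => ?_)
      apply integral_mono_of_nonneg (Eventually.of_forall hI0)
      · refine hni.mono' ?_ ?_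
        · exact ((gn_cont cw w0 n).mul cn).aestronglyMeasurable
        · refine Eventually.of_forall fun E => ?_
          rw [Real.norm_eq_abs, abs_of_nonneg (mul_nonneg (gn_pos w0 n _).le (n0 E))]
          exact mul_le_of_le_one_left (n0 E) (gn_le w0 n E)
      · refine Eventually.of_forall fun E => ?_
        by_cases hE : E ∈ {E : ℝ | dw d E = 0}
        · rw [Set.indicator_of_mem hE]
          simp only [gn_zero n hE, one_mul, le_refl]
        · rw [Set.indicator_of_notMem hE]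
          exact mul_nonneg (gn_pos w0 n _).le (n0 E)
    · exact integral_nonneg hI0
  rw [integral_eq_zero_iff_of_nonneg hI0 (hni.indicator hmeas')] at s5
  filter_upwards [s5] with E hE h0
  rwa [Set.indicator_of_mem (show E ∈ {E : ℝ | dw d E = 0} from h0)] at hE

/-- the momentum `A` in direction `i` -/
noncomputable def qv {d : ℕ} (i : Fin d) (A : ℝ) : Fin d → ℝ := fun i' => if i' = i then A else 0

theorem qv_sq {d : ℕ} (i : Fin d) (A : ℝ) : ∑ i', qv i A i' ^ 2 = A ^ 2 := by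
  unfold qv
  simp [ite_pow]

theorem qv_dot {d : ℕ} (i : Fin d) (A : ℝ) (x : Zd d) :
    ∑ i', qv i A i' * (x i' : ℝ) = A * x i := by
  unfold qv
  simp [ite_mul]

theorem qv_scale {d : ℕ} (i : Fin d) (u A : ℝ) : (fun i' => u * qv i A i') = qv i (u * A) := by
  unfold qv
  funext i'
  split_ifs <;> simp

/-- the limit -/
theorem phi_small (h2 : T_DOS) (h3 : T_LAP) {d : ℕ} (hd : 3 ≤ d) {ε : ℝ} (hε : 0 < ε) :
    ∃ A : ℝ, 1 ≤ A ∧ ∀ (i : Fin d) (B : ℝ), A ≤ |B| → ∫ E, fl d (qv i B) 1 E ≤ ε := by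
  obtain ⟨cn, cw, n0, w0, hvan, hchar⟩ := h2 d hd
  obtain ⟨-, -, hni, hn1, -⟩ := h3 d hd 0
  have hpi := Real.pi_pos
  have hlim : Tendsto (fun B : ℝ => ∫ E, dn d E / (1 + B * (dw d E / (2 * Real.pi * dn d E ^ 2))))
      atTop (𝓝 (∫ _ : ℝ, (0 : ℝ))) := by
    refine tendsto_integral_filter_of_dominated_convergence (dn d) ?_ ?_ hni ?_
    · filter_upwards [eventually_ge_atTop (0 : ℝ)] with B hB
      apply Measurable.aestronglyMeasurable
      have m1 := cn.measurable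
      have m2 := cw.measurable
      fun_prop
    · filter_upwards [eventually_ge_atTop (0 : ℝ)] with B hB
      refine Eventually.of_forall fun E => ?_
      have := w0 E
      have := n0 E
      rw [Real.norm_eq_abs, abs_of_nonneg (by positivity)]
      apply div_le_self (n0 E)
      have : 0 ≤ B * (dw d E / (2 * Real.pi * dn d E ^ 2)) := by positivity
      linarith
    · filter_upwards [nullset h2 hd] with E hE
      rcases eq_or_lt_of_le (n0 E) with h0 | h0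
      · simp [← h0]
      · have hw : 0 < dw d E := by
          refine lt_of_le_of_ne (w0 E) fun h => ?_
          exact h0.ne' (hE h.symm)
        have hc : 0 < dw d E / (2 * Real.pi * dn d E ^ 2) := by positivity
        have t1 : Tendsto (fun B : ℝ => 1 + B * (dw d E / (2 * Real.pi * dn d E ^ 2))) atTop
            atTop :=
          tendsto_atTop_add_const_left _ _ (tendsto_id.atTop_mul_const hc)
        exact t1.const_div_atTop _
  simp only [integral_zero] at hlim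
  have ev := (hlim.eventually (ge_mem_nhds hε)).and (eventually_ge_atTop (0 : ℝ))
  obtain ⟨B0, hB0⟩ := eventually_atTop.1 ev
  refine ⟨max 1 B0, le_max_left _ _, fun i B hB => ?_⟩
  have h1 : 1 ≤ |B| := (le_max_left _ _).trans hB
  have h2' : B0 ≤ |B| := (le_max_right _ _).trans hB
  have h3' : B0 ≤ B ^ 2 := by
    rw [← sq_abs]
    nlinarith
  have := (hB0 (B ^ 2) h3').1
  unfold fl
  simp only [qv_sq, one_mul]
  exact this

theorem phi_le (h2 : T_DOS) (h3 : T_LAP) {d : ℕ} (hd : 3 ≤ d) (i : Fin d) (B : ℝ) :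
    ∫ E, fl d (qv i B) 1 E ≤ 1 := by
  obtain ⟨cn, cw, n0, w0, hvan, hchar⟩ := h2 d hd
  obtain ⟨-, -, hni, hn1, -⟩ := h3 d hd 0
  have hpi := Real.pi_pos
  refine le_trans ?_ hn1.le
  apply integral_mono_of_nonneg
  · refine Eventually.of_forall fun E => ?_
    have := w0 E
    have := n0 E
    unfold fl
    simp only [qv_sq, one_mul]
    positivity
  · exact hni
  · refine Eventually.of_forall fun E => ?_
    have := w0 E
    have := n0 E
    unfold fl
    simp only [qv_sq, one_mul]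
    apply div_le_self (n0 E)
    have : 0 ≤ B ^ 2 * (dw d E / (2 * Real.pi * dn d E ^ 2)) := by positivity
    linarith

/-! ### the pointwise bound -/

theorem cos_bd (J : ℕ) (y : ℝ) (hy : (J : ℝ) * |y| ≤ 1 / 2) :
    (J : ℝ) ^ 2 ≤ 2 * ‖∑ j ∈ Finset.range J, Complex.exp (((j * y : ℝ) : ℂ) * Complex.I)‖ ^ 2 := by
  have h1 : (J : ℝ) * (7 / 8) ≤
      ‖∑ j ∈ Finset.range J, Complex.exp (((j * y : ℝ) : ℂ) * Complex.I)‖ := by
    calc (J : ℝ) * (7 / 8) = ∑ j ∈ Finset.range J, (7 / 8 : ℝ) := by simp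
      _ ≤ ∑ j ∈ Finset.range J, Real.cos (j * y) := by
          refine Finset.sum_le_sum fun j hj => ?_
          have hj' : (j : ℝ) ≤ J := by exact_mod_cast (Finset.mem_range.1 hj).le
          have h2 : |(j : ℝ) * y| ≤ 1 / 2 := by
            rw [abs_mul, Nat.abs_cast]
            exact (mul_le_mul_of_nonneg_right hj' (abs_nonneg y)).trans hy
          have h3 := Real.one_sub_sq_div_two_le_cos (x := (j : ℝ) * y)
          have h4 : ((j : ℝ) * y) ^ 2 ≤ 1 / 4 := by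
            rw [← sq_abs]
            nlinarith [abs_nonneg ((j : ℝ) * y)]
          linarith
      _ = (∑ j ∈ Finset.range J, Complex.exp (((j * y : ℝ) : ℂ) * Complex.I)).re := by
          rw [Complex.re_sum]
          refine Finset.sum_congr rfl fun j _ => ?_
          rw [Complex.exp_ofReal_mul_I_re]
      _ ≤ _ := Complex.re_le_norm _
  have hJ : (0 : ℝ) ≤ J := Nat.cast_nonneg J
  nlinarith

theorem sq_sum (J : ℕ) (y : ℝ) :
    ((‖∑ j ∈ Finset.range J, Complex.exp (((j * y : ℝ) : ℂ) * Complex.I)‖ ^ 2 : ℝ) : ℂ) =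
      ∑ j ∈ Finset.range J, ∑ k ∈ Finset.range J,
        Complex.exp (((((j : ℝ) - k) * y : ℝ) : ℂ) * Complex.I) := by
  rw [← Complex.normSq_eq_norm_sq, ← Complex.mul_conj, map_sum, Finset.sum_mul_sum]
  refine Finset.sum_congr rfl fun j _ => Finset.sum_congr rfl fun k _ => ?_
  rw [← Complex.exp_conj, ← Complex.exp_add]
  congr 1
  rw [map_mul, Complex.conj_I, Complex.conj_ofReal]
  push_cast
  ring

theorem fZ_bd (J M : ℕ) (hJ : 1 ≤ J) (hM : 1 ≤ M) (s : ℝ) (hs : 0 ≤ s)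
    (h : (J : ℝ) * (s * M) ≤ 1 / 2) (a : ℤ) :
    fZ M a ≤ 2 * ((J : ℝ) ^ 2)⁻¹ *
      ‖∑ j ∈ Finset.range J, Complex.exp (((j * (s * a) : ℝ) : ℂ) * Complex.I)‖ ^ 2 := by
  have hJ0 : (0 : ℝ) < J := by exact_mod_cast hJ
  have hM0 : (0 : ℝ) < M := by exact_mod_cast hM
  by_cases ha : |(a : ℝ)| ≤ M
  · have h1 := cos_bd J (s * a) (by
      rw [abs_mul, abs_of_nonneg hs]
      refine le_trans ?_ h
      gcongr)
    have h2 : fZ M a ≤ 1 := by
      unfold fZ
      refine max_le zero_le_one ?_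
      have : 0 ≤ |(a : ℝ)| / M := by positivity
      linarith
    refine h2.trans ?_
    have h3 : (1 : ℝ) = ((J : ℝ) ^ 2)⁻¹ * (J : ℝ) ^ 2 := by
      rw [inv_mul_cancel₀ (by positivity)]
    rw [h3, mul_comm (2 : ℝ), mul_assoc]
    exact mul_le_mul_of_nonneg_left h1 (by positivity)
  · push Not at ha
    have h2 : fZ M a = 0 := by
      unfold fZ
      refine max_eq_left ?_
      have : 1 < |(a : ℝ)| / M := by rwa [one_lt_div hM0]
      linarith
    rw [h2]
    positivity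

variable {d : ℕ}

/-- the trigonometric polynomial, mean over the sites -/
noncomputable def Gz (J : ℕ) (i : Fin d) (s : ℝ) (p : Zd d → ℂ) : ℂ :=
  ((((J : ℝ) ^ 2)⁻¹ : ℝ) : ℂ) * ∑ j ∈ Finset.range J, ∑ k ∈ Finset.range J,
    Fz (qv i (((j : ℝ) - k) * s)) p

theorem Gz_norm (J : ℕ) (hJ : 1 ≤ J) (i : Fin d) (s : ℝ) (p : Zd d → ℂ)
    (h : HasSum (fun x => ‖p x‖ ^ 2) 1) : ‖Gz J i s p‖ ≤ 1 := by
  have hJ0 : (0 : ℝ) < J := by exact_mod_cast hJ
  unfold Gz
  rw [norm_mul, Complex.norm_real, Real.norm_eq_abs, abs_of_pos (by positivity)]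
  have h1 : ‖∑ j ∈ Finset.range J, ∑ k ∈ Finset.range J, Fz (qv i (((j : ℝ) - k) * s)) p‖ ≤
      (J : ℝ) ^ 2 := by
    calc _ ≤ ∑ j ∈ Finset.range J, (J : ℝ) := by
          refine norm_sum_le_of_le _ fun j _ => ?_
          calc _ ≤ ∑ k ∈ Finset.range J, (1 : ℝ) :=
                norm_sum_le_of_le _ fun k _ => LQ.Fz_norm _ p h
            _ = J := by simp
      _ = (J : ℝ) ^ 2 := by simp [sq]
  calc _ ≤ ((J : ℝ) ^ 2)⁻¹ * (J : ℝ) ^ 2 := mul_le_mul_of_nonneg_left h1 (by positivity)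
    _ = 1 := inv_mul_cancel₀ (by positivity)

theorem Gz_bd (J M : ℕ) (hJ : 1 ≤ J) (hM : 1 ≤ M) (i : Fin d) (s : ℝ) (hs : 0 ≤ s)
    (h : (J : ℝ) * (s * M) ≤ 1 / 2) (p : Zd d → ℂ) (hp : HasSum (fun x => ‖p x‖ ^ 2) 1) :
    0 ≤ ∑' x, fZ M (x i) * ‖p x‖ ^ 2 ∧
    ∑' x, fZ M (x i) * ‖p x‖ ^ 2 ≤ 2 * (Gz J i s p).re := by
  have hf0 : ∀ a : ℤ, 0 ≤ fZ M a := fun a => le_max_left _ _
  have hf1 : ∀ a : ℤ, fZ M a ≤ 1 := by
    intro a
    unfold fZ
    refine max_le zero_le_one ?_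
    have : 0 ≤ |(a : ℝ)| / M := by positivity
    linarith
  refine ⟨tsum_nonneg fun x => mul_nonneg (hf0 _) (by positivity), ?_⟩
  have hsum : ∀ q : Fin d → ℝ, HasSum (fun x : Zd d =>
      Complex.exp (((∑ i, q i * (x i : ℝ) : ℝ) : ℂ) * Complex.I) * ((‖p x‖ ^ 2 : ℝ) : ℂ))
      (Fz q p) := fun q => (LQ.Fz_summable q p hp.summable).hasSum
  have h2 : HasSum (fun x : Zd d => ((((J : ℝ) ^ 2)⁻¹ *
      ‖∑ j ∈ Finset.range J, Complex.exp (((j * (s * (x i : ℝ)) : ℝ) : ℂ) * Complex.I)‖ ^ 2 *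
        ‖p x‖ ^ 2 : ℝ) : ℂ)) (Gz J i s p) := by
    have h3 := (hasSum_sum (s := Finset.range J) fun j _ => hasSum_sum (s := Finset.range J)
      fun k _ => hsum (qv i (((j : ℝ) - k) * s))).mul_left ((((J : ℝ) ^ 2)⁻¹ : ℝ) : ℂ)
    refine Eq.subst (motive := fun f => HasSum f (Gz J i s p)) (funext fun x => ?_) h3
    have h4 := sq_sum J (s * (x i : ℝ))
    rw [Complex.ofReal_mul, Complex.ofReal_mul, h4, mul_assoc, Finset.sum_mul]
    congr 1
    refine Finset.sum_congr rfl fun j _ => ?_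
    rw [Finset.sum_mul]
    refine Finset.sum_congr rfl fun k _ => ?_
    rw [qv_dot, mul_assoc]
  have h5 := (Complex.reCLM.hasSum h2).mul_left 2
  simp only [Complex.reCLM_apply, Complex.ofReal_re] at h5
  rw [← h5.tsum_eq]
  refine Summable.tsum_le_tsum (fun x => ?_) ?_ h5.summable
  · have h6 := mul_le_mul_of_nonneg_right (fZ_bd J M hJ hM s hs h (x i))
      (show 0 ≤ ‖p x‖ ^ 2 by positivity)
    refine h6.trans (le_of_eq ?_)
    ring
  · refine Summable.of_nonneg_of_le (fun x => mul_nonneg (hf0 _) (by positivity)) (fun x => ?_)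
      hp.summable
    exact mul_le_of_le_one_left (by positivity) (hf1 _)

variable {Ψ : (Zd d → ℝ) → ℝ → Zd d → ℂ}

theorem Gz_meas (hΨ : ∀ v, Evol v (Ψ v))
    (hc : ∀ x : Zd d, Continuous fun p : (Zd d → ℝ) × ℝ => Ψ p.1 p.2 x) (J : ℕ) (i : Fin d)
    (s σ : ℝ) :
    Measurable fun p : (Zd d → ℝ) × ℝ => Gz J i s (Ψ (fun x => σ * p.1 x) p.2) := by
  unfold Gz
  apply Measurable.const_mul
  apply Finset.measurable_sum
  intro j _
  apply Finset.measurable_sum
  intro k _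
  exact LQ.Fz_meas hΨ hc _ σ

theorem Gz_mean (hΨ : ∀ v, Evol v (Ψ v))
    (hc : ∀ x : Zd d, Continuous fun p : (Zd d → ℝ) × ℝ => Ψ p.1 p.2 x) (J : ℕ) (i : Fin d)
    (s σ t : ℝ) : ∫ ξ, Gz J i s (Ψ (fun x => σ * ξ x) t) ∂(GZ d) =
      ((((J : ℝ) ^ 2)⁻¹ : ℝ) : ℂ) * ∑ j ∈ Finset.range J, ∑ k ∈ Finset.range J,
        FF Ψ (qv i (((j : ℝ) - k) * s)) σ t := by
  have hi : ∀ q : Fin d → ℝ, Integrable (fun ξ => Fz q (Ψ (fun x => σ * ξ x) t)) (GZ d) := by
    intro q
    refine Integrable.of_bound (LQ.slice_meas (F := fun ξ t => Fz q (Ψ (fun x => σ * ξ x) t))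
      (LQ.Fz_meas hΨ hc q σ) t).aestronglyMeasurable 1 (Eventually.of_forall fun ξ => ?_)
    exact LQ.Fz_norm q _ ((hΨ _).mass t)
  unfold Gz
  rw [integral_const_mul, integral_finsetSum _ fun j _ => integrable_finsetSum _ fun k _ => hi _]
  congr 1
  refine Finset.sum_congr rfl fun j _ => ?_
  rw [integral_finsetSum _ fun k _ => hi _]
  rfl

theorem Wz_bd (hΨ : ∀ v, Evol v (Ψ v))
    (hc : ∀ x : Zd d, Continuous fun p : (Zd d → ℝ) × ℝ => Ψ p.1 p.2 x) (J M : ℕ) (hJ : 1 ≤ J)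
    (hM : 1 ≤ M) (i : Fin d) (s : ℝ) (hs : 0 ≤ s) (h : (J : ℝ) * (s * M) ≤ 1 / 2) (σ τ : ℝ)
    (hτ : 0 < τ) :
    ∫ ξ, Wz (Ψ fun x => σ * ξ x) i M τ ∂(GZ d) ≤
      2 * (((J : ℝ) ^ 2)⁻¹ * ∑ j ∈ Finset.range J, ∑ k ∈ Finset.range J,
        (((τ⁻¹ : ℝ) : ℂ) * ∫ t in Set.Ioi (0 : ℝ), ((Real.exp (-(t / τ)) : ℝ) : ℂ) *
          FF Ψ (qv i (((j : ℝ) - k) * s)) σ t).re) := by
  obtain ⟨G, hG⟩ : ∃ G : (Zd d → ℝ) → ℝ → ℂ, G = fun ξ t => Gz J i s (Ψ (fun x => σ * ξ x) t) :=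
    ⟨_, rfl⟩
  have hGm : Measurable fun p : (Zd d → ℝ) × ℝ => G p.1 p.2 := by
    rw [hG]
    exact Gz_meas hΨ hc J i s σ
  have hGb : ∀ ξ t, ‖G ξ t‖ ≤ 1 := by
    rw [hG]
    exact fun ξ t => Gz_norm J hJ i s _ ((hΨ _).mass t)
  have hi := LQ.prod_int hGm hGb hτ
  -- the pointwise bound
  have b1 : ∀ ξ : Zd d → ℝ, 0 ≤ Wz (Ψ fun x => σ * ξ x) i M τ ∧
      Wz (Ψ fun x => σ * ξ x) i M τ ≤
        2 * (((τ⁻¹ : ℝ) : ℂ) * ∫ t in Set.Ioi (0 : ℝ), ((Real.exp (-(t / τ)) : ℝ) : ℂ) *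
          G ξ t).re := by
    intro ξ
    have hb : ∀ t, 0 ≤ ∑' x : Zd d, fZ M (x i) * ‖Ψ (fun x => σ * ξ x) t x‖ ^ 2 ∧
        ∑' x : Zd d, fZ M (x i) * ‖Ψ (fun x => σ * ξ x) t x‖ ^ 2 ≤ 2 * (G ξ t).re := by
      intro t
      rw [hG]
      exact Gz_bd J M hJ hM i s hs h _ ((hΨ _).mass t)
    have hGt : Integrable (fun t : ℝ => ((Real.exp (-(t / τ)) : ℝ) : ℂ) * G ξ t)
        (volume.restrict (Set.Ioi (0 : ℝ))) := by
      have m1 : Measurable fun t => G ξ t := by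
        have h0 : Measurable fun t : ℝ => ((ξ, t) : (Zd d → ℝ) × ℝ) := by fun_prop
        exact hGm.comp h0
      refine Integrable.mono' (abel_int hτ).1 ?_ (Eventually.of_forall fun t => ?_)
      · exact (Measurable.mul (by fun_prop) m1).aestronglyMeasurable
      · rw [norm_mul, Complex.norm_real, Real.norm_eq_abs, abs_of_pos (Real.exp_pos _)]
        exact mul_le_of_le_one_right (Real.exp_pos _).le (hGb _ _)
    have hre : ∫ t in Set.Ioi (0 : ℝ), (((Real.exp (-(t / τ)) : ℝ) : ℂ) * G ξ t).re =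
        (∫ t in Set.Ioi (0 : ℝ), ((Real.exp (-(t / τ)) : ℝ) : ℂ) * G ξ t).re :=
      integral_re hGt
    have hp : ∀ t ∈ Set.Ioi (0 : ℝ), 0 ≤ Real.exp (-(t / τ)) *
        ∑' x : Zd d, fZ M (x i) * ‖Ψ (fun x => σ * ξ x) t x‖ ^ 2 := fun t _ =>
      mul_nonneg (Real.exp_pos _).le (hb t).1
    constructor
    · unfold Wz
      exact mul_nonneg (inv_nonneg.2 hτ.le) (setIntegral_nonneg measurableSet_Ioi hp)
    · have e1 : ∫ t in Set.Ioi (0 : ℝ), Real.exp (-(t / τ)) *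
          ∑' x : Zd d, fZ M (x i) * ‖Ψ (fun x => σ * ξ x) t x‖ ^ 2 ≤
          ∫ t in Set.Ioi (0 : ℝ), 2 * (((Real.exp (-(t / τ)) : ℝ) : ℂ) * G ξ t).re := by
        apply integral_mono_of_nonneg
        · exact (ae_restrict_iff' measurableSet_Ioi).2 (Eventually.of_forall hp)
        · exact hGt.re.const_mul 2
        · refine Eventually.of_forall fun t => ?_
          have := mul_le_mul_of_nonneg_left (hb t).2 (Real.exp_pos (-(t / τ))).le
          refine this.trans (le_of_eq ?_)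
          show _ = 2 * (((Real.exp (-(t / τ)) : ℝ) : ℂ) * G ξ t).re
          rw [Complex.re_ofReal_mul]
          ring
      rw [integral_const_mul, hre] at e1
      unfold Wz
      rw [Complex.re_ofReal_mul]
      calc _ ≤ τ⁻¹ * (2 * (∫ t in Set.Ioi (0 : ℝ), ((Real.exp (-(t / τ)) : ℝ) : ℂ) * G ξ t).re) :=
            mul_le_mul_of_nonneg_left e1 (inv_nonneg.2 hτ.le)
        _ = _ := by ring
  -- Fubini
  have c1 : Integrable (fun ξ => ((τ⁻¹ : ℝ) : ℂ) * ∫ t in Set.Ioi (0 : ℝ),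
      ((Real.exp (-(t / τ)) : ℝ) : ℂ) * G ξ t) (GZ d) := hi.integral_prod_left.const_mul _
  have c2 : ∫ ξ, (((τ⁻¹ : ℝ) : ℂ) * ∫ t in Set.Ioi (0 : ℝ),
      ((Real.exp (-(t / τ)) : ℝ) : ℂ) * G ξ t) ∂(GZ d) =
      ((τ⁻¹ : ℝ) : ℂ) * ∫ t in Set.Ioi (0 : ℝ), ((Real.exp (-(t / τ)) : ℝ) : ℂ) *
        ∫ ξ, G ξ t ∂(GZ d) := by
    rw [integral_const_mul]
    congr 1
    have := integral_integral_swap (f := fun (ξ : Zd d → ℝ) (t : ℝ) =>
      ((Real.exp (-(t / τ)) : ℝ) : ℂ) * G ξ t) hi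
    rw [this]
    refine integral_congr_ae (Eventually.of_forall fun t => ?_)
    exact integral_const_mul _ _
  have c3 : ((τ⁻¹ : ℝ) : ℂ) * ∫ t in Set.Ioi (0 : ℝ), ((Real.exp (-(t / τ)) : ℝ) : ℂ) *
        ∫ ξ, G ξ t ∂(GZ d) = ((((J : ℝ) ^ 2)⁻¹ : ℝ) : ℂ) * ∑ j ∈ Finset.range J,
        ∑ k ∈ Finset.range J, (((τ⁻¹ : ℝ) : ℂ) * ∫ t in Set.Ioi (0 : ℝ),
          ((Real.exp (-(t / τ)) : ℝ) : ℂ) * FF Ψ (qv i (((j : ℝ) - k) * s)) σ t) := by
    have hF : ∀ q : Fin d → ℝ, Integrable (fun t : ℝ => ((Real.exp (-(t / τ)) : ℝ) : ℂ) *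
        FF Ψ q σ t) (volume.restrict (Set.Ioi (0 : ℝ))) := by
      intro q
      refine Integrable.mono' (abel_int hτ).1 ?_ (Eventually.of_forall fun t => ?_)
      · exact (Measurable.mul (by fun_prop) (LQ.FF_meas hΨ hc q σ)).aestronglyMeasurable
      · rw [norm_mul, Complex.norm_real, Real.norm_eq_abs, abs_of_pos (Real.exp_pos _)]
        exact mul_le_of_le_one_right (Real.exp_pos _).le (LQ.FF_norm hΨ q σ t)
    have e1 : ∀ t : ℝ, ((Real.exp (-(t / τ)) : ℝ) : ℂ) * ∫ ξ, G ξ t ∂(GZ d) =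
        ((((J : ℝ) ^ 2)⁻¹ : ℝ) : ℂ) * ∑ j ∈ Finset.range J, ∑ k ∈ Finset.range J,
          ((Real.exp (-(t / τ)) : ℝ) : ℂ) * FF Ψ (qv i (((j : ℝ) - k) * s)) σ t := by
      intro t
      rw [hG]
      simp only
      rw [Gz_mean hΨ hc]
      simp only [Finset.mul_sum]
      refine Finset.sum_congr rfl fun j _ => Finset.sum_congr rfl fun k _ => ?_
      ring
    simp only [e1]
    rw [integral_const_mul, integral_finsetSum _ fun j _ => integrable_finsetSum _ fun k _ => hF _]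
    have e2 : ∀ j ∈ Finset.range J, ∫ t in Set.Ioi (0 : ℝ), ∑ k ∈ Finset.range J,
        ((Real.exp (-(t / τ)) : ℝ) : ℂ) * FF Ψ (qv i (((j : ℝ) - k) * s)) σ t =
        ∑ k ∈ Finset.range J, ∫ t in Set.Ioi (0 : ℝ),
        ((Real.exp (-(t / τ)) : ℝ) : ℂ) * FF Ψ (qv i (((j : ℝ) - k) * s)) σ t := fun j _ =>
      integral_finsetSum _ fun k _ => hF _
    rw [Finset.sum_congr rfl e2]
    simp only [Finset.mul_sum]
    refine Finset.sum_congr rfl fun j _ => Finset.sum_congr rfl fun k _ => ?_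
    ring
  have c4 : ∫ ξ, (2 * (((τ⁻¹ : ℝ) : ℂ) * ∫ t in Set.Ioi (0 : ℝ),
      ((Real.exp (-(t / τ)) : ℝ) : ℂ) * G ξ t).re) ∂(GZ d) =
      2 * (((J : ℝ) ^ 2)⁻¹ * ∑ j ∈ Finset.range J, ∑ k ∈ Finset.range J,
        (((τ⁻¹ : ℝ) : ℂ) * ∫ t in Set.Ioi (0 : ℝ), ((Real.exp (-(t / τ)) : ℝ) : ℂ) *
          FF Ψ (qv i (((j : ℝ) - k) * s)) σ t).re) := by
    rw [integral_const_mul]
    congr 1
    have e1 : ∫ ξ, (((τ⁻¹ : ℝ) : ℂ) * ∫ t in Set.Ioi (0 : ℝ),
      ((Real.exp (-(t / τ)) : ℝ) : ℂ) * G ξ t).re ∂(GZ d) =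
      (∫ ξ, (((τ⁻¹ : ℝ) : ℂ) * ∫ t in Set.Ioi (0 : ℝ),
      ((Real.exp (-(t / τ)) : ℝ) : ℂ) * G ξ t) ∂(GZ d)).re := integral_re c1
    rw [e1, c2, c3, Complex.re_ofReal_mul, Complex.re_sum]
    congr 1
    refine Finset.sum_congr rfl fun j _ => ?_
    rw [Complex.re_sum]
  rw [← c4]
  exact integral_mono_of_nonneg (Eventually.of_forall fun ξ => (b1 ξ).1)
    (c1.re.const_mul 2) (Eventually.of_forall fun ξ => (b1 ξ).2)

/-- change of the time variable -/
theorem subst_t (F : ℝ → ℂ) {r : ℝ} (hr : 0 < r) :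
    (((r⁻¹)⁻¹ : ℝ) : ℂ) * ∫ t in Set.Ioi (0 : ℝ), ((Real.exp (-(t / r⁻¹)) : ℝ) : ℂ) * F t =
      ∫ s in Set.Ioi (0 : ℝ), ((Real.exp (-s) : ℝ) : ℂ) * F (s / r) := by
  have h1 := integral_comp_mul_left_Ioi (fun s : ℝ => ((Real.exp (-s) : ℝ) : ℂ) * F (s / r)) 0 hr
  rw [mul_zero] at h1
  have h2 : ∀ t : ℝ, ((Real.exp (-(t / r⁻¹)) : ℝ) : ℂ) * F t =
      ((Real.exp (-(r * t)) : ℝ) : ℂ) * F (r * t / r) := by
    intro t
    rw [mul_div_cancel_left₀ _ hr.ne', div_inv_eq_mul, mul_comm t r]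
  simp only [h2]
  rw [h1, inv_inv, Complex.real_smul, ← mul_assoc, ← Complex.ofReal_mul, mul_inv_cancel₀ hr.ne',
    Complex.ofReal_one, one_mul]

end SP

open SP in
theorem spr (h1 : T_LIMA) (h2 : T_DOS) (h3 : T_LAP) (h4 : T_MEAS) : T_SPR := by
  intro d hd h hh0 hh a ha hah Ψ hΨ η hη
  have hc := h4 d Ψ hΨ
  -- the parameters
  obtain ⟨J, hJ⟩ := exists_nat_ge (max 1 (8 / η))
  have hJ1 : (1 : ℝ) ≤ J := (le_max_left _ _).trans hJ
  have hJn : 1 ≤ J := by exact_mod_cast hJ1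
  have hJ2 : 8 / η ≤ J := (le_max_right _ _).trans hJ
  have hJ0 : (0 : ℝ) < J := by linarith
  obtain ⟨A, hA1, hA⟩ := phi_small h2 h3 hd (show 0 < η / 8 by positivity)
  have hA0 : 0 < A := by linarith
  -- the limits
  have l1 : ∀ i : Fin d, ∀ j ∈ Finset.range J, ∀ k ∈ Finset.range J, ∀ᶠ σ in 𝓝[>] (0 : ℝ),
      (∫ s in Set.Ioi (0 : ℝ), ((Real.exp (-s) : ℝ) : ℂ) *
        FF Ψ (qv i (((j : ℝ) - k) * (σ ^ (2 + h / 2) * A))) σ (s / σ ^ (2 + h))).re ≤
      (∫ E, fl d (qv i (((j : ℝ) - k) * A)) 1 E) + η / 8 := by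
    intro i j _ k _
    have e1 := h1 d hd h hh0 hh Ψ hΨ (qv i (((j : ℝ) - k) * A))
    have e2 := (Complex.continuous_re.tendsto _).comp e1
    rw [Complex.ofReal_re] at e2
    have e3 := e2.eventually (ge_mem_nhds (show (∫ E, fl d (qv i (((j : ℝ) - k) * A)) 1 E) <
      (∫ E, fl d (qv i (((j : ℝ) - k) * A)) 1 E) + η / 8 by linarith))
    filter_upwards [e3] with σ hσ
    simp only [Function.comp_apply, qv_scale] at hσ
    have e4 : σ ^ (2 + h / 2) * (((j : ℝ) - k) * A) = ((j : ℝ) - k) * (σ ^ (2 + h / 2) * A) := by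
      ring
    rw [e4] at hσ
    exact hσ
  have l2 : ∀ᶠ σ in 𝓝[>] (0 : ℝ), ∀ i : Fin d, ∀ j ∈ Finset.range J, ∀ k ∈ Finset.range J,
      (∫ s in Set.Ioi (0 : ℝ), ((Real.exp (-s) : ℝ) : ℂ) *
        FF Ψ (qv i (((j : ℝ) - k) * (σ ^ (2 + h / 2) * A))) σ (s / σ ^ (2 + h))).re ≤
      (∫ E, fl d (qv i (((j : ℝ) - k) * A)) 1 E) + η / 8 := by
    rw [eventually_all]
    intro i
    rw [Filter.eventually_all_finset]
    intro j hj
    rw [Filter.eventually_all_finset]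
    intro k hk
    exact l1 i j hj k hk
  -- the scale
  have l3 : ∀ᶠ σ in 𝓝[>] (0 : ℝ), (J : ℝ) * A * 5 * σ ^ (h / 2 - a) ≤ 1 / 2 := by
    have e1 : Tendsto (fun σ : ℝ => (J : ℝ) * A * 5 * σ ^ (h / 2 - a)) (𝓝[>] 0) (𝓝 0) := by
      have e2 : Tendsto (fun σ : ℝ => σ ^ (h / 2 - a)) (𝓝[>] 0) (𝓝 0) := by
        have e3 := (Real.continuousAt_rpow_const (0 : ℝ) (h / 2 - a) (Or.inr (by linarith))).tendsto
        rw [Real.zero_rpow (by linarith)] at e3
        exact e3.mono_left nhdsWithin_le_nhds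
      have := e2.const_mul ((J : ℝ) * A * 5)
      rwa [mul_zero] at this
    exact e1.eventually (ge_mem_nhds (by norm_num))
  filter_upwards [l2, l3, self_mem_nhdsWithin] with σ hl2 hl3 hσ i M hM hMσ
  have hσ0 : (0 : ℝ) < σ := hσ
  have hs0 : 0 < σ ^ (2 + h / 2) * A := by positivity
  have hcond : (J : ℝ) * (σ ^ (2 + h / 2) * A * M) ≤ 1 / 2 := by
    refine le_trans ?_ hl3
    have e1 : σ ^ (2 + h / 2) * σ ^ (-2 - a) = σ ^ (h / 2 - a) := by
      rw [← Real.rpow_add hσ0]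
      congr 1
      ring
    calc (J : ℝ) * (σ ^ (2 + h / 2) * A * M) ≤
          (J : ℝ) * (σ ^ (2 + h / 2) * A * (5 * σ ^ (-2 - a))) := by gcongr
      _ = (J : ℝ) * A * 5 * (σ ^ (2 + h / 2) * σ ^ (-2 - a)) := by ring
      _ = _ := by rw [e1]
  have hr0 : 0 < σ ^ (2 + h) := Real.rpow_pos_of_pos hσ0 _
  have hτ : σ ^ (-2 - h) = (σ ^ (2 + h))⁻¹ := by
    rw [← Real.rpow_neg hσ0.le]
    congr 1
    ring
  rw [hτ]
  refine (Wz_bd hΨ hc J M hJn hM i _ hs0.le hcond σ _ (inv_pos.2 hr0)).trans ?_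
  have hterm : ∀ j ∈ Finset.range J, ∀ k ∈ Finset.range J,
      (((((σ ^ (2 + h))⁻¹)⁻¹ : ℝ) : ℂ) * ∫ t in Set.Ioi (0 : ℝ),
        ((Real.exp (-(t / (σ ^ (2 + h))⁻¹)) : ℝ) : ℂ) *
          FF Ψ (qv i (((j : ℝ) - k) * (σ ^ (2 + h / 2) * A))) σ t).re ≤
      (if j = k then 1 else 0) + η / 4 := by
    intro j hj k hk
    rw [subst_t _ hr0]
    refine (hl2 i j hj k hk).trans ?_
    by_cases hjk : j = k
    · rw [if_pos hjk]
      have := phi_le h2 h3 hd i (((j : ℝ) - k) * A)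
      linarith
    · rw [if_neg hjk]
      have e1 : 1 ≤ |(j : ℝ) - k| := by
        have : (1 : ℤ) ≤ |(j : ℤ) - k| := Int.one_le_abs (by omega)
        exact_mod_cast this
      have e2 : A ≤ |((j : ℝ) - k) * A| := by
        rw [abs_mul, abs_of_pos hA0]
        nlinarith
      have := hA i _ e2
      linarith
  have hsum : ∑ j ∈ Finset.range J, ∑ k ∈ Finset.range J,
      (((((σ ^ (2 + h))⁻¹)⁻¹ : ℝ) : ℂ) * ∫ t in Set.Ioi (0 : ℝ),
        ((Real.exp (-(t / (σ ^ (2 + h))⁻¹)) : ℝ) : ℂ) *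
          FF Ψ (qv i (((j : ℝ) - k) * (σ ^ (2 + h / 2) * A))) σ t).re ≤
      J + J ^ 2 * (η / 4) := by
    calc _ ≤ ∑ j ∈ Finset.range J, ∑ k ∈ Finset.range J,
          (((if j = k then 1 else 0) : ℝ) + η / 4) :=
          Finset.sum_le_sum fun j hj => Finset.sum_le_sum fun k hk => hterm j hj k hk
      _ = J + J ^ 2 * (η / 4) := by
          have : ∀ j ∈ Finset.range J, ∑ k ∈ Finset.range J,
              (((if j = k then 1 else 0) : ℝ) + η / 4) = 1 + J * (η / 4) := by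
            intro j hj
            rw [Finset.sum_add_distrib, Finset.sum_ite_eq, if_pos hj]
            simp
          rw [Finset.sum_congr rfl this, Finset.sum_const, Finset.card_range, nsmul_eq_mul]
          ring
  calc _ ≤ 2 * (((J : ℝ) ^ 2)⁻¹ * (J + J ^ 2 * (η / 4))) := by gcongr
    _ = 2 / J + η / 2 := by
        field_simp
        ring
    _ ≤ η := by
        have : 2 / (J : ℝ) ≤ η / 4 := by
          rw [div_le_div_iff₀ hJ0 (by norm_num)]
          rw [div_le_iff₀ hη] at hJ2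
          linarith
        linarith

end Pool.Agent.T2h98.QD
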