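import Pool.Agent.T2h98.QD.Stm12
import Pool.Agent.T2h98.QD.Spr

/-! The integral over the energies, small tori (task INT3, helper1). -/

set_option autoImplicit false
set_option linter.unusedSectionVars false

open scoped BigOperators Matrix Topology
open MeasureTheory ProbabilityTheory Filter

namespace Pool.Agent.T2h98.QD

open Pool.Agent.W788.MFP.Four (T e NN adj K)
open Pool.Agent.W788.BK (nsq hs PP JJ hi Low cr)

namespace I3

theorem rpow_small {C p δ : ℝ} (hp : 0 < p) (hδ : 0 < δ) :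
    ∀ᶠ σ : ℝ in 𝓝[>] 0, C * σ ^ p ≤ δ := by
  have e1 : Tendsto (fun σ : ℝ => C * σ ^ p) (𝓝[>] 0) (𝓝 0) := by
    have e2 : Tendsto (fun σ : ℝ => σ ^ p) (𝓝[>] 0) (𝓝 0) := by
      have e3 := (Real.continuousAt_rpow_const (0 : ℝ) p (Or.inr hp.le)).tendsto
      rw [Real.zero_rpow hp.ne'] at e3
      exact e3.mono_left nhdsWithin_le_nhds
    have := e2.const_mul C
    rwa [mul_zero] at this
  exact e1.eventually (ge_mem_nhds hδ)

/-- the scale of the imaginary part -/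
theorem eps_bd {σ τ a b h : ℝ} (hσ : 0 < σ) (hτ : 0 < τ) (e1 : 2 * τ * σ ^ (h - 2 * b) ≤ 1)
    (e2 : 1 * σ ^ (2 * a) ≤ 2 * τ) {L : ℝ} (h1 : σ ^ (-2 - a) ≤ L) (h2 : L ≤ σ ^ (-2 - b)) :
    σ ^ (2 + h) ≤ 1 / (2 * (τ * σ ^ 2 * L ^ 2)) ∧ 1 / (2 * (τ * σ ^ 2 * L ^ 2)) ≤ σ ^ 2 := by
  have p1 : 0 < σ ^ (-2 - a) := Real.rpow_pos_of_pos hσ _
  have hL : 0 < L := by linarith
  have q1 : (σ ^ (-2 - a)) ^ 2 = σ ^ (-4 - 2 * a) := by
    rw [← Real.rpow_natCast, ← Real.rpow_mul hσ.le]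
    congr 1
    push_cast
    ring
  have q2 : (σ ^ (-2 - b)) ^ 2 = σ ^ (-4 - 2 * b) := by
    rw [← Real.rpow_natCast, ← Real.rpow_mul hσ.le]
    congr 1
    push_cast
    ring
  have q3 : σ ^ 2 = σ ^ (2 : ℝ) := (Real.rpow_two σ).symm
  have r1 : σ ^ (-4 - 2 * a) ≤ L ^ 2 := by
    rw [← q1]
    gcongr
  have r2 : L ^ 2 ≤ σ ^ (-4 - 2 * b) := by
    rw [← q2]
    gcongr
  constructor
  · rw [le_div_iff₀ (by positivity)]
    calc σ ^ (2 + h) * (2 * (τ * σ ^ 2 * L ^ 2)) ≤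
          σ ^ (2 + h) * (2 * (τ * σ ^ 2 * σ ^ (-4 - 2 * b))) := by gcongr
      _ = 2 * τ * (σ ^ (2 + h) * σ ^ (2 : ℝ) * σ ^ (-4 - 2 * b)) := by rw [q3]; ring
      _ = 2 * τ * σ ^ (h - 2 * b) := by
          rw [← Real.rpow_add hσ, ← Real.rpow_add hσ]
          congr 2
          ring
      _ ≤ 1 := e1
  · rw [div_le_iff₀ (by positivity)]
    have e3 : 1 ≤ σ ^ (-(2 * a)) * (2 * τ) := by
      have e4 : σ ^ (-(2 * a)) * σ ^ (2 * a) = 1 := by
        rw [← Real.rpow_add hσ]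
        simp
      calc (1 : ℝ) = σ ^ (-(2 * a)) * (1 * σ ^ (2 * a)) := by rw [one_mul, e4]
        _ ≤ _ := by gcongr
    calc (1 : ℝ) ≤ σ ^ (-(2 * a)) * (2 * τ) := e3
      _ = σ ^ (2 : ℝ) * (2 * (τ * σ ^ (2 : ℝ) * σ ^ (-4 - 2 * a))) := by
          have : σ ^ (-(2 * a)) = σ ^ (2 : ℝ) * σ ^ (2 : ℝ) * σ ^ (-4 - 2 * a) := by
            rw [← Real.rpow_add hσ, ← Real.rpow_add hσ]
            congr 1
            ring
          rw [this]
          ring
      _ ≤ σ ^ 2 * (2 * (τ * σ ^ 2 * L ^ 2)) := by rw [← q3]; gcongr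

/-- the limit of the sequence of integrals -/
theorem core {G : Set ℝ} (hG : MeasurableSet G) (hGf : volume G < ⊤) {ρ : ℝ → ℝ} {F : ℝ → ℂ}
    (hρ : Integrable ρ) {f : ℕ → ℝ → ℂ} {g : ℕ → ℝ → ℝ} (hf : ∀ n, Integrable (f n))
    (hg : ∀ n, Integrable (g n)) (hfg : ∀ n E, ‖f n E‖ ≤ g n E)
    (hu : ∀ δ : ℝ, 0 < δ → ∀ᶠ n in atTop, ∀ E ∈ G, |g n E - ρ E| ≤ δ)
    (hl : ∀ E ∈ G, Tendsto (fun n => f n E) atTop (𝓝 (F E))) :
    Tendsto (fun n => ∫ E in G, f n E) atTop (𝓝 (∫ E in G, F E)) ∧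
    Tendsto (fun n => ∫ E in G, g n E) atTop (𝓝 (∫ E in G, ρ E)) := by
  have : IsFiniteMeasure (volume.restrict G) := ⟨by rwa [Measure.restrict_apply_univ]⟩
  have hb : Integrable (fun E => |ρ E| + 1) (volume.restrict G) :=
    (hρ.abs.integrableOn (s := G)).add (integrable_const 1)
  have hgb : ∀ᶠ n in atTop, ∀ E ∈ G, |g n E| ≤ |ρ E| + 1 := by
    filter_upwards [hu 1 one_pos] with n hn E hE
    have h1 := hn E hE
    have h2 := abs_sub_abs_le_abs_sub (g n E) (ρ E)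
    linarith
  constructor
  · refine tendsto_integral_filter_of_dominated_convergence (fun E => |ρ E| + 1) ?_ ?_ hb ?_
    · exact Eventually.of_forall fun n => (hf n).aestronglyMeasurable.restrict
    · filter_upwards [hgb] with n hn
      refine (ae_restrict_iff' hG).2 (Eventually.of_forall fun E hE => ?_)
      exact (hfg n E).trans ((le_abs_self _).trans (hn E hE))
    · exact (ae_restrict_iff' hG).2 (Eventually.of_forall fun E hE => hl E hE)
  · refine tendsto_integral_filter_of_dominated_convergence (fun E => |ρ E| + 1) ?_ ?_ hb ?_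
    · exact Eventually.of_forall fun n => (hg n).aestronglyMeasurable.restrict
    · filter_upwards [hgb] with n hn
      refine (ae_restrict_iff' hG).2 (Eventually.of_forall fun E hE => ?_)
      rw [Real.norm_eq_abs]
      exact hn E hE
    · refine (ae_restrict_iff' hG).2 (Eventually.of_forall fun E hE => ?_)
      rw [Metric.tendsto_atTop]
      intro δ hδ
      obtain ⟨N, hN⟩ := eventually_atTop.1 (hu (δ / 2) (by linarith))
      refine ⟨N, fun n hn => ?_⟩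
      rw [Real.dist_eq]
      have := hN n hn E hE
      linarith

/-- the comparison for one term -/
theorem one {G : Set ℝ} (hG : MeasurableSet G) {f : ℝ → ℂ} {g : ℝ → ℝ} (hf : Integrable f)
    (hg : Integrable g) (hfg : ∀ E, ‖f E‖ ≤ g E) :
    ‖∫ E, f E‖ ≤ ‖∫ E in G, f E‖ + ((∫ E, g E) - ∫ E in G, g E) := by
  have e1 := integral_add_compl hG hf
  have e2 := integral_add_compl hG hg
  rw [← e1]
  refine (norm_add_le _ _).trans ?_
  have h1 : ‖∫ E in Gᶜ, f E‖ ≤ ∫ E in Gᶜ, g E :=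
    norm_integral_le_of_norm_le hg.integrableOn (Eventually.of_forall hfg)
  linarith

end I3

open I3 in
theorem int3 (hs : T_SCAL3) (hl : T_LIM3) (hi : T_IMS) (h0 : T_SR0) (hdos : T_DOS)
    (hlap : T_LAP) : T_INT3 := by
  intro d hd a b ha hb m hm η hη
  obtain ⟨cn, cw, n0, w0, hvan, -⟩ := hdos d hd
  obtain ⟨-, -, hni, hn1, -⟩ := hlap d hd 0
  have hpi := Real.pi_pos
  have hd0 : (0 : ℝ) < d := by
    have : 0 < d := by omega
    exact_mod_cast this
  -- the parameter `τ`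
  obtain ⟨A, hA1, hA⟩ := SP.phi_small hdos hlap hd (show 0 < η / 4 by positivity)
  obtain ⟨S2, hS2⟩ : ∃ S2 : ℝ, S2 = ∑ i, (2 * Real.pi * (m i : ℝ)) ^ 2 := ⟨_, rfl⟩
  have hS2p : 0 < S2 := by
    obtain ⟨i, hi'⟩ : ∃ i, m i ≠ 0 := by
      by_contra hcon
      push Not at hcon
      exact hm (funext hcon)
    rw [hS2]
    refine Finset.sum_pos' (fun i _ => sq_nonneg _) ⟨i, Finset.mem_univ _, ?_⟩
    have : (m i : ℝ) ≠ 0 := by exact_mod_cast hi'
    positivity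
  obtain ⟨τ, hτ⟩ : ∃ τ : ℝ, τ = A ^ 2 / S2 := ⟨_, rfl⟩
  have hτ0 : 0 < τ := by rw [hτ]; positivity
  have hτS : τ * S2 = A ^ 2 := by rw [hτ]; field_simp
  obtain ⟨i0⟩ : Nonempty (Fin d) := ⟨⟨0, by omega⟩⟩
  have hfl : ∀ E, fl d (fun i => 2 * Real.pi * m i) τ E = fl d (SP.qv i0 A) 1 E := by
    intro E
    unfold fl
    rw [SP.qv_sq, ← hS2, hτS, one_mul]
  have hfli : ∫ E, fl d (fun i => 2 * Real.pi * m i) τ E ≤ η / 4 := by
    simp only [hfl]
    exact hA i0 A (le_abs_self A)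
  have hfl0 : ∀ E, 0 ≤ fl d (fun i => 2 * Real.pi * m i) τ E := by
    intro E
    unfold fl
    have := w0 E
    have := n0 E
    positivity
  obtain ⟨-, -, -, -, hflint⟩ := hlap d hd (fun i => 2 * Real.pi * m i)
  have hflI := (hflint τ hτ0).1
  -- the good energies
  obtain ⟨c, hc⟩ : ∃ c : ℝ, c = η / (16 * d) := ⟨_, rfl⟩
  have hc0 : 0 < c := by rw [hc]; positivity
  obtain ⟨G, hGd⟩ : ∃ G : Set ℝ, G = {E | c ≤ dn d E} := ⟨_, rfl⟩
  have hG : MeasurableSet G := by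
    rw [hGd]
    exact (isClosed_le continuous_const cn).measurableSet
  have hsub : G ⊆ Set.Icc (-(2 * (d : ℝ))) (2 * d) := by
    intro E hE
    rw [hGd] at hE
    have hE' : c ≤ dn d E := hE
    by_contra hcon
    have : 2 * (d : ℝ) ≤ |E| := by
      by_contra h2
      push Not at h2
      exact hcon ⟨(abs_lt.1 h2).1.le, (abs_lt.1 h2).2.le⟩
    rw [(hvan E this).1] at hE'
    linarith
  have hGf : volume G < ⊤ := lt_of_le_of_lt (measure_mono hsub) (by simp)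
  have hout : 1 - ∫ E in G, dn d E ≤ η / 4 := by
    have e1 := integral_add_compl hG hni
    rw [hn1] at e1
    have e2 : ∫ E in Gᶜ, dn d E ≤ ∫ E in Gᶜ,
        Set.indicator (Set.Icc (-(2 * (d : ℝ))) (2 * d)) (fun _ => c) E := by
      refine setIntegral_mono_on hni.integrableOn ?_ hG.compl fun E hE => ?_
      · apply Integrable.integrableOn
        rw [integrable_indicator_iff measurableSet_Icc]
        exact integrableOn_const (by simp)
      · rw [hGd] at hE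
        have hE' : dn d E < c := not_le.1 hE
        by_cases h1 : E ∈ Set.Icc (-(2 * (d : ℝ))) (2 * d)
        · rw [Set.indicator_of_mem h1]
          exact hE'.le
        · rw [Set.indicator_of_notMem h1]
          have : 2 * (d : ℝ) ≤ |E| := by
            by_contra h2
            push Not at h2
            exact h1 ⟨(abs_lt.1 h2).1.le, (abs_lt.1 h2).2.le⟩
          exact (hvan E this).1.le
    have e3 : ∫ E in Gᶜ, Set.indicator (Set.Icc (-(2 * (d : ℝ))) (2 * d)) (fun _ => c) E ≤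
        ∫ E : ℝ, Set.indicator (Set.Icc (-(2 * (d : ℝ))) (2 * d)) (fun _ => c) E := by
      apply setIntegral_le_integral
      · rw [integrable_indicator_iff measurableSet_Icc]
        exact integrableOn_const (by simp)
      · exact Eventually.of_forall fun E => Set.indicator_nonneg (fun _ _ => hc0.le) _
    have e4 : ∫ E : ℝ, Set.indicator (Set.Icc (-(2 * (d : ℝ))) (2 * d)) (fun _ => c) E =
        η / 4 := by
      rw [integral_indicator measurableSet_Icc, setIntegral_const, smul_eq_mul,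
        Measure.real, Real.volume_Icc, ENNReal.toReal_ofReal (by linarith), hc]
      field_simp
      ring
    linarith
  -- the exponent
  obtain ⟨h, hh0, hhb, hh2⟩ : ∃ h : ℝ, 0 < h ∧ 2 * b < h ∧
      h < (if d = 3 then 1 else 2) / (2 + 1 / 2) := by
    have hB : max 0 (2 * b) < (if d = 3 then (1 : ℝ) else 2) / (2 + 1 / 2) := by
      apply max_lt
      · split_ifs <;> norm_num
      · split_ifs with h3
        · rw [if_pos h3] at hb
          norm_num
          linarith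
        · rw [if_neg h3] at hb
          norm_num
          linarith
    obtain ⟨h, h1, h2⟩ := exists_between hB
    exact ⟨h, lt_of_le_of_lt (le_max_left _ _) h1, lt_of_le_of_lt (le_max_right _ _) h1, h2⟩
  refine ⟨τ, hτ0, ?_⟩
  by_contra hcon
  rw [Filter.not_eventually] at hcon
  have hev : ∀ᶠ σ : ℝ in 𝓝[>] 0, (0 < σ ∧ σ < 1) ∧
      (2 * τ * σ ^ (h - 2 * b) ≤ 1 ∧ 1 * σ ^ (2 * a) ≤ 2 * τ) := by
    have u1 : ∀ᶠ σ : ℝ in 𝓝[>] 0, 0 < σ := self_mem_nhdsWithin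
    have u2 : ∀ᶠ σ : ℝ in 𝓝[>] 0, σ < 1 := nhdsWithin_le_nhds (Iio_mem_nhds one_pos)
    exact (u1.and u2).and ((rpow_small (by linarith) one_pos).and
      (rpow_small (by linarith) (by linarith)))
  obtain ⟨s, hs1, hs2⟩ := exists_seq_forall_of_frequently (hcon.and_eventually hev)
  have hex : ∀ n, ∃ (L : ℕ) (_ : NeZero L), s n ^ (-2 - a) ≤ (L : ℝ) ∧ (L : ℝ) ≤ s n ^ (-2 - b) ∧
      η < ‖((1 / (2 * (τ * s n ^ 2 * (L : ℝ) ^ 2)) / Real.pi : ℝ) : ℂ) * ∫ E : ℝ,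
        Sr d L (s n) E (1 / (2 * (τ * s n ^ 2 * (L : ℝ) ^ 2))) (fun i => (m i : ZMod L))‖ := by
    intro n
    have h1 := (hs2 n).1
    push Not at h1
    obtain ⟨L, iL, h2, h3, h4⟩ := h1
    exact ⟨L, iL, h2, h3, h4⟩
  choose L iL hL1 hL2 hL3 using hex
  have : ∀ n, NeZero (L n) := iL
  obtain ⟨ε, hε⟩ : ∃ ε : ℕ → ℝ, ∀ n, ε n = 1 / (2 * (τ * s n ^ 2 * (L n : ℝ) ^ 2)) :=
    ⟨_, fun n => rfl⟩
  have hσ0 : ∀ n, 0 < s n := fun n => (hs2 n).2.1.1
  have hσ1 : ∀ n, s n < 1 := fun n => (hs2 n).2.1.2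
  have hεb : ∀ n, s n ^ (2 + h) ≤ ε n ∧ ε n ≤ s n ^ 2 := by
    intro n
    rw [hε]
    exact eps_bd (hσ0 n) hτ0 (hs2 n).2.2.1 (hs2 n).2.2.2 (hL1 n) (hL2 n)
  have hε0 : ∀ n, 0 < ε n := fun n =>
    lt_of_lt_of_le (Real.rpow_pos_of_pos (hσ0 n) _) (hεb n).1
  have hL13 : ∀ n, (L n : ℝ) ≤ s n ^ (-13 : ℝ) := by
    intro n
    refine (hL2 n).trans (Real.rpow_le_rpow_of_exponent_ge (hσ0 n) (hσ1 n).le ?_)
    have : b < 1 := by
      refine hb.trans ?_
      split_ifs <;> norm_num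
    linarith
  obtain ⟨f, hf⟩ : ∃ f : ℕ → ℝ → ℂ, ∀ n E, f n E = ((ε n : ℝ) : ℂ) *
      Sr d (L n) (s n) E (ε n) (fun i => (m i : ZMod (L n))) := ⟨_, fun n E => rfl⟩
  obtain ⟨g, hg⟩ : ∃ g : ℕ → ℝ → ℝ, ∀ n E, g n E = (mT d (L n) (s n) E (ε n)).im :=
    ⟨_, fun n E => rfl⟩
  have hS := fun n => h0 d (L n) (s n) (ε n) (hε0 n)
  have hfI : ∀ n, Integrable (f n) := by
    intro n
    have h1 := ((hS n).2.2.2.2.1 (fun i => (m i : ZMod (L n)))).const_mul ((ε n : ℝ) : ℂ)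
    exact h1.congr (Eventually.of_forall fun E => (hf n E).symm)
  have hgI : ∀ n, Integrable (g n) := by
    intro n
    exact (hS n).2.2.1.congr (Eventually.of_forall fun E => (hg n E).symm)
  have hgint : ∀ n, ∫ E, g n E = Real.pi := by
    intro n
    simp only [hg]
    exact (hS n).2.2.2.1
  have hfg : ∀ n E, ‖f n E‖ ≤ g n E := by
    intro n E
    rw [hf, hg, norm_mul, Complex.norm_real, Real.norm_eq_abs, abs_of_pos (hε0 n)]
    exact (hS n).2.1 E _
  have hu : ∀ δ : ℝ, 0 < δ → ∀ᶠ n in atTop, ∀ E ∈ G, |g n E - Real.pi * dn d E| ≤ δ := by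
    intro δ hδ
    filter_upwards [hs1.eventually (hi d hd h a hh0 hh2 ha c δ hc0 hδ)] with n hn E hE
    rw [hg]
    rw [hGd] at hE
    exact hn (L n) (hL1 n) (hL13 n) (ε n) (hεb n).1 (hεb n).2 E hE
  have hlim : ∀ E ∈ G, Tendsto (fun n => f n E) atTop
      (𝓝 ((Real.pi * fl d (fun i => 2 * Real.pi * m i) τ E : ℝ) : ℂ)) := by
    intro E hE
    rw [hGd] at hE
    have hE' : 0 < dn d E := lt_of_lt_of_le hc0 hE
    rw [Metric.tendsto_atTop]
    intro δ hδ
    obtain ⟨N, hN⟩ := eventually_atTop.1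
      (hs1.eventually (hl d hd a b ha hb τ hτ0 m E hE' (δ / 2) (by linarith)))
    refine ⟨N, fun n hn => ?_⟩
    have h1 := hN n hn (L n) (hL1 n) (hL2 n)
    rw [dist_eq_norm, hf, hε]
    linarith
  obtain ⟨c1, c2⟩ := core hG hGf (hni.const_mul Real.pi) hfI hgI hfg hu hlim
  have hT : Tendsto (fun n => Real.pi⁻¹ * (‖∫ E in G, f n E‖ + (Real.pi - ∫ E in G, g n E)))
      atTop (𝓝 (Real.pi⁻¹ * (‖∫ E in G, ((Real.pi * fl d (fun i => 2 * Real.pi * m i) τ E : ℝ) : ℂ)‖ +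
        (Real.pi - ∫ E in G, Real.pi * dn d E)))) :=
    (c1.norm.add (c2.const_sub _)).const_mul _
  have hΛ : Real.pi⁻¹ * (‖∫ E in G, ((Real.pi * fl d (fun i => 2 * Real.pi * m i) τ E : ℝ) : ℂ)‖ +
        (Real.pi - ∫ E in G, Real.pi * dn d E)) < η := by
    rw [integral_complex_ofReal, Complex.norm_real, integral_const_mul, integral_const_mul,
      Real.norm_eq_abs]
    have k0 : 0 ≤ ∫ E in G, fl d (fun i => 2 * Real.pi * m i) τ E :=
      setIntegral_nonneg hG fun E _ => hfl0 E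
    rw [abs_of_nonneg (mul_nonneg hpi.le k0)]
    have k1 : ∫ E in G, fl d (fun i => 2 * Real.pi * m i) τ E ≤ η / 4 :=
      (setIntegral_le_integral hflI (Eventually.of_forall hfl0)).trans hfli
    have k2 : Real.pi⁻¹ * (Real.pi * (∫ E in G, fl d (fun i => 2 * Real.pi * m i) τ E) +
        (Real.pi - Real.pi * ∫ E in G, dn d E)) =
        (∫ E in G, fl d (fun i => 2 * Real.pi * m i) τ E) + (1 - ∫ E in G, dn d E) := by
      field_simp
    rw [k2]
    linarith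
  obtain ⟨n, hn⟩ := (hT.eventually (gt_mem_nhds hΛ)).exists
  refine absurd (hL3 n) (not_lt.2 (le_trans (le_of_eq ?_) (le_trans (mul_le_mul_of_nonneg_left
    (one hG (hfI n) (hgI n) (hfg n)) (inv_pos.2 hpi).le) (by rw [hgint]; exact hn.le))))
  have e1 : ∫ E, f n E = ((ε n : ℝ) : ℂ) * ∫ E : ℝ,
      Sr d (L n) (s n) E (ε n) (fun i => (m i : ZMod (L n))) := by
    simp only [hf]
    exact integral_const_mul _ _
  rw [← hε, e1, norm_mul, norm_mul, Complex.norm_real, Complex.norm_real, Real.norm_eq_abs,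
    Real.norm_eq_abs, abs_of_pos (hε0 n), abs_of_pos (div_pos (hε0 n) hpi)]
  ring

end Pool.Agent.T2h98.QD
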