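import Pool.Agent.T2h98.QD.Stm12

/-! Riemann sums with exponentially small errors. -/

set_option autoImplicit false
set_option linter.unusedSectionVars false

open scoped BigOperators Matrix Topology
open MeasureTheory ProbabilityTheory Filter

namespace Pool.Agent.T2h98.QD

open Pool.Agent.W788.BK (cr)

namespace JL3A

/-- the mean of a character of the circle -/
theorem int_char (m : ℤ) : ((2 * Real.pi : ℝ) : ℂ)⁻¹ *
    ∫ k in (-Real.pi)..Real.pi, Complex.exp ((m : ℂ) * Complex.I * ((k : ℝ) : ℂ)) =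
      if m = 0 then 1 else 0 := by
  have hpi : (Real.pi : ℂ) ≠ 0 := by exact_mod_cast Real.pi_ne_zero
  split_ifs with h
  · subst h
    simp only [Int.cast_zero, zero_mul, Complex.exp_zero, intervalIntegral.integral_const,
      sub_neg_eq_add]
    rw [Complex.real_smul]
    push_cast
    field_simp
    ring
  · have hc : (m : ℂ) * Complex.I ≠ 0 :=
      mul_ne_zero (by exact_mod_cast h) Complex.I_ne_zero
    rw [integral_exp_mul_complex hc]
    have e1 : Complex.exp ((m : ℂ) * Complex.I * ((Real.pi : ℝ) : ℂ)) =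
        Complex.exp ((m : ℂ) * Complex.I * ((-Real.pi : ℝ) : ℂ)) := by
      rw [Complex.exp_eq_exp_iff_exists_int]
      exact ⟨m, by push_cast; ring⟩
    rw [e1, sub_self, zero_div, mul_zero]

/-- the mean of a character of the cyclic group -/
theorem sum_char {L : ℕ} [NeZero L] (m : ℤ) (h : |m| < L) : (L : ℂ)⁻¹ *
    ∑ j : ZMod L, ZMod.stdAddChar (j * (m : ZMod L)) = if m = 0 then 1 else 0 := by
  have hL : (L : ℂ) ≠ 0 := by exact_mod_cast NeZero.ne L
  rw [AddChar.sum_mulShift _ (ZMod.isPrimitive_stdAddChar L), ZMod.card]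
  have e1 : ((m : ZMod L) = 0) ↔ m = 0 := by
    rw [ZMod.intCast_zmod_eq_zero_iff_dvd]
    constructor
    · intro h1
      exact Int.eq_zero_of_abs_lt_dvd h1 h
    · rintro rfl
      exact dvd_zero _
  by_cases hm : m = 0
  · rw [if_pos (e1.2 hm), if_pos hm, inv_mul_cancel₀ hL]
  · rw [if_neg (fun h => hm (e1.1 h)), if_neg hm, Nat.cast_zero, mul_zero]

theorem cr_half {L : ℕ} [NeZero L] (j : ZMod L) : ((cr j : ℝ) : ℂ) =
    (ZMod.stdAddChar j + ZMod.stdAddChar (-j)) / 2 := by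
  unfold cr
  have h1 : (ZMod.stdAddChar (-j) : ℂ) = (starRingEnd ℂ) (ZMod.stdAddChar j) := by
    rw [AddChar.map_neg_eq_inv, Complex.inv_def]
    have h2 : Complex.normSq (ZMod.stdAddChar j : ℂ) = 1 := by
      rw [Complex.normSq_eq_norm_sq, AddChar.norm_apply, one_pow]
    rw [h2]
    simp
  rw [h1, Complex.re_eq_add_conj]

theorem cos_half (k : ℝ) : ((Real.cos k : ℝ) : ℂ) =
    (Complex.exp (Complex.I * (k : ℂ)) + Complex.exp (-(Complex.I * (k : ℂ)))) / 2 := by
  rw [Complex.ofReal_cos, Complex.cos]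
  congr 2
  · congr 1
    ring
  · congr 1
    ring

/-- monomials times characters -/
theorem mono {L : ℕ} [NeZero L] (n : ℕ) : ∀ m : ℤ, |m| + n < L →
    (L : ℂ)⁻¹ * ∑ j : ZMod L, ((cr j : ℝ) : ℂ) ^ n * ZMod.stdAddChar (j * (m : ZMod L)) =
    ((2 * Real.pi : ℝ) : ℂ)⁻¹ * ∫ k in (-Real.pi)..Real.pi,
      ((Real.cos k : ℝ) : ℂ) ^ n * Complex.exp ((m : ℂ) * Complex.I * ((k : ℝ) : ℂ)) := by
  induction n with
  | zero =>
    intro m hm
    simp only [pow_zero, one_mul]
    rw [int_char, sum_char m (by simpa using hm)]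
  | succ n ih =>
    intro m hm
    have h1 : |m + 1| + n < L := by
      have := abs_add_le m 1
      rw [abs_one] at this
      push_cast at hm
      linarith
    have h2 : |m - 1| + n < L := by
      have := abs_sub m 1
      rw [abs_one] at this
      push_cast at hm
      linarith
    have e1 : ∀ j : ZMod L, ((cr j : ℝ) : ℂ) ^ (n + 1) * ZMod.stdAddChar (j * (m : ZMod L)) =
        2⁻¹ * (((cr j : ℝ) : ℂ) ^ n * ZMod.stdAddChar (j * ((m + 1 : ℤ) : ZMod L))) +
        2⁻¹ * (((cr j : ℝ) : ℂ) ^ n * ZMod.stdAddChar (j * ((m - 1 : ℤ) : ZMod L))) := by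
      intro j
      have a1 : j * ((m + 1 : ℤ) : ZMod L) = j + j * (m : ZMod L) := by
        push_cast
        ring
      have a2 : j * ((m - 1 : ℤ) : ZMod L) = -j + j * (m : ZMod L) := by
        push_cast
        ring
      rw [a1, a2, AddChar.map_add_eq_mul, AddChar.map_add_eq_mul, pow_succ, cr_half]
      ring
    have e2 : ∀ k : ℝ, ((Real.cos k : ℝ) : ℂ) ^ (n + 1) *
        Complex.exp ((m : ℂ) * Complex.I * ((k : ℝ) : ℂ)) =
        2⁻¹ * (((Real.cos k : ℝ) : ℂ) ^ n *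
          Complex.exp (((m + 1 : ℤ) : ℂ) * Complex.I * ((k : ℝ) : ℂ))) +
        2⁻¹ * (((Real.cos k : ℝ) : ℂ) ^ n *
          Complex.exp (((m - 1 : ℤ) : ℂ) * Complex.I * ((k : ℝ) : ℂ))) := by
      intro k
      have a1 : ((m + 1 : ℤ) : ℂ) * Complex.I * ((k : ℝ) : ℂ) =
          Complex.I * (k : ℂ) + (m : ℂ) * Complex.I * ((k : ℝ) : ℂ) := by
        push_cast
        ring
      have a2 : ((m - 1 : ℤ) : ℂ) * Complex.I * ((k : ℝ) : ℂ) =
          -(Complex.I * (k : ℂ)) + (m : ℂ) * Complex.I * ((k : ℝ) : ℂ) := by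
        push_cast
        ring
      rw [a1, a2, Complex.exp_add, Complex.exp_add, pow_succ, cos_half]
      ring
    simp only [e1, e2]
    rw [Finset.sum_add_distrib, ← Finset.mul_sum, ← Finset.mul_sum,
      intervalIntegral.integral_add (Continuous.intervalIntegrable (by fun_prop) _ _)
        (Continuous.intervalIntegrable (by fun_prop) _ _),
      intervalIntegral.integral_const_mul, intervalIntegral.integral_const_mul]
    have i1 := ih (m + 1) h1
    have i2 := ih (m - 1) h2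
    linear_combination (2⁻¹ : ℂ) * i1 + (2⁻¹ : ℂ) * i2

/-- polynomials of small degree -/
theorem poly {L : ℕ} [NeZero L] (P : Polynomial ℂ) (hP : P.natDegree < L) :
    (L : ℂ)⁻¹ * ∑ j : ZMod L, P.eval ((cr j : ℝ) : ℂ) =
    ((2 * Real.pi : ℝ) : ℂ)⁻¹ * ∫ k in (-Real.pi)..Real.pi, P.eval ((Real.cos k : ℝ) : ℂ) := by
  simp only [Polynomial.eval_eq_sum_range]
  rw [Finset.sum_comm, intervalIntegral.integral_finsetSum (fun n _ =>
    Continuous.intervalIntegrable (by fun_prop) _ _), Finset.mul_sum, Finset.mul_sum]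
  refine Finset.sum_congr rfl fun n hn => ?_
  rw [Finset.mem_range] at hn
  have h1 := mono (L := L) n 0 (by
    rw [abs_zero, zero_add]
    exact_mod_cast (by omega : n < L))
  simp only [Int.cast_zero, mul_zero, zero_mul, AddChar.map_zero_eq_one, Complex.exp_zero,
    mul_one] at h1
  rw [← Finset.mul_sum, intervalIntegral.integral_const_mul, mul_left_comm, h1, mul_left_comm]

theorem cr_abs {L : ℕ} [NeZero L] (j : ZMod L) : |cr j| ≤ 1 := by
  unfold cr
  refine (Complex.abs_re_le_norm _).trans ?_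
  rw [AddChar.norm_apply]

/-- approximation -/
theorem approx {L : ℕ} [NeZero L] (g : ℝ → ℂ) (hg : Continuous g) (P : Polynomial ℂ)
    (hP : P.natDegree < L) (r : ℝ) (hr : ∀ c : ℝ, |c| ≤ 1 → ‖g c - P.eval (c : ℂ)‖ ≤ r) :
    ‖((L : ℂ)⁻¹ * ∑ j : ZMod L, g (cr j)) -
      ((2 * Real.pi : ℝ) : ℂ)⁻¹ * ∫ k in (-Real.pi)..Real.pi, g (Real.cos k)‖ ≤ 2 * r := by
  have hL : (0 : ℝ) < L := Nat.cast_pos.2 (Nat.pos_of_ne_zero (NeZero.ne _))
  have hpi := Real.pi_pos
  have h1 : ‖((L : ℂ)⁻¹ * ∑ j : ZMod L, g (cr j)) -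
      (L : ℂ)⁻¹ * ∑ j : ZMod L, P.eval ((cr j : ℝ) : ℂ)‖ ≤ r := by
    rw [← mul_sub, ← Finset.sum_sub_distrib, norm_mul, norm_inv, Complex.norm_natCast,
      inv_mul_le_iff₀ hL]
    refine (norm_sum_le _ _).trans ((Finset.sum_le_sum fun j _ => hr _ (cr_abs j)).trans ?_)
    rw [Finset.sum_const, Finset.card_univ, ZMod.card, nsmul_eq_mul]
  have h2 : ‖((2 * Real.pi : ℝ) : ℂ)⁻¹ * (∫ k in (-Real.pi)..Real.pi, P.eval ((Real.cos k : ℝ) : ℂ))
      - ((2 * Real.pi : ℝ) : ℂ)⁻¹ * ∫ k in (-Real.pi)..Real.pi, g (Real.cos k)‖ ≤ r := by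
    rw [← mul_sub, ← intervalIntegral.integral_sub
      (Continuous.intervalIntegrable (by fun_prop) _ _)
      (Continuous.intervalIntegrable (by fun_prop) _ _), norm_mul, norm_inv, Complex.norm_real,
      Real.norm_of_nonneg (by positivity), inv_mul_le_iff₀ (by positivity)]
    have h3 : ∀ k ∈ Set.uIoc (-Real.pi) Real.pi,
        ‖P.eval ((Real.cos k : ℝ) : ℂ) - g (Real.cos k)‖ ≤ r := by
      intro k _
      rw [norm_sub_rev]
      exact hr _ (Real.abs_cos_le_one k)
    refine (intervalIntegral.norm_integral_le_of_norm_le_const h3).trans (le_of_eq ?_)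
    rw [sub_neg_eq_add, abs_of_pos (by positivity)]
    ring
  rw [poly P hP] at h1
  calc _ ≤ _ := norm_sub_le_norm_sub_add_norm_sub _ _ _
    _ ≤ r + r := add_le_add h1 h2
    _ = 2 * r := by ring

/-- the Taylor polynomial -/
noncomputable def TP (s : ℝ) (N : ℕ) : Polynomial ℂ :=
  ∑ n ∈ Finset.range N, Polynomial.C (((2 * s : ℝ) * Complex.I) ^ n / (n.factorial : ℂ)) *
    Polynomial.X ^ n

theorem TP_deg (s : ℝ) (N : ℕ) : (TP s N).natDegree ≤ N - 1 := by
  unfold TP
  apply Polynomial.natDegree_sum_le_of_forall_le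
  intro n hn
  rw [Finset.mem_range] at hn
  refine (Polynomial.natDegree_C_mul_X_pow_le _ _).trans (by omega)

theorem TP_eval (s c : ℝ) (N : ℕ) : (TP s N).eval (c : ℂ) =
    ∑ n ∈ Finset.range N, (((2 * s * c : ℝ) : ℂ) * Complex.I) ^ n / (n.factorial : ℂ) := by
  unfold TP
  rw [Polynomial.eval_finsetSum]
  refine Finset.sum_congr rfl fun n _ => ?_
  simp only [Polynomial.eval_mul, Polynomial.eval_C, Polynomial.eval_pow, Polynomial.eval_X]
  push_cast
  ring

/-- the remainder -/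
theorem TP_err {L : ℕ} (hL : 3 ≤ L) (s c : ℝ) (hs : 16 * |s| ≤ L) (hc : |c| ≤ 1) :
    ‖Complex.exp (((2 * s * c : ℝ) : ℂ) * Complex.I) - (TP s (L - 2)).eval (c : ℂ)‖ ≤
      128 * (1 / 2) ^ L := by
  have hL3 : (3 : ℝ) ≤ L := by exact_mod_cast hL
  have hx : ‖((2 * s * c : ℝ) : ℂ) * Complex.I‖ ≤ L / 8 := by
    rw [norm_mul, Complex.norm_I, mul_one, Complex.norm_real, Real.norm_eq_abs, abs_mul, abs_mul,
      abs_two]
    have := abs_nonneg s
    nlinarith [abs_nonneg c]
  have hN : (((L - 2 : ℕ).succ : ℕ) : ℝ) = L - 1 := by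
    have : (L - 2 : ℕ).succ = L - 1 := by omega
    rw [this]
    push_cast [Nat.cast_sub (by omega : 1 ≤ L)]
    ring
  have h1 := Complex.exp_bound' (x := ((2 * s * c : ℝ) : ℂ) * Complex.I) (n := L - 2) (by
    rw [hN, div_le_iff₀ (by linarith)]
    linarith)
  rw [TP_eval]
  refine h1.trans ?_
  have h2 : ‖((2 * s * c : ℝ) : ℂ) * Complex.I‖ ^ (L - 2) / ((L - 2).factorial : ℝ) ≤
      (L / 8) ^ (L - 2) / ((L - 2).factorial : ℝ) := by
    gcongr
  have h3 := Real.pow_div_factorial_le_exp (L : ℝ) (by positivity) (L - 2)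
  have h4 : ((L : ℝ) / 8) ^ (L - 2) / ((L - 2).factorial : ℝ) ≤ Real.exp L * (1 / 8) ^ (L - 2) := by
    calc ((L : ℝ) / 8) ^ (L - 2) / ((L - 2).factorial : ℝ) =
        (L : ℝ) ^ (L - 2) / ((L - 2).factorial : ℝ) * (1 / 8) ^ (L - 2) := by
          rw [div_pow, div_pow, one_pow]
          ring
      _ ≤ _ := by gcongr
  have h5 : Real.exp L * (1 / 8) ^ (L - 2) ≤ 64 * (1 / 2) ^ L := by
    have e1 : Real.exp L ≤ 4 ^ L := by
      have : Real.exp L = Real.exp 1 ^ L := by
        rw [← Real.exp_nat_mul, mul_one]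
      rw [this]
      apply pow_le_pow_left₀ (Real.exp_pos _).le
      have := Real.exp_one_lt_d9
      linarith
    obtain ⟨N, hN⟩ : ∃ N, L = N + 2 := ⟨L - 2, by omega⟩
    rw [hN] at e1 ⊢
    rw [Nat.add_sub_cancel]
    have e2 : (1 / 8 : ℝ) ^ N = 64 * (1 / 8) ^ (N + 2) := by
      rw [pow_add]
      norm_num
      ring
    rw [e2]
    calc Real.exp ((N + 2 : ℕ) : ℝ) * (64 * (1 / 8) ^ (N + 2)) ≤
        4 ^ (N + 2) * (64 * (1 / 8) ^ (N + 2)) := by gcongr
      _ = 64 * (4 ^ (N + 2) * (1 / 8) ^ (N + 2)) := by ring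
      _ = 64 * (1 / 2) ^ (N + 2) := by
        rw [← mul_pow]
        norm_num
  linarith

theorem exp_norm (s c : ℝ) : ‖Complex.exp (((2 * s * c : ℝ) : ℂ) * Complex.I)‖ = 1 :=
  Complex.norm_exp_ofReal_mul_I _

end JL3A

open JL3A in
theorem jl3 : T_JL3 := by
  refine ⟨1024, by norm_num, fun L _ s hs => ?_⟩
  -- the two functions
  obtain ⟨f, hf⟩ : ∃ f : ℝ → ℂ, f = fun c => Complex.exp (((2 * s * c : ℝ) : ℂ) * Complex.I) :=
    ⟨_, rfl⟩
  obtain ⟨g, hg⟩ : ∃ g : ℝ → ℂ, g = fun c => ((4 * (1 - c ^ 2) : ℝ) : ℂ) *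
    Complex.exp (((2 * s * c : ℝ) : ℂ) * Complex.I) := ⟨_, rfl⟩
  have cf : Continuous f := by
    rw [hf]
    fun_prop
  have cg : Continuous g := by
    rw [hg]
    fun_prop
  have jf : jb s = ((2 * Real.pi : ℝ) : ℂ)⁻¹ * ∫ k in (-Real.pi)..Real.pi, f (Real.cos k) := by
    rw [hf]
    rfl
  have jg : kb s = ((2 * Real.pi : ℝ) : ℂ)⁻¹ * ∫ k in (-Real.pi)..Real.pi, g (Real.cos k) := by
    rw [hg]
    unfold kb
    congr 1
    apply intervalIntegral.integral_congr
    intro k _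
    show ((4 * Real.sin k ^ 2 : ℝ) : ℂ) * _ = ((4 * (1 - Real.cos k ^ 2) : ℝ) : ℂ) * _
    rw [Real.sin_sq]
  have sf : ∀ j : ZMod L, Complex.exp (((2 * s * cr j : ℝ) : ℂ) * Complex.I) = f (cr j) := by
    intro j
    rw [hf]
  have sg : ∀ j : ZMod L, ((4 * (1 - cr j ^ 2) : ℝ) : ℂ) *
      Complex.exp (((2 * s * cr j : ℝ) : ℂ) * Complex.I) = g (cr j) := by
    intro j
    rw [hg]
  rw [jf, jg]
  simp only [sf]
  have sg' : ∀ j : ZMod L, ((4 * (1 - cr j ^ 2) : ℝ) : ℂ) * f (cr j) = g (cr j) := by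
    intro j
    rw [← sg, sf]
  simp only [sg']
  have h4 : ∀ c : ℝ, |c| ≤ 1 → ‖((4 * (1 - c ^ 2) : ℝ) : ℂ)‖ ≤ 4 := by
    intro c hc
    rw [Complex.norm_real, Real.norm_eq_abs, abs_le]
    have := sq_nonneg c
    have : c ^ 2 ≤ 1 := by
      rw [sq_le_one_iff_abs_le_one]
      exact hc
    constructor <;> linarith
  by_cases hL : 3 ≤ L
  · have hN1 := TP_deg s (L - 2)
    constructor
    · refine (approx f cf (TP s (L - 2)) (by omega) _ fun c hc => by
        rw [hf]
        exact TP_err hL s c hs hc).trans ?_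
      have : (0 : ℝ) < (1 / 2) ^ L := by positivity
      linarith
    · refine (approx g cg (Polynomial.C 4 * (1 - Polynomial.X ^ 2) * TP s (L - 2)) ?_
        (4 * (128 * (1 / 2) ^ L)) fun c hc => ?_).trans ?_
      · refine lt_of_le_of_lt Polynomial.natDegree_mul_le ?_
        have h5 : (Polynomial.C 4 * (1 - Polynomial.X ^ 2) : Polynomial ℂ).natDegree ≤ 2 := by
          refine (Polynomial.natDegree_C_mul_le _ _).trans ?_
          refine (Polynomial.natDegree_sub_le _ _).trans ?_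
          rw [Polynomial.natDegree_one, Polynomial.natDegree_X_pow]
          norm_num
        omega
      · have e1 : g c - (Polynomial.C 4 * (1 - Polynomial.X ^ 2) * TP s (L - 2)).eval (c : ℂ) =
            ((4 * (1 - c ^ 2) : ℝ) : ℂ) *
              (Complex.exp (((2 * s * c : ℝ) : ℂ) * Complex.I) - (TP s (L - 2)).eval (c : ℂ)) := by
          rw [hg]
          simp only [Polynomial.eval_mul, Polynomial.eval_C, Polynomial.eval_sub,
            Polynomial.eval_one, Polynomial.eval_pow, Polynomial.eval_X]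
          push_cast
          ring
        rw [e1, norm_mul]
        exact mul_le_mul (h4 c hc) (TP_err hL s c hs hc) (norm_nonneg _) (by norm_num)
      · have : (0 : ℝ) < (1 / 2) ^ L := by positivity
        linarith
  · have hL0 : L ≠ 0 := NeZero.ne L
    have hpw : (1 / 4 : ℝ) ≤ (1 / 2) ^ L := by
      have : L = 1 ∨ L = 2 := by omega
      rcases this with h | h <;> rw [h] <;> norm_num
    have hdeg : (0 : Polynomial ℂ).natDegree < L := by
      rw [Polynomial.natDegree_zero]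
      omega
    constructor
    · refine (approx f cf 0 hdeg 1 fun c hc => ?_).trans (by linarith)
      rw [Polynomial.eval_zero, sub_zero, hf]
      exact (exp_norm s c).le
    · refine (approx g cg 0 hdeg 4 fun c hc => ?_).trans (by linarith)
      rw [Polynomial.eval_zero, sub_zero, hg]
      show ‖((4 * (1 - c ^ 2) : ℝ) : ℂ) * _‖ ≤ 4
      rw [norm_mul, exp_norm, mul_one]
      exact h4 c hc

end Pool.Agent.T2h98.QD
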