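import Pool.Agent.T2h98.QD.TX3

/-! Size of the errors. -/

set_option autoImplicit false
set_option linter.unusedSectionVars false

open scoped BigOperators Matrix
open MeasureTheory ProbabilityTheory

namespace Pool.Agent.T2h98.QD

open Pool.Agent.W788.MFP.Four (T e NN adj K)
open Pool.Agent.W788.BK (nsq hs PP JJ hi Low cr nsq_nonneg)
open Pool.Agent.W240.BK (BC BM)

theorem ups_le {σ ε δ Q g im B s Γ : ℝ} (hσ : 0 < σ) (hε : 0 < ε) (hεσ : ε ≤ σ ^ 2)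
    (hσδ : σ ^ 2 ≤ δ) (hQ : 1 ≤ Q) (hg : 1 ≤ g) (him : 0 ≤ im) (hΓ : Γ = ε + σ ^ 2 * im)
    (hB0 : 0 ≤ B) (hB : B ≤ g) (hs : 0 ≤ s) (himB : im ≤ B + s) :
    ups σ ε δ Q g im (B + s) Γ ≤ 3 * (σ ^ 2 * Q * (δ / ε) ^ 2) * g ^ 3 * (2 + s) := by
  have hσ2 : 0 < σ ^ 2 := by positivity
  have hδ : 0 < δ := lt_of_lt_of_le hσ2 hσδ
  have hΓε : ε ≤ Γ := by
    rw [hΓ]
    have : 0 ≤ σ ^ 2 * im := by positivity
    linarith
  have hΓ0 : 0 < Γ := lt_of_lt_of_le hε hΓε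
  obtain ⟨D, hD⟩ : ∃ D, D = δ / ε := ⟨_, rfl⟩
  obtain ⟨A, hA⟩ : ∃ A, A = σ ^ 2 * Q := ⟨_, rfl⟩
  obtain ⟨W, hW⟩ : ∃ W, W = B + s := ⟨_, rfl⟩
  obtain ⟨G, hG⟩ : ∃ G, G = Γ / σ ^ 2 := ⟨_, rfl⟩
  have hG0 : 0 < G := by
    rw [hG]
    positivity
  have hA0 : 0 < A := by
    rw [hA]
    positivity
  have hD1 : 1 ≤ D := by
    rw [hD, le_div_iff₀ hε, one_mul]
    exact hεσ.trans hσδ
  have hW0 : 0 ≤ W := by
    rw [hW]
    linarith
  -- `D im ≤ D G` and `1 ≤ D G`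
  have g1 : im ≤ G := by
    rw [hG, le_div_iff₀ hσ2, hΓ]
    linarith
  have g2 : 1 ≤ D * G := by
    rw [hD, hG, div_mul_div_comm, le_div_iff₀ (by positivity), one_mul]
    have : ε * σ ^ 2 ≤ Γ * δ := by gcongr
    linarith
  have g3 : G ≤ 1 + W := by
    rw [hG, hΓ, add_div]
    have e1 : ε / σ ^ 2 ≤ 1 := by
      rw [div_le_one hσ2]
      exact hεσ
    have e2 : σ ^ 2 * im / σ ^ 2 = im := by field_simp
    rw [e2]
    rw [← hW] at himB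
    linarith
  have hX : g + D * im ≤ 2 * g * (D * G) := by
    have e1 : g * 1 ≤ g * (D * G) := by gcongr
    have e2 : D * im ≤ 1 * (D * G) := by
      rw [one_mul]
      gcongr
    have e3 : 1 * (D * G) ≤ g * (D * G) := by
      have : 0 < D * G := by linarith
      gcongr
    linarith
  have hZ : g + D * W ≤ g * D * (1 + W) := by
    have e1 : g * 1 ≤ g * D := by gcongr
    have e2 : 1 * (D * W) ≤ g * (D * W) := by
      gcongr
    nlinarith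
  have hX0 : 0 ≤ g + D * im := by positivity
  have h1 : Real.sqrt ((g + D * im) ^ 3 * (g + D * W)) ≤ 3 * g ^ 2 * D ^ 2 * (1 + W) * G := by
    rw [Real.sqrt_le_left (by positivity)]
    calc (g + D * im) ^ 3 * (g + D * W) ≤ (2 * g * (D * G)) ^ 3 * (g * D * (1 + W)) := by gcongr
      _ = 8 * g ^ 4 * D ^ 4 * (1 + W) * G ^ 2 * G := by ring
      _ ≤ 9 * g ^ 4 * D ^ 4 * (1 + W) * G ^ 2 * (1 + W) := by
        have : (8 : ℝ) ≤ 9 := by norm_num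
        gcongr
      _ = _ := by ring
  have h2 : 1 + W ≤ g * (2 + s) := by
    rw [hW]
    have e1 : 1 * s ≤ g * s := by gcongr
    linarith
  unfold ups
  rw [← hW, ← hD, ← hA]
  have e0 : σ ^ 2 / Γ * G = 1 := by
    rw [hG]
    field_simp
  calc A * (σ ^ 2 / Γ) * Real.sqrt ((g + D * im) ^ 3 * (g + D * W)) ≤
      A * (σ ^ 2 / Γ) * (3 * g ^ 2 * D ^ 2 * (1 + W) * G) := by gcongr
    _ = A * (3 * g ^ 2 * D ^ 2 * (1 + W)) * (σ ^ 2 / Γ * G) := by ring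
    _ = A * (3 * g ^ 2 * D ^ 2 * (1 + W)) := by rw [e0, mul_one]
    _ ≤ A * (3 * g ^ 2 * D ^ 2 * (g * (2 + s))) := by gcongr
    _ = _ := by ring

variable {d L : ℕ} [NeZero L]

section par

variable {σ E δ ε t Q g p0 ζ β : ℝ} {Ω : Set (T d L → ℝ)}

/-- all errors -/
theorem ParU.fin (hP : T_POIN) (hI : T_IBP) (hrqf : T_RQF) (hinv : T_INV)
    (p : ParU d L σ E δ ε t Q g p0 Ω) (s : Small2 σ ε δ Q g ζ β) (hβ : 0 ≤ β)
    (E' Γ : ℝ) (hE' : E' = E + σ ^ 2 * (mT d L σ E ε).re)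
    (hΓ : Γ = ε + σ ^ 2 * (mT d L σ E ε).im) :
    0 ≤ (mT d L σ E ε).im ∧ ‖mT d L σ E ε‖ ≤ 2 * g ∧ |E - E'| ≤ ζ ∧ 0 < Γ ∧ Γ ≤ ζ ∧ ε ≤ Γ ∧
    |(mT d L σ E ε).im - Bf d L E' Γ| ≤ ζ ∧
    (∀ κ : T d L, ‖Sr d L σ E ε κ‖ ≤ (mT d L σ E ε).im / ε) ∧
    ∀ (κ : T d L) (μ : ℝ), 0 < μ → (∀ k : T d L, |adj k - adj (k + κ)| ≤ μ) →
      ‖(((mT d L σ E ε).im : ℂ) - (ε : ℂ) * Sr d L σ E ε κ) -
        (1 + ((σ ^ 2 : ℝ) : ℂ) * Sr d L σ E ε κ) * ((Γ * Lf d L E' Γ κ / 2 : ℝ) : ℂ)‖ ≤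
        μ / ε * (ε / σ ^ 2) ^ β * ζ := by
  have hN := Pool.Agent.W788.MFP.Four.NN_pos (d := d) (L := L)
  have hσ := p.hσ
  have hε := p.hε
  have hm := p.im0 hrqf
  have hg := p.hg1
  have hg0 : 0 < g := by linarith
  have hQ1 := p.hQ1
  have hεσ := s.hεσ
  have hσ2 : 0 < σ ^ 2 := by positivity
  have hζ0 : 0 < ζ := by
    have := s.h3
    have : 0 < 3 * σ ^ 2 * g := by positivity
    linarith
  have hΓε : ε ≤ Γ := by
    rw [hΓ]
    have : 0 ≤ σ ^ 2 * (mT d L σ E ε).im := by positivity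
    linarith
  have hΓ0 : 0 < Γ := lt_of_lt_of_le hε hΓε
  -- the small parameter
  obtain ⟨r, hr⟩ : ∃ r, r = σ ^ 2 * Q * (δ / ε) ^ 2 * g ^ 3 := ⟨_, rfl⟩
  obtain ⟨P, hPp⟩ : ∃ P, P = (σ ^ 2 / ε) ^ β := ⟨_, rfl⟩
  have hP1 : 1 ≤ P := by
    rw [hPp]
    apply Real.one_le_rpow _ hβ
    rw [le_div_iff₀ hε, one_mul]
    exact hεσ
  have hP0 : 0 < P := by linarith
  have hPi : (ε / σ ^ 2) ^ β = P⁻¹ := by
    rw [hPp, ← Real.inv_rpow (by positivity), inv_div]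
  have hδ := p.hδ
  have hr0 : 0 ≤ r := by
    rw [hr]
    positivity
  have hrP : 10000 * r * P ≤ ζ := by
    have := s.h1
    rw [hr, hPp]
    linarith
  have hr1 : 10000 * r ≤ ζ := by
    have : 10000 * r * 1 ≤ 10000 * r * P := by gcongr
    linarith
  have hζ4 := s.hζ
  have hs : 64 * σ ^ 2 * Q * (δ / ε) ^ 2 ≤ 1 := by
    have e1 : σ ^ 2 * Q * (δ / ε) ^ 2 * 1 ≤ r := by
      rw [hr]
      have : (1 : ℝ) ≤ g ^ 3 := one_le_pow₀ hg
      gcongr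
    linarith
  obtain ⟨im, him⟩ : ∃ im, im = (mT d L σ E ε).im := ⟨_, rfl⟩
  obtain ⟨B, hB⟩ : ∃ B, B = Bf d L E' Γ := ⟨_, rfl⟩
  obtain ⟨z, hz⟩ : ∃ z, z = es d L σ E ε E' Γ := ⟨_, rfl⟩
  have hz0 : 0 ≤ z := by
    rw [hz]
    exact es_nonneg _ _ _ _ _
  have hB0 : 0 ≤ B := by
    rw [hB]
    unfold Bf
    exact mul_nonneg (by positivity) (Finset.sum_nonneg fun k _ => by positivity)
  have hBl := Bf_le (E' := E') hε hΓε p.hg
  have hBg : B ≤ g := by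
    rw [hB, Bf_im]
    exact ((le_abs_self _).trans (Complex.abs_im_le_norm _)).trans hBl
  -- the mean
  have hmean : ‖mT d L σ E ε - ((NN d L : ℝ) : ℂ)⁻¹ * ∑ k : T d L, (Yk E' Γ k)⁻¹‖ ≤ z := by
    have h1 := tr_ph (d := d) (L := L) (fun _ => (1 : ℂ)) σ E E' Γ hε
    have h2 := ph_le (d := d) (L := L) (fun _ => (1 : ℂ)) 1 (fun _ => by simp) σ E ε E' Γ
    rw [one_mul, ← hz] at h2
    have h3 : ∫ V, (Mo (fun _ : T d L => (1 : ℂ)) *
        Rh (h0 (d := d) (L := L) E) σ ε V).trace ∂(GP (T d L)) =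
        ((NN d L : ℝ) : ℂ) * mT d L σ E ε := by
      have S := sys_rh (h0_herm (d := d) (L := L) E) σ ε hε
      have hG : BM fun V : T d L → ℝ => Rh (h0 (d := d) (L := L) E) σ ε V := bm_gg S
      have e1 : ∀ V : T d L → ℝ, (Mo (fun _ : T d L => (1 : ℂ)) *
          Rh (h0 (d := d) (L := L) E) σ ε V).trace =
          ∑ x, Rh (h0 (d := d) (L := L) E) σ ε V x x := by
        intro V
        rw [mo_one, one_mul]
        rfl
      simp only [e1]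
      rw [integral_finsetSum _ fun x _ => (hG x x).integrable _]
      simp only [mT_eq hinv σ E ε, Finset.sum_const, Finset.card_univ, nsmul_eq_mul]
      rw [← card_NN]
      push_cast
      rfl
    rw [h3] at h1
    have h4 : mT d L σ E ε - ((NN d L : ℝ) : ℂ)⁻¹ * ∑ k : T d L, (Yk E' Γ k)⁻¹ =
        ∑ k, 1 * ph d L σ E ε E' Γ k := by
      have hNN := KQ.N_ne (d := d) (L := L)
      apply mul_left_cancel₀ hNN
      rw [← h1, mul_sub, ← mul_assoc, mul_inv_cancel₀ hNN, one_mul]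
      congr 1
      refine Finset.sum_congr rfl fun k _ => ?_
      rw [one_mul]
    rw [h4]
    exact h2
  have himB : |im - B| ≤ z := by
    rw [him, hB, Bf_im, ← Complex.sub_im]
    exact (Complex.abs_im_le_norm _).trans hmean
  rw [← him] at hm
  have hup := ups_le (Q := Q) (g := g) (Γ := Γ) hσ hε hεσ s.hσδ hQ1 hg hm (by rw [hΓ, him]) hB0
    hBg hz0 (by linarith [(abs_le.1 himB).2])
  have hes := p.es_le hP hI hrqf hinv hs E' Γ hE' hΓ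
  rw [← him, ← hB, ← hz] at hes
  have hup2 : ups σ ε δ Q g im (B + z) Γ ≤ 3 * r * (2 + z) := by
    refine hup.trans (le_of_eq ?_)
    rw [hr]
    ring
  have hz1 : z ≤ 1 := by nlinarith
  have hup3 : ups σ ε δ Q g im (B + z) Γ ≤ 9 * r := by nlinarith
  have hzζ : z ≤ ζ := by linarith
  have hmt : ‖mT d L σ E ε‖ ≤ 2 * g := by
    have e1 := norm_sub_norm_le (mT d L σ E ε) (((NN d L : ℝ) : ℂ)⁻¹ *
      ∑ k : T d L, (Yk E' Γ k)⁻¹)
    linarith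
  have him2 : im ≤ 2 * g := by
    rw [him]
    exact ((le_abs_self _).trans (Complex.abs_im_le_norm _)).trans hmt
  rw [← him, ← hB]
  refine ⟨hm, hmt, ?_, hΓ0, ?_, hΓε, himB.trans hzζ, fun κ => ?_, fun κ μ hμ0 hμ => ?_⟩
  · rw [hE']
    have e1 : E - (E + σ ^ 2 * (mT d L σ E ε).re) = -(σ ^ 2 * (mT d L σ E ε).re) := by ring
    rw [e1, abs_neg, abs_mul, abs_of_nonneg (sq_nonneg σ)]
    have e2 := (Complex.abs_re_le_norm (mT d L σ E ε)).trans hmt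
    have e3 := s.h3
    have e4 : 0 < σ ^ 2 * g := by positivity
    calc σ ^ 2 * |(mT d L σ E ε).re| ≤ σ ^ 2 * (2 * g) := by gcongr
      _ ≤ ζ := by linarith
  · rw [hΓ, ← him]
    have e3 := s.h3
    have e4 : σ ^ 2 ≤ σ ^ 2 * g := by nlinarith
    have e5 : σ ^ 2 * im ≤ σ ^ 2 * (2 * g) := by gcongr
    linarith
  · rw [him]
    exact p.sr_bd hrqf κ
  · have h1 := p.cur hP hI hrqf hinv hs E' Γ hE' hΓ κ μ hμ0 hμ
    rw [← him, ← hB, ← hz] at h1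
    refine h1.trans ?_
    rw [hPi]
    have e1 : 430 * ups σ ε δ Q g im (B + z) Γ ≤ P⁻¹ * ζ := by
      rw [inv_mul_eq_div, le_div_iff₀ hP0]
      calc 430 * ups σ ε δ Q g im (B + z) Γ * P ≤ 430 * (9 * r) * P := by gcongr
        _ ≤ 10000 * r * P := by nlinarith [mul_nonneg hr0 hP0.le]
        _ ≤ ζ := hrP
    calc μ / ε * (430 * ups σ ε δ Q g im (B + z) Γ) ≤ μ / ε * (P⁻¹ * ζ) := by gcongr
      _ = _ := by ring

end par

end Pool.Agent.T2h98.QD
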