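import Pool.Agent.T2h98.QD.IMS
import Pool.Agent.T2h98.QD.TLim2

/-! The limit at one energy, small tori. -/

set_option autoImplicit false
set_option linter.unusedSectionVars false

open scoped BigOperators Matrix Topology
open MeasureTheory ProbabilityTheory Filter

namespace Pool.Agent.T2h98.QD

open Pool.Agent.W788.MFP.Four (T e NN adj K)
open Pool.Agent.W788.BK (nsq hs PP JJ hi Low cr)

/-- the momentum of a small integer vector -/
theorem mo_int {d L : ℕ} [NeZero L] (m : Fin d → ℤ) (i : Fin d) (h : 2 * |(m i : ℝ)| < L) :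
    mo (fun i => (m i : ZMod L) : T d L) i = 2 * Real.pi * m i / L := by
  have h1 : ((m i : ZMod L)).valMinAbs = m i := by
    rw [ZMod.valMinAbs_spec]
    refine ⟨rfl, ?_, ?_⟩
    · have h2 := neg_abs_le (m i : ℝ)
      have h3 : (-(L : ℝ)) < (m i : ℝ) * 2 := by linarith
      exact_mod_cast h3
    · have h2 := le_abs_self (m i : ℝ)
      have h3 : (m i : ℝ) * 2 ≤ (L : ℝ) := by linarith
      exact_mod_cast h3
  unfold mo
  rw [h1]

/-- the two scales -/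
theorem scale_x {a b σ L : ℝ} (hσ : 0 < σ) (h1 : σ ^ (-2 - a) ≤ L) (h2 : L ≤ σ ^ (-2 - b)) :
    σ ^ (2 * b) ≤ 1 / (L * σ ^ 2) ^ 2 ∧ 1 / (L * σ ^ 2) ^ 2 ≤ σ ^ (2 * a) := by
  have hL : 0 < L := lt_of_lt_of_le (Real.rpow_pos_of_pos hσ _) h1
  have e1 : ∀ c : ℝ, (σ ^ (-2 - c) * σ ^ 2) ^ 2 = (σ ^ (2 * c))⁻¹ := by
    intro c
    rw [← Real.rpow_natCast σ 2, ← Real.rpow_add hσ, ← Real.rpow_natCast, ← Real.rpow_mul hσ.le,
      ← Real.rpow_neg hσ.le]
    congr 1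
    push_cast
    ring
  constructor
  · rw [one_div]
    calc σ ^ (2 * b) = ((σ ^ (2 * b))⁻¹)⁻¹ := (inv_inv _).symm
      _ = ((σ ^ (-2 - b) * σ ^ 2) ^ 2)⁻¹ := by rw [e1]
      _ ≤ ((L * σ ^ 2) ^ 2)⁻¹ := by
        apply inv_anti₀ (by positivity)
        gcongr
  · rw [one_div]
    calc ((L * σ ^ 2) ^ 2)⁻¹ ≤ ((σ ^ (-2 - a) * σ ^ 2) ^ 2)⁻¹ := by
          have := Real.rpow_pos_of_pos hσ (-2 - a)
          apply inv_anti₀ (by positivity)
          gcongr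
      _ = ((σ ^ (2 * a))⁻¹)⁻¹ := by rw [e1]
      _ = _ := inv_inv _

theorem rpow_small {p : ℝ} (hp : 0 < p) : Tendsto (fun σ : ℝ => σ ^ p) (𝓝[>] 0) (𝓝 0) := by
  have := (Real.continuousAt_rpow_const 0 p (Or.inr hp.le)).tendsto
  rw [Real.zero_rpow hp.ne'] at this
  exact this.mono_left (nhdsWithin_le_nhds (s := Set.Ioi (0 : ℝ)))

/-- the limit along sequences -/
theorem lim_seq (hs : T_SCAL3) (hf : T_FIN3) (hi : T_IMS) (hdif : T_DIF3) (hdos : T_DOS)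
    {d : ℕ} (hd : 3 ≤ d) {a b : ℝ} (ha : 0 < a) (hb : b < (if d = 3 then 1 / 5 else 2 / 5))
    {τ : ℝ} (hτ : 0 < τ) (m : Fin d → ℤ) {E : ℝ} (hE : 0 < dn d E) (σ : ℕ → ℝ) (L : ℕ → ℕ)
    [∀ k, NeZero (L k)] (lσ : Tendsto σ atTop (𝓝[>] 0))
    (hL1 : ∀ k, σ k ^ (-2 - a) ≤ (L k : ℝ)) (hL2 : ∀ k, (L k : ℝ) ≤ σ k ^ (-2 - b)) :
    Tendsto (fun k => ((1 / (2 * (τ * σ k ^ 2 * (L k : ℝ) ^ 2)) : ℝ) : ℂ) *
        Sr d (L k) (σ k) E (1 / (2 * (τ * σ k ^ 2 * (L k : ℝ) ^ 2)))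
          (fun i => (m i : ZMod (L k)))) atTop
      (𝓝 ((Real.pi * fl d (fun i => 2 * Real.pi * m i) τ E : ℝ) : ℂ)) := by
  have hpi := Real.pi_pos
  obtain ⟨-, -, hn0, hw0, -, -⟩ := hdos d hd
  -- the exponent
  obtain ⟨c, hc⟩ : ∃ c : ℝ, c = (if d = 3 then 1 else 2) / (2 + 1 / 2) := ⟨_, rfl⟩
  have hc0 : 0 < c := by
    rw [hc]
    split_ifs <;> norm_num
  have hc1 : c < 9 := by
    rw [hc]
    split_ifs <;> norm_num
  have hbc : 2 * b < c := by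
    rw [hc]
    split_ifs at hb ⊢ <;> linarith
  obtain ⟨h, hh0, hhb, hhc⟩ : ∃ h : ℝ, 0 < h ∧ 2 * b < h ∧ h < c := by
    refine ⟨(max (2 * b) 0 + c) / 2, ?_, ?_, ?_⟩
    · have := le_max_right (2 * b) 0
      linarith
    · have h1 := le_max_left (2 * b) 0
      linarith
    · have : max (2 * b) 0 < c := max_lt hbc hc0
      linarith
  rw [hc] at hhc
  -- the functions
  obtain ⟨ε, hε⟩ : ∃ ε : ℕ → ℝ, ε = fun k => 1 / (2 * (τ * σ k ^ 2 * (L k : ℝ) ^ 2)) := ⟨_, rfl⟩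
  have hεk : ∀ k, 1 / (2 * (τ * σ k ^ 2 * (L k : ℝ) ^ 2)) = ε k := fun k => by rw [hε]
  simp only [hεk]
  obtain ⟨κ, hκ⟩ : ∃ κ : ∀ k, T d (L k), κ = fun k i => (m i : ZMod (L k)) := ⟨_, rfl⟩
  have hκk : ∀ k, (fun i => (m i : ZMod (L k)) : T d (L k)) = κ k := fun k => by rw [hκ]
  simp only [hκk]
  obtain ⟨Q, hQ⟩ : ∃ Q : Fin d → ℝ, Q = fun i => 2 * Real.pi * m i := ⟨_, rfl⟩
  rw [← hQ]
  have l_mem : ∀ᶠ k in atTop, 0 < σ k := lσ.eventually self_mem_nhdsWithin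
  have l_1 : ∀ᶠ k in atTop, σ k < 1 :=
    lσ.eventually (nhdsWithin_le_nhds (eventually_lt_nhds one_pos))
  have hLp : ∀ k, (0 : ℝ) < L k := fun k => Nat.cast_pos.2 (Nat.pos_of_ne_zero (NeZero.ne _))
  have hε0 : ∀ᶠ k in atTop, 0 < ε k := by
    filter_upwards [l_mem] with k hk
    have := hLp k
    rw [hε]
    positivity
  have e_ε : ∀ k, 0 < σ k → ε k / σ k ^ 2 = 1 / (2 * τ) * (1 / ((L k : ℝ) * σ k ^ 2) ^ 2) := by
    intro k hk
    have := hLp k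
    rw [hε]
    field_simp
  have l_ε : Tendsto (fun k => ε k / σ k ^ 2) atTop (𝓝 0) := by
    have h1 : Tendsto (fun k => 1 / (2 * τ) * σ k ^ (2 * a)) atTop (𝓝 0) := by
      have := ((rpow_small (show 0 < 2 * a by positivity)).comp lσ).const_mul (1 / (2 * τ))
      rwa [mul_zero] at this
    refine squeeze_zero' ?_ ?_ h1
    · filter_upwards [l_mem, hε0] with k hk hk2
      positivity
    · filter_upwards [l_mem] with k hk
      rw [e_ε k hk]
      have := (scale_x hk (hL1 k) (hL2 k)).2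
      gcongr
  have l_up : ∀ᶠ k in atTop, ε k ≤ σ k ^ 2 := by
    filter_upwards [l_mem, l_ε.eventually (gt_mem_nhds one_pos)] with k hk hk2
    have : 0 < σ k ^ 2 := by positivity
    rw [div_lt_one this] at hk2
    exact hk2.le
  have l_lo : ∀ᶠ k in atTop, σ k ^ (2 + h) ≤ ε k := by
    have h1 : Tendsto (fun k => σ k ^ (h - 2 * b)) atTop (𝓝 0) :=
      (rpow_small (show 0 < h - 2 * b by linarith)).comp lσ
    filter_upwards [l_mem, h1.eventually (gt_mem_nhds (show 0 < 1 / (2 * τ) by positivity))]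
      with k hk hk2
    have h2 := (scale_x hk (hL1 k) (hL2 k)).1
    have h3 : 0 < σ k ^ 2 := by positivity
    have h4 : 0 < σ k ^ (2 * b) := Real.rpow_pos_of_pos hk _
    have h5 : σ k ^ h ≤ ε k / σ k ^ 2 := by
      rw [e_ε k hk]
      calc σ k ^ h = σ k ^ (h - 2 * b) * σ k ^ (2 * b) := by
            rw [← Real.rpow_add hk]
            congr 1
            ring
        _ ≤ 1 / (2 * τ) * (1 / ((L k : ℝ) * σ k ^ 2) ^ 2) := by
            apply mul_le_mul hk2.le h2 h4.le (by positivity)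
    rw [le_div_iff₀ h3] at h5
    rw [Real.rpow_add hk, Real.rpow_two]
    linarith
  have l_13 : ∀ᶠ k in atTop, (L k : ℝ) ≤ σ k ^ (-13 : ℝ) := by
    filter_upwards [l_mem, l_1] with k hk hk2
    refine (hL2 k).trans ?_
    apply Real.rpow_le_rpow_of_exponent_ge hk hk2.le
    linarith
  obtain ⟨im, him⟩ : ∃ im : ℕ → ℝ, im = fun k => (mT d (L k) (σ k) E (ε k)).im := ⟨_, rfl⟩
  have l_im : Tendsto im atTop (𝓝 (Real.pi * dn d E)) := by
    rw [Metric.tendsto_nhds]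
    intro η hη
    filter_upwards [lσ.eventually (hi d hd h a hh0 hhc ha (dn d E) (η / 2) hE (by positivity)),
      l_up, l_lo, l_13] with k hk hk1 hk2 hk3
    rw [Real.dist_eq, him]
    have := hk (L k) (hL1 k) hk3 (ε k) hk2 hk1 E le_rfl
    linarith
  obtain ⟨Γ, hΓ⟩ : ∃ Γ : ℕ → ℝ, Γ = fun k => ε k + σ k ^ 2 * im k := ⟨_, rfl⟩
  obtain ⟨E', hE'⟩ : ∃ E' : ℕ → ℝ, E' = fun k => E + σ k ^ 2 * (mT d (L k) (σ k) E (ε k)).re :=
    ⟨_, rfl⟩
  obtain ⟨Λ, hΛ⟩ : ∃ Λ : ℕ → ℝ, Λ = fun k => Lf d (L k) (E' k) (Γ k) (κ k) := ⟨_, rfl⟩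
  obtain ⟨S, hS⟩ : ∃ S : ℕ → ℂ, S = fun k => Sr d (L k) (σ k) E (ε k) (κ k) := ⟨_, rfl⟩
  obtain ⟨Er, hEr⟩ : ∃ Er : ℕ → ℂ, Er = fun k => ((im k : ℂ) - (ε k : ℂ) * S k) -
    (1 + ((σ k ^ 2 : ℝ) : ℂ) * S k) * ((Γ k * Λ k / 2 : ℝ) : ℂ) := ⟨_, rfl⟩
  obtain ⟨S2, hS2⟩ : ∃ S2 : ℕ → ℝ, S2 = fun k => ∑ i, mo (κ k) i ^ 2 := ⟨_, rfl⟩
  obtain ⟨n, hnn⟩ : ∃ n, n = dn d E := ⟨_, rfl⟩
  obtain ⟨w, hww⟩ : ∃ w, w = dw d E := ⟨_, rfl⟩
  rw [← hnn] at hE l_im
  have hπn : 0 < Real.pi * n := by positivity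
  have l_m0 : ∀ᶠ k in atTop, Real.pi * n / 2 ≤ im k :=
    (l_im.eventually (lt_mem_nhds (show Real.pi * n / 2 < Real.pi * n by linarith))).mono
      fun k hk => hk.le
  -- the momentum
  have l_big : ∀ᶠ k in atTop, ∀ i, 2 * |(m i : ℝ)| < L k := by
    rw [eventually_all]
    intro i
    have h1 := (rpow_small (show 0 < 2 + a by positivity)).comp lσ
    have h2 : 0 < 1 / (2 * |(m i : ℝ)| + 1) := by positivity
    filter_upwards [l_mem, h1.eventually (gt_mem_nhds h2)] with k hk hk2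
    have h3 : σ k ^ (2 + a) < 1 / (2 * |(m i : ℝ)| + 1) := hk2
    have h4 : σ k ^ (-2 - a) = (σ k ^ (2 + a))⁻¹ := by
      rw [← Real.rpow_neg hk.le]
      congr 1
      ring
    have h5 := Real.rpow_pos_of_pos hk (2 + a)
    have h6 : 2 * |(m i : ℝ)| + 1 ≤ (σ k ^ (2 + a))⁻¹ := by
      rw [le_inv_comm₀ (by positivity) h5, ← one_div]
      exact h3.le
    have := hL1 k
    rw [h4] at this
    linarith
  have e_S2 : ∀ᶠ k in atTop, S2 k / (2 * τ * ε k * σ k ^ 2) = ∑ i, Q i ^ 2 := by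
    filter_upwards [l_mem, l_big] with k hk hk2
    have hl := hLp k
    rw [hS2, hQ]
    show (∑ i, mo (κ k) i ^ 2) / (2 * τ * ε k * σ k ^ 2) = ∑ i, (2 * Real.pi * (m i : ℝ)) ^ 2
    rw [Finset.sum_div]
    refine Finset.sum_congr rfl fun i _ => ?_
    rw [← hκk k, mo_int m i (hk2 i), hε]
    field_simp
  have l_S2 : Tendsto (fun k => S2 k / (2 * τ * ε k * σ k ^ 2)) atTop (𝓝 (∑ i, Q i ^ 2)) :=
    tendsto_const_nhds.congr' (e_S2.mono fun k hk => hk.symm)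
  obtain ⟨C, hC⟩ : ∃ C, C = ∑ i, Q i ^ 2 + 1 := ⟨_, rfl⟩
  have hC0 : 0 < C := by
    rw [hC]
    have : 0 ≤ ∑ i, Q i ^ 2 := Finset.sum_nonneg fun i _ => sq_nonneg _
    linarith
  have l_S2C := l_S2.eventually (gt_mem_nhds (show ∑ i, Q i ^ 2 < C by rw [hC]; linarith))
  have hd0 : (0 : ℝ) < d := by
    exact_mod_cast (show 0 < d by omega)
  obtain ⟨M, hM⟩ : ∃ M, M = 8 * d * τ * C := ⟨_, rfl⟩
  have hM0 : 0 < M := by
    rw [hM]
    positivity
  have hsM : 0 < Real.sqrt M := Real.sqrt_pos.2 hM0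
  -- eventual facts for each `ζ`
  have ev : ∀ ζ : ℝ, 0 < ζ → ζ ≤ 1 / 4 → ∀ᶠ k in atTop,
      |E - E' k| ≤ ζ ∧ 0 < Γ k ∧ Γ k ≤ ζ ∧ ‖Er k‖ ≤ ζ := by
    intro ζ h1 h2
    obtain ⟨z, hz⟩ : ∃ z, z = min ζ (ζ / Real.sqrt M) := ⟨_, rfl⟩
    have hz0 : 0 < z := by
      rw [hz]
      exact lt_min h1 (by positivity)
    have hzζ : z ≤ ζ := by
      rw [hz]
      exact min_le_left _ _
    have hzM : Real.sqrt M * z ≤ ζ := by
      calc Real.sqrt M * z ≤ Real.sqrt M * (ζ / Real.sqrt M) := by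
            rw [hz]
            gcongr
            exact min_le_right _ _
        _ = ζ := by field_simp
    filter_upwards [lσ.eventually (hs (1 / 2) (by norm_num) le_rfl d hd h hh0 hhc a ha
      (Real.pi * n / 2) z (by positivity) hz0 (hzζ.trans h2)), l_m0, l_S2C, l_mem, hε0, l_up,
      l_lo, l_13] with k hk hm hSC hσ0 hεp hk1 hk2 hk3
    obtain ⟨δ, t, Qr, g, p0, Ω, hg, hpar⟩ := hk (L k) (hL1 k) hk3
    obtain ⟨p, s⟩ := hpar (ε k) hk2 hk1
    have hΓk : Γ k = ε k + σ k ^ 2 * (mT d (L k) (σ k) E (ε k)).im := by rw [hΓ, him]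
    have hΓlo : Real.pi * n / 2 * σ k ^ 2 ≤ Γ k := by
      have : 0 < σ k ^ 2 := by positivity
      rw [hΓ]
      show Real.pi * n / 2 * σ k ^ 2 ≤ ε k + σ k ^ 2 * im k
      nlinarith
    obtain ⟨-, -, f3, f4, f5, -, -, -, f9⟩ := hf d (L k) (σ k) E δ (ε k) t Qr g p0 z (1 / 2) Ω
      (p E) s (by norm_num) (E' k) (Γ k) (by rw [hE']) hΓk (hg _ _ hΓlo)
    refine ⟨f3.trans hzζ, f4, f5.trans hzζ, ?_⟩
    rw [hEr, hS, hΛ, him]
    have hMp : 0 < M * (σ k ^ 2 * ε k) := by positivity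
    refine (f9 (κ k) (Real.sqrt (M * (σ k ^ 2 * ε k))) (Real.sqrt_pos.2 hMp) fun q => ?_).trans
      (le_trans ?_ hzM)
    · apply Real.le_sqrt_of_sq_le
      refine (U.adj_sq (κ k) q).trans ?_
      rw [div_lt_iff₀ (by positivity), hS2] at hSC
      calc 4 * (d : ℝ) * ∑ i, mo (κ k) i ^ 2 ≤ 4 * d * (C * (2 * τ * ε k * σ k ^ 2)) := by
            gcongr
        _ = _ := by
            rw [hM]
            ring
    · apply mul_le_mul_of_nonneg_right _ hz0.le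
      have hσ2 : 0 < σ k ^ 2 := by positivity
      rw [← Real.sqrt_eq_rpow]
      apply Real.le_sqrt_of_sq_le
      rw [mul_pow, Real.sq_sqrt (by positivity), div_pow, Real.sq_sqrt (by positivity)]
      rw [div_mul_div_comm, div_le_iff₀ (by positivity)]
      apply le_of_eq
      ring
  have ev4 := ev (1 / 4) (by norm_num) le_rfl
  have l_Er : Tendsto Er atTop (𝓝 0) := by
    rw [tendsto_zero_iff_norm_tendsto_zero, Metric.tendsto_nhds]
    intro η hη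
    filter_upwards [ev (min (1 / 4) (η / 2)) (by positivity) (min_le_left _ _)] with k hk
    rw [Real.dist_eq, sub_zero, abs_of_nonneg (norm_nonneg _)]
    calc ‖Er k‖ ≤ min (1 / 4) (η / 2) := hk.2.2.2
      _ ≤ η / 2 := min_le_right _ _
      _ < η := by linarith
  have l_Γ : Tendsto (fun k => Γ k / σ k ^ 2) atTop (𝓝 (Real.pi * n)) := by
    have := l_ε.add l_im
    rw [zero_add] at this
    refine this.congr' ?_
    filter_upwards [l_mem] with k hσ0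
    rw [hΓ]
    field_simp
  have l_Γi : Tendsto (fun k => σ k ^ 2 / Γ k) atTop (𝓝 (Real.pi * n)⁻¹) := by
    refine (l_Γ.inv₀ hπn.ne').congr fun k => ?_
    rw [inv_div]
  -- the momentum is small
  have l_S2Γ : Tendsto (fun k => S2 k / Γ k ^ 2) atTop (𝓝 0) := by
    have := (l_S2.mul (l_ε.const_mul (2 * τ))).mul (l_Γi.pow 2)
    rw [mul_zero, mul_zero, zero_mul] at this
    refine this.congr' ?_
    filter_upwards [l_mem, ev4, hε0] with k hσ0 hσ hεp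
    have hΓ0 := hσ.2.1
    field_simp
  -- the difference of the resolvents
  have l_X : Tendsto (fun k => (Γ k ^ 3 * Λ k - Real.pi / 2 * w * S2 k) /
      (2 * τ * ε k * σ k ^ 2)) atTop (𝓝 0) := by
    rw [Metric.tendsto_nhds]
    intro η hη
    obtain ⟨r, hr, hdif⟩ := hdif d hd E (a / 4) (η / (2 * C)) (by positivity) (by positivity)
    have b2 := l_S2Γ.eventually (gt_mem_nhds (show (0 : ℝ) < r ^ 2 by positivity))
    filter_upwards [l_mem, ev (min (1 / 4) (r / 2)) (by positivity) (min_le_left _ _), l_S2C, b2,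
      lσ.eventually (small_L ha (show 0 < Real.pi * n / 2 by positivity)), l_m0, hε0]
      with k hσ0 hσ hb1 hb2 hL hm hεp
    obtain ⟨g1, g2, g3, -⟩ := hσ
    have hr2 : min (1 / 4) (r / 2) < r := lt_of_le_of_lt (min_le_right _ _) (by linarith)
    have hD : 0 < 2 * τ * ε k * σ k ^ 2 := by positivity
    have hS20 : 0 ≤ S2 k := by
      rw [hS2]
      exact Finset.sum_nonneg fun i _ => sq_nonneg _
    have hΓlo : Real.pi * n / 2 * σ k ^ 2 ≤ Γ k := by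
      have : 0 < σ k ^ 2 := by positivity
      rw [hΓ]
      show Real.pi * n / 2 * σ k ^ 2 ≤ ε k + σ k ^ 2 * im k
      nlinarith
    have k1 := hdif (E' k) (Γ k) (L k) (κ k) (lt_of_le_of_lt g1 hr2) g2
      (lt_of_le_of_lt g3 hr2) (hL (L k) (Γ k) (hL1 k) hΓlo) (by
        rw [Real.sqrt_le_left (by positivity)]
        rw [div_lt_iff₀ (by positivity), hS2] at hb2
        calc _ ≤ r ^ 2 * Γ k ^ 2 := hb2.le
          _ = _ := by ring)
    have k2 : |Γ k ^ 3 * Λ k - Real.pi / 2 * w * S2 k| ≤ η / (2 * C) * S2 k := by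
      rw [hΛ, hww, hS2]
      exact k1
    rw [Real.dist_eq, sub_zero, abs_div, abs_of_pos hD, div_lt_iff₀ hD]
    rw [div_lt_iff₀ hD] at hb1
    calc _ ≤ η / (2 * C) * S2 k := k2
      _ ≤ η / (2 * C) * (C * (2 * τ * ε k * σ k ^ 2)) := by
        have := hb1.le
        gcongr
      _ = η / 2 * (2 * τ * ε k * σ k ^ 2) := by
        field_simp
      _ < η * (2 * τ * ε k * σ k ^ 2) := by
        apply mul_lt_mul_of_pos_right _ hD
        linarith
  have l_Λ : Tendsto (fun k => Γ k * Λ k * σ k ^ 2 / (2 * ε k)) atTop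
      (𝓝 (τ * (∑ i, Q i ^ 2) * (w / (2 * Real.pi * n ^ 2)))) := by
    have := (l_X.add (l_S2.const_mul (Real.pi / 2 * w))).mul ((l_Γi.pow 2).const_mul τ)
    have e1 : (0 + Real.pi / 2 * w * ∑ i, Q i ^ 2) * (τ * ((Real.pi * n)⁻¹) ^ 2) =
        τ * (∑ i, Q i ^ 2) * (w / (2 * Real.pi * n ^ 2)) := by
      field_simp
      ring
    rw [e1] at this
    refine this.congr' ?_
    filter_upwards [l_mem, ev4, hε0] with k hσ0 hσ hεp
    have hΓ0 := hσ.2.1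
    field_simp
    ring
  have l_Λ0 : Tendsto (fun k => Γ k * Λ k / 2) atTop (𝓝 0) := by
    have := l_Λ.mul l_ε
    rw [mul_zero] at this
    refine this.congr' ?_
    filter_upwards [l_mem, hε0] with k hσ0 hεp
    field_simp
  -- the ladder equation
  have l_br : Tendsto (fun k => ((1 + Γ k * Λ k * σ k ^ 2 / (2 * ε k) : ℝ) : ℂ)) atTop
      (𝓝 ((1 + τ * (∑ i, Q i ^ 2) * (w / (2 * Real.pi * n ^ 2)) : ℝ) : ℂ)) := by
    have := (tendsto_const_nhds (x := (1 : ℝ)) (f := (atTop : Filter ℕ))).add l_Λ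
    exact (Complex.continuous_ofReal.tendsto _).comp this
  have l_r : Tendsto (fun k => ((im k - Γ k * Λ k / 2 : ℝ) : ℂ) - Er k) atTop
      (𝓝 ((Real.pi * n : ℝ) : ℂ)) := by
    have h1 := l_im.sub l_Λ0
    rw [sub_zero] at h1
    have h2 := ((Complex.continuous_ofReal.tendsto _).comp h1).sub l_Er
    rw [sub_zero] at h2
    exact h2
  have hc0 : 0 < 1 + τ * (∑ i, Q i ^ 2) * (w / (2 * Real.pi * n ^ 2)) := by
    have h1 : 0 ≤ ∑ i, Q i ^ 2 := Finset.sum_nonneg fun i _ => sq_nonneg _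
    have h2 : 0 ≤ w := by
      rw [hww]
      exact hw0 E
    positivity
  have hc1 : ((1 + τ * (∑ i, Q i ^ 2) * (w / (2 * Real.pi * n ^ 2)) : ℝ) : ℂ) ≠ 0 := by
    exact_mod_cast hc0.ne'
  have l_fin := l_r.div l_br hc1
  have e2 : ((Real.pi * n : ℝ) : ℂ) /
      ((1 + τ * (∑ i, Q i ^ 2) * (w / (2 * Real.pi * n ^ 2)) : ℝ) : ℂ) =
      ((Real.pi * fl d Q τ E : ℝ) : ℂ) := by
    unfold fl
    rw [← hnn, ← hww]
    push_cast
    ring
  rw [e2] at l_fin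
  refine l_fin.congr' ?_
  filter_upwards [l_mem, ev4, l_br.eventually_ne hc1, hε0] with k hσ0 hσ hne hεp
  have hεC : (ε k : ℂ) ≠ 0 := by exact_mod_cast hεp.ne'
  rw [Pi.div_apply, div_eq_iff hne]
  have k1 : Er k = ((im k : ℂ) - (ε k : ℂ) * S k) -
    (1 + ((σ k ^ 2 : ℝ) : ℂ) * S k) * ((Γ k * Λ k / 2 : ℝ) : ℂ) := by rw [hEr]
  have k2 : S k = Sr d (L k) (σ k) E (ε k) (κ k) := by rw [hS]
  rw [k1, ← k2]
  push_cast
  field_simp
  ring

theorem lim3 (hs : T_SCAL3) (hf : T_FIN3) (hi : T_IMS) (hd : T_DIF3) (hdos : T_DOS) : T_LIM3 := by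
  intro d h3 a b ha hb τ hτ m E hE η hη
  by_contra hcon
  rw [not_eventually] at hcon
  obtain ⟨σ, lσ, hσ⟩ := exists_seq_forall_of_frequently hcon
  simp only [not_forall, not_le] at hσ
  choose L hL h1 h2 h4 using hσ
  have : ∀ k, NeZero (L k) := hL
  have h5 := lim_seq hs hf hi hd hdos h3 ha hb hτ m hE σ L lσ h1 h2
  rw [Metric.tendsto_nhds] at h5
  obtain ⟨k, hk⟩ := (h5 η hη).exists
  rw [dist_eq_norm] at hk
  exact absurd (h4 k) (not_lt.2 hk.le)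

end Pool.Agent.T2h98.QD
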