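import Pool.Agent.T2h98.QD.Stm5

/-! Poisson integrals of the density of states (POI). -/

set_option autoImplicit false
set_option linter.unusedSectionVars false

open scoped BigOperators Topology
open MeasureTheory Filter Set

namespace Pool.Agent.T2h98.QD

open Pool.Agent.W788.MFP.Four (T NN adj)
open Pool.Agent.W788.BK (cr)

namespace Poi0

section scalar

lemma exp_abs_int {b : ℝ} (hb : 0 < b) :
    Integrable (fun s : ℝ => Real.exp (-(b * |s|))) ∧
      ∫ s : ℝ, Real.exp (-(b * |s|)) = 2 / b := by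
  have h1 : IntegrableOn (fun s : ℝ => Real.exp (-(b * |s|))) (Ioi 0) := by
    refine (integrableOn_exp_mul_Ioi (a := -b) (by linarith) 0).congr_fun (fun s hs => ?_)
      measurableSet_Ioi
    simp only
    rw [abs_of_pos hs, neg_mul]
  have h2 : IntegrableOn (fun s : ℝ => Real.exp (-(b * |s|))) (Iic 0) := by
    refine (integrableOn_exp_mul_Iic (a := b) hb 0).congr_fun (fun s hs => ?_) measurableSet_Iic
    simp only
    rw [abs_of_nonpos hs]
    ring_nf
  constructor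
  · rw [← integrableOn_univ, ← Iic_union_Ioi (a := (0:ℝ))]
    exact h2.union h1
  · have h3 := integral_comp_abs (f := fun s => Real.exp (-(b * s)))
    rw [h3]
    have h4 := integral_exp_mul_Ioi (a := -b) (by linarith) 0
    simp only [neg_mul] at h4
    rw [h4]
    simp
    ring

lemma abs_mul_exp {b : ℝ} (hb : 0 < b) (s : ℝ) :
    |s| * Real.exp (-(b * |s|)) ≤ 1 / b * Real.exp (-(b / 2 * |s|)) := by
  have hu : 0 ≤ b * |s| := by positivity
  have h1 : b * |s| ≤ Real.exp (b / 2 * |s|) := by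
    have h2 : Real.exp (b / 2 * |s|) = Real.exp (b * |s| / 4) ^ 2 := by
      rw [← Real.exp_nat_mul]; push_cast; congr 1; ring
    have h3 := Real.add_one_le_exp (b * |s| / 4)
    rw [h2]
    nlinarith [sq_nonneg (b * |s| / 4 - 1)]
  have h2 : Real.exp (-(b * |s|)) = Real.exp (-(b / 2 * |s|)) * Real.exp (-(b / 2 * |s|)) := by
    rw [← Real.exp_add]; congr 1; ring
  have h3 : Real.exp (b / 2 * |s|) * Real.exp (-(b / 2 * |s|)) = 1 := by
    rw [← Real.exp_add]; simp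
  rw [h2]
  have h4 : |s| ≤ 1 / b * Real.exp (b / 2 * |s|) := by
    rw [one_div, ← div_eq_inv_mul, le_div_iff₀ hb]; linarith
  calc |s| * (Real.exp (-(b / 2 * |s|)) * Real.exp (-(b / 2 * |s|)))
      ≤ (1 / b * Real.exp (b / 2 * |s|)) *
        (Real.exp (-(b / 2 * |s|)) * Real.exp (-(b / 2 * |s|))) := by gcongr
    _ = 1 / b * (Real.exp (b / 2 * |s|) * Real.exp (-(b / 2 * |s|))) *
        Real.exp (-(b / 2 * |s|)) := by ring
    _ = _ := by rw [h3, mul_one]

lemma one_add_mul_exp {b : ℝ} (hb : 0 < b) (s : ℝ) :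
    (1 + |s|) * Real.exp (-(b * |s|)) ≤ (1 + 1 / b) * Real.exp (-(b / 2 * |s|)) := by
  have h1 := abs_mul_exp hb s
  have h2 : Real.exp (-(b * |s|)) ≤ Real.exp (-(b / 2 * |s|)) := by
    apply Real.exp_le_exp.2
    have : 0 ≤ b * |s| := by positivity
    linarith
  nlinarith

/-- the weight -/
noncomputable def A (β Γ s : ℝ) : ℝ := (1 + β * (Γ * |s|)) * Real.exp (-(Γ * |s|))

lemma A_cont (β Γ : ℝ) : Continuous (A β Γ) := by unfold A; fun_prop

variable {β Γ : ℝ} (hβ0 : 0 ≤ β) (hβ1 : β ≤ 1) (hΓ : 0 < Γ)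

include hβ0 hΓ in
lemma A_nonneg (s : ℝ) : 0 ≤ A β Γ s := by unfold A; positivity

include hβ1 hΓ in
lemma A_le (s : ℝ) : A β Γ s ≤ 2 * Real.exp (-(Γ / 2 * |s|)) := by
  unfold A
  have hu : 0 ≤ Γ * |s| := by positivity
  have h1 := Real.add_one_le_exp (Γ / 2 * |s|)
  have h2 : Real.exp (-(Γ * |s|)) = Real.exp (-(Γ / 2 * |s|)) * Real.exp (-(Γ / 2 * |s|)) := by
    rw [← Real.exp_add]; congr 1; ring
  have h3 : Real.exp (Γ / 2 * |s|) * Real.exp (-(Γ / 2 * |s|)) = 1 := by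
    rw [← Real.exp_add]; simp
  have h4 : 1 + β * (Γ * |s|) ≤ 2 * Real.exp (Γ / 2 * |s|) := by nlinarith
  rw [h2]
  calc (1 + β * (Γ * |s|)) * (Real.exp (-(Γ / 2 * |s|)) * Real.exp (-(Γ / 2 * |s|)))
      ≤ (2 * Real.exp (Γ / 2 * |s|)) *
        (Real.exp (-(Γ / 2 * |s|)) * Real.exp (-(Γ / 2 * |s|))) := by gcongr
    _ = 2 * (Real.exp (Γ / 2 * |s|) * Real.exp (-(Γ / 2 * |s|))) *
        Real.exp (-(Γ / 2 * |s|)) := by ring
    _ = _ := by rw [h3, mul_one]

lemma le_quarter {u v : ℝ} (hu : 0 ≤ u) (h1 : v ≤ 1) (h2 : v ≤ u) : v ≤ u ^ (1 / 4 : ℝ) := by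
  rcases le_total u 1 with h | h
  · rcases hu.eq_or_lt with h0 | h0
    · rw [← h0, Real.zero_rpow (by norm_num)]
      linarith
    · have h3 := Real.rpow_le_rpow_of_exponent_ge h0 h (by norm_num : (1 / 4 : ℝ) ≤ 1)
      rw [Real.rpow_one] at h3
      linarith
  · exact h1.trans (Real.one_le_rpow h (by norm_num))

include hβ0 hβ1 hΓ in
lemma A_sub (s : ℝ) : |A β Γ s - 1| ≤ (Γ * |s|) ^ (1 / 4 : ℝ) := by
  have hu : 0 ≤ Γ * |s| := by positivity
  have h0 := A_nonneg hβ0 hΓ s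
  have h1 : A β Γ s ≤ 1 := by
    unfold A
    have h2 := Real.add_one_le_exp (Γ * |s|)
    have h3 : Real.exp (Γ * |s|) * Real.exp (-(Γ * |s|)) = 1 := by
      rw [← Real.exp_add]; simp
    calc (1 + β * (Γ * |s|)) * Real.exp (-(Γ * |s|))
        ≤ Real.exp (Γ * |s|) * Real.exp (-(Γ * |s|)) := by
          apply mul_le_mul_of_nonneg_right _ (Real.exp_nonneg _)
          nlinarith
      _ = 1 := h3
  have h2 : 1 - Γ * |s| ≤ A β Γ s := by
    unfold A
    have h3 := Real.add_one_le_exp (-(Γ * |s|))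
    have h4 := Real.exp_pos (-(Γ * |s|))
    have h5 : 0 ≤ β * (Γ * |s|) * Real.exp (-(Γ * |s|)) := by positivity
    nlinarith
  rw [abs_sub_comm, abs_of_nonneg (by linarith)]
  exact le_quarter hu (by linarith) (by linarith)

lemma phase_sub (E E' s : ℝ) :
    ‖Complex.exp (((-(E' * s) : ℝ) : ℂ) * Complex.I) -
      Complex.exp (((-(E * s) : ℝ) : ℂ) * Complex.I)‖ ≤ 2 * (|E - E'| * |s|) ^ (1 / 4 : ℝ) := by
  have hu : 0 ≤ |E - E'| * |s| := by positivity
  have n1 : ∀ x : ℝ, ‖Complex.exp ((x : ℂ) * Complex.I)‖ = 1 := Complex.norm_exp_ofReal_mul_I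
  have h1 : ‖Complex.exp (((-(E' * s) : ℝ) : ℂ) * Complex.I) -
      Complex.exp (((-(E * s) : ℝ) : ℂ) * Complex.I)‖ ≤ 2 := by
    refine (norm_sub_le _ _).trans ?_
    rw [n1, n1]; norm_num
  have h2 : ‖Complex.exp (((-(E' * s) : ℝ) : ℂ) * Complex.I) -
      Complex.exp (((-(E * s) : ℝ) : ℂ) * Complex.I)‖ ≤ |E - E'| * |s| := by
    have e : Complex.exp (((-(E' * s) : ℝ) : ℂ) * Complex.I) -
        Complex.exp (((-(E * s) : ℝ) : ℂ) * Complex.I) =
        Complex.exp (((-(E * s) : ℝ) : ℂ) * Complex.I) *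
          (Complex.exp (Complex.I * (((E - E') * s : ℝ) : ℂ)) - 1) := by
      rw [mul_sub, mul_one, ← Complex.exp_add]
      congr 2
      push_cast
      ring
    rw [e, norm_mul, n1, one_mul]
    have h3 := Real.norm_exp_I_mul_ofReal_sub_one_le (x := (E - E') * s)
    rwa [Real.norm_eq_abs, abs_mul] at h3
  have h3 : ‖Complex.exp (((-(E' * s) : ℝ) : ℂ) * Complex.I) -
      Complex.exp (((-(E * s) : ℝ) : ℂ) * Complex.I)‖ / 2 ≤ (|E - E'| * |s|) ^ (1 / 4 : ℝ) :=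
    le_quarter hu (by linarith) (by linarith [norm_nonneg (Complex.exp (((-(E' * s) : ℝ) : ℂ) *
      Complex.I) - Complex.exp (((-(E * s) : ℝ) : ℂ) * Complex.I))])
  linarith

/-- the integral over a half line -/
lemma half (α b : ℂ) {a : ℂ} (ha : 0 < a.re) :
    IntegrableOn (fun s : ℝ => (α + b * s) * Complex.exp (-(a * s))) (Ioi 0) ∧
    ∫ s in Ioi (0 : ℝ), (α + b * s) * Complex.exp (-(a * s)) = α / a + b / a ^ 2 := by
  have ha0 : a ≠ 0 := by rintro rfl; simp at ha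
  have hcont : Continuous (fun s : ℝ => (α + b * s) * Complex.exp (-(a * s))) := by fun_prop
  have hint : IntegrableOn (fun s : ℝ => (α + b * s) * Complex.exp (-(a * s))) (Ioi 0) := by
    have h1 : Integrable (fun s : ℝ => (‖α‖ + ‖b‖ * (1 / a.re)) *
        Real.exp (-(a.re / 2 * |s|))) := ((exp_abs_int (by linarith)).1).const_mul _
    refine Integrable.mono' h1.integrableOn hcont.aestronglyMeasurable.restrict ?_
    refine (ae_restrict_iff' measurableSet_Ioi).2 (ae_of_all _ fun s hs => ?_)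
    have hs0 : 0 < s := hs
    rw [norm_mul, Complex.norm_exp]
    have e1 : (-(a * (s : ℂ))).re = -(a.re * |s|) := by
      rw [abs_of_pos hs0]; simp
    rw [e1]
    have h2 : ‖α + b * (s : ℂ)‖ ≤ ‖α‖ + ‖b‖ * |s| := by
      refine (norm_add_le _ _).trans ?_
      rw [norm_mul, Complex.norm_real, Real.norm_eq_abs]
    have h3 := abs_mul_exp ha s
    have h4 : Real.exp (-(a.re * |s|)) ≤ Real.exp (-(a.re / 2 * |s|)) := by
      apply Real.exp_le_exp.2
      have : 0 ≤ a.re * |s| := by positivity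
      linarith
    calc ‖α + b * (s : ℂ)‖ * Real.exp (-(a.re * |s|))
        ≤ (‖α‖ + ‖b‖ * |s|) * Real.exp (-(a.re * |s|)) := by gcongr
      _ = ‖α‖ * Real.exp (-(a.re * |s|)) + ‖b‖ * (|s| * Real.exp (-(a.re * |s|))) := by ring
      _ ≤ ‖α‖ * Real.exp (-(a.re / 2 * |s|)) + ‖b‖ * (1 / a.re * Real.exp (-(a.re / 2 * |s|))) := by
          gcongr
      _ = _ := by ring
  refine ⟨hint, ?_⟩
  have hd : ∀ s : ℝ, HasDerivAt (fun s : ℝ => -((α / a + b / a ^ 2 + b / a * s) *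
      Complex.exp (-(a * s)))) ((α + b * s) * Complex.exp (-(a * s))) s := by
    intro s
    have h1 : HasDerivAt (fun s : ℝ => (s : ℂ)) 1 s := Complex.ofRealCLM.hasDerivAt
    have h2 : HasDerivAt (fun s : ℝ => α / a + b / a ^ 2 + b / a * (s : ℂ)) (b / a * 1) s :=
      (h1.const_mul _).const_add _
    have h3 : HasDerivAt (fun s : ℝ => Complex.exp (-(a * (s : ℂ))))
        (Complex.exp (-(a * (s : ℂ))) * (-(a * 1))) s := ((h1.const_mul a).neg).cexp
    have h4 := (h2.mul h3).neg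
    refine h4.congr_deriv ?_
    field_simp
    ring
  have hlim : Tendsto (fun s : ℝ => -((α / a + b / a ^ 2 + b / a * s) *
      Complex.exp (-(a * s)))) atTop (𝓝 0) := by
    rw [← neg_zero]
    apply Tendsto.neg
    apply squeeze_zero_norm' (a := fun s : ℝ => (‖α / a + b / a ^ 2‖ + ‖b / a‖ * (1 / a.re)) *
        Real.exp (-(a.re / 2 * |s|)))
    · filter_upwards [eventually_gt_atTop 0] with s hs0
      rw [norm_mul, Complex.norm_exp]
      have e1 : (-(a * (s : ℂ))).re = -(a.re * |s|) := by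
        rw [abs_of_pos hs0]; simp
      rw [e1]
      have h2 : ‖α / a + b / a ^ 2 + b / a * (s : ℂ)‖ ≤ ‖α / a + b / a ^ 2‖ + ‖b / a‖ * |s| := by
        refine (norm_add_le _ _).trans ?_
        rw [norm_mul (b / a), Complex.norm_real, Real.norm_eq_abs]
      have h3 := abs_mul_exp ha s
      have h4 : Real.exp (-(a.re * |s|)) ≤ Real.exp (-(a.re / 2 * |s|)) := by
        apply Real.exp_le_exp.2
        have : 0 ≤ a.re * |s| := by positivity
        linarith
      calc ‖α / a + b / a ^ 2 + b / a * (s : ℂ)‖ * Real.exp (-(a.re * |s|))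
          ≤ (‖α / a + b / a ^ 2‖ + ‖b / a‖ * |s|) * Real.exp (-(a.re * |s|)) := by gcongr
        _ = ‖α / a + b / a ^ 2‖ * Real.exp (-(a.re * |s|)) +
            ‖b / a‖ * (|s| * Real.exp (-(a.re * |s|))) := by ring
        _ ≤ ‖α / a + b / a ^ 2‖ * Real.exp (-(a.re / 2 * |s|)) +
            ‖b / a‖ * (1 / a.re * Real.exp (-(a.re / 2 * |s|))) := by
            gcongr
        _ = _ := by ring
    · have h5 : Tendsto (fun s : ℝ => Real.exp (-(a.re / 2 * |s|))) atTop (𝓝 0) := by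
        apply Real.tendsto_exp_atBot.comp
        apply tendsto_neg_atTop_atBot.comp
        exact Tendsto.const_mul_atTop (by linarith) tendsto_abs_atTop_atTop
      simpa using h5.const_mul (‖α / a + b / a ^ 2‖ + ‖b / a‖ * (1 / a.re))
  rw [integral_Ioi_of_hasDerivAt_of_tendsto' (fun s _ => hd s) hint hlim]
  simp

lemma exp_cont (x : ℝ) : Continuous fun s : ℝ => Complex.exp (((x * s : ℝ) : ℂ) * Complex.I) := by
  fun_prop

include hβ0 hβ1 hΓ in
lemma A_int : Integrable (A β Γ) := by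
  refine Integrable.mono' (((exp_abs_int (b := Γ / 2) (by linarith)).1).const_mul 2)
    (A_cont β Γ).aestronglyMeasurable (ae_of_all _ fun s => ?_)
  rw [Real.norm_eq_abs, abs_of_nonneg (A_nonneg hβ0 hΓ s)]
  exact A_le hβ1 hΓ s

include hβ0 hβ1 hΓ in
lemma A_int_mul {f : ℝ → ℂ} (hf : Continuous f) {M : ℝ} (hM : ∀ s, ‖f s‖ ≤ M) :
    Integrable (fun s => ((A β Γ s : ℝ) : ℂ) * f s) := by
  refine Integrable.mono' ((A_int hβ0 hβ1 hΓ).mul_const M)
    ((Complex.continuous_ofReal.comp (A_cont β Γ)).mul hf).aestronglyMeasurable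
    (ae_of_all _ fun s => ?_)
  rw [norm_mul, Complex.norm_real, Real.norm_eq_abs, abs_of_nonneg (A_nonneg hβ0 hΓ s)]
  exact mul_le_mul_of_nonneg_left (hM s) (A_nonneg hβ0 hΓ s)

include hβ0 hβ1 hΓ in
/-- the Fourier transform of the weight -/
lemma four (x : ℝ) :
    ∫ s : ℝ, ((A β Γ s : ℝ) : ℂ) * Complex.exp (((x * s : ℝ) : ℂ) * Complex.I) =
      ((2 * Γ / (x ^ 2 + Γ ^ 2) + β * (2 * Γ * (Γ ^ 2 - x ^ 2) / (x ^ 2 + Γ ^ 2) ^ 2) : ℝ) : ℂ) := by
  set f : ℝ → ℂ := fun s => ((A β Γ s : ℝ) : ℂ) * Complex.exp (((x * s : ℝ) : ℂ) * Complex.I)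
    with hf
  have hint : Integrable f := A_int_mul hβ0 hβ1 hΓ (exp_cont x) (M := 1)
    (fun s => (Complex.norm_exp_ofReal_mul_I _).le)
  have h1 : ∫ s, f s = (∫ s in Iic (0 : ℝ), f s) + ∫ s in Ioi (0 : ℝ), f s :=
    (intervalIntegral.integral_Iic_add_Ioi hint.integrableOn hint.integrableOn).symm
  have h2 : ∫ s in Iic (0 : ℝ), f s = ∫ s in Ioi (0 : ℝ), f (-s) := by
    have := integral_comp_neg_Ioi (0 : ℝ) f
    rw [neg_zero] at this
    exact this.symm
  have e1 : ∫ s in Ioi (0 : ℝ), f s = ∫ s in Ioi (0 : ℝ),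
      (1 + ((β * Γ : ℝ) : ℂ) * s) * Complex.exp (-(((Γ : ℂ) - x * Complex.I) * s)) := by
    refine setIntegral_congr_fun measurableSet_Ioi fun s hs => ?_
    have hs0 : 0 < s := hs
    simp only [hf, A, abs_of_pos hs0]
    rw [Complex.ofReal_mul, mul_assoc, Complex.ofReal_exp, ← Complex.exp_add]
    congr 1
    · push_cast; ring
    · congr 1; push_cast; ring
  have e2 : ∫ s in Ioi (0 : ℝ), f (-s) = ∫ s in Ioi (0 : ℝ),
      (1 + ((β * Γ : ℝ) : ℂ) * s) * Complex.exp (-(((Γ : ℂ) + x * Complex.I) * s)) := by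
    refine setIntegral_congr_fun measurableSet_Ioi fun s hs => ?_
    have hs0 : 0 < s := hs
    simp only [hf, A, abs_neg, abs_of_pos hs0]
    rw [Complex.ofReal_mul, mul_assoc, Complex.ofReal_exp, ← Complex.exp_add]
    congr 1
    · push_cast; ring
    · congr 1; push_cast; ring
  rw [h1, h2, e1, e2, (half 1 _ (a := (Γ : ℂ) - x * Complex.I) (by simpa using hΓ)).2,
    (half 1 _ (a := (Γ : ℂ) + x * Complex.I) (by simpa using hΓ)).2]
  have p1 : (Γ : ℂ) - x * Complex.I ≠ 0 := by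
    intro h
    have := congrArg Complex.re h
    simp at this
    linarith
  have p2 : (Γ : ℂ) + x * Complex.I ≠ 0 := by
    intro h
    have := congrArg Complex.re h
    simp at this
    linarith
  have p3 : (x : ℂ) ^ 2 + (Γ : ℂ) ^ 2 = ((Γ : ℂ) - x * Complex.I) * ((Γ : ℂ) + x * Complex.I) := by
    linear_combination (x : ℂ) ^ 2 * Complex.I_sq
  push_cast
  rw [p3]
  have p4 : (Γ : ℂ) ^ 2 - (x : ℂ) ^ 2 = (((Γ : ℂ) - x * Complex.I) ^ 2 +
      ((Γ : ℂ) + x * Complex.I) ^ 2) / 2 := by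
    linear_combination -(x : ℂ) ^ 2 * Complex.I_sq
  have p5 : (2 : ℂ) * Γ = ((Γ : ℂ) - x * Complex.I) + ((Γ : ℂ) + x * Complex.I) := by ring
  rw [mul_comm (2 : ℂ) (Γ : ℂ)]
  set u := (Γ : ℂ) - x * Complex.I
  set w := (Γ : ℂ) + x * Complex.I
  have p6 : (Γ : ℂ) = (u + w) / 2 := by rw [← p5]; ring
  rw [p4, p6]
  field_simp
  ring

end scalar

section compare

/-- the integral of the weight at infinity -/
noncomputable def I54 : ℝ := ∫ s : ℝ, (1 + ‖s‖) ^ (-(5 / 4) : ℝ)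

lemma I54_nonneg : 0 ≤ I54 := integral_nonneg fun s => by positivity

lemma int_pow {p : ℝ} (hp : 1 < p) : Integrable (fun s : ℝ => (1 + ‖s‖) ^ (-p)) :=
  integrable_one_add_norm (by simpa using hp)

variable {Ψ ΨL : ℝ → ℂ} {C3 D Lr β Γ E E' r : ℝ}

theorem main (hΨ : Continuous Ψ) (hΨL : Continuous ΨL) (hC3 : 0 ≤ C3) (hD : 0 ≤ D)
    (hL : 0 < Lr) (h1 : ∀ s, ‖ΨL s - Ψ s‖ ≤ D * (1 + |s|) / Lr)
    (h2 : ∀ s, ‖Ψ s‖ ≤ C3 * (1 + ‖s‖) ^ (-(3 / 2) : ℝ)) {M : ℝ} (hM : ∀ s, ‖ΨL s‖ ≤ M)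
    (hβ0 : 0 ≤ β) (hβ1 : β ≤ 1) (hΓ : 0 < Γ) (hr1 : r ≤ 1) (hE : |E - E'| < r) (hΓr : Γ < r)
    (hLr : 1 / Lr ≤ r * Γ ^ 2) :
    ‖(∫ s : ℝ, ((A β Γ s : ℝ) : ℂ) * (Complex.exp (((-(E' * s) : ℝ) : ℂ) * Complex.I) * ΨL s)) -
      ∫ s : ℝ, Complex.exp (((-(E * s) : ℝ) : ℂ) * Complex.I) * Ψ s‖ ≤
      48 * D * r + 3 * C3 * r ^ (1 / 4 : ℝ) * I54 := by
  have hr0 : 0 < r := hΓ.trans hΓr
  have n1 : ∀ x : ℝ, ‖Complex.exp ((x : ℂ) * Complex.I)‖ = 1 := Complex.norm_exp_ofReal_mul_I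
  have c1 : Continuous fun s : ℝ => Complex.exp (((-(E' * s) : ℝ) : ℂ) * Complex.I) := by fun_prop
  have c2 : Continuous fun s : ℝ => Complex.exp (((-(E * s) : ℝ) : ℂ) * Complex.I) := by fun_prop
  have i1 : Integrable fun s : ℝ => ((A β Γ s : ℝ) : ℂ) *
      (Complex.exp (((-(E' * s) : ℝ) : ℂ) * Complex.I) * ΨL s) :=
    A_int_mul hβ0 hβ1 hΓ (c1.mul hΨL) (M := M) fun s => by rw [norm_mul, n1, one_mul]; exact hM s
  have i2 : Integrable fun s : ℝ => Complex.exp (((-(E * s) : ℝ) : ℂ) * Complex.I) * Ψ s := by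
    refine Integrable.mono' ((int_pow (p := 3 / 2) (by norm_num)).const_mul C3)
      (c2.mul hΨ).aestronglyMeasurable (ae_of_all _ fun s => ?_)
    rw [norm_mul, n1, one_mul]
    exact h2 s
  rw [← integral_sub i1 i2]
  have i3 : Integrable fun s : ℝ => (D / Lr * (2 * (1 + 2 / Γ))) * Real.exp (-(Γ / 4 * |s|)) +
      (3 * C3 * r ^ (1 / 4 : ℝ)) * (1 + ‖s‖) ^ (-(5 / 4) : ℝ) :=
    (((exp_abs_int (b := Γ / 4) (by linarith)).1).const_mul _).add
      ((int_pow (p := 5 / 4) (by norm_num)).const_mul _)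
  have hb : ∀ s : ℝ, ‖((A β Γ s : ℝ) : ℂ) *
      (Complex.exp (((-(E' * s) : ℝ) : ℂ) * Complex.I) * ΨL s) -
      Complex.exp (((-(E * s) : ℝ) : ℂ) * Complex.I) * Ψ s‖ ≤
      (D / Lr * (2 * (1 + 2 / Γ))) * Real.exp (-(Γ / 4 * |s|)) +
      (3 * C3 * r ^ (1 / 4 : ℝ)) * (1 + ‖s‖) ^ (-(5 / 4) : ℝ) := by
    intro s
    have hA0 := A_nonneg hβ0 hΓ s
    have e : ((A β Γ s : ℝ) : ℂ) *
        (Complex.exp (((-(E' * s) : ℝ) : ℂ) * Complex.I) * ΨL s) -
        Complex.exp (((-(E * s) : ℝ) : ℂ) * Complex.I) * Ψ s =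
        ((A β Γ s : ℝ) : ℂ) * (Complex.exp (((-(E' * s) : ℝ) : ℂ) * Complex.I) * (ΨL s - Ψ s)) +
        ((((A β Γ s - 1 : ℝ) : ℂ)) * Complex.exp (((-(E' * s) : ℝ) : ℂ) * Complex.I) +
          (Complex.exp (((-(E' * s) : ℝ) : ℂ) * Complex.I) -
            Complex.exp (((-(E * s) : ℝ) : ℂ) * Complex.I))) * Ψ s := by
      push_cast; ring
    rw [e]
    refine (norm_add_le _ _).trans (add_le_add ?_ ?_)
    · rw [norm_mul, norm_mul, n1, one_mul, Complex.norm_real, Real.norm_eq_abs,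
        abs_of_nonneg hA0]
      have h3 := one_add_mul_exp (b := Γ / 2) (by linarith) s
      have e3 : Γ / 2 / 2 = Γ / 4 := by ring
      have e4 : 1 / (Γ / 2) = 2 / Γ := by field_simp
      rw [e3, e4] at h3
      calc A β Γ s * ‖ΨL s - Ψ s‖ ≤ (2 * Real.exp (-(Γ / 2 * |s|))) * (D * (1 + |s|) / Lr) :=
            mul_le_mul (A_le hβ1 hΓ s) (h1 s) (norm_nonneg _) (by positivity)
        _ = D / Lr * 2 * ((1 + |s|) * Real.exp (-(Γ / 2 * |s|))) := by ring
        _ ≤ D / Lr * 2 * ((1 + 2 / Γ) * Real.exp (-(Γ / 4 * |s|))) := by gcongr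
        _ = _ := by ring
    · rw [norm_mul]
      have h3 : ‖(((A β Γ s - 1 : ℝ) : ℂ)) * Complex.exp (((-(E' * s) : ℝ) : ℂ) * Complex.I) +
          (Complex.exp (((-(E' * s) : ℝ) : ℂ) * Complex.I) -
            Complex.exp (((-(E * s) : ℝ) : ℂ) * Complex.I))‖ ≤
          3 * (r ^ (1 / 4 : ℝ) * (1 + ‖s‖) ^ (1 / 4 : ℝ)) := by
        refine (norm_add_le _ _).trans ?_
        rw [norm_mul, n1, mul_one, Complex.norm_real, Real.norm_eq_abs]
        have a1 := A_sub hβ0 hβ1 hΓ s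
        have a2 := phase_sub E E' s
        have q1 : (Γ * |s|) ^ (1 / 4 : ℝ) ≤ r ^ (1 / 4 : ℝ) * (1 + ‖s‖) ^ (1 / 4 : ℝ) := by
          rw [← Real.mul_rpow hr0.le (by positivity)]
          apply Real.rpow_le_rpow (by positivity) _ (by norm_num)
          rw [Real.norm_eq_abs]
          have := abs_nonneg s
          nlinarith
        have q2 : (|E - E'| * |s|) ^ (1 / 4 : ℝ) ≤ r ^ (1 / 4 : ℝ) * (1 + ‖s‖) ^ (1 / 4 : ℝ) := by
          rw [← Real.mul_rpow hr0.le (by positivity)]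
          apply Real.rpow_le_rpow (by positivity) _ (by norm_num)
          rw [Real.norm_eq_abs]
          have := abs_nonneg s
          have := abs_nonneg (E - E')
          nlinarith
        linarith
      have hs1 : (0 : ℝ) < 1 + ‖s‖ := by positivity
      calc _ ≤ (3 * (r ^ (1 / 4 : ℝ) * (1 + ‖s‖) ^ (1 / 4 : ℝ))) *
            (C3 * (1 + ‖s‖) ^ (-(3 / 2) : ℝ)) :=
            mul_le_mul h3 (h2 s) (norm_nonneg _) (by positivity)
        _ = (3 * C3 * r ^ (1 / 4 : ℝ)) * ((1 + ‖s‖) ^ (1 / 4 : ℝ) * (1 + ‖s‖) ^ (-(3 / 2) : ℝ)) := by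
            ring
        _ = _ := by
            rw [← Real.rpow_add hs1]
            norm_num
  refine (norm_integral_le_of_norm_le i3 (ae_of_all _ hb)).trans ?_
  rw [integral_add (((exp_abs_int (b := Γ / 4) (by linarith)).1).const_mul _)
      ((int_pow (p := 5 / 4) (by norm_num)).const_mul _), integral_const_mul, integral_const_mul,
      (exp_abs_int (b := Γ / 4) (by linarith)).2]
  have hI : ∫ s : ℝ, (1 + ‖s‖) ^ (-(5 / 4) : ℝ) = I54 := rfl
  rw [hI]
  refine add_le_add ?_ le_rfl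
  have hG1 : Γ ≤ 1 := by linarith
  have e5 : D / Lr * (2 * (1 + 2 / Γ)) * (2 / (Γ / 4)) =
      D * ((1 / Lr) * (16 * (Γ + 2) / Γ ^ 2)) := by
    field_simp
    ring
  rw [e5]
  have h7 : (1 / Lr) * (16 * (Γ + 2) / Γ ^ 2) ≤ (r * Γ ^ 2) * (16 * (Γ + 2) / Γ ^ 2) :=
    mul_le_mul_of_nonneg_right hLr (by positivity)
  have h8 : (r * Γ ^ 2) * (16 * (Γ + 2) / Γ ^ 2) = r * (16 * (Γ + 2)) := by
    field_simp
  have h9 : r * (16 * (Γ + 2)) ≤ r * 48 := by
    apply mul_le_mul_of_nonneg_left _ hr0.le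
    linarith
  calc D * ((1 / Lr) * (16 * (Γ + 2) / Γ ^ 2)) ≤ D * (r * 48) :=
        mul_le_mul_of_nonneg_left (by linarith) hD
    _ = 48 * D * r := by ring

end compare

section means

variable {L : ℕ} [NeZero L]

/-- the mean of `c j exp (2 i s cr j)` -/
noncomputable def mn (c : ZMod L → ℝ) (s : ℝ) : ℂ :=
  (L : ℂ)⁻¹ * ∑ j : ZMod L, ((c j : ℝ) : ℂ) * Complex.exp (((2 * s * cr j : ℝ) : ℂ) * Complex.I)

lemma mn_cont (c : ZMod L → ℝ) : Continuous (mn c) := by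
  unfold mn
  fun_prop

lemma mn_norm (c : ZMod L → ℝ) {M : ℝ} (hM : ∀ j, |c j| ≤ M) (s : ℝ) : ‖mn c s‖ ≤ M := by
  unfold mn
  have hL : (0 : ℝ) < L := by exact_mod_cast Nat.pos_of_ne_zero (NeZero.ne L)
  rw [norm_mul, norm_inv, Complex.norm_natCast]
  have h1 : ‖∑ j : ZMod L, ((c j : ℝ) : ℂ) *
      Complex.exp (((2 * s * cr j : ℝ) : ℂ) * Complex.I)‖ ≤ L * M := by
    refine (norm_sum_le _ _).trans ?_
    calc ∑ j : ZMod L, ‖((c j : ℝ) : ℂ) * Complex.exp (((2 * s * cr j : ℝ) : ℂ) * Complex.I)‖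
        ≤ ∑ j : ZMod L, M := by
          apply Finset.sum_le_sum
          intro j _
          rw [norm_mul, Complex.norm_exp_ofReal_mul_I, mul_one, Complex.norm_real]
          exact hM j
      _ = L * M := by
          rw [Finset.sum_const, Finset.card_univ, ZMod.card, nsmul_eq_mul]
  calc (L : ℝ)⁻¹ * _ ≤ (L : ℝ)⁻¹ * (L * M) := by gcongr
    _ = M := by field_simp

lemma adj_sum {d : ℕ} (k : T d L) : adj k = ∑ i, 2 * cr (k i) := rfl

variable {d : ℕ}

/-- the mean over the momenta -/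
lemma mean_eq (c : Fin d → ZMod L → ℝ) {β Γ E' : ℝ} (hβ0 : 0 ≤ β) (hβ1 : β ≤ 1) (hΓ : 0 < Γ) :
    (((NN d L)⁻¹ * ∑ k : T d L, (∏ i, c i (k i)) *
      (2 * Γ / ((adj k - E') ^ 2 + Γ ^ 2) + β * (2 * Γ * (Γ ^ 2 - (adj k - E') ^ 2) /
        ((adj k - E') ^ 2 + Γ ^ 2) ^ 2)) : ℝ) : ℂ) =
    ∫ s : ℝ, ((A β Γ s : ℝ) : ℂ) * (Complex.exp (((-(E' * s) : ℝ) : ℂ) * Complex.I) *
      ∏ i, mn (c i) s) := by
  have hint : ∀ k : T d L, Integrable fun s : ℝ => ((∏ i, c i (k i) : ℝ) : ℂ) *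
      (((A β Γ s : ℝ) : ℂ) * Complex.exp ((((adj k - E') * s : ℝ) : ℂ) * Complex.I)) := by
    intro k
    exact (A_int_mul hβ0 hβ1 hΓ (exp_cont (adj k - E')) (M := 1)
      (fun s => (Complex.norm_exp_ofReal_mul_I _).le)).const_mul _
  have h1 : ∀ s : ℝ, ((A β Γ s : ℝ) : ℂ) * (Complex.exp (((-(E' * s) : ℝ) : ℂ) * Complex.I) *
      ∏ i, mn (c i) s) = (((NN d L)⁻¹ : ℝ) : ℂ) * ∑ k : T d L, ((∏ i, c i (k i) : ℝ) : ℂ) *
      (((A β Γ s : ℝ) : ℂ) * Complex.exp ((((adj k - E') * s : ℝ) : ℂ) * Complex.I)) := by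
    intro s
    have h2 : ∏ i, mn (c i) s = (((NN d L)⁻¹ : ℝ) : ℂ) * ∑ k : T d L, ∏ i, (((c i (k i) : ℝ) : ℂ) *
        Complex.exp (((2 * s * cr (k i) : ℝ) : ℂ) * Complex.I)) := by
      unfold mn
      rw [Finset.prod_mul_distrib, Finset.prod_const, Finset.card_univ, Fintype.card_fin,
        Finset.prod_univ_sum, Fintype.piFinset_univ]
      congr 1
      unfold NN
      push_cast
      rw [inv_pow]
    rw [h2, Finset.mul_sum, Finset.mul_sum, Finset.mul_sum, Finset.mul_sum]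
    apply Finset.sum_congr rfl
    intro k _
    rw [Finset.prod_mul_distrib, ← Complex.exp_sum]
    have e : Complex.exp ((((adj k - E') * s : ℝ) : ℂ) * Complex.I) =
        Complex.exp (((-(E' * s) : ℝ) : ℂ) * Complex.I) *
        Complex.exp (∑ i, ((2 * s * cr (k i) : ℝ) : ℂ) * Complex.I) := by
      rw [← Complex.exp_add]
      congr 1
      rw [← Finset.sum_mul, ← add_mul]
      congr 1
      rw [adj_sum]
      push_cast
      rw [sub_mul, Finset.sum_mul]
      rw [sub_eq_neg_add]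
      congr 1
      apply Finset.sum_congr rfl
      intro i _
      ring
    rw [e]
    push_cast
    ring
  rw [integral_congr_ae (ae_of_all _ h1), integral_const_mul, integral_finsetSum _
    (fun k _ => hint k)]
  push_cast
  congr 1
  apply Finset.sum_congr rfl
  intro k _
  have h3 := four hβ0 hβ1 hΓ (adj k - E')
  have h4 : ∫ s : ℝ, (∏ i, ((c i (k i) : ℝ) : ℂ)) *
      (((A β Γ s : ℝ) : ℂ) * Complex.exp (((adj k : ℂ) - E') * s * Complex.I)) =
      (∏ i, ((c i (k i) : ℝ) : ℂ)) * ∫ s : ℝ,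
      ((A β Γ s : ℝ) : ℂ) * Complex.exp ((((adj k - E') * s : ℝ) : ℂ) * Complex.I) := by
    rw [← integral_const_mul]
    push_cast
    rfl
  rw [h4, h3]
  push_cast
  ring

end means

section bessel

lemma jb_cont : Continuous jb := by
  unfold jb
  refine continuous_const.mul ?_
  apply intervalIntegral.continuous_parametric_intervalIntegral_of_continuous'
  simp only [Function.uncurry_def]
  fun_prop

lemma kb_cont : Continuous kb := by
  unfold kb
  refine continuous_const.mul ?_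
  apply intervalIntegral.continuous_parametric_intervalIntegral_of_continuous'
  simp only [Function.uncurry_def]
  fun_prop

lemma mean_norm {f : ℝ → ℂ} {M : ℝ} (h : ∀ k, ‖f k‖ ≤ M) :
    ‖((2 * Real.pi : ℝ) : ℂ)⁻¹ * ∫ k in (-Real.pi)..Real.pi, f k‖ ≤ M := by
  have hp := Real.pi_pos
  rw [norm_mul, norm_inv, Complex.norm_real, Real.norm_eq_abs, abs_of_pos (by positivity)]
  have h1 := intervalIntegral.norm_integral_le_of_norm_le_const (a := -Real.pi) (b := Real.pi)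
    (f := f) (C := M) (fun k _ => h k)
  have h2 : |Real.pi - -Real.pi| = 2 * Real.pi := by
    rw [sub_neg_eq_add, ← two_mul, abs_of_pos (by positivity)]
  rw [h2] at h1
  calc (2 * Real.pi)⁻¹ * ‖∫ k in (-Real.pi)..Real.pi, f k‖
      ≤ (2 * Real.pi)⁻¹ * (M * (2 * Real.pi)) := by gcongr
    _ = M := by field_simp

lemma jb_norm (s : ℝ) : ‖jb s‖ ≤ 1 := by
  unfold jb
  exact mean_norm fun k => (Complex.norm_exp_ofReal_mul_I _).le

lemma kb_norm (s : ℝ) : ‖kb s‖ ≤ 4 := by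
  unfold kb
  apply mean_norm
  intro k
  rw [norm_mul, Complex.norm_exp_ofReal_mul_I, mul_one, Complex.norm_real, Real.norm_eq_abs,
    abs_of_nonneg (by positivity)]
  have := Real.sin_sq_le_one k
  linarith

lemma pow_sub_le {x y : ℂ} (hx : ‖x‖ ≤ 1) (hy : ‖y‖ ≤ 1) (n : ℕ) :
    ‖x ^ n - y ^ n‖ ≤ n * ‖x - y‖ := by
  induction n with
  | zero => simp
  | succ n ih =>
    have e : x ^ (n + 1) - y ^ (n + 1) = (x ^ n - y ^ n) * x + y ^ n * (x - y) := by ring
    rw [e]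
    refine (norm_add_le _ _).trans ?_
    rw [norm_mul, norm_mul, norm_pow]
    have h1 : ‖y‖ ^ n ≤ 1 := pow_le_one₀ (norm_nonneg _) hy
    have h2 : ‖x ^ n - y ^ n‖ * ‖x‖ ≤ (n * ‖x - y‖) * 1 :=
      mul_le_mul ih hx (norm_nonneg _) (by positivity)
    have h3 : ‖y‖ ^ n * ‖x - y‖ ≤ 1 * ‖x - y‖ := mul_le_mul_of_nonneg_right h1 (norm_nonneg _)
    push_cast
    linarith

end bessel

end Poi0

open Poi0 in
/-- **Poisson integrals** -/
theorem poi (hb : T_BES) (hj : T_JL) : T_POI := by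
  obtain ⟨C, hC, hB⟩ := hb
  obtain ⟨C', hC', hJ⟩ := hj
  intro d hd η hη
  have hd1 : (1 : ℝ) ≤ d := by exact_mod_cast (by omega : 1 ≤ d)
  set D : ℝ := 4 * d * C' with hD
  have hD0 : 0 < D := by positivity
  have hI := I54_nonneg
  set K3 : ℝ := 3 * C ^ 3 * I54 + 1 with hK3
  have hK0 : 0 < K3 := by positivity
  refine ⟨min 1 (min (η / (48 * D)) ((η / K3) ^ 4)), by positivity, ?_⟩
  set r : ℝ := min 1 (min (η / (48 * D)) ((η / K3) ^ 4)) with hr
  have hr1 : r ≤ 1 := min_le_left _ _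
  have hr2 : 48 * D * r ≤ η := by
    have h1 : r ≤ η / (48 * D) := (min_le_right _ _).trans (min_le_left _ _)
    rw [le_div_iff₀ (by positivity)] at h1
    linarith
  have hr0 : 0 < r := by positivity
  have hr3 : 3 * C ^ 3 * r ^ (1 / 4 : ℝ) * I54 ≤ η := by
    have h1 : r ≤ (η / K3) ^ 4 := (min_le_right _ _).trans (min_le_right _ _)
    have h2 : r ^ (1 / 4 : ℝ) ≤ η / K3 := by
      calc r ^ (1 / 4 : ℝ) ≤ ((η / K3) ^ 4) ^ (1 / 4 : ℝ) :=
            Real.rpow_le_rpow hr0.le h1 (by norm_num)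
        _ = η / K3 := by
            rw [← Real.rpow_natCast, ← Real.rpow_mul (by positivity)]
            norm_num
    have h3 : 3 * C ^ 3 * I54 ≤ K3 := by rw [hK3]; linarith
    calc 3 * C ^ 3 * r ^ (1 / 4 : ℝ) * I54 = (3 * C ^ 3 * I54) * r ^ (1 / 4 : ℝ) := by ring
      _ ≤ K3 * (η / K3) := by gcongr
      _ = η := by field_simp
  intro E E' Γ L _ hE hΓ hΓr hLr
  have hL : (0 : ℝ) < L := by exact_mod_cast Nat.pos_of_ne_zero (NeZero.ne L)
  have hcr : ∀ j : ZMod L, |cr j| ≤ 1 := by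
    intro j
    unfold cr
    refine (Complex.abs_re_le_norm _).trans ?_
    rw [ZMod.stdAddChar_apply]
    exact (Circle.norm_coe _).le
  -- the functions
  set jL : ℝ → ℂ := mn (fun _ : ZMod L => (1 : ℝ)) with hjL
  set kL : ℝ → ℂ := mn (fun j : ZMod L => 4 * (1 - cr j ^ 2)) with hkL
  have jL_norm : ∀ s, ‖jL s‖ ≤ 1 := mn_norm _ (fun j => by simp)
  have kL_norm : ∀ s, ‖kL s‖ ≤ 4 := mn_norm _ (fun j => by
    have h1 := hcr j
    rw [abs_le] at h1
    rw [abs_le]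
    constructor <;> nlinarith)
  have jsub : ∀ s, ‖jL s - jb s‖ ≤ C' * (1 + |s|) / L := by
    intro s
    have h1 := (hJ L s).1
    rw [hjL]
    unfold mn
    simpa using h1
  have ksub : ∀ s, ‖kL s - kb s‖ ≤ C' * (1 + |s|) / L := by
    intro s
    exact (hJ L s).2
  have decay : ∀ s : ℝ, (C / Real.sqrt (1 + |s|)) ^ 3 = C ^ 3 * (1 + ‖s‖) ^ (-(3 / 2) : ℝ) := by
    intro s
    have h0 : (0 : ℝ) ≤ 1 + |s| := by positivity
    rw [div_pow, Real.sqrt_eq_rpow, ← Real.rpow_natCast ((1 + |s|) ^ (1 / 2 : ℝ)),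
      ← Real.rpow_mul h0, div_eq_mul_inv, ← Real.rpow_neg h0, Real.norm_eq_abs]
    norm_num
  have key : ∀ (Ψ ΨL : ℝ → ℂ) (β x y : ℝ), Continuous Ψ → Continuous ΨL →
      (∀ s, ‖ΨL s - Ψ s‖ ≤ D * (1 + |s|) / L) →
      (∀ s, ‖Ψ s‖ ≤ C ^ 3 * (1 + ‖s‖) ^ (-(3 / 2) : ℝ)) → (∀ s, ‖ΨL s‖ ≤ 4) → 0 ≤ β → β ≤ 1 →
      ((2 * x : ℝ) : ℂ) = (∫ s : ℝ, ((A β Γ s : ℝ) : ℂ) *
        (Complex.exp (((-(E' * s) : ℝ) : ℂ) * Complex.I) * ΨL s)) →
      y = (((2 * Real.pi : ℝ) : ℂ)⁻¹ *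
        ∫ s : ℝ, Complex.exp (((-(E * s) : ℝ) : ℂ) * Complex.I) * Ψ s).re →
      |x - Real.pi * y| ≤ η := by
    intro Ψ ΨL β x y c1 c2 g1 g2 g3 hβ0 hβ1 hx hy
    have h1 := main c1 c2 (by positivity) hD0.le hL g1 g2 g3 hβ0 hβ1 hΓ hr1 hE hΓr hLr
    rw [← hx] at h1
    set J := ∫ s : ℝ, Complex.exp (((-(E * s) : ℝ) : ℂ) * Complex.I) * Ψ s with hJd
    have h2 : Real.pi * y = J.re / 2 := by
      rw [hy]
      have e : ((2 * Real.pi : ℝ) : ℂ)⁻¹ = (((2 * Real.pi)⁻¹ : ℝ) : ℂ) := by push_cast; rfl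
      rw [e, Complex.re_ofReal_mul]
      have := Real.pi_pos.ne'
      field_simp
    have h3 := Complex.abs_re_le_norm (((2 * x : ℝ) : ℂ) - J)
    rw [Complex.sub_re, Complex.ofReal_re] at h3
    rw [h2]
    have h4 : |2 * x - J.re| ≤ 2 * η := by linarith
    rw [abs_le] at h4 ⊢
    constructor <;> linarith [h4.1, h4.2]
  constructor
  · -- the density of states
    refine key (fun s => jb s ^ d) (fun s => ∏ _i : Fin d, jL s) 0 _ _ (jb_cont.pow d)
      (continuous_finsetProd _ fun _ _ => mn_cont _) ?_ ?_ ?_ le_rfl zero_le_one ?_ rfl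
    · intro s
      simp only [Finset.prod_const, Finset.card_univ, Fintype.card_fin]
      have h1 := pow_sub_le (jL_norm s) (jb_norm s) d
      have h2 := jsub s
      calc ‖jL s ^ d - jb s ^ d‖ ≤ d * (C' * (1 + |s|) / L) := h1.trans (by gcongr)
        _ ≤ (4 * d) * (C' * (1 + |s|) / L) := by gcongr; linarith
        _ = D * (1 + |s|) / L := by rw [hD]; ring
    · intro s
      rw [norm_pow, ← decay]
      calc ‖jb s‖ ^ d ≤ ‖jb s‖ ^ 3 := pow_le_pow_of_le_one (norm_nonneg _) (jb_norm s) hd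
        _ ≤ (C / Real.sqrt (1 + |s|)) ^ 3 := pow_le_pow_left₀ (norm_nonneg _) (hB s).1 3
    · intro s
      simp only [Finset.prod_const, Finset.card_univ, Fintype.card_fin]
      rw [norm_pow]
      exact (pow_le_one₀ (norm_nonneg _) (jL_norm s)).trans (by norm_num)
    · have h1 := mean_eq (L := L) (d := d) (fun _ _ => (1 : ℝ)) (E' := E') le_rfl zero_le_one hΓ
      rw [← h1]
      congr 1
      rw [Finset.mul_sum, Finset.mul_sum, Finset.mul_sum]
      apply Finset.sum_congr rfl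
      intro k _
      simp only [Finset.prod_const_one]
      ring
  · -- the squared velocity
    intro i
    have hprod : ∀ s, ∏ i' : Fin d, mn (fun j : ZMod L => if i' = i then 4 * (1 - cr j ^ 2) else 1)
        s = kL s * jL s ^ (d - 1) := by
      intro s
      rw [← Finset.mul_prod_erase Finset.univ _ (Finset.mem_univ i)]
      have h1 : mn (fun j : ZMod L => if i = i then 4 * (1 - cr j ^ 2) else 1) s = kL s := by
        rw [hkL]
        simp
      have h2 : ∏ i' ∈ Finset.univ.erase i,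
          mn (fun j : ZMod L => if i' = i then 4 * (1 - cr j ^ 2) else 1) s =
          ∏ _i' ∈ Finset.univ.erase i, jL s := by
        apply Finset.prod_congr rfl
        intro i' hi'
        rw [Finset.mem_erase] at hi'
        simp only [if_neg hi'.1, hjL]
      rw [h1, h2, Finset.prod_const, Finset.card_erase_of_mem (Finset.mem_univ i),
        Finset.card_univ, Fintype.card_fin]
    refine key (fun s => kb s * jb s ^ (d - 1)) (fun s => kL s * jL s ^ (d - 1)) 1 _ _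
      (kb_cont.mul (jb_cont.pow _)) ((mn_cont _).mul ((mn_cont _).pow _)) ?_ ?_ ?_ zero_le_one
      le_rfl ?_ rfl
    · intro s
      have h1 := pow_sub_le (jL_norm s) (jb_norm s) (d - 1)
      have h2 := jsub s
      have h3 := ksub s
      have e : kL s * jL s ^ (d - 1) - kb s * jb s ^ (d - 1) =
          (kL s - kb s) * jL s ^ (d - 1) + kb s * (jL s ^ (d - 1) - jb s ^ (d - 1)) := by ring
      have hd2 : ((d - 1 : ℕ) : ℝ) = d - 1 := by
        rw [Nat.cast_sub (by omega)]; simp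
      rw [hd2] at h1
      have h4 : ‖jL s ^ (d - 1)‖ ≤ 1 := by
        rw [norm_pow]; exact pow_le_one₀ (norm_nonneg _) (jL_norm s)
      have hX0 : 0 ≤ C' * (1 + |s|) / L := by positivity
      rw [e]
      calc ‖(kL s - kb s) * jL s ^ (d - 1) + kb s * (jL s ^ (d - 1) - jb s ^ (d - 1))‖
          ≤ ‖kL s - kb s‖ * ‖jL s ^ (d - 1)‖ + ‖kb s‖ * ‖jL s ^ (d - 1) - jb s ^ (d - 1)‖ := by
            refine (norm_add_le _ _).trans ?_
            rw [norm_mul, norm_mul]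
        _ ≤ (C' * (1 + |s|) / L) * 1 + 4 * ((d - 1) * (C' * (1 + |s|) / L)) := by
            gcongr
            · exact kb_norm s
            · refine h1.trans ?_
              apply mul_le_mul_of_nonneg_left h2
              linarith
        _ ≤ (4 * d) * (C' * (1 + |s|) / L) := by nlinarith
        _ = D * (1 + |s|) / L := by rw [hD]; ring
    · intro s
      rw [norm_mul, norm_pow]
      have h0 : (1 : ℝ) ≤ 1 + |s| := by linarith [abs_nonneg s]
      have h1 : ‖jb s‖ ^ (d - 1) ≤ ‖jb s‖ ^ 2 :=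
        pow_le_pow_of_le_one (norm_nonneg _) (jb_norm s) (by omega)
      have h2 : ‖jb s‖ ^ 2 ≤ (C / Real.sqrt (1 + |s|)) ^ 2 :=
        pow_le_pow_left₀ (norm_nonneg _) (hB s).1 2
      have h3 : C / (1 + |s|) ≤ C / Real.sqrt (1 + |s|) := by
        apply div_le_div_of_nonneg_left hC.le (by positivity)
        rw [Real.sqrt_le_left (by positivity)]
        nlinarith
      calc ‖kb s‖ * ‖jb s‖ ^ (d - 1) ≤ (C / Real.sqrt (1 + |s|)) *
            (C / Real.sqrt (1 + |s|)) ^ 2 :=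
            mul_le_mul ((hB s).2.trans h3) (h1.trans h2) (by positivity) (by positivity)
        _ = (C / Real.sqrt (1 + |s|)) ^ 3 := by ring
        _ = _ := decay s
    · intro s
      rw [norm_mul, norm_pow]
      have h4 : ‖jL s‖ ^ (d - 1) ≤ 1 := pow_le_one₀ (norm_nonneg _) (jL_norm s)
      have := kL_norm s
      have := norm_nonneg (kL s)
      have h5 : 0 ≤ ‖jL s‖ ^ (d - 1) := by positivity
      nlinarith
    · have h1 := mean_eq (L := L) (d := d)
        (fun i' j => if i' = i then 4 * (1 - cr j ^ 2) else 1) (E' := E') zero_le_one le_rfl hΓ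
      simp only [hprod] at h1
      rw [← h1]
      congr 1
      rw [Finset.mul_sum, Finset.mul_sum, Finset.mul_sum]
      apply Finset.sum_congr rfl
      intro k _
      rw [Finset.prod_ite_eq' Finset.univ i (fun i' => 4 * (1 - cr (k i') ^ 2)),
        if_pos (Finset.mem_univ i)]
      have hX : 0 < (adj k - E') ^ 2 + Γ ^ 2 := by positivity
      field_simp
      ring

end Pool.Agent.T2h98.QD
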