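import Pool.Agent.T2h98.QD.Stm12
import Pool.Agent.T2h98.QD.Poi

/-! Poisson integrals of the density of states, small tori (POI3). -/

set_option autoImplicit false
set_option linter.unusedSectionVars false

open scoped BigOperators Topology
open MeasureTheory Filter Set

namespace Pool.Agent.T2h98.QD

open Pool.Agent.W788.MFP.Four (T NN adj)
open Pool.Agent.W788.BK (cr)

namespace Poi3

open Poi0

/-- the tail -/
lemma tail {θ : ℝ} (hθ : 0 < θ) {η : ℝ} (hη : 0 < η) :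
    ∃ r : ℝ, 0 < r ∧ ∀ Γ : ℝ, 0 < Γ → Γ < r → Real.exp (-(Γ ^ (-θ) / 64)) / Γ ≤ η := by
  have h1 : Tendsto (fun x : ℝ => x ^ (1 / θ) * Real.exp (-(1 / 64) * x)) atTop (𝓝 0) :=
    tendsto_rpow_mul_exp_neg_mul_atTop_nhds_zero (1 / θ) (1 / 64) (by norm_num)
  have h2 : Tendsto (fun Γ : ℝ => Γ ^ (-θ)) (𝓝[>] 0) atTop :=
    tendsto_rpow_neg_nhdsGT_zero (by linarith)
  have h3 := (h1.comp h2).eventually_lt_const hη
  have h4 : ∀ᶠ Γ : ℝ in 𝓝[>] 0, Real.exp (-(Γ ^ (-θ) / 64)) / Γ ≤ η := by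
    filter_upwards [h3, self_mem_nhdsWithin] with Γ h5 h6
    have hΓ : (0 : ℝ) < Γ := h6
    simp only [Function.comp] at h5
    have e1 : (Γ ^ (-θ)) ^ (1 / θ) = Γ⁻¹ := by
      rw [← Real.rpow_mul hΓ.le]
      have : -θ * (1 / θ) = -1 := by field_simp
      rw [this, Real.rpow_neg_one]
    rw [e1] at h5
    have e2 : -(1 / 64) * Γ ^ (-θ) = -(Γ ^ (-θ) / 64) := by ring
    rw [e2] at h5
    rw [div_eq_inv_mul]
    exact h5.le
  rw [eventually_nhdsWithin_iff, Metric.eventually_nhds_iff] at h4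
  obtain ⟨r, hr, h5⟩ := h4
  refine ⟨r, hr, fun Γ hΓ hΓr => h5 ?_ hΓ⟩
  rw [Real.dist_eq, sub_zero, abs_of_pos hΓ]
  exact hΓr

variable {Ψ ΨL : ℝ → ℂ} {C3 D u β Γ E E' r : ℝ}

theorem main (hΨ : Continuous Ψ) (hΨL : Continuous ΨL) (hC3 : 0 ≤ C3) (hD : 0 ≤ D)
    (hu : 0 ≤ u) (h1 : ∀ s, ‖ΨL s - Ψ s‖ ≤ D * (Real.exp (Γ / 4 * |s|) * u))
    (h2 : ∀ s, ‖Ψ s‖ ≤ C3 * (1 + ‖s‖) ^ (-(3 / 2) : ℝ)) {M : ℝ} (hM : ∀ s, ‖ΨL s‖ ≤ M)
    (hβ0 : 0 ≤ β) (hβ1 : β ≤ 1) (hΓ : 0 < Γ) (hE : |E - E'| < r) (hΓr : Γ < r) :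
    ‖(∫ s : ℝ, ((A β Γ s : ℝ) : ℂ) * (Complex.exp (((-(E' * s) : ℝ) : ℂ) * Complex.I) * ΨL s)) -
      ∫ s : ℝ, Complex.exp (((-(E * s) : ℝ) : ℂ) * Complex.I) * Ψ s‖ ≤
      16 * D * (u / Γ) + 3 * C3 * r ^ (1 / 4 : ℝ) * I54 := by
  have hr0 : 0 < r := hΓ.trans hΓr
  have n1 : ∀ x : ℝ, ‖Complex.exp ((x : ℂ) * Complex.I)‖ = 1 := Complex.norm_exp_ofReal_mul_I
  have c1 : Continuous fun s : ℝ => Complex.exp (((-(E' * s) : ℝ) : ℂ) * Complex.I) := by fun_prop
  have c2 : Continuous fun s : ℝ => Complex.exp (((-(E * s) : ℝ) : ℂ) * Complex.I) := by fun_prop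
  have i1 : Integrable fun s : ℝ => ((A β Γ s : ℝ) : ℂ) *
      (Complex.exp (((-(E' * s) : ℝ) : ℂ) * Complex.I) * ΨL s) :=
    A_int_mul hβ0 hβ1 hΓ (c1.mul hΨL) (M := M) fun s => by rw [norm_mul, n1, one_mul]; exact hM s
  have i2 : Integrable fun s : ℝ => Complex.exp (((-(E * s) : ℝ) : ℂ) * Complex.I) * Ψ s := by
    refine Integrable.mono' ((int_pow (p := 3 / 2) (by norm_num)).const_mul C3)
      (c2.mul hΨ).aestronglyMeasurable (ae_of_all _ fun s => ?_)
    rw [norm_mul, n1, one_mul]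
    exact h2 s
  rw [← integral_sub i1 i2]
  have i3 : Integrable fun s : ℝ => (2 * D * u) * Real.exp (-(Γ / 4 * |s|)) +
      (3 * C3 * r ^ (1 / 4 : ℝ)) * (1 + ‖s‖) ^ (-(5 / 4) : ℝ) :=
    (((exp_abs_int (b := Γ / 4) (by linarith)).1).const_mul _).add
      ((int_pow (p := 5 / 4) (by norm_num)).const_mul _)
  have hb : ∀ s : ℝ, ‖((A β Γ s : ℝ) : ℂ) *
      (Complex.exp (((-(E' * s) : ℝ) : ℂ) * Complex.I) * ΨL s) -
      Complex.exp (((-(E * s) : ℝ) : ℂ) * Complex.I) * Ψ s‖ ≤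
      (2 * D * u) * Real.exp (-(Γ / 4 * |s|)) +
      (3 * C3 * r ^ (1 / 4 : ℝ)) * (1 + ‖s‖) ^ (-(5 / 4) : ℝ) := by
    intro s
    have hA0 := A_nonneg hβ0 hΓ s
    have e : ((A β Γ s : ℝ) : ℂ) *
        (Complex.exp (((-(E' * s) : ℝ) : ℂ) * Complex.I) * ΨL s) -
        Complex.exp (((-(E * s) : ℝ) : ℂ) * Complex.I) * Ψ s =
        ((A β Γ s : ℝ) : ℂ) * (Complex.exp (((-(E' * s) : ℝ) : ℂ) * Complex.I) * (ΨL s - Ψ s)) +
        ((((A β Γ s - 1 : ℝ) : ℂ)) * Complex.exp (((-(E' * s) : ℝ) : ℂ) * Complex.I) +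
          (Complex.exp (((-(E' * s) : ℝ) : ℂ) * Complex.I) -
            Complex.exp (((-(E * s) : ℝ) : ℂ) * Complex.I))) * Ψ s := by
      push_cast; ring
    rw [e]
    refine (norm_add_le _ _).trans (add_le_add ?_ ?_)
    · rw [norm_mul, norm_mul, n1, one_mul, Complex.norm_real, Real.norm_eq_abs,
        abs_of_nonneg hA0]
      have e3 : Real.exp (-(Γ / 2 * |s|)) * Real.exp (Γ / 4 * |s|) =
          Real.exp (-(Γ / 4 * |s|)) := by
        rw [← Real.exp_add]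
        congr 1
        ring
      calc A β Γ s * ‖ΨL s - Ψ s‖ ≤
            (2 * Real.exp (-(Γ / 2 * |s|))) * (D * (Real.exp (Γ / 4 * |s|) * u)) :=
            mul_le_mul (A_le hβ1 hΓ s) (h1 s) (norm_nonneg _) (by positivity)
        _ = (2 * D * u) * (Real.exp (-(Γ / 2 * |s|)) * Real.exp (Γ / 4 * |s|)) := by ring
        _ = _ := by rw [e3]
    · rw [norm_mul]
      have h3 : ‖(((A β Γ s - 1 : ℝ) : ℂ)) * Complex.exp (((-(E' * s) : ℝ) : ℂ) * Complex.I) +
          (Complex.exp (((-(E' * s) : ℝ) : ℂ) * Complex.I) -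
            Complex.exp (((-(E * s) : ℝ) : ℂ) * Complex.I))‖ ≤
          3 * (r ^ (1 / 4 : ℝ) * (1 + ‖s‖) ^ (1 / 4 : ℝ)) := by
        refine (norm_add_le _ _).trans ?_
        rw [norm_mul, n1, mul_one, Complex.norm_real, Real.norm_eq_abs]
        have a1 := A_sub hβ0 hβ1 hΓ s
        have a2 := phase_sub E E' s
        have q1 : (Γ * |s|) ^ (1 / 4 : ℝ) ≤ r ^ (1 / 4 : ℝ) * (1 + ‖s‖) ^ (1 / 4 : ℝ) := by
          rw [← Real.mul_rpow hr0.le (by positivity)]
          apply Real.rpow_le_rpow (by positivity) _ (by norm_num)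
          rw [Real.norm_eq_abs]
          have := abs_nonneg s
          nlinarith
        have q2 : (|E - E'| * |s|) ^ (1 / 4 : ℝ) ≤ r ^ (1 / 4 : ℝ) * (1 + ‖s‖) ^ (1 / 4 : ℝ) := by
          rw [← Real.mul_rpow hr0.le (by positivity)]
          apply Real.rpow_le_rpow (by positivity) _ (by norm_num)
          rw [Real.norm_eq_abs]
          have := abs_nonneg s
          have := abs_nonneg (E - E')
          nlinarith
        linarith
      have hs1 : (0 : ℝ) < 1 + ‖s‖ := by positivity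
      calc _ ≤ (3 * (r ^ (1 / 4 : ℝ) * (1 + ‖s‖) ^ (1 / 4 : ℝ))) *
            (C3 * (1 + ‖s‖) ^ (-(3 / 2) : ℝ)) :=
            mul_le_mul h3 (h2 s) (norm_nonneg _) (by positivity)
        _ = (3 * C3 * r ^ (1 / 4 : ℝ)) * ((1 + ‖s‖) ^ (1 / 4 : ℝ) * (1 + ‖s‖) ^ (-(3 / 2) : ℝ)) := by
            ring
        _ = _ := by
            rw [← Real.rpow_add hs1]
            norm_num
  refine (norm_integral_le_of_norm_le i3 (ae_of_all _ hb)).trans ?_
  rw [integral_add (((exp_abs_int (b := Γ / 4) (by linarith)).1).const_mul _)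
      ((int_pow (p := 5 / 4) (by norm_num)).const_mul _), integral_const_mul, integral_const_mul,
      (exp_abs_int (b := Γ / 4) (by linarith)).2]
  have hI : ∫ s : ℝ, (1 + ‖s‖) ^ (-(5 / 4) : ℝ) = I54 := rfl
  rw [hI]
  refine add_le_add (le_of_eq ?_) le_rfl
  field_simp
  ring

end Poi3

open Poi0 in
/-- **Poisson integrals, small tori** -/
theorem poi3 (hb : T_BES) (hj : T_JL3) : T_POI3 := by
  obtain ⟨C, hC, hB⟩ := hb
  obtain ⟨C', hC', hJ⟩ := hj
  intro d hd θ η hθ hη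
  have hd1 : (1 : ℝ) ≤ d := by exact_mod_cast (by omega : 1 ≤ d)
  set D : ℝ := 4 * d * (C' + 8) with hD
  have hD0 : 0 < D := by positivity
  obtain ⟨r₀, hr₀, htail⟩ := Poi3.tail hθ (η := η / (16 * D)) (by positivity)
  have hI := I54_nonneg
  set K3 : ℝ := 3 * C ^ 3 * I54 + 1 with hK3
  have hK0 : 0 < K3 := by positivity
  refine ⟨min 1 (min r₀ ((η / K3) ^ 4)), by positivity, ?_⟩
  set r : ℝ := min 1 (min r₀ ((η / K3) ^ 4)) with hr
  have hr1 : r ≤ 1 := min_le_left _ _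
  have hr2 : r ≤ r₀ := (min_le_right _ _).trans (min_le_left _ _)
  have hr0 : 0 < r := by positivity
  have hr3 : 3 * C ^ 3 * r ^ (1 / 4 : ℝ) * I54 ≤ η := by
    have h1 : r ≤ (η / K3) ^ 4 := (min_le_right _ _).trans (min_le_right _ _)
    have h2 : r ^ (1 / 4 : ℝ) ≤ η / K3 := by
      calc r ^ (1 / 4 : ℝ) ≤ ((η / K3) ^ 4) ^ (1 / 4 : ℝ) :=
            Real.rpow_le_rpow hr0.le h1 (by norm_num)
        _ = η / K3 := by
            rw [← Real.rpow_natCast, ← Real.rpow_mul (by positivity)]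
            norm_num
    have h3 : 3 * C ^ 3 * I54 ≤ K3 := by rw [hK3]; linarith
    calc 3 * C ^ 3 * r ^ (1 / 4 : ℝ) * I54 = (3 * C ^ 3 * I54) * r ^ (1 / 4 : ℝ) := by ring
      _ ≤ K3 * (η / K3) := by gcongr
      _ = η := by field_simp
  intro E E' Γ L _ hE hΓ hΓr hLr
  have hL : (0 : ℝ) < L := by exact_mod_cast Nat.pos_of_ne_zero (NeZero.ne L)
  have hcr : ∀ j : ZMod L, |cr j| ≤ 1 := by
    intro j
    unfold cr
    refine (Complex.abs_re_le_norm _).trans ?_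
    rw [ZMod.stdAddChar_apply]
    exact (Circle.norm_coe _).le
  -- the functions
  set jL : ℝ → ℂ := mn (fun _ : ZMod L => (1 : ℝ)) with hjL
  set kL : ℝ → ℂ := mn (fun j : ZMod L => 4 * (1 - cr j ^ 2)) with hkL
  have jL_norm : ∀ s, ‖jL s‖ ≤ 1 := mn_norm _ (fun j => by simp)
  have kL_norm : ∀ s, ‖kL s‖ ≤ 4 := mn_norm _ (fun j => by
    have h1 := hcr j
    rw [abs_le] at h1
    rw [abs_le]
    constructor <;> nlinarith)
  -- the exponentially small factor
  set u : ℝ := Real.exp (-(Γ * L / 64)) with hu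
  have hu0 : 0 < u := Real.exp_pos _
  have hΓ1 : Γ ≤ 1 := by linarith
  have hhalf : (1 / 2 : ℝ) ^ L ≤ u := by
    have h1 : (1 / 2 : ℝ) ≤ Real.exp (-(1 / 64)) := by
      have := Real.add_one_le_exp (-(1 / 64) : ℝ)
      linarith
    calc (1 / 2 : ℝ) ^ L ≤ Real.exp (-(1 / 64)) ^ L := pow_le_pow_left₀ (by norm_num) h1 L
      _ = Real.exp (-(L / 64)) := by
          rw [← Real.exp_nat_mul]
          congr 1
          ring
      _ ≤ u := by
          rw [hu]
          apply Real.exp_le_exp.2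
          have : Γ * L ≤ 1 * L := mul_le_mul_of_nonneg_right hΓ1 hL.le
          linarith
  have hpos1 : ∀ s : ℝ, 1 ≤ Real.exp (Γ / 4 * |s|) := fun s => Real.one_le_exp (by positivity)
  have hgen : ∀ (s : ℝ) (z : ℂ), (16 * |s| ≤ L → ‖z‖ ≤ C' * (1 / 2) ^ L) → ‖z‖ ≤ 8 →
      ‖z‖ ≤ (C' + 8) * (Real.exp (Γ / 4 * |s|) * u) := by
    intro s z h1 h2
    have h3 := hpos1 s
    rcases le_or_gt (16 * |s|) (L : ℝ) with h | h
    · calc ‖z‖ ≤ C' * (1 / 2) ^ L := h1 h
        _ ≤ C' * (1 * u) := by rw [one_mul]; gcongr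
        _ ≤ (C' + 8) * (Real.exp (Γ / 4 * |s|) * u) := by gcongr; linarith
    · have h4 : 1 ≤ Real.exp (Γ / 4 * |s|) * u := by
        rw [hu, ← Real.exp_add]
        apply Real.one_le_exp
        have h5 : Γ * L ≤ Γ * (16 * |s|) := mul_le_mul_of_nonneg_left h.le hΓ.le
        linarith
      nlinarith
  have jsub : ∀ s, ‖jL s - jb s‖ ≤ (C' + 8) * (Real.exp (Γ / 4 * |s|) * u) := by
    intro s
    refine hgen s _ (fun hs => ?_) ?_
    · have h1 := (hJ L s hs).1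
      rw [hjL]
      unfold mn
      simpa using h1
    · refine (norm_sub_le _ _).trans ?_
      have := jL_norm s
      have := jb_norm s
      linarith
  have ksub : ∀ s, ‖kL s - kb s‖ ≤ (C' + 8) * (Real.exp (Γ / 4 * |s|) * u) := by
    intro s
    refine hgen s _ (fun hs => (hJ L s hs).2) ?_
    refine (norm_sub_le _ _).trans ?_
    have := kL_norm s
    have := kb_norm s
    linarith
  have hmain : 16 * D * (u / Γ) ≤ η := by
    have h1 := htail Γ hΓ (hΓr.trans_le hr2)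
    have h2 : Γ ^ (-θ) ≤ Γ * L := by
      have h3 : 1 ≤ Γ ^ (1 + θ) * L := by
        rw [div_le_iff₀ hL] at hLr
        exact hLr
      have h4 : Γ ^ (1 + θ) = Γ * Γ ^ θ := by
        rw [Real.rpow_add hΓ, Real.rpow_one]
      have h5 : 0 < Γ ^ θ := Real.rpow_pos_of_pos hΓ _
      rw [Real.rpow_neg hΓ.le, inv_le_iff_one_le_mul₀ h5]
      rw [h4] at h3
      linarith
    have h6 : u / Γ ≤ η / (16 * D) := by
      refine le_trans ?_ h1
      apply div_le_div_of_nonneg_right _ hΓ.le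
      rw [hu]
      apply Real.exp_le_exp.2
      linarith
    rw [le_div_iff₀ (by positivity)] at h6
    linarith
  have decay : ∀ s : ℝ, (C / Real.sqrt (1 + |s|)) ^ 3 = C ^ 3 * (1 + ‖s‖) ^ (-(3 / 2) : ℝ) := by
    intro s
    have h0 : (0 : ℝ) ≤ 1 + |s| := by positivity
    rw [div_pow, Real.sqrt_eq_rpow, ← Real.rpow_natCast ((1 + |s|) ^ (1 / 2 : ℝ)),
      ← Real.rpow_mul h0, div_eq_mul_inv, ← Real.rpow_neg h0, Real.norm_eq_abs]
    norm_num
  have key : ∀ (Ψ ΨL : ℝ → ℂ) (β x y : ℝ), Continuous Ψ → Continuous ΨL →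
      (∀ s, ‖ΨL s - Ψ s‖ ≤ D * (Real.exp (Γ / 4 * |s|) * u)) →
      (∀ s, ‖Ψ s‖ ≤ C ^ 3 * (1 + ‖s‖) ^ (-(3 / 2) : ℝ)) → (∀ s, ‖ΨL s‖ ≤ 4) → 0 ≤ β → β ≤ 1 →
      ((2 * x : ℝ) : ℂ) = (∫ s : ℝ, ((A β Γ s : ℝ) : ℂ) *
        (Complex.exp (((-(E' * s) : ℝ) : ℂ) * Complex.I) * ΨL s)) →
      y = (((2 * Real.pi : ℝ) : ℂ)⁻¹ *
        ∫ s : ℝ, Complex.exp (((-(E * s) : ℝ) : ℂ) * Complex.I) * Ψ s).re →
      |x - Real.pi * y| ≤ η := by
    intro Ψ ΨL β x y c1 c2 g1 g2 g3 hβ0 hβ1 hx hy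
    have h1 := Poi3.main c1 c2 (by positivity) hD0.le hu0.le g1 g2 g3 hβ0 hβ1 hΓ hE hΓr
    rw [← hx] at h1
    set J := ∫ s : ℝ, Complex.exp (((-(E * s) : ℝ) : ℂ) * Complex.I) * Ψ s with hJd
    have h2 : Real.pi * y = J.re / 2 := by
      rw [hy]
      have e : ((2 * Real.pi : ℝ) : ℂ)⁻¹ = (((2 * Real.pi)⁻¹ : ℝ) : ℂ) := by push_cast; rfl
      rw [e, Complex.re_ofReal_mul]
      have := Real.pi_pos.ne'
      field_simp
    have h3 := Complex.abs_re_le_norm (((2 * x : ℝ) : ℂ) - J)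
    rw [Complex.sub_re, Complex.ofReal_re] at h3
    rw [h2]
    have h4 : |2 * x - J.re| ≤ 2 * η := by linarith
    rw [abs_le] at h4 ⊢
    constructor <;> linarith [h4.1, h4.2]
  constructor
  · -- the density of states
    refine key (fun s => jb s ^ d) (fun s => ∏ _i : Fin d, jL s) 0 _ _ (jb_cont.pow d)
      (continuous_finsetProd _ fun _ _ => mn_cont _) ?_ ?_ ?_ le_rfl zero_le_one ?_ rfl
    · intro s
      simp only [Finset.prod_const, Finset.card_univ, Fintype.card_fin]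
      have h1 := pow_sub_le (jL_norm s) (jb_norm s) d
      have h2 := jsub s
      calc ‖jL s ^ d - jb s ^ d‖ ≤ d * ((C' + 8) * (Real.exp (Γ / 4 * |s|) * u)) := h1.trans (by gcongr)
        _ ≤ (4 * d) * ((C' + 8) * (Real.exp (Γ / 4 * |s|) * u)) := by gcongr; linarith
        _ = D * (Real.exp (Γ / 4 * |s|) * u) := by rw [hD]; ring
    · intro s
      rw [norm_pow, ← decay]
      calc ‖jb s‖ ^ d ≤ ‖jb s‖ ^ 3 := pow_le_pow_of_le_one (norm_nonneg _) (jb_norm s) hd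
        _ ≤ (C / Real.sqrt (1 + |s|)) ^ 3 := pow_le_pow_left₀ (norm_nonneg _) (hB s).1 3
    · intro s
      simp only [Finset.prod_const, Finset.card_univ, Fintype.card_fin]
      rw [norm_pow]
      exact (pow_le_one₀ (norm_nonneg _) (jL_norm s)).trans (by norm_num)
    · have h1 := mean_eq (L := L) (d := d) (fun _ _ => (1 : ℝ)) (E' := E') le_rfl zero_le_one hΓ
      rw [← h1]
      congr 1
      rw [Finset.mul_sum, Finset.mul_sum, Finset.mul_sum]
      apply Finset.sum_congr rfl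
      intro k _
      simp only [Finset.prod_const_one]
      ring
  · -- the squared velocity
    intro i
    have hprod : ∀ s, ∏ i' : Fin d, mn (fun j : ZMod L => if i' = i then 4 * (1 - cr j ^ 2) else 1)
        s = kL s * jL s ^ (d - 1) := by
      intro s
      rw [← Finset.mul_prod_erase Finset.univ _ (Finset.mem_univ i)]
      have h1 : mn (fun j : ZMod L => if i = i then 4 * (1 - cr j ^ 2) else 1) s = kL s := by
        rw [hkL]
        simp
      have h2 : ∏ i' ∈ Finset.univ.erase i,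
          mn (fun j : ZMod L => if i' = i then 4 * (1 - cr j ^ 2) else 1) s =
          ∏ _i' ∈ Finset.univ.erase i, jL s := by
        apply Finset.prod_congr rfl
        intro i' hi'
        rw [Finset.mem_erase] at hi'
        simp only [if_neg hi'.1, hjL]
      rw [h1, h2, Finset.prod_const, Finset.card_erase_of_mem (Finset.mem_univ i),
        Finset.card_univ, Fintype.card_fin]
    refine key (fun s => kb s * jb s ^ (d - 1)) (fun s => kL s * jL s ^ (d - 1)) 1 _ _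
      (kb_cont.mul (jb_cont.pow _)) ((mn_cont _).mul ((mn_cont _).pow _)) ?_ ?_ ?_ zero_le_one
      le_rfl ?_ rfl
    · intro s
      have h1 := pow_sub_le (jL_norm s) (jb_norm s) (d - 1)
      have h2 := jsub s
      have h3 := ksub s
      have e : kL s * jL s ^ (d - 1) - kb s * jb s ^ (d - 1) =
          (kL s - kb s) * jL s ^ (d - 1) + kb s * (jL s ^ (d - 1) - jb s ^ (d - 1)) := by ring
      have hd2 : ((d - 1 : ℕ) : ℝ) = d - 1 := by
        rw [Nat.cast_sub (by omega)]; simp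
      rw [hd2] at h1
      have h4 : ‖jL s ^ (d - 1)‖ ≤ 1 := by
        rw [norm_pow]; exact pow_le_one₀ (norm_nonneg _) (jL_norm s)
      have hX0 : 0 ≤ (C' + 8) * (Real.exp (Γ / 4 * |s|) * u) := by positivity
      rw [e]
      calc ‖(kL s - kb s) * jL s ^ (d - 1) + kb s * (jL s ^ (d - 1) - jb s ^ (d - 1))‖
          ≤ ‖kL s - kb s‖ * ‖jL s ^ (d - 1)‖ + ‖kb s‖ * ‖jL s ^ (d - 1) - jb s ^ (d - 1)‖ := by
            refine (norm_add_le _ _).trans ?_
            rw [norm_mul, norm_mul]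
        _ ≤ ((C' + 8) * (Real.exp (Γ / 4 * |s|) * u)) * 1 + 4 * ((d - 1) * ((C' + 8) * (Real.exp (Γ / 4 * |s|) * u))) := by
            gcongr
            · exact kb_norm s
            · refine h1.trans ?_
              apply mul_le_mul_of_nonneg_left h2
              linarith
        _ ≤ (4 * d) * ((C' + 8) * (Real.exp (Γ / 4 * |s|) * u)) := by nlinarith
        _ = D * (Real.exp (Γ / 4 * |s|) * u) := by rw [hD]; ring
    · intro s
      rw [norm_mul, norm_pow]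
      have h0 : (1 : ℝ) ≤ 1 + |s| := by linarith [abs_nonneg s]
      have h1 : ‖jb s‖ ^ (d - 1) ≤ ‖jb s‖ ^ 2 :=
        pow_le_pow_of_le_one (norm_nonneg _) (jb_norm s) (by omega)
      have h2 : ‖jb s‖ ^ 2 ≤ (C / Real.sqrt (1 + |s|)) ^ 2 :=
        pow_le_pow_left₀ (norm_nonneg _) (hB s).1 2
      have h3 : C / (1 + |s|) ≤ C / Real.sqrt (1 + |s|) := by
        apply div_le_div_of_nonneg_left hC.le (by positivity)
        rw [Real.sqrt_le_left (by positivity)]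
        nlinarith
      calc ‖kb s‖ * ‖jb s‖ ^ (d - 1) ≤ (C / Real.sqrt (1 + |s|)) *
            (C / Real.sqrt (1 + |s|)) ^ 2 :=
            mul_le_mul ((hB s).2.trans h3) (h1.trans h2) (by positivity) (by positivity)
        _ = (C / Real.sqrt (1 + |s|)) ^ 3 := by ring
        _ = _ := decay s
    · intro s
      rw [norm_mul, norm_pow]
      have h4 : ‖jL s‖ ^ (d - 1) ≤ 1 := pow_le_one₀ (norm_nonneg _) (jL_norm s)
      have := kL_norm s
      have := norm_nonneg (kL s)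
      have h5 : 0 ≤ ‖jL s‖ ^ (d - 1) := by positivity
      nlinarith
    · have h1 := mean_eq (L := L) (d := d)
        (fun i' j => if i' = i then 4 * (1 - cr j ^ 2) else 1) (E' := E') zero_le_one le_rfl hΓ
      simp only [hprod] at h1
      rw [← h1]
      congr 1
      rw [Finset.mul_sum, Finset.mul_sum, Finset.mul_sum]
      apply Finset.sum_congr rfl
      intro k _
      rw [Finset.prod_ite_eq' Finset.univ i (fun i' => 4 * (1 - cr (k i') ^ 2)),
        if_pos (Finset.mem_univ i)]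
      have hX : 0 < (adj k - E') ^ 2 + Γ ^ 2 := by positivity
      field_simp
      ring

end Pool.Agent.T2h98.QD
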