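import Pool.Agent.T2h98.QD.Stm3
import Pool.Agent.W788.MFP.Form

/-! The good event. -/

set_option autoImplicit false
set_option linter.unusedSectionVars false

open scoped BigOperators Matrix
open MeasureTheory ProbabilityTheory Filter Topology

namespace Pool.Agent.T2h98.QD

open Pool.Agent.W788.MFP.Four (T e NN adj K)
open Pool.Agent.W788.BK (nsq hs PP JJ hi Low cr)

namespace ProbPkg

open Pool.Agent.W788.MFP.Form (gg formE gg_pos)

/-- asymptotics of the first error -/
lemma ev1 (A : ℝ) (p : ℕ) : ∀ᶠ y : ℝ in atTop, A * y ^ p * Real.exp (-y) ≤ 1 / 3 := by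
  have h := (Real.tendsto_pow_mul_exp_neg_atTop_nhds_zero p).const_mul A
  rw [mul_zero] at h
  have h2 := h.eventually (gt_mem_nhds (show (0 : ℝ) < 1 / 3 by norm_num))
  filter_upwards [h2] with y hy
  rw [mul_assoc]
  exact hy.le

/-- asymptotics of the second error -/
lemma ev2 (d : ℕ) (s : ℝ) (hs0 : 0 < s) (hs1 : s ≤ 1 / 100) (y : ℝ) (hy1 : 1 ≤ y)
    (hy : 8 * (8 * d + 3) / s ^ 2 ≤ y) (c : ℝ) (hc : Real.exp (s * y) / 4 ≤ c) :
    2 * Real.exp (8 * d * y) * Real.exp (-c) ≤ Real.exp (-s * y) / 3 := by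
  have hy0 : 0 < y := by linarith
  have h1 : (s * y) ^ 2 / 2 ≤ Real.exp (s * y) := by
    have := Real.quadratic_le_exp_of_nonneg (show 0 ≤ s * y by positivity)
    have h0 : 0 ≤ s * y := by positivity
    linarith
  rw [div_le_iff₀ (by positivity)] at hy
  have h2 : 8 * (8 * d + 3) * y ≤ s ^ 2 * y ^ 2 := by nlinarith
  have h3 : (8 * d + 3) * y ≤ c := by nlinarith
  have h4 : 6 ≤ Real.exp 2 := by
    have := Real.exp_one_gt_d9
    have e : Real.exp 2 = Real.exp 1 * Real.exp 1 := by rw [← Real.exp_add]; norm_num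
    rw [e]; nlinarith
  have h5 : Real.exp 2 * (Real.exp (8 * d * y) * Real.exp (-c)) ≤ Real.exp (-s * y) := by
    rw [← Real.exp_add, ← Real.exp_add, Real.exp_le_exp]
    nlinarith
  have h6 : 6 * (Real.exp (8 * d * y) * Real.exp (-c)) ≤ Real.exp 2 * (Real.exp (8 * d * y) * Real.exp (-c)) :=
    mul_le_mul_of_nonneg_right h4 (by positivity)
  linarith

lemma low_zero {d L : ℕ} [NeZero L] (θ : ℝ) : hi θ (0 : T d L) = 0 := by
  unfold hi
  rw [if_pos]
  left
  intro i
  simp [cr]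
  positivity

lemma sum_low_pos {d L : ℕ} [NeZero L] (θ : ℝ) : 0 < ∑ Q : T d L, (1 - hi θ Q) := by
  have h0 : ∀ Q : T d L, 0 ≤ 1 - hi θ Q := by
    intro Q
    unfold hi
    split_ifs <;> norm_num
  have h1 := Finset.single_le_sum (f := fun Q : T d L => 1 - hi θ Q) (fun Q _ => h0 Q) (Finset.mem_univ 0)
  simp only [low_zero, sub_zero] at h1
  linarith

end ProbPkg

open ProbPkg Pool.Agent.W788.MFP.Form in
/-- PROB -/
theorem prob (hlow : T_LOWG) (hmax : T_MAXG) (hnl : Pool.Agent.W788.BK.S_LOW) : T_PROB := by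
  intro d x s hd hx hs0 hs1 hxs
  have hd3 : (3 : ℝ) ≤ d := by exact_mod_cast hd
  set p : ℕ := ⌈(8 * (d : ℝ) + 4) / s⌉₊ + 1 with hp
  have hps : 8 * (d : ℝ) + 4 ≤ s * p := by
    have h1 := Nat.le_ceil ((8 * (d : ℝ) + 4) / s)
    rw [div_le_iff₀ hs0] at h1
    rw [hp]
    push_cast
    nlinarith
  set A : ℝ := 8 * d * (64 * p * (2 + 8 * Pool.Agent.W788.MFP.Dos.C3)) ^ p with hA
  have hC3 : 0 ≤ Pool.Agent.W788.MFP.Dos.C3 := by unfold Pool.Agent.W788.MFP.Dos.C3; norm_num
  obtain ⟨y1, hy1⟩ := (eventually_atTop.1 (ev1 A p))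
  refine ⟨max (max 1 y1) (8 * (8 * d + 3) / s ^ 2), (le_max_left _ _).trans (le_max_left _ _), ?_⟩
  intro y hy σ δ η θ hσ hδ hη hθ L _ hL1 hL2
  have hy1' : 1 ≤ y := (le_max_left _ _).trans ((le_max_left _ _).trans hy)
  have hy2 : y1 ≤ y := (le_max_right _ _).trans ((le_max_left _ _).trans hy)
  have hy3 : 8 * (8 * d + 3) / s ^ 2 ≤ y := (le_max_right _ _).trans hy
  have hy0 : 0 < y := by linarith
  have hσ0 : 0 < σ := by rw [hσ]; positivity
  have hδ0 : 0 < δ := by rw [hδ]; positivity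
  have hη0 : 0 < η := by rw [hη]; positivity
  have hθ0 : 0 < θ := by rw [hθ]; positivity
  have hL0 : (0 : ℝ) < L := by exact_mod_cast Nat.pos_of_ne_zero (NeZero.ne L)
  have hNN0 : 0 < NN d L := Pool.Agent.W788.MFP.Four.NN_pos
  -- size of the torus
  have hNN : NN d L ≤ Real.exp (8 * d * y) := by
    unfold NN
    calc (L : ℝ) ^ d ≤ (Real.exp (8 * y)) ^ d := by gcongr
      _ = Real.exp (8 * d * y) := by rw [← Real.exp_nat_mul]; congr 1; ring
  -- constraints
  have hx2 : x + 13 * s ≤ 2 / 7 := by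
    have h1 : (0 : ℝ) ≤ 1 / d := by positivity
    nlinarith
  have hexp : (2 + 2 * x + 23 * s) / (d : ℝ) ≤ 1 := by
    rw [div_le_one (by linarith)]
    linarith
  have hδ1 : 1 / (L : ℝ) ≤ δ := by
    rw [div_le_iff₀ hL0, hδ]
    calc (1 : ℝ) = Real.exp (-(2 - s) * y) * Real.exp ((2 - s) * y) := by
          rw [← Real.exp_add, show -(2 - s) * y + (2 - s) * y = 0 by ring, Real.exp_zero]
      _ ≤ Real.exp (-(2 - s) * y) * L := by
        gcongr
        refine le_trans ?_ hL1
        rw [Real.exp_le_exp]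
        exact mul_le_mul_of_nonneg_right (by linarith) hy0.le
  have hδ2 : δ ≤ 1 / 2 := by
    rw [hδ]
    have h1 : Real.exp (-(2 - s) * y) ≤ Real.exp (-1) := by
      rw [Real.exp_le_exp]; nlinarith
    have h2 : Real.exp (-1) ≤ 1 / 2 := by
      rw [Real.exp_neg]
      have := Real.exp_one_gt_d9
      rw [inv_le_comm₀ (by positivity) (by norm_num)]
      linarith
    linarith
  have hθ1 : θ ≤ 1 := by
    rw [hθ]
    have h1 : Real.exp (-((2 + 2 * x + 23 * s) / (d : ℝ)) * y) ≤ Real.exp 0 := by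
      rw [Real.exp_le_exp]
      have : 0 ≤ (2 + 2 * x + 23 * s) / (d : ℝ) := by positivity
      nlinarith
    rw [Real.exp_zero] at h1
    linarith
  have hθL : 1 ≤ θ * L := by
    rw [hθ]
    have h1 : Real.exp (-y) ≤ Real.exp (-((2 + 2 * x + 23 * s) / (d : ℝ)) * y) := by
      rw [Real.exp_le_exp]
      nlinarith
    have h2 : Real.exp (-y) * Real.exp (7 * y) ≤ Real.exp (-((2 + 2 * x + 23 * s) / (d : ℝ)) * y) * L := by
      gcongr
    have h3 : (2 : ℝ) ≤ Real.exp (-y) * Real.exp (7 * y) := by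
      rw [← Real.exp_add]
      have h4 : Real.exp 1 ≤ Real.exp (-y + 7 * y) := by rw [Real.exp_le_exp]; linarith
      have := Real.exp_one_gt_d9
      linarith
    linarith
  -- the first event
  have hpne : p ≠ 0 := by rw [hp]; omega
  obtain ⟨G, hG, hGP, hGb⟩ := formE (d := d) (L := L) hd δ hδ1 hδ2 (Real.exp y / 4) (by positivity) p hpne
  have hG1 : (GP (T d L)).real Gᶜ ≤ Real.exp (-s * y) / 3 := by
    refine hGP.trans ?_
    have hlog : Real.log (1 / δ) = (2 - s) * y := by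
      rw [one_div, Real.log_inv, hδ, Real.log_exp]; ring
    have hdi : δ⁻¹ = Real.exp ((2 - s) * y) := by rw [hδ, ← Real.exp_neg]; congr 1; ring
    have hgg : gg δ ≤ (2 + 8 * Pool.Agent.W788.MFP.Dos.C3) * (2 * y) := by
      unfold gg
      rw [hlog]
      apply mul_le_mul_of_nonneg_left _ (by positivity)
      exact mul_le_mul_of_nonneg_right (by linarith) hy0.le
    have hgg0 := gg_pos δ hδ0 hδ2
    have hb : 2 * p * gg δ * δ⁻¹ / (Real.exp y / 4) ^ 2 ≤
        (64 * p * (2 + 8 * Pool.Agent.W788.MFP.Dos.C3)) * y * Real.exp (-s * y) := by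
      have e1 : (2 * p * gg δ * δ⁻¹ / (Real.exp y / 4) ^ 2 : ℝ) = 32 * p * gg δ * Real.exp (-s * y) := by
        rw [hdi]
        have e2 : Real.exp (-s * y) = Real.exp ((2 - s) * y) / Real.exp y ^ 2 := by
          rw [← Real.exp_nat_mul, ← Real.exp_sub]; congr 1; push_cast; ring
        rw [e2]
        field_simp
        ring
      rw [e1]
      calc 32 * p * gg δ * Real.exp (-s * y)
          ≤ 32 * p * ((2 + 8 * Pool.Agent.W788.MFP.Dos.C3) * (2 * y)) * Real.exp (-s * y) := by gcongr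
        _ = _ := by ring
    have hb0 : 0 ≤ 2 * p * gg δ * δ⁻¹ / (Real.exp y / 4) ^ 2 := by positivity
    have h2 := hy1 y hy2
    calc 8 * d / δ * ((2 * p * gg δ * δ⁻¹ / (Real.exp y / 4) ^ 2) ^ p * NN d L)
        ≤ 8 * d / δ * (((64 * p * (2 + 8 * Pool.Agent.W788.MFP.Dos.C3)) * y * Real.exp (-s * y)) ^ p *
            Real.exp (8 * d * y)) := by gcongr
      _ = A * y ^ p * (Real.exp ((2 - s) * y) * (Real.exp (-s * y) ^ p * Real.exp (8 * d * y))) := by
          rw [hA, div_eq_mul_inv, hdi, mul_pow, mul_pow]; ring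
      _ ≤ A * y ^ p * Real.exp (-2 * y) := by
          have hA0 : 0 ≤ A := by rw [hA]; positivity
          apply mul_le_mul_of_nonneg_left _ (by positivity)
          rw [← Real.exp_nat_mul, ← Real.exp_add, ← Real.exp_add, Real.exp_le_exp]
          have e5 : (2 - s) * y + ((p : ℝ) * (-s * y) + 8 * d * y) = (2 - s - s * p + 8 * d) * y := by ring
          rw [e5]
          exact mul_le_mul_of_nonneg_right (by linarith) hy0.le
      _ = A * y ^ p * Real.exp (-y) * Real.exp (-y) := by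
          rw [mul_assoc _ (Real.exp (-y)) (Real.exp (-y)), ← Real.exp_add]; congr 2; ring
      _ ≤ 1 / 3 * Real.exp (-y) := by gcongr
      _ ≤ 1 / 3 * Real.exp (-s * y) := by
          have e6 : s * y ≤ 1 * y := mul_le_mul_of_nonneg_right (by linarith) hy0.le
          have e7 : -y ≤ -s * y := by linarith
          gcongr
      _ = _ := by ring
  -- the second event
  set τ : ℝ := η * δ / σ with hτ
  have hτ0 : 0 < τ := by positivity
  have hL' := hlow d L θ τ hθ0 hτ0
  have hsum := hnl d L θ hθ0.le hθ1 hθL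
  have hsum0 := sum_low_pos (d := d) (L := L) θ
  have h2 : (GP (T d L)).real {V | ∃ x : T d L, τ < |∑ y, V y * K (fun Q => 1 - hi θ Q) (x - y)|} ≤
      Real.exp (-s * y) / 3 := by
    refine hL'.trans (le_trans ?_ (ev2 d s hs0 hs1 y hy1' hy3
      (τ ^ 2 * NN d L / (2 * ∑ Q : T d L, (1 - hi θ Q))) ?_))
    · gcongr
    · -- lower bound for the exponent
      have e1 : (2 * θ) ^ d = Real.exp (-(2 + 2 * x + 23 * s) * y) := by
        rw [hθ, mul_div_cancel₀ _ (two_ne_zero), ← Real.exp_nat_mul]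
        congr 1
        field_simp
      have e2 : τ ^ 2 = Real.exp (-(2 + 2 * x + 22 * s) * y) := by
        rw [hτ, hη, hδ, hσ, ← Real.exp_add, ← Real.exp_sub, ← Real.exp_nat_mul]
        congr 1
        push_cast
        ring
      rw [le_div_iff₀ (by positivity)]
      rw [e1] at hsum
      have e3 : Real.exp (s * y) * Real.exp (-(2 + 2 * x + 23 * s) * y) = τ ^ 2 := by
        rw [e2, ← Real.exp_add]; congr 1; ring
      calc Real.exp (s * y) / 4 * (2 * ∑ Q : T d L, (1 - hi θ Q))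
          ≤ Real.exp (s * y) / 4 * (2 * (2 * Real.exp (-(2 + 2 * x + 23 * s) * y) * NN d L)) := by gcongr
        _ = (Real.exp (s * y) * Real.exp (-(2 + 2 * x + 23 * s) * y)) * NN d L := by ring
        _ = _ := by rw [e3]
        _ ≤ _ := le_rfl
  -- the third event
  have hM' := hmax d L (Real.exp y) (Real.exp_pos y)
  have h3 : (GP (T d L)).real {V | ∃ x : T d L, Real.exp y < |V x|} ≤ Real.exp (-s * y) / 3 := by
    refine hM'.trans (le_trans ?_ (ev2 d s hs0 hs1 y hy1' hy3 (Real.exp y ^ 2 / 2) ?_))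
    · gcongr
    · have e0 : Real.exp y ^ 2 = Real.exp (2 * y) := by rw [← Real.exp_nat_mul]; norm_num
      have : Real.exp (s * y) ≤ Real.exp (2 * y) := by
        rw [Real.exp_le_exp]
        exact mul_le_mul_of_nonneg_right (by linarith) hy0.le
      have h0 := Real.exp_pos (s * y)
      rw [e0]
      linarith
  set B2 : Set (T d L → ℝ) := {V | ∃ x : T d L, τ < |∑ y, V y * K (fun Q => 1 - hi θ Q) (x - y)|} with hB2
  set B3 : Set (T d L → ℝ) := {V | ∃ x : T d L, Real.exp y < |V x|} with hB3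
  have mB2 : MeasurableSet B2 := by
    have : B2 = ⋃ x : T d L, {V | τ < |∑ y, V y * K (fun Q => 1 - hi θ Q) (x - y)|} := by
      ext V; simp [hB2]
    rw [this]
    refine MeasurableSet.iUnion fun x => ?_
    apply measurableSet_lt measurable_const
    fun_prop
  have mB3 : MeasurableSet B3 := by
    have : B3 = ⋃ x : T d L, {V | Real.exp y < |V x|} := by
      ext V; simp [hB3]
    rw [this]
    refine MeasurableSet.iUnion fun x => ?_
    apply measurableSet_lt measurable_const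
    fun_prop
  refine ⟨G ∩ B2ᶜ ∩ B3ᶜ, (hG.inter mB2.compl).inter mB3.compl, ?_, ?_⟩
  · have e : (G ∩ B2ᶜ ∩ B3ᶜ)ᶜ = Gᶜ ∪ B2 ∪ B3 := by
      rw [Set.compl_inter, Set.compl_inter, compl_compl, compl_compl]
    rw [e]
    have h4 := measureReal_union_le (μ := GP (T d L)) (Gᶜ ∪ B2) B3
    have h5 := measureReal_union_le (μ := GP (T d L)) Gᶜ B2
    linarith
  · intro ξ hξ
    obtain ⟨⟨hξG, hξ2⟩, hξ3⟩ := hξ
    refine ⟨fun E w => ?_, fun z => ?_, fun z => ?_⟩
    · have h4 := hGb ξ hξG E w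
      have e : 2 * (Real.exp y / 4) = Real.exp y / 2 := by ring
      rw [e] at h4
      exact h4
    · have h4 : |∑ y, ξ y * K (fun Q => 1 - hi θ Q) (z - y)| ≤ τ := by
        by_contra hcon
        exact hξ2 ⟨z, not_le.1 hcon⟩
      rw [abs_mul, abs_of_pos hσ0]
      rw [hτ, le_div_iff₀ hσ0] at h4
      linarith
    · have h4 : |ξ z| ≤ Real.exp y := by
        by_contra hcon
        exact hξ3 ⟨z, not_le.1 hcon⟩
      rw [abs_mul, abs_of_pos hσ0, hσ]
      calc Real.exp (-y) * |ξ z| ≤ Real.exp (-y) * Real.exp y := by gcongr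
        _ = 1 := by rw [← Real.exp_add]; simp

end Pool.Agent.T2h98.QD
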