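import Pool.Agent.T2h98.QD.Stm12
import Pool.Agent.T2h98.QD.Prob

/-! The good event has overwhelming probability, small tori (PROB3). -/

set_option autoImplicit false
set_option linter.unusedSectionVars false

open scoped BigOperators Matrix
open MeasureTheory ProbabilityTheory Filter Topology

namespace Pool.Agent.T2h98.QD

open Pool.Agent.W788.MFP.Four (T e NN adj K)
open Pool.Agent.W788.BK (nsq hs PP JJ hi Low cr)

open ProbPkg Pool.Agent.W788.MFP.Form in
/-- PROB3 -/
theorem prob3 : T_PROB3 := by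
  intro d K s hd hs0 hs1
  have hd3 : (3 : ℝ) ≤ d := by exact_mod_cast hd
  have hK0 : (0 : ℝ) ≤ K := Nat.cast_nonneg K
  set p : ℕ := ⌈((d : ℝ) * K + K + 10) / s⌉₊ + 1 with hp
  have hps : (d : ℝ) * K + K + 10 ≤ s * p := by
    have h1 := Nat.le_ceil (((d : ℝ) * K + K + 10) / s)
    rw [div_le_iff₀ hs0] at h1
    rw [hp]
    push_cast
    nlinarith
  set A : ℝ := 8 * d * (64 * p * (2 + 8 * Pool.Agent.W788.MFP.Dos.C3)) ^ p with hA
  have hC3 : 0 ≤ Pool.Agent.W788.MFP.Dos.C3 := by unfold Pool.Agent.W788.MFP.Dos.C3; norm_num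
  obtain ⟨y1, hy1⟩ := (eventually_atTop.1 (ev1 A p))
  refine ⟨max 1 y1, le_max_left _ _, ?_⟩
  intro y hy L _ hL1 hL2
  have hy1' : 1 ≤ y := (le_max_left _ _).trans hy
  have hy2 : y1 ≤ y := (le_max_right _ _).trans hy
  have hy0 : 0 < y := by linarith
  set δ : ℝ := Real.exp (-(2 - s) * y) with hδ
  have hδ0 : 0 < δ := by rw [hδ]; positivity
  have hL0 : (0 : ℝ) < L := by exact_mod_cast Nat.pos_of_ne_zero (NeZero.ne L)
  have hNN0 : 0 < NN d L := Pool.Agent.W788.MFP.Four.NN_pos
  have hNN : NN d L ≤ Real.exp (d * K * y) := by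
    unfold NN
    calc (L : ℝ) ^ d ≤ (Real.exp (K * y)) ^ d := by gcongr
      _ = Real.exp (d * K * y) := by rw [← Real.exp_nat_mul]; congr 1; ring
  have hδ1 : 1 / (L : ℝ) ≤ δ := by
    rw [div_le_iff₀ hL0, hδ]
    calc (1 : ℝ) = Real.exp (-(2 - s) * y) * Real.exp ((2 - s) * y) := by
          rw [← Real.exp_add, show -(2 - s) * y + (2 - s) * y = 0 by ring, Real.exp_zero]
      _ ≤ Real.exp (-(2 - s) * y) * L := by
        gcongr
  have hδ2 : δ ≤ 1 / 2 := by
    rw [hδ]
    have h1 : Real.exp (-(2 - s) * y) ≤ Real.exp (-1) := by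
      rw [Real.exp_le_exp]; nlinarith
    have h2 : Real.exp (-1) ≤ 1 / 2 := by
      rw [Real.exp_neg]
      have := Real.exp_one_gt_d9
      rw [inv_le_comm₀ (by positivity) (by norm_num)]
      linarith
    linarith
  have hpne : p ≠ 0 := by rw [hp]; omega
  obtain ⟨G, hG, hGP, hGb⟩ := formE (d := d) (L := L) hd δ hδ1 hδ2 (Real.exp y / 4) (by positivity) p hpne
  refine ⟨G, hG, ?_, ?_⟩
  · refine hGP.trans ?_
    have hlog : Real.log (1 / δ) = (2 - s) * y := by
      rw [one_div, Real.log_inv, hδ, Real.log_exp]; ring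
    have hdi : δ⁻¹ = Real.exp ((2 - s) * y) := by rw [hδ, ← Real.exp_neg]; congr 1; ring
    have hgg : gg δ ≤ (2 + 8 * Pool.Agent.W788.MFP.Dos.C3) * (2 * y) := by
      unfold gg
      rw [hlog]
      apply mul_le_mul_of_nonneg_left _ (by positivity)
      exact mul_le_mul_of_nonneg_right (by linarith) hy0.le
    have hgg0 := gg_pos δ hδ0 hδ2
    have hb : 2 * p * gg δ * δ⁻¹ / (Real.exp y / 4) ^ 2 ≤
        (64 * p * (2 + 8 * Pool.Agent.W788.MFP.Dos.C3)) * y * Real.exp (-s * y) := by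
      have e1 : (2 * p * gg δ * δ⁻¹ / (Real.exp y / 4) ^ 2 : ℝ) = 32 * p * gg δ * Real.exp (-s * y) := by
        rw [hdi]
        have e2 : Real.exp (-s * y) = Real.exp ((2 - s) * y) / Real.exp y ^ 2 := by
          rw [← Real.exp_nat_mul, ← Real.exp_sub]; congr 1; push_cast; ring
        rw [e2]
        field_simp
        ring
      rw [e1]
      calc 32 * p * gg δ * Real.exp (-s * y)
          ≤ 32 * p * ((2 + 8 * Pool.Agent.W788.MFP.Dos.C3) * (2 * y)) * Real.exp (-s * y) := by gcongr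
        _ = _ := by ring
    have hb0 : 0 ≤ 2 * p * gg δ * δ⁻¹ / (Real.exp y / 4) ^ 2 := by positivity
    have h2 := hy1 y hy2
    calc 8 * d / δ * ((2 * p * gg δ * δ⁻¹ / (Real.exp y / 4) ^ 2) ^ p * NN d L)
        ≤ 8 * d / δ * (((64 * p * (2 + 8 * Pool.Agent.W788.MFP.Dos.C3)) * y * Real.exp (-s * y)) ^ p *
            Real.exp (d * K * y)) := by gcongr
      _ = A * y ^ p * (Real.exp ((2 - s) * y) * (Real.exp (-s * y) ^ p * Real.exp (d * K * y))) := by
          rw [hA, div_eq_mul_inv, hdi, mul_pow, mul_pow]; ring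
      _ ≤ A * y ^ p * (Real.exp (-y) * Real.exp (-(K : ℝ) * y)) := by
          have hA0 : 0 ≤ A := by rw [hA]; positivity
          apply mul_le_mul_of_nonneg_left _ (by positivity)
          rw [← Real.exp_nat_mul, ← Real.exp_add, ← Real.exp_add, ← Real.exp_add, Real.exp_le_exp]
          have e5 : (2 - s) * y + ((p : ℝ) * (-s * y) + d * K * y) =
              (2 - s - s * p + d * K) * y := by ring
          have e6 : -y + -(K : ℝ) * y = (-1 - K) * y := by ring
          rw [e5, e6]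
          exact mul_le_mul_of_nonneg_right (by linarith) hy0.le
      _ = (A * y ^ p * Real.exp (-y)) * Real.exp (-(K : ℝ) * y) := by ring
      _ ≤ 1 * Real.exp (-(K : ℝ) * y) := by
          apply mul_le_mul_of_nonneg_right _ (Real.exp_nonneg _)
          linarith
      _ = _ := one_mul _
  · intro ξ hξ E w
    have h4 := hGb ξ hξ E w
    have e : 2 * (Real.exp y / 4) = Real.exp y / 2 := by ring
    rw [e] at h4
    exact h4

end Pool.Agent.T2h98.QD
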