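import Pool.Agent.T2h98.QD.Stm2

/-! The unitary group on the torus: spectral representation of the Abel means. -/

set_option autoImplicit false
set_option linter.unusedSectionVars false

open scoped BigOperators Matrix
open MeasureTheory

namespace Pool.Agent.T2h98.QD

open Pool.Agent.W788.MFP.Four (T e NN adj K)
open Pool.Agent.W788.BK (nsq hs PP JJ hi Low cr)

namespace Uni

section gen

variable {n : Type} [Fintype n] [DecidableEq n]

/-- the sesquilinear form with kernel `g` -/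
noncomputable def Fc (g : n → n → ℝ) (A B : Matrix n n ℂ) : ℂ :=
  ∑ x, ∑ y, (g x y : ℂ) * (A x y * star (B x y))

theorem Fc_add_left (g : n → n → ℝ) (A A' B : Matrix n n ℂ) :
    Fc g (A + A') B = Fc g A B + Fc g A' B := by
  simp only [Fc, Matrix.add_apply, add_mul, mul_add, Finset.sum_add_distrib]

theorem Fc_add_right (g : n → n → ℝ) (A B B' : Matrix n n ℂ) :
    Fc g A (B + B') = Fc g A B + Fc g A B' := by
  simp only [Fc, Matrix.add_apply, star_add, mul_add, Finset.sum_add_distrib]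

theorem Fc_sum_left {J : Type} (g : n → n → ℝ) (s : Finset J) (A : J → Matrix n n ℂ)
    (B : Matrix n n ℂ) : Fc g (∑ j ∈ s, A j) B = ∑ j ∈ s, Fc g (A j) B := by
  classical
  induction s using Finset.induction_on with
  | empty => simp [Fc]
  | insert a s ha ih => rw [Finset.sum_insert ha, Finset.sum_insert ha, Fc_add_left, ih]

theorem Fc_sum_right {J : Type} (g : n → n → ℝ) (s : Finset J) (B : J → Matrix n n ℂ)
    (A : Matrix n n ℂ) : Fc g A (∑ j ∈ s, B j) = ∑ j ∈ s, Fc g A (B j) := by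
  classical
  induction s using Finset.induction_on with
  | empty => simp [Fc]
  | insert a s ha ih => rw [Finset.sum_insert ha, Finset.sum_insert ha, Fc_add_right, ih]

theorem Fc_smul_left (g : n → n → ℝ) (a : ℂ) (A B : Matrix n n ℂ) :
    Fc g (a • A) B = a * Fc g A B := by
  simp only [Fc, Matrix.smul_apply, smul_eq_mul, Finset.mul_sum]
  refine Finset.sum_congr rfl fun x _ => Finset.sum_congr rfl fun y _ => ?_
  ring

theorem Fc_smul_right (g : n → n → ℝ) (a : ℂ) (A B : Matrix n n ℂ) :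
    Fc g A (a • B) = star a * Fc g A B := by
  simp only [Fc, Matrix.smul_apply, smul_eq_mul, Finset.mul_sum, star_mul']
  refine Finset.sum_congr rfl fun x _ => Finset.sum_congr rfl fun y _ => ?_
  ring

theorem Fc_self (g : n → n → ℝ) (A : Matrix n n ℂ) :
    Fc g A A = ((∑ x, ∑ y, g x y * ‖A x y‖ ^ 2 : ℝ) : ℂ) := by
  simp only [Fc]
  push_cast
  refine Finset.sum_congr rfl fun x _ => Finset.sum_congr rfl fun y _ => ?_
  rw [← Complex.mul_conj']
  rfl

/-- rank one matrices -/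
theorem Fc_rank_one {Q : Type} [Fintype Q] (g : n → n → ℝ) (c : Q → ℝ) (φ : Q → n → ℂ)
    (hg : ∀ x y, (g x y : ℂ) = ∑ q, (c q : ℂ) * (φ q x * star (φ q y))) (u v : n → ℂ) :
    Fc g (Matrix.vecMulVec u (star u)) (Matrix.vecMulVec v (star v)) =
      ((∑ q, c q * ‖∑ x, φ q x * (u x * star (v x))‖ ^ 2 : ℝ) : ℂ) := by
  have h1 : ∀ q : Q, ((‖∑ x, φ q x * (u x * star (v x))‖ ^ 2 : ℝ) : ℂ) =
      ∑ x, ∑ y, (φ q x * star (φ q y)) * (u x * star (u y) * star (v x * star (v y))) := by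
    intro q
    push_cast
    rw [← Complex.mul_conj', map_sum, Finset.sum_mul_sum]
    refine Finset.sum_congr rfl fun x _ => Finset.sum_congr rfl fun y _ => ?_
    simp only [map_mul, ← starRingEnd_apply, Complex.conj_conj]
    ring
  push_cast
  simp only [Fc, Matrix.vecMulVec_apply, Pi.star_apply, hg, Finset.sum_mul]
  have h2 : ∀ q : Q, (c q : ℂ) * (‖∑ x, φ q x * (u x * star (v x))‖ : ℂ) ^ 2 =
      ∑ x, ∑ y, (c q : ℂ) * (φ q x * star (φ q y)) *
        (u x * star (u y) * star (v x * star (v y))) := by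
    intro q
    have := h1 q
    push_cast at this
    rw [this, Finset.mul_sum]
    refine Finset.sum_congr rfl fun x _ => ?_
    rw [Finset.mul_sum]
    refine Finset.sum_congr rfl fun y _ => ?_
    ring
  simp only [h2]
  rw [Finset.sum_congr rfl fun x _ => Finset.sum_comm (s := Finset.univ) (t := Finset.univ)
    (f := fun y q => (c q : ℂ) * (φ q x * star (φ q y)) *
        (u x * star (u y) * star (v x * star (v y))))]
  exact Finset.sum_comm

/-- the spectral family attached to an orthonormal eigenbasis -/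
theorem ev_eq (H : Matrix n n ℂ) (u : n → n → ℂ) (E : n → ℝ)
    (hE : ∀ j, H *ᵥ u j = (E j : ℂ) • u j)
    (ho : ∀ j k, star (u j) ⬝ᵥ u k = if j = k then 1 else 0) :
    (∑ j, Matrix.vecMulVec (u j) (star (u j)) = 1) ∧
    (∀ t : ℝ, ev H t = ∑ j, Complex.exp (-((t : ℂ) * Complex.I * E j)) •
      Matrix.vecMulVec (u j) (star (u j))) := by
  obtain ⟨U, hU⟩ : ∃ U : Matrix n n ℂ, U = Matrix.of fun x j => u j x := ⟨_, rfl⟩
  have h1 : Uᴴ * U = 1 := by
    ext j k
    rw [Matrix.mul_apply, Matrix.one_apply, ← ho j k]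
    simp only [dotProduct, Matrix.conjTranspose_apply, hU, Matrix.of_apply, Pi.star_apply]
  have h2 : U * Uᴴ = 1 := mul_eq_one_comm.1 h1
  have h3 : H * U = U * Matrix.diagonal fun j => (E j : ℂ) := by
    ext x j
    have := congrFun (hE j) x
    rw [Matrix.mul_diagonal]
    simp only [Matrix.mulVec, dotProduct, Pi.smul_apply, smul_eq_mul] at this
    rw [Matrix.mul_apply]
    simp only [hU, Matrix.of_apply]
    rw [this]
    ring
  have h4 : H = U * (Matrix.diagonal fun j => (E j : ℂ)) * Uᴴ := by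
    rw [← h3, Matrix.mul_assoc, h2, Matrix.mul_one]
  have h5 : ∀ v : n → ℂ, U * Matrix.diagonal v * Uᴴ =
      ∑ j, v j • Matrix.vecMulVec (u j) (star (u j)) := by
    intro v
    ext x y
    rw [Matrix.mul_apply, Matrix.sum_apply]
    refine Finset.sum_congr rfl fun j _ => ?_
    rw [Matrix.mul_diagonal]
    simp only [hU, Matrix.of_apply, Matrix.conjTranspose_apply, Matrix.smul_apply,
      Matrix.vecMulVec_apply, Pi.star_apply, smul_eq_mul]
    ring
  have hinv : U⁻¹ = Uᴴ := Matrix.inv_eq_right_inv h2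
  refine ⟨?_, fun t => ?_⟩
  · have := h5 fun _ => 1
    simp only [one_smul] at this
    rw [← this, show (Matrix.diagonal fun _ : n => (1 : ℂ)) = 1 from Matrix.diagonal_one,
      Matrix.mul_one, h2]
  · have hu : IsUnit U := by
      rw [Matrix.isUnit_iff_isUnit_det]
      exact Matrix.isUnit_det_of_right_inverse h2
    rw [← h5, ev]
    have h6 : (-((t : ℂ) * Complex.I)) • H =
        U * (Matrix.diagonal fun j => -((t : ℂ) * Complex.I * E j)) * U⁻¹ := by
      rw [h4, hinv, ← Matrix.smul_mul, ← Matrix.mul_smul, ← Matrix.diagonal_smul]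
      congr 3
      ext j
      simp
    rw [h6, Matrix.exp_conj _ _ hu, Matrix.exp_diagonal, hinv]
    congr 3
    ext j
    rw [Pi.coe_exp, Complex.exp_eq_exp_ℂ]

theorem Fc_ev (g : n → n → ℝ) (H : Matrix n n ℂ) (u : n → n → ℂ) (E : n → ℝ)
    (hE : ∀ j, H *ᵥ u j = (E j : ℂ) • u j)
    (ho : ∀ j k, star (u j) ⬝ᵥ u k = if j = k then 1 else 0) (F : n → n → ℝ)
    (hF : ∀ j k, Fc g (Matrix.vecMulVec (u j) (star (u j)))
      (Matrix.vecMulVec (u k) (star (u k))) = (F j k : ℂ)) (t : ℝ) :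
    ∑ x, ∑ y, g x y * ‖ev H t x y‖ ^ 2 = ∑ j, ∑ k, F j k * Real.cos (t * (E j - E k)) := by
  have h1 := Fc_self g (ev H t)
  have h2 := congrArg Complex.re h1
  rw [Complex.ofReal_re] at h2
  rw [← h2, (ev_eq H u E hE ho).2 t, Fc_sum_left]
  rw [Complex.re_sum]
  refine Finset.sum_congr rfl fun j _ => ?_
  rw [Fc_sum_right, Complex.re_sum]
  refine Finset.sum_congr rfl fun k _ => ?_
  rw [Fc_smul_left, Fc_smul_right, hF]
  have h3 : Complex.exp (-((t : ℂ) * Complex.I * E j)) *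
      (star (Complex.exp (-((t : ℂ) * Complex.I * E k))) * (F j k : ℂ)) =
      (F j k : ℂ) * Complex.exp (((-(t * (E j - E k)) : ℝ) : ℂ) * Complex.I) := by
    rw [← starRingEnd_apply, ← Complex.exp_conj]
    simp only [map_neg, map_mul, Complex.conj_ofReal, Complex.conj_I]
    rw [← mul_assoc, ← Complex.exp_add, mul_comm]
    congr 2
    push_cast
    ring
  rw [h3, Complex.re_ofReal_mul, Complex.exp_ofReal_mul_I_re, Real.cos_neg]

theorem abel_int {τ : ℝ} (hτ : 0 < τ) (ω : ℝ) :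
    IntegrableOn (fun t : ℝ => Real.exp (-(t / τ)) * Real.cos (t * ω)) (Set.Ioi 0) ∧
    τ⁻¹ * ∫ t in Set.Ioi (0 : ℝ), Real.exp (-(t / τ)) * Real.cos (t * ω) =
      1 / (1 + (τ * ω) ^ 2) := by
  obtain ⟨a, ha⟩ : ∃ a : ℂ, a = ((-τ⁻¹ : ℝ) : ℂ) + (ω : ℂ) * Complex.I := ⟨_, rfl⟩
  have hre : a.re = -τ⁻¹ := by simp [ha]
  have him : a.im = ω := by simp [ha]
  have hneg : a.re < 0 := by rw [hre]; simpa using hτ
  have h1 := integrableOn_exp_mul_complex_Ioi hneg 0
  have h2 := integral_exp_mul_complex_Ioi hneg 0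
  have h3 : ∀ t : ℝ, (Complex.exp (a * t)).re = Real.exp (-(t / τ)) * Real.cos (t * ω) := by
    intro t
    rw [Complex.exp_re]
    congr 2
    · simp [hre, div_eq_mul_inv, mul_comm]
    · simp [him, mul_comm]
  refine ⟨?_, ?_⟩
  · have := h1.re
    refine this.congr ?_
    refine Filter.Eventually.of_forall fun t => ?_
    exact h3 t
  · have h4 := integral_re (μ := volume.restrict (Set.Ioi (0 : ℝ))) h1
    have h5 : ∫ t in Set.Ioi (0 : ℝ), Real.exp (-(t / τ)) * Real.cos (t * ω) =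
        (-Complex.exp (a * (0 : ℝ)) / a).re := by
      rw [← h2]
      refine Eq.trans ?_ h4
      refine integral_congr_ae (Filter.Eventually.of_forall fun t => ?_)
      exact (h3 t).symm
    rw [h5]
    have h6 : (-Complex.exp (a * (0 : ℝ)) / a).re = τ⁻¹ / (τ⁻¹ ^ 2 + ω ^ 2) := by
      simp only [Complex.ofReal_zero, mul_zero, Complex.exp_zero]
      rw [Complex.div_re, Complex.normSq_apply, hre, him]
      simp
      ring
    rw [h6]
    have : 0 < 1 + (τ * ω) ^ 2 := by positivity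
    field_simp

end gen

section torus

variable {d L : ℕ} [NeZero L]

/-- the coefficients `F_jk` -/
noncomputable def FF (i : Fin d) (M : ℕ) (u : T d L → T d L → ℂ) (j k : T d L) : ℝ :=
  ∑ q : ZMod L, fh M q *
    ‖∑ x : T d L, (ZMod.stdAddChar (q * x i) : ℂ) * (u j x * star (u k x))‖ ^ 2

theorem kern (ht : T_TENT) (M : ℕ) (h1 : 1 ≤ M) (h2 : M ≤ L) (i : Fin d) (x y : T d L) :
    ((ff M (x i - y i) : ℝ) : ℂ) = ∑ q : ZMod L, ((fh M q : ℝ) : ℂ) *
      ((ZMod.stdAddChar (q * x i) : ℂ) * star (ZMod.stdAddChar (q * y i) : ℂ)) := by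
  rw [(ht L M h1 h2).2.2.2.2.2.2]
  refine Finset.sum_congr rfl fun q _ => ?_
  congr 1
  rw [← starRingEnd_apply, (AddChar.map_neg_eq_conj ZMod.stdAddChar (q * y i)).symm,
    ← AddChar.map_add_eq_mul]
  congr 1
  ring

theorem FF_nonneg (ht : T_TENT) (M : ℕ) (h1 : 1 ≤ M) (h2 : M ≤ L) (i : Fin d)
    (u : T d L → T d L → ℂ) (j k : T d L) : 0 ≤ FF i M u j k :=
  Finset.sum_nonneg fun q _ => mul_nonneg ((ht L M h1 h2).1 q) (by positivity)

theorem FF_eq (ht : T_TENT) (M : ℕ) (h1 : 1 ≤ M) (h2 : M ≤ L) (i : Fin d)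
    (u : T d L → T d L → ℂ) (j k : T d L) :
    Fc (fun x y : T d L => ff M (x i - y i)) (Matrix.vecMulVec (u j) (star (u j)))
      (Matrix.vecMulVec (u k) (star (u k))) = (FF i M u j k : ℂ) :=
  Fc_rank_one _ (fun q : ZMod L => fh M q)
    (fun (q : ZMod L) (x : T d L) => (ZMod.stdAddChar (q * x i) : ℂ))
    (fun x y => kern ht M h1 h2 i x y) (u j) (u k)

theorem Phi_eq (i : Fin d) (M : ℕ) (A : Matrix (T d L) (T d L) ℂ) :
    Fc (fun x y : T d L => ff M (x i - y i)) A A = (Phi i M A : ℂ) := by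
  rw [Fc_self]
  rfl

/-- the Abel mean in terms of the spectral data -/
theorem Wt_eq (ht : T_TENT) (M : ℕ) (h1 : 1 ≤ M) (h2 : M ≤ L) (i : Fin d)
    (H : Matrix (T d L) (T d L) ℂ) (u : T d L → T d L → ℂ) (E : T d L → ℝ)
    (hE : ∀ j, H *ᵥ u j = (E j : ℂ) • u j)
    (ho : ∀ j k, star (u j) ⬝ᵥ u k = if j = k then 1 else 0) {τ : ℝ} (hτ : 0 < τ) :
    Wt H i M τ = ∑ j, ∑ k, FF i M u j k * (1 / (1 + (τ * (E j - E k)) ^ 2)) := by
  have h3 : ∀ t : ℝ, Phi i M (ev H t) =
      ∑ j, ∑ k, FF i M u j k * Real.cos (t * (E j - E k)) := fun t =>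
    Fc_ev (fun x y : T d L => ff M (x i - y i)) H u E hE ho (FF i M u)
      (FF_eq ht M h1 h2 i u) t
  unfold Wt
  have h4 : ∀ t : ℝ, Real.exp (-(t / τ)) * Phi i M (ev H t) =
      ∑ j, ∑ k, FF i M u j k * (Real.exp (-(t / τ)) * Real.cos (t * (E j - E k))) := by
    intro t
    rw [h3, Finset.mul_sum]
    refine Finset.sum_congr rfl fun j _ => ?_
    rw [Finset.mul_sum]
    refine Finset.sum_congr rfl fun k _ => ?_
    ring
  simp only [h4]
  rw [integral_finsetSum]
  · rw [Finset.mul_sum]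
    refine Finset.sum_congr rfl fun j _ => ?_
    rw [integral_finsetSum]
    · rw [Finset.mul_sum]
      refine Finset.sum_congr rfl fun k _ => ?_
      rw [integral_const_mul, ← (abel_int hτ (E j - E k)).2]
      ring
    · intro k _
      exact (abel_int hτ (E j - E k)).1.const_mul _
  · intro j _
    refine integrable_finsetSum _ fun k _ => ?_
    exact (abel_int hτ (E j - E k)).1.const_mul _

theorem exists_basis {H : Matrix (T d L) (T d L) ℂ} (hH : H.IsHermitian) :
    ∃ (u : T d L → T d L → ℂ) (E : T d L → ℝ), (∀ j, H *ᵥ u j = (E j : ℂ) • u j) ∧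
      (∀ j k, star (u j) ⬝ᵥ u k = if j = k then 1 else 0) := by
  refine ⟨fun j => (hH.eigenvectorBasis j).ofLp, hH.eigenvalues, fun j => ?_, fun j k => ?_⟩
  · have := hH.mulVec_eigenvectorBasis j
    rw [this]
    ext x
    simp
  · have := orthonormal_iff_ite.1 hH.eigenvectorBasis.orthonormal j k
    rw [← this, EuclideanSpace.inner_eq_star_dotProduct, dotProduct_comm]

theorem diag_le (ht : T_TENT) (M : ℕ) (h1 : 1 ≤ M) (h2 : M ≤ L) (i : Fin d)
    (H : Matrix (T d L) (T d L) ℂ) (u : T d L → T d L → ℂ) (E : T d L → ℝ)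
    (hE : ∀ j, H *ᵥ u j = (E j : ℂ) • u j)
    (ho : ∀ j k, star (u j) ⬝ᵥ u k = if j = k then 1 else 0) {τ : ℝ} (hτ : 0 < τ) :
    ∑ j, Phi i M (Matrix.vecMulVec (u j) (star (u j))) ≤ Wt H i M τ := by
  rw [Wt_eq ht M h1 h2 i H u E hE ho hτ]
  refine Finset.sum_le_sum fun j _ => ?_
  have h3 : Phi i M (Matrix.vecMulVec (u j) (star (u j))) = FF i M u j j := by
    have := FF_eq ht M h1 h2 i u j j
    rw [Phi_eq] at this
    exact_mod_cast this
  rw [h3]
  refine le_trans ?_ (Finset.single_le_sum (f := fun k => FF i M u j k *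
    (1 / (1 + (τ * (E j - E k)) ^ 2))) (fun k _ => ?_) (Finset.mem_univ j))
  · simp
  · have := FF_nonneg ht M h1 h2 i u j k
    positivity

theorem Phi_one_le (ht : T_TENT) (M : ℕ) (h1 : 1 ≤ M) (h2 : M ≤ L) (i : Fin d) :
    Phi i M (1 : Matrix (T d L) (T d L) ℂ) ≤ NN d L := by
  unfold Phi
  have h3 : ∀ x : T d L, ∑ y : T d L, ff M (x i - y i) *
      ‖(1 : Matrix (T d L) (T d L) ℂ) x y‖ ^ 2 ≤ 1 := by
    intro x
    rw [Finset.sum_eq_single x]
    · simpa using ((ht L M h1 h2).2.2.2.1 (x i - x i)).2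
    · intro y _ hy
      rw [Matrix.one_apply_ne hy.symm]
      simp
    · simp
  refine (Finset.sum_le_sum fun x _ => h3 x).trans ?_
  simp [NN, ZMod.card]

theorem sum_FF (ht : T_TENT) (M : ℕ) (h1 : 1 ≤ M) (h2 : M ≤ L) (i : Fin d)
    (u : T d L → T d L → ℂ) (s s' : Finset (T d L)) :
    Fc (fun x y : T d L => ff M (x i - y i))
      (∑ j ∈ s, Matrix.vecMulVec (u j) (star (u j)))
      (∑ k ∈ s', Matrix.vecMulVec (u k) (star (u k))) =
      ((∑ j ∈ s, ∑ k ∈ s', FF i M u j k : ℝ) : ℂ) := by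
  rw [Fc_sum_left]
  push_cast
  refine Finset.sum_congr rfl fun j _ => ?_
  rw [Fc_sum_right]
  refine Finset.sum_congr rfl fun k _ => ?_
  exact FF_eq ht M h1 h2 i u j k

theorem sum_FF_self (ht : T_TENT) (M : ℕ) (h1 : 1 ≤ M) (h2 : M ≤ L) (i : Fin d)
    (u : T d L → T d L → ℂ) (s : Finset (T d L)) :
    Phi i M (∑ j ∈ s, Matrix.vecMulVec (u j) (star (u j))) =
      ∑ j ∈ s, ∑ k ∈ s, FF i M u j k := by
  have := sum_FF ht M h1 h2 i u s s
  rw [Phi_eq] at this
  exact_mod_cast this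

theorem FF_symm (ht : T_TENT) (M : ℕ) (h1 : 1 ≤ M) (h2 : M ≤ L) (i : Fin d)
    (u : T d L → T d L → ℂ) (j k : T d L) : FF i M u j k = FF i M u k j := by
  have e1 := FF_eq ht M h1 h2 i u j k
  have e2 := FF_eq ht M h1 h2 i u k j
  have e3 : Fc (fun x y : T d L => ff M (x i - y i)) (Matrix.vecMulVec (u k) (star (u k)))
      (Matrix.vecMulVec (u j) (star (u j))) =
      star (Fc (fun x y : T d L => ff M (x i - y i)) (Matrix.vecMulVec (u j) (star (u j)))
      (Matrix.vecMulVec (u k) (star (u k)))) := by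
    unfold Fc
    rw [star_sum]
    refine Finset.sum_congr rfl fun x _ => ?_
    rw [star_sum]
    refine Finset.sum_congr rfl fun y _ => ?_
    simp only [star_mul', star_star]
    rw [← starRingEnd_apply (ff M (x i - y i) : ℂ), Complex.conj_ofReal]
    ring
  rw [e2, e1, ← starRingEnd_apply, Complex.conj_ofReal] at e3
  exact_mod_cast e3.symm

/-- polarisation -/
theorem sum_FF_le (ht : T_TENT) (M : ℕ) (h1 : 1 ≤ M) (h2 : M ≤ L) (i : Fin d)
    (u : T d L → T d L → ℂ) (s s' : Finset (T d L)) :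
    ∑ j ∈ s, ∑ k ∈ s', FF i M u j k ≤
      (Phi i M (∑ j ∈ s, Matrix.vecMulVec (u j) (star (u j))) +
        Phi i M (∑ k ∈ s', Matrix.vecMulVec (u k) (star (u k)))) / 2 := by
  obtain ⟨A, hA⟩ : ∃ A, A = ∑ j ∈ s, Matrix.vecMulVec (u j) (star (u j)) := ⟨_, rfl⟩
  obtain ⟨B, hB⟩ : ∃ B, B = ∑ j ∈ s', Matrix.vecMulVec (u j) (star (u j)) := ⟨_, rfl⟩
  have e1 := sum_FF ht M h1 h2 i u s s'
  have e2 := sum_FF ht M h1 h2 i u s' s
  have e3 : ∑ j ∈ s', ∑ k ∈ s, FF i M u j k = ∑ j ∈ s, ∑ k ∈ s', FF i M u j k := by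
    rw [Finset.sum_comm]
    exact Finset.sum_congr rfl fun j _ => Finset.sum_congr rfl fun k _ =>
      FF_symm ht M h1 h2 i u k j
  rw [e3] at e2
  rw [← hA, ← hB] at e1 e2 ⊢
  have h4 : 0 ≤ Phi i M (A + (-1 : ℂ) • B) :=
    Finset.sum_nonneg fun x _ => Finset.sum_nonneg fun y _ =>
      mul_nonneg ((ht L M h1 h2).2.2.2.1 _).1 (by positivity)
  have h5 : ((Phi i M (A + (-1 : ℂ) • B) : ℝ) : ℂ) =
      ((Phi i M A + Phi i M B - 2 * ∑ j ∈ s, ∑ k ∈ s', FF i M u j k : ℝ) : ℂ) := by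
    rw [← Phi_eq, Fc_add_left, Fc_add_right, Fc_add_right, Fc_smul_left, Fc_smul_left,
      Fc_smul_right, Fc_smul_right, e1, e2, Phi_eq, Phi_eq]
    push_cast
    simp only [star_neg, star_one]
    ring
  have h6 : Phi i M (A + (-1 : ℂ) • B) =
      Phi i M A + Phi i M B - 2 * ∑ j ∈ s, ∑ k ∈ s', FF i M u j k := by
    exact_mod_cast h5
  linarith

theorem nsq_sum (u : T d L → T d L → ℂ)
    (ho : ∀ j k, star (u j) ⬝ᵥ u k = if j = k then 1 else 0) (s : Finset (T d L))
    (a : T d L → ℂ) : nsq (∑ j ∈ s, a j • u j) = ∑ j ∈ s, ‖a j‖ ^ 2 := by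
  have h0 : ∀ w : T d L → ℂ, ((nsq w : ℝ) : ℂ) = star w ⬝ᵥ w := by
    intro w
    unfold nsq
    push_cast
    refine Finset.sum_congr rfl fun x _ => ?_
    rw [← Complex.conj_mul']
    rfl
  have h1 : ((nsq (∑ j ∈ s, a j • u j) : ℝ) : ℂ) = ((∑ j ∈ s, ‖a j‖ ^ 2 : ℝ) : ℂ) := by
    rw [h0, star_sum, sum_dotProduct]
    push_cast
    refine Finset.sum_congr rfl fun j hj => ?_
    rw [dotProduct_sum, Finset.sum_eq_single j]
    · rw [star_smul, smul_dotProduct, dotProduct_smul, ho, if_pos rfl, ← Complex.conj_mul']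
      simp
    · intro k _ hk
      rw [star_smul, smul_dotProduct, dotProduct_smul, ho, if_neg hk.symm]
      simp
    · intro h
      exact absurd hj h
  exact_mod_cast h1

theorem proj_mulVec (u : T d L → T d L → ℂ) (s : Finset (T d L)) (v : T d L → ℂ) :
    (∑ j ∈ s, Matrix.vecMulVec (u j) (star (u j))) *ᵥ v =
      ∑ j ∈ s, (star (u j) ⬝ᵥ v) • u j := by
  rw [Matrix.sum_mulVec]
  refine Finset.sum_congr rfl fun j _ => ?_
  ext x
  simp only [Matrix.mulVec, dotProduct, Matrix.vecMulVec_apply, Pi.smul_apply, smul_eq_mul,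
    Finset.sum_mul]
  refine Finset.sum_congr rfl fun y _ => ?_
  ring

/-- the weights -/
noncomputable def cc (a : ℕ) : ℝ := 1 / (1 + ((a - 1 : ℕ) : ℝ) ^ 2)

theorem cc_nonneg (a : ℕ) : 0 ≤ cc a := by unfold cc; positivity

theorem cc_sum (N : ℕ) : ∑ a ∈ Finset.range (N + 2), cc a ≤ 4 - 2 / ((N : ℝ) + 1) := by
  induction N with
  | zero =>
    simp [Finset.sum_range_succ, cc]
    norm_num
  | succ N ih =>
    rw [Finset.sum_range_succ]
    have h1 : cc (N + 2) ≤ 2 / ((N : ℝ) + 1) - 2 / ((N : ℝ) + 2) := by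
      unfold cc
      have e1 : ((N + 2 - 1 : ℕ) : ℝ) = (N : ℝ) + 1 := by
        rw [show N + 2 - 1 = N + 1 by omega]; push_cast; ring
      rw [e1, div_sub_div _ _ (by positivity) (by positivity),
        div_le_div_iff₀ (by positivity) (by positivity)]
      have : (0 : ℝ) ≤ N := Nat.cast_nonneg _
      nlinarith
    push_cast
    have e2 : (N : ℝ) + 1 + 1 = N + 2 := by ring
    rw [e2]
    linarith

theorem cc_window (κ : ℕ) (m : ℤ) :
    ∑ n ∈ Finset.Icc (-(κ : ℤ)) κ, cc (m - n).natAbs ≤ 8 := by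
  obtain ⟨N, hN⟩ : ∃ N : ℕ, N = m.natAbs + κ := ⟨_, rfl⟩
  have hmaps : ∀ n ∈ Finset.Icc (-(κ : ℤ)) κ, (m - n).natAbs ∈ Finset.range (N + 2) := by
    intro n hn
    rw [Finset.mem_Icc] at hn
    rw [Finset.mem_range]
    omega
  rw [← Finset.sum_fiberwise_of_maps_to hmaps]
  have h1 : ∀ a ∈ Finset.range (N + 2),
      ∑ n ∈ (Finset.Icc (-(κ : ℤ)) κ).filter (fun n => (m - n).natAbs = a), cc (m - n).natAbs ≤
        2 * cc a := by
    intro a _
    have h2 : ∑ n ∈ (Finset.Icc (-(κ : ℤ)) κ).filter (fun n => (m - n).natAbs = a),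
        cc (m - n).natAbs =
        (((Finset.Icc (-(κ : ℤ)) κ).filter (fun n => (m - n).natAbs = a)).card : ℝ) * cc a := by
      rw [Finset.sum_congr rfl (fun n hn => by rw [(Finset.mem_filter.1 hn).2]),
        Finset.sum_const, nsmul_eq_mul]
    rw [h2]
    refine mul_le_mul_of_nonneg_right ?_ (cc_nonneg a)
    have h3 : (Finset.Icc (-(κ : ℤ)) κ).filter (fun n => (m - n).natAbs = a) ⊆
        {m - a, m + a} := by
      intro n hn
      have := (Finset.mem_filter.1 hn).2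
      rw [Finset.mem_insert, Finset.mem_singleton]
      omega
    have h4 := (Finset.card_le_card h3).trans Finset.card_le_two
    exact_mod_cast h4
  refine (Finset.sum_le_sum h1).trans ?_
  rw [← Finset.mul_sum]
  have h5 := cc_sum N
  have h6 : (0 : ℝ) ≤ 2 / ((N : ℝ) + 1) := by positivity
  linarith

theorem window_le {w τ a b : ℝ} (hw : 0 < w) (hτ : 1 ≤ w * τ) :
    1 / (1 + (τ * (a - b)) ^ 2) ≤ cc (⌊a / w⌋ - ⌊b / w⌋).natAbs := by
  unfold cc
  obtain ⟨l, hl⟩ : ∃ l : ℕ, l = (⌊a / w⌋ - ⌊b / w⌋).natAbs := ⟨_, rfl⟩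
  rw [← hl]
  have hτ0 : 0 < τ := by
    by_contra h
    push Not at h
    have : w * τ ≤ 0 := mul_nonpos_of_nonneg_of_nonpos hw.le h
    linarith
  refine one_div_le_one_div_of_le (by positivity) ?_
  have h1 : (((l - 1 : ℕ) : ℝ)) ≤ |a / w - b / w| := by
    rcases Nat.eq_zero_or_pos l with h0 | h0
    · rw [h0]; simp
    · have e1 : (((l - 1 : ℕ) : ℝ)) = (l : ℝ) - 1 := by
        rw [Nat.cast_sub h0]; simp
      rw [e1]
      have f1 := Int.floor_le (a / w)
      have f2 := Int.lt_floor_add_one (a / w)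
      have f3 := Int.floor_le (b / w)
      have f4 := Int.lt_floor_add_one (b / w)
      have e2 : (l : ℝ) = |((⌊a / w⌋ - ⌊b / w⌋ : ℤ) : ℝ)| := by
        rw [hl, Nat.cast_natAbs, Int.cast_abs]
      rw [e2]
      push_cast
      rcases le_total (⌊a / w⌋ : ℝ) (⌊b / w⌋ : ℝ) with h | h
      · rw [abs_of_nonpos (by linarith), abs_sub_comm]
        refine le_trans ?_ (le_abs_self _)
        linarith
      · rw [abs_of_nonneg (by linarith)]
        refine le_trans ?_ (le_abs_self _)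
        linarith
  have h2 : |a / w - b / w| ≤ |τ * (a - b)| := by
    rw [← sub_div, abs_div, abs_mul, abs_of_pos hw, abs_of_pos hτ0, div_le_iff₀ hw]
    have := abs_nonneg (a - b)
    nlinarith
  have h3 : (((l - 1 : ℕ) : ℝ)) ^ 2 ≤ (τ * (a - b)) ^ 2 := by
    rw [← sq_abs (τ * (a - b))]
    exact pow_le_pow_left₀ (Nat.cast_nonneg _) (h1.trans h2) 2
  linarith

theorem windows (ht : T_TENT) (M : ℕ) (h1 : 1 ≤ M) (h2 : M ≤ L) (i : Fin d)
    (H : Matrix (T d L) (T d L) ℂ) (u : T d L → T d L → ℂ) (E : T d L → ℝ)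
    (hE : ∀ j, H *ᵥ u j = (E j : ℂ) • u j)
    (ho : ∀ j k, star (u j) ⬝ᵥ u k = if j = k then 1 else 0) {w τ : ℝ} (κ : ℕ) (hw : 0 < w)
    (hwτ : 1 ≤ w * τ) (hH : ∀ v : T d L → ℂ, nsq (H *ᵥ v) ≤ (κ * w) ^ 2 * nsq v) :
    ∃ P : ℤ → Matrix (T d L) (T d L) ℂ,
      (∀ m : ℤ, (P m).IsHermitian ∧ P m * P m = P m ∧ ∀ v : T d L → ℂ,
        nsq ((H - ((m * w : ℝ) : ℂ) • (1 : Matrix (T d L) (T d L) ℂ)) *ᵥ (P m *ᵥ v)) ≤
          w ^ 2 * nsq (P m *ᵥ v)) ∧
      Wt H i M τ ≤ 8 * ∑ m ∈ Finset.Icc (-(κ : ℤ)) κ, Phi i M (P m) := by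
  classical
  have hτ0 : 0 < τ := by
    by_contra h
    push Not at h
    have : w * τ ≤ 0 := mul_nonpos_of_nonneg_of_nonpos hw.le h
    linarith
  obtain ⟨S, hS⟩ : ∃ S : ℤ → Finset (T d L),
      S = fun m => Finset.univ.filter fun j => ⌊E j / w⌋ = m := ⟨_, rfl⟩
  have memS : ∀ m j, j ∈ S m ↔ ⌊E j / w⌋ = m := by intro m j; simp [hS]
  refine ⟨fun m => ∑ j ∈ S m, Matrix.vecMulVec (u j) (star (u j)), fun m => ⟨?_, ?_, ?_⟩, ?_⟩
  · show Matrix.conjTranspose _ = _
    rw [Matrix.conjTranspose_sum]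
    refine Finset.sum_congr rfl fun j _ => ?_
    rw [Matrix.conjTranspose_vecMulVec, star_star]
  · rw [Finset.sum_mul_sum]
    refine Finset.sum_congr rfl fun j hj => ?_
    rw [Finset.sum_eq_single j]
    · rw [Matrix.vecMulVec_mul_vecMulVec, ho, if_pos rfl]
      simp
    · intro k _ hk
      rw [Matrix.vecMulVec_mul_vecMulVec, ho, if_neg hk.symm]
      simp
    · intro h
      exact absurd hj h
  · intro v
    rw [proj_mulVec]
    have e1 : (H - ((m * w : ℝ) : ℂ) • (1 : Matrix (T d L) (T d L) ℂ)) *ᵥ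
        (∑ j ∈ S m, (star (u j) ⬝ᵥ v) • u j) =
        ∑ j ∈ S m, (((E j - m * w : ℝ) : ℂ) * (star (u j) ⬝ᵥ v)) • u j := by
      rw [Matrix.sub_mulVec, Matrix.smul_mulVec, Matrix.one_mulVec, Matrix.mulVec_sum,
        Finset.smul_sum, ← Finset.sum_sub_distrib]
      refine Finset.sum_congr rfl fun j _ => ?_
      rw [Matrix.mulVec_smul, hE, smul_smul, smul_smul, ← sub_smul]
      congr 1
      push_cast
      ring
    rw [e1, nsq_sum u ho, nsq_sum u ho, Finset.mul_sum]
    refine Finset.sum_le_sum fun j hj => ?_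
    rw [norm_mul, mul_pow]
    refine mul_le_mul_of_nonneg_right ?_ (by positivity)
    rw [Complex.norm_real, Real.norm_eq_abs, sq_abs]
    rw [memS] at hj
    have f1 := Int.floor_le (E j / w)
    have f2 := Int.lt_floor_add_one (E j / w)
    rw [hj] at f1 f2
    rw [le_div_iff₀ hw] at f1
    rw [div_lt_iff₀ hw] at f2
    have g1 : 0 ≤ E j - m * w := by linarith
    have g2 : E j - m * w ≤ w := by linarith
    exact pow_le_pow_left₀ g1 g2 2
  · have hκ : ∀ j ∈ (Finset.univ : Finset (T d L)), ⌊E j / w⌋ ∈ Finset.Icc (-(κ : ℤ)) κ := by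
      intro j _
      have e1 := hH (u j)
      have e2 : nsq (u j) = 1 := by
        have := nsq_sum u ho {j} fun _ => 1
        simpa using this
      have e3 : nsq (H *ᵥ u j) = E j ^ 2 := by
        rw [hE]
        have := nsq_sum u ho {j} fun _ => (E j : ℂ)
        simpa using this
      rw [e2, e3, mul_one] at e1
      have e4 : |E j| ≤ κ * w := abs_le_of_sq_le_sq e1 (by positivity)
      rw [abs_le] at e4
      rw [Finset.mem_Icc]
      constructor
      · rw [Int.le_floor, le_div_iff₀ hw]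
        push_cast
        linarith [e4.1]
      · have : (⌊E j / w⌋ : ℝ) ≤ κ := (Int.floor_le _).trans (by
          rw [div_le_iff₀ hw]
          exact e4.2)
        exact_mod_cast this
    rw [Wt_eq ht M h1 h2 i H u E hE ho hτ0]
    calc ∑ j, ∑ k, FF i M u j k * (1 / (1 + (τ * (E j - E k)) ^ 2))
        ≤ ∑ j, ∑ k, FF i M u j k * cc (⌊E j / w⌋ - ⌊E k / w⌋).natAbs :=
          Finset.sum_le_sum fun j _ => Finset.sum_le_sum fun k _ =>
            mul_le_mul_of_nonneg_left (window_le hw hwτ) (FF_nonneg ht M h1 h2 i u j k)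
      _ = ∑ m ∈ Finset.Icc (-(κ : ℤ)) κ, ∑ n ∈ Finset.Icc (-(κ : ℤ)) κ,
            cc (m - n).natAbs * ∑ j ∈ S m, ∑ k ∈ S n, FF i M u j k := by
          rw [← Finset.sum_fiberwise_of_maps_to hκ]
          refine Finset.sum_congr rfl fun m _ => ?_
          rw [show (Finset.univ.filter fun j => ⌊E j / w⌋ = m) = S m by rw [hS]]
          have : ∀ j ∈ S m, ∑ k, FF i M u j k * cc (⌊E j / w⌋ - ⌊E k / w⌋).natAbs =
              ∑ n ∈ Finset.Icc (-(κ : ℤ)) κ, ∑ k ∈ S n, cc (m - n).natAbs * FF i M u j k := by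
            intro j hj
            rw [memS] at hj
            rw [← Finset.sum_fiberwise_of_maps_to hκ]
            refine Finset.sum_congr rfl fun n _ => ?_
            rw [show (Finset.univ.filter fun j => ⌊E j / w⌋ = n) = S n by rw [hS]]
            refine Finset.sum_congr rfl fun k hk => ?_
            rw [memS] at hk
            rw [hj, hk, mul_comm]
          rw [Finset.sum_congr rfl this, Finset.sum_comm]
          refine Finset.sum_congr rfl fun n _ => ?_
          rw [Finset.mul_sum]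
          refine Finset.sum_congr rfl fun j _ => ?_
          rw [Finset.mul_sum]
      _ ≤ ∑ m ∈ Finset.Icc (-(κ : ℤ)) κ, ∑ n ∈ Finset.Icc (-(κ : ℤ)) κ,
            cc (m - n).natAbs *
              ((Phi i M (∑ j ∈ S m, Matrix.vecMulVec (u j) (star (u j))) +
                Phi i M (∑ j ∈ S n, Matrix.vecMulVec (u j) (star (u j)))) / 2) :=
          Finset.sum_le_sum fun m _ => Finset.sum_le_sum fun n _ =>
            mul_le_mul_of_nonneg_left (sum_FF_le ht M h1 h2 i u (S m) (S n)) (cc_nonneg _)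
      _ = ∑ m ∈ Finset.Icc (-(κ : ℤ)) κ, ∑ n ∈ Finset.Icc (-(κ : ℤ)) κ,
            cc (m - n).natAbs *
              Phi i M (∑ j ∈ S m, Matrix.vecMulVec (u j) (star (u j))) := by
          have h3 : ∀ f : ℤ → ℝ, ∑ m ∈ Finset.Icc (-(κ : ℤ)) κ, ∑ n ∈ Finset.Icc (-(κ : ℤ)) κ,
              cc (m - n).natAbs * f n = ∑ m ∈ Finset.Icc (-(κ : ℤ)) κ,
                ∑ n ∈ Finset.Icc (-(κ : ℤ)) κ, cc (m - n).natAbs * f m := by
            intro f
            rw [Finset.sum_comm]
            refine Finset.sum_congr rfl fun m _ => Finset.sum_congr rfl fun n _ => ?_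
            rw [show (n - m).natAbs = (m - n).natAbs by omega]
          have h4 := h3 fun m => Phi i M (∑ j ∈ S m, Matrix.vecMulVec (u j) (star (u j)))
          have h5 : ∀ m n : ℤ, cc (m - n).natAbs *
              ((Phi i M (∑ j ∈ S m, Matrix.vecMulVec (u j) (star (u j))) +
                Phi i M (∑ j ∈ S n, Matrix.vecMulVec (u j) (star (u j)))) / 2) =
              (cc (m - n).natAbs * Phi i M (∑ j ∈ S m, Matrix.vecMulVec (u j) (star (u j))) +
                cc (m - n).natAbs * Phi i M (∑ j ∈ S n, Matrix.vecMulVec (u j) (star (u j)))) /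
                2 := by
            intro m n
            ring
          simp only [h5, ← Finset.sum_div, Finset.sum_add_distrib]
          rw [h4]
          ring
      _ ≤ ∑ m ∈ Finset.Icc (-(κ : ℤ)) κ,
            8 * Phi i M (∑ j ∈ S m, Matrix.vecMulVec (u j) (star (u j))) := by
          refine Finset.sum_le_sum fun m _ => ?_
          rw [← Finset.sum_mul]
          refine mul_le_mul_of_nonneg_right (cc_window κ m) ?_
          exact Finset.sum_nonneg fun x _ => Finset.sum_nonneg fun y _ =>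
            mul_nonneg ((ht L M h1 h2).2.2.2.1 _).1 (by positivity)
      _ = 8 * ∑ m ∈ Finset.Icc (-(κ : ℤ)) κ,
            Phi i M (∑ j ∈ S m, Matrix.vecMulVec (u j) (star (u j))) := by
          rw [Finset.mul_sum]

end torus

end Uni

/-- the unitary group on the torus -/
theorem uni (ht : T_TENT) : T_UNI := by
  intro d L M _ i h1 h2 H hH
  obtain ⟨u, E, hE, ho⟩ := Uni.exists_basis hH
  refine ⟨?_, ?_, ?_, ?_⟩
  · intro s τ hs hsτ
    have hτ : 0 < τ := hs.trans_le hsτ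
    rw [Uni.Wt_eq ht M h1 h2 i H u E hE ho hτ, Uni.Wt_eq ht M h1 h2 i H u E hE ho hs]
    refine Finset.sum_le_sum fun j _ => Finset.sum_le_sum fun k _ => ?_
    refine mul_le_mul_of_nonneg_left ?_ (Uni.FF_nonneg ht M h1 h2 i u j k)
    refine one_div_le_one_div_of_le (by positivity) ?_
    have : (s * (E j - E k)) ^ 2 ≤ (τ * (E j - E k)) ^ 2 := by
      rw [mul_pow, mul_pow]
      exact mul_le_mul_of_nonneg_right (pow_le_pow_left₀ hs.le hsτ 2) (by positivity)
    linarith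
  · intro τ hτ
    rw [Uni.Wt_eq ht M h1 h2 i H u E hE ho hτ]
    constructor
    · refine Finset.sum_nonneg fun j _ => Finset.sum_nonneg fun k _ => ?_
      have := Uni.FF_nonneg ht M h1 h2 i u j k
      positivity
    · refine le_trans ?_ (Uni.Phi_one_le ht M h1 h2 i)
      rw [← (Uni.ev_eq H u E hE ho).1, Uni.sum_FF_self ht M h1 h2 i u]
      refine Finset.sum_le_sum fun j _ => Finset.sum_le_sum fun k _ => ?_
      have h3 := Uni.FF_nonneg ht M h1 h2 i u j k
      have h4 : 1 / (1 + (τ * (E j - E k)) ^ 2) ≤ 1 := by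
        rw [div_le_one (by positivity)]
        nlinarith [sq_nonneg (τ * (E j - E k))]
      nlinarith
  · intro u' E' hE' ho' τ hτ
    exact Uni.diag_le ht M h1 h2 i H u' E' hE' ho' hτ
  · intro w τ κ hw hwτ hb
    exact Uni.windows ht M h1 h2 i H u E hE ho κ hw hwτ hb

end Pool.Agent.T2h98.QD
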