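import Pool.Agent.T2h98.QD.Stm5
import Pool.Agent.T2h98.QD.Uni

/-! Abel means in time and integrals over the energy. -/

set_option autoImplicit false
set_option linter.unusedSectionVars false

open scoped BigOperators Matrix Topology
open MeasureTheory ProbabilityTheory Filter

namespace Pool.Agent.T2h98.QD

namespace PlanS

/-- integrability of the Cauchy density -/
theorem int_cauchy (a : ℝ) {ε : ℝ} (hε : 0 < ε) : Integrable fun E : ℝ => ((E - a) ^ 2 + ε ^ 2)⁻¹ := by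
  have h1 := ((integrable_inv_one_add_sq.comp_div hε.ne').comp_sub_right a).const_mul ((ε ^ 2)⁻¹)
  refine h1.congr (Filter.Eventually.of_forall fun E => ?_)
  simp only
  rw [← mul_inv]
  congr 1
  field_simp
  ring

theorem normSq_p (a ε E : ℝ) : ‖((E - a : ℝ) : ℂ) + (ε : ℂ) * Complex.I‖ ^ 2 = (E - a) ^ 2 + ε ^ 2 := by
  rw [← Complex.normSq_eq_norm_sq, Complex.normSq_add_mul_I]

/-- the kernel -/
theorem int_ker (a b : ℝ) {ε : ℝ} (hε : 0 < ε) : Integrable fun E : ℝ =>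
    ((((E - a : ℝ) : ℂ) + (ε : ℂ) * Complex.I) * (((E - b : ℝ) : ℂ) - (ε : ℂ) * Complex.I))⁻¹ := by
  have hne1 : ∀ E : ℝ, ((E - a : ℝ) : ℂ) + (ε : ℂ) * Complex.I ≠ 0 := fun E h => by
    have := congrArg Complex.im h
    simp at this
    exact hε.ne' this
  have hne2 : ∀ E : ℝ, ((E - b : ℝ) : ℂ) - (ε : ℂ) * Complex.I ≠ 0 := fun E h => by
    have := congrArg Complex.im h
    simp at this
    exact hε.ne' this
  have hc : Continuous fun E : ℝ =>
      ((((E - a : ℝ) : ℂ) + (ε : ℂ) * Complex.I) * (((E - b : ℝ) : ℂ) - (ε : ℂ) * Complex.I))⁻¹ := by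
    refine Continuous.inv₀ (by fun_prop) fun E => mul_ne_zero (hne1 E) (hne2 E)
  refine Integrable.mono' ((int_cauchy a hε).add (int_cauchy b hε)) hc.aestronglyMeasurable
    (Filter.Eventually.of_forall fun E => ?_)
  obtain ⟨x, hx⟩ : ∃ x : ℝ, x = ‖((E - a : ℝ) : ℂ) + (ε : ℂ) * Complex.I‖ := ⟨_, rfl⟩
  obtain ⟨y, hy⟩ : ∃ y : ℝ, y = ‖((E - b : ℝ) : ℂ) - (ε : ℂ) * Complex.I‖ := ⟨_, rfl⟩
  have hx0 : 0 < x := by rw [hx]; exact norm_pos_iff.2 (hne1 E)
  have hy0 : 0 < y := by rw [hy]; exact norm_pos_iff.2 (hne2 E)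
  have hx2 : x ^ 2 = (E - a) ^ 2 + ε ^ 2 := by rw [hx]; exact normSq_p a ε E
  have hy2 : y ^ 2 = (E - b) ^ 2 + ε ^ 2 := by
    rw [hy]
    have := normSq_p b (-ε) E
    rw [neg_sq] at this
    rw [← this]
    congr 2
    push_cast
    ring
  rw [norm_inv, norm_mul, ← hx, ← hy, Pi.add_apply, ← hx2, ← hy2]
  have h1 : (x * y)⁻¹ = x⁻¹ * y⁻¹ := mul_inv _ _
  rw [h1, ← inv_pow, ← inv_pow]
  nlinarith [sq_nonneg (x⁻¹ - y⁻¹), inv_pos.2 hx0, inv_pos.2 hy0, mul_pos (inv_pos.2 hx0) (inv_pos.2 hy0)]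

theorem lim_top (p q : ℂ) (hp : 0 < p.im) (hq : q.im < 0) :
    Tendsto (fun E : ℝ => Complex.log ((E : ℂ) + p) - Complex.log ((E : ℂ) + q)) atTop (𝓝 0) := by
  have h0 : ∀ z : ℂ, Tendsto (fun E : ℝ => Complex.log (1 + z * ((E⁻¹ : ℝ) : ℂ))) atTop (𝓝 0) := by
    intro z
    have h1 : Tendsto (fun E : ℝ => 1 + z * ((E⁻¹ : ℝ) : ℂ)) atTop (𝓝 1) := by
      have h2 : Tendsto (fun E : ℝ => ((E⁻¹ : ℝ) : ℂ)) atTop (𝓝 ((0 : ℝ) : ℂ)) :=
        (Complex.continuous_ofReal.tendsto 0).comp tendsto_inv_atTop_zero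
      have h3 := (h2.const_mul z).const_add 1
      simpa using h3
    have h2 : Tendsto Complex.log (𝓝 1) (𝓝 (Complex.log 1)) :=
      (continuousAt_clog (by simp)).tendsto
    rw [Complex.log_one] at h2
    exact h2.comp h1
  have h1 : Tendsto (fun E : ℝ => Complex.log (1 + p * ((E⁻¹ : ℝ) : ℂ)) - Complex.log (1 + q * ((E⁻¹ : ℝ) : ℂ)))
      atTop (𝓝 0) := by
    have := (h0 p).sub (h0 q)
    simpa using this
  refine h1.congr' ?_
  filter_upwards [eventually_gt_atTop (0 : ℝ)] with E hE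
  have key : ∀ z : ℂ, z.im ≠ 0 → Complex.log ((E : ℂ) + z) = Real.log E + Complex.log (1 + z * ((E⁻¹ : ℝ) : ℂ)) := by
    intro z hz
    have hEc : (E : ℂ) ≠ 0 := by exact_mod_cast hE.ne'
    have h2 : (E : ℂ) + z = E * (1 + z * ((E⁻¹ : ℝ) : ℂ)) := by
      push_cast
      field_simp
    have h3 : 1 + z * ((E⁻¹ : ℝ) : ℂ) ≠ 0 := by
      intro h
      have h4 := congrArg Complex.im h
      rw [Complex.add_im, Complex.one_im, Complex.im_mul_ofReal, zero_add, Complex.zero_im] at h4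
      exact mul_ne_zero hz (inv_ne_zero hE.ne') h4
    rw [h2, Complex.log_ofReal_mul hE h3]
  rw [key p hp.ne', key q hq.ne]
  ring

theorem lim_bot (p q : ℂ) (hp : 0 < p.im) (hq : q.im < 0) :
    Tendsto (fun E : ℝ => Complex.log ((E : ℂ) + p) - Complex.log ((E : ℂ) + q)) atBot
      (𝓝 (2 * Real.pi * Complex.I)) := by
  have h0 : ∀ z : ℂ, Tendsto (fun E : ℝ => -1 + z * ((E⁻¹ : ℝ) : ℂ)) atTop (𝓝 (-1)) := by
    intro z
    have h2 : Tendsto (fun E : ℝ => ((E⁻¹ : ℝ) : ℂ)) atTop (𝓝 ((0 : ℝ) : ℂ)) :=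
      (Complex.continuous_ofReal.tendsto 0).comp tendsto_inv_atTop_zero
    have h3 := (h2.const_mul z).const_add (-1)
    simpa using h3
  have him : ∀ (z : ℂ) (E : ℝ), (-1 + z * ((E⁻¹ : ℝ) : ℂ)).im = z.im * E⁻¹ := fun z E => by
    rw [Complex.add_im, Complex.im_mul_ofReal]
    simp
  have h1 : Tendsto (fun E : ℝ => Complex.log (-1 + p * ((E⁻¹ : ℝ) : ℂ))) atTop
      (𝓝 (Real.log ‖(-1 : ℂ)‖ + Real.pi * Complex.I)) := by
    have h2 := Complex.tendsto_log_nhdsWithin_im_nonneg_of_re_neg_of_im_zero (z := -1) (by simp) (by simp)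
    refine h2.comp (tendsto_nhdsWithin_iff.2 ⟨h0 p, ?_⟩)
    filter_upwards [eventually_gt_atTop (0 : ℝ)] with E hE
    show 0 ≤ (-1 + p * ((E⁻¹ : ℝ) : ℂ)).im
    rw [him]
    positivity
  have h2 : Tendsto (fun E : ℝ => Complex.log (-1 + q * ((E⁻¹ : ℝ) : ℂ))) atTop
      (𝓝 (Real.log ‖(-1 : ℂ)‖ - Real.pi * Complex.I)) := by
    have h2 := Complex.tendsto_log_nhdsWithin_im_neg_of_re_neg_of_im_zero (z := -1) (by simp) (by simp)
    refine h2.comp (tendsto_nhdsWithin_iff.2 ⟨h0 q, ?_⟩)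
    filter_upwards [eventually_gt_atTop (0 : ℝ)] with E hE
    show (-1 + q * ((E⁻¹ : ℝ) : ℂ)).im < 0
    rw [him]
    exact mul_neg_of_neg_of_pos hq (inv_pos.2 hE)
  have h3 : Tendsto (fun E : ℝ => Complex.log (-1 + p * ((E⁻¹ : ℝ) : ℂ)) -
      Complex.log (-1 + q * ((E⁻¹ : ℝ) : ℂ))) atTop (𝓝 (2 * Real.pi * Complex.I)) := by
    have := h1.sub h2
    refine this.trans (le_of_eq ?_)
    congr 1
    ring
  have h4 := h3.comp tendsto_neg_atBot_atTop
  refine h4.congr' ?_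
  filter_upwards [eventually_lt_atBot (0 : ℝ)] with E hE
  have hE' : 0 < -E := by linarith
  have key : ∀ z : ℂ, z.im ≠ 0 → Complex.log ((E : ℂ) + z) =
      Real.log (-E) + Complex.log (-1 + z * (((-E)⁻¹ : ℝ) : ℂ)) := by
    intro z hz
    have hEc : (E : ℂ) ≠ 0 := by exact_mod_cast hE.ne
    have h2 : (E : ℂ) + z = ((-E : ℝ) : ℂ) * (-1 + z * (((-E)⁻¹ : ℝ) : ℂ)) := by
      push_cast
      field_simp
      ring
    have h3 : -1 + z * (((-E)⁻¹ : ℝ) : ℂ) ≠ 0 := by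
      intro h
      have h4 := congrArg Complex.im h
      rw [him, Complex.zero_im] at h4
      exact mul_ne_zero hz (inv_ne_zero hE'.ne') h4
    rw [h2, Complex.log_ofReal_mul hE' h3]
  simp only [Function.comp]
  rw [key p hp.ne', key q hq.ne]
  ring

/-- the energy integral -/
theorem energy (a b : ℝ) {ε : ℝ} (hε : 0 < ε) : ∫ E : ℝ,
    ((((E - a : ℝ) : ℂ) + (ε : ℂ) * Complex.I) * (((E - b : ℝ) : ℂ) - (ε : ℂ) * Complex.I))⁻¹ =
    2 * Real.pi * Complex.I / (((b - a : ℝ) : ℂ) + 2 * (ε : ℂ) * Complex.I) := by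
  obtain ⟨p, hp⟩ : ∃ p : ℂ, p = ((-a : ℝ) : ℂ) + (ε : ℂ) * Complex.I := ⟨_, rfl⟩
  obtain ⟨q, hq⟩ : ∃ q : ℂ, q = ((-b : ℝ) : ℂ) - (ε : ℂ) * Complex.I := ⟨_, rfl⟩
  have hpi : p.im = ε := by simp [hp]
  have hqi : q.im = -ε := by simp [hq]
  have hpq : p - q ≠ 0 := by
    intro h
    have := congrArg Complex.im h
    rw [Complex.sub_im, hpi, hqi, Complex.zero_im] at this
    linarith
  have hqp : q - p ≠ 0 := by
    intro h
    exact hpq (by linear_combination -h)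
  have e1 : ∀ E : ℝ, ((E - a : ℝ) : ℂ) + (ε : ℂ) * Complex.I = E + p := fun E => by
    rw [hp]; push_cast; ring
  have e2 : ∀ E : ℝ, ((E - b : ℝ) : ℂ) - (ε : ℂ) * Complex.I = E + q := fun E => by
    rw [hq]; push_cast; ring
  have n1 : ∀ E : ℝ, (E : ℂ) + p ≠ 0 := fun E h => by
    have := congrArg Complex.im h
    rw [Complex.add_im, Complex.ofReal_im, hpi, Complex.zero_im] at this
    linarith
  have n2 : ∀ E : ℝ, (E : ℂ) + q ≠ 0 := fun E h => by
    have := congrArg Complex.im h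
    rw [Complex.add_im, Complex.ofReal_im, hqi, Complex.zero_im] at this
    linarith
  have hint := int_ker a b hε
  simp only [e1, e2] at hint ⊢
  have hder : ∀ E : ℝ, HasDerivAt (fun E : ℝ => (q - p)⁻¹ * (Complex.log ((E : ℂ) + p) - Complex.log ((E : ℂ) + q)))
      (((E : ℂ) + p) * ((E : ℂ) + q))⁻¹ E := by
    intro E
    have d1 : HasDerivAt (fun E : ℝ => (E : ℂ) + p) 1 E := (Complex.ofRealCLM.hasDerivAt (x := E)).add_const p
    have d2 : HasDerivAt (fun E : ℝ => (E : ℂ) + q) 1 E := (Complex.ofRealCLM.hasDerivAt (x := E)).add_const q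
    have s1 : (E : ℂ) + p ∈ Complex.slitPlane := by
      right
      rw [Complex.add_im, Complex.ofReal_im, hpi]
      linarith
    have s2 : (E : ℂ) + q ∈ Complex.slitPlane := by
      right
      rw [Complex.add_im, Complex.ofReal_im, hqi]
      linarith
    have d3 := ((d1.clog_real s1).sub (d2.clog_real s2)).const_mul ((q - p)⁻¹)
    refine d3.congr_deriv ?_
    have := n1 E
    have := n2 E
    field_simp
    ring
  have hI := integral_of_hasDerivAt_of_tendsto hder hint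
    ((lim_bot p q (by rw [hpi]; exact hε) (by rw [hqi]; linarith)).const_mul ((q - p)⁻¹))
    ((lim_top p q (by rw [hpi]; exact hε) (by rw [hqi]; linarith)).const_mul ((q - p)⁻¹))
  rw [hI]
  have h5 : ((b - a : ℝ) : ℂ) + 2 * (ε : ℂ) * Complex.I = p - q := by
    rw [hp, hq]; push_cast; ring
  rw [h5, mul_zero, zero_sub]
  field_simp
  ring

/-- the time integral -/
theorem time {τ : ℝ} (hτ : 0 < τ) (ω : ℝ) :
    IntegrableOn (fun t : ℝ => Complex.exp ((-((τ⁻¹ : ℝ) : ℂ) - (ω : ℂ) * Complex.I) * t)) (Set.Ioi 0) ∧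
    ∫ t in Set.Ioi (0 : ℝ), Complex.exp ((-((τ⁻¹ : ℝ) : ℂ) - (ω : ℂ) * Complex.I) * t) =
      (((τ⁻¹ : ℝ) : ℂ) + (ω : ℂ) * Complex.I)⁻¹ := by
  have hre : (-((τ⁻¹ : ℝ) : ℂ) - (ω : ℂ) * Complex.I).re < 0 := by
    simp
    exact hτ
  refine ⟨integrableOn_exp_mul_complex_Ioi hre 0, ?_⟩
  rw [integral_exp_mul_complex_Ioi hre 0]
  simp only [Complex.ofReal_zero, mul_zero, Complex.exp_zero]
  rw [show -((τ⁻¹ : ℝ) : ℂ) - (ω : ℂ) * Complex.I = -(((τ⁻¹ : ℝ) : ℂ) + (ω : ℂ) * Complex.I) by ring,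
    neg_div_neg_eq, one_div]

section gen

variable {n : Type} [Fintype n] [DecidableEq n]

theorem exists_eigen (H : Matrix n n ℂ) (hH : H.IsHermitian) : ∃ (u : n → n → ℂ) (E : n → ℝ),
    (∀ j, H *ᵥ u j = (E j : ℂ) • u j) ∧ ∀ j k, star (u j) ⬝ᵥ u k = if j = k then 1 else 0 := by
  refine ⟨fun j => (hH.eigenvectorBasis j).ofLp, hH.eigenvalues, fun j => ?_, fun j k => ?_⟩
  · exact hH.mulVec_eigenvectorBasis j
  · have h1 := (orthonormal_iff_ite.1 hH.eigenvectorBasis.orthonormal) j k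
    rw [← h1, EuclideanSpace.inner_eq_star_dotProduct, dotProduct_comm]

theorem res_eq (H : Matrix n n ℂ) (u : n → n → ℂ) (E : n → ℝ) (hE : ∀ j, H *ᵥ u j = (E j : ℂ) • u j)
    (ho : ∀ j k, star (u j) ⬝ᵥ u k = if j = k then 1 else 0) (z : ℂ) (hz : ∀ j, (E j : ℂ) - z ≠ 0) :
    (H - z • (1 : Matrix n n ℂ))⁻¹ = ∑ j, ((E j : ℂ) - z)⁻¹ • Matrix.vecMulVec (u j) (star (u j)) := by
  apply Matrix.inv_eq_right_inv
  refine Eq.trans ?_ (Uni.ev_eq H u E hE ho).1
  rw [Finset.mul_sum]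
  refine Finset.sum_congr rfl fun j _ => ?_
  rw [Matrix.mul_smul, Matrix.mul_vecMulVec, Matrix.sub_mulVec, Matrix.smul_mulVec, Matrix.one_mulVec, hE,
    ← sub_smul, Matrix.smul_vecMulVec, smul_smul, inv_mul_cancel₀ (hz j), one_smul]

theorem quad (u : n → n → ℂ) (w : n → ℂ) (x0 : n) (α : n → ℂ) :
    ∑ x, w x * ((‖(∑ j, α j • Matrix.vecMulVec (u j) (star (u j))) x x0‖ ^ 2 : ℝ) : ℂ) =
      ∑ j, ∑ k, (∑ x, w x * (u j x * star (u j x0) * star (u k x * star (u k x0)))) * (α j * star (α k)) := by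
  have h1 : ∀ x, ((‖(∑ j, α j • Matrix.vecMulVec (u j) (star (u j))) x x0‖ ^ 2 : ℝ) : ℂ) =
      ∑ j, ∑ k, (u j x * star (u j x0) * star (u k x * star (u k x0))) * (α j * star (α k)) := by
    intro x
    push_cast
    rw [← Complex.mul_conj', Matrix.sum_apply, map_sum, Finset.sum_mul_sum]
    refine Finset.sum_congr rfl fun j _ => Finset.sum_congr rfl fun k _ => ?_
    rw [Matrix.smul_apply, Matrix.smul_apply, Matrix.vecMulVec_apply, Matrix.vecMulVec_apply, smul_eq_mul,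
      smul_eq_mul, Pi.star_apply, Pi.star_apply, map_mul, ← Complex.star_def]
    ring
  simp only [h1, Finset.mul_sum, Finset.sum_mul]
  rw [Finset.sum_comm]
  refine Finset.sum_congr rfl fun j _ => ?_
  rw [Finset.sum_comm]
  refine Finset.sum_congr rfl fun k _ => Finset.sum_congr rfl fun x _ => ?_
  ring

end gen

end PlanS

open PlanS in
theorem plan : T_PLAN := by
  intro n _ _ H hH w x0 τ hτ
  obtain ⟨u, E, hE, ho⟩ := exists_eigen H hH
  obtain ⟨ε, hε⟩ : ∃ ε : ℝ, ε = 1 / (2 * τ) := ⟨_, rfl⟩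
  have hε0 : 0 < ε := by rw [hε]; positivity
  obtain ⟨C, hC⟩ : ∃ C : n → n → ℂ, C = fun j k =>
    ∑ x, w x * (u j x * star (u j x0) * star (u k x * star (u k x0))) := ⟨_, rfl⟩
  rw [← hε]
  have hz : ∀ (e : ℝ) (j : n), (E j : ℂ) - ((e : ℂ) + (ε : ℂ) * Complex.I) ≠ 0 := fun e j h => by
    have := congrArg Complex.im h
    simp at this
    exact hε0.ne' this
  have hR : ∀ e : ℝ, ∑ x, w x * ((‖(H - ((e : ℂ) + (ε : ℂ) * Complex.I) • (1 : Matrix n n ℂ))⁻¹ x x0‖ ^ 2 : ℝ) : ℂ) =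
      ∑ j, ∑ k, C j k * ((((e - E j : ℝ) : ℂ) + (ε : ℂ) * Complex.I) *
        (((e - E k : ℝ) : ℂ) - (ε : ℂ) * Complex.I))⁻¹ := by
    intro e
    rw [res_eq H u E hE ho _ (hz e), quad]
    refine Finset.sum_congr rfl fun j _ => Finset.sum_congr rfl fun k _ => ?_
    rw [hC]
    simp only
    congr 1
    rw [mul_inv, Complex.star_def, map_inv₀, map_sub, map_add, map_mul, Complex.conj_ofReal, Complex.conj_ofReal,
      Complex.conj_ofReal, Complex.conj_I]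
    have f1 : (E j : ℂ) - ((e : ℂ) + (ε : ℂ) * Complex.I) = -(((e - E j : ℝ) : ℂ) + (ε : ℂ) * Complex.I) := by
      push_cast; ring
    have f2 : (E k : ℂ) - ((e : ℂ) + (ε : ℂ) * -Complex.I) = -(((e - E k : ℝ) : ℂ) - (ε : ℂ) * Complex.I) := by
      push_cast; ring
    rw [f1, f2, inv_neg, inv_neg, neg_mul_neg]
  have hT : ∀ t : ℝ, ((Real.exp (-(t / τ)) : ℝ) : ℂ) * ∑ x, w x * ((‖ev H t x x0‖ ^ 2 : ℝ) : ℂ) =
      ∑ j, ∑ k, C j k * Complex.exp ((-((τ⁻¹ : ℝ) : ℂ) - ((E j - E k : ℝ) : ℂ) * Complex.I) * t) := by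
    intro t
    rw [(Uni.ev_eq H u E hE ho).2 t, quad, Finset.mul_sum]
    refine Finset.sum_congr rfl fun j _ => ?_
    rw [Finset.mul_sum]
    refine Finset.sum_congr rfl fun k _ => ?_
    rw [hC]
    simp only
    rw [mul_left_comm]
    congr 1
    rw [Complex.star_def, ← Complex.exp_conj, Complex.ofReal_exp, ← Complex.exp_add, ← Complex.exp_add]
    congr 1
    simp only [map_neg, map_mul, Complex.conj_ofReal, Complex.conj_I]
    push_cast
    ring
  constructor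
  · refine Integrable.congr ?_ (Filter.Eventually.of_forall fun e => (hR e).symm)
    exact integrable_finsetSum _ fun j _ => integrable_finsetSum _ fun k _ =>
      (int_ker (E j) (E k) hε0).const_mul _
  · have h1 : ∫ t in Set.Ioi (0 : ℝ), ((Real.exp (-(t / τ)) : ℝ) : ℂ) *
        ∑ x, w x * ((‖ev H t x x0‖ ^ 2 : ℝ) : ℂ) =
        ∑ j, ∑ k, C j k * (((τ⁻¹ : ℝ) : ℂ) + ((E j - E k : ℝ) : ℂ) * Complex.I)⁻¹ := by
      simp only [hT]
      rw [integral_finsetSum _ fun j _ => integrable_finsetSum _ fun k _ => ((time hτ _).1).const_mul _]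
      refine Finset.sum_congr rfl fun j _ => ?_
      rw [integral_finsetSum _ fun k _ => ((time hτ _).1).const_mul _]
      refine Finset.sum_congr rfl fun k _ => ?_
      rw [integral_const_mul, (time hτ _).2]
    have h2 : ∫ e : ℝ, ∑ x, w x *
        ((‖(H - ((e : ℂ) + (ε : ℂ) * Complex.I) • (1 : Matrix n n ℂ))⁻¹ x x0‖ ^ 2 : ℝ) : ℂ) =
        ∑ j, ∑ k, C j k * (2 * Real.pi * Complex.I / (((E k - E j : ℝ) : ℂ) + 2 * (ε : ℂ) * Complex.I)) := by
      simp only [hR]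
      rw [integral_finsetSum _ fun j _ => integrable_finsetSum _ fun k _ =>
        (int_ker (E j) (E k) hε0).const_mul _]
      refine Finset.sum_congr rfl fun j _ => ?_
      rw [integral_finsetSum _ fun k _ => (int_ker (E j) (E k) hε0).const_mul _]
      refine Finset.sum_congr rfl fun k _ => ?_
      rw [integral_const_mul, energy _ _ hε0]
    rw [h1, h2, Finset.mul_sum, Finset.mul_sum]
    refine Finset.sum_congr rfl fun j _ => ?_
    rw [Finset.mul_sum, Finset.mul_sum]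
    refine Finset.sum_congr rfl fun k _ => ?_
    rw [mul_left_comm, mul_left_comm _ (C j k)]
    congr 1
    have hpi : (Real.pi : ℂ) ≠ 0 := by exact_mod_cast Real.pi_ne_zero
    have hτc : (τ : ℂ) ≠ 0 := by exact_mod_cast hτ.ne'
    have hd1 : ((τ⁻¹ : ℝ) : ℂ) + ((E j - E k : ℝ) : ℂ) * Complex.I ≠ 0 := fun h => by
      have := congrArg Complex.re h
      simp at this
      exact hτ.ne' this
    have hd2 : ((E k - E j : ℝ) : ℂ) + 2 * (ε : ℂ) * Complex.I ≠ 0 := fun h => by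
      have := congrArg Complex.im h
      simp at this
      exact hε0.ne' this
    have hετ : (2 : ℂ) * ε = ((τ⁻¹ : ℝ) : ℂ) := by
      rw [hε]; push_cast; field_simp
    have h6 : ((E k - E j : ℝ) : ℂ) + 2 * (ε : ℂ) * Complex.I =
        Complex.I * (((τ⁻¹ : ℝ) : ℂ) + ((E j - E k : ℝ) : ℂ) * Complex.I) := by
      rw [hετ]
      push_cast
      linear_combination ((E j : ℂ) - E k) * (-Complex.I_mul_I)
    rw [h6, mul_comm (2 * (Real.pi : ℂ)) Complex.I, mul_div_mul_left _ _ Complex.I_ne_zero]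
    have h7 : ((ε / Real.pi : ℝ) : ℂ) * (2 * (Real.pi : ℂ) / (((τ⁻¹ : ℝ) : ℂ) + ((E j - E k : ℝ) : ℂ) * Complex.I)) =
        (2 * ε) * (((τ⁻¹ : ℝ) : ℂ) + ((E j - E k : ℝ) : ℂ) * Complex.I)⁻¹ := by
      push_cast
      field_simp
    rw [h7, hετ]

end Pool.Agent.T2h98.QD
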