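import Pool.Agent.T2h98.QD.Stm12
import Pool.Agent.T2h98.QD.Plan

/-! Quantum averages and Abel means (QEA). -/

set_option autoImplicit false
set_option linter.unusedSectionVars false

open scoped BigOperators Matrix Topology
open MeasureTheory ProbabilityTheory Filter

namespace Pool.Agent.T2h98.QD

open Pool.Agent.W788.MFP.Four (T e NN adj K)
open Pool.Agent.W788.BK (nsq hs PP JJ hi Low cr)

namespace QEAS

variable {d L : ℕ} [NeZero L]

theorem swap4 {ι : Type} [Fintype ι] (F : ι → ι → ι → ι → ℂ) :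
    ∑ x, ∑ y, ∑ j, ∑ k, F x y j k = ∑ j, ∑ k, ∑ x, ∑ y, F x y j k := by
  calc ∑ x, ∑ y, ∑ j, ∑ k, F x y j k = ∑ x, ∑ j, ∑ y, ∑ k, F x y j k :=
        Finset.sum_congr rfl fun x _ => Finset.sum_comm
    _ = ∑ j, ∑ x, ∑ y, ∑ k, F x y j k := Finset.sum_comm
    _ = ∑ j, ∑ x, ∑ k, ∑ y, F x y j k :=
        Finset.sum_congr rfl fun j _ => Finset.sum_congr rfl fun x _ => Finset.sum_comm
    _ = _ := Finset.sum_congr rfl fun j _ => Finset.sum_comm

theorem norm_ev (H : Matrix (T d L) (T d L) ℂ) (u : T d L → T d L → ℂ) (E : T d L → ℝ)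
    (hE : ∀ j, H *ᵥ u j = (E j : ℂ) • u j)
    (ho : ∀ j k, star (u j) ⬝ᵥ u k = if j = k then 1 else 0) (t : ℝ) (x y : T d L) :
    ((‖ev H t x y‖ ^ 2 : ℝ) : ℂ) = ∑ j, ∑ k, Complex.exp (-((E j - E k : ℝ) : ℂ) * Complex.I * t) *
      ((u j x * star (u k x)) * star (u j y * star (u k y))) := by
  have h1 : ev H t x y = ∑ j, Complex.exp (-((t : ℂ) * Complex.I * E j)) * (u j x * star (u j y)) := by
    rw [(Uni.ev_eq H u E hE ho).2 t]
    rw [Matrix.sum_apply]
    refine Finset.sum_congr rfl fun j _ => ?_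
    rw [Matrix.smul_apply, Matrix.vecMulVec_apply, smul_eq_mul, Pi.star_apply]
  rw [Complex.ofReal_pow, ← Complex.mul_conj', h1, map_sum, Finset.sum_mul_sum]
  refine Finset.sum_congr rfl fun j _ => Finset.sum_congr rfl fun k _ => ?_
  have h2 : Complex.exp (-((E j - E k : ℝ) : ℂ) * Complex.I * t) =
      Complex.exp (-((t : ℂ) * Complex.I * E j)) *
        (starRingEnd ℂ) (Complex.exp (-((t : ℂ) * Complex.I * E k))) := by
    rw [← Complex.exp_conj, ← Complex.exp_add]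
    congr 1
    simp only [map_neg, map_mul, Complex.conj_ofReal, Complex.conj_I]
    push_cast
    ring
  rw [h2]
  simp only [map_mul, star_mul', Complex.star_def, Complex.conj_conj]
  ring

theorem sum_ev (κ : T d L) (H : Matrix (T d L) (T d L) ℂ) (u : T d L → T d L → ℂ) (E : T d L → ℝ)
    (hE : ∀ j, H *ᵥ u j = (E j : ℂ) • u j)
    (ho : ∀ j k, star (u j) ⬝ᵥ u k = if j = k then 1 else 0) (t : ℝ) :
    ∑ x, ∑ y, e κ (x - y) * ((‖ev H t x y‖ ^ 2 : ℝ) : ℂ) =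
      ∑ j, ∑ k, ((‖∑ x, e κ x * (u j x * star (u k x))‖ ^ 2 : ℝ) : ℂ) *
        Complex.exp (-((E j - E k : ℝ) : ℂ) * Complex.I * t) := by
  have h1 : ∀ j k : T d L, ((‖∑ x, e κ x * (u j x * star (u k x))‖ ^ 2 : ℝ) : ℂ) *
        Complex.exp (-((E j - E k : ℝ) : ℂ) * Complex.I * t) =
      ∑ x, ∑ y, e κ (x - y) * (Complex.exp (-((E j - E k : ℝ) : ℂ) * Complex.I * t) *
        ((u j x * star (u k x)) * star (u j y * star (u k y)))) := by
    intro j k
    rw [Complex.ofReal_pow, ← Complex.mul_conj', map_sum, Finset.sum_mul_sum, Finset.sum_mul]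
    refine Finset.sum_congr rfl fun x _ => ?_
    rw [Finset.sum_mul]
    refine Finset.sum_congr rfl fun y _ => ?_
    rw [KQ.e_sub, map_mul]
    simp only [Complex.star_def]
    ring
  simp only [norm_ev H u E hE ho, h1, Finset.mul_sum]
  exact swap4 _

end QEAS

open QEAS in
/-- QEA -/
theorem qea : T_QEA := by
  intro d L _ κ H hH u E hE ho τ hτ
  obtain ⟨a, ha⟩ : ∃ a : T d L → T d L → ℝ, a = fun j k =>
    ‖∑ x, e κ x * (u j x * star (u k x))‖ ^ 2 := ⟨_, rfl⟩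
  have ha0 : ∀ j k, 0 ≤ a j k := fun j k => by rw [ha]; positivity
  have h1 : ∀ t : ℝ, ((Real.exp (-(t / τ)) : ℝ) : ℂ) *
      ∑ x, ∑ y, e κ (x - y) * ((‖ev H t x y‖ ^ 2 : ℝ) : ℂ) =
      ∑ j, ∑ k, ((a j k : ℝ) : ℂ) *
        Complex.exp ((-((τ⁻¹ : ℝ) : ℂ) - ((E j - E k : ℝ) : ℂ) * Complex.I) * t) := by
    intro t
    rw [sum_ev κ H u E hE ho t, Finset.mul_sum]
    refine Finset.sum_congr rfl fun j _ => ?_
    rw [Finset.mul_sum]
    refine Finset.sum_congr rfl fun k _ => ?_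
    rw [ha, Complex.ofReal_exp, mul_left_comm, ← Complex.exp_add]
    congr 2
    push_cast
    ring
  have h2 : ∫ t in Set.Ioi (0 : ℝ), ((Real.exp (-(t / τ)) : ℝ) : ℂ) *
      ∑ x, ∑ y, e κ (x - y) * ((‖ev H t x y‖ ^ 2 : ℝ) : ℂ) =
      ∑ j, ∑ k, ((a j k : ℝ) : ℂ) * (((τ⁻¹ : ℝ) : ℂ) + ((E j - E k : ℝ) : ℂ) * Complex.I)⁻¹ := by
    simp only [h1]
    rw [integral_finsetSum _ fun j _ => integrable_finsetSum _ fun k _ =>
      ((PlanS.time hτ (E j - E k)).1.const_mul _)]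
    refine Finset.sum_congr rfl fun j _ => ?_
    rw [integral_finsetSum _ fun k _ => ((PlanS.time hτ (E j - E k)).1.const_mul _)]
    refine Finset.sum_congr rfl fun k _ => ?_
    rw [integral_const_mul, (PlanS.time hτ (E j - E k)).2]
  rw [h2, Complex.re_ofReal_mul, Complex.re_sum, Finset.mul_sum]
  have h3 : ∀ ω : ℝ, τ⁻¹ * ((((τ⁻¹ : ℝ) : ℂ) + (ω : ℂ) * Complex.I)⁻¹).re = 1 / (1 + (τ * ω) ^ 2) := by
    intro ω
    rw [Complex.inv_re, Complex.normSq_add_mul_I]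
    simp only [Complex.add_re, Complex.ofReal_re, Complex.mul_re, Complex.I_re, mul_zero,
      Complex.ofReal_im, Complex.I_im, mul_one, sub_self, add_zero]
    field_simp
  refine Finset.sum_le_sum fun j _ => ?_
  rw [Complex.re_sum, Finset.mul_sum]
  have h4 : ∀ k, 0 ≤ τ⁻¹ * (((a j k : ℝ) : ℂ) *
      (((τ⁻¹ : ℝ) : ℂ) + ((E j - E k : ℝ) : ℂ) * Complex.I)⁻¹).re := by
    intro k
    rw [Complex.re_ofReal_mul, mul_left_comm, h3]
    have := ha0 j k
    positivity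
  refine le_trans ?_ (Finset.single_le_sum (fun k _ => h4 k) (Finset.mem_univ j))
  rw [Complex.re_ofReal_mul, mul_left_comm, h3, sub_self, mul_zero]
  simp only [ha]
  apply le_of_eq
  rw [zero_pow two_ne_zero, add_zero, div_one, mul_one]
  congr 2
  refine Finset.sum_congr rfl fun x _ => ?_
  rw [Complex.star_def, Complex.mul_conj', Complex.ofReal_pow]

end Pool.Agent.T2h98.QD
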