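import Pool.Agent.T2h98.QD.Plan
import Pool.Agent.T2h98.QD.RQF
import Pool.Agent.T2h98.QD.Res
import Pool.Agent.T2h98.QD.Avg

/-! The mean of the Abel means in terms of the ladder. -/

set_option autoImplicit false
set_option linter.unusedSectionVars false

open scoped BigOperators Matrix Topology
open MeasureTheory ProbabilityTheory Filter

namespace Pool.Agent.T2h98.QD

open Pool.Agent.W788.MFP.Four (T e NN adj K)
open Pool.Agent.W788.BK (nsq hs PP JJ hi Low cr nsq_nonneg nsq_eq)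

namespace ENS

variable {d L : ℕ} [NeZero L]

instance : IsProbabilityMeasure (GP (T d L)) := by
  unfold GP PP
  infer_instance

theorem EY_herm (y : T d L) : (EY y : Matrix (T d L) (T d L) ℂ).IsHermitian := by
  unfold Matrix.IsHermitian EY
  rw [Matrix.diagonal_conjTranspose]
  congr 1
  funext i
  by_cases h : i = y
  · subst h; simp
  · simp [Pi.single_eq_of_ne h]

/-- the system of the resolvent -/
theorem sysR (E σ : ℝ) {ε : ℝ} (hε : 0 < ε) : Sys (h0 (d := d) (L := L) E) 1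
    (fun y => (σ : ℂ) • EY y) ε 1 (σ ^ 2) where
  hh := Win.h0_herm E
  hJ := Matrix.isHermitian_one
  hA := fun y => by
    unfold Matrix.IsHermitian
    rw [Matrix.conjTranspose_smul, (EY_herm y).eq]
    simp
  hη := hε
  hδ := one_pos
  hQ0 := sq_nonneg σ
  hJδ := fun w => by
    unfold qf
    rw [Matrix.one_mulVec, ← nsq_eq, Complex.ofReal_re, one_mul]
  hQ := fun a b => by
    have h1 : ∀ c : T d L → ℂ, qf (1 : Matrix (T d L) (T d L) ℂ) c = nsq c := fun c => by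
      unfold qf
      rw [Matrix.one_mulVec, ← nsq_eq, Complex.ofReal_re]
    rw [h1, h1]
    have h2 : ∀ y : T d L, ‖star a ⬝ᵥ (((σ : ℂ) • EY y) *ᵥ b)‖ ^ 2 = σ ^ 2 * (‖a y‖ ^ 2 * ‖b y‖ ^ 2) := by
      intro y
      have h3 : star a ⬝ᵥ (((σ : ℂ) • EY y) *ᵥ b) = (σ : ℂ) * (star (a y) * b y) := by
        rw [Matrix.smul_mulVec, dotProduct_smul, smul_eq_mul]
        congr 1
        unfold EY dotProduct
        rw [Finset.sum_eq_single y]
        · rw [Matrix.mulVec_diagonal, Pi.single_eq_same, one_mul, Pi.star_apply]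
        · intro z _ hz
          rw [Matrix.mulVec_diagonal, Pi.single_eq_of_ne hz, zero_mul, mul_zero]
        · intro h
          exact absurd (Finset.mem_univ y) h
      rw [h3, norm_mul, norm_mul, norm_star, Complex.norm_real, Real.norm_eq_abs, mul_pow, mul_pow, sq_abs]
    simp only [h2]
    rw [← Finset.mul_sum]
    apply mul_le_mul_of_nonneg_left _ (sq_nonneg σ)
    unfold nsq
    rw [Finset.sum_mul]
    refine Finset.sum_le_sum fun y _ => ?_
    apply mul_le_mul_of_nonneg_left _ (by positivity)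
    exact Finset.single_le_sum (f := fun y => ‖b y‖ ^ 2) (fun _ _ => by positivity) (Finset.mem_univ y)

/-- the resolvent of `HT` -/
@[irreducible] noncomputable def RT (σ ε : ℝ) (V : T d L → ℝ) (E : ℝ) : Matrix (T d L) (T d L) ℂ :=
  (HT σ V - ((E : ℂ) + (ε : ℂ) * Complex.I) • (1 : Matrix (T d L) (T d L) ℂ))⁻¹

theorem RT_def (σ ε : ℝ) (V : T d L → ℝ) (E : ℝ) : RT σ ε V E =
    (HT σ V - ((E : ℂ) + (ε : ℂ) * Complex.I) • (1 : Matrix (T d L) (T d L) ℂ))⁻¹ := by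
  unfold RT
  rfl

theorem XX_eq (E σ ε : ℝ) (V : T d L → ℝ) : Win.XX' (RQFS.HH E σ V) 1 ε =
    HT σ V - ((E : ℂ) + (ε : ℂ) * Complex.I) • (1 : Matrix (T d L) (T d L) ℂ) := by
  have h1 : RQFS.HH E σ V = HT σ V - (E : ℂ) • (1 : Matrix (T d L) (T d L) ℂ) := by
    unfold RQFS.HH HT
    rw [Win.h0_eq]
    have h2 : ∑ y, (V y : ℂ) • ((σ : ℂ) • (EY y : Matrix (T d L) (T d L) ℂ)) =
        Matrix.diagonal fun x => ((σ * V x : ℝ) : ℂ) := by
      ext x z
      rw [Matrix.sum_apply]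
      simp only [Matrix.smul_apply, EY, Matrix.diagonal_apply, smul_eq_mul]
      by_cases h : x = z
      · subst h
        simp only [if_true]
        rw [Finset.sum_eq_single x]
        · rw [Pi.single_eq_same]
          push_cast
          ring
        · intro y _ hy
          rw [Pi.single_eq_of_ne hy.symm, mul_zero, mul_zero]
        · intro h
          exact absurd (Finset.mem_univ x) h
      · simp [h]
    rw [h2]
    abel
  unfold Win.XX'
  rw [h1, add_smul]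
  abel

theorem Rh_HT (E σ ε : ℝ) (V : T d L → ℝ) : Rh (h0 (d := d) (L := L) E) σ ε V = RT σ ε V E := by
  rw [RQFS.Rh_eq, XX_eq, RT_def]

theorem det_ne (E σ : ℝ) {ε : ℝ} (hε : 0 < ε) (V : T d L → ℝ) :
    (HT σ V - ((E : ℂ) + (ε : ℂ) * Complex.I) • (1 : Matrix (T d L) (T d L) ℂ)).det ≠ 0 := by
  rw [← XX_eq]
  have hu : IsUnit (Win.XX' (RQFS.HH E σ V) (1 : Matrix (T d L) (T d L) ℂ) ε) := by
    refine Win.isUnit_X (RQFS.HH_herm E σ V) Matrix.isHermitian_one hε one_pos fun w => ?_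
    rw [one_mul]
    unfold qf
    rw [Matrix.one_mulVec, ← nsq_eq, Complex.ofReal_re]
  exact ((Matrix.isUnit_iff_isUnit_det _).1 hu).ne_zero

theorem RT_cont (σ : ℝ) {ε : ℝ} (hε : 0 < ε) :
    Continuous fun p : (T d L → ℝ) × ℝ => RT (d := d) (L := L) σ ε p.1 p.2 := by
  have h0 : Continuous fun p : (T d L → ℝ) × ℝ => ((p.2 : ℂ) + (ε : ℂ) * Complex.I) := by
    fun_prop
  have h1 : Continuous fun p : (T d L → ℝ) × ℝ =>
      HT σ p.1 - ((p.2 : ℂ) + (ε : ℂ) * Complex.I) • (1 : Matrix (T d L) (T d L) ℂ) :=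
    ((HT_cont σ).comp continuous_fst).sub (h0.smul continuous_const)
  simp only [RT_def]
  rw [continuous_iff_continuousAt]
  intro p
  simp only [Matrix.inv_def, Ring.inverse_eq_inv']
  exact ((h1.matrix_det).continuousAt.inv₀ (det_ne p.2 σ hε p.1)).smul (h1.matrix_adjugate).continuousAt

theorem RT_entry_cont (σ : ℝ) {ε : ℝ} (hε : 0 < ε) (x y : T d L) :
    Continuous fun p : (T d L → ℝ) × ℝ => RT (d := d) (L := L) σ ε p.1 p.2 x y :=
  (RT_cont σ hε).matrix_elem x y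

theorem RT_bound (σ : ℝ) {ε : ℝ} (hε : 0 < ε) (V : T d L → ℝ) (E : ℝ) (x y : T d L) :
    ‖RT σ ε V E x y‖ ≤ ε⁻¹ := by
  rw [← Rh_HT]
  have := gg_entry (sysR (d := d) (L := L) E σ hε) V x y
  rw [mul_one] at this
  exact this

theorem RT_shift (σ ε : ℝ) (V : T d L → ℝ) (E : ℝ) (a x y : T d L) :
    RT σ ε (fun z => V (z + a)) E x y = RT σ ε V E (x + a) (y + a) := by
  rw [RT_def, RT_def]
  have h1 : HT σ (fun z => V (z + a)) - ((E : ℂ) + (ε : ℂ) * Complex.I) • (1 : Matrix (T d L) (T d L) ℂ) =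
      (HT σ V - ((E : ℂ) + (ε : ℂ) * Complex.I) • (1 : Matrix (T d L) (T d L) ℂ)).submatrix
        (Equiv.addRight a) (Equiv.addRight a) := by
    rw [HT_shift]
    ext u v
    simp only [Matrix.sub_apply, Matrix.submatrix_apply, Matrix.smul_apply, Matrix.one_apply,
      (Equiv.addRight a).injective.eq_iff]
  rw [h1, Matrix.inv_submatrix_equiv]
  rfl

theorem RT_int (σ : ℝ) {ε : ℝ} (hε : 0 < ε) (E : ℝ) (x y : T d L) :
    Integrable (fun V : T d L → ℝ => ((‖RT σ ε V E x y‖ ^ 2 : ℝ) : ℂ)) (GP (T d L)) := by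
  have hc : Continuous fun V : T d L → ℝ => ((‖RT σ ε V E x y‖ ^ 2 : ℝ) : ℂ) := by
    have h0 : Continuous fun V : T d L → ℝ => ((V, E) : (T d L → ℝ) × ℝ) :=
      continuous_id.prodMk continuous_const
    have h1 : Continuous fun V : T d L → ℝ => RT σ ε V E x y := (RT_entry_cont σ hε x y).comp h0
    exact Complex.continuous_ofReal.comp (h1.norm.pow 2)
  refine Integrable.mono' (integrable_const ((ε⁻¹) ^ 2)) hc.aestronglyMeasurable
    (Filter.Eventually.of_forall fun V => ?_)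
  rw [Complex.norm_real, Real.norm_eq_abs, abs_of_nonneg (by positivity)]
  exact pow_le_pow_left₀ (norm_nonneg _) (RT_bound σ hε V E x y) 2

theorem RT_inv (hinv : T_INV) (σ : ℝ) (ε : ℝ) (E : ℝ) (y : T d L) :
    ∫ V, ((‖RT σ ε V E 0 y‖ ^ 2 : ℝ) : ℂ) ∂(GP (T d L)) =
      ∫ V, ((‖RT σ ε V E (-y) 0‖ ^ 2 : ℝ) : ℂ) ∂(GP (T d L)) := by
  rw [← (hinv d L y).1 fun V => ((‖RT σ ε V E (-y) 0‖ ^ 2 : ℝ) : ℂ)]
  congr 1
  funext V
  rw [RT_shift, neg_add_cancel, zero_add]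

/-- the ladder -/
theorem Sr_eq (hinv : T_INV) (σ E : ℝ) {ε : ℝ} (hε : 0 < ε) (q : T d L) :
    Sr d L σ E ε q = ∫ V, ∑ x, e q x * ((‖RT σ ε V E x 0‖ ^ 2 : ℝ) : ℂ) ∂(GP (T d L)) := by
  unfold Sr
  have h1 : ∀ V : T d L → ℝ, (cj (e q) (Rh (h0 (d := d) (L := L) E) σ ε V) * (Rh (h0 E) σ ε V)ᴴ) 0 0 =
      ∑ y, (starRingEnd ℂ) (e q y) * ((‖RT σ ε V E 0 y‖ ^ 2 : ℝ) : ℂ) := by
    intro V
    rw [Rh_HT, Matrix.mul_apply]
    refine Finset.sum_congr rfl fun y _ => ?_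
    unfold cj
    rw [Matrix.of_apply, Matrix.conjTranspose_apply, Pool.Agent.W788.MFP.Four.e_zero, one_mul]
    push_cast
    rw [← Complex.mul_conj']
    simp only [Complex.star_def]
    ring
  simp only [h1]
  rw [integral_finsetSum _ fun y _ => (RT_int σ hε E 0 y).const_mul _,
    integral_finsetSum _ fun x _ => (RT_int σ hε E x 0).const_mul _]
  rw [← Equiv.sum_comp (Equiv.neg (T d L)) fun x =>
    ∫ V, e q x * ((‖RT σ ε V E x 0‖ ^ 2 : ℝ) : ℂ) ∂(GP (T d L))]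
  refine Finset.sum_congr rfl fun y _ => ?_
  rw [Equiv.neg_apply, integral_const_mul, integral_const_mul, RT_inv hinv,
    Pool.Agent.W788.MFP.Four.e_neg]

/-- the integral over the energy -/
theorem RT_energy (h : T_PLAN) (σ : ℝ) {τ : ℝ} (hτ : 0 < τ) (V : T d L → ℝ) :
    Integrable (fun E : ℝ => ∑ x, ‖RT σ (1 / (2 * τ)) V E x 0‖ ^ 2) ∧
    ∫ E : ℝ, ∑ x, ‖RT σ (1 / (2 * τ)) V E x 0‖ ^ 2 = Real.pi * (2 * τ) := by
  obtain ⟨h1, h2⟩ := h (T d L) (HT σ V) (HT_herm σ V) (fun _ => 1) 0 τ hτ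
  have h3 : ∀ E : ℝ, ∑ x, (1 : ℂ) * ((‖(HT σ V - ((E : ℂ) + ((1 / (2 * τ) : ℝ) : ℂ) * Complex.I) •
      (1 : Matrix (T d L) (T d L) ℂ))⁻¹ x 0‖ ^ 2 : ℝ) : ℂ) =
      ((∑ x, ‖RT σ (1 / (2 * τ)) V E x 0‖ ^ 2 : ℝ) : ℂ) := by
    intro E
    rw [Complex.ofReal_sum]
    refine Finset.sum_congr rfl fun x _ => ?_
    rw [one_mul, RT_def]
  have h4 : ∀ t : ℝ, ∑ x, (1 : ℂ) * ((‖ev (HT (d := d) (L := L) σ V) t x 0‖ ^ 2 : ℝ) : ℂ) = 1 := by
    intro t
    simp only [one_mul]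
    rw [← Complex.ofReal_sum, ev_col _ (HT_herm σ V)]
    simp
  simp only [h3] at h1
  have h1' : Integrable (fun E : ℝ => ∑ x, ‖RT σ (1 / (2 * τ)) V E x 0‖ ^ 2) := by
    have := h1.re
    exact this
  refine ⟨h1', ?_⟩
  simp only [h3, h4, mul_one] at h2
  rw [integral_complex_ofReal, integral_complex_ofReal, (abel_int hτ).2] at h2
  have h5 : τ⁻¹ * τ = (1 / (2 * τ) / Real.pi) * ∫ E : ℝ, ∑ x, ‖RT σ (1 / (2 * τ)) V E x 0‖ ^ 2 := by
    exact_mod_cast h2
  rw [inv_mul_cancel₀ hτ.ne'] at h5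
  have hpi := Real.pi_pos
  field_simp at h5
  linarith

theorem prod_int (h : T_PLAN) (σ : ℝ) {τ : ℝ} (hτ : 0 < τ) (u : T d L → ℂ) (hu : ∀ x, ‖u x‖ ≤ 1) :
    Integrable (fun p : (T d L → ℝ) × ℝ => ∑ x, u x * ((‖RT σ (1 / (2 * τ)) p.1 p.2 x 0‖ ^ 2 : ℝ) : ℂ))
      ((GP (T d L)).prod volume) := by
  have hε : 0 < 1 / (2 * τ) := by positivity
  have hc1 : Continuous fun p : (T d L → ℝ) × ℝ => ∑ x, ‖RT σ (1 / (2 * τ)) p.1 p.2 x 0‖ ^ 2 :=
    continuous_finsetSum _ fun x _ => ((RT_entry_cont σ hε x 0).norm.pow 2)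
  have hc2 : Continuous fun p : (T d L → ℝ) × ℝ =>
      ∑ x, u x * ((‖RT σ (1 / (2 * τ)) p.1 p.2 x 0‖ ^ 2 : ℝ) : ℂ) :=
    continuous_finsetSum _ fun x _ => continuous_const.mul
      (Complex.continuous_ofReal.comp ((RT_entry_cont σ hε x 0).norm.pow 2))
  have hI : Integrable (fun p : (T d L → ℝ) × ℝ => ∑ x, ‖RT σ (1 / (2 * τ)) p.1 p.2 x 0‖ ^ 2)
      ((GP (T d L)).prod volume) := by
    rw [integrable_prod_iff hc1.aestronglyMeasurable]
    refine ⟨Filter.Eventually.of_forall fun V => (RT_energy h σ hτ V).1, ?_⟩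
    have h1 : ∀ V : T d L → ℝ, ∫ E : ℝ, ‖∑ x, ‖RT σ (1 / (2 * τ)) V E x 0‖ ^ 2‖ = Real.pi * (2 * τ) := by
      intro V
      rw [← (RT_energy h σ hτ V).2]
      congr 1
      funext E
      rw [Real.norm_eq_abs, abs_of_nonneg (Finset.sum_nonneg fun _ _ => by positivity)]
    simp only [h1]
    exact integrable_const _
  refine Integrable.mono' hI hc2.aestronglyMeasurable (Filter.Eventually.of_forall fun p => ?_)
  refine (norm_sum_le _ _).trans (Finset.sum_le_sum fun x _ => ?_)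
  rw [norm_mul, Complex.norm_real, Real.norm_eq_abs, abs_of_nonneg (by positivity)]
  exact mul_le_of_le_one_left (by positivity) (hu x)

end ENS

open ENS in
theorem en (h : T_PLAN) (hinv : T_INV) : T_EN := by
  intro d L _ σ τ q hτ
  have hε : 0 < 1 / (2 * τ) := by positivity
  have hP := prod_int (d := d) (L := L) h σ hτ (e q) fun x => (KERS.norm_e q x).le
  have hS : (fun E : ℝ => Sr d L σ E (1 / (2 * τ)) q) = fun E : ℝ =>
      ∫ V, ∑ x, e q x * ((‖RT σ (1 / (2 * τ)) V E x 0‖ ^ 2 : ℝ) : ℂ) ∂(GP (T d L)) :=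
    funext fun E => Sr_eq hinv σ E hε q
  constructor
  · rw [hS]
    exact hP.integral_prod_right
  · rw [hS, ← integral_integral_swap (f := fun (V : T d L → ℝ) (E : ℝ) =>
      ∑ x, e q x * ((‖RT σ (1 / (2 * τ)) V E x 0‖ ^ 2 : ℝ) : ℂ)) hP, ← integral_const_mul]
    congr 1
    funext V
    rw [(h (T d L) (HT σ V) (HT_herm σ V) (e q) 0 τ hτ).2]
    simp only [RT_def]

end Pool.Agent.T2h98.QD
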