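import Pool.Agent.T2h98.QD.Stm12
import Pool.Agent.T2h98.QD.EN

/-! Simple facts on the mean of the resolvent and the ladder (task SR0, helper1). -/

set_option autoImplicit false
set_option linter.unusedSectionVars false

open scoped BigOperators Matrix Topology
open MeasureTheory ProbabilityTheory Filter

namespace Pool.Agent.T2h98.QD

open Pool.Agent.W788.MFP.Four (T e NN adj K)
open Pool.Agent.W788.BK (nsq hs PP JJ hi Low cr nsq_nonneg nsq_eq)

namespace S0

open ENS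

variable {d L : ℕ} [NeZero L]

/-- the Ward identity -/
theorem ward (σ : ℝ) {ε : ℝ} (hε : 0 < ε) (V : T d L → ℝ) (E : ℝ) :
    (RT σ ε V E 0 0).im = ε * ∑ x, ‖RT σ ε V E x 0‖ ^ 2 := by
  obtain ⟨X, hX⟩ : ∃ X : Matrix (T d L) (T d L) ℂ,
    X = HT σ V - ((E : ℂ) + (ε : ℂ) * Complex.I) • (1 : Matrix (T d L) (T d L) ℂ) := ⟨_, rfl⟩
  have hdet : IsUnit X.det := by
    rw [hX]
    exact (det_ne E σ hε V).isUnit
  have hR : RT σ ε V E = X⁻¹ := by rw [RT_def, hX]
  have hXH : Xᴴ - X = (2 * (ε : ℂ) * Complex.I) • (1 : Matrix (T d L) (T d L) ℂ) := by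
    rw [hX, Matrix.conjTranspose_sub, Matrix.conjTranspose_smul, Matrix.conjTranspose_one,
      (HT_herm σ V).eq, sub_sub_sub_cancel_left, ← sub_smul]
    congr 1
    simp only [Complex.star_def, map_add, map_mul, Complex.conj_ofReal, Complex.conj_I]
    ring
  have e1 : (X⁻¹)ᴴ * Xᴴ = 1 := by
    rw [← Matrix.conjTranspose_mul, Matrix.mul_nonsing_inv _ hdet, Matrix.conjTranspose_one]
  have e2 : X * X⁻¹ = 1 := Matrix.mul_nonsing_inv _ hdet
  have h1 : X⁻¹ - (X⁻¹)ᴴ = (2 * (ε : ℂ) * Complex.I) • ((X⁻¹)ᴴ * X⁻¹) := by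
    calc X⁻¹ - (X⁻¹)ᴴ = (X⁻¹)ᴴ * (Xᴴ - X) * X⁻¹ := by
          rw [mul_sub, sub_mul, e1, one_mul, mul_assoc, e2, mul_one]
      _ = _ := by rw [hXH, Matrix.mul_smul, mul_one, Matrix.smul_mul]
  have h2 := congrFun (congrFun h1 0) 0
  rw [Matrix.sub_apply, Matrix.smul_apply, Matrix.conjTranspose_apply, Matrix.mul_apply,
    smul_eq_mul] at h2
  have h3 : ∑ x, (X⁻¹)ᴴ 0 x * X⁻¹ x 0 = ((∑ x, ‖X⁻¹ x 0‖ ^ 2 : ℝ) : ℂ) := by
    push_cast
    refine Finset.sum_congr rfl fun x _ => ?_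
    rw [Matrix.conjTranspose_apply, Complex.star_def, ← Complex.conj_mul']
  rw [h3] at h2
  have h4 := congrArg Complex.im h2
  rw [hR]
  have h5 : (X⁻¹ 0 0 - star (X⁻¹ 0 0)).im = 2 * (X⁻¹ 0 0).im := by
    rw [Complex.sub_im, Complex.star_def, Complex.conj_im]
    ring
  have h6 : (2 * (ε : ℂ) * Complex.I * ((∑ x, ‖X⁻¹ x 0‖ ^ 2 : ℝ) : ℂ)).im =
      2 * (ε * ∑ x, ‖X⁻¹ x 0‖ ^ 2) := by
    rw [Complex.im_mul_ofReal]
    simp
    ring
  rw [h5, h6] at h4
  linarith

theorem mT_RT (σ E ε : ℝ) : mT d L σ E ε = ∫ V, RT (d := d) (L := L) σ ε V E 0 0 ∂(GP (T d L)) := by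
  unfold mT
  simp only [Rh_HT]

theorem RT_contV (σ : ℝ) {ε : ℝ} (hε : 0 < ε) (E : ℝ) (x y : T d L) :
    Continuous fun V : T d L → ℝ => RT σ ε V E x y := by
  have h0 : Continuous fun V : T d L → ℝ => ((V, E) : (T d L → ℝ) × ℝ) :=
    continuous_id.prodMk continuous_const
  exact (RT_entry_cont σ hε x y).comp h0

theorem RT_intV (σ : ℝ) {ε : ℝ} (hε : 0 < ε) (E : ℝ) (x y : T d L) :
    Integrable (fun V : T d L → ℝ => RT σ ε V E x y) (GP (T d L)) :=
  Integrable.mono' (integrable_const (ε⁻¹)) (RT_contV σ hε E x y).aestronglyMeasurable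
    (Filter.Eventually.of_forall fun V => RT_bound σ hε V E x y)

/-- the imaginary part -/
theorem mT_im (σ E : ℝ) {ε : ℝ} (hε : 0 < ε) : (mT d L σ E ε).im =
    ε * ∫ V, ∑ x, ‖RT (d := d) (L := L) σ ε V E x 0‖ ^ 2 ∂(GP (T d L)) := by
  rw [mT_RT]
  have h1 : ∫ V, (RT (d := d) (L := L) σ ε V E 0 0).im ∂(GP (T d L)) =
      (∫ V, RT (d := d) (L := L) σ ε V E 0 0 ∂(GP (T d L))).im :=
    integral_im (RT_intV σ hε E 0 0)
  rw [← h1, ← integral_const_mul]
  congr 1
  funext V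
  exact ward σ hε V E

end S0

open ENS S0 in
theorem sr0 (hinv : T_INV) (hen : T_EN) : T_SR0 := by
  intro d L _ σ ε hε
  have hτ : 0 < 1 / (2 * ε) := by positivity
  have hετ : 1 / (2 * (1 / (2 * ε))) = ε := by field_simp
  have hP := prod_int (d := d) (L := L) plan σ hτ (fun _ => 1) (fun _ => by simp)
  rw [hετ] at hP
  have hP' : Integrable (fun p : (T d L → ℝ) × ℝ => ∑ x, ‖RT (d := d) (L := L) σ ε p.1 p.2 x 0‖ ^ 2)
      ((GP (T d L)).prod volume) := by
    refine hP.re.congr (Eventually.of_forall fun p => ?_)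
    show (∑ x, (1 : ℂ) * ((‖RT σ ε p.1 p.2 x 0‖ ^ 2 : ℝ) : ℂ)).re = _
    simp only [one_mul]
    rw [← Complex.ofReal_sum, Complex.ofReal_re]
  have hIm : (fun E : ℝ => (mT d L σ E ε).im) = fun E : ℝ =>
      ε * ∫ V, ∑ x, ‖RT (d := d) (L := L) σ ε V E x 0‖ ^ 2 ∂(GP (T d L)) :=
    funext fun E => mT_im σ E hε
  refine ⟨fun E => ?_, fun E κ => ?_, ?_, ?_, fun κ => ?_, fun E => ?_⟩
  · rw [mT_im σ E hε]
    exact mul_nonneg hε.le (integral_nonneg fun V => Finset.sum_nonneg fun _ _ => by positivity)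
  · rw [mT_im σ E hε, Sr_eq hinv σ E hε κ]
    refine mul_le_mul_of_nonneg_left ?_ hε.le
    refine norm_integral_le_of_norm_le ?_ (Eventually.of_forall fun V => ?_)
    · refine integrable_finsetSum _ fun x _ => ?_
      exact (RT_int (d := d) (L := L) σ hε E x 0).re
    · refine (norm_sum_le _ _).trans (Finset.sum_le_sum fun x _ => ?_)
      rw [norm_mul, Complex.norm_real, Real.norm_eq_abs, abs_of_nonneg (by positivity)]
      exact mul_le_of_le_one_left (by positivity) (KERS.norm_e κ x).le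
  · rw [hIm]
    exact hP'.integral_prod_right.const_mul ε
  · rw [hIm, integral_const_mul, ← integral_integral_swap (f := fun (V : T d L → ℝ) (E : ℝ) =>
      ∑ x, ‖RT σ ε V E x 0‖ ^ 2) hP']
    have h1 : ∀ V : T d L → ℝ, ∫ E : ℝ, ∑ x, ‖RT σ ε V E x 0‖ ^ 2 = Real.pi * (2 * (1 / (2 * ε))) := by
      intro V
      have := (RT_energy (d := d) (L := L) plan σ hτ V).2
      rw [hετ] at this
      exact this
    simp only [h1]
    rw [integral_const]
    simp
    field_simp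
  · have := (hen d L σ (1 / (2 * ε)) κ hτ).1
    rw [hετ] at this
    exact this
  · intro ε₀ hε₀
    have hε₀' : (0 : ℝ) < ε₀ := hε₀
    apply ContinuousAt.continuousWithinAt
    have hnear : ∀ᶠ x in 𝓝 ε₀, ε₀ / 2 < x := lt_mem_nhds (by linarith)
    have hM : (fun x : ℝ => (mT d L σ E x).im) = fun x : ℝ =>
        (∫ V, RT (d := d) (L := L) σ x V E 0 0 ∂(GP (T d L))).im :=
      funext fun x => by rw [mT_RT]
    rw [hM]
    refine Complex.continuous_im.continuousAt.comp (f := fun x : ℝ =>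
        ∫ V, RT (d := d) (L := L) σ x V E 0 0 ∂(GP (T d L))) ?_
    refine continuousAt_of_dominated (bound := fun _ => (ε₀ / 2)⁻¹) ?_ ?_ (integrable_const _) ?_
    · filter_upwards [hnear] with x hx
      exact (RT_contV σ (by linarith) E 0 0).aestronglyMeasurable
    · filter_upwards [hnear] with x hx
      refine Eventually.of_forall fun V => ?_
      refine (RT_bound σ (by linarith) V E 0 0).trans ?_
      gcongr
    · refine Eventually.of_forall fun V => ?_
      have hc : Continuous fun x : ℝ =>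
          HT (d := d) (L := L) σ V - ((E : ℂ) + (x : ℂ) * Complex.I) • (1 : Matrix (T d L) (T d L) ℂ) := by
        have h0 : Continuous fun x : ℝ => ((E : ℂ) + (x : ℂ) * Complex.I) := by fun_prop
        exact continuous_const.sub (h0.smul continuous_const)
      have h1 : ContinuousAt (fun x : ℝ => RT (d := d) (L := L) σ x V E) ε₀ := by
        simp only [RT_def, Matrix.inv_def, Ring.inverse_eq_inv']
        exact ((hc.matrix_det).continuousAt.inv₀ (det_ne E σ hε₀' V)).smul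
          (hc.matrix_adjugate).continuousAt
      exact (continuousAt_pi.1 (continuousAt_pi.1 h1 0)) 0

end Pool.Agent.T2h98.QD
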