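import Pool.Agent.T2h98.QD.Stm6
import Pool.Agent.T2h98.QD.Stm5

/-! Choice of the parameters for the diffusive limit. -/

set_option autoImplicit false
set_option linter.unusedSectionVars false
set_option linter.unusedVariables false

open scoped BigOperators Topology
open MeasureTheory ProbabilityTheory Filter

namespace Pool.Agent.T2h98.QD

open Pool.Agent.W788.MFP.Four (T e NN adj K)
open Pool.Agent.W788.BK (nsq hs PP JJ hi Low S_QB S_LOW)

namespace ScalA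

/-- `exp (- p y)` -/
noncomputable def ee (y p : ℝ) : ℝ := Real.exp (-(p * y))

theorem ee_pos (y p : ℝ) : 0 < ee y p := Real.exp_pos _

theorem ee_add (y p q : ℝ) : ee y (p + q) = ee y p * ee y q := by
  unfold ee
  rw [← Real.exp_add]
  congr 1
  ring

theorem ee_sub (y p q : ℝ) : ee y (p - q) = ee y p / ee y q := by
  rw [eq_div_iff (ee_pos y q).ne', ← ee_add, sub_add_cancel]

theorem ee_zero (y : ℝ) : ee y 0 = 1 := by unfold ee; simp

theorem ee_neg (y p : ℝ) : ee y (-p) = (ee y p)⁻¹ := by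
  unfold ee
  rw [← Real.exp_neg]
  congr 1
  ring

theorem ee_nat (y p : ℝ) (n : ℕ) : ee y p ^ n = ee y (n * p) := by
  unfold ee
  rw [← Real.exp_nat_mul]
  congr 1
  ring

theorem ee_anti {y : ℝ} (hy : 0 ≤ y) {p q : ℝ} (h : p ≤ q) : ee y q ≤ ee y p := by
  unfold ee
  apply Real.exp_le_exp.2
  have := mul_le_mul_of_nonneg_right h hy
  linarith

theorem ee_one_le {y : ℝ} (hy : 0 ≤ y) {p : ℝ} (h : 0 ≤ p) : ee y p ≤ 1 := by
  have := ee_anti hy h
  rwa [ee_zero] at this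

theorem two_le {y : ℝ} (hy : 1 ≤ y) {p : ℝ} (h : p ≤ -1) : 2 ≤ ee y p := by
  have h1 : Real.exp 1 ≤ ee y p := by
    unfold ee
    apply Real.exp_le_exp.2
    nlinarith
  have := Real.add_one_le_exp (1 : ℝ)
  linarith

theorem le_half {y : ℝ} (hy : 1 ≤ y) {p : ℝ} (h : 1 ≤ p) : ee y p ≤ 1 / 2 := by
  have h1 := two_le hy (show -p ≤ -1 by linarith)
  rw [ee_neg] at h1
  have h2 := ee_pos y p
  have h3 : 2 * ee y p ≤ (ee y p)⁻¹ * ee y p := mul_le_mul_of_nonneg_right h1 h2.le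
  rw [inv_mul_cancel₀ h2.ne'] at h3
  linarith

/-- the size of the torus -/
theorem LLb {y : ℝ} (hy : 1 ≤ y) : ee y (-12) ≤ (LL (ee y 1) : ℝ) ∧
    (LL (ee y 1) : ℝ) ≤ ee y (-14) := by
  have h0 : ((ee y 1) ^ 12)⁻¹ = ee y (-12) := by
    rw [ee_nat, ← ee_neg]
    norm_num
  have h1 : (LL (ee y 1) : ℝ) = (⌈ee y (-12)⌉₊ : ℝ) + 1 := by
    unfold LL
    rw [h0]
    push_cast
    ring
  rw [h1]
  have h2 := Nat.le_ceil (ee y (-12))
  have h3 := (Nat.ceil_lt_add_one (ee_pos y (-12)).le).le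
  refine ⟨by linarith, ?_⟩
  have h4 := two_le hy (show (-1 : ℝ) ≤ -1 by norm_num)
  have h5 : ee y (-14) = ee y (-12) * (ee y (-1) * ee y (-1)) := by
    rw [← ee_add, ← ee_add]
    norm_num
  have h6 := two_le hy (show (-12 : ℝ) ≤ -1 by norm_num)
  rw [h5]
  have h7 : (4 : ℝ) ≤ ee y (-1) * ee y (-1) := by nlinarith
  nlinarith

/-- the square root -/
theorem sq_half (y p : ℝ) : Real.sqrt (ee y (2 * p)) = ee y p := by
  have h1 : ee y (2 * p) = ee y p ^ 2 := by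
    rw [ee_nat]
    norm_num
  rw [h1, Real.sqrt_sq (ee_pos y p).le]

theorem aux1 {b q : ℝ} (h0 : 0 < b) (h : b * b ≤ q) : (2 / 3 * b) ^ 2 ≤ q / 2 := by
  have := mul_pos h0 h0
  have e : (2 / 3 * b) ^ 2 = 4 / 9 * (b * b) := by ring
  rw [e]
  linarith

theorem aux2 {C1 u v Q0 c : ℝ} (hC : 0 < C1) (hu : 1 ≤ u) (hv : 1 ≤ v)
    (h1 : Q0 ≤ 1 + 6 * C1 * u * v) (h2 : c ≤ 2 * v) : Q0 + c ≤ (3 + 6 * C1) * u * v := by
  have e1 : v ≤ u * v := le_mul_of_one_le_left (by linarith) hu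
  have e2 : (3 + 6 * C1) * u * v = 3 * (u * v) + 6 * C1 * u * v := by ring
  rw [e2]
  linarith

theorem aux3 {y : ℝ} (hy : 1 ≤ y) : 1 + 4 * ee y (-2) ≤ ee y (-5) := by
  have h3 : ee y (-5) = ee y (-2) * (ee y (-1) * (ee y (-1) * ee y (-1))) := by
    rw [← ee_add, ← ee_add, ← ee_add]
    norm_num
  have h4 := two_le hy (show (-1 : ℝ) ≤ -1 by norm_num)
  have h5 := two_le hy (show (-2 : ℝ) ≤ -1 by norm_num)
  have h7 : (4 : ℝ) ≤ ee y (-1) * ee y (-1) := by nlinarith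
  have h6 : (8 : ℝ) ≤ ee y (-1) * (ee y (-1) * ee y (-1)) := by nlinarith
  rw [h3]
  nlinarith

theorem core (hprob : T_PROB2) (hqb : S_QB) (hlow : S_LOW) (d : ℕ) (hd : 3 ≤ d) (h : ℝ)
    (hh0 : 0 < h) (hh : h < 4 * (d - 1) / (7 * (2 * d + 1))) (τ ζ : ℝ) (hτ : 0 < τ) (hζ : 0 < ζ)
    (hζ4 : ζ ≤ 1 / 4) : ∀ᶠ y in atTop, ∃ (δ θ t Q0 g cn p0 : ℝ) (Ω : Set (T d (LL (ee y 1)) → ℝ)),
    (∀ E : ℝ, ParT d (LL (ee y 1)) (ee y 1) E δ θ (eT h τ (ee y 1)) t Q0 g cn p0 Ω) ∧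
      Small (ee y 1) (eT h τ (ee y 1)) δ (Q0 + cn / δ ^ 2) g p0 ζ := by
  obtain ⟨C1, hC1, hqb⟩ := hqb
  have hdR : (3 : ℝ) ≤ d := by exact_mod_cast hd
  have hd1 : (0 : ℝ) < 2 * d + 1 := by linarith
  obtain ⟨a, ha⟩ : ∃ a : ℝ, a = (2 * d - 2) / (2 * d + 1) := ⟨_, rfl⟩
  obtain ⟨w, hw⟩ : ∃ w : ℝ, w = 6 / (2 * d + 1) := ⟨_, rfl⟩
  have hw0 : 0 < w := by rw [hw]; positivity
  have hw1 : w ≤ 6 / 7 := by
    rw [hw]
    exact div_le_div_of_nonneg_left (by norm_num) (by norm_num) (by linarith)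
  have haw : a = 1 - w / 2 := by
    rw [ha, hw]
    field_simp
    ring
  have hdw : d * w = 3 - w / 2 := by
    rw [hw]
    field_simp
    ring
  have h7 : 7 / 2 * h < a := by
    have e1 : 4 * ((d : ℝ) - 1) / (7 * (2 * d + 1)) = 2 / 7 * a := by
      rw [ha]
      field_simp
      ring
    rw [e1] at hh
    linarith
  have ha1 : a < 1 := by linarith
  obtain ⟨s, hs⟩ : ∃ s : ℝ, s = min (1 / 100) ((a - 7 / 2 * h) / 4) := ⟨_, rfl⟩
  have hs0 : 0 < s := by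
    rw [hs]
    exact lt_min (by norm_num) (by linarith)
  have hs1 : s ≤ 1 / 100 := by rw [hs]; exact min_le_left _ _
  have hs2 : s ≤ (a - 7 / 2 * h) / 4 := by rw [hs]; exact min_le_right _ _
  obtain ⟨D, hD⟩ : ∃ D : ℝ, D = a - 7 / 2 * h - 2 * s := ⟨_, rfl⟩
  have hD0 : 0 < D := by rw [hD]; linarith
  obtain ⟨C2, hC2⟩ : ∃ C2, C2 = 2 + 8 * Pool.Agent.W788.MFP.Dos.C3 := ⟨_, rfl⟩
  have hC20 : 0 < C2 := by
    rw [hC2]
    unfold Pool.Agent.W788.MFP.Dos.C3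
    norm_num
  obtain ⟨A1, hA1⟩ : ∃ A1 : ℝ, A1 = (3 + 6 * C1) * (2 * τ) ^ 2 := ⟨_, rfl⟩
  obtain ⟨G, hG⟩ : ∃ G : ℝ, G = 1 + 4 * C2 := ⟨_, rfl⟩
  have hA10 : 0 < A1 := by rw [hA1]; positivity
  have hG0 : 0 < G := by rw [hG]; positivity
  obtain ⟨A, hA⟩ : ∃ A : ℝ, A = 471 * A1 * (2 * τ * Real.sqrt (2 * τ)) * G ^ 2 := ⟨_, rfl⟩
  obtain ⟨y0, hy01, hy0⟩ := hprob d 14 s hd hs0 hs1
  -- eventual facts
  have ev1 : ∀ᶠ y : ℝ in atTop, 1 ≤ y ∧ y0 ≤ y := (eventually_ge_atTop 1).and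
    (eventually_ge_atTop y0)
  have ev2 : ∀ᶠ y : ℝ in atTop, 2 * τ ≤ Real.exp y :=
    Real.tendsto_exp_atTop.eventually_ge_atTop _
  have ev3 : ∀ᶠ y : ℝ in atTop, (2 * τ)⁻¹ ≤ Real.exp (h * y) :=
    (Real.tendsto_exp_atTop.comp (tendsto_id.const_mul_atTop hh0)).eventually_ge_atTop _
  have ev4 : ∀ᶠ y : ℝ in atTop, A * y ^ 4 * ee y D ≤ ζ := by
    have h1 := Real.tendsto_pow_mul_exp_neg_atTop_nhds_zero 4
    have h2 : Tendsto (fun y : ℝ => D * y) atTop atTop := tendsto_id.const_mul_atTop hD0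
    have h3 := (h1.comp h2).const_mul (A * (D⁻¹) ^ 4)
    rw [mul_zero] at h3
    filter_upwards [h3.eventually (gt_mem_nhds hζ)] with y hy
    simp only [Function.comp_apply] at hy
    have h6 : A * (D⁻¹) ^ 4 * ((D * y) ^ 4 * Real.exp (-(D * y))) =
        A * y ^ 4 * ee y D := by
      unfold ee
      field_simp
    rw [h6] at hy
    exact hy.le
  filter_upwards [ev1, ev2, ev3, ev4] with y hy1 hy2 hy3 hy4
  obtain ⟨hy1, hyy0⟩ := hy1
  have hy : 0 < y := by linarith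
  obtain ⟨L1, L2⟩ := LLb hy1
  obtain ⟨σ, hσ⟩ : ∃ σ, σ = ee y 1 := ⟨_, rfl⟩
  rw [← hσ] at L1 L2 ⊢
  obtain ⟨L, hL⟩ : ∃ L, L = LL σ := ⟨_, rfl⟩
  have hNZ : NeZero L := by rw [hL]; infer_instance
  obtain ⟨ε, hε⟩ : ∃ ε, ε = eT h τ σ := ⟨_, rfl⟩
  obtain ⟨δ, hδ⟩ : ∃ δ, δ = ee y (2 - s) := ⟨_, rfl⟩
  obtain ⟨θ, hθ⟩ : ∃ θ, θ = ee y w / 2 := ⟨_, rfl⟩
  obtain ⟨Q0, hQ0⟩ : ∃ Q0, Q0 = 1 + C1 * Real.log (1 / δ) ^ 2 / Real.sqrt (δ * θ) := ⟨_, rfl⟩
  obtain ⟨cn, hcn⟩ : ∃ cn, cn = 2 * (2 * θ) ^ d := ⟨_, rfl⟩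
  obtain ⟨g, hg⟩ : ∃ g, g = max 1 (C2 * Real.log (1 / ε)) := ⟨_, rfl⟩
  have hσ0 : 0 < σ := by rw [hσ]; exact ee_pos _ _
  have hδ0 : 0 < δ := by rw [hδ]; exact ee_pos _ _
  have hθ0 : 0 < θ := by
    rw [hθ]
    have := ee_pos y w
    positivity
  have hcn0 : 0 ≤ cn := by rw [hcn]; positivity
  have hQ00 : 1 ≤ Q0 := by
    rw [hQ0]
    have : 0 ≤ C1 * Real.log (1 / δ) ^ 2 / Real.sqrt (δ * θ) := by positivity
    linarith
  have hg1 : 1 ≤ g := by rw [hg]; exact le_max_left _ _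
  have hσ2 : σ ^ 2 = ee y 2 := by rw [hσ, ee_nat]; norm_num
  have hε' : ε = ee y (2 + h) / (2 * τ) := by
    rw [hε, hσ]
    unfold eT ee
    rw [← Real.exp_mul]
    congr 2
    ring
  have hε0 : 0 < ε := by
    rw [hε']
    have := ee_pos y (2 + h)
    positivity
  have r1 : σ ^ 2 / ε = 2 * τ * ee y (-h) := by
    rw [hε', hσ2, ee_add, ee_neg]
    have a1 := (ee_pos y 2).ne'
    have a2 := (ee_pos y h).ne'
    field_simp
  have r2 : 1 ≤ σ ^ 2 / ε := by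
    rw [r1]
    have e1 : ee y (-h) = Real.exp (h * y) := by
      unfold ee
      congr 1
      ring
    rw [e1]
    have e2 : 2 * τ * (2 * τ)⁻¹ ≤ 2 * τ * Real.exp (h * y) :=
      mul_le_mul_of_nonneg_left hy3 (by positivity)
    rwa [mul_inv_cancel₀ (by positivity)] at e2
  have hεσ : ε ≤ σ ^ 2 := by rwa [one_le_div₀ hε0] at r2
  have hσ12 : σ ^ 2 ≤ 1 / 2 := by
    rw [hσ2]
    exact le_half hy1 (by norm_num)
  have hε2 : ε ≤ 1 / 2 := hεσ.trans hσ12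
  have r3 : δ / ε = 2 * τ * ee y (-(h + s)) := by
    rw [hε', hδ, ee_add, ee_sub, ee_neg, ee_add]
    have a1 := (ee_pos y 2).ne'
    have a2 := (ee_pos y h).ne'
    have a3 := (ee_pos y s).ne'
    field_simp
  have r4 : 1 ≤ δ / ε := by
    rw [r3]
    refine r2.trans ?_
    rw [r1]
    exact mul_le_mul_of_nonneg_left (ee_anti hy.le (by linarith)) (by positivity)
  have hεδ : ε ≤ δ := by rwa [one_le_div₀ hε0] at r4
  have hlδ : Real.log (1 / δ) = (2 - s) * y := by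
    rw [one_div, Real.log_inv, hδ]
    unfold ee
    rw [Real.log_exp]
    ring
  have hlε : Real.log (1 / ε) ≤ 4 * y := by
    have e1 : 1 / ε = ee y (-(2 + h)) * (2 * τ) := by
      rw [hε', ee_neg, one_div, inv_div, div_eq_mul_inv, mul_comm]
    rw [e1, Real.log_mul (ee_pos _ _).ne' (by positivity)]
    unfold ee
    rw [Real.log_exp]
    have e2 : Real.log (2 * τ) ≤ y := by
      rw [Real.log_le_iff_le_exp (by positivity)]
      exact hy2
    have : h * y ≤ 1 * y := mul_le_mul_of_nonneg_right (by linarith) hy.le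
    linarith
  have hgle : g ≤ G * y := by
    rw [hg, hG]
    apply max_le
    · have : 0 ≤ C2 * y := by positivity
      linarith
    · have := mul_le_mul_of_nonneg_left hlε hC20.le
      linarith
  -- Q
  obtain ⟨b, hb⟩ : ∃ b : ℝ, b = 1 + w / 2 := ⟨_, rfl⟩
  have hab : a = 2 - b := by rw [haw, hb]; ring
  have hsq : 2 / 3 * ee y b ≤ Real.sqrt (δ * θ) := by
    apply Real.le_sqrt_of_sq_le
    have e1 : δ * θ = ee y (b + b - s) / 2 := by
      rw [hδ, hθ, show b + b - s = (2 - s) + w by rw [hb]; ring, ee_add]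
      ring
    rw [e1]
    have e2 : ee y (b + b) ≤ ee y (b + b - s) := ee_anti hy.le (by linarith)
    rw [ee_add] at e2
    exact aux1 (ee_pos y b) e2
  have hQ1 : Q0 ≤ 1 + 6 * C1 * y ^ 2 * ee y (-b) := by
    rw [hQ0, hlδ]
    have h1 : 0 < 2 / 3 * ee y b := by
      have := ee_pos y b
      positivity
    have h2 : ((2 - s) * y) ^ 2 ≤ (2 * y) ^ 2 :=
      pow_le_pow_left₀ (mul_nonneg (by linarith) hy.le)
        (mul_le_mul_of_nonneg_right (by linarith) hy.le) 2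
    have h3 : C1 * ((2 - s) * y) ^ 2 / Real.sqrt (δ * θ) ≤ 6 * C1 * y ^ 2 * ee y (-b) := by
      calc C1 * ((2 - s) * y) ^ 2 / Real.sqrt (δ * θ)
          ≤ C1 * (2 * y) ^ 2 / (2 / 3 * ee y b) := by
            have h3 := mul_le_mul_of_nonneg_left h2 hC1.le
            exact div_le_div₀ (by positivity) h3 h1 hsq
        _ = 6 * C1 * y ^ 2 * ee y (-b) := by
            rw [ee_neg]
            have := (ee_pos y b).ne'
            field_simp
            ring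
    linarith
  have hcnd : cn / δ ^ 2 ≤ 2 * ee y (-b) := by
    rw [hcn, hθ, hδ, show 2 * (ee y w / 2) = ee y w by ring, ee_nat, ee_nat, hdw, mul_div_assoc,
      ← ee_sub]
    refine mul_le_mul_of_nonneg_left (ee_anti hy.le ?_) (by norm_num)
    rw [hb]
    push_cast
    linarith
  have hy2' : 1 ≤ y ^ 2 := one_le_pow₀ hy1
  have heb : 1 ≤ ee y (-b) := by
    have := ee_anti hy.le (show -b ≤ 0 by rw [hb]; linarith)
    rwa [ee_zero] at this
  have hQ2 : Q0 + cn / δ ^ 2 ≤ (3 + 6 * C1) * y ^ 2 * ee y (-b) := aux2 hC1 hy2' heb hQ1 hcnd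
  have hcnd0 : 0 ≤ cn / δ ^ 2 := by positivity
  have hQpos : 0 < Q0 + cn / δ ^ 2 := by linarith
  -- X
  have hX : σ ^ 2 * (Q0 + cn / δ ^ 2) * (δ / ε) ^ 2 ≤ A1 * y ^ 2 * ee y (a - 2 * (h + s)) := by
    have e1 : a - 2 * (h + s) = 2 + -b + (-(h + s) + -(h + s)) := by rw [hab]; ring
    rw [r3, hσ2, e1, ee_add, ee_add, ee_add, hA1]
    calc ee y 2 * (Q0 + cn / δ ^ 2) * (2 * τ * ee y (-(h + s))) ^ 2
        ≤ ee y 2 * ((3 + 6 * C1) * y ^ 2 * ee y (-b)) * (2 * τ * ee y (-(h + s))) ^ 2 := by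
          have := ee_pos y 2
          gcongr
      _ = _ := by ring
  have hX0 : 0 ≤ σ ^ 2 * (Q0 + cn / δ ^ 2) * (δ / ε) ^ 2 := by positivity
  obtain ⟨X, hXX⟩ : ∃ X, X = σ ^ 2 * (Q0 + cn / δ ^ 2) * (δ / ε) ^ 2 := ⟨_, rfl⟩
  rw [← hXX] at hX hX0
  have hrr : σ ^ 2 / ε * Real.sqrt (σ ^ 2 / ε) =
      2 * τ * Real.sqrt (2 * τ) * ee y (-(3 / 2 * h)) := by
    have e1 : ee y (-h) = ee y (2 * (-(h / 2))) := by
      congr 1
      ring
    have e2 : ee y (-(3 / 2 * h)) = ee y (-h) * ee y (-(h / 2)) := by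
      rw [← ee_add]
      congr 1
      ring
    rw [r1, Real.sqrt_mul (by positivity), e2]
    nth_rw 2 [e1]
    rw [sq_half]
    ring
  have hr0 : 0 ≤ σ ^ 2 / ε * Real.sqrt (σ ^ 2 / ε) := by positivity
  have main : 471 * X * (σ ^ 2 / ε * Real.sqrt (σ ^ 2 / ε)) * g ^ 2 ≤ ζ := by
    refine le_trans ?_ hy4
    have e1 : D = (a - 2 * (h + s)) + -(3 / 2 * h) := by rw [hD]; ring
    have hg2 : g ^ 2 ≤ (G * y) ^ 2 := pow_le_pow_left₀ (by linarith) hgle 2
    calc 471 * X * (σ ^ 2 / ε * Real.sqrt (σ ^ 2 / ε)) * g ^ 2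
        ≤ 471 * (A1 * y ^ 2 * ee y (a - 2 * (h + s))) *
          (σ ^ 2 / ε * Real.sqrt (σ ^ 2 / ε)) * (G * y) ^ 2 := by
          have := ee_pos y (a - 2 * (h + s))
          gcongr
      _ = A * y ^ 4 * ee y D := by
          rw [hrr, e1, ee_add, hA]
          ring
  have hsr : 1 ≤ Real.sqrt (σ ^ 2 / ε) := by
    rw [Real.one_le_sqrt]
    exact r2
  have hrr1 : σ ^ 2 / ε ≤ σ ^ 2 / ε * Real.sqrt (σ ^ 2 / ε) :=
    le_mul_of_one_le_right (by linarith) hsr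
  have hg21 : 1 ≤ g ^ 2 := one_le_pow₀ hg1
  have hgg : g ≤ g ^ 2 := by rw [sq]; exact le_mul_of_one_le_left (by linarith) hg1
  have hXle : X ≤ X * (σ ^ 2 / ε * Real.sqrt (σ ^ 2 / ε)) :=
    le_mul_of_one_le_right hX0 (r2.trans hrr1)
  have hσX : σ ^ 2 ≤ X := by
    rw [hXX]
    have e1 : 1 ≤ (δ / ε) ^ 2 := one_le_pow₀ r4
    have e2 : σ ^ 2 * 1 ≤ σ ^ 2 * (Q0 + cn / δ ^ 2) :=
      mul_le_mul_of_nonneg_left (by linarith) (sq_nonneg _)
    calc σ ^ 2 = σ ^ 2 * 1 * 1 := by ring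
      _ ≤ _ := mul_le_mul e2 e1 zero_le_one (by positivity)
  -- the conclusions
  have hLpos : (0 : ℝ) < L := by exact_mod_cast Nat.pos_of_ne_zero (NeZero.ne L)
  rw [← hL] at L1 L2
  rw [← hε]
  have hδ12 : δ ≤ 1 / 2 := by
    rw [hδ]
    exact le_half hy1 (by linarith)
  have hθ1 : θ ≤ 1 := by
    rw [hθ]
    have := ee_one_le hy.le hw0.le
    linarith
  have hL3 : Real.exp (3 * y) ≤ L := by
    refine le_trans ?_ L1
    unfold ee
    apply Real.exp_le_exp.2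
    linarith
  have hL14 : (L : ℝ) ≤ Real.exp (((14 : ℕ) : ℝ) * y) := by
    refine L2.trans (le_of_eq ?_)
    unfold ee
    congr 1
    push_cast
    ring
  have hδL : (1 + 4 / δ) ^ 3 ≤ (L : ℝ) ^ 2 := by
    have h1 : 1 + 4 / δ ≤ ee y (-5) := by
      have h2 : 4 / δ ≤ 4 * ee y (-2) := by
        rw [hδ, div_eq_mul_inv, ← ee_neg]
        exact mul_le_mul_of_nonneg_left (ee_anti hy.le (by linarith)) (by norm_num)
      exact (add_le_add le_rfl h2).trans (aux3 hy1)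
    have h0 : 0 ≤ 1 + 4 / δ := by positivity
    calc (1 + 4 / δ) ^ 3 ≤ (ee y (-5)) ^ 3 := pow_le_pow_left₀ h0 h1 3
      _ = ee y (-15) := by
          rw [ee_nat]
          norm_num
      _ ≤ ee y (-24) := ee_anti hy.le (by norm_num)
      _ = (ee y (-12)) ^ 2 := by
          rw [ee_nat]
          norm_num
      _ ≤ (L : ℝ) ^ 2 := pow_le_pow_left₀ (ee_pos _ _).le L1 2
  have hθL : 1 ≤ θ * L := by
    have h1 : ee y w * ee y (-12) ≤ ee y w * L := mul_le_mul_of_nonneg_left L1 (ee_pos _ _).le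
    rw [← ee_add] at h1
    have h2 := two_le hy1 (show w + -12 ≤ -1 by linarith)
    rw [hθ]
    linarith
  have hLε : 1 / (L : ℝ) ≤ ε := by
    have h1 : 1 / (L : ℝ) ≤ ee y 12 := by
      rw [one_div]
      refine (inv_anti₀ (ee_pos _ _) L1).trans (le_of_eq ?_)
      rw [← ee_neg]
      norm_num
    refine h1.trans ?_
    rw [hε', le_div_iff₀ (by positivity)]
    have h2 : ee y 12 * (2 * τ) ≤ ee y 12 * Real.exp y :=
      mul_le_mul_of_nonneg_left hy2 (ee_pos _ _).le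
    refine h2.trans ?_
    have h3 : Real.exp y = ee y (-1) := by
      unfold ee
      congr 1
      ring
    rw [h3, ← ee_add]
    exact ee_anti hy.le (by linarith)
  have hp0 : Real.exp (-((14 : ℕ) : ℝ) * y) ≤ ε ^ 4 := by
    rw [hε', div_pow, le_div_iff₀ (by positivity), ee_nat]
    have h2 : (2 * τ) ^ 4 ≤ (Real.exp y) ^ 4 := pow_le_pow_left₀ (by positivity) hy2 4
    have h3 : Real.exp y = ee y (-1) := by
      unfold ee
      congr 1
      ring
    rw [h3, ee_nat] at h2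
    have h4 : Real.exp (-((14 : ℕ) : ℝ) * y) = ee y 14 := by
      unfold ee
      congr 1
      push_cast
      ring
    rw [h4]
    calc ee y 14 * (2 * τ) ^ 4 ≤ ee y 14 * ee y (((4 : ℕ) : ℝ) * -1) :=
          mul_le_mul_of_nonneg_left h2 (ee_pos _ _).le
      _ = ee y (14 + ((4 : ℕ) : ℝ) * -1) := (ee_add _ _ _).symm
      _ ≤ _ := ee_anti hy.le (by push_cast; linarith)
  obtain ⟨Ω, hΩ, hΩP, hgood⟩ := hy0 y hyy0 L hL3 hL14
  have hlc : 0 ≤ Real.log (1 / ε) := Real.log_nonneg (by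
    rw [le_div_iff₀ hε0]
    linarith)
  subst hL
  refine ⟨δ, θ, Real.exp y / 2, Q0, g, cn, Real.exp (-((14 : ℕ) : ℝ) * y), Ω, fun E => ?_, ?_⟩
  · exact {
      hσ := hσ0
      hε := hε0
      hεδ := hεδ
      ht := by positivity
      hσt := by
        rw [hσ]
        unfold ee
        rw [one_mul, Real.exp_neg]
        have := Real.exp_pos y
        apply le_of_eq
        field_simp
      hQ0 := by linarith
      hQ := fun P hP => by
        have h1 := hqb d (LL σ) hd θ δ E hθ0 hθ1 hδ0 hδ12 hδL P hP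
        have hN := Pool.Agent.W788.MFP.Four.NN_pos (d := d) (L := LL σ)
        refine h1.trans (mul_le_mul_of_nonneg_right ?_ hN.le)
        rw [hQ0]
        linarith
      hg0 := by linarith
      hg := fun E' => by
        have h1 := Pool.Agent.W788.MFP.Dos.green (L := LL σ) d hd E' ε hLε hε2
        have hN := Pool.Agent.W788.MFP.Four.NN_pos (d := d) (L := LL σ)
        rw [inv_mul_le_iff₀ hN, ← hC2] at h1
        refine h1.trans ?_
        rw [mul_comm]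
        refine mul_le_mul_of_nonneg_right ?_ hN.le
        rw [hg]
        exact le_max_right _ _
      hcn := by
        rw [hcn]
        exact hlow d (LL σ) θ hθ0.le hθ1 hθL
      hp0 := (Real.exp_pos _).le
      hΩ := hΩ
      hP := hΩP
      hgood := fun ξ hξ w => by
        have h1 := hgood ξ hξ E w
        have h2 : Real.exp (-(2 - s) * y) = δ := by
          rw [hδ]
          unfold ee
          rw [neg_mul]
        rw [h2] at h1
        exact h1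
      hs := by
        have e1 : 32 * σ ^ 2 * (Q0 + cn / δ ^ 2) * (δ / ε) ^ 2 = 32 * X := by
          rw [hXX]
          ring
        rw [e1]
        have e2 : 32 * X ≤ 471 * X * (σ ^ 2 / ε * Real.sqrt (σ ^ 2 / ε)) * g ^ 2 := by
          calc 32 * X ≤ 471 * X := by linarith
            _ ≤ 471 * (X * (σ ^ 2 / ε * Real.sqrt (σ ^ 2 / ε))) := by linarith
            _ ≤ 471 * (X * (σ ^ 2 / ε * Real.sqrt (σ ^ 2 / ε))) * g ^ 2 :=
                le_mul_of_one_le_right (by positivity) hg21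
            _ = _ := by ring
        linarith }
  · exact {
      hε1 := by linarith
      hεσ := hεσ
      hQ := by linarith
      hg := hg1
      hp := hp0
      hζ := hζ4
      h1 := by
        rw [← hXX]
        refine le_trans ?_ main
        have e1 : X * (σ ^ 2 / ε) ≤ X * (σ ^ 2 / ε * Real.sqrt (σ ^ 2 / ε)) :=
          mul_le_mul_of_nonneg_left hrr1 hX0
        have e2 : 384 * X * (σ ^ 2 / ε) ≤ 471 * X * (σ ^ 2 / ε * Real.sqrt (σ ^ 2 / ε)) := by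
          have e3 : 0 ≤ X * (σ ^ 2 / ε * Real.sqrt (σ ^ 2 / ε)) := mul_nonneg hX0 hr0
          linarith
        exact mul_le_mul_of_nonneg_right e2 (by positivity)
      h2 := by
        rw [← hXX]
        exact main
      h3 := by
        refine le_trans ?_ main
        have e1 : σ ^ 2 ≤ X * (σ ^ 2 / ε * Real.sqrt (σ ^ 2 / ε)) := hσX.trans hXle
        calc 3 * σ ^ 2 * g ≤ 471 * σ ^ 2 * g := by
              have : 0 ≤ σ ^ 2 * g := by positivity
              linarith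
          _ ≤ 471 * (X * (σ ^ 2 / ε * Real.sqrt (σ ^ 2 / ε))) * g ^ 2 := by gcongr
          _ = _ := by ring }

end ScalA

theorem scal (hprob : T_PROB2) (hqb : S_QB) (hlow : S_LOW) : T_SCAL := by
  intro d hd h hh0 hh τ ζ hτ hζ hζ4
  have h1 := ScalA.core hprob hqb hlow d hd h hh0 hh τ ζ hτ hζ hζ4
  have h2 : Tendsto (fun σ : ℝ => -Real.log σ) (𝓝[>] (0 : ℝ)) atTop :=
    tendsto_neg_atBot_atTop.comp Real.tendsto_log_nhdsGT_zero
  filter_upwards [h2.eventually h1, self_mem_nhdsWithin] with σ hσ hσ0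
  have h3 : ScalA.ee (-Real.log σ) 1 = σ := by
    unfold ScalA.ee
    rw [one_mul, neg_neg, Real.exp_log hσ0]
  rw [h3] at hσ
  exact hσ

end Pool.Agent.T2h98.QD
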