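import Pool.Agent.T2h98.QD.Stm8
import Pool.Agent.T2h98.QD.Scal
import Pool.Agent.T2h98.QD.KER

/-! Choice of the parameters for the diffusive limit, with the direct embedding. -/

set_option autoImplicit false
set_option linter.unusedSectionVars false
set_option linter.unusedVariables false

open scoped BigOperators Topology
open MeasureTheory ProbabilityTheory Filter

namespace Pool.Agent.T2h98.QD

open Pool.Agent.W788.MFP.Four (T e NN adj K)
open Pool.Agent.W788.BK (nsq hs PP JJ hi Low S_QB S_LOW)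

namespace ScalB

open ScalA

/-- the gain in the dimension -/
noncomputable def cd (d : ℕ) : ℝ := if d = 3 then 1 else 2

theorem cd_pos (d : ℕ) : 0 < cd d := by
  unfold cd
  split_ifs <;> norm_num

theorem cd_le (d : ℕ) : cd d ≤ 2 := by
  unfold cd
  split_ifs <;> norm_num

/-- the constant of the embedding -/
theorem ke_le {y s : ℝ} (hy : 1 ≤ y) (hs0 : 0 < s) (hs1 : s ≤ 1) (d : ℕ) :
    0 ≤ ke d (ee y (2 - s)) ∧ ke d (ee y (2 - s)) ≤ 128 * y ^ 7 * ee y (-(2 - cd d)) := by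
  have hy0 : 0 ≤ y := by linarith
  have hl : Real.log (1 / ee y (2 - s)) = (2 - s) * y := by
    rw [one_div, Real.log_inv]
    unfold ee
    rw [Real.log_exp]
    ring
  have h7 : 0 ≤ ((2 - s) * y) ^ 7 := pow_nonneg (mul_nonneg (by linarith) hy0) 7
  have h8 : ((2 - s) * y) ^ 7 ≤ 128 * y ^ 7 := by
    calc ((2 - s) * y) ^ 7 ≤ (2 * y) ^ 7 :=
          pow_le_pow_left₀ (mul_nonneg (by linarith) hy0)
            (mul_le_mul_of_nonneg_right (by linarith) hy0) 7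
      _ = 128 * y ^ 7 := by ring
  unfold ke cd
  rw [hl]
  split_ifs with h3
  · have e1 : ee y (2 - s) ^ (-(1 / 2) : ℝ) = ee y (-((2 - s) / 2)) := by
      unfold ee
      rw [← Real.exp_mul]
      congr 1
      ring
    rw [e1]
    have e2 : ee y (-((2 - s) / 2)) ≤ ee y (-(2 - 1)) := ee_anti hy0 (by linarith)
    refine ⟨mul_nonneg (ee_pos _ _).le h7, ?_⟩
    calc ee y (-((2 - s) / 2)) * ((2 - s) * y) ^ 7 ≤ ee y (-(2 - 1)) * (128 * y ^ 7) :=
          mul_le_mul e2 h8 h7 (ee_pos _ _).le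
      _ = _ := by ring
  · rw [show -(2 - 2 : ℝ) = 0 by norm_num, ee_zero]
    refine ⟨by linarith, by linarith⟩

theorem core (hprob : T_PROB2) (hemb : T_EMB) (β : ℝ) (hβ0 : 0 ≤ β) (hβ1 : β ≤ 1 / 2) (d : ℕ)
    (hd : 3 ≤ d) (h : ℝ) (hh0 : 0 < h) (hh : h < cd d / (2 + β)) (τ ζ : ℝ) (hτ : 0 < τ)
    (hζ : 0 < ζ) (hζ4 : ζ ≤ 1 / 4) : ∀ᶠ y in atTop, ∃ (δ t Q g p0 : ℝ)
    (Ω : Set (T d (LL (ee y 1)) → ℝ)),
    (∀ E : ℝ, ParU d (LL (ee y 1)) (ee y 1) E δ (eT h τ (ee y 1)) t Q g p0 Ω) ∧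
      Small2 (ee y 1) (eT h τ (ee y 1)) δ Q g ζ β := by
  obtain ⟨C1, hC1, hemb⟩ := hemb d hd
  have h2β : 0 < 2 + β := by linarith
  obtain ⟨c, hc⟩ : ∃ c : ℝ, c = cd d := ⟨_, rfl⟩
  have hc0 : 0 < c := by rw [hc]; exact cd_pos d
  have hc2 : c ≤ 2 := by rw [hc]; exact cd_le d
  have h7 : (2 + β) * h < c := by
    rw [← hc, lt_div_iff₀ h2β] at hh
    linarith
  have hh1 : h < 1 := by
    by_contra hcon
    push Not at hcon
    nlinarith
  obtain ⟨s, hs⟩ : ∃ s : ℝ, s = min (1 / 100) ((c - (2 + β) * h) / 4) := ⟨_, rfl⟩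
  have hs0 : 0 < s := by
    rw [hs]
    exact lt_min (by norm_num) (by linarith)
  have hs1 : s ≤ 1 / 100 := by rw [hs]; exact min_le_left _ _
  have hs2 : s ≤ (c - (2 + β) * h) / 4 := by rw [hs]; exact min_le_right _ _
  obtain ⟨D, hD⟩ : ∃ D : ℝ, D = c - (2 + β) * h - 2 * s := ⟨_, rfl⟩
  have hD0 : 0 < D := by rw [hD]; linarith
  obtain ⟨C2, hC2⟩ : ∃ C2, C2 = 2 + 8 * Pool.Agent.W788.MFP.Dos.C3 := ⟨_, rfl⟩
  have hC20 : 0 < C2 := by
    rw [hC2]
    unfold Pool.Agent.W788.MFP.Dos.C3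
    norm_num
  obtain ⟨A1, hA1⟩ : ∃ A1 : ℝ, A1 = (1 + 128 * C1) * (2 * τ) ^ 2 := ⟨_, rfl⟩
  obtain ⟨G, hG⟩ : ∃ G : ℝ, G = 1 + 4 * C2 := ⟨_, rfl⟩
  have hA10 : 0 < A1 := by rw [hA1]; positivity
  have hG0 : 0 < G := by rw [hG]; positivity
  obtain ⟨A, hA⟩ : ∃ A : ℝ, A = 10000 * A1 * (2 * τ) ^ β * G ^ 3 := ⟨_, rfl⟩
  obtain ⟨y0, hy01, hy0⟩ := hprob d 24 s hd hs0 hs1
  -- eventual facts
  have ev1 : ∀ᶠ y : ℝ in atTop, 1 ≤ y ∧ y0 ≤ y := (eventually_ge_atTop 1).and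
    (eventually_ge_atTop y0)
  have ev2 : ∀ᶠ y : ℝ in atTop, 2 * τ ≤ Real.exp y :=
    Real.tendsto_exp_atTop.eventually_ge_atTop _
  have ev3 : ∀ᶠ y : ℝ in atTop, (2 * τ)⁻¹ ≤ Real.exp (h * y) :=
    (Real.tendsto_exp_atTop.comp (tendsto_id.const_mul_atTop hh0)).eventually_ge_atTop _
  have ev4 : ∀ᶠ y : ℝ in atTop, A * y ^ 10 * ee y D ≤ ζ := by
    have h1 := Real.tendsto_pow_mul_exp_neg_atTop_nhds_zero 10
    have h2 : Tendsto (fun y : ℝ => D * y) atTop atTop := tendsto_id.const_mul_atTop hD0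
    have h3 := (h1.comp h2).const_mul (A * (D⁻¹) ^ 10)
    rw [mul_zero] at h3
    filter_upwards [h3.eventually (gt_mem_nhds hζ)] with y hy
    simp only [Function.comp_apply] at hy
    have h6 : A * (D⁻¹) ^ 10 * ((D * y) ^ 10 * Real.exp (-(D * y))) =
        A * y ^ 10 * ee y D := by
      unfold ee
      field_simp
    rw [h6] at hy
    exact hy.le
  filter_upwards [ev1, ev2, ev3, ev4] with y hy1 hy2 hy3 hy4
  obtain ⟨hy1, hyy0⟩ := hy1
  have hy : 0 < y := by linarith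
  obtain ⟨L1, L2⟩ := LLb hy1
  obtain ⟨σ, hσ⟩ : ∃ σ, σ = ee y 1 := ⟨_, rfl⟩
  rw [← hσ] at L1 L2 ⊢
  obtain ⟨L, hL⟩ : ∃ L, L = LL σ := ⟨_, rfl⟩
  have hNZ : NeZero L := by rw [hL]; infer_instance
  obtain ⟨ε, hε⟩ : ∃ ε, ε = eT h τ σ := ⟨_, rfl⟩
  obtain ⟨δ, hδ⟩ : ∃ δ, δ = ee y (2 - s) := ⟨_, rfl⟩
  obtain ⟨Q, hQ⟩ : ∃ Q, Q = max 1 (C1 * ke d δ) := ⟨_, rfl⟩
  obtain ⟨g, hg⟩ : ∃ g, g = max 1 (C2 * Real.log (1 / ε)) := ⟨_, rfl⟩
  have hσ0 : 0 < σ := by rw [hσ]; exact ee_pos _ _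
  have hσ1 : σ ≤ 1 := by rw [hσ]; exact ee_one_le hy.le (by norm_num)
  have hδ0 : 0 < δ := by rw [hδ]; exact ee_pos _ _
  have hg1 : 1 ≤ g := by rw [hg]; exact le_max_left _ _
  have hQ1 : 1 ≤ Q := by rw [hQ]; exact le_max_left _ _
  have hσ2 : σ ^ 2 = ee y 2 := by rw [hσ, ee_nat]; norm_num
  have hε' : ε = ee y (2 + h) / (2 * τ) := by
    rw [hε, hσ]
    unfold eT ee
    rw [← Real.exp_mul]
    congr 2
    ring
  have hε0 : 0 < ε := by
    rw [hε']
    have := ee_pos y (2 + h)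
    positivity
  have r1 : σ ^ 2 / ε = 2 * τ * ee y (-h) := by
    rw [hε', hσ2, ee_add, ee_neg]
    have a1 := (ee_pos y 2).ne'
    have a2 := (ee_pos y h).ne'
    field_simp
  have r2 : 1 ≤ σ ^ 2 / ε := by
    rw [r1]
    have e1 : ee y (-h) = Real.exp (h * y) := by
      unfold ee
      congr 1
      ring
    rw [e1]
    have e2 : 2 * τ * (2 * τ)⁻¹ ≤ 2 * τ * Real.exp (h * y) :=
      mul_le_mul_of_nonneg_left hy3 (by positivity)
    rwa [mul_inv_cancel₀ (by positivity)] at e2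
  have hεσ : ε ≤ σ ^ 2 := by rwa [one_le_div₀ hε0] at r2
  have hσ12 : σ ^ 2 ≤ 1 / 2 := by
    rw [hσ2]
    exact le_half hy1 (by norm_num)
  have hε2 : ε ≤ 1 / 2 := hεσ.trans hσ12
  have r3 : δ / ε = 2 * τ * ee y (-(h + s)) := by
    rw [hε', hδ, ee_add, ee_sub, ee_neg, ee_add]
    have a1 := (ee_pos y 2).ne'
    have a2 := (ee_pos y h).ne'
    have a3 := (ee_pos y s).ne'
    field_simp
  have r4 : 1 ≤ δ / ε := by
    rw [r3]
    refine r2.trans ?_
    rw [r1]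
    exact mul_le_mul_of_nonneg_left (ee_anti hy.le (by linarith)) (by positivity)
  have hεδ : ε ≤ δ := by rwa [one_le_div₀ hε0] at r4
  have hσδ : σ ^ 2 ≤ δ := by
    rw [hσ2, hδ]
    exact ee_anti hy.le (by linarith)
  have hlε : Real.log (1 / ε) ≤ 4 * y := by
    have e1 : 1 / ε = ee y (-(2 + h)) * (2 * τ) := by
      rw [hε', ee_neg, one_div, inv_div, div_eq_mul_inv, mul_comm]
    rw [e1, Real.log_mul (ee_pos _ _).ne' (by positivity)]
    unfold ee
    rw [Real.log_exp]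
    have e2 : Real.log (2 * τ) ≤ y := by
      rw [Real.log_le_iff_le_exp (by positivity)]
      exact hy2
    have : h * y ≤ 1 * y := mul_le_mul_of_nonneg_right (by linarith) hy.le
    linarith
  have hgle : g ≤ G * y := by
    rw [hg, hG]
    apply max_le
    · have : 0 ≤ C2 * y := by positivity
      linarith
    · have := mul_le_mul_of_nonneg_left hlε hC20.le
      linarith
  -- Q
  obtain ⟨hk0, hk1⟩ := ke_le (s := s) hy1 hs0 (by linarith) d
  rw [← hδ] at hk0 hk1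
  rw [← hc] at hk1
  have heb : 1 ≤ ee y (-(2 - c)) := by
    have := ee_anti hy.le (show -(2 - c) ≤ 0 by linarith)
    rwa [ee_zero] at this
  have hy7 : 1 ≤ y ^ 7 := one_le_pow₀ hy1
  have hQ2 : Q ≤ (1 + 128 * C1) * y ^ 7 * ee y (-(2 - c)) := by
    have e1 : 1 ≤ y ^ 7 * ee y (-(2 - c)) := one_le_mul_of_one_le_of_one_le hy7 heb
    have e3 := mul_le_mul_of_nonneg_left hk1 hC1.le
    have e4 : 0 ≤ C1 * (128 * y ^ 7 * ee y (-(2 - c))) := by
      have := ee_pos y (-(2 - c))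
      positivity
    have e5 : (1 + 128 * C1) * y ^ 7 * ee y (-(2 - c)) =
        y ^ 7 * ee y (-(2 - c)) + C1 * (128 * y ^ 7 * ee y (-(2 - c))) := by ring
    rw [hQ, e5]
    apply max_le
    · linarith
    · linarith
  have hQpos : 0 < Q := by linarith
  -- X
  have hX : σ ^ 2 * Q * (δ / ε) ^ 2 ≤ A1 * y ^ 7 * ee y (c - 2 * (h + s)) := by
    have e1 : c - 2 * (h + s) = 2 + -(2 - c) + (-(h + s) + -(h + s)) := by ring
    rw [r3, hσ2, e1, ee_add, ee_add, ee_add, hA1]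
    calc ee y 2 * Q * (2 * τ * ee y (-(h + s))) ^ 2
        ≤ ee y 2 * ((1 + 128 * C1) * y ^ 7 * ee y (-(2 - c))) *
          (2 * τ * ee y (-(h + s))) ^ 2 := by
          have := ee_pos y 2
          gcongr
      _ = _ := by ring
  have hX0 : 0 ≤ σ ^ 2 * Q * (δ / ε) ^ 2 := by positivity
  obtain ⟨X, hXX⟩ : ∃ X, X = σ ^ 2 * Q * (δ / ε) ^ 2 := ⟨_, rfl⟩
  rw [← hXX] at hX hX0
  have hrβ : (σ ^ 2 / ε) ^ β = (2 * τ) ^ β * ee y (-(β * h)) := by
    rw [r1, Real.mul_rpow (by positivity) (ee_pos _ _).le]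
    congr 1
    unfold ee
    rw [← Real.exp_mul]
    congr 1
    ring
  have hrβ1 : 1 ≤ (σ ^ 2 / ε) ^ β := Real.one_le_rpow r2 hβ0
  have main : 10000 * X * (σ ^ 2 / ε) ^ β * g ^ 3 ≤ ζ := by
    refine le_trans ?_ hy4
    have e1 : D = (c - 2 * (h + s)) + -(β * h) := by rw [hD]; ring
    have hg2 : g ^ 3 ≤ (G * y) ^ 3 := pow_le_pow_left₀ (by linarith) hgle 3
    calc 10000 * X * (σ ^ 2 / ε) ^ β * g ^ 3
        ≤ 10000 * (A1 * y ^ 7 * ee y (c - 2 * (h + s))) * (σ ^ 2 / ε) ^ β * (G * y) ^ 3 := by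
          have := ee_pos y (c - 2 * (h + s))
          gcongr
      _ = A * y ^ 10 * ee y D := by
          rw [hrβ, e1, ee_add, hA]
          ring
  have hg31 : 1 ≤ g ^ 3 := one_le_pow₀ hg1
  have hgg : g ≤ g ^ 3 := by
    calc g = g * 1 := by ring
      _ ≤ g * g ^ 2 := mul_le_mul_of_nonneg_left (one_le_pow₀ hg1) (by linarith)
      _ = g ^ 3 := by ring
  have hXle : X ≤ X * (σ ^ 2 / ε) ^ β := le_mul_of_one_le_right hX0 hrβ1
  have hσX : σ ^ 2 ≤ X := by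
    rw [hXX]
    have e1 : 1 ≤ (δ / ε) ^ 2 := one_le_pow₀ r4
    have e2 : σ ^ 2 * 1 ≤ σ ^ 2 * Q :=
      mul_le_mul_of_nonneg_left (by linarith) (sq_nonneg _)
    calc σ ^ 2 = σ ^ 2 * 1 * 1 := by ring
      _ ≤ _ := mul_le_mul e2 e1 zero_le_one (by positivity)
  -- the conclusions
  have hLpos : (0 : ℝ) < L := by exact_mod_cast Nat.pos_of_ne_zero (NeZero.ne L)
  rw [← hL] at L1 L2
  rw [← hε]
  have hδ12 : δ ≤ 1 / 2 := by
    rw [hδ]
    exact le_half hy1 (by linarith)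
  have hL3 : Real.exp (3 * y) ≤ L := by
    refine le_trans ?_ L1
    unfold ee
    apply Real.exp_le_exp.2
    linarith
  have hL14 : (L : ℝ) ≤ Real.exp (((24 : ℕ) : ℝ) * y) := by
    refine L2.trans ?_
    unfold ee
    apply Real.exp_le_exp.2
    push_cast
    linarith
  have hδL : 1 / δ ^ 2 ≤ (L : ℝ) := by
    refine le_trans ?_ L1
    rw [one_div, hδ, ee_nat, ← ee_neg]
    apply ee_anti hy.le
    push_cast
    linarith
  have hLε : 1 / (L : ℝ) ≤ ε := by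
    have h1 : 1 / (L : ℝ) ≤ ee y 12 := by
      rw [one_div]
      refine (inv_anti₀ (ee_pos _ _) L1).trans (le_of_eq ?_)
      rw [← ee_neg]
      norm_num
    refine h1.trans ?_
    rw [hε', le_div_iff₀ (by positivity)]
    have h2 : ee y 12 * (2 * τ) ≤ ee y 12 * Real.exp y :=
      mul_le_mul_of_nonneg_left hy2 (ee_pos _ _).le
    refine h2.trans ?_
    have h3 : Real.exp y = ee y (-1) := by
      unfold ee
      congr 1
      ring
    rw [h3, ← ee_add]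
    exact ee_anti hy.le (by linarith)
  have hp0 : Real.exp (-((24 : ℕ) : ℝ) * y) ≤ ε ^ 6 := by
    rw [hε', div_pow, le_div_iff₀ (by positivity), ee_nat]
    have h2 : (2 * τ) ^ 6 ≤ (Real.exp y) ^ 6 := pow_le_pow_left₀ (by positivity) hy2 6
    have h3 : Real.exp y = ee y (-1) := by
      unfold ee
      congr 1
      ring
    rw [h3, ee_nat] at h2
    have h4 : Real.exp (-((24 : ℕ) : ℝ) * y) = ee y 24 := by
      unfold ee
      congr 1
      push_cast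
      ring
    rw [h4]
    calc ee y 24 * (2 * τ) ^ 6 ≤ ee y 24 * ee y (((6 : ℕ) : ℝ) * -1) :=
          mul_le_mul_of_nonneg_left h2 (ee_pos _ _).le
      _ = ee y (24 + ((6 : ℕ) : ℝ) * -1) := (ee_add _ _ _).symm
      _ ≤ _ := ee_anti hy.le (by push_cast; linarith)
  obtain ⟨Ω, hΩ, hΩP, hgood⟩ := hy0 y hyy0 L hL3 hL14
  subst hL
  refine ⟨δ, Real.exp y / 2, Q, g, Real.exp (-((24 : ℕ) : ℝ) * y), Ω, fun E => ?_, ?_⟩
  · exact {
      hσ := hσ0
      hσ1 := hσ1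
      hε := hε0
      hεδ := hεδ
      hδ1 := by linarith
      ht := by positivity
      hσt := by
        rw [hσ]
        unfold ee
        rw [one_mul, Real.exp_neg]
        have := Real.exp_pos y
        apply le_of_eq
        field_simp
      hQ1 := hQ1
      hQ := fun a b => by
        refine (hemb (LL σ) E δ hδ0 hδ12 hδL a b).trans ?_
        have h1 : ∀ w : T d (LL σ) → ℂ, 0 ≤ qf (J0 E δ) w := fun w =>
          (mul_nonneg hδ0.le (Pool.Agent.W788.BK.nsq_nonneg w)).trans (KERS.nsq_le hδ0 w)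
        refine mul_le_mul_of_nonneg_right ?_ (mul_nonneg (h1 a) (h1 b))
        rw [hQ]
        exact le_max_right _ _
      hg1 := hg1
      hg := fun E' => by
        have h1 := Pool.Agent.W788.MFP.Dos.green (L := LL σ) d hd E' ε hLε hε2
        have hN := Pool.Agent.W788.MFP.Four.NN_pos (d := d) (L := LL σ)
        rw [inv_mul_le_iff₀ hN, ← hC2] at h1
        refine h1.trans ?_
        rw [mul_comm]
        refine mul_le_mul_of_nonneg_right ?_ hN.le
        rw [hg]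
        exact le_max_right _ _
      hp0 := (Real.exp_pos _).le
      hp := hp0
      hΩ := hΩ
      hP := hΩP
      hgood := fun ξ hξ w => by
        have h1 := hgood ξ hξ E w
        have h2 : Real.exp (-(2 - s) * y) = δ := by
          rw [hδ]
          unfold ee
          rw [neg_mul]
        rw [h2] at h1
        exact h1 }
  · exact {
      hεσ := hεσ
      hσδ := hσδ
      hζ := hζ4
      h1 := by
        rw [← hXX]
        exact main
      h3 := by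
        refine le_trans ?_ main
        have e1 : σ ^ 2 ≤ X * (σ ^ 2 / ε) ^ β := hσX.trans hXle
        calc 3 * σ ^ 2 * g ≤ 10000 * σ ^ 2 * g := by
              have : 0 ≤ σ ^ 2 * g := by positivity
              linarith
          _ ≤ 10000 * (X * (σ ^ 2 / ε) ^ β) * g ^ 3 := by gcongr
          _ = _ := by ring }

end ScalB

theorem scal2 (hprob : T_PROB2) (hemb : T_EMB) : T_SCAL2 := by
  intro β hβ0 hβ1 d hd h hh0 hh τ ζ hτ hζ hζ4
  have h1 := ScalB.core hprob hemb β hβ0 hβ1 d hd h hh0 hh τ ζ hτ hζ hζ4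
  have h2 : Tendsto (fun σ : ℝ => -Real.log σ) (𝓝[>] (0 : ℝ)) atTop :=
    tendsto_neg_atBot_atTop.comp Real.tendsto_log_nhdsGT_zero
  filter_upwards [h2.eventually h1, self_mem_nhdsWithin] with σ hσ hσ0
  have h3 : ScalA.ee (-Real.log σ) 1 = σ := by
    unfold ScalA.ee
    rw [one_mul, neg_neg, Real.exp_log hσ0]
  rw [h3] at hσ
  exact hσ

end Pool.Agent.T2h98.QD
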