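import Pool.Agent.T2h98.QD.Stm12
import Pool.Agent.T2h98.QD.Scal2

/-! Choice of the parameters, small tori. -/

set_option autoImplicit false
set_option linter.unusedSectionVars false
set_option linter.unusedVariables false

open scoped BigOperators Topology
open MeasureTheory ProbabilityTheory Filter

namespace Pool.Agent.T2h98.QD

open Pool.Agent.W788.MFP.Four (T e NN adj K)
open Pool.Agent.W788.BK (nsq hs PP JJ hi Low S_QB S_LOW)

namespace ScalC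

open ScalA ScalB

theorem JJ_mono {d L : ℕ} [NeZero L] {E x Γ : ℝ} (hx : 0 < x) (h : x ≤ Γ) (k : T d L) :
    (JJ E Γ k)⁻¹ ≤ (JJ E x k)⁻¹ := by
  unfold JJ
  apply inv_anti₀ (Real.sqrt_pos.2 (by positivity))
  apply Real.sqrt_le_sqrt
  have : x ^ 2 ≤ Γ ^ 2 := pow_le_pow_left₀ hx.le h 2
  linarith

theorem core (hprob : T_PROB3) (hemb : T_EMB3) (β : ℝ) (hβ0 : 0 ≤ β) (hβ1 : β ≤ 1 / 2) (d : ℕ)
    (hd : 3 ≤ d) (h : ℝ) (hh0 : 0 < h) (hh : h < cd d / (2 + β)) (a : ℝ) (ha : 0 < a)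
    (m0 ζ : ℝ) (hm0 : 0 < m0) (hζ : 0 < ζ) (hζ4 : ζ ≤ 1 / 4) : ∀ᶠ y in atTop,
    ∀ (L : ℕ) [NeZero L], ee y (-2 - a) ≤ (L : ℝ) → (L : ℝ) ≤ ee y (-13) →
    ∃ (δ t Q g p0 : ℝ) (Ω : Set (T d L → ℝ)),
    (∀ E' Γ : ℝ, m0 * ee y 1 ^ 2 ≤ Γ → ∑ k : T d L, (JJ E' Γ k)⁻¹ ≤ g * NN d L) ∧
    ∀ ε : ℝ, ee y (2 + h) ≤ ε → ε ≤ ee y 1 ^ 2 →
      (∀ E : ℝ, ParV d L (ee y 1) E δ ε t Q g p0 Ω) ∧ Small2 (ee y 1) ε δ Q g ζ β := by
  obtain ⟨C1, hC1, hemb⟩ := hemb d hd (a / 2) (by positivity)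
  have h2β : 0 < 2 + β := by linarith
  obtain ⟨c, hc⟩ : ∃ c : ℝ, c = cd d := ⟨_, rfl⟩
  have hc0 : 0 < c := by rw [hc]; exact cd_pos d
  have hc2 : c ≤ 2 := by rw [hc]; exact cd_le d
  have h7 : (2 + β) * h < c := by
    rw [← hc, lt_div_iff₀ h2β] at hh
    linarith
  have hh1 : h < 1 := by
    by_contra hcon
    push Not at hcon
    nlinarith
  obtain ⟨s, hs⟩ : ∃ s : ℝ, s = min (1 / 100) ((c - (2 + β) * h) / 4) := ⟨_, rfl⟩
  have hs0 : 0 < s := by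
    rw [hs]
    exact lt_min (by norm_num) (by linarith)
  have hs1 : s ≤ 1 / 100 := by rw [hs]; exact min_le_left _ _
  have hs2 : s ≤ (c - (2 + β) * h) / 4 := by rw [hs]; exact min_le_right _ _
  obtain ⟨D, hD⟩ : ∃ D : ℝ, D = c - (2 + β) * h - 2 * s := ⟨_, rfl⟩
  have hD0 : 0 < D := by rw [hD]; linarith
  obtain ⟨C2, hC2⟩ : ∃ C2, C2 = 2 + 8 * Pool.Agent.W788.MFP.Dos.C3 := ⟨_, rfl⟩
  have hC20 : 0 < C2 := by
    rw [hC2]
    unfold Pool.Agent.W788.MFP.Dos.C3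
    norm_num
  obtain ⟨m1, hm1⟩ : ∃ m1 : ℝ, m1 = min 1 m0 := ⟨_, rfl⟩
  have hm10 : 0 < m1 := by rw [hm1]; exact lt_min one_pos hm0
  have hm11 : m1 ≤ 1 := by rw [hm1]; exact min_le_left _ _
  have hm12 : m1 ≤ m0 := by rw [hm1]; exact min_le_right _ _
  obtain ⟨A1, hA1⟩ : ∃ A1 : ℝ, A1 = 1 + 128 * C1 := ⟨_, rfl⟩
  obtain ⟨G, hG⟩ : ∃ G : ℝ, G = 1 + 3 * C2 := ⟨_, rfl⟩
  have hA10 : 0 < A1 := by rw [hA1]; positivity
  have hG0 : 0 < G := by rw [hG]; positivity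
  obtain ⟨A, hA⟩ : ∃ A : ℝ, A = 10000 * A1 * G ^ 3 := ⟨_, rfl⟩
  obtain ⟨y0, hy01, hy0⟩ := hprob d 24 s hd hs0 hs1
  -- eventual facts
  have ev1 : ∀ᶠ y : ℝ in atTop, 1 ≤ y ∧ y0 ≤ y := (eventually_ge_atTop 1).and
    (eventually_ge_atTop y0)
  have ev2 : ∀ᶠ y : ℝ in atTop, m1⁻¹ ≤ Real.exp (min 1 a * y) :=
    (Real.tendsto_exp_atTop.comp (tendsto_id.const_mul_atTop
      (lt_min one_pos ha))).eventually_ge_atTop _
  have ev4 : ∀ᶠ y : ℝ in atTop, A * y ^ 10 * ee y D ≤ ζ := by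
    have h1 := Real.tendsto_pow_mul_exp_neg_atTop_nhds_zero 10
    have h2 : Tendsto (fun y : ℝ => D * y) atTop atTop := tendsto_id.const_mul_atTop hD0
    have h3 := (h1.comp h2).const_mul (A * (D⁻¹) ^ 10)
    rw [mul_zero] at h3
    filter_upwards [h3.eventually (gt_mem_nhds hζ)] with y hy
    simp only [Function.comp_apply] at hy
    have h6 : A * (D⁻¹) ^ 10 * ((D * y) ^ 10 * Real.exp (-(D * y))) =
        A * y ^ 10 * ee y D := by
      unfold ee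
      field_simp
    rw [h6] at hy
    exact hy.le
  filter_upwards [ev1, ev2, ev4] with y hy1 hy2 hy4
  obtain ⟨hy1, hyy0⟩ := hy1
  have hy : 0 < y := by linarith
  intro L hNZ L1 L2
  obtain ⟨σ, hσ⟩ : ∃ σ, σ = ee y 1 := ⟨_, rfl⟩
  rw [← hσ]
  obtain ⟨δ, hδ⟩ : ∃ δ, δ = ee y (2 - s) := ⟨_, rfl⟩
  obtain ⟨Q, hQ⟩ : ∃ Q, Q = max 1 (C1 * ke d δ) := ⟨_, rfl⟩
  have hσ0 : 0 < σ := by rw [hσ]; exact ee_pos _ _
  have hσ1 : σ ≤ 1 := by rw [hσ]; exact ee_one_le hy.le (by norm_num)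
  have hδ0 : 0 < δ := by rw [hδ]; exact ee_pos _ _
  have hσ2 : σ ^ 2 = ee y 2 := by rw [hσ, ee_nat]; norm_num
  have hσ20 : 0 < σ ^ 2 := by positivity
  obtain ⟨x, hx⟩ : ∃ x, x = m1 * σ ^ 2 := ⟨_, rfl⟩
  have hx0 : 0 < x := by rw [hx]; positivity
  have hσ12 : σ ^ 2 ≤ 1 / 2 := by
    rw [hσ2]
    exact le_half hy1 (by norm_num)
  have hxσ : x ≤ σ ^ 2 := by
    rw [hx]
    exact mul_le_of_le_one_left hσ20.le hm11
  obtain ⟨g, hg⟩ : ∃ g, g = max 1 (C2 * Real.log (1 / x)) := ⟨_, rfl⟩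
  have hg1 : 1 ≤ g := by rw [hg]; exact le_max_left _ _
  have hQ1 : 1 ≤ Q := by rw [hQ]; exact le_max_left _ _
  have hσδ : σ ^ 2 ≤ δ := by
    rw [hσ2, hδ]
    exact ee_anti hy.le (by linarith)
  have hexp1 : Real.exp (min 1 a * y) ≤ Real.exp y := by
    apply Real.exp_le_exp.2
    have := mul_le_mul_of_nonneg_right (min_le_left 1 a) hy.le
    linarith
  have hexp2 : Real.exp (min 1 a * y) ≤ ee y (-a) := by
    unfold ee
    apply Real.exp_le_exp.2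
    have := mul_le_mul_of_nonneg_right (min_le_right 1 a) hy.le
    linarith
  have hlx : Real.log (1 / x) ≤ 3 * y := by
    have e1 : 1 / x = m1⁻¹ * ee y (-2) := by
      rw [hx, hσ2, ee_neg, one_div, mul_inv]
    rw [e1, Real.log_mul (by positivity) (ee_pos _ _).ne']
    have e2 : Real.log m1⁻¹ ≤ y := by
      rw [Real.log_le_iff_le_exp (by positivity)]
      exact hy2.trans hexp1
    have e3 : Real.log (ee y (-2)) = 2 * y := by
      unfold ee
      rw [Real.log_exp]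
      ring
    linarith
  have hgle : g ≤ G * y := by
    rw [hg, hG]
    apply max_le
    · have : 0 ≤ C2 * y := by positivity
      linarith
    · have := mul_le_mul_of_nonneg_left hlx hC20.le
      linarith
  have hLpos : (0 : ℝ) < L := by exact_mod_cast Nat.pos_of_ne_zero (NeZero.ne L)
  have hLx : 1 / (L : ℝ) ≤ x := by
    have h1 : 1 / (L : ℝ) ≤ ee y (2 + a) := by
      rw [one_div]
      refine (inv_anti₀ (ee_pos _ _) L1).trans (le_of_eq ?_)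
      rw [← ee_neg]
      congr 1
      ring
    refine h1.trans ?_
    rw [hx, hσ2, ee_add, mul_comm m1]
    apply mul_le_mul_of_nonneg_left _ (ee_pos _ _).le
    have h3 := inv_anti₀ (by positivity) (hy2.trans hexp2)
    rw [inv_inv, ← ee_neg, neg_neg] at h3
    exact h3
  have hgreen : ∀ E' Γ : ℝ, x ≤ Γ → ∑ k : T d L, (JJ E' Γ k)⁻¹ ≤ g * NN d L := by
    intro E' Γ hΓ
    have h1 := Pool.Agent.W788.MFP.Dos.green (L := L) d hd E' x hLx (hxσ.trans hσ12)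
    have hN := Pool.Agent.W788.MFP.Four.NN_pos (d := d) (L := L)
    rw [inv_mul_le_iff₀ hN, ← hC2] at h1
    calc ∑ k : T d L, (JJ E' Γ k)⁻¹ ≤ ∑ k : T d L, (JJ E' x k)⁻¹ :=
          Finset.sum_le_sum fun k _ => JJ_mono hx0 hΓ k
      _ ≤ _ := h1
      _ ≤ _ := by
        rw [mul_comm]
        refine mul_le_mul_of_nonneg_right ?_ hN.le
        rw [hg]
        exact le_max_right _ _
  -- Q
  obtain ⟨hk0, hk1⟩ := ke_le (s := s) hy1 hs0 (by linarith) d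
  rw [← hδ] at hk0 hk1
  rw [← hc] at hk1
  have heb : 1 ≤ ee y (-(2 - c)) := by
    have := ee_anti hy.le (show -(2 - c) ≤ 0 by linarith)
    rwa [ee_zero] at this
  have hy7 : 1 ≤ y ^ 7 := one_le_pow₀ hy1
  have hQ2 : Q ≤ (1 + 128 * C1) * y ^ 7 * ee y (-(2 - c)) := by
    have e1 : 1 ≤ y ^ 7 * ee y (-(2 - c)) := one_le_mul_of_one_le_of_one_le hy7 heb
    have e3 := mul_le_mul_of_nonneg_left hk1 hC1.le
    have e4 : 0 ≤ C1 * (128 * y ^ 7 * ee y (-(2 - c))) := by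
      have := ee_pos y (-(2 - c))
      positivity
    have e5 : (1 + 128 * C1) * y ^ 7 * ee y (-(2 - c)) =
        y ^ 7 * ee y (-(2 - c)) + C1 * (128 * y ^ 7 * ee y (-(2 - c))) := by ring
    rw [hQ, e5]
    apply max_le
    · linarith
    · linarith
  have hQpos : 0 < Q := by linarith
  have hδ12 : δ ≤ 1 / 2 := by
    rw [hδ]
    exact le_half hy1 (by linarith)
  have hL3 : Real.exp ((2 - s) * y) ≤ L := by
    refine le_trans ?_ L1
    unfold ee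
    apply Real.exp_le_exp.2
    have : 0 ≤ (a + s) * y := by positivity
    linarith
  have hL14 : (L : ℝ) ≤ Real.exp (((24 : ℕ) : ℝ) * y) := by
    refine L2.trans ?_
    unfold ee
    apply Real.exp_le_exp.2
    push_cast
    linarith
  have hδL : (1 / δ) ^ (1 + a / 2) ≤ (L : ℝ) := by
    refine le_trans ?_ L1
    rw [one_div, hδ, ← ee_neg]
    unfold ee
    rw [← Real.exp_mul]
    apply Real.exp_le_exp.2
    have : 0 ≤ s * (1 + a / 2) * y := by positivity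
    linarith
  obtain ⟨Ω, hΩ, hΩP, hgood⟩ := hy0 y hyy0 L hL3 hL14
  refine ⟨δ, Real.exp y / 2, Q, g, Real.exp (-((24 : ℕ) : ℝ) * y), Ω, fun E' Γ hΓ =>
    hgreen E' Γ (le_trans ?_ hΓ), fun ε hε1 hεσ => ?_⟩
  · rw [hx]
    exact mul_le_mul_of_nonneg_right hm12 hσ20.le
  have hε0 : 0 < ε := lt_of_lt_of_le (ee_pos _ _) hε1
  have r1 : σ ^ 2 / ε ≤ ee y (-h) := by
    rw [div_le_iff₀ hε0, hσ2]
    calc ee y 2 = ee y (-h) * ee y (2 + h) := by
          rw [← ee_add]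
          congr 1
          ring
      _ ≤ _ := mul_le_mul_of_nonneg_left hε1 (ee_pos _ _).le
  have r2 : 1 ≤ σ ^ 2 / ε := by rwa [one_le_div₀ hε0]
  have r3 : δ / ε ≤ ee y (-(h + s)) := by
    rw [div_le_iff₀ hε0, hδ]
    calc ee y (2 - s) = ee y (-(h + s)) * ee y (2 + h) := by
          rw [← ee_add]
          congr 1
          ring
      _ ≤ _ := mul_le_mul_of_nonneg_left hε1 (ee_pos _ _).le
  have hεδ : ε ≤ δ := hεσ.trans hσδ
  have r4 : 1 ≤ δ / ε := by rwa [one_le_div₀ hε0]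
  -- X
  have hX : σ ^ 2 * Q * (δ / ε) ^ 2 ≤ A1 * y ^ 7 * ee y (c - 2 * (h + s)) := by
    have e1 : c - 2 * (h + s) = 2 + -(2 - c) + (-(h + s) + -(h + s)) := by ring
    rw [hσ2, e1, ee_add, ee_add, ee_add, hA1]
    calc ee y 2 * Q * (δ / ε) ^ 2
        ≤ ee y 2 * ((1 + 128 * C1) * y ^ 7 * ee y (-(2 - c))) *
          (ee y (-(h + s))) ^ 2 := by
          have := ee_pos y 2
          gcongr
      _ = _ := by ring
  have hX0 : 0 ≤ σ ^ 2 * Q * (δ / ε) ^ 2 := by positivity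
  obtain ⟨X, hXX⟩ : ∃ X, X = σ ^ 2 * Q * (δ / ε) ^ 2 := ⟨_, rfl⟩
  rw [← hXX] at hX hX0
  have hrβ : (σ ^ 2 / ε) ^ β ≤ ee y (-(β * h)) := by
    calc (σ ^ 2 / ε) ^ β ≤ (ee y (-h)) ^ β := Real.rpow_le_rpow (by positivity) r1 hβ0
      _ = _ := by
        unfold ee
        rw [← Real.exp_mul]
        congr 1
        ring
  have hrβ1 : 1 ≤ (σ ^ 2 / ε) ^ β := Real.one_le_rpow r2 hβ0
  have main : 10000 * X * (σ ^ 2 / ε) ^ β * g ^ 3 ≤ ζ := by
    refine le_trans ?_ hy4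
    have e1 : D = (c - 2 * (h + s)) + -(β * h) := by rw [hD]; ring
    have hg2 : g ^ 3 ≤ (G * y) ^ 3 := pow_le_pow_left₀ (by linarith) hgle 3
    calc 10000 * X * (σ ^ 2 / ε) ^ β * g ^ 3
        ≤ 10000 * (A1 * y ^ 7 * ee y (c - 2 * (h + s))) * ee y (-(β * h)) * (G * y) ^ 3 := by
          have := ee_pos y (c - 2 * (h + s))
          have := ee_pos y (-(β * h))
          gcongr
      _ = A * y ^ 10 * ee y D := by
          rw [e1, ee_add, hA]
          ring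
  have hg31 : 1 ≤ g ^ 3 := one_le_pow₀ hg1
  have hgg : g ≤ g ^ 3 := by
    calc g = g * 1 := by ring
      _ ≤ g * g ^ 2 := mul_le_mul_of_nonneg_left (one_le_pow₀ hg1) (by linarith)
      _ = g ^ 3 := by ring
  have hXle : X ≤ X * (σ ^ 2 / ε) ^ β := le_mul_of_one_le_right hX0 hrβ1
  have hσX : σ ^ 2 ≤ X := by
    rw [hXX]
    have e1 : 1 ≤ (δ / ε) ^ 2 := one_le_pow₀ r4
    have e2 : σ ^ 2 * 1 ≤ σ ^ 2 * Q :=
      mul_le_mul_of_nonneg_left (by linarith) (sq_nonneg _)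
    calc σ ^ 2 = σ ^ 2 * 1 * 1 := by ring
      _ ≤ _ := mul_le_mul e2 e1 zero_le_one (by positivity)
  have hp0 : Real.exp (-((24 : ℕ) : ℝ) * y) ≤ ε ^ 6 := by
    have h4 : Real.exp (-((24 : ℕ) : ℝ) * y) = ee y 24 := by
      unfold ee
      congr 1
      push_cast
      ring
    rw [h4]
    calc ee y 24 ≤ ee y (((6 : ℕ) : ℝ) * (2 + h)) := ee_anti hy.le (by push_cast; linarith)
      _ = ee y (2 + h) ^ 6 := (ee_nat _ _ _).symm
      _ ≤ ε ^ 6 := pow_le_pow_left₀ (ee_pos _ _).le hε1 6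
  refine ⟨fun E => ?_, ?_⟩
  · exact {
      hσ := hσ0
      hσ1 := hσ1
      hε := hε0
      hεδ := hεδ
      hδ1 := by linarith
      ht := by positivity
      hσt := by
        rw [hσ]
        unfold ee
        rw [one_mul, Real.exp_neg]
        have := Real.exp_pos y
        apply le_of_eq
        field_simp
      hQ1 := hQ1
      hQ := fun a b => by
        refine (hemb L E δ hδ0 hδ12 hδL a b).trans ?_
        have h1 : ∀ w : T d L → ℂ, 0 ≤ qf (J0 E δ) w := fun w =>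
          (mul_nonneg hδ0.le (Pool.Agent.W788.BK.nsq_nonneg w)).trans (KERS.nsq_le hδ0 w)
        refine mul_le_mul_of_nonneg_right ?_ (mul_nonneg (h1 a) (h1 b))
        rw [hQ]
        exact le_max_right _ _
      hg1 := hg1
      hg := fun E' => hgreen E' δ (hxσ.trans hσδ)
      hp0 := (Real.exp_pos _).le
      hp := hp0
      hΩ := hΩ
      hP := hΩP
      hgood := fun ξ hξ w => by
        have h1 := hgood ξ hξ E w
        have h2 : Real.exp (-(2 - s) * y) = δ := by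
          rw [hδ]
          unfold ee
          rw [neg_mul]
        rw [h2] at h1
        exact h1 }
  · exact {
      hεσ := hεσ
      hσδ := hσδ
      hζ := hζ4
      h1 := by
        rw [← hXX]
        exact main
      h3 := by
        refine le_trans ?_ main
        have e1 : σ ^ 2 ≤ X * (σ ^ 2 / ε) ^ β := hσX.trans hXle
        calc 3 * σ ^ 2 * g ≤ 10000 * σ ^ 2 * g := by
              have : 0 ≤ σ ^ 2 * g := by positivity
              linarith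
          _ ≤ 10000 * (X * (σ ^ 2 / ε) ^ β) * g ^ 3 := by gcongr
          _ = _ := by ring }

end ScalC

theorem scal3 (hprob : T_PROB3) (hemb : T_EMB3) : T_SCAL3 := by
  intro β hβ0 hβ1 d hd h hh0 hh a ha m0 ζ hm0 hζ hζ4
  have h1 := ScalC.core hprob hemb β hβ0 hβ1 d hd h hh0 hh a ha m0 ζ hm0 hζ hζ4
  have h2 : Tendsto (fun σ : ℝ => -Real.log σ) (𝓝[>] (0 : ℝ)) atTop :=
    tendsto_neg_atBot_atTop.comp Real.tendsto_log_nhdsGT_zero
  filter_upwards [h2.eventually h1, self_mem_nhdsWithin] with σ hσ hσ0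
  have h3 : ∀ p : ℝ, ScalA.ee (-Real.log σ) p = σ ^ p := by
    intro p
    unfold ScalA.ee
    rw [Real.rpow_def_of_pos hσ0]
    congr 1
    ring
  simp only [h3, Real.rpow_one] at hσ
  exact hσ

end Pool.Agent.T2h98.QD
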