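import Pool.Agent.T2h98.QD.Stm12

/-! The resolvent on small tori (as `TX`, `TX2`, `TX3`, `TX4`, with `hg` at the scale `δ`). -/

set_option autoImplicit false
set_option linter.unusedSectionVars false

open scoped BigOperators Matrix
open MeasureTheory ProbabilityTheory

namespace Pool.Agent.T2h98.QD

open Pool.Agent.W788.MFP.Four (T e NN adj K)
open Pool.Agent.W788.BK (nsq hs PP JJ hi Low cr nsq_nonneg cs_norm)
open Pool.Agent.W240.BK (BC BM)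

variable {d L : ℕ} [NeZero L]

theorem Bf_le3 {E' Γ g : ℝ} (hg : ∑ k : T d L, (JJ E' Γ k)⁻¹ ≤ g * NN d L) :
    ‖((NN d L : ℝ) : ℂ)⁻¹ * ∑ k : T d L, (Yk E' Γ k)⁻¹‖ ≤ g := by
  have hN := Pool.Agent.W788.MFP.Four.NN_pos (d := d) (L := L)
  rw [norm_mul, norm_inv, Complex.norm_real, Real.norm_of_nonneg hN.le, inv_mul_le_iff₀ hN,
    mul_comm]
  refine (norm_sum_le _ _).trans (le_trans (Finset.sum_le_sum fun k _ => ?_) hg)
  rw [norm_inv, Yk_norm]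

section par

variable {σ E δ ε t Q g p0 ζ β : ℝ} {Ω : Set (T d L → ℝ)}

theorem ParV.hδ (p : ParV d L σ E δ ε t Q g p0 Ω) : 0 < δ := p.hε.trans_le p.hεδ

theorem ParV.tru (hrqf : T_RQF) (p : ParV d L σ E δ ε t Q g p0 Ω) :
    Tru (h0 (d := d) (L := L) E) (J0 E δ) (J1 E δ) σ ε δ Q g p0 Ω := by
  have hN := Pool.Agent.W788.MFP.Four.NN_pos (d := d) (L := L)
  have hδ := p.hδ
  have hJ : ∀ k : T d L, 0 < JJ E δ k := fun k => lt_of_lt_of_le hδ (JJ_ge E δ hδ k)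
  exact {
    hh := by
      unfold h0 Matrix.IsHermitian
      rw [mo_star]
      congr 1
      funext k
      rw [Complex.conj_ofReal]
    hσ := p.hσ
    hε := p.hε
    hεδ := p.hεδ
    hQ0 := by linarith [p.hQ1]
    hg0 := by linarith [p.hg1]
    hp0 := p.hp0
    hJ0 := fun w => by
      unfold J0
      rw [KQ.qf_Mo]
      exact mul_nonneg (by positivity) (Finset.sum_nonneg fun k _ =>
        mul_nonneg (hJ k).le (by positivity))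
    hQ := p.hQ
    hΩ := p.hΩ
    hP := p.hP
    hR := fun V hV b => hrqf d L E δ ε t σ hδ p.hε p.ht p.hσ.le p.hσt V (p.hgood V hV) b
    hJ'0 := fun w => by
      unfold J1
      rw [KQ.qf_Mo]
      exact mul_nonneg (by positivity) (Finset.sum_nonneg fun k _ =>
        mul_nonneg (inv_nonneg.2 (hJ k).le) (by positivity))
    hJ' := fun w => by
      unfold J1
      rw [KQ.qf_Mo, nsq_fc, div_eq_mul_inv, mul_assoc]
      apply mul_le_mul_of_nonneg_left _ (by positivity)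
      rw [Finset.sum_mul]
      refine Finset.sum_le_sum fun k _ => ?_
      rw [mul_comm]
      exact mul_le_mul_of_nonneg_left (inv_anti₀ hδ (JJ_ge E δ hδ k)) (by positivity)
    hJx := fun x c hc => by
      unfold J1
      rw [KQ.qf_Mo, inv_mul_le_iff₀ hN, mul_comm]
      refine le_trans (Finset.sum_le_sum fun k _ => ?_) (p.hg E)
      have e1 : KQ.fc (c • dl x) k = c * e k x := by
        rw [← fc_dl x k]
        unfold KQ.fc
        rw [Finset.mul_sum]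
        refine Finset.sum_congr rfl fun y _ => ?_
        rw [Pi.smul_apply, smul_eq_mul, mul_assoc]
      rw [e1, norm_mul, hc, e_norm, one_mul, one_pow, mul_one] }

theorem ParV.trw (hrqf : T_RQF) (p : ParV d L σ E δ ε t Q g p0 Ω)
    (hs : 64 * σ ^ 2 * Q * (δ / ε) ^ 2 ≤ 1) :
    Trw (h0 (d := d) (L := L) E) (J0 E δ) (J1 E δ) σ ε δ Q g p0 Ω where
  H := p.tru hrqf
  hQ1 := p.hQ1
  hg1 := p.hg1
  hσ1 := p.hσ1
  hδ1 := p.hδ1
  hp := p.hp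
  hs := hs

/-- the norms of multipliers -/
theorem ParV.mul_dl (p : ParV d L σ E δ ε t Q g p0 Ω) (β : T d L → ℂ) (c : ℝ)
    (hβ : ∀ k, ‖β k‖ ≤ c) (x : T d L) :
    qf (J1 E δ) (Mo β *ᵥ dl x) ≤ c ^ 2 * g ∧ nsq (Mo β *ᵥ dl x) ≤ c ^ 2 * g := by
  have hN := Pool.Agent.W788.MFP.Four.NN_pos (d := d) (L := L)
  have hg1 := p.hg1
  have h2 : ∀ k, ‖β k‖ ^ 2 ≤ c ^ 2 := fun k => pow_le_pow_left₀ (norm_nonneg _) (hβ k) 2
  constructor
  · unfold J1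
    rw [KQ.qf_Mo, inv_mul_le_iff₀ hN]
    calc ∑ k, (JJ E δ k)⁻¹ * ‖KQ.fc (Mo β *ᵥ dl x) k‖ ^ 2 ≤ ∑ k : T d L, c ^ 2 * (JJ E δ k)⁻¹ := by
          refine Finset.sum_le_sum fun k _ => ?_
          rw [fc_mo, fc_dl, norm_mul, e_norm, mul_one, mul_comm]
          have h4 : 0 < JJ E δ k := lt_of_lt_of_le p.hδ (JJ_ge E δ p.hδ k)
          exact mul_le_mul_of_nonneg_right (h2 k) (inv_nonneg.2 h4.le)
      _ = c ^ 2 * ∑ k : T d L, (JJ E δ k)⁻¹ := by rw [Finset.mul_sum]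
      _ ≤ c ^ 2 * (g * NN d L) := mul_le_mul_of_nonneg_left (p.hg E) (sq_nonneg c)
      _ = _ := by ring
  · have h3 := nsq_mo β (c ^ 2) h2 (dl x)
    rw [nsq_dl, mul_one] at h3
    nlinarith [sq_nonneg c]

theorem ParV.im0 (hrqf : T_RQF) (p : ParV d L σ E δ ε t Q g p0 Ω) :
    0 ≤ (mT d L σ E ε).im := by
  have H := p.tru hrqf
  have h1 := H.int_im (mb := mT d L σ E ε) 0 rfl
  rw [← h1]
  exact integral_nonneg fun V => H.im0 V 0

/-- the homogeneous model -/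
theorem ParV.trg (hP : T_POIN) (hrqf : T_RQF) (hinv : T_INV)
    (p : ParV d L σ E δ ε t Q g p0 Ω) (hs : 64 * σ ^ 2 * Q * (δ / ε) ^ 2 ≤ 1)
    (E' Γ : ℝ) (hE' : E' = E + σ ^ 2 * (mT d L σ E ε).re)
    (hΓ : Γ = ε + σ ^ 2 * (mT d L σ E ε).im) :
    Trg (h0 (d := d) (L := L) E) σ ε (mT d L σ E ε) (Mo fun k => (Yk E' Γ k)⁻¹)
      (129 * (σ ^ 2 * Q) * ((g + δ / ε * (mT d L σ E ε).im) *
        (g + δ / ε * (mT d L σ E ε).im))) := by
  have hm := p.im0 hrqf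
  have hε := p.hε
  have hΓε : ε ≤ Γ := by
    rw [hΓ]
    have : 0 ≤ σ ^ 2 * (mT d L σ E ε).im := by positivity
    linarith
  have hΓ0 : 0 < Γ := lt_of_lt_of_le hε hΓε
  exact {
    hh := h0_herm E
    hε := hε
    hm := fun x => mT_eq hinv σ E ε x
    hG0 := by
      have h1 : h0 (d := d) (L := L) E - ((ε : ℂ) * Complex.I) • (1 : Matrix (T d L) (T d L) ℂ) -
          (((σ ^ 2 : ℝ) : ℂ) * mT d L σ E ε) • (1 : Matrix (T d L) (T d L) ℂ) =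
          Mo fun k => Yk E' Γ k := by
        unfold h0
        rw [← mo_one, mo_smul, mo_smul, mo_sub, mo_sub]
        congr 1
        funext k
        unfold Yk
        rw [hE', hΓ]
        have h2 : ((mT d L σ E ε).re : ℂ) + ((mT d L σ E ε).im : ℂ) * Complex.I =
          mT d L σ E ε := Complex.re_add_im _
        push_cast
        linear_combination ((σ : ℂ) ^ 2) * h2
      rw [h1, mo_mul, ← mo_one]
      congr 1
      funext k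
      exact inv_mul_cancel₀ (Yk_ne E' hΓ0 k)
    hv := fun x => by
      have Tw := p.trw hrqf hs
      have hg1 := p.hg1
      have h1 := Tw.var1 hP (dl x) (dl x) g g (Tw.jdl x).1 (Tw.jdl x).1 (Tw.jdl x).2 (Tw.jdl x).2
        (by linarith) (by linarith)
      simp only [form_dl] at h1
      rwa [fi_dl hinv σ E hε x] at h1 }

/-- variances of `⟨δx, R b⟩` for multipliers -/
theorem ParV.var_b (hP : T_POIN) (hrqf : T_RQF) (hinv : T_INV)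
    (p : ParV d L σ E δ ε t Q g p0 Ω) (hs : 64 * σ ^ 2 * Q * (δ / ε) ^ 2 ≤ 1)
    (E' Γ : ℝ) (hΓ0 : 0 < Γ) (β : T d L → ℂ) (c : ℝ) (hc : 0 < c) (hβ : ∀ k, ‖β k‖ ≤ c)
    (x : T d L) :
    var (fun V => (Rh (h0 (d := d) (L := L) E) σ ε V * Mo β) x x) ≤
      129 * (σ ^ 2 * Q) * ((g + δ / ε * (mT d L σ E ε).im) *
        (c ^ 2 * (g + δ / ε * (Bf d L E' Γ + es d L σ E ε E' Γ)))) ∧
    var (fun V => ((Rh (h0 (d := d) (L := L) E) σ ε V)ᴴ * Mo β) x x) ≤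
      129 * (σ ^ 2 * Q) * ((g + δ / ε * (mT d L σ E ε).im) *
        (c ^ 2 * (g + δ / ε * (Bf d L E' Γ + es d L σ E ε E' Γ)))) ∧
    ∀ u : T d L → ℂ, (∀ x, ‖u x‖ = 1) →
      var (fun V => (cj u (Rh (h0 (d := d) (L := L) E) σ ε V) *
        ((Rh (h0 (d := d) (L := L) E) σ ε V)ᴴ * Mo β)) x x) ≤
      1028 * (σ ^ 2 * Q) * ((g + δ / ε * (mT d L σ E ε).im) *
        (c ^ 2 * (g + δ / ε * (Bf d L E' Γ + es d L σ E ε E' Γ)))) / ε ^ 2 := by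
  have Tw := p.trw hrqf hs
  have hε := p.hε
  have hδ := p.hδ
  have hg1 := p.hg1
  have hg0 : 0 < g := by linarith
  have hQ1 := p.hQ1
  have hm := p.im0 hrqf
  obtain ⟨b1, b2⟩ := p.mul_dl β c hβ x
  have hb0 : 0 < c ^ 2 * g := by positivity
  have hf := fi_le hinv β c hβ σ E E' hε hΓ0 x
  have hf2 : c ^ 2 * g + δ / ε * fi (h0 (d := d) (L := L) E) σ ε (Mo β *ᵥ dl x) ≤
      c ^ 2 * (g + δ / ε * (Bf d L E' Γ + es d L σ E ε E' Γ)) := by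
    calc _ ≤ c ^ 2 * g + δ / ε * (c ^ 2 * (Bf d L E' Γ + es d L σ E ε E' Γ)) := by gcongr
      _ = _ := by ring
  refine ⟨?_, ?_, fun u hu => ?_⟩
  · have h1 := Tw.var1 hP (dl x) (Mo β *ᵥ dl x) g (c ^ 2 * g) (Tw.jdl x).1 b1 (Tw.jdl x).2 b2
      hg0 hb0
    simp only [Matrix.mulVec_mulVec, form_dl] at h1
    rw [fi_dl hinv σ E hε x] at h1
    refine h1.trans ?_
    gcongr
  · have h1 := Tw.var1 hP (Mo β *ᵥ dl x) (dl x) (c ^ 2 * g) g b1 (Tw.jdl x).1 b2 (Tw.jdl x).2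
      hb0 hg0
    rw [fi_dl hinv σ E hε x] at h1
    have h2 : ∀ V : T d L → ℝ, ((Rh (h0 (d := d) (L := L) E) σ ε V)ᴴ * Mo β) x x =
        star (star (Mo β *ᵥ dl x) ⬝ᵥ (Rh (h0 (d := d) (L := L) E) σ ε V *ᵥ dl x)) := by
      intro V
      rw [← form_dl ((Rh (h0 (d := d) (L := L) E) σ ε V)ᴴ * Mo β) x x, ← Matrix.mulVec_mulVec,
        Pool.Agent.W788.BK.adjoint, Matrix.conjTranspose_conjTranspose,
        ← Matrix.star_dotProduct_star, star_star]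
    simp only [h2]
    rw [var_star]
    refine h1.trans ?_
    rw [mul_comm (c ^ 2 * g + _)]
    gcongr
  · have h1 := Tw.var3 hP hu x (Mo β *ᵥ dl x) (c ^ 2 * g) b1 b2 hb0
    rw [fi_dl hinv σ E hε x] at h1
    have h2 : ∀ V : T d L → ℝ, (cj u (Rh (h0 (d := d) (L := L) E) σ ε V) *
        ((Rh (h0 (d := d) (L := L) E) σ ε V)ᴴ * Mo β)) x x = star (dl x) ⬝ᵥ
        ((cj u (Rh (h0 (d := d) (L := L) E) σ ε V) * (Rh (h0 E) σ ε V)ᴴ) *ᵥ
          (Mo β *ᵥ dl x)) := by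
      intro V
      rw [Matrix.mulVec_mulVec, form_dl, mul_assoc]
    simp only [h2]
    refine h1.trans ?_
    gcongr

/-- the self-energy -/
theorem ParV.es_le (hP : T_POIN) (hI : T_IBP) (hrqf : T_RQF) (hinv : T_INV)
    (p : ParV d L σ E δ ε t Q g p0 Ω) (hs : 64 * σ ^ 2 * Q * (δ / ε) ^ 2 ≤ 1)
    (E' Γ : ℝ) (hE' : E' = E + σ ^ 2 * (mT d L σ E ε).re)
    (hΓ : Γ = ε + σ ^ 2 * (mT d L σ E ε).im) :
    es d L σ E ε E' Γ ≤ 129 * ups σ ε δ Q g (mT d L σ E ε).im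
      (Bf d L E' Γ + es d L σ E ε E' Γ) Γ := by
  have hN := Pool.Agent.W788.MFP.Four.NN_pos (d := d) (L := L)
  have hm := p.im0 hrqf
  have hε := p.hε
  have hδ := p.hδ
  have hg1 := p.hg1
  have hg0 : 0 < g := by linarith
  have hQ1 := p.hQ1
  have hΓε : ε ≤ Γ := by
    rw [hΓ]
    have : 0 ≤ σ ^ 2 * (mT d L σ E ε).im := by positivity
    linarith
  have hΓ0 : 0 < Γ := lt_of_lt_of_le hε hΓε
  have H := p.trg hP hrqf hinv hs E' Γ hE' hΓ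
  obtain ⟨m, hm1, hm2⟩ := ph_opt (d := d) (L := L) σ E ε E' Γ
  obtain ⟨β, hβ⟩ : ∃ β : T d L → ℂ, β = fun k => m k * (Yk E' Γ k)⁻¹ := ⟨_, rfl⟩
  have hYi : ∀ k : T d L, ‖(Yk E' Γ k)⁻¹‖ ≤ Γ⁻¹ := by
    intro k
    rw [norm_inv, Yk_norm]
    exact inv_anti₀ hΓ0 (JJ_ge E' Γ hΓ0 k)
  have hβc : ∀ k, ‖β k‖ ≤ Γ⁻¹ := by
    intro k
    rw [hβ]
    simp only
    rw [norm_mul]
    calc ‖m k‖ * ‖(Yk E' Γ k)⁻¹‖ ≤ 1 * Γ⁻¹ :=
          mul_le_mul (hm1 k) (hYi k) (norm_nonneg _) (by norm_num)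
      _ = _ := one_mul _
  obtain ⟨W, hW⟩ : ∃ W, W = Bf d L E' Γ + es d L σ E ε E' Γ := ⟨_, rfl⟩
  have hW0 : 0 ≤ W := by
    rw [hW]
    have h1 := es_nonneg (d := d) (L := L) σ E ε E' Γ
    have h2 : 0 ≤ Bf d L E' Γ := by
      unfold Bf
      exact mul_nonneg (by positivity) (Finset.sum_nonneg fun k _ => by positivity)
    linarith
  obtain ⟨im, him⟩ : ∃ im, im = (mT d L σ E ε).im := ⟨_, rfl⟩
  rw [← him] at hm
  have hw : ∀ x, var (fun V => (Rh (h0 (d := d) (L := L) E) σ ε V *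
      (Mo m * Mo fun k => (Yk E' Γ k)⁻¹) : Matrix (T d L) (T d L) ℂ) x x) ≤
      129 * (σ ^ 2 * Q) * ((g + δ / ε * im) * (Γ⁻¹ ^ 2 * (g + δ / ε * W))) := by
    intro x
    have h1 := (p.var_b hP hrqf hinv hs E' Γ hΓ0 β Γ⁻¹ (by positivity) hβc x).1
    rw [← him, ← hW, hβ, ← mo_mul] at h1
    exact h1
  have h1 := H.mean hI (Mo m) _ hw
  rw [mo_mul, mo_trace, tr_ph m σ E E' Γ hε, hm2, card_NN, norm_mul, Complex.norm_real,
    Complex.norm_real, Real.norm_of_nonneg hN.le, Real.norm_of_nonneg (es_nonneg _ _ _ _ _),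
    ← him] at h1
  have h2 := le_of_mul_le_mul_left h1 hN
  refine h2.trans ?_
  rw [← him, ← hW]
  unfold ups
  have h3 : Real.sqrt (129 * (σ ^ 2 * Q) * ((g + δ / ε * im) * (g + δ / ε * im))) *
      Real.sqrt (129 * (σ ^ 2 * Q) * ((g + δ / ε * im) * (Γ⁻¹ ^ 2 * (g + δ / ε * W)))) ≤
      129 * (σ ^ 2 * Q) * Γ⁻¹ * Real.sqrt ((g + δ / ε * im) ^ 3 * (g + δ / ε * W)) := by
    apply sqrt_mul_le (by positivity) (by positivity)
    rw [mul_pow, Real.sq_sqrt (by positivity)]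
    apply le_of_eq
    ring
  calc σ ^ 2 * (Real.sqrt (129 * (σ ^ 2 * Q) * ((g + δ / ε * im) * (g + δ / ε * im))) *
      Real.sqrt (129 * (σ ^ 2 * Q) * ((g + δ / ε * im) * (Γ⁻¹ ^ 2 * (g + δ / ε * W))))) ≤
      σ ^ 2 * (129 * (σ ^ 2 * Q) * Γ⁻¹ *
        Real.sqrt ((g + δ / ε * im) ^ 3 * (g + δ / ε * W))) := by gcongr
    _ = _ := by
      field_simp

/-- bound for the ladder -/
theorem ParV.sr_bd (hrqf : T_RQF) (p : ParV d L σ E δ ε t Q g p0 Ω) (κ : T d L) :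
    ‖Sr d L σ E ε κ‖ ≤ (mT d L σ E ε).im / ε := by
  have H := p.tru hrqf
  have hε := p.hε
  have hu : ∀ x, ‖e κ x‖ = 1 := fun x => e_norm κ x
  have hK : BM fun V : T d L → ℝ => cj (e κ) (Rh (h0 (d := d) (L := L) E) σ ε V) *
      (Rh (h0 (d := d) (L := L) E) σ ε V)ᴴ :=
    ((MD.gg H.S).cj (e κ)).bm.mul (MD.gg H.S).star'.bm
  have hpt : ∀ V : T d L → ℝ, ‖(cj (e κ) (Rh (h0 (d := d) (L := L) E) σ ε V) *
      (Rh (h0 (d := d) (L := L) E) σ ε V)ᴴ) 0 0‖ ≤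
      (Rh (h0 (d := d) (L := L) E) σ ε V 0 0).im / ε := by
    intro V
    have e1 : (cj (e κ) (Rh (h0 (d := d) (L := L) E) σ ε V) *
        (Rh (h0 (d := d) (L := L) E) σ ε V)ᴴ) 0 0 =
        star ((cj (e κ) (Rh (h0 (d := d) (L := L) E) σ ε V))ᴴ *ᵥ dl 0) ⬝ᵥ
          ((Rh (h0 (d := d) (L := L) E) σ ε V)ᴴ *ᵥ dl 0) := by
      rw [← Pool.Agent.W788.BK.adjoint, Matrix.mulVec_mulVec, form_dl]
    rw [e1]
    refine (cs_norm _ _).trans ?_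
    rw [← cj_star, nsq_cj_dl hu, Real.mul_self_sqrt (nsq_nonneg _)]
    have := (H.nsq_im V (dl 0)).2
    rwa [form_dl] at this
  unfold Sr
  calc ‖∫ V, (cj (e κ) (Rh (h0 (d := d) (L := L) E) σ ε V) *
      (Rh (h0 (d := d) (L := L) E) σ ε V)ᴴ) 0 0 ∂(GP (T d L))‖ ≤
      ∫ V, ‖(cj (e κ) (Rh (h0 (d := d) (L := L) E) σ ε V) *
        (Rh (h0 (d := d) (L := L) E) σ ε V)ᴴ) 0 0‖ ∂(GP (T d L)) :=
        norm_integral_le_integral_norm _
    _ ≤ ∫ V, (Rh (h0 (d := d) (L := L) E) σ ε V 0 0).im / ε ∂(GP (T d L)) :=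
        integral_mono (RC.norm (hK 0 0)).integrable ((H.rc_im 0).integrable.div_const _) hpt
    _ = _ := by rw [integral_div, H.int_im 0 rfl]; rfl

/-- the current on the torus -/
theorem ParV.cur (hP : T_POIN) (hI : T_IBP) (hrqf : T_RQF) (hinv : T_INV)
    (p : ParV d L σ E δ ε t Q g p0 Ω) (hs : 64 * σ ^ 2 * Q * (δ / ε) ^ 2 ≤ 1)
    (E' Γ : ℝ) (hE' : E' = E + σ ^ 2 * (mT d L σ E ε).re)
    (hΓ : Γ = ε + σ ^ 2 * (mT d L σ E ε).im) (κ : T d L) (μ : ℝ) (hμ0 : 0 < μ)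
    (hμ : ∀ k : T d L, |adj k - adj (k + κ)| ≤ μ) :
    ‖(((mT d L σ E ε).im : ℂ) - (ε : ℂ) * Sr d L σ E ε κ) -
      (1 + ((σ ^ 2 : ℝ) : ℂ) * Sr d L σ E ε κ) * ((Γ * Lf d L E' Γ κ / 2 : ℝ) : ℂ)‖ ≤
      μ / ε * (430 * ups σ ε δ Q g (mT d L σ E ε).im
        (Bf d L E' Γ + es d L σ E ε E' Γ) Γ) := by
  have hN := Pool.Agent.W788.MFP.Four.NN_pos (d := d) (L := L)
  have hm := p.im0 hrqf
  have hσ := p.hσ
  have hε := p.hε
  have hδ := p.hδ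
  have hg1 := p.hg1
  have hg0 : 0 < g := by linarith
  have hQ1 := p.hQ1
  have hΓε : ε ≤ Γ := by
    rw [hΓ]
    have : 0 ≤ σ ^ 2 * (mT d L σ E ε).im := by positivity
    linarith
  have hΓ0 : 0 < Γ := lt_of_lt_of_le hε hΓε
  have H := p.trg hP hrqf hinv hs E' Γ hE' hΓ
  have hes := p.es_le hP hI hrqf hinv hs E' Γ hE' hΓ
  have hsr := p.sr_bd hrqf κ
  have hu : ∀ x, ‖e κ x‖ = 1 := fun x => e_norm κ x
  -- the vertex
  obtain ⟨β, hβ⟩ : ∃ β : T d L → ℂ, β = fun k => ((adj k - adj (k + κ) : ℝ) : ℂ) *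
    (Yk E' Γ (k + κ))⁻¹ := ⟨_, rfl⟩
  have hG1 : (h0 (d := d) (L := L) E - cj (e κ) (h0 E)) *
      cj (e κ) (Mo fun k => (Yk E' Γ k)⁻¹) = Mo β := by
    unfold h0
    rw [cj_mo, cj_mo, mo_sub, mo_mul, hβ]
    congr 1
    funext k
    push_cast
    ring
  have hYi : ∀ k : T d L, ‖(Yk E' Γ k)⁻¹‖ ≤ Γ⁻¹ := by
    intro k
    rw [norm_inv, Yk_norm]
    exact inv_anti₀ hΓ0 (JJ_ge E' Γ hΓ0 k)
  have hβc : ∀ k, ‖β k‖ ≤ μ * Γ⁻¹ := by
    intro k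
    rw [hβ]
    simp only
    rw [norm_mul, Complex.norm_real, Real.norm_eq_abs]
    exact mul_le_mul (hμ k) (hYi _) (norm_nonneg _) hμ0.le
  obtain ⟨W, hW⟩ : ∃ W, W = Bf d L E' Γ + es d L σ E ε E' Γ := ⟨_, rfl⟩
  have hes0 := es_nonneg (d := d) (L := L) σ E ε E' Γ
  have hW0 : 0 ≤ W := by
    rw [hW]
    have h2 : 0 ≤ Bf d L E' Γ := by
      unfold Bf
      exact mul_nonneg (by positivity) (Finset.sum_nonneg fun k _ => by positivity)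
    linarith
  obtain ⟨im, him⟩ : ∃ im, im = (mT d L σ E ε).im := ⟨_, rfl⟩
  obtain ⟨S, hS⟩ : ∃ S, S = Sr d L σ E ε κ := ⟨_, rfl⟩
  obtain ⟨c, hc⟩ : ∃ c, c = μ * Γ⁻¹ := ⟨_, rfl⟩
  have hc0 : 0 < c := by
    rw [hc]
    positivity
  have hv := fun x => p.var_b hP hrqf hinv hs E' Γ hΓ0 β c hc0 (by rw [hc]; exact hβc) x
  have Tw := p.trw hrqf hs
  have hv' : ∀ x, var (fun V => (cj (e κ) (Rh (h0 (d := d) (L := L) E) σ ε V) *
      (Rh (h0 (d := d) (L := L) E) σ ε V)ᴴ) x x) ≤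
      1028 * (σ ^ 2 * Q) * ((g + δ / ε * im) * (g + δ / ε * im)) / ε ^ 2 := by
    intro x
    have h1 := Tw.var3 hP hu x (dl x) g (Tw.jdl x).1 (Tw.jdl x).2 hg0
    simp only [form_dl] at h1
    rwa [fi_dl hinv σ E hε x, ← him] at h1
  have hTq : ((Mo fun k => (Yk E' Γ k)⁻¹)ᴴ * ((h0 (d := d) (L := L) E - cj (e κ) (h0 E)) *
      cj (e κ) (Mo fun k => (Yk E' Γ k)⁻¹))).trace =
      (Fintype.card (T d L) : ℂ) * (Complex.I * ((Γ * Lf d L E' Γ κ : ℝ) : ℂ)) := by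
    rw [hG1, mo_star, mo_mul, mo_trace, hβ, cur_trace E' hΓ0 κ, ← card_NN]
    push_cast
    rfl
  have he3 : ‖∫ V, (((h0 (d := d) (L := L) E - cj (e κ) (h0 E)) *
      cj (e κ) (Mo fun k => (Yk E' Γ k)⁻¹))ᴴ * Rh (h0 E) σ ε V).trace ∂(GP (T d L)) -
      (((h0 (d := d) (L := L) E - cj (e κ) (h0 E)) *
      cj (e κ) (Mo fun k => (Yk E' Γ k)⁻¹))ᴴ * Mo fun k => (Yk E' Γ k)⁻¹).trace‖ ≤
      Fintype.card (T d L) * (c * es d L σ E ε E' Γ) := by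
    rw [hG1, mo_star, mo_mul, mo_trace, tr_ph _ σ E E' Γ hε, card_NN, norm_mul,
      Complex.norm_real, Real.norm_of_nonneg hN.le]
    apply mul_le_mul_of_nonneg_left _ hN.le
    apply ph_le
    intro k
    rw [RCLike.norm_conj, hc]
    exact hβc k
  have h1 := H.cur hI hu (Sr d L σ E ε κ) 0 (fun x => sr_inv hinv σ E ε κ x) _ _ _ _ hv'
    (fun x => by
      rw [hG1]
      exact (hv x).2.1) (fun x => by
      rw [hG1]
      exact (hv x).2.2 _ hu) he3 _ hTq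
  rw [← him, ← hW, ← hS] at h1
  rw [← him, ← hW] at hes
  rw [← him, ← hS] at hsr
  rw [← him, ← hS, ← hW]
  rw [← him] at hm
  obtain ⟨U, hU⟩ : ∃ U, U = ups σ ε δ Q g im W Γ := ⟨_, rfl⟩
  have hU1 : U = σ ^ 2 * Q * (σ ^ 2 / Γ) *
      Real.sqrt ((g + δ / ε * im) ^ 3 * (g + δ / ε * W)) := hU
  have h365 : (129 : ℝ) * 1028 ≤ 365 ^ 2 := by norm_num
  have k1 : Real.sqrt (129 * (σ ^ 2 * Q) * ((g + δ / ε * im) * (g + δ / ε * im))) *
      Real.sqrt (1028 * (σ ^ 2 * Q) * ((g + δ / ε * im) * (c ^ 2 * (g + δ / ε * W))) / ε ^ 2) ≤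
      365 * (σ ^ 2 * Q) * (c / ε) * Real.sqrt ((g + δ / ε * im) ^ 3 * (g + δ / ε * W)) := by
    apply sqrt_mul_le (by positivity) (by positivity)
    rw [mul_pow, Real.sq_sqrt (by positivity)]
    calc _ = (129 * 1028) * ((σ ^ 2 * Q) ^ 2 * (c / ε) ^ 2 *
          ((g + δ / ε * im) ^ 3 * (g + δ / ε * W))) := by
          field_simp
      _ ≤ 365 ^ 2 * ((σ ^ 2 * Q) ^ 2 * (c / ε) ^ 2 *
          ((g + δ / ε * im) ^ 3 * (g + δ / ε * W))) := by gcongr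
      _ = _ := by ring
  have k2 : Real.sqrt (1028 * (σ ^ 2 * Q) * ((g + δ / ε * im) * (g + δ / ε * im)) / ε ^ 2) *
      Real.sqrt (129 * (σ ^ 2 * Q) * ((g + δ / ε * im) * (c ^ 2 * (g + δ / ε * W)))) ≤
      365 * (σ ^ 2 * Q) * (c / ε) * Real.sqrt ((g + δ / ε * im) ^ 3 * (g + δ / ε * W)) := by
    apply sqrt_mul_le (by positivity) (by positivity)
    rw [mul_pow, Real.sq_sqrt (by positivity)]
    calc _ = (129 * 1028) * ((σ ^ 2 * Q) ^ 2 * (c / ε) ^ 2 *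
          ((g + δ / ε * im) ^ 3 * (g + δ / ε * W))) := by
          field_simp
      _ ≤ 365 ^ 2 * ((σ ^ 2 * Q) ^ 2 * (c / ε) ^ 2 *
          ((g + δ / ε * im) ^ 3 * (g + δ / ε * W))) := by gcongr
      _ = _ := by ring
  have k3 : (1 + σ ^ 2 * ‖S‖) * (c * es d L σ E ε E' Γ) ≤ μ / ε * (129 * U) := by
    have e1 : 1 + σ ^ 2 * ‖S‖ ≤ Γ / ε := by
      rw [hΓ, ← him]
      calc 1 + σ ^ 2 * ‖S‖ ≤ 1 + σ ^ 2 * (im / ε) := by gcongr
        _ = _ := by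
          field_simp
    calc _ ≤ Γ / ε * (c * (129 * U)) := by
          rw [hU]
          gcongr
      _ = _ := by
          rw [hc]
          field_simp
  have k4 : σ ^ 2 * (365 * (σ ^ 2 * Q) * (c / ε) *
      Real.sqrt ((g + δ / ε * im) ^ 3 * (g + δ / ε * W))) = μ / ε * (365 * U) := by
    rw [hU1, hc]
    field_simp
  have h2 : ‖2 * Complex.I * ((im : ℂ) - (ε : ℂ) * S) - (1 + ((σ ^ 2 : ℝ) : ℂ) * S) *
      (Complex.I * ((Γ * Lf d L E' Γ κ : ℝ) : ℂ))‖ ≤ μ / ε * (859 * U) := by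
    refine h1.trans ?_
    rw [mul_add]
    have e1 := mul_le_mul_of_nonneg_left k1 (sq_nonneg σ)
    have e2 := mul_le_mul_of_nonneg_left k2 (sq_nonneg σ)
    rw [k4] at e1 e2
    linarith
  have h3 : 2 * Complex.I * ((im : ℂ) - (ε : ℂ) * S) - (1 + ((σ ^ 2 : ℝ) : ℂ) * S) *
      (Complex.I * ((Γ * Lf d L E' Γ κ : ℝ) : ℂ)) = 2 * Complex.I *
      (((im : ℂ) - (ε : ℂ) * S) - (1 + ((σ ^ 2 : ℝ) : ℂ) * S) *
        ((Γ * Lf d L E' Γ κ / 2 : ℝ) : ℂ)) := by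
    push_cast
    ring
  rw [h3, norm_mul, norm_mul, Complex.norm_I, Complex.norm_ofNat, mul_one] at h2
  have hU0 : 0 ≤ U := by
    rw [hU1]
    positivity
  rw [← hU]
  have h4 : 0 ≤ μ / ε * U := by positivity
  linarith

/-- all errors -/
theorem ParV.fin (hP : T_POIN) (hI : T_IBP) (hrqf : T_RQF) (hinv : T_INV)
    (p : ParV d L σ E δ ε t Q g p0 Ω) (s : Small2 σ ε δ Q g ζ β) (hβ : 0 ≤ β)
    (E' Γ : ℝ) (hE' : E' = E + σ ^ 2 * (mT d L σ E ε).re)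
    (hΓ : Γ = ε + σ ^ 2 * (mT d L σ E ε).im)
    (hgΓ : ∑ k : T d L, (JJ E' Γ k)⁻¹ ≤ g * NN d L) :
    0 ≤ (mT d L σ E ε).im ∧ ‖mT d L σ E ε‖ ≤ 2 * g ∧ |E - E'| ≤ ζ ∧ 0 < Γ ∧ Γ ≤ ζ ∧ ε ≤ Γ ∧
    |(mT d L σ E ε).im - Bf d L E' Γ| ≤ ζ ∧
    (∀ κ : T d L, ‖Sr d L σ E ε κ‖ ≤ (mT d L σ E ε).im / ε) ∧
    ∀ (κ : T d L) (μ : ℝ), 0 < μ → (∀ k : T d L, |adj k - adj (k + κ)| ≤ μ) →
      ‖(((mT d L σ E ε).im : ℂ) - (ε : ℂ) * Sr d L σ E ε κ) -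
        (1 + ((σ ^ 2 : ℝ) : ℂ) * Sr d L σ E ε κ) * ((Γ * Lf d L E' Γ κ / 2 : ℝ) : ℂ)‖ ≤
        μ / ε * (ε / σ ^ 2) ^ β * ζ := by
  have hN := Pool.Agent.W788.MFP.Four.NN_pos (d := d) (L := L)
  have hσ := p.hσ
  have hε := p.hε
  have hm := p.im0 hrqf
  have hg := p.hg1
  have hg0 : 0 < g := by linarith
  have hQ1 := p.hQ1
  have hεσ := s.hεσ
  have hσ2 : 0 < σ ^ 2 := by positivity
  have hζ0 : 0 < ζ := by
    have := s.h3
    have : 0 < 3 * σ ^ 2 * g := by positivity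
    linarith
  have hΓε : ε ≤ Γ := by
    rw [hΓ]
    have : 0 ≤ σ ^ 2 * (mT d L σ E ε).im := by positivity
    linarith
  have hΓ0 : 0 < Γ := lt_of_lt_of_le hε hΓε
  -- the small parameter
  obtain ⟨r, hr⟩ : ∃ r, r = σ ^ 2 * Q * (δ / ε) ^ 2 * g ^ 3 := ⟨_, rfl⟩
  obtain ⟨P, hPp⟩ : ∃ P, P = (σ ^ 2 / ε) ^ β := ⟨_, rfl⟩
  have hP1 : 1 ≤ P := by
    rw [hPp]
    apply Real.one_le_rpow _ hβ
    rw [le_div_iff₀ hε, one_mul]
    exact hεσ
  have hP0 : 0 < P := by linarith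
  have hPi : (ε / σ ^ 2) ^ β = P⁻¹ := by
    rw [hPp, ← Real.inv_rpow (by positivity), inv_div]
  have hδ := p.hδ
  have hr0 : 0 ≤ r := by
    rw [hr]
    positivity
  have hrP : 10000 * r * P ≤ ζ := by
    have := s.h1
    rw [hr, hPp]
    linarith
  have hr1 : 10000 * r ≤ ζ := by
    have : 10000 * r * 1 ≤ 10000 * r * P := by gcongr
    linarith
  have hζ4 := s.hζ
  have hs : 64 * σ ^ 2 * Q * (δ / ε) ^ 2 ≤ 1 := by
    have e1 : σ ^ 2 * Q * (δ / ε) ^ 2 * 1 ≤ r := by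
      rw [hr]
      have : (1 : ℝ) ≤ g ^ 3 := one_le_pow₀ hg
      gcongr
    linarith
  obtain ⟨im, him⟩ : ∃ im, im = (mT d L σ E ε).im := ⟨_, rfl⟩
  obtain ⟨B, hB⟩ : ∃ B, B = Bf d L E' Γ := ⟨_, rfl⟩
  obtain ⟨z, hz⟩ : ∃ z, z = es d L σ E ε E' Γ := ⟨_, rfl⟩
  have hz0 : 0 ≤ z := by
    rw [hz]
    exact es_nonneg _ _ _ _ _
  have hB0 : 0 ≤ B := by
    rw [hB]
    unfold Bf
    exact mul_nonneg (by positivity) (Finset.sum_nonneg fun k _ => by positivity)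
  have hBl := Bf_le3 (E' := E') (Γ := Γ) hgΓ
  have hBg : B ≤ g := by
    rw [hB, Bf_im]
    exact ((le_abs_self _).trans (Complex.abs_im_le_norm _)).trans hBl
  -- the mean
  have hmean : ‖mT d L σ E ε - ((NN d L : ℝ) : ℂ)⁻¹ * ∑ k : T d L, (Yk E' Γ k)⁻¹‖ ≤ z := by
    have h1 := tr_ph (d := d) (L := L) (fun _ => (1 : ℂ)) σ E E' Γ hε
    have h2 := ph_le (d := d) (L := L) (fun _ => (1 : ℂ)) 1 (fun _ => by simp) σ E ε E' Γ
    rw [one_mul, ← hz] at h2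
    have h3 : ∫ V, (Mo (fun _ : T d L => (1 : ℂ)) *
        Rh (h0 (d := d) (L := L) E) σ ε V).trace ∂(GP (T d L)) =
        ((NN d L : ℝ) : ℂ) * mT d L σ E ε := by
      have S := sys_rh (h0_herm (d := d) (L := L) E) σ ε hε
      have hG : BM fun V : T d L → ℝ => Rh (h0 (d := d) (L := L) E) σ ε V := bm_gg S
      have e1 : ∀ V : T d L → ℝ, (Mo (fun _ : T d L => (1 : ℂ)) *
          Rh (h0 (d := d) (L := L) E) σ ε V).trace =
          ∑ x, Rh (h0 (d := d) (L := L) E) σ ε V x x := by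
        intro V
        rw [mo_one, one_mul]
        rfl
      simp only [e1]
      rw [integral_finsetSum _ fun x _ => (hG x x).integrable _]
      simp only [mT_eq hinv σ E ε, Finset.sum_const, Finset.card_univ, nsmul_eq_mul]
      rw [← card_NN]
      push_cast
      rfl
    rw [h3] at h1
    have h4 : mT d L σ E ε - ((NN d L : ℝ) : ℂ)⁻¹ * ∑ k : T d L, (Yk E' Γ k)⁻¹ =
        ∑ k, 1 * ph d L σ E ε E' Γ k := by
      have hNN := KQ.N_ne (d := d) (L := L)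
      apply mul_left_cancel₀ hNN
      rw [← h1, mul_sub, ← mul_assoc, mul_inv_cancel₀ hNN, one_mul]
      congr 1
      refine Finset.sum_congr rfl fun k _ => ?_
      rw [one_mul]
    rw [h4]
    exact h2
  have himB : |im - B| ≤ z := by
    rw [him, hB, Bf_im, ← Complex.sub_im]
    exact (Complex.abs_im_le_norm _).trans hmean
  rw [← him] at hm
  have hup := ups_le (Q := Q) (g := g) (Γ := Γ) hσ hε hεσ s.hσδ hQ1 hg hm (by rw [hΓ, him]) hB0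
    hBg hz0 (by linarith [(abs_le.1 himB).2])
  have hes := p.es_le hP hI hrqf hinv hs E' Γ hE' hΓ
  rw [← him, ← hB, ← hz] at hes
  have hup2 : ups σ ε δ Q g im (B + z) Γ ≤ 3 * r * (2 + z) := by
    refine hup.trans (le_of_eq ?_)
    rw [hr]
    ring
  have hz1 : z ≤ 1 := by nlinarith
  have hup3 : ups σ ε δ Q g im (B + z) Γ ≤ 9 * r := by nlinarith
  have hzζ : z ≤ ζ := by linarith
  have hmt : ‖mT d L σ E ε‖ ≤ 2 * g := by
    have e1 := norm_sub_norm_le (mT d L σ E ε) (((NN d L : ℝ) : ℂ)⁻¹ *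
      ∑ k : T d L, (Yk E' Γ k)⁻¹)
    linarith
  have him2 : im ≤ 2 * g := by
    rw [him]
    exact ((le_abs_self _).trans (Complex.abs_im_le_norm _)).trans hmt
  rw [← him, ← hB]
  refine ⟨hm, hmt, ?_, hΓ0, ?_, hΓε, himB.trans hzζ, fun κ => ?_, fun κ μ hμ0 hμ => ?_⟩
  · rw [hE']
    have e1 : E - (E + σ ^ 2 * (mT d L σ E ε).re) = -(σ ^ 2 * (mT d L σ E ε).re) := by ring
    rw [e1, abs_neg, abs_mul, abs_of_nonneg (sq_nonneg σ)]
    have e2 := (Complex.abs_re_le_norm (mT d L σ E ε)).trans hmt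
    have e3 := s.h3
    have e4 : 0 < σ ^ 2 * g := by positivity
    calc σ ^ 2 * |(mT d L σ E ε).re| ≤ σ ^ 2 * (2 * g) := by gcongr
      _ ≤ ζ := by linarith
  · rw [hΓ, ← him]
    have e3 := s.h3
    have e4 : σ ^ 2 ≤ σ ^ 2 * g := by nlinarith
    have e5 : σ ^ 2 * im ≤ σ ^ 2 * (2 * g) := by gcongr
    linarith
  · rw [him]
    exact p.sr_bd hrqf κ
  · have h1 := p.cur hP hI hrqf hinv hs E' Γ hE' hΓ κ μ hμ0 hμ
    rw [← him, ← hB, ← hz] at h1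
    refine h1.trans ?_
    rw [hPi]
    have e1 : 430 * ups σ ε δ Q g im (B + z) Γ ≤ P⁻¹ * ζ := by
      rw [inv_mul_eq_div, le_div_iff₀ hP0]
      calc 430 * ups σ ε δ Q g im (B + z) Γ * P ≤ 430 * (9 * r) * P := by gcongr
        _ ≤ 10000 * r * P := by nlinarith [mul_nonneg hr0 hP0.le]
        _ ≤ ζ := hrP
    calc μ / ε * (430 * ups σ ε δ Q g im (B + z) Γ) ≤ μ / ε * (P⁻¹ * ζ) := by gcongr
      _ = _ := by ring

end par

theorem fin3 (hP : T_POIN) (hI : T_IBP) (hrqf : T_RQF) (hinv : T_INV) : T_FIN3 := by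
  intro d L _ σ E δ ε t Q g p0 ζ β Ω p s hβ E' Γ hE' hΓ hg
  exact p.fin hP hI hrqf hinv s hβ E' Γ hE' hΓ hg

end Pool.Agent.T2h98.QD
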