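import Pool.Agent.T2h98.QD.All4
import Pool.Agent.T2h98.QD.QEF
import Pool.Agent.T2h98.QD.TY
import Pool.Agent.T2h98.QD.JL3
import Pool.Agent.T2h98.QD.Poi3
import Pool.Agent.T2h98.QD.Dif3
import Pool.Agent.T2h98.QD.Emb3
import Pool.Agent.T2h98.QD.Prob3
import Pool.Agent.T2h98.QD.Scal3
import Pool.Agent.T2h98.QD.SR0
import Pool.Agent.T2h98.QD.IMS
import Pool.Agent.T2h98.QD.Lim3
import Pool.Agent.T2h98.QD.Int3
import Pool.Agent.T2h98.QD.QEA
import Pool.Agent.T2h98.QD.QEM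

/-! Quantum ergodicity on tori: all parts are proved. -/

set_option autoImplicit false

open scoped BigOperators Matrix Topology
open MeasureTheory ProbabilityTheory Filter

namespace Pool.Agent.T2h98.QD.QE

open Pool.Agent.W788.MFP.Four (T e NN adj K)

theorem scal3F : T_SCAL3 := scal3 prob3 (emb3 (pki pkb))

theorem fin3F : T_FIN3 := fin3 poin ibp rqf inv

theorem poi3F : T_POI3 := poi3 bes jl3

theorem sr0F : T_SR0 := sr0 inv (en plan inv)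

theorem imsF : T_IMS := ims scal3F fin3F poi3F sr0F

theorem lim3F : T_LIM3 := lim3 scal3F fin3F imsF (dif3 poi3F) U.dosF

theorem int3F : T_INT3 := int3 scal3F lim3F imsF sr0F U.dosF (lap U.dosF)

theorem qeF (d : ℕ) (hd : 3 ≤ d) (a b : ℝ) (ha : 0 < a)
    (hb : b < if d = 3 then 1 / 5 else 2 / 5) (f : (Fin d → UnitAddCircle) → ℂ)
    (hf : Continuous f) (η : ℝ) (hη : 0 < η) :
    ∀ᶠ σ : ℝ in 𝓝[>] 0, ∀ (L : ℕ) [NeZero L], σ ^ (-2 - a) ≤ (L : ℝ) → (L : ℝ) ≤ σ ^ (-2 - b) →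
      ∃ Ω : Set (T d L → ℝ), MeasurableSet Ω ∧ 1 - η ≤ (GP (T d L)).real Ω ∧
        ∀ V ∈ Ω, ∀ (u : T d L → T d L → ℂ) (E : T d L → ℝ),
        (∀ j, HT (d := d) (L := L) σ V *ᵥ u j = (E j : ℂ) • u j) →
        (∀ j k, star (u j) ⬝ᵥ u k = if j = k then 1 else 0) →
        ({j | η < ‖∑ x, f (pt x) * ((‖u j x‖ ^ 2 : ℝ) : ℂ) -
          ∫ x in Set.Icc (0 : Fin d → ℝ) 1, f (fun i => (x i : UnitAddCircle))‖}.ncard : ℝ) ≤
          η * NN d L :=
  qe_main int3F (qem qea (en plan inv) inv) d hd a b ha hb f hf η hη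

end Pool.Agent.T2h98.QD.QE
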