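import Pool.Agent.T2h98.QD.Stm
import Pool.Agent.W788.MFP.Dos2

/-! The Green function in dimension at least two (task SLICE). -/

set_option autoImplicit false

open scoped BigOperators

namespace Pool.Agent.T2h98.QD

open Pool.Agent.W788.MFP.Four (T e NN NN_pos card_T adj K)

namespace SliceAux

open Pool.Agent.W788.MFP.Dos

variable {L : ℕ} [NeZero L]

theorem log_lo (s : ℝ) (hs : 0 < s) (hs1 : s ≤ 1 / 2) : 1 ≤ 3 / 2 * Real.log (1 / s) := by
  have hl2 : (0.69 : ℝ) < Real.log 2 := by
    have := Real.log_two_gt_d9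
    linarith
  have h2 : Real.log 2 ≤ Real.log (1 / s) := by
    apply Real.log_le_log (by norm_num)
    rw [le_div_iff₀ hs]
    linarith
  linarith

/-- two dimensions, sharp form -/
theorem cnt2s (t s : ℝ) (hs : 1 / (L : ℝ) ≤ s) (hs1 : s ≤ 1 / 2) :
    cnt L 2 t s ≤ 160 * Real.log (1 / s) * s * L ^ 2 := by
  have hL : (0 : ℝ) < L := by exact_mod_cast Nat.pos_of_ne_zero (NeZero.ne L)
  have hs0 : 0 < s := lt_of_lt_of_le (by positivity) hs
  have hlog := log_lo s hs0 hs1
  have hl2 : (0.69 : ℝ) < Real.log 2 := by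
    have := Real.log_two_gt_d9
    linarith
  have h1 := step 1 t s hs (by linarith) (20 * Real.log (1 / s) * L) (fun c => by
    obtain ⟨n, hn, h2⟩ := dy_sum (fun k : T 1 L => |adj k - c|) s (1 / 2) (1 / 2) 4 L hs0
      (by linarith) (by norm_num) (by rw [card_Tn, pow_one]) (fun r hr hr1 =>
        cnt1 c r (hs.trans hr) hr1)
    refine h2.trans ?_
    rw [sub_self, Real.rpow_zero]
    simp only [one_pow, Finset.sum_const, Finset.card_range, nsmul_eq_mul, mul_one]
    have h3 : (n : ℝ) * Real.log 2 ≤ Real.log (1 / s) := by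
      have h4 : (2 : ℝ) ^ n ≤ 1 / s := by
        rw [le_div_iff₀ hs0]
        have h5 : (2 : ℝ) ^ n * (1 / 2) ^ n = 1 := by
          rw [← mul_pow]
          norm_num
        calc (2 : ℝ) ^ n * s ≤ 2 ^ n * (1 / 2) ^ n := by gcongr
          _ = 1 := h5
      have h6 := Real.log_le_log (by positivity) h4
      rwa [Real.log_pow] at h6
    have h4 : (n : ℝ) ≤ 3 / 2 * Real.log (1 / s) := by
      have : (0 : ℝ) ≤ n := Nat.cast_nonneg n
      nlinarith
    have h5 : (2 : ℝ) ^ (1 / 2 : ℝ) ≤ 3 / 2 := by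
      rw [← Real.sqrt_eq_rpow, Real.sqrt_le_left (by norm_num)]
      norm_num
    have h6 : (0 : ℝ) ≤ 2 ^ (1 / 2 : ℝ) := by positivity
    have h7 : 4 * (2 : ℝ) ^ (1 / 2 : ℝ) * ((n + 1 : ℕ) : ℝ) ≤
        4 * (3 / 2) * (3 / 2 * Real.log (1 / s) + 3 / 2 * Real.log (1 / s)) := by
      push_cast
      have h8 : (0 : ℝ) ≤ n := Nat.cast_nonneg n
      gcongr
    calc (L : ℝ) * (1 + 4 * (2 : ℝ) ^ (1 / 2 : ℝ) * ((n + 1 : ℕ) : ℝ))
        ≤ L * (3 / 2 * Real.log (1 / s) +
          4 * (3 / 2) * (3 / 2 * Real.log (1 / s) + 3 / 2 * Real.log (1 / s))) := by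
          gcongr
      _ = 39 / 2 * Real.log (1 / s) * L := by ring
      _ ≤ 20 * Real.log (1 / s) * L := by
          have : 0 ≤ Real.log (1 / s) := by linarith
          gcongr
          norm_num)
  refine h1.trans (le_of_eq ?_)
  ring

/-- dimension at least two -/
theorem cntn (d : ℕ) (hd : 2 ≤ d) (t s : ℝ) (hs : 1 / (L : ℝ) ≤ s) (hs1 : s ≤ 1 / 2) :
    cnt L d t s ≤ 160 * Real.log (1 / s) * s * L ^ d := by
  induction d, hd using Nat.le_induction generalizing t with
  | base => exact cnt2s t s hs hs1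
  | succ n hn ih =>
    rw [cnt_succ']
    refine (Finset.sum_le_sum fun j _ => ih (t - a j)).trans (le_of_eq ?_)
    simp
    ring

theorem cnt_card (d : ℕ) (t s : ℝ) : cnt L d t s ≤ NN d L := by
  have h1 : ((Finset.univ.filter fun k : T d L => |adj k - t| ≤ s).card : ℝ) ≤
      (Fintype.card (T d L) : ℝ) := by
    exact_mod_cast Finset.card_le_univ _
  exact h1.trans (le_of_eq card_T)

end SliceAux

open SliceAux Pool.Agent.W788.MFP.Dos in
theorem slice : T_SLICE := by
  refine ⟨1300, by norm_num, ?_⟩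
  intro n L _ hn t s hs hs1
  have hL : (0 : ℝ) < L := by exact_mod_cast Nat.pos_of_ne_zero (NeZero.ne L)
  have hs0 : 0 < s := lt_of_lt_of_le (by positivity) hs
  have hlog := log_lo s hs0 hs1
  have hlog0 : 0 < Real.log (1 / s) := by linarith
  have hN := NN_pos (d := n) (L := L)
  have h1 := dy_log (fun k : T n L => |adj k - t|) s (160 * Real.log (1 / s)) (NN n L) hs0 hs1
    (by positivity) (le_of_eq card_T) (fun r hr hr1 => by
      rcases le_total r (1 / 2) with h | h
      · refine (cntn n hn t r (hs.trans hr) h).trans ?_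
        have hr0 : 0 < r := hs0.trans_le hr
        have h2 : Real.log (1 / r) ≤ Real.log (1 / s) := by
          apply Real.log_le_log (by positivity)
          exact one_div_le_one_div_of_le hs0 hr
        have h3 : 0 ≤ r * NN n L := by positivity
        have h4 := mul_le_mul_of_nonneg_right h2 h3
        have e : (L : ℝ) ^ n = NN n L := rfl
        rw [e]
        nlinarith
      · refine (cnt_card n t r).trans ?_
        have h2 : 1 ≤ 160 * Real.log (1 / s) * r := by nlinarith
        nlinarith)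
  refine h1.trans ?_
  have h2 : (2 + 8 * (160 * Real.log (1 / s))) * Real.log (1 / s) ≤
      1300 * Real.log (1 / s) ^ 2 := by nlinarith
  rw [mul_comm]
  exact mul_le_mul_of_nonneg_right h2 hN.le

end Pool.Agent.T2h98.QD
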