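import Pool.Agent.T2h98.QD.Var

/-! The Dyson equation by integration by parts. -/

set_option autoImplicit false
set_option linter.unusedSectionVars false

open scoped BigOperators Matrix
open MeasureTheory ProbabilityTheory

namespace Pool.Agent.T2h98.QD

open Pool.Agent.W788.BK
open Pool.Agent.W240.BK (BC BM cs_int)

variable {n m : Type} [Fintype n] [DecidableEq n] [Fintype m] [DecidableEq m]

theorem int_coord (y : m) : Integrable (fun V : m → ℝ => V y) (GP m) := by
  have h1 : Integrable (fun t : ℝ => t) (gaussianReal 0 1) :=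
    (memLp_id_gaussianReal 1).integrable (by norm_num)
  exact (measurePreserving_eval (fun _ : m => gaussianReal 0 1) y).integrable_comp_of_integrable h1

theorem int_coord_mul (y : m) {F : (m → ℝ) → ℂ} (hF : BC F) :
    Integrable (fun V : m → ℝ => (V y : ℂ) * F V) (GP m) := by
  obtain ⟨h1, C, hC⟩ := hF
  exact (int_coord y).ofReal.mul_bdd (c := C) h1.aestronglyMeasurable
    (Filter.Eventually.of_forall hC)

section sys

variable {h J : Matrix n n ℂ} {A : m → Matrix n n ℂ} {η δ Q : ℝ}

/-- the resolvent identity for the conjugated resolvent -/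
theorem gg_expand (S : Sys h J A η δ Q) {u : n → ℂ} (hu : ∀ x, ‖u x‖ = 1)
    (hA : ∀ y, cj u (A y) = A y) (s : ℂ) (G0 : Matrix n n ℂ)
    (hG0 : G0 * (h - ((η : ℂ) * Complex.I) • J - s • (1 : Matrix n n ℂ)) = 1) (V : m → ℝ) :
    cj u (GG h J A η V) = cj u G0 - s • (cj u G0 * cj u (GG h J A η V)) -
      ∑ y, (V y : ℂ) • (cj u G0 * A y * cj u (GG h J A η V)) := by
  have h1 := xg_gg S V
  have h2 : XG h J A η V = (h - ((η : ℂ) * Complex.I) • J - s • (1 : Matrix n n ℂ)) +
      s • (1 : Matrix n n ℂ) + ∑ y, (V y : ℂ) • A y := by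
    unfold XG
    abel
  have h3 : G0 * XG h J A η V = 1 + s • G0 + ∑ y, (V y : ℂ) • (G0 * A y) := by
    rw [h2, mul_add, mul_add, hG0, mul_smul_comm, mul_one, Finset.mul_sum]
    congr 1
    exact Finset.sum_congr rfl fun y _ => by rw [mul_smul_comm]
  have h4 : G0 = GG h J A η V + s • (G0 * GG h J A η V) +
      ∑ y, (V y : ℂ) • (G0 * A y * GG h J A η V) := by
    calc G0 = G0 * (XG h J A η V * GG h J A η V) := by rw [h1, mul_one]
      _ = (G0 * XG h J A η V) * GG h J A η V := by rw [mul_assoc]
      _ = _ := by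
        rw [h3, add_mul, add_mul, one_mul, smul_mul_assoc, Finset.sum_mul]
        congr 1
        exact Finset.sum_congr rfl fun y _ => by rw [smul_mul_assoc]
  have h5 := congrArg (cj u) h4
  rw [cj_add, cj_add, cj_smul, cj_mul hu, cj_sum] at h5
  have h6 : ∑ y, cj u ((V y : ℂ) • (G0 * A y * GG h J A η V)) =
      ∑ y, (V y : ℂ) • (cj u G0 * A y * cj u (GG h J A η V)) := by
    refine Finset.sum_congr rfl fun y _ => ?_
    rw [cj_smul, cj_mul hu, cj_mul hu, hA]
  rw [h6] at h5
  rw [eq_sub_iff_add_eq, eq_sub_iff_add_eq, add_right_comm]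
  exact h5.symm

/-- **the Dyson equation** -/
theorem dyson (hI : T_IBP) (S : Sys h J A η δ Q) {u : n → ℂ} (hu : ∀ x, ‖u x‖ = 1)
    (hA : ∀ y, cj u (A y) = A y) (s : ℂ) (G0 : Matrix n n ℂ)
    (hG0 : G0 * (h - ((η : ℂ) * Complex.I) • J - s • (1 : Matrix n n ℂ)) = 1)
    {B : (m → ℝ) → Matrix n n ℂ} {D : m → (m → ℝ) → Matrix n n ℂ} (hB : MD B D) :
    ∫ V, (B V * cj u (GG h J A η V)).trace ∂(GP m) =
      ∫ V, (B V * cj u G0).trace ∂(GP m) +
      ∫ V, (B V * cj u G0 * (Psi A (cj u (GG h J A η V)) - s • (1 : Matrix n n ℂ)) *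
        cj u (GG h J A η V)).trace ∂(GP m) -
      ∑ y, ∫ V, (D y V * cj u G0 * A y * cj u (GG h J A η V)).trace ∂(GP m) := by
  have hG : MD (fun V => cj u (GG h J A η V))
      (fun y V => cj u (-(GG h J A η V * A y * GG h J A η V))) := (MD.gg S).cj u
  have hGD : ∀ y V, cj u (-(GG h J A η V * A y * GG h J A η V)) =
      -(cj u (GG h J A η V) * A y * cj u (GG h J A η V)) := by
    intro y V
    rw [cj_neg, cj_mul hu, cj_mul hu, hA]
  have hG' : MD (fun V => cj u (GG h J A η V))
      (fun y V => -(cj u (GG h J A η V) * A y * cj u (GG h J A η V))) :=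
    hG.congr' fun y V => (hGD y V).symm
  -- the functions `F_y`
  have hF : ∀ y, MD (fun V => B V * cj u G0 * A y * cj u (GG h J A η V))
      (fun z V => D z V * cj u G0 * A y * cj u (GG h J A η V) -
        B V * cj u G0 * A y * cj u (GG h J A η V) * A z * cj u (GG h J A η V)) := by
    intro y
    refine (((hB.mul (MD.const (cj u G0))).mul (MD.const (A y))).mul hG').congr' fun z V => ?_
    noncomm_ring
  have hint : ∀ y, ∫ V, (V y : ℂ) * (B V * cj u G0 * A y * cj u (GG h J A η V)).trace ∂(GP m) =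
      ∫ V, (D y V * cj u G0 * A y * cj u (GG h J A η V)).trace ∂(GP m) -
      ∫ V, (B V * cj u G0 * A y * cj u (GG h J A η V) * A y *
        cj u (GG h J A η V)).trace ∂(GP m) := by
    intro y
    rw [ibp' hI (hF y).trace y]
    simp only [Matrix.trace_sub]
    have b1 : BM fun V => D y V * cj u G0 * A y * cj u (GG h J A η V) :=
      (((hB.bmD y).mul (BM.const _)).mul (BM.const _)).mul hG.bm
    have b2 : BM fun V => B V * cj u G0 * A y * cj u (GG h J A η V) * A y *
        cj u (GG h J A η V) :=
      (((((hB.bm).mul (BM.const _)).mul (BM.const _)).mul hG.bm).mul (BM.const _)).mul hG.bm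
    exact integral_sub (b1.trace.integrable _) (b2.trace.integrable _)
  have hpt : ∀ V, (B V * cj u (GG h J A η V)).trace = (B V * cj u G0).trace -
      s * (B V * cj u G0 * cj u (GG h J A η V)).trace -
      ∑ y, (V y : ℂ) * (B V * cj u G0 * A y * cj u (GG h J A η V)).trace := by
    intro V
    conv_lhs => rw [gg_expand S hu hA s G0 hG0 V]
    rw [mul_sub, mul_sub, Matrix.trace_sub, Matrix.trace_sub, mul_smul_comm, Matrix.trace_smul,
      smul_eq_mul, Finset.mul_sum, Matrix.trace_sum]
    congr 1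
    · rw [Matrix.mul_assoc]
    · refine Finset.sum_congr rfl fun y _ => ?_
      rw [mul_smul_comm, Matrix.trace_smul, smul_eq_mul]
      congr 2
      noncomm_ring
  have b0 : BM fun V => B V * cj u G0 := hB.bm.mul (BM.const _)
  have b1 : BM fun V => B V * cj u G0 * cj u (GG h J A η V) := b0.mul hG.bm
  have b3 : ∀ y, BM fun V => B V * cj u G0 * A y * cj u (GG h J A η V) := fun y =>
    (b0.mul (BM.const _)).mul hG.bm
  have b4 : ∀ y, BM fun V => B V * cj u G0 * A y * cj u (GG h J A η V) * A y *
        cj u (GG h J A η V) := fun y => ((b3 y).mul (BM.const _)).mul hG.bm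
  have i3 : ∀ y ∈ Finset.univ, Integrable (fun V : m → ℝ =>
      (V y : ℂ) * (B V * cj u G0 * A y * cj u (GG h J A η V)).trace) (GP m) := fun y _ =>
    int_coord_mul y (b3 y).trace
  simp only [hpt]
  have i1 : Integrable (fun V : m → ℝ => (B V * cj u G0).trace -
      s * (B V * cj u G0 * cj u (GG h J A η V)).trace) (GP m) :=
    (b0.trace.integrable _).sub ((b1.trace.integrable _).const_mul s)
  rw [integral_sub i1 (integrable_finsetSum _ i3), integral_sub (b0.trace.integrable _)
    ((b1.trace.integrable _).const_mul s), integral_const_mul, integral_finsetSum _ i3]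
  simp only [hint]
  have hpt2 : ∀ V, (B V * cj u G0 * (Psi A (cj u (GG h J A η V)) - s • (1 : Matrix n n ℂ)) *
        cj u (GG h J A η V)).trace =
      ∑ y, (B V * cj u G0 * A y * cj u (GG h J A η V) * A y * cj u (GG h J A η V)).trace -
      s * (B V * cj u G0 * cj u (GG h J A η V)).trace := by
    intro V
    rw [mul_sub, sub_mul, Matrix.trace_sub, mul_smul_comm, mul_one, smul_mul_assoc,
      Matrix.trace_smul, smul_eq_mul]
    congr 1
    unfold Psi
    rw [Finset.mul_sum, Finset.sum_mul, Matrix.trace_sum]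
    refine Finset.sum_congr rfl fun y _ => ?_
    congr 1
    noncomm_ring
  simp only [hpt2]
  rw [integral_sub (integrable_finsetSum _ fun y _ => (b4 y).trace.integrable _)
    ((b1.trace.integrable _).const_mul s), integral_const_mul,
    integral_finsetSum _ fun y _ => (b4 y).trace.integrable _, Finset.sum_sub_distrib]
  ring

end sys

end Pool.Agent.T2h98.QD
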