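import Pool.Agent.T2h98.QD.Dyson
import Pool.Agent.T2h98.QD.Stm5

/-! The resolvent without regularization: variances. -/

set_option autoImplicit false
set_option linter.unusedSectionVars false

open scoped BigOperators Matrix
open MeasureTheory ProbabilityTheory

namespace Pool.Agent.T2h98.QD

open Pool.Agent.W788.BK (nsq hs nsq_nonneg)
open Pool.Agent.W240.BK (BC BM cs_int)

variable {n : Type} [Fintype n] [DecidableEq n]

/-- the resolvent `(h + σ V - i ε)⁻¹` together with a good event -/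
structure Tru (h J J' : Matrix n n ℂ) (σ ε δ Q g p0 : ℝ) (Ω : Set (n → ℝ)) : Prop where
  hh : h.IsHermitian
  hσ : 0 < σ
  hε : 0 < ε
  hεδ : ε ≤ δ
  hQ0 : 0 ≤ Q
  hg0 : 0 ≤ g
  hp0 : 0 ≤ p0
  hJ0 : ∀ w : n → ℂ, 0 ≤ qf J w
  hQ : ∀ a b : n → ℂ, ∑ y, ‖a y‖ ^ 2 * ‖b y‖ ^ 2 ≤ Q * (qf J a * qf J b)
  hΩ : MeasurableSet Ω
  hP : (GP n).real Ωᶜ ≤ p0
  hR : ∀ V ∈ Ω, ∀ b : n → ℂ,
    qf J (Rh h σ ε V *ᵥ b) ≤ 4 * (qf J' b + δ * nsq (Rh h σ ε V *ᵥ b)) ∧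
    qf J ((Rh h σ ε V)ᴴ *ᵥ b) ≤ 4 * (qf J' b + δ * nsq ((Rh h σ ε V)ᴴ *ᵥ b))
  hJ'0 : ∀ b : n → ℂ, 0 ≤ qf J' b
  hJ' : ∀ b : n → ℂ, qf J' b ≤ nsq b / δ
  hJx : ∀ (x : n) (c : ℂ), ‖c‖ = 1 → qf J' (c • dl x) ≤ g

theorem EY_mulVec (y : n) (b : n → ℂ) : EY y *ᵥ b = Pi.single y (b y) := by
  funext x
  unfold EY
  rw [Matrix.mulVec_diagonal]
  by_cases h : x = y
  · subst h
    simp
  · rw [Pi.single_eq_of_ne h, Pi.single_eq_of_ne h, zero_mul]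

theorem form_EY (s : ℂ) (y : n) (a b : n → ℂ) :
    star a ⬝ᵥ ((s • EY y) *ᵥ b) = s * (star (a y) * b y) := by
  rw [Matrix.smul_mulVec, dotProduct_smul, smul_eq_mul, EY_mulVec]
  congr 1
  unfold dotProduct
  rw [Finset.sum_eq_single y]
  · rw [Pi.star_apply, Pi.single_eq_same]
  · intro x _ hx
    rw [Pi.single_eq_of_ne hx, mul_zero]
  · intro hy
    exact absurd (Finset.mem_univ y) hy

theorem sum_form_EY (s : ℝ) (a b : n → ℂ) :
    ∑ y, ‖star a ⬝ᵥ (((s : ℂ) • EY y) *ᵥ b)‖ ^ 2 = s ^ 2 * ∑ y, ‖a y‖ ^ 2 * ‖b y‖ ^ 2 := by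
  rw [Finset.mul_sum]
  refine Finset.sum_congr rfl fun y _ => ?_
  rw [form_EY, norm_mul, norm_mul, norm_star, Complex.norm_real, mul_pow, mul_pow,
    Real.norm_eq_abs, sq_abs]

theorem sum_le_nsq (a b : n → ℂ) : ∑ y, ‖a y‖ ^ 2 * ‖b y‖ ^ 2 ≤ nsq a * nsq b := by
  unfold nsq
  rw [Finset.sum_mul_sum]
  refine Finset.sum_le_sum fun y _ => ?_
  exact Finset.single_le_sum (f := fun z => ‖a y‖ ^ 2 * ‖b z‖ ^ 2)
    (fun z _ => by positivity) (Finset.mem_univ y)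

theorem qf_one (w : n → ℂ) : qf (1 : Matrix n n ℂ) w = nsq w := by
  unfold qf
  rw [Matrix.one_mulVec]
  unfold nsq dotProduct
  rw [Complex.re_sum]
  refine Finset.sum_congr rfl fun x _ => ?_
  rw [Pi.star_apply, RCLike.star_def, mul_comm, Complex.mul_conj, Complex.normSq_eq_norm_sq]
  exact Complex.ofReal_re _

theorem EY_herm (s : ℝ) (y : n) : ((s : ℂ) • EY y).IsHermitian := by
  unfold EY
  rw [Matrix.IsHermitian, Matrix.conjTranspose_smul, Matrix.diagonal_conjTranspose]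
  congr 1
  · simp
  · congr 1
    funext x
    by_cases h : x = y
    · subst h
      simp
    · rw [Pi.star_apply, Pi.single_eq_of_ne h, star_zero]

/-- the resolvent in the framework of regularized resolvents -/
theorem sys_rh {h : Matrix n n ℂ} (hh : h.IsHermitian) (σ ε : ℝ) (hε : 0 < ε) :
    Sys h 1 (fun y => (σ : ℂ) • EY y) ε 1 (σ ^ 2) where
  hh := hh
  hJ := Matrix.isHermitian_one
  hA := fun y => EY_herm σ y
  hη := hε
  hδ := one_pos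
  hQ0 := sq_nonneg σ
  hJδ := fun w => by rw [qf_one, one_mul]
  hQ := fun a b => by
    rw [sum_form_EY, qf_one, qf_one]
    exact mul_le_mul_of_nonneg_left (sum_le_nsq a b) (sq_nonneg σ)

section

variable {m : Type} [Fintype m] [DecidableEq m]

/-- the Poincare inequality with a bad event -/
theorem var_split (hP : T_POIN) {F : (m → ℝ) → ℂ} {D : m → (m → ℝ) → ℂ} (h : GD F D)
    {G : (m → ℝ) → ℝ} (hG : RC G) (hG0 : ∀ V, 0 ≤ G V) {c p0 : ℝ} (hc : 0 ≤ c)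
    {Ω : Set (m → ℝ)} (hΩ : MeasurableSet Ω) (hp : (GP m).real Ωᶜ ≤ p0)
    (hb1 : ∀ V ∈ Ω, ∑ y, ‖D y V‖ ^ 2 ≤ G V) (hb2 : ∀ V, ∑ y, ‖D y V‖ ^ 2 ≤ c) :
    var F ≤ ∫ V, G V ∂(GP m) + c * p0 := by
  have : IsProbabilityMeasure (GP m) := by
    show IsProbabilityMeasure (Measure.pi fun _ : m => gaussianReal 0 1)
    infer_instance
  refine (poin' hP h).trans ?_
  rw [← integral_finsetSum _ fun y _ => (RC.norm (h.bD y)).sq.integrable]
  have i1 : Integrable (fun V => Ωᶜ.indicator (fun _ => c) V) (GP m) :=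
    (integrable_const c).indicator hΩ.compl
  calc ∫ V, ∑ y, ‖D y V‖ ^ 2 ∂(GP m) ≤ ∫ V, (G V + Ωᶜ.indicator (fun _ => c) V) ∂(GP m) := by
        refine integral_mono (RC.sum _ fun y _ => (RC.norm (h.bD y)).sq).integrable
          (hG.integrable.add i1) fun V => ?_
        by_cases hV : V ∈ Ω
        · have e1 : Ωᶜ.indicator (fun _ => c) V = 0 :=
            Set.indicator_of_notMem (fun (hcc : V ∈ Ωᶜ) => hcc hV) _
          simp only [e1, add_zero]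
          exact hb1 V hV
        · have e1 : Ωᶜ.indicator (fun _ => c) V = c := Set.indicator_of_mem hV _
          simp only [e1]
          have := hb2 V
          have := hG0 V
          linarith
    _ = ∫ V, G V ∂(GP m) + c * (GP m).real Ωᶜ := by
        rw [integral_add hG.integrable i1, integral_indicator_const _ hΩ.compl, smul_eq_mul,
          mul_comm c]
    _ ≤ _ := by gcongr

end

section tru

variable {h J J' : Matrix n n ℂ} {σ ε δ Q g p0 : ℝ} {Ω : Set (n → ℝ)}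

theorem Tru.hδ (H : Tru h J J' σ ε δ Q g p0 Ω) : 0 < δ := H.hε.trans_le H.hεδ

theorem Tru.S (H : Tru h J J' σ ε δ Q g p0 Ω) :
    Sys h 1 (fun y => (σ : ℂ) • EY y) ε 1 (σ ^ 2) := sys_rh H.hh σ ε H.hε

/-- pointwise facts -/
theorem Tru.nsq_le (H : Tru h J J' σ ε δ Q g p0 Ω) (V : n → ℝ) (b : n → ℂ) :
    nsq (Rh h σ ε V *ᵥ b) ≤ nsq b / ε ^ 2 ∧ nsq ((Rh h σ ε V)ᴴ *ᵥ b) ≤ nsq b / ε ^ 2 := by
  have := nsq_gg H.S V b
  rw [mul_one] at this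
  exact this

theorem Tru.nsq_im (H : Tru h J J' σ ε δ Q g p0 Ω) (V : n → ℝ) (b : n → ℂ) :
    nsq (Rh h σ ε V *ᵥ b) ≤ (star b ⬝ᵥ (Rh h σ ε V *ᵥ b)).im / ε ∧
    nsq ((Rh h σ ε V)ᴴ *ᵥ b) ≤ (star b ⬝ᵥ (Rh h σ ε V *ᵥ b)).im / ε := by
  have := nsq_gg_im H.S V b
  rw [mul_one] at this
  exact this

theorem Tru.im0 (H : Tru h J J' σ ε δ Q g p0 Ω) (V : n → ℝ) (x : n) :
    0 ≤ (Rh h σ ε V x x).im := by
  have := form_im_nonneg H.S V (dl x)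
  rwa [form_dl] at this

/-- `qf J` of columns, general vectors -/
theorem Tru.qf_gen (H : Tru h J J' σ ε δ Q g p0 Ω) {V : n → ℝ} (hV : V ∈ Ω) (b : n → ℂ) :
    qf J (Rh h σ ε V *ᵥ b) ≤ 8 * δ * nsq b / ε ^ 2 ∧
    qf J ((Rh h σ ε V)ᴴ *ᵥ b) ≤ 8 * δ * nsq b / ε ^ 2 := by
  have hε := H.hε
  have hδ := H.hδ
  have hb := nsq_nonneg b
  have e1 : qf J' b ≤ δ * nsq b / ε ^ 2 := by
    refine (H.hJ' b).trans ?_
    rw [div_le_div_iff₀ hδ (by positivity)]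
    have h1 : ε ^ 2 ≤ δ ^ 2 := pow_le_pow_left₀ hε.le H.hεδ 2
    calc nsq b * ε ^ 2 ≤ nsq b * δ ^ 2 := by gcongr
      _ = _ := by ring
  obtain ⟨h1, h2⟩ := H.hR V hV b
  obtain ⟨h3, h4⟩ := H.nsq_le V b
  have e2 : ∀ s : ℝ, s ≤ nsq b / ε ^ 2 → 4 * (qf J' b + δ * s) ≤ 8 * δ * nsq b / ε ^ 2 := by
    intro s hs
    calc 4 * (qf J' b + δ * s) ≤ 4 * (δ * nsq b / ε ^ 2 + δ * (nsq b / ε ^ 2)) := by gcongr
      _ = _ := by ring
  exact ⟨h1.trans (e2 _ h3), h2.trans (e2 _ h4)⟩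

/-- `qf J` of columns, unit vectors with a phase -/
theorem Tru.qf_dl (H : Tru h J J' σ ε δ Q g p0 Ω) {V : n → ℝ} (hV : V ∈ Ω) (x : n) (c : ℂ)
    (hc : ‖c‖ = 1) :
    qf J (Rh h σ ε V *ᵥ (c • dl x)) ≤ 4 * (g + δ / ε * (Rh h σ ε V x x).im) ∧
    qf J ((Rh h σ ε V)ᴴ *ᵥ (c • dl x)) ≤ 4 * (g + δ / ε * (Rh h σ ε V x x).im) := by
  have hε := H.hε
  have hδ := H.hδ
  obtain ⟨h1, h2⟩ := H.hR V hV (c • dl x)
  obtain ⟨h3, h4⟩ := H.nsq_im V (c • dl x)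
  have e1 : (star (c • dl x) ⬝ᵥ (Rh h σ ε V *ᵥ (c • dl x))).im = (Rh h σ ε V x x).im := by
    rw [Matrix.mulVec_smul, star_smul, smul_dotProduct, dotProduct_smul, form_dl, smul_smul]
    have e2 : star c * c = 1 := by
      rw [RCLike.star_def, mul_comm, Complex.mul_conj, Complex.normSq_eq_norm_sq, hc]
      simp
    rw [e2, one_smul]
  rw [e1] at h3 h4
  have e3 := H.hJx x c hc
  have e2 : ∀ s : ℝ, s ≤ (Rh h σ ε V x x).im / ε →
      4 * (qf J' (c • dl x) + δ * s) ≤ 4 * (g + δ / ε * (Rh h σ ε V x x).im) := by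
    intro s hs
    calc 4 * (qf J' (c • dl x) + δ * s) ≤ 4 * (g + δ * ((Rh h σ ε V x x).im / ε)) := by gcongr
      _ = _ := by ring
  exact ⟨h1.trans (e2 _ h3), h2.trans (e2 _ h4)⟩

theorem Tru.rc_im (H : Tru h J J' σ ε δ Q g p0 Ω) (x : n) :
    RC fun V : n → ℝ => (Rh h σ ε V x x).im := RC.im (bm_gg H.S x x)

end tru

end Pool.Agent.T2h98.QD
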