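import Pool.Agent.T2h98.QD.Uni
import Pool.Agent.T2h98.QD.Avg
import Pool.Agent.T2h98.QD.Win

/-! Comparison of the time evolutions on the lattice and on the torus. -/

set_option autoImplicit false
set_option linter.unusedSectionVars false

open scoped BigOperators Matrix
open MeasureTheory

namespace Pool.Agent.T2h98.QD

open Pool.Agent.W788.MFP.Four (T e NN adj K Op Op_adj adj_neg)
open Pool.Agent.W788.BK (nsq hs PP JJ hi Low cr)

namespace Cmp

section torus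

variable {d L : ℕ} [NeZero L]

theorem HT_mulVec (σ : ℝ) (V : T d L → ℝ) (f : T d L → ℂ) (x : T d L) :
    (HT σ V *ᵥ f) x = ∑ i : Fin d, (f (x + Pi.single i 1) + f (x - Pi.single i 1)) +
      ((σ * V x : ℝ) : ℂ) * f x := by
  unfold HT
  rw [Matrix.add_mulVec, Pi.add_apply, Matrix.mulVec_diagonal]
  congr 1
  have hop : ∀ g : T d L → ℝ, Op (fun k => adj k) g =
      fun x => ∑ i, (g (x + Pi.single i 1) + g (x - Pi.single i 1)) := by
    intro g
    have := Op_adj 0 g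
    simpa using this
  apply Complex.ext
  · rw [Win.Mo_re _ (fun k => adj_neg k), hop]
    simp
  · rw [Win.Mo_im _ (fun k => adj_neg k), hop]
    simp

/-- the tent functions agree -/
theorem ff_eq_fZ {M : ℕ} (h1 : 1 ≤ M) (h2 : 2 * M ≤ L) (m : ZMod L) :
    ff M m = fZ M m.valMinAbs := by
  have hM : (0 : ℝ) < M := by exact_mod_cast h1
  have hspec := m.valMinAbs_mem_Ioc
  obtain ⟨a, ha⟩ : ∃ a : ℤ, a = m.valMinAbs := ⟨_, rfl⟩
  rw [← ha] at hspec ⊢
  rw [Set.mem_Ioc] at hspec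
  have hma : m = (a : ZMod L) := by rw [ha, ZMod.coe_valMinAbs]
  have hset : (Finset.range M ×ˢ Finset.range M).filter
      (fun p : ℕ × ℕ => ((p.1 : ℕ) : ZMod L) - ((p.2 : ℕ) : ZMod L) = m) =
      (Finset.range M ×ˢ Finset.range M).filter (fun p : ℕ × ℕ => (p.1 : ℤ) - p.2 = a) := by
    refine Finset.filter_congr fun p hp => ?_
    rw [Finset.mem_product, Finset.mem_range, Finset.mem_range] at hp
    rw [hma]
    constructor
    · intro h
      have h3 : (((p.1 : ℤ) - p.2 - a : ℤ) : ZMod L) = 0 := by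
        push_cast
        rw [h, sub_self]
      rw [ZMod.intCast_zmod_eq_zero_iff_dvd] at h3
      obtain ⟨c, hc⟩ := h3
      have hL : (0 : ℤ) < L := by exact_mod_cast Nat.pos_of_ne_zero (NeZero.ne L)
      have : c = 0 := by
        by_contra hne
        rcases lt_or_gt_of_ne hne with h | h
        · have : (L : ℤ) * c ≤ -L := by nlinarith
          omega
        · have : (L : ℤ) ≤ L * c := by nlinarith
          omega
      rw [this, mul_zero] at hc
      omega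
    · intro h
      rw [← h]
      push_cast
      ring
  unfold ff fZ
  rw [hset]
  have hcard : ((((Finset.range M ×ˢ Finset.range M).filter
      (fun p : ℕ × ℕ => (p.1 : ℤ) - p.2 = a)).card : ℕ) : ℤ) = max 0 ((M : ℤ) - |a|) := by
    rcases le_total 0 a with h | h
    · have : (Finset.range M ×ˢ Finset.range M).filter
          (fun p : ℕ × ℕ => (p.1 : ℤ) - p.2 = a) =
          (Finset.range (M - a.natAbs)).image (fun t => (t + a.natAbs, t)) := by
        ext ⟨p, q⟩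
        simp only [Finset.mem_filter, Finset.mem_product, Finset.mem_range, Finset.mem_image,
          Prod.mk.injEq]
        constructor
        · rintro ⟨⟨g1, g2⟩, g3⟩
          exact ⟨q, by omega, by omega, rfl⟩
        · rintro ⟨t, g1, g2, g3⟩
          omega
      rw [this, Finset.card_image_of_injective _ (fun s t hst => (Prod.mk.inj hst).2),
        Finset.card_range, abs_of_nonneg h]
      omega
    · have : (Finset.range M ×ˢ Finset.range M).filter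
          (fun p : ℕ × ℕ => (p.1 : ℤ) - p.2 = a) =
          (Finset.range (M - a.natAbs)).image (fun t => (t, t + a.natAbs)) := by
        ext ⟨p, q⟩
        simp only [Finset.mem_filter, Finset.mem_product, Finset.mem_range, Finset.mem_image,
          Prod.mk.injEq]
        constructor
        · rintro ⟨⟨g1, g2⟩, g3⟩
          exact ⟨p, by omega, rfl, by omega⟩
        · rintro ⟨t, g1, g2, g3⟩
          omega
      rw [this, Finset.card_image_of_injective _ (fun s t hst => (Prod.mk.inj hst).1),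
        Finset.card_range, abs_of_nonpos h]
      omega
  have hcard' : ((((Finset.range M ×ˢ Finset.range M).filter
      (fun p : ℕ × ℕ => (p.1 : ℤ) - p.2 = a)).card : ℕ) : ℝ) = max 0 ((M : ℝ) - |(a : ℝ)|) := by
    have := congrArg (fun z : ℤ => (z : ℝ)) hcard
    push_cast at this
    exact this
  rw [hcard', ← div_eq_inv_mul, ← max_div_div_right hM.le, zero_div, sub_div, div_self hM.ne']

theorem rep_inj : Function.Injective (rep : T d L → Zd d) := by
  intro k l h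
  funext i
  exact ZMod.injective_valMinAbs (congrFun h i)

theorem rep_zero : rep (0 : T d L) = 0 := by
  funext i
  simp [rep]

/-- a step on the torus is a step on the lattice, except near the boundary of the box -/
theorem step (k : T d L) (i : Fin d) (ε : ℤ) (hε : ε = 1 ∨ ε = -1) (hL : 4 ≤ L) :
    rep (k + Pi.single i (ε : ZMod L)) = rep k + Pi.single i ε ∨
      ((L : ℝ) / 4 ≤ ‖rep (k + Pi.single i (ε : ZMod L))‖ ∧
        (L : ℝ) / 4 ≤ ‖rep k + Pi.single i ε‖) := by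
  obtain ⟨a, ha⟩ : ∃ a : ℤ, a = (k i).valMinAbs := ⟨_, rfl⟩
  obtain ⟨b, hb⟩ : ∃ b : ℤ, b = (k i + (ε : ZMod L)).valMinAbs := ⟨_, rfl⟩
  have h1 := (k i).valMinAbs_mem_Ioc
  have h2 := (k i + (ε : ZMod L)).valMinAbs_mem_Ioc
  rw [← ha, Set.mem_Ioc] at h1
  rw [← hb, Set.mem_Ioc] at h2
  have h3 : ∃ c : ℤ, b - (a + ε) = L * c := by
    have : ((b - (a + ε) : ℤ) : ZMod L) = 0 := by
      push_cast
      rw [hb, ha, ZMod.coe_valMinAbs, ZMod.coe_valMinAbs, sub_self]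
    rw [ZMod.intCast_zmod_eq_zero_iff_dvd] at this
    exact this
  obtain ⟨c, hc⟩ := h3
  have hother : ∀ j, j ≠ i → rep (k + Pi.single i (ε : ZMod L)) j = (rep k + Pi.single i ε : Zd d) j := by
    intro j hj
    simp [rep, Pi.single_eq_of_ne hj]
  have hi1 : rep (k + Pi.single i (ε : ZMod L)) i = b := by simp [rep, hb]
  have hi2 : (rep k + Pi.single i ε : Zd d) i = a + ε := by simp [rep, ha]
  by_cases hc0 : c = 0
  · left
    funext j
    by_cases hj : j = i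
    · subst hj
      rw [hi1, hi2]
      rw [hc0, mul_zero] at hc
      omega
    · exact hother j hj
  · right
    have hL' : (4 : ℤ) ≤ L := by exact_mod_cast hL
    have hc1 : (L : ℤ) * c ≤ -L ∨ (L : ℤ) ≤ L * c := by
      rcases lt_or_gt_of_ne hc0 with h | h
      · left; nlinarith
      · right; nlinarith
    have g1 : (L : ℤ) ≤ 4 * |b| := by
      rcases hc1 with h | h
      · rcases hε with h' | h' <;> (rw [h'] at hc; rcases abs_cases b with ⟨h5, h6⟩ | ⟨h5, h6⟩ <;> omega)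
      · rcases hε with h' | h' <;> (rw [h'] at hc; rcases abs_cases b with ⟨h5, h6⟩ | ⟨h5, h6⟩ <;> omega)
    have g2 : (L : ℤ) ≤ 4 * |a + ε| := by
      rcases hc1 with h | h
      · rcases hε with h' | h' <;> (rw [h'] at hc ⊢; rcases abs_cases (a + ε) with ⟨h5, h6⟩ | ⟨h5, h6⟩ <;> rw [h'] at h5 h6 <;> omega)
      · rcases hε with h' | h' <;> (rw [h'] at hc ⊢; rcases abs_cases (a + ε) with ⟨h5, h6⟩ | ⟨h5, h6⟩ <;> rw [h'] at h5 h6 <;> omega)
    have g1' : (L : ℝ) ≤ 4 * |(b : ℝ)| := by exact_mod_cast g1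
    have g2' : (L : ℝ) ≤ 4 * |((a + ε : ℤ) : ℝ)| := by exact_mod_cast g2
    constructor
    · have h5 := norm_le_pi_norm (rep (k + Pi.single i (ε : ZMod L))) i
      rw [hi1, Int.norm_eq_abs] at h5
      linarith
    · have h5 := norm_le_pi_norm (rep k + Pi.single i ε) i
      rw [hi2, Int.norm_eq_abs] at h5
      linarith

end torus

section lat

variable {d : ℕ} {v : Zd d → ℝ} {ψ : ℝ → Zd d → ℂ}

theorem mass_sub (hψ : Evol v ψ) (t : ℝ) {J : Type} [Fintype J] (f : J → Zd d)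
    (hf : Function.Injective f) : ∑ j, ‖ψ t (f j)‖ ^ 2 ≤ 1 := by
  have h1 := (hψ.mass t)
  have h2 := h1.summable
  rw [← h1.tsum_eq]
  calc ∑ j, ‖ψ t (f j)‖ ^ 2 = ∑ x ∈ Finset.univ.map ⟨f, hf⟩, ‖ψ t x‖ ^ 2 := by
        rw [Finset.sum_map]; rfl
    _ ≤ _ := h2.sum_le_tsum _ fun x _ => by positivity

theorem tail_summable (hψ : Evol v ψ) (t r : ℝ) :
    Summable fun x => (if r ≤ ‖x‖ then ‖ψ t x‖ ^ 2 else 0) := by
  refine Summable.of_nonneg_of_le (fun x => ?_) (fun x => ?_) (hψ.mass t).summable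
  · split_ifs <;> positivity
  · split_ifs
    · exact le_rfl
    · positivity

theorem tail_sub (hψ : Evol v ψ) (t r : ℝ) {J : Type} (s : Finset J) (f : J → Zd d)
    (hf : Function.Injective f) (hr : ∀ j ∈ s, r ≤ ‖f j‖) :
    ∑ j ∈ s, ‖ψ t (f j)‖ ^ 2 ≤ ∑' x, (if r ≤ ‖x‖ then ‖ψ t x‖ ^ 2 else 0) := by
  calc ∑ j ∈ s, ‖ψ t (f j)‖ ^ 2 = ∑ j ∈ s, (if r ≤ ‖f j‖ then ‖ψ t (f j)‖ ^ 2 else 0) :=
        Finset.sum_congr rfl fun j hj => by rw [if_pos (hr j hj)]
    _ = ∑ x ∈ s.map ⟨f, hf⟩, (if r ≤ ‖x‖ then ‖ψ t x‖ ^ 2 else 0) := by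
        rw [Finset.sum_map]; rfl
    _ ≤ _ := (tail_summable hψ t r).sum_le_tsum _ fun x _ => by split_ifs <;> positivity

end lat

section main

variable {d L : ℕ} [NeZero L] {v : Zd d → ℝ} {ψ : ℝ → Zd d → ℂ}

/-- the sign -/
def sg (b : Bool) : ℤ := if b then 1 else -1

/-- the source term -/
noncomputable def src (ψ : ℝ → Zd d → ℂ) (t : ℝ) (k : T d L) : ℂ :=
  ∑ j : Fin d × Bool, (ψ t (rep (k + Pi.single j.1 ((sg j.2 : ℤ) : ZMod L))) -
    ψ t (rep k + Pi.single j.1 (sg j.2)))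

theorem src_term (hψ : Evol v ψ) (hL : 4 ≤ L) (t : ℝ) (j : Fin d × Bool) :
    ∑ k : T d L, ‖ψ t (rep (k + Pi.single j.1 ((sg j.2 : ℤ) : ZMod L))) -
      ψ t (rep k + Pi.single j.1 (sg j.2))‖ ^ 2 ≤
      4 * ∑' x, (if (L : ℝ) / 4 ≤ ‖x‖ then ‖ψ t x‖ ^ 2 else 0) := by
  classical
  obtain ⟨i, b⟩ := j
  have hε : sg b = 1 ∨ sg b = -1 := by
    cases b <;> simp [sg]
  obtain ⟨ε, hε'⟩ : ∃ ε : ℤ, ε = sg b := ⟨_, rfl⟩
  simp only
  rw [← hε'] at hε ⊢
  obtain ⟨s, hs⟩ : ∃ s : Finset (T d L), s = Finset.univ.filter fun k : T d L =>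
      rep (k + Pi.single i (ε : ZMod L)) ≠ (rep k + Pi.single i ε : Zd d) := ⟨_, rfl⟩
  have h0 : ∑ k : T d L, ‖ψ t (rep (k + Pi.single i (ε : ZMod L))) -
      ψ t (rep k + Pi.single i ε)‖ ^ 2 = ∑ k ∈ s, ‖ψ t (rep (k + Pi.single i (ε : ZMod L))) -
      ψ t (rep k + Pi.single i ε)‖ ^ 2 := by
    symm
    refine Finset.sum_subset (Finset.subset_univ _) fun k _ hk => ?_
    have : rep (k + Pi.single i (ε : ZMod L)) = (rep k + Pi.single i ε : Zd d) := by
      by_contra h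
      exact hk (by rw [hs, Finset.mem_filter]; exact ⟨Finset.mem_univ _, h⟩)
    rw [this, sub_self]
    simp
  have h1 : ∀ k ∈ s, (L : ℝ) / 4 ≤ ‖rep (k + Pi.single i (ε : ZMod L))‖ ∧
        (L : ℝ) / 4 ≤ ‖(rep k + Pi.single i ε : Zd d)‖ := by
    intro k hk
    rw [hs, Finset.mem_filter] at hk
    rcases step k i ε hε hL with h | h
    · exact absurd h hk.2
    · exact h
  have i1 : Function.Injective (fun k : T d L => rep (k + Pi.single i (ε : ZMod L))) := by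
    intro k k' h
    have := rep_inj h
    exact add_right_cancel this
  have i2 : Function.Injective (fun k : T d L => (rep k + Pi.single i ε : Zd d)) := by
    intro k k' h
    have h' : rep k = rep k' := add_right_cancel h
    exact rep_inj h'
  have h2 := tail_sub hψ t ((L : ℝ) / 4) s _ i1 (fun k hk => (h1 k hk).1)
  have h3 := tail_sub hψ t ((L : ℝ) / 4) s _ i2 (fun k hk => (h1 k hk).2)
  rw [h0]
  have h4 : ∀ k ∈ s, ‖ψ t (rep (k + Pi.single i (ε : ZMod L))) -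
      ψ t (rep k + Pi.single i ε)‖ ^ 2 ≤ 2 * ‖ψ t (rep (k + Pi.single i (ε : ZMod L)))‖ ^ 2 +
        2 * ‖ψ t (rep k + Pi.single i ε)‖ ^ 2 := by
    intro k _
    have g1 := norm_sub_le (ψ t (rep (k + Pi.single i (ε : ZMod L))))
      (ψ t (rep k + Pi.single i ε))
    have g2 := norm_nonneg (ψ t (rep (k + Pi.single i (ε : ZMod L))) -
      ψ t (rep k + Pi.single i ε))
    nlinarith [sq_nonneg (‖ψ t (rep (k + Pi.single i (ε : ZMod L)))‖ -
      ‖ψ t (rep k + Pi.single i ε)‖)]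
  refine (Finset.sum_le_sum h4).trans ?_
  rw [Finset.sum_add_distrib, ← Finset.mul_sum, ← Finset.mul_sum]
  linarith

theorem src_le (hψ : Evol v ψ) (hL : 4 ≤ L) (t : ℝ) :
    ∑ k : T d L, ‖src ψ t k‖ ^ 2 ≤
      (4 * d) ^ 2 * ∑' x, (if (L : ℝ) / 4 ≤ ‖x‖ then ‖ψ t x‖ ^ 2 else 0) := by
  have h1 : ∀ k : T d L, ‖src ψ t k‖ ^ 2 ≤ (2 * d) * ∑ j : Fin d × Bool,
      ‖ψ t (rep (k + Pi.single j.1 ((sg j.2 : ℤ) : ZMod L))) -
        ψ t (rep k + Pi.single j.1 (sg j.2))‖ ^ 2 := by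
    intro k
    have g1 : ‖src ψ t k‖ ≤ ∑ j : Fin d × Bool,
      ‖ψ t (rep (k + Pi.single j.1 ((sg j.2 : ℤ) : ZMod L))) -
        ψ t (rep k + Pi.single j.1 (sg j.2))‖ := norm_sum_le _ _
    have g2 := pow_le_pow_left₀ (norm_nonneg _) g1 2
    refine g2.trans (sq_sum_le_card_mul_sum_sq.trans (le_of_eq ?_))
    congr 1
    simp
    ring
  refine (Finset.sum_le_sum fun k _ => h1 k).trans ?_
  rw [← Finset.mul_sum, Finset.sum_comm]
  have h2 : ∑ j : Fin d × Bool, ∑ k : T d L,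
      ‖ψ t (rep (k + Pi.single j.1 ((sg j.2 : ℤ) : ZMod L))) -
        ψ t (rep k + Pi.single j.1 (sg j.2))‖ ^ 2 ≤
      ∑ j : Fin d × Bool, 4 * ∑' x, (if (L : ℝ) / 4 ≤ ‖x‖ then ‖ψ t x‖ ^ 2 else 0) :=
    Finset.sum_le_sum fun j _ => src_term hψ hL t j
  rw [Finset.sum_const, Finset.card_univ, nsmul_eq_mul] at h2
  have h3 : ((Fintype.card (Fin d × Bool) : ℕ) : ℝ) = 2 * d := by
    simp
    ring
  rw [h3] at h2
  calc _ ≤ (2 * (d : ℝ)) * (2 * d * (4 * ∑' x, (if (L : ℝ) / 4 ≤ ‖x‖ then ‖ψ t x‖ ^ 2 else 0))) :=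
        mul_le_mul_of_nonneg_left h2 (by positivity)
    _ = _ := by ring

/-- the generator on the torus and on the lattice -/
theorem gen_eq (σ : ℝ) (ξ : Zd d → ℝ) (ψ : ℝ → Zd d → ℂ) (t : ℝ) (k : T d L) :
    ∑ i : Fin d, (ψ t (rep k + Pi.single i 1) + ψ t (rep k - Pi.single i 1)) +
      ((σ * ξ (rep k) : ℝ) : ℂ) * ψ t (rep k) =
    (HT σ (fun k => ξ (rep k)) *ᵥ fun k => ψ t (rep k)) k - src ψ t k := by
  rw [HT_mulVec]
  have h1 : src ψ t k = ∑ i : Fin d, ((ψ t (rep (k + Pi.single i 1)) +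
      ψ t (rep (k - Pi.single i 1))) -
      (ψ t (rep k + Pi.single i 1) + ψ t (rep k - Pi.single i 1))) := by
    unfold src
    rw [Fintype.sum_prod_type]
    refine Finset.sum_congr rfl fun i _ => ?_
    rw [Fintype.sum_bool]
    simp only [sg, if_true, Int.cast_one, Bool.false_eq_true, if_false, Int.cast_neg,
      Pi.single_neg, sub_eq_add_neg]
    ring
  rw [h1, Finset.sum_sub_distrib]
  ring

theorem dot_deriv (σ : ℝ) (ξ : Zd d → ℝ) (hψ : Evol (fun x => σ * ξ x) ψ)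
    (u : T d L → ℂ) (E : ℝ) (hE : HT σ (fun k : T d L => ξ (rep k)) *ᵥ u = (E : ℂ) • u) (t : ℝ) :
    HasDerivAt (fun s => star u ⬝ᵥ fun k : T d L => ψ s (rep k))
      (-(Complex.I * (E * (star u ⬝ᵥ fun k : T d L => ψ t (rep k)) - star u ⬝ᵥ src ψ t))) t := by
  have h1 : HasDerivAt (fun s => ∑ k : T d L, star (u k) * ψ s (rep k))
      (∑ k : T d L, star (u k) * (-(Complex.I * (∑ i : Fin d, (ψ t (rep k + Pi.single i 1) +
        ψ t (rep k - Pi.single i 1)) + ((σ * ξ (rep k) : ℝ) : ℂ) * ψ t (rep k))))) t := by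
    refine HasDerivAt.fun_sum fun k _ => ?_
    exact (hψ.deriv t (rep k)).const_mul _
  have h2 : ∑ k : T d L, star (u k) * (-(Complex.I * (∑ i : Fin d, (ψ t (rep k + Pi.single i 1) +
        ψ t (rep k - Pi.single i 1)) + ((σ * ξ (rep k) : ℝ) : ℂ) * ψ t (rep k)))) =
      -(Complex.I * (star u ⬝ᵥ (HT σ (fun k : T d L => ξ (rep k)) *ᵥ fun k => ψ t (rep k)) -
        star u ⬝ᵥ src ψ t)) := by
    simp only [gen_eq, dotProduct, Pi.star_apply]
    rw [← Finset.sum_sub_distrib, Finset.mul_sum, ← Finset.sum_neg_distrib]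
    refine Finset.sum_congr rfl fun k _ => ?_
    ring
  have h3 : star u ⬝ᵥ (HT σ (fun k : T d L => ξ (rep k)) *ᵥ fun k => ψ t (rep k)) =
      E * (star u ⬝ᵥ fun k : T d L => ψ t (rep k)) := by
    rw [Matrix.dotProduct_mulVec]
    have h4 : star u ᵥ* HT σ (fun k : T d L => ξ (rep k)) =
        star (HT σ (fun k : T d L => ξ (rep k)) *ᵥ u) := by
      rw [Matrix.star_mulVec, (HT_herm σ _).eq]
    rw [h4, hE, star_smul, smul_dotProduct]
    simp
  rw [h2, h3] at h1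
  exact h1

/-- real function with bounded derivative -/
theorem mvt_bound (g g' : ℝ → ℝ) (hg : ∀ s, HasDerivAt g (g' s) s) (t B : ℝ) (ht : 0 ≤ t)
    (hB : ∀ s ∈ Set.Icc 0 t, |g' s| ≤ B) (h0 : g 0 = 0) : g t ≤ B * t := by
  have := norm_image_sub_le_of_norm_deriv_le_segment' (f := g) (f' := g') (C := B) (a := 0)
    (b := t) (fun x _ => (hg x).hasDerivWithinAt)
    (fun x hx => by rw [Real.norm_eq_abs]; exact hB x ⟨hx.1, hx.2.le⟩) t ⟨ht, le_rfl⟩
  rw [h0, sub_zero, sub_zero, Real.norm_eq_abs] at this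
  exact (le_abs_self _).trans this

/-- Duhamel -/
theorem duhamel {n : Type} [Fintype n] (b b' : ℝ → n → ℂ)
    (hb : ∀ s j, HasDerivAt (fun s => b s j) (b' s j) s) (h0 : b 0 = 0) (t B : ℝ) (ht : 0 ≤ t)
    (hB0 : 0 ≤ B) (hB : ∀ s ∈ Set.Icc 0 t, ∑ j, ‖b' s j‖ ^ 2 ≤ B ^ 2) :
    ∑ j, ‖b t j‖ ^ 2 ≤ (B * t) ^ 2 := by
  obtain ⟨N, hN⟩ : ∃ N : ℝ, N = Real.sqrt (∑ j, ‖b t j‖ ^ 2) := ⟨_, rfl⟩
  have hsum : 0 ≤ ∑ j, ‖b t j‖ ^ 2 := Finset.sum_nonneg fun j _ => by positivity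
  have hN2 : N ^ 2 = ∑ j, ‖b t j‖ ^ 2 := by rw [hN, Real.sq_sqrt hsum]
  have hN0 : 0 ≤ N := by rw [hN]; exact Real.sqrt_nonneg _
  have h1 := mvt_bound (fun s => ∑ j, ((starRingEnd ℂ (b t j)) * b s j).re)
    (fun s => ∑ j, ((starRingEnd ℂ (b t j)) * b' s j).re) (fun s => by
      refine HasDerivAt.fun_sum fun j _ => ?_
      have := ((hb s j).const_mul (starRingEnd ℂ (b t j)))
      exact Complex.reCLM.hasFDerivAt.comp_hasDerivAt s this) t (N * B) ht (fun s hs => by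
      refine (Finset.abs_sum_le_sum_abs _ _).trans ?_
      have e1 : ∑ j, |((starRingEnd ℂ (b t j)) * b' s j).re| ≤ ∑ j, ‖b t j‖ * ‖b' s j‖ :=
        Finset.sum_le_sum fun j _ => (Complex.abs_re_le_norm _).trans (by
          rw [norm_mul, Complex.norm_conj])
      refine e1.trans ((Real.sum_mul_le_sqrt_mul_sqrt _ _ _).trans ?_)
      rw [← hN]
      refine mul_le_mul_of_nonneg_left ?_ hN0
      rw [Real.sqrt_le_left hB0]
      exact hB s hs) (by simp [h0])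
  have h2 : ∑ j, ((starRingEnd ℂ (b t j)) * b t j).re = N ^ 2 := by
    rw [hN2]
    refine Finset.sum_congr rfl fun j _ => ?_
    rw [Complex.conj_mul']
    norm_cast
  rw [h2] at h1
  rw [← hN2]
  have h3 : N ≤ B * t := by
    rcases hN0.eq_or_lt with h | h
    · rw [← h]; positivity
    · have : N * N ≤ N * (B * t) := by nlinarith
      exact le_of_mul_le_mul_left this h
  exact pow_le_pow_left₀ hN0 h3 2

/-- the difference of the two evolutions -/
theorem diff_le (σ : ℝ) (ξ : Zd d → ℝ) (hψ : Evol (fun x => σ * ξ x) ψ) (t B : ℝ) (ht : 0 ≤ t)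
    (hB0 : 0 ≤ B) (hB : ∀ s ∈ Set.Icc 0 t, ∑ k : T d L, ‖src ψ s k‖ ^ 2 ≤ B ^ 2) :
    ∑ k : T d L, ‖ev (HT σ (fun k : T d L => ξ (rep k))) t k 0 - ψ t (rep k)‖ ^ 2 ≤
      (B * t) ^ 2 := by
  obtain ⟨H, hH⟩ : ∃ H, H = HT σ (fun k : T d L => ξ (rep k)) := ⟨_, rfl⟩
  obtain ⟨u, E, hE, ho⟩ := Uni.exists_basis (HT_herm σ (fun k : T d L => ξ (rep k)))
  obtain ⟨e1, e2⟩ := Uni.ev_eq _ u E hE ho
  have hpars : ∀ f : T d L → ℂ, f = ∑ j, (star (u j) ⬝ᵥ f) • u j := by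
    intro f
    rw [← Uni.proj_mulVec, e1, Matrix.one_mulVec]
  have hpars2 : ∀ f : T d L → ℂ, ∑ j, ‖star (u j) ⬝ᵥ f‖ ^ 2 = ∑ k, ‖f k‖ ^ 2 := by
    intro f
    have := Uni.nsq_sum u ho Finset.univ fun j => star (u j) ⬝ᵥ f
    rw [← hpars f] at this
    rw [← this]
    rfl
  obtain ⟨b, hb⟩ : ∃ b : ℝ → T d L → ℂ, b = fun (t : ℝ) j => star (u j 0) -
      Complex.exp ((t : ℂ) * Complex.I * E j) * (star (u j) ⬝ᵥ fun k : T d L => ψ t (rep k)) :=
    ⟨_, rfl⟩
  obtain ⟨b', hb'⟩ : ∃ b' : ℝ → T d L → ℂ, b' = fun (t : ℝ) j => -(Complex.I *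
      (Complex.exp ((t : ℂ) * Complex.I * E j) * (star (u j) ⬝ᵥ src ψ t))) := ⟨_, rfl⟩
  have hder : ∀ s j, HasDerivAt (fun s => b s j) (b' s j) s := by
    intro s j
    have g1 := dot_deriv σ ξ hψ (u j) (E j) (hE j) s
    have g2 : HasDerivAt (fun s : ℝ => Complex.exp ((s : ℂ) * Complex.I * E j))
        (Complex.exp ((s : ℂ) * Complex.I * E j) * (Complex.I * E j)) s := by
      have : HasDerivAt (fun s : ℝ => (s : ℂ) * Complex.I * E j) (Complex.I * E j) s := by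
        have := ((Complex.ofRealCLM.hasDerivAt (x := s)).mul_const (Complex.I * (E j : ℂ)))
        simpa [mul_assoc] using this
      exact this.cexp
    have g3 := (g2.mul g1).const_sub (star (u j 0))
    rw [hb, hb']
    refine g3.congr_deriv ?_
    ring
  have h0 : b 0 = 0 := by
    funext j
    rw [hb]
    simp only [Complex.ofReal_zero, zero_mul, Complex.exp_zero, one_mul, hψ.init, Pi.zero_apply]
    have : (star (u j) ⬝ᵥ fun k : T d L => (Pi.single 0 1 : Zd d → ℂ) (rep k)) = star (u j 0) := by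
      unfold dotProduct
      rw [Finset.sum_eq_single 0]
      · show star (u j) 0 * (Pi.single 0 1 : Zd d → ℂ) (rep 0) = star (u j 0)
        rw [rep_zero]; simp
      · intro k _ hk
        have : rep k ≠ 0 := by
          intro h
          exact hk (rep_inj (h.trans rep_zero.symm))
        show star (u j) k * (Pi.single 0 1 : Zd d → ℂ) (rep k) = 0
        rw [Pi.single_eq_of_ne this, mul_zero]
      · intro h
        exact absurd (Finset.mem_univ _) h
    rw [this, sub_self]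
  have hexp : ∀ (s : ℝ) (j : T d L), ‖Complex.exp ((s : ℂ) * Complex.I * E j)‖ = 1 := by
    intro s j
    have : (s : ℂ) * Complex.I * E j = ((s * E j : ℝ) : ℂ) * Complex.I := by push_cast; ring
    rw [this, Complex.norm_exp_ofReal_mul_I]
  have h1 := duhamel b b' hder h0 t B ht hB0 (fun s hs => by
    refine le_trans (le_of_eq ?_) (hB s hs)
    rw [← hpars2 (src ψ s)]
    refine Finset.sum_congr rfl fun j _ => ?_
    rw [hb']
    simp only [norm_neg, norm_mul, Complex.norm_I, hexp, one_mul])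
  refine le_trans (le_of_eq ?_) h1
  have h2 : (fun k : T d L => ev (HT σ (fun k : T d L => ξ (rep k))) t k 0 - ψ t (rep k)) =
      ∑ j, (Complex.exp (-((t : ℂ) * Complex.I * E j)) * b t j) • u j := by
    have g1 := hpars fun k : T d L => ψ t (rep k)
    funext k
    have g2 := congrFun g1 k
    rw [g2, e2 t]
    simp only [Matrix.sum_apply, Finset.sum_apply, Matrix.smul_apply, Pi.smul_apply, smul_eq_mul,
      Matrix.vecMulVec_apply, Pi.star_apply]
    rw [← Finset.sum_sub_distrib]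
    refine Finset.sum_congr rfl fun j _ => ?_
    rw [hb]
    simp only
    have g3 : Complex.exp (-((t : ℂ) * Complex.I * E j)) *
        Complex.exp ((t : ℂ) * Complex.I * E j) = 1 := by
      rw [← Complex.exp_add, neg_add_cancel, Complex.exp_zero]
    linear_combination ((star (u j) ⬝ᵥ fun k : T d L => ψ t (rep k)) * u j k) * g3
  have h3 := Uni.nsq_sum u ho Finset.univ fun j => Complex.exp (-((t : ℂ) * Complex.I * E j)) * b t j
  rw [← h2] at h3
  unfold nsq at h3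
  rw [h3]
  refine Finset.sum_congr rfl fun j _ => ?_
  rw [norm_mul, Complex.exp_neg, norm_inv, hexp, inv_one, one_mul]

theorem fZ_mem {M : ℕ} (h1 : 1 ≤ M) (a : ℤ) : 0 ≤ fZ M a ∧ fZ M a ≤ 1 := by
  have hM : (0 : ℝ) < M := by exact_mod_cast h1
  unfold fZ
  refine ⟨le_max_left _ _, max_le zero_le_one ?_⟩
  have : 0 ≤ |(a : ℝ)| / M := by positivity
  linarith

theorem obs_summable (hψ : Evol v ψ) {M : ℕ} (h1 : 1 ≤ M) (i : Fin d) (t : ℝ) :
    Summable fun x => fZ M (x i) * ‖ψ t x‖ ^ 2 := by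
  refine Summable.of_nonneg_of_le (fun x => ?_) (fun x => ?_) (hψ.mass t).summable
  · have := (fZ_mem h1 (x i)).1
    positivity
  · have := (fZ_mem h1 (x i)).2
    have h2 : 0 ≤ ‖ψ t x‖ ^ 2 := by positivity
    nlinarith

theorem obs_mem (hψ : Evol v ψ) {M : ℕ} (h1 : 1 ≤ M) (i : Fin d) (t : ℝ) :
    0 ≤ ∑' x, fZ M (x i) * ‖ψ t x‖ ^ 2 ∧ ∑' x, fZ M (x i) * ‖ψ t x‖ ^ 2 ≤ 1 := by
  constructor
  · exact tsum_nonneg fun x => mul_nonneg (fZ_mem h1 (x i)).1 (by positivity)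
  · rw [← (hψ.mass t).tsum_eq]
    refine (obs_summable hψ h1 i t).tsum_le_tsum (fun x => ?_) (hψ.mass t).summable
    have := (fZ_mem h1 (x i)).2
    have h2 : 0 ≤ ‖ψ t x‖ ^ 2 := by positivity
    nlinarith

theorem tail_le_one (hψ : Evol v ψ) (t r : ℝ) :
    ∑' x, (if r ≤ ‖x‖ then ‖ψ t x‖ ^ 2 else 0) ≤ 1 := by
  rw [← (hψ.mass t).tsum_eq]
  refine (tail_summable hψ t r).tsum_le_tsum (fun x => ?_) (hψ.mass t).summable
  split_ifs
  · exact le_rfl
  · positivity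

theorem not_range (x : Zd d) (hx : x ∉ Set.range (rep : T d L → Zd d)) : (L : ℝ) / 4 ≤ ‖x‖ := by
  by_contra hcon
  push Not at hcon
  apply hx
  refine ⟨fun i => (x i : ZMod L), ?_⟩
  funext i
  unfold rep
  have hL : 0 < L := Nat.pos_of_ne_zero (NeZero.ne L)
  have h1 : |(x i : ℝ)| < (L : ℝ) / 4 := by
    have := norm_le_pi_norm x i
    rw [Int.norm_eq_abs] at this
    linarith
  have h2 : 4 * |x i| < L := by
    have : 4 * |(x i : ℝ)| < L := by linarith
    exact_mod_cast this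
  rw [ZMod.valMinAbs_spec]
  refine ⟨rfl, ?_⟩
  rw [Set.mem_Ioc]
  have h3 := abs_cases (x i)
  have h4 : (0 : ℤ) < L := by exact_mod_cast hL
  omega

/-- restriction to the box -/
theorem box (hψ : Evol v ψ) {M : ℕ} (h1 : 1 ≤ M) (i : Fin d) (t : ℝ) :
    |∑' x, fZ M (x i) * ‖ψ t x‖ ^ 2 - ∑ k : T d L, fZ M (rep k i) * ‖ψ t (rep k)‖ ^ 2| ≤
      ∑' x, (if (L : ℝ) / 4 ≤ ‖x‖ then ‖ψ t x‖ ^ 2 else 0) := by
  classical
  obtain ⟨S, hS⟩ : ∃ S : Finset (Zd d), S = Finset.univ.map ⟨(rep : T d L → Zd d), rep_inj⟩ :=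
    ⟨_, rfl⟩
  obtain ⟨g, hg⟩ : ∃ g : Zd d → ℝ, g = fun x => fZ M (x i) * ‖ψ t x‖ ^ 2 := ⟨_, rfl⟩
  have hg0 : ∀ x, 0 ≤ g x := fun x => by
    rw [hg]; exact mul_nonneg (fZ_mem h1 (x i)).1 (by positivity)
  have hsum : Summable g := by rw [hg]; exact obs_summable hψ h1 i t
  have e1 : ∑ k : T d L, fZ M (rep k i) * ‖ψ t (rep k)‖ ^ 2 = ∑ x ∈ S, g x := by
    rw [hS, Finset.sum_map, hg]
    rfl
  have e2 : ∑ x ∈ S, g x ≤ ∑' x, g x := hsum.sum_le_tsum _ fun x _ => hg0 x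
  have e3 : ∑' x, g x ≤ ∑ x ∈ S, g x + ∑' x, (if (L : ℝ) / 4 ≤ ‖x‖ then ‖ψ t x‖ ^ 2 else 0) := by
    have f1 : ∑ x ∈ S, g x = ∑' x, (if x ∈ S then g x else 0) := by
      rw [tsum_eq_sum (s := S)]
      · exact Finset.sum_congr rfl fun x hx => by rw [if_pos hx]
      · intro x hx
        rw [if_neg hx]
    have f2 : Summable fun x => (if x ∈ S then g x else 0) :=
      summable_of_ne_finset_zero (s := S) fun x hx => by rw [if_neg hx]
    rw [f1, ← f2.tsum_add (tail_summable hψ t _)]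
    refine hsum.tsum_le_tsum (fun x => ?_) (f2.add (tail_summable hψ t _))
    by_cases hx : x ∈ S
    · rw [if_pos hx]
      have : 0 ≤ (if (L : ℝ) / 4 ≤ ‖x‖ then ‖ψ t x‖ ^ 2 else 0) := by split_ifs <;> positivity
      linarith
    · rw [if_neg hx]
      have h2 : x ∉ Set.range (rep : T d L → Zd d) := by
        rintro ⟨k, rfl⟩
        apply hx
        rw [hS]
        exact Finset.mem_map.2 ⟨k, Finset.mem_univ _, rfl⟩
      rw [if_pos (not_range x h2), zero_add, hg]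
      have := (fZ_mem h1 (x i)).2
      have h3 : 0 ≤ ‖ψ t x‖ ^ 2 := by positivity
      show fZ M (x i) * ‖ψ t x‖ ^ 2 ≤ ‖ψ t x‖ ^ 2
      nlinarith
  have e4 : ∑' x, fZ M (x i) * ‖ψ t x‖ ^ 2 = ∑' x, g x := by rw [hg]
  rw [e1, e4, abs_le]
  have e5 : 0 ≤ ∑' x, (if (L : ℝ) / 4 ≤ ‖x‖ then ‖ψ t x‖ ^ 2 else 0) :=
    tsum_nonneg fun x => by split_ifs <;> positivity
  constructor <;> linarith

/-- two vectors of norm at most one -/
theorem two_vec {n : Type} [Fintype n] (f : n → ℝ) (hf : ∀ k, 0 ≤ f k ∧ f k ≤ 1) (a b : n → ℂ)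
    (ha : ∑ k, ‖a k‖ ^ 2 ≤ 1) (hb : ∑ k, ‖b k‖ ^ 2 ≤ 1) (B : ℝ) (hB : 0 ≤ B)
    (hab : ∑ k, ‖a k - b k‖ ^ 2 ≤ B ^ 2) :
    |∑ k, f k * ‖a k‖ ^ 2 - ∑ k, f k * ‖b k‖ ^ 2| ≤ 2 * B := by
  rw [← Finset.sum_sub_distrib]
  refine (Finset.abs_sum_le_sum_abs _ _).trans ?_
  have h1 : ∀ k, |f k * ‖a k‖ ^ 2 - f k * ‖b k‖ ^ 2| ≤
      ‖a k - b k‖ * ‖a k‖ + ‖a k - b k‖ * ‖b k‖ := by
    intro k
    rw [← mul_sub, abs_mul, abs_of_nonneg (hf k).1]
    have e1 : |‖a k‖ ^ 2 - ‖b k‖ ^ 2| ≤ ‖a k - b k‖ * (‖a k‖ + ‖b k‖) := by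
      rw [sq_sub_sq, abs_mul, mul_comm, abs_of_nonneg (by positivity : 0 ≤ ‖a k‖ + ‖b k‖)]
      exact mul_le_mul_of_nonneg_right (abs_norm_sub_norm_le _ _) (by positivity)
    calc f k * |‖a k‖ ^ 2 - ‖b k‖ ^ 2| ≤ 1 * |‖a k‖ ^ 2 - ‖b k‖ ^ 2| :=
          mul_le_mul_of_nonneg_right (hf k).2 (abs_nonneg _)
      _ ≤ _ := by rw [one_mul]; exact e1.trans (le_of_eq (by ring))
  refine (Finset.sum_le_sum fun k _ => h1 k).trans ?_
  rw [Finset.sum_add_distrib]
  have s1 : Real.sqrt (∑ k, ‖a k - b k‖ ^ 2) ≤ B := by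
    rw [Real.sqrt_le_left hB]; exact hab
  have s2 : Real.sqrt (∑ k, ‖a k‖ ^ 2) ≤ 1 := by
    rw [Real.sqrt_le_left zero_le_one, one_pow]; exact ha
  have s3 : Real.sqrt (∑ k, ‖b k‖ ^ 2) ≤ 1 := by
    rw [Real.sqrt_le_left zero_le_one, one_pow]; exact hb
  have t1 : ∑ k, ‖a k - b k‖ * ‖a k‖ ≤ B := by
    refine (Real.sum_mul_le_sqrt_mul_sqrt _ _ _).trans ?_
    calc _ ≤ B * 1 := mul_le_mul s1 s2 (Real.sqrt_nonneg _) hB
      _ = B := mul_one B
  have t2 : ∑ k, ‖a k - b k‖ * ‖b k‖ ≤ B := by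
    refine (Real.sum_mul_le_sqrt_mul_sqrt _ _ _).trans ?_
    calc _ ≤ B * 1 := mul_le_mul s1 s3 (Real.sqrt_nonneg _) hB
      _ = B := mul_one B
  linarith

/-- the difference of the observables at one time -/
theorem obs_diff {C : ℝ} (hC : 0 < C)
    (htail : ∀ (v : Zd d → ℝ) (ψ : ℝ → Zd d → ℂ), Evol v ψ →
      ∀ t r : ℝ, 0 ≤ t → 0 < r → ∑' x, (if r ≤ ‖x‖ then ‖ψ t x‖ ^ 2 else 0) ≤ (C * t / r) ^ 2)
    {M : ℕ} (h1 : 1 ≤ M) (h2 : 2 * M ≤ L) (i : Fin d) (σ : ℝ) (ξ : Zd d → ℝ)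
    (hψ : Evol (fun x => σ * ξ x) ψ) (t : ℝ) (ht : 0 ≤ t) :
    |∑' x, fZ M (x i) * ‖ψ t x‖ ^ 2 - ∑ k : T d L, ff M (k i) *
      ‖ev (HT σ (fun k : T d L => ξ (rep k))) t k 0‖ ^ 2| ≤
      (32 * d * C * t ^ 2 + 4 * C * t + 3) / L := by
  have hLpos : (0 : ℝ) < L := by exact_mod_cast Nat.pos_of_ne_zero (NeZero.ne L)
  have hcol := ev_col (HT σ (fun k : T d L => ξ (rep k))) (HT_herm σ _) t 0
  have hff : ∀ k : T d L, ff M (k i) = fZ M (rep k i) := fun k => ff_eq_fZ h1 h2 (k i)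
  have hfm : ∀ k : T d L, 0 ≤ ff M (k i) ∧ ff M (k i) ≤ 1 := fun k => by
    rw [hff]; exact fZ_mem h1 _
  by_cases hL : 4 ≤ L
  · obtain ⟨y, hy⟩ : ∃ y : ℝ, y = 4 * C * t / L := ⟨_, rfl⟩
    have hy0 : 0 ≤ y := by rw [hy]; positivity
    have htl : ∀ s, 0 ≤ s → ∑' x, (if (L : ℝ) / 4 ≤ ‖x‖ then ‖ψ s x‖ ^ 2 else 0) ≤
        (4 * C * s / L) ^ 2 := by
      intro s hs
      refine (htail _ ψ hψ s ((L : ℝ) / 4) hs (by positivity)).trans (le_of_eq ?_)
      congr 1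
      field_simp
    obtain ⟨B, hB⟩ : ∃ B : ℝ, B = 4 * d * y := ⟨_, rfl⟩
    have hB0 : 0 ≤ B := by rw [hB]; positivity
    have hsrc : ∀ s ∈ Set.Icc 0 t, ∑ k : T d L, ‖src ψ s k‖ ^ 2 ≤ B ^ 2 := by
      intro s hs
      refine (src_le hψ hL s).trans ?_
      calc (4 * (d : ℝ)) ^ 2 * ∑' x, (if (L : ℝ) / 4 ≤ ‖x‖ then ‖ψ s x‖ ^ 2 else 0)
          ≤ (4 * (d : ℝ)) ^ 2 * (4 * C * s / L) ^ 2 :=
            mul_le_mul_of_nonneg_left (htl s hs.1) (by positivity)
        _ ≤ (4 * (d : ℝ)) ^ 2 * y ^ 2 := by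
            refine mul_le_mul_of_nonneg_left ?_ (by positivity)
            refine pow_le_pow_left₀ (by have := hs.1; positivity) ?_ 2
            rw [hy]
            have := hs.2
            gcongr
        _ = B ^ 2 := by rw [hB]; ring
    have hdiff := diff_le (L := L) σ ξ hψ t B ht hB0 hsrc
    have h3 := two_vec (fun k : T d L => ff M (k i)) hfm
      (fun k : T d L => ev (HT σ (fun k : T d L => ξ (rep k))) t k 0)
      (fun k : T d L => ψ t (rep k)) (le_of_eq hcol) (mass_sub hψ t rep rep_inj) (B * t)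
      (by positivity) hdiff
    have h4 := box (L := L) hψ h1 i t
    have h5 : ∑' x, (if (L : ℝ) / 4 ≤ ‖x‖ then ‖ψ t x‖ ^ 2 else 0) ≤ y := by
      have g1 := htl t ht
      have g2 := tail_le_one hψ t ((L : ℝ) / 4)
      rw [← hy] at g1
      rcases le_total y 1 with h | h
      · nlinarith
      · linarith
    simp only [hff] at h3 ⊢
    rw [abs_le] at h3 h4 ⊢
    have h6 : 2 * (B * t) + y ≤ (32 * d * C * t ^ 2 + 4 * C * t + 3) / L := by
      rw [hB, hy, le_div_iff₀ hLpos]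
      have : (2 * (4 * (d : ℝ) * (4 * C * t / L) * t) + 4 * C * t / L) * L =
          32 * d * C * t ^ 2 + 4 * C * t := by
        field_simp
        ring
      rw [this]
      linarith
    constructor <;> linarith [h3.1, h3.2, h4.1, h4.2]
  · have g1 := obs_mem hψ h1 i t
    have g2 : 0 ≤ ∑ k : T d L, ff M (k i) *
        ‖ev (HT σ (fun k : T d L => ξ (rep k))) t k 0‖ ^ 2 :=
      Finset.sum_nonneg fun k _ => mul_nonneg (hfm k).1 (by positivity)
    have g3 : ∑ k : T d L, ff M (k i) *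
        ‖ev (HT σ (fun k : T d L => ξ (rep k))) t k 0‖ ^ 2 ≤ 1 := by
      rw [← hcol]
      refine Finset.sum_le_sum fun k _ => ?_
      have := (hfm k).2
      have h3 : 0 ≤ ‖ev (HT σ (fun k : T d L => ξ (rep k))) t k 0‖ ^ 2 := by positivity
      nlinarith
    have g4 : 1 ≤ (32 * d * C * t ^ 2 + 4 * C * t + 3) / L := by
      rw [one_le_div hLpos]
      have : (L : ℝ) ≤ 3 := by
        have : L ≤ 3 := by omega
        exact_mod_cast this
      have : 0 ≤ 32 * d * C * t ^ 2 + 4 * C * t := by positivity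
      linarith
    rw [abs_le]
    constructor <;> linarith [g1.1, g1.2]

theorem obs_meas (hψ : Evol v ψ) {M : ℕ} (h1 : 1 ≤ M) (i : Fin d) :
    Measurable fun t => ∑' x, fZ M (x i) * ‖ψ t x‖ ^ 2 := by
  have hcont : ∀ x, Continuous fun t => ψ t x := fun x =>
    continuous_iff_continuousAt.2 fun t => (hψ.deriv t x).continuousAt
  refine measurable_of_tendsto_metrizable' Filter.atTop
    (f := fun (s : Finset (Zd d)) t => ∑ x ∈ s, fZ M (x i) * ‖ψ t x‖ ^ 2) (fun s => ?_) ?_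
  · refine Continuous.measurable ?_
    refine continuous_finsetSum _ fun x _ => ?_
    exact continuous_const.mul ((hcont x).norm.pow 2)
  · rw [tendsto_pi_nhds]
    intro t
    exact (obs_summable hψ h1 i t).hasSum

end main

end Cmp

/-- comparison of the lattice with the torus -/
theorem cmp (_ : T_TENT) (h : T_TAIL) : T_CMP := by
  intro d
  obtain ⟨C, hC, htail⟩ := h d
  refine ⟨16 * (32 * d * C) + 4 * (4 * C) + 2 * 3, by positivity, ?_⟩
  intro L M _ i h1 h2 σ ξ ψ hψ τ hτ1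
  have hτ : 0 < τ := by linarith
  have hLpos : (0 : ℝ) < L := by exact_mod_cast Nat.pos_of_ne_zero (NeZero.ne L)
  obtain ⟨H, hH⟩ : ∃ H, H = HT σ (fun k : T d L => ξ (rep k)) := ⟨_, rfl⟩
  obtain ⟨f, hf⟩ : ∃ f : ℝ → ℝ, f = fun t => ∑' x, fZ M (x i) * ‖ψ t x‖ ^ 2 := ⟨_, rfl⟩
  obtain ⟨g, hg⟩ : ∃ g : ℝ → ℝ, g = fun t => ∑ k : T d L, ff M (k i) * ‖ev H t k 0‖ ^ 2 :=
    ⟨_, rfl⟩
  have hfg : ∀ t, 0 ≤ t → |f t - g t| ≤ (32 * d * C * t ^ 2 + 4 * C * t + 3) / L := by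
    intro t ht
    rw [hf, hg, hH]
    exact Cmp.obs_diff hC htail h1 h2 i σ ξ hψ t ht
  have hf1 : ∀ t, |f t| ≤ 1 := by
    intro t
    have := Cmp.obs_mem hψ h1 i t
    rw [hf, abs_le]
    constructor <;> linarith [this.1, this.2]
  have hg1 : ∀ t, |g t| ≤ 1 := by
    intro t
    have hcol := ev_col H (by rw [hH]; exact HT_herm σ _) t 0
    have hfm : ∀ k : T d L, 0 ≤ ff M (k i) ∧ ff M (k i) ≤ 1 := fun k => by
      rw [Cmp.ff_eq_fZ h1 h2]; exact Cmp.fZ_mem h1 _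
    have g2 : 0 ≤ g t := by
      rw [hg]
      exact Finset.sum_nonneg fun k _ => mul_nonneg (hfm k).1 (by positivity)
    have g3 : g t ≤ 1 := by
      rw [hg, ← hcol]
      refine Finset.sum_le_sum fun k _ => ?_
      have := (hfm k).2
      have h3 : 0 ≤ ‖ev H t k 0‖ ^ 2 := by positivity
      nlinarith
    rw [abs_le]
    constructor <;> linarith
  have hfm : Measurable f := by rw [hf]; exact Cmp.obs_meas hψ h1 i
  have hgc : Continuous g := by
    rw [hg]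
    refine continuous_finsetSum _ fun k _ => ?_
    refine continuous_const.mul ?_
    have := ev_continuous (fun _ : ℝ => H) (fun t => t) continuous_const continuous_id
    exact (this.matrix_elem k 0).norm.pow 2
  have hint : ∀ F : ℝ → ℝ, Measurable F → (∀ t, |F t| ≤ 1) →
      Integrable (fun t : ℝ => Real.exp (-(t / τ)) * F t) (volume.restrict (Set.Ioi 0)) := by
    intro F hF hF1
    have := (abel_int hτ).1.bdd_mul (f := F) (c := 1) hF.aestronglyMeasurable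
      (Filter.Eventually.of_forall fun t => by simpa using hF1 t)
    refine this.congr (Filter.Eventually.of_forall fun t => ?_)
    simp only [mul_comm]
  have i1 := hint f hfm hf1
  have i2 := hint g hgc.measurable hg1
  have hW : Wz ψ i M τ - Wl H i M τ =
      τ⁻¹ * ∫ t in Set.Ioi (0 : ℝ), Real.exp (-(t / τ)) * (f t - g t) := by
    unfold Wz Wl
    rw [← mul_sub]
    congr 1
    have e1 : ∫ t in Set.Ioi (0 : ℝ), Real.exp (-(t / τ)) * ∑' x, fZ M (x i) * ‖ψ t x‖ ^ 2 =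
        ∫ t in Set.Ioi (0 : ℝ), Real.exp (-(t / τ)) * f t := by rw [hf]
    have e2 : ∫ t in Set.Ioi (0 : ℝ), Real.exp (-(t / τ)) *
        ∑ k : T d L, ff M (k i) * ‖ev H t k 0‖ ^ 2 =
        ∫ t in Set.Ioi (0 : ℝ), Real.exp (-(t / τ)) * g t := by rw [hg]
    rw [e1, e2, ← integral_sub i1 i2]
    refine integral_congr_ae (Filter.Eventually.of_forall fun t => ?_)
    simp only
    ring
  rw [← hH, hW, abs_mul, abs_of_pos (inv_pos.2 hτ)]
  have hτ2 : 0 < 2 * τ := by linarith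
  have hA := abel_int hτ2
  obtain ⟨K, hK⟩ : ∃ K : ℝ, K = (8 * (32 * d * C) * τ ^ 2 + 2 * (4 * C) * τ + 3) / L := ⟨_, rfl⟩
  have hbd : ∀ t ∈ Set.Ioi (0 : ℝ), |Real.exp (-(t / τ)) * (f t - g t)| ≤
      Real.exp (-(t / (2 * τ))) * K := by
    intro t ht
    have ht0 : (0 : ℝ) < t := ht
    obtain ⟨y, hy⟩ : ∃ y : ℝ, y = t / (2 * τ) := ⟨_, rfl⟩
    have hy0 : 0 ≤ y := by rw [hy]; positivity
    have ht2 : t = 2 * τ * y := by rw [hy]; field_simp
    have hex : Real.exp (-(t / τ)) = Real.exp (-y) * Real.exp (-y) := by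
      rw [← Real.exp_add]
      congr 1
      rw [hy]
      field_simp
      ring
    rw [abs_mul, abs_of_pos (Real.exp_pos _), hex, ← hy, mul_assoc]
    refine mul_le_mul_of_nonneg_left ?_ (Real.exp_pos _).le
    have q := Real.quadratic_le_exp_of_nonneg hy0
    have hE : Real.exp (-y) * Real.exp y = 1 := by rw [← Real.exp_add]; simp
    have hEp := Real.exp_pos (-y)
    have p1 : Real.exp (-y) * y ^ 2 ≤ 2 := by nlinarith
    have p2 : Real.exp (-y) * y ≤ 1 := by nlinarith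
    have p3 : Real.exp (-y) ≤ 1 := by rw [Real.exp_le_one_iff]; linarith
    calc Real.exp (-y) * |f t - g t| ≤
        Real.exp (-y) * ((32 * d * C * t ^ 2 + 4 * C * t + 3) / L) :=
          mul_le_mul_of_nonneg_left (hfg t ht0.le) (Real.exp_pos _).le
      _ = (128 * d * C * τ ^ 2 * (Real.exp (-y) * y ^ 2) + 8 * C * τ * (Real.exp (-y) * y) +
            3 * Real.exp (-y)) / L := by
          rw [ht2]
          ring
      _ ≤ (128 * d * C * τ ^ 2 * 2 + 8 * C * τ * 1 + 3 * 1) / L := by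
          gcongr
      _ = K := by
          rw [hK]
          ring
  have h7 : |∫ t in Set.Ioi (0 : ℝ), Real.exp (-(t / τ)) * (f t - g t)| ≤
      ∫ t in Set.Ioi (0 : ℝ), Real.exp (-(t / (2 * τ))) * K := by
    rw [← Real.norm_eq_abs]
    refine norm_integral_le_of_norm_le (hA.1.mul_const K) ?_
    refine (ae_restrict_iff' measurableSet_Ioi).2 (Filter.Eventually.of_forall fun t ht => ?_)
    rw [Real.norm_eq_abs]
    exact hbd t ht
  rw [integral_mul_const, hA.2] at h7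
  calc τ⁻¹ * |∫ t in Set.Ioi (0 : ℝ), Real.exp (-(t / τ)) * (f t - g t)|
      ≤ τ⁻¹ * (2 * τ * K) := mul_le_mul_of_nonneg_left h7 (inv_pos.2 hτ).le
    _ = (16 * (32 * d * C) * τ ^ 2 + 4 * (4 * C) * τ + 2 * 3) / L := by
        rw [hK]
        field_simp
        ring
    _ ≤ (16 * (32 * d * C) + 4 * (4 * C) + 2 * 3) * τ ^ 2 / L := by
        have g1 : τ ≤ τ ^ 2 := by nlinarith
        have g2 : 1 ≤ τ ^ 2 := by nlinarith
        gcongr
        have g3 : 4 * (4 * C) * τ ≤ 4 * (4 * C) * τ ^ 2 :=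
          mul_le_mul_of_nonneg_left g1 (by positivity)
        nlinarith

end Pool.Agent.T2h98.QD
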