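import Pool.Agent.T2h98.QD.Poi

/-! Decay of the Bessel functions (BES). -/

set_option autoImplicit false
set_option linter.unusedSectionVars false

open scoped BigOperators Topology
open MeasureTheory Filter Set

namespace Pool.Agent.T2h98.QD

namespace Bes0

/-- the oscillating exponential -/
noncomputable def ex (s k : ℝ) : ℂ := Complex.exp (((2 * s * Real.cos k : ℝ) : ℂ) * Complex.I)

lemma ex_norm (s k : ℝ) : ‖ex s k‖ = 1 := Complex.norm_exp_ofReal_mul_I _

lemma ex_cont (s : ℝ) : Continuous (ex s) := by unfold ex; fun_prop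

lemma ex_deriv (s k : ℝ) : HasDerivAt (ex s)
    ((-(2 * s * Real.sin k) : ℝ) * Complex.I * ex s k) k := by
  have h1 : HasDerivAt (fun k : ℝ => 2 * s * Real.cos k) (2 * s * (-Real.sin k)) k :=
    (Real.hasDerivAt_cos k).const_mul (2 * s)
  have h2 : HasDerivAt (fun k : ℝ => ((2 * s * Real.cos k : ℝ) : ℂ))
      ((2 * s * (-Real.sin k) : ℝ) : ℂ) k := h1.ofReal_comp
  have h3 := (h2.mul_const Complex.I).cexp
  refine h3.congr_deriv ?_
  unfold ex
  push_cast
  ring

/-- the part away from the critical point -/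
lemma away {s δ : ℝ} (hs : s ≠ 0) (h0 : 0 < δ) (h1 : δ ≤ Real.pi / 2) :
    ‖∫ k in δ..(Real.pi / 2), ex s k‖ ≤ Real.pi / (2 * |s| * δ) := by
  have hpi := Real.pi_pos
  have hsin : ∀ k ∈ Set.Icc δ (Real.pi / 2), 0 < Real.sin k := fun k hk =>
    Real.sin_pos_of_pos_of_lt_pi (by linarith [hk.1]) (by linarith [hk.2])
  have hcos : ∀ k ∈ Set.Icc δ (Real.pi / 2), 0 ≤ Real.cos k := fun k hk =>
    Real.cos_nonneg_of_neg_pi_div_two_le_of_le (by linarith [hk.1]) hk.2
  have hU : Set.uIcc δ (Real.pi / 2) = Set.Icc δ (Real.pi / 2) := Set.uIcc_of_le h1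
  have hur : ∀ k ∈ Set.uIcc δ (Real.pi / 2), HasDerivAt (fun k : ℝ => (Real.sin k)⁻¹)
      (-Real.cos k / Real.sin k ^ 2) k := fun k hk => by
    rw [hU] at hk
    exact (Real.hasDerivAt_sin k).inv (hsin k hk).ne'
  have hu : ∀ k ∈ Set.uIcc δ (Real.pi / 2), HasDerivAt (fun k : ℝ => (((Real.sin k)⁻¹ : ℝ) : ℂ))
      ((-Real.cos k / Real.sin k ^ 2 : ℝ) : ℂ) k := fun k hk => (hur k hk).ofReal_comp
  have hint : ContinuousOn (fun k : ℝ => -Real.cos k / Real.sin k ^ 2)
      (Set.uIcc δ (Real.pi / 2)) := by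
    rw [hU]
    refine (Real.continuous_cos.neg.continuousOn).div (Real.continuous_sin.pow 2).continuousOn ?_
    intro k hk
    exact pow_ne_zero 2 (hsin k hk).ne'
  have hu' : IntervalIntegrable (fun k : ℝ => ((-Real.cos k / Real.sin k ^ 2 : ℝ) : ℂ)) volume δ
      (Real.pi / 2) := (Complex.continuous_ofReal.comp_continuousOn hint).intervalIntegrable
  have hv' : IntervalIntegrable (fun k : ℝ => ((-(2 * s * Real.sin k) : ℝ) : ℂ) * Complex.I *
      ex s k) volume δ (Real.pi / 2) := by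
    apply Continuous.intervalIntegrable
    have := ex_cont s
    fun_prop
  have hparts := intervalIntegral.integral_mul_deriv_eq_deriv_mul hu (fun k _ => ex_deriv s k)
    hu' hv'
  have hlhs : ∫ k in δ..(Real.pi / 2), (((Real.sin k)⁻¹ : ℝ) : ℂ) *
      (((-(2 * s * Real.sin k) : ℝ) : ℂ) * Complex.I * ex s k) =
      (-(2 * s : ℝ) * Complex.I) * ∫ k in δ..(Real.pi / 2), ex s k := by
    rw [← intervalIntegral.integral_const_mul]
    apply intervalIntegral.integral_congr
    intro k hk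
    rw [hU] at hk
    have h2 := (hsin k hk).ne'
    have h3 : (Real.sin k : ℂ) ≠ 0 := by exact_mod_cast h2
    simp only
    push_cast
    push_cast at h3
    field_simp
  rw [hlhs] at hparts
  have hint2 : ∫ k in δ..(Real.pi / 2), Real.cos k / Real.sin k ^ 2 =
      (Real.sin δ)⁻¹ - 1 := by
    have h2 : ∀ k ∈ Set.uIcc δ (Real.pi / 2), HasDerivAt (fun k : ℝ => -(Real.sin k)⁻¹)
        (Real.cos k / Real.sin k ^ 2) k := fun k hk => by
      have := (hur k hk).neg
      refine this.congr_deriv ?_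
      ring
    have h3 : IntervalIntegrable (fun k : ℝ => Real.cos k / Real.sin k ^ 2) volume δ
        (Real.pi / 2) := by
      have := hint.neg.intervalIntegrable (μ := volume)
      refine this.congr (fun k _ => ?_)
      simp only [Pi.neg_apply]
      ring
    rw [intervalIntegral.integral_eq_sub_of_hasDerivAt h2 h3, Real.sin_pi_div_two]
    ring
  have hbound : ‖∫ k in δ..(Real.pi / 2), ((-Real.cos k / Real.sin k ^ 2 : ℝ) : ℂ) * ex s k‖ ≤
      (Real.sin δ)⁻¹ - 1 := by
    rw [← hint2]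
    apply intervalIntegral.norm_integral_le_of_norm_le h1
    · refine ae_of_all _ fun k hk => ?_
      have hk' : k ∈ Set.Icc δ (Real.pi / 2) := ⟨hk.1.le, hk.2⟩
      rw [norm_mul, ex_norm, mul_one, Complex.norm_real, Real.norm_eq_abs, abs_div, abs_neg,
        abs_of_nonneg (hcos k hk'), abs_of_nonneg (sq_nonneg _)]
    · have := hint.neg.intervalIntegrable (μ := volume)
      refine this.congr (fun k _ => ?_)
      simp only [Pi.neg_apply]
      ring
  have hsd : 0 < Real.sin δ := hsin δ ⟨le_rfl, h1⟩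
  have hn : ‖(-(2 * s : ℝ) * Complex.I) * ∫ k in δ..(Real.pi / 2), ex s k‖ ≤
      2 * (Real.sin δ)⁻¹ := by
    rw [hparts]
    refine (norm_sub_le _ _).trans ?_
    have h2 : ‖(((Real.sin (Real.pi / 2))⁻¹ : ℝ) : ℂ) * ex s (Real.pi / 2) -
        (((Real.sin δ)⁻¹ : ℝ) : ℂ) * ex s δ‖ ≤ 1 + (Real.sin δ)⁻¹ := by
      refine (norm_sub_le _ _).trans ?_
      rw [norm_mul, norm_mul, ex_norm, ex_norm, Complex.norm_real, Complex.norm_real,
        Real.sin_pi_div_two, Real.norm_eq_abs, Real.norm_eq_abs, abs_of_pos (inv_pos.2 hsd)]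
      simp
    linarith
  rw [norm_mul, norm_mul, norm_neg, Complex.norm_real, Complex.norm_I, mul_one, Real.norm_eq_abs,
    abs_mul, abs_of_pos (by norm_num : (0:ℝ) < 2)] at hn
  have hs0 : 0 < |s| := abs_pos.2 hs
  have h2 : (Real.sin δ)⁻¹ ≤ Real.pi / (2 * δ) := by
    rw [inv_le_comm₀ hsd (by positivity), inv_div]
    have := Real.mul_le_sin h0.le h1
    calc 2 * δ / Real.pi = 2 / Real.pi * δ := by ring
      _ ≤ _ := this
  have h3 : 2 * |s| * ‖∫ k in δ..(Real.pi / 2), ex s k‖ ≤ 2 * (Real.pi / (2 * δ)) := by linarith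
  rw [le_div_iff₀ (by positivity)]
  have h4 : 2 * (Real.pi / (2 * δ)) * δ = Real.pi := by field_simp
  nlinarith

/-- a quarter of the period -/
lemma quarter {s : ℝ} (hs : 1 ≤ |s|) :
    ‖∫ k in (0:ℝ)..(Real.pi / 2), ex s k‖ ≤ (1 + Real.pi / 2) / Real.sqrt |s| := by
  have hs0 : 0 < |s| := by linarith
  have hsne : s ≠ 0 := abs_pos.1 hs0
  set q := Real.sqrt |s| with hq
  have hq0 : 0 < q := Real.sqrt_pos.2 hs0
  have hq2 : q ^ 2 = |s| := Real.sq_sqrt hs0.le
  have hq1 : 1 ≤ q := by nlinarith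
  have hd : (1 / q : ℝ) ≤ Real.pi / 2 := by
    have h1 : 1 / q ≤ 1 := by rw [div_le_one hq0]; exact hq1
    have := Real.pi_gt_three
    linarith
  have hci : ∀ a b : ℝ, IntervalIntegrable (ex s) volume a b := fun a b =>
    (ex_cont s).intervalIntegrable a b
  have h1 := intervalIntegral.integral_add_adjacent_intervals (hci 0 (1 / q))
    (hci (1 / q) (Real.pi / 2))
  rw [← h1]
  refine (norm_add_le _ _).trans ?_
  have h2 : ‖∫ k in (0:ℝ)..(1 / q), ex s k‖ ≤ 1 * |1 / q - 0| :=
    intervalIntegral.norm_integral_le_of_norm_le_const fun k _ => (ex_norm s k).le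
  rw [sub_zero, abs_of_pos (by positivity), one_mul] at h2
  have h3 := away (s := s) hsne (by positivity : 0 < 1 / q) hd
  have h4 : Real.pi / (2 * |s| * (1 / q)) = (Real.pi / 2) / q := by
    rw [← hq2]
    field_simp
  rw [h4] at h3
  calc _ ≤ 1 / q + (Real.pi / 2) / q := add_le_add h2 h3
    _ = _ := by ring

/-- reflections -/
lemma ex_neg (s k : ℝ) : ex s (-k) = ex s k := by unfold ex; rw [Real.cos_neg]

lemma ex_pi (s k : ℝ) : ex s (Real.pi - k) = ex (-s) k := by
  unfold ex; rw [Real.cos_pi_sub]; congr 2; push_cast; ring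

lemma full (s : ℝ) : ∫ k in (-Real.pi)..Real.pi, ex s k =
    2 * ((∫ k in (0:ℝ)..(Real.pi / 2), ex s k) + ∫ k in (0:ℝ)..(Real.pi / 2), ex (-s) k) := by
  have hci : ∀ a b : ℝ, IntervalIntegrable (ex s) volume a b := fun a b =>
    (ex_cont s).intervalIntegrable a b
  have h1 := intervalIntegral.integral_add_adjacent_intervals (hci (-Real.pi) 0) (hci 0 Real.pi)
  have h2 := intervalIntegral.integral_add_adjacent_intervals (hci 0 (Real.pi / 2))
    (hci (Real.pi / 2) Real.pi)
  have h3 : ∫ k in (-Real.pi)..(0:ℝ), ex s k = ∫ k in (0:ℝ)..Real.pi, ex s k := by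
    have h4 := intervalIntegral.integral_comp_neg (a := (0:ℝ)) (b := Real.pi) (ex s)
    rw [neg_zero] at h4
    rw [← h4]
    simp only [ex_neg]
  have h5 : ∫ k in (Real.pi / 2)..Real.pi, ex s k = ∫ k in (0:ℝ)..(Real.pi / 2), ex (-s) k := by
    have h6 := intervalIntegral.integral_comp_sub_left (a := (0:ℝ)) (b := Real.pi / 2) (ex s)
      Real.pi
    simp only [ex_pi, sub_zero] at h6
    have e : Real.pi - Real.pi / 2 = Real.pi / 2 := by ring
    rw [e] at h6
    exact h6.symm
  rw [← h1, h3, ← h2, h5]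
  ring

lemma jb_eq (s : ℝ) : jb s = ((2 * Real.pi : ℝ) : ℂ)⁻¹ * ∫ k in (-Real.pi)..Real.pi, ex s k := rfl

lemma jb_large {s : ℝ} (hs : 1 ≤ |s|) : ‖jb s‖ ≤ 2 / Real.sqrt |s| := by
  have hpi := Real.pi_pos
  have hpi3 := Real.pi_gt_three
  have h1 := quarter hs
  have h2 := quarter (s := -s) (by rwa [abs_neg])
  rw [abs_neg] at h2
  rw [jb_eq, full, norm_mul, norm_inv, Complex.norm_real, Real.norm_eq_abs,
    abs_of_pos (by positivity), norm_mul]
  have h3 : ‖(2 : ℂ)‖ = 2 := by norm_num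
  rw [h3]
  have h4 : ‖(∫ k in (0:ℝ)..(Real.pi / 2), ex s k) + ∫ k in (0:ℝ)..(Real.pi / 2), ex (-s) k‖ ≤
      2 * ((1 + Real.pi / 2) / Real.sqrt |s|) := (norm_add_le _ _).trans (by linarith)
  have hs0 : 0 < Real.sqrt |s| := Real.sqrt_pos.2 (by linarith)
  calc (2 * Real.pi)⁻¹ * (2 * ‖_‖) ≤ (2 * Real.pi)⁻¹ * (2 * (2 * ((1 + Real.pi / 2) /
        Real.sqrt |s|))) := by gcongr
    _ = (2 / Real.pi + 1) / Real.sqrt |s| := by field_simp
    _ ≤ 2 / Real.sqrt |s| := by
        apply div_le_div_of_nonneg_right _ hs0.le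
        have : 2 / Real.pi ≤ 1 := by rw [div_le_one hpi]; linarith
        linarith

lemma kb_large {s : ℝ} (hs : s ≠ 0) : ‖kb s‖ ≤ 2 / |s| := by
  have hpi := Real.pi_pos
  have hs0 : 0 < |s| := abs_pos.2 hs
  have hu : ∀ k ∈ Set.uIcc (-Real.pi) Real.pi, HasDerivAt
      (fun k : ℝ => ((4 * Real.sin k : ℝ) : ℂ)) ((4 * Real.cos k : ℝ) : ℂ) k := fun k _ =>
    ((Real.hasDerivAt_sin k).const_mul 4).ofReal_comp
  have hu' : IntervalIntegrable (fun k : ℝ => ((4 * Real.cos k : ℝ) : ℂ)) volume (-Real.pi)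
      Real.pi := by
    apply Continuous.intervalIntegrable
    fun_prop
  have hv' : IntervalIntegrable (fun k : ℝ => ((-(2 * s * Real.sin k) : ℝ) : ℂ) * Complex.I *
      ex s k) volume (-Real.pi) Real.pi := by
    apply Continuous.intervalIntegrable
    have := ex_cont s
    fun_prop
  have hparts := intervalIntegral.integral_mul_deriv_eq_deriv_mul hu (fun k _ => ex_deriv s k)
    hu' hv'
  have hlhs : ∫ k in (-Real.pi)..Real.pi, ((4 * Real.sin k : ℝ) : ℂ) *
      (((-(2 * s * Real.sin k) : ℝ) : ℂ) * Complex.I * ex s k) =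
      (-(2 * s : ℝ) * Complex.I) * ∫ k in (-Real.pi)..Real.pi, ((4 * Real.sin k ^ 2 : ℝ) : ℂ) *
        Complex.exp (((2 * s * Real.cos k : ℝ) : ℂ) * Complex.I) := by
    rw [← intervalIntegral.integral_const_mul]
    apply intervalIntegral.integral_congr
    intro k _
    simp only [ex]
    push_cast
    ring
  rw [hlhs] at hparts
  simp only [Real.sin_pi, Real.sin_neg, neg_zero, mul_zero, Complex.ofReal_zero, zero_mul,
    sub_zero, zero_sub] at hparts
  have h2 : ‖∫ k in (-Real.pi)..Real.pi, ((4 * Real.cos k : ℝ) : ℂ) * ex s k‖ ≤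
      4 * |Real.pi - -Real.pi| := by
    apply intervalIntegral.norm_integral_le_of_norm_le_const
    intro k _
    rw [norm_mul, ex_norm, mul_one, Complex.norm_real, Real.norm_eq_abs, abs_mul,
      abs_of_pos (by norm_num : (0:ℝ) < 4)]
    have := Real.abs_cos_le_one k
    linarith
  have h3 : |Real.pi - -Real.pi| = 2 * Real.pi := by
    rw [sub_neg_eq_add, ← two_mul, abs_of_pos (by positivity)]
  rw [h3] at h2
  have h4 := congrArg norm hparts
  rw [norm_mul, norm_mul, norm_neg, Complex.norm_real, Complex.norm_I, mul_one, Real.norm_eq_abs,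
    abs_mul, abs_of_pos (by norm_num : (0:ℝ) < 2), norm_neg] at h4
  unfold kb
  rw [norm_mul, norm_inv, Complex.norm_real, Real.norm_eq_abs,
    abs_of_pos (by positivity : 0 < 2 * Real.pi), le_div_iff₀ hs0, inv_mul_eq_div,
    div_mul_eq_mul_div, div_le_iff₀ (by positivity)]
  nlinarith

end Bes0

open Bes0 in
/-- **decay of the Bessel functions** -/
theorem bes : T_BES := by
  refine ⟨8, by norm_num, fun s => ?_⟩
  have h0 := abs_nonneg s
  rcases le_total 1 |s| with hs | hs
  · have hs0 : 0 < |s| := by linarith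
    constructor
    · refine (jb_large hs).trans ?_
      rw [div_le_div_iff₀ (Real.sqrt_pos.2 hs0) (Real.sqrt_pos.2 (by linarith))]
      have h1 : Real.sqrt (1 + |s|) ≤ 4 * Real.sqrt |s| := by
        rw [Real.sqrt_le_left (by positivity), mul_pow, Real.sq_sqrt hs0.le]
        linarith
      linarith
    · refine (kb_large (abs_pos.1 hs0)).trans ?_
      rw [div_le_div_iff₀ hs0 (by linarith)]
      linarith
  · constructor
    · refine (Poi0.jb_norm s).trans ?_
      rw [le_div_iff₀ (Real.sqrt_pos.2 (by linarith)), one_mul, Real.sqrt_le_left (by norm_num)]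
      linarith
    · refine (Poi0.kb_norm s).trans ?_
      rw [le_div_iff₀ (by linarith)]
      linarith

end Pool.Agent.T2h98.QD
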