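import Pool.Agent.T2h98.QD.Stm5

/-! From Abel means to time windows (ABEL). -/

set_option autoImplicit false
set_option linter.unusedSectionVars false

open scoped BigOperators Topology
open MeasureTheory Filter Set

namespace Pool.Agent.T2h98.QD

namespace Abel0

/-- the trapezoid -/
noncomputable def trap (a b δ t : ℝ) : ℝ := max 0 (min 1 (min ((t - a) / δ + 1) ((b - t) / δ + 1)))

lemma trap_cont {a b δ : ℝ} : Continuous (trap a b δ) := by unfold trap; fun_prop

lemma trap_nonneg (a b δ t : ℝ) : 0 ≤ trap a b δ t := le_max_left _ _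

lemma trap_le (a b δ t : ℝ) : trap a b δ t ≤ 1 := max_le zero_le_one (min_le_left _ _)

lemma trap_one {a b δ t : ℝ} (hδ : 0 < δ) (h1 : a ≤ t) (h2 : t ≤ b) : trap a b δ t = 1 := by
  unfold trap
  have h3 : 0 ≤ (t - a) / δ := div_nonneg (by linarith) hδ.le
  have h4 : 0 ≤ (b - t) / δ := div_nonneg (by linarith) hδ.le
  rw [min_eq_left (le_min (by linarith) (by linarith)), max_eq_right zero_le_one]

lemma trap_right {a b δ t : ℝ} (hδ : 0 < δ) (h : b + δ ≤ t) : trap a b δ t = 0 := by
  unfold trap
  apply max_eq_left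
  refine (min_le_right _ _).trans ((min_le_right _ _).trans ?_)
  have : (b - t) / δ ≤ -1 := by rw [div_le_iff₀ hδ]; linarith
  linarith

lemma trap_left {a b δ t : ℝ} (hδ : 0 < δ) (h : t ≤ a - δ) : trap a b δ t = 0 := by
  unfold trap
  apply max_eq_left
  refine (min_le_right _ _).trans ((min_le_left _ _).trans ?_)
  have : (t - a) / δ ≤ -1 := by rw [div_le_iff₀ hδ]; linarith
  linarith

/-- the approximation of an interval by a polynomial in `exp (-t)` -/
theorem approx {a b δ η : ℝ} (hab : a ≤ b) (hδ : 0 < δ) (hη : 0 < η) :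
    ∃ P : Polynomial ℝ, ∀ t : ℝ, 0 < t →
      |(Set.Ioc a b).indicator (fun _ => (1 : ℝ)) t - Real.exp (-t) * P.eval (Real.exp (-t))| ≤
        (Set.Icc (a - δ) a).indicator (fun _ => (1 : ℝ)) t +
        (Set.Icc b (b + δ)).indicator (fun _ => (1 : ℝ)) t + η * Real.exp (-t) := by
  set c : ℝ := Real.exp (-(b + δ)) with hc
  have hc0 : 0 < c := Real.exp_pos _
  set ψ : ℝ → ℝ := fun u => trap a b δ (-Real.log (max u c)) / max u c with hψ
  have hψc : Continuous ψ := by
    have h1 : Continuous fun u : ℝ => max u c := by fun_prop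
    have h2 : ∀ u : ℝ, max u c ≠ 0 := fun u => (lt_of_lt_of_le hc0 (le_max_right _ _)).ne'
    exact (trap_cont.comp (Continuous.log h1 h2).neg).div h1 h2
  obtain ⟨P, hP⟩ := exists_polynomial_near_of_continuousOn 0 1 ψ hψc.continuousOn η hη
  refine ⟨P, fun t ht => ?_⟩
  have he0 := Real.exp_pos (-t)
  have he1 : Real.exp (-t) ≤ 1 := by
    rw [Real.exp_le_one_iff]; linarith
  have h1 : Real.exp (-t) * ψ (Real.exp (-t)) = trap a b δ t := by
    simp only [hψ]
    rcases le_or_gt c (Real.exp (-t)) with h | h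
    · rw [max_eq_left h, Real.log_exp, neg_neg]
      field_simp
    · rw [max_eq_right h.le, hc, Real.log_exp, neg_neg, trap_right hδ le_rfl, zero_div, mul_zero]
      rw [hc, Real.exp_lt_exp] at h
      exact (trap_right hδ (by linarith)).symm
  have h2 := (hP (Real.exp (-t)) ⟨he0.le, he1⟩).le
  have h3 : |trap a b δ t - Real.exp (-t) * P.eval (Real.exp (-t))| ≤ η * Real.exp (-t) := by
    rw [← h1, ← mul_sub, abs_mul, abs_of_pos he0, abs_sub_comm, mul_comm]
    exact mul_le_mul_of_nonneg_right h2 he0.le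
  have h4 : |(Set.Ioc a b).indicator (fun _ => (1 : ℝ)) t - trap a b δ t| ≤
      (Set.Icc (a - δ) a).indicator (fun _ => (1 : ℝ)) t +
        (Set.Icc b (b + δ)).indicator (fun _ => (1 : ℝ)) t := by
    have n1 : 0 ≤ (Set.Icc (a - δ) a).indicator (fun _ => (1 : ℝ)) t :=
      Set.indicator_nonneg (fun _ _ => zero_le_one) _
    have n2 : 0 ≤ (Set.Icc b (b + δ)).indicator (fun _ => (1 : ℝ)) t :=
      Set.indicator_nonneg (fun _ _ => zero_le_one) _
    have t0 := trap_nonneg a b δ t
    have t1 := trap_le a b δ t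
    by_cases hin : t ∈ Set.Ioc a b
    · rw [Set.indicator_of_mem hin, trap_one hδ hin.1.le hin.2]
      simp only [sub_self, abs_zero]
      positivity
    · rw [Set.indicator_of_notMem hin, zero_sub, abs_neg, abs_of_nonneg t0]
      rcases le_or_gt t a with h5 | h5
      · rcases le_or_gt (a - δ) t with h6 | h6
        · rw [Set.indicator_of_mem (show t ∈ Set.Icc (a - δ) a from ⟨h6, h5⟩)]
          linarith
        · rw [trap_left hδ h6.le]
          positivity
      · have h6 : b < t := by
          by_contra h7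
          exact hin ⟨h5, not_lt.1 h7⟩
        rcases le_or_gt t (b + δ) with h7 | h7
        · rw [Set.indicator_of_mem (show t ∈ Set.Icc b (b + δ) from ⟨h6.le, h7⟩)]
          linarith
        · rw [trap_right hδ h7.le]
          positivity
  have h5 := abs_sub_le ((Set.Ioc a b).indicator (fun _ => (1 : ℝ)) t) (trap a b δ t)
    (Real.exp (-t) * P.eval (Real.exp (-t)))
  linarith

lemma exp_int (c : ℝ) (hc : 0 < c) : IntegrableOn (fun t : ℝ => Real.exp (-(c * t))) (Ioi 0) := by
  have := integrableOn_exp_mul_Ioi (a := -c) (by linarith) 0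
  simpa only [neg_mul] using this

lemma mul_int {c : ℝ} (hc : 0 < c) {H : ℝ → ℂ} (hm : Measurable H) {M : ℝ} (hM : ∀ t, ‖H t‖ ≤ M) :
    IntegrableOn (fun t : ℝ => ((Real.exp (-(c * t)) : ℝ) : ℂ) * H t) (Ioi 0) := by
  refine Integrable.mono' ((exp_int c hc).mul_const M) ?_ ?_
  · exact ((by fun_prop : Measurable fun t : ℝ => ((Real.exp (-(c * t)) : ℝ) : ℂ)).mul
      hm).aestronglyMeasurable
  · refine ae_of_all _ fun t => ?_
    rw [norm_mul, Complex.norm_real, Real.norm_eq_abs, abs_of_pos (Real.exp_pos _)]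
    exact mul_le_mul_of_nonneg_left (hM t) (Real.exp_nonneg _)

end Abel0

open Abel0 in
/-- **from Abel means to time windows** -/
theorem abel : T_ABEL := by
  intro ι l F F0 hF hF0 bF bF0 hlim a b ha hab
  -- the differences
  set H : ι → ℝ → ℂ := fun i t => F i t - F0 t with hH
  have hHm : ∀ i, Measurable (H i) := fun i => (hF i).sub hF0
  have hHb : ∀ i t, ‖H i t‖ ≤ 2 := fun i t => (norm_sub_le _ _).trans (by
    have := bF i t
    have := bF0 t
    linarith)
  have hii : ∀ {f : ℝ → ℂ}, Measurable f → (∀ t, ‖f t‖ ≤ 1) → IntervalIntegrable f volume a b := by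
    intro f hf hb
    rw [intervalIntegrable_iff]
    refine Measure.integrableOn_of_bounded (M := 1) ?_ hf.aestronglyMeasurable
      (ae_of_all _ fun t => hb t)
    exact (measure_Ioc_lt_top).ne
  have hk : ∀ k : ℕ, Tendsto (fun i => ∫ t in Set.Ioi (0 : ℝ),
      ((Real.exp (-(((k : ℝ) + 1) * t)) : ℝ) : ℂ) * H i t) l (𝓝 0) := by
    intro k
    have hk0 : (0 : ℝ) < (k : ℝ) + 1 := by positivity
    have h1 := hlim (1 / ((k : ℝ) + 1)) (by positivity)
    have e : ∀ t : ℝ, t / (1 / ((k : ℝ) + 1)) = ((k : ℝ) + 1) * t := by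
      intro t; field_simp
    simp only [e] at h1
    have h2 := h1.sub_const (∫ t in Set.Ioi (0 : ℝ),
      ((Real.exp (-(((k : ℝ) + 1) * t)) : ℝ) : ℂ) * F0 t)
    rw [sub_self] at h2
    refine h2.congr fun i => ?_
    rw [← integral_sub (mul_int hk0 (hF i) (bF i)) (mul_int hk0 hF0 bF0)]
    congr 1
    funext t
    simp only [hH]
    ring
  have hpoly : ∀ P : Polynomial ℝ, Tendsto (fun i => ∫ t in Set.Ioi (0 : ℝ),
      ((Real.exp (-t) * P.eval (Real.exp (-t)) : ℝ) : ℂ) * H i t) l (𝓝 0) := by
    intro P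
    have h1 : ∀ i, ∫ t in Set.Ioi (0 : ℝ),
        ((Real.exp (-t) * P.eval (Real.exp (-t)) : ℝ) : ℂ) * H i t =
        ∑ k ∈ Finset.range (P.natDegree + 1), ((P.coeff k : ℝ) : ℂ) * ∫ t in Set.Ioi (0 : ℝ),
          ((Real.exp (-(((k : ℝ) + 1) * t)) : ℝ) : ℂ) * H i t := by
      intro i
      simp only [← integral_const_mul]
      rw [← integral_finsetSum]
      · congr 1
        funext t
        rw [Polynomial.eval_eq_sum_range, Finset.mul_sum, Complex.ofReal_sum, Finset.sum_mul]
        apply Finset.sum_congr rfl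
        intro k _
        have e : Real.exp (-(((k : ℝ) + 1) * t)) = Real.exp (-t) * Real.exp (-t) ^ k := by
          rw [← Real.exp_nat_mul, ← Real.exp_add]; congr 1; ring
        rw [e]
        push_cast
        ring
      · intro k _
        exact (mul_int (by positivity) (hHm i) (hHb i)).const_mul _
    simp only [h1]
    have h2 : Tendsto (fun i => ∑ k ∈ Finset.range (P.natDegree + 1), ((P.coeff k : ℝ) : ℂ) *
        ∫ t in Set.Ioi (0 : ℝ), ((Real.exp (-(((k : ℝ) + 1) * t)) : ℝ) : ℂ) * H i t) l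
        (𝓝 (∑ k ∈ Finset.range (P.natDegree + 1), ((P.coeff k : ℝ) : ℂ) * 0)) :=
      tendsto_finsetSum _ fun k _ => (hk k).const_mul _
    simpa using h2
  -- the reduction
  suffices hmain : Tendsto (fun i => ∫ t in a..b, H i t) l (𝓝 0) by
    have h1 := hmain.add_const (∫ t in a..b, F0 t)
    rw [zero_add] at h1
    refine h1.congr fun i => ?_
    simp only [hH]
    rw [intervalIntegral.integral_sub (hii (hF i) (bF i)) (hii hF0 bF0), sub_add_cancel]
  rw [Metric.tendsto_nhds]
  intro ε hε
  obtain ⟨P, hP⟩ := approx (a := a) (b := b) (δ := ε / 16) (η := ε / 8) hab (by positivity)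
    (by positivity)
  have hev := (Metric.tendsto_nhds.1 (hpoly P)) (ε / 4) (by positivity)
  filter_upwards [hev] with i hi
  rw [dist_zero_right] at hi ⊢
  -- the error
  have hPc : Continuous fun t : ℝ => Real.exp (-t) * P.eval (Real.exp (-t)) := by fun_prop
  have hb1 : IntegrableOn (fun t : ℝ => (Set.Icc (a - ε / 16) a).indicator (fun _ => (1 : ℝ)) t)
      (Ioi 0) := by
    apply Integrable.integrableOn
    rw [integrable_indicator_iff measurableSet_Icc]
    exact (continuous_const.integrableOn_Icc)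
  have hb2 : IntegrableOn (fun t : ℝ => (Set.Icc b (b + ε / 16)).indicator (fun _ => (1 : ℝ)) t)
      (Ioi 0) := by
    apply Integrable.integrableOn
    rw [integrable_indicator_iff measurableSet_Icc]
    exact (continuous_const.integrableOn_Icc)
  have hb3 : IntegrableOn (fun t : ℝ => ε / 8 * Real.exp (-t)) (Ioi 0) := by
    have h : Integrable (fun t : ℝ => ε / 8 * Real.exp (-(1 * t))) (volume.restrict (Ioi 0)) :=
      (exp_int 1 one_pos).const_mul (ε / 8)
    simp only [one_mul] at h
    exact h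
  have hb12 : IntegrableOn (fun t : ℝ => (Set.Icc (a - ε / 16) a).indicator
      (fun _ => (1 : ℝ)) t + (Set.Icc b (b + ε / 16)).indicator (fun _ => (1 : ℝ)) t) (Ioi 0) :=
    hb1.add hb2
  have hbound : IntegrableOn (fun t : ℝ => 2 * ((Set.Icc (a - ε / 16) a).indicator
      (fun _ => (1 : ℝ)) t + (Set.Icc b (b + ε / 16)).indicator (fun _ => (1 : ℝ)) t +
      ε / 8 * Real.exp (-t))) (Ioi 0) := (hb12.add hb3).const_mul 2
  have hvol : ∀ x y : ℝ, x ≤ y → ∫ t in Ioi (0:ℝ), (Set.Icc x y).indicator (fun _ => (1 : ℝ)) t ≤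
      y - x := by
    intro x y hxy
    rw [integral_indicator measurableSet_Icc, Measure.restrict_restrict measurableSet_Icc,
      setIntegral_const, smul_eq_mul, mul_one]
    have h1 : (volume : Measure ℝ).real (Set.Icc x y ∩ Ioi 0) ≤ volume.real (Set.Icc x y) :=
      measureReal_mono Set.inter_subset_left (measure_Icc_lt_top).ne
    refine h1.trans_eq ?_
    rw [Real.volume_real_Icc_of_le hxy]
  have hI : ∫ t in a..b, H i t = ∫ t in Ioi (0:ℝ),
      (((Set.Ioc a b).indicator (fun _ => (1 : ℝ)) t : ℝ) : ℂ) * H i t := by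
    rw [intervalIntegral.integral_of_le hab]
    have h1 : ∀ t, (((Set.Ioc a b).indicator (fun _ => (1 : ℝ)) t : ℝ) : ℂ) * H i t =
        (Set.Ioc a b).indicator (H i) t := by
      intro t
      by_cases ht : t ∈ Set.Ioc a b
      · rw [Set.indicator_of_mem ht, Set.indicator_of_mem ht]; simp
      · rw [Set.indicator_of_notMem ht, Set.indicator_of_notMem ht]; simp
    simp only [h1]
    rw [integral_indicator measurableSet_Ioc, Measure.restrict_restrict measurableSet_Ioc,
      Set.inter_eq_left.2 (show Set.Ioc a b ⊆ Set.Ioi 0 from fun t ht => lt_of_le_of_lt ha ht.1)]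
  have hi1 : IntegrableOn (fun t : ℝ => (((Set.Ioc a b).indicator (fun _ => (1 : ℝ)) t : ℝ) : ℂ) *
      H i t) (Ioi 0) := by
    have h0 : Integrable (fun t : ℝ => (Set.Ioc a b).indicator (fun _ => (1 : ℝ)) t) := by
      rw [integrable_indicator_iff measurableSet_Ioc]
      exact (continuous_const.integrableOn_Ioc)
    refine Integrable.mono' (h0.integrableOn.mul_const 2) ?_ ?_
    · exact ((Complex.measurable_ofReal.comp (measurable_const.indicator
        measurableSet_Ioc)).mul (hHm i)).aestronglyMeasurable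
    · refine ae_of_all _ fun t => ?_
      rw [norm_mul, Complex.norm_real, Real.norm_eq_abs,
        abs_of_nonneg (Set.indicator_nonneg (fun _ _ => zero_le_one) _)]
      exact mul_le_mul_of_nonneg_left (hHb i t) (Set.indicator_nonneg (fun _ _ => zero_le_one) _)
  have hi2 : IntegrableOn (fun t : ℝ => ((Real.exp (-t) * P.eval (Real.exp (-t)) : ℝ) : ℂ) *
      H i t) (Ioi 0) := by
    -- from the comparison with the indicator
    have h3 : IntegrableOn (fun t : ℝ =>
        (((Set.Ioc a b).indicator (fun _ => (1 : ℝ)) t : ℝ) : ℂ) * H i t -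
        ((Real.exp (-t) * P.eval (Real.exp (-t)) : ℝ) : ℂ) * H i t) (Ioi 0) := by
      refine Integrable.mono' hbound ?_ ?_
      · exact (((Complex.measurable_ofReal.comp (measurable_const.indicator
          measurableSet_Ioc)).mul (hHm i)).sub ((Complex.measurable_ofReal.comp
          hPc.measurable).mul (hHm i))).aestronglyMeasurable
      · refine (ae_restrict_iff' measurableSet_Ioi).2 (ae_of_all _ fun t ht => ?_)
        rw [← sub_mul, ← Complex.ofReal_sub, norm_mul, Complex.norm_real, Real.norm_eq_abs,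
          mul_comm 2]
        exact mul_le_mul (hP t ht) (hHb i t) (norm_nonneg _)
          (le_trans (abs_nonneg _) (hP t ht))
    have h4 := hi1.sub h3
    refine h4.congr (ae_of_all _ fun t => ?_)
    simp
  have herr : ‖(∫ t in a..b, H i t) - ∫ t in Ioi (0:ℝ),
      ((Real.exp (-t) * P.eval (Real.exp (-t)) : ℝ) : ℂ) * H i t‖ ≤ 2 * (ε / 16 + ε / 16 + ε / 8) := by
    rw [hI, ← integral_sub hi1 hi2]
    refine (norm_integral_le_of_norm_le hbound ?_).trans ?_
    · refine (ae_restrict_iff' measurableSet_Ioi).2 (ae_of_all _ fun t ht => ?_)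
      rw [← sub_mul, ← Complex.ofReal_sub, norm_mul, Complex.norm_real, Real.norm_eq_abs,
        mul_comm 2]
      exact mul_le_mul (hP t ht) (hHb i t) (norm_nonneg _)
        (le_trans (abs_nonneg _) (hP t ht))
    · rw [integral_const_mul, integral_add hb12 hb3, integral_add hb1 hb2,
        integral_const_mul, integral_exp_neg_Ioi_zero, mul_one]
      have v1 := hvol (a - ε / 16) a (by linarith)
      have v2 := hvol b (b + ε / 16) (by linarith)
      linarith
  have htri : ‖∫ t in a..b, H i t‖ ≤ ‖(∫ t in a..b, H i t) - ∫ t in Ioi (0:ℝ),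
      ((Real.exp (-t) * P.eval (Real.exp (-t)) : ℝ) : ℂ) * H i t‖ + ‖∫ t in Ioi (0:ℝ),
      ((Real.exp (-t) * P.eval (Real.exp (-t)) : ℝ) : ℂ) * H i t‖ := by
    have := norm_add_le ((∫ t in a..b, H i t) - ∫ t in Ioi (0:ℝ),
      ((Real.exp (-t) * P.eval (Real.exp (-t)) : ℝ) : ℂ) * H i t) (∫ t in Ioi (0:ℝ),
      ((Real.exp (-t) * P.eval (Real.exp (-t)) : ℝ) : ℂ) * H i t)
    rwa [sub_add_cancel] at this
  linarith

end Pool.Agent.T2h98.QD
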