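import Pool.Agent.T2h98.QD.Stm9
import Pool.Agent.T2h98.QD.Abel

/-! From Abel means to time windows, in the mean (ABEL2). -/

set_option autoImplicit false
set_option linter.unusedSectionVars false

open scoped BigOperators Topology
open MeasureTheory Filter Set

namespace Pool.Agent.T2h98.QD

namespace Abel2

open Abel0

/-- the polynomial integral -/
lemma poly_int (P : Polynomial ℝ) {H : ℝ → ℂ} (hm : Measurable H) {M : ℝ} (hM : ∀ t, ‖H t‖ ≤ M) :
    ∫ t in Set.Ioi (0 : ℝ), ((Real.exp (-t) * P.eval (Real.exp (-t)) : ℝ) : ℂ) * H t =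
      ∑ k ∈ Finset.range (P.natDegree + 1), ((P.coeff k : ℝ) : ℂ) * ∫ t in Set.Ioi (0 : ℝ),
        ((Real.exp (-(((k : ℝ) + 1) * t)) : ℝ) : ℂ) * H t := by
  simp only [← integral_const_mul]
  rw [← integral_finsetSum]
  · congr 1
    funext t
    rw [Polynomial.eval_eq_sum_range, Finset.mul_sum, Complex.ofReal_sum, Finset.sum_mul]
    apply Finset.sum_congr rfl
    intro k _
    have e : Real.exp (-(((k : ℝ) + 1) * t)) = Real.exp (-t) * Real.exp (-t) ^ k := by
      rw [← Real.exp_nat_mul, ← Real.exp_add]; congr 1; ring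
    rw [e]
    push_cast
    ring
  · intro k _
    exact (mul_int (by positivity) hm hM).const_mul _

/-- the error -/
lemma err {a b ε : ℝ} (ha : 0 ≤ a) (hab : a ≤ b) (hε : 0 < ε) {P : Polynomial ℝ}
    (hP : ∀ t : ℝ, 0 < t →
      |(Set.Ioc a b).indicator (fun _ => (1 : ℝ)) t - Real.exp (-t) * P.eval (Real.exp (-t))| ≤
        (Set.Icc (a - ε / 16) a).indicator (fun _ => (1 : ℝ)) t +
        (Set.Icc b (b + ε / 16)).indicator (fun _ => (1 : ℝ)) t + ε / 8 * Real.exp (-t))
    {H : ℝ → ℂ} (hHm : Measurable H) (hHb : ∀ t, ‖H t‖ ≤ 2) :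
    ‖(∫ t in a..b, H t) - ∫ t in Ioi (0:ℝ),
      ((Real.exp (-t) * P.eval (Real.exp (-t)) : ℝ) : ℂ) * H t‖ ≤
        2 * (ε / 16 + ε / 16 + ε / 8) := by
  have hPc : Continuous fun t : ℝ => Real.exp (-t) * P.eval (Real.exp (-t)) := by fun_prop
  have hb1 : IntegrableOn (fun t : ℝ => (Set.Icc (a - ε / 16) a).indicator (fun _ => (1 : ℝ)) t)
      (Ioi 0) := by
    apply Integrable.integrableOn
    rw [integrable_indicator_iff measurableSet_Icc]
    exact (continuous_const.integrableOn_Icc)
  have hb2 : IntegrableOn (fun t : ℝ => (Set.Icc b (b + ε / 16)).indicator (fun _ => (1 : ℝ)) t)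
      (Ioi 0) := by
    apply Integrable.integrableOn
    rw [integrable_indicator_iff measurableSet_Icc]
    exact (continuous_const.integrableOn_Icc)
  have hb3 : IntegrableOn (fun t : ℝ => ε / 8 * Real.exp (-t)) (Ioi 0) := by
    have h : Integrable (fun t : ℝ => ε / 8 * Real.exp (-(1 * t))) (volume.restrict (Ioi 0)) :=
      (exp_int 1 one_pos).const_mul (ε / 8)
    simp only [one_mul] at h
    exact h
  have hb12 : IntegrableOn (fun t : ℝ => (Set.Icc (a - ε / 16) a).indicator
      (fun _ => (1 : ℝ)) t + (Set.Icc b (b + ε / 16)).indicator (fun _ => (1 : ℝ)) t) (Ioi 0) :=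
    hb1.add hb2
  have hbound : IntegrableOn (fun t : ℝ => 2 * ((Set.Icc (a - ε / 16) a).indicator
      (fun _ => (1 : ℝ)) t + (Set.Icc b (b + ε / 16)).indicator (fun _ => (1 : ℝ)) t +
      ε / 8 * Real.exp (-t))) (Ioi 0) := (hb12.add hb3).const_mul 2
  have hvol : ∀ x y : ℝ, x ≤ y → ∫ t in Ioi (0:ℝ), (Set.Icc x y).indicator (fun _ => (1 : ℝ)) t ≤
      y - x := by
    intro x y hxy
    rw [integral_indicator measurableSet_Icc, Measure.restrict_restrict measurableSet_Icc,
      setIntegral_const, smul_eq_mul, mul_one]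
    have h1 : (volume : Measure ℝ).real (Set.Icc x y ∩ Ioi 0) ≤ volume.real (Set.Icc x y) :=
      measureReal_mono Set.inter_subset_left (measure_Icc_lt_top).ne
    refine h1.trans_eq ?_
    rw [Real.volume_real_Icc_of_le hxy]
  have hI : ∫ t in a..b, H t = ∫ t in Ioi (0:ℝ),
      (((Set.Ioc a b).indicator (fun _ => (1 : ℝ)) t : ℝ) : ℂ) * H t := by
    rw [intervalIntegral.integral_of_le hab]
    have h1 : ∀ t, (((Set.Ioc a b).indicator (fun _ => (1 : ℝ)) t : ℝ) : ℂ) * H t =
        (Set.Ioc a b).indicator H t := by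
      intro t
      by_cases ht : t ∈ Set.Ioc a b
      · rw [Set.indicator_of_mem ht, Set.indicator_of_mem ht]; simp
      · rw [Set.indicator_of_notMem ht, Set.indicator_of_notMem ht]; simp
    simp only [h1]
    rw [integral_indicator measurableSet_Ioc, Measure.restrict_restrict measurableSet_Ioc,
      Set.inter_eq_left.2 (show Set.Ioc a b ⊆ Set.Ioi 0 from fun t ht => lt_of_le_of_lt ha ht.1)]
  have hi1 : IntegrableOn (fun t : ℝ => (((Set.Ioc a b).indicator (fun _ => (1 : ℝ)) t : ℝ) : ℂ) *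
      H t) (Ioi 0) := by
    have h0 : Integrable (fun t : ℝ => (Set.Ioc a b).indicator (fun _ => (1 : ℝ)) t) := by
      rw [integrable_indicator_iff measurableSet_Ioc]
      exact (continuous_const.integrableOn_Ioc)
    refine Integrable.mono' (h0.integrableOn.mul_const 2) ?_ ?_
    · exact ((Complex.measurable_ofReal.comp (measurable_const.indicator
        measurableSet_Ioc)).mul hHm).aestronglyMeasurable
    · refine ae_of_all _ fun t => ?_
      rw [norm_mul, Complex.norm_real, Real.norm_eq_abs,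
        abs_of_nonneg (Set.indicator_nonneg (fun _ _ => zero_le_one) _)]
      exact mul_le_mul_of_nonneg_left (hHb t) (Set.indicator_nonneg (fun _ _ => zero_le_one) _)
  have hi2 : IntegrableOn (fun t : ℝ => ((Real.exp (-t) * P.eval (Real.exp (-t)) : ℝ) : ℂ) *
      H t) (Ioi 0) := by
    have h3 : IntegrableOn (fun t : ℝ =>
        (((Set.Ioc a b).indicator (fun _ => (1 : ℝ)) t : ℝ) : ℂ) * H t -
        ((Real.exp (-t) * P.eval (Real.exp (-t)) : ℝ) : ℂ) * H t) (Ioi 0) := by
      refine Integrable.mono' hbound ?_ ?_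
      · exact (((Complex.measurable_ofReal.comp (measurable_const.indicator
          measurableSet_Ioc)).mul hHm).sub ((Complex.measurable_ofReal.comp
          hPc.measurable).mul hHm)).aestronglyMeasurable
      · refine (ae_restrict_iff' measurableSet_Ioi).2 (ae_of_all _ fun t ht => ?_)
        rw [← sub_mul, ← Complex.ofReal_sub, norm_mul, Complex.norm_real, Real.norm_eq_abs,
          mul_comm 2]
        exact mul_le_mul (hP t ht) (hHb t) (norm_nonneg _)
          (le_trans (abs_nonneg _) (hP t ht))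
    have h4 := hi1.sub h3
    refine h4.congr (ae_of_all _ fun t => ?_)
    simp
  rw [hI, ← integral_sub hi1 hi2]
  refine (norm_integral_le_of_norm_le hbound ?_).trans ?_
  · refine (ae_restrict_iff' measurableSet_Ioi).2 (ae_of_all _ fun t ht => ?_)
    rw [← sub_mul, ← Complex.ofReal_sub, norm_mul, Complex.norm_real, Real.norm_eq_abs,
      mul_comm 2]
    exact mul_le_mul (hP t ht) (hHb t) (norm_nonneg _)
      (le_trans (abs_nonneg _) (hP t ht))
  · rw [integral_const_mul, integral_add hb12 hb3, integral_add hb1 hb2,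
      integral_const_mul, integral_exp_neg_Ioi_zero, mul_one]
    have v1 := hvol (a - ε / 16) a (by linarith)
    have v2 := hvol b (b + ε / 16) (by linarith)
    linarith

end Abel2

open Abel0 Abel2 in
/-- **from Abel means to time windows, in the mean** -/
theorem abel2 : T_ABEL2 := by
  intro X _ μ _ ι l F F0 hF hF0 bF bF0 hlim a b ha hab
  set H : ι → X → ℝ → ℂ := fun i ω t => F i ω t - F0 t with hH
  have hFm : ∀ i ω, Measurable (F i ω) := fun i ω =>
    (hF i).comp (measurable_const.prodMk measurable_id)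
  have hHm : ∀ i ω, Measurable (H i ω) := fun i ω => (hFm i ω).sub hF0
  have hHj : ∀ i, Measurable fun p : X × ℝ => H i p.1 p.2 := fun i =>
    (hF i).sub (hF0.comp measurable_snd)
  have hHb : ∀ i ω t, ‖H i ω t‖ ≤ 2 := fun i ω t => (norm_sub_le _ _).trans (by
    have := bF i ω t
    have := bF0 t
    linarith)
  have hii : ∀ {f : ℝ → ℂ}, Measurable f → (∀ t, ‖f t‖ ≤ 1) → IntervalIntegrable f volume a b := by
    intro f hf hb
    rw [intervalIntegrable_iff]
    refine Measure.integrableOn_of_bounded (M := 1) ?_ hf.aestronglyMeasurable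
      (ae_of_all _ fun t => hb t)
    exact (measure_Ioc_lt_top).ne
  -- the exponential integrals
  set G : ℕ → ι → X → ℝ := fun k i ω => ‖∫ t in Set.Ioi (0 : ℝ),
    ((Real.exp (-(((k : ℝ) + 1) * t)) : ℝ) : ℂ) * H i ω t‖ with hG
  have hGm : ∀ k i, Measurable (G k i) := by
    intro k i
    have h1 : Measurable fun p : X × ℝ =>
        ((Real.exp (-(((k : ℝ) + 1) * p.2)) : ℝ) : ℂ) * H i p.1 p.2 :=
      (by fun_prop : Measurable fun p : X × ℝ =>
        ((Real.exp (-(((k : ℝ) + 1) * p.2)) : ℝ) : ℂ)).mul (hHj i)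
    exact (h1.stronglyMeasurable.integral_prod_right' (ν := volume.restrict (Ioi (0:ℝ)))).norm.measurable
  have hGb : ∀ k i ω, G k i ω ≤ 2 := by
    intro k i ω
    have hk0 : (0 : ℝ) < (k : ℝ) + 1 := by positivity
    have h1 : ∀ t ∈ Set.Ioi (0 : ℝ), ‖((Real.exp (-(((k : ℝ) + 1) * t)) : ℝ) : ℂ) * H i ω t‖ ≤
        Real.exp (-t) * 2 := by
      intro t ht
      rw [norm_mul, Complex.norm_real, Real.norm_eq_abs, abs_of_pos (Real.exp_pos _)]
      apply mul_le_mul _ (hHb i ω t) (norm_nonneg _) (Real.exp_nonneg _)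
      apply Real.exp_le_exp.2
      have ht' : (0:ℝ) < t := ht
      nlinarith [Nat.cast_nonneg (α := ℝ) k, mul_nonneg (Nat.cast_nonneg (α := ℝ) k) ht'.le]
    have hb3 : IntegrableOn (fun t : ℝ => Real.exp (-t) * 2) (Ioi 0) := by
      have h : Integrable (fun t : ℝ => Real.exp (-(1 * t)) * 2) (volume.restrict (Ioi 0)) :=
        (exp_int 1 one_pos).mul_const 2
      simp only [one_mul] at h
      exact h
    refine (norm_integral_le_of_norm_le hb3
      ((ae_restrict_iff' measurableSet_Ioi).2 (ae_of_all _ h1))).trans ?_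
    rw [integral_mul_const, integral_exp_neg_Ioi_zero]
    norm_num
  have hG0 : ∀ k i ω, 0 ≤ G k i ω := fun k i ω => norm_nonneg _
  have hGi : ∀ k i, Integrable (G k i) μ := by
    intro k i
    refine Integrable.mono' (integrable_const (2 : ℝ)) (hGm k i).aestronglyMeasurable
      (ae_of_all _ fun ω => ?_)
    rw [Real.norm_eq_abs, abs_of_nonneg (hG0 k i ω)]
    exact hGb k i ω
  have hk : ∀ k : ℕ, Tendsto (fun i => ∫ ω, G k i ω ∂μ) l (𝓝 0) := by
    intro k
    have hk0 : (0 : ℝ) < (k : ℝ) + 1 := by positivity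
    have h1 := hlim (1 / ((k : ℝ) + 1)) (by positivity)
    have e : ∀ t : ℝ, t / (1 / ((k : ℝ) + 1)) = ((k : ℝ) + 1) * t := by
      intro t; field_simp
    simp only [e] at h1
    refine h1.congr fun i => ?_
    congr 1
    funext ω
    simp only [hG]
    rw [← integral_sub (mul_int hk0 (hFm i ω) (bF i ω)) (mul_int hk0 hF0 bF0)]
    congr 2
    funext t
    simp only [hH]
    ring
  -- the reduction
  have hred : ∀ i ω, (∫ t in a..b, F i ω t) - (∫ t in a..b, F0 t) = ∫ t in a..b, H i ω t := by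
    intro i ω
    simp only [hH]
    rw [intervalIntegral.integral_sub (hii (hFm i ω) (bF i ω)) (hii hF0 bF0)]
  simp only [hred]
  rw [Metric.tendsto_nhds]
  intro ε hε
  obtain ⟨P, hP⟩ := approx (a := a) (b := b) (δ := ε / 16) (η := ε / 8) hab (by positivity)
    (by positivity)
  set S : ι → ℝ := fun i => ∑ k ∈ Finset.range (P.natDegree + 1), |P.coeff k| * ∫ ω, G k i ω ∂μ
    with hS
  have hSt : Tendsto S l (𝓝 0) := by
    have h2 : Tendsto (fun i => ∑ k ∈ Finset.range (P.natDegree + 1), |P.coeff k| *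
        ∫ ω, G k i ω ∂μ) l
        (𝓝 (∑ k ∈ Finset.range (P.natDegree + 1), |P.coeff k| * 0)) :=
      tendsto_finsetSum _ fun k _ => (hk k).const_mul _
    simpa using h2
  have hev := (Metric.tendsto_nhds.1 hSt) (ε / 4) (by positivity)
  filter_upwards [hev] with i hi
  rw [dist_zero_right, Real.norm_eq_abs] at hi ⊢
  have hpt : ∀ ω, ‖∫ t in a..b, H i ω t‖ ≤ 2 * (ε / 16 + ε / 16 + ε / 8) +
      ∑ k ∈ Finset.range (P.natDegree + 1), |P.coeff k| * G k i ω := by
    intro ω
    have h1 := err ha hab hε hP (hHm i ω) (hHb i ω)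
    have h2 : ‖∫ t in Ioi (0:ℝ),
        ((Real.exp (-t) * P.eval (Real.exp (-t)) : ℝ) : ℂ) * H i ω t‖ ≤
        ∑ k ∈ Finset.range (P.natDegree + 1), |P.coeff k| * G k i ω := by
      rw [poly_int P (hHm i ω) (hHb i ω)]
      refine (norm_sum_le _ _).trans (Finset.sum_le_sum fun k _ => ?_)
      rw [norm_mul, Complex.norm_real, Real.norm_eq_abs]
    have h3 := norm_add_le ((∫ t in a..b, H i ω t) - ∫ t in Ioi (0:ℝ),
      ((Real.exp (-t) * P.eval (Real.exp (-t)) : ℝ) : ℂ) * H i ω t) (∫ t in Ioi (0:ℝ),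
      ((Real.exp (-t) * P.eval (Real.exp (-t)) : ℝ) : ℂ) * H i ω t)
    rw [sub_add_cancel] at h3
    linarith
  have hsi : Integrable (fun ω => 2 * (ε / 16 + ε / 16 + ε / 8) +
      ∑ k ∈ Finset.range (P.natDegree + 1), |P.coeff k| * G k i ω) μ :=
    (integrable_const _).add (integrable_finsetSum _ fun k _ => (hGi k i).const_mul _)
  have hle : ∫ ω, ‖∫ t in a..b, H i ω t‖ ∂μ ≤ 2 * (ε / 16 + ε / 16 + ε / 8) + S i := by
    refine (integral_mono_of_nonneg (ae_of_all _ fun ω => norm_nonneg _) hsi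
      (ae_of_all _ hpt)).trans (le_of_eq ?_)
    rw [integral_add (integrable_const _) (integrable_finsetSum _ fun k _ => (hGi k i).const_mul _),
      integral_const, integral_finsetSum _ fun k _ => (hGi k i).const_mul _]
    simp only [integral_const_mul, probReal_univ, smul_eq_mul, one_mul, hS]
  rw [abs_of_nonneg (integral_nonneg fun ω => norm_nonneg _)]
  have h5 := (abs_lt.1 hi).2
  linarith

end Pool.Agent.T2h98.QD
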