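import Pool.Agent.T2h98.QD.Stm

/-! Momenta at which the dispersion relation hardly changes (task BADK). -/

set_option autoImplicit false

open scoped BigOperators

namespace Pool.Agent.T2h98.QD

open Pool.Agent.W788.BK (cr)

namespace BadKAux

variable {L : ℕ} [NeZero L]

theorem norm_char (q : ZMod L) :
    4 * |(q.valMinAbs : ℝ)| / L ≤ ‖1 - (ZMod.stdAddChar q : ℂ)‖ := by
  have hL : (0 : ℝ) < L := by exact_mod_cast Nat.pos_of_ne_zero (NeZero.ne L)
  have hpi := Real.pi_pos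
  have h1 : (ZMod.stdAddChar q : ℂ) = Complex.exp (Complex.I * ((2 * Real.pi * q.valMinAbs / L : ℝ) : ℂ)) := by
    conv_lhs => rw [← ZMod.coe_valMinAbs q]
    rw [ZMod.stdAddChar_coe]
    congr 1
    push_cast
    ring
  rw [norm_sub_rev, h1, Complex.norm_exp_I_mul_ofReal_sub_one]
  rw [Real.norm_eq_abs, abs_mul, abs_of_pos (by norm_num : (0 : ℝ) < 2)]
  have h2 : 2 * Real.pi * (q.valMinAbs : ℝ) / L / 2 = Real.pi * q.valMinAbs / L := by ring
  rw [h2]
  have h3 : |Real.pi * (q.valMinAbs : ℝ) / L| ≤ Real.pi / 2 := by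
    have h4 : |(q.valMinAbs : ℝ)| ≤ L / 2 := by
      have h5 := ZMod.valMinAbs_mem_Ioc q
      have h6 : |q.valMinAbs| * 2 ≤ (L : ℤ) := by
        rcases abs_cases q.valMinAbs with ⟨h, _⟩ | ⟨h, _⟩ <;> rw [h]
        · exact h5.2
        · have := h5.1
          linarith
      have h7 : |(q.valMinAbs : ℝ)| * 2 ≤ L := by exact_mod_cast h6
      linarith
    rw [abs_div, abs_mul, abs_of_pos hpi, abs_of_pos hL, div_le_iff₀ hL]
    nlinarith
  have h4 := Real.mul_abs_le_abs_sin h3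
  have h5 : 2 / Real.pi * |Real.pi * (q.valMinAbs : ℝ) / L| = 2 * |(q.valMinAbs : ℝ)| / L := by
    rw [abs_div, abs_mul, abs_of_pos hpi, abs_of_pos hL]
    field_simp
  rw [h5] at h4
  calc 4 * |(q.valMinAbs : ℝ)| / L = 2 * (2 * |(q.valMinAbs : ℝ)| / L) := by ring
    _ ≤ _ := by linarith

/-- few residues are near `0` -/
theorem card_near (c : ℝ) (hc : 0 ≤ c) :
    ((Finset.univ.filter fun q : ZMod L => ‖1 - (ZMod.stdAddChar q : ℂ)‖ < c).card : ℝ) ≤
      c * L / 2 + 1 := by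
  have hL : (0 : ℝ) < L := by exact_mod_cast Nat.pos_of_ne_zero (NeZero.ne L)
  set S := Finset.univ.filter fun q : ZMod L => ‖1 - (ZMod.stdAddChar q : ℂ)‖ < c with hS
  set b : ℕ := ⌊c * L / 4⌋₊ with hb
  have hsub : S.card ≤ (Finset.Icc (-(b : ℤ)) b).card := by
    apply Finset.card_le_card_of_injOn (fun q => q.valMinAbs)
    · intro q hq
      have hq' := (Finset.mem_filter.1 (Finset.mem_coe.1 hq)).2
      have h1 := (norm_char q).trans hq'.le
      have h2 : |(q.valMinAbs : ℝ)| ≤ c * L / 4 := by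
        rw [div_le_iff₀ hL] at h1
        linarith
      have h3 : q.valMinAbs.natAbs ≤ b := by
        rw [hb]
        apply Nat.le_floor
        rw [Nat.cast_natAbs, Int.cast_abs]
        exact h2
      have h4 : |q.valMinAbs| ≤ (b : ℤ) := by
        rw [Int.abs_eq_natAbs]
        exact_mod_cast h3
      have h5 := abs_le.1 h4
      exact Finset.mem_coe.2 (Finset.mem_Icc.2 ⟨h5.1, h5.2⟩)
    · intro x _ y _ h
      exact ZMod.injective_valMinAbs h
  have h1 : (Finset.Icc (-(b : ℤ)) b).card = 2 * b + 1 := by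
    rw [Int.card_Icc]
    omega
  rw [h1] at hsub
  have h2 : (S.card : ℝ) ≤ 2 * b + 1 := by exact_mod_cast hsub
  have h3 : (b : ℝ) ≤ c * L / 4 := Nat.floor_le (by positivity)
  linarith

theorem char_diff (k q : ZMod L) :
    |2 * cr (k + q) - 2 * cr k| =
      ‖1 - (ZMod.stdAddChar q : ℂ)‖ * ‖1 - (ZMod.stdAddChar (2 * k + q) : ℂ)‖ := by
  have hcr : ∀ x : ZMod L, ((2 * cr x : ℝ) : ℂ) =
      (ZMod.stdAddChar x : ℂ) + (ZMod.stdAddChar (-x) : ℂ) := by
    intro x
    have h1 : (ZMod.stdAddChar (-x) : ℂ) = (starRingEnd ℂ) (ZMod.stdAddChar x : ℂ) := by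
      rw [ZMod.stdAddChar_apply, ZMod.stdAddChar_apply, AddChar.map_neg_eq_inv]
      exact Circle.coe_inv_eq_conj _
    rw [h1, Complex.add_conj]
    rfl
  have hn : ∀ x : ZMod L, ‖(ZMod.stdAddChar x : ℂ)‖ = 1 := by
    intro x
    rw [ZMod.stdAddChar_apply]
    exact Circle.norm_coe _
  have key : ((2 * cr (k + q) - 2 * cr k : ℝ) : ℂ) = (ZMod.stdAddChar (-(k + q)) : ℂ) *
      ((1 - (ZMod.stdAddChar q : ℂ)) * (1 - (ZMod.stdAddChar (2 * k + q) : ℂ))) := by
    rw [Complex.ofReal_sub, hcr, hcr]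
    have e1 : (ZMod.stdAddChar (k + q) : ℂ) =
        (ZMod.stdAddChar (-(k + q)) : ℂ) * ((ZMod.stdAddChar q : ℂ) * (ZMod.stdAddChar (2 * k + q) : ℂ)) := by
      rw [← AddChar.map_add_eq_mul, ← AddChar.map_add_eq_mul]
      congr 1
      ring
    have e2 : (ZMod.stdAddChar k : ℂ) =
        (ZMod.stdAddChar (-(k + q)) : ℂ) * (ZMod.stdAddChar (2 * k + q) : ℂ) := by
      rw [← AddChar.map_add_eq_mul]
      congr 1
      ring
    have e3 : (ZMod.stdAddChar (-k) : ℂ) =
        (ZMod.stdAddChar (-(k + q)) : ℂ) * (ZMod.stdAddChar q : ℂ) := by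
      rw [← AddChar.map_add_eq_mul]
      congr 1
      ring
    rw [e1, e2, e3]
    ring
  have h2 : |2 * cr (k + q) - 2 * cr k| = ‖((2 * cr (k + q) - 2 * cr k : ℝ) : ℂ)‖ := by
    rw [Complex.norm_real, Real.norm_eq_abs]
  rw [h2, key, norm_mul, norm_mul, hn, one_mul]

end BadKAux

open BadKAux in
theorem badk : T_BADK := by
  classical
  intro L _ c hc hc1 q
  have hL : (0 : ℝ) < L := by exact_mod_cast Nat.pos_of_ne_zero (NeZero.ne L)
  have hc0 : 0 < c := lt_of_lt_of_le (by positivity) hc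
  have hcL : 1 ≤ c * L := by rwa [div_le_iff₀ hL] at hc
  set S := Finset.univ.filter fun k : ZMod L => |2 * cr (k + q) - 2 * cr k| <
    2 * ‖1 - (ZMod.stdAddChar q : ℂ)‖ * c with hS
  set U := Finset.univ.filter fun u : ZMod L => ‖1 - (ZMod.stdAddChar u : ℂ)‖ < 2 * c with hU
  have hUc : (U.card : ℝ) ≤ c * L + 1 := by
    have := card_near (L := L) (2 * c) (by positivity)
    rw [← hU] at this
    linarith
  have hmem : ∀ k ∈ S, 2 * k + q ∈ U := by
    intro k hk
    have hk' := (Finset.mem_filter.1 hk).2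
    rw [char_diff] at hk'
    refine Finset.mem_filter.2 ⟨Finset.mem_univ _, ?_⟩
    have h1 : ‖1 - (ZMod.stdAddChar q : ℂ)‖ * ‖1 - (ZMod.stdAddChar (2 * k + q) : ℂ)‖ <
        ‖1 - (ZMod.stdAddChar q : ℂ)‖ * (2 * c) := by
      refine hk'.trans_le (le_of_eq ?_)
      ring
    exact lt_of_mul_lt_mul_left h1 (norm_nonneg _)
  set S1 := S.filter fun k => 2 * k.val < L with hS1
  set S2 := S.filter fun k => ¬ 2 * k.val < L with hS2
  have hcard : S.card = S1.card + S2.card := (Finset.card_filter_add_card_filter_not _).symm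
  have hinj : ∀ x y : ZMod L, 2 * x + q = 2 * y + q →
      ((2 * x.val < L ∧ 2 * y.val < L) ∨ (¬ 2 * x.val < L ∧ ¬ 2 * y.val < L)) → x = y := by
    intro x y h hxy
    have h1 : (2 : ZMod L) * x = 2 * y := add_right_cancel h
    have hx := ZMod.val_lt x
    have hy := ZMod.val_lt y
    have h2 : (((2 * x.val : ℕ) : ℤ) : ZMod L) = (((2 * y.val : ℕ) : ℤ) : ZMod L) := by
      push_cast
      rw [ZMod.natCast_zmod_val, ZMod.natCast_zmod_val]
      exact h1
    rw [ZMod.intCast_eq_intCast_iff_dvd_sub] at h2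
    obtain ⟨m, hm⟩ := h2
    apply ZMod.val_injective L
    push_cast at hm
    have hb : |(L : ℤ) * m| < L := by
      rw [← hm]
      rw [abs_lt]
      constructor <;> omega
    have hm0 : m = 0 := by
      by_contra hne
      have h3 : 1 ≤ |m| := Int.one_le_abs hne
      rw [abs_mul, abs_of_nonneg (by positivity : (0 : ℤ) ≤ L)] at hb
      have hLz : (0 : ℤ) < L := by exact_mod_cast Nat.pos_of_ne_zero (NeZero.ne L)
      nlinarith
    rw [hm0, mul_zero] at hm
    omega
  have h1 : S1.card ≤ U.card := by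
    apply Finset.card_le_card_of_injOn (fun k => 2 * k + q)
    · intro k hk
      exact Finset.mem_coe.2 (hmem k (Finset.mem_filter.1 (Finset.mem_coe.1 hk)).1)
    · intro x hx y hy h
      exact hinj x y h (Or.inl ⟨(Finset.mem_filter.1 (Finset.mem_coe.1 hx)).2,
        (Finset.mem_filter.1 (Finset.mem_coe.1 hy)).2⟩)
  have h2 : S2.card ≤ U.card := by
    apply Finset.card_le_card_of_injOn (fun k => 2 * k + q)
    · intro k hk
      exact Finset.mem_coe.2 (hmem k (Finset.mem_filter.1 (Finset.mem_coe.1 hk)).1)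
    · intro x hx y hy h
      exact hinj x y h (Or.inr ⟨(Finset.mem_filter.1 (Finset.mem_coe.1 hx)).2,
        (Finset.mem_filter.1 (Finset.mem_coe.1 hy)).2⟩)
  have h3 : (S.card : ℝ) ≤ 2 * U.card := by
    have : S.card ≤ 2 * U.card := by omega
    exact_mod_cast this
  linarith

open BadKAux in
theorem smq : T_SMQ := by
  intro L _ c hc
  have hL : (0 : ℝ) < L := by exact_mod_cast Nat.pos_of_ne_zero (NeZero.ne L)
  have hc0 : 0 < c := lt_of_lt_of_le (by positivity) hc
  have hcL : 1 ≤ c * L := by rwa [div_le_iff₀ hL] at hc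
  have := card_near (L := L) c hc0.le
  linarith

end Pool.Agent.T2h98.QD
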