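import Pool.Agent.T2h98.QD.Stm

/-! The spectral gap of the ladder equation (task GAP). -/

set_option autoImplicit false

open scoped BigOperators

namespace Pool.Agent.T2h98.QD

namespace GapAux

/-- the imaginary part of an inverse -/
theorem im_inv (z : ℂ) : (z⁻¹).im = (-z.im) * (‖z‖⁻¹) ^ 2 := by
  rw [Complex.inv_im, Complex.normSq_eq_norm_sq, inv_pow, div_eq_mul_inv]

/-- polarization -/
theorem polar (a b : ℂ) : 2 * ((starRingEnd ℂ) a * b).re = ‖a‖ ^ 2 + ‖b‖ ^ 2 - ‖a - b‖ ^ 2 := by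
  rw [← Complex.normSq_eq_norm_sq, ← Complex.normSq_eq_norm_sq, ← Complex.normSq_eq_norm_sq,
    Complex.normSq_apply, Complex.normSq_apply, Complex.normSq_apply]
  simp only [Complex.mul_re, Complex.conj_re, Complex.conj_im, Complex.sub_re, Complex.sub_im]
  ring

/-- the change of an inverse -/
theorem diff_inv {x y : ℂ} {c Δ : ℝ} (hx : x ≠ 0) (hy : y ≠ 0) (hc : ‖x‖ ≤ c) (hΔ : 0 < Δ)
    (h : Δ ≤ ‖y - x‖) : ‖x‖⁻¹ * (Δ / (c + Δ)) ≤ ‖x⁻¹ - y⁻¹‖ := by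
  have hx' : 0 < ‖x‖ := norm_pos_iff.2 hx
  have hy' : 0 < ‖y‖ := norm_pos_iff.2 hy
  have h2 : 0 ≤ c := (norm_nonneg _).trans hc
  have e : x⁻¹ - y⁻¹ = x⁻¹ * ((y - x) * y⁻¹) := by
    field_simp
  rw [e, norm_mul, norm_mul, norm_inv, norm_inv]
  refine mul_le_mul_of_nonneg_left ?_ (by positivity)
  have h1 : ‖y‖ ≤ ‖x‖ + ‖y - x‖ := by
    have := norm_add_le x (y - x)
    rwa [add_sub_cancel] at this
  rw [← div_eq_mul_inv, div_le_div_iff₀ (by positivity) hy']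
  nlinarith [mul_le_mul_of_nonneg_left h1 hΔ.le, mul_le_mul h hc hx'.le (norm_nonneg _)]

theorem sum_union_le {ι : Type} [DecidableEq ι] (s t : Finset ι) (f : ι → ℝ) (hf : ∀ k, 0 ≤ f k) :
    ∑ k ∈ s ∪ t, f k ≤ ∑ k ∈ s, f k + ∑ k ∈ t, f k := by
  rw [← Finset.sum_union_inter]
  exact le_add_of_nonneg_right (Finset.sum_nonneg fun k _ => hf k)

end GapAux

open GapAux in
theorem gap : T_GAP := by
  classical
  intro ι _ N a J mb η δ s2 g ε Δ π X B hN hη hδ hs2 him hg hε hΔ hJ0 hJ hX hmb hsd hXg h3 hεi hB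
    hBΔ
  -- basic facts
  have hw : ∀ k, -(X k).im = η * J k + s2 * mb.im := by
    intro k
    rw [hX k]
    simp
    ring
  have hre : ∀ k, (X k).re = a k - s2 * mb.re := by
    intro k
    rw [hX k]
    simp
  have hsi : 0 < s2 * mb.im := mul_pos hs2 him
  have hwp : ∀ k, s2 * mb.im ≤ -(X k).im := by
    intro k
    rw [hw k]
    have := mul_nonneg hη.le (hJ0 k)
    linarith
  have hXn : ∀ k, s2 * mb.im ≤ ‖X k‖ := by
    intro k
    refine (hwp k).trans ((le_abs_self _).trans ?_)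
    rw [abs_neg]
    exact Complex.abs_im_le_norm _
  have hX0 : ∀ k, 0 < ‖X k‖ := fun k => hsi.trans_le (hXn k)
  have hXne : ∀ k, X k ≠ 0 := fun k => norm_pos_iff.1 (hX0 k)
  obtain ⟨G, hG⟩ : ∃ G : ι → ℝ, ∀ k, G k = ‖X k‖⁻¹ := ⟨_, fun _ => rfl⟩
  have hG0 : ∀ k, 0 < G k := fun k => by rw [hG]; exact inv_pos.2 (hX0 k)
  have hGX : ∀ k, G k * ‖X k‖ = 1 := fun k => by rw [hG]; exact inv_mul_cancel₀ (hX0 k).ne'
  have hGle : ∀ k, G k * (s2 * mb.im) ≤ 1 := by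
    intro k
    rw [← hGX k]
    exact mul_le_mul_of_nonneg_left (hXn k) (hG0 k).le
  have hG2 : ∀ k, (s2 * mb.im) * G k ^ 2 ≤ G k := by
    intro k
    have := mul_le_mul_of_nonneg_right (hGle k) (hG0 k).le
    nlinarith
  have hNi : 0 < N⁻¹ := inv_pos.2 hN
  simp only [← hG] at hXg hB
  -- (i)
  have hIm : (((N : ℂ)⁻¹ * ∑ k, (X k)⁻¹)).im = N⁻¹ * ∑ k, (-(X k).im) * G k ^ 2 := by
    rw [← Complex.ofReal_inv, Complex.im_ofReal_mul, Complex.im_sum]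
    simp only [im_inv, hG]
  have hIm2 : |mb.im - N⁻¹ * ∑ k, (-(X k).im) * G k ^ 2| ≤ ε := by
    rw [← hIm, ← Complex.sub_im]
    exact (Complex.abs_im_le_norm _).trans hmb
  set Θ : ℝ := N⁻¹ * ∑ k, G k ^ 2 with hΘ
  have hsplit : N⁻¹ * ∑ k, (-(X k).im) * G k ^ 2 =
      N⁻¹ * ∑ k, η * J k * G k ^ 2 + (s2 * mb.im) * Θ := by
    have h1 : ∑ k, (-(X k).im) * G k ^ 2 =
        ∑ k, η * J k * G k ^ 2 + (s2 * mb.im) * ∑ k, G k ^ 2 := by
      rw [Finset.mul_sum, ← Finset.sum_add_distrib]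
      refine Finset.sum_congr rfl fun k _ => ?_
      rw [hw k]
      ring
    rw [h1, hΘ]
    ring
  have hJs0 : 0 ≤ N⁻¹ * ∑ k, η * J k * G k ^ 2 :=
    mul_nonneg hNi.le (Finset.sum_nonneg fun k _ =>
      mul_nonneg (mul_nonneg hη.le (hJ0 k)) (sq_nonneg _))
  have hab := abs_le.1 hIm2
  rw [hsplit] at hab
  have hi : (s2 * mb.im) * Θ ≤ mb.im + ε := by linarith [hab.1]
  have hi' : s2 * Θ ≤ 1 + ε / mb.im := by
    rw [← sub_nonneg]
    have : (1 + ε / mb.im - s2 * Θ) * mb.im = mb.im + ε - (s2 * mb.im) * Θ := by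
      field_simp
    exact nonneg_of_mul_nonneg_left (by rw [this]; linarith) him
  -- (ii)
  have hsδ : s2 * mb.im ≤ δ :=
    (mul_le_mul_of_nonneg_left ((le_abs_self _).trans (Complex.abs_im_le_norm _)) hs2.le).trans hsd
  have hJX : ∀ k, J k ≤ ‖X k‖ + 2 * δ := by
    intro k
    have h1 : |a k| ≤ |(X k).re| + s2 * |mb.re| := by
      have : a k = (X k).re + s2 * mb.re := by rw [hre k]; ring
      rw [this]
      refine (abs_add_le _ _).trans ?_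
      rw [abs_mul, abs_of_pos hs2]
    have h2 : s2 * |mb.re| ≤ δ :=
      (mul_le_mul_of_nonneg_left (Complex.abs_re_le_norm _) hs2.le).trans hsd
    linarith [hJ k, Complex.abs_re_le_norm (X k)]
  have hterm : ∀ k, (s2 * mb.im) * (η * J k * G k ^ 2) ≤ 3 * η * δ * G k := by
    intro k
    have h1 : J k * G k ^ 2 ≤ G k + 2 * δ * G k ^ 2 := by
      have := mul_le_mul_of_nonneg_right (hJX k) (sq_nonneg (G k))
      have e : (‖X k‖ + 2 * δ) * G k ^ 2 = G k * (G k * ‖X k‖) + 2 * δ * G k ^ 2 := by ring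
      rw [e, hGX k, mul_one] at this
      exact this
    have h2 : (s2 * mb.im) * (J k * G k ^ 2) ≤ 3 * δ * G k := by
      calc (s2 * mb.im) * (J k * G k ^ 2) ≤ (s2 * mb.im) * (G k + 2 * δ * G k ^ 2) :=
            mul_le_mul_of_nonneg_left h1 hsi.le
        _ = (s2 * mb.im) * G k + 2 * δ * ((s2 * mb.im) * G k ^ 2) := by ring
        _ ≤ δ * G k + 2 * δ * G k := by
            have := mul_le_mul_of_nonneg_right hsδ (hG0 k).le
            have := mul_le_mul_of_nonneg_left (hG2 k) (by positivity : (0 : ℝ) ≤ 2 * δ)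
            linarith
        _ = 3 * δ * G k := by ring
    calc (s2 * mb.im) * (η * J k * G k ^ 2) = η * ((s2 * mb.im) * (J k * G k ^ 2)) := by ring
      _ ≤ η * (3 * δ * G k) := mul_le_mul_of_nonneg_left h2 hη.le
      _ = 3 * η * δ * G k := by ring
  have hJs : N⁻¹ * ∑ k, η * J k * G k ^ 2 ≤ mb.im / 8 := by
    have h1 : (s2 * mb.im) * (N⁻¹ * ∑ k, η * J k * G k ^ 2) ≤ 3 * η * δ * g := by
      calc (s2 * mb.im) * (N⁻¹ * ∑ k, η * J k * G k ^ 2)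
          = N⁻¹ * ∑ k, (s2 * mb.im) * (η * J k * G k ^ 2) := by
            rw [mul_left_comm, Finset.mul_sum]
        _ ≤ N⁻¹ * ∑ k, 3 * η * δ * G k :=
            mul_le_mul_of_nonneg_left (Finset.sum_le_sum fun k _ => hterm k) hNi.le
        _ = 3 * η * δ * (N⁻¹ * ∑ k, G k) := by rw [← Finset.mul_sum]; ring
        _ ≤ 3 * η * δ * g := mul_le_mul_of_nonneg_left hXg (by positivity)
    have h2 : (s2 * mb.im) * (N⁻¹ * ∑ k, η * J k * G k ^ 2) ≤ (s2 * mb.im) * (mb.im / 8) := by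
      refine (h1.trans h3).trans (le_of_eq ?_)
      ring
    exact le_of_mul_le_mul_left h2 hsi
  have hii : 3 / 4 ≤ s2 * Θ := by
    have h1 : 3 / 4 * mb.im ≤ s2 * Θ * mb.im := by
      have : s2 * Θ * mb.im = s2 * mb.im * Θ := by ring
      rw [this]
      linarith [hab.2]
    exact le_of_mul_le_mul_right h1 him
  have hΘpos : 0 < Θ := by
    by_contra hcon
    have := mul_nonpos_of_nonneg_of_nonpos hs2.le (not_lt.1 hcon)
    linarith
  -- g is positive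
  have hgp : 0 < g := by
    refine lt_of_lt_of_le ?_ hXg
    refine lt_of_lt_of_le (mul_pos hsi hΘpos) ?_
    rw [hΘ, mul_left_comm, Finset.mul_sum]
    exact mul_le_mul_of_nonneg_left (Finset.sum_le_sum fun k _ => hG2 k) hNi.le
  -- (iii)
  set Go : Finset ι := Finset.univ.filter fun k => k ∉ B ∧ ‖X k‖ ≤ 8 * s2 * g with hGo
  set Fa : Finset ι := Finset.univ.filter fun k => ¬ ‖X k‖ ≤ 8 * s2 * g with hFa
  have hcover : ∑ k, G k ^ 2 ≤ ∑ k ∈ Go, G k ^ 2 + (∑ k ∈ Fa, G k ^ 2 + ∑ k ∈ B, G k ^ 2) := by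
    have hsub : (Finset.univ : Finset ι) ⊆ Go ∪ (Fa ∪ B) := by
      intro k _
      simp only [hGo, hFa, Finset.mem_union, Finset.mem_filter, Finset.mem_univ, true_and]
      tauto
    refine (Finset.sum_le_sum_of_subset_of_nonneg hsub fun _ _ _ => sq_nonneg _).trans ?_
    have h1 := sum_union_le Go (Fa ∪ B) (fun k => G k ^ 2) fun k => sq_nonneg _
    have h2 := sum_union_le Fa B (fun k => G k ^ 2) fun k => sq_nonneg _
    linarith
  have hFar : s2 * (N⁻¹ * ∑ k ∈ Fa, G k ^ 2) ≤ 1 / 8 := by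
    have h1 : ∀ k ∈ Fa, (8 * s2 * g) * G k ^ 2 ≤ G k := by
      intro k hk
      have hk' : 8 * s2 * g ≤ ‖X k‖ := by
        have := (Finset.mem_filter.1 hk).2
        exact (not_le.1 this).le
      have := mul_le_mul_of_nonneg_right hk' (sq_nonneg (G k))
      have e : ‖X k‖ * G k ^ 2 = G k * (G k * ‖X k‖) := by ring
      rw [e, hGX k, mul_one] at this
      exact this
    have h2 : (8 * s2 * g) * (N⁻¹ * ∑ k ∈ Fa, G k ^ 2) ≤ g := by
      rw [mul_left_comm, Finset.mul_sum]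
      refine (mul_le_mul_of_nonneg_left (Finset.sum_le_sum h1) hNi.le).trans (le_trans ?_ hXg)
      exact mul_le_mul_of_nonneg_left (Finset.sum_le_sum_of_subset_of_nonneg
        (Finset.subset_univ _) fun k _ _ => (hG0 k).le) hNi.le
    have h3 : g * (8 * (s2 * (N⁻¹ * ∑ k ∈ Fa, G k ^ 2))) ≤ g * 1 := by
      refine le_trans (le_of_eq ?_) (h2.trans (le_of_eq (mul_one g).symm))
      ring
    have := le_of_mul_le_mul_left h3 hgp
    linarith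
  have hBp : s2 * (N⁻¹ * ∑ k ∈ B, G k ^ 2) ≤ 1 / 8 := by
    have h2 : (s2 * mb.im) * (N⁻¹ * ∑ k ∈ B, G k ^ 2) ≤ mb.im / 8 := by
      rw [mul_left_comm, Finset.mul_sum]
      exact (mul_le_mul_of_nonneg_left (Finset.sum_le_sum fun k _ => hG2 k) hNi.le).trans hB
    have h3 : (s2 * (N⁻¹ * ∑ k ∈ B, G k ^ 2)) * mb.im ≤ 1 / 8 * mb.im := by
      refine le_trans (le_of_eq ?_) (h2.trans (le_of_eq ?_)) <;> ring
    exact le_of_mul_le_mul_right h3 him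
  have hgood : 1 / 2 ≤ s2 * (N⁻¹ * ∑ k ∈ Go, G k ^ 2) := by
    have h1 : s2 * Θ ≤ s2 * (N⁻¹ * (∑ k ∈ Go, G k ^ 2 + (∑ k ∈ Fa, G k ^ 2 + ∑ k ∈ B, G k ^ 2))) :=
      mul_le_mul_of_nonneg_left (mul_le_mul_of_nonneg_left hcover hNi.le) hs2.le
    rw [mul_add, mul_add, mul_add, mul_add] at h1
    linarith
  -- (iv)
  have hpol : 2 * (s2 * ((N : ℂ)⁻¹ * ∑ k, (starRingEnd ℂ) (X k)⁻¹ * (X (π k))⁻¹).re) =
      2 * (s2 * Θ) - s2 * (N⁻¹ * ∑ k, ‖(X k)⁻¹ - (X (π k))⁻¹‖ ^ 2) := by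
    have h1 : ((N : ℂ)⁻¹ * ∑ k, (starRingEnd ℂ) (X k)⁻¹ * (X (π k))⁻¹).re =
        N⁻¹ * ∑ k, ((starRingEnd ℂ) (X k)⁻¹ * (X (π k))⁻¹).re := by
      rw [← Complex.ofReal_inv, Complex.re_ofReal_mul, Complex.re_sum]
    have h2 : ∑ k, G (π k) ^ 2 = ∑ k, G k ^ 2 := Equiv.sum_comp π (fun k => G k ^ 2)
    have h3 : 2 * ∑ k, ((starRingEnd ℂ) (X k)⁻¹ * (X (π k))⁻¹).re =
        ∑ k, G k ^ 2 + ∑ k, G (π k) ^ 2 - ∑ k, ‖(X k)⁻¹ - (X (π k))⁻¹‖ ^ 2 := by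
      rw [Finset.mul_sum, ← Finset.sum_add_distrib, ← Finset.sum_sub_distrib]
      refine Finset.sum_congr rfl fun k _ => ?_
      rw [polar, hG, hG, norm_inv, norm_inv]
    rw [h1, hΘ]
    rw [h2] at h3
    have h4 : 2 * (s2 * (N⁻¹ * ∑ k, ((starRingEnd ℂ) (X k)⁻¹ * (X (π k))⁻¹).re)) =
        s2 * N⁻¹ * (2 * ∑ k, ((starRingEnd ℂ) (X k)⁻¹ * (X (π k))⁻¹).re) := by ring
    rw [h4, h3]
    ring
  set c : ℝ := Δ / (8 * s2 * g + Δ) with hc
  have hc0 : 0 ≤ c := by positivity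
  have hdiff : c ^ 2 * ∑ k ∈ Go, G k ^ 2 ≤ ∑ k, ‖(X k)⁻¹ - (X (π k))⁻¹‖ ^ 2 := by
    rw [Finset.mul_sum]
    refine le_trans (Finset.sum_le_sum (g := fun k => ‖(X k)⁻¹ - (X (π k))⁻¹‖ ^ 2)
      fun k hk => ?_) (Finset.sum_le_sum_of_subset_of_nonneg (Finset.subset_univ _)
        fun _ _ _ => sq_nonneg _)
    obtain ⟨hkB, hk8⟩ := (Finset.mem_filter.1 hk).2
    have := diff_inv (hXne k) (hXne (π k)) hk8 hΔ (hBΔ k hkB)
    rw [← hG k, ← hc] at this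
    rw [← mul_pow, mul_comm c]
    exact pow_le_pow_left₀ (mul_nonneg (hG0 k).le hc0) this 2
  have hfin : 1 / 2 * c ^ 2 ≤ s2 * (N⁻¹ * ∑ k, ‖(X k)⁻¹ - (X (π k))⁻¹‖ ^ 2) := by
    calc 1 / 2 * c ^ 2 ≤ s2 * (N⁻¹ * ∑ k ∈ Go, G k ^ 2) * c ^ 2 :=
          mul_le_mul_of_nonneg_right hgood (sq_nonneg _)
      _ = s2 * (N⁻¹ * (c ^ 2 * ∑ k ∈ Go, G k ^ 2)) := by ring
      _ ≤ _ := mul_le_mul_of_nonneg_left (mul_le_mul_of_nonneg_left hdiff hNi.le) hs2.le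
  linarith

end Pool.Agent.T2h98.QD
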