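import Pool.Agent.T2h98.QD.Stm2

/-! The law of the potential on the torus. -/

set_option autoImplicit false
set_option linter.unusedSectionVars false

open scoped BigOperators Matrix
open MeasureTheory ProbabilityTheory

namespace Pool.Agent.T2h98.QD

open Pool.Agent.W788.MFP.Four (T e NN adj K)
open Pool.Agent.W788.BK (nsq hs PP JJ hi Low cr)

theorem rep_injective {d L : ℕ} [NeZero L] : Function.Injective (rep : T d L → Zd d) := by
  intro k l h
  funext i
  exact ZMod.injective_valMinAbs (congrFun h i)

theorem law : T_LAW := by
  intro d L _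
  unfold GP PP
  have hmeas : Measurable (fun (ξ : Zd d → ℝ) (k : T d L) => ξ (rep k)) :=
    measurable_pi_lambda _ fun k => measurable_pi_apply _
  refine (Measure.pi_eq fun s hs => ?_).symm
  rw [Measure.map_apply hmeas (MeasurableSet.univ_pi hs)]
  classical
  set t : Zd d → Set ℝ := Function.extend rep s fun _ => Set.univ with ht
  have htr : ∀ k, t (rep k) = s k := fun k => rep_injective.extend_apply _ _ _
  have htm : ∀ x ∈ Finset.univ.image (rep : T d L → Zd d), MeasurableSet (t x) := by
    intro x hx
    obtain ⟨k, -, rfl⟩ := Finset.mem_image.mp hx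
    rw [htr]
    exact hs k
  have hpre : (fun (ξ : Zd d → ℝ) (k : T d L) => ξ (rep k)) ⁻¹' (Set.univ.pi s) =
      Set.pi ((Finset.univ.image (rep : T d L → Zd d) : Finset (Zd d)) : Set (Zd d)) t := by
    ext ξ
    simp only [Set.mem_preimage, Set.mem_pi, Set.mem_univ, forall_true_left, Finset.coe_image,
      Finset.coe_univ, Set.image_univ, Set.mem_range, forall_exists_index, forall_apply_eq_imp_iff,
      htr]
  rw [hpre, Measure.infinitePi_pi _ htm, Finset.prod_image fun a _ b _ h => rep_injective h]
  simp_rw [htr]

end Pool.Agent.T2h98.QD
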