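import Pool.Agent.T2h98.QD.Stm

/-! Tails of the low frequency part and of the maximum of a Gaussian potential. -/

set_option autoImplicit false
set_option linter.unusedSectionVars false

open scoped BigOperators Matrix NNReal
open MeasureTheory ProbabilityTheory

namespace Pool.Agent.T2h98.QD

open Pool.Agent.W788.MFP.Four (T e NN adj K)
open Pool.Agent.W788.BK (nsq hs PP JJ hi Low cr)

section tails

variable {m : Type} [Fintype m]

theorem subG_coord (c : m → ℝ) (y : m) (v : ℝ≥0) (hv : (v : ℝ) = c y ^ 2) :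
    HasSubgaussianMGF (fun V : m → ℝ => c y * V y) v (GP m) := by
  have h1 : HasSubgaussianMGF id 1 (gaussianReal 0 1) := by
    refine ⟨fun t => ?_, fun t => ?_⟩
    · simpa using integrable_exp_mul_gaussianReal (μ := 0) (v := 1) t
    · rw [mgf_id_gaussianReal]
      simp
  have h2 : (Measure.pi fun _ : m => gaussianReal 0 1).map (Function.eval y) =
      gaussianReal 0 1 :=
    (measurePreserving_eval (fun _ : m => gaussianReal 0 1) y).map_eq
  have h0 : HasSubgaussianMGF (id ∘ Function.eval y) 1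
      (Measure.pi fun _ : m => gaussianReal 0 1) := by
    refine HasSubgaussianMGF.of_map (measurable_pi_apply y).aemeasurable ?_
    have h3 := h1
    rw [← h2] at h3
    exact h3
  have h4 := h0.const_mul (c y)
  have e : v = ⟨c y ^ 2, sq_nonneg _⟩ * 1 := NNReal.eq (by
    rw [hv]
    exact (mul_one (c y ^ 2)).symm)
  rw [e]
  exact h4

theorem subG_sum (c : m → ℝ) (v : ℝ≥0) (hv : (v : ℝ) = ∑ y, c y ^ 2) :
    HasSubgaussianMGF (fun V : m → ℝ => ∑ y, c y * V y) v (GP m) := by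
  obtain ⟨w, hw⟩ : ∃ w : m → ℝ≥0, ∀ y, (w y : ℝ) = c y ^ 2 :=
    ⟨fun y => ⟨c y ^ 2, sq_nonneg _⟩, fun y => rfl⟩
  have h := HasSubgaussianMGF.sum_of_iIndepFun (μ := GP m) (s := Finset.univ)
    (X := fun (y : m) (V : m → ℝ) => c y * V y) (c := w)
    (iIndepFun_pi (μ := fun _ : m => gaussianReal 0 1) (X := fun (y : m) (t : ℝ) => c y * t)
      (fun i => (measurable_const_mul (c i)).aemeasurable))
    (fun y _ => subG_coord c y (w y) (hw y))
  have e : v = ∑ y, w y := by
    apply NNReal.coe_injective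
    rw [hv, NNReal.coe_sum]
    exact Finset.sum_congr rfl fun y _ => (hw y).symm
  rw [e]
  exact h

theorem tail (c : m → ℝ) (τ : ℝ) (hτ : 0 < τ) :
    (GP m).real {V | τ < |∑ y, c y * V y|} ≤
      2 * Real.exp (-(τ ^ 2 / (2 * ∑ y, c y ^ 2))) := by
  obtain ⟨v, hv⟩ : ∃ v : ℝ≥0, (v : ℝ) = ∑ y, c y ^ 2 :=
    ⟨⟨∑ y, c y ^ 2, Finset.sum_nonneg fun y _ => sq_nonneg _⟩, rfl⟩
  have h := subG_sum c v hv
  have h1 := h.measure_ge_le hτ.le
  have h2 := h.neg.measure_ge_le hτ.le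
  have h3 : {V : m → ℝ | τ < |∑ y, c y * V y|} ⊆
      {V | τ ≤ ∑ y, c y * V y} ∪ {V | τ ≤ (-fun V : m → ℝ => ∑ y, c y * V y) V} := by
    intro V hV
    rw [Set.mem_ofPred_eq] at hV
    rcases lt_abs.1 hV with h | h
    · exact Or.inl h.le
    · exact Or.inr (by simpa using h.le)
  have h4 := (measureReal_mono h3 (measure_ne_top (GP m) _)).trans (measureReal_union_le _ _)
  have h5 : -τ ^ 2 / (2 * (v : ℝ)) = -(τ ^ 2 / (2 * ∑ y, c y ^ 2)) := by
    rw [hv]; ring
  rw [h5] at h1 h2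
  linarith

theorem tails {n : Type} [Fintype n] (c : n → m → ℝ) (τ A : ℝ) (hτ : 0 < τ)
    (hA : ∀ x, ∑ y, c x y ^ 2 = A) :
    (GP m).real {V | ∃ x, τ < |∑ y, c x y * V y|} ≤
      2 * (Fintype.card n : ℝ) * Real.exp (-(τ ^ 2 / (2 * A))) := by
  have h1 : {V : m → ℝ | ∃ x, τ < |∑ y, c x y * V y|} =
      ⋃ x ∈ (Finset.univ : Finset n), {V : m → ℝ | τ < |∑ y, c x y * V y|} := by
    ext V
    simp
  rw [h1]
  refine (measureReal_biUnion_finset_le _ _).trans ?_
  have h2 : ∀ x ∈ (Finset.univ : Finset n), (GP m).real {V : m → ℝ | τ < |∑ y, c x y * V y|} ≤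
      2 * Real.exp (-(τ ^ 2 / (2 * A))) := by
    intro x _
    rw [← hA x]
    exact tail (c x) τ hτ
  refine (Finset.sum_le_sum h2).trans (le_of_eq ?_)
  rw [Finset.sum_const, nsmul_eq_mul, Finset.card_univ]
  ring

end tails

theorem card_T (d L : ℕ) [NeZero L] : (Fintype.card (T d L) : ℝ) = NN d L := by
  unfold T NN
  rw [Fintype.card_fun, ZMod.card, Fintype.card_fin]
  push_cast
  rfl

theorem lowg : T_LOWG := by
  intro d L _ θ τ hθ hτ
  have hN := Pool.Agent.W788.MFP.Four.NN_pos (d := d) (L := L)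
  have heven : ∀ k : T d L, (1 - hi θ (-k)) = 1 - hi θ k := by
    intro k
    have : Low θ (-k) ↔ Low θ k := by
      unfold Low
      have hc : ∀ i, cr ((-k) i) = cr (k i) := by
        intro i
        unfold cr
        rw [Pi.neg_apply, AddChar.map_neg_eq_conj, Complex.conj_re]
      simp only [hc]
    unfold hi
    by_cases hk : Low θ k
    · rw [if_pos hk, if_pos (this.2 hk)]
    · rw [if_neg hk, if_neg (fun h => hk (this.1 h))]
  have hsq : ∀ k : T d L, (1 - hi θ k) ^ 2 = 1 - hi θ k := by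
    intro k
    unfold hi
    split_ifs <;> norm_num
  have hA : ∀ x : T d L, ∑ y, (K (fun Q => 1 - hi θ Q) (x - y)) ^ 2 =
      (NN d L)⁻¹ * ∑ Q : T d L, (1 - hi θ Q) := by
    intro x
    rw [Pool.Agent.W788.MFP.Four.K_sq _ heven x]
    simp only [hsq]
  have h := tails (m := T d L) (fun (x y : T d L) => K (fun Q => 1 - hi θ Q) (x - y)) τ _ hτ hA
  rw [card_T] at h
  have e1 : τ ^ 2 / (2 * ((NN d L)⁻¹ * ∑ Q : T d L, (1 - hi θ Q))) =
      τ ^ 2 * NN d L / (2 * ∑ Q : T d L, (1 - hi θ Q)) := by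
    rw [show (2 : ℝ) * ((NN d L)⁻¹ * ∑ Q : T d L, (1 - hi θ Q)) =
      (2 * ∑ Q : T d L, (1 - hi θ Q)) / NN d L by ring, div_div_eq_mul_div]
  rw [e1] at h
  simpa only [mul_comm] using h

theorem maxg : T_MAXG := by
  intro d L _ τ hτ
  have h := tails (m := T d L) (fun (x y : T d L) => if y = x then (1 : ℝ) else 0) τ 1 hτ
    (fun x => by simp)
  rw [card_T] at h
  simpa using h

end Pool.Agent.T2h98.QD
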