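import Pool.Agent.T2h98.QD.Exi1

/-! Time evolution on the lattice: conservation of mass, uniqueness, existence. -/

set_option autoImplicit false
set_option linter.unusedSectionVars false

open scoped BigOperators Interval
open MeasureTheory

namespace Pool.Agent.T2h98.QD

namespace Exi

variable {d : ℕ}

/-- solutions of the equation -/
def Sol (v : Zd d → ℝ) (ψ : ℝ → Zd d → ℂ) : Prop :=
  ∀ (t : ℝ) (x : Zd d), HasDerivAt (fun s => ψ s x)
    (-(Complex.I * (nb (ψ t) x + (v x : ℂ) * ψ t x))) t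

/-- locally uniformly dominated by a summable function -/
def Dom (ψ : ℝ → Zd d → ℂ) : Prop :=
  ∀ T : ℝ, 0 ≤ T → ∃ B : Zd d → ℝ, Summable B ∧ (∀ x, 0 ≤ B x) ∧
    ∀ t : ℝ, |t| ≤ T → ∀ x, ‖ψ t x‖ ≤ B x

/-- the current through the bond `x, x + e_i` -/
noncomputable def cur (f : Zd d → ℂ) (i : Fin d) (x : Zd d) : ℝ :=
  ((starRingEnd ℂ) (f x) * f (x + Pi.single i 1)).im

theorem cur_abs (f : Zd d → ℂ) (i : Fin d) (x : Zd d) :
    |cur f i x| ≤ ‖f x‖ * ‖f (x + Pi.single i 1)‖ := by
  unfold cur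
  refine (Complex.abs_im_le_norm _).trans (le_of_eq ?_)
  rw [norm_mul, RCLike.norm_conj]

theorem cur_flip (f : Zd d → ℂ) (i : Fin d) (x : Zd d) :
    ((starRingEnd ℂ) (f x) * f (x - Pi.single i 1)).im = -cur f i (x - Pi.single i 1) := by
  unfold cur
  rw [sub_add_cancel]
  have h : (starRingEnd ℂ) (f x) * f (x - Pi.single i 1) =
      (starRingEnd ℂ) ((starRingEnd ℂ) (f (x - Pi.single i 1)) * f x) := by
    rw [map_mul, Complex.conj_conj, mul_comm]
  rw [h, Complex.conj_im]

theorem normsq_deriv {v : Zd d → ℝ} {ψ : ℝ → Zd d → ℂ} (h : Sol v ψ) (t : ℝ) (x : Zd d) :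
    HasDerivAt (fun s => ‖ψ s x‖ ^ 2)
      (∑ i, (2 * cur (ψ t) i x - 2 * cur (ψ t) i (x - Pi.single i 1))) t := by
  have h1 := (h t x).norm_sq
  have h2 : 2 * inner ℝ (ψ t x) (-(Complex.I * (nb (ψ t) x + (v x : ℂ) * ψ t x))) =
      ∑ i, (2 * cur (ψ t) i x - 2 * cur (ψ t) i (x - Pi.single i 1)) := by
    have h3 : inner ℝ (ψ t x) (-(Complex.I * (nb (ψ t) x + (v x : ℂ) * ψ t x))) =
        ((starRingEnd ℂ) (ψ t x) * nb (ψ t) x).im := by
      rw [Complex.inner]
      have e1 : (starRingEnd ℂ) (ψ t x) * ψ t x = ((Complex.normSq (ψ t x) : ℝ) : ℂ) := by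
        rw [mul_comm, Complex.mul_conj]
      have e2 : -(Complex.I * (nb (ψ t) x + (v x : ℂ) * ψ t x)) * (starRingEnd ℂ) (ψ t x) =
          -(Complex.I * ((starRingEnd ℂ) (ψ t x) * nb (ψ t) x + ((v x * Complex.normSq (ψ t x) : ℝ) : ℂ))) := by
        push_cast
        linear_combination (-(Complex.I * v x)) * e1
      rw [e2]
      simp
    rw [h3]
    unfold nb
    rw [Finset.mul_sum, Complex.im_sum, Finset.mul_sum]
    refine Finset.sum_congr rfl fun i _ => ?_
    rw [mul_add, Complex.add_im, cur_flip]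
    unfold cur
    ring
  rw [← h2]
  exact h1

theorem nb_le_of_summable {B : Zd d → ℝ} (hB : Summable B) (hB0 : ∀ x, 0 ≤ B x) (x : Zd d) :
    B x ≤ ∑' y, B y := hB.le_tsum x fun y _ => hB0 y

/-- the derivative of a weighted mass -/
theorem mass_deriv {v : Zd d → ℝ} {ψ : ℝ → Zd d → ℂ} (h : Sol v ψ) (hd : Dom ψ) (w : Zd d → ℝ)
    (c : ℝ) (hw : ∀ x, |w x| ≤ c) (t : ℝ) :
    HasDerivAt (fun s => ∑' x, w x * ‖ψ s x‖ ^ 2)
      (∑ i, ∑' x, 2 * (w x - w (x + Pi.single i 1)) * cur (ψ t) i x) t := by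
  obtain ⟨T, hT⟩ : ∃ T : ℝ, T = |t| + 1 := ⟨_, rfl⟩
  have hT0 : 0 ≤ T := by rw [hT]; positivity
  obtain ⟨B, hB, hB0, hBψ⟩ := hd T hT0
  obtain ⟨M, hM⟩ : ∃ M : ℝ, M = ∑' y, B y := ⟨_, rfl⟩
  have hM0 : 0 ≤ M := by rw [hM]; exact tsum_nonneg hB0
  have hBM : ∀ x, B x ≤ M := fun x => by rw [hM]; exact nb_le_of_summable hB hB0 x
  have hc0 : 0 ≤ c := (abs_nonneg _).trans (hw 0)
  have hmem : t ∈ Set.Ioo (-T) T := by
    have h1 := abs_lt.1 (show |t| < T by rw [hT]; linarith)
    exact ⟨h1.1, h1.2⟩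
  have hcur : ∀ s : ℝ, |s| ≤ T → ∀ i x, |cur (ψ s) i x| ≤ B x * M := by
    intro s hs i x
    refine (cur_abs _ _ _).trans ?_
    exact mul_le_mul (hBψ s hs x) ((hBψ s hs _).trans (hBM _)) (norm_nonneg _) (hB0 x)
  have hcur' : ∀ s : ℝ, |s| ≤ T → ∀ i x, |cur (ψ s) i (x - Pi.single i 1)| ≤ B x * M := by
    intro s hs i x
    refine (cur_abs _ _ _).trans ?_
    rw [sub_add_cancel, mul_comm]
    exact mul_le_mul (hBψ s hs x) ((hBψ s hs _).trans (hBM _)) (norm_nonneg _) (hB0 x)
  have habs : ∀ s ∈ Set.Ioo (-T) T, |s| ≤ T := fun s hs => abs_le.2 ⟨hs.1.le, hs.2.le⟩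
  have hD := hasDerivAt_tsum_of_isPreconnected (g := fun x s => w x * ‖ψ s x‖ ^ 2)
    (g' := fun x s => w x * ∑ i, (2 * cur (ψ s) i x - 2 * cur (ψ s) i (x - Pi.single i 1)))
    (u := fun x => (c * (d * (4 * M))) * B x) (hB.mul_left _)
    (isOpen_Ioo (a := -T) (b := T)) isPreconnected_Ioo
    (fun x s _ => (normsq_deriv h s x).const_mul (w x)) (fun x s hs => by
      rw [Real.norm_eq_abs, abs_mul]
      have h1 : |∑ i, (2 * cur (ψ s) i x - 2 * cur (ψ s) i (x - Pi.single i 1))| ≤
          d * (4 * (B x * M)) := by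
        refine (Finset.abs_sum_le_sum_abs _ _).trans ?_
        refine (Finset.sum_le_sum fun i _ => (show _ ≤ 4 * (B x * M) from ?_)).trans (le_of_eq ?_)
        · have e1 := abs_le.1 (hcur s (habs s hs) i x)
          have e2 := abs_le.1 (hcur' s (habs s hs) i x)
          rw [abs_le]
          constructor <;> linarith
        · rw [Finset.sum_const, Finset.card_univ, Fintype.card_fin, nsmul_eq_mul]
      calc |w x| * |∑ i, (2 * cur (ψ s) i x - 2 * cur (ψ s) i (x - Pi.single i 1))|
          ≤ c * (d * (4 * (B x * M))) := mul_le_mul (hw x) h1 (abs_nonneg _) hc0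
        _ = _ := by ring) hmem (by
      refine Summable.of_norm_bounded (hB.mul_left (c * M)) fun x => ?_
      have ht : |t| ≤ T := by rw [hT]; linarith
      rw [Real.norm_eq_abs, abs_mul, abs_of_nonneg (sq_nonneg ‖ψ t x‖), sq]
      calc |w x| * (‖ψ t x‖ * ‖ψ t x‖) ≤ c * (M * B x) := by
            refine mul_le_mul (hw x) ?_ (by positivity) hc0
            exact mul_le_mul ((hBψ t ht x).trans (hBM x)) (hBψ t ht x) (norm_nonneg _) hM0
        _ = _ := by ring) hmem
  have ht : |t| ≤ T := by rw [hT]; linarith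
  have hS : ∀ i, Summable fun x => w x * (2 * cur (ψ t) i x) := fun i =>
    Summable.of_norm_bounded (hB.mul_left (2 * (c * M))) fun x => by
      rw [Real.norm_eq_abs, abs_mul, abs_mul, abs_two]
      calc |w x| * (2 * |cur (ψ t) i x|) ≤ c * (2 * (B x * M)) := by
            refine mul_le_mul (hw x) ?_ (by positivity) hc0
            have := hcur t ht i x
            linarith
        _ = _ := by ring
  have hS' : ∀ i, Summable fun x => w x * (2 * cur (ψ t) i (x - Pi.single i 1)) := fun i =>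
    Summable.of_norm_bounded (hB.mul_left (2 * (c * M))) fun x => by
      rw [Real.norm_eq_abs, abs_mul, abs_mul, abs_two]
      calc |w x| * (2 * |cur (ψ t) i (x - Pi.single i 1)|) ≤ c * (2 * (B x * M)) := by
            refine mul_le_mul (hw x) ?_ (by positivity) hc0
            have := hcur' t ht i x
            linarith
        _ = _ := by ring
  have hfin : ∑' x, w x * ∑ i, (2 * cur (ψ t) i x - 2 * cur (ψ t) i (x - Pi.single i 1)) =
      ∑ i, ∑' x, 2 * (w x - w (x + Pi.single i 1)) * cur (ψ t) i x := by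
    have h1 : ∀ x, w x * ∑ i, (2 * cur (ψ t) i x - 2 * cur (ψ t) i (x - Pi.single i 1)) =
        ∑ i, (w x * (2 * cur (ψ t) i x) - w x * (2 * cur (ψ t) i (x - Pi.single i 1))) := by
      intro x
      rw [Finset.mul_sum]
      exact Finset.sum_congr rfl fun i _ => by ring
    simp only [h1]
    rw [Summable.tsum_finsetSum fun i _ => (hS i).sub (hS' i)]
    refine Finset.sum_congr rfl fun i _ => ?_
    rw [(hS i).tsum_sub (hS' i)]
    have h2 : ∑' x, w x * (2 * cur (ψ t) i (x - Pi.single i 1)) =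
        ∑' x, w (x + Pi.single i 1) * (2 * cur (ψ t) i x) := by
      refine ((Equiv.addRight (Pi.single i (1 : ℤ) : Zd d)).tsum_eq
        (fun x : Zd d => w x * (2 * cur (ψ t) i (x - Pi.single i 1)))).symm.trans ?_
      refine tsum_congr fun x => ?_
      rw [Equiv.coe_addRight, add_sub_cancel_right]
    have hS2 : Summable fun x => w (x + Pi.single i 1) * (2 * cur (ψ t) i x) := by
      have := (Equiv.addRight (Pi.single i (1 : ℤ) : Zd d)).summable_iff.2 (hS' i)
      refine this.congr fun x => ?_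
      rw [Function.comp_apply, Equiv.coe_addRight, add_sub_cancel_right]
    rw [h2, ← (hS i).tsum_sub hS2]
    exact tsum_congr fun x => by ring
  rw [hfin] at hD
  exact hD

/-- conservation of mass -/
theorem mass_const {v : Zd d → ℝ} {ψ : ℝ → Zd d → ℂ} (h : Sol v ψ) (hd : Dom ψ) (s t : ℝ) :
    ∑' x, ‖ψ s x‖ ^ 2 = ∑' x, ‖ψ t x‖ ^ 2 := by
  have h1 : ∀ t, HasDerivAt (fun s => ∑' x, ‖ψ s x‖ ^ 2) 0 t := by
    intro t
    have h2 := mass_deriv h hd (fun _ => 1) 1 (fun _ => by simp) t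
    simp only [one_mul, sub_self, mul_zero, zero_mul, tsum_zero, Finset.sum_const_zero] at h2
    exact h2
  exact is_const_of_deriv_eq_zero (fun t => (h1 t).differentiableAt) (fun t => (h1 t).deriv) s t

theorem dom_summable {ψ : ℝ → Zd d → ℂ} (hd : Dom ψ) (w : Zd d → ℝ) (c : ℝ) (hw : ∀ x, |w x| ≤ c)
    (t : ℝ) : Summable fun x => w x * ‖ψ t x‖ ^ 2 := by
  obtain ⟨B, hB, hB0, hBψ⟩ := hd |t| (abs_nonneg t)
  have hc0 : 0 ≤ c := (abs_nonneg _).trans (hw 0)
  refine Summable.of_norm_bounded (hB.mul_left (c * ∑' y, B y)) fun x => ?_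
  rw [Real.norm_eq_abs, abs_mul, abs_of_nonneg (sq_nonneg ‖ψ t x‖), sq]
  calc |w x| * (‖ψ t x‖ * ‖ψ t x‖) ≤ c * ((∑' y, B y) * B x) := by
        refine mul_le_mul (hw x) ?_ (by positivity) hc0
        exact mul_le_mul ((hBψ t le_rfl x).trans (nb_le_of_summable hB hB0 x)) (hBψ t le_rfl x)
          (norm_nonneg _) (tsum_nonneg hB0)
    _ = _ := by ring

theorem psi_dom (v : Zd d → ℝ) : Dom (psi v) := fun T hT =>
  ⟨BB T, BB_summable hT, BB_nonneg hT, fun _ ht x => psi_bound v ht x⟩

theorem psi_sol (v : Zd d → ℝ) : Sol v (psi v) := fun t x => psi_deriv v x t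

theorem psi_evol (v : Zd d → ℝ) : Evol v (psi v) := by
  refine ⟨psi_zero v, fun t x => psi_deriv v x t, fun t => ?_⟩
  have h1 := dom_summable (psi_dom v) (fun _ => 1) 1 (fun _ => by simp) t
  simp only [one_mul] at h1
  have h2 : ∑' x, ‖psi v t x‖ ^ 2 = 1 := by
    rw [mass_const (psi_sol v) (psi_dom v) t 0, psi_zero, tsum_eq_single 0]
    · rw [Pi.single_eq_same]; simp
    · intro x hx
      rw [Pi.single_eq_of_ne hx]; simp
  rw [← h2]
  exact h1.hasSum

theorem Evol.norm_le {v : Zd d → ℝ} {ψ : ℝ → Zd d → ℂ} (h : Evol v ψ) (t : ℝ) (x : Zd d) :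
    ‖ψ t x‖ ≤ 1 := by
  have h1 := le_hasSum (h.mass t) x fun y _ => sq_nonneg _
  nlinarith [norm_nonneg (ψ t x)]

/-- uniqueness -/
theorem unique {v : Zd d → ℝ} {ψ χ : ℝ → Zd d → ℂ} (h1 : Evol v ψ) (h2 : Evol v χ) : ψ = χ := by
  obtain ⟨D, hD⟩ : ∃ D : ℝ → Zd d → ℂ, D = fun t x => ψ t x - χ t x := ⟨_, rfl⟩
  have hDc : ∀ x, Continuous fun t => D t x := by
    intro x
    rw [hD]
    exact continuous_iff_continuousAt.2 fun t =>
      (h1.deriv t x).continuousAt.sub (h2.deriv t x).continuousAt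
  have hder : ∀ t x, HasDerivAt (fun s => ex (s * v x) * D s x)
      (-(Complex.I * (ex (t * v x) * nb (D t) x))) t := by
    intro t x
    have e1 : HasDerivAt (fun s : ℝ => ex (s * v x)) (Complex.I * v x * ex (t * v x)) t := by
      have h3 := ex_deriv (-(v x)) t
      have e2 : ∀ s : ℝ, -(s * -(v x)) = s * v x := fun s => by ring
      simp only [e2] at h3
      convert h3 using 1
      push_cast
      ring
    have e3 : HasDerivAt (fun s => D s x) (-(Complex.I * (nb (D t) x + (v x : ℂ) * D t x))) t := by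
      have h3 := (h1.deriv t x).fun_sub (h2.deriv t x)
      rw [hD]
      have e4 : nb ((fun t x => ψ t x - χ t x) t) x =
          ∑ i : Fin d, (ψ t (x + Pi.single i 1) + ψ t (x - Pi.single i 1)) -
            ∑ i : Fin d, (χ t (x + Pi.single i 1) + χ t (x - Pi.single i 1)) := by
        unfold nb
        rw [← Finset.sum_sub_distrib]
        exact Finset.sum_congr rfl fun i _ => by ring
      rw [e4]
      have e5 : ∀ a b c d' : ℂ, -(Complex.I * (a - b + (v x : ℂ) * (c - d'))) =
          -(Complex.I * (a + (v x : ℂ) * c)) - -(Complex.I * (b + (v x : ℂ) * d')) := by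
        intro a b c d'
        ring
      exact (e5 _ _ _ _) ▸ h3
    have h4 := e1.fun_mul e3
    have e6 : -(Complex.I * (ex (t * v x) * nb (D t) x)) =
        Complex.I * v x * ex (t * v x) * D t x +
          ex (t * v x) * -(Complex.I * (nb (D t) x + (v x : ℂ) * D t x)) := by ring
    rw [e6]
    exact h4
  have hkey : ∀ k : ℕ, ∀ t x, ‖D t x‖ ≤ 2 * ((2 * d) ^ k * |t| ^ k / k.factorial) := by
    intro k
    induction k with
    | zero =>
      intro t x
      rw [hD]
      have := norm_sub_le (ψ t x) (χ t x)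
      have a1 := Evol.norm_le h1 t x
      have a2 := Evol.norm_le h2 t x
      simp only [pow_zero, Nat.factorial_zero, Nat.cast_one, mul_one, div_one]
      linarith
    | succ k ih =>
      intro t x
      have hc : Continuous fun s => -(Complex.I * (ex (s * v x) * nb (D s) x)) := by
        unfold nb
        refine (continuous_const.mul ((ex_cont.comp (by fun_prop)).mul ?_)).neg
        exact continuous_finsetSum _ fun i _ => (hDc _).add (hDc _)
      have h3 := intervalIntegral.integral_eq_sub_of_hasDerivAt (a := 0) (b := t)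
        (fun s _ => hder s x) (hc.intervalIntegrable _ _)
      have h0 : D 0 x = 0 := by
        rw [hD]
        show ψ 0 x - χ 0 x = 0
        rw [h1.init, h2.init, sub_self]
      rw [h0, mul_zero, sub_zero] at h3
      have h4 : ‖D t x‖ = ‖∫ s in (0 : ℝ)..t, -(Complex.I * (ex (s * v x) * nb (D s) x))‖ := by
        rw [h3, norm_mul, ex_norm, one_mul]
      rw [h4]
      refine intervalIntegral.norm_integral_le_integral_norm_uIoc.trans ?_
      have h5 : ∀ s : ℝ, ‖-(Complex.I * (ex (s * v x) * nb (D s) x))‖ ≤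
          (2 * ((2 * d) ^ (k + 1) / k.factorial)) * |s - 0| ^ k := by
        intro s
        rw [norm_neg, norm_mul, norm_mul, Complex.norm_I, ex_norm, one_mul, one_mul, sub_zero]
        have h6 : ‖nb (D s) x‖ ≤ ∑ _i : Fin d, 2 * (2 * ((2 * d) ^ k * |s| ^ k / k.factorial)) := by
          refine (norm_sum_le _ _).trans (Finset.sum_le_sum fun i _ => ?_)
          refine (norm_add_le _ _).trans ?_
          have a1 := ih s (x + Pi.single i 1)
          have a2 := ih s (x - Pi.single i 1)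
          linarith
        refine h6.trans (le_of_eq ?_)
        rw [Finset.sum_const, Finset.card_univ, Fintype.card_fin, nsmul_eq_mul, pow_succ]
        ring
      have hg : Continuous fun s : ℝ => (2 * ((2 * (d : ℝ)) ^ (k + 1) / k.factorial)) * |s - 0| ^ k := by
        fun_prop
      calc ∫ s in Ι (0 : ℝ) t, ‖-(Complex.I * (ex (s * v x) * nb (D s) x))‖
          ≤ ∫ s in Ι (0 : ℝ) t, (2 * ((2 * (d : ℝ)) ^ (k + 1) / k.factorial)) * |s - 0| ^ k := by
            refine setIntegral_mono_on ?_ ?_ measurableSet_uIoc fun s _ => h5 s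
            · exact (hc.norm.intervalIntegrable 0 t).def'
            · exact (hg.intervalIntegrable 0 t).def'
        _ = (2 * ((2 * (d : ℝ)) ^ (k + 1) / k.factorial)) * (|t - 0| ^ (k + 1) / (k + 1)) := by
            rw [MeasureTheory.integral_const_mul, integral_pow_abs_sub_uIoc]
        _ = _ := by
            rw [sub_zero, Nat.factorial_succ]
            push_cast
            field_simp
  funext t x
  have hlim : Filter.Tendsto (fun k : ℕ => 2 * ((2 * d) ^ k * |t| ^ k / k.factorial)) Filter.atTop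
      (nhds 0) := by
    have h3 := (FloorSemiring.tendsto_pow_div_factorial_atTop (2 * (d : ℝ) * |t|)).const_mul 2
    rw [mul_zero] at h3
    refine h3.congr fun k => ?_
    rw [mul_pow]
  have h3 : ‖D t x‖ ≤ 0 := ge_of_tendsto' hlim fun k => hkey k t x
  have h4 : D t x = 0 := norm_le_zero_iff.1 h3
  rw [hD] at h4
  exact sub_eq_zero.1 h4

end Exi

open Exi in
/-- existence and uniqueness of the time evolution -/
theorem exi : T_EXI := fun _ v => ⟨psi v, psi_evol v, fun _ h => unique h (psi_evol v)⟩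

end Pool.Agent.T2h98.QD
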