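import Pool.Agent.T2h98.QD.Stm4
import Pool.Agent.T2h98.QD.Exi

/-! Continuity of the time evolution: proof. -/

set_option autoImplicit false
set_option linter.unusedSectionVars false

open scoped BigOperators Interval
open MeasureTheory

namespace Pool.Agent.T2h98.QD

namespace Exi

variable {d : ℕ}

theorem GG'_jc (f : (Zd d → ℝ) → ℝ → Zd d → ℂ)
    (hf : ∀ y, Continuous fun p : (Zd d → ℝ) × ℝ => f p.1 p.2 y) (x : Zd d) :
    Continuous fun p : (Zd d → ℝ) × ℝ => GG' p.1 p.2 (f p.1 p.2) x := by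
  unfold GG' nb
  have h0 : ∀ y : Zd d, Continuous fun p : (Zd d → ℝ) × ℝ => p.1 y := fun y =>
    (continuous_apply y).comp continuous_fst
  have h1 : ∀ y : Zd d, Continuous fun p : (Zd d → ℝ) × ℝ => ex (-(p.2 * p.1 y)) * f p.1 p.2 y :=
    fun y => (ex_cont.comp ((continuous_snd.mul (h0 y)).neg)).mul (hf y)
  have h2 : Continuous fun p : (Zd d → ℝ) × ℝ => ex (p.2 * p.1 x) :=
    ex_cont.comp (continuous_snd.mul (h0 x))
  refine (continuous_const.mul (h2.mul ?_)).neg
  exact continuous_finsetSum _ fun i _ => (h1 _).add (h1 _)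

theorem ph_jc (k : ℕ) (x : Zd d) : Continuous fun p : (Zd d → ℝ) × ℝ => ph p.1 k p.2 x := by
  induction k generalizing x with
  | zero => exact continuous_const
  | succ k ih =>
    have h := GG'_jc (fun v s => ph v k s) ih x
    exact intervalIntegral.continuous_parametric_primitive_of_continuous (μ := volume)
      (f := fun (v : Zd d → ℝ) (s : ℝ) => GG' v s (ph v k s) x) (a₀ := 0) h

theorem phi_jc (x : Zd d) : Continuous fun p : (Zd d → ℝ) × ℝ => phi p.1 p.2 x := by
  rw [continuous_iff_continuousAt]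
  rintro ⟨v, t⟩
  obtain ⟨T, hT⟩ : ∃ T : ℝ, T = |t| + 1 := ⟨_, rfl⟩
  have hT0 : 0 ≤ T := by rw [hT]; positivity
  obtain ⟨U, hU⟩ : ∃ U : Set ((Zd d → ℝ) × ℝ), U = {p | |p.2| < T} := ⟨_, rfl⟩
  have hUo : IsOpen U := by
    rw [hU]
    exact isOpen_lt (continuous_abs.comp continuous_snd) continuous_const
  have hc : ContinuousOn (fun p : (Zd d → ℝ) × ℝ => ∑' k, ph p.1 k p.2 x) U := by
    refine continuousOn_tsum (u := fun k => tm T k x) (fun k => (ph_jc k x).continuousOn)
      (tm_summable_left hT0 x) ?_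
    intro k p hp
    rw [hU] at hp
    have hp' : |p.2| < T := hp
    exact (ph_bound p.1 k x p.2).trans (tm_mono (abs_nonneg _) hp'.le k x)
  have hm : ((v, t) : (Zd d → ℝ) × ℝ) ∈ U := by
    rw [hU]
    show |t| < T
    rw [hT]; linarith
  exact hc.continuousAt (hUo.mem_nhds hm)

theorem psi_jc (x : Zd d) : Continuous fun p : (Zd d → ℝ) × ℝ => psi p.1 p.2 x := by
  unfold psi
  have h0 : Continuous fun p : (Zd d → ℝ) × ℝ => p.1 x := (continuous_apply x).comp continuous_fst
  exact (ex_cont.comp ((continuous_snd.mul h0).neg)).mul (phi_jc x)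

end Exi

open Exi in
/-- joint continuity of the time evolution -/
theorem meas : T_MEAS := by
  intro d Ψ hΨ x
  have h : ∀ v, Ψ v = psi v := fun v => unique (hΨ v) (psi_evol v)
  simp only [h]
  exact psi_jc x

end Pool.Agent.T2h98.QD
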