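import Pool.Agent.T2h98.QD.Stm3

/-! Choice of the parameters. -/

set_option autoImplicit false
set_option linter.unusedSectionVars false
set_option linter.unusedVariables false

open scoped BigOperators

namespace Pool.Agent.T2h98.QD

namespace NumA

theorem large (A s : ℝ) (hs : 0 < s) :
    ∃ y0 : ℝ, 1 ≤ y0 ∧ ∀ y : ℝ, y0 ≤ y → A * y ^ 4 * Real.exp (-(s / 2 * y)) ≤ 1 := by
  have h1 := Real.tendsto_pow_mul_exp_neg_atTop_nhds_zero 4
  have h2 : Filter.Tendsto (fun y : ℝ => s / 2 * y) Filter.atTop Filter.atTop :=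
    Filter.tendsto_id.const_mul_atTop (by positivity)
  have h3 := (h1.comp h2).const_mul (A * (2 / s) ^ 4)
  rw [mul_zero] at h3
  have h4 := (h3.eventually (gt_mem_nhds one_pos)).and (Filter.eventually_ge_atTop 1)
  obtain ⟨y0, hy0⟩ := Filter.eventually_atTop.1 h4
  refine ⟨max y0 1, le_max_right _ _, fun y hy => ?_⟩
  have h5 := (hy0 y ((le_max_left _ _).trans hy)).1
  simp only [Function.comp_apply] at h5
  have h6 : A * (2 / s) ^ 4 * ((s / 2 * y) ^ 4 * Real.exp (-(s / 2 * y))) =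
      A * y ^ 4 * Real.exp (-(s / 2 * y)) := by
    field_simp
  rw [h6] at h5
  exact h5.le

/-- `exp (- p y)` -/
noncomputable def ee (y p : ℝ) : ℝ := Real.exp (-(p * y))

theorem ee_pos (y p : ℝ) : 0 < ee y p := Real.exp_pos _

theorem ee_add (y p q : ℝ) : ee y (p + q) = ee y p * ee y q := by
  unfold ee
  rw [← Real.exp_add]
  congr 1
  ring

theorem ee_sub (y p q : ℝ) : ee y (p - q) = ee y p / ee y q := by
  rw [eq_div_iff (ee_pos y q).ne', ← ee_add, sub_add_cancel]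

theorem ee_zero (y : ℝ) : ee y 0 = 1 := by unfold ee; simp

theorem ee_neg (y p : ℝ) : ee y (-p) = (ee y p)⁻¹ := by
  unfold ee
  rw [← Real.exp_neg]
  congr 1
  ring

theorem ee_nat (y p : ℝ) (n : ℕ) : ee y p ^ n = ee y (n * p) := by
  unfold ee
  rw [← Real.exp_nat_mul]
  congr 1
  ring

theorem ee_anti {y : ℝ} (hy : 0 ≤ y) {p q : ℝ} (h : p ≤ q) : ee y q ≤ ee y p := by
  unfold ee
  apply Real.exp_le_exp.2
  have := mul_le_mul_of_nonneg_right h hy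
  linarith

/-- domination -/
theorem dom {y s B : ℝ} (hy : 0 ≤ y) (hB : B * ee y (s / 2) ≤ 1) {P c p q : ℝ} (hc : 0 ≤ c)
    (hP : P ≤ c * B) (hpq : s / 2 ≤ p - q) (hB0 : 0 ≤ B) : P * ee y p ≤ c * ee y q := by
  have h1 : ee y p = ee y (p - q) * ee y q := by rw [← ee_add, sub_add_cancel]
  have h2 := ee_anti hy hpq
  have h3 := ee_pos y (p - q)
  have h4 := ee_pos y q
  rw [h1, ← mul_assoc]
  refine mul_le_mul_of_nonneg_right ?_ h4.le
  calc P * ee y (p - q) ≤ (c * B) * ee y (p - q) := mul_le_mul_of_nonneg_right hP h3.le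
    _ ≤ (c * B) * ee y (s / 2) := mul_le_mul_of_nonneg_left h2 (mul_nonneg hc hB0)
    _ = c * (B * ee y (s / 2)) := by ring
    _ ≤ c * 1 := mul_le_mul_of_nonneg_left hB hc
    _ = c := mul_one c

theorem pow2 {y : ℝ} (hy : 1 ≤ y) : y ≤ y ^ 2 := by
  rw [sq]; exact le_mul_of_one_le_left (by linarith) hy

theorem pow3 {y : ℝ} (hy : 1 ≤ y) : y ^ 2 ≤ y ^ 3 := by
  rw [show y ^ 3 = y * y ^ 2 by ring]; exact le_mul_of_one_le_left (sq_nonneg y) hy

theorem pow4 {y : ℝ} (hy : 1 ≤ y) : y ^ 3 ≤ y ^ 4 := by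
  rw [show y ^ 4 = y * y ^ 3 by ring]
  exact le_mul_of_one_le_left (pow_nonneg (by linarith) 3) hy

/-- the size constant -/
noncomputable def KK (C1 C2 C3 : ℝ) : ℝ := (1 + C1) * (1 + C2) ^ 2 * (1 + C3)

theorem kk {C1 C2 C3 : ℝ} (h1 : 0 < C1) (h2 : 0 < C2) (h3 : 0 < C3) (z a b c : ℝ)
    (ha : a ≤ 1 + C1) (hb : b ≤ (1 + C2) ^ 2) (hc : c ≤ 1 + C3) (ha0 : 0 ≤ a) (hb0 : 0 ≤ b)
    (hc0 : 0 ≤ c) (hz : z = a * b * c) : z ≤ KK C1 C2 C3 := by
  rw [hz]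
  unfold KK
  exact mul_le_mul (mul_le_mul ha hb hb0 (by linarith)) hc hc0
    (mul_nonneg (by linarith) (sq_nonneg _))

theorem k1 {C1 C2 C3 : ℝ} (h1 : 0 < C1) (h2 : 0 < C2) (h3 : 0 < C3) : 1 ≤ KK C1 C2 C3 :=
  kk h1 h2 h3 1 1 1 1 (by linarith) (one_le_pow₀ (by linarith)) (by linarith) (by norm_num)
    (by norm_num) (by norm_num) (by norm_num)

theorem kC2 {C1 C2 C3 : ℝ} (h1 : 0 < C1) (h2 : 0 < C2) (h3 : 0 < C3) : C2 ≤ KK C1 C2 C3 :=
  kk h1 h2 h3 C2 1 C2 1 (by linarith) (by nlinarith [sq_nonneg C2]) (by linarith) (by norm_num)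
    h2.le (by norm_num) (by ring)

theorem kC3 {C1 C2 C3 : ℝ} (h1 : 0 < C1) (h2 : 0 < C2) (h3 : 0 < C3) : C3 ≤ KK C1 C2 C3 :=
  kk h1 h2 h3 C3 1 1 C3 (by linarith) (one_le_pow₀ (by linarith)) (by linarith) (by norm_num)
    (by norm_num) h3.le (by ring)

theorem kC1 {C1 C2 C3 : ℝ} (h1 : 0 < C1) (h2 : 0 < C2) (h3 : 0 < C3) : C1 ≤ KK C1 C2 C3 :=
  kk h1 h2 h3 C1 C1 1 1 (by linarith) (one_le_pow₀ (by linarith)) (by linarith) h1.le
    (by norm_num) (by norm_num) (by ring)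

theorem kC12 {C1 C2 C3 : ℝ} (h1 : 0 < C1) (h2 : 0 < C2) (h3 : 0 < C3) :
    C1 * (1 + C2) ≤ KK C1 C2 C3 :=
  kk h1 h2 h3 _ C1 (1 + C2) 1 (by linarith)
    (by rw [sq]; exact le_mul_of_one_le_left (by linarith) (by linarith)) (by linarith) h1.le
    (by linarith) (by norm_num) (by ring)

theorem kC122 {C1 C2 C3 : ℝ} (h1 : 0 < C1) (h2 : 0 < C2) (h3 : 0 < C3) :
    C1 * (1 + C2) ^ 2 ≤ KK C1 C2 C3 :=
  kk h1 h2 h3 _ C1 ((1 + C2) ^ 2) 1 (by linarith) le_rfl (by linarith) h1.le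
    (by positivity) (by norm_num) (by ring)

/-- all the polynomial bounds -/
theorem polys {C1 C2 C3 y B : ℝ} (h1 : 0 < C1) (h2 : 0 < C2) (h3 : 0 < C3) (hy : 1 ≤ y)
    (hB : B = 10 ^ 5 * KK C1 C2 C3 * y ^ 4) :
    10 ^ 5 ≤ B ∧ 10 ^ 5 * y ≤ B ∧ 10 ^ 5 * (C2 * y) ≤ B ∧ 10 ^ 5 * (C3 * y ^ 2) ≤ B ∧
    10 ^ 5 * (C1 * y ^ 2) ≤ B ∧ 10 ^ 5 * ((C1 * (1 + C2)) * y ^ 3) ≤ B ∧
    10 ^ 5 * ((C1 * (1 + C2) ^ 2) * y ^ 4) ≤ B := by
  have y2 := pow2 hy
  have y3 := pow3 hy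
  have y4 := pow4 hy
  have hK : 0 ≤ KK C1 C2 C3 := zero_le_one.trans (k1 h1 h2 h3)
  have key : ∀ z u : ℝ, z ≤ KK C1 C2 C3 → 0 ≤ u → u ≤ y ^ 4 → 10 ^ 5 * (z * u) ≤ B := by
    intro z u hz hu hu1
    rw [hB, mul_assoc]
    exact mul_le_mul_of_nonneg_left (mul_le_mul hz hu1 hu hK) (by norm_num)
  refine ⟨?_, ?_, ?_, ?_, ?_, ?_, ?_⟩
  · have := key 1 1 (k1 h1 h2 h3) (by norm_num) (by linarith)
    simpa using this
  · have := key 1 y (k1 h1 h2 h3) (by linarith) (by linarith)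
    simpa using this
  · exact key C2 y (kC2 h1 h2 h3) (by linarith) (by linarith)
  · exact key C3 (y ^ 2) (kC3 h1 h2 h3) (by positivity) (by linarith)
  · exact key C1 (y ^ 2) (kC1 h1 h2 h3) (by positivity) (by linarith)
  · exact key _ (y ^ 3) (kC12 h1 h2 h3) (by positivity) (by linarith)
  · exact key _ (y ^ 4) (kC122 h1 h2 h3) (by positivity) le_rfl

/-- `Q0` -/
theorem Qb {y s t h δ θ C1 Q0 : ℝ} (hy : 0 < y) (hs : 0 < s) (hs1 : s ≤ 1 / 100) (hC1 : 0 < C1)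
    (eδ : δ = ee y (2 - s)) (eθ : θ = ee y t / 2) (hh : h = (2 - s + t) / 2)
    (hQ0 : Q0 = C1 * ((2 - s) * y) ^ 2 / Real.sqrt (δ * θ)) :
    0 ≤ Q0 ∧ Q0 ≤ 6 * C1 * y ^ 2 * ee y (-h) := by
  have hh0 := ee_pos y h
  have hsq : 2 / 3 * ee y h ≤ Real.sqrt (δ * θ) := by
    apply Real.le_sqrt_of_sq_le
    have e1 : δ * θ = ee y (h + h) / 2 := by
      rw [eδ, eθ, show h + h = (2 - s) + t by rw [hh]; ring, ee_add]
      ring
    rw [e1, ee_add]
    have := mul_pos hh0 hh0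
    nlinarith
  refine ⟨by rw [hQ0]; positivity, ?_⟩
  rw [hQ0]
  have h1 : 0 < 2 / 3 * ee y h := by positivity
  have h2 : ((2 - s) * y) ^ 2 ≤ (2 * y) ^ 2 :=
    pow_le_pow_left₀ (mul_nonneg (by linarith) hy.le)
      (mul_le_mul_of_nonneg_right (by linarith) hy.le) 2
  calc C1 * ((2 - s) * y) ^ 2 / Real.sqrt (δ * θ)
      ≤ C1 * (2 * y) ^ 2 / (2 / 3 * ee y h) := by
        have h3 := mul_le_mul_of_nonneg_left h2 hC1.le
        exact div_le_div₀ (by positivity) h3 h1 hsq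
    _ = 6 * C1 * y ^ 2 * ee y (-h) := by
        rw [ee_neg]
        have := (ee_pos y h).ne'
        field_simp
        ring

/-- `ν` -/
theorem νb {y r h n1 C1 Q0 ν : ℝ} (hQ0 : 0 ≤ Q0) (hQ : Q0 ≤ 6 * C1 * y ^ 2 * ee y (-h))
    (hn1 : n1 = 2 - h - 2 * r) (hν : ν = ee y 2 * Q0 / ee y (2 * r)) :
    0 ≤ ν ∧ ν ≤ 6 * C1 * y ^ 2 * ee y n1 := by
  have a1 := ee_pos y 2
  have a2 := ee_pos y (2 * r)
  refine ⟨by rw [hν]; positivity, ?_⟩
  rw [hν]
  calc ee y 2 * Q0 / ee y (2 * r)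
      ≤ ee y 2 * (6 * C1 * y ^ 2 * ee y (-h)) / ee y (2 * r) := by
        gcongr
    _ = 6 * C1 * y ^ 2 * (ee y 2 * ee y (-h) / ee y (2 * r)) := by ring
    _ = 6 * C1 * y ^ 2 * ee y n1 := by
        rw [← ee_add, ← ee_sub, hn1]
        congr 2

/-- `κ` -/
theorem κb {y s r h n1 E1 C1 C2 Q0 ν κ g e3 : ℝ} (hy1 : 1 ≤ y) (hC1 : 0 < C1) (hC2 : 0 < C2)
    (hQ0 : 0 ≤ Q0)
    (hQ : Q0 ≤ 6 * C1 * y ^ 2 * ee y (-h)) (hn1 : n1 = 2 - h - 2 * r) (hν0 : 0 ≤ ν)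
    (hν : ν ≤ 6 * C1 * y ^ 2 * ee y n1) (hg0 : 0 ≤ g) (hg : g ≤ 3 * C2 * y)
    (hE1 : E1 = 2 - h - 5 / 2 * r + s / 2)
    (he3 : e3 = ee y (3 * r + (2 - s)))
    (hκ : κ = ee y 2 * (Real.sqrt (2 * ν) * Real.sqrt (Q0 * g / e3))) :
    0 ≤ κ ∧ κ ≤ 36 * (C1 * (1 + C2)) * y ^ 3 * ee y E1 := by
  have hy : 0 < y := by linarith
  have hy2 : y ≤ y ^ 2 := pow2 hy1
  have p3 := ee_pos y (3 * r + (2 - s))
  have ph := ee_pos y (-h)
  have pn := ee_pos y n1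
  have p2 := ee_pos y 2
  have pF := ee_pos y (-h - 5 / 2 * r + s / 2)
  refine ⟨by rw [hκ]; positivity, ?_⟩
  rw [hκ, ← Real.sqrt_mul (by positivity)]
  have hb : 0 ≤ 6 * C1 * y ^ 2 := by positivity
  have h2 : Q0 * g / e3 ≤
      (6 * C1 * y ^ 2 * ee y (-h)) * (3 * C2 * y) / ee y (3 * r + (2 - s)) := by
    rw [he3]
    exact div_le_div_of_nonneg_right (mul_le_mul hQ hg hg0 (mul_nonneg hb ph.le)) p3.le
  have h1 : 2 * ν * (Q0 * g / e3) ≤
      (6 * C1 * y ^ 2 * ((1 + 6 * C2) * y) * ee y (-h - 5 / 2 * r + s / 2)) ^ 2 := by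
    calc 2 * ν * (Q0 * g / e3)
        ≤ 2 * (6 * C1 * y ^ 2 * ee y n1) * ((6 * C1 * y ^ 2 * ee y (-h)) * (3 * C2 * y) /
            ee y (3 * r + (2 - s))) := by
          refine mul_le_mul (mul_le_mul_of_nonneg_left hν (by norm_num)) h2 ?_ (by positivity)
          rw [he3]
          positivity
      _ = (6 * C1 * y ^ 2) ^ 2 * (6 * C2 * y) *
          (ee y n1 * ee y (-h) / ee y (3 * r + (2 - s))) := by ring
      _ = (6 * C1 * y ^ 2) ^ 2 * (6 * C2 * y) *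
          (ee y (-h - 5 / 2 * r + s / 2)) ^ 2 := by
          rw [← ee_add, ← ee_sub, ee_nat]
          congr 2
          rw [hn1]
          push_cast
          ring
      _ ≤ (6 * C1 * y ^ 2) ^ 2 * ((1 + 6 * C2) * y) ^ 2 *
          (ee y (-h - 5 / 2 * r + s / 2)) ^ 2 := by
          have h3 : 6 * C2 * y ≤ ((1 + 6 * C2) * y) ^ 2 := by
            rw [mul_pow]
            have a1 : 6 * C2 ≤ (1 + 6 * C2) ^ 2 := by nlinarith [sq_nonneg (6 * C2)]
            calc 6 * C2 * y ≤ (1 + 6 * C2) ^ 2 * y := mul_le_mul_of_nonneg_right a1 hy.le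
              _ ≤ (1 + 6 * C2) ^ 2 * y ^ 2 := mul_le_mul_of_nonneg_left hy2 (sq_nonneg _)
          exact mul_le_mul_of_nonneg_right (mul_le_mul_of_nonneg_left h3 (sq_nonneg _))
            (sq_nonneg _)
      _ = _ := by ring
  have h4 : Real.sqrt (2 * ν * (Q0 * g / e3)) ≤
      6 * C1 * y ^ 2 * ((1 + 6 * C2) * y) * ee y (-h - 5 / 2 * r + s / 2) := by
    apply Real.sqrt_le_iff.2
    exact ⟨by positivity, h1⟩
  calc ee y 2 * Real.sqrt (2 * ν * (Q0 * g / e3))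
      ≤ ee y 2 * (6 * C1 * y ^ 2 * ((1 + 6 * C2) * y) *
        ee y (-h - 5 / 2 * r + s / 2)) :=
        mul_le_mul_of_nonneg_left h4 p2.le
    _ = 6 * (C1 * (1 + 6 * C2)) * y ^ 3 *
        (ee y 2 * ee y (-h - 5 / 2 * r + s / 2)) := by ring
    _ = 6 * (C1 * (1 + 6 * C2)) * y ^ 3 * ee y E1 := by
        rw [← ee_add, hE1]
        congr 2
        ring
    _ ≤ 36 * (C1 * (1 + C2)) * y ^ 3 * ee y E1 := by
        refine mul_le_mul_of_nonneg_right ?_ (ee_pos y E1).le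
        refine mul_le_mul_of_nonneg_right ?_ (by positivity)
        have : 0 ≤ C1 * C2 := by positivity
        linarith

/-- the domination property -/
def Dom (y s B : ℝ) : Prop :=
  ∀ P c p q : ℝ, 0 ≤ c → P ≤ c * B → s / 2 ≤ p - q → P * ee y p ≤ c * ee y q

/-- the gap -/
theorem gap {y s x B C1 C2 g σ2 q0 cb κ cr m0 γ E1 : ℝ} (hy : 0 < y) (hx : 0 ≤ x) (hs : 0 < s)
    (D : Dom y s B) (hC1 : 0 < C1) (hC2 : 0 < C2)
    (b0 : 10 ^ 5 ≤ B) (b2 : 10 ^ 5 * (C2 * y) ≤ B)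
    (b5 : 10 ^ 5 * ((C1 * (1 + C2)) * y ^ 3) ≤ B) (hg0 : 0 ≤ g) (hgle : g ≤ 3 * C2 * y)
    (hσ2 : σ2 = ee y 2) (em0 : m0 = ee y s)
    (eq0 : q0 = ee y (2 + x / 2 + s)) (ecb : cb = ee y (2 * s))
    (ecr : cr = 2 * ee y (x + 12 * s)) (eγ : γ = ee y (x + 8 * s) / 2)
    (hκ : κ ≤ 36 * (C1 * (1 + C2)) * y ^ 3 * ee y E1) (hE1 : x + 16 * s ≤ E1) :
    γ ≤ 1 / 4 * (2 * q0 * cb / (8 * σ2 * g + 2 * q0 * cb)) ^ 2 - (κ + cr / m0) := by
  have e1 : 2 * q0 * cb = 2 * ee y (2 + x / 2 + 3 * s) := by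
    rw [eq0, ecb, mul_assoc, ← ee_add]
    congr 2
    ring
  have h1 : 8 * σ2 * g + 2 * q0 * cb ≤ ee y (2 - s) := by
    rw [e1, hσ2]
    have h2 := D (24 * C2 * y + 2) 1 2 (2 - s) (by norm_num) (by linarith) (by linarith)
    have h3 : ee y (2 + x / 2 + 3 * s) ≤ ee y 2 := ee_anti hy.le (by linarith)
    have h4 : 8 * ee y 2 * g ≤ 8 * ee y 2 * (3 * C2 * y) :=
      mul_le_mul_of_nonneg_left hgle (by have := ee_pos y 2; positivity)
    linarith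
  have h0 : 0 < 8 * σ2 * g + 2 * q0 * cb := by
    rw [e1]
    have := ee_pos y (2 + x / 2 + 3 * s)
    have h5 : 0 ≤ 8 * σ2 * g := by
      rw [hσ2]
      have := ee_pos y 2
      positivity
    linarith
  have pz := ee_pos y (x / 2 + 4 * s)
  have h2 : 2 * ee y (x / 2 + 4 * s) ≤ 2 * q0 * cb / (8 * σ2 * g + 2 * q0 * cb) := by
    rw [le_div_iff₀ h0]
    calc 2 * ee y (x / 2 + 4 * s) * (8 * σ2 * g + 2 * q0 * cb)
        ≤ 2 * ee y (x / 2 + 4 * s) * ee y (2 - s) :=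
          mul_le_mul_of_nonneg_left h1 (by positivity)
      _ = 2 * q0 * cb := by
          rw [e1, mul_assoc, ← ee_add]
          congr 2
          ring
  have h3 : ee y (x + 8 * s) ≤ 1 / 4 * (2 * q0 * cb / (8 * σ2 * g + 2 * q0 * cb)) ^ 2 := by
    have h4 := pow_le_pow_left₀ (by positivity) h2 2
    have h5 : (2 * ee y (x / 2 + 4 * s)) ^ 2 = 4 * ee y (x + 8 * s) := by
      rw [mul_pow, ee_nat]
      push_cast
      have : (2 : ℝ) * (x / 2 + 4 * s) = x + 8 * s := by ring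
      rw [this]
      ring
    rw [h5] at h4
    linarith
  have h4 : κ ≤ 1 / 4 * ee y (x + 8 * s) :=
    hκ.trans (D _ (1 / 4) E1 (x + 8 * s) (by norm_num) (by linarith) (by linarith))
  have h5 : cr / m0 ≤ 1 / 4 * ee y (x + 8 * s) := by
    rw [ecr, em0, mul_div_assoc, ← ee_sub]
    exact D 2 (1 / 4) (x + 12 * s - s) (x + 8 * s) (by norm_num) (by linarith) (by linarith)
  rw [eγ]
  linarith

/-- the main bound -/
theorem mainb {y s x B C1 C2 g σ2 q0 κ cr m0 γ E1 ηδ M : ℝ} (hy1 : 1 ≤ y) (hx : 0 ≤ x)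
    (hs : 0 < s)
    (D : Dom y s B) (hC1 : 0 < C1) (hC2 : 0 < C2)
    (b0 : 10 ^ 5 ≤ B) (b2 : 10 ^ 5 * (C2 * y) ≤ B)
    (b6 : 10 ^ 5 * ((C1 * (1 + C2) ^ 2) * y ^ 4) ≤ B) (hg0 : 0 ≤ g) (hgle : g ≤ 3 * C2 * y)
    (hσ2 : σ2 = ee y 2) (em0 : m0 = ee y s)
    (eq0 : q0 = ee y (2 + x / 2 + s)) (eηδ : ηδ = ee y (2 + x + 11 * s))
    (ecr : cr = 2 * ee y (x + 12 * s)) (eγ : γ = ee y (x + 8 * s) / 2) (hκ0 : 0 ≤ κ)
    (hκ : κ ≤ 36 * (C1 * (1 + C2)) * y ^ 3 * ee y E1) (hE1 : x + 16 * s ≤ E1)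
    (hM0 : 0 ≤ M) (hM : M ≤ 5 * Real.exp ((2 + x / 2) * y)) (hG0 : 0 ≤ g + cr)
    (hG : g + cr ≤ 3 * C2 * y + 2) :
    m0 + 8 * M * q0 * (g + cr) + (ηδ * (g / (σ2 * m0)) +
      6 * (κ * (2 * (g + cr)) + cr)) / γ ≤ ee y (s / 2) := by
  have hy : 0 < y := by linarith
  have hC2y : 0 ≤ C2 * y := by positivity
  have t1 : m0 ≤ 1 / 5 * ee y (s / 2) := by
    rw [em0]
    have := D 1 (1 / 5) s (s / 2) (by norm_num) (by linarith) (by linarith)
    linarith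
  have t2 : 8 * M * q0 * (g + cr) ≤ 1 / 5 * ee y (s / 2) := by
    have h1 : M * q0 ≤ 5 * ee y s := by
      have h2 : Real.exp ((2 + x / 2) * y) * ee y (2 + x / 2 + s) = ee y s := by
        unfold ee
        rw [← Real.exp_add]
        congr 1
        ring
      rw [eq0]
      calc M * ee y (2 + x / 2 + s) ≤ 5 * Real.exp ((2 + x / 2) * y) * ee y (2 + x / 2 + s) :=
            mul_le_mul_of_nonneg_right hM (ee_pos _ _).le
        _ = _ := by rw [mul_assoc, h2]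
    have h3 := D (40 * (3 * C2 * y + 2)) (1 / 5) s (s / 2) (by norm_num) (by linarith)
      (by linarith)
    have ps := ee_pos y s
    calc 8 * M * q0 * (g + cr) = 8 * (M * q0) * (g + cr) := by ring
      _ ≤ 8 * (5 * ee y s) * (3 * C2 * y + 2) :=
          mul_le_mul (mul_le_mul_of_nonneg_left h1 (by norm_num)) hG hG0 (by positivity)
      _ = 40 * (3 * C2 * y + 2) * ee y s := by ring
      _ ≤ _ := h3
  have pγ := ee_pos y (x + 8 * s)
  have t3 : ηδ * (g / (σ2 * m0)) / γ ≤ 1 / 5 * ee y (s / 2) := by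
    have h1 : ηδ * (g / (σ2 * m0)) / γ = 2 * g * ee y (2 * s) := by
      rw [eηδ, hσ2, em0, eγ]
      have e1 : ee y (2 + x + 11 * s) = ee y 2 * ee y s * ee y (x + 8 * s) * ee y (2 * s) := by
        rw [← ee_add, ← ee_add, ← ee_add]
        congr 1
        ring
      rw [e1]
      have a1 := (ee_pos y 2).ne'
      have a2 := (ee_pos y s).ne'
      have a3 := (ee_pos y (x + 8 * s)).ne'
      field_simp
    rw [h1]
    have h2 := D (6 * C2 * y) (1 / 5) (2 * s) (s / 2) (by norm_num) (by linarith) (by linarith)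
    have h3 : 2 * g * ee y (2 * s) ≤ 2 * (3 * C2 * y) * ee y (2 * s) :=
      mul_le_mul_of_nonneg_right (by linarith) (ee_pos y (2 * s)).le
    linarith
  have t4 : 6 * (κ * (2 * (g + cr))) / γ ≤ 1 / 5 * ee y (s / 2) := by
    have h1 : 2 * (g + cr) ≤ 6 * (1 + C2) * y := by
      have : (4 : ℝ) ≤ 4 * y := by linarith
      linarith
    have pE := ee_pos y E1
    have h2 : κ * (2 * (g + cr)) ≤
        (36 * (C1 * (1 + C2)) * y ^ 3 * ee y E1) * (6 * (1 + C2) * y) :=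
      mul_le_mul hκ h1 (by linarith) (by positivity)
    have h3 : 6 * (κ * (2 * (g + cr))) / γ ≤
        2592 * (C1 * (1 + C2) ^ 2 * y ^ 4) * ee y (E1 - (x + 8 * s)) := by
      rw [ee_sub, eγ, div_le_iff₀ (by positivity)]
      have a3 := (ee_pos y (x + 8 * s)).ne'
      calc 6 * (κ * (2 * (g + cr)))
          ≤ 6 * ((36 * (C1 * (1 + C2)) * y ^ 3 * ee y E1) * (6 * (1 + C2) * y)) := by
            linarith
        _ = _ := by
            field_simp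
            ring
    refine h3.trans ?_
    exact D _ (1 / 5) _ (s / 2) (by norm_num) (by linarith) (by linarith)
  have t5 : 6 * cr / γ ≤ 1 / 5 * ee y (s / 2) := by
    have h1 : 6 * cr / γ = 24 * ee y (4 * s) := by
      rw [ecr, eγ]
      have e1 : ee y (x + 12 * s) = ee y (x + 8 * s) * ee y (4 * s) := by
        rw [← ee_add]
        congr 1
        ring
      rw [e1]
      have a3 := (ee_pos y (x + 8 * s)).ne'
      field_simp
      ring
    rw [h1]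
    exact D 24 (1 / 5) (4 * s) (s / 2) (by norm_num) (by linarith) (by linarith)
  have hsplit : (ηδ * (g / (σ2 * m0)) + 6 * (κ * (2 * (g + cr)) + cr)) / γ =
      ηδ * (g / (σ2 * m0)) / γ + 6 * (κ * (2 * (g + cr))) / γ + 6 * cr / γ := by ring
  rw [hsplit]
  linarith

/-- bounds for `L` -/
theorem Lb {y s x t δ ηδ θ cb q0 L : ℝ} (hy1 : 1 ≤ y) (hx : 0 ≤ x) (hs : 0 < s)
    (hs1 : s ≤ 1 / 100) (hxs : x + 13 * s ≤ 2 / 7) (ht : t ≤ 1)
    (eδ : δ = ee y (2 - s)) (eηδ : ηδ = ee y (2 + x + 11 * s)) (eθ : θ = ee y t / 2)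
    (ecb : cb = ee y (2 * s)) (eq0 : q0 = ee y (2 + x / 2 + s)) (hL : Real.exp (7 * y) ≤ L) :
    (1 + 4 / δ) ^ 3 ≤ L ^ 2 ∧ 1 / L ≤ ηδ ∧ 1 / L ≤ δ ∧
    1 ≤ θ * L ∧ 1 / L ≤ cb ∧ 1 / L ≤ q0 ∧ 10 * Real.exp ((2 + x / 2) * y) ≤ L := by
  have hy : 0 < y := by linarith
  have hLpos : 0 < L := (Real.exp_pos _).trans_le hL
  have hL' : ∀ p : ℝ, p ≤ 7 → 1 / L ≤ ee y p := by
    intro p hp
    rw [one_div]
    calc L⁻¹ ≤ (Real.exp (7 * y))⁻¹ := inv_anti₀ (Real.exp_pos _) hL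
      _ = ee y 7 := by unfold ee; rw [Real.exp_neg]
      _ ≤ ee y p := ee_anti hy.le hp
  have he1 : (2 : ℝ) ≤ Real.exp 1 := by
    have := Real.add_one_le_exp (1 : ℝ)
    linarith
  have hexp : ∀ n : ℕ, (2 : ℝ) ^ n ≤ Real.exp (n * y) := by
    intro n
    calc (2 : ℝ) ^ n ≤ (Real.exp 1) ^ n := pow_le_pow_left₀ (by norm_num) he1 n
      _ = Real.exp n := by rw [← Real.exp_nat_mul, mul_one]
      _ ≤ Real.exp (n * y) := by
          apply Real.exp_le_exp.2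
          exact le_mul_of_one_le_right (Nat.cast_nonneg n) hy1
  refine ⟨?_, ?_, ?_, ?_, ?_, ?_, ?_⟩
  · have pδ : 0 < δ := by rw [eδ]; exact ee_pos _ _
    have h1 : 1 + 4 / δ ≤ 5 * Real.exp (2 * y) := by
      have h2 : 1 / δ ≤ Real.exp (2 * y) := by
        rw [eδ, one_div]
        unfold ee
        rw [← Real.exp_neg, neg_neg]
        apply Real.exp_le_exp.2
        exact mul_le_mul_of_nonneg_right (by linarith) hy.le
      have h3 : 1 ≤ Real.exp (2 * y) := Real.one_le_exp (by positivity)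
      have h4 : 4 / δ = 4 * (1 / δ) := by ring
      linarith
    have h0 : 0 ≤ 1 + 4 / δ := by positivity
    have h5 : Real.exp (7 * y) ^ 2 ≤ L ^ 2 := pow_le_pow_left₀ (Real.exp_pos _).le hL 2
    have h6 := hexp 8
    calc (1 + 4 / δ) ^ 3 ≤ (5 * Real.exp (2 * y)) ^ 3 := pow_le_pow_left₀ h0 h1 3
      _ = 125 * Real.exp (6 * y) := by
          rw [mul_pow, ← Real.exp_nat_mul]
          norm_num
          ring_nf
      _ ≤ 2 ^ 8 * Real.exp (6 * y) :=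
          mul_le_mul_of_nonneg_right (by norm_num) (Real.exp_pos _).le
      _ ≤ Real.exp (((8 : ℕ) : ℝ) * y) * Real.exp (6 * y) :=
          mul_le_mul_of_nonneg_right h6 (Real.exp_pos _).le
      _ = Real.exp (7 * y) ^ 2 := by
          rw [← Real.exp_add, ← Real.exp_nat_mul]
          congr 1
          push_cast
          ring
      _ ≤ L ^ 2 := h5
  · rw [eηδ]
    exact hL' _ (by linarith)
  · rw [eδ]
    exact hL' _ (by linarith)
  · -- 1 ≤ θ L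
    have h1 := hexp 1
    have h2 : (2 : ℝ) ≤ Real.exp y := by
      have : Real.exp (((1 : ℕ) : ℝ) * y) = Real.exp y := by push_cast; rw [one_mul]
      rw [this, pow_one] at h1
      exact h1
    have h3 : Real.exp y ≤ ee y t * L := by
      calc Real.exp y ≤ Real.exp (7 * y - t * y) := by
            apply Real.exp_le_exp.2
            have := mul_le_mul_of_nonneg_right ht hy.le
            linarith
        _ = ee y t * Real.exp (7 * y) := by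
            unfold ee
            rw [← Real.exp_add]
            congr 1
            ring
        _ ≤ ee y t * L := mul_le_mul_of_nonneg_left hL (ee_pos _ _).le
    rw [eθ]
    linarith
  · rw [ecb]
    exact hL' _ (by linarith)
  · rw [eq0]
    exact hL' _ (by linarith)
  · have h1 := hexp 4
    refine le_trans ?_ hL
    calc 10 * Real.exp ((2 + x / 2) * y) ≤ 2 ^ 4 * Real.exp ((2 + x / 2) * y) :=
          mul_le_mul_of_nonneg_right (by norm_num) (Real.exp_pos _).le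
      _ ≤ Real.exp (((4 : ℕ) : ℝ) * y) * Real.exp (3 * y) := by
          refine mul_le_mul h1 ?_ (Real.exp_pos _).le (Real.exp_pos _).le
          apply Real.exp_le_exp.2
          exact mul_le_mul_of_nonneg_right (by linarith) hy.le
      _ = Real.exp (7 * y) := by
          rw [← Real.exp_add]
          congr 1
          push_cast
          ring

/-- the arithmetic of the exponents -/
theorem arith {x s w t h E1 n1 : ℝ} (hx : 0 ≤ x) (hs : 0 < s) (hs1 : s ≤ 1 / 100) (hw0 : 0 < w)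
    (hw3 : w ≤ 1 / 3) (hxs : (x + 13 * s) * (7 / 2 + w) ≤ 1 - w)
    (ht : t = (2 + 2 * x + 23 * s) * w) (hh : h = (2 - s + t) / 2)
    (hn1 : n1 = 2 - h - 2 * (x + 12 * s)) (hE1 : E1 = 2 - h - 5 / 2 * (x + 12 * s) + s / 2) :
    x + 13 * s ≤ 2 / 7 ∧ 0 ≤ t ∧ t ≤ 1 ∧ x + 16 * s ≤ E1 ∧ 22 * s ≤ n1 := by
  have hsw : 0 ≤ s * w := mul_nonneg hs.le hw0.le
  have hxw : 0 ≤ x * w := mul_nonneg hx hw0.le
  have h1 : x + 13 * s ≤ 2 / 7 := by nlinarith
  have h2 : 0 ≤ t := by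
    rw [ht]
    linarith
  have h3 : t ≤ 1 := by
    rw [ht]
    calc (2 + 2 * x + 23 * s) * w ≤ (2 + 2 * x + 23 * s) * (1 / 3) :=
          mul_le_mul_of_nonneg_left hw3 (by positivity)
      _ ≤ 1 := by linarith
  have h4 : x + 16 * s ≤ E1 := by
    rw [hE1, hh, ht]
    linarith
  refine ⟨h1, h2, h3, h4, ?_⟩
  have : n1 = E1 + (x + 12 * s) / 2 - s / 2 := by rw [hn1, hE1]; ring
  rw [this]
  linarith

end NumA

open Pool.Agent.T2h98.QD.NumA in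
theorem num : T_NUM := by
  intro d x s hd hx hs hs1 hxs C1 C2 C3 hC1 hC2 hC3
  obtain ⟨y0, hy01, hy0⟩ := large (10 ^ 5 * KK C1 C2 C3) s hs
  refine ⟨y0, hy01, ?_⟩
  intro y hyy σ δ η θ m0 q0 cb Q0 g g' cn ν κ γ hσ hδ hη hθ hm0 hq0 hcb hQ0 hg hg' hcn hν hκ hγ
  have hy1 : 1 ≤ y := hy01.trans hyy
  have hy : 0 < y := by linarith
  have hdR : (3 : ℝ) ≤ d := by exact_mod_cast hd
  have hd0 : (0 : ℝ) < d := by linarith
  obtain ⟨w, hw⟩ : ∃ w : ℝ, w = 1 / (d : ℝ) := ⟨_, rfl⟩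
  have hw0 : 0 < w := by rw [hw]; positivity
  have hw3 : w ≤ 1 / 3 := by
    rw [hw]
    exact one_div_le_one_div_of_le (by norm_num) hdR
  rw [← hw] at hxs
  obtain ⟨t, ht⟩ : ∃ t : ℝ, t = (2 + 2 * x + 23 * s) / (d : ℝ) := ⟨_, rfl⟩
  have htw : t = (2 + 2 * x + 23 * s) * w := by rw [ht, hw]; ring
  have hdt : (d : ℝ) * t = 2 + 2 * x + 23 * s := by rw [ht]; field_simp
  obtain ⟨h, hh⟩ : ∃ h : ℝ, h = (2 - s + t) / 2 := ⟨_, rfl⟩
  obtain ⟨n1, hn1⟩ : ∃ n1 : ℝ, n1 = 2 - h - 2 * (x + 12 * s) := ⟨_, rfl⟩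
  obtain ⟨E1, hE1⟩ : ∃ E1 : ℝ, E1 = 2 - h - 5 / 2 * (x + 12 * s) + s / 2 := ⟨_, rfl⟩
  obtain ⟨hxs2, ht0, ht1, hE1', hn1'⟩ := arith hx hs hs1 hw0 hw3 hxs htw hh hn1 hE1
  -- the exponentials
  have eσ : σ = ee y 1 := by rw [hσ]; unfold ee; rw [one_mul]
  have eδ : δ = ee y (2 - s) := by rw [hδ]; unfold ee; rw [neg_mul]
  have eη : η = ee y (x + 12 * s) := by rw [hη]; unfold ee; rw [neg_mul]
  have eθ : θ = ee y t / 2 := by rw [hθ, ← ht]; unfold ee; rw [neg_mul]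
  have em0 : m0 = ee y s := by rw [hm0]; unfold ee; rw [neg_mul]
  have eq0 : q0 = ee y (2 + x / 2 + s) := by rw [hq0]; unfold ee; rw [neg_mul]
  have ecb : cb = ee y (2 * s) := by rw [hcb]; unfold ee; rw [neg_mul]
  have eγ : γ = ee y (x + 8 * s) / 2 := by rw [hγ]; unfold ee; rw [neg_mul]
  have eηδ : η * δ = ee y (2 + x + 11 * s) := by
    rw [eη, eδ, ← ee_add]
    congr 1
    ring
  have ecn : cn = 2 * ee y (2 + 2 * x + 23 * s) := by
    rw [hcn, eθ]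
    congr 1
    rw [show 2 * (ee y t / 2) = ee y t by ring, ee_nat, hdt]
  have ecnη : cn / (η * δ) = 2 * ee y (x + 12 * s) := by
    rw [ecn, eηδ, mul_div_assoc, ← ee_sub]
    congr 2
    ring
  -- largeness
  obtain ⟨B, hBE⟩ : ∃ B : ℝ, B = 10 ^ 5 * KK C1 C2 C3 * y ^ 4 := ⟨_, rfl⟩
  have hB : B * ee y (s / 2) ≤ 1 := by rw [hBE]; exact hy0 y hyy
  obtain ⟨b0, b1, b2, b3, b4, b5, b6⟩ := polys hC1 hC2 hC3 hy1 hBE
  have hB0 : 0 ≤ B := by linarith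
  have D : Dom y s B := fun P c p q hc hP hpq => dom hy.le hB hc hP hpq hB0
  clear hBE hB hy0 hdt hxs
  -- logarithms
  have hlδ : Real.log (1 / δ) = (2 - s) * y := by
    rw [one_div, Real.log_inv, eδ]
    unfold ee
    rw [Real.log_exp]
    ring
  have hlη : Real.log (1 / (η * δ)) = (2 + x + 11 * s) * y := by
    rw [one_div, Real.log_inv, eηδ]
    unfold ee
    rw [Real.log_exp]
    ring
  rw [hlη] at hg hg'
  rw [hlδ] at hQ0
  have h3y : (2 + x + 11 * s) * y ≤ 3 * y := mul_le_mul_of_nonneg_right (by linarith) hy.le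
  have h3y0 : 0 ≤ (2 + x + 11 * s) * y := by positivity
  have hg0 : 0 ≤ g := by rw [hg]; exact mul_nonneg hC2.le h3y0
  have hgle : g ≤ 3 * C2 * y := by
    rw [hg]
    calc C2 * ((2 + x + 11 * s) * y) ≤ C2 * (3 * y) := mul_le_mul_of_nonneg_left h3y hC2.le
      _ = _ := by ring
  have hg'le : g' ≤ 9 * C3 * y ^ 2 := by
    rw [hg']
    calc C3 * ((2 + x + 11 * s) * y) ^ 2 ≤ C3 * (3 * y) ^ 2 :=
          mul_le_mul_of_nonneg_left (pow_le_pow_left₀ h3y0 h3y 2) hC3.le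
      _ = _ := by ring
  obtain ⟨hQpos, hQle⟩ := Qb hy hs hs1 hC1 eδ eθ hh hQ0
  have hη2 : η ^ 2 = ee y (2 * (x + 12 * s)) := by rw [eη, ee_nat]; norm_num
  have hσ2 : σ ^ 2 = ee y 2 := by rw [eσ, ee_nat]; norm_num
  have hη3 : η ^ 3 * δ = ee y (3 * (x + 12 * s) + (2 - s)) := by
    rw [eη, ee_nat, eδ, ← ee_add]; norm_num
  have hη0 : 0 < η := by rw [eη]; exact ee_pos _ _
  have hδ0 : 0 < δ := by rw [eδ]; exact ee_pos _ _
  have hσ0 : 0 < σ := by rw [eσ]; exact ee_pos _ _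
  obtain ⟨hν0, hνle⟩ := νb hQpos hQle hn1 (by rw [hν, hη2, hσ2] : ν = ee y 2 * Q0 / _)
  obtain ⟨hκ0, hκle⟩ := κb hy1 hC1 hC2 hQpos hQle hn1 hν0 hνle hg0 hgle hE1 rfl
    (by rw [hκ, hσ2, hη3] : κ = ee y 2 * (Real.sqrt (2 * ν) * Real.sqrt (Q0 * g / _)))
  clear hQ0 hg hg' hν hκ
  have pr := ee_pos y (x + 12 * s)
  have hr1 : ee y (x + 12 * s) ≤ 1 := by
    have := ee_anti hy.le (show (0 : ℝ) ≤ x + 12 * s by positivity)
    rwa [ee_zero] at this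
  have hG : g + cn / (η * δ) ≤ 3 * C2 * y + 2 := by
    rw [ecnη]
    linarith
  have hG0 : 0 ≤ g + cn / (η * δ) := by
    rw [ecnη]
    positivity
  have hC2y : 0 ≤ C2 * y := by positivity
  have hz0 := ee_zero y
  refine ⟨?_, ?_, ?_, ?_, ?_, ?_, ?_, ?_, ?_, ?_, ?_, ?_, ?_, ?_, ?_⟩
  · -- δ ≤ 1/2
    have h1 := D 1 (1 / 2) (2 - s) 0 (by norm_num) (by linarith) (by linarith)
    rw [hz0, ← eδ] at h1
    linarith
  · have h1 := D 1 (1 / 2) (2 + x + 11 * s) 0 (by norm_num) (by linarith) (by linarith)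
    rw [hz0, ← eηδ] at h1
    linarith
  · rw [eη]
    exact hr1
  · rw [eθ]
    have := ee_anti hy.le ht0
    rw [hz0] at this
    linarith
  · have h1 := D (6 * C1 * y ^ 2) (1 / 2) n1 0 (by norm_num) (by linarith) (by linarith)
    rw [hz0] at h1
    linarith
  · -- κ
    have h1 := D (36 * (C1 * (1 + C2)) * y ^ 3) (1 / 16) E1 0 (by norm_num) (by linarith)
      (by linarith)
    rw [hz0] at h1
    linarith
  · -- 2 σ² (g + cn / (η δ)) ≤ δ
    rw [hσ2]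
    have h1 := D (6 * C2 * y + 4) 1 2 (2 - s) (by norm_num) (by linarith) (by linarith)
    have h2 : 2 * ee y 2 * (g + cn / (η * δ)) ≤ 2 * ee y 2 * (3 * C2 * y + 2) :=
      mul_le_mul_of_nonneg_left hG (by have := ee_pos y 2; positivity)
    refine h2.trans ?_
    rw [eδ]
    linarith
  · -- 3 η δ g
    have h1 := D (9 * C2 * y) (1 / 8) (2 + x + 11 * s) (2 + 2 * s) (by norm_num) (by linarith)
      (by linarith)
    have h2 : 3 * η * δ * g ≤ 9 * C2 * y * ee y (2 + x + 11 * s) := by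
      rw [← eηδ]
      calc 3 * η * δ * g ≤ 3 * η * δ * (3 * C2 * y) :=
            mul_le_mul_of_nonneg_left hgle (by positivity)
        _ = _ := by ring
    have h3 : σ ^ 2 * m0 ^ 2 / 8 = 1 / 8 * ee y (2 + 2 * s) := by
      rw [hσ2, em0, ee_nat, ee_add]
      push_cast
      ring
    rw [h3]
    linarith
  · rw [ecnη, em0]
    have h1 := D 2 (1 / 16) (x + 12 * s) s (by norm_num) (by linarith) (by linarith)
    linarith
  · rw [eηδ, hσ2, em0, ← ee_add]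
    exact ee_anti hy.le (by linarith)
  · rw [ecb]
    have := ee_anti hy.le (show (0 : ℝ) ≤ 2 * s by positivity)
    rwa [hz0] at this
  · rw [ecb, em0]
    have h1 := D (36 * C3 * y ^ 2) (1 / 8) (2 * s) s (by norm_num) (by linarith) (by linarith)
    have h2 : 4 * ee y (2 * s) * g' ≤ 4 * ee y (2 * s) * (9 * C3 * y ^ 2) :=
      mul_le_mul_of_nonneg_left hg'le (by have := ee_pos y (2 * s); positivity)
    linarith
  · exact gap hy hx hs D hC1 hC2 b0 b2 b5 hg0 hgle hσ2 em0 eq0 ecb ecnη eγ hκle hE1'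
  · intro M hM0 hM
    have hee : Real.exp (-(s / 2) * y) = ee y (s / 2) := by unfold ee; rw [neg_mul]
    rw [hee]
    exact mainb hy1 hx hs D hC1 hC2 b0 b2 b6 hg0 hgle hσ2 em0 eq0 eηδ ecnη eγ hκ0 hκle hE1'
      hM0 hM hG0 hG
  · intro L hL
    exact Lb hy1 hx hs hs1 hxs2 ht1 eδ eηδ eθ ecb eq0 hL

end Pool.Agent.T2h98.QD
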