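import Pool.Agent.T2h98.QD.Stm

/-! The functional `Phi`. -/

set_option autoImplicit false
set_option linter.unusedSectionVars false

open scoped BigOperators Matrix ComplexOrder

namespace Pool.Agent.T2h98.QD

open Pool.Agent.W788.MFP.Four (T e NN adj K)

section abs
variable {n : Type} [Fintype n] [DecidableEq n]

theorem PSD.pos {A : Matrix n n ℂ} (h : PSD A) : A.PosSemidef := by
  refine Matrix.PosSemidef.of_dotProduct_mulVec_nonneg h.1 fun w => ?_
  rw [Complex.le_def]
  refine ⟨h.2 w, ?_⟩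
  have := h.1.im_star_dotProduct_mulVec_self w
  simpa using this.symm

theorem PSD.add {A B : Matrix n n ℂ} (hA : PSD A) (hB : PSD B) : PSD (A + B) := by
  refine ⟨hA.1.add hB.1, fun w => ?_⟩
  have h1 := hA.2 w
  have h2 := hB.2 w
  unfold qf at *
  rw [Matrix.add_mulVec, dotProduct_add, Complex.add_re]
  exact add_nonneg h1 h2

theorem psd_vec (u : n → ℂ) : PSD (Matrix.vecMulVec u (star u)) := by
  refine ⟨?_, fun w => ?_⟩
  · unfold Matrix.IsHermitian
    ext x y
    simp [Matrix.vecMulVec, mul_comm]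
  · have := (Matrix.posSemidef_vecMulVec_self_star u).dotProduct_mulVec_nonneg w
    exact (Complex.le_def.mp this).1

end abs

section torus
variable {d L : ℕ} [NeZero L]

/-- the sesquilinear form -/
noncomputable def SS (i : Fin d) (M : ℕ) (A B : Matrix (T d L) (T d L) ℂ) : ℂ :=
  ∑ x, ∑ y, (ff M (x i - y i) : ℂ) * (A x y * (starRingEnd ℂ) (B x y))

theorem SS_self (i : Fin d) (M : ℕ) (A : Matrix (T d L) (T d L) ℂ) :
    SS i M A A = ((Phi i M A : ℝ) : ℂ) := by
  unfold SS Phi
  push_cast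
  simp_rw [Complex.mul_conj']

theorem SS_add_left (i : Fin d) (M : ℕ) (A B C : Matrix (T d L) (T d L) ℂ) :
    SS i M (A + B) C = SS i M A C + SS i M B C := by
  unfold SS
  simp_rw [← Finset.sum_add_distrib, Matrix.add_apply]
  refine Finset.sum_congr rfl fun x _ => Finset.sum_congr rfl fun y _ => ?_
  ring

theorem SS_add_right (i : Fin d) (M : ℕ) (A B C : Matrix (T d L) (T d L) ℂ) :
    SS i M A (B + C) = SS i M A B + SS i M A C := by
  unfold SS
  simp_rw [← Finset.sum_add_distrib, Matrix.add_apply]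
  refine Finset.sum_congr rfl fun x _ => Finset.sum_congr rfl fun y _ => ?_
  rw [map_add]
  ring

theorem SS_sum_left {J : Type} [Fintype J] (i : Fin d) (M : ℕ)
    (A : J → Matrix (T d L) (T d L) ℂ) (C : Matrix (T d L) (T d L) ℂ) :
    SS i M (∑ j, A j) C = ∑ j, SS i M (A j) C := by
  classical
  refine Finset.induction_on (Finset.univ : Finset J) ?_ ?_
  · simp [SS]
  · intro a s ha ih
    rw [Finset.sum_insert ha, Finset.sum_insert ha, SS_add_left, ih]

theorem SS_sum_right {J : Type} [Fintype J] (i : Fin d) (M : ℕ)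
    (A : Matrix (T d L) (T d L) ℂ) (C : J → Matrix (T d L) (T d L) ℂ) :
    SS i M A (∑ j, C j) = ∑ j, SS i M A (C j) := by
  classical
  refine Finset.induction_on (Finset.univ : Finset J) ?_ ?_
  · simp [SS]
  · intro a s ha ih
    rw [Finset.sum_insert ha, Finset.sum_insert ha, SS_add_right, ih]

theorem e_qi (i : Fin d) (q : ZMod L) (x : T d L) :
    e (qi i q) x = (ZMod.stdAddChar (q * x i) : ℂ) := by
  unfold e qi
  congr 1
  rw [Finset.sum_eq_single i]
  · rw [Pi.single_eq_same]
  · intro j _ hj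
    rw [Pi.single_eq_of_ne hj, zero_mul]
  · intro h
    exact absurd (Finset.mem_univ i) h

theorem e_qi_mul (i : Fin d) (q : ZMod L) (x y : T d L) :
    e (qi i q) x * (starRingEnd ℂ) (e (qi i q) y) = (ZMod.stdAddChar (q * (x i - y i)) : ℂ) := by
  rw [e_qi, e_qi, ← AddChar.map_neg_eq_conj, ← AddChar.map_add_eq_mul]
  congr 1
  ring

theorem SS_fourier {M : ℕ} (h : T_TENT) (h1 : 1 ≤ M) (hM : M ≤ L) (i : Fin d)
    (A B : Matrix (T d L) (T d L) ℂ) :
    SS i M A B = ∑ q : ZMod L, (fh M q : ℂ) * (cj (e (qi i q)) A * Bᴴ).trace := by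
  have ht := (h L M h1 hM).2.2.2.2.2.2
  unfold SS
  simp_rw [ht, Matrix.trace, Matrix.diag, Matrix.mul_apply, Finset.sum_mul, Finset.mul_sum]
  rw [Finset.sum_comm]
  simp_rw [Finset.sum_comm (s := (Finset.univ : Finset (T d L))) (t := (Finset.univ : Finset (ZMod L)))]
  refine Finset.sum_congr rfl fun q _ => ?_
  rw [Finset.sum_comm]
  refine Finset.sum_congr rfl fun x _ => Finset.sum_congr rfl fun y _ => ?_
  rw [← e_qi_mul]
  simp only [cj, Matrix.of_apply, Matrix.conjTranspose_apply]
  simp only [starRingEnd_apply]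
  ring

theorem SS_nonneg {M : ℕ} (h : T_TENT) (h1 : 1 ≤ M) (hM : M ≤ L) (i : Fin d)
    {A B : Matrix (T d L) (T d L) ℂ} (hA : PSD A) (hB : PSD B) : 0 ≤ (SS i M A B).re := by
  have ht := h L M h1 hM
  rw [SS_fourier h h1 hM, Complex.re_sum]
  refine Finset.sum_nonneg fun q _ => ?_
  rw [Complex.re_ofReal_mul]
  refine mul_nonneg (ht.1 q) ?_
  have hP : (A.hadamard Bᵀ).PosSemidef := hA.pos.hadamard hB.pos.transpose
  have := hP.dotProduct_mulVec_nonneg (star (e (qi i q)))
  have h2 := (Complex.le_def.mp this).1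
  have h3 : (cj (e (qi i q)) A * Bᴴ).trace =
      star (star (e (qi i q))) ⬝ᵥ (A.hadamard Bᵀ *ᵥ (star (e (qi i q)))) := by
    rw [hB.1.eq]
    simp only [Matrix.trace, Matrix.diag, Matrix.mul_apply, cj, Matrix.of_apply, dotProduct,
      Matrix.mulVec, Matrix.hadamard, Matrix.transpose_apply, star_star, Pi.star_apply,
      Finset.mul_sum]
    refine Finset.sum_congr rfl fun x _ => Finset.sum_congr rfl fun y _ => ?_
    ring
  rw [h3]
  simpa using h2

theorem phi (h : T_TENT) : T_PHI := by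
  intro d L M _ i h1 hM
  refine ⟨fun A => ?_, fun A B hA hBA => ?_, fun A => ?_, fun J _ u => ?_, ?_⟩
  · rw [← SS_self]
    exact SS_fourier h h1 hM i A A
  · have h2 : (Phi i M B : ℂ) = Phi i M A + SS i M A (B - A) + SS i M (B - A) B := by
      rw [← SS_self, ← SS_self, ← SS_add_right, add_sub_cancel, ← SS_add_left, add_sub_cancel]
    have hB : PSD B := by
      have := hA.add hBA
      rwa [add_sub_cancel] at this
    have h3 := congrArg Complex.re h2
    simp only [Complex.add_re, Complex.ofReal_re] at h3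
    have h4 := SS_nonneg h h1 hM i hA hBA
    have h5 := SS_nonneg h h1 hM i hBA hB
    linarith
  · have hsw : ∑ x : T d L, ∑ y : T d L, ff M (x i - y i) * ‖A y x‖ ^ 2 = Phi i M A := by
      rw [Finset.sum_comm]
      unfold Phi
      refine Finset.sum_congr rfl fun x _ => Finset.sum_congr rfl fun y _ => ?_
      rw [← (h L M h1 hM).2.2.2.2.1 (x i - y i), neg_sub]
    have hle : Phi i M ((2 * Complex.I)⁻¹ • (A - Aᴴ)) ≤
        ∑ x : T d L, ∑ y : T d L, (1 / 2 * (ff M (x i - y i) * ‖A x y‖ ^ 2) +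
          1 / 2 * (ff M (x i - y i) * ‖A y x‖ ^ 2)) := by
      unfold Phi
      refine Finset.sum_le_sum fun x _ => Finset.sum_le_sum fun y _ => ?_
      have hf := ((h L M h1 hM).2.2.2.1 (x i - y i)).1
      rw [Matrix.smul_apply, Matrix.sub_apply, Matrix.conjTranspose_apply, norm_smul, norm_inv,
        norm_mul, Complex.norm_I, Complex.norm_ofNat]
      have h6 : ‖A x y - star (A y x)‖ ≤ ‖A x y‖ + ‖A y x‖ := by
        refine (norm_sub_le _ _).trans ?_
        rw [norm_star]
      have h7 : ((2 * 1 : ℝ)⁻¹ * ‖A x y - star (A y x)‖) ^ 2 ≤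
          1 / 2 * ‖A x y‖ ^ 2 + 1 / 2 * ‖A y x‖ ^ 2 := by
        have h8 : ‖A x y - star (A y x)‖ ^ 2 ≤ (‖A x y‖ + ‖A y x‖) ^ 2 := by gcongr
        nlinarith [sq_nonneg (‖A x y‖ - ‖A y x‖)]
      nlinarith
    refine hle.trans ?_
    simp_rw [Finset.sum_add_distrib, ← Finset.mul_sum]
    rw [hsw]
    unfold Phi
    linarith
  · have h2 : (Phi i M (∑ j, Matrix.vecMulVec (u j) (star (u j))) : ℂ) =
        ∑ j, ∑ k, SS i M (Matrix.vecMulVec (u j) (star (u j)))
          (Matrix.vecMulVec (u k) (star (u k))) := by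
      rw [← SS_self, SS_sum_left]
      simp_rw [SS_sum_right]
    have h3 := congrArg Complex.re h2
    simp only [Complex.re_sum, Complex.ofReal_re] at h3
    rw [h3]
    refine Finset.sum_le_sum fun j _ => ?_
    have h4 : Phi i M (Matrix.vecMulVec (u j) (star (u j))) =
        (SS i M (Matrix.vecMulVec (u j) (star (u j)))
          (Matrix.vecMulVec (u j) (star (u j)))).re := by
      rw [SS_self, Complex.ofReal_re]
    rw [h4]
    exact Finset.single_le_sum (f := fun k => (SS i M (Matrix.vecMulVec (u j) (star (u j)))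
      (Matrix.vecMulVec (u k) (star (u k)))).re)
      (fun k _ => SS_nonneg h h1 hM i (psd_vec (u j)) (psd_vec (u k))) (Finset.mem_univ j)
  · have h0 : ff M (0 : ZMod L) = 1 := by
      have h2 := (h L M h1 hM).2.2.2.2.2.2 0
      have h3 := (h L M h1 hM).2.1
      simp only [mul_zero, AddChar.map_zero_eq_one, mul_one] at h2
      have h4 : ((ff M (0 : ZMod L) : ℝ) : ℂ) = ((1 : ℝ) : ℂ) := by
        rw [h2, ← h3]; push_cast; rfl
      exact Complex.ofReal_injective h4
    unfold Phi
    rw [← Pool.Agent.W788.MFP.Four.card_T]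
    have : ∀ x : T d L, ∑ y : T d L, ff M (x i - y i) *
        ‖(1 : Matrix (T d L) (T d L) ℂ) x y‖ ^ 2 = 1 := by
      intro x
      rw [Finset.sum_eq_single x]
      · simp [h0]
      · intro y _ hy
        rw [Matrix.one_apply_ne (Ne.symm hy)]
        simp
      · intro hx
        exact absurd (Finset.mem_univ x) hx
    simp_rw [this]
    simp

end torus

end Pool.Agent.T2h98.QD
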