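import Pool.Agent.T2h98.QD.Stm
import Pool.Agent.W193.BK.ES
import Pool.Agent.T2h98.QD.Stein

/-!
# Gaussian Poincare inequality and integration by parts
-/

set_option autoImplicit false

open scoped BigOperators
open MeasureTheory ProbabilityTheory

namespace Pool.Agent.T2h98.QD

namespace Poin

/-- Stein's identity for functions with bounded derivative -/
theorem stein_lin (g g' : ℝ → ℝ) (C : ℝ) (hd : ∀ t, HasDerivAt g (g' t) t)
    (hC' : ∀ t, |g' t| ≤ C) (hm' : Measurable g') :
    Integrable (fun t => t * g t) (gaussianReal 0 1) ∧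
    ∫ t, t * g t ∂(gaussianReal 0 1) = ∫ t, g' t ∂(gaussianReal 0 1) := by
  have hC0 : 0 ≤ C := (abs_nonneg _).trans (hC' 0)
  have hgc : Continuous g := continuous_iff_continuousAt.2 fun t => (hd t).continuousAt
  have hgm : Measurable g := hgc.measurable
  have hlin : ∀ t, |g t| ≤ |g 0| + C * |t| := by
    intro t
    have h1 : ‖g t - g 0‖ ≤ C * ‖t - 0‖ := by
      refine Convex.norm_image_sub_le_of_norm_hasDerivWithin_le (f' := g') (s := Set.univ)
        (fun x _ => (hd x).hasDerivWithinAt) (fun x _ => hC' x) convex_univ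
        (Set.mem_univ 0) (Set.mem_univ t)
    rw [Real.norm_eq_abs, Real.norm_eq_abs, sub_zero] at h1
    have h2 : |g t| ≤ |g t - g 0| + |g 0| := by
      have := abs_add_le (g t - g 0) (g 0)
      rwa [sub_add_cancel] at this
    linarith
  have hid : Integrable (fun t : ℝ => t) (gaussianReal 0 1) :=
    (memLp_id_gaussianReal 1).integrable (by norm_num)
  have hsq : Integrable (fun t : ℝ => t ^ 2) (gaussianReal 0 1) :=
    (memLp_id_gaussianReal 2).integrable_sq
  have i3 : Integrable g (gaussianReal 0 1) := by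
    refine Integrable.mono' (((integrable_const |g 0|).add (hid.abs.const_mul C)))
      hgm.aestronglyMeasurable (Filter.Eventually.of_forall fun t => ?_)
    rw [Real.norm_eq_abs]
    exact hlin t
  have i1 : Integrable (fun t => t * g t) (gaussianReal 0 1) := by
    refine Integrable.mono' ((hid.abs.const_mul |g 0|).add (hsq.const_mul C))
      (measurable_id.mul hgm).aestronglyMeasurable (Filter.Eventually.of_forall fun t => ?_)
    rw [Real.norm_eq_abs, abs_mul]
    have h1 := hlin t
    have h2 := abs_nonneg t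
    have h3 : |t| * |g t| ≤ |t| * (|g 0| + C * |t|) := mul_le_mul_of_nonneg_left h1 h2
    have h4 : |t| * (|g 0| + C * |t|) = |g 0| * |t| + C * t ^ 2 := by
      rw [← sq_abs t]
      ring
    show |t| * |g t| ≤ |g 0| * |t| + C * t ^ 2
    linarith
  refine ⟨i1, ?_⟩
  have i2 : Integrable g' (gaussianReal 0 1) :=
    Integrable.of_bound hm'.aestronglyMeasurable C (Filter.Eventually.of_forall fun t => hC' t)
  have j1 := Stein.integrable_gauss_iff _ i1
  have j2 := Stein.integrable_gauss_iff _ i2
  have j3 := Stein.integrable_gauss_iff _ i3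
  have key := integral_mul_deriv_eq_deriv_mul_of_integrable (u := g) (u' := g')
    (v := gaussianPDFReal 0 1) (v' := fun t => -(t * gaussianPDFReal 0 1 t))
    (fun x _ => hd x) (fun x _ => Stein.pdf_deriv x)
    (j1.neg.congr (Filter.Eventually.of_forall fun t => by
      simp only [Pi.neg_apply, Pi.mul_apply]; ring))
    (j2.congr (Filter.Eventually.of_forall fun t => by simp only [Pi.mul_apply]))
    (j3.congr (Filter.Eventually.of_forall fun t => by simp only [Pi.mul_apply]))
  rw [integral_gaussianReal_eq_integral_smul (by norm_num),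
    integral_gaussianReal_eq_integral_smul (by norm_num)]
  have e1 : ∫ x, gaussianPDFReal 0 1 x • (x * g x) =
      -∫ x, g x * -(x * gaussianPDFReal 0 1 x) := by
    rw [← integral_neg]
    congr 1; ext x; simp only [smul_eq_mul]; ring
  have e2 : ∫ x, gaussianPDFReal 0 1 x • g' x = ∫ x, g' x * gaussianPDFReal 0 1 x := by
    congr 1; ext x; simp only [smul_eq_mul]; ring
  rw [e1, e2, key, neg_neg]

/-- the Poincare inequality in one variable, with the value at zero -/
theorem one_var (f f' : ℝ → ℂ) (C : ℝ) (hf : ∀ t, HasDerivAt f (f' t) t) (hc : Continuous f')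
    (hC : ∀ t, ‖f' t‖ ≤ C) :
    ∫ t, ‖f t - f 0‖ ^ 2 ∂(gaussianReal 0 1) ≤ ∫ t, ‖f' t‖ ^ 2 ∂(gaussianReal 0 1) := by
  have hC0 : 0 ≤ C := (norm_nonneg _).trans (hC 0)
  set φ : ℝ → ℝ := fun v => ∫ s in (0:ℝ)..v, ‖f' s‖ ^ 2 with hφ
  have hsc : Continuous fun s => ‖f' s‖ ^ 2 := by fun_prop
  have hφd : ∀ t, HasDerivAt φ (‖f' t‖ ^ 2) t := fun t =>
    intervalIntegral.integral_hasDerivAt_right (hsc.intervalIntegrable _ _)
      (hsc.stronglyMeasurableAtFilter _ _) hsc.continuousAt
  have hst := stein_lin φ (fun t => ‖f' t‖ ^ 2) (C ^ 2) hφd (fun t => by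
    rw [abs_of_nonneg (by positivity)]
    exact pow_le_pow_left₀ (norm_nonneg _) (hC t) 2) hsc.measurable
  rw [← hst.2]
  have hpt : ∀ t, ‖f t - f 0‖ ^ 2 ≤ t * φ t := by
    intro t
    have h1 : ∫ s in (0:ℝ)..t, f' s = f t - f 0 :=
      intervalIntegral.integral_eq_sub_of_hasDerivAt (fun s _ => hf s)
        (hc.intervalIntegrable _ _)
    have hnc : Continuous fun s => ‖f' s‖ := by fun_prop
    -- Cauchy-Schwarz through the discriminant
    have hcs : (∫ s in (0:ℝ)..t, ‖f' s‖) ^ 2 ≤ t * φ t := by
      have h2 : ∀ c : ℝ, 0 ≤ (∫ s in (0:ℝ)..t, (‖f' s‖ - c) ^ 2) * t := by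
        intro c
        rcases le_total 0 t with ht | ht
        · exact mul_nonneg (intervalIntegral.integral_nonneg ht fun s _ => sq_nonneg _) ht
        · rw [intervalIntegral.integral_symm]
          have := intervalIntegral.integral_nonneg (μ := volume) ht
            (f := fun s => (‖f' s‖ - c) ^ 2) fun s _ => sq_nonneg _
          nlinarith
      have h3 : ∀ c : ℝ, (∫ s in (0:ℝ)..t, (‖f' s‖ - c) ^ 2) =
          φ t - 2 * c * (∫ s in (0:ℝ)..t, ‖f' s‖) + c ^ 2 * t := by
        intro c
        have e : ∀ s, (‖f' s‖ - c) ^ 2 = ‖f' s‖ ^ 2 - 2 * c * ‖f' s‖ + c ^ 2 := fun s => by ring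
        simp only [e]
        rw [intervalIntegral.integral_add, intervalIntegral.integral_sub,
          intervalIntegral.integral_const_mul, intervalIntegral.integral_const]
        · simp only [hφ, smul_eq_mul, sub_zero]
          ring
        · exact hsc.intervalIntegrable _ _
        · exact (hnc.const_mul _).intervalIntegrable _ _
        · exact (hsc.sub (hnc.const_mul _)).intervalIntegrable _ _
        · exact continuous_const.intervalIntegrable _ _
      rcases eq_or_ne t 0 with rfl | ht
      · simp
      · have h4 := h2 ((∫ s in (0:ℝ)..t, ‖f' s‖) / t)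
        rw [h3] at h4
        have h5 : (φ t - 2 * ((∫ s in (0:ℝ)..t, ‖f' s‖) / t) * (∫ s in (0:ℝ)..t, ‖f' s‖) +
            ((∫ s in (0:ℝ)..t, ‖f' s‖) / t) ^ 2 * t) * t =
            t * φ t - (∫ s in (0:ℝ)..t, ‖f' s‖) ^ 2 := by
          field_simp
          ring
        rw [h5] at h4
        linarith
    have h6 : ‖f t - f 0‖ ≤ |∫ s in (0:ℝ)..t, ‖f' s‖| := by
      rw [← h1]
      exact intervalIntegral.norm_integral_le_abs_integral_norm
    calc ‖f t - f 0‖ ^ 2 ≤ |∫ s in (0:ℝ)..t, ‖f' s‖| ^ 2 :=
          pow_le_pow_left₀ (norm_nonneg _) h6 2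
      _ = (∫ s in (0:ℝ)..t, ‖f' s‖) ^ 2 := sq_abs _
      _ ≤ _ := hcs
  have hfc : Continuous f := continuous_iff_continuousAt.2 fun t => (hf t).continuousAt
  refine integral_mono_of_nonneg (Filter.Eventually.of_forall fun t => by positivity) hst.1
    (Filter.Eventually.of_forall hpt)

section multi

variable {m : Type} [Fintype m] [DecidableEq m]

theorem mp (y : m) : MeasurePreserving (fun p : (m → ℝ) × ℝ => Function.update p.1 y p.2)
    ((GP m).prod (gaussianReal 0 1)) (GP m) := Stein.mp_update y

theorem dis (y : m) (F : (m → ℝ) → ℝ) (hF : Continuous F) (C : ℝ) (hC : ∀ V, |F V| ≤ C) :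
    ∫ x, F x ∂(GP m) = ∫ x, ∫ t, F (Function.update x y t) ∂(gaussianReal 0 1) ∂(GP m) ∧
    Integrable (fun x => ∫ t, F (Function.update x y t) ∂(gaussianReal 0 1)) (GP m) := by
  have : IsProbabilityMeasure (GP m) := by
    show IsProbabilityMeasure (Measure.pi fun _ : m => gaussianReal 0 1)
    infer_instance
  have h0 := mp y
  have hi : Integrable F (GP m) := Integrable.of_bound hF.aestronglyMeasurable C
    (Filter.Eventually.of_forall hC)
  have hi2 := h0.integrable_comp_of_integrable hi
  constructor
  · conv_lhs => rw [← h0.map_eq]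
    rw [integral_map h0.measurable.aemeasurable hF.aestronglyMeasurable, integral_prod]
    exact hi2
  · exact hi2.integral_prod_left

end multi

end Poin

open Poin

theorem poin : T_POIN := by
  intro m _ _ F D C hF hFC hD hDC hd
  have hC0 : 0 ≤ C := (norm_nonneg _).trans (hFC 0)
  refine (Pool.Agent.W193.BK.ES.es m (gaussianReal 0 1) F hF ⟨C, hFC⟩).trans ?_
  refine Finset.sum_le_sum fun y _ => ?_
  have hup : Continuous fun V : m → ℝ => Function.update V y (0:ℝ) := by
    exact continuous_id.update y continuous_const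
  have c1 : Continuous fun V => ‖F V - F (Function.update V y 0)‖ ^ 2 :=
    ((hF.sub (hF.comp hup)).norm).pow 2
  have c2 : Continuous fun V => ‖D y V‖ ^ 2 := ((hD y).norm).pow 2
  obtain ⟨e1, j1⟩ := dis y (fun V => ‖F V - F (Function.update V y 0)‖ ^ 2) c1 ((C + C) ^ 2)
    (fun V => by
      rw [abs_of_nonneg (by positivity)]
      exact pow_le_pow_left₀ (norm_nonneg _)
        ((norm_sub_le _ _).trans (add_le_add (hFC _) (hFC _))) 2)
  obtain ⟨e2, j2⟩ := dis y (fun V => ‖D y V‖ ^ 2) c2 (C ^ 2) (fun V => by
      rw [abs_of_nonneg (by positivity)]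
      exact pow_le_pow_left₀ (norm_nonneg _) (hDC y _) 2)
  show ∫ V, ‖F V - F (Function.update V y 0)‖ ^ 2 ∂(GP m) ≤ _
  rw [e1, e2]
  refine integral_mono j1 j2 fun x => ?_
  have h := one_var (fun t => F (Function.update x y t)) (fun t => D y (Function.update x y t)) C
    (fun t => by
      have := hd y (Function.update x y t)
      simpa using this)
    ((hD y).comp (continuous_const.update y continuous_id)) (fun t => hDC y _)
  simpa using h

theorem ibp : T_IBP := by
  intro m _ _ y F D C hF hFC hD hDC hd
  have : IsProbabilityMeasure (GP m) := by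
    show IsProbabilityMeasure (Measure.pi fun _ : m => gaussianReal 0 1)
    infer_instance
  have hre := Stein.stein y (fun V => (F V).re) (fun V => (D V).re) C
    (Complex.continuous_re.comp hF).measurable (Complex.continuous_re.comp hD).measurable
    (fun V => (Complex.abs_re_le_norm _).trans (hFC V))
    (fun V => (Complex.abs_re_le_norm _).trans (hDC V))
    (fun V => by
      exact Complex.reCLM.hasFDerivAt.comp_hasDerivAt (V y) (hd V))
  have him := Stein.stein y (fun V => (F V).im) (fun V => (D V).im) C
    (Complex.continuous_im.comp hF).measurable (Complex.continuous_im.comp hD).measurable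
    (fun V => (Complex.abs_im_le_norm _).trans (hFC V))
    (fun V => (Complex.abs_im_le_norm _).trans (hDC V))
    (fun V => by
      exact Complex.imCLM.hasFDerivAt.comp_hasDerivAt (V y) (hd V))
  have i1 : Integrable (fun V : m → ℝ => (V y : ℂ) * F V) (GP m) := by
    have h1 : Integrable (fun V : m → ℝ => V y) (GP m) := Stein.eval_integrable y
    exact h1.ofReal.mul_bdd (c := C) hF.aestronglyMeasurable (Filter.Eventually.of_forall hFC)
  have i2 : Integrable D (GP m) := Integrable.of_bound hD.aestronglyMeasurable C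
    (Filter.Eventually.of_forall hDC)
  apply Complex.ext
  · have h1 := integral_re i1
    have h2 := integral_re i2
    simp only [RCLike.re_to_complex] at h1 h2
    rw [← h1, ← h2]
    have e : ∀ V : m → ℝ, ((V y : ℂ) * F V).re = V y * (F V).re := fun V => by
      rw [Complex.re_ofReal_mul]
    simp only [e]
    exact hre
  · have h1 := integral_im i1
    have h2 := integral_im i2
    simp only [RCLike.im_to_complex] at h1 h2
    rw [← h1, ← h2]
    have e : ∀ V : m → ℝ, ((V y : ℂ) * F V).im = V y * (F V).im := fun V => by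
      rw [Complex.im_ofReal_mul]
    simp only [e]
    exact him

end Pool.Agent.T2h98.QD
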