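import Pool.Agent.T2h98.QD.KQ

/-! The self-energy map of the filtered potential. -/

set_option autoImplicit false
set_option linter.unusedSectionVars false

open scoped BigOperators Matrix
open MeasureTheory ProbabilityTheory

namespace Pool.Agent.T2h98.QD

open Pool.Agent.W788.MFP.Four (T e NN adj K)
open Pool.Agent.W788.BK (nsq hs PP JJ hi Low cr)

namespace Psi

variable {d L : ℕ} [NeZero L]

theorem hi_sq (θ : ℝ) (P : T d L) : hi θ P ^ 2 = hi θ P := by
  unfold hi
  split_ifs <;> norm_num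

/-- the convolution of two kernels -/
theorem KK (m : T d L → ℝ) (hm : ∀ k, m (-k) = m k) (x z : T d L) :
    ∑ y, K m (x - y) * K m (z - y) = K (fun k => m k ^ 2) (x - z) := by
  have h1 : ∀ (x k : T d L), Pool.Agent.W788.MFP.Four.ft (fun y => K m (x - y)) k =
      e k x * (m k : ℂ) := by
    intro x k
    have e1 : (fun y => K m (x - y)) = fun y => K m (y + (-x)) := by
      funext y
      rw [← Pool.Agent.W788.MFP.Four.K_neg m (x - y)]
      congr 1
      abel
    rw [e1, Pool.Agent.W788.MFP.Four.ft_shift, Pool.Agent.W788.MFP.Four.ft_K m hm,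
      Pool.Agent.W788.MFP.Four.e_neg, Complex.conj_conj]
  rw [Pool.Agent.W788.MFP.Four.planch]
  unfold K
  congr 1
  refine Finset.sum_congr rfl fun k _ => ?_
  have h2 := h1 x k
  have h3 := h1 z k
  unfold K at h2 h3
  rw [h2, h3, map_mul, Complex.conj_ofReal, KQ.e_sub]
  have e1 : e k x * (m k : ℂ) * ((starRingEnd ℂ) (e k z) * (m k : ℂ)) =
      ((m k ^ 2 : ℝ) : ℂ) * (e k x * (starRingEnd ℂ) (e k z)) := by
    push_cast
    ring
  rw [e1, Complex.re_ofReal_mul]

end Psi

open Psi in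
theorem psi : T_PSI := by
  intro d L _ θ Z
  have hN := Pool.Agent.W788.MFP.Four.NN_pos (d := d) (L := L)
  ext x z
  have h1 : (∑ y, PY θ y * Z * PY θ y : Matrix (T d L) (T d L) ℂ) x z =
      Z x z * ((∑ y, K (hi θ) (x - y) * K (hi θ) (z - y) : ℝ) : ℂ) := by
    rw [Matrix.sum_apply, Complex.ofReal_sum, Finset.mul_sum]
    refine Finset.sum_congr rfl fun y _ => ?_
    unfold PY
    rw [Matrix.mul_diagonal, Matrix.diagonal_mul, Complex.ofReal_mul]
    ring
  have h2 : (fun k : T d L => hi θ k ^ 2) = hi θ := funext fun k => hi_sq θ k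
  rw [h1, KK (hi θ) (KQ.hi_neg θ), h2, KQ.K_eq _ (KQ.hi_neg θ), Matrix.sub_apply,
    Matrix.sum_apply]
  have h3 : ∑ k : T d L, (hi θ k : ℂ) * e k (x - z) =
      (if x - z = 0 then (NN d L : ℂ) else 0) -
      ∑ k : T d L, ((1 - hi θ k : ℝ) : ℂ) * e k (x - z) := by
    rw [← Pool.Agent.W788.MFP.Four.sum_e, ← Finset.sum_sub_distrib]
    refine Finset.sum_congr rfl fun k _ => ?_
    push_cast
    ring
  have h4 : ∀ k : T d L, ((((NN d L)⁻¹ * (1 - hi θ k) : ℝ) : ℂ) • cj (e k) Z) x z =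
      Z x z * (((NN d L : ℝ) : ℂ)⁻¹ * (((1 - hi θ k : ℝ) : ℂ) * e k (x - z))) := by
    intro k
    rw [Matrix.smul_apply]
    unfold cj
    rw [Matrix.of_apply, KQ.e_sub, smul_eq_mul]
    push_cast
    simp only [Complex.star_def]
    ring
  rw [Finset.sum_congr rfl fun k _ => h4 k, ← Finset.mul_sum, ← Finset.mul_sum, h3, mul_sub,
    mul_sub]
  congr 1
  by_cases h : x = z
  · subst h
    rw [sub_self, if_pos rfl, inv_mul_cancel₀ KQ.N_ne, mul_one, Matrix.diagonal_apply_eq]
  · rw [if_neg (sub_ne_zero.2 h), mul_zero, mul_zero, Matrix.diagonal_apply_ne _ h]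

end Pool.Agent.T2h98.QD
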