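import Pool.Agent.T2h98.QD.Exi

/-! Ballistic upper bound for the time evolution on the lattice. -/

set_option autoImplicit false
set_option linter.unusedSectionVars false

open scoped BigOperators Interval
open MeasureTheory

namespace Pool.Agent.T2h98.QD

open Exi

namespace Tail

variable {d : ℕ}

theorem Evol.dom {v : Zd d → ℝ} {ψ : ℝ → Zd d → ℂ} (h : Evol v ψ) : Dom ψ := by
  rw [Exi.unique h (psi_evol v)]
  exact psi_dom v

theorem Evol.sol {v : Zd d → ℝ} {ψ : ℝ → Zd d → ℂ} (h : Evol v ψ) : Sol v ψ := fun t x =>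
  h.deriv t x

/-- the weight -/
noncomputable def gg (r : ℝ) (x : Zd d) : ℝ := min (‖x‖ / r) 1

theorem gg_nonneg {r : ℝ} (hr : 0 < r) (x : Zd d) : 0 ≤ gg r x :=
  le_min (by positivity) zero_le_one

theorem gg_le_one (r : ℝ) (x : Zd d) : gg r x ≤ 1 := min_le_right _ _

theorem norm_step (x : Zd d) (i : Fin d) : |‖x + Pi.single i 1‖ - ‖x‖| ≤ 1 := by
  have h1 : |‖x + Pi.single i 1‖ - ‖x‖| ≤ ‖x + Pi.single i 1 - x‖ := abs_norm_sub_norm_le _ _
  rw [add_sub_cancel_left] at h1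
  refine h1.trans ?_
  rw [pi_norm_le_iff_of_nonneg zero_le_one]
  intro j
  by_cases hj : j = i
  · subst hj; rw [Pi.single_eq_same]; simp
  · rw [Pi.single_eq_of_ne hj]; simp

theorem gg_step {r : ℝ} (hr : 0 < r) (x : Zd d) (i : Fin d) :
    |gg r x - gg r (x + Pi.single i 1)| ≤ 1 / r := by
  have h1 : |‖x‖ / r - ‖x + Pi.single i 1‖ / r| ≤ 1 / r := by
    rw [← sub_div, abs_div, abs_of_pos hr, abs_sub_comm]
    exact div_le_div_of_nonneg_right (norm_step x i) hr.le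
  unfold gg
  refine le_trans ?_ h1
  have := abs_inf_sub_inf_le_abs (‖x‖ / r) (‖x + Pi.single i 1‖ / r) 1
  exact this

theorem gg_sq_step {r : ℝ} (hr : 0 < r) (x : Zd d) (i : Fin d) :
    |gg r x ^ 2 - gg r (x + Pi.single i 1) ^ 2| ≤
      1 / r * (gg r x + gg r (x + Pi.single i 1)) := by
  have h1 : gg r x ^ 2 - gg r (x + Pi.single i 1) ^ 2 =
      (gg r x - gg r (x + Pi.single i 1)) * (gg r x + gg r (x + Pi.single i 1)) := by ring
  have h2 : 0 ≤ gg r x + gg r (x + Pi.single i 1) := add_nonneg (gg_nonneg hr _) (gg_nonneg hr _)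
  rw [h1, abs_mul, abs_of_nonneg h2]
  exact mul_le_mul_of_nonneg_right (gg_step hr x i) h2

theorem four_sum {α : Type*} {f1 f2 f3 f4 : α → ℝ} {s1 s2 s3 s4 : ℝ} (c l l' : ℝ)
    (h1 : HasSum f1 s1) (h2 : HasSum f2 s2) (h3 : HasSum f3 s3) (h4 : HasSum f4 s4) :
    HasSum (fun x => c * (l * f1 x + l' * f2 x + (l * f3 x + l' * f4 x)))
      (c * (l * s1 + l' * s2 + (l * s3 + l' * s4))) :=
  (((h1.mul_left l).add (h2.mul_left l')).add ((h3.mul_left l).add (h4.mul_left l'))).mul_left c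

theorem amgm {l : ℝ} (hl : 0 < l) (a b : ℝ) : 2 * (a * b) ≤ l * a ^ 2 + l⁻¹ * b ^ 2 := by
  have h3 : l * a ^ 2 + l⁻¹ * b ^ 2 - 2 * (a * b) = l⁻¹ * (l * a - b) ^ 2 := by
    field_simp
    ring
  have h4 : 0 ≤ l⁻¹ * (l * a - b) ^ 2 := by positivity
  linarith

theorem shift_hasSum {f : Zd d → ℝ} {s : ℝ} (h : HasSum f s) (i : Fin d) :
    HasSum (fun x : Zd d => f (x + Pi.single i 1)) s :=
  (Equiv.addRight (Pi.single i (1 : ℤ) : Zd d)).hasSum_iff.2 h

/-- the bound for one direction -/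
theorem one_dir {r : ℝ} (hr : 0 < r) (f : Zd d → ℂ) {μ : ℝ}
    (h1 : HasSum (fun x => gg r x ^ 2 * ‖f x‖ ^ 2) μ) (h2 : HasSum (fun x => ‖f x‖ ^ 2) 1)
    (l : ℝ) (hl : 0 < l) (i : Fin d) :
    ∑' x, 2 * (gg r x ^ 2 - gg r (x + Pi.single i 1) ^ 2) * cur f i x ≤
      2 / r * (l * μ + l⁻¹) := by
  have hsh1 := shift_hasSum h2 i
  have hsh2 := shift_hasSum h1 i
  have hM := four_sum (1 / r) l l⁻¹ h1 hsh1 hsh2 h2
  have hle : ∀ x, ‖2 * (gg r x ^ 2 - gg r (x + Pi.single i 1) ^ 2) * cur f i x‖ ≤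
      1 / r * (l * (gg r x ^ 2 * ‖f x‖ ^ 2) + l⁻¹ * ‖f (x + Pi.single i 1)‖ ^ 2 +
        (l * (gg r (x + Pi.single i 1) ^ 2 * ‖f (x + Pi.single i 1)‖ ^ 2) +
          l⁻¹ * ‖f x‖ ^ 2)) := by
    intro x
    rw [Real.norm_eq_abs, abs_mul, abs_mul, abs_two]
    have h3 := gg_sq_step hr x i
    have h4 := cur_abs f i x
    have a1 := amgm hl (gg r x * ‖f x‖) ‖f (x + Pi.single i 1)‖
    have a2 := amgm hl (gg r (x + Pi.single i 1) * ‖f (x + Pi.single i 1)‖) ‖f x‖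
    have g1 := gg_nonneg hr x
    have g2 := gg_nonneg hr (x + Pi.single i 1)
    obtain ⟨G, hG⟩ : ∃ G : ℝ, G = gg r x := ⟨_, rfl⟩
    obtain ⟨G', hG'⟩ : ∃ G' : ℝ, G' = gg r (x + Pi.single i 1) := ⟨_, rfl⟩
    obtain ⟨A, hA⟩ : ∃ A : ℝ, A = ‖f x‖ := ⟨_, rfl⟩
    obtain ⟨A', hA'⟩ : ∃ A' : ℝ, A' = ‖f (x + Pi.single i 1)‖ := ⟨_, rfl⟩
    have hA0 : 0 ≤ A := by rw [hA]; exact norm_nonneg _
    have hA'0 : 0 ≤ A' := by rw [hA']; exact norm_nonneg _
    rw [← hG, ← hG'] at h3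
    rw [← hA, ← hA'] at h4
    rw [← hG, ← hA, ← hA'] at a1
    rw [← hG', ← hA, ← hA'] at a2
    rw [← hG] at g1
    rw [← hG'] at g2
    rw [← hG, ← hG', ← hA, ← hA']
    calc 2 * |G ^ 2 - G' ^ 2| * |cur f i x|
        ≤ 2 * (1 / r * (G + G')) * (A * A') := by
          have h5 : 0 ≤ 1 / r * (G + G') := by positivity
          exact mul_le_mul (mul_le_mul_of_nonneg_left h3 zero_le_two) h4 (abs_nonneg _)
            (mul_nonneg zero_le_two h5)
      _ = 1 / r * (2 * ((G * A) * A') + 2 * ((G' * A') * A)) := by ring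
      _ ≤ 1 / r * ((l * (G * A) ^ 2 + l⁻¹ * A' ^ 2) + (l * (G' * A') ^ 2 + l⁻¹ * A ^ 2)) :=
          mul_le_mul_of_nonneg_left (add_le_add a1 a2) (by positivity)
      _ = _ := by ring
  have h5 := tsum_of_norm_bounded hM hle
  rw [Real.norm_eq_abs] at h5
  refine (le_abs_self _).trans (h5.trans (le_of_eq ?_))
  ring

end Tail

open Tail in
/-- ballistic upper bound -/
theorem tail_all : T_TAIL := by
  intro d
  refine ⟨2 * d + 1, by positivity, ?_⟩
  intro v ψ h t r ht hr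
  have hd := Evol.dom h
  have hs := Evol.sol h
  have hw : ∀ x : Zd d, |gg r x ^ 2| ≤ 1 := fun x => by
    rw [abs_of_nonneg (sq_nonneg _)]
    exact pow_le_one₀ (gg_nonneg hr x) (gg_le_one r x)
  obtain ⟨m, hm⟩ : ∃ m : ℝ → ℝ, m = fun s => ∑' x, gg r x ^ 2 * ‖ψ s x‖ ^ 2 := ⟨_, rfl⟩
  have hmd : ∀ s, HasDerivAt m (∑ i, ∑' x, 2 * (gg r x ^ 2 - gg r (x + Pi.single i 1) ^ 2) *
      cur (ψ s) i x) s := by
    intro s
    rw [hm]
    exact mass_deriv hs hd (fun x => gg r x ^ 2) 1 hw s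
  have hm0 : m 0 = 0 := by
    rw [hm]
    have h1 : ∀ x : Zd d, gg r x ^ 2 * ‖ψ 0 x‖ ^ 2 = 0 := by
      intro x
      rw [h.init]
      by_cases hx : x = 0
      · subst hx
        unfold gg
        rw [norm_zero, zero_div, min_eq_left zero_le_one]
        ring
      · rw [Pi.single_eq_of_ne hx]
        simp
    simp only [h1, tsum_zero]
  have hmn : ∀ s, 0 ≤ m s := by
    intro s
    rw [hm]
    exact tsum_nonneg fun x => by positivity
  have hS1 : ∀ s, Summable fun x => gg r x ^ 2 * ‖ψ s x‖ ^ 2 := fun s =>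
    dom_summable hd (fun x => gg r x ^ 2) 1 hw s
  have hS2 : ∀ s, HasSum (fun x => ‖ψ s x‖ ^ 2) 1 := h.mass
  -- the derivative
  have hder : ∀ s l : ℝ, 0 < l →
      ∑ i, ∑' x, 2 * (gg r x ^ 2 - gg r (x + Pi.single i 1) ^ 2) * cur (ψ s) i x ≤
        2 * d / r * (l * m s + l⁻¹) := by
    intro s l hl
    have h1 : ∀ i : Fin d, ∑' x, 2 * (gg r x ^ 2 - gg r (x + Pi.single i 1) ^ 2) * cur (ψ s) i x ≤
        2 / r * (l * m s + l⁻¹) := by
      intro i
      refine one_dir hr (ψ s) ?_ (hS2 s) l hl i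
      rw [hm]
      exact (hS1 s).hasSum
    refine (Finset.sum_le_sum fun i _ => h1 i).trans (le_of_eq ?_)
    rw [Finset.sum_const, Finset.card_univ, Fintype.card_fin, nsmul_eq_mul]
    ring
  -- comparison
  have hcmp : ∀ ε : ℝ, 0 < ε → Real.sqrt (m t + ε) ≤ Real.sqrt ε + 2 * d / r * t := by
    intro ε hε
    have hpos : ∀ s, 0 < m s + ε := fun s => by have := hmn s; linarith
    have hf : ∀ s, HasDerivAt (fun s => Real.sqrt (m s + ε))
        ((∑ i, ∑' x, 2 * (gg r x ^ 2 - gg r (x + Pi.single i 1) ^ 2) * cur (ψ s) i x) /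
          (2 * Real.sqrt (m s + ε))) s := fun s =>
      ((hmd s).add_const ε).sqrt (hpos s).ne'
    have hf' : ∀ s, deriv (fun s => Real.sqrt (m s + ε)) s ≤ 2 * d / r := by
      intro s
      rw [(hf s).deriv]
      have hq : 0 < Real.sqrt (m s + ε) := Real.sqrt_pos.2 (hpos s)
      have hq2 : Real.sqrt (m s + ε) ^ 2 = m s + ε := Real.sq_sqrt (hpos s).le
      rw [div_le_iff₀ (by positivity)]
      have h3 := hder s (Real.sqrt (m s + ε))⁻¹ (by positivity)
      rw [inv_inv] at h3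
      refine h3.trans ?_
      have h4 : (Real.sqrt (m s + ε))⁻¹ * m s ≤ Real.sqrt (m s + ε) := by
        rw [inv_mul_le_iff₀ hq, ← sq, hq2]
        linarith
      have h5 : 0 ≤ 2 * (d : ℝ) / r := by positivity
      calc 2 * (d : ℝ) / r * ((Real.sqrt (m s + ε))⁻¹ * m s + Real.sqrt (m s + ε))
          ≤ 2 * d / r * (Real.sqrt (m s + ε) + Real.sqrt (m s + ε)) := by gcongr
        _ = _ := by ring
    have h3 := image_sub_le_mul_sub_of_deriv_le (fun s => (hf s).differentiableAt) hf' ht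
    simp only [hm0, zero_add, sub_zero] at h3
    linarith
  have hfin : Real.sqrt (m t) ≤ 2 * d / r * t := by
    refine le_of_forall_pos_le_add fun δ hδ => ?_
    have h3 := hcmp (δ ^ 2) (by positivity)
    rw [Real.sqrt_sq hδ.le] at h3
    have h4 : Real.sqrt (m t) ≤ Real.sqrt (m t + δ ^ 2) := Real.sqrt_le_sqrt (by
      have := sq_nonneg δ
      linarith)
    linarith
  have hmt : m t ≤ (2 * d / r * t) ^ 2 := by
    have h3 := Real.sq_sqrt (hmn t)
    rw [← h3]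
    exact pow_le_pow_left₀ (Real.sqrt_nonneg _) hfin 2
  -- the tail
  have htail : ∑' x, (if r ≤ ‖x‖ then ‖ψ t x‖ ^ 2 else 0) ≤ m t := by
    rw [hm]
    have hle : ∀ x : Zd d, (if r ≤ ‖x‖ then ‖ψ t x‖ ^ 2 else 0) ≤ gg r x ^ 2 * ‖ψ t x‖ ^ 2 := by
      intro x
      split_ifs with hx
      · have : gg r x = 1 := by
          unfold gg
          rw [min_eq_right]
          rw [le_div_iff₀ hr]
          linarith
        rw [this, one_pow, one_mul]
      · positivity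
    refine Summable.tsum_le_tsum hle ?_ (hS1 t)
    refine Summable.of_nonneg_of_le (fun x => ?_) hle (hS1 t)
    split_ifs
    · positivity
    · exact le_rfl
  refine htail.trans (hmt.trans ?_)
  have h3 : 0 ≤ 2 * (d : ℝ) / r * t := by positivity
  refine pow_le_pow_left₀ h3 ?_ 2
  rw [div_mul_eq_mul_div]
  gcongr
  linarith

end Pool.Agent.T2h98.QD
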