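import Pool.Agent.T2h98.QD.Stm

/-! The tent function and its Fourier transform. -/

set_option autoImplicit false
set_option linter.unusedSectionVars false

open scoped BigOperators

namespace Pool.Agent.T2h98.QD

variable {L : ℕ} [NeZero L]

theorem tent_char_sum (x : ZMod L) :
    ∑ q : ZMod L, (ZMod.stdAddChar (q * x) : ℂ) = if x = 0 then (L : ℂ) else 0 := by
  rw [AddChar.sum_mulShift x (ZMod.isPrimitive_stdAddChar L)]
  simp [ZMod.card]

theorem tent_conj (x : ZMod L) :
    (starRingEnd ℂ) (ZMod.stdAddChar x : ℂ) = ZMod.stdAddChar (-x) :=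
  (AddChar.map_neg_eq_conj ZMod.stdAddChar x).symm

theorem tent_sq (M : ℕ) (q : ZMod L) :
    ((‖∑ a ∈ Finset.range M, (ZMod.stdAddChar (q * ((a : ℕ) : ZMod L)) : ℂ)‖ ^ 2 : ℝ) : ℂ) =
      ∑ p ∈ Finset.range M ×ˢ Finset.range M,
        (ZMod.stdAddChar (q * (((p.1 : ℕ) : ZMod L) - ((p.2 : ℕ) : ZMod L))) : ℂ) := by
  push_cast
  rw [← Complex.mul_conj', map_sum, Finset.sum_mul_sum, ← Finset.sum_product']
  refine Finset.sum_congr rfl fun p _ => ?_
  rw [tent_conj, ← AddChar.map_add_eq_mul]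
  congr 1
  ring

theorem tent_fh (M : ℕ) (q : ZMod L) : ((fh M q : ℝ) : ℂ) =
    (L : ℂ)⁻¹ * (M : ℂ)⁻¹ * ∑ p ∈ Finset.range M ×ˢ Finset.range M,
        (ZMod.stdAddChar (q * (((p.1 : ℕ) : ZMod L) - ((p.2 : ℕ) : ZMod L))) : ℂ) := by
  rw [← tent_sq, fh]
  push_cast
  ring

theorem tent_neg (M : ℕ) (m : ZMod L) : ff M (-m) = ff M m := by
  unfold ff
  congr 2
  refine Finset.card_bij (fun p _ => (p.2, p.1)) ?_ ?_ ?_
  · intro p hp
    simp only [Finset.mem_filter, Finset.mem_product] at hp ⊢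
    refine ⟨⟨hp.1.2, hp.1.1⟩, ?_⟩
    rw [← neg_sub, hp.2, neg_neg]
  · intro p _ p' _ h
    simp only [Prod.mk.injEq] at h
    exact Prod.ext h.2 h.1
  · intro p hp
    simp only [Finset.mem_filter, Finset.mem_product] at hp
    refine ⟨(p.2, p.1), ?_, rfl⟩
    simp only [Finset.mem_filter, Finset.mem_product]
    refine ⟨⟨hp.1.2, hp.1.1⟩, ?_⟩
    rw [← neg_sub, hp.2]

theorem tent_last (M : ℕ) (m : ZMod L) :
    ((ff M m : ℝ) : ℂ) = ∑ q : ZMod L, (fh M q : ℂ) * (ZMod.stdAddChar (q * m) : ℂ) := by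
  have hL : (L : ℂ) ≠ 0 := Nat.cast_ne_zero.mpr (NeZero.ne L)
  rw [← tent_neg]
  simp_rw [tent_fh, mul_assoc, Finset.sum_mul, ← AddChar.map_add_eq_mul, ← mul_add]
  rw [← Finset.mul_sum, ← Finset.mul_sum, Finset.sum_comm]
  simp_rw [tent_char_sum]
  rw [← Finset.sum_filter, Finset.sum_const, nsmul_eq_mul, ff]
  have : (Finset.filter (fun p : ℕ × ℕ => ((p.1 : ℕ) : ZMod L) - ((p.2 : ℕ) : ZMod L) + m = 0)
      (Finset.range M ×ˢ Finset.range M)) = (Finset.filter (fun p : ℕ × ℕ =>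
        ((p.1 : ℕ) : ZMod L) - ((p.2 : ℕ) : ZMod L) = -m)
      (Finset.range M ×ˢ Finset.range M)) := by
    refine Finset.filter_congr fun p _ => ?_
    exact add_eq_zero_iff_eq_neg
  rw [this]
  push_cast
  field_simp

theorem cast_inj' {M a b : ℕ} (hM : M ≤ L) (ha : a < M) (hb : b < M)
    (h : ((a : ℕ) : ZMod L) = ((b : ℕ) : ZMod L)) : a = b := by
  have := (ZMod.natCast_eq_natCast_iff' a b L).mp h
  rwa [Nat.mod_eq_of_lt (lt_of_lt_of_le ha hM), Nat.mod_eq_of_lt (lt_of_lt_of_le hb hM)] at this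

theorem tent_card_le {M : ℕ} (hM : M ≤ L) (m : ZMod L) :
    (((Finset.range M ×ˢ Finset.range M).filter
      fun p => ((p.1 : ℕ) : ZMod L) - ((p.2 : ℕ) : ZMod L) = m).card) ≤ M := by
  calc _ ≤ (Finset.range M).card := by
        refine Finset.card_le_card_of_injOn (fun p => p.2) ?_ ?_
        · intro p hp
          simp only [Finset.coe_filter, Finset.mem_product, Set.mem_setOf_eq] at hp
          exact hp.1.2
        · intro p hp p' hp' h
          simp only [Finset.coe_filter, Finset.mem_product, Set.mem_setOf_eq,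
            Finset.mem_range] at hp hp' h
          refine Prod.ext ?_ h
          refine cast_inj' hM hp.1.1 hp'.1.1 ?_
          have h1 := hp.2
          have h2 := hp'.2
          rw [h] at h1
          have := h1.trans h2.symm
          exact sub_left_injective this
    _ = M := Finset.card_range M

theorem tent_zero {M : ℕ} (h1 : 1 ≤ M) (hM : M ≤ L) : ff M (0 : ZMod L) = 1 := by
  unfold ff
  have : (((Finset.range M ×ˢ Finset.range M).filter
      fun p => ((p.1 : ℕ) : ZMod L) - ((p.2 : ℕ) : ZMod L) = 0).card) = M := by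
    refine le_antisymm (tent_card_le hM 0) ?_
    calc M = (Finset.range M).card := (Finset.card_range M).symm
      _ ≤ _ := by
        refine Finset.card_le_card_of_injOn (fun t => (t, t)) ?_ ?_
        · intro t ht
          simp only [Finset.coe_range, Set.mem_Iio] at ht
          simp [ht]
        · intro t _ t' _ h
          exact (Prod.mk.inj h).1
  rw [this]
  have : (M : ℝ) ≠ 0 := by positivity
  field_simp

theorem tent_half_aux {M : ℕ} (h1 : 1 ≤ M) (a b : ℕ) (hab : b ≤ a)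
    (h : 2 * (a - b) ≤ M) :
    1 / 2 ≤ ff M (((a : ℕ) : ZMod L) - ((b : ℕ) : ZMod L)) := by
  unfold ff
  have hc : M - (a - b) ≤ (((Finset.range M ×ˢ Finset.range M).filter
      fun p => ((p.1 : ℕ) : ZMod L) - ((p.2 : ℕ) : ZMod L) =
        ((a : ℕ) : ZMod L) - ((b : ℕ) : ZMod L)).card) := by
    calc M - (a - b) = (Finset.range (M - (a - b))).card := (Finset.card_range _).symm
      _ ≤ _ := by
        refine Finset.card_le_card_of_injOn (fun t => (a - b + t, t)) ?_ ?_
        · intro t ht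
          simp only [Finset.coe_range, Set.mem_Iio] at ht
          simp only [Finset.coe_filter, Finset.mem_product, Finset.mem_range, Set.mem_setOf_eq]
          refine ⟨⟨by omega, by omega⟩, ?_⟩
          push_cast [Nat.cast_sub hab]
          ring
        · intro t _ t' _ h
          exact (Prod.mk.inj h).2
  have hc' : ((M : ℝ) / 2) ≤ ((M - (a - b) : ℕ) : ℝ) := by
    have h2 : M ≤ 2 * (M - (a - b)) := by omega
    have h3 : (M : ℝ) ≤ 2 * ((M - (a - b) : ℕ) : ℝ) := by exact_mod_cast h2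
    linarith
  have hM0 : (0 : ℝ) < M := by exact_mod_cast h1
  have hc'' : ((M : ℝ) / 2) ≤ (((Finset.range M ×ˢ Finset.range M).filter
      fun p => ((p.1 : ℕ) : ZMod L) - ((p.2 : ℕ) : ZMod L) =
        ((a : ℕ) : ZMod L) - ((b : ℕ) : ZMod L)).card : ℝ) := hc'.trans (by exact_mod_cast hc)
  calc (1 : ℝ) / 2 = (M : ℝ)⁻¹ * ((M : ℝ) / 2) := by field_simp
    _ ≤ _ := by gcongr

theorem tent : T_TENT := by
  intro L M _ h1 hM
  have hM0 : (0 : ℝ) < M := by exact_mod_cast h1
  have hL0 : (0 : ℝ) < L := by exact_mod_cast (Nat.pos_of_ne_zero (NeZero.ne L))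
  refine ⟨fun q => ?_, ?_, fun q => ?_, fun m => ⟨?_, ?_⟩, tent_neg M, ?_, tent_last M⟩
  · unfold fh; positivity
  · have := tent_last (L := L) M 0
    rw [tent_zero h1 hM] at this
    simp only [mul_zero, AddChar.map_zero_eq_one, mul_one] at this
    have h2 : ((1 : ℝ) : ℂ) = ((∑ q : ZMod L, fh M q : ℝ) : ℂ) := by
      rw [this]; push_cast; rfl
    exact (Complex.ofReal_injective h2).symm
  · unfold fh
    have h3 : ‖∑ a ∈ Finset.range M, (ZMod.stdAddChar (q * ((a : ℕ) : ZMod L)) : ℂ)‖ ≤ M := by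
      calc _ ≤ ∑ a ∈ Finset.range M, ‖(ZMod.stdAddChar (q * ((a : ℕ) : ZMod L)) : ℂ)‖ :=
            norm_sum_le _ _
        _ = M := by simp
    calc _ ≤ (L : ℝ)⁻¹ * (M : ℝ)⁻¹ * (M : ℝ) ^ 2 := by gcongr
      _ = (M : ℝ) / L := by field_simp
  · unfold ff; positivity
  · unfold ff
    have : ((((Finset.range M ×ˢ Finset.range M).filter
      fun p => ((p.1 : ℕ) : ZMod L) - ((p.2 : ℕ) : ZMod L) = m).card : ℕ) : ℝ) ≤ M := by
      exact_mod_cast tent_card_le hM m
    calc _ ≤ (M : ℝ)⁻¹ * M := by gcongr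
      _ = 1 := by field_simp
  · intro a b _ _ hab
    rcases le_total b a with h | h
    · exact tent_half_aux h1 a b h (by omega)
    · rw [← neg_sub, tent_neg]
      exact tent_half_aux h1 b a h (by omega)

end Pool.Agent.T2h98.QD
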