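import Pool.Agent.T2h98.QD.Lat5
import Pool.Agent.T2h98.QD.Poin
import Pool.Agent.T2h98.QD.KQ
import Pool.Agent.T2h98.QD.Psi
import Pool.Agent.T2h98.QD.Inv
import Pool.Agent.T2h98.QD.Slice
import Pool.Agent.T2h98.QD.BadK
import Pool.Agent.T2h98.QD.LowG
import Pool.Agent.T2h98.QD.Gap
import Pool.Agent.T2h98.QD.Tent
import Pool.Agent.T2h98.QD.Phi
import Pool.Agent.T2h98.QD.Win
import Pool.Agent.T2h98.QD.Uni
import Pool.Agent.T2h98.QD.Avg
import Pool.Agent.T2h98.QD.Law
import Pool.Agent.T2h98.QD.Exi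
import Pool.Agent.T2h98.QD.Cmp
import Pool.Agent.T2h98.QD.Tail
import Pool.Agent.T2h98.QD.Meas
import Pool.Agent.T2h98.QD.Num
import Pool.Agent.T2h98.QD.Prob
import Pool.Agent.W465.BK.QB
import Pool.Agent.W475.BK.Low
import Pool.Agent.W240.BK.Two
import Pool.Agent.W918.BK.Osc

/-! All parts are proved. -/

set_option autoImplicit false

namespace Pool.Agent.T2h98.QD

theorem facts : Facts where
  poin := poin
  ibp := ibp
  kq := kq
  psi := psi
  inv := inv
  slice := slice
  badk := badk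
  smq := smq
  gap := gap
  tent := tent
  phi := phi tent
  win := win
  uni := uni tent
  avg := avg tent inv
  num := num
  prob := prob lowg maxg Pool.Agent.W475.BK.low
  qb := Pool.Agent.W465.BK.qb (Pool.Agent.W240.BK.two Pool.Agent.W918.BK.Osc.osc)
  low := Pool.Agent.W475.BK.low

end Pool.Agent.T2h98.QD
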