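import Pool.Agent.T2h98.QD.Stm5
import Pool.Agent.T2h98.QD.Cmp

/-! Comparison of the lattice with the torus for characters. -/

set_option autoImplicit false
set_option linter.unusedSectionVars false

open scoped BigOperators Matrix
open MeasureTheory

namespace Pool.Agent.T2h98.QD

open Pool.Agent.W788.MFP.Four (T e NN adj K)
open Pool.Agent.W788.BK (nsq hs PP JJ hi Low cr)

namespace CmpQS

open Cmp

variable {d L : ℕ} [NeZero L]

/-- the character of the torus on the representatives -/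
theorem e_rep (κ k : T d L) : e κ k =
    Complex.exp (((∑ i, mo κ i * ((rep k i : ℤ) : ℝ) : ℝ) : ℂ) * Complex.I) := by
  unfold e
  have h1 : ∑ i, κ i * k i = (((∑ i, (κ i).valMinAbs * (k i).valMinAbs : ℤ)) : ZMod L) := by
    simp [ZMod.coe_valMinAbs]
  rw [h1, ZMod.stdAddChar_coe]
  congr 1
  unfold mo rep
  push_cast
  rw [Finset.mul_sum, Finset.sum_div, Finset.sum_mul]
  refine Finset.sum_congr rfl fun i _ => ?_
  ring

theorem exp_sub_le (a b : ℝ) : ‖Complex.exp ((a : ℂ) * Complex.I) - Complex.exp ((b : ℂ) * Complex.I)‖ ≤ |a - b| := by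
  have h1 : Complex.exp ((a : ℂ) * Complex.I) - Complex.exp ((b : ℂ) * Complex.I) =
      Complex.exp ((b : ℂ) * Complex.I) * (Complex.exp (Complex.I * ((a - b : ℝ) : ℂ)) - 1) := by
    rw [mul_sub, ← Complex.exp_add, mul_one]
    congr 2
    push_cast
    ring
  rw [h1, norm_mul, Complex.norm_exp_ofReal_mul_I, one_mul]
  exact Real.norm_exp_I_mul_ofReal_sub_one_le

theorem norm_phase (a : ℝ) : ‖Complex.exp ((a : ℂ) * Complex.I)‖ = 1 := Complex.norm_exp_ofReal_mul_I a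

/-- two vectors of norm at most one -/
theorem two_vecC {n : Type} [Fintype n] (f : n → ℂ) (hf : ∀ k, ‖f k‖ ≤ 1) (a b : n → ℂ)
    (ha : ∑ k, ‖a k‖ ^ 2 ≤ 1) (hb : ∑ k, ‖b k‖ ^ 2 ≤ 1) (B : ℝ) (hB : 0 ≤ B)
    (hab : ∑ k, ‖a k - b k‖ ^ 2 ≤ B ^ 2) :
    ‖∑ k, f k * ((‖a k‖ ^ 2 : ℝ) : ℂ) - ∑ k, f k * ((‖b k‖ ^ 2 : ℝ) : ℂ)‖ ≤ 2 * B := by
  rw [← Finset.sum_sub_distrib]
  refine (norm_sum_le _ _).trans ?_
  have h1 : ∀ k, ‖f k * ((‖a k‖ ^ 2 : ℝ) : ℂ) - f k * ((‖b k‖ ^ 2 : ℝ) : ℂ)‖ ≤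
      ‖a k - b k‖ * ‖a k‖ + ‖a k - b k‖ * ‖b k‖ := by
    intro k
    rw [← mul_sub, norm_mul, ← Complex.ofReal_sub, Complex.norm_real, Real.norm_eq_abs]
    have e1 : |‖a k‖ ^ 2 - ‖b k‖ ^ 2| ≤ ‖a k - b k‖ * (‖a k‖ + ‖b k‖) := by
      rw [sq_sub_sq, abs_mul, mul_comm, abs_of_nonneg (by positivity : 0 ≤ ‖a k‖ + ‖b k‖)]
      exact mul_le_mul_of_nonneg_right (abs_norm_sub_norm_le _ _) (by positivity)
    calc ‖f k‖ * |‖a k‖ ^ 2 - ‖b k‖ ^ 2| ≤ 1 * |‖a k‖ ^ 2 - ‖b k‖ ^ 2| :=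
          mul_le_mul_of_nonneg_right (hf k) (abs_nonneg _)
      _ ≤ _ := by rw [one_mul]; exact e1.trans (le_of_eq (by ring))
  refine (Finset.sum_le_sum fun k _ => h1 k).trans ?_
  rw [Finset.sum_add_distrib]
  have s1 : Real.sqrt (∑ k, ‖a k - b k‖ ^ 2) ≤ B := by
    rw [Real.sqrt_le_left hB]; exact hab
  have s2 : Real.sqrt (∑ k, ‖a k‖ ^ 2) ≤ 1 := by
    rw [Real.sqrt_le_left zero_le_one, one_pow]; exact ha
  have s3 : Real.sqrt (∑ k, ‖b k‖ ^ 2) ≤ 1 := by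
    rw [Real.sqrt_le_left zero_le_one, one_pow]; exact hb
  have t1 : ∑ k, ‖a k - b k‖ * ‖a k‖ ≤ B := by
    refine (Real.sum_mul_le_sqrt_mul_sqrt _ _ _).trans ?_
    calc _ ≤ B * 1 := mul_le_mul s1 s2 (Real.sqrt_nonneg _) hB
      _ = B := mul_one B
  have t2 : ∑ k, ‖a k - b k‖ * ‖b k‖ ≤ B := by
    refine (Real.sum_mul_le_sqrt_mul_sqrt _ _ _).trans ?_
    calc _ ≤ B * 1 := mul_le_mul s1 s3 (Real.sqrt_nonneg _) hB
      _ = B := mul_one B
  linarith

variable {v : Zd d → ℝ} {ψ : ℝ → Zd d → ℂ}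

theorem obs_summableC (hψ : Evol v ψ) (f : Zd d → ℂ) (hf : ∀ x, ‖f x‖ ≤ 1) (t : ℝ) :
    Summable fun x => f x * ((‖ψ t x‖ ^ 2 : ℝ) : ℂ) := by
  refine Summable.of_norm_bounded (hψ.mass t).summable fun x => ?_
  rw [norm_mul, Complex.norm_real, Real.norm_eq_abs, abs_of_nonneg (by positivity)]
  exact mul_le_of_le_one_left (by positivity) (hf x)

/-- restriction to the box -/
theorem boxC (hψ : Evol v ψ) (f : Zd d → ℂ) (hf : ∀ x, ‖f x‖ ≤ 1) (t : ℝ) :
    ‖∑' x, f x * ((‖ψ t x‖ ^ 2 : ℝ) : ℂ) - ∑ k : T d L, f (rep k) * ((‖ψ t (rep k)‖ ^ 2 : ℝ) : ℂ)‖ ≤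
      ∑' x, (if (L : ℝ) / 4 ≤ ‖x‖ then ‖ψ t x‖ ^ 2 else 0) := by
  classical
  obtain ⟨S, hS⟩ : ∃ S : Finset (Zd d), S = Finset.univ.map ⟨(rep : T d L → Zd d), rep_inj⟩ :=
    ⟨_, rfl⟩
  obtain ⟨g, hg⟩ : ∃ g : Zd d → ℂ, g = fun x => f x * ((‖ψ t x‖ ^ 2 : ℝ) : ℂ) := ⟨_, rfl⟩
  have hsum : Summable g := by rw [hg]; exact obs_summableC hψ f hf t
  have e1 : ∑ k : T d L, f (rep k) * ((‖ψ t (rep k)‖ ^ 2 : ℝ) : ℂ) = ∑ x ∈ S, g x := by
    rw [hS, Finset.sum_map, hg]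
    rfl
  have f1 : ∑ x ∈ S, g x = ∑' x, (if x ∈ S then g x else 0) := by
    rw [tsum_eq_sum (s := S)]
    · exact Finset.sum_congr rfl fun x hx => by rw [if_pos hx]
    · intro x hx
      rw [if_neg hx]
  have f2 : Summable fun x => (if x ∈ S then g x else 0) :=
    summable_of_ne_finset_zero (s := S) fun x hx => by rw [if_neg hx]
  have e4 : ∑' x, f x * ((‖ψ t x‖ ^ 2 : ℝ) : ℂ) = ∑' x, g x := by rw [hg]
  rw [e1, e4, f1, ← hsum.tsum_sub f2]
  refine tsum_of_norm_bounded (tail_summable hψ t _).hasSum fun x => ?_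
  by_cases hx : x ∈ S
  · rw [if_pos hx, sub_self, norm_zero]
    split_ifs <;> positivity
  · rw [if_neg hx, sub_zero]
    have h2 : x ∉ Set.range (rep : T d L → Zd d) := by
      rintro ⟨k, rfl⟩
      apply hx
      rw [hS]
      exact Finset.mem_map.2 ⟨k, Finset.mem_univ _, rfl⟩
    rw [if_pos (not_range x h2), hg]
    simp only
    rw [norm_mul, Complex.norm_real, Real.norm_eq_abs, abs_of_nonneg (by positivity)]
    exact mul_le_of_le_one_left (by positivity) (hf x)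

/-- the phases -/
theorem phase_diff (κ : T d L) (q : Fin d → ℝ) (hq : ∀ i, |q i - mo κ i| ≤ 2 * Real.pi / L) (k : T d L) :
    ‖Complex.exp (((∑ i, q i * ((rep k i : ℤ) : ℝ) : ℝ) : ℂ) * Complex.I) - e κ k‖ ≤
      d * (2 * Real.pi / L) * ‖rep k‖ := by
  rw [e_rep]
  refine (exp_sub_le _ _).trans ?_
  rw [← Finset.sum_sub_distrib]
  refine (Finset.abs_sum_le_sum_abs _ _).trans ?_
  have h1 : ∀ i : Fin d, |q i * ((rep k i : ℤ) : ℝ) - mo κ i * ((rep k i : ℤ) : ℝ)| ≤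
      (2 * Real.pi / L) * ‖rep k‖ := by
    intro i
    rw [← sub_mul, abs_mul]
    have h2 : |((rep k i : ℤ) : ℝ)| ≤ ‖rep k‖ := by
      have := norm_le_pi_norm (rep k) i
      rwa [Int.norm_eq_abs] at this
    exact mul_le_mul (hq i) h2 (abs_nonneg _) ((abs_nonneg _).trans (hq i))
  refine (Finset.sum_le_sum fun i _ => h1 i).trans (le_of_eq ?_)
  rw [Finset.sum_const, Finset.card_univ, Fintype.card_fin, nsmul_eq_mul]
  ring

theorem phases (hψ : Evol v ψ) (κ : T d L) (q : Fin d → ℝ)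
    (hq : ∀ i, |q i - mo κ i| ≤ 2 * Real.pi / L) (t : ℝ) :
    ‖∑ k : T d L, Complex.exp (((∑ i, q i * ((rep k i : ℤ) : ℝ) : ℝ) : ℂ) * Complex.I) *
        ((‖ψ t (rep k)‖ ^ 2 : ℝ) : ℂ) - ∑ k : T d L, e κ k * ((‖ψ t (rep k)‖ ^ 2 : ℝ) : ℂ)‖ ≤
      2 * Real.pi * d / Real.sqrt L +
        2 * ∑' x, (if Real.sqrt L ≤ ‖x‖ then ‖ψ t x‖ ^ 2 else 0) := by
  have hLpos : (0 : ℝ) < L := by exact_mod_cast Nat.pos_of_ne_zero (NeZero.ne L)
  have hs : 0 < Real.sqrt L := Real.sqrt_pos.2 hLpos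
  have hss : Real.sqrt L * Real.sqrt L = L := Real.mul_self_sqrt hLpos.le
  rw [← Finset.sum_sub_distrib]
  refine (norm_sum_le _ _).trans ?_
  have h1 : ∀ k : T d L, ‖Complex.exp (((∑ i, q i * ((rep k i : ℤ) : ℝ) : ℝ) : ℂ) * Complex.I) *
      ((‖ψ t (rep k)‖ ^ 2 : ℝ) : ℂ) - e κ k * ((‖ψ t (rep k)‖ ^ 2 : ℝ) : ℂ)‖ ≤
      2 * Real.pi * d / Real.sqrt L * ‖ψ t (rep k)‖ ^ 2 +
        2 * (if Real.sqrt L ≤ ‖rep k‖ then ‖ψ t (rep k)‖ ^ 2 else 0) := by
    intro k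
    rw [← sub_mul, norm_mul, Complex.norm_real, Real.norm_eq_abs, abs_of_nonneg (by positivity : 0 ≤ ‖ψ t (rep k)‖ ^ 2)]
    by_cases hk : Real.sqrt L ≤ ‖rep k‖
    · rw [if_pos hk]
      have h2 : ‖Complex.exp (((∑ i, q i * ((rep k i : ℤ) : ℝ) : ℝ) : ℂ) * Complex.I) - e κ k‖ ≤ 2 := by
        refine (norm_sub_le _ _).trans ?_
        rw [e_rep, norm_phase, norm_phase]
        norm_num
      have h3 : 0 ≤ 2 * Real.pi * d / Real.sqrt L * ‖ψ t (rep k)‖ ^ 2 := by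
        have := Real.pi_pos
        positivity
      have h4 := mul_le_mul_of_nonneg_right h2 (by positivity : 0 ≤ ‖ψ t (rep k)‖ ^ 2)
      linarith
    · rw [if_neg hk, mul_zero, add_zero]
      apply mul_le_mul_of_nonneg_right _ (by positivity)
      refine (phase_diff κ q hq k).trans ?_
      push Not at hk
      have := Real.pi_pos
      calc d * (2 * Real.pi / L) * ‖rep k‖ ≤ d * (2 * Real.pi / L) * Real.sqrt L := by gcongr
        _ = 2 * Real.pi * d / Real.sqrt L := by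
            have h8 : 2 * Real.pi / (L : ℝ) = 2 * Real.pi / (Real.sqrt L * Real.sqrt L) := by rw [hss]
            rw [h8]
            field_simp
  refine (Finset.sum_le_sum fun k _ => h1 k).trans ?_
  rw [Finset.sum_add_distrib, ← Finset.mul_sum, ← Finset.mul_sum]
  have h2 := mass_sub hψ t (rep : T d L → Zd d) rep_inj
  have h3 : ∑ k : T d L, (if Real.sqrt L ≤ ‖rep k‖ then ‖ψ t (rep k)‖ ^ 2 else 0) ≤
      ∑' x, (if Real.sqrt L ≤ ‖x‖ then ‖ψ t x‖ ^ 2 else 0) := by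
    rw [← Finset.sum_filter]
    exact tail_sub hψ t (Real.sqrt L) _ rep rep_inj fun j hj => (Finset.mem_filter.1 hj).2
  have h4 : 0 ≤ 2 * Real.pi * d / Real.sqrt L := by
    have := Real.pi_pos
    positivity
  have h5 := mul_le_mul_of_nonneg_left h2 h4
  linarith

end CmpQS

open Cmp CmpQS in
theorem cmpq (h : T_TAIL) : T_CMPQ := by
  intro d
  obtain ⟨C, hC, htail⟩ := h d
  have hpi := Real.pi_pos
  refine ⟨6 * C + 32 * d * C + 2 * Real.pi * d + 4, by positivity, ?_⟩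
  intro L _ κ q hq σ ξ ψ hψ t ht
  have hLpos : (0 : ℝ) < L := by exact_mod_cast Nat.pos_of_ne_zero (NeZero.ne L)
  have hL1 : (1 : ℝ) ≤ L := by exact_mod_cast Nat.pos_of_ne_zero (NeZero.ne L)
  have hs : 0 < Real.sqrt L := Real.sqrt_pos.2 hLpos
  have hss : Real.sqrt L * Real.sqrt L = L := Real.mul_self_sqrt hLpos.le
  have hcol := ev_col (HT σ (fun k : T d L => ξ (rep k))) (HT_herm σ _) t 0
  have hph : ∀ x : Zd d, ‖Complex.exp (((∑ i, q i * (x i : ℝ) : ℝ) : ℂ) * Complex.I)‖ ≤ 1 := fun x =>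
    (norm_phase _).le
  have heq : ∀ k : T d L, ‖e κ k‖ ≤ 1 := fun k => by rw [e_rep, norm_phase]
  by_cases hL : 4 ≤ L
  · obtain ⟨y, hy⟩ : ∃ y : ℝ, y = 4 * C * t / L := ⟨_, rfl⟩
    have hy0 : 0 ≤ y := by rw [hy]; positivity
    have htl : ∀ s, 0 ≤ s → ∑' x, (if (L : ℝ) / 4 ≤ ‖x‖ then ‖ψ s x‖ ^ 2 else 0) ≤
        (4 * C * s / L) ^ 2 := by
      intro s hs
      refine (htail _ ψ hψ s ((L : ℝ) / 4) hs (by positivity)).trans (le_of_eq ?_)
      congr 1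
      field_simp
    obtain ⟨B, hB⟩ : ∃ B : ℝ, B = 4 * d * y := ⟨_, rfl⟩
    have hB0 : 0 ≤ B := by rw [hB]; positivity
    have hsrc : ∀ s ∈ Set.Icc 0 t, ∑ k : T d L, ‖src ψ s k‖ ^ 2 ≤ B ^ 2 := by
      intro s hs
      refine (src_le hψ hL s).trans ?_
      calc (4 * (d : ℝ)) ^ 2 * ∑' x, (if (L : ℝ) / 4 ≤ ‖x‖ then ‖ψ s x‖ ^ 2 else 0)
          ≤ (4 * (d : ℝ)) ^ 2 * (4 * C * s / L) ^ 2 :=
            mul_le_mul_of_nonneg_left (htl s hs.1) (by positivity)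
        _ ≤ (4 * (d : ℝ)) ^ 2 * y ^ 2 := by
            refine mul_le_mul_of_nonneg_left ?_ (by positivity)
            refine pow_le_pow_left₀ (by have := hs.1; positivity) ?_ 2
            rw [hy]
            have := hs.2
            gcongr
        _ = B ^ 2 := by rw [hB]; ring
    have hdiff := diff_le (L := L) σ ξ hψ t B ht hB0 hsrc
    have h3 := two_vecC (fun k : T d L => e κ k) heq
      (fun k : T d L => ev (HT σ (fun k : T d L => ξ (rep k))) t k 0)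
      (fun k : T d L => ψ t (rep k)) (le_of_eq hcol) (mass_sub hψ t rep rep_inj) (B * t)
      (by positivity) hdiff
    have h4 := boxC (L := L) hψ (fun x => Complex.exp (((∑ i, q i * (x i : ℝ) : ℝ) : ℂ) * Complex.I)) hph t
    have h5 : ∑' x, (if (L : ℝ) / 4 ≤ ‖x‖ then ‖ψ t x‖ ^ 2 else 0) ≤ y := by
      have g1 := htl t ht
      have g2 := tail_le_one hψ t ((L : ℝ) / 4)
      rw [← hy] at g1
      rcases le_total y 1 with h | h
      · nlinarith
      · linarith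
    have h6 := phases (L := L) hψ κ q hq t
    have h7 : ∑' x, (if Real.sqrt L ≤ ‖x‖ then ‖ψ t x‖ ^ 2 else 0) ≤ C * t / Real.sqrt L := by
      have g1 := htail _ ψ hψ t (Real.sqrt L) ht hs
      have g2 := tail_le_one hψ t (Real.sqrt L)
      have g3 : 0 ≤ C * t / Real.sqrt L := by positivity
      rcases le_total (C * t / Real.sqrt L) 1 with h | h
      · nlinarith
      · linarith
    have htri : ∀ a b c e : ℂ, ‖a - e‖ ≤ ‖a - b‖ + ‖b - c‖ + ‖e - c‖ := by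
      intro a b c e
      have : a - e = (a - b) + (b - c) - (e - c) := by ring
      rw [this]
      exact (norm_sub_le _ _).trans (by gcongr; exact norm_add_le _ _)
    refine (htri _ _ _ _).trans ((add_le_add (add_le_add (h4.trans h5) h6) h3).trans ?_)
    have h8 : y ≤ 4 * C * t / Real.sqrt L := by
      rw [hy]
      apply div_le_div_of_nonneg_left (by positivity) hs
      have : 1 ≤ Real.sqrt L := Real.one_le_sqrt.2 hL1
      nlinarith
    have h9 : 2 * (B * t) ≤ 32 * d * C * t ^ 2 / Real.sqrt L := by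
      calc 2 * (B * t) = 8 * d * t * y := by rw [hB]; ring
        _ ≤ 8 * d * t * (4 * C * t / Real.sqrt L) := by gcongr
        _ = _ := by ring
    calc y + (2 * Real.pi * d / Real.sqrt L + 2 * ∑' x, (if Real.sqrt L ≤ ‖x‖ then ‖ψ t x‖ ^ 2 else 0)) +
          2 * (B * t)
        ≤ 4 * C * t / Real.sqrt L + (2 * Real.pi * d / Real.sqrt L + 2 * (C * t / Real.sqrt L)) +
          32 * d * C * t ^ 2 / Real.sqrt L := by
          gcongr
      _ = (6 * C * t + 2 * Real.pi * d + 32 * d * C * t ^ 2) / Real.sqrt L := by ring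
      _ ≤ _ := by
          apply div_le_div_of_nonneg_right _ hs.le
          have g1 : t ≤ (1 + t) ^ 2 := by nlinarith
          have g2 : 1 ≤ (1 + t) ^ 2 := by nlinarith
          have g3 : t ^ 2 ≤ (1 + t) ^ 2 := by nlinarith
          have g4 : 6 * C * t ≤ 6 * C * (1 + t) ^ 2 := by gcongr
          have g5 : 2 * Real.pi * d ≤ 2 * Real.pi * d * (1 + t) ^ 2 := le_mul_of_one_le_right (by positivity) g2
          have g6 : 32 * d * C * t ^ 2 ≤ 32 * d * C * (1 + t) ^ 2 := by gcongr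
          nlinarith
  · have g1 : ‖∑' x : Zd d, Complex.exp (((∑ i, q i * (x i : ℝ) : ℝ) : ℂ) * Complex.I) *
      ((‖ψ t x‖ ^ 2 : ℝ) : ℂ)‖ ≤ 1 := by
      refine tsum_of_norm_bounded (hψ.mass t) fun x => ?_
      rw [norm_mul, Complex.norm_real, Real.norm_eq_abs, abs_of_nonneg (by positivity)]
      exact mul_le_of_le_one_left (by positivity) (hph x)
    have g2 : ‖∑ k : T d L, e κ k * ((‖ev (HT σ fun k : T d L => ξ (rep k)) t k 0‖ ^ 2 : ℝ) : ℂ)‖ ≤ 1 := by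
      rw [← hcol]
      refine (norm_sum_le _ _).trans (Finset.sum_le_sum fun k _ => ?_)
      rw [norm_mul, Complex.norm_real, Real.norm_eq_abs, abs_of_nonneg (by positivity)]
      exact mul_le_of_le_one_left (by positivity) (heq k)
    refine (norm_sub_le _ _).trans ((add_le_add g1 g2).trans ?_)
    rw [le_div_iff₀ hs]
    have h3 : (L : ℝ) ≤ 3 := by
      have : L ≤ 3 := by omega
      exact_mod_cast this
    have h4 : Real.sqrt L ≤ 2 := by
      rw [Real.sqrt_le_left (by norm_num)]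
      linarith
    have h5 : 1 ≤ (1 + t) ^ 2 := by nlinarith
    have h6 : (4 : ℝ) ≤ (6 * C + 32 * d * C + 2 * Real.pi * d + 4) * 1 := by
      have : 0 ≤ 6 * C + 32 * d * C + 2 * Real.pi * d := by positivity
      linarith
    have h7 : (6 * C + 32 * d * C + 2 * Real.pi * d + 4) * 1 ≤
        (6 * C + 32 * d * C + 2 * Real.pi * d + 4) * (1 + t) ^ 2 :=
      mul_le_mul_of_nonneg_left h5 (by positivity)
    linarith

end Pool.Agent.T2h98.QD
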