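import Pool.Agent.T2h98.QD.Poi

/-! Riemann sums (JL). -/

set_option autoImplicit false
set_option linter.unusedSectionVars false

open scoped BigOperators Topology
open MeasureTheory Filter Set

namespace Pool.Agent.T2h98.QD

open Pool.Agent.W788.BK (cr)

namespace JL0

/-- Riemann sums of a Lipschitz function of period `2 π` -/
lemma riemann {F : ℝ → ℂ} (hc : Continuous F) (hper : Function.Periodic F (2 * Real.pi))
    {Λ : ℝ} (hΛ0 : 0 ≤ Λ) (hΛ : ∀ x y, ‖F x - F y‖ ≤ Λ * |x - y|) (L : ℕ) [NeZero L] :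
    ‖(L : ℂ)⁻¹ * ∑ n ∈ Finset.range L, F (2 * Real.pi * n / L) -
      ((2 * Real.pi : ℝ) : ℂ)⁻¹ * ∫ k in (-Real.pi)..Real.pi, F k‖ ≤ 2 * Real.pi * Λ / L := by
  have hpi := Real.pi_pos
  have hL : (0 : ℝ) < L := by exact_mod_cast Nat.pos_of_ne_zero (NeZero.ne L)
  have h1 : ∫ k in (-Real.pi)..Real.pi, F k = ∫ k in (0:ℝ)..(2 * Real.pi), F k := by
    have := hper.intervalIntegral_add_eq (-Real.pi) 0
    rw [zero_add] at this
    rw [← this]
    congr 1
    ring
  set a : ℕ → ℝ := fun n => 2 * Real.pi * n / L with ha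
  have h2 : ∫ k in (0:ℝ)..(2 * Real.pi), F k = ∑ n ∈ Finset.range L, ∫ k in (a n)..(a (n + 1)), F k := by
    rw [intervalIntegral.sum_integral_adjacent_intervals fun k _ => hc.intervalIntegrable _ _]
    simp only [ha]
    congr 1
    · simp
    · field_simp
  have hstep : ∀ n, a (n + 1) - a n = 2 * Real.pi / L := by
    intro n
    simp only [ha]
    push_cast
    ring
  have h3 : ∀ n, ‖((2 * Real.pi / L : ℝ) : ℂ) * F (a n) - ∫ k in (a n)..(a (n + 1)), F k‖ ≤
      Λ * (2 * Real.pi / L) * (2 * Real.pi / L) := by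
    intro n
    have e : ((2 * Real.pi / L : ℝ) : ℂ) * F (a n) = ∫ _k in (a n)..(a (n + 1)), F (a n) := by
      rw [intervalIntegral.integral_const, hstep, Complex.real_smul]
    rw [e, ← intervalIntegral.integral_sub (by simp) (hc.intervalIntegrable _ _)]
    have h4 := intervalIntegral.norm_integral_le_of_norm_le_const (a := a n) (b := a (n + 1))
      (f := fun k => F (a n) - F k) (C := Λ * (2 * Real.pi / L)) (fun k hk => ?_)
    · rw [hstep, abs_of_pos (by positivity)] at h4
      exact h4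
    · have hle : a n ≤ a (n + 1) := by
        have := hstep n
        have : 0 < 2 * Real.pi / L := by positivity
        linarith
      rw [Set.uIoc_of_le hle] at hk
      refine (hΛ _ _).trans ?_
      apply mul_le_mul_of_nonneg_left _ hΛ0
      rw [abs_sub_comm, abs_of_pos (by linarith [hk.1])]
      have := hstep n
      linarith [hk.2]
  have e1 : (L : ℂ)⁻¹ * ∑ n ∈ Finset.range L, F (2 * Real.pi * n / L) -
      ((2 * Real.pi : ℝ) : ℂ)⁻¹ * ∫ k in (-Real.pi)..Real.pi, F k =
      ((2 * Real.pi : ℝ) : ℂ)⁻¹ * ∑ n ∈ Finset.range L,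
        (((2 * Real.pi / L : ℝ) : ℂ) * F (a n) - ∫ k in (a n)..(a (n + 1)), F k) := by
    rw [h1, h2, Finset.sum_sub_distrib, mul_sub, ← Finset.mul_sum, ← mul_assoc]
    congr 2
    have : (Real.pi : ℂ) ≠ 0 := by exact_mod_cast hpi.ne'
    push_cast
    field_simp
  rw [e1, norm_mul, norm_inv, Complex.norm_real, Real.norm_eq_abs, abs_of_pos (by positivity)]
  have h5 : ‖∑ n ∈ Finset.range L, (((2 * Real.pi / L : ℝ) : ℂ) * F (a n) -
      ∫ k in (a n)..(a (n + 1)), F k)‖ ≤ L * (Λ * (2 * Real.pi / L) * (2 * Real.pi / L)) := by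
    refine (norm_sum_le _ _).trans ?_
    refine (Finset.sum_le_sum fun n _ => h3 n).trans_eq ?_
    rw [Finset.sum_const, Finset.card_range, nsmul_eq_mul]
  calc (2 * Real.pi)⁻¹ * _ ≤ (2 * Real.pi)⁻¹ *
        (L * (Λ * (2 * Real.pi / L) * (2 * Real.pi / L))) := by gcongr
    _ = _ := by field_simp

lemma sum_zmod {L : ℕ} [NeZero L] (f : ZMod L → ℂ) :
    ∑ j : ZMod L, f j = ∑ n ∈ Finset.range L, f (n : ZMod L) := by
  symm
  apply Finset.sum_nbij' (i := fun n : ℕ => (n : ZMod L)) (j := fun j : ZMod L => j.val)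
  · intro n _
    exact Finset.mem_univ _
  · intro j _
    exact Finset.mem_range.2 (ZMod.val_lt j)
  · intro n hn
    exact ZMod.val_cast_of_lt (Finset.mem_range.1 hn)
  · intro j _
    exact ZMod.natCast_zmod_val j
  · intro n _
    rfl

lemma cr_nat {L : ℕ} [NeZero L] (n : ℕ) : cr ((n : ℕ) : ZMod L) = Real.cos (2 * Real.pi * n / L) := by
  unfold cr
  have h := ZMod.stdAddChar_coe (N := L) (n : ℤ)
  rw [Int.cast_natCast] at h
  rw [h]
  have e : 2 * (Real.pi : ℂ) * Complex.I * ((n : ℤ) : ℂ) / (L : ℂ) =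
      ((2 * Real.pi * n / L : ℝ) : ℂ) * Complex.I := by
    push_cast
    ring
  rw [e, Complex.exp_ofReal_mul_I_re]

lemma exp_lip (x y : ℝ) : ‖Complex.exp ((x : ℂ) * Complex.I) - Complex.exp ((y : ℂ) * Complex.I)‖ ≤
    |x - y| := by
  have e : Complex.exp ((x : ℂ) * Complex.I) - Complex.exp ((y : ℂ) * Complex.I) =
      Complex.exp ((y : ℂ) * Complex.I) * (Complex.exp (Complex.I * ((x - y : ℝ) : ℂ)) - 1) := by
    rw [mul_sub, mul_one, ← Complex.exp_add]
    congr 2
    push_cast
    ring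
  rw [e, norm_mul, Complex.norm_exp_ofReal_mul_I, one_mul]
  exact Real.norm_exp_I_mul_ofReal_sub_one_le

lemma cos_lip (x y : ℝ) : |Real.cos x - Real.cos y| ≤ |x - y| := by
  have h := Complex.abs_re_le_norm (Complex.exp ((x : ℂ) * Complex.I) -
    Complex.exp ((y : ℂ) * Complex.I))
  rw [Complex.sub_re, Complex.exp_ofReal_mul_I_re, Complex.exp_ofReal_mul_I_re] at h
  exact h.trans (exp_lip x y)

lemma sin_lip (x y : ℝ) : |Real.sin x - Real.sin y| ≤ |x - y| := by
  have h := Complex.abs_im_le_norm (Complex.exp ((x : ℂ) * Complex.I) -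
    Complex.exp ((y : ℂ) * Complex.I))
  rw [Complex.sub_im, Complex.exp_ofReal_mul_I_im, Complex.exp_ofReal_mul_I_im] at h
  exact h.trans (exp_lip x y)

lemma F_lip (s x y : ℝ) : ‖Complex.exp (((2 * s * Real.cos x : ℝ) : ℂ) * Complex.I) -
    Complex.exp (((2 * s * Real.cos y : ℝ) : ℂ) * Complex.I)‖ ≤ 2 * |s| * |x - y| := by
  refine (exp_lip _ _).trans ?_
  rw [← mul_sub, abs_mul, abs_mul, abs_of_pos (by norm_num : (0:ℝ) < 2)]
  have := cos_lip x y
  gcongr

end JL0

open JL0 in
/-- **Riemann sums** -/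
theorem jl : T_JL := by
  have hpi := Real.pi_pos
  refine ⟨2 * Real.pi * 8, by positivity, fun L _ s => ?_⟩
  have hL : (0 : ℝ) < L := by exact_mod_cast Nat.pos_of_ne_zero (NeZero.ne L)
  have hs0 := abs_nonneg s
  constructor
  · have h1 := riemann (F := fun k => Complex.exp (((2 * s * Real.cos k : ℝ) : ℂ) * Complex.I))
      (by fun_prop) (fun k => by simp only [Real.cos_add_two_pi]) (Λ := 8 * (1 + |s|))
      (by positivity) (fun x y => (F_lip s x y).trans (by
        apply mul_le_mul_of_nonneg_right _ (abs_nonneg _)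
        linarith)) L
    rw [sum_zmod]
    simp only [cr_nat]
    refine h1.trans_eq ?_
    ring
  · have h1 := riemann (F := fun k => ((4 * Real.sin k ^ 2 : ℝ) : ℂ) *
        Complex.exp (((2 * s * Real.cos k : ℝ) : ℂ) * Complex.I))
      (by fun_prop) (fun k => by simp only [Real.cos_add_two_pi, Real.sin_add_two_pi])
      (Λ := 8 * (1 + |s|)) (by positivity) (fun x y => by
        have e : ((4 * Real.sin x ^ 2 : ℝ) : ℂ) *
            Complex.exp (((2 * s * Real.cos x : ℝ) : ℂ) * Complex.I) -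
            ((4 * Real.sin y ^ 2 : ℝ) : ℂ) *
            Complex.exp (((2 * s * Real.cos y : ℝ) : ℂ) * Complex.I) =
            ((4 * Real.sin x ^ 2 : ℝ) : ℂ) *
            (Complex.exp (((2 * s * Real.cos x : ℝ) : ℂ) * Complex.I) -
              Complex.exp (((2 * s * Real.cos y : ℝ) : ℂ) * Complex.I)) +
            ((4 * (Real.sin x + Real.sin y) * (Real.sin x - Real.sin y) : ℝ) : ℂ) *
            Complex.exp (((2 * s * Real.cos y : ℝ) : ℂ) * Complex.I) := by
          push_cast; ring
        rw [e]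
        refine (norm_add_le _ _).trans ?_
        rw [norm_mul, norm_mul, Complex.norm_exp_ofReal_mul_I, mul_one, Complex.norm_real,
          Complex.norm_real, Real.norm_eq_abs, Real.norm_eq_abs,
          abs_of_nonneg (by positivity : 0 ≤ 4 * Real.sin x ^ 2), abs_mul, abs_mul,
          abs_of_pos (by norm_num : (0:ℝ) < 4)]
        have h2 := F_lip s x y
        have h3 := Real.sin_sq_le_one x
        have h4 := sin_lip x y
        have h5 : |Real.sin x + Real.sin y| ≤ 2 := by
          refine (abs_add_le _ _).trans ?_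
          have := Real.abs_sin_le_one x
          have := Real.abs_sin_le_one y
          linarith
        calc 4 * Real.sin x ^ 2 * ‖Complex.exp (((2 * s * Real.cos x : ℝ) : ℂ) * Complex.I) -
              Complex.exp (((2 * s * Real.cos y : ℝ) : ℂ) * Complex.I)‖ +
              4 * |Real.sin x + Real.sin y| * |Real.sin x - Real.sin y|
            ≤ 4 * 1 * (2 * |s| * |x - y|) + 4 * 2 * |x - y| := by gcongr
          _ = 8 * (1 + |s|) * |x - y| := by ring) L
    rw [sum_zmod]
    simp only [cr_nat]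
    have e : ∀ n : ℕ, 1 - Real.cos (2 * Real.pi * n / L) ^ 2 =
        Real.sin (2 * Real.pi * n / L) ^ 2 := by
      intro n
      have := Real.sin_sq_add_cos_sq (2 * Real.pi * n / L)
      linarith
    simp only [e]
    refine h1.trans_eq ?_
    ring

end Pool.Agent.T2h98.QD
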