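import Pool.Agent.T2h98.QD.Stm6

/-! The Laplace transform of the limit (LAP). -/

set_option autoImplicit false
set_option linter.unusedSectionVars false

open scoped BigOperators Topology
open MeasureTheory Filter Set

namespace Pool.Agent.T2h98.QD

namespace Lap0

variable {n c : ℝ → ℝ}

/-- abstract version -/
theorem core (hn : Measurable n) (hc : Measurable c) (hn0 : ∀ E, 0 ≤ n E) (hc0 : ∀ E, 0 ≤ c E)
    (hni : Integrable n) (hn1 : ∫ E, n E = 1) :
    (Measurable fun s => ∫ E : ℝ, n E * Real.exp (-(max s 0 * c E))) ∧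
    (∀ s : ℝ, 0 ≤ ∫ E : ℝ, n E * Real.exp (-(max s 0 * c E)) ∧
      ∫ E : ℝ, n E * Real.exp (-(max s 0 * c E)) ≤ 1) ∧
    ∀ τ : ℝ, 0 < τ → Integrable (fun E => n E / (1 + τ * c E)) ∧
      ∫ s in Set.Ioi (0 : ℝ), Real.exp (-(s / τ)) * ∫ E : ℝ, n E * Real.exp (-(s * c E)) =
        τ * ∫ E, n E / (1 + τ * c E) := by
  have hle : ∀ s : ℝ, 0 ≤ s → ∀ E, ‖n E * Real.exp (-(s * c E))‖ ≤ n E := by
    intro s hs E
    rw [Real.norm_eq_abs, abs_of_nonneg (mul_nonneg (hn0 E) (Real.exp_nonneg _))]
    have h1 : Real.exp (-(s * c E)) ≤ 1 := by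
      rw [Real.exp_le_one_iff]
      have := mul_nonneg hs (hc0 E)
      linarith
    exact mul_le_of_le_one_right (hn0 E) h1
  have hint : ∀ s : ℝ, 0 ≤ s → Integrable fun E => n E * Real.exp (-(s * c E)) := by
    intro s hs
    refine Integrable.mono' hni ?_ (ae_of_all _ (hle s hs))
    exact (hn.mul (by fun_prop)).aestronglyMeasurable
  refine ⟨?_, ?_, ?_⟩
  · have h1 : Measurable (fun p : ℝ × ℝ => n p.2 * Real.exp (-(max p.1 0 * c p.2))) := by
      have h2 : Measurable fun p : ℝ × ℝ => n p.2 := hn.comp measurable_snd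
      have h3 : Measurable fun p : ℝ × ℝ => c p.2 := hc.comp measurable_snd
      have h4 : Measurable fun p : ℝ × ℝ => max p.1 0 := measurable_fst.max measurable_const
      exact h2.mul (h4.mul h3).neg.exp
    exact (h1.stronglyMeasurable.integral_prod_right').measurable
  · intro s
    refine ⟨integral_nonneg fun E => mul_nonneg (hn0 E) (Real.exp_nonneg _), ?_⟩
    rw [← hn1]
    apply integral_mono (hint _ (le_max_right _ _)) hni
    intro E
    exact (le_abs_self _).trans (hle _ (le_max_right _ _) E)
  · intro τ hτ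
    have hden : ∀ E, 0 < 1 + τ * c E := fun E => by
      have := hc0 E
      positivity
    have hfi : Integrable (fun E => n E / (1 + τ * c E)) := by
      refine Integrable.mono' hni ?_ (ae_of_all _ fun E => ?_)
      · exact (hn.div (by fun_prop)).aestronglyMeasurable
      · rw [Real.norm_eq_abs, abs_of_nonneg (div_nonneg (hn0 E) (hden E).le)]
        apply div_le_self (hn0 E)
        have := mul_nonneg hτ.le (hc0 E)
        linarith
    refine ⟨hfi, ?_⟩
    have hexp : IntegrableOn (fun s : ℝ => Real.exp (-(s / τ))) (Ioi 0) := by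
      have h1 := integrableOn_exp_mul_Ioi (a := -(1 / τ)) (by
        have : 0 < 1 / τ := by positivity
        linarith) 0
      refine h1.congr_fun (fun s _ => ?_) measurableSet_Ioi
      simp only
      congr 1
      ring
    have e1 : ∫ s in Set.Ioi (0 : ℝ), Real.exp (-(s / τ)) * ∫ E : ℝ, n E * Real.exp (-(s * c E)) =
        ∫ s in Set.Ioi (0 : ℝ), ∫ E : ℝ, Real.exp (-(s / τ)) * (n E * Real.exp (-(s * c E))) := by
      congr 1
      funext s
      rw [integral_const_mul]
    rw [e1, integral_integral_swap]
    · rw [← integral_const_mul]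
      congr 1
      funext E
      have hb : 0 < 1 / τ + c E := by
        have := hc0 E
        positivity
      have e2 : ∀ s : ℝ, Real.exp (-(s / τ)) * (n E * Real.exp (-(s * c E))) =
          n E * Real.exp (-(1 / τ + c E) * s) := by
        intro s
        rw [mul_left_comm, ← Real.exp_add]
        congr 2
        ring
      simp only [e2]
      rw [integral_const_mul, integral_exp_mul_Ioi (by linarith) 0]
      simp only [mul_zero, Real.exp_zero]
      have := hden E
      field_simp
    · have hprod : Integrable (fun p : ℝ × ℝ => Real.exp (-(p.1 / τ)) * n p.2)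
          ((volume.restrict (Ioi 0)).prod volume) := Integrable.mul_prod hexp hni
      refine Integrable.mono' hprod ?_ ?_
      · have h2 : Measurable fun p : ℝ × ℝ => n p.2 := hn.comp measurable_snd
        have h3 : Measurable fun p : ℝ × ℝ => c p.2 := hc.comp measurable_snd
        have h5 : Measurable fun p : ℝ × ℝ => Real.exp (-(p.1 / τ)) := by fun_prop
        exact (h5.mul (h2.mul (measurable_fst.mul h3).neg.exp)).aestronglyMeasurable
      · have hm : MeasurableSet {p : ℝ × ℝ | 0 < p.1} := measurableSet_lt measurable_const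
          measurable_fst
        have hae : ∀ᵐ p : ℝ × ℝ ∂((volume.restrict (Ioi 0)).prod volume), 0 < p.1 := by
          have h7 : ∀ᵐ s : ℝ ∂(volume.restrict (Ioi (0 : ℝ))), 0 < s :=
            ae_restrict_mem measurableSet_Ioi
          exact Measure.quasiMeasurePreserving_fst.ae h7
        filter_upwards [hae] with p hp
        simp only [Function.uncurry]
        rw [norm_mul, Real.norm_eq_abs, abs_of_pos (Real.exp_pos _)]
        exact mul_le_mul_of_nonneg_left (hle _ hp.le _) (Real.exp_nonneg _)

end Lap0

open Lap0 in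
/-- **the Laplace transform of the limit** -/
theorem lap (hdos : T_DOS) : T_LAP := by
  intro d hd Q
  obtain ⟨cn, cw, n0, w0, hvan, hchar⟩ := hdos d hd
  have hpi := Real.pi_pos
  have hsupp : HasCompactSupport (dn d) := by
    apply HasCompactSupport.intro (isCompact_Icc (a := -(2 * (d : ℝ))) (b := 2 * d))
    intro E hE
    apply (hvan E _).1
    by_contra hlt
    rw [not_le, abs_lt] at hlt
    exact hE ⟨hlt.1.le, hlt.2.le⟩
  have hni : Integrable (dn d) := cn.integrable_of_hasCompactSupport hsupp
  have hn1 : ∫ E, dn d E = 1 := by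
    have h1 := (hchar (fun _ => 1) continuous_const).1
    simp only [one_mul] at h1
    rw [← h1, setIntegral_const, smul_eq_mul, mul_one]
    have h2 : (volume : Measure (Fin d → ℝ)).real
        (Set.Icc (fun _ : Fin d => -Real.pi) (fun _ => Real.pi)) = (2 * Real.pi) ^ d := by
      rw [Measure.real, Real.volume_Icc_pi, Finset.prod_const, Finset.card_univ, Fintype.card_fin,
        ENNReal.toReal_pow, ENNReal.toReal_ofReal (by linarith)]
      congr 1
      ring
    rw [h2, ← mul_pow, inv_mul_cancel₀ (by positivity), one_pow]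
  set c : ℝ → ℝ := fun E => (∑ i, Q i ^ 2) * (dw d E / (2 * Real.pi * dn d E ^ 2)) with hc
  have hcm : Measurable c := by
    refine measurable_const.mul (cw.measurable.div ?_)
    exact (measurable_const.mul (cn.measurable.pow_const 2))
  have hc0 : ∀ E, 0 ≤ c E := by
    intro E
    have h1 : 0 ≤ ∑ i, Q i ^ 2 := Finset.sum_nonneg fun i _ => sq_nonneg _
    have h2 := w0 E
    positivity
  obtain ⟨a1, a2, a3⟩ := core cn.measurable hcm n0 hc0 hni hn1
  have eF : ∀ s, F0 d Q s = ∫ E : ℝ, dn d E * Real.exp (-(s * c E)) := by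
    intro s
    unfold F0
    simp only [hc, mul_assoc]
  have ef : ∀ τ, fl d Q τ = fun E => dn d E / (1 + τ * c E) := by
    intro τ
    funext E
    unfold fl
    simp only [hc, mul_assoc]
  simp only [eF]
  refine ⟨a1, a2, hni, hn1, fun τ hτ => ?_⟩
  rw [ef]
  exact a3 τ hτ

end Pool.Agent.T2h98.QD
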