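import Pool.Agent.T2h98.QD.Stm7

/-! Time integrals of the kernel. -/

set_option autoImplicit false
set_option linter.unusedSectionVars false

open scoped BigOperators Topology
open MeasureTheory Filter Set

namespace Pool.Agent.T2h98.QD

open Pool.Agent.W788.BK (cr)

namespace PKJ

theorem pk_cont (L : ℕ) [NeZero L] (x : ZMod L) : Continuous fun t => ‖pk L t x‖ := by
  unfold pk
  fun_prop

variable {φ Φ K : ℝ → ℝ}

theorem right (hK : Continuous K) (hφ : ∀ v, 0 ≤ v → HasDerivAt Φ (φ v) v)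
    (hc : ContinuousOn φ (Ici 0)) {a b : ℝ} (hab : a ≤ b)
    (h : ∀ t ∈ Icc a b, K t ≤ φ (t - a)) : ∫ t in a..b, K t ≤ Φ (b - a) - Φ 0 := by
  have h1 : ∫ t in (0 : ℝ)..(b - a), φ t = Φ (b - a) - Φ 0 := by
    apply intervalIntegral.integral_eq_sub_of_hasDerivAt
    · intro v hv
      rw [uIcc_of_le (by linarith)] at hv
      exact hφ v hv.1
    · apply ContinuousOn.intervalIntegrable
      rw [uIcc_of_le (by linarith)]
      exact hc.mono fun v hv => hv.1
  have h2 : ∫ t in a..b, φ (t - a) = ∫ t in (0 : ℝ)..(b - a), φ t := by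
    rw [intervalIntegral.integral_comp_sub_right (fun t => φ t) a, sub_self]
  rw [← h1, ← h2]
  apply intervalIntegral.integral_mono_on hab (hK.intervalIntegrable _ _)
  · apply ContinuousOn.intervalIntegrable
    rw [uIcc_of_le hab]
    exact hc.comp (by fun_prop) fun t ht => by
      show 0 ≤ t - a
      linarith [ht.1]
  · exact h

theorem left (hK : Continuous K) (hφ : ∀ v, 0 ≤ v → HasDerivAt Φ (φ v) v)
    (hc : ContinuousOn φ (Ici 0)) {a b : ℝ} (hab : a ≤ b)
    (h : ∀ t ∈ Icc a b, K t ≤ φ (b - t)) : ∫ t in a..b, K t ≤ Φ (b - a) - Φ 0 := by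
  have h1 : ∫ t in a..b, K t = ∫ t in a..b, K (a + b - t) := by
    rw [intervalIntegral.integral_comp_sub_left (fun t => K t) (a + b)]
    congr 1 <;> ring
  rw [h1]
  apply right (hK.comp (by fun_prop)) hφ hc hab
  intro t ht
  have := h (a + b - t) ⟨by linarith [ht.2], by linarith [ht.1]⟩
  rwa [show b - (a + b - t) = t - a by ring] at this

theorem both (hK : Continuous K) (hφ : ∀ v, 0 ≤ v → HasDerivAt Φ (φ v) v)
    (hc : ContinuousOn φ (Ici 0)) (hm : ∀ u v, 0 ≤ u → u ≤ v → Φ u ≤ Φ v) {a b c : ℝ}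
    (hac : a ≤ c) (hcb : c ≤ b) (h : ∀ t ∈ Icc a b, K t ≤ φ |t - c|) :
    ∫ t in a..b, K t ≤ 2 * (Φ (b - a) - Φ 0) := by
  rw [← intervalIntegral.integral_add_adjacent_intervals (hK.intervalIntegrable a c)
    (hK.intervalIntegrable c b)]
  have h1 := left hK hφ hc hac (fun t ht => by
    have := h t ⟨ht.1, ht.2.trans hcb⟩
    rwa [abs_of_nonpos (by linarith [ht.2]), neg_sub] at this)
  have h2 := right hK hφ hc hcb (fun t ht => by
    have := h t ⟨hac.trans ht.1, ht.2⟩
    rwa [abs_of_nonneg (by linarith [ht.1])] at this)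
  have h3 := hm (c - a) (b - a) (by linarith) (by linarith)
  have h4 := hm (b - c) (b - a) (by linarith) (by linarith)
  linarith

/-- the bound for the kernel -/
theorem ker {C : ℝ} (hC : 0 < C) {L : ℕ} [NeZero L] {s : ℝ} {x : ZMod L} (hs : 1 ≤ s)
    (hsL : 64 * s ≤ L)
    (h : ∀ t : ℝ, 16 * (1 + |t|) ≤ L → ‖pk L t x‖ ≤
      C * ((1 + |t|) * (1 + abs (2 * |t| - |((x.valMinAbs : ℤ) : ℝ)|))) ^ (-(1 / 4) : ℝ)) :
    ∃ c : ℝ, s ≤ c ∧ c ≤ 2 * s ∧ ∀ t ∈ Icc s (2 * s),
      ‖pk L t x‖ ≤ C * (s * (1 + 2 * |t - c|)) ^ (-(1 / 4) : ℝ) := by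
  obtain ⟨n, hn⟩ : ∃ n : ℝ, n = |((x.valMinAbs : ℤ) : ℝ)| := ⟨_, rfl⟩
  refine ⟨max s (min (2 * s) (n / 2)), le_max_left _ _, max_le (by linarith) (min_le_left _ _), ?_⟩
  intro t ht
  have ht0 : 0 ≤ t := by linarith [ht.1]
  have h1 := h t (by
    rw [abs_of_nonneg ht0]
    linarith [ht.2])
  rw [← hn, abs_of_nonneg ht0] at h1
  refine h1.trans ?_
  apply mul_le_mul_of_nonneg_left _ hC.le
  apply Real.rpow_le_rpow_of_nonpos (by positivity) _ (by norm_num)
  have h2 : 2 * |t - max s (min (2 * s) (n / 2))| ≤ |2 * t - n| := by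
    rcases le_total n (2 * s) with h3 | h3
    · have e1 : max s (min (2 * s) (n / 2)) = s := by
        apply max_eq_left
        exact (min_le_right _ _).trans (by linarith)
      rw [e1, abs_of_nonneg (by linarith [ht.1])]
      exact le_trans (by linarith) (le_abs_self _)
    · rcases le_total n (4 * s) with h4 | h4
      · have e1 : max s (min (2 * s) (n / 2)) = n / 2 := by
          rw [min_eq_right (by linarith), max_eq_right (by linarith)]
        rw [e1]
        have e2 : 2 * t - n = 2 * (t - n / 2) := by ring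
        rw [e2, abs_mul, abs_of_pos (by norm_num : (0 : ℝ) < 2)]
      · have e1 : max s (min (2 * s) (n / 2)) = 2 * s := by
          rw [min_eq_left (by linarith), max_eq_right (by linarith)]
        rw [e1, abs_of_nonpos (by linarith [ht.2])]
        exact le_trans (by linarith) (neg_le_abs _)
  have h3 : s ≤ 1 + t := by linarith [ht.1]
  exact mul_le_mul h3 (by linarith) (by positivity) (by linarith)

end PKJ

open PKJ in
theorem pki (h : T_PK) : T_PKI := by
  obtain ⟨C, hC, hk⟩ := h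
  refine ⟨8 * C ^ 3 + 2 * C ^ 4, by positivity, ?_⟩
  intro L _ s x hs hsL
  have hs0 : 0 < s := by linarith
  obtain ⟨c, hc1, hc2, hb⟩ := ker hC hs hsL (fun t ht => hk L t x ht)
  have hkc := pk_cont L x
  constructor
  · -- cubes
    have h1 := both (φ := fun v => C ^ 3 * s ^ (-(3 / 4) : ℝ) * (1 + 2 * v) ^ (-(3 / 4) : ℝ))
      (Φ := fun v => C ^ 3 * s ^ (-(3 / 4) : ℝ) * (2 * (1 + 2 * v) ^ (1 / 4 : ℝ)))
      (K := fun t => ‖pk L t x‖ ^ 3) (hkc.pow 3) (fun v hv => by
        have e1 : HasDerivAt (fun v : ℝ => 1 + 2 * v) 2 v := by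
          have := ((hasDerivAt_id v).const_mul 2).const_add 1
          simpa using this
        have e2 := ((e1.rpow_const (p := 1 / 4) (Or.inl (by positivity))).const_mul 2).const_mul
          (C ^ 3 * s ^ (-(3 / 4) : ℝ))
        refine e2.congr_deriv ?_
        rw [show (1 / 4 - 1 : ℝ) = -(3 / 4) by norm_num]
        ring) (by
        intro v hv
        apply ContinuousAt.continuousWithinAt
        have hv' : (0 : ℝ) ≤ v := hv
        have h0 : (1 + 2 * v : ℝ) ≠ 0 := by positivity
        have h2 : ContinuousAt (fun v : ℝ => 1 + 2 * v) v := by fun_prop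
        exact continuousAt_const.mul (h2.rpow_const (Or.inl h0))) (fun u v hu huv => by
        gcongr) hc1 hc2 (fun t ht => by
        have e1 := hb t ht
        have e2 : 0 ≤ |t - c| := abs_nonneg _
        calc ‖pk L t x‖ ^ 3 ≤ (C * (s * (1 + 2 * |t - c|)) ^ (-(1 / 4) : ℝ)) ^ 3 :=
              pow_le_pow_left₀ (norm_nonneg _) e1 3
          _ = _ := by
              rw [mul_pow, ← Real.rpow_natCast ((s * (1 + 2 * |t - c|)) ^ (-(1 / 4) : ℝ)),
                ← Real.rpow_mul (by positivity), Real.mul_rpow hs0.le (by positivity),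
                show (-(1 / 4) : ℝ) * ((3 : ℕ) : ℝ) = -(3 / 4) by norm_num]
              ring)
    refine h1.trans ?_
    have e3 : 2 * s - s = s := by ring
    simp only [e3]
    have e4 : (1 + 2 * s) ^ (1 / 4 : ℝ) ≤ 2 * s ^ (1 / 4 : ℝ) := by
      have : (2 : ℝ) = 16 ^ (1 / 4 : ℝ) := by
        rw [show (16 : ℝ) = 2 ^ (4 : ℝ) by norm_num, ← Real.rpow_mul (by norm_num)]
        norm_num
      rw [this, ← Real.mul_rpow (by norm_num) hs0.le, ← this]
      apply Real.rpow_le_rpow (by positivity) (by linarith) (by norm_num)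
    have e5 : s ^ (-(3 / 4) : ℝ) * s ^ (1 / 4 : ℝ) = 1 / Real.sqrt s := by
      rw [← Real.rpow_add hs0, Real.sqrt_eq_rpow, eq_div_iff (by positivity), ← Real.rpow_add hs0]
      norm_num
    have e6 : 0 < s ^ (-(3 / 4) : ℝ) := by positivity
    have e7 : (0 : ℝ) < (1 + 2 * 0) ^ (1 / 4 : ℝ) := by positivity
    calc _ ≤ 2 * (C ^ 3 * s ^ (-(3 / 4) : ℝ) * (2 * (2 * s ^ (1 / 4 : ℝ)))) := by
          have a1 : C ^ 3 * s ^ (-(3 / 4) : ℝ) * (2 * (1 + 2 * s) ^ (1 / 4 : ℝ)) ≤
              C ^ 3 * s ^ (-(3 / 4) : ℝ) * (2 * (2 * s ^ (1 / 4 : ℝ))) := by gcongr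
          have a2 : 0 < C ^ 3 * s ^ (-(3 / 4) : ℝ) * (2 * (1 + 2 * 0) ^ (1 / 4 : ℝ)) := by
            positivity
          linarith
      _ = 8 * C ^ 3 * (s ^ (-(3 / 4) : ℝ) * s ^ (1 / 4 : ℝ)) := by ring
      _ = 8 * C ^ 3 / Real.sqrt s := by rw [e5]; ring
      _ ≤ _ := by
          have : 0 < C ^ 4 := by positivity
          gcongr
          linarith
  · -- fourth powers
    have h1 := both (φ := fun v => C ^ 4 / s * (1 + 2 * v)⁻¹)
      (Φ := fun v => C ^ 4 / s * (1 / 2 * Real.log (1 + 2 * v)))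
      (K := fun t => ‖pk L t x‖ ^ 4) (hkc.pow 4) (fun v hv => by
        have e1 : HasDerivAt (fun v : ℝ => 1 + 2 * v) 2 v := by
          have := ((hasDerivAt_id v).const_mul 2).const_add 1
          simpa using this
        have h0 : (1 + 2 * v : ℝ) ≠ 0 := by positivity
        have e2 := ((e1.log h0).const_mul (1 / 2)).const_mul (C ^ 4 / s)
        refine e2.congr_deriv ?_
        field_simp) (by
        intro v hv
        apply ContinuousAt.continuousWithinAt
        have hv' : (0 : ℝ) ≤ v := hv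
        have h0 : (1 + 2 * v : ℝ) ≠ 0 := by positivity
        have h2 : ContinuousAt (fun v : ℝ => 1 + 2 * v) v := by fun_prop
        exact continuousAt_const.mul (h2.inv₀ h0)) (fun u v hu huv => by
        gcongr) hc1 hc2 (fun t ht => by
        have e1 := hb t ht
        have e2 : 0 ≤ |t - c| := abs_nonneg _
        calc ‖pk L t x‖ ^ 4 ≤ (C * (s * (1 + 2 * |t - c|)) ^ (-(1 / 4) : ℝ)) ^ 4 :=
              pow_le_pow_left₀ (norm_nonneg _) e1 4
          _ = _ := by
              rw [mul_pow, ← Real.rpow_natCast ((s * (1 + 2 * |t - c|)) ^ (-(1 / 4) : ℝ)),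
                ← Real.rpow_mul (by positivity),
                show (-(1 / 4) : ℝ) * ((4 : ℕ) : ℝ) = -1 by norm_num, Real.rpow_neg_one, mul_inv]
              ring)
    refine h1.trans ?_
    have e3 : 2 * s - s = s := by ring
    simp only [e3, mul_zero, add_zero, Real.log_one, sub_zero]
    have e4 : Real.log (1 + 2 * s) ≤ 2 + Real.log s := by
      calc Real.log (1 + 2 * s) ≤ Real.log (3 * s) := Real.log_le_log (by positivity) (by linarith)
        _ = Real.log 3 + Real.log s := Real.log_mul (by norm_num) hs0.ne'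
        _ ≤ 2 + Real.log s := by
            have : Real.log 3 ≤ 3 - 1 := Real.log_le_sub_one_of_pos (by norm_num)
            linarith
    have e5 : 0 ≤ Real.log s := Real.log_nonneg hs
    calc 2 * (C ^ 4 / s * (1 / 2 * Real.log (1 + 2 * s))) = C ^ 4 / s * Real.log (1 + 2 * s) := by
          ring
      _ ≤ C ^ 4 / s * (2 * (1 + Real.log s)) := by
          gcongr
          linarith
      _ = 2 * C ^ 4 * (1 + Real.log s) / s := by ring
      _ ≤ _ := by
          have : 0 < C ^ 3 := by positivity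
          gcongr
          linarith

end Pool.Agent.T2h98.QD
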