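import Pool.Agent.T2h98.QD.Stm7
import Pool.Agent.T2h98.QD.JL

/-! The kernel of the free evolution on the cycle: `|J_n(2t)| ≤ C ((1+|t|)(1+|2|t|-|n||))^(-1/4)`. -/

set_option autoImplicit false
set_option linter.unusedSectionVars false

open scoped BigOperators Topology
open MeasureTheory Filter Set

namespace Pool.Agent.T2h98.QD

open Pool.Agent.W788.BK (cr)

namespace PKS

/-- the variation density -/
noncomputable def W (τ c δ θ : ℝ) : ℝ :=
  τ * |Real.cos θ| * (δ / ((c - τ * Real.sin θ) ^ 2 + δ ^ 2))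

variable {τ c δ : ℝ}

theorem den_pos (hδ : 0 < δ) (y : ℝ) : 0 < y ^ 2 + δ ^ 2 := by positivity

theorem W_cont (hδ : 0 < δ) : Continuous (W τ c δ) := by
  unfold W
  have h1 : ∀ θ : ℝ, (c - τ * Real.sin θ) ^ 2 + δ ^ 2 ≠ 0 := fun θ => (den_pos hδ _).ne'
  fun_prop (disch := assumption)

theorem W_nonneg (hτ : 0 ≤ τ) (hδ : 0 < δ) (θ : ℝ) : 0 ≤ W τ c δ θ := by
  unfold W
  have := den_pos hδ (c - τ * Real.sin θ)
  positivity

theorem A_deriv (hδ : 0 < δ) (θ : ℝ) :
    HasDerivAt (fun θ => Real.arctan ((c - τ * Real.sin θ) / δ))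
      (-(τ * Real.cos θ * (δ / ((c - τ * Real.sin θ) ^ 2 + δ ^ 2)))) θ := by
  have h1 : HasDerivAt (fun θ => (c - τ * Real.sin θ) / δ) (-(τ * Real.cos θ) / δ) θ := by
    have := (((Real.hasDerivAt_sin θ).const_mul τ).const_sub c).div_const δ
    exact this
  refine h1.arctan.congr_deriv ?_
  have := den_pos hδ (c - τ * Real.sin θ)
  have h2 : 1 + ((c - τ * Real.sin θ) / δ) ^ 2 ≠ 0 := by positivity
  have h3 : δ ^ 2 + (c - τ * Real.sin θ) ^ 2 ≠ 0 := by positivity
  field_simp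
  rw [add_comm (δ ^ 2)]
  field_simp

theorem W_piece (hδ : 0 < δ) (a b s : ℝ) (hab : a ≤ b) (hs : s = 1 ∨ s = -1)
    (h : ∀ θ ∈ Icc a b, |Real.cos θ| = s * Real.cos θ) : ∫ θ in a..b, W τ c δ θ ≤ Real.pi := by
  have e1 : ∫ θ in a..b, W τ c δ θ = ∫ θ in a..b, (-s) *
      (-(τ * Real.cos θ * (δ / ((c - τ * Real.sin θ) ^ 2 + δ ^ 2)))) := by
    apply intervalIntegral.integral_congr
    intro θ hθ
    rw [uIcc_of_le hab] at hθ
    simp only [W]
    rw [h θ hθ]
    ring
  have hc : Continuous fun θ => -(τ * Real.cos θ * (δ / ((c - τ * Real.sin θ) ^ 2 + δ ^ 2))) := by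
    have h1 : ∀ θ : ℝ, (c - τ * Real.sin θ) ^ 2 + δ ^ 2 ≠ 0 := fun θ => (den_pos hδ _).ne'
    fun_prop (disch := assumption)
  rw [e1, intervalIntegral.integral_const_mul, intervalIntegral.integral_eq_sub_of_hasDerivAt
    (fun θ _ => A_deriv hδ θ) (hc.intervalIntegrable _ _)]
  have a1 := Real.arctan_lt_pi_div_two ((c - τ * Real.sin b) / δ)
  have a2 := Real.neg_pi_div_two_lt_arctan ((c - τ * Real.sin b) / δ)
  have a3 := Real.arctan_lt_pi_div_two ((c - τ * Real.sin a) / δ)
  have a4 := Real.neg_pi_div_two_lt_arctan ((c - τ * Real.sin a) / δ)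
  rcases hs with rfl | rfl <;> linarith

theorem W_total (hδ : 0 < δ) : ∫ θ in (0 : ℝ)..(5 * Real.pi / 2), W τ c δ θ ≤ 3 * Real.pi := by
  have hpi := Real.pi_pos
  have hi : ∀ a b : ℝ, IntervalIntegrable (W τ c δ) volume a b := fun a b =>
    (W_cont hδ).intervalIntegrable a b
  rw [← intervalIntegral.integral_add_adjacent_intervals (hi 0 (3 * Real.pi / 2)) (hi _ _),
    ← intervalIntegral.integral_add_adjacent_intervals (hi 0 (Real.pi / 2)) (hi _ _)]
  have p1 := W_piece (τ := τ) (c := c) hδ 0 (Real.pi / 2) 1 (by positivity) (Or.inl rfl)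
    (fun θ hθ => by
      rw [one_mul, abs_of_nonneg]
      exact Real.cos_nonneg_of_mem_Icc ⟨by linarith [hθ.1], hθ.2⟩)
  have p2 := W_piece (τ := τ) (c := c) hδ (Real.pi / 2) (3 * Real.pi / 2) (-1) (by linarith)
    (Or.inr rfl) (fun θ hθ => by
      rw [neg_one_mul, abs_of_nonpos]
      exact Real.cos_nonpos_of_pi_div_two_le_of_le hθ.1 (by linarith [hθ.2]))
  have p3 := W_piece (τ := τ) (c := c) hδ (3 * Real.pi / 2) (5 * Real.pi / 2) 1 (by linarith)
    (Or.inl rfl) (fun θ hθ => by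
      rw [one_mul, abs_of_nonneg]
      rw [← Real.cos_sub_two_pi]
      exact Real.cos_nonneg_of_mem_Icc ⟨by linarith [hθ.1], by linarith [hθ.2]⟩)
  linarith

theorem W_sub (hτ : 0 ≤ τ) (hδ : 0 < δ) {a b : ℝ} (ha : 0 ≤ a) (hab : a ≤ b)
    (hb : b ≤ 5 * Real.pi / 2) : ∫ θ in a..b, W τ c δ θ ≤ 3 * Real.pi := by
  refine le_trans ?_ (W_total (τ := τ) (c := c) hδ)
  apply intervalIntegral.integral_mono_interval ha hab hb
  · exact Eventually.of_forall fun θ => W_nonneg hτ hδ θ
  · exact (W_cont hδ).intervalIntegrable _ _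

/-- the sample points -/
noncomputable def th (L n : ℕ) : ℝ := 2 * Real.pi * (n + 1 / 2) / L

variable {L : ℕ}

theorem step (F : ℝ → ℂ) (F' : ℝ → ℂ) (hF : ∀ θ, HasDerivAt F (F' θ) θ) (hc : Continuous F')
    {K : ℝ} (hb : ∀ θ, ‖F' θ‖ ≤ K * W τ c δ θ) (hδ : 0 < δ) {a b : ℝ} (hab : a ≤ b) :
    ‖F b - F a‖ ≤ K * ∫ θ in a..b, W τ c δ θ := by
  rw [← intervalIntegral.integral_eq_sub_of_hasDerivAt (fun θ _ => hF θ)
    (hc.intervalIntegrable _ _), ← intervalIntegral.integral_const_mul]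
  refine (intervalIntegral.norm_integral_le_integral_norm hab).trans ?_
  apply intervalIntegral.integral_mono_on hab (hc.norm.intervalIntegrable _ _)
    (((W_cont hδ).const_smul K).intervalIntegrable _ _)
  intro θ _
  exact hb θ

/-- variation over the sample points -/
theorem var_sum (hτ : 0 ≤ τ) (hδ : 0 < δ) (hL : 2 ≤ L) (F : ℝ → ℂ) (F' : ℝ → ℂ)
    (hF : ∀ θ, HasDerivAt F (F' θ) θ) (hc : Continuous F')
    {K : ℝ} (hK : 0 ≤ K) (hb : ∀ θ, ‖F' θ‖ ≤ K * W τ c δ θ) :
    ∑ n ∈ Finset.range L, ‖F (th L (n + 1)) - F (th L n)‖ ≤ K * (3 * Real.pi) := by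
  have hpi := Real.pi_pos
  have hL2 : (2 : ℝ) ≤ L := by exact_mod_cast hL
  have hL0 : (0 : ℝ) < L := by linarith
  have hmono : ∀ n, th L n ≤ th L (n + 1) := by
    intro n
    unfold th
    push_cast
    gcongr
    linarith
  calc _ ≤ ∑ n ∈ Finset.range L, K * ∫ θ in (th L n)..(th L (n + 1)), W τ c δ θ :=
        Finset.sum_le_sum fun n _ => step F F' hF hc hb hδ (hmono n)
    _ = K * ∫ θ in (th L 0)..(th L L), W τ c δ θ := by
        rw [← Finset.mul_sum, intervalIntegral.sum_integral_adjacent_intervals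
          fun k _ => (W_cont hδ).intervalIntegrable _ _]
    _ ≤ K * (3 * Real.pi) := by
        apply mul_le_mul_of_nonneg_left _ hK
        apply W_sub hτ hδ
        · unfold th
          positivity
        · unfold th
          gcongr
          simp
        · unfold th
          rw [div_le_iff₀ hL0]
          nlinarith

/-- Riemann sums -/
theorem riem (hτ : 0 ≤ τ) (hδ : 0 < δ) (hL : 2 ≤ L) (F : ℝ → ℝ) (F' : ℝ → ℝ)
    (hF : ∀ θ, HasDerivAt F (F' θ) θ) (hc : Continuous F')
    (hb : ∀ θ, |F' θ| ≤ W τ c δ θ) :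
    ∑ n ∈ Finset.range L, F (th L n) ≤
      L / (2 * Real.pi) * (∫ θ in (0 : ℝ)..(2 * Real.pi), F θ) + 3 * Real.pi := by
  have hpi := Real.pi_pos
  have hL2 : (2 : ℝ) ≤ L := by exact_mod_cast hL
  have hL0 : (0 : ℝ) < L := by linarith
  obtain ⟨u, hu⟩ : ∃ u : ℕ → ℝ, u = fun n : ℕ => 2 * Real.pi * (n : ℝ) / L := ⟨_, rfl⟩
  have hFc : Continuous F := continuous_iff_continuousAt.2 fun θ => (hF θ).continuousAt
  have hstep : ∀ n, u (n + 1) - u n = 2 * Real.pi / L := by
    intro n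
    rw [hu]
    simp only
    push_cast
    ring
  have hmono : ∀ n, u n ≤ u (n + 1) := by
    intro n
    have := hstep n
    have : 0 < 2 * Real.pi / L := by positivity
    linarith
  have hth : ∀ n, u n ≤ th L n ∧ th L n ≤ u (n + 1) := by
    intro n
    rw [hu]
    unfold th
    dsimp only
    constructor
    · gcongr
      linarith
    · push_cast
      gcongr
      linarith
  have hW0 : ∀ a b : ℝ, a ≤ b → 0 ≤ ∫ θ in a..b, W τ c δ θ := fun a b hab =>
    intervalIntegral.integral_nonneg hab fun θ _ => W_nonneg hτ hδ θ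
  have hFs : ∀ a b : ℝ, a ≤ b → |F b - F a| ≤ ∫ θ in a..b, W τ c δ θ := by
    intro a b hab
    rw [← intervalIntegral.integral_eq_sub_of_hasDerivAt (fun θ _ => hF θ)
      (hc.intervalIntegrable _ _), ← Real.norm_eq_abs]
    refine (intervalIntegral.norm_integral_le_integral_norm hab).trans ?_
    apply intervalIntegral.integral_mono_on hab (hc.norm.intervalIntegrable _ _)
      ((W_cont hδ).intervalIntegrable _ _)
    intro θ _
    exact hb θ
  have hcell : ∀ n, 2 * Real.pi / L * F (th L n) ≤ (∫ θ in (u n)..(u (n + 1)), F θ) +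
      2 * Real.pi / L * ∫ θ in (u n)..(u (n + 1)), W τ c δ θ := by
    intro n
    obtain ⟨t1, t2⟩ := hth n
    have h1 : ∀ v ∈ Icc (u n) (u (n + 1)), F (th L n) ≤ F v +
        ∫ θ in (u n)..(u (n + 1)), W τ c δ θ := by
      intro v hv
      have hsub : ∀ a b : ℝ, u n ≤ a → a ≤ b → b ≤ u (n + 1) →
          ∫ θ in a..b, W τ c δ θ ≤ ∫ θ in (u n)..(u (n + 1)), W τ c δ θ := by
        intro a b h1 h2 h3
        apply intervalIntegral.integral_mono_interval h1 h2 h3
        · exact Eventually.of_forall fun θ => W_nonneg hτ hδ θ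
        · exact (W_cont hδ).intervalIntegrable _ _
      rcases le_total v (th L n) with h | h
      · have e1 := (abs_le.1 (hFs _ _ h)).2
        have e2 := hsub _ _ hv.1 h t2
        linarith
      · have e1 := (abs_le.1 (hFs _ _ h)).1
        have e2 := hsub _ _ t1 h hv.2
        linarith
    have h2 : ∫ _v in (u n)..(u (n + 1)), F (th L n) ≤ ∫ v in (u n)..(u (n + 1)), (F v +
        ∫ θ in (u n)..(u (n + 1)), W τ c δ θ) := by
      apply intervalIntegral.integral_mono_on (hmono n) (by simp)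
        ((hFc.add continuous_const).intervalIntegrable _ _) h1
    rw [intervalIntegral.integral_const, intervalIntegral.integral_add
      (hFc.intervalIntegrable _ _) (by simp), intervalIntegral.integral_const, hstep,
      smul_eq_mul, smul_eq_mul] at h2
    exact h2
  have hsum := Finset.sum_le_sum fun n (_ : n ∈ Finset.range L) => hcell n
  rw [← Finset.mul_sum, Finset.sum_add_distrib, ← Finset.mul_sum,
    intervalIntegral.sum_integral_adjacent_intervals fun k _ => hFc.intervalIntegrable _ _,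
    intervalIntegral.sum_integral_adjacent_intervals
      fun k _ => (W_cont hδ).intervalIntegrable _ _] at hsum
  have e0 : u 0 = 0 := by rw [hu]; simp
  have eL : u L = 2 * Real.pi := by
    rw [hu]
    field_simp
  rw [e0, eL] at hsum
  have hW := W_sub (τ := τ) (c := c) hτ hδ le_rfl (by positivity : (0 : ℝ) ≤ 2 * Real.pi)
    (by linarith)
  have h3 : 0 < L / (2 * Real.pi) := by positivity
  have h4 := mul_le_mul_of_nonneg_left hsum h3.le
  have e1 : L / (2 * Real.pi) * (2 * Real.pi / L * ∑ n ∈ Finset.range L, F (th L n)) =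
      ∑ n ∈ Finset.range L, F (th L n) := by
    field_simp
  have e2 : L / (2 * Real.pi) * ((∫ θ in (0 : ℝ)..(2 * Real.pi), F θ) +
      2 * Real.pi / L * ∫ θ in (0 : ℝ)..(2 * Real.pi), W τ c δ θ) =
      L / (2 * Real.pi) * (∫ θ in (0 : ℝ)..(2 * Real.pi), F θ) +
        ∫ θ in (0 : ℝ)..(2 * Real.pi), W τ c δ θ := by
    field_simp
  rw [e1, e2] at h4
  linarith

theorem sin_eq (θ : ℝ) : ((Real.sin θ : ℝ) : ℂ) = (circleMap 0 1 θ - (circleMap 0 1 θ)⁻¹) /
    (2 * Complex.I) := by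
  have h1 : circleMap 0 1 θ = Complex.exp ((θ : ℂ) * Complex.I) := by
    simp [circleMap]
  rw [h1, ← Complex.exp_neg, Complex.ofReal_sin, Complex.sin]
  have hI := Complex.I_ne_zero
  field_simp
  rw [Complex.I_sq]
  ring_nf

theorem contour_aux {z w1 w2 : ℂ} (hs : w1 + w2 = 2 * Complex.I * z) (hp : w1 * w2 = -1)
    (h1 : ‖w1‖ < 1) (h2 : 1 < ‖w2‖) :
    ∫ θ in (0 : ℝ)..(2 * Real.pi), (z - ((Real.sin θ : ℝ) : ℂ))⁻¹ =
      -2 / (w1 - w2) * (2 * Real.pi * Complex.I) := by
  have hne : w1 - w2 ≠ 0 := by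
    intro h
    rw [sub_eq_zero] at h
    rw [h] at h1
    linarith
  have e1 : ∀ ζ : ℂ, ‖ζ‖ = 1 → ζ - w1 ≠ 0 ∧ ζ - w2 ≠ 0 := by
    intro ζ hζ
    constructor
    · intro h
      rw [sub_eq_zero] at h
      rw [← h] at h1
      linarith
    · intro h
      rw [sub_eq_zero] at h
      rw [← h] at h2
      linarith
  have e2 : ∫ θ in (0 : ℝ)..(2 * Real.pi), (z - ((Real.sin θ : ℝ) : ℂ))⁻¹ =
      ∮ ζ in C(0, 1), (-2 / (w1 - w2)) • ((ζ - w1)⁻¹ - (ζ - w2)⁻¹) := by
    unfold circleIntegral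
    congr 1
    funext θ
    have hζ : ‖circleMap 0 1 θ‖ = 1 := by simp
    have hζ0 : circleMap 0 1 θ ≠ 0 := by
      intro h
      rw [h, norm_zero] at hζ
      exact zero_ne_one hζ
    obtain ⟨g1, g2⟩ := e1 _ hζ
    rw [deriv_circleMap, sin_eq]
    obtain ⟨ζ, hζζ⟩ : ∃ ζ, ζ = circleMap 0 1 θ := ⟨_, rfl⟩
    rw [← hζζ] at g1 g2 hζ0 ⊢
    have hI := Complex.I_ne_zero
    have e3 : z - (ζ - ζ⁻¹) / (2 * Complex.I) = -((ζ - w1) * (ζ - w2)) / (2 * Complex.I * ζ) := by
      have e4 : (ζ - w1) * (ζ - w2) = ζ ^ 2 - 2 * Complex.I * z * ζ - 1 := by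
        rw [← hs]
        linear_combination hp
      rw [e4]
      field_simp
      ring
    rw [e3, inv_div]
    simp only [smul_eq_mul]
    have e5 : (ζ - w1)⁻¹ - (ζ - w2)⁻¹ = (w1 - w2) / ((ζ - w1) * (ζ - w2)) := by
      field_simp
      ring
    rw [e5]
    field_simp
  rw [e2, circleIntegral.integral_smul, smul_eq_mul]
  congr 1
  have c1 : CircleIntegrable (fun ζ : ℂ => (ζ - w1)⁻¹) 0 1 := by
    apply ContinuousOn.circleIntegrable (by norm_num)
    intro ζ hζ
    have hζ1 : ‖ζ‖ = 1 := by simpa using hζ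
    exact ((continuous_id.sub continuous_const).continuousAt.inv₀ (e1 ζ hζ1).1).continuousWithinAt
  have c2 : CircleIntegrable (fun ζ : ℂ => (ζ - w2)⁻¹) 0 1 := by
    apply ContinuousOn.circleIntegrable (by norm_num)
    intro ζ hζ
    have hζ1 : ‖ζ‖ = 1 := by simpa using hζ
    exact ((continuous_id.sub continuous_const).continuousAt.inv₀ (e1 ζ hζ1).2).continuousWithinAt
  rw [circleIntegral.integral_sub c1 c2, circleIntegral.integral_sub_inv_of_mem_ball
    (by simpa using h1)]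
  have c3 : ∀ ζ : ℂ, ‖ζ‖ ≤ 1 → ζ - w2 ≠ 0 := by
    intro ζ hζ h
    rw [sub_eq_zero] at h
    rw [h] at hζ
    linarith
  have c4 : (∮ ζ in C(0, 1), (ζ - w2)⁻¹) = 0 := by
    apply Complex.circleIntegral_eq_zero_of_differentiable_on_off_countable (by norm_num)
      Set.countable_empty
    · intro ζ hζ
      have hζ1 : ‖ζ‖ ≤ 1 := by simpa using hζ
      exact ((continuous_id.sub continuous_const).continuousAt.inv₀ (c3 ζ hζ1)).continuousWithinAt
    · intro ζ hζ
      have hζ1 : ‖ζ‖ < 1 := by simpa using hζ.1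
      exact ((differentiableAt_id.sub_const w2).inv (c3 ζ hζ1.le))
  rw [c4, sub_zero]

theorem contour (a ε β : ℝ) (hε : 0 < ε) (hβ : 0 < β) (h : β ≤ max |(|a| - 1)| ε) :
    ∫ θ in (0 : ℝ)..(2 * Real.pi), ε ^ 2 / ((a - Real.sin θ) ^ 2 + ε ^ 2) ≤
      2 * Real.pi * ε / Real.sqrt β := by
  have hpi := Real.pi_pos
  obtain ⟨z, hz⟩ : ∃ z : ℂ, z = (a : ℂ) + (ε : ℂ) * Complex.I := ⟨_, rfl⟩
  have hzre : z.re = a := by rw [hz]; simp
  have hzim : z.im = ε := by rw [hz]; simp
  obtain ⟨s, hs⟩ : ∃ s : ℂ, s ^ 2 = 1 - z ^ 2 := IsAlgClosed.exists_pow_nat_eq _ (by norm_num)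
  -- the roots
  have key : ∃ w1 w2 : ℂ, w1 + w2 = 2 * Complex.I * z ∧ w1 * w2 = -1 ∧ ‖w1‖ < 1 ∧ 1 < ‖w2‖ ∧
      ‖w1 - w2‖ = 2 * ‖s‖ := by
    have p0 : (Complex.I * z + s) * (Complex.I * z - s) = -1 := by
      linear_combination (z ^ 2) * Complex.I_sq - hs
    have p1 : ‖Complex.I * z + s‖ * ‖Complex.I * z - s‖ = 1 := by
      rw [← norm_mul, p0]
      simp
    have p2 : ‖Complex.I * z + s‖ ≠ 1 := by
      intro h1
      obtain ⟨w, hw⟩ : ∃ w, w = Complex.I * z + s := ⟨_, rfl⟩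
      rw [← hw] at h1 p0
      have h2 : w * (starRingEnd ℂ) w = 1 := by
        rw [Complex.mul_conj']
        rw [h1]
        norm_num
      have hw0 : w ≠ 0 := by
        intro h3
        rw [h3, norm_zero] at h1
        exact zero_ne_one h1
      have h3 : Complex.I * z - s = -(starRingEnd ℂ) w := by
        apply mul_left_cancel₀ hw0
        rw [p0]
        linear_combination h2
      have h4 : 2 * Complex.I * z = w - (starRingEnd ℂ) w := by
        rw [hw] at h3 ⊢
        linear_combination h3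
      have h5 := congrArg Complex.re h4
      simp at h5
      rw [hzim] at h5
      linarith
    rcases lt_or_gt_of_ne p2 with h1 | h1
    · refine ⟨Complex.I * z + s, Complex.I * z - s, by ring, p0, h1, ?_, ?_⟩
      · by_contra hcon
        rw [not_lt] at hcon
        have : ‖Complex.I * z + s‖ * ‖Complex.I * z - s‖ < 1 := by
          have := norm_nonneg (Complex.I * z - s)
          have := norm_nonneg (Complex.I * z + s)
          nlinarith
        linarith
      · rw [show Complex.I * z + s - (Complex.I * z - s) = 2 * s by ring, norm_mul]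
        simp
    · refine ⟨Complex.I * z - s, Complex.I * z + s, by ring, by rw [mul_comm]; exact p0, ?_, h1, ?_⟩
      · by_contra hcon
        rw [not_lt] at hcon
        have : 1 < ‖Complex.I * z + s‖ * ‖Complex.I * z - s‖ := by nlinarith
        linarith
      · rw [show Complex.I * z - s - (Complex.I * z + s) = -(2 * s) by ring, norm_neg, norm_mul]
        simp
  obtain ⟨w1, w2, k1, k2, k3, k4, k5⟩ := key
  have hval := contour_aux k1 k2 k3 k4
  have hnorm : ‖∫ θ in (0 : ℝ)..(2 * Real.pi), (z - ((Real.sin θ : ℝ) : ℂ))⁻¹‖ =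
      2 * Real.pi / ‖s‖ := by
    rw [hval, norm_mul, norm_div, k5]
    simp only [norm_neg, norm_mul, Complex.norm_I, mul_one, Complex.norm_real, Real.norm_eq_abs,
      abs_of_pos hpi, Complex.norm_ofNat]
    by_cases h0 : ‖s‖ = 0
    · rw [h0]; simp
    · field_simp
  have hsβ : Real.sqrt β ≤ ‖s‖ := by
    apply Real.sqrt_le_iff.2
    refine ⟨norm_nonneg _, ?_⟩
    have e1 : ‖s‖ ^ 2 = ‖1 - z‖ * ‖1 + z‖ := by
      rw [← norm_pow, hs, ← norm_mul]
      congr 1
      ring
    rw [e1]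
    have r1 : |1 - a| ≤ ‖1 - z‖ := by
      have := Complex.abs_re_le_norm (1 - z)
      simpa [hzre] using this
    have r2 : |1 + a| ≤ ‖1 + z‖ := by
      have := Complex.abs_re_le_norm (1 + z)
      simpa [hzre] using this
    have r3 : ε ≤ ‖1 - z‖ := by
      have := Complex.abs_im_le_norm (1 - z)
      simp [hzim, abs_of_pos hε] at this
      exact this
    have r4 : ε ≤ ‖1 + z‖ := by
      have := Complex.abs_im_le_norm (1 + z)
      simp [hzim, abs_of_pos hε] at this
      exact this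
    refine h.trans ?_
    rcases le_total 0 a with ha | ha
    · rw [abs_of_nonneg ha]
      have r5 : 1 ≤ ‖1 + z‖ := by
        have := le_abs_self (1 + a)
        linarith
      have r6 : max |a - 1| ε ≤ ‖1 - z‖ := max_le (by rw [abs_sub_comm]; exact r1) r3
      exact r6.trans (le_mul_of_one_le_right (norm_nonneg _) r5)
    · rw [abs_of_nonpos ha]
      have r5 : 1 ≤ ‖1 - z‖ := by
        have := le_abs_self (1 - a)
        linarith
      have r6 : max |(-a - 1)| ε ≤ ‖1 + z‖ := by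
        apply max_le _ r4
        rw [show -a - 1 = -(1 + a) by ring, abs_neg]
        exact r2
      exact r6.trans (le_mul_of_one_le_left (norm_nonneg _) r5)
  have hsq : 0 < Real.sqrt β := Real.sqrt_pos.2 hβ
  -- the imaginary part
  have him : ∀ θ : ℝ, ε ^ 2 / ((a - Real.sin θ) ^ 2 + ε ^ 2) =
      -(ε * ((z - ((Real.sin θ : ℝ) : ℂ))⁻¹).im) := by
    intro θ
    rw [Complex.inv_im, Complex.normSq_apply]
    simp only [Complex.sub_re, Complex.sub_im, Complex.ofReal_re, Complex.ofReal_im, hzre, hzim,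
      sub_zero]
    rw [← sq, ← sq]
    ring
  have hcont : Continuous fun θ : ℝ => (z - ((Real.sin θ : ℝ) : ℂ))⁻¹ := by
    apply Continuous.inv₀ (by fun_prop)
    intro θ h0
    have := congrArg Complex.im h0
    simp [hzim] at this
    linarith
  have hint : ∫ θ in (0 : ℝ)..(2 * Real.pi), ε ^ 2 / ((a - Real.sin θ) ^ 2 + ε ^ 2) =
      -(ε * (∫ θ in (0 : ℝ)..(2 * Real.pi), (z - ((Real.sin θ : ℝ) : ℂ))⁻¹).im) := by
    simp only [him]
    rw [intervalIntegral.integral_neg, intervalIntegral.integral_const_mul]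
    congr 2
    have := Complex.imCLM.intervalIntegral_comp_comm
      (hcont.intervalIntegrable (μ := volume) 0 (2 * Real.pi))
    simpa using this
  rw [hint]
  have h1 := Complex.abs_im_le_norm (∫ θ in (0 : ℝ)..(2 * Real.pi), (z - ((Real.sin θ : ℝ) : ℂ))⁻¹)
  rw [hnorm] at h1
  have h2 : 2 * Real.pi / ‖s‖ ≤ 2 * Real.pi / Real.sqrt β := by gcongr
  have h3 := neg_le_of_abs_le (h1.trans h2)
  have h4 := mul_le_mul_of_nonneg_left h3 hε.le
  have h5 : ε * -(2 * Real.pi / Real.sqrt β) = -(2 * Real.pi * ε / Real.sqrt β) := by ring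
  rw [h5] at h4
  linarith

/-! the multiplier -/

/-- denominator -/
noncomputable def Dn (η y : ℝ) : ℝ := 2 - 2 * Real.cos y + η ^ 2

/-- the multiplier -/
noncomputable def Gm (η y : ℝ) : ℂ :=
  (((1 - Real.cos y : ℝ) : ℂ) + ((Real.sin y : ℝ) : ℂ) * Complex.I) / ((Dn η y : ℝ) : ℂ)

/-- its derivative -/
noncomputable def Gm' (η y : ℝ) : ℂ :=
  ((((Real.sin y : ℝ) : ℂ) + ((Real.cos y : ℝ) : ℂ) * Complex.I) * ((Dn η y : ℝ) : ℂ) -
    (((1 - Real.cos y : ℝ) : ℂ) + ((Real.sin y : ℝ) : ℂ) * Complex.I) *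
      ((2 * Real.sin y : ℝ) : ℂ)) / ((Dn η y : ℝ) : ℂ) ^ 2

theorem Dn_pos {η : ℝ} (hη : 0 < η) (y : ℝ) : 0 < Dn η y := by
  unfold Dn
  have := Real.cos_le_one y
  have : 0 < η ^ 2 := by positivity
  linarith

theorem Dn_cont (η : ℝ) : Continuous (Dn η) := by
  unfold Dn
  fun_prop

theorem Gm_deriv {η : ℝ} (hη : 0 < η) (y : ℝ) : HasDerivAt (Gm η) (Gm' η y) y := by
  have h1 : HasDerivAt (fun y : ℝ => ((1 - Real.cos y : ℝ) : ℂ) +
      ((Real.sin y : ℝ) : ℂ) * Complex.I)
      (((Real.sin y : ℝ) : ℂ) + ((Real.cos y : ℝ) : ℂ) * Complex.I) y := by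
    have a1 : HasDerivAt (fun y : ℝ => 1 - Real.cos y) (Real.sin y) y := by
      have := (Real.hasDerivAt_cos y).const_sub 1
      simpa using this
    exact a1.ofReal_comp.add ((Real.hasDerivAt_sin y).ofReal_comp.mul_const Complex.I)
  have h2 : HasDerivAt (fun y : ℝ => ((Dn η y : ℝ) : ℂ)) ((2 * Real.sin y : ℝ) : ℂ) y := by
    have a1 : HasDerivAt (Dn η) (2 * Real.sin y) y := by
      unfold Dn
      have := (((Real.hasDerivAt_cos y).const_mul 2).const_sub 2).add_const (η ^ 2)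
      refine this.congr_deriv ?_
      ring
    exact a1.ofReal_comp
  have hne : ((Dn η y : ℝ) : ℂ) ≠ 0 := by exact_mod_cast (Dn_pos hη y).ne'
  exact h1.div h2 hne

theorem Gm'_cont {η : ℝ} (hη : 0 < η) : Continuous (Gm' η) := by
  unfold Gm'
  have h1 : ∀ y, ((Dn η y : ℝ) : ℂ) ^ 2 ≠ 0 := by
    intro y
    have : ((Dn η y : ℝ) : ℂ) ≠ 0 := by exact_mod_cast (Dn_pos hη y).ne'
    exact pow_ne_zero 2 this
  have h2 := Dn_cont η
  have h3 : Continuous fun y => ((Dn η y : ℝ) : ℂ) := Complex.continuous_ofReal.comp h2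
  refine Continuous.div ?_ (h3.pow 2) h1
  fun_prop

theorem num_nsq (y : ℝ) : ‖((1 - Real.cos y : ℝ) : ℂ) + ((Real.sin y : ℝ) : ℂ) * Complex.I‖ ^ 2 =
    2 - 2 * Real.cos y := by
  rw [← Complex.normSq_eq_norm_sq, Complex.normSq_apply]
  simp only [Complex.add_re, Complex.add_im, Complex.mul_re, Complex.mul_im, Complex.ofReal_re,
    Complex.ofReal_im, Complex.I_re, Complex.I_im]
  have := Real.sin_sq_add_cos_sq y
  nlinarith

theorem Gm'_norm {η : ℝ} (hη : 0 < η) (y : ℝ) : ‖Gm' η y‖ ≤ 3 / Dn η y := by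
  have hD := Dn_pos hη y
  have h1 : ‖((Real.sin y : ℝ) : ℂ) + ((Real.cos y : ℝ) : ℂ) * Complex.I‖ = 1 := by
    have : ‖((Real.sin y : ℝ) : ℂ) + ((Real.cos y : ℝ) : ℂ) * Complex.I‖ ^ 2 = 1 := by
      rw [← Complex.normSq_eq_norm_sq, Complex.normSq_apply]
      simp only [Complex.add_re, Complex.add_im, Complex.mul_re, Complex.mul_im, Complex.ofReal_re,
        Complex.ofReal_im, Complex.I_re, Complex.I_im]
      have := Real.sin_sq_add_cos_sq y
      nlinarith
    have h0 := norm_nonneg (((Real.sin y : ℝ) : ℂ) + ((Real.cos y : ℝ) : ℂ) * Complex.I)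
    nlinarith
  obtain ⟨m, hm⟩ : ∃ m, m = ‖((1 - Real.cos y : ℝ) : ℂ) + ((Real.sin y : ℝ) : ℂ) * Complex.I‖ :=
    ⟨_, rfl⟩
  have hm2 : m ^ 2 = 2 - 2 * Real.cos y := by rw [hm, num_nsq]
  have hm0 : 0 ≤ m := by rw [hm]; exact norm_nonneg _
  have hs : |Real.sin y| ≤ m := by
    apply abs_le_of_sq_le_sq _ hm0
    rw [hm2]
    have h1 := Real.sin_sq_add_cos_sq y
    have h2 := Real.cos_le_one y
    nlinarith [sq_nonneg (1 - Real.cos y)]
  unfold Gm'
  rw [norm_div, norm_pow, Complex.norm_real, Real.norm_eq_abs, abs_of_pos hD,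
    div_le_div_iff₀ (by positivity) hD]
  have h3 : ‖(((Real.sin y : ℝ) : ℂ) + ((Real.cos y : ℝ) : ℂ) * Complex.I) * ((Dn η y : ℝ) : ℂ) -
    (((1 - Real.cos y : ℝ) : ℂ) + ((Real.sin y : ℝ) : ℂ) * Complex.I) *
      ((2 * Real.sin y : ℝ) : ℂ)‖ ≤ 3 * Dn η y := by
    refine (norm_sub_le _ _).trans ?_
    rw [norm_mul, norm_mul, h1, ← hm, Complex.norm_real, Complex.norm_real, Real.norm_eq_abs,
      Real.norm_eq_abs, abs_of_pos hD, abs_mul, abs_of_pos (by norm_num : (0 : ℝ) < 2)]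
    have h4 : m * (2 * |Real.sin y|) ≤ 2 * m ^ 2 := by nlinarith
    have h5 : m ^ 2 ≤ Dn η y := by
      rw [hm2]
      unfold Dn
      have : 0 ≤ η ^ 2 := sq_nonneg _
      linarith
    linarith
  calc _ ≤ 3 * Dn η y * Dn η y := mul_le_mul_of_nonneg_right h3 hD.le
    _ = _ := by ring

/-- the defect -/
theorem Gm_defect {η : ℝ} (hη : 0 < η) (y : ℝ) :
    1 - (1 - Complex.exp ((y : ℂ) * Complex.I)) * Gm η y = ((η ^ 2 / Dn η y : ℝ) : ℂ) := by
  have hD := Dn_pos hη y
  have hne : ((Dn η y : ℝ) : ℂ) ≠ 0 := by exact_mod_cast hD.ne'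
  have h1 : Complex.exp ((y : ℂ) * Complex.I) = ((Real.cos y : ℝ) : ℂ) +
      ((Real.sin y : ℝ) : ℂ) * Complex.I := by
    rw [Complex.exp_mul_I]
    push_cast
    rfl
  have h2 : (((Real.sin y : ℝ) : ℂ)) ^ 2 + (((Real.cos y : ℝ) : ℂ)) ^ 2 = 1 := by
    have := Real.sin_sq_add_cos_sq y
    exact_mod_cast this
  unfold Gm
  rw [h1]
  push_cast
  rw [eq_div_iff hne]
  have h3 : ((Dn η y : ℝ) : ℂ) = 2 - 2 * ((Real.cos y : ℝ) : ℂ) + (η : ℂ) ^ 2 := by
    unfold Dn
    push_cast
    rfl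
  rw [sub_mul, one_mul, mul_assoc, div_mul_cancel₀ _ hne, h3]
  push_cast at h2 ⊢
  linear_combination -h2 + (Complex.sin (y : ℂ)) ^ 2 * Complex.I_sq

/-- lower bound for the denominator -/
theorem Dn_lower {η δ y : ℝ} (hη : η = 2 / 5 * δ) (hy : |y| ≤ 5 * Real.pi / 4) :
    4 / 25 * (y ^ 2 + δ ^ 2) ≤ Dn η y := by
  have hpi := Real.pi_pos
  have h1 : Real.cos y = 1 - 2 * Real.sin (y / 2) ^ 2 := by
    have := Real.cos_sq' (y / 2)
    have h2 := Real.cos_two_mul (y / 2)
    rw [show 2 * (y / 2) = y by ring] at h2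
    rw [h2, this]
    ring
  have h2 : (2 / 5) * |y / 2| ≤ |Real.sin (y / 2)| := by
    have h3 : |Real.sin (y / 2)| = abs (Real.sin (abs (y / 2))) := by
      rcases le_total 0 (y / 2) with h | h
      · rw [abs_of_nonneg h]
      · rw [abs_of_nonpos h, Real.sin_neg, abs_neg]
    rw [h3]
    obtain ⟨u, hu⟩ : ∃ u, u = |y / 2| := ⟨_, rfl⟩
    have hu0 : 0 ≤ u := by rw [hu]; exact abs_nonneg _
    have hu1 : u ≤ 5 * Real.pi / 8 := by
      rw [hu, abs_div, abs_of_pos (by norm_num : (0 : ℝ) < 2)]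
      linarith
    rw [← hu]
    refine le_trans ?_ (le_abs_self _)
    rcases le_total u (Real.pi / 2) with h | h
    · have := Real.mul_le_sin hu0 h
      refine le_trans ?_ this
      apply mul_le_mul_of_nonneg_right _ hu0
      rw [div_le_div_iff₀ (by norm_num) hpi]
      have := Real.pi_lt_d2
      linarith
    · have h4 : Real.sin u = Real.cos (u - Real.pi / 2) := (Real.cos_sub_pi_div_two u).symm
      rw [h4]
      have h5 := Real.one_sub_sq_div_two_le_cos (x := u - Real.pi / 2)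
      have h6 : u - Real.pi / 2 ≤ Real.pi / 8 := by linarith
      have h7 := Real.pi_lt_d2
      have h8 := Real.pi_gt_d2
      have h9 : (u - Real.pi / 2) ^ 2 ≤ (Real.pi / 8) ^ 2 := by
        apply pow_le_pow_left₀ (by linarith) h6
      nlinarith
  have h3 := mul_self_le_mul_self (by positivity) h2
  rw [abs_mul_abs_self] at h3
  unfold Dn
  rw [h1, hη]
  have h4 : 2 / 5 * |y / 2| * (2 / 5 * |y / 2|) = 4 / 25 * (y ^ 2 / 4) := by
    have : |y / 2| * |y / 2| = (y / 2) * (y / 2) := abs_mul_abs_self _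
    calc _ = 4 / 25 * (|y / 2| * |y / 2|) := by ring
      _ = _ := by rw [this]; ring
  rw [h4] at h3
  nlinarith

/-- summation by parts -/
theorem by_parts (L : ℕ) (E G : ℕ → ℂ) (Δ : ℕ → ℝ)
    (hE : ∀ n, E (n + 1) = E n * Complex.exp ((Δ n : ℂ) * Complex.I)) (hn : ∀ n, ‖E n‖ = 1)
    (h0 : E L = E 0) (hG : G L = G 0) :
    ‖∑ n ∈ Finset.range L, E n‖ ≤ ∑ n ∈ Finset.range L, ‖G (n + 1) - G n‖ +
      ∑ n ∈ Finset.range L, ‖1 - (1 - Complex.exp ((Δ n : ℂ) * Complex.I)) * G n‖ := by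
  have h1 : ∑ n ∈ Finset.range L, (E (n + 1) * G (n + 1) - E n * G n) = 0 := by
    rw [Finset.sum_range_sub (fun n => E n * G n), h0, hG, sub_self]
  have h2 : ∑ n ∈ Finset.range L, E n = ∑ n ∈ Finset.range L, E (n + 1) * (G (n + 1) - G n) +
      ∑ n ∈ Finset.range L, E n * (1 - (1 - Complex.exp ((Δ n : ℂ) * Complex.I)) * G n) := by
    rw [← Finset.sum_add_distrib]
    have h3 : ∀ n ∈ Finset.range L, E (n + 1) * (G (n + 1) - G n) +
        E n * (1 - (1 - Complex.exp ((Δ n : ℂ) * Complex.I)) * G n) =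
        E n + (E (n + 1) * G (n + 1) - E n * G n) := by
      intro n _
      rw [hE n]
      ring
    rw [Finset.sum_congr rfl h3, Finset.sum_add_distrib, h1, add_zero]
  rw [h2]
  refine (norm_add_le _ _).trans (add_le_add ?_ ?_)
  · refine (norm_sum_le _ _).trans (le_of_eq (Finset.sum_congr rfl fun n _ => ?_))
    rw [norm_mul, hn, one_mul]
  · refine (norm_sum_le _ _).trans (le_of_eq (Finset.sum_congr rfl fun n _ => ?_))
    rw [norm_mul, hn, one_mul]

/-- exponential sums with the phase differences `c - τ sin θ` -/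
theorem exp_sum {L : ℕ} {τ c δ : ℝ} (hτ : 0 ≤ τ) (hδ : 0 < δ) (hL : 2 ≤ L)
    (hct : |c| + τ ≤ 5 * Real.pi / 4) (E : ℕ → ℂ)
    (hE : ∀ n, E (n + 1) = E n * Complex.exp (((c - τ * Real.sin (th L n) : ℝ) : ℂ) * Complex.I))
    (hn : ∀ n, ‖E n‖ = 1) (h0 : E L = E 0) :
    ‖∑ n ∈ Finset.range L, E n‖ ≤ 75 / (4 * δ) * (3 * Real.pi) +
      ∑ n ∈ Finset.range L, δ ^ 2 / ((c - τ * Real.sin (th L n)) ^ 2 + δ ^ 2) := by
  have hpi := Real.pi_pos
  have hL0 : (0 : ℝ) < L := by
    have : (2 : ℝ) ≤ L := by exact_mod_cast hL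
    linarith
  obtain ⟨η, hη⟩ : ∃ η, η = 2 / 5 * δ := ⟨_, rfl⟩
  have hη0 : 0 < η := by rw [hη]; positivity
  have hψ : ∀ θ, |c - τ * Real.sin θ| ≤ 5 * Real.pi / 4 := by
    intro θ
    refine (abs_sub _ _).trans (le_trans ?_ hct)
    rw [abs_mul, abs_of_nonneg hτ]
    have := mul_le_mul_of_nonneg_left (Real.abs_sin_le_one θ) hτ
    linarith
  have hlow : ∀ θ, 4 / 25 * ((c - τ * Real.sin θ) ^ 2 + δ ^ 2) ≤ Dn η (c - τ * Real.sin θ) :=
    fun θ => Dn_lower hη (hψ θ)
  obtain ⟨G, hG⟩ : ∃ G : ℝ → ℂ, G = fun θ => Gm η (c - τ * Real.sin θ) := ⟨_, rfl⟩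
  have hG' : ∀ θ, HasDerivAt G (Gm' η (c - τ * Real.sin θ) * ((-(τ * Real.cos θ) : ℝ) : ℂ)) θ := by
    intro θ
    have h1 : HasDerivAt (fun θ => c - τ * Real.sin θ) (-(τ * Real.cos θ)) θ :=
      ((Real.hasDerivAt_sin θ).const_mul τ).const_sub c
    have h2 := (Gm_deriv hη0 (c - τ * Real.sin θ)).scomp θ h1
    rw [hG]
    refine h2.congr_deriv ?_
    rw [Complex.real_smul, mul_comm]
  have hGc : Continuous fun θ => Gm' η (c - τ * Real.sin θ) * ((-(τ * Real.cos θ) : ℝ) : ℂ) := by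
    have h1 : Continuous fun θ : ℝ => c - τ * Real.sin θ := by fun_prop
    exact ((Gm'_cont hη0).comp h1).mul (by fun_prop)
  have hGb : ∀ θ, ‖Gm' η (c - τ * Real.sin θ) * ((-(τ * Real.cos θ) : ℝ) : ℂ)‖ ≤
      75 / (4 * δ) * W τ c δ θ := by
    intro θ
    rw [norm_mul, Complex.norm_real, Real.norm_eq_abs, abs_neg, abs_mul, abs_of_nonneg hτ]
    have h1 := Gm'_norm hη0 (c - τ * Real.sin θ)
    have h2 := den_pos hδ (c - τ * Real.sin θ)
    have h3 : 3 / Dn η (c - τ * Real.sin θ) ≤ 75 / 4 / ((c - τ * Real.sin θ) ^ 2 + δ ^ 2) := by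
      rw [div_le_div_iff₀ (Dn_pos hη0 _) h2]
      have := hlow θ
      linarith
    unfold W
    calc _ ≤ 75 / 4 / ((c - τ * Real.sin θ) ^ 2 + δ ^ 2) * (τ * |Real.cos θ|) := by
          apply mul_le_mul_of_nonneg_right (h1.trans h3) (by positivity)
      _ = _ := by
          field_simp
  have hper : G (th L L) = G (th L 0) := by
    have h1 : th L L = th L 0 + 2 * Real.pi := by
      unfold th
      field_simp
      push_cast
      ring
    rw [hG]
    simp only
    rw [h1, Real.sin_add_two_pi]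
  have h1 := by_parts L E (fun n => G (th L n)) (fun n => c - τ * Real.sin (th L n)) hE hn h0 hper
  refine h1.trans (add_le_add ?_ ?_)
  · exact var_sum hτ hδ hL G _ hG' hGc (by positivity) hGb
  · apply Finset.sum_le_sum
    intro n _
    rw [hG]
    simp only
    rw [Gm_defect hη0, Complex.norm_real, Real.norm_eq_abs,
      abs_of_nonneg (by have := Dn_pos hη0 (c - τ * Real.sin (th L n)); positivity),
      div_le_div_iff₀ (Dn_pos hη0 _) (den_pos hδ _)]
    have h3 := hlow (th L n)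
    have h4 : 0 ≤ δ ^ 2 := sq_nonneg _
    have h5 := mul_le_mul_of_nonneg_left h3 h4
    rw [hη]
    calc _ = δ ^ 2 * (4 / 25 * ((c - τ * Real.sin (th L n)) ^ 2 + δ ^ 2)) := by ring
      _ ≤ δ ^ 2 * Dn η (c - τ * Real.sin (th L n)) := h5
      _ = _ := by rw [hη]




theorem std_norm {L : ℕ} [NeZero L] (a : ZMod L) : ‖(ZMod.stdAddChar a : ℂ)‖ = 1 :=
  AddChar.norm_apply _ _

theorem pk_one (L : ℕ) [NeZero L] (t : ℝ) (x : ZMod L) : ‖pk L t x‖ ≤ 1 := by
  have hL : (0 : ℝ) < L := by exact_mod_cast Nat.pos_of_ne_zero (NeZero.ne L)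
  unfold pk
  rw [norm_mul, norm_inv, Complex.norm_natCast, inv_mul_le_iff₀ hL, mul_one]
  refine (norm_sum_le _ _).trans ?_
  have : ∀ j ∈ (Finset.univ : Finset (ZMod L)), ‖Complex.exp (((2 * t * cr j : ℝ) : ℂ) * Complex.I) *
      (ZMod.stdAddChar (j * x) : ℂ)‖ ≤ 1 := by
    intro j _
    rw [norm_mul, std_norm, mul_one, Complex.norm_exp_ofReal_mul_I]
  refine (Finset.sum_le_sum this).trans ?_
  rw [Finset.sum_const, Finset.card_univ, ZMod.card, nsmul_eq_mul, mul_one]

theorem pk_neg (L : ℕ) [NeZero L] (t : ℝ) (x : ZMod L) : ‖pk L (-t) x‖ = ‖pk L t (-x)‖ := by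
  have h1 : pk L (-t) x = (starRingEnd ℂ) (pk L t (-x)) := by
    unfold pk
    rw [map_mul, map_inv₀, Complex.conj_natCast, map_sum]
    congr 1
    refine Finset.sum_congr rfl fun j _ => ?_
    rw [(starRingEnd ℂ).map_mul, ← AddChar.map_neg_eq_conj, show -(j * -x) = j * x by ring]
    congr 1
    rw [← Complex.exp_conj]
    congr 1
    rw [(starRingEnd ℂ).map_mul, Complex.conj_I, Complex.conj_ofReal]
    push_cast
    ring
  rw [h1, RCLike.norm_conj]

theorem pk_le (L : ℕ) [NeZero L] (t : ℝ) (x : ZMod L) (ht : 0 ≤ t) (htL : 16 * (1 + t) ≤ L)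
    (δ : ℝ) (hδ : 0 < δ) : ‖pk L t x‖ ≤ (L : ℝ)⁻¹ * (75 / (4 * δ) * (3 * Real.pi) +
      ∑ n ∈ Finset.range L, δ ^ 2 / ((2 * Real.pi * ((x.valMinAbs : ℤ) : ℝ) / L -
        4 * t * Real.sin (Real.pi / L) * Real.sin (th L n)) ^ 2 + δ ^ 2)) := by
  have hpi := Real.pi_pos
  have hL16 : (16 : ℝ) ≤ L := by linarith
  have hL0 : (0 : ℝ) < L := by linarith
  have hL2 : 2 ≤ L := by
    have : (2 : ℝ) ≤ L := by linarith
    exact_mod_cast this
  obtain ⟨y, hy⟩ : ∃ y : ℤ, y = x.valMinAbs := ⟨_, rfl⟩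
  have hxy : ((y : ℤ) : ZMod L) = x := by rw [hy]; exact ZMod.coe_valMinAbs x
  have hyL : |(y : ℝ)| ≤ L / 2 := by
    have h1 := ZMod.valMinAbs_mem_Ioc x
    rw [← hy] at h1
    have h2 : -(L : ℝ) < y * 2 := by exact_mod_cast h1.1
    have h3 : (y : ℝ) * 2 ≤ L := by exact_mod_cast h1.2
    rw [abs_le]
    constructor <;> linarith
  rw [← hy]
  have hπL : Real.pi / L ≤ Real.pi / 16 := by gcongr
  have hs0 : 0 ≤ Real.sin (Real.pi / L) := Real.sin_nonneg_of_nonneg_of_le_pi (by positivity)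
    (by linarith)
  have hs1 : Real.sin (Real.pi / L) ≤ Real.pi / L := Real.sin_le (by positivity)
  obtain ⟨E, hE⟩ : ∃ E : ℕ → ℂ, E = fun n : ℕ => Complex.exp
      (((2 * t * Real.cos (2 * Real.pi * n / L) + 2 * Real.pi * n * y / L : ℝ) : ℂ) * Complex.I) :=
    ⟨_, rfl⟩
  have h1 : pk L t x = (L : ℂ)⁻¹ * ∑ n ∈ Finset.range L, E n := by
    unfold pk
    rw [JL0.sum_zmod]
    congr 1
    refine Finset.sum_congr rfl fun n _ => ?_
    rw [JL0.cr_nat, hE]
    simp only
    have h2 : ((n : ℕ) : ZMod L) * x = ((((n : ℤ) * y : ℤ)) : ZMod L) := by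
      push_cast
      rw [hxy]
    rw [h2, ZMod.stdAddChar_coe, ← Complex.exp_add]
    congr 1
    push_cast
    ring
  rw [h1, norm_mul, norm_inv, Complex.norm_natCast]
  apply mul_le_mul_of_nonneg_left _ (inv_nonneg.2 hL0.le)
  refine exp_sum (by positivity) hδ hL2 ?_ E ?_ ?_ ?_
  · have e1 : |2 * Real.pi * (y : ℝ) / L| ≤ Real.pi := by
      rw [abs_div, abs_mul, abs_of_pos (by positivity : 0 < 2 * Real.pi), abs_of_pos hL0,
        div_le_iff₀ hL0]
      have := mul_le_mul_of_nonneg_left hyL (by positivity : 0 ≤ 2 * Real.pi)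
      linarith
    have e2 : 4 * t * Real.sin (Real.pi / L) ≤ Real.pi / 4 := by
      calc 4 * t * Real.sin (Real.pi / L) ≤ 4 * t * (Real.pi / L) := by gcongr
        _ ≤ Real.pi / 4 := by
          rw [mul_div_assoc', div_le_div_iff₀ hL0 (by norm_num)]
          nlinarith
    linarith
  · intro n
    rw [hE]
    simp only
    rw [← Complex.exp_add]
    congr 1
    have e1 : Real.cos (2 * Real.pi * ((n + 1 : ℕ) : ℝ) / L) - Real.cos (2 * Real.pi * n / L) =
        -2 * Real.sin (th L n) * Real.sin (Real.pi / L) := by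
      have q1 : (2 * Real.pi * ((n + 1 : ℕ) : ℝ) / L + 2 * Real.pi * n / L) / 2 = th L n := by
        unfold th
        push_cast
        ring
      have q2 : (2 * Real.pi * ((n + 1 : ℕ) : ℝ) / L - 2 * Real.pi * n / L) / 2 = Real.pi / L := by
        push_cast
        ring
      rw [Real.cos_sub_cos, q1, q2]
    have e2 : 2 * t * Real.cos (2 * Real.pi * ((n + 1 : ℕ) : ℝ) / L) +
        2 * Real.pi * ((n + 1 : ℕ) : ℝ) * y / L =
        (2 * t * Real.cos (2 * Real.pi * n / L) + 2 * Real.pi * n * y / L) +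
        (2 * Real.pi * y / L - 4 * t * Real.sin (Real.pi / L) * Real.sin (th L n)) := by
      push_cast at e1 ⊢
      linear_combination (2 * t) * e1
    rw [e2]
    push_cast
    ring
  · intro n
    rw [hE]
    exact Complex.norm_exp_ofReal_mul_I _
  · rw [hE]
    simp only
    have e1 : 2 * Real.pi * (L : ℝ) / L = 2 * Real.pi := by field_simp
    have e2 : 2 * Real.pi * (L : ℝ) * y / L = y * (2 * Real.pi) := by field_simp
    rw [e1, e2, Real.cos_two_pi]
    have e3 : (((2 * t * 1 + y * (2 * Real.pi) : ℝ) : ℂ) * Complex.I) =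
        ((2 * t : ℝ) : ℂ) * Complex.I + (y : ℂ) * (2 * Real.pi * Complex.I) := by
      push_cast
      ring
    rw [e3, Complex.exp_add, Complex.exp_int_mul_two_pi_mul_I, mul_one]
    congr 2
    push_cast
    simp

/-- the derivative of the density -/
theorem F_deriv {τ c δ : ℝ} (hτ : 0 ≤ τ) (hδ : 0 < δ) :
    ∃ F' : ℝ → ℝ, Continuous F' ∧ (∀ θ, HasDerivAt (fun θ => δ ^ 2 /
      ((c - τ * Real.sin θ) ^ 2 + δ ^ 2)) (F' θ) θ) ∧ ∀ θ, |F' θ| ≤ W τ c δ θ := by
  have hne : ∀ θ : ℝ, (c - τ * Real.sin θ) ^ 2 + δ ^ 2 ≠ 0 := fun θ => (den_pos hδ _).ne'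
  refine ⟨fun θ => τ * Real.cos θ * (δ / ((c - τ * Real.sin θ) ^ 2 + δ ^ 2)) *
    (2 * (c - τ * Real.sin θ) * δ / ((c - τ * Real.sin θ) ^ 2 + δ ^ 2)), ?_, ?_, ?_⟩
  · fun_prop (disch := assumption)
  · intro θ
    have h1 : HasDerivAt (fun θ => c - τ * Real.sin θ) (-(τ * Real.cos θ)) θ :=
      ((Real.hasDerivAt_sin θ).const_mul τ).const_sub c
    have h2 : HasDerivAt (fun θ => (c - τ * Real.sin θ) ^ 2 + δ ^ 2)
        (2 * (c - τ * Real.sin θ) * (-(τ * Real.cos θ))) θ := by
      have := (h1.pow 2).add_const (δ ^ 2)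
      refine this.congr_deriv ?_
      push_cast
      ring
    have h3 := (hasDerivAt_const θ (δ ^ 2)).div h2 (hne θ)
    refine h3.congr_deriv ?_
    have := hne θ
    field_simp
    ring
  · intro θ
    have hp := den_pos hδ (c - τ * Real.sin θ)
    have h1 : |2 * (c - τ * Real.sin θ) * δ / ((c - τ * Real.sin θ) ^ 2 + δ ^ 2)| ≤ 1 := by
      rw [abs_div, abs_of_pos hp, div_le_one hp, abs_le]
      constructor
      · nlinarith [sq_nonneg (c - τ * Real.sin θ + δ)]
      · nlinarith [sq_nonneg (c - τ * Real.sin θ - δ)]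
    simp only
    rw [abs_mul, abs_mul, abs_mul, abs_of_nonneg hτ, abs_of_pos (div_pos hδ hp)]
    unfold W
    have h2 : 0 ≤ τ * |Real.cos θ| * (δ / ((c - τ * Real.sin θ) ^ 2 + δ ^ 2)) := by positivity
    exact mul_le_of_le_one_right h2 h1

/-- the sum of the density -/
theorem dens_sum {L : ℕ} {τ c ε β : ℝ} (hL : 2 ≤ L) (hτ : 0 < τ) (hε : 0 < ε) (hβ : 0 < β)
    (h : β ≤ max |(|c / τ| - 1)| ε) :
    ∑ n ∈ Finset.range L, (τ * ε) ^ 2 / ((c - τ * Real.sin (th L n)) ^ 2 + (τ * ε) ^ 2) ≤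
      L * (ε / Real.sqrt β) + 3 * Real.pi := by
  have hpi := Real.pi_pos
  have hδ : 0 < τ * ε := mul_pos hτ hε
  obtain ⟨F', hc, hF, hb⟩ := F_deriv (c := c) hτ.le hδ
  have h1 := riem hτ.le hδ hL _ F' hF hc hb
  refine h1.trans ?_
  have h2 : ∫ θ in (0 : ℝ)..(2 * Real.pi), (τ * ε) ^ 2 / ((c - τ * Real.sin θ) ^ 2 + (τ * ε) ^ 2) ≤
      2 * Real.pi * ε / Real.sqrt β := by
    refine le_trans (le_of_eq ?_) (contour (c / τ) ε β hε hβ h)
    congr 1
    funext θ
    have e1 : (c - τ * Real.sin θ) ^ 2 + (τ * ε) ^ 2 =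
        τ ^ 2 * ((c / τ - Real.sin θ) ^ 2 + ε ^ 2) := by
      field_simp
    rw [e1, mul_pow, mul_div_mul_left _ _ (by positivity)]
  have h3 : 0 ≤ L / (2 * Real.pi) := by positivity
  have h4 := mul_le_mul_of_nonneg_left h2 h3
  have h5 : L / (2 * Real.pi) * (2 * Real.pi * ε / Real.sqrt β) = L * (ε / Real.sqrt β) := by
    field_simp
  rw [h5] at h4
  linarith

theorem four {r s : ℝ} (hs : 0 ≤ s) (h : r ^ 4 ≤ s ^ 4) : r ≤ s :=
  le_of_pow_le_pow_left₀ (by norm_num) hs h

/-- the bound for `t ≥ 0` -/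
theorem pk_pos (L : ℕ) [NeZero L] (t : ℝ) (x : ZMod L) (ht : 0 ≤ t) (htL : 16 * (1 + t) ≤ L)
    (r : ℝ) (hr : 0 < r)
    (hr4 : r ^ 4 = (1 + t) * (1 + abs (2 * t - |((x.valMinAbs : ℤ) : ℝ)|))) :
    ‖pk L t x‖ ≤ 1000 / r := by
  have hpi := Real.pi_pos
  have hpi2 := Real.pi_lt_d2
  have hpi3 := Real.pi_gt_d2
  have hL16 : (16 : ℝ) ≤ L := by linarith
  have hL0 : (0 : ℝ) < L := by linarith
  have hL2 : 2 ≤ L := by
    have : (2 : ℝ) ≤ L := by linarith
    exact_mod_cast this
  obtain ⟨X, hX⟩ : ∃ X : ℝ, X = |((x.valMinAbs : ℤ) : ℝ)| := ⟨_, rfl⟩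
  rw [← hX] at hr4
  have hX0 : 0 ≤ X := by rw [hX]; exact abs_nonneg _
  obtain ⟨c, hc⟩ : ∃ c : ℝ, c = 2 * Real.pi * ((x.valMinAbs : ℤ) : ℝ) / L := ⟨_, rfl⟩
  obtain ⟨τ, hτ⟩ : ∃ τ : ℝ, τ = 4 * t * Real.sin (Real.pi / L) := ⟨_, rfl⟩
  have hcX : |c| = 2 * Real.pi * X / L := by
    rw [hc, hX, abs_div, abs_mul, abs_of_pos (by positivity : 0 < 2 * Real.pi), abs_of_pos hL0]
  have hπL : Real.pi / L ≤ Real.pi / 16 := by gcongr
  have hs0 : 0 ≤ Real.sin (Real.pi / L) := Real.sin_nonneg_of_nonneg_of_le_pi (by positivity)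
    (by linarith)
  have hs1 : Real.sin (Real.pi / L) ≤ Real.pi / L := Real.sin_le (by positivity)
  have hτ0 : 0 ≤ τ := by rw [hτ]; positivity
  have hτ1 : τ * L ≤ 4 * Real.pi * t := by
    rw [hτ]
    calc 4 * t * Real.sin (Real.pi / L) * L ≤ 4 * t * (Real.pi / L) * L := by gcongr
      _ = _ := by field_simp
  have hle := pk_le L t x ht htL
  rw [← hc, ← hτ] at hle
  have hr1 : 1 ≤ r := by
    apply four hr.le
    rw [hr4, one_pow]
    have : 0 ≤ |2 * t - X| := abs_nonneg _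
    nlinarith
  -- the trivial case
  have htriv : (1 + t) * (1 + |2 * t - X|) ≤ 16 → ‖pk L t x‖ ≤ 1000 / r := by
    intro h
    have h1 : r ≤ 2 := by
      apply four (by norm_num)
      rw [hr4]
      linarith
    refine (pk_one L t x).trans ?_
    rw [le_div_iff₀ hr]
    linarith
  by_cases hXt : 4 * t ≤ X
  · by_cases hX1 : 1 ≤ X
    · -- far away
      obtain ⟨p, hp⟩ : ∃ p : ℝ, p = X ^ (1 / 4 : ℝ) := ⟨_, rfl⟩
      have hp4 : p ^ 4 = X := by
        rw [hp, ← Real.rpow_natCast, ← Real.rpow_mul hX0]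
        norm_num
      have hp1 : 1 ≤ p := by
        rw [hp]
        exact Real.one_le_rpow hX1 (by norm_num)
      have hp0 : 0 < p := by linarith
      have h1 := hle (p ^ 3 / L) (by positivity)
      have hsum : ∑ n ∈ Finset.range L, (p ^ 3 / L) ^ 2 /
          ((c - τ * Real.sin (th L n)) ^ 2 + (p ^ 3 / L) ^ 2) ≤ L * (1 / p ^ 2) := by
        have h2 : ∀ n ∈ Finset.range L, (p ^ 3 / L) ^ 2 /
            ((c - τ * Real.sin (th L n)) ^ 2 + (p ^ 3 / L) ^ 2) ≤ 1 / p ^ 2 := by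
          intro n _
          have h3 : X / L ≤ |c - τ * Real.sin (th L n)| := by
            have h4 : |τ * Real.sin (th L n)| ≤ Real.pi * X / L := by
              rw [abs_mul, abs_of_nonneg hτ0, le_div_iff₀ hL0]
              have h5 := Real.abs_sin_le_one (th L n)
              calc τ * |Real.sin (th L n)| * L ≤ τ * 1 * L := by gcongr
                _ ≤ 4 * Real.pi * t := by linarith
                _ ≤ Real.pi * X := by nlinarith
            have h5 := abs_sub_abs_le_abs_sub c (τ * Real.sin (th L n))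
            rw [hcX] at h5
            have h6 : 2 * Real.pi * X / L = Real.pi * X / L + Real.pi * X / L := by ring
            have h7 : X / L ≤ Real.pi * X / L := by
              gcongr
              nlinarith
            linarith
          have h4 : (X / L) ^ 2 ≤ (c - τ * Real.sin (th L n)) ^ 2 := by
            rw [← sq_abs (c - τ * Real.sin (th L n))]
            exact pow_le_pow_left₀ (by positivity) h3 2
          rw [div_le_div_iff₀ (by positivity) (by positivity)]
          have h5 : (p ^ 3 / L) ^ 2 * p ^ 2 = (X / L) ^ 2 := by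
            rw [← hp4]
            ring
          rw [h5]
          have : 0 ≤ (p ^ 3 / L) ^ 2 := by positivity
          linarith
        refine (Finset.sum_le_sum h2).trans_eq ?_
        rw [Finset.sum_const, Finset.card_range, nsmul_eq_mul]
      have h2 : ‖pk L t x‖ ≤ 225 * Real.pi / 4 / p ^ 3 + 1 / p ^ 2 := by
        refine h1.trans ?_
        calc _ ≤ (L : ℝ)⁻¹ * (75 / (4 * (p ^ 3 / L)) * (3 * Real.pi) + L * (1 / p ^ 2)) := by
              gcongr
          _ = _ := by
              field_simp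
              ring
      have h3 : 1 / p ^ 3 ≤ 1 / p ^ 2 := by
        apply one_div_le_one_div_of_le (by positivity)
        exact pow_le_pow_right₀ hp1 (by norm_num)
      have h4 : ‖pk L t x‖ ≤ 200 * (1 / p ^ 2) := by
        have e1 : 225 * Real.pi / 4 / p ^ 3 = 225 * Real.pi / 4 * (1 / p ^ 3) := by ring
        rw [e1] at h2
        have e2 : 225 * Real.pi / 4 * (1 / p ^ 3) ≤ 180 * (1 / p ^ 2) := by
          have : 0 < 1 / p ^ 3 := by positivity
          nlinarith
        have e3 : 0 < 1 / p ^ 2 := by positivity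
        linarith
      have h5 : r ≤ 2 * p ^ 2 := by
        apply four (by positivity)
        rw [hr4]
        have e1 : |2 * t - X| ≤ X := by
          rw [abs_le]
          constructor <;> linarith
        calc (1 + t) * (1 + |2 * t - X|) ≤ (1 + X) * (1 + X) := by
              gcongr
              linarith
          _ ≤ (2 * X) * (2 * X) := by nlinarith
          _ = 4 * (p ^ 4) * (p ^ 4) := by rw [hp4]; ring
          _ ≤ (2 * p ^ 2) ^ 4 := by
              have : 0 < p ^ 8 := by positivity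
              nlinarith
      refine h4.trans ?_
      rw [mul_one_div, div_le_div_iff₀ (by positivity) hr]
      have : 0 < p ^ 2 := by positivity
      nlinarith
    · -- `x = 0`
      have hX00 : X = 0 := by
        rw [hX] at hX1 ⊢
        rw [not_le] at hX1
        have h1 : |x.valMinAbs| < 1 := by exact_mod_cast hX1
        rw [Int.abs_lt_one_iff] at h1
        rw [h1]
        simp
      have ht0 : t = 0 := by linarith
      apply htriv
      rw [hX00, ht0]
      norm_num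
  · rw [not_le] at hXt
    by_cases ht1 : 1 ≤ t
    · -- the main case
      have ht0 : 0 < t := by linarith
      have hsl : 2 / Real.pi * (Real.pi / L) ≤ Real.sin (Real.pi / L) :=
        Real.mul_le_sin (by positivity) (by linarith)
      have hτ2 : 8 * t ≤ τ * L := by
        rw [hτ]
        calc 8 * t = 4 * t * (2 / Real.pi * (Real.pi / L)) * L := by field_simp; ring
          _ ≤ 4 * t * Real.sin (Real.pi / L) * L := by gcongr
      have hτ3 : 4 * Real.pi * t - 1 ≤ τ * L := by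
        have h1 := Real.sin_gt_sub_cube (x := Real.pi / L) (by positivity)
        have h2 : 4 * t * (Real.pi / L - (Real.pi / L) ^ 3 / 6) * L ≤ τ * L := by
          rw [hτ]
          gcongr
        have h3 : 4 * t * (Real.pi / L - (Real.pi / L) ^ 3 / 6) * L =
            4 * Real.pi * t - 2 / 3 * t * Real.pi ^ 3 / L ^ 2 := by
          field_simp
          ring
        rw [h3] at h2
        have h4 : 2 / 3 * t * Real.pi ^ 3 / L ^ 2 ≤ 1 := by
          rw [div_le_one (by positivity)]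
          have h5 : Real.pi ^ 3 ≤ 32 := by
            calc Real.pi ^ 3 ≤ 3.15 ^ 3 := pow_le_pow_left₀ hpi.le hpi2.le 3
              _ ≤ 32 := by norm_num
          have h6 : 16 * t ≤ L := by linarith
          calc 2 / 3 * t * Real.pi ^ 3 ≤ 2 / 3 * t * 32 := by gcongr
            _ ≤ 16 * (2 * t) := by linarith
            _ ≤ L * L := by gcongr; linarith
            _ = L ^ 2 := by ring
        linarith
      have hτp : 0 < τ := by
        by_contra hcon
        have : τ = 0 := le_antisymm (not_lt.1 hcon) hτ0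
        rw [this] at hτ2
        linarith
      obtain ⟨q, hq⟩ : ∃ q : ℝ, q = 1 + |2 * t - X| := ⟨_, rfl⟩
      rw [← hq] at hr4
      have hq1 : 1 ≤ q := by
        rw [hq]
        have := abs_nonneg (2 * t - X)
        linarith
      have hq0 : 0 < q := by linarith
      obtain ⟨ε, hε⟩ : ∃ ε : ℝ, ε = r / t := ⟨_, rfl⟩
      have hε0 : 0 < ε := by rw [hε]; positivity
      obtain ⟨β, hβ⟩ : ∃ β : ℝ, β = q / (8 * t) := ⟨_, rfl⟩
      have hβ0 : 0 < β := by rw [hβ]; positivity
      have hβm : β ≤ max |(|c / τ| - 1)| ε := by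
        by_cases hq2 : q ≤ 2
        · apply le_max_of_le_right
          rw [hβ, hε, div_le_div_iff₀ (by positivity) ht0]
          nlinarith
        · apply le_max_of_le_left
          rw [not_le] at hq2
          have e1 : |c / τ| - 1 = (2 * Real.pi * X - τ * L) / (τ * L) := by
            rw [abs_div, abs_of_pos hτp, hcX]
            field_simp
          have hτL : 0 < τ * L := by positivity
          rw [e1, abs_div, abs_of_pos hτL, hβ, div_le_div_iff₀ (by positivity) hτL]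
          have e2 : 2 * q ≤ |2 * Real.pi * X - τ * L| := by
            have e3 : 2 * Real.pi * (q - 1) ≤ |2 * Real.pi * X - 4 * Real.pi * t| := by
              have : 2 * Real.pi * X - 4 * Real.pi * t = -(2 * Real.pi * (2 * t - X)) := by ring
              rw [this, abs_neg, abs_mul, abs_of_pos (by positivity : 0 < 2 * Real.pi), hq]
              apply le_of_eq
              ring
            have e4 : |2 * Real.pi * X - 4 * Real.pi * t| ≤ |2 * Real.pi * X - τ * L| + 1 := by
              have e5 : 2 * Real.pi * X - 4 * Real.pi * t =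
                  (2 * Real.pi * X - τ * L) + (τ * L - 4 * Real.pi * t) := by ring
              rw [e5]
              refine (abs_add_le _ _).trans ?_
              have e6 : |τ * L - 4 * Real.pi * t| ≤ 1 := by
                rw [abs_le]
                constructor <;> linarith
              linarith
            nlinarith
          calc q * (τ * L) ≤ q * (4 * Real.pi * t) := by gcongr
            _ ≤ 2 * q * (8 * t) := by
                have : 0 < q * t := by positivity
                nlinarith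
            _ ≤ |2 * Real.pi * X - τ * L| * (8 * t) := by gcongr
      have h1 := hle (τ * ε) (by positivity)
      have h2 := dens_sum hL2 hτp hε0 hβ0 hβm
      have hrL : r ≤ L := by
        apply four hL0.le
        rw [hr4]
        have e1 : |2 * t - X| ≤ 2 * t := by
          rw [abs_le]
          constructor <;> linarith
        have e2 : q ≤ L := by rw [hq]; linarith
        have e3 : 1 + t ≤ L := by linarith
        calc (1 + t) * q ≤ L * L := by gcongr
          _ = (L : ℝ) ^ 2 := by ring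
          _ ≤ (L : ℝ) ^ 4 := pow_le_pow_right₀ (by linarith) (by norm_num)
      have h3 : ‖pk L t x‖ ≤ 75 / (4 * (τ * ε)) * (3 * Real.pi) / L + ε / Real.sqrt β +
          3 * Real.pi / L := by
        refine h1.trans ?_
        calc _ ≤ (L : ℝ)⁻¹ * (75 / (4 * (τ * ε)) * (3 * Real.pi) +
              (L * (ε / Real.sqrt β) + 3 * Real.pi)) := by gcongr
          _ = _ := by
              field_simp
              ring
      have k1 : 75 / (4 * (τ * ε)) * (3 * Real.pi) / L ≤ 100 / r := by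
        have e1 : 75 / (4 * (τ * ε)) * (3 * Real.pi) / L = 225 * Real.pi / 4 * t / (τ * L) / r := by
          rw [hε]
          field_simp
          ring
        rw [e1]
        gcongr
        rw [div_le_iff₀ (by positivity)]
        nlinarith
      have k2 : ε / Real.sqrt β ≤ 4 / r := by
        have hsb : 0 < Real.sqrt β := Real.sqrt_pos.2 hβ0
        rw [div_le_div_iff₀ hsb hr]
        apply le_of_sq_le_sq _ (by positivity)
        rw [mul_pow 4, Real.sq_sqrt hβ0.le, hε, hβ]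
        have e1 : (r / t * r) ^ 2 = r ^ 4 / t ^ 2 := by ring
        rw [e1, hr4]
        have e2 : (4 : ℝ) ^ 2 * (q / (8 * t)) = 2 * q * t / t ^ 2 := by
          field_simp
          ring
        rw [e2]
        apply div_le_div_of_nonneg_right _ (by positivity)
        have : 0 ≤ (t - 1) * q := mul_nonneg (by linarith) hq0.le
        linarith
      have k3 : 3 * Real.pi / L ≤ 10 / r := by
        rw [div_le_div_iff₀ hL0 hr]
        nlinarith
      refine h3.trans ((add_le_add (add_le_add k1 k2) k3).trans ?_)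
      rw [← add_div, ← add_div]
      gcongr
      norm_num
    · apply htriv
      rw [not_le] at ht1
      have e1 : |2 * t - X| ≤ 4 := by
        rw [abs_le]
        constructor <;> linarith
      nlinarith [abs_nonneg (2 * t - X)]

end PKS

open PKS in
/-- **the kernel bound** -/
theorem pkb : T_PK := by
  refine ⟨1000, by norm_num, ?_⟩
  intro L _ t x htL
  obtain ⟨Q, hQ⟩ : ∃ Q : ℝ, Q = (1 + |t|) * (1 + abs (2 * |t| - |((x.valMinAbs : ℤ) : ℝ)|)) :=
    ⟨_, rfl⟩
  have hQ1 : 1 ≤ Q := by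
    rw [hQ]
    have h1 := abs_nonneg t
    have h2 := abs_nonneg (2 * |t| - |((x.valMinAbs : ℤ) : ℝ)|)
    nlinarith
  obtain ⟨r, hr⟩ : ∃ r : ℝ, r = Q ^ (1 / 4 : ℝ) := ⟨_, rfl⟩
  have hr0 : 0 < r := by rw [hr]; positivity
  have hr4 : r ^ 4 = Q := by
    rw [hr, ← Real.rpow_natCast, ← Real.rpow_mul (by linarith)]
    norm_num
  have e1 : Q ^ (-(1 / 4) : ℝ) = 1 / r := by
    rw [Real.rpow_neg (by linarith), ← hr, one_div]
  rw [← hQ, e1, mul_one_div]
  rcases le_total 0 t with h | h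
  · rw [abs_of_nonneg h] at htL hQ
    exact pk_pos L t x h htL r hr0 (by rw [hr4, hQ])
  · have e2 : t = -|t| := by rw [abs_of_nonpos h, neg_neg]
    rw [e2, pk_neg]
    have e3 : |(((-x).valMinAbs : ℤ) : ℝ)| = |((x.valMinAbs : ℤ) : ℝ)| := by
      have := ZMod.natAbs_valMinAbs_neg x
      rw [← Int.cast_abs, ← Int.cast_abs, Int.abs_eq_natAbs, Int.abs_eq_natAbs, this]
    exact pk_pos L |t| (-x) (abs_nonneg t) htL r hr0 (by rw [hr4, hQ, e3])

end Pool.Agent.T2h98.QD
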