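import Pool.Agent.T2h98.QD.Fin2
import Pool.Agent.T2h98.QD.Scal2
import Pool.Agent.T2h98.QD.Prob2
import Pool.Agent.T2h98.QD.Emb
import Pool.Agent.T2h98.QD.SetB
import Pool.Agent.T2h98.QD.PKI
import Pool.Agent.T2h98.QD.PKb
import Pool.Agent.T2h98.QD.RQF
import Pool.Agent.T2h98.QD.Poin
import Pool.Agent.T2h98.QD.Inv
import Pool.Agent.T2h98.QD.Poi
import Pool.Agent.T2h98.QD.Bes
import Pool.Agent.T2h98.QD.JL
import Pool.Agent.T2h98.QD.Dif
import Pool.Agent.T2h98.QD.Dos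
import Pool.Agent.T2h98.QD.EN
import Pool.Agent.T2h98.QD.Plan
import Pool.Agent.T2h98.QD.LatQ
import Pool.Agent.T2h98.QD.CmpQ
import Pool.Agent.T2h98.QD.Tail
import Pool.Agent.T2h98.QD.Law
import Pool.Agent.T2h98.QD.Meas
import Pool.Agent.T2h98.QD.Lap
import Pool.Agent.T2h98.QD.Abel
import Pool.Agent.T2h98.QD.Exi

/-! The diffusive limit: all parts are proved. -/

set_option autoImplicit false

open scoped BigOperators Topology
open MeasureTheory ProbabilityTheory Filter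

namespace Pool.Agent.T2h98.QD.U

theorem dosF : T_DOS := dos bes jl (poi bes jl)

theorem latF : T_LATQ := latq (cmpq tail_all) (en plan inv) law meas

theorem qdlF {d : ℕ} (hd : 3 ≤ d) {h : ℝ} (h0 : 0 < h) (h1 : h < if d = 3 then 2 / 5 else 4 / 5)
    (Ψ : (Zd d → ℝ) → ℝ → Zd d → ℂ) (hΨ : ∀ v, Evol v (Ψ v)) (Q : Fin d → ℝ) {a b : ℝ}
    (ha : 0 ≤ a) (hab : a < b) :
    Tendsto (fun σ : ℝ => (((b - a)⁻¹ : ℝ) : ℂ) * ∫ s in a..b,
      FF Ψ (fun i => |σ| ^ (2 + h / 2) * Q i) σ (s / |σ| ^ (2 + h))) (𝓝[≠] 0)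
      (𝓝 (((b - a)⁻¹ * ∫ s in a..b, F0 d Q s : ℝ) : ℂ)) :=
  qdl poin ibp rqf inv (scal2 prob2 (emb (set_bd (pki pkb)))) (poi bes jl) (dif (poi bes jl))
    dosF (en plan inv) latF (lap dosF) abel hd h0 h1 Ψ hΨ Q ha hab

end Pool.Agent.T2h98.QD.U
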