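import Pool.Agent.T2h98.QD.Stm9b
import Pool.Agent.T2h98.QD.EN

/-! The Abel means in terms of the ladder, for each potential. -/

set_option autoImplicit false
set_option linter.unusedSectionVars false
set_option linter.all false

open scoped BigOperators Matrix Topology
open MeasureTheory ProbabilityTheory Filter

namespace Pool.Agent.T2h98.QD

open Pool.Agent.W788.MFP.Four (T e NN adj K)
open Pool.Agent.W788.BK (nsq hs PP JJ hi Low cr nsq_nonneg nsq_eq)

namespace ENS

variable {d L : ℕ} [NeZero L]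

theorem Mo_adj_symm (x y : T d L) : Mo (fun k : T d L => ((adj k : ℝ) : ℂ)) x y =
    Mo (fun k : T d L => ((adj k : ℝ) : ℂ)) y x := by
  unfold Mo
  rw [Matrix.of_apply, Matrix.of_apply]
  congr 1
  rw [← Equiv.sum_comp (Equiv.neg (T d L)) fun k => ((adj k : ℝ) : ℂ) * e k (x - y)]
  refine Finset.sum_congr rfl fun k _ => ?_
  rw [Equiv.neg_apply, Pool.Agent.W788.MFP.Four.adj_neg, Pool.Agent.W788.MFP.Four.e_neg_left,
    ← Pool.Agent.W788.MFP.Four.e_neg, neg_sub]

theorem HT_symm (σ : ℝ) (V : T d L → ℝ) : (HT σ V)ᵀ = HT σ V := by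
  ext x y
  rw [Matrix.transpose_apply]
  unfold HT
  rw [Matrix.add_apply, Matrix.add_apply, Mo_adj_symm]
  congr 1
  rw [Matrix.diagonal_apply, Matrix.diagonal_apply]
  by_cases h : x = y
  · subst h
    rfl
  · rw [if_neg h, if_neg (fun h' => h h'.symm)]

theorem RT_symm (σ ε : ℝ) (V : T d L → ℝ) (E : ℝ) (x y : T d L) :
    RT σ ε V E x y = RT σ ε V E y x := by
  have h1 : (RT σ ε V E)ᵀ = RT σ ε V E := by
    rw [RT_def, Matrix.transpose_nonsing_inv, Matrix.transpose_sub, Matrix.transpose_smul,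
      Matrix.transpose_one, HT_symm]
  conv_lhs => rw [← h1]
  rfl

theorem KK_eq (σ E ε : ℝ) (q : T d L) (V : T d L → ℝ) : KK d L σ E ε q V =
    ∑ x, (starRingEnd ℂ) (e q x) * ((‖RT σ ε V E x 0‖ ^ 2 : ℝ) : ℂ) := by
  unfold KK
  rw [Rh_HT, Matrix.mul_apply]
  refine Finset.sum_congr rfl fun y _ => ?_
  rw [RT_symm σ ε V E y 0]
  unfold cj
  rw [Matrix.of_apply, Matrix.conjTranspose_apply, Pool.Agent.W788.MFP.Four.e_zero, one_mul]
  push_cast
  rw [← Complex.mul_conj']
  simp only [Complex.star_def]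
  ring

theorem KK_eq' (σ E ε : ℝ) (q : T d L) (V : T d L → ℝ) : KK d L σ E ε q V =
    (starRingEnd ℂ) (∑ x, e q x * ((‖RT σ ε V E x 0‖ ^ 2 : ℝ) : ℂ)) := by
  rw [KK_eq, map_sum]
  refine Finset.sum_congr rfl fun y _ => ?_
  rw [map_mul, Complex.conj_ofReal]

end ENS

open ENS in
theorem en2c (h : T_PLAN) : T_EN2c := by
  intro d L _ σ τ q hτ
  have hε : 0 < 1 / (2 * τ) := by positivity
  have hn : ∀ x : T d L, ‖(starRingEnd ℂ) (e q x)‖ ≤ 1 := fun x => by
    rw [RCLike.norm_conj]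
    exact (KERS.norm_e q x).le
  refine ⟨fun V => ⟨?_, ?_⟩, ?_⟩
  · have h1 := (h (T d L) (HT σ V) (HT_herm σ V) (fun x => (starRingEnd ℂ) (e q x)) 0 τ hτ).1
    refine h1.congr (Filter.Eventually.of_forall fun E => ?_)
    simp only [KK_eq, RT_def]
  · rw [(h (T d L) (HT σ V) (HT_herm σ V) (e q) 0 τ hτ).2, map_mul, Complex.conj_ofReal]
    congr 1
    rw [← integral_conj]
    congr 1
    funext E
    rw [KK_eq', Complex.conj_conj]
    simp only [RT_def]
  · have h1 := ENS.prod_int (d := d) (L := L) h σ hτ (fun x => (starRingEnd ℂ) (e q x)) hn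
    refine h1.congr (Filter.Eventually.of_forall fun p => ?_)
    simp only [KK_eq]

end Pool.Agent.T2h98.QD
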