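import Pool.Agent.T2h98.QD.Stm9b
import Pool.Agent.T2h98.QD.LatQ

/-! The lattice and the torus: characters, for each potential. -/

set_option autoImplicit false
set_option linter.unusedSectionVars false
set_option linter.all false

open scoped BigOperators Matrix Topology
open MeasureTheory ProbabilityTheory Filter

namespace Pool.Agent.T2h98.QD

open Pool.Agent.W788.MFP.Four (T e NN adj K)

namespace LQ

theorem gz_neg_int (d : ℕ) (f : (Zd d → ℝ) → ℝ) :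
    ∫ ξ, f (fun x => -ξ x) ∂(GZ d) = ∫ ξ, f ξ ∂(GZ d) := by
  have h1 : (GZ d).map (MeasurableEquiv.neg (Zd d → ℝ)) = GZ d := gz_neg d
  conv_rhs => rw [← h1, integral_map_equiv]
  rfl

/-- integrability with an exponential weight -/
theorem one_int {F : ℝ → ℂ} (hF : Measurable F) (hb : ∀ t, ‖F t‖ ≤ 1) {τ : ℝ} (hτ : 0 < τ) :
    IntegrableOn (fun t : ℝ => ((Real.exp (-(t / τ)) : ℝ) : ℂ) * F t) (Set.Ioi (0 : ℝ)) := by
  refine Integrable.mono' (abel_int hτ).1 ?_ (Eventually.of_forall fun t => ?_)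
  · apply Measurable.aestronglyMeasurable
    exact Measurable.mul (by fun_prop) hF
  · rw [norm_mul, Complex.norm_real, Real.norm_eq_abs, abs_of_pos (Real.exp_pos _)]
    exact mul_le_of_le_one_right (Real.exp_pos _).le (hb _)

/-- the comparison of two functions of time -/
theorem abel_sub {A B : ℝ → ℂ} (hA : Measurable A) (hB : Measurable B) (ha : ∀ t, ‖A t‖ ≤ 1)
    (hb : ∀ t, ‖B t‖ ≤ 1) {τ : ℝ} (hτ : 0 < τ) {c : ℝ} (hc : 0 ≤ c)
    (hAB : ∀ t : ℝ, 0 ≤ t → ‖A t - B t‖ ≤ c * (1 + t) ^ 2) :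
    ‖((τ⁻¹ : ℝ) : ℂ) * (∫ t in Set.Ioi (0 : ℝ), ((Real.exp (-(t / τ)) : ℝ) : ℂ) * A t) -
      ((τ⁻¹ : ℝ) : ℂ) * (∫ t in Set.Ioi (0 : ℝ), ((Real.exp (-(t / τ)) : ℝ) : ℂ) * B t)‖ ≤
      c * 2 * (1 + τ) ^ 2 := by
  obtain ⟨s1, s2⟩ := sq_int hτ
  rw [← mul_sub, ← integral_sub (one_int hA ha hτ) (one_int hB hb hτ), norm_mul,
    Complex.norm_real, Real.norm_eq_abs, abs_of_pos (inv_pos.2 hτ)]
  have e4 : ∀ t ∈ Set.Ioi (0 : ℝ), ‖((Real.exp (-(t / τ)) : ℝ) : ℂ) * A t -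
      ((Real.exp (-(t / τ)) : ℝ) : ℂ) * B t‖ ≤ c * ((1 + t) ^ 2 * Real.exp (-(t / τ))) := by
    intro t ht
    rw [← mul_sub, norm_mul, Complex.norm_real, Real.norm_eq_abs, abs_of_pos (Real.exp_pos _)]
    calc _ ≤ Real.exp (-(t / τ)) * (c * (1 + t) ^ 2) :=
          mul_le_mul_of_nonneg_left (hAB t (le_of_lt ht)) (Real.exp_pos _).le
      _ = _ := by ring
  have e5 : ‖∫ t in Set.Ioi (0 : ℝ), (((Real.exp (-(t / τ)) : ℝ) : ℂ) * A t -
      ((Real.exp (-(t / τ)) : ℝ) : ℂ) * B t)‖ ≤ c * (τ * (2 * (1 + τ) ^ 2)) := by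
    calc _ ≤ ∫ t in Set.Ioi (0 : ℝ), c * ((1 + t) ^ 2 * Real.exp (-(t / τ))) :=
          norm_integral_le_of_norm_le (s1.const_mul _)
            ((ae_restrict_iff' measurableSet_Ioi).2 (Eventually.of_forall e4))
      _ = c * ∫ t in Set.Ioi (0 : ℝ), (1 + t) ^ 2 * Real.exp (-(t / τ)) :=
          integral_const_mul _ _
      _ ≤ _ := mul_le_mul_of_nonneg_left s2 hc
  calc _ ≤ τ⁻¹ * (c * (τ * (2 * (1 + τ) ^ 2))) :=
        mul_le_mul_of_nonneg_left e5 (inv_nonneg.2 hτ.le)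
    _ = _ := by
        field_simp

theorem abel_norm {A : ℝ → ℂ} (hA : Measurable A) (ha : ∀ t, ‖A t‖ ≤ 1) {τ : ℝ} (hτ : 0 < τ) :
    ‖((τ⁻¹ : ℝ) : ℂ) * (∫ t in Set.Ioi (0 : ℝ), ((Real.exp (-(t / τ)) : ℝ) : ℂ) * A t)‖ ≤ 1 := by
  rw [norm_mul, Complex.norm_real, Real.norm_eq_abs, abs_of_pos (inv_pos.2 hτ)]
  have e5 : ‖∫ t in Set.Ioi (0 : ℝ), ((Real.exp (-(t / τ)) : ℝ) : ℂ) * A t‖ ≤ τ := by
    calc _ ≤ ∫ t in Set.Ioi (0 : ℝ), Real.exp (-(t / τ)) :=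
          norm_integral_le_of_norm_le (abel_int hτ).1 (Eventually.of_forall fun t => by
            rw [norm_mul, Complex.norm_real, Real.norm_eq_abs, abs_of_pos (Real.exp_pos _)]
            exact mul_le_of_le_one_right (Real.exp_pos _).le (ha _))
      _ = τ := (abel_int hτ).2
  calc _ ≤ τ⁻¹ * τ := mul_le_mul_of_nonneg_left e5 (inv_nonneg.2 hτ.le)
    _ = 1 := inv_mul_cancel₀ hτ.ne'

variable {d L : ℕ} [NeZero L]

/-- the Abel mean on the torus -/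
noncomputable def GG2 (κ : T d L) (σ τ : ℝ) (V : T d L → ℝ) : ℂ :=
  ((τ⁻¹ : ℝ) : ℂ) * ∫ t in Set.Ioi (0 : ℝ), ((Real.exp (-(t / τ)) : ℝ) : ℂ) * F2 κ σ V t

theorem GG2_meas (κ : T d L) (σ τ : ℝ) : Measurable fun V : T d L → ℝ => GG2 κ σ τ V := by
  unfold GG2
  apply Measurable.const_mul
  have : Measurable fun p : (T d L → ℝ) × ℝ => ((Real.exp (-(p.2 / τ)) : ℝ) : ℂ) *
      F2 κ σ p.1 p.2 := Measurable.mul (by fun_prop) (F2_cont κ σ).measurable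
  exact (this.stronglyMeasurable.integral_prod_right'
    (ν := volume.restrict (Set.Ioi (0 : ℝ)))).measurable

theorem F2_meas (κ : T d L) (σ : ℝ) (V : T d L → ℝ) : Measurable fun t => F2 κ σ V t := by
  have h1 : Measurable fun t : ℝ => ((V, t) : (T d L → ℝ) × ℝ) := measurable_const.prodMk measurable_id
  exact (F2_cont κ σ).measurable.comp h1

theorem GG2_norm (κ : T d L) (σ : ℝ) {τ : ℝ} (hτ : 0 < τ) (V : T d L → ℝ) :
    ‖GG2 κ σ τ V‖ ≤ 1 := abel_norm (F2_meas κ σ V) (fun t => F2_norm κ σ V t) hτ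

theorem GG2_eq (h2 : T_EN2c) (κ : T d L) (σ τ : ℝ) (hτ : 0 < τ) (V : T d L → ℝ) :
    GG2 κ σ τ V = (starRingEnd ℂ) (((1 / (2 * τ) / Real.pi : ℝ) : ℂ) *
      ∫ E : ℝ, KK d L σ E (1 / (2 * τ)) κ V) := by
  rw [← ((h2 d L σ τ κ hτ).1 V).2]
  unfold GG2
  simp only [F2_eq]

end LQ

open LQ in
theorem latq2c (h1 : T_CMPQ) (h2 : T_EN2c) (h3 : T_LAW) (h4 : T_MEAS) : T_LATQ2c := by
  intro d Ψ hΨ
  have hc := h4 d Ψ hΨ
  refine ⟨fun q σ => Fz_meas hΨ hc q σ, fun q σ ξ t => Fz_norm q _ ((hΨ _).mass t),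
    fun q σ r a b c => ?_, ?_⟩
  · rw [← gz_neg_int]
    congr 1
    funext ξ
    have e1 : (fun x => -σ * -ξ x) = fun x => σ * ξ x := by
      funext x
      ring
    simp only [e1]
  obtain ⟨C, hC, hcmp⟩ := h1 d
  refine ⟨C * 2, by positivity, ?_⟩
  intro L _ κ q hq σ τ c hτ
  have hL0 : (0 : ℝ) < L := by exact_mod_cast Nat.pos_of_ne_zero (NeZero.ne L)
  have hsL : 0 < Real.sqrt L := Real.sqrt_pos.2 hL0
  have hcc : 0 ≤ C / Real.sqrt L := by positivity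
  obtain ⟨A, hA⟩ : ∃ A : (Zd d → ℝ) → ℝ → ℂ, A = fun ξ t => Fz q (Ψ (fun x => σ * ξ x) t) :=
    ⟨_, rfl⟩
  have hm1 : Measurable fun p : (Zd d → ℝ) × ℝ => A p.1 p.2 := by
    rw [hA]
    exact Fz_meas hΨ hc q σ
  have hb1 : ∀ (ξ : Zd d → ℝ) (t : ℝ), ‖A ξ t‖ ≤ 1 := by
    rw [hA]
    exact fun ξ t => Fz_norm q _ ((hΨ _).mass t)
  have hAB : ∀ (ξ : Zd d → ℝ) (t : ℝ), 0 ≤ t → ‖A ξ t - F2 κ σ (fun k : T d L => ξ (rep k)) t‖ ≤
      C * (1 + t) ^ 2 / Real.sqrt L := by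
    intro ξ t ht
    rw [hA]
    simp only [F2_eq]
    exact hcmp L κ q hq σ ξ _ (hΨ _) t ht
  have e1 : ∀ (ξ : Zd d → ℝ) (t : ℝ), Fz q (Ψ (fun x => σ * ξ x) t) = A ξ t := by
    rw [hA]
    exact fun _ _ => rfl
  simp only [e1]
  clear hA e1 hcmp hc hq hΨ
  have key : ∀ ξ : Zd d → ℝ, ‖((τ⁻¹ : ℝ) : ℂ) * (∫ t in Set.Ioi (0 : ℝ),
      ((Real.exp (-(t / τ)) : ℝ) : ℂ) * A ξ t) - c‖ ≤
      ‖GG2 κ σ τ (fun k : T d L => ξ (rep k)) - c‖ + C * 2 * (1 + τ) ^ 2 / Real.sqrt L := by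
    intro ξ
    have m1 : Measurable fun t => A ξ t := by
      have h5 : Measurable fun t : ℝ => ((ξ, t) : (Zd d → ℝ) × ℝ) :=
        measurable_const.prodMk measurable_id
      exact hm1.comp h5
    have hAB' : ∀ t : ℝ, 0 ≤ t → ‖A ξ t - F2 κ σ (fun k : T d L => ξ (rep k)) t‖ ≤
        C / Real.sqrt L * (1 + t) ^ 2 := fun t ht => (hAB ξ t ht).trans (le_of_eq (by ring))
    have e1 := abel_sub m1 (F2_meas κ σ (fun k : T d L => ξ (rep k)))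
      (hb1 ξ) (fun t => F2_norm κ σ _ t) hτ hcc hAB'
    have e2 := norm_sub_le_norm_sub_add_norm_sub (((τ⁻¹ : ℝ) : ℂ) * (∫ t in Set.Ioi (0 : ℝ),
      ((Real.exp (-(t / τ)) : ℝ) : ℂ) * A ξ t))
      (GG2 κ σ τ (fun k : T d L => ξ (rep k))) c
    refine e2.trans ?_
    rw [add_comm]
    refine add_le_add le_rfl (le_trans e1 (le_of_eq ?_))
    ring
  have hnorm : ∀ V : T d L → ℝ, ‖((1 / (2 * τ) / Real.pi : ℝ) : ℂ) *
      (∫ E : ℝ, KK d L σ E (1 / (2 * τ)) κ V) - (starRingEnd ℂ) c‖ = ‖GG2 κ σ τ V - c‖ := by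
    intro V
    rw [GG2_eq h2 κ σ τ hτ V]
    rw [← RCLike.norm_conj (_ - (starRingEnd ℂ) c), map_sub, Complex.conj_conj]
  simp only [hnorm]
  have hmeas : Measurable fun V : T d L → ℝ => ‖GG2 κ σ τ V - c‖ :=
    ((GG2_meas κ σ τ).sub_const c).norm
  have e3 := integral_map (μ := GZ d) (rep_meas (d := d) (L := L)).aemeasurable
    hmeas.aestronglyMeasurable
  rw [h3 d L] at e3
  rw [e3]
  have i1 : Integrable (fun ξ : Zd d → ℝ => ‖GG2 κ σ τ (fun k : T d L => ξ (rep k)) - c‖)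
      (GZ d) := by
    refine Integrable.of_bound (hmeas.comp rep_meas).aestronglyMeasurable (1 + ‖c‖)
      (Eventually.of_forall fun ξ => ?_)
    rw [Real.norm_eq_abs, abs_of_nonneg (norm_nonneg _)]
    exact (norm_sub_le _ _).trans (add_le_add (GG2_norm κ σ hτ _) le_rfl)
  calc _ ≤ ∫ ξ, (‖GG2 κ σ τ (fun k : T d L => ξ (rep k)) - c‖ +
        C * 2 * (1 + τ) ^ 2 / Real.sqrt L) ∂(GZ d) :=
        integral_mono_of_nonneg (Eventually.of_forall fun ξ => norm_nonneg _)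
          (i1.add (integrable_const _)) (Eventually.of_forall key)
    _ = _ := by
        rw [integral_add i1 (integrable_const _), integral_const]
        simp

end Pool.Agent.T2h98.QD
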