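import Pool.Agent.T2h98.QD.Fin3
import Pool.Agent.T2h98.QD.All2
import Pool.Agent.T2h98.QD.EN2
import Pool.Agent.T2h98.QD.LatQ2
import Pool.Agent.T2h98.QD.Abel2

/-! The diffusive limit, in the mean: all parts are proved. -/

set_option autoImplicit false

open scoped BigOperators Topology
open MeasureTheory ProbabilityTheory Filter

namespace Pool.Agent.T2h98.QD.U

theorem scalF : T_SCAL2 := scal2 prob2 (emb (set_bd (pki pkb)))

theorem qdl2F {d : ℕ} (hd : 3 ≤ d) {h : ℝ} (h0 : 0 < h)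
    (h1 : h < if d = 3 then 2 / 5 else 4 / 5)
    (Ψ : (Zd d → ℝ) → ℝ → Zd d → ℂ) (hΨ : ∀ v, Evol v (Ψ v)) (Q : Fin d → ℝ) {a b : ℝ}
    (ha : 0 ≤ a) (hab : a ≤ b) :
    Tendsto (fun σ : ℝ => ∫ ξ, ‖(∫ s in a..b,
      Fz (fun i => |σ| ^ (2 + h / 2) * Q i) (Ψ (fun x => σ * ξ x) (s / |σ| ^ (2 + h)))) -
      ((∫ s in a..b, F0 d Q s : ℝ) : ℂ)‖ ∂(GZ d)) (𝓝[≠] 0) (𝓝 0) :=
  qdl2 poin ibp rqf inv scalF (poi bes jl) (dif (poi bes jl)) dosF (en plan inv)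
    (en2c plan) (latq2c (cmpq tail_all) (en2c plan) law meas) (lap dosF) abel2
    hd h0 h1 Ψ hΨ Q ha hab

end Pool.Agent.T2h98.QD.U
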