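import Pool.Agent.T2h98.QD.Lat6

/-! Spreading of the time evolution and of the eigenvectors, better exponents (helper1, task FIN4). -/

set_option autoImplicit false
set_option linter.unusedSectionVars false
set_option linter.style.haveILetI false

open scoped BigOperators Matrix Topology
open MeasureTheory ProbabilityTheory Filter

namespace Pool.Agent.T2h98.QD.W

open Pool.Agent.W788.MFP.Four (T e NN adj K)
open Pool.Agent.W788.BK (nsq hs PP JJ hi Low cr)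

theorem pos_case2 (hS : T_SPR) (hu : T_UNI) (hav : T_AVG) (hl : T_LAW) (hc : T_CMP) (he : T_EXI)
    (ht : T_TENT) (d : ℕ) (hd : 3 ≤ d) (a b : ℝ) (ha : 0 ≤ a)
    (had : a < (if d = 3 then 1 / 5 else 2 / 5)) (hab : 2 * a < b) (η : ℝ) (hη : 0 < η) :
    ∃ σ₀ : ℝ, 0 < σ₀ ∧ ∀ σ : ℝ, 0 < σ → σ ≤ σ₀ →
      (∀ Ψ : (Zd d → ℝ) → ℝ → Zd d → ℂ, (∀ ξ, Evol (fun x => σ * ξ x) (Ψ ξ)) →
        ∀ (i : Fin d) (τ : ℝ), σ ^ (-2 - b) ≤ τ →
        ∫ ξ, mm i (σ ^ (-2 - a)) τ (Ψ ξ) ∂(GZ d) ≤ η) ∧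
      ∀ (L : ℕ) [NeZero L], σ ^ (-7 : ℝ) ≤ L →
        ∃ Ω : Set (T d L → ℝ), MeasurableSet Ω ∧ 1 - η ≤ (GP (T d L)).real Ω ∧
          ∀ V ∈ Ω, Spread (σ ^ (-2 - a)) η (HT (d := d) (L := L) σ V) := by
  have hd0 : (3 : ℝ) ≤ d := by exact_mod_cast hd
  -- the exponent
  obtain ⟨h, hh0, hh1, hh2, hhb, hhone⟩ : ∃ h : ℝ, 0 < h ∧ 2 * a < h ∧
      h < (if d = 3 then 2 / 5 else 4 / 5) ∧ h ≤ b ∧ h ≤ 4 / 5 := by
    have h1 : 2 * a < (if d = 3 then 2 / 5 else 4 / 5 : ℝ) := by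
      split_ifs at had ⊢ <;> linarith
    have h2 : (if d = 3 then 2 / 5 else 4 / 5 : ℝ) ≤ 4 / 5 := by split_ifs <;> norm_num
    have h3 : min b ((2 * a + (if d = 3 then 2 / 5 else 4 / 5 : ℝ)) / 2) ≤
      (2 * a + (if d = 3 then 2 / 5 else 4 / 5 : ℝ)) / 2 := min_le_right _ _
    have h4 : 2 * a < min b ((2 * a + (if d = 3 then 2 / 5 else 4 / 5 : ℝ)) / 2) :=
      lt_min hab (by linarith)
    exact ⟨min b ((2 * a + (if d = 3 then 2 / 5 else 4 / 5 : ℝ)) / 2), by linarith, h4,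
      by linarith, min_le_left _ _, by linarith⟩
  -- the evolution
  obtain ⟨Ψ₀, hΨ₀⟩ : ∃ Ψ₀ : (Zd d → ℝ) → ℝ → Zd d → ℂ, ∀ v, Evol v (Ψ₀ v) :=
    ⟨fun v => (he d v).choose, fun v => (he d v).choose_spec.1⟩
  obtain ⟨κ, hκ⟩ : ∃ κ : ℝ, κ = min (η ^ 2 / 2) (η / d) := ⟨_, rfl⟩
  have hκ0 : 0 < κ := by
    rw [hκ]
    exact lt_min (by positivity) (by positivity)
  have hκ1 : κ ≤ 1 / 2 * η ^ 2 := by
    rw [hκ]
    refine (min_le_left _ _).trans (le_of_eq ?_)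
    ring
  have hκ2 : d * κ ≤ η := by
    have h1 : κ ≤ η / d := by rw [hκ]; exact min_le_right _ _
    rw [le_div_iff₀ (by linarith)] at h1
    linarith
  obtain ⟨η', hη'⟩ : ∃ η' : ℝ, η' = min (η / 2) (η * κ ^ 2 / (2 * d)) := ⟨_, rfl⟩
  have hη0 : 0 < η' := by
    rw [hη']
    exact lt_min (by positivity) (by positivity)
  have hη1 : 2 * η' ≤ η := by
    have : η' ≤ η / 2 := by rw [hη']; exact min_le_left _ _
    linarith
  have hη2 : d * (2 * η' / κ ^ 2) ≤ η := by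
    have h1 : η' ≤ η * κ ^ 2 / (2 * d) := by rw [hη']; exact min_le_right _ _
    rw [le_div_iff₀ (by positivity)] at h1
    rw [← mul_div_assoc, div_le_iff₀ (by positivity)]
    linarith
  obtain ⟨C, hC, hm⟩ := mean_cmp (d := d) hl hav hc
  have hev := hS d hd h hh0 hh2 a ha hh1 Ψ₀ hΨ₀ η' hη0
  obtain ⟨u, hu0, hu1⟩ := (mem_nhdsGT_iff_exists_Ioc_subset).1 hev
  have hu0' : (0 : ℝ) < u := hu0
  refine ⟨min u (min (1 / 6) (η' / C)), lt_min hu0' (lt_min (by norm_num) (by positivity)), ?_⟩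
  intro σ hσ hσ0
  have hσu : σ ≤ u := hσ0.trans (min_le_left _ _)
  have hσ6 : σ ≤ 1 / 6 := hσ0.trans ((min_le_right _ _).trans (min_le_left _ _))
  have hσC : σ ≤ η' / C := hσ0.trans ((min_le_right _ _).trans (min_le_right _ _))
  have hσ1 : σ ≤ 1 := by linarith
  have hP : ∀ (i : Fin d) (M : ℕ), 1 ≤ M → (M : ℝ) ≤ 5 * σ ^ (-2 - a) →
      ∫ ξ, Wz (Ψ₀ fun x => σ * ξ x) i M (σ ^ (-2 - h)) ∂(GZ d) ≤ η' := hu1 ⟨hσ, hσu⟩
  -- the sizes
  obtain ⟨R, hR⟩ : ∃ R, R = σ ^ (-2 - a) := ⟨_, rfl⟩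
  have hR1 : 1 ≤ R := by
    rw [hR]
    exact Real.one_le_rpow_of_pos_of_le_one_of_nonpos hσ hσ1 (by linarith)
  obtain ⟨M, hM⟩ : ∃ M : ℕ, M = ⌈2 * R⌉₊ := ⟨_, rfl⟩
  have hM1 : 2 * R ≤ M := by rw [hM]; exact Nat.le_ceil _
  have hM2 : (M : ℝ) ≤ 3 * R := by
    have h1 : (M : ℝ) ≤ 2 * R + 1 := by
      rw [hM]
      exact (Nat.ceil_lt_add_one (by linarith)).le
    linarith
  have hM5 : (M : ℝ) ≤ 5 * σ ^ (-2 - a) := by
    rw [← hR]
    linarith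
  have hM3 : 1 ≤ M := by
    have : (1 : ℝ) ≤ M := by linarith
    exact_mod_cast this
  obtain ⟨s0, hs0⟩ : ∃ s0, s0 = σ ^ (-2 - h) := ⟨_, rfl⟩
  have hs1 : 1 ≤ s0 := by
    rw [hs0]
    exact Real.one_le_rpow_of_pos_of_le_one_of_nonpos hσ hσ1 (by linarith)
  have hW : ∀ Ψ : (Zd d → ℝ) → ℝ → Zd d → ℂ, (∀ ξ, Evol (fun x => σ * ξ x) (Ψ ξ)) →
      ∀ i : Fin d, ∫ ξ, Wz (Ψ ξ) i M s0 ∂(GZ d) ≤ η' := by
    intro Ψ hΨ i
    have e1 : Ψ = fun ξ => Ψ₀ fun x => σ * ξ x := by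
      funext ξ
      exact (he d (fun x => σ * ξ x)).unique (hΨ ξ) (hΨ₀ _)
    rw [e1, hs0]
    exact hP i M hM3 hM5
  constructor
  · intro Ψ hΨ i τ hτ
    have hτ1 : s0 ≤ τ := by
      refine le_trans ?_ hτ
      rw [hs0]
      exact Real.rpow_le_rpow_of_exponent_ge hσ hσ1 (by linarith)
    have hτ2 : 1 ≤ τ := hs1.trans hτ1
    have h1 := EW_anti hu hl hav hc hΨ i M hM3 s0 τ hs1 hτ1
    have h2 := hW Ψ hΨ i
    rw [← hR]
    calc ∫ ξ, mm i R τ (Ψ ξ) ∂(GZ d) ≤ ∫ ξ, 2 * Wz (Ψ ξ) i M τ ∂(GZ d) := by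
          apply integral_mono_of_nonneg
          · exact Eventually.of_forall fun ξ => mm_nonneg i R τ (by linarith) (Ψ ξ)
          · exact (wz_int hav hc hΨ i M hM3 τ hτ2).const_mul 2
          · exact Eventually.of_forall fun ξ => mm_le (hΨ ξ) i R M hM3 hM1 τ (by linarith)
      _ = 2 * ∫ ξ, Wz (Ψ ξ) i M τ ∂(GZ d) := integral_const_mul _ _
      _ ≤ η := by linarith
  · intro L _ hL
    have hLp : (0 : ℝ) < L := by exact_mod_cast Nat.pos_of_ne_zero (NeZero.ne L)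
    have hσ7 : σ ^ (-7 : ℝ) = (σ ^ 7)⁻¹ := by
      rw [Real.rpow_neg hσ.le]
      congr 1
      exact_mod_cast Real.rpow_natCast σ 7
    have h2ML : 2 * M ≤ L := by
      have h1 : (2 * M : ℝ) ≤ L := by
        have h3 : 6 * R ≤ σ ^ (-7 : ℝ) := by
          have h4 : R ≤ σ ^ (-6 : ℝ) := by
            rw [hR]
            refine Real.rpow_le_rpow_of_exponent_ge hσ hσ1 ?_
            linarith
          have h5 : σ ^ (-7 : ℝ) = σ ^ (-6 : ℝ) * σ⁻¹ := by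
            rw [← Real.rpow_neg_one, ← Real.rpow_add hσ]
            congr 1
            norm_num
          have h6 : (6 : ℝ) ≤ σ⁻¹ := by
            rw [le_inv_comm₀ (by norm_num) hσ]
            linarith
          rw [h5]
          have h7 : 0 ≤ σ ^ (-6 : ℝ) := by positivity
          nlinarith
        linarith
      exact_mod_cast h1
    have hAL : ∀ i : Fin d, AL d L σ i M s0 ≤ 2 * η' := by
      intro i
      have h1 := (abs_le.1 (hm L M i hM3 h2ML σ (fun ξ => Ψ₀ fun x => σ * ξ x)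
        (fun ξ => hΨ₀ _) s0 hs1)).1
      have h2 := hW (fun ξ => Ψ₀ fun x => σ * ξ x) (fun ξ => hΨ₀ _) i
      have h3 : C * s0 ^ 2 / L ≤ η' := by
        have h4 : s0 ^ 2 ≤ σ * L := by
          calc s0 ^ 2 = σ ^ ((-2 - h) * 2) := by
                rw [hs0, Real.rpow_mul hσ.le]
                exact_mod_cast rfl
            _ ≤ σ ^ (-6 : ℝ) := Real.rpow_le_rpow_of_exponent_ge hσ hσ1 (by linarith)
            _ = σ * σ ^ (-7 : ℝ) := by
                rw [mul_comm, ← Real.rpow_add_one hσ.ne']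
                norm_num
            _ ≤ σ * L := by gcongr
        rw [div_le_iff₀ hLp]
        rw [le_div_iff₀ hC] at hσC
        calc C * s0 ^ 2 ≤ C * (σ * L) := by gcongr
          _ = (σ * C) * L := by ring
          _ ≤ η' * L := by gcongr
      linarith
    obtain ⟨Ω, hΩ, hΩP, hΩW⟩ := markov hu hav (L := L) M hM3 (by omega) σ s0
      (2 * η') κ (by linarith) hκ0 hAL
    refine ⟨Ω, hΩ, by linarith, ?_⟩
    intro V hV
    rw [← hR]
    exact spread_of hu ht M hM3 (by omega) _ (HT_herm _ V) R _ κ s0 hM1 (by linarith)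
      hη.le hκ0 (hΩW V hV) hκ1 hκ2

end Pool.Agent.T2h98.QD.W
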