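import Pool.Agent.T2h98.QD.All3
import Pool.Agent.T2h98.QD.Spr
import Pool.Agent.T2h98.QD.Lat7
import Pool.Agent.T2h98.QD.Uni
import Pool.Agent.T2h98.QD.Avg
import Pool.Agent.T2h98.QD.Cmp
import Pool.Agent.T2h98.QD.Tent

/-! Spreading with better exponents: all parts are proved. -/

set_option autoImplicit false

open scoped BigOperators Topology
open MeasureTheory ProbabilityTheory Filter

namespace Pool.Agent.T2h98.QD.U

/-- the Abel means converge -/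
theorem limF {d : ℕ} (hd : 3 ≤ d) {h : ℝ} (h0 : 0 < h)
    (h1 : h < if d = 3 then 2 / 5 else 4 / 5)
    (Ψ : (Zd d → ℝ) → ℝ → Zd d → ℂ) (hΨ : ∀ v, Evol v (Ψ v)) (Q : Fin d → ℝ) {τ : ℝ}
    (hτ : 0 < τ) :
    Tendsto (fun σ : ℝ => ∫ s in Set.Ioi (0 : ℝ), ((Real.exp (-(s / τ)) : ℝ) : ℂ) *
      FF Ψ (fun i => σ ^ (2 + h / 2) * Q i) σ (s / σ ^ (2 + h))) (𝓝[>] 0)
      (𝓝 ((τ * ∫ E, fl d Q τ E : ℝ) : ℂ)) := by
  have hh1 : h < (if d = 3 then 1 else 2) / (2 + 1 / 2 : ℝ) := by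
    refine h1.trans_le ?_
    split_ifs <;> norm_num
  have hh : h < 1 := by
    refine h1.trans_le ?_
    split_ifs <;> norm_num
  have P : Fac3 d h τ := ⟨hd, h0, hh, hτ, poi bes jl, dif (poi bes jl), dosF, en plan inv,
    evm_of poin ibp rqf inv scalF hd h0 hh1 hτ⟩
  have h2 := lim_abel P latF (lap dosF) Ψ hΨ Q
  obtain ⟨-, -, -, -, n5⟩ := lap dosF d hd Q
  have e1 : ∫ s in Set.Ioi (0 : ℝ), ((Real.exp (-(s / τ)) : ℝ) : ℂ) * ((F0 d Q s : ℝ) : ℂ) =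
      ((τ * ∫ E, fl d Q τ E : ℝ) : ℂ) := by
    rw [← (n5 τ hτ).2, ← integral_complex_ofReal]
    refine setIntegral_congr_fun measurableSet_Ioi fun s _ => ?_
    simp
  rw [← e1]
  exact h2

theorem limaF : T_LIMA := by
  intro d hd h h0 h1 Ψ hΨ Q
  have h2 := limF hd h0 h1 Ψ hΨ Q one_pos
  simpa using h2

theorem sprF : T_SPR := spr limaF dosF (lap dosF) meas

/-- spreading of the evolution and of the eigenvectors -/
theorem posF (d : ℕ) (hd : 3 ≤ d) (a b : ℝ) (ha : 0 ≤ a)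
    (had : a < (if d = 3 then 1 / 5 else 2 / 5)) (hab : 2 * a < b) (η : ℝ) (hη : 0 < η) :
    ∃ σ₀ : ℝ, 0 < σ₀ ∧ ∀ σ : ℝ, 0 < σ → σ ≤ σ₀ →
      (∀ Ψ : (Zd d → ℝ) → ℝ → Zd d → ℂ, (∀ ξ, Evol (fun x => σ * ξ x) (Ψ ξ)) →
        ∀ (i : Fin d) (τ : ℝ), σ ^ (-2 - b) ≤ τ →
        ∫ ξ, W.mm i (σ ^ (-2 - a)) τ (Ψ ξ) ∂(GZ d) ≤ η) ∧
      ∀ (L : ℕ) [NeZero L], σ ^ (-7 : ℝ) ≤ L →
        ∃ Ω : Set (Pool.Agent.W788.MFP.Four.T d L → ℝ), MeasurableSet Ω ∧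
          1 - η ≤ (GP (Pool.Agent.W788.MFP.Four.T d L)).real Ω ∧
          ∀ V ∈ Ω, W.Spread (σ ^ (-2 - a)) η (HT (d := d) (L := L) σ V) :=
  W.pos_case2 sprF (uni tent) (avg tent inv) law (cmp tent tail_all) exi tent d hd a b ha had hab η hη

end Pool.Agent.T2h98.QD.U
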