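import Pool.Agent.T2h98.QD.Stm11
import Pool.Agent.T2h98.QD.LatQ2

/-! Continuity in time on the lattice. -/

set_option autoImplicit false
set_option linter.unusedSectionVars false

open scoped BigOperators Matrix Topology
open MeasureTheory ProbabilityTheory Filter

namespace Pool.Agent.T2h98.QD

open Pool.Agent.W788.MFP.Four (T e NN adj K)

namespace EQ

open LQ

/-- a momentum of the torus close to a given one -/
theorem exists_mo {d L : ℕ} [NeZero L] (hL : 2 ≤ L) (q : Fin d → ℝ) (hq : ∀ i, |q i| ≤ 1) :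
    ∃ κ : T d L, ∀ i, |q i - mo κ i| ≤ 2 * Real.pi / L := by
  have hL0 : (0 : ℝ) < L := by
    have : (2 : ℝ) ≤ L := by exact_mod_cast hL
    linarith
  have hL2 : (2 : ℝ) ≤ L := by exact_mod_cast hL
  have hpi := Real.pi_gt_three
  obtain ⟨j, hj⟩ : ∃ j : Fin d → ℤ, j = fun i => round (q i * L / (2 * Real.pi)) := ⟨_, rfl⟩
  have h1 : ∀ i, |q i * L / (2 * Real.pi) - j i| ≤ 1 / 2 := by
    intro i
    rw [hj]
    exact abs_sub_round _
  have h2 : ∀ i, ((j i : ZMod L).valMinAbs : ℤ) = j i := by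
    intro i
    have e0 := abs_le.1 (hq i)
    have e1 := abs_le.1 (h1 i)
    have e2 : |q i * L / (2 * Real.pi)| ≤ L / 6 := by
      rw [abs_div, abs_mul, abs_of_pos hL0, abs_of_pos (by positivity : 0 < 2 * Real.pi),
        div_le_div_iff₀ (by positivity) (by norm_num)]
      have : |q i| * L ≤ 1 * L := by
        have := hq i
        gcongr
      nlinarith
    have e3 := abs_le.1 e2
    have e4 : (j i : ℝ) * 2 < L := by linarith
    have e5 : -(L : ℝ) < (j i : ℝ) * 2 := by linarith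
    rw [ZMod.valMinAbs_spec]
    refine ⟨rfl, ?_, ?_⟩
    · exact_mod_cast e5
    · exact_mod_cast e4.le
  refine ⟨fun i => (j i : ZMod L), fun i => ?_⟩
  unfold mo
  rw [h2 i]
  have e1 : q i - 2 * Real.pi * (j i : ℝ) / L =
      2 * Real.pi / L * (q i * L / (2 * Real.pi) - j i) := by
    field_simp
  rw [e1, abs_mul, abs_of_pos (by positivity)]
  have e2 := h1 i
  calc 2 * Real.pi / L * |q i * L / (2 * Real.pi) - j i| ≤ 2 * Real.pi / L * 1 := by
        gcongr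
        linarith
    _ = _ := mul_one _

variable {d L : ℕ} [NeZero L]

theorem F2_slice (κ : T d L) (σ t : ℝ) : Measurable fun V : T d L → ℝ => F2 κ σ V t := by
  have h1 : Measurable fun V : T d L → ℝ => ((V, t) : (T d L → ℝ) × ℝ) :=
    measurable_id.prodMk measurable_const
  exact (F2_cont κ σ).measurable.comp h1

theorem mean_rep (h3 : T_LAW) (κ : T d L) (σ t : ℝ) :
    ∫ V, F2 κ σ V t ∂(GP (T d L)) =
      ∫ ξ, F2 κ σ (fun k : T d L => ξ (rep k)) t ∂(GZ d) := by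
  have e3 := integral_map (μ := GZ d) (rep_meas (d := d) (L := L)).aemeasurable
    (F2_slice κ σ t).aestronglyMeasurable
  rwa [h3 d L] at e3

theorem sq_rep (h3 : T_LAW) (κ : T d L) (σ t t' : ℝ) :
    ∫ V, ‖F2 κ σ V t - F2 κ σ V t'‖ ^ 2 ∂(GP (T d L)) =
      ∫ ξ, ‖F2 κ σ (fun k : T d L => ξ (rep k)) t -
        F2 κ σ (fun k : T d L => ξ (rep k)) t'‖ ^ 2 ∂(GZ d) := by
  have hm : Measurable fun V : T d L → ℝ => ‖F2 κ σ V t - F2 κ σ V t'‖ ^ 2 :=
    ((F2_slice κ σ t).sub (F2_slice κ σ t')).norm.pow_const 2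
  have e3 := integral_map (μ := GZ d) (rep_meas (d := d) (L := L)).aemeasurable
    hm.aestronglyMeasurable
  rwa [h3 d L] at e3

end EQ

open LQ EQ in
theorem eql (h : T_EQT) (h1 : T_CMPQ) (h3 : T_LAW) (h4 : T_MEAS) : T_EQL := by
  intro d Ψ hΨ q hq σ t t' S ht' htt hS hS0
  have hc := h4 d Ψ hΨ
  have ht : 0 ≤ t := ht'.trans htt
  obtain ⟨C, hC, hcmp⟩ := h1 d
  obtain ⟨A, hA⟩ : ∃ A : (Zd d → ℝ) → ℝ → ℂ, A = fun ξ t => Fz q (Ψ (fun x => σ * ξ x) t) :=
    ⟨_, rfl⟩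
  have hm1 : Measurable fun p : (Zd d → ℝ) × ℝ => A p.1 p.2 := by
    rw [hA]
    exact Fz_meas hΨ hc q σ
  have hb1 : ∀ (ξ : Zd d → ℝ) (t : ℝ), ‖A ξ t‖ ≤ 1 := by
    rw [hA]
    exact fun ξ t => Fz_norm q _ ((hΨ _).mass t)
  have hFm : Measurable fun s => FF Ψ q σ s := FF_meas hΨ hc q σ
  have hFb : ∀ s, ‖FF Ψ q σ s‖ ≤ 1 := FF_norm hΨ q σ
  have hFA : ∀ s, FF Ψ q σ s = ∫ ξ, A ξ s ∂(GZ d) := by
    rw [hA]
    exact fun _ => rfl
  have e1 : ∀ (ξ : Zd d → ℝ) (t : ℝ), Fz q (Ψ (fun x => σ * ξ x) t) = A ξ t := by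
    rw [hA]
    exact fun _ _ => rfl
  obtain ⟨K, hK⟩ : ∃ K : ℝ, K = C * (1 + t) ^ 2 + C * (1 + t') ^ 2 := ⟨_, rfl⟩
  have hK0 : 0 ≤ K := by rw [hK]; positivity
  obtain ⟨D, hD⟩ : ∃ D : ℝ, D = 8 * (C * 2 * (1 + S) ^ 2) + 4 * K + K ^ 2 := ⟨_, rfl⟩
  have key : ∀ L : ℕ, 2 ≤ L → ∫ ξ, ‖A ξ t - A ξ t'‖ ^ 2 ∂(GZ d) ≤
      8 * (1 - (((S⁻¹ : ℝ) : ℂ) * ∫ s in Set.Ioi (0 : ℝ), ((Real.exp (-(s / S)) : ℝ) : ℂ) *
      FF Ψ q σ s).re) + D / Real.sqrt L := by
    intro L hL
    have : NeZero L := ⟨by omega⟩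
    obtain ⟨κ, hκ⟩ := exists_mo hL q hq
    have hL0 : (0 : ℝ) < L := by exact_mod_cast Nat.pos_of_ne_zero (NeZero.ne L)
    have hsL : 0 < Real.sqrt L := Real.sqrt_pos.2 hL0
    have hsL1 : 1 ≤ Real.sqrt L := by
      rw [Real.one_le_sqrt]
      have : (2 : ℝ) ≤ L := by exact_mod_cast hL
      linarith
    obtain ⟨B, hB⟩ : ∃ B : (Zd d → ℝ) → ℝ → ℂ, B = fun ξ t =>
        F2 κ σ (fun k : T d L => ξ (rep k)) t := ⟨_, rfl⟩
    have hm2 : Measurable fun p : (Zd d → ℝ) × ℝ => B p.1 p.2 := by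
      rw [hB]
      exact hm2 κ σ
    have hb2 : ∀ (ξ : Zd d → ℝ) (t : ℝ), ‖B ξ t‖ ≤ 1 := by
      rw [hB]
      exact fun ξ t => F2_norm κ σ _ t
    have hAB : ∀ (ξ : Zd d → ℝ) (t : ℝ), 0 ≤ t →
        ‖A ξ t - B ξ t‖ ≤ C * (1 + t) ^ 2 / Real.sqrt L := by
      intro ξ t ht
      rw [hA, hB]
      simp only [F2_eq]
      exact hcmp L κ q hκ σ ξ _ (hΨ _) t ht
    have hE := h d L κ σ t t' S ht' htt hS hS0
    have e4 : ∀ V s, Ft κ σ V s = F2 κ σ V s := by
      intro V s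
      rw [F2_eq]
      rfl
    simp only [e4] at hE
    have hmB : ∀ s, ∫ V, F2 κ σ V s ∂(GP (T d L)) = ∫ ξ, B ξ s ∂(GZ d) := by
      intro s
      rw [mean_rep h3, hB]
    simp only [hmB] at hE
    rw [sq_rep h3] at hE
    have e5 : ∫ ξ, ‖F2 κ σ (fun k : T d L => ξ (rep k)) t -
        F2 κ σ (fun k : T d L => ξ (rep k)) t'‖ ^ 2 ∂(GZ d) =
        ∫ ξ, ‖B ξ t - B ξ t'‖ ^ 2 ∂(GZ d) := by rw [hB]
    rw [e5] at hE
    -- integrability
    have iA : ∀ s, Integrable (fun ξ : Zd d → ℝ => A ξ s) (GZ d) := fun s =>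
      Integrable.of_bound (slice_meas hm1 s).aestronglyMeasurable 1
        (Eventually.of_forall fun ξ => hb1 ξ s)
    have iB : ∀ s, Integrable (fun ξ : Zd d → ℝ => B ξ s) (GZ d) := fun s =>
      Integrable.of_bound (slice_meas hm2 s).aestronglyMeasurable 1
        (Eventually.of_forall fun ξ => hb2 ξ s)
    -- the left side
    have l1 : ∫ ξ, ‖A ξ t - A ξ t'‖ ^ 2 ∂(GZ d) ≤
        ∫ ξ, ‖B ξ t - B ξ t'‖ ^ 2 ∂(GZ d) + (4 * K + K ^ 2) / Real.sqrt L := by
      have hpt : ∀ ξ, ‖A ξ t - A ξ t'‖ ^ 2 ≤ ‖B ξ t - B ξ t'‖ ^ 2 +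
          (4 * K + K ^ 2) / Real.sqrt L := by
        intro ξ
        have a1 := hAB ξ t ht
        have a2 := hAB ξ t' ht'
        have a3 : ‖A ξ t - A ξ t'‖ ≤ ‖B ξ t - B ξ t'‖ + K / Real.sqrt L := by
          have a4 : A ξ t - A ξ t' = (B ξ t - B ξ t') + (A ξ t - B ξ t) - (A ξ t' - B ξ t') := by
            ring
          rw [a4]
          refine (norm_sub_le _ _).trans ?_
          have a5 := norm_add_le (B ξ t - B ξ t') (A ξ t - B ξ t)
          have a6 : K / Real.sqrt L = C * (1 + t) ^ 2 / Real.sqrt L +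
              C * (1 + t') ^ 2 / Real.sqrt L := by rw [hK]; ring
          linarith
        have a7 : ‖B ξ t - B ξ t'‖ ≤ 2 := by
          refine (norm_sub_le _ _).trans ?_
          have := hb2 ξ t
          have := hb2 ξ t'
          linarith
        have a8 : 0 ≤ K / Real.sqrt L := by positivity
        have a9 : (K / Real.sqrt L) ^ 2 ≤ K ^ 2 / Real.sqrt L := by
          rw [div_pow, sq (Real.sqrt L)]
          apply div_le_div_of_nonneg_left (by positivity) hsL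
          nlinarith
        have a10 : (4 * K + K ^ 2) / Real.sqrt L = 4 * (K / Real.sqrt L) + K ^ 2 / Real.sqrt L := by
          ring
        rw [a10]
        have a11 := norm_nonneg (A ξ t - A ξ t')
        have a12 := norm_nonneg (B ξ t - B ξ t')
        nlinarith [mul_le_mul_of_nonneg_right a7 a8]
      have iB2 : Integrable (fun ξ : Zd d → ℝ => ‖B ξ t - B ξ t'‖ ^ 2) (GZ d) := by
        refine Integrable.of_bound (((slice_meas hm2 t).sub
          (slice_meas hm2 t')).norm.pow_const 2).aestronglyMeasurable 4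
          (Eventually.of_forall fun ξ => ?_)
        rw [Real.norm_eq_abs, abs_of_nonneg (by positivity)]
        have a7 : ‖B ξ t - B ξ t'‖ ≤ 2 := by
          refine (norm_sub_le _ _).trans ?_
          have := hb2 ξ t
          have := hb2 ξ t'
          linarith
        nlinarith [norm_nonneg (B ξ t - B ξ t')]
      calc _ ≤ ∫ ξ, (‖B ξ t - B ξ t'‖ ^ 2 + (4 * K + K ^ 2) / Real.sqrt L) ∂(GZ d) :=
            integral_mono_of_nonneg (Eventually.of_forall fun ξ => by positivity)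
              (iB2.add (integrable_const _)) (Eventually.of_forall hpt)
        _ = _ := by
            rw [integral_add iB2 (integrable_const _), integral_const]
            simp
    -- the right side
    have r1 : ∀ s : ℝ, 0 ≤ s → ‖FF Ψ q σ s - ∫ ξ, B ξ s ∂(GZ d)‖ ≤
        C / Real.sqrt L * (1 + s) ^ 2 := by
      intro s hs
      rw [hFA, ← integral_sub (iA s) (iB s)]
      calc _ ≤ C / Real.sqrt L * (1 + s) ^ 2 * (GZ d).real Set.univ := by
            apply norm_integral_le_of_norm_le_const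
            exact Eventually.of_forall fun ξ => (hAB ξ s hs).trans (le_of_eq (by ring))
        _ = _ := by simp
    have hBm : Measurable fun s => ∫ ξ, B ξ s ∂(GZ d) :=
      (hm2.stronglyMeasurable.integral_prod_left' (μ := GZ d)).measurable
    have hBb : ∀ s, ‖∫ ξ, B ξ s ∂(GZ d)‖ ≤ 1 := by
      intro s
      calc _ ≤ 1 * (GZ d).real Set.univ := by
            apply norm_integral_le_of_norm_le_const
            exact Eventually.of_forall fun ξ => hb2 ξ s
        _ = 1 := by simp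
    have r2 := abel_sub hFm hBm hFb hBb hS0 (show 0 ≤ C / Real.sqrt L by positivity) r1
    have r3 := (Complex.abs_re_le_norm _).trans r2
    rw [Complex.sub_re] at r3
    have r4 := (abs_le.1 r3).2
    have r5 : D / Real.sqrt L = 8 * (C / Real.sqrt L * 2 * (1 + S) ^ 2) +
        (4 * K + K ^ 2) / Real.sqrt L := by
      rw [hD]
      ring
    rw [r5]
    linarith
  simp only [e1]
  have hlim : Tendsto (fun L : ℕ => 8 * (1 - (((S⁻¹ : ℝ) : ℂ) * ∫ s in Set.Ioi (0 : ℝ),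
      ((Real.exp (-(s / S)) : ℝ) : ℂ) * FF Ψ q σ s).re) + D / Real.sqrt L) atTop
      (𝓝 (8 * (1 - (((S⁻¹ : ℝ) : ℂ) * ∫ s in Set.Ioi (0 : ℝ),
      ((Real.exp (-(s / S)) : ℝ) : ℂ) * FF Ψ q σ s).re) + 0)) := by
    refine tendsto_const_nhds.add ?_
    have : Tendsto (fun L : ℕ => Real.sqrt L) atTop atTop :=
      Real.tendsto_sqrt_atTop.comp tendsto_natCast_atTop_atTop
    exact this.const_div_atTop D
  rw [add_zero] at hlim
  exact ge_of_tendsto hlim ((eventually_ge_atTop 2).mono key)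

end Pool.Agent.T2h98.QD
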