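import Pool.Agent.T2h98.QD.Stm11
import Pool.Agent.T2h98.QD.Plan
import Pool.Agent.T2h98.QD.Avg

/-! Continuity in time on the torus. -/

set_option autoImplicit false
set_option linter.unusedSectionVars false

open scoped BigOperators Matrix Topology
open MeasureTheory ProbabilityTheory Filter

namespace Pool.Agent.T2h98.QD

open Pool.Agent.W788.MFP.Four (T e NN adj K)
open Pool.Agent.W788.BK (nsq hs PP JJ hi Low cr)

namespace EQS

section abs
variable {n : Type} [Fintype n] [DecidableEq n]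

theorem ev_mul_adj (H : Matrix n n ℂ) (hH : H.IsHermitian) (t t' : ℝ) :
    ev H t * (ev H t')ᴴ = ev H (t - t') := by
  unfold ev
  rw [← Matrix.exp_conjTranspose, Matrix.conjTranspose_smul, hH.eq,
    ← Matrix.exp_add_of_commute]
  · congr 1
    have : star (-((t' : ℂ) * Complex.I)) = (t' : ℂ) * Complex.I := by
      simp
    rw [this, ← add_smul]
    congr 1
    push_cast
    ring
  · exact ((Commute.refl H).smul_left _).smul_right _

/-- the diagonal elements of the evolved multiplication operator -/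
noncomputable def Gd (H : Matrix n n ℂ) (w : n → ℂ) (t : ℝ) (a : n) : ℂ :=
  ∑ x, w x * ((‖ev H t x a‖ ^ 2 : ℝ) : ℂ)

/-- the trace functional -/
noncomputable def TR (H : Matrix n n ℂ) (w : n → ℂ) (t : ℝ) : ℂ := ∑ a, star (w a) * Gd H w t a

/-- the evolved multiplication operator -/
noncomputable def WW (H : Matrix n n ℂ) (w : n → ℂ) (t : ℝ) : Matrix n n ℂ :=
  (ev H t)ᴴ * Matrix.diagonal w * ev H t

theorem WW_diag (H : Matrix n n ℂ) (w : n → ℂ) (t : ℝ) (a : n) : WW H w t a a = Gd H w t a := by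
  unfold WW Gd
  rw [Matrix.mul_apply]
  refine Finset.sum_congr rfl fun x _ => ?_
  rw [Matrix.mul_diagonal, Matrix.conjTranspose_apply]
  push_cast
  rw [← Complex.mul_conj', ← Complex.star_def]
  ring

theorem WW_unit (H : Matrix n n ℂ) (hH : H.IsHermitian) (w : n → ℂ) (hw : ∀ x, ‖w x‖ = 1) (t : ℝ) :
    (WW H w t)ᴴ * WW H w t = 1 := by
  have h1 : ev H t * (ev H t)ᴴ = 1 := by
    rw [ev_mul_adj H hH, sub_self]
    unfold ev
    simp
  have h2 : (Matrix.diagonal w)ᴴ * Matrix.diagonal w = 1 := by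
    rw [Matrix.diagonal_conjTranspose, Matrix.diagonal_mul_diagonal, ← Matrix.diagonal_one]
    congr 1
    funext x
    rw [Pi.star_apply, Complex.star_def, Complex.conj_mul', hw x]
    simp
  unfold WW
  rw [Matrix.conjTranspose_mul, Matrix.conjTranspose_mul, Matrix.conjTranspose_conjTranspose]
  calc (ev H t)ᴴ * ((Matrix.diagonal w)ᴴ * ev H t) * ((ev H t)ᴴ * Matrix.diagonal w * ev H t)
      = (ev H t)ᴴ * (Matrix.diagonal w)ᴴ * (ev H t * (ev H t)ᴴ) * Matrix.diagonal w * ev H t := by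
        simp only [Matrix.mul_assoc]
    _ = (ev H t)ᴴ * ((Matrix.diagonal w)ᴴ * Matrix.diagonal w) * ev H t := by
        rw [h1, Matrix.mul_one]
        simp only [Matrix.mul_assoc]
    _ = 1 := by rw [h2, Matrix.mul_one, ev_unit H hH]

theorem WW_cross (H : Matrix n n ℂ) (hH : H.IsHermitian) (w : n → ℂ) (t t' : ℝ) :
    ((WW H w t')ᴴ * WW H w t).trace = TR H w (t - t') := by
  have h1 : ev H t' * (ev H t)ᴴ = (ev H (t - t'))ᴴ := by
    rw [← ev_mul_adj H hH, Matrix.conjTranspose_mul, Matrix.conjTranspose_conjTranspose]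
  unfold WW
  rw [Matrix.conjTranspose_mul, Matrix.conjTranspose_mul, Matrix.conjTranspose_conjTranspose]
  have h2 : (ev H t')ᴴ * ((Matrix.diagonal w)ᴴ * ev H t') * ((ev H t)ᴴ * Matrix.diagonal w * ev H t) =
      (ev H t')ᴴ * ((Matrix.diagonal w)ᴴ * (ev H (t - t'))ᴴ * Matrix.diagonal w * ev H t) := by
    rw [← h1]
    simp only [Matrix.mul_assoc]
  rw [h2, Matrix.trace_mul_comm]
  have h3 : (Matrix.diagonal w)ᴴ * (ev H (t - t'))ᴴ * Matrix.diagonal w * ev H t * (ev H t')ᴴ =
      (Matrix.diagonal w)ᴴ * WW H w (t - t') := by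
    unfold WW
    rw [Matrix.mul_assoc _ (ev H t), ev_mul_adj H hH]
    simp only [Matrix.mul_assoc]
  rw [h3]
  unfold TR Matrix.trace
  refine Finset.sum_congr rfl fun a _ => ?_
  rw [Matrix.diag_apply, Matrix.diagonal_conjTranspose, Matrix.diagonal_mul, WW_diag, Pi.star_apply]

theorem frob (A : Matrix n n ℂ) : (Aᴴ * A).trace = ((∑ a, ∑ x, ‖A x a‖ ^ 2 : ℝ) : ℂ) := by
  unfold Matrix.trace
  push_cast
  refine Finset.sum_congr rfl fun a _ => ?_
  rw [Matrix.diag_apply, Matrix.mul_apply]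
  refine Finset.sum_congr rfl fun x _ => ?_
  rw [Matrix.conjTranspose_apply, Complex.star_def, Complex.conj_mul']

theorem TR_neg (H : Matrix n n ℂ) (hH : H.IsHermitian) (w : n → ℂ) (t t' : ℝ) :
    ((WW H w t)ᴴ * WW H w t').trace = star (TR H w (t - t')) := by
  rw [← WW_cross H hH w t t', ← Matrix.trace_conjTranspose, Matrix.conjTranspose_mul,
    Matrix.conjTranspose_conjTranspose]

theorem diag_diff (H : Matrix n n ℂ) (hH : H.IsHermitian) (w : n → ℂ) (hw : ∀ x, ‖w x‖ = 1)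
    (t t' : ℝ) : ∑ a, ‖Gd H w t a - Gd H w t' a‖ ^ 2 ≤
      2 * (Fintype.card n - (TR H w (t - t')).re) := by
  have h1 : ∑ a, ‖Gd H w t a - Gd H w t' a‖ ^ 2 ≤
      ∑ a, ∑ x, ‖(WW H w t - WW H w t') x a‖ ^ 2 := by
    refine Finset.sum_le_sum fun a _ => ?_
    rw [← WW_diag, ← WW_diag, ← Matrix.sub_apply]
    exact Finset.single_le_sum (f := fun x => ‖(WW H w t - WW H w t') x a‖ ^ 2)
      (fun _ _ => by positivity) (Finset.mem_univ a)
  refine h1.trans (le_of_eq ?_)
  have h2 := frob (WW H w t - WW H w t')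
  have h3 : ((WW H w t - WW H w t')ᴴ * (WW H w t - WW H w t')).trace =
      2 * (Fintype.card n : ℂ) - (TR H w (t - t') + star (TR H w (t - t'))) := by
    rw [Matrix.conjTranspose_sub, Matrix.sub_mul, Matrix.mul_sub, Matrix.mul_sub, WW_unit H hH w hw,
      WW_unit H hH w hw, Matrix.trace_sub, Matrix.trace_sub, Matrix.trace_sub, TR_neg H hH,
      WW_cross H hH, Matrix.trace_one]
    ring
  rw [h3] at h2
  have h4 := congrArg Complex.re h2
  rw [Complex.ofReal_re] at h4
  rw [← h4]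
  simp only [Complex.sub_re, Complex.add_re, Complex.mul_re, Complex.re_ofNat, Complex.natCast_re,
    Complex.im_ofNat, Complex.natCast_im, Complex.star_def, Complex.conj_re]
  ring

theorem TR_spec (H : Matrix n n ℂ) (hH : H.IsHermitian) (w : n → ℂ) (hw : ∀ x, ‖w x‖ = 1) :
    ∃ (ν p : n → n → ℝ), (∀ j k, 0 ≤ p j k) ∧ (∑ j, ∑ k, p j k = Fintype.card n) ∧
      ∀ t : ℝ, TR H w t = ∑ j, ∑ k, (p j k : ℂ) * Complex.exp (-((ν j k : ℂ) * Complex.I) * t) := by
  obtain ⟨u, E, hE, ho⟩ := PlanS.exists_eigen H hH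
  obtain ⟨c, hc⟩ : ∃ c : n → n → ℂ, c = fun j k => ∑ x, w x * (u j x * star (u k x)) := ⟨_, rfl⟩
  have hT : ∀ t : ℝ, TR H w t =
      ∑ j, ∑ k, ((‖c j k‖ ^ 2 : ℝ) : ℂ) * Complex.exp (-(((E j - E k : ℝ) : ℂ) * Complex.I) * t) := by
    intro t
    unfold TR Gd
    simp only [(Uni.ev_eq H u E hE ho).2 t, PlanS.quad, Finset.mul_sum]
    rw [Finset.sum_comm]
    refine Finset.sum_congr rfl fun j _ => ?_
    rw [Finset.sum_comm]
    refine Finset.sum_congr rfl fun k _ => ?_
    have h1 : ((‖c j k‖ ^ 2 : ℝ) : ℂ) = ∑ a, ∑ x, star (w a) * (w x *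
        (u j x * star (u j a) * star (u k x * star (u k a)))) := by
      push_cast
      rw [← Complex.conj_mul', hc]
      simp only
      rw [map_sum, Finset.sum_mul_sum]
      refine Finset.sum_congr rfl fun a _ => Finset.sum_congr rfl fun x _ => ?_
      simp only [map_mul, ← Complex.star_def, star_mul', star_star]
      ring
    rw [h1, Finset.sum_mul]
    refine Finset.sum_congr rfl fun a _ => ?_
    simp only [Finset.sum_mul, Finset.mul_sum]
    refine Finset.sum_congr rfl fun x _ => ?_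
    rw [← mul_assoc (star (w a))]
    congr 1
    rw [Complex.star_def, ← Complex.exp_conj, ← Complex.exp_add]
    congr 1
    simp only [map_neg, map_mul, Complex.conj_ofReal, Complex.conj_I]
    push_cast
    ring
  refine ⟨fun j k => E j - E k, fun j k => ‖c j k‖ ^ 2, fun j k => by positivity, ?_, hT⟩
  have h0 := hT 0
  have h1 : TR H w 0 = Fintype.card n := by
    unfold TR
    have h2 : ∀ a, star (w a) * Gd H w 0 a = 1 := by
      intro a
      unfold Gd
      have h3 : ev H 0 = 1 := by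
        unfold ev
        simp
      rw [h3, Finset.sum_eq_single a]
      · rw [Matrix.one_apply_eq, ← mul_assoc, Complex.star_def, Complex.conj_mul', hw a]
        simp
      · intro b _ hb
        rw [Matrix.one_apply_ne hb]
        simp
      · intro h
        exact absurd (Finset.mem_univ a) h
    simp only [h2]
    simp
  rw [h1] at h0
  simp only [Complex.ofReal_zero, mul_zero, Complex.exp_zero, mul_one] at h0
  have h4 : ((∑ j, ∑ k, ‖c j k‖ ^ 2 : ℝ) : ℂ) = ((Fintype.card n : ℝ) : ℂ) := by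
    push_cast
    rw [h0]
    push_cast
    rfl
  exact_mod_cast h4

theorem real_ineq {r S ν : ℝ} (h0 : 0 ≤ r) (h1 : r ≤ S) (hS : 0 < S) :
    1 - Real.cos (ν * r) ≤ 4 * (1 - (1 + S ^ 2 * ν ^ 2)⁻¹) := by
  have hy : 0 < 1 + S ^ 2 * ν ^ 2 := by positivity
  have h2 : 1 - (1 + S ^ 2 * ν ^ 2)⁻¹ = S ^ 2 * ν ^ 2 / (1 + S ^ 2 * ν ^ 2) := by
    field_simp
    ring
  rw [h2]
  rcases le_total 1 (S ^ 2 * ν ^ 2) with h3 | h3
  · have h4 : 1 / 2 ≤ S ^ 2 * ν ^ 2 / (1 + S ^ 2 * ν ^ 2) := by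
      rw [le_div_iff₀ hy]
      linarith
    have h5 := Real.neg_one_le_cos (ν * r)
    linarith
  · have h4 : S ^ 2 * ν ^ 2 / 2 ≤ S ^ 2 * ν ^ 2 / (1 + S ^ 2 * ν ^ 2) := by
      apply div_le_div_of_nonneg_left (by positivity) hy
      linarith
    have h5 := Real.one_sub_sq_div_two_le_cos (x := ν * r)
    have h6 : (ν * r) ^ 2 ≤ S ^ 2 * ν ^ 2 := by
      rw [mul_pow, mul_comm]
      exact mul_le_mul_of_nonneg_right (pow_le_pow_left₀ h0 h1 2) (by positivity)
    nlinarith [h6, h4, h5, sq_nonneg (S * ν)]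

theorem TR_abel (H : Matrix n n ℂ) (hH : H.IsHermitian) (w : n → ℂ) (hw : ∀ x, ‖w x‖ = 1)
    {r S : ℝ} (h0 : 0 ≤ r) (h1 : r ≤ S) (hS : 0 < S) :
    2 * (Fintype.card n - (TR H w r).re) ≤ 8 * (Fintype.card n -
      (((S⁻¹ : ℝ) : ℂ) * ∫ s in Set.Ioi (0 : ℝ), ((Real.exp (-(s / S)) : ℝ) : ℂ) * TR H w s).re) := by
  obtain ⟨ν, p, hp, hsum, hT⟩ := TR_spec H hH w hw
  have e1 : ∀ s : ℝ, ((Real.exp (-(s / S)) : ℝ) : ℂ) * TR H w s = ∑ j, ∑ k, (p j k : ℂ) *
      Complex.exp ((-((S⁻¹ : ℝ) : ℂ) - (ν j k : ℂ) * Complex.I) * s) := by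
    intro s
    rw [hT, Finset.mul_sum]
    refine Finset.sum_congr rfl fun j _ => ?_
    rw [Finset.mul_sum]
    refine Finset.sum_congr rfl fun k _ => ?_
    rw [mul_left_comm]
    congr 1
    rw [Complex.ofReal_exp, ← Complex.exp_add]
    congr 1
    push_cast
    ring
  have e2 : ∫ s in Set.Ioi (0 : ℝ), ((Real.exp (-(s / S)) : ℝ) : ℂ) * TR H w s =
      ∑ j, ∑ k, (p j k : ℂ) * (((S⁻¹ : ℝ) : ℂ) + (ν j k : ℂ) * Complex.I)⁻¹ := by
    simp only [e1]
    rw [integral_finsetSum _ fun j _ => integrable_finsetSum _ fun k _ =>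
      ((PlanS.time hS _).1).const_mul _]
    refine Finset.sum_congr rfl fun j _ => ?_
    rw [integral_finsetSum _ fun k _ => ((PlanS.time hS _).1).const_mul _]
    refine Finset.sum_congr rfl fun k _ => ?_
    rw [integral_const_mul, (PlanS.time hS _).2]
  have e3 : (((S⁻¹ : ℝ) : ℂ) * ∫ s in Set.Ioi (0 : ℝ), ((Real.exp (-(s / S)) : ℝ) : ℂ) *
      TR H w s).re = ∑ j, ∑ k, p j k * (1 + S ^ 2 * ν j k ^ 2)⁻¹ := by
    rw [e2, Finset.mul_sum, Complex.re_sum]
    refine Finset.sum_congr rfl fun j _ => ?_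
    rw [Finset.mul_sum, Complex.re_sum]
    refine Finset.sum_congr rfl fun k _ => ?_
    rw [mul_left_comm, Complex.re_ofReal_mul, Complex.re_ofReal_mul, Complex.inv_re]
    congr 1
    have f1 : (((S⁻¹ : ℝ) : ℂ) + (ν j k : ℂ) * Complex.I).re = S⁻¹ := by simp
    have f2 : Complex.normSq (((S⁻¹ : ℝ) : ℂ) + (ν j k : ℂ) * Complex.I) = S⁻¹ ^ 2 + ν j k ^ 2 := by
      rw [Complex.normSq_add_mul_I]
    rw [f1, f2]
    have hy : 0 < 1 + S ^ 2 * ν j k ^ 2 := by positivity
    have hz : 0 < S⁻¹ ^ 2 + ν j k ^ 2 := by positivity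
    field_simp
  have e4 : (TR H w r).re = ∑ j, ∑ k, p j k * Real.cos (ν j k * r) := by
    rw [hT, Complex.re_sum]
    refine Finset.sum_congr rfl fun j _ => ?_
    rw [Complex.re_sum]
    refine Finset.sum_congr rfl fun k _ => ?_
    rw [Complex.re_ofReal_mul]
    congr 1
    have f1 : -((ν j k : ℂ) * Complex.I) * (r : ℂ) = ((-(ν j k * r) : ℝ) : ℂ) * Complex.I := by
      push_cast
      ring
    rw [f1, Complex.exp_ofReal_mul_I_re, Real.cos_neg]
  rw [e3, e4, ← hsum, ← Finset.sum_sub_distrib, ← Finset.sum_sub_distrib, Finset.mul_sum,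
    Finset.mul_sum]
  refine Finset.sum_le_sum fun j _ => ?_
  rw [← Finset.sum_sub_distrib, ← Finset.sum_sub_distrib, Finset.mul_sum, Finset.mul_sum]
  refine Finset.sum_le_sum fun k _ => ?_
  have h3 := mul_le_mul_of_nonneg_left (real_ineq (ν := ν j k) h0 h1 hS) (hp j k)
  linarith

end abs

section torus
variable {d L : ℕ} [NeZero L]

theorem norm_e1 (k x : T d L) : ‖e k x‖ = 1 := by
  have h1 := Pool.Agent.W788.MFP.Four.e_normSq k x
  rw [Complex.mul_conj'] at h1
  have h2 : ‖e k x‖ ^ 2 = 1 := by exact_mod_cast h1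
  have h3 := norm_nonneg (e k x)
  nlinarith

theorem Ft_cont (q : T d L) (σ : ℝ) : Continuous fun p : (T d L → ℝ) × ℝ => Ft q σ p.1 p.2 := by
  unfold Ft
  have hev := ev_continuous (fun p : (T d L → ℝ) × ℝ => HT σ p.1) (fun p => p.2)
    ((HT_cont σ).comp continuous_fst) continuous_snd
  exact continuous_finsetSum _ fun x _ => continuous_const.mul
    (Complex.continuous_ofReal.comp ((hev.matrix_elem x 0).norm.pow 2))

theorem Ft_norm (q : T d L) (σ : ℝ) (V : T d L → ℝ) (t : ℝ) : ‖Ft q σ V t‖ ≤ 1 := by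
  unfold Ft
  refine (norm_sum_le _ _).trans (le_of_eq ?_)
  rw [← ev_col (HT σ V) (HT_herm σ V) t 0]
  refine Finset.sum_congr rfl fun x _ => ?_
  rw [norm_mul, norm_e1, one_mul, Complex.norm_real, Real.norm_eq_abs,
    abs_of_nonneg (by positivity)]

theorem Ft_shift (q : T d L) (σ : ℝ) (V : T d L → ℝ) (a : T d L) (t : ℝ) :
    Ft q σ (fun z => V (z + a)) t = star (e q a) * Gd (HT σ V) (e q) t a := by
  unfold Ft Gd
  rw [Finset.mul_sum, ← Equiv.sum_comp (Equiv.addRight a)
    (fun x => star (e q a) * (e q x * ((‖ev (HT σ V) t x a‖ ^ 2 : ℝ) : ℂ)))]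
  refine Finset.sum_congr rfl fun x _ => ?_
  rw [ev_shift, zero_add, Equiv.coe_addRight, Pool.Agent.W788.MFP.Four.e_add]
  have h1 := Pool.Agent.W788.MFP.Four.e_normSq q a
  rw [Complex.star_def]
  linear_combination (-(e q x * ((‖ev (HT σ V) t (x + a) a‖ ^ 2 : ℝ) : ℂ))) * h1

end torus

end EQS

attribute [local irreducible] Ft ev EQS.Gd EQS.TR HT

open EQS in
theorem eqt (hinv : T_INV) : T_EQT := by
  intro d L _ q σ t t' S h0 h1 h2 hS
  have hgp : IsProbabilityMeasure (GP (T d L)) := by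
    unfold GP PP
    infer_instance
  have hN : (Fintype.card (T d L) : ℝ) = NN d L := Pool.Agent.W788.MFP.Four.card_T
  have hN0 : 0 < NN d L := Pool.Agent.W788.MFP.Four.NN_pos
  -- the Abel means
  obtain ⟨A, hA⟩ : ∃ A : (T d L → ℝ) → ℂ, A = fun V => ((S⁻¹ : ℝ) : ℂ) *
    ∫ s in Set.Ioi (0 : ℝ), ((Real.exp (-(s / S)) : ℝ) : ℂ) * Ft q σ V s := ⟨_, rfl⟩
  have hprod : Integrable (fun p : (T d L → ℝ) × ℝ => ((Real.exp (-(p.2 / S)) : ℝ) : ℂ) *
      Ft q σ p.1 p.2) ((GP (T d L)).prod (volume.restrict (Set.Ioi (0 : ℝ)))) := by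
    have g1 : Integrable (fun p : (T d L → ℝ) × ℝ => Real.exp (-(p.2 / S)))
        ((GP (T d L)).prod (volume.restrict (Set.Ioi (0 : ℝ)))) := by
      have := (integrable_const (μ := GP (T d L)) (1 : ℝ)).mul_prod (abel_int hS).1
      refine this.congr (Eventually.of_forall fun p => ?_)
      simp
    refine Integrable.mono' g1 ?_ (Eventually.of_forall fun p => ?_)
    · exact (Continuous.mul (by fun_prop) (Ft_cont q σ)).aestronglyMeasurable
    · rw [norm_mul, Complex.norm_real, Real.norm_eq_abs, abs_of_pos (Real.exp_pos _)]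
      exact mul_le_of_le_one_right (Real.exp_pos _).le (Ft_norm _ _ _ _)
  have hAint : Integrable A (GP (T d L)) := by
    rw [hA]
    exact hprod.integral_prod_left.const_mul _
  have hAmean : ∫ V, A V ∂(GP (T d L)) = ((S⁻¹ : ℝ) : ℂ) * ∫ s in Set.Ioi (0 : ℝ),
      ((Real.exp (-(s / S)) : ℝ) : ℂ) * ∫ V, Ft q σ V s ∂(GP (T d L)) := by
    rw [hA]
    simp only
    rw [integral_const_mul, integral_integral_swap (f := fun (V : T d L → ℝ) (s : ℝ) =>
      ((Real.exp (-(s / S)) : ℝ) : ℂ) * Ft q σ V s) hprod]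
    congr 2
    funext s
    rw [integral_const_mul]
  rw [← hAmean]
  -- the pointwise inequality
  have hTRs : ∀ (V : T d L → ℝ) (s : ℝ), TR (HT σ V) (e q) s =
      ∑ a : T d L, Ft q σ (fun z => V (z + a)) s := by
    intro V s
    unfold TR
    exact Finset.sum_congr rfl fun a _ => (Ft_shift q σ V a s).symm
  have hint1 : ∀ V : T d L → ℝ, Integrable (fun s : ℝ => ((Real.exp (-(s / S)) : ℝ) : ℂ) *
      Ft q σ V s) (volume.restrict (Set.Ioi (0 : ℝ))) := by
    intro V
    have hc : Continuous fun s : ℝ => Ft q σ V s := (Ft_cont q σ).comp (continuous_const.prodMk continuous_id)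
    refine Integrable.mono' (abel_int hS).1 ?_ (Eventually.of_forall fun s => ?_)
    · exact (Continuous.mul (by fun_prop) hc).aestronglyMeasurable
    · rw [norm_mul, Complex.norm_real, Real.norm_eq_abs, abs_of_pos (Real.exp_pos _)]
      exact mul_le_of_le_one_right (Real.exp_pos _).le (Ft_norm _ _ _ _)
  have hpt : ∀ V : T d L → ℝ, ∑ a : T d L,
      ‖Ft q σ (fun z => V (z + a)) t - Ft q σ (fun z => V (z + a)) t'‖ ^ 2 ≤
      8 * (NN d L - ∑ a : T d L, (A (fun z => V (z + a))).re) := by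
    intro V
    have g1 := diag_diff (HT σ V) (HT_herm σ V) (e q) (norm_e1 q) t t'
    have g2 := TR_abel (HT σ V) (HT_herm σ V) (e q) (norm_e1 q) (r := t - t') (S := S)
      (by linarith) (by linarith) hS
    have g3 : ∑ a : T d L, ‖Ft q σ (fun z => V (z + a)) t - Ft q σ (fun z => V (z + a)) t'‖ ^ 2 =
        ∑ a, ‖Gd (HT σ V) (e q) t a - Gd (HT σ V) (e q) t' a‖ ^ 2 := by
      refine Finset.sum_congr rfl fun a _ => ?_
      rw [Ft_shift, Ft_shift, ← mul_sub, norm_mul, norm_star, norm_e1, one_mul]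
    have g4 : (((S⁻¹ : ℝ) : ℂ) * ∫ s in Set.Ioi (0 : ℝ), ((Real.exp (-(s / S)) : ℝ) : ℂ) *
        TR (HT σ V) (e q) s) = ∑ a : T d L, A (fun z => V (z + a)) := by
      simp only [hTRs, Finset.mul_sum]
      rw [integral_finsetSum _ fun a _ => hint1 _, Finset.mul_sum, hA]
    rw [g4, Complex.re_sum, hN] at g2
    rw [hN] at g1
    rw [g3]
    exact g1.trans g2
  -- the means
  obtain ⟨Φ, hΦ⟩ : ∃ Φ : (T d L → ℝ) → ℝ, Φ = fun V => ‖Ft q σ V t - Ft q σ V t'‖ ^ 2 := ⟨_, rfl⟩
  have hFc : ∀ s : ℝ, Continuous fun V : T d L → ℝ => Ft q σ V s := fun s =>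
    (Ft_cont q σ).comp (continuous_id.prodMk continuous_const)
  have hΦc : Continuous Φ := by
    rw [hΦ]
    exact (((hFc t).sub (hFc t')).norm.pow 2)
  have hΦb : ∀ V, ‖Φ V‖ ≤ 4 := by
    intro V
    rw [hΦ, Real.norm_of_nonneg (by positivity)]
    have g1 : ‖Ft q σ V t - Ft q σ V t'‖ ≤ 2 := by
      refine (norm_sub_le _ _).trans ?_
      have := Ft_norm q σ V t
      have := Ft_norm q σ V t'
      linarith
    have g2 := norm_nonneg (Ft q σ V t - Ft q σ V t')
    show ‖Ft q σ V t - Ft q σ V t'‖ ^ 2 ≤ 4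
    nlinarith
  have hshc : ∀ a : T d L, Continuous fun V : T d L → ℝ => fun z => V (z + a) := fun a =>
    continuous_pi fun z => continuous_apply _
  have hΦi : ∀ a : T d L, Integrable (fun V => Φ (fun z => V (z + a))) (GP (T d L)) := fun a =>
    Integrable.of_bound (hΦc.comp (hshc a)).aestronglyMeasurable 4
      (Eventually.of_forall fun V => hΦb _)
  have hΦinv : ∀ a : T d L, ∫ V, Φ (fun z => V (z + a)) ∂(GP (T d L)) = ∫ V, Φ V ∂(GP (T d L)) := by
    intro a
    have := (hinv d L a).1 (fun V => ((Φ V : ℝ) : ℂ))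
    rw [integral_complex_ofReal, integral_complex_ofReal] at this
    exact_mod_cast this
  have hAinv : ∀ a : T d L, ∫ V, A (fun z => V (z + a)) ∂(GP (T d L)) = ∫ V, A V ∂(GP (T d L)) :=
    fun a => (hinv d L a).1 A
  have hAm : ∀ a : T d L, Integrable (fun V => A (fun z => V (z + a))) (GP (T d L)) := by
    intro a
    have hb : ∀ V, ‖A V‖ ≤ 1 := by
      intro V
      rw [hA]
      simp only
      rw [norm_mul, Complex.norm_real, Real.norm_eq_abs, abs_of_pos (inv_pos.2 hS),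
        inv_mul_le_iff₀ hS, mul_one]
      refine (norm_integral_le_integral_norm _).trans ?_
      refine (integral_mono (hint1 V).norm (abel_int hS).1 fun s => ?_).trans (abel_int hS).2.le
      simp only
      rw [norm_mul, Complex.norm_real, Real.norm_eq_abs, abs_of_pos (Real.exp_pos _)]
      exact mul_le_of_le_one_right (Real.exp_pos _).le (Ft_norm _ _ _ _)
    have hm : Measurable A := by
      rw [hA]
      apply Measurable.const_mul
      have : Continuous fun p : (T d L → ℝ) × ℝ => ((Real.exp (-(p.2 / S)) : ℝ) : ℂ) *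
          Ft q σ p.1 p.2 := Continuous.mul (by fun_prop) (Ft_cont q σ)
      exact (this.measurable.stronglyMeasurable.integral_prod_right'
        (ν := volume.restrict (Set.Ioi (0 : ℝ)))).measurable
    exact Integrable.of_bound (hm.comp (hshc a).measurable).aestronglyMeasurable 1
      (Eventually.of_forall fun V => hb _)
  have hL : ∫ V, ∑ a : T d L, Φ (fun z => V (z + a)) ∂(GP (T d L)) =
      NN d L * ∫ V, Φ V ∂(GP (T d L)) := by
    rw [integral_finsetSum _ fun a _ => hΦi a]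
    simp only [hΦinv]
    rw [Finset.sum_const, Finset.card_univ, nsmul_eq_mul, hN]
  have hre : ∀ a : T d L, ∫ V, (A (fun z => V (z + a))).re ∂(GP (T d L)) =
      (∫ V, A V ∂(GP (T d L))).re := by
    intro a
    rw [← hAinv a]
    exact integral_re (hAm a)
  have hAr : ∀ a : T d L, Integrable (fun V => (A (fun z => V (z + a))).re) (GP (T d L)) :=
    fun a => (hAm a).re
  have hAs : Integrable (fun V => ∑ a : T d L, (A (fun z => V (z + a))).re) (GP (T d L)) :=
    integrable_finsetSum _ fun a _ => hAr a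
  have hR : ∫ V, 8 * (NN d L - ∑ a : T d L, (A (fun z => V (z + a))).re) ∂(GP (T d L)) =
      8 * (NN d L - NN d L * (∫ V, A V ∂(GP (T d L))).re) := by
    rw [integral_const_mul, integral_sub (integrable_const _) hAs, integral_const,
      integral_finsetSum _ fun a _ => hAr a]
    simp only [hre]
    rw [Finset.sum_const, Finset.card_univ, nsmul_eq_mul, hN]
    simp
  have hmono : NN d L * ∫ V, Φ V ∂(GP (T d L)) ≤
      8 * (NN d L - NN d L * (∫ V, A V ∂(GP (T d L))).re) := by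
    rw [← hL, ← hR]
    refine integral_mono (integrable_finsetSum _ fun a _ => hΦi a)
      (((integrable_const _).sub hAs).const_mul _)
      fun V => ?_
    have := hpt V
    rw [hΦ]
    exact this
  have hfin : NN d L * ∫ V, Φ V ∂(GP (T d L)) ≤
      NN d L * (8 * (1 - (∫ V, A V ∂(GP (T d L))).re)) := by
    refine hmono.trans (le_of_eq ?_)
    ring
  have := le_of_mul_le_mul_left hfin hN0
  rw [hΦ] at this
  exact this

end Pool.Agent.T2h98.QD
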