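import Pool.Agent.T2h98.QD.Ptw2
import Pool.Agent.T2h98.QD.EQT
import Pool.Agent.T2h98.QD.EQL

/-! The diffusive limit at fixed times: all parts are proved. -/

set_option autoImplicit false

open scoped BigOperators Topology
open MeasureTheory ProbabilityTheory Filter

namespace Pool.Agent.T2h98.QD.U

theorem eqlF : T_EQL := eql (eqt inv) (cmpq tail_all) law meas

theorem qdl3F {d : ℕ} (hd : 3 ≤ d) {h : ℝ} (h0 : 0 < h)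
    (h1 : h < if d = 3 then 2 / 5 else 4 / 5)
    (Ψ : (Zd d → ℝ) → ℝ → Zd d → ℂ) (hΨ : ∀ v, Evol v (Ψ v)) (Q : Fin d → ℝ) (S ε : ℝ)
    (hε : 0 < ε) :
    ∀ᶠ σ : ℝ in 𝓝[≠] 0, ∀ s : ℝ, 0 ≤ s → s ≤ S →
      ∫ ξ, ‖Fz (fun i => |σ| ^ (2 + h / 2) * Q i)
        (Ψ (fun x => σ * ξ x) (s / |σ| ^ (2 + h))) - ((F0 d Q s : ℝ) : ℂ)‖ ∂(GZ d) ≤ ε :=
  ptw_unif eqlF hd h0 h1 Ψ hΨ Q S ε hε

end Pool.Agent.T2h98.QD.U
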