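import Pool.Agent.T2h98.QD.Stm

/-! Time evolution: definitions and statements of the parts. -/

set_option autoImplicit false
set_option linter.unusedSectionVars false

open scoped BigOperators Matrix
open MeasureTheory ProbabilityTheory

namespace Pool.Agent.T2h98.QD

open Pool.Agent.W788.MFP.Four (T e NN adj K)
open Pool.Agent.W788.BK (nsq hs PP JJ hi Low cr)

/-- the lattice -/
abbrev Zd (d : ℕ) : Type := Fin d → ℤ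

/-- the unitary group `exp(-i t H)` -/
noncomputable def ev {n : Type} [Fintype n] [DecidableEq n] (H : Matrix n n ℂ) (t : ℝ) :
    Matrix n n ℂ := NormedSpace.exp ((-((t : ℂ) * Complex.I)) • H)

section

variable {d L : ℕ} [NeZero L]

/-- Abel mean of `∑_{x,y} f(x_i - y_i) |exp(-i t H)(x,y)|²` -/
noncomputable def Wt (H : Matrix (T d L) (T d L) ℂ) (i : Fin d) (M : ℕ) (τ : ℝ) : ℝ :=
  τ⁻¹ * ∫ t in Set.Ioi (0 : ℝ), Real.exp (-(t / τ)) * Phi i M (ev H t)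

/-- Abel mean of `∑_x f(x_i) |exp(-i t H)(x,0)|²` -/
noncomputable def Wl (H : Matrix (T d L) (T d L) ℂ) (i : Fin d) (M : ℕ) (τ : ℝ) : ℝ :=
  τ⁻¹ * ∫ t in Set.Ioi (0 : ℝ), Real.exp (-(t / τ)) * ∑ x, ff M (x i) * ‖ev H t x 0‖ ^ 2

/-- the representative of a point of the torus -/
def rep (k : T d L) : Zd d := fun i => (k i).valMinAbs

end

/-- the tent function on `ℤ` -/
noncomputable def fZ (M : ℕ) (a : ℤ) : ℝ := max 0 (1 - |(a : ℝ)| / M)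

/-- `ψ t = exp(-i t H) δ_0` for `H = Δ + v` on `ℤ^d` -/
structure Evol {d : ℕ} (v : Zd d → ℝ) (ψ : ℝ → Zd d → ℂ) : Prop where
  init : ψ 0 = Pi.single 0 1
  deriv : ∀ (t : ℝ) (x : Zd d), HasDerivAt (fun s => ψ s x)
    (-(Complex.I * (∑ i : Fin d, (ψ t (x + Pi.single i 1) + ψ t (x - Pi.single i 1)) +
      (v x : ℂ) * ψ t x))) t
  mass : ∀ t, HasSum (fun x => ‖ψ t x‖ ^ 2) 1

/-- Abel mean of `∑_x f(x_i) |ψ(t,x)|²` -/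
noncomputable def Wz {d : ℕ} (ψ : ℝ → Zd d → ℂ) (i : Fin d) (M : ℕ) (τ : ℝ) : ℝ :=
  τ⁻¹ * ∫ t in Set.Ioi (0 : ℝ), Real.exp (-(t / τ)) * ∑' x, fZ M (x i) * ‖ψ t x‖ ^ 2

/-- the unitary group on the torus -/
def T_UNI : Prop := ∀ (d L M : ℕ) [NeZero L] (i : Fin d), 1 ≤ M → M ≤ L →
  ∀ H : Matrix (T d L) (T d L) ℂ, H.IsHermitian →
  (∀ s τ : ℝ, 0 < s → s ≤ τ → Wt H i M τ ≤ Wt H i M s) ∧
  (∀ τ : ℝ, 0 < τ → 0 ≤ Wt H i M τ ∧ Wt H i M τ ≤ NN d L) ∧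
  (∀ (u : T d L → T d L → ℂ) (E : T d L → ℝ), (∀ j, H *ᵥ u j = (E j : ℂ) • u j) →
    (∀ j k, star (u j) ⬝ᵥ u k = if j = k then 1 else 0) → ∀ τ : ℝ, 0 < τ →
    ∑ j, Phi i M (Matrix.vecMulVec (u j) (star (u j))) ≤ Wt H i M τ) ∧
  ∀ (w τ : ℝ) (κ : ℕ), 0 < w → 1 ≤ w * τ →
    (∀ v : T d L → ℂ, nsq (H *ᵥ v) ≤ (κ * w) ^ 2 * nsq v) →
    ∃ P : ℤ → Matrix (T d L) (T d L) ℂ,
      (∀ m : ℤ, (P m).IsHermitian ∧ P m * P m = P m ∧ ∀ v : T d L → ℂ,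
        nsq ((H - ((m * w : ℝ) : ℂ) • (1 : Matrix (T d L) (T d L) ℂ)) *ᵥ (P m *ᵥ v)) ≤
          w ^ 2 * nsq (P m *ᵥ v)) ∧
      Wt H i M τ ≤ 8 * ∑ m ∈ Finset.Icc (-(κ : ℤ)) κ, Phi i M (P m)

/-- ballistic upper bound -/
def T_TAIL : Prop := ∀ d : ℕ, ∃ C : ℝ, 0 < C ∧ ∀ (v : Zd d → ℝ) (ψ : ℝ → Zd d → ℂ), Evol v ψ →
  ∀ t r : ℝ, 0 ≤ t → 0 < r → ∑' x, (if r ≤ ‖x‖ then ‖ψ t x‖ ^ 2 else 0) ≤ (C * t / r) ^ 2

/-- comparison of the lattice with the torus -/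
def T_CMP : Prop := ∀ d : ℕ, ∃ C : ℝ, 0 < C ∧ ∀ (L M : ℕ) [NeZero L] (i : Fin d), 1 ≤ M →
  2 * M ≤ L → ∀ (σ : ℝ) (ξ : Zd d → ℝ) (ψ : ℝ → Zd d → ℂ), Evol (fun x => σ * ξ x) ψ →
  ∀ τ : ℝ, 1 ≤ τ →
  |Wz ψ i M τ - Wl (HT (d := d) (L := L) σ fun k => ξ (rep k)) i M τ| ≤ C * τ ^ 2 / L

/-- existence and uniqueness of the time evolution -/
def T_EXI : Prop := ∀ (d : ℕ) (v : Zd d → ℝ), ∃! ψ : ℝ → Zd d → ℂ, Evol v ψ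

/-- the law of the potential on the torus -/
def T_LAW : Prop := ∀ (d L : ℕ) [NeZero L],
  (Measure.infinitePi fun _ : Zd d => gaussianReal 0 1).map
    (fun (ξ : Zd d → ℝ) (k : T d L) => ξ (rep k)) = GP (T d L)

/-- average over the starting point -/
def T_AVG : Prop := ∀ (d L M : ℕ) [NeZero L] (i : Fin d), 1 ≤ M → M ≤ L → ∀ σ τ : ℝ, 0 < τ →
  Measurable (fun V : T d L → ℝ => Wl (HT σ V) i M τ) ∧
  Measurable (fun V : T d L → ℝ => Wt (HT σ V) i M τ) ∧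
  (∀ V : T d L → ℝ, 0 ≤ Wl (HT σ V) i M τ ∧ Wl (HT σ V) i M τ ≤ 1) ∧
  ∫ V, Wl (HT σ V) i M τ ∂(GP (T d L)) =
    (NN d L)⁻¹ * ∫ V, Wt (HT σ V) i M τ ∂(GP (T d L))

end Pool.Agent.T2h98.QD
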