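import Pool.Agent.T2h98.QD.Energy2
import Pool.Agent.T2h98.QD.Stm2
import Pool.Agent.T2h98.QD.Avg

/-! The averaged time evolution on the torus. -/

set_option autoImplicit false
set_option linter.unusedSectionVars false

open scoped BigOperators Matrix
open MeasureTheory ProbabilityTheory

namespace Pool.Agent.T2h98.QD

open Pool.Agent.W788.MFP.Four (T e NN adj K)
open Pool.Agent.W788.BK (nsq hs PP JJ hi Low cr nsq_nonneg)
open Pool.Agent.W240.BK (BC BM)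

variable {d L : ℕ} [NeZero L]

theorem phi_smul (i : Fin d) (M : ℕ) (c : ℝ) (A : Matrix (T d L) (T d L) ℂ) :
    Phi i M ((c : ℂ) • A) = c ^ 2 * Phi i M A := by
  unfold Phi
  rw [Finset.mul_sum]
  refine Finset.sum_congr rfl fun x _ => ?_
  rw [Finset.mul_sum]
  refine Finset.sum_congr rfl fun y _ => ?_
  rw [Matrix.smul_apply, smul_eq_mul, norm_mul, mul_pow, Complex.norm_real, Real.norm_eq_abs,
    sq_abs]
  ring

theorem phi_rc (i : Fin d) (M : ℕ) {B : (T d L → ℝ) → Matrix (T d L) (T d L) ℂ}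
    (hB : BM B) : RC fun V => Phi i M (B V) := by
  unfold Phi
  exact RC.sum _ fun x _ => RC.sum _ fun y _ => (RC.const _).mul (RC.norm (hB x y)).sq

theorem nsq_add_le {n : Type} [Fintype n] (a b : n → ℂ) : nsq (a + b) ≤ 2 * nsq a + 2 * nsq b := by
  unfold nsq
  rw [Finset.mul_sum, Finset.mul_sum, ← Finset.sum_add_distrib]
  refine Finset.sum_le_sum fun i _ => ?_
  rw [Pi.add_apply]
  have h1 := norm_add_le (a i) (b i)
  have h2 : ‖a i + b i‖ ^ 2 ≤ (‖a i‖ + ‖b i‖) ^ 2 := pow_le_pow_left₀ (norm_nonneg _) h1 2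
  nlinarith [sq_nonneg (‖a i‖ - ‖b i‖)]

/-- the norm of the Hamiltonian -/
theorem ht_norm (σ : ℝ) (V : T d L → ℝ) (hV : ∀ x, |σ * V x| ≤ 1) (v : T d L → ℂ) :
    nsq (HT σ V *ᵥ v) ≤ (3 * d + 2) ^ 2 * nsq v := by
  unfold HT
  rw [Matrix.add_mulVec]
  refine (nsq_add_le _ _).trans ?_
  have h1 : nsq ((Mo fun k : T d L => ((adj k : ℝ) : ℂ)) *ᵥ v) ≤ (2 * d) ^ 2 * nsq v := by
    apply nsq_mo
    intro k
    rw [Complex.norm_real, Real.norm_eq_abs]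
    exact pow_le_pow_left₀ (abs_nonneg _) (Pool.Agent.W788.MFP.Form.adj_abs k) 2
  have h2 : nsq ((Matrix.diagonal fun x => ((σ * V x : ℝ) : ℂ)) *ᵥ v) ≤ nsq v := by
    unfold nsq
    refine Finset.sum_le_sum fun x _ => ?_
    rw [Matrix.mulVec_diagonal, norm_mul, mul_pow, Complex.norm_real, Real.norm_eq_abs]
    have h3 : |σ * V x| ^ 2 ≤ 1 := pow_le_one₀ (abs_nonneg _) (hV x)
    calc |σ * V x| ^ 2 * ‖v x‖ ^ 2 ≤ 1 * ‖v x‖ ^ 2 := by gcongr
      _ = _ := one_mul _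
  have h4 := nsq_nonneg v
  have h5 : (0 : ℝ) ≤ d := Nat.cast_nonneg d
  nlinarith

/-- the projections are bounded by the resolvent, in terms of `Phi` -/
theorem phi_proj (hphi : T_PHI) (i : Fin d) (M : ℕ) (hM1 : 1 ≤ M) (hM2 : M ≤ L)
    (P G : Matrix (T d L) (T d L) ℂ) (hP : P.IsHermitian) (hPP : P * P = P) (c : ℝ)
    (h : ∀ φ : T d L → ℂ, (star φ ⬝ᵥ (P *ᵥ φ)).re ≤ c * (star φ ⬝ᵥ (G *ᵥ φ)).im) :
    Phi i M P ≤ c ^ 2 * Phi i M G := by
  obtain ⟨-, h2, h3, -, -⟩ := hphi d L M i hM1 hM2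
  have hIm : ((2 * Complex.I)⁻¹ • (G - Gᴴ)).IsHermitian := by
    unfold Matrix.IsHermitian
    rw [Matrix.conjTranspose_smul, Matrix.conjTranspose_sub, Matrix.conjTranspose_conjTranspose]
    have e1 : star ((2 * Complex.I)⁻¹ : ℂ) = -(2 * Complex.I)⁻¹ := by
      rw [Complex.star_def, map_inv₀, map_mul, Complex.conj_I, Complex.conj_ofNat, mul_neg,
        inv_neg]
    rw [e1, neg_smul, ← smul_neg, neg_sub]
  have hform : ∀ φ : T d L → ℂ, (star φ ⬝ᵥ (((2 * Complex.I)⁻¹ • (G - Gᴴ)) *ᵥ φ)).re =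
      (star φ ⬝ᵥ (G *ᵥ φ)).im := by
    intro φ
    rw [Matrix.smul_mulVec, dotProduct_smul, Matrix.sub_mulVec, dotProduct_sub, ← star_form,
      smul_eq_mul]
    obtain ⟨z, hz⟩ : ∃ z, z = star φ ⬝ᵥ (G *ᵥ φ) := ⟨_, rfl⟩
    rw [← hz]
    have e1 : z - star z = (2 * z.im : ℝ) * Complex.I := by
      rw [Complex.star_def]
      exact Complex.sub_conj z
    rw [e1]
    have e2 : (2 * Complex.I)⁻¹ * (((2 * z.im : ℝ) : ℂ) * Complex.I) = (z.im : ℂ) := by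
      have := Complex.I_ne_zero
      push_cast
      field_simp
    rw [e2, Complex.ofReal_re]
  have hPpsd : PSD P := by
    refine ⟨hP, fun w => ?_⟩
    unfold qf
    have e1 : star w ⬝ᵥ (P *ᵥ w) = ((nsq (P *ᵥ w) : ℝ) : ℂ) := by
      rw [Pool.Agent.W788.BK.nsq_eq]
      conv_lhs => rw [← hPP]
      rw [← Matrix.mulVec_mulVec, Pool.Agent.W788.BK.adjoint, hP.eq]
    rw [e1, Complex.ofReal_re]
    exact nsq_nonneg _
  have hdiff : PSD ((c : ℂ) • ((2 * Complex.I)⁻¹ • (G - Gᴴ)) - P) := by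
    refine ⟨?_, fun w => ?_⟩
    · unfold Matrix.IsHermitian
      rw [Matrix.conjTranspose_sub, Matrix.conjTranspose_smul, hIm.eq, hP.eq, Complex.star_def,
        Complex.conj_ofReal]
    · unfold qf
      rw [Matrix.sub_mulVec, dotProduct_sub, Matrix.smul_mulVec, dotProduct_smul, Complex.sub_re,
        smul_eq_mul, Complex.re_ofReal_mul, hform]
      linarith [h w]
  refine (h2 P _ hPpsd hdiff).trans ?_
  rw [phi_smul]
  exact mul_le_mul_of_nonneg_left (h3 G) (sq_nonneg c)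

/-- **the time averaged evolution on the torus** -/
theorem torus_wt (hkq : T_KQ) (htent : T_TENT) (hphi : T_PHI) (hwin : T_WIN) (huni : T_UNI)
    (havg : T_AVG) (i : Fin d) (M : ℕ) (hM1 : 1 ≤ M) (hM2 : M ≤ L)
    (σ δ η θ t τ B : ℝ) (hσ : 0 < σ) (hδ : 0 < δ) (hη : 0 < η) (hη1 : η ≤ 1)
    (hηδ : η * δ ≤ 1 / 2) (ht0 : 0 ≤ t) (ht : σ * t ≤ 1 / 2) (hτ : 1 ≤ η * δ * τ) (hB0 : 0 ≤ B)
    (hpar : ∀ E : ℝ, ∃ ν Q0 g cn : ℝ, Par d L σ E δ θ η ν Q0 g cn)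
    (hB : ∀ E : ℝ, η * δ * ((NN d L)⁻¹ * ∫ V, Phi i M (Gt (d := d) (L := L) σ E δ θ η V)
      ∂(GP (T d L))) ≤ B)
    (Ω : Set (T d L → ℝ)) (hΩ : MeasurableSet Ω)
    (hgood : ∀ ξ ∈ Ω, (∀ (E : ℝ) (w : T d L → ℝ), |∑ z, ξ z * w z ^ 2| ≤
        t * Pool.Agent.W788.MFP.Four.q (JJ E δ) w) ∧
      (∀ z : T d L, |σ * ∑ y, ξ y * K (fun Q => 1 - hi θ Q) (z - y)| ≤ η * δ) ∧
      ∀ z : T d L, |σ * ξ z| ≤ 1) :
    (NN d L)⁻¹ * ∫ V, Wt (HT σ V) i M τ ∂(GP (T d L)) ≤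
      (GP (T d L)).real Ωᶜ + 2048 * (6 * d + 6) * B := by
  have hw : 0 < η * δ := mul_pos hη hδ
  have hτ0 : 0 < τ := by
    by_contra h
    push Not at h
    have : η * δ * τ ≤ 0 := mul_nonpos_of_nonneg_of_nonpos hw.le h
    linarith
  have hN := Pool.Agent.W788.MFP.Four.NN_pos (d := d) (L := L)
  have hd0 : (0 : ℝ) ≤ d := Nat.cast_nonneg d
  obtain ⟨κ, hκ⟩ : ∃ κ : ℕ, κ = ⌈(3 * (d : ℝ) + 2) / (η * δ)⌉₊ := ⟨_, rfl⟩
  have hκ1 : 3 * (d : ℝ) + 2 ≤ κ * (η * δ) := by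
    rw [← div_le_iff₀ hw, hκ]
    exact Nat.le_ceil _
  have hκ2 : (κ : ℝ) * (η * δ) ≤ 3 * d + 2 + η * δ := by
    have h1 : (κ : ℝ) ≤ (3 * (d : ℝ) + 2) / (η * δ) + 1 := by
      rw [hκ]
      exact (Nat.ceil_lt_add_one (by positivity)).le
    calc (κ : ℝ) * (η * δ) ≤ ((3 * (d : ℝ) + 2) / (η * δ) + 1) * (η * δ) := by gcongr
      _ = _ := by
        field_simp
  obtain ⟨-, hWm, -, -⟩ := havg d L M i hM1 hM2 σ τ hτ0
  -- the pointwise bound
  have hbm : ∀ E : ℝ, BM fun V : T d L → ℝ => Gt σ E δ θ η V := fun E => by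
    obtain ⟨ν, Q0, g, cn, p⟩ := hpar E
    exact bm_gg (p.sys hkq)
  have hPrc : ∀ m : ℤ, RC fun V : T d L → ℝ => Phi i M (Gt σ (m * (η * δ)) δ θ η V) :=
    fun m => phi_rc i M (hbm _)
  have hPnn : ∀ (m : ℤ) (V : T d L → ℝ), 0 ≤ Phi i M (Gt σ (m * (η * δ)) δ θ η V) := by
    intro m V
    unfold Phi
    obtain ⟨-, -, -, t4, -, -, -⟩ := htent L M hM1 hM2
    exact Finset.sum_nonneg fun x _ => Finset.sum_nonneg fun y _ =>
      mul_nonneg (t4 _).1 (by positivity)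
  have hpt : ∀ V : T d L → ℝ, Wt (HT σ V) i M τ ≤ Ωᶜ.indicator (fun _ => NN d L) V +
      8 * (16 * (η * δ)) ^ 2 * ∑ m ∈ Finset.Icc (-(κ : ℤ)) κ,
        Phi i M (Gt σ (m * (η * δ)) δ θ η V) := by
    intro V
    have hherm := HT_herm (d := d) (L := L) σ V
    obtain ⟨-, u2, -, u4⟩ := huni d L M i hM1 hM2 (HT σ V) hherm
    by_cases hV : V ∈ Ω
    · rw [Set.indicator_of_notMem (by simpa using hV), zero_add]
      obtain ⟨g1, g2, g3⟩ := hgood V hV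
      obtain ⟨P, hP, hWP⟩ := u4 (η * δ) τ κ hw hτ (fun v => by
        refine (ht_norm σ V g3 v).trans ?_
        apply mul_le_mul_of_nonneg_right _ (nsq_nonneg v)
        exact pow_le_pow_left₀ (by positivity) hκ1 2)
      refine hWP.trans ?_
      rw [mul_assoc 8]
      apply mul_le_mul_of_nonneg_left _ (by norm_num)
      rw [Finset.mul_sum]
      refine Finset.sum_le_sum fun m _ => ?_
      obtain ⟨p1, p2, p3⟩ := hP m
      apply phi_proj hphi i M hM1 hM2 _ _ p1 p2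
      intro φ
      have e1 := hwin d L (m * (η * δ)) δ θ η t σ hδ hη hη1 ht0 hσ.le ht V (g1 _) g2 (P m) p1 p2
        (fun v => by
          have := p3 v
          push_cast at this ⊢
          exact this) φ
      rw [mul_assoc 16] at e1
      exact e1
    · rw [Set.indicator_of_mem (by simpa using hV)]
      have e1 := (u2 τ hτ0).2
      have e2 : 0 ≤ 8 * (16 * (η * δ)) ^ 2 * ∑ m ∈ Finset.Icc (-(κ : ℤ)) κ,
          Phi i M (Gt σ (m * (η * δ)) δ θ η V) :=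
        mul_nonneg (by positivity) (Finset.sum_nonneg fun m _ => hPnn m V)
      linarith
  have hWt0 : ∀ V : T d L → ℝ, 0 ≤ Wt (HT σ V) i M τ ∧ Wt (HT σ V) i M τ ≤ NN d L := fun V =>
    (huni d L M i hM1 hM2 (HT σ V) (HT_herm (d := d) (L := L) σ V)).2.1 τ hτ0
  have i1 : Integrable (fun V : T d L → ℝ => Wt (HT σ V) i M τ) (GP (T d L)) :=
    Integrable.of_bound hWm.aestronglyMeasurable (NN d L) (Filter.Eventually.of_forall fun V => by
      rw [Real.norm_of_nonneg (hWt0 V).1]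
      exact (hWt0 V).2)
  have i2 : Integrable (fun V : T d L → ℝ => Ωᶜ.indicator (fun _ => NN d L) V) (GP (T d L)) :=
    (integrable_const _).indicator hΩ.compl
  have i3 : Integrable (fun V : T d L → ℝ => 8 * (16 * (η * δ)) ^ 2 *
      ∑ m ∈ Finset.Icc (-(κ : ℤ)) κ, Phi i M (Gt σ (m * (η * δ)) δ θ η V)) (GP (T d L)) :=
    ((RC.const _).mul (RC.sum _ fun m _ => hPrc m)).integrable
  have hmain : ∫ V, Wt (HT σ V) i M τ ∂(GP (T d L)) ≤ NN d L * (GP (T d L)).real Ωᶜ +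
      8 * (16 * (η * δ)) ^ 2 * ∑ m ∈ Finset.Icc (-(κ : ℤ)) κ,
        ∫ V, Phi i M (Gt σ (m * (η * δ)) δ θ η V) ∂(GP (T d L)) := by
    refine (integral_mono i1 (i2.add i3) hpt).trans (le_of_eq ?_)
    simp only [Pi.add_apply]
    rw [integral_add i2 i3, integral_indicator_const _ hΩ.compl, integral_const_mul,
      integral_finsetSum _ fun m _ => (hPrc m).integrable, smul_eq_mul]
    ring
  have hterm : ∀ m : ℤ, (η * δ) * ∫ V, Phi i M (Gt (d := d) (L := L) σ (m * (η * δ)) δ θ η V)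
      ∂(GP (T d L)) ≤ NN d L * B := by
    intro m
    have h1 := hB (m * (η * δ))
    have h2 : η * δ * ((NN d L)⁻¹ * ∫ V, Phi i M (Gt (d := d) (L := L) σ (m * (η * δ)) δ θ η V)
      ∂(GP (T d L))) = (NN d L)⁻¹ * ((η * δ) * ∫ V, Phi i M (Gt (d := d) (L := L) σ
        (m * (η * δ)) δ θ η V) ∂(GP (T d L))) := by ring
    rw [h2, inv_mul_le_iff₀ hN] at h1
    exact h1
  rw [inv_mul_le_iff₀ hN]
  refine hmain.trans ?_
  have hcard : ((Finset.Icc (-(κ : ℤ)) κ).card : ℝ) = 2 * κ + 1 := by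
    rw [Int.card_Icc]
    have e1 : ((κ : ℤ) + 1 - -(κ : ℤ)).toNat = 2 * κ + 1 := by omega
    rw [e1]
    push_cast
    ring
  have hsum : (η * δ) * ∑ m ∈ Finset.Icc (-(κ : ℤ)) κ,
        ∫ V, Phi i M (Gt (d := d) (L := L) σ (m * (η * δ)) δ θ η V) ∂(GP (T d L)) ≤
      (2 * κ + 1) * (NN d L * B) := by
    rw [Finset.mul_sum, ← hcard, ← nsmul_eq_mul, ← Finset.sum_const]
    exact Finset.sum_le_sum fun m _ => hterm m
  calc NN d L * (GP (T d L)).real Ωᶜ + 8 * (16 * (η * δ)) ^ 2 *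
        ∑ m ∈ Finset.Icc (-(κ : ℤ)) κ,
          ∫ V, Phi i M (Gt (d := d) (L := L) σ (m * (η * δ)) δ θ η V) ∂(GP (T d L)) =
      NN d L * (GP (T d L)).real Ωᶜ + 2048 * (η * δ) * ((η * δ) *
        ∑ m ∈ Finset.Icc (-(κ : ℤ)) κ,
          ∫ V, Phi i M (Gt (d := d) (L := L) σ (m * (η * δ)) δ θ η V) ∂(GP (T d L))) := by ring
    _ ≤ NN d L * (GP (T d L)).real Ωᶜ + 2048 * (η * δ) * ((2 * κ + 1) * (NN d L * B)) := by
        gcongr
    _ = NN d L * ((GP (T d L)).real Ωᶜ + 2048 * (2 * (κ * (η * δ)) + η * δ) * B) := by ring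
    _ ≤ NN d L * ((GP (T d L)).real Ωᶜ + 2048 * (6 * d + 6) * B) := by
        apply mul_le_mul_of_nonneg_left _ hN.le
        apply add_le_add le_rfl
        apply mul_le_mul_of_nonneg_right _ hB0
        apply mul_le_mul_of_nonneg_left _ (by norm_num)
        linarith

end Pool.Agent.T2h98.QD
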