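import Pool.Agent.W788.BK.Cont
import Pool.Agent.W788.MFP.Form

/-! Weak disorder beyond the mean free path: definitions. -/

set_option autoImplicit false
set_option linter.unusedSectionVars false

open scoped BigOperators Matrix
open MeasureTheory ProbabilityTheory

namespace Pool.Agent.T2h98.QD

open Pool.Agent.W788.MFP.Four (T e NN adj K)
open Pool.Agent.W788.BK (nsq hs PP JJ hi Low cr)

/-- iid standard Gaussian variables -/
noncomputable abbrev GP (m : Type) [Fintype m] : Measure (m → ℝ) := PP m (gaussianReal 0 1)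

section abs

variable {n m : Type} [Fintype n] [DecidableEq n] [Fintype m] [DecidableEq m]

/-- the quadratic form `⟨w, J w⟩` -/
noncomputable def qf (J : Matrix n n ℂ) (w : n → ℂ) : ℝ := (star w ⬝ᵥ (J *ᵥ w)).re

/-- `h + ∑ V_y A_y - i η J` -/
noncomputable def XG (h J : Matrix n n ℂ) (A : m → Matrix n n ℂ) (η : ℝ) (V : m → ℝ) :
    Matrix n n ℂ := h + ∑ y, (V y : ℂ) • A y - ((η : ℂ) * Complex.I) • J

/-- `(h + ∑ V_y A_y - i η J)⁻¹` -/
noncomputable def GG (h J : Matrix n n ℂ) (A : m → Matrix n n ℂ) (η : ℝ) (V : m → ℝ) :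
    Matrix n n ℂ := (XG h J A η V)⁻¹

/-- conjugation by the diagonal matrix `u` -/
noncomputable def cj (u : n → ℂ) (Z : Matrix n n ℂ) : Matrix n n ℂ :=
  Matrix.of fun x y => u x * Z x y * star (u y)

/-- hypotheses on the matrices -/
structure Sys (h J : Matrix n n ℂ) (A : m → Matrix n n ℂ) (η δ Q : ℝ) : Prop where
  hh : h.IsHermitian
  hJ : J.IsHermitian
  hA : ∀ y, (A y).IsHermitian
  hη : 0 < η
  hδ : 0 < δ
  hQ0 : 0 ≤ Q
  hJδ : ∀ w : n → ℂ, δ * nsq w ≤ qf J w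
  hQ : ∀ a b : n → ℂ, ∑ y, ‖star a ⬝ᵥ (A y *ᵥ b)‖ ^ 2 ≤ Q * (qf J a * qf J b)

/-- positive semidefinite matrices -/
def PSD (A : Matrix n n ℂ) : Prop := A.IsHermitian ∧ ∀ w : n → ℂ, 0 ≤ qf A w

/-- unit vectors -/
noncomputable def dl (x : n) : n → ℂ := Pi.single x 1

end abs

section torus

variable {d L : ℕ} [NeZero L]

/-- Fourier multipliers -/
noncomputable def Mo (m : T d L → ℂ) : Matrix (T d L) (T d L) ℂ :=
  Matrix.of fun x y => ((NN d L : ℝ) : ℂ)⁻¹ * ∑ k, m k * e k (y - x)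

/-- the filtered indicator function of the site `y` -/
noncomputable def PY (θ : ℝ) (y : T d L) : Matrix (T d L) (T d L) ℂ :=
  Matrix.diagonal fun x => ((K (hi θ) (x - y) : ℝ) : ℂ)

/-- `Δ - E` -/
noncomputable def h0 (E : ℝ) : Matrix (T d L) (T d L) ℂ := Mo fun k => ((adj k - E : ℝ) : ℂ)

/-- `|Δ - E - i δ|` -/
noncomputable def J0 (E δ : ℝ) : Matrix (T d L) (T d L) ℂ := Mo fun k => ((JJ E δ k : ℝ) : ℂ)

/-- the resolvent `(Δ - E + σ (filtered potential) - i η |Δ - E - i δ|)⁻¹` -/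
noncomputable def Gt (σ E δ θ η : ℝ) (V : T d L → ℝ) : Matrix (T d L) (T d L) ℂ :=
  GG (h0 E) (J0 E δ) (fun y => (σ : ℂ) • PY θ y) η V

/-- the Hamiltonian `Δ + σ ξ` on the torus -/
noncomputable def HT (σ : ℝ) (ξ : T d L → ℝ) : Matrix (T d L) (T d L) ℂ :=
  Mo (fun k => ((adj k : ℝ) : ℂ)) + Matrix.diagonal fun x => ((σ * ξ x : ℝ) : ℂ)

/-- the tent function on `ℤ/L` -/
noncomputable def ff (M : ℕ) (m : ZMod L) : ℝ :=
  (M : ℝ)⁻¹ * (((Finset.range M ×ˢ Finset.range M).filter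
    fun p => ((p.1 : ℕ) : ZMod L) - ((p.2 : ℕ) : ZMod L) = m).card : ℝ)

/-- its Fourier transform -/
noncomputable def fh (M : ℕ) (q : ZMod L) : ℝ :=
  (L : ℝ)⁻¹ * (M : ℝ)⁻¹ *
    ‖∑ a ∈ Finset.range M, (ZMod.stdAddChar (q * ((a : ℕ) : ZMod L)) : ℂ)‖ ^ 2

/-- `∑_{x,y} f(x_i - y_i) |A(x,y)|²` -/
noncomputable def Phi (i : Fin d) (M : ℕ) (A : Matrix (T d L) (T d L) ℂ) : ℝ :=
  ∑ x, ∑ y, ff M (x i - y i) * ‖A x y‖ ^ 2

/-- the momentum `q` in direction `i` -/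
noncomputable def qi (i : Fin d) (q : ZMod L) : T d L := Pi.single i q

end torus

end Pool.Agent.T2h98.QD
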