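import Pool.Agent.T2h98.QD.Poi

/-! The density of states and the density of the squared velocity (DOS). -/

set_option autoImplicit false
set_option linter.unusedSectionVars false

open scoped BigOperators Topology FourierTransform
open MeasureTheory Filter Set

namespace Pool.Agent.T2h98.QD

open Pool.Agent.W788.MFP.Four (T NN NN_pos adj)
open Pool.Agent.W788.BK (cr)

namespace Dos0

section inversion

variable {φ : ℝ → ℂ} {g : ℝ → ℝ}

/-- the unnormalized transform -/
noncomputable def G (φ : ℝ → ℂ) (E : ℝ) : ℂ :=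
  ∫ s : ℝ, Complex.exp (((-(E * s) : ℝ) : ℂ) * Complex.I) * φ s

lemma G_cont (hc : Continuous φ) (hi : Integrable φ) : Continuous (G φ) := by
  unfold G
  refine continuous_of_dominated (bound := fun s => ‖φ s‖) ?_ ?_ hi.norm ?_
  · intro E
    exact (Continuous.mul (by fun_prop) hc).aestronglyMeasurable
  · intro E
    refine ae_of_all _ fun s => ?_
    rw [norm_mul, Complex.norm_exp_ofReal_mul_I, one_mul]
  · refine ae_of_all _ fun s => ?_
    fun_prop

lemma G_real (hs : ∀ s, φ (-s) = (starRingEnd ℂ) (φ s)) (E : ℝ) :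
    (((G φ E).re : ℝ) : ℂ) = G φ E := by
  have h1 : (starRingEnd ℂ) (G φ E) = G φ E := by
    unfold G
    rw [← integral_conj, ← integral_neg_eq_self]
    congr 1
    funext s
    rw [map_mul, hs, Complex.conj_conj, ← Complex.exp_conj, map_mul, Complex.conj_ofReal,
      Complex.conj_I]
    congr 2
    push_cast
    ring
  exact Complex.conj_eq_iff_re.1 h1

/-- Fourier inversion -/
theorem inversion (hc : Continuous φ) (hi : Integrable φ)
    (hs : ∀ s, φ (-s) = (starRingEnd ℂ) (φ s))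
    (hg : ∀ E, g E = (((2 * Real.pi : ℝ) : ℂ)⁻¹ *
      ∫ s : ℝ, Complex.exp (((-(E * s) : ℝ) : ℂ) * Complex.I) * φ s).re) :
    Continuous g ∧ (Integrable g → ∀ t : ℝ,
      ∫ E : ℝ, Complex.exp (((t * E : ℝ) : ℂ) * Complex.I) * ((g E : ℝ) : ℂ) = φ t) := by
  have hpi := Real.pi_pos
  have h1 : ∀ E, g E = (2 * Real.pi)⁻¹ * (G φ E).re := by
    intro E
    rw [hg]
    have e : ((2 * Real.pi : ℝ) : ℂ)⁻¹ = (((2 * Real.pi)⁻¹ : ℝ) : ℂ) := by push_cast; rfl
    rw [e, Complex.re_ofReal_mul]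
    rfl
  have hgc : Continuous g := by
    have : g = fun E => (2 * Real.pi)⁻¹ * (G φ E).re := funext h1
    rw [this]
    exact continuous_const.mul (Complex.continuous_re.comp (G_cont hc hi))
  refine ⟨hgc, fun hgi t => ?_⟩
  have h2 : ∀ w : ℝ, 𝓕 φ w = ((2 * Real.pi * g (2 * Real.pi * w) : ℝ) : ℂ) := by
    intro w
    rw [Real.fourier_real_eq_integral_exp_smul, h1]
    have e : 2 * Real.pi * ((2 * Real.pi)⁻¹ * (G φ (2 * Real.pi * w)).re) =
        (G φ (2 * Real.pi * w)).re := by field_simp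
    rw [e, G_real hs]
    unfold G
    congr 1
    funext s
    rw [smul_eq_mul]
    congr 3
    push_cast
    ring
  have h3 : Integrable (𝓕 φ) := by
    have e : 𝓕 φ = fun w : ℝ => ((2 * Real.pi * g (2 * Real.pi * w) : ℝ) : ℂ) := funext h2
    rw [e]
    exact ((hgi.comp_mul_left' (by positivity : 2 * Real.pi ≠ 0)).const_mul _).ofReal
  have h4 := congrFun (hc.fourierInv_fourier_eq hi h3) t
  rw [Real.fourierInv_eq'] at h4
  rw [← h4]
  have h5 : ∀ v : ℝ, Complex.exp (((2 * Real.pi * inner ℝ v t : ℝ) : ℂ) * Complex.I) • 𝓕 φ v =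
      ((2 * Real.pi : ℝ) : ℂ) * (fun E : ℝ => Complex.exp (((t * E : ℝ) : ℂ) * Complex.I) *
        ((g E : ℝ) : ℂ)) (2 * Real.pi * v) := by
    intro v
    rw [h2, smul_eq_mul]
    simp only [RCLike.inner_apply, conj_trivial]
    push_cast
    have e : Complex.exp (2 * (Real.pi : ℂ) * ((t : ℂ) * v) * Complex.I) =
        Complex.exp ((t : ℂ) * (2 * Real.pi * v) * Complex.I) := by congr 1; ring
    rw [e]
    ring
  have h7 := Measure.integral_comp_mul_left (fun E : ℝ => Complex.exp (((t * E : ℝ) : ℂ) *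
    Complex.I) * ((g E : ℝ) : ℂ)) (2 * Real.pi)
  rw [integral_congr_ae (ae_of_all _ h5), integral_const_mul, h7,
    abs_of_pos (by positivity : 0 < (2 * Real.pi)⁻¹), Complex.real_smul, ← mul_assoc,
    ← Complex.ofReal_mul, mul_inv_cancel₀ (by positivity : (2 * Real.pi) ≠ 0),
    Complex.ofReal_one, one_mul]

end inversion

section law

/-- the law of the energy -/
theorem law {d : ℕ} {w : Fin d → ℝ → ℝ} (hw : ∀ i, Continuous (w i)) (hw0 : ∀ i k, 0 ≤ w i k)
    {g : ℝ → ℝ} (hg0 : ∀ E, 0 ≤ g E) (hgc : Continuous g) (hgi : Integrable g)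
    (hchar : ∀ t : ℝ, ∫ E : ℝ, Complex.exp (((t * E : ℝ) : ℂ) * Complex.I) * ((g E : ℝ) : ℂ) =
      ∏ i, (((2 * Real.pi : ℝ) : ℂ)⁻¹ * ∫ k in (-Real.pi)..Real.pi, ((w i k : ℝ) : ℂ) *
        Complex.exp (((2 * t * Real.cos k : ℝ) : ℂ) * Complex.I)))
    {f : ℝ → ℝ} (hf : Continuous f) :
    (2 * Real.pi)⁻¹ ^ d * ∫ k in Set.Icc (fun _ : Fin d => -Real.pi) (fun _ => Real.pi),
      (∏ i, w i (k i)) * f (∑ i, 2 * Real.cos (k i)) = ∫ E : ℝ, f E * g E := by
  have hpi := Real.pi_pos
  set μ0 : Measure (Fin d → ℝ) :=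
    volume.restrict (Set.Icc (fun _ : Fin d => -Real.pi) (fun _ => Real.pi)) with hμ0
  set ρ : (Fin d → ℝ) → ℝ := fun k => (2 * Real.pi)⁻¹ ^ d * ∏ i, w i (k i) with hρ
  set X : (Fin d → ℝ) → ℝ := fun k => ∑ i, 2 * Real.cos (k i) with hX
  have hρc : Continuous ρ := by
    refine continuous_const.mul (continuous_finsetProd _ fun i _ => ?_)
    exact (hw i).comp (continuous_apply i)
  have hρ0 : ∀ k, 0 ≤ ρ k := fun k => by
    have : 0 ≤ ∏ i, w i (k i) := Finset.prod_nonneg fun i _ => hw0 i _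
    positivity
  have hXc : Continuous X := by fun_prop
  have hρi : Integrable ρ μ0 := hρc.integrableOn_Icc
  set μ1 : Measure (Fin d → ℝ) := μ0.withDensity fun k => ENNReal.ofReal (ρ k) with hμ1
  have hf1 : IsFiniteMeasure μ1 := isFiniteMeasure_withDensity_ofReal hρi.2
  set ν : Measure ℝ := μ1.map X with hν
  set ν2 : Measure ℝ := volume.withDensity fun E => ENNReal.ofReal (g E) with hν2
  have hf2 : IsFiniteMeasure ν2 := isFiniteMeasure_withDensity_ofReal hgi.2
  have hfν : IsFiniteMeasure ν := by rw [hν]; infer_instance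
  -- integrals
  have i1 : ∀ {F : Type} [NormedAddCommGroup F] [NormedSpace ℝ F] (h : ℝ → F), Continuous h →
      ∫ x, h x ∂ν = ∫ k, ρ k • h (X k) ∂μ0 := by
    intro F _ _ h hh
    rw [hν, integral_map hXc.aemeasurable, hμ1,
      integral_withDensity_eq_integral_toReal_smul (hρc.measurable.ennreal_ofReal)
        (ae_of_all _ fun _ => ENNReal.ofReal_lt_top)]
    · congr 1
      funext k
      rw [ENNReal.toReal_ofReal (hρ0 k)]
    · exact hh.aestronglyMeasurable
  have i2 : ∀ {F : Type} [NormedAddCommGroup F] [NormedSpace ℝ F] (h : ℝ → F),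
      ∫ x, h x ∂ν2 = ∫ E, g E • h E := by
    intro F _ _ h
    rw [hν2, integral_withDensity_eq_integral_toReal_smul (hgc.measurable.ennreal_ofReal)
        (ae_of_all _ fun _ => ENNReal.ofReal_lt_top)]
    congr 1
    funext E
    rw [ENNReal.toReal_ofReal (hg0 E)]
  have hμν : ν = ν2 := by
    apply Measure.ext_of_charFun
    funext t
    rw [charFun_apply_real, charFun_apply_real, i1 (fun x : ℝ => Complex.exp (t * x * Complex.I))
      (by fun_prop), i2]
    have e2 : ∫ E : ℝ, g E • Complex.exp (t * E * Complex.I) =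
        ∫ E : ℝ, Complex.exp (((t * E : ℝ) : ℂ) * Complex.I) * ((g E : ℝ) : ℂ) := by
      congr 1
      funext E
      rw [Complex.real_smul]
      push_cast
      ring
    rw [e2, hchar]
    have e3 : ∀ k : Fin d → ℝ, ρ k • Complex.exp (t * (X k : ℝ) * Complex.I) =
        (((2 * Real.pi : ℝ) : ℂ)⁻¹) ^ d * ∏ i, (((w i (k i) : ℝ) : ℂ) *
          Complex.exp (((2 * t * Real.cos (k i) : ℝ) : ℂ) * Complex.I)) := by
      intro k
      rw [Complex.real_smul, Finset.prod_mul_distrib, ← Complex.exp_sum]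
      simp only [hρ, hX]
      push_cast
      rw [mul_assoc]
      congr 3
      rw [← Finset.sum_mul]
      congr 1
      rw [Finset.mul_sum]
      apply Finset.sum_congr rfl
      intro i _
      ring
    simp only [e3]
    rw [integral_const_mul]
    have e4 : μ0 = Measure.pi fun _ : Fin d => volume.restrict (Set.Icc (-Real.pi) Real.pi) := by
      rw [hμ0, ← Set.pi_univ_Icc]
      exact Measure.restrict_pi_pi _ _
    rw [e4, integral_fintype_prod_eq_prod (f := fun (i : Fin d) (x : ℝ) => ((w i x : ℝ) : ℂ) *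
          Complex.exp (((2 * t * Real.cos x : ℝ) : ℂ) * Complex.I)),
      Finset.prod_mul_distrib, Finset.prod_const, Finset.card_univ, Fintype.card_fin]
    congr 1
    apply Finset.prod_congr rfl
    intro i _
    rw [intervalIntegral.integral_of_le (by linarith), integral_Icc_eq_integral_Ioc]
  have h1 := i1 f hf
  have h2 := i2 f
  rw [hμν, h2] at h1
  have e5 : ∫ E : ℝ, f E * g E = ∫ E : ℝ, g E • f E := by
    congr 1
    funext E
    rw [smul_eq_mul, mul_comm]
  rw [e5, h1, ← integral_const_mul]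
  congr 1
  funext k
  simp only [hρ, hX, smul_eq_mul]
  ring

end law

section poi

variable {d : ℕ} (hd : 3 ≤ d) (hp : T_POI)

lemma exists_L {r Γ : ℝ} (hr : 0 < r) (hΓ : 0 < Γ) : ∃ L : ℕ, ∃ _ : NeZero L,
    1 / (L : ℝ) ≤ r * Γ ^ 2 := by
  obtain ⟨n, hn⟩ := exists_nat_gt (1 / (r * Γ ^ 2))
  have h0 : 0 < r * Γ ^ 2 := by positivity
  have hn0 : (0 : ℝ) < n := lt_trans (by positivity) hn
  refine ⟨n, ⟨by rintro rfl; simp at hn0⟩, ?_⟩
  rw [div_le_iff₀ hn0]
  rw [div_lt_iff₀ h0] at hn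
  linarith

include hd hp in
lemma nonneg (E : ℝ) : 0 ≤ dn d E ∧ 0 ≤ dw d E := by
  have hpi := Real.pi_pos
  have key : ∀ η : ℝ, 0 < η → -η ≤ Real.pi * dn d E ∧ -η ≤ Real.pi * dw d E := by
    intro η hη
    obtain ⟨r, hr, h⟩ := hp d hd η hη
    obtain ⟨L, hL, hL2⟩ := exists_L hr (Γ := r / 2) (by positivity)
    have h1 := h E E (r / 2) L (by simpa using hr) (by positivity) (by linarith) hL2
    have hcr : ∀ j : ZMod L, |cr j| ≤ 1 := by
      intro j
      unfold cr
      refine (Complex.abs_re_le_norm _).trans ?_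
      rw [ZMod.stdAddChar_apply]
      exact (Circle.norm_coe _).le
    have hNN : 0 < NN d L := NN_pos
    constructor
    · have h2 := (abs_le.1 h1.1).2
      have h3 : 0 ≤ (NN d L)⁻¹ * ∑ k : T d L, (r / 2) / ((adj k - E) ^ 2 + (r / 2) ^ 2) := by
        positivity
      linarith
    · have h2 := (abs_le.1 (h1.2 ⟨0, by omega⟩)).2
      have h3 : 0 ≤ (NN d L)⁻¹ * ∑ k : T d L, 4 * (1 - cr (k ⟨0, by omega⟩) ^ 2) *
          (2 * (r / 2) ^ 3 / ((adj k - E) ^ 2 + (r / 2) ^ 2) ^ 2) := by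
        apply mul_nonneg (by positivity)
        apply Finset.sum_nonneg
        intro k _
        have h4 := abs_le.1 (hcr (k ⟨0, by omega⟩))
        have h5 : 0 ≤ 1 - cr (k ⟨0, by omega⟩) ^ 2 := by nlinarith [h4.1, h4.2]
        positivity
      linarith
  constructor
  · by_contra hlt
    rw [not_le] at hlt
    have h1 := (key (-(Real.pi * dn d E) / 2) (by nlinarith)).1
    nlinarith
  · by_contra hlt
    rw [not_le] at hlt
    have h1 := (key (-(Real.pi * dw d E) / 2) (by nlinarith)).2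
    nlinarith

lemma adj_le {L : ℕ} [NeZero L] (k : T d L) : |adj k| ≤ 2 * d := by
  rw [Poi0.adj_sum]
  refine (Finset.abs_sum_le_sum_abs _ _).trans ?_
  calc ∑ i, |2 * cr (k i)| ≤ ∑ _i : Fin d, (2 : ℝ) := by
        apply Finset.sum_le_sum
        intro i _
        rw [abs_mul, abs_of_pos (by norm_num : (0:ℝ) < 2)]
        have : |cr (k i)| ≤ 1 := by
          unfold cr
          refine (Complex.abs_re_le_norm _).trans ?_
          rw [ZMod.stdAddChar_apply]
          exact (Circle.norm_coe _).le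
        linarith
    _ = 2 * d := by
        rw [Finset.sum_const, Finset.card_univ, Fintype.card_fin, nsmul_eq_mul]; ring

lemma mean_le {L : ℕ} [NeZero L] {F : T d L → ℝ} {M : ℝ} (h : ∀ k, F k ≤ M) :
    (NN d L)⁻¹ * ∑ k, F k ≤ M := by
  have hNN : 0 < NN d L := NN_pos
  rw [inv_mul_le_iff₀ hNN]
  calc ∑ k, F k ≤ ∑ _k : T d L, M := Finset.sum_le_sum fun k _ => h k
    _ = NN d L * M := by
        rw [Finset.sum_const, Finset.card_univ, Fintype.card_pi, nsmul_eq_mul]
        congr 1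
        unfold NN
        push_cast [ZMod.card]
        rw [Finset.prod_const, Finset.card_univ, Fintype.card_fin]

include hd hp in
lemma zero_of_gt {E : ℝ} (hE : 2 * (d : ℝ) < |E|) : dn d E = 0 ∧ dw d E = 0 := by
  have hpi := Real.pi_pos
  obtain ⟨n1, n2⟩ := nonneg hd hp E
  set g := |E| - 2 * d with hg
  have hg0 : 0 < g := by linarith
  have key : ∀ η : ℝ, 0 < η → Real.pi * dn d E ≤ 2 * η ∧ Real.pi * dw d E ≤ 2 * η := by
    intro η hη
    obtain ⟨r, hr, h⟩ := hp d hd η hη
    set Γ := min (r / 2) (min 1 (min (η * g ^ 2) (η * g ^ 4 / 8))) with hΓ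
    have hΓ0 : 0 < Γ := by positivity
    have hΓr : Γ < r := (min_le_left _ _).trans_lt (by linarith)
    have hΓ1 : Γ ≤ 1 := (min_le_right _ _).trans (min_le_left _ _)
    have hΓ2 : Γ ≤ η * g ^ 2 := (min_le_right _ _).trans ((min_le_right _ _).trans (min_le_left _ _))
    have hΓ3 : Γ ≤ η * g ^ 4 / 8 :=
      (min_le_right _ _).trans ((min_le_right _ _).trans (min_le_right _ _))
    obtain ⟨L, hL, hL2⟩ := exists_L hr hΓ0
    have h1 := h E E Γ L (by simpa using hr) hΓ0 hΓr hL2
    have hfar : ∀ k : T d L, g ^ 2 ≤ (adj k - E) ^ 2 := by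
      intro k
      have h2 := adj_le k
      have h3 : g ≤ |adj k - E| := by
        have := abs_sub_abs_le_abs_sub E (adj k)
        rw [abs_sub_comm] at this
        linarith
      rw [← sq_abs (adj k - E)]
      exact pow_le_pow_left₀ hg0.le h3 2
    constructor
    · have h2 := (abs_le.1 h1.1).1
      have h3 : (NN d L)⁻¹ * ∑ k : T d L, Γ / ((adj k - E) ^ 2 + Γ ^ 2) ≤ η := by
        apply mean_le
        intro k
        rw [div_le_iff₀ (by positivity)]
        have := hfar k
        nlinarith [sq_nonneg Γ]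
      linarith
    · have h2 := (abs_le.1 (h1.2 ⟨0, by omega⟩)).1
      have h3 : (NN d L)⁻¹ * ∑ k : T d L, 4 * (1 - cr (k ⟨0, by omega⟩) ^ 2) *
          (2 * Γ ^ 3 / ((adj k - E) ^ 2 + Γ ^ 2) ^ 2) ≤ η := by
        apply mean_le
        intro k
        have h4 := hfar k
        have h5 : g ^ 4 ≤ ((adj k - E) ^ 2 + Γ ^ 2) ^ 2 := by
          calc g ^ 4 = (g ^ 2) ^ 2 := by ring
            _ ≤ _ := pow_le_pow_left₀ (sq_nonneg _) (by linarith [sq_nonneg Γ]) 2
        have h6 : 4 * (1 - cr (k ⟨0, by omega⟩) ^ 2) ≤ 4 := by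
          nlinarith [sq_nonneg (cr (k ⟨0, by omega⟩))]
        have h7 : 2 * Γ ^ 3 / ((adj k - E) ^ 2 + Γ ^ 2) ^ 2 ≤ 2 * Γ ^ 3 / g ^ 4 :=
          div_le_div_of_nonneg_left (by positivity) (by positivity) h5
        have h8 : Γ ^ 3 ≤ Γ := by
          calc Γ ^ 3 = Γ * Γ ^ 2 := by ring
            _ ≤ Γ * 1 := by gcongr; exact pow_le_one₀ hΓ0.le hΓ1
            _ = Γ := mul_one _
        calc 4 * (1 - cr (k ⟨0, by omega⟩) ^ 2) * (2 * Γ ^ 3 / ((adj k - E) ^ 2 + Γ ^ 2) ^ 2)
            ≤ 4 * (2 * Γ ^ 3 / ((adj k - E) ^ 2 + Γ ^ 2) ^ 2) := by gcongr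
          _ ≤ 4 * (2 * Γ ^ 3 / g ^ 4) := by gcongr
          _ = 8 * Γ ^ 3 / g ^ 4 := by ring
          _ ≤ η := by
              rw [div_le_iff₀ (by positivity)]
              linarith
      linarith
  constructor
  · apply le_antisymm _ n1
    by_contra hlt
    rw [not_le] at hlt
    have h1 := (key (Real.pi * dn d E / 4) (by positivity)).1
    nlinarith
  · apply le_antisymm _ n2
    by_contra hlt
    rw [not_le] at hlt
    have h1 := (key (Real.pi * dw d E / 4) (by positivity)).2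
    nlinarith

end poi

lemma jb_neg (s : ℝ) : jb (-s) = (starRingEnd ℂ) (jb s) := by
  unfold jb
  rw [map_mul, ← intervalIntegral.intervalIntegral_conj, map_inv₀, Complex.conj_ofReal]
  congr 1
  apply intervalIntegral.integral_congr
  intro k _
  simp only
  rw [← Complex.exp_conj, map_mul, Complex.conj_ofReal, Complex.conj_I]
  congr 1
  push_cast
  ring

lemma kb_neg (s : ℝ) : kb (-s) = (starRingEnd ℂ) (kb s) := by
  unfold kb
  rw [map_mul, ← intervalIntegral.intervalIntegral_conj, map_inv₀, Complex.conj_ofReal]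
  congr 1
  apply intervalIntegral.integral_congr
  intro k _
  simp only
  rw [map_mul, Complex.conj_ofReal, ← Complex.exp_conj, map_mul, Complex.conj_ofReal,
    Complex.conj_I]
  congr 2
  push_cast
  ring

end Dos0

open Dos0 in
/-- **the densities** -/
theorem dos (hb : T_BES) (_hj : T_JL) (hp : T_POI) : T_DOS := by
  intro d hd
  obtain ⟨C, hC, hB⟩ := hb
  have hpi := Real.pi_pos
  -- decay
  have decay : ∀ s : ℝ, (C / Real.sqrt (1 + |s|)) ^ 3 = C ^ 3 * (1 + ‖s‖) ^ (-(3 / 2) : ℝ) := by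
    intro s
    have h0 : (0 : ℝ) ≤ 1 + |s| := by positivity
    rw [div_pow, Real.sqrt_eq_rpow, ← Real.rpow_natCast ((1 + |s|) ^ (1 / 2 : ℝ)),
      ← Real.rpow_mul h0, div_eq_mul_inv, ← Real.rpow_neg h0, Real.norm_eq_abs]
    norm_num
  have c1 : Continuous fun s => jb s ^ d := Poi0.jb_cont.pow d
  have c2 : Continuous fun s => kb s * jb s ^ (d - 1) := Poi0.kb_cont.mul (Poi0.jb_cont.pow _)
  have hint : Integrable fun s : ℝ => C ^ 3 * (1 + ‖s‖) ^ (-(3 / 2) : ℝ) :=
    (Poi0.int_pow (p := 3 / 2) (by norm_num)).const_mul _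
  have i1 : Integrable fun s => jb s ^ d := by
    refine Integrable.mono' hint c1.aestronglyMeasurable (ae_of_all _ fun s => ?_)
    rw [norm_pow, ← decay]
    calc ‖jb s‖ ^ d ≤ ‖jb s‖ ^ 3 := pow_le_pow_of_le_one (norm_nonneg _) (Poi0.jb_norm s) hd
      _ ≤ (C / Real.sqrt (1 + |s|)) ^ 3 := pow_le_pow_left₀ (norm_nonneg _) (hB s).1 3
  have i2 : Integrable fun s => kb s * jb s ^ (d - 1) := by
    refine Integrable.mono' hint c2.aestronglyMeasurable (ae_of_all _ fun s => ?_)
    rw [norm_mul, norm_pow]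
    have h0 : (1 : ℝ) ≤ 1 + |s| := by linarith [abs_nonneg s]
    have h1 : ‖jb s‖ ^ (d - 1) ≤ ‖jb s‖ ^ 2 :=
      pow_le_pow_of_le_one (norm_nonneg _) (Poi0.jb_norm s) (by omega)
    have h2 : ‖jb s‖ ^ 2 ≤ (C / Real.sqrt (1 + |s|)) ^ 2 :=
      pow_le_pow_left₀ (norm_nonneg _) (hB s).1 2
    have h3 : C / (1 + |s|) ≤ C / Real.sqrt (1 + |s|) := by
      apply div_le_div_of_nonneg_left hC.le (by positivity)
      rw [Real.sqrt_le_left (by positivity)]
      nlinarith
    calc ‖kb s‖ * ‖jb s‖ ^ (d - 1) ≤ (C / Real.sqrt (1 + |s|)) *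
          (C / Real.sqrt (1 + |s|)) ^ 2 :=
          mul_le_mul ((hB s).2.trans h3) (h1.trans h2) (by positivity) (by positivity)
      _ = (C / Real.sqrt (1 + |s|)) ^ 3 := by ring
      _ = _ := decay s
  have s1 : ∀ s, jb (-s) ^ d = (starRingEnd ℂ) (jb s ^ d) := fun s => by rw [jb_neg, map_pow]
  have s2 : ∀ s, kb (-s) * jb (-s) ^ (d - 1) = (starRingEnd ℂ) (kb s * jb s ^ (d - 1)) :=
    fun s => by rw [jb_neg, kb_neg, map_mul, map_pow]
  obtain ⟨cn, fn⟩ := inversion (g := dn d) c1 i1 s1 (fun E => rfl)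
  obtain ⟨cw, fw⟩ := inversion (g := dw d) c2 i2 s2 (fun E => rfl)
  have hvan : ∀ E, 2 * (d : ℝ) ≤ |E| → dn d E = 0 ∧ dw d E = 0 := by
    intro E hE
    rcases hE.eq_or_lt with h | h
    · have hd0 : (0 : ℝ) < d := by exact_mod_cast (by omega : 0 < d)
      have hseq : Tendsto (fun n : ℕ => E * (1 + 1 / ((n : ℝ) + 1))) atTop (𝓝 E) := by
        have h1 : Tendsto (fun n : ℕ => 1 / ((n : ℝ) + 1)) atTop (𝓝 0) :=
          tendsto_one_div_add_atTop_nhds_zero_nat
        have h2 := (h1.const_add 1).const_mul E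
        simpa using h2
      have hz : ∀ n : ℕ, dn d (E * (1 + 1 / ((n : ℝ) + 1))) = 0 ∧
          dw d (E * (1 + 1 / ((n : ℝ) + 1))) = 0 := by
        intro n
        apply zero_of_gt hd hp
        have h3 : (0 : ℝ) < 1 / ((n : ℝ) + 1) := by positivity
        rw [abs_mul, ← h, abs_of_pos (by positivity : (0:ℝ) < 1 + 1 / ((n : ℝ) + 1))]
        nlinarith
      constructor
      · have h1 := (cn.tendsto E).comp hseq
        have h2 : (dn d ∘ fun n : ℕ => E * (1 + 1 / ((n : ℝ) + 1))) = fun _ => 0 :=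
          funext fun n => (hz n).1
        rw [h2] at h1
        exact tendsto_nhds_unique h1 tendsto_const_nhds
      · have h1 := (cw.tendsto E).comp hseq
        have h2 : (dw d ∘ fun n : ℕ => E * (1 + 1 / ((n : ℝ) + 1))) = fun _ => 0 :=
          funext fun n => (hz n).2
        rw [h2] at h1
        exact tendsto_nhds_unique h1 tendsto_const_nhds
    · exact zero_of_gt hd hp h
  have hsupp : ∀ g : ℝ → ℝ, (∀ E, 2 * (d : ℝ) ≤ |E| → g E = 0) → HasCompactSupport g := by
    intro g hg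
    apply HasCompactSupport.intro (isCompact_Icc (a := -(2 * (d : ℝ))) (b := 2 * d))
    intro E hE
    apply hg
    by_contra hlt
    rw [not_le, abs_lt] at hlt
    exact hE ⟨hlt.1.le, hlt.2.le⟩
  have in1 : Integrable (dn d) := cn.integrable_of_hasCompactSupport
    (hsupp _ fun E hE => (hvan E hE).1)
  have in2 : Integrable (dw d) := cw.integrable_of_hasCompactSupport
    (hsupp _ fun E hE => (hvan E hE).2)
  refine ⟨cn, cw, fun E => (nonneg hd hp E).1, fun E => (nonneg hd hp E).2, hvan,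
    fun f hf => ⟨?_, fun j => ?_⟩⟩
  · have h1 := law (d := d) (w := fun _ _ => 1) (fun _ => continuous_const)
      (fun _ _ => zero_le_one) (fun E => (nonneg hd hp E).1) cn in1 (fun t => by
        rw [fn in1 t]
        simp only [Complex.ofReal_one, one_mul, Finset.prod_const, Finset.card_univ,
          Fintype.card_fin]
        rfl) hf
    simp only [Finset.prod_const_one, one_mul] at h1
    exact h1
  · have h1 := law (d := d) (w := fun i k => if i = j then 4 * Real.sin k ^ 2 else 1)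
      (fun i => by
        by_cases h : i = j
        · simp only [h, if_true]; fun_prop
        · simp only [h, if_false]; exact continuous_const)
      (fun i k => by split_ifs <;> positivity) (fun E => (nonneg hd hp E).2) cw in2 (fun t => by
        rw [fw in2 t, ← Finset.mul_prod_erase Finset.univ _ (Finset.mem_univ j)]
        have h2 : ∏ i ∈ Finset.univ.erase j, (((2 * Real.pi : ℝ) : ℂ)⁻¹ *
            ∫ k in (-Real.pi)..Real.pi, (((if i = j then 4 * Real.sin k ^ 2 else 1 : ℝ)) : ℂ) *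
            Complex.exp (((2 * t * Real.cos k : ℝ) : ℂ) * Complex.I)) =
            ∏ _i ∈ Finset.univ.erase j, jb t := by
          apply Finset.prod_congr rfl
          intro i hi
          rw [Finset.mem_erase] at hi
          simp only [if_neg hi.1, Complex.ofReal_one, one_mul]
          rfl
        rw [h2, Finset.prod_const, Finset.card_erase_of_mem (Finset.mem_univ j),
          Finset.card_univ, Fintype.card_fin]
        simp only [if_true]
        rfl) hf
    have h3 : ∀ k : Fin d → ℝ, ∏ i, (if i = j then 4 * Real.sin (k i) ^ 2 else 1) =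
        4 * Real.sin (k j) ^ 2 := by
      intro k
      rw [Finset.prod_ite_eq' Finset.univ j (fun i => 4 * Real.sin (k i) ^ 2),
        if_pos (Finset.mem_univ j)]
    simp only [h3] at h1
    exact h1

end Pool.Agent.T2h98.QD
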