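import Pool.Agent.T2h98.QD.Torus

/-! The averaged ladder at one energy. -/

set_option autoImplicit false
set_option linter.unusedSectionVars false

open scoped BigOperators Matrix
open MeasureTheory ProbabilityTheory

namespace Pool.Agent.T2h98.QD

open Pool.Agent.W788.MFP.Four (T e NN adj K)
open Pool.Agent.W788.BK (nsq hs PP JJ hi Low cr nsq_nonneg)
open Pool.Agent.W240.BK (BC BM)

variable {d L : ℕ} [NeZero L]

/-- the coefficient of the fluctuation error -/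
noncomputable def kap (σ δ η ν Q0 g : ℝ) : ℝ :=
  σ ^ 2 * (Real.sqrt (2 * ν) * Real.sqrt (Q0 * g / (η ^ 3 * δ)))

theorem adj_qi (i : Fin d) (q : ZMod L) (k : T d L) :
    adj (k + qi i q) - adj k = 2 * cr (k i + q) - 2 * cr (k i) := by
  unfold adj cr
  rw [← Finset.sum_sub_distrib, Finset.sum_eq_single i]
  · unfold qi
    rw [Pi.add_apply, Pi.single_eq_same]
  · intro j _ hj
    unfold qi
    rw [Pi.add_apply, Pi.single_eq_of_ne hj, add_zero, sub_self]
  · intro h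
    exact absurd (Finset.mem_univ i) h

/-- sums over slices -/
theorem slice_sum {n : ℕ} (i : Fin (n + 1)) (B : Finset (ZMod L)) (f : ℝ → ℝ) (C : ℝ)
    (hC : ∀ t : ℝ, ∑ k : T n L, f (adj k + t) ≤ C) :
    ∑ k ∈ Finset.univ.filter (fun k : T (n + 1) L => k i ∈ B), f (adj k) ≤ B.card * C := by
  classical
  rw [Finset.sum_filter]
  have h1 : ∑ k : T (n + 1) L, (if k i ∈ B then f (adj k) else 0) =
      ∑ j : ZMod L, ∑ k : T n L, (if j ∈ B then f (adj k + 2 * cr j) else 0) := by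
    rw [← Equiv.sum_comp (Fin.insertNthEquiv (fun _ => ZMod L) i), Fintype.sum_prod_type]
    refine Finset.sum_congr rfl fun j _ => Finset.sum_congr rfl fun k _ => ?_
    have e1 : (Fin.insertNthEquiv (fun _ => ZMod L) i) (j, k) i = j := by
      simp
    have e2 : adj (L := L) ((Fin.insertNthEquiv (fun _ => ZMod L) i) (j, k)) =
        adj (L := L) k + 2 * cr j := by
      unfold adj cr
      rw [Fin.sum_univ_succAbove _ i]
      simp [add_comm]
    rw [e1, e2]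
  rw [h1]
  calc ∑ j : ZMod L, ∑ k : T n L, (if j ∈ B then f (adj k + 2 * cr j) else 0) ≤
      ∑ j : ZMod L, (if j ∈ B then C else 0) := by
        refine Finset.sum_le_sum fun j _ => ?_
        split_ifs with hj
        · exact hC _
        · simp
    _ = _ := by
        rw [← Finset.sum_filter]
        simp

section par

variable {σ E δ θ η ν Q0 g cn : ℝ}

theorem card_NN : (Fintype.card (T d L) : ℝ) = NN d L := Pool.Agent.W788.MFP.Four.card_T

theorem eps_eq (hkq : T_KQ) (p : Par d L σ E δ θ η ν Q0 g cn) :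
    eps1 η δ (σ ^ 2 * Q0) (σ ^ 2) ν (g / (σ ^ 2 * (mbar d L σ E δ θ η).im)) cn
      (mbar d L σ E δ θ η) = kap σ δ η ν Q0 g * (mbar d L σ E δ θ η).im + cn / (η * δ) := by
  have hm := mbar_pos hkq p
  have hσ := p.hσ
  unfold eps1 kap
  have h1 : σ ^ 2 * Q0 * (mbar d L σ E δ θ η).im * (g / (σ ^ 2 * (mbar d L σ E δ θ η).im)) /
      (η ^ 3 * δ) = Q0 * g / (η ^ 3 * δ) := by
    field_simp
  rw [h1]
  ring

/-- the mean of the resolvent on the torus -/
theorem mean_torus (hP : T_POIN) (hI : T_IBP) (hkq : T_KQ) (hpsi : T_PSI) (hinv : T_INV)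
    (p : Par d L σ E δ θ η ν Q0 g cn) :
    ‖mbar d L σ E δ θ η - ((NN d L : ℝ) : ℂ)⁻¹ *
      ∑ k : T d L, (Xk (σ ^ 2) E δ η (mbar d L σ E δ θ η) k)⁻¹‖ ≤
      kap σ δ η ν Q0 g * (mbar d L σ E δ θ η).im + cn / (η * δ) := by
  have H := p.hom hkq hpsi hinv
  have hN := Pool.Agent.W788.MFP.Four.NN_pos (d := d) (L := L)
  have h1 := mean hP hI H 1 1 (by norm_num) (fun w => by rw [Matrix.one_mulVec]; simp)
  simp only [one_mul] at h1
  rw [eps_eq hkq p, mo_trace, card_NN] at h1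
  have h2 : ∫ V, (GG (h0 (d := d) (L := L) E) (J0 E δ) (fun y => (σ : ℂ) • PY θ y) η V).trace
      ∂(GP (T d L)) = ((NN d L : ℝ) : ℂ) * mbar d L σ E δ θ η := by
    unfold Matrix.trace
    simp only [Matrix.diag_apply]
    rw [integral_finsetSum _ fun x _ => (bm_gg H.S x x).integrable _]
    simp only [H.hm, Finset.sum_const, Finset.card_univ, nsmul_eq_mul]
    rw [← card_NN]
    push_cast
    rfl
  rw [h2] at h1
  have h3 : ((NN d L : ℝ) : ℂ) * mbar d L σ E δ θ η -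
      ∑ k : T d L, (Xk (σ ^ 2) E δ η (mbar d L σ E δ θ η) k)⁻¹ =
      ((NN d L : ℝ) : ℂ) * (mbar d L σ E δ θ η - ((NN d L : ℝ) : ℂ)⁻¹ *
      ∑ k : T d L, (Xk (σ ^ 2) E δ η (mbar d L σ E δ θ η) k)⁻¹) := by
    have := KQ.N_ne (d := d) (L := L)
    field_simp
  rw [h3, norm_mul, Complex.norm_real, Real.norm_of_nonneg hN.le] at h1
  exact le_of_mul_le_mul_left h1 hN

/-- sums of the mean resolvent -/
theorem sum_X (hkq : T_KQ) (p : Par d L σ E δ θ η ν Q0 g cn) :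
    (NN d L)⁻¹ * ∑ k, ‖Xk (d := d) (L := L) (σ ^ 2) E δ η (mbar d L σ E δ θ η) k‖⁻¹ ≤ g := by
  have hm := mbar_pos hkq p
  have hN := Pool.Agent.W788.MFP.Four.NN_pos (d := d) (L := L)
  have hs : 0 < σ ^ 2 := pow_pos p.hσ 2
  rw [inv_mul_le_iff₀ hN, mul_comm]
  exact (Finset.sum_le_sum fun k _ => Xk_JJ p.hη p.hδ k hm hs).trans (p.hg _)

/-- a priori bound -/
theorem apriori (hP : T_POIN) (hI : T_IBP) (hkq : T_KQ) (hpsi : T_PSI) (hinv : T_INV)
    (p : Par d L σ E δ θ η ν Q0 g cn) (hκ : kap σ δ η ν Q0 g ≤ 1 / 16) :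
    ‖mbar d L σ E δ θ η‖ ≤ 2 * (g + cn / (η * δ)) := by
  have H := p.hom hkq hpsi hinv
  have hm := mbar_pos hkq p
  have hN := Pool.Agent.W788.MFP.Four.NN_pos (d := d) (L := L)
  have hδ := p.hδ
  have hη := p.hη
  have hcn := H.cn0
  have h1 := mean_torus hP hI hkq hpsi hinv p
  have h2 := sum_X hkq p
  have h3 : ‖((NN d L : ℝ) : ℂ)⁻¹ * ∑ k, (Xk (d := d) (L := L) (σ ^ 2) E δ η
      (mbar d L σ E δ θ η) k)⁻¹‖ ≤ g := by
    rw [norm_mul, norm_inv, Complex.norm_real, Real.norm_of_nonneg hN.le]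
    refine le_trans (mul_le_mul_of_nonneg_left ((norm_sum_le _ _).trans (le_of_eq ?_))
      (by positivity)) h2
    simp only [norm_inv]
  have h4 : ‖mbar d L σ E δ θ η‖ ≤ (kap σ δ η ν Q0 g * (mbar d L σ E δ θ η).im + cn / (η * δ)) +
      g := by
    have e1 := norm_sub_norm_le (mbar d L σ E δ θ η) (((NN d L : ℝ) : ℂ)⁻¹ *
      ∑ k, (Xk (d := d) (L := L) (σ ^ 2) E δ η (mbar d L σ E δ θ η) k)⁻¹)
    linarith
  have h5 : (mbar d L σ E δ θ η).im ≤ ‖mbar d L σ E δ θ η‖ :=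
    (le_abs_self _).trans (Complex.abs_im_le_norm _)
  have h6 : kap σ δ η ν Q0 g * (mbar d L σ E δ θ η).im ≤ 1 / 16 * ‖mbar d L σ E δ θ η‖ :=
    mul_le_mul hκ h5 hm.le (by norm_num)
  have h7 : 0 ≤ cn / (η * δ) := by positivity
  have h8 := p.hg0
  linarith

/-- the gap of the ladder equation -/
theorem gap_torus {n : ℕ} (hP : T_POIN) (hI : T_IBP) (hkq : T_KQ) (hpsi : T_PSI) (hinv : T_INV)
    (hgap : T_GAP) (hbad : T_BADK) (p : Par (n + 1) L σ E δ θ η ν Q0 g cn)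
    (hκ : kap σ δ η ν Q0 g ≤ 1 / 16) (i : Fin (n + 1)) (q : ZMod L) (cb q0 m0 g' : ℝ)
    (hm0 : 0 < m0) (hm : m0 ≤ (mbar (n + 1) L σ E δ θ η).im)
    (h1 : σ ^ 2 * ‖mbar (n + 1) L σ E δ θ η‖ ≤ δ) (h2 : 3 * η * δ * g ≤ σ ^ 2 * m0 ^ 2 / 8)
    (h3 : cn / (η * δ) ≤ m0 / 16) (hcb : 1 / (L : ℝ) ≤ cb) (hcb1 : cb ≤ 1)
    (hg' : ∀ t : ℝ, ∑ k : T n L, (max |adj k - t| (η * δ))⁻¹ ≤ g' * NN n L)
    (hg2 : 4 * cb * g' ≤ m0 / 8) (hq0 : 0 < q0) (hq : q0 ≤ ‖1 - (ZMod.stdAddChar q : ℂ)‖) :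
    1 / 4 * (2 * q0 * cb / (8 * σ ^ 2 * g + 2 * q0 * cb)) ^ 2 -
      (kap σ δ η ν Q0 g + cn / (η * δ) / m0) ≤
    1 - σ ^ 2 * (((NN (n + 1) L : ℝ) : ℂ)⁻¹ * ∑ k : T (n + 1) L,
      (starRingEnd ℂ) (Xk (σ ^ 2) E δ η (mbar (n + 1) L σ E δ θ η) k)⁻¹ *
        (Xk (σ ^ 2) E δ η (mbar (n + 1) L σ E δ θ η) (k + qi i q))⁻¹).re := by
  classical
  have hmp := mbar_pos hkq p
  have hN := Pool.Agent.W788.MFP.Four.NN_pos (d := n + 1) (L := L)
  have hs : 0 < σ ^ 2 := pow_pos p.hσ 2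
  have hδ := p.hδ
  have hη := p.hη
  have hL : (0 : ℝ) < L := by exact_mod_cast Nat.pos_of_ne_zero (NeZero.ne L)
  have hcb0 : 0 < cb := lt_of_lt_of_le (by positivity) hcb
  have hcn := (p.hom hkq hpsi hinv).cn0
  have hκ0 : 0 ≤ kap σ δ η ν Q0 g := by
    unfold kap
    positivity
  obtain ⟨B1, hB1⟩ : ∃ B1 : Finset (ZMod L), B1 = Finset.univ.filter fun k : ZMod L =>
    |2 * cr (k + q) - 2 * cr k| < 2 * ‖1 - (ZMod.stdAddChar q : ℂ)‖ * cb := ⟨_, rfl⟩
  have hBc : (B1.card : ℝ) ≤ 4 * cb * L := by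
    rw [hB1]
    exact hbad L cb hcb hcb1 q
  have hl0 : 0 ≤ cn / (η * δ) := by positivity
  have key := hgap (T (n + 1) L) (NN (n + 1) L) (fun k => adj k - E) (fun k => JJ E δ k)
    (mbar (n + 1) L σ E δ θ η) η δ (σ ^ 2) g
    (kap σ δ η ν Q0 g * (mbar (n + 1) L σ E δ θ η).im + cn / (η * δ)) (2 * q0 * cb)
    (Equiv.addRight (qi i q)) (fun k => Xk (σ ^ 2) E δ η (mbar (n + 1) L σ E δ θ η) k)
    (Finset.univ.filter fun k : T (n + 1) L => k i ∈ B1) hN hη hδ hs hmp p.hg0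
    (by positivity) (by positivity) (fun k => Real.sqrt_nonneg _) (fun k => JJ_le E δ hδ k)
    (fun k => rfl) (mean_torus hP hI hkq hpsi hinv p) h1 (sum_X hkq p)
    (h2.trans (by gcongr)) (by
      have e1 : kap σ δ η ν Q0 g * (mbar (n + 1) L σ E δ θ η).im ≤
          1 / 16 * (mbar (n + 1) L σ E δ θ η).im := by gcongr
      linarith) (by
      have e1 := slice_sum i B1 (fun a => (max |a - (E + σ ^ 2 *
        (mbar (n + 1) L σ E δ θ η).re)| (η * δ))⁻¹) (g' * NN n L) (fun t => by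
          refine le_trans (le_of_eq ?_) (hg' (E + σ ^ 2 * (mbar (n + 1) L σ E δ θ η).re - t))
          refine Finset.sum_congr rfl fun k _ => ?_
          congr 3
          ring)
      have e2 : ∑ k ∈ Finset.univ.filter (fun k : T (n + 1) L => k i ∈ B1),
          ‖Xk (σ ^ 2) E δ η (mbar (n + 1) L σ E δ θ η) k‖⁻¹ ≤ (4 * cb * L) * (g' * NN n L) := by
        refine ((Finset.sum_le_sum fun k _ => ?_).trans e1).trans ?_
        · apply inv_anti₀ _ (Xk_max hη.le hδ k hmp hs)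
          exact lt_of_lt_of_le (by positivity) (le_max_right _ _)
        · apply mul_le_mul_of_nonneg_right hBc
          refine le_trans ?_ (hg' 0)
          exact Finset.sum_nonneg fun k _ => by positivity
      have e3 : NN (n + 1) L = L * NN n L := by
        unfold NN
        ring
      rw [inv_mul_le_iff₀ hN]
      refine e2.trans ?_
      have hNn := Pool.Agent.W788.MFP.Four.NN_pos (d := n) (L := L)
      rw [e3]
      calc (4 * cb * L) * (g' * NN n L) = (L * NN n L) * (4 * cb * g') := by ring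
        _ ≤ (L * NN n L) * ((mbar (n + 1) L σ E δ θ η).im / 8) := by
          apply mul_le_mul_of_nonneg_left _ (by positivity)
          linarith) (fun k hk => by
      have e1 : k i ∉ B1 := fun h => hk (Finset.mem_filter.2 ⟨Finset.mem_univ _, h⟩)
      rw [hB1, Finset.mem_filter] at e1
      push Not at e1
      have e2 := e1 (Finset.mem_univ _)
      have e3 := Complex.abs_re_le_norm (Xk (σ ^ 2) E δ η (mbar (n + 1) L σ E δ θ η)
        (k + qi i q) - Xk (σ ^ 2) E δ η (mbar (n + 1) L σ E δ θ η) k)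
      have e4 : (Xk (σ ^ 2) E δ η (mbar (n + 1) L σ E δ θ η)
        (k + qi i q) - Xk (σ ^ 2) E δ η (mbar (n + 1) L σ E δ θ η) k).re =
          2 * cr (k i + q) - 2 * cr (k i) := by
        rw [Complex.sub_re, Xk_re, Xk_re, ← adj_qi]
        ring
      rw [e4] at e3
      refine le_trans ?_ (e2.trans e3)
      gcongr)
  refine le_trans ?_ key
  have e5 : (kap σ δ η ν Q0 g * (mbar (n + 1) L σ E δ θ η).im + cn / (η * δ)) /
      (mbar (n + 1) L σ E δ θ η).im ≤ kap σ δ η ν Q0 g + cn / (η * δ) / m0 := by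
    rw [add_div, mul_div_assoc, div_self hmp.ne', mul_one]
    gcongr
  linarith

/-- translation invariance of the ladder -/
theorem ladder_inv (hinv : T_INV) (q x : T d L) :
    ∫ V, (cj (e q) (Gt (d := d) (L := L) σ E δ θ η V) * (Gt σ E δ θ η V)ᴴ) x x ∂(GP (T d L)) =
    ∫ V, (cj (e q) (Gt (d := d) (L := L) σ E δ θ η V) * (Gt σ E δ θ η V)ᴴ) 0 0 ∂(GP (T d L)) := by
  obtain ⟨h1, h2⟩ := hinv d L x
  have h3 := h1 fun V => (cj (e q) (Gt (d := d) (L := L) σ E δ θ η V) *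
    (Gt σ E δ θ η V)ᴴ) 0 0
  rw [← h3]
  refine integral_congr_ae (Filter.Eventually.of_forall fun V => ?_)
  simp only [Matrix.mul_apply, Matrix.conjTranspose_apply]
  rw [← Equiv.sum_comp (Equiv.addRight x) (fun y => cj (e q) (Gt (d := d) (L := L) σ E δ θ η V) x y *
    star (Gt (d := d) (L := L) σ E δ θ η V x y))]
  refine Finset.sum_congr rfl fun y _ => ?_
  rw [Equiv.coe_addRight]
  have h4 := h2 σ E δ θ η V 0 y
  rw [zero_add] at h4
  unfold cj
  simp only [Matrix.of_apply]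
  rw [h4]
  have h5 : e q x * star (e q (y + x)) = e q 0 * star (e q y) := by
    rw [Pool.Agent.W788.MFP.Four.e_add, Pool.Agent.W788.MFP.Four.e_zero, star_mul', one_mul,
      Complex.star_def]
    have h6 := Pool.Agent.W788.MFP.Four.e_normSq q x
    linear_combination (starRingEnd ℂ) (e q y) * h6
  linear_combination (Gt σ E δ θ η V x (y + x) * star (Gt σ E δ θ η V x (y + x))) * h5

end par

end Pool.Agent.T2h98.QD
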