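import Pool.Agent.T2h98.QD.Energy

/-! The functional `Phi` of the resolvent at one energy. -/

set_option autoImplicit false
set_option linter.unusedSectionVars false

open scoped BigOperators Matrix
open MeasureTheory ProbabilityTheory

namespace Pool.Agent.T2h98.QD

open Pool.Agent.W788.MFP.Four (T e NN adj K)
open Pool.Agent.W788.BK (nsq hs PP JJ hi Low cr nsq_nonneg)
open Pool.Agent.W240.BK (BC BM)

variable {L : ℕ} [NeZero L]

theorem py_cj (d : ℕ) (θ : ℝ) (c : ℂ) {u : T d L → ℂ} (hu : ∀ x, ‖u x‖ = 1) (y : T d L) :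
    cj u (c • PY θ y) = c • PY θ y := by
  rw [cj_smul]
  congr 1
  ext x z
  by_cases h : x = z
  · subst h
    rw [cj_diag hu]
  · unfold cj PY
    rw [Matrix.of_apply, Matrix.diagonal_apply_ne _ h]
    ring

/-- the ladder at one momentum -/
noncomputable def Sl (d L : ℕ) [NeZero L] (σ E δ θ η : ℝ) (q : T d L) : ℂ :=
  ∫ V, (cj (e q) (Gt (d := d) (L := L) σ E δ θ η V) * (Gt σ E δ θ η V)ᴴ) 0 0 ∂(GP (T d L))

section par

variable {σ E δ θ η ν Q0 g cn : ℝ} {d : ℕ}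

theorem Sl_bd (hkq : T_KQ) (hpsi : T_PSI) (hinv : T_INV) (p : Par d L σ E δ θ η ν Q0 g cn)
    (q : T d L) : η * δ * ‖Sl d L σ E δ θ η q‖ ≤ (mbar d L σ E δ θ η).im := by
  have h1 := sq_bd (p.hom hkq hpsi hinv) (u := e q) (fun x => e_norm q x)
    (Sl d L σ E δ θ η q) 0 rfl
  rw [le_div_iff₀ (mul_pos p.hη p.hδ)] at h1
  linarith

theorem Sl_main {n : ℕ} (hP : T_POIN) (hI : T_IBP) (hkq : T_KQ) (hpsi : T_PSI) (hinv : T_INV)
    (hgap : T_GAP) (hbad : T_BADK) (p : Par (n + 1) L σ E δ θ η ν Q0 g cn)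
    (hκ : kap σ δ η ν Q0 g ≤ 1 / 16) (i : Fin (n + 1)) (q : ZMod L) (cb q0 m0 g' γ : ℝ)
    (hm0 : 0 < m0) (hm : m0 ≤ (mbar (n + 1) L σ E δ θ η).im)
    (h1 : 2 * σ ^ 2 * (g + cn / (η * δ)) ≤ δ) (h2 : 3 * η * δ * g ≤ σ ^ 2 * m0 ^ 2 / 8)
    (h3 : cn / (η * δ) ≤ m0 / 16) (h4 : η * δ ≤ σ ^ 2 * m0) (hcb : 1 / (L : ℝ) ≤ cb)
    (hcb1 : cb ≤ 1)
    (hg' : ∀ t : ℝ, ∑ k : T n L, (max |adj k - t| (η * δ))⁻¹ ≤ g' * NN n L)
    (hg2 : 4 * cb * g' ≤ m0 / 8) (hq0 : 0 < q0) (hq : q0 ≤ ‖1 - (ZMod.stdAddChar q : ℂ)‖)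
    (hγ0 : 0 < γ) (hγ : γ ≤ 1 / 4 * (2 * q0 * cb / (8 * σ ^ 2 * g + 2 * q0 * cb)) ^ 2 -
      (kap σ δ η ν Q0 g + cn / (η * δ) / m0)) :
    η * δ * ‖Sl (n + 1) L σ E δ θ η (qi i q)‖ ≤
      (η * δ * (g / (σ ^ 2 * m0)) + 6 * (kap σ δ η ν Q0 g * (2 * (g + cn / (η * δ))) +
        cn / (η * δ))) / γ := by
  have H := p.hom hkq hpsi hinv
  have hmp := mbar_pos hkq p
  have hN := Pool.Agent.W788.MFP.Four.NN_pos (d := n + 1) (L := L)
  have hs : 0 < σ ^ 2 := pow_pos p.hσ 2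
  have hδ := p.hδ
  have hη := p.hη
  have hg0 := p.hg0
  have hκ0 : 0 ≤ kap σ δ η ν Q0 g := by
    unfold kap
    positivity
  have hap := apriori hP hI hkq hpsi hinv p hκ
  have him : (mbar (n + 1) L σ E δ θ η).im ≤ ‖mbar (n + 1) L σ E δ θ η‖ :=
    (le_abs_self _).trans (Complex.abs_im_le_norm _)
  have hg1 := gap_torus hP hI hkq hpsi hinv hgap hbad p hκ i q cb q0 m0 g' hm0 hm (by
    calc σ ^ 2 * ‖mbar (n + 1) L σ E δ θ η‖ ≤ σ ^ 2 * (2 * (g + cn / (η * δ))) := by gcongr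
      _ = 2 * σ ^ 2 * (g + cn / (η * δ)) := by ring
      _ ≤ δ := h1) h2 h3 hcb hcb1 hg' hg2 hq0 hq
  have hl := lad3 hP hI H (u := e (qi i q)) (fun x => e_norm _ x)
    (fun y => py_cj _ θ _ (fun x => e_norm _ x) y) (Sl (n + 1) L σ E δ θ η (qi i q)) 0
    (fun x => ladder_inv hinv (qi i q) x) (h4.trans (by gcongr))
    (((NN (n + 1) L : ℝ) : ℂ)⁻¹ * ∑ k : T (n + 1) L,
      (starRingEnd ℂ) (Xk (σ ^ 2) E δ η (mbar (n + 1) L σ E δ θ η) k)⁻¹ *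
        (Xk (σ ^ 2) E δ η (mbar (n + 1) L σ E δ θ η) (k + qi i q))⁻¹) (by
      rw [mo_star, cj_mo, mo_mul, mo_trace]
      have e1 : (Fintype.card (T (n + 1) L) : ℂ) = ((NN (n + 1) L : ℝ) : ℂ) := by
        rw [← card_NN]
        push_cast
        rfl
      rw [e1, ← mul_assoc, mul_inv_cancel₀ (KQ.N_ne (d := n + 1) (L := L)), one_mul]) γ hγ0
    (hγ.trans hg1)
  rw [eps_eq hkq p] at hl
  refine hl.trans ?_
  apply div_le_div_of_nonneg_right _ hγ0.le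
  have e1 : g / (σ ^ 2 * (mbar (n + 1) L σ E δ θ η).im) ≤ g / (σ ^ 2 * m0) := by gcongr
  have e2 : kap σ δ η ν Q0 g * (mbar (n + 1) L σ E δ θ η).im ≤
      kap σ δ η ν Q0 g * (2 * (g + cn / (η * δ))) := by
    apply mul_le_mul_of_nonneg_left _ hκ0
    linarith
  have e3 : η * δ * (g / (σ ^ 2 * (mbar (n + 1) L σ E δ θ η).im)) ≤
      η * δ * (g / (σ ^ 2 * m0)) := by gcongr
  linarith

/-- the functional `Phi` of the resolvent -/
theorem energy {n : ℕ} (hP : T_POIN) (hI : T_IBP) (hkq : T_KQ) (hpsi : T_PSI) (hinv : T_INV)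
    (hgap : T_GAP) (hbad : T_BADK) (hsmq : T_SMQ) (htent : T_TENT) (hphi : T_PHI)
    (p : Par (n + 1) L σ E δ θ η ν Q0 g cn)
    (hκ : kap σ δ η ν Q0 g ≤ 1 / 16) (i : Fin (n + 1)) (M : ℕ) (hM1 : 1 ≤ M) (hM2 : M ≤ L)
    (cb q0 m0 g' γ : ℝ) (hm0 : 0 < m0)
    (h1 : 2 * σ ^ 2 * (g + cn / (η * δ)) ≤ δ) (h2 : 3 * η * δ * g ≤ σ ^ 2 * m0 ^ 2 / 8)
    (h3 : cn / (η * δ) ≤ m0 / 16) (h4 : η * δ ≤ σ ^ 2 * m0) (hcb : 1 / (L : ℝ) ≤ cb)
    (hcb1 : cb ≤ 1)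
    (hg' : ∀ t : ℝ, ∑ k : T n L, (max |adj k - t| (η * δ))⁻¹ ≤ g' * NN n L)
    (hg2 : 4 * cb * g' ≤ m0 / 8) (hq0 : 1 / (L : ℝ) ≤ q0)
    (hγ0 : 0 < γ) (hγ : γ ≤ 1 / 4 * (2 * q0 * cb / (8 * σ ^ 2 * g + 2 * q0 * cb)) ^ 2 -
      (kap σ δ η ν Q0 g + cn / (η * δ) / m0)) :
    η * δ * ((NN (n + 1) L)⁻¹ * ∫ V, Phi i M (Gt (d := n + 1) (L := L) σ E δ θ η V)
      ∂(GP (T (n + 1) L))) ≤
      m0 + 8 * M * q0 * (g + cn / (η * δ)) +
      (η * δ * (g / (σ ^ 2 * m0)) + 6 * (kap σ δ η ν Q0 g * (2 * (g + cn / (η * δ))) +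
        cn / (η * δ))) / γ := by
  classical
  have H := p.hom hkq hpsi hinv
  have hmp := mbar_pos hkq p
  have hN := Pool.Agent.W788.MFP.Four.NN_pos (d := n + 1) (L := L)
  have hs : 0 < σ ^ 2 := pow_pos p.hσ 2
  have hδ := p.hδ
  have hη := p.hη
  have hg0 := p.hg0
  have hcn := H.cn0
  have hκ0 : 0 ≤ kap σ δ η ν Q0 g := by
    unfold kap
    positivity
  have hL : (0 : ℝ) < L := by exact_mod_cast Nat.pos_of_ne_zero (NeZero.ne L)
  have hq00 : 0 < q0 := lt_of_lt_of_le (by positivity) hq0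
  obtain ⟨t1, t2, t3, -, -, -, -⟩ := htent L M hM1 hM2
  obtain ⟨f1, -, -, -, -⟩ := hphi (n + 1) L M i hM1 hM2
  have hap := apriori hP hI hkq hpsi hinv p hκ
  have him : (mbar (n + 1) L σ E δ θ η).im ≤ 2 * (g + cn / (η * δ)) :=
    ((le_abs_self _).trans (Complex.abs_im_le_norm _)).trans hap
  obtain ⟨bd, hbd⟩ : ∃ bd, bd = (η * δ * (g / (σ ^ 2 * m0)) +
    6 * (kap σ δ η ν Q0 g * (2 * (g + cn / (η * δ))) + cn / (η * δ))) / γ := ⟨_, rfl⟩
  have hbd0 : 0 ≤ bd := by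
    rw [hbd]
    positivity
  rw [← hbd]
  -- Fourier representation
  have hK : ∀ q : T (n + 1) L, BM fun V : T (n + 1) L → ℝ =>
      cj (e q) (Gt σ E δ θ η V) * (Gt σ E δ θ η V)ᴴ := fun q =>
    ((MD.gg H.S).cj (e q)).bm.mul (MD.gg H.S).star'.bm
  have htr : ∀ q : T (n + 1) L, ∫ V, (cj (e q) (Gt (d := n + 1) (L := L) σ E δ θ η V) *
      (Gt σ E δ θ η V)ᴴ).trace ∂(GP (T (n + 1) L)) =
      ((NN (n + 1) L : ℝ) : ℂ) * Sl (n + 1) L σ E δ θ η q := by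
    intro q
    unfold Matrix.trace
    simp only [Matrix.diag_apply]
    rw [integral_finsetSum _ fun x _ => (hK q x x).integrable _]
    simp only [ladder_inv hinv q]
    rw [Finset.sum_const, Finset.card_univ, nsmul_eq_mul, ← card_NN]
    push_cast
    rfl
  have hPhi : ((∫ V, Phi i M (Gt (d := n + 1) (L := L) σ E δ θ η V) ∂(GP (T (n + 1) L)) : ℝ) : ℂ) =
      ((NN (n + 1) L : ℝ) : ℂ) * ∑ q : ZMod L, (fh M q : ℂ) * Sl (n + 1) L σ E δ θ η (qi i q) := by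
    rw [← integral_complex_ofReal]
    simp only [f1]
    rw [integral_finsetSum _ fun q _ => ((hK (qi i q)).trace.integrable _).const_mul _,
      Finset.mul_sum]
    refine Finset.sum_congr rfl fun q _ => ?_
    rw [integral_const_mul, htr]
    ring
  have h5 : ((NN (n + 1) L)⁻¹ * ∫ V, Phi i M (Gt (d := n + 1) (L := L) σ E δ θ η V)
      ∂(GP (T (n + 1) L))) ≤ ∑ q : ZMod L, fh M q * ‖Sl (n + 1) L σ E δ θ η (qi i q)‖ := by
    have e1 : (((NN (n + 1) L)⁻¹ * ∫ V, Phi i M (Gt (d := n + 1) (L := L) σ E δ θ η V)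
      ∂(GP (T (n + 1) L)) : ℝ) : ℂ) =
        ∑ q : ZMod L, (fh M q : ℂ) * Sl (n + 1) L σ E δ θ η (qi i q) := by
      rw [Complex.ofReal_mul, hPhi, Complex.ofReal_inv, ← mul_assoc,
        inv_mul_cancel₀ (KQ.N_ne (d := n + 1) (L := L)), one_mul]
    have e2 := congrArg norm e1
    rw [Complex.norm_real] at e2
    refine (Real.le_norm_self _).trans (e2.le.trans ((norm_sum_le _ _).trans (le_of_eq ?_)))
    refine Finset.sum_congr rfl fun q _ => ?_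
    rw [norm_mul, Complex.norm_real, Real.norm_of_nonneg (t1 q)]
  have h6 : η * δ * ((NN (n + 1) L)⁻¹ * ∫ V, Phi i M (Gt (d := n + 1) (L := L) σ E δ θ η V)
      ∂(GP (T (n + 1) L))) ≤
      ∑ q : ZMod L, fh M q * (η * δ * ‖Sl (n + 1) L σ E δ θ η (qi i q)‖) := by
    calc _ ≤ η * δ * ∑ q : ZMod L, fh M q * ‖Sl (n + 1) L σ E δ θ η (qi i q)‖ := by gcongr
      _ = _ := by
        rw [Finset.mul_sum]
        refine Finset.sum_congr rfl fun q _ => ?_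
        ring
  refine h6.trans ?_
  have h7 : 0 ≤ 8 * M * q0 * (g + cn / (η * δ)) := by positivity
  rcases lt_or_ge (mbar (n + 1) L σ E δ θ η).im m0 with hlt | hge
  · calc ∑ q : ZMod L, fh M q * (η * δ * ‖Sl (n + 1) L σ E δ θ η (qi i q)‖) ≤
        ∑ q : ZMod L, fh M q * m0 := by
          refine Finset.sum_le_sum fun q _ => mul_le_mul_of_nonneg_left ?_ (t1 q)
          exact (Sl_bd hkq hpsi hinv p _).trans hlt.le
      _ = m0 := by rw [← Finset.sum_mul, t2, one_mul]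
      _ ≤ _ := by linarith
  · have h8 : ∀ q : ZMod L, fh M q * (η * δ * ‖Sl (n + 1) L σ E δ θ η (qi i q)‖) ≤
        (if ‖1 - (ZMod.stdAddChar q : ℂ)‖ < q0 then (M : ℝ) / L * (2 * (g + cn / (η * δ)))
          else 0) + fh M q * bd := by
      intro q
      split_ifs with hq
      · have e1 : η * δ * ‖Sl (n + 1) L σ E δ θ η (qi i q)‖ ≤ 2 * (g + cn / (η * δ)) :=
          (Sl_bd hkq hpsi hinv p _).trans him
        have e2 : fh M q * (η * δ * ‖Sl (n + 1) L σ E δ θ η (qi i q)‖) ≤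
            (M : ℝ) / L * (2 * (g + cn / (η * δ))) :=
          mul_le_mul (t3 q) e1 (by positivity) (by positivity)
        have e3 : 0 ≤ fh M q * bd := mul_nonneg (t1 q) hbd0
        linarith
      · rw [zero_add]
        apply mul_le_mul_of_nonneg_left _ (t1 q)
        rw [hbd]
        exact Sl_main hP hI hkq hpsi hinv hgap hbad p hκ i q cb q0 m0 g' γ hm0 hge h1 h2 h3 h4 hcb
          hcb1 hg' hg2 hq00 (not_lt.1 hq) hγ0 hγ
    refine (Finset.sum_le_sum fun q _ => h8 q).trans ?_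
    rw [Finset.sum_add_distrib, ← Finset.sum_mul, t2, one_mul, ← Finset.sum_filter,
      Finset.sum_const, nsmul_eq_mul]
    have h9 := hsmq L q0 hq0
    have h10 : ((Finset.univ.filter fun q : ZMod L =>
        ‖1 - (ZMod.stdAddChar q : ℂ)‖ < q0).card : ℝ) * ((M : ℝ) / L * (2 * (g + cn / (η * δ)))) ≤
        8 * M * q0 * (g + cn / (η * δ)) := by
      calc _ ≤ (4 * q0 * L) * ((M : ℝ) / L * (2 * (g + cn / (η * δ)))) := by gcongr
        _ = _ := by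
          field_simp
          ring
    linarith

end par

end Pool.Agent.T2h98.QD
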