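import Pool.Agent.T2h98.QD.Stm2

/-! Time evolution on the lattice: the Dyson series in the interaction picture. -/

set_option autoImplicit false
set_option linter.unusedSectionVars false

open scoped BigOperators Interval
open MeasureTheory

namespace Pool.Agent.T2h98.QD.Exi

variable {d : ℕ}

/-- sum over the neighbours -/
def nb {α : Type*} [AddCommMonoid α] (f : Zd d → α) (x : Zd d) : α :=
  ∑ i : Fin d, (f (x + Pi.single i 1) + f (x - Pi.single i 1))

theorem nb_mono (f g : Zd d → ℝ) (h : ∀ x, f x ≤ g x) (x : Zd d) : nb f x ≤ nb g x :=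
  Finset.sum_le_sum fun _ _ => add_le_add (h _) (h _)

theorem nb_nonneg (f : Zd d → ℝ) (h : ∀ x, 0 ≤ f x) (x : Zd d) : 0 ≤ nb f x :=
  Finset.sum_nonneg fun _ _ => add_nonneg (h _) (h _)

theorem nb_const_mul (f : Zd d → ℝ) (c : ℝ) (x : Zd d) : nb (fun y => f y * c) x = nb f x * c := by
  unfold nb
  rw [Finset.sum_mul]
  exact Finset.sum_congr rfl fun i _ => by ring

theorem nb_hasSum {f : Zd d → ℝ} {s : ℝ} (h : HasSum f s) : HasSum (nb f) ((2 * d) * s) := by
  have h1 : ∀ i : Fin d, HasSum (fun x : Zd d => f (x + Pi.single i 1) + f (x - Pi.single i 1))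
      (s + s) := by
    intro i
    refine HasSum.add ?_ ?_
    · exact (Equiv.addRight (Pi.single i (1 : ℤ) : Zd d)).hasSum_iff.2 h
    · exact (Equiv.subRight (Pi.single i (1 : ℤ) : Zd d)).hasSum_iff.2 h
  have h2 := hasSum_sum (s := Finset.univ) fun i (_ : i ∈ (Finset.univ : Finset (Fin d))) => h1 i
  rw [Finset.sum_const, Finset.card_univ, Fintype.card_fin, nsmul_eq_mul] at h2
  have e : (2 * d) * s = (d : ℝ) * (s + s) := by ring
  rw [e]
  exact h2

/-- the numbers of paths -/
noncomputable def pa : ℕ → Zd d → ℝ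
  | 0 => Pi.single 0 1
  | k + 1 => nb (pa k)

theorem pa_nonneg (k : ℕ) (x : Zd d) : 0 ≤ pa k x := by
  induction k generalizing x with
  | zero =>
    show 0 ≤ (Pi.single (0 : Zd d) (1 : ℝ) : Zd d → ℝ) x
    by_cases h : x = 0
    · rw [h, Pi.single_eq_same]; norm_num
    · rw [Pi.single_eq_of_ne h]
  | succ k ih => exact nb_nonneg _ ih x

theorem pa_hasSum (k : ℕ) : HasSum (pa k : Zd d → ℝ) ((2 * d) ^ k) := by
  induction k with
  | zero =>
    have h := hasSum_single (f := (Pi.single (0 : Zd d) (1 : ℝ) : Zd d → ℝ)) 0 fun b hb =>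
      Pi.single_eq_of_ne hb _
    rw [Pi.single_eq_same] at h
    rw [pow_zero]
    exact h
  | succ k ih =>
    rw [pow_succ, mul_comm]
    exact nb_hasSum ih

theorem pa_le (k : ℕ) (x : Zd d) : pa k x ≤ (2 * d) ^ k :=
  le_hasSum (pa_hasSum k) x fun y _ => pa_nonneg k y

/-- the summand of the bound -/
noncomputable def tm (T : ℝ) (k : ℕ) (x : Zd d) : ℝ := pa k x * (T ^ k / k.factorial)

/-- the bound -/
noncomputable def BB (T : ℝ) (x : Zd d) : ℝ := ∑' k, tm T k x

theorem tm_nonneg {T : ℝ} (hT : 0 ≤ T) (k : ℕ) (x : Zd d) : 0 ≤ tm T k x :=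
  mul_nonneg (pa_nonneg k x) (by positivity)

theorem tm_hasSum (T : ℝ) (k : ℕ) : HasSum (tm T k : Zd d → ℝ) ((2 * d * T) ^ k / k.factorial) := by
  have h := (pa_hasSum (d := d) k).mul_right (T ^ k / k.factorial)
  have e : (2 * d * T) ^ k / k.factorial = (2 * d : ℝ) ^ k * (T ^ k / k.factorial) := by
    rw [mul_pow]; ring
  rw [e]
  exact h

theorem tm_summable {T : ℝ} (hT : 0 ≤ T) :
    Summable fun p : ℕ × Zd d => tm T p.1 p.2 := by
  rw [summable_prod_of_nonneg fun p => tm_nonneg hT p.1 p.2]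
  refine ⟨fun k => (tm_hasSum T k).summable, ?_⟩
  have h : (fun k : ℕ => ∑' y : Zd d, tm T k y) = fun k => (2 * d * T) ^ k / k.factorial := by
    funext k
    exact (tm_hasSum T k).tsum_eq
  show Summable fun k : ℕ => ∑' y : Zd d, tm T k y
  rw [h]
  exact Real.summable_pow_div_factorial _

theorem tm_summable_left {T : ℝ} (hT : 0 ≤ T) (x : Zd d) : Summable fun k => tm T k x :=
  ((tm_summable hT).prod_symm).prod_factor x

theorem BB_summable {T : ℝ} (hT : 0 ≤ T) : Summable (BB T : Zd d → ℝ) :=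
  ((tm_summable hT).prod_symm).prod

theorem BB_nonneg {T : ℝ} (hT : 0 ≤ T) (x : Zd d) : 0 ≤ BB T x :=
  tsum_nonneg fun k => tm_nonneg hT k x

/-- the phase factor -/
noncomputable def ex (a : ℝ) : ℂ := Complex.exp ((a : ℂ) * Complex.I)

theorem ex_norm (a : ℝ) : ‖ex a‖ = 1 := Complex.norm_exp_ofReal_mul_I a

theorem ex_add (a b : ℝ) : ex (a + b) = ex a * ex b := by
  unfold ex
  rw [← Complex.exp_add]
  congr 1
  push_cast
  ring

theorem ex_cont : Continuous ex := by
  unfold ex
  fun_prop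

/-- the generator in the interaction picture -/
noncomputable def GG' (v : Zd d → ℝ) (s : ℝ) (f : Zd d → ℂ) (x : Zd d) : ℂ :=
  -(Complex.I * (ex (s * v x) * nb (fun y => ex (-(s * v y)) * f y) x))

theorem GG'_norm (v : Zd d → ℝ) (s : ℝ) (f : Zd d → ℂ) (x : Zd d) :
    ‖GG' v s f x‖ ≤ nb (fun y => ‖f y‖) x := by
  unfold GG'
  rw [norm_neg, norm_mul, norm_mul, Complex.norm_I, ex_norm, one_mul, one_mul]
  unfold nb
  refine (norm_sum_le _ _).trans (Finset.sum_le_sum fun i _ => ?_)
  refine (norm_add_le _ _).trans (le_of_eq ?_)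
  rw [norm_mul, norm_mul, ex_norm, ex_norm, one_mul, one_mul]

theorem GG'_cont (v : Zd d → ℝ) (f : ℝ → Zd d → ℂ) (hf : ∀ y, Continuous fun s => f s y) (x : Zd d) :
    Continuous fun s => GG' v s (f s) x := by
  unfold GG' nb
  have h1 : ∀ y : Zd d, Continuous fun s : ℝ => ex (-(s * v y)) * f s y := fun y =>
    (ex_cont.comp (by fun_prop)).mul (hf y)
  have h2 : Continuous fun s : ℝ => ex (s * v x) := ex_cont.comp (by fun_prop)
  refine (continuous_const.mul (h2.mul ?_)).neg
  exact continuous_finsetSum _ fun i _ => (h1 _).add (h1 _)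

/-- the terms of the Dyson series -/
noncomputable def ph (v : Zd d → ℝ) : ℕ → ℝ → Zd d → ℂ
  | 0 => fun _ => Pi.single 0 1
  | k + 1 => fun t x => ∫ s in (0 : ℝ)..t, GG' v s (ph v k s) x

theorem ph_cont (v : Zd d → ℝ) (k : ℕ) (x : Zd d) : Continuous fun t => ph v k t x := by
  induction k generalizing x with
  | zero => exact continuous_const
  | succ k ih =>
    have h := GG'_cont v (ph v k) ih x
    exact intervalIntegral.continuous_primitive (fun a b => h.intervalIntegrable a b) 0

theorem ph_deriv (v : Zd d → ℝ) (k : ℕ) (x : Zd d) (t : ℝ) :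
    HasDerivAt (fun t => ph v (k + 1) t x) (GG' v t (ph v k t) x) t := by
  have h := GG'_cont v (ph v k) (ph_cont v k) x
  exact intervalIntegral.integral_hasDerivAt_right (h.intervalIntegrable _ _)
    (h.stronglyMeasurableAtFilter _ _) h.continuousAt

theorem ph_bound (v : Zd d → ℝ) (k : ℕ) (x : Zd d) (t : ℝ) : ‖ph v k t x‖ ≤ tm |t| k x := by
  induction k generalizing x t with
  | zero =>
    unfold tm
    show ‖(Pi.single (0 : Zd d) (1 : ℂ) : Zd d → ℂ) x‖ ≤
      (Pi.single (0 : Zd d) (1 : ℝ) : Zd d → ℝ) x * (|t| ^ 0 / Nat.factorial 0)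
    by_cases h : x = 0
    · rw [h, Pi.single_eq_same, Pi.single_eq_same]; simp
    · rw [Pi.single_eq_of_ne h, Pi.single_eq_of_ne h]; simp
  | succ k ih =>
    have hc := GG'_cont v (ph v k) (ph_cont v k) x
    have h1 : ∀ s : ℝ, ‖GG' v s (ph v k s) x‖ ≤ pa (k + 1) x / k.factorial * |s - 0| ^ k := by
      intro s
      refine (GG'_norm v s _ x).trans ?_
      refine (nb_mono _ _ (fun y => ih y s) x).trans (le_of_eq ?_)
      unfold tm
      rw [nb_const_mul, sub_zero]
      show nb (pa k) x * _ = nb (pa k) x / _ * _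
      ring
    show ‖∫ s in (0 : ℝ)..t, GG' v s (ph v k s) x‖ ≤ _
    refine intervalIntegral.norm_integral_le_integral_norm_uIoc.trans ?_
    have hg : Continuous fun s : ℝ => pa (k + 1) x / k.factorial * |s - 0| ^ k := by fun_prop
    calc ∫ s in Ι (0 : ℝ) t, ‖GG' v s (ph v k s) x‖
        ≤ ∫ s in Ι (0 : ℝ) t, pa (k + 1) x / k.factorial * |s - 0| ^ k := by
          refine setIntegral_mono_on ?_ ?_ measurableSet_uIoc fun s _ => h1 s
          · exact (hc.norm.intervalIntegrable 0 t).def'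
          · exact (hg.intervalIntegrable 0 t).def'
      _ = pa (k + 1) x / k.factorial * (|t - 0| ^ (k + 1) / (k + 1)) := by
          rw [MeasureTheory.integral_const_mul, integral_pow_abs_sub_uIoc]
      _ = tm |t| (k + 1) x := by
          unfold tm
          rw [sub_zero, Nat.factorial_succ]
          push_cast
          field_simp

theorem tm_mono {S T : ℝ} (hS : 0 ≤ S) (h : S ≤ T) (k : ℕ) (x : Zd d) : tm S k x ≤ tm T k x := by
  unfold tm
  have := pa_nonneg k x
  gcongr

/-- the solution in the interaction picture -/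
noncomputable def phi (v : Zd d → ℝ) (t : ℝ) (x : Zd d) : ℂ := ∑' k, ph v k t x

theorem ph_summable (v : Zd d → ℝ) (t : ℝ) (x : Zd d) : Summable fun k => ph v k t x :=
  Summable.of_norm_bounded (tm_summable_left (abs_nonneg t) x) fun k => ph_bound v k x t

theorem phi_bound (v : Zd d → ℝ) {t T : ℝ} (h : |t| ≤ T) (x : Zd d) : ‖phi v t x‖ ≤ BB T x :=
  tsum_of_norm_bounded (tm_summable_left ((abs_nonneg t).trans h) x).hasSum fun k =>
    (ph_bound v k x t).trans (tm_mono (abs_nonneg t) h k x)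

theorem phi_zero (v : Zd d → ℝ) : phi v 0 = Pi.single 0 1 := by
  funext x
  unfold phi
  rw [tsum_eq_single 0]
  · rfl
  · intro k hk
    obtain ⟨j, rfl⟩ : ∃ j, k = j + 1 := ⟨k - 1, by omega⟩
    show ∫ s in (0 : ℝ)..0, _ = _
    rw [intervalIntegral.integral_same]

theorem GG'_tsum (v : Zd d → ℝ) (t : ℝ) (x : Zd d) :
    HasSum (fun k => GG' v t (ph v k t) x) (GG' v t (phi v t) x) := by
  have h1 : ∀ y, HasSum (fun k => ex (-(t * v y)) * ph v k t y) (ex (-(t * v y)) * phi v t y) :=
    fun y => (ph_summable v t y).hasSum.mul_left _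
  have h2 : HasSum (fun k => nb (fun y => ex (-(t * v y)) * ph v k t y) x)
      (nb (fun y => ex (-(t * v y)) * phi v t y) x) :=
    hasSum_sum fun i _ => (h1 _).add (h1 _)
  have h3 := ((h2.mul_left (ex (t * v x))).mul_left Complex.I).neg
  exact h3

theorem phi_deriv (v : Zd d → ℝ) (x : Zd d) (t : ℝ) :
    HasDerivAt (fun t => phi v t x) (GG' v t (phi v t) x) t := by
  obtain ⟨T, hT⟩ : ∃ T : ℝ, T = |t| + 1 := ⟨_, rfl⟩
  have hT0 : 0 ≤ T := by rw [hT]; positivity
  let g' : ℕ → ℝ → ℂ := fun k s => Nat.casesOn k 0 fun j => GG' v s (ph v j s) x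
  let u : ℕ → ℝ := fun k => Nat.casesOn k 0 fun j => nb (fun y => tm T j y) x
  have hu : Summable u := by
    rw [← summable_nat_add_iff 1]
    show Summable fun j => nb (fun y => tm T j y) x
    unfold nb
    exact summable_sum fun i _ => (tm_summable_left hT0 _).add (tm_summable_left hT0 _)
  have hmem : t ∈ Set.Ioo (-T) T := by
    have h1 := abs_lt.1 (show |t| < T by rw [hT]; linarith)
    exact ⟨h1.1, h1.2⟩
  have hd := hasDerivAt_tsum_of_isPreconnected (g := fun k s => ph v k s x) (g' := g') hu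
    (isOpen_Ioo (a := -T) (b := T)) isPreconnected_Ioo (fun k s _ => by
      cases k with
      | zero => exact hasDerivAt_const s _
      | succ j => exact ph_deriv v j x s) (fun k s hs => by
      cases k with
      | zero => show ‖(0 : ℂ)‖ ≤ 0; simp
      | succ j =>
        show ‖GG' v s (ph v j s) x‖ ≤ nb (fun y => tm T j y) x
        refine (GG'_norm v s _ x).trans (nb_mono _ _ (fun y => ?_) x)
        refine (ph_bound v j y s).trans (tm_mono (abs_nonneg s) ?_ j y)
        exact abs_le.2 ⟨hs.1.le, hs.2.le⟩) hmem (ph_summable v t x) hmem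
  have h2 : ∑' k, g' k t = GG' v t (phi v t) x := by
    have h3 : Summable fun k => g' k t := by
      rw [← summable_nat_add_iff 1]
      exact (GG'_tsum v t x).summable
    rw [h3.tsum_eq_zero_add]
    show (0 : ℂ) + ∑' j, GG' v t (ph v j t) x = _
    rw [zero_add, (GG'_tsum v t x).tsum_eq]
  rw [h2] at hd
  exact hd

/-- the solution -/
noncomputable def psi (v : Zd d → ℝ) (t : ℝ) (x : Zd d) : ℂ := ex (-(t * v x)) * phi v t x

theorem psi_norm (v : Zd d → ℝ) (t : ℝ) (x : Zd d) : ‖psi v t x‖ = ‖phi v t x‖ := by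
  unfold psi
  rw [norm_mul, ex_norm, one_mul]

theorem psi_bound (v : Zd d → ℝ) {t T : ℝ} (h : |t| ≤ T) (x : Zd d) : ‖psi v t x‖ ≤ BB T x := by
  rw [psi_norm]
  exact phi_bound v h x

theorem psi_zero (v : Zd d → ℝ) : psi v 0 = Pi.single 0 1 := by
  funext x
  unfold psi
  rw [phi_zero, zero_mul, neg_zero]
  unfold ex
  simp

theorem ex_deriv (c t : ℝ) : HasDerivAt (fun s : ℝ => ex (-(s * c)))
    (-(Complex.I * c) * ex (-(t * c))) t := by
  unfold ex
  have h1 : HasDerivAt (fun s : ℝ => (((-(s * c) : ℝ) : ℂ) * Complex.I)) (-(c : ℂ) * Complex.I) t := by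
    have h2 : HasDerivAt (fun s : ℝ => -(s * c)) (-c) t := by
      have := ((hasDerivAt_id' t).mul_const c).fun_neg
      rw [one_mul] at this
      exact this
    have h3 := (h2.ofReal_comp).mul_const Complex.I
    simpa using h3
  have h4 := h1.cexp
  convert h4 using 1
  ring

theorem psi_deriv (v : Zd d → ℝ) (x : Zd d) (t : ℝ) :
    HasDerivAt (fun s => psi v s x) (-(Complex.I * (nb (psi v t) x + (v x : ℂ) * psi v t x))) t := by
  have h1 := (ex_deriv (v x) t).mul (phi_deriv v x t)
  have h2 : -(Complex.I * (nb (psi v t) x + (v x : ℂ) * psi v t x)) =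
      -(Complex.I * v x) * ex (-(t * v x)) * phi v t x +
        ex (-(t * v x)) * GG' v t (phi v t) x := by
    unfold GG'
    have h3 : nb (fun y => ex (-(t * v y)) * phi v t y) x = nb (psi v t) x := rfl
    rw [h3]
    have h4 : ex (-(t * v x)) * ex (t * v x) = 1 := by
      rw [← ex_add, neg_add_cancel]
      unfold ex
      simp
    have h5 : ex (-(t * v x)) * phi v t x = psi v t x := rfl
    linear_combination (Complex.I * v x) * h5 + (Complex.I * nb (psi v t) x) * h4
  rw [h2]
  exact h1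

end Pool.Agent.T2h98.QD.Exi
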