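import Pool.Agent.T2h98.QD.All

/-! The final form in terms of `σ`. -/

set_option autoImplicit false

open scoped BigOperators
open MeasureTheory ProbabilityTheory

namespace Pool.Agent.T2h98.QD

theorem pos_case (d : ℕ) (hd : 3 ≤ d) (a b : ℝ) (ha : 0 ≤ a)
    (had : a < ((d : ℝ) - 1) / (7 * d + 2)) (hab : 2 * a < b) :
    ∃ σ₀ c : ℝ, 0 < σ₀ ∧ 0 < c ∧ ∀ σ : ℝ, 0 < σ → σ ≤ σ₀ →
      (∀ Ψ : ((Fin d → ℤ) → ℝ) → ℝ → (Fin d → ℤ) → ℂ, (∀ ξ, Evol (fun x => σ * ξ x) (Ψ ξ)) →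
        ∀ (i : Fin d) (T : ℝ), σ ^ (-2 - b) ≤ T →
        ∫ ξ, mm i (σ ^ (-2 - a)) T (Ψ ξ)
          ∂(Measure.infinitePi fun _ : Fin d → ℤ => gaussianReal 0 1) ≤ σ ^ c) ∧
      ∀ (L : ℕ) [NeZero L], σ ^ (-7 : ℝ) ≤ L →
        ∃ Ω : Set ((Fin d → ZMod L) → ℝ), MeasurableSet Ω ∧
          1 - σ ^ c ≤ (Measure.pi fun _ : Fin d → ZMod L => gaussianReal 0 1).real Ω ∧
          ∀ V ∈ Ω, Spread (σ ^ (-2 - a)) (σ ^ c)
            (HT (d := d) (L := L) σ V) := by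
  obtain ⟨y0, c, hy0, hc, h⟩ := pos_final facts
    law (cmp tent
      tail_all) exi d hd a b ha had hab
  refine ⟨Real.exp (-y0), c, Real.exp_pos _, hc, ?_⟩
  intro σ hσ hσ0
  obtain ⟨y, hy⟩ : ∃ y, y = -Real.log σ := ⟨_, rfl⟩
  have hyy : y0 ≤ y := by
    have h1 := Real.log_le_log hσ hσ0
    rw [Real.log_exp] at h1
    linarith
  have hpow : ∀ r : ℝ, σ ^ r = Real.exp (-r * y) := by
    intro r
    rw [Real.rpow_def_of_pos hσ, hy]
    congr 1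
    ring
  have e1 : σ ^ (-2 - a) = Real.exp ((2 + a) * y) := by
    rw [hpow]
    congr 1
    ring
  have e2 : σ ^ (-2 - b) = Real.exp ((2 + b) * y) := by
    rw [hpow]
    congr 1
    ring
  have e3 : σ ^ (-7 : ℝ) = Real.exp (7 * y) := by
    rw [hpow]
    congr 1
    ring
  have e4 : σ ^ c = Real.exp (-c * y) := hpow c
  have e5 : Real.exp (-y) = σ := by rw [hy, neg_neg, Real.exp_log hσ]
  have h1 := h y hyy
  rw [e5] at h1
  rw [e1, e2, e3, e4]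
  constructor
  · intro Ψ hΨ i T hT
    exact h1.1 Ψ hΨ i T hT
  · intro L _ hL
    exact h1.2 L hL

end Pool.Agent.T2h98.QD
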