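import Pool.Agent.T2h98.QD.TInt2

/-! The diffusive limit: from the torus to the lattice, from Abel means to time windows. -/

set_option autoImplicit false
set_option linter.unusedSectionVars false

open scoped BigOperators Matrix Topology
open MeasureTheory ProbabilityTheory Filter

namespace Pool.Agent.T2h98.QD.U

open Pool.Agent.W788.MFP.Four (T e NN adj K)
open Pool.Agent.W788.BK (nsq hs PP JJ hi Low cr)

/-- a momentum of the torus close to a given one -/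
theorem exists_mo {d L : ℕ} [NeZero L] (hL : 2 ≤ L) (q : Fin d → ℝ) (hq : ∀ i, |q i| ≤ 1) :
    ∃ κ : T d L, ∀ i, |q i - mo κ i| ≤ 2 * Real.pi / L := by
  have hL0 : (0 : ℝ) < L := by
    have : (2 : ℝ) ≤ L := by exact_mod_cast hL
    linarith
  have hL2 : (2 : ℝ) ≤ L := by exact_mod_cast hL
  have hpi := Real.pi_gt_three
  obtain ⟨j, hj⟩ : ∃ j : Fin d → ℤ, j = fun i => round (q i * L / (2 * Real.pi)) := ⟨_, rfl⟩
  have h1 : ∀ i, |q i * L / (2 * Real.pi) - j i| ≤ 1 / 2 := by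
    intro i
    rw [hj]
    exact abs_sub_round _
  have h2 : ∀ i, ((j i : ZMod L).valMinAbs : ℤ) = j i := by
    intro i
    have e0 := abs_le.1 (hq i)
    have e1 := abs_le.1 (h1 i)
    have e2 : |q i * L / (2 * Real.pi)| ≤ L / 6 := by
      rw [abs_div, abs_mul, abs_of_pos hL0, abs_of_pos (by positivity : 0 < 2 * Real.pi),
        div_le_div_iff₀ (by positivity) (by norm_num)]
      have : |q i| * L ≤ 1 * L := by
        have := hq i
        gcongr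
      nlinarith
    have e3 := abs_le.1 e2
    have e4 : (j i : ℝ) * 2 < L := by linarith
    have e5 : -(L : ℝ) < (j i : ℝ) * 2 := by linarith
    rw [ZMod.valMinAbs_spec]
    refine ⟨rfl, ?_, ?_⟩
    · exact_mod_cast e5
    · exact_mod_cast e4.le
  refine ⟨fun i => (j i : ZMod L), fun i => ?_⟩
  unfold mo
  rw [h2 i]
  have e1 : q i - 2 * Real.pi * (j i : ℝ) / L =
      2 * Real.pi / L * (q i * L / (2 * Real.pi) - j i) := by
    field_simp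
  rw [e1, abs_mul, abs_of_pos (by positivity)]
  have e2 := h1 i
  calc 2 * Real.pi / L * |q i * L / (2 * Real.pi) - j i| ≤ 2 * Real.pi / L * 1 := by
        gcongr
        linarith
    _ = _ := mul_one _

/-- the momenta along the limit -/
theorem exists_kappa {d : ℕ} {h : ℝ} (h0 : 0 < h) (Q : Fin d → ℝ) :
    ∃ κ : ∀ σ : ℝ, T d (LL σ), ∀ᶠ σ in 𝓝[>] (0 : ℝ),
      ∀ i, |σ ^ (2 + h / 2) * Q i - mo (κ σ) i| ≤ 2 * Real.pi / (LL σ : ℝ) := by
  classical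
  have h1 : ∀ᶠ σ in 𝓝[>] (0 : ℝ), ∃ κ : T d (LL σ),
      ∀ i, |σ ^ (2 + h / 2) * Q i - mo κ i| ≤ 2 * Real.pi / (LL σ : ℝ) := by
    have h2 : Tendsto (fun σ : ℝ => σ ^ (2 + h / 2)) (𝓝[>] 0) (𝓝 0) := by
      have h3 := (Real.continuousAt_rpow_const 0 (2 + h / 2) (Or.inr (by linarith))).tendsto
      rw [Real.zero_rpow (by linarith)] at h3
      exact h3.mono_left nhdsWithin_le_nhds
    have h4 : ∀ᶠ σ in 𝓝[>] (0 : ℝ), ∀ i, |σ ^ (2 + h / 2) * Q i| ≤ 1 := by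
      rw [eventually_all]
      intro i
      have h5 : Tendsto (fun σ : ℝ => |σ ^ (2 + h / 2) * Q i|) (𝓝[>] 0) (𝓝 0) := by
        have := (h2.mul_const (Q i)).abs
        rwa [zero_mul, abs_zero] at this
      exact (h5.eventually (gt_mem_nhds one_pos)).mono fun σ hσ => hσ.le
    filter_upwards [h4, self_mem_nhdsWithin, nhdsWithin_le_nhds (eventually_lt_nhds one_pos)]
      with σ hσ hσ0 hσ1
    have hσ0' : 0 < σ := hσ0
    have hLL : 2 ≤ LL σ := by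
      unfold LL
      have : 0 < ⌈(σ ^ 12)⁻¹⌉₊ := Nat.ceil_pos.2 (by positivity)
      omega
    exact exists_mo hLL _ hσ
  refine ⟨fun σ => if hσ : ∃ κ : T d (LL σ), ∀ i, |σ ^ (2 + h / 2) * Q i - mo κ i| ≤
      2 * Real.pi / (LL σ : ℝ) then hσ.choose else 0, ?_⟩
  filter_upwards [h1] with σ hσ
  rw [dif_pos hσ]
  exact hσ.choose_spec

/-- the Abel means of the lattice -/
theorem lim_abel {d : ℕ} {h τ : ℝ} (P : Fac3 d h τ) (hlat : T_LATQ) (hlap : T_LAP)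
    (Ψ : (Zd d → ℝ) → ℝ → Zd d → ℂ) (hΨ : ∀ v, Evol v (Ψ v)) (Q : Fin d → ℝ) :
    Tendsto (fun σ : ℝ => ∫ s in Set.Ioi (0 : ℝ), ((Real.exp (-(s / τ)) : ℝ) : ℂ) *
      FF Ψ (fun i => σ ^ (2 + h / 2) * Q i) σ (s / σ ^ (2 + h))) (𝓝[>] 0)
      (𝓝 (∫ s in Set.Ioi (0 : ℝ), ((Real.exp (-(s / τ)) : ℝ) : ℂ) * ((F0 d Q s : ℝ) : ℂ))) := by
  have hτ := P.hτ
  obtain ⟨-, -, -, C, hC, hlatq⟩ := hlat d Ψ hΨ
  obtain ⟨-, -, -, hI1, hl⟩ := hlap d P.hd Q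
  obtain ⟨-, hl2⟩ := hl τ hτ
  obtain ⟨κ, hκ⟩ := exists_kappa (d := d) P.h0 Q
  have hmain := lim_int P Q κ hκ hI1
  -- the substitution
  have hsub : ∀ σ : ℝ, 0 < σ → ∀ q : Fin d → ℝ,
      ((((τ / σ ^ (2 + h))⁻¹ : ℝ)) : ℂ) * (∫ t in Set.Ioi (0 : ℝ),
        ((Real.exp (-(t / (τ / σ ^ (2 + h)))) : ℝ) : ℂ) * FF Ψ q σ t) =
      ((τ⁻¹ : ℝ) : ℂ) * ∫ s in Set.Ioi (0 : ℝ), ((Real.exp (-(s / τ)) : ℝ) : ℂ) *
        FF Ψ q σ (s / σ ^ (2 + h)) := by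
    intro σ hσ q
    obtain ⟨c, hc⟩ : ∃ c, c = σ ^ (2 + h) := ⟨_, rfl⟩
    have hc0 : 0 < c := by
      rw [hc]
      exact Real.rpow_pos_of_pos hσ _
    rw [← hc]
    have h1 := integral_comp_mul_left_Ioi (fun t : ℝ =>
      ((Real.exp (-(t / (τ / c))) : ℝ) : ℂ) * FF Ψ q σ t) 0 (inv_pos.2 hc0)
    rw [mul_zero, inv_inv] at h1
    have h2 : ∀ s : ℝ, ((Real.exp (-(c⁻¹ * s / (τ / c))) : ℝ) : ℂ) * FF Ψ q σ (c⁻¹ * s) =
        ((Real.exp (-(s / τ)) : ℝ) : ℂ) * FF Ψ q σ (s / c) := by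
      intro s
      have e1 : c⁻¹ * s / (τ / c) = s / τ := by
        field_simp
      have e2 : c⁻¹ * s = s / c := by
        field_simp
      rw [e1, e2]
    simp only [h2] at h1
    rw [h1, Complex.real_smul, ← mul_assoc]
    congr 1
    push_cast
    have hτC : (τ : ℂ) ≠ 0 := by exact_mod_cast hτ.ne'
    have hcC : (c : ℂ) ≠ 0 := by exact_mod_cast hc0.ne'
    field_simp
  -- the error
  have herr : Tendsto (fun σ : ℝ => C * (1 + τ / σ ^ (2 + h)) ^ 2 / Real.sqrt (LL σ))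
      (𝓝[>] 0) (𝓝 0) := by
    have h1 : Tendsto (fun σ : ℝ => C * (1 + τ) ^ 2 * σ ^ (2 - 2 * h)) (𝓝[>] 0) (𝓝 0) := by
      have h3 := (Real.continuousAt_rpow_const 0 (2 - 2 * h) (Or.inr (by
        have := P.hh
        linarith))).tendsto
      rw [Real.zero_rpow (by have := P.hh; linarith)] at h3
      have h4 := (h3.mono_left (nhdsWithin_le_nhds (s := Set.Ioi (0 : ℝ)))).const_mul
        (C * (1 + τ) ^ 2)
      rwa [mul_zero] at h4
    refine squeeze_zero' ?_ ?_ h1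
    · filter_upwards [self_mem_nhdsWithin] with σ hσ0
      positivity
    · filter_upwards [self_mem_nhdsWithin, nhdsWithin_le_nhds (eventually_lt_nhds one_pos)]
        with σ hσ0 hσ1
      have hσ0' : 0 < σ := hσ0
      have hc0 : 0 < σ ^ (2 + h) := Real.rpow_pos_of_pos hσ0' _
      have e1 : 1 + τ / σ ^ (2 + h) ≤ (1 + τ) / σ ^ (2 + h) := by
        rw [add_div]
        have : 1 ≤ 1 / σ ^ (2 + h) := by
          rw [le_div_iff₀ hc0, one_mul]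
          exact Real.rpow_le_one hσ0'.le hσ1.le (by linarith [P.h0])
        linarith
      have e2 : (σ ^ 6)⁻¹ ≤ Real.sqrt (LL σ) := by
        apply Real.le_sqrt_of_sq_le
        rw [inv_pow, ← pow_mul]
        exact LL_ge hσ0'
      calc C * (1 + τ / σ ^ (2 + h)) ^ 2 / Real.sqrt (LL σ) ≤
          C * ((1 + τ) / σ ^ (2 + h)) ^ 2 / (σ ^ 6)⁻¹ := by gcongr
        _ = C * (1 + τ) ^ 2 * (σ ^ 6 / (σ ^ (2 + h)) ^ 2) := by
          field_simp
        _ = C * (1 + τ) ^ 2 * σ ^ (2 - 2 * h) := by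
          congr 1
          rw [← Real.rpow_natCast, ← Real.rpow_natCast, ← Real.rpow_mul hσ0'.le,
            ← Real.rpow_sub hσ0']
          congr 1
          push_cast
          ring
  have hdiff : Tendsto (fun σ : ℝ => ((τ⁻¹ : ℝ) : ℂ) * (∫ s in Set.Ioi (0 : ℝ),
      ((Real.exp (-(s / τ)) : ℝ) : ℂ) *
        FF Ψ (fun i => σ ^ (2 + h / 2) * Q i) σ (s / σ ^ (2 + h))) -
      ((eT h τ σ / Real.pi : ℝ) : ℂ) * ∫ E : ℝ, Sr d (LL σ) σ E (eT h τ σ) (κ σ))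
      (𝓝[>] 0) (𝓝 0) := by
    refine squeeze_zero_norm' ?_ herr
    filter_upwards [self_mem_nhdsWithin, hκ] with σ hσ0 hκσ
    have hσ0' : 0 < σ := hσ0
    have hτ' : 0 < τ / σ ^ (2 + h) := div_pos hτ (Real.rpow_pos_of_pos hσ0' _)
    have h1 := hlatq (LL σ) (κ σ) (fun i => σ ^ (2 + h / 2) * Q i) hκσ σ (τ / σ ^ (2 + h)) hτ'
    rw [hsub σ hσ0', ← eT_eq hτ hσ0'] at h1
    exact h1
  have hsum := hdiff.add hmain
  rw [zero_add] at hsum
  have h2 := hsum.const_mul (τ : ℂ)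
  have hτC : (τ : ℂ) ≠ 0 := by exact_mod_cast hτ.ne'
  have e1 : (τ : ℂ) * ((∫ E, fl d Q τ E : ℝ) : ℂ) =
      ∫ s in Set.Ioi (0 : ℝ), ((Real.exp (-(s / τ)) : ℝ) : ℂ) * ((F0 d Q s : ℝ) : ℂ) := by
    simp only [← Complex.ofReal_mul]
    rw [integral_complex_ofReal, hl2]
  rw [e1] at h2
  refine h2.congr fun σ => ?_
  rw [sub_add_cancel, ← mul_assoc]
  push_cast
  rw [mul_inv_cancel₀ hτC, one_mul]

/-- **the diffusive limit** -/
theorem qdl (hP : T_POIN) (hI : T_IBP) (hrqf : T_RQF) (hinv : T_INV) (hscal : T_SCAL2)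
    (hpoi : T_POI) (hdif : T_DIF) (hdos : T_DOS) (hen : T_EN) (hlat : T_LATQ) (hlap : T_LAP)
    (habel : T_ABEL) {d : ℕ} (hd : 3 ≤ d) {h : ℝ} (h0 : 0 < h)
    (h1 : h < if d = 3 then 2 / 5 else 4 / 5)
    (Ψ : (Zd d → ℝ) → ℝ → Zd d → ℂ) (hΨ : ∀ v, Evol v (Ψ v)) (Q : Fin d → ℝ) {a b : ℝ}
    (ha : 0 ≤ a) (hab : a < b) :
    Tendsto (fun σ : ℝ => (((b - a)⁻¹ : ℝ) : ℂ) * ∫ s in a..b,
      FF Ψ (fun i => |σ| ^ (2 + h / 2) * Q i) σ (s / |σ| ^ (2 + h))) (𝓝[≠] 0)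
      (𝓝 (((b - a)⁻¹ * ∫ s in a..b, F0 d Q s : ℝ) : ℂ)) := by
  have hh1 : h < (if d = 3 then 1 else 2) / (2 + 1 / 2 : ℝ) := by
    refine h1.trans_le ?_
    split_ifs <;> norm_num
  have hh : h < 1 := by
    refine h1.trans_le ?_
    split_ifs <;> norm_num
  obtain ⟨m1, m2, m3, -⟩ := hlat d Ψ hΨ
  obtain ⟨n1, n2, -⟩ := hlap d hd Q
  obtain ⟨G, hG⟩ : ∃ G : ℝ → ℝ → ℂ, G = fun σ s =>
    FF Ψ (fun i => σ ^ (2 + h / 2) * Q i) σ (s / σ ^ (2 + h)) := ⟨_, rfl⟩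
  have key : ∀ τ : ℝ, 0 < τ → Tendsto (fun σ : ℝ => ∫ s in Set.Ioi (0 : ℝ),
      ((Real.exp (-(s / τ)) : ℝ) : ℂ) * G σ s) (𝓝[>] 0)
      (𝓝 (∫ s in Set.Ioi (0 : ℝ), ((Real.exp (-(s / τ)) : ℝ) : ℂ) *
        ((F0 d Q (max s 0) : ℝ) : ℂ))) := by
    intro τ hτ
    have P : Fac3 d h τ := ⟨hd, h0, hh, hτ, hpoi, hdif, hdos, hen,
      evm_of hP hI hrqf hinv hscal hd h0 hh1 hτ⟩
    have h2 := lim_abel P hlat hlap Ψ hΨ Q
    rw [hG]
    have e1 : ∫ s in Set.Ioi (0 : ℝ), ((Real.exp (-(s / τ)) : ℝ) : ℂ) *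
        ((F0 d Q (max s 0) : ℝ) : ℂ) =
        ∫ s in Set.Ioi (0 : ℝ), ((Real.exp (-(s / τ)) : ℝ) : ℂ) * ((F0 d Q s : ℝ) : ℂ) := by
      refine setIntegral_congr_fun measurableSet_Ioi fun s hs => ?_
      rw [max_eq_left (le_of_lt hs)]
    rw [e1]
    exact h2
  have h3 := habel ℝ (𝓝[>] (0 : ℝ)) G (fun s => ((F0 d Q (max s 0) : ℝ) : ℂ))
    (fun σ => by
      rw [hG]
      exact (m1 _ σ).comp (measurable_id.div_const _))
    (Complex.measurable_ofReal.comp n1)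
    (fun σ t => by
      rw [hG]
      exact m2 _ _ _)
    (fun t => by
      rw [Complex.norm_real, Real.norm_of_nonneg (n2 t).1]
      exact (n2 t).2) key a b ha hab.le
  -- both signs
  have h4 : Tendsto (fun σ : ℝ => |σ|) (𝓝[≠] 0) (𝓝[>] 0) := by
    rw [tendsto_nhdsWithin_iff]
    refine ⟨?_, ?_⟩
    · have := (continuous_abs (G := ℝ)).tendsto 0
      rw [abs_zero] at this
      exact this.mono_left nhdsWithin_le_nhds
    · filter_upwards [self_mem_nhdsWithin] with σ hσ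
      exact abs_pos.2 hσ
  have h5 := (h3.comp h4).const_mul ((((b - a)⁻¹ : ℝ)) : ℂ)
  have e2 : (((b - a)⁻¹ : ℝ) : ℂ) * ∫ s in a..b, ((F0 d Q (max s 0) : ℝ) : ℂ) =
      (((b - a)⁻¹ * ∫ s in a..b, F0 d Q s : ℝ) : ℂ) := by
    rw [intervalIntegral.integral_ofReal, ← Complex.ofReal_mul]
    congr 2
    refine intervalIntegral.integral_congr fun s hs => ?_
    rw [Set.uIcc_of_le hab.le] at hs
    rw [max_eq_left (ha.trans hs.1)]
  rw [e2] at h5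
  refine h5.congr fun σ => ?_
  simp only [Function.comp_apply]
  congr 1
  refine intervalIntegral.integral_congr fun s _ => ?_
  simp only [hG]
  rcases abs_choice σ with hs | hs
  · rw [hs]
  · rw [hs, m3]

end Pool.Agent.T2h98.QD.U
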