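import Pool.Agent.T2h98.QD.TInt3
import Pool.Agent.T2h98.QD.Fin2

/-! The diffusive limit, in the mean. -/

set_option autoImplicit false
set_option linter.unusedSectionVars false

open scoped BigOperators Matrix Topology
open MeasureTheory ProbabilityTheory Filter

namespace Pool.Agent.T2h98.QD.U

open Pool.Agent.W788.MFP.Four (T e NN adj K)
open Pool.Agent.W788.BK (nsq hs PP JJ hi Low cr)

/-- change of time in an Abel mean -/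
theorem abel_sub {τ c : ℝ} (hτ : 0 < τ) (hc0 : 0 < c) (f : ℝ → ℂ) :
    ((((τ / c)⁻¹ : ℝ)) : ℂ) * (∫ t in Set.Ioi (0 : ℝ),
      ((Real.exp (-(t / (τ / c))) : ℝ) : ℂ) * f t) =
    ((τ⁻¹ : ℝ) : ℂ) * ∫ s in Set.Ioi (0 : ℝ), ((Real.exp (-(s / τ)) : ℝ) : ℂ) * f (s / c) := by
  have h1 := integral_comp_mul_left_Ioi (fun t : ℝ =>
    ((Real.exp (-(t / (τ / c))) : ℝ) : ℂ) * f t) 0 (inv_pos.2 hc0)
  rw [mul_zero, inv_inv] at h1
  have h2 : ∀ s : ℝ, ((Real.exp (-(c⁻¹ * s / (τ / c))) : ℝ) : ℂ) * f (c⁻¹ * s) =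
      ((Real.exp (-(s / τ)) : ℝ) : ℂ) * f (s / c) := by
    intro s
    have e1 : c⁻¹ * s / (τ / c) = s / τ := by
      field_simp
    have e2 : c⁻¹ * s = s / c := by
      field_simp
    rw [e1, e2]
  simp only [h2] at h1
  rw [h1, Complex.real_smul, ← mul_assoc]
  congr 1
  push_cast
  have hτC : (τ : ℂ) ≠ 0 := by exact_mod_cast hτ.ne'
  have hcC : (c : ℂ) ≠ 0 := by exact_mod_cast hc0.ne'
  field_simp

/-- the error of the comparison -/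
theorem err_lim {h : ℝ} (h0 : 0 < h) (hh : h < 1) {τ C : ℝ} (hτ : 0 < τ) (hC : 0 < C) :
    Tendsto (fun σ : ℝ => C * (1 + τ / σ ^ (2 + h)) ^ 2 / Real.sqrt (LL σ))
      (𝓝[>] 0) (𝓝 0) := by
  have h1 : Tendsto (fun σ : ℝ => C * (1 + τ) ^ 2 * σ ^ (2 - 2 * h)) (𝓝[>] 0) (𝓝 0) := by
    have h3 := (Real.continuousAt_rpow_const 0 (2 - 2 * h) (Or.inr (by linarith))).tendsto
    rw [Real.zero_rpow (by linarith)] at h3
    have h4 := (h3.mono_left (nhdsWithin_le_nhds (s := Set.Ioi (0 : ℝ)))).const_mul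
      (C * (1 + τ) ^ 2)
    rwa [mul_zero] at h4
  refine squeeze_zero' ?_ ?_ h1
  · filter_upwards [self_mem_nhdsWithin] with σ hσ0
    positivity
  · filter_upwards [self_mem_nhdsWithin, nhdsWithin_le_nhds (eventually_lt_nhds one_pos)]
      with σ hσ0 hσ1
    have hσ0' : 0 < σ := hσ0
    have hc0 : 0 < σ ^ (2 + h) := Real.rpow_pos_of_pos hσ0' _
    have e1 : 1 + τ / σ ^ (2 + h) ≤ (1 + τ) / σ ^ (2 + h) := by
      rw [add_div]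
      have : 1 ≤ 1 / σ ^ (2 + h) := by
        rw [le_div_iff₀ hc0, one_mul]
        exact Real.rpow_le_one hσ0'.le hσ1.le (by linarith)
      linarith
    have e2 : (σ ^ 6)⁻¹ ≤ Real.sqrt (LL σ) := by
      apply Real.le_sqrt_of_sq_le
      rw [inv_pow, ← pow_mul]
      exact LL_ge hσ0'
    calc C * (1 + τ / σ ^ (2 + h)) ^ 2 / Real.sqrt (LL σ) ≤
        C * ((1 + τ) / σ ^ (2 + h)) ^ 2 / (σ ^ 6)⁻¹ := by gcongr
      _ = C * (1 + τ) ^ 2 * (σ ^ 6 / (σ ^ (2 + h)) ^ 2) := by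
        field_simp
      _ = C * (1 + τ) ^ 2 * σ ^ (2 - 2 * h) := by
        congr 1
        rw [← Real.rpow_natCast, ← Real.rpow_natCast, ← Real.rpow_mul hσ0'.le,
          ← Real.rpow_sub hσ0']
        congr 1
        push_cast
        ring

/-- the Abel means of the lattice, in the mean -/
theorem lim_abel2 {d : ℕ} {h τ : ℝ} (P : Fac3 d h τ) (hen2 : T_EN2c) (hv : EvV d h τ)
    (hlat : T_LATQ2c) (hlap : T_LAP)
    (Ψ : (Zd d → ℝ) → ℝ → Zd d → ℂ) (hΨ : ∀ v, Evol v (Ψ v)) (Q : Fin d → ℝ) :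
    Tendsto (fun σ : ℝ => ∫ ξ, ‖(∫ s in Set.Ioi (0 : ℝ), ((Real.exp (-(s / τ)) : ℝ) : ℂ) *
      Fz (fun i => σ ^ (2 + h / 2) * Q i) (Ψ (fun x => σ * ξ x) (s / σ ^ (2 + h)))) -
      ∫ s in Set.Ioi (0 : ℝ), ((Real.exp (-(s / τ)) : ℝ) : ℂ) * ((F0 d Q s : ℝ) : ℂ)‖ ∂(GZ d))
      (𝓝[>] 0) (𝓝 0) := by
  have hτ := P.hτ
  obtain ⟨-, -, -, C, hC, hlatq⟩ := hlat d Ψ hΨ
  obtain ⟨-, -, -, hI1, hl⟩ := hlap d P.hd Q
  obtain ⟨-, hl2⟩ := hl τ hτ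
  obtain ⟨κ, hκ⟩ := exists_kappa (d := d) P.h0 Q
  have hmain := lim_l1 P hen2 hv Q κ hκ hI1
  have herr := err_lim P.h0 P.hh hτ hC
  have hsum := (hmain.add herr).const_mul τ
  rw [add_zero, mul_zero] at hsum
  refine squeeze_zero' (Eventually.of_forall fun σ => integral_nonneg fun V => norm_nonneg _)
    ?_ hsum
  filter_upwards [self_mem_nhdsWithin, hκ] with σ hσ0 hκσ
  have hσ : 0 < σ := hσ0
  have hc0 : 0 < σ ^ (2 + h) := Real.rpow_pos_of_pos hσ _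
  have hτ' : 0 < τ / σ ^ (2 + h) := div_pos hτ hc0
  have h1 := hlatq (LL σ) (κ σ) (fun i => σ ^ (2 + h / 2) * Q i) hκσ σ (τ / σ ^ (2 + h))
    ((∫ E, fl d Q τ E : ℝ) : ℂ) hτ'
  rw [← eT_eq hτ hσ, Complex.conj_ofReal] at h1
  have hτC : (τ : ℂ) ≠ 0 := by exact_mod_cast hτ.ne'
  have e1 : ∫ s in Set.Ioi (0 : ℝ), ((Real.exp (-(s / τ)) : ℝ) : ℂ) * ((F0 d Q s : ℝ) : ℂ) =
      (τ : ℂ) * ((∫ E, fl d Q τ E : ℝ) : ℂ) := by
    simp only [← Complex.ofReal_mul]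
    rw [integral_complex_ofReal, hl2]
  have e2 : ∀ ξ : Zd d → ℝ, ‖(∫ s in Set.Ioi (0 : ℝ), ((Real.exp (-(s / τ)) : ℝ) : ℂ) *
      Fz (fun i => σ ^ (2 + h / 2) * Q i) (Ψ (fun x => σ * ξ x) (s / σ ^ (2 + h)))) -
      ∫ s in Set.Ioi (0 : ℝ), ((Real.exp (-(s / τ)) : ℝ) : ℂ) * ((F0 d Q s : ℝ) : ℂ)‖ =
      τ * ‖(((τ / σ ^ (2 + h))⁻¹ : ℝ) : ℂ) * (∫ t in Set.Ioi (0 : ℝ),
        ((Real.exp (-(t / (τ / σ ^ (2 + h)))) : ℝ) : ℂ) *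
        Fz (fun i => σ ^ (2 + h / 2) * Q i) (Ψ (fun x => σ * ξ x) t)) -
        ((∫ E, fl d Q τ E : ℝ) : ℂ)‖ := by
    intro ξ
    rw [abel_sub hτ hc0, e1]
    have e3 : τ * ‖((τ⁻¹ : ℝ) : ℂ) * (∫ s in Set.Ioi (0 : ℝ),
        ((Real.exp (-(s / τ)) : ℝ) : ℂ) *
        Fz (fun i => σ ^ (2 + h / 2) * Q i) (Ψ (fun x => σ * ξ x) (s / σ ^ (2 + h)))) -
        ((∫ E, fl d Q τ E : ℝ) : ℂ)‖ = ‖(τ : ℂ)‖ * ‖((τ⁻¹ : ℝ) : ℂ) * (∫ s in Set.Ioi (0 : ℝ),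
        ((Real.exp (-(s / τ)) : ℝ) : ℂ) *
        Fz (fun i => σ ^ (2 + h / 2) * Q i) (Ψ (fun x => σ * ξ x) (s / σ ^ (2 + h)))) -
        ((∫ E, fl d Q τ E : ℝ) : ℂ)‖ := by
      rw [Complex.norm_real, Real.norm_of_nonneg hτ.le]
    rw [e3, ← norm_mul, mul_sub, ← mul_assoc]
    congr 2
    push_cast
    rw [mul_inv_cancel₀ hτC, one_mul]
  simp only [e2]
  rw [integral_const_mul]
  exact mul_le_mul_of_nonneg_left h1 hτ.le

/-- **the diffusive limit, in the mean** -/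
theorem qdl2 (hP : T_POIN) (hI : T_IBP) (hrqf : T_RQF) (hinv : T_INV) (hscal : T_SCAL2)
    (hpoi : T_POI) (hdif : T_DIF) (hdos : T_DOS) (hen : T_EN) (hen2 : T_EN2c) (hlat : T_LATQ2c)
    (hlap : T_LAP) (habel : T_ABEL2) {d : ℕ} (hd : 3 ≤ d) {h : ℝ} (h0 : 0 < h)
    (h1 : h < if d = 3 then 2 / 5 else 4 / 5)
    (Ψ : (Zd d → ℝ) → ℝ → Zd d → ℂ) (hΨ : ∀ v, Evol v (Ψ v)) (Q : Fin d → ℝ) {a b : ℝ}
    (ha : 0 ≤ a) (hab : a ≤ b) :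
    Tendsto (fun σ : ℝ => ∫ ξ, ‖(∫ s in a..b,
      Fz (fun i => |σ| ^ (2 + h / 2) * Q i) (Ψ (fun x => σ * ξ x) (s / |σ| ^ (2 + h)))) -
      ((∫ s in a..b, F0 d Q s : ℝ) : ℂ)‖ ∂(GZ d)) (𝓝[≠] 0) (𝓝 0) := by
  have hh1 : h < (if d = 3 then 1 else 2) / (2 + 1 / 2 : ℝ) := by
    refine h1.trans_le ?_
    split_ifs <;> norm_num
  have hh : h < 1 := by
    refine h1.trans_le ?_
    split_ifs <;> norm_num
  obtain ⟨m1, m2, m3, -⟩ := hlat d Ψ hΨ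
  obtain ⟨n1, n2, -⟩ := hlap d hd Q
  have key : ∀ τ : ℝ, 0 < τ → Tendsto (fun σ : ℝ => ∫ ξ, ‖(∫ s in Set.Ioi (0 : ℝ),
      ((Real.exp (-(s / τ)) : ℝ) : ℂ) *
      Fz (fun i => σ ^ (2 + h / 2) * Q i) (Ψ (fun x => σ * ξ x) (s / σ ^ (2 + h)))) -
      ∫ s in Set.Ioi (0 : ℝ), ((Real.exp (-(s / τ)) : ℝ) : ℂ) *
        ((F0 d Q (max s 0) : ℝ) : ℂ)‖ ∂(GZ d)) (𝓝[>] 0) (𝓝 0) := by
    intro τ hτ
    have P : Fac3 d h τ := ⟨hd, h0, hh, hτ, hpoi, hdif, hdos, hen,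
      evm_of hP hI hrqf hinv hscal hd h0 hh1 hτ⟩
    have h2 := lim_abel2 P hen2 (evv_of hP hI hrqf hinv hscal hd h0 hh1 hτ) hlat hlap Ψ hΨ Q
    have e1 : ∫ s in Set.Ioi (0 : ℝ), ((Real.exp (-(s / τ)) : ℝ) : ℂ) *
        ((F0 d Q (max s 0) : ℝ) : ℂ) =
        ∫ s in Set.Ioi (0 : ℝ), ((Real.exp (-(s / τ)) : ℝ) : ℂ) * ((F0 d Q s : ℝ) : ℂ) := by
      refine setIntegral_congr_fun measurableSet_Ioi fun s hs => ?_
      rw [max_eq_left (le_of_lt hs)]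
    rw [e1]
    exact h2
  have h3 := habel (Zd d → ℝ) (GZ d) ℝ (𝓝[>] (0 : ℝ)) (fun σ ξ s =>
      Fz (fun i => σ ^ (2 + h / 2) * Q i) (Ψ (fun x => σ * ξ x) (s / σ ^ (2 + h))))
    (fun s => ((F0 d Q (max s 0) : ℝ) : ℂ))
    (fun σ => by
      have h4 := m1 (fun i => σ ^ (2 + h / 2) * Q i) σ
      exact h4.comp (by fun_prop : Measurable fun p : (Zd d → ℝ) × ℝ =>
        ((p.1, p.2 / σ ^ (2 + h)) : (Zd d → ℝ) × ℝ)))
    (Complex.measurable_ofReal.comp n1)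
    (fun σ ξ t => m2 _ _ _ _)
    (fun t => by
      rw [Complex.norm_real, Real.norm_of_nonneg (n2 t).1]
      exact (n2 t).2) key a b ha hab
  -- both signs
  have h4 : Tendsto (fun σ : ℝ => |σ|) (𝓝[≠] 0) (𝓝[>] 0) := by
    rw [tendsto_nhdsWithin_iff]
    refine ⟨?_, ?_⟩
    · have := (continuous_abs (G := ℝ)).tendsto 0
      rw [abs_zero] at this
      exact this.mono_left nhdsWithin_le_nhds
    · filter_upwards [self_mem_nhdsWithin] with σ hσ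
      exact abs_pos.2 hσ
  have h5 := h3.comp h4
  have e2 : ∫ s in a..b, ((F0 d Q (max s 0) : ℝ) : ℂ) =
      ((∫ s in a..b, F0 d Q s : ℝ) : ℂ) := by
    rw [intervalIntegral.integral_ofReal]
    congr 1
    refine intervalIntegral.integral_congr fun s hs => ?_
    rw [Set.uIcc_of_le hab] at hs
    rw [max_eq_left (ha.trans hs.1)]
  rw [e2] at h5
  refine h5.congr fun σ => ?_
  simp only [Function.comp_apply]
  rcases abs_choice σ with hs | hs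
  · rw [hs]
  · rw [hs]
    have h6 := m3 (fun i => (-σ) ^ (2 + h / 2) * Q i) σ ((-σ) ^ (2 + h)) a b
      ((∫ s in a..b, F0 d Q s : ℝ) : ℂ)
    exact h6

end Pool.Agent.T2h98.QD.U
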