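import Pool.Agent.T2h98.QD.Dyson

/-! The mean resolvent and the ladder equation, with error bounds. -/

set_option autoImplicit false
set_option linter.unusedSectionVars false

open scoped BigOperators Matrix
open MeasureTheory ProbabilityTheory

namespace Pool.Agent.T2h98.QD

open Pool.Agent.W788.BK
open Pool.Agent.W240.BK (BC BM cs_int)

variable {n m : Type} [Fintype n] [DecidableEq n] [Fintype m] [DecidableEq m]

/-- the homogeneous model -/
structure Hom (h J : Matrix n n ℂ) (A : m → Matrix n n ℂ) (η δ Q s2 : ℝ) {ι : Type} [Fintype ι]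
    (lam : ι → ℝ) (ul : ι → n → ℂ) (mb : ℂ) (G0 : Matrix n n ℂ) (ν Θ cn : ℝ) : Prop where
  S : Sys h J A η δ Q
  hs2 : 0 < s2
  hul : ∀ t x, ‖ul t x‖ = 1
  hlam : ∀ t, 0 ≤ lam t
  hcn : ∑ t, lam t ≤ cn
  hpsi : ∀ Z : Matrix n n ℂ, Psi A Z = (s2 : ℂ) • (Matrix.diagonal (fun x => Z x x) -
    ∑ t, (lam t : ℂ) • cj (ul t) Z)
  hm : ∀ x, ∫ V, GG h J A η V x x ∂(GP m) = mb
  him : 0 < mb.im
  hν : Q ≤ ν * η ^ 2
  hν2 : ν ≤ 1 / 2
  hG0 : G0 * (h - ((η : ℂ) * Complex.I) • J - ((s2 : ℂ) * mb) • (1 : Matrix n n ℂ)) = 1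
  hb : ∀ w : n → ℂ, nsq (G0 *ᵥ w) ≤ ((s2 * mb.im)⁻¹) ^ 2 * nsq w
  hbH : ∀ w : n → ℂ, nsq (G0ᴴ *ᵥ w) ≤ ((s2 * mb.im)⁻¹) ^ 2 * nsq w
  hΘ : ∀ x, nsq (G0 *ᵥ dl x) ≤ Θ

/-- the error -/
noncomputable def eps1 (η δ Q s2 ν Θ cn : ℝ) (mb : ℂ) : ℝ :=
  s2 * (Real.sqrt (2 * ν) * mb.im * Real.sqrt (Q * mb.im * Θ / (η ^ 3 * δ))) + cn / (η * δ)

theorem hs_cj {u : n → ℂ} (hu : ∀ x, ‖u x‖ = 1) (Z : Matrix n n ℂ) : hs (cj u Z) = hs Z := by
  unfold hs
  refine Finset.sum_congr rfl fun x _ => Finset.sum_congr rfl fun y _ => ?_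
  unfold cj
  rw [Matrix.of_apply, norm_mul, norm_mul, norm_star, hu, hu, one_mul, mul_one]

theorem nsq_cj {u : n → ℂ} (hu : ∀ x, ‖u x‖ = 1) (Z : Matrix n n ℂ) (c : ℝ)
    (hZ : ∀ w : n → ℂ, nsq (Z *ᵥ w) ≤ c * nsq w) (w : n → ℂ) :
    nsq (cj u Z *ᵥ w) ≤ c * nsq w := by
  rw [cj_eq, ← Matrix.mulVec_mulVec, ← Matrix.mulVec_mulVec, (nsq_diag hu _).1]
  have h1 := hZ ((Matrix.diagonal u)ᴴ *ᵥ w)
  rwa [(nsq_diag hu w).2] at h1

theorem col_eq (W : Matrix n n ℂ) (j : n) : (fun i => W i j) = W *ᵥ dl j := by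
  funext i
  unfold dl
  rw [Matrix.mulVec_single]
  simp

section sys

variable {h J : Matrix n n ℂ} {A : m → Matrix n n ℂ} {η δ Q s2 ν Θ cn : ℝ} {ι : Type}
  [Fintype ι] {lam : ι → ℝ} {ul : ι → n → ℂ} {mb : ℂ} {G0 : Matrix n n ℂ}

theorem hs_gg_le (S : Sys h J A η δ Q) (V : m → ℝ) :
    hs (GG h J A η V) ≤ ∑ x, (GG h J A η V x x).im / (η * δ) := by
  rw [hs_col]
  refine Finset.sum_le_sum fun x _ => ?_
  rw [col_eq]
  have := (nsq_gg_im S V (dl x)).1
  rwa [form_dl] at this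

theorem rc_im (S : Sys h J A η δ Q) (x : n) : RC fun V : m → ℝ => (GG h J A η V x x).im :=
  RC.im (bm_gg S x x)

theorem int_im (H : Hom h J A η δ Q s2 lam ul mb G0 ν Θ cn) (x : n) :
    ∫ V, (GG h J A η V x x).im ∂(GP m) = mb.im := by
  rw [← H.hm x]
  exact integral_im ((bm_gg H.S x x).integrable _)

/-- traces of products -/
theorem tr_bd (H : Hom h J A η δ Q s2 lam ul mb G0 ν Θ cn) {B W : (m → ℝ) → Matrix n n ℂ}
    (hB : BM B) (hW : BM W) (b w : ℝ) (hb0 : 0 ≤ b) (hw0 : 0 ≤ w)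
    (h1 : ∀ V, hs (B V) ≤ b ^ 2 * hs (GG h J A η V))
    (h2 : ∀ V, hs (W V) ≤ w ^ 2 * hs (GG h J A η V)) :
    ‖∫ V, (B V * W V).trace ∂(GP m)‖ ≤ Fintype.card n * (b * w * (mb.im / (η * δ))) := by
  have hη := H.S.hη
  have hδ := H.S.hδ
  have hpt : ∀ V, ‖(B V * W V).trace‖ ≤ b * w * ∑ x, (GG h J A η V x x).im / (η * δ) := by
    intro V
    have e1 : ‖(B V * W V).trace‖ ^ 2 ≤ (b * w * hs (GG h J A η V)) ^ 2 := by
      calc ‖(B V * W V).trace‖ ^ 2 ≤ hs (B V) * hs (W V) := cs_trace _ _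
        _ ≤ (b ^ 2 * hs (GG h J A η V)) * (w ^ 2 * hs (GG h J A η V)) :=
            mul_le_mul (h1 V) (h2 V) (hs_nonneg _)
              (mul_nonneg (sq_nonneg _) (hs_nonneg _))
        _ = _ := by ring
    have e2 : ‖(B V * W V).trace‖ ≤ b * w * hs (GG h J A η V) :=
      abs_le_of_sq_le_sq' e1 (mul_nonneg (mul_nonneg hb0 hw0) (hs_nonneg _)) |>.2
    exact e2.trans (mul_le_mul_of_nonneg_left (hs_gg_le H.S V) (mul_nonneg hb0 hw0))
  have i1 : RC fun V : m → ℝ => b * w * ∑ x, (GG h J A η V x x).im / (η * δ) := by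
    simp only [div_eq_mul_inv]
    exact (RC.const _).mul (RC.sum _ fun x _ => (rc_im H.S x).mul (RC.const _))
  calc ‖∫ V, (B V * W V).trace ∂(GP m)‖ ≤ ∫ V, ‖(B V * W V).trace‖ ∂(GP m) :=
        norm_integral_le_integral_norm _
    _ ≤ ∫ V, b * w * ∑ x, (GG h J A η V x x).im / (η * δ) ∂(GP m) :=
        integral_mono (RC.norm (hB.mul hW).trace).integrable i1.integrable hpt
    _ = _ := by
        rw [integral_const_mul, integral_finsetSum _ fun x _ => (rc_im H.S x).integrable.div_const _]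
        simp only [integral_div, int_im H, Finset.sum_const, Finset.card_univ, nsmul_eq_mul]
        ring

theorem trace_diag (P K : Matrix n n ℂ) (f : n → ℂ) :
    (P * Matrix.diagonal f * K).trace = ∑ x, f x * (K * P) x x := by
  rw [Matrix.trace_mul_comm, ← mul_assoc]
  unfold Matrix.trace
  refine Finset.sum_congr rfl fun x _ => ?_
  rw [Matrix.diag_apply, Matrix.mul_diagonal]
  ring

/-- the self-energy term -/
theorem self_term (hP : T_POIN) (H : Hom h J A η δ Q s2 lam ul mb G0 ν Θ cn)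
    {P Z K : (m → ℝ) → Matrix n n ℂ} (hPb : BM P) (hZ : BM Z) (hK : BM K)
    (hZd : ∀ V x, Z V x x = GG h J A η V x x) (R lo : ℝ) (hlo0 : 0 ≤ lo)
    (hvar : ∀ x, var (fun V => (K V * P V) x x) ≤ R)
    (hlo : ∀ t, ‖∫ V, (P V * cj (ul t) (Z V) * K V).trace ∂(GP m)‖ ≤ Fintype.card n * lo) :
    ‖∫ V, (P V * (Psi A (Z V) - ((s2 : ℂ) * mb) • (1 : Matrix n n ℂ)) * K V).trace ∂(GP m)‖ ≤
      Fintype.card n * (s2 * (Real.sqrt (2 * ν) * mb.im * Real.sqrt R) + s2 * cn * lo) := by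
  have hs2 := H.hs2
  have him := H.him
  have bcj : ∀ t, BM fun V => cj (ul t) (Z V) := fun t i j => by
    simp only [cj, Matrix.of_apply]
    exact ((BC.const _).mul (hZ i j)).mul (BC.const _)
  have bPK : ∀ x, BC fun V => (K V * P V) x x := fun x => (hK.mul hPb) x x
  have b1 : ∀ x, BC fun V => (GG h J A η V x x - mb) * (K V * P V) x x := fun x =>
    ((bm_gg H.S x x).sub (BC.const mb)).mul (bPK x)
  have b2 : ∀ t, BC fun V => (P V * cj (ul t) (Z V) * K V).trace := fun t =>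
    ((hPb.mul (bcj t)).mul hK).trace
  have hpt : ∀ V, (P V * (Psi A (Z V) - ((s2 : ℂ) * mb) • (1 : Matrix n n ℂ)) * K V).trace =
      (s2 : ℂ) * (∑ x, (GG h J A η V x x - mb) * (K V * P V) x x -
        ∑ t, (lam t : ℂ) * (P V * cj (ul t) (Z V) * K V).trace) := by
    intro V
    have e1 : Psi A (Z V) - ((s2 : ℂ) * mb) • (1 : Matrix n n ℂ) =
        (s2 : ℂ) • (Matrix.diagonal (fun x => GG h J A η V x x - mb) -
          ∑ t, (lam t : ℂ) • cj (ul t) (Z V)) := by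
      rw [H.hpsi, mul_smul, ← smul_sub]
      congr 1
      have e2 : Matrix.diagonal (fun x => GG h J A η V x x - mb) =
          Matrix.diagonal (fun x => Z V x x) - mb • (1 : Matrix n n ℂ) := by
        rw [← Matrix.diagonal_one, ← Matrix.diagonal_smul, Matrix.diagonal_sub]
        congr 1
        funext x
        rw [hZd, Pi.smul_apply, smul_eq_mul, mul_one]
      rw [e2]
      abel
    rw [e1, mul_smul_comm, smul_mul_assoc, Matrix.trace_smul, smul_eq_mul, mul_sub, sub_mul,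
      Matrix.trace_sub, trace_diag, Finset.mul_sum, Finset.sum_mul, Matrix.trace_sum]
    congr 2
    refine Finset.sum_congr rfl fun t _ => ?_
    rw [mul_smul_comm, smul_mul_assoc, Matrix.trace_smul, smul_eq_mul]
  have hint : ∫ V, (P V * (Psi A (Z V) - ((s2 : ℂ) * mb) • (1 : Matrix n n ℂ)) *
      K V).trace ∂(GP m) =
      (s2 : ℂ) * (∑ x, ∫ V, (GG h J A η V x x - mb) * (K V * P V) x x ∂(GP m) -
        ∑ t, (lam t : ℂ) * ∫ V, (P V * cj (ul t) (Z V) * K V).trace ∂(GP m)) := by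
    simp only [hpt]
    rw [integral_const_mul, integral_sub
      (integrable_finsetSum _ fun x _ => (b1 x).integrable _)
      (integrable_finsetSum _ fun t _ => ((b2 t).integrable _).const_mul _),
      integral_finsetSum _ fun x _ => (b1 x).integrable _,
      integral_finsetSum _ fun t _ => ((b2 t).integrable _).const_mul _]
    simp only [integral_const_mul]
  rw [hint, norm_mul, Complex.norm_real, Real.norm_of_nonneg hs2.le]
  have hx : ∀ x, ‖∫ V, (GG h J A η V x x - mb) * (K V * P V) x x ∂(GP m)‖ ≤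
      Real.sqrt (2 * ν) * mb.im * Real.sqrt R := by
    intro x
    obtain ⟨v1, -, v3⟩ := varD hP H.S x mb ν (H.hm x) H.hν H.hν2
    refine (cov (bm_gg H.S x x) (bPK x) mb (H.hm x)).trans ?_
    have e1 : Real.sqrt (var fun V => GG h J A η V x x) ≤ Real.sqrt (2 * ν) * mb.im := by
      rw [← Real.sqrt_sq him.le, ← Real.sqrt_mul (by positivity)]
      exact Real.sqrt_le_sqrt v1
    exact mul_le_mul e1 (Real.sqrt_le_sqrt (hvar x)) (Real.sqrt_nonneg _) (by positivity)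
  have hsum : ‖∑ t, (lam t : ℂ) * ∫ V, (P V * cj (ul t) (Z V) * K V).trace ∂(GP m)‖ ≤
      (∑ t, lam t) * (Fintype.card n * lo) := by
    rw [Finset.sum_mul]
    refine (norm_sum_le _ _).trans (Finset.sum_le_sum fun t _ => ?_)
    rw [norm_mul, Complex.norm_real, Real.norm_of_nonneg (H.hlam t)]
    exact mul_le_mul_of_nonneg_left (hlo t) (H.hlam t)
  have hsum2 : ‖∑ t, (lam t : ℂ) * ∫ V, (P V * cj (ul t) (Z V) * K V).trace ∂(GP m)‖ ≤
      cn * (Fintype.card n * lo) :=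
    hsum.trans (mul_le_mul_of_nonneg_right H.hcn (by positivity))
  have hsumx : ‖∑ x, ∫ V, (GG h J A η V x x - mb) * (K V * P V) x x ∂(GP m)‖ ≤
      Fintype.card n * (Real.sqrt (2 * ν) * mb.im * Real.sqrt R) := by
    refine (norm_sum_le _ _).trans ((Finset.sum_le_sum fun x _ => hx x).trans (le_of_eq ?_))
    rw [Finset.sum_const, Finset.card_univ, nsmul_eq_mul]
  calc _ ≤ s2 * (‖∑ x, ∫ V, (GG h J A η V x x - mb) * (K V * P V) x x ∂(GP m)‖ +
        ‖∑ t, (lam t : ℂ) * ∫ V, (P V * cj (ul t) (Z V) * K V).trace ∂(GP m)‖) :=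
        mul_le_mul_of_nonneg_left (norm_sub_le _ _) hs2.le
    _ ≤ s2 * (Fintype.card n * (Real.sqrt (2 * ν) * mb.im * Real.sqrt R) +
        cn * (Fintype.card n * lo)) := by gcongr
    _ = _ := by ring

end sys

end Pool.Agent.T2h98.QD
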