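import Pool.Agent.T2h98.QD.Ladder

/-! The mean resolvent and the ladder equation. -/

set_option autoImplicit false
set_option linter.unusedSectionVars false

open scoped BigOperators Matrix
open MeasureTheory ProbabilityTheory

namespace Pool.Agent.T2h98.QD

open Pool.Agent.W788.BK
open Pool.Agent.W240.BK (BC BM cs_int)

variable {n m : Type} [Fintype n] [DecidableEq n] [Fintype m] [DecidableEq m]

theorem cj_onev (Z : Matrix n n ℂ) : cj (fun _ => 1) Z = Z := by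
  ext x y
  unfold cj
  simp

section sys

variable {h J : Matrix n n ℂ} {A : m → Matrix n n ℂ} {η δ Q s2 ν Θ cn : ℝ} {ι : Type}
  [Fintype ι] {lam : ι → ℝ} {ul : ι → n → ℂ} {mb : ℂ} {G0 : Matrix n n ℂ}

theorem Hom.Θ0 (H : Hom h J A η δ Q s2 lam ul mb G0 ν Θ cn) (x : n) : 0 ≤ Θ :=
  (nsq_nonneg _).trans (H.hΘ x)

theorem Hom.cn0 (H : Hom h J A η δ Q s2 lam ul mb G0 ν Θ cn) : 0 ≤ cn :=
  (Finset.sum_nonneg fun t _ => H.hlam t).trans H.hcn

/-- the mean of the resolvent -/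
theorem mean (hP : T_POIN) (hI : T_IBP) (H : Hom h J A η δ Q s2 lam ul mb G0 ν Θ cn)
    (C : Matrix n n ℂ) (c : ℝ) (hc0 : 0 ≤ c) (hC : ∀ w : n → ℂ, nsq (C *ᵥ w) ≤ c ^ 2 * nsq w) :
    ‖∫ V, (C * GG h J A η V).trace ∂(GP m) - (C * G0).trace‖ ≤
      Fintype.card n * (c * eps1 η δ Q s2 ν Θ cn mb) := by
  have hη := H.S.hη
  have hδ := H.S.hδ
  have hs2 := H.hs2
  have him := H.him
  have hQ := H.S.hQ0
  have h1 := dyson hI H.S (u := fun _ => 1) (fun _ => by simp) (fun y => cj_onev (A y))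
    ((s2 : ℂ) * mb) G0 H.hG0 (MD.const C)
  simp only [cj_onev, Matrix.zero_mul, Matrix.trace_zero, integral_zero, Finset.sum_const_zero,
    sub_zero, integral_const, probReal_univ, one_smul] at h1
  rw [h1, add_sub_cancel_left]
  have hb0 : 0 ≤ (s2 * mb.im)⁻¹ := by positivity
  rcases isEmpty_or_nonempty n with hn | ⟨⟨x0⟩⟩
  · simp [Matrix.trace]
  have hΘ0 := H.Θ0 x0
  have hcn0 := H.cn0
  have h2 := self_term hP H (P := fun _ => C * G0) (Z := fun V => GG h J A η V)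
    (K := fun V => GG h J A η V) (BM.const _) (bm_gg H.S) (bm_gg H.S) (fun _ _ => rfl)
    (c ^ 2 * (Q * mb.im * Θ / (η ^ 3 * δ))) (c * (s2 * mb.im)⁻¹ * 1 * (mb.im / (η * δ)))
    (by positivity) (fun x => by
      have e1 := (varR hP H.S x mb (H.hm x) ((C * G0) *ᵥ dl x)).1
      have e2 : ∀ V, star (dl x) ⬝ᵥ (GG h J A η V *ᵥ ((C * G0) *ᵥ dl x)) =
          (GG h J A η V * (C * G0)) x x := by
        intro V
        rw [Matrix.mulVec_mulVec, form_dl]
      simp only [e2] at e1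
      refine e1.trans ?_
      have e3 : nsq ((C * G0) *ᵥ dl x) ≤ c ^ 2 * Θ := by
        rw [← Matrix.mulVec_mulVec]
        exact (hC _).trans (mul_le_mul_of_nonneg_left (H.hΘ x) (sq_nonneg _))
      calc Q * mb.im * nsq ((C * G0) *ᵥ dl x) / (η ^ 3 * δ) ≤
          Q * mb.im * (c ^ 2 * Θ) / (η ^ 3 * δ) := by gcongr
        _ = _ := by ring) (fun t => by
      have e1 := tr_bd H (B := fun V => (C * G0) * cj (ul t) (GG h J A η V))
        (W := fun V => GG h J A η V) ((BM.const _).mul ((MD.gg H.S).cj (ul t)).bm) (bm_gg H.S)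
        (c * (s2 * mb.im)⁻¹) 1 (by positivity) (by norm_num) (fun V => by
          have e2 := hs_mul_left (C * G0) (cj (ul t) (GG h J A η V))
            ((c * (s2 * mb.im)⁻¹) ^ 2) (fun w => by
              rw [← Matrix.mulVec_mulVec]
              refine (hC _).trans ?_
              rw [mul_pow, mul_assoc]
              exact mul_le_mul_of_nonneg_left (H.hb w) (sq_nonneg _))
          rwa [hs_cj (H.hul t)] at e2) (fun V => by simp)
      exact e1)
  refine h2.trans ?_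
  rw [Real.sqrt_mul (sq_nonneg c), Real.sqrt_sq hc0]
  apply mul_le_mul_of_nonneg_left _ (Nat.cast_nonneg _)
  unfold eps1
  apply le_of_eq
  field_simp

theorem nsq_cj_dl {u : n → ℂ} (hu : ∀ x, ‖u x‖ = 1) (Z : Matrix n n ℂ) (x : n) :
    nsq (cj u Z *ᵥ dl x) = nsq (Z *ᵥ dl x) := by
  have e1 : (Matrix.diagonal u)ᴴ *ᵥ dl x = star (u x) • dl x := by
    rw [Matrix.diagonal_conjTranspose]
    funext y
    rw [Matrix.mulVec_diagonal, Pi.star_apply, Pi.smul_apply, smul_eq_mul]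
    by_cases hxy : y = x
    · rw [hxy]
    · unfold dl
      rw [Pi.single_eq_of_ne hxy, mul_zero, mul_zero]
  rw [cj_eq, ← Matrix.mulVec_mulVec, ← Matrix.mulVec_mulVec, (nsq_diag hu _).1, e1,
    Matrix.mulVec_smul, nsq_smul, norm_star, hu]
  ring

/-- the ladder equation, first form -/
theorem lad1 (hP : T_POIN) (hI : T_IBP) (H : Hom h J A η δ Q s2 lam ul mb G0 ν Θ cn)
    {u : n → ℂ} (hu : ∀ x, ‖u x‖ = 1) (hA : ∀ y, cj u (A y) = A y) (Sq : ℂ)
    (hS : ∀ x, ∫ V, (cj u (GG h J A η V) * (GG h J A η V)ᴴ) x x ∂(GP m) = Sq) :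
    ‖∫ V, ((GG h J A η V)ᴴ * cj u (GG h J A η V)).trace ∂(GP m) -
      (1 + (s2 : ℂ) * Sq) * ∫ V, ((GG h J A η V)ᴴ * cj u G0).trace ∂(GP m)‖ ≤
      Fintype.card n * (4 * (eps1 η δ Q s2 ν Θ cn mb / (η * δ))) := by
  have hη := H.S.hη
  have hδ := H.S.hδ
  have hs2 := H.hs2
  have him := H.him
  have hQ := H.S.hQ0
  have hb0 : 0 ≤ (s2 * mb.im)⁻¹ := by positivity
  rcases isEmpty_or_nonempty n with hn | ⟨⟨x0⟩⟩
  · simp [Matrix.trace]
  have hΘ0 := H.Θ0 x0
  have hcn0 := H.cn0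
  have hν0 := (varD hP H.S x0 mb ν (H.hm x0) H.hν H.hν2).2.2
  obtain ⟨ρ, hρ⟩ : ∃ ρ, ρ = Q * mb.im * Θ / (η ^ 3 * δ) := ⟨_, rfl⟩
  have hρ0 : 0 ≤ ρ := by
    rw [hρ]
    positivity
  have hG := bm_gg (m := m) H.S
  have hGH : BM fun V : m → ℝ => (GG h J A η V)ᴴ := (MD.gg H.S).star'.bm
  have hGc : BM fun V : m → ℝ => cj u (GG h J A η V) := ((MD.gg H.S).cj u).bm
  have hG0c : ∀ w : n → ℂ, nsq (cj u G0 *ᵥ w) ≤ ((s2 * mb.im)⁻¹) ^ 2 * nsq w :=
    nsq_cj hu G0 _ H.hb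
  have hG0cH : ∀ w : n → ℂ, nsq ((cj u G0)ᴴ *ᵥ w) ≤ ((s2 * mb.im)⁻¹) ^ 2 * nsq w := by
    rw [← cj_star]
    exact nsq_cj hu _ _ H.hbH
  have hGcb : ∀ (V : m → ℝ) (w : n → ℂ), nsq (cj u (GG h J A η V) *ᵥ w) ≤
      ((η * δ)⁻¹) ^ 2 * nsq w := fun V => nsq_cj hu _ _ fun w => by
    refine (nsq_gg H.S V w).1.trans (le_of_eq ?_)
    rw [inv_pow, div_eq_inv_mul]
  -- integration by parts
  have h1 := dyson hI H.S hu hA ((s2 : ℂ) * mb) G0 H.hG0 (MD.gg H.S).star'
  -- the first term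
  have h2 := self_term hP H (P := fun V => (GG h J A η V)ᴴ * cj u G0)
    (Z := fun V => cj u (GG h J A η V)) (K := fun V => cj u (GG h J A η V))
    (hGH.mul (BM.const _)) hGc hGc (fun V x => cj_diag hu _ x)
    (4 * ρ / (η * δ) ^ 2) ((s2 * mb.im)⁻¹ * (η * δ)⁻¹ * (mb.im / (η * δ)))
    (by positivity) (fun x => by
      have e1 := var2b hP H.S hu x mb (H.hm x) (cj u G0 *ᵥ dl x)
      have e2 : ∀ V, star (dl x) ⬝ᵥ ((cj u (GG h J A η V) * (GG h J A η V)ᴴ) *ᵥ
          (cj u G0 *ᵥ dl x)) = (cj u (GG h J A η V) * ((GG h J A η V)ᴴ * cj u G0)) x x := by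
        intro V
        rw [Matrix.mulVec_mulVec, form_dl, mul_assoc]
      simp only [e2] at e1
      refine e1.trans ?_
      rw [nsq_cj_dl hu, hρ]
      have := H.hΘ x
      gcongr) (fun t => by
      have e1 := tr_bd H (B := fun V => (GG h J A η V)ᴴ * cj u G0)
        (W := fun V => cj (ul t) (cj u (GG h J A η V)) * cj u (GG h J A η V))
        (hGH.mul (BM.const _)) ((((MD.gg H.S).cj u).cj (ul t)).bm.mul hGc)
        (s2 * mb.im)⁻¹ (η * δ)⁻¹ hb0 (by positivity) (fun V => by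
          have e2 := hs_mul_right (cj u G0) (GG h J A η V)ᴴ _ hG0cH
          rwa [hs_conj] at e2) (fun V => by
          have e2 := hs_mul_left (cj (ul t) (cj u (GG h J A η V))) (cj u (GG h J A η V)) _
            (nsq_cj (H.hul t) _ _ (hGcb V))
          rwa [hs_cj hu] at e2)
      have e3 : ∀ V, ((GG h J A η V)ᴴ * cj u G0 * (cj (ul t) (cj u (GG h J A η V)) *
          cj u (GG h J A η V))).trace = ((GG h J A η V)ᴴ * cj u G0 *
          cj (ul t) (cj u (GG h J A η V)) * cj u (GG h J A η V)).trace := fun V => by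
        rw [mul_assoc _ (cj (ul t) (cj u (GG h J A η V)))]
      simp only [e3] at e1
      exact e1)
  -- the second term
  have bY : BM fun V : m → ℝ => (GG h J A η V)ᴴ * cj u G0 := hGH.mul (BM.const _)
  have bK : BM fun V : m → ℝ => cj u (GG h J A η V) * (GG h J A η V)ᴴ := hGc.mul hGH
  have b5 : ∀ x, BC fun V : m → ℝ => ((cj u (GG h J A η V) * (GG h J A η V)ᴴ) x x - Sq) *
      ((GG h J A η V)ᴴ * cj u G0) x x := fun x => ((bK x x).sub (BC.const Sq)).mul (bY x x)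
  have b6 : ∀ t, BC fun V : m → ℝ => (cj (ul t) ((GG h J A η V)ᴴ * cj u G0) *
      (cj u (GG h J A η V) * (GG h J A η V)ᴴ)).trace := fun t =>
    (BM.mul (fun i j => by
      simp only [cj, Matrix.of_apply]
      exact ((BC.const _).mul (bY i j)).mul (BC.const _)) bK).trace
  have hpt : ∀ V : m → ℝ, -(∑ y, ((-(GG h J A η V * A y * GG h J A η V))ᴴ * cj u G0 * A y *
      cj u (GG h J A η V)).trace) =
      (s2 : ℂ) * (∑ x, ((cj u (GG h J A η V) * (GG h J A η V)ᴴ) x x - Sq) *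
        ((GG h J A η V)ᴴ * cj u G0) x x + Sq * ((GG h J A η V)ᴴ * cj u G0).trace -
        ∑ t, (lam t : ℂ) * (cj (ul t) ((GG h J A η V)ᴴ * cj u G0) *
          (cj u (GG h J A η V) * (GG h J A η V)ᴴ)).trace) := by
    intro V
    have e1 : -(∑ y, ((-(GG h J A η V * A y * GG h J A η V))ᴴ * cj u G0 * A y *
        cj u (GG h J A η V)).trace) = (Psi A ((GG h J A η V)ᴴ * cj u G0) *
        (cj u (GG h J A η V) * (GG h J A η V)ᴴ)).trace := by
      unfold Psi
      rw [Finset.sum_mul, Matrix.trace_sum, ← Finset.sum_neg_distrib]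
      refine Finset.sum_congr rfl fun y _ => ?_
      rw [Matrix.conjTranspose_neg, Matrix.conjTranspose_mul, Matrix.conjTranspose_mul,
        (H.S.hA y).eq]
      have e2 : -((-((GG h J A η V)ᴴ * (A y * (GG h J A η V)ᴴ)) * cj u G0 * A y *
          cj u (GG h J A η V)).trace) = ((GG h J A η V)ᴴ * (A y * (GG h J A η V)ᴴ * cj u G0 *
          A y * cj u (GG h J A η V))).trace := by
        rw [← Matrix.trace_neg]
        congr 1
        noncomm_ring
      rw [e2, Matrix.trace_mul_comm]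
      congr 1
      noncomm_ring
    rw [e1, H.hpsi, smul_mul_assoc, Matrix.trace_smul, smul_eq_mul, sub_mul, Matrix.trace_sub,
      Finset.sum_mul, Matrix.trace_sum]
    have e3 : (Matrix.diagonal (fun x => ((GG h J A η V)ᴴ * cj u G0) x x) *
        (cj u (GG h J A η V) * (GG h J A η V)ᴴ)).trace =
        ∑ x, ((cj u (GG h J A η V) * (GG h J A η V)ᴴ) x x - Sq) *
        ((GG h J A η V)ᴴ * cj u G0) x x + Sq * ((GG h J A η V)ᴴ * cj u G0).trace := by
      unfold Matrix.trace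
      rw [Finset.mul_sum, ← Finset.sum_add_distrib]
      refine Finset.sum_congr rfl fun x _ => ?_
      rw [Matrix.diag_apply, Matrix.diagonal_mul, Matrix.diag_apply]
      ring
    rw [e3]
    congr 2
    refine Finset.sum_congr rfl fun t _ => ?_
    rw [smul_mul_assoc, Matrix.trace_smul, smul_eq_mul]
  have hbD : ∀ y, BC fun V : m → ℝ => ((-(GG h J A η V * A y * GG h J A η V))ᴴ * cj u G0 * A y *
      cj u (GG h J A η V)).trace := fun y =>
    (((((MD.gg H.S).star'.bmD y).mul (BM.const _)).mul (BM.const _)).mul hGc).trace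
  have hint : -(∑ y, ∫ V, ((-(GG h J A η V * A y * GG h J A η V))ᴴ * cj u G0 * A y *
      cj u (GG h J A η V)).trace ∂(GP m)) =
      (s2 : ℂ) * (∑ x, ∫ V, ((cj u (GG h J A η V) * (GG h J A η V)ᴴ) x x - Sq) *
        ((GG h J A η V)ᴴ * cj u G0) x x ∂(GP m) +
        Sq * ∫ V, ((GG h J A η V)ᴴ * cj u G0).trace ∂(GP m) -
        ∑ t, (lam t : ℂ) * ∫ V, (cj (ul t) ((GG h J A η V)ᴴ * cj u G0) *
          (cj u (GG h J A η V) * (GG h J A η V)ᴴ)).trace ∂(GP m)) := by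
    rw [← integral_finsetSum _ fun y _ => (hbD y).integrable _, ← integral_neg]
    simp only [hpt]
    have i1 : Integrable (fun V : m → ℝ => ∑ x, ((cj u (GG h J A η V) * (GG h J A η V)ᴴ) x x - Sq) *
        ((GG h J A η V)ᴴ * cj u G0) x x) (GP m) :=
      integrable_finsetSum _ fun x _ => (b5 x).integrable _
    have i2 : Integrable (fun V : m → ℝ => Sq * ((GG h J A η V)ᴴ * cj u G0).trace) (GP m) :=
      (bY.trace.integrable _).const_mul _
    have i12 : Integrable (fun V : m → ℝ => ∑ x, ((cj u (GG h J A η V) * (GG h J A η V)ᴴ) x x - Sq) *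
        ((GG h J A η V)ᴴ * cj u G0) x x + Sq * ((GG h J A η V)ᴴ * cj u G0).trace) (GP m) :=
      i1.add i2
    have i3 : Integrable (fun V : m → ℝ => ∑ t, (lam t : ℂ) *
        (cj (ul t) ((GG h J A η V)ᴴ * cj u G0) *
          (cj u (GG h J A η V) * (GG h J A η V)ᴴ)).trace) (GP m) :=
      integrable_finsetSum _ fun t _ => ((b6 t).integrable _).const_mul _
    rw [integral_const_mul, integral_sub i12 i3, integral_add i1 i2,
      integral_finsetSum _ fun x _ => (b5 x).integrable _,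
      integral_finsetSum _ fun t _ => ((b6 t).integrable _).const_mul _, integral_const_mul]
    simp only [integral_const_mul]
  rw [sub_eq_add_neg, hint] at h1
  -- bounds
  have hx : ∀ x, ‖∫ V, ((cj u (GG h J A η V) * (GG h J A η V)ᴴ) x x - Sq) *
        ((GG h J A η V)ᴴ * cj u G0) x x ∂(GP m)‖ ≤
      (2 * Real.sqrt (2 * ν) * mb.im / (η * δ)) * Real.sqrt ρ := by
    intro x
    have v1 := var2a hP H.S hu x mb ν (H.hm x) H.hν H.hν2
    have v2 : var (fun V : m → ℝ => ((GG h J A η V)ᴴ * cj u G0) x x) ≤ ρ := by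
      have e1 := (varR hP H.S x mb (H.hm x) (cj u G0 *ᵥ dl x)).2
      rw [← var_star] at e1
      have e2 : ∀ V : m → ℝ, star (star (cj u G0 *ᵥ dl x) ⬝ᵥ (GG h J A η V *ᵥ dl x)) =
          ((GG h J A η V)ᴴ * cj u G0) x x := by
        intro V
        rw [star_form, Matrix.mulVec_mulVec, form_dl]
      simp only [e2] at e1
      refine e1.trans ?_
      rw [nsq_cj_dl hu, hρ]
      have := H.hΘ x
      gcongr
    refine (cov (bK x x) (bY x x) Sq (hS x)).trans ?_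
    have e1 : Real.sqrt (var fun V : m → ℝ => (cj u (GG h J A η V) * (GG h J A η V)ᴴ) x x) ≤
        2 * Real.sqrt (2 * ν) * mb.im / (η * δ) := by
      have e2 : 8 * ν * mb.im ^ 2 / (η * δ) ^ 2 =
          (2 * Real.sqrt (2 * ν) * mb.im / (η * δ)) ^ 2 := by
        have s1 := Real.sq_sqrt (show 0 ≤ 2 * ν by positivity)
        calc 8 * ν * mb.im ^ 2 / (η * δ) ^ 2 =
            4 * (Real.sqrt (2 * ν) ^ 2) * mb.im ^ 2 / (η * δ) ^ 2 := by
              rw [s1]
              ring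
          _ = _ := by ring
      rw [e2] at v1
      have e3 := Real.sqrt_le_sqrt v1
      rwa [Real.sqrt_sq (by positivity)] at e3
    exact mul_le_mul e1 (Real.sqrt_le_sqrt v2) (Real.sqrt_nonneg _) (by positivity)
  have ht : ∀ t, ‖∫ V, (cj (ul t) ((GG h J A η V)ᴴ * cj u G0) *
          (cj u (GG h J A η V) * (GG h J A η V)ᴴ)).trace ∂(GP m)‖ ≤
      Fintype.card n * ((s2 * mb.im)⁻¹ * (η * δ)⁻¹ * (mb.im / (η * δ))) := by
    intro t
    refine tr_bd H (B := fun V => cj (ul t) ((GG h J A η V)ᴴ * cj u G0))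
      (W := fun V => cj u (GG h J A η V) * (GG h J A η V)ᴴ) (fun i j => by
        simp only [cj, Matrix.of_apply]
        exact ((BC.const _).mul (bY i j)).mul (BC.const _)) bK
      (s2 * mb.im)⁻¹ (η * δ)⁻¹ hb0 (by positivity) (fun V => ?_) (fun V => ?_)
    · rw [hs_cj (H.hul t)]
      have e2 := hs_mul_right (cj u G0) (GG h J A η V)ᴴ _ hG0cH
      rwa [hs_conj] at e2
    · have e2 := hs_mul_left (cj u (GG h J A η V)) (GG h J A η V)ᴴ _ (hGcb V)
      rwa [hs_conj] at e2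
  have hsumx : ‖∑ x, ∫ V, ((cj u (GG h J A η V) * (GG h J A η V)ᴴ) x x - Sq) *
        ((GG h J A η V)ᴴ * cj u G0) x x ∂(GP m)‖ ≤
      Fintype.card n * ((2 * Real.sqrt (2 * ν) * mb.im / (η * δ)) * Real.sqrt ρ) := by
    refine (norm_sum_le _ _).trans ((Finset.sum_le_sum fun x _ => hx x).trans (le_of_eq ?_))
    rw [Finset.sum_const, Finset.card_univ, nsmul_eq_mul]
  have hsumt : ‖∑ t, (lam t : ℂ) * ∫ V, (cj (ul t) ((GG h J A η V)ᴴ * cj u G0) *
          (cj u (GG h J A η V) * (GG h J A η V)ᴴ)).trace ∂(GP m)‖ ≤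
      cn * (Fintype.card n * ((s2 * mb.im)⁻¹ * (η * δ)⁻¹ * (mb.im / (η * δ)))) := by
    calc _ ≤ ∑ t, ‖(lam t : ℂ) * ∫ V, (cj (ul t) ((GG h J A η V)ᴴ * cj u G0) *
          (cj u (GG h J A η V) * (GG h J A η V)ᴴ)).trace ∂(GP m)‖ := norm_sum_le _ _
      _ ≤ ∑ t, lam t * (Fintype.card n * ((s2 * mb.im)⁻¹ * (η * δ)⁻¹ * (mb.im / (η * δ)))) := by
          refine Finset.sum_le_sum fun t _ => ?_
          rw [norm_mul, Complex.norm_real, Real.norm_of_nonneg (H.hlam t)]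
          exact mul_le_mul_of_nonneg_left (ht t) (H.hlam t)
      _ ≤ _ := by
          rw [← Finset.sum_mul]
          exact mul_le_mul_of_nonneg_right H.hcn (by positivity)
  rw [h1]
  obtain ⟨X1, hX1⟩ : ∃ X1, X1 = ∫ V, ((GG h J A η V)ᴴ * cj u G0).trace ∂(GP m) := ⟨_, rfl⟩
  obtain ⟨X2, hX2⟩ : ∃ X2, X2 = ∫ V, ((GG h J A η V)ᴴ * cj u G0 *
    (Psi A (cj u (GG h J A η V)) - ((s2 : ℂ) * mb) • (1 : Matrix n n ℂ)) *
        cj u (GG h J A η V)).trace ∂(GP m) := ⟨_, rfl⟩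
  obtain ⟨X3, hX3⟩ : ∃ X3, X3 = ∑ x, ∫ V, ((cj u (GG h J A η V) * (GG h J A η V)ᴴ) x x - Sq) *
        ((GG h J A η V)ᴴ * cj u G0) x x ∂(GP m) := ⟨_, rfl⟩
  obtain ⟨X4, hX4⟩ : ∃ X4, X4 = ∑ t, (lam t : ℂ) * ∫ V, (cj (ul t) ((GG h J A η V)ᴴ * cj u G0) *
          (cj u (GG h J A η V) * (GG h J A η V)ᴴ)).trace ∂(GP m) := ⟨_, rfl⟩
  rw [← hX2] at h2
  rw [← hX3] at hsumx
  rw [← hX4] at hsumt
  rw [← hX1, ← hX2, ← hX3, ← hX4]
  have e1 : X1 + X2 + (s2 : ℂ) * (X3 + Sq * X1 - X4) - (1 + (s2 : ℂ) * Sq) * X1 =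
      X2 + (s2 : ℂ) * (X3 - X4) := by ring
  rw [e1]
  have e2 : Real.sqrt (4 * ρ / (η * δ) ^ 2) = 2 * Real.sqrt ρ / (η * δ) := by
    have e3 : 4 * ρ / (η * δ) ^ 2 = (2 * Real.sqrt ρ / (η * δ)) ^ 2 := by
      have s1 := Real.sq_sqrt hρ0
      calc 4 * ρ / (η * δ) ^ 2 = 4 * (Real.sqrt ρ ^ 2) / (η * δ) ^ 2 := by rw [s1]
        _ = _ := by ring
    rw [e3, Real.sqrt_sq (by positivity)]
  rw [e2] at h2
  calc ‖X2 + (s2 : ℂ) * (X3 - X4)‖ ≤ ‖X2‖ + s2 * (‖X3‖ + ‖X4‖) := by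
        refine (norm_add_le _ _).trans ?_
        rw [norm_mul, Complex.norm_real, Real.norm_of_nonneg hs2.le]
        have := norm_sub_le X3 X4
        gcongr
    _ ≤ Fintype.card n * (s2 * (Real.sqrt (2 * ν) * mb.im * (2 * Real.sqrt ρ / (η * δ))) +
          s2 * cn * ((s2 * mb.im)⁻¹ * (η * δ)⁻¹ * (mb.im / (η * δ)))) +
        s2 * (Fintype.card n * ((2 * Real.sqrt (2 * ν) * mb.im / (η * δ)) * Real.sqrt ρ) +
          cn * (Fintype.card n * ((s2 * mb.im)⁻¹ * (η * δ)⁻¹ * (mb.im / (η * δ))))) := by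
        gcongr
    _ = Fintype.card n * ((4 * (s2 * (Real.sqrt (2 * ν) * mb.im * Real.sqrt ρ)) +
          2 * (cn / (η * δ))) / (η * δ)) := by
        field_simp
        ring
    _ ≤ _ := by
        unfold eps1
        rw [← hρ]
        apply mul_le_mul_of_nonneg_left _ (Nat.cast_nonneg _)
        have h0 : 0 ≤ cn / (η * δ) := by positivity
        have e4 : 4 * ((s2 * (Real.sqrt (2 * ν) * mb.im * Real.sqrt ρ) + cn / (η * δ)) /
            (η * δ)) = (4 * (s2 * (Real.sqrt (2 * ν) * mb.im * Real.sqrt ρ)) +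
            4 * (cn / (η * δ))) / (η * δ) := by ring
        rw [e4]
        apply div_le_div_of_nonneg_right _ (by positivity)
        linarith

end sys

end Pool.Agent.T2h98.QD
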