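import Pool.Agent.T2h98.QD.Ladder2

/-! The ladder equation. -/

set_option autoImplicit false
set_option linter.unusedSectionVars false

open scoped BigOperators Matrix
open MeasureTheory ProbabilityTheory

namespace Pool.Agent.T2h98.QD

open Pool.Agent.W788.BK
open Pool.Agent.W240.BK (BC BM cs_int)

variable {n m : Type} [Fintype n] [DecidableEq n] [Fintype m] [DecidableEq m]

section sys

variable {h J : Matrix n n ℂ} {A : m → Matrix n n ℂ} {η δ Q s2 ν Θ cn : ℝ} {ι : Type}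
  [Fintype ι] {lam : ι → ℝ} {ul : ι → n → ℂ} {mb : ℂ} {G0 : Matrix n n ℂ}

theorem sq_bd (H : Hom h J A η δ Q s2 lam ul mb G0 ν Θ cn)
    {u : n → ℂ} (hu : ∀ x, ‖u x‖ = 1) (Sq : ℂ) (x : n)
    (hS : ∫ V, (cj u (GG h J A η V) * (GG h J A η V)ᴴ) x x ∂(GP m) = Sq) :
    ‖Sq‖ ≤ mb.im / (η * δ) := by
  have hη := H.S.hη
  have hδ := H.S.hδ
  have hK : BM fun V : m → ℝ => cj u (GG h J A η V) * (GG h J A η V)ᴴ :=
    ((MD.gg H.S).cj u).bm.mul (MD.gg H.S).star'.bm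
  have hpt : ∀ V : m → ℝ, ‖(cj u (GG h J A η V) * (GG h J A η V)ᴴ) x x‖ ≤
      (GG h J A η V x x).im / (η * δ) := by
    intro V
    have e1 : (cj u (GG h J A η V) * (GG h J A η V)ᴴ) x x =
        star ((cj u (GG h J A η V))ᴴ *ᵥ dl x) ⬝ᵥ ((GG h J A η V)ᴴ *ᵥ dl x) := by
      rw [← adjoint, Matrix.mulVec_mulVec, form_dl]
    rw [e1]
    refine (cs_norm _ _).trans ?_
    rw [← cj_star, nsq_cj_dl hu, Real.mul_self_sqrt (nsq_nonneg _)]
    have := (nsq_gg_im H.S V (dl x)).2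
    rwa [form_dl] at this
  rw [← hS]
  calc ‖∫ V, (cj u (GG h J A η V) * (GG h J A η V)ᴴ) x x ∂(GP m)‖ ≤
      ∫ V, ‖(cj u (GG h J A η V) * (GG h J A η V)ᴴ) x x‖ ∂(GP m) :=
        norm_integral_le_integral_norm _
    _ ≤ ∫ V, (GG h J A η V x x).im / (η * δ) ∂(GP m) :=
        integral_mono (RC.norm (hK x x)).integrable ((rc_im H.S x).integrable.div_const _) hpt
    _ = _ := by rw [integral_div, int_im H]

/-- the ladder equation -/
theorem lad2 (hP : T_POIN) (hI : T_IBP) (H : Hom h J A η δ Q s2 lam ul mb G0 ν Θ cn)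
    {u : n → ℂ} (hu : ∀ x, ‖u x‖ = 1) (hA : ∀ y, cj u (A y) = A y) (Sq : ℂ) (x0 : n)
    (hS : ∀ x, ∫ V, (cj u (GG h J A η V) * (GG h J A η V)ᴴ) x x ∂(GP m) = Sq)
    (hηδ : η * δ ≤ s2 * mb.im) (Tq : ℂ)
    (hTq : (G0ᴴ * cj u G0).trace = Fintype.card n * Tq) :
    ‖Sq * (1 - (s2 : ℂ) * Tq) - Tq‖ ≤ 6 * (eps1 η δ Q s2 ν Θ cn mb / (η * δ)) := by
  have hη := H.S.hη
  have hδ := H.S.hδ
  have hs2 := H.hs2
  have him := H.him
  have hQ := H.S.hQ0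
  have hΘ0 := H.Θ0 x0
  have hcn0 := H.cn0
  have hν0 := (varD hP H.S x0 mb ν (H.hm x0) H.hν H.hν2).2.2
  have heps : 0 ≤ eps1 η δ Q s2 ν Θ cn mb := by
    unfold eps1
    positivity
  have hn : (0 : ℝ) < Fintype.card n := by exact_mod_cast Fintype.card_pos_iff.2 ⟨x0⟩
  have hb0 : 0 ≤ (s2 * mb.im)⁻¹ := by positivity
  have l1 := lad1 hP hI H hu hA Sq hS
  have l2 := mean hP hI H (cj u G0)ᴴ (s2 * mb.im)⁻¹ hb0 (by
    rw [← cj_star]
    exact nsq_cj hu _ _ H.hbH)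
  obtain ⟨X, hX⟩ : ∃ X, X = ∫ V, ((GG h J A η V)ᴴ * cj u G0).trace ∂(GP m) := ⟨_, rfl⟩
  rw [← hX] at l1
  have hXc : ∫ V, ((cj u G0)ᴴ * GG h J A η V).trace ∂(GP m) = star X := by
    rw [hX, RCLike.star_def, ← integral_conj]
    refine integral_congr_ae (Filter.Eventually.of_forall fun V => ?_)
    simp only
    rw [← RCLike.star_def, ← Matrix.trace_conjTranspose, Matrix.conjTranspose_mul,
      Matrix.conjTranspose_conjTranspose]
  have hTc : ((cj u G0)ᴴ * G0).trace = star ((Fintype.card n : ℂ) * Tq) := by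
    rw [← hTq, ← Matrix.trace_conjTranspose, Matrix.conjTranspose_mul,
      Matrix.conjTranspose_conjTranspose]
  rw [hXc, hTc, ← star_sub, norm_star] at l2
  have hSS : ∫ V, ((GG h J A η V)ᴴ * cj u (GG h J A η V)).trace ∂(GP m) =
      Fintype.card n * Sq := by
    have e1 : ∀ V : m → ℝ, ((GG h J A η V)ᴴ * cj u (GG h J A η V)).trace =
        ∑ x, (cj u (GG h J A η V) * (GG h J A η V)ᴴ) x x := by
      intro V
      rw [Matrix.trace_mul_comm]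
      rfl
    simp only [e1]
    have hK : BM fun V : m → ℝ => cj u (GG h J A η V) * (GG h J A η V)ᴴ :=
      ((MD.gg H.S).cj u).bm.mul (MD.gg H.S).star'.bm
    rw [integral_finsetSum _ fun x _ => (hK x x).integrable _]
    simp only [hS, Finset.sum_const, Finset.card_univ, nsmul_eq_mul]
  rw [hSS] at l1
  have hSb := sq_bd H hu Sq x0 (hS x0)
  -- combine
  have key : ‖(Fintype.card n : ℂ) * (Sq * (1 - (s2 : ℂ) * Tq) - Tq)‖ ≤
      Fintype.card n * (6 * (eps1 η δ Q s2 ν Θ cn mb / (η * δ))) := by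
    have e1 : (Fintype.card n : ℂ) * (Sq * (1 - (s2 : ℂ) * Tq) - Tq) =
        ((Fintype.card n : ℂ) * Sq - (1 + (s2 : ℂ) * Sq) * X) +
        (1 + (s2 : ℂ) * Sq) * (X - (Fintype.card n : ℂ) * Tq) := by ring
    have e2 : ‖1 + (s2 : ℂ) * Sq‖ ≤ 1 + s2 * (mb.im / (η * δ)) := by
      refine (norm_add_le _ _).trans ?_
      rw [norm_one, norm_mul, Complex.norm_real, Real.norm_of_nonneg hs2.le]
      gcongr
    have e3 : (1 + s2 * (mb.im / (η * δ))) * (s2 * mb.im)⁻¹ ≤ 2 / (η * δ) := by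
      have e4 : (1 + s2 * (mb.im / (η * δ))) * (s2 * mb.im)⁻¹ =
          (s2 * mb.im)⁻¹ + 1 / (η * δ) := by
        field_simp
      have e5 : (s2 * mb.im)⁻¹ ≤ (η * δ)⁻¹ := inv_anti₀ (by positivity) hηδ
      rw [e4]
      calc (s2 * mb.im)⁻¹ + 1 / (η * δ) ≤ (η * δ)⁻¹ + 1 / (η * δ) := by gcongr
        _ = _ := by ring
    rw [e1]
    calc _ ≤ ‖(Fintype.card n : ℂ) * Sq - (1 + (s2 : ℂ) * Sq) * X‖ +
          ‖1 + (s2 : ℂ) * Sq‖ * ‖X - (Fintype.card n : ℂ) * Tq‖ := by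
          refine (norm_add_le _ _).trans ?_
          rw [norm_mul (1 + (s2 : ℂ) * Sq)]
      _ ≤ Fintype.card n * (4 * (eps1 η δ Q s2 ν Θ cn mb / (η * δ))) +
          (1 + s2 * (mb.im / (η * δ))) *
            (Fintype.card n * ((s2 * mb.im)⁻¹ * eps1 η δ Q s2 ν Θ cn mb)) := by
          gcongr
      _ = Fintype.card n * (4 * (eps1 η δ Q s2 ν Θ cn mb / (η * δ)) +
          ((1 + s2 * (mb.im / (η * δ))) * (s2 * mb.im)⁻¹) * eps1 η δ Q s2 ν Θ cn mb) := by ring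
      _ ≤ Fintype.card n * (4 * (eps1 η δ Q s2 ν Θ cn mb / (η * δ)) +
          2 / (η * δ) * eps1 η δ Q s2 ν Θ cn mb) := by gcongr
      _ = _ := by ring
  rw [norm_mul, Complex.norm_natCast] at key
  exact le_of_mul_le_mul_left key hn

/-- the bound for `S_q` -/
theorem lad3 (hP : T_POIN) (hI : T_IBP) (H : Hom h J A η δ Q s2 lam ul mb G0 ν Θ cn)
    {u : n → ℂ} (hu : ∀ x, ‖u x‖ = 1) (hA : ∀ y, cj u (A y) = A y) (Sq : ℂ) (x0 : n)
    (hS : ∀ x, ∫ V, (cj u (GG h J A η V) * (GG h J A η V)ᴴ) x x ∂(GP m) = Sq)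
    (hηδ : η * δ ≤ s2 * mb.im) (Tq : ℂ)
    (hTq : (G0ᴴ * cj u G0).trace = Fintype.card n * Tq) (γ : ℝ) (hγ : 0 < γ)
    (hgap : γ ≤ 1 - s2 * Tq.re) :
    η * δ * ‖Sq‖ ≤ (η * δ * Θ + 6 * eps1 η δ Q s2 ν Θ cn mb) / γ := by
  have hη := H.S.hη
  have hδ := H.S.hδ
  have hs2 := H.hs2
  have hΘ0 := H.Θ0 x0
  have hn : (0 : ℝ) < Fintype.card n := by exact_mod_cast Fintype.card_pos_iff.2 ⟨x0⟩
  have h1 := lad2 hP hI H hu hA Sq x0 hS hηδ Tq hTq
  have hT : ‖Tq‖ ≤ Θ := by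
    have e1 : ‖(G0ᴴ * cj u G0).trace‖ ≤ Fintype.card n * Θ := by
      have e2 : hs G0 ≤ Fintype.card n * Θ := by
        rw [hs_col]
        have e5 : ∀ x ∈ Finset.univ, nsq (fun i => G0 i x) ≤ Θ := fun x _ => by
          rw [col_eq]
          exact H.hΘ x
        refine (Finset.sum_le_sum e5).trans (le_of_eq ?_)
        rw [Finset.sum_const, Finset.card_univ, nsmul_eq_mul]
      have e3 : ‖(G0ᴴ * cj u G0).trace‖ ^ 2 ≤ (hs G0) ^ 2 := by
        refine (cs_trace _ _).trans (le_of_eq ?_)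
        rw [hs_conj, hs_cj hu, sq]
      exact (abs_le_of_sq_le_sq' e3 (hs_nonneg _)).2.trans e2
    rw [hTq, norm_mul, Complex.norm_natCast] at e1
    exact le_of_mul_le_mul_left e1 hn
  have h2 : γ ≤ ‖1 - (s2 : ℂ) * Tq‖ := by
    refine hgap.trans (le_trans (le_of_eq ?_) (Complex.re_le_norm _))
    simp
  have h3 : ‖Sq‖ * γ ≤ Θ + 6 * (eps1 η δ Q s2 ν Θ cn mb / (η * δ)) := by
    calc ‖Sq‖ * γ ≤ ‖Sq‖ * ‖1 - (s2 : ℂ) * Tq‖ := by gcongr
      _ = ‖Tq + (Sq * (1 - (s2 : ℂ) * Tq) - Tq)‖ := by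
          rw [← norm_mul]
          congr 1
          ring
      _ ≤ ‖Tq‖ + ‖Sq * (1 - (s2 : ℂ) * Tq) - Tq‖ := norm_add_le _ _
      _ ≤ _ := add_le_add hT h1
  rw [le_div_iff₀ hγ]
  calc η * δ * ‖Sq‖ * γ = η * δ * (‖Sq‖ * γ) := by ring
    _ ≤ η * δ * (Θ + 6 * (eps1 η δ Q s2 ν Θ cn mb / (η * δ))) := by gcongr
    _ = _ := by
      field_simp

end sys

end Pool.Agent.T2h98.QD
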