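import Pool.Agent.T2h98.QD.Main
import Pool.Agent.T2h98.QD.Stm4

/-! From the torus to the lattice. -/

set_option autoImplicit false
set_option linter.unusedSectionVars false
set_option linter.style.haveILetI false

open scoped BigOperators Matrix Topology
open MeasureTheory ProbabilityTheory Filter

namespace Pool.Agent.T2h98.QD

open Pool.Agent.W788.MFP.Four (T e NN adj K)
open Pool.Agent.W788.BK (nsq hs PP JJ hi Low cr)

/-- iid standard Gaussian variables on the lattice -/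
noncomputable abbrev GZ (d : ℕ) : Measure (Zd d → ℝ) :=
  Measure.infinitePi fun _ : Zd d => gaussianReal 0 1

theorem law_neg (d : ℕ) : (GZ d).map (fun ξ x => -ξ x) = GZ d := by
  have h1 := Measure.infinitePi_map_pi (μ := fun _ : Zd d => gaussianReal 0 1)
    (f := fun _ (s : ℝ) => -s) (fun _ => measurable_neg)
  simp only [gaussianReal_map_neg, neg_zero] at h1
  exact h1

/-- the mean of `Wt` -/
noncomputable def AL (d L : ℕ) [NeZero L] (σ : ℝ) (i : Fin d) (M : ℕ) (τ : ℝ) : ℝ :=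
  (NN d L)⁻¹ * ∫ V, Wt (HT (d := d) (L := L) σ V) i M τ ∂(GP (T d L))

variable {d : ℕ}

theorem int_Wl (hl : T_LAW) (ha : T_AVG) (L M : ℕ) [NeZero L] (i : Fin d) (h1 : 1 ≤ M)
    (h2 : M ≤ L) (σ τ : ℝ) (hτ : 0 < τ) :
    ∫ ξ, Wl (HT (d := d) (L := L) σ fun k => ξ (rep k)) i M τ ∂(GZ d) = AL d L σ i M τ := by
  obtain ⟨a1, a2, a3, a4⟩ := ha d L M i h1 h2 σ τ hτ
  have hm : Measurable fun (ξ : Zd d → ℝ) (k : T d L) => ξ (rep k) := by fun_prop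
  unfold AL
  rw [← a4, ← hl d L, integral_map hm.aemeasurable a1.aestronglyMeasurable]

theorem meas_Wl (ha : T_AVG) (L M : ℕ) [NeZero L] (i : Fin d) (h1 : 1 ≤ M)
    (h2 : M ≤ L) (σ τ : ℝ) (hτ : 0 < τ) :
    Measurable fun ξ : Zd d → ℝ => Wl (HT (d := d) (L := L) σ fun k => ξ (rep k)) i M τ := by
  obtain ⟨a1, a2, a3, a4⟩ := ha d L M i h1 h2 σ τ hτ
  have hm : Measurable fun (ξ : Zd d → ℝ) (k : T d L) => ξ (rep k) := by fun_prop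
  exact a1.comp hm

/-- the sequence of tori -/
theorem seq_tendsto (M : ℕ) (C τ : ℝ) :
    Tendsto (fun n : ℕ => C * τ ^ 2 / ((n + 1 + 2 * M : ℕ) : ℝ)) atTop (𝓝 0) := by
  have h1 : Tendsto (fun n : ℕ => ((n + 1 + 2 * M : ℕ) : ℝ)) atTop atTop := by
    apply tendsto_natCast_atTop_atTop.comp
    apply tendsto_atTop_mono (f := fun n : ℕ => n) (fun n => by omega) tendsto_id
  exact h1.const_div_atTop _

variable {Ψ : (Zd d → ℝ) → ℝ → Zd d → ℂ} {σ : ℝ}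

theorem wz_tendsto (hc : T_CMP) (hΨ : ∀ ξ, Evol (fun x => σ * ξ x) (Ψ ξ)) (i : Fin d) (M : ℕ)
    (h1 : 1 ≤ M) (τ : ℝ) (hτ : 1 ≤ τ) (ξ : Zd d → ℝ) :
    Tendsto (fun n : ℕ => haveI : NeZero (n + 1 + 2 * M) := ⟨by omega⟩
      Wl (HT (d := d) (L := n + 1 + 2 * M) σ fun k => ξ (rep k)) i M τ) atTop
      (𝓝 (Wz (Ψ ξ) i M τ)) := by
  obtain ⟨C, hC, hcmp⟩ := hc d
  rw [tendsto_iff_norm_sub_tendsto_zero]
  apply squeeze_zero (fun n => norm_nonneg _) _ (seq_tendsto M C τ)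
  intro n
  haveI : NeZero (n + 1 + 2 * M) := ⟨by omega⟩
  rw [Real.norm_eq_abs, abs_sub_comm]
  exact hcmp (n + 1 + 2 * M) M i h1 (by omega) σ ξ (Ψ ξ) (hΨ ξ) τ hτ

theorem wz_meas (ha : T_AVG) (hc : T_CMP)
    (hΨ : ∀ ξ, Evol (fun x => σ * ξ x) (Ψ ξ)) (i : Fin d) (M : ℕ)
    (h1 : 1 ≤ M) (τ : ℝ) (hτ : 1 ≤ τ) : Measurable fun ξ => Wz (Ψ ξ) i M τ := by
  apply measurable_of_tendsto_metrizable (f := fun (n : ℕ) (ξ : Zd d → ℝ) =>
    haveI : NeZero (n + 1 + 2 * M) := ⟨by omega⟩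
    Wl (HT (d := d) (L := n + 1 + 2 * M) σ fun k => ξ (rep k)) i M τ)
  · intro n
    haveI : NeZero (n + 1 + 2 * M) := ⟨by omega⟩
    exact meas_Wl ha (n + 1 + 2 * M) M i h1 (by omega) σ τ (by linarith)
  · rw [tendsto_pi_nhds]
    intro ξ
    exact wz_tendsto hc hΨ i M h1 τ hτ ξ

theorem wz_mem (ha : T_AVG) (hc : T_CMP)
    (hΨ : ∀ ξ, Evol (fun x => σ * ξ x) (Ψ ξ)) (i : Fin d) (M : ℕ)
    (h1 : 1 ≤ M) (τ : ℝ) (hτ : 1 ≤ τ) (ξ : Zd d → ℝ) :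
    0 ≤ Wz (Ψ ξ) i M τ ∧ Wz (Ψ ξ) i M τ ≤ 1 := by
  have h2 := wz_tendsto hc hΨ i M h1 τ hτ ξ
  constructor
  · apply ge_of_tendsto' h2
    intro n
    haveI : NeZero (n + 1 + 2 * M) := ⟨by omega⟩
    exact ((ha d (n + 1 + 2 * M) M i h1 (by omega) σ τ (by linarith)).2.2.1 _).1
  · apply le_of_tendsto' h2
    intro n
    haveI : NeZero (n + 1 + 2 * M) := ⟨by omega⟩
    exact ((ha d (n + 1 + 2 * M) M i h1 (by omega) σ τ (by linarith)).2.2.1 _).2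

theorem wz_int (ha : T_AVG) (hc : T_CMP)
    (hΨ : ∀ ξ, Evol (fun x => σ * ξ x) (Ψ ξ)) (i : Fin d) (M : ℕ)
    (h1 : 1 ≤ M) (τ : ℝ) (hτ : 1 ≤ τ) : Integrable (fun ξ => Wz (Ψ ξ) i M τ) (GZ d) := by
  apply Integrable.of_bound (wz_meas ha hc hΨ i M h1 τ hτ).aestronglyMeasurable 1
  refine Eventually.of_forall fun ξ => ?_
  have := wz_mem ha hc hΨ i M h1 τ hτ ξ
  rw [Real.norm_eq_abs, abs_of_nonneg this.1]
  exact this.2

/-- the means agree -/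
theorem mean_cmp (hl : T_LAW) (ha : T_AVG) (hc : T_CMP) : ∃ C : ℝ, 0 < C ∧
    ∀ (L M : ℕ) [NeZero L] (i : Fin d), 1 ≤ M → 2 * M ≤ L → ∀ (σ : ℝ)
    (Ψ : (Zd d → ℝ) → ℝ → Zd d → ℂ), (∀ ξ, Evol (fun x => σ * ξ x) (Ψ ξ)) →
    ∀ τ : ℝ, 1 ≤ τ → |∫ ξ, Wz (Ψ ξ) i M τ ∂(GZ d) - AL d L σ i M τ| ≤ C * τ ^ 2 / L := by
  obtain ⟨C, hC, hcmp⟩ := hc d
  refine ⟨C, hC, ?_⟩
  intro L M _ i h1 h2 σ Ψ hΨ τ hτ
  have hτ0 : 0 < τ := by linarith
  have hL0 : (0 : ℝ) < L := by exact_mod_cast Nat.pos_of_ne_zero (NeZero.ne L)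
  have i1 := wz_int ha hc hΨ i M h1 τ hτ
  have i2 : Integrable (fun ξ : Zd d → ℝ =>
      Wl (HT (d := d) (L := L) σ fun k => ξ (rep k)) i M τ) (GZ d) := by
    apply Integrable.of_bound
      (meas_Wl ha L M i h1 (by omega) σ τ hτ0).aestronglyMeasurable 1
    refine Eventually.of_forall fun ξ => ?_
    have := (ha d L M i h1 (by omega) σ τ hτ0).2.2.1 (fun k => ξ (rep k))
    rw [Real.norm_eq_abs, abs_of_nonneg this.1]
    exact this.2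
  rw [← int_Wl hl ha L M i h1 (by omega) σ τ hτ0, ← integral_sub i1 i2, ← Real.norm_eq_abs]
  calc _ ≤ C * τ ^ 2 / L * (GZ d).real Set.univ := by
        apply norm_integral_le_of_norm_le_const
        refine Eventually.of_forall fun ξ => ?_
        rw [Real.norm_eq_abs]
        exact hcmp L M i h1 h2 σ ξ (Ψ ξ) (hΨ ξ) τ hτ
    _ = _ := by simp

theorem AL_anti (hu : T_UNI) (ha : T_AVG) (L M : ℕ) [NeZero L] (i : Fin d) (h1 : 1 ≤ M)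
    (h2 : M ≤ L) (σ s τ : ℝ) (hs : 0 < s) (hsτ : s ≤ τ) :
    AL d L σ i M τ ≤ AL d L σ i M s := by
  have hN := Pool.Agent.W788.MFP.Four.NN_pos (d := d) (L := L)
  unfold AL
  apply mul_le_mul_of_nonneg_left _ (inv_nonneg.2 hN.le)
  have hH : ∀ V : T d L → ℝ, (HT σ V).IsHermitian := HT_herm σ
  have hint : ∀ t : ℝ, 0 < t → Integrable (fun V : T d L → ℝ => Wt (HT (d := d) (L := L) σ V) i M t)
      (GP (T d L)) := by
    intro t ht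
    apply Integrable.of_bound (ha d L M i h1 h2 σ t ht).2.1.aestronglyMeasurable (NN d L)
    refine Eventually.of_forall fun V => ?_
    have := (hu d L M i h1 h2 (HT σ V) (hH V)).2.1 t ht
    rw [Real.norm_eq_abs, abs_of_nonneg this.1]
    exact this.2
  apply integral_mono (hint τ (by linarith)) (hint s hs)
  intro V
  exact (hu d L M i h1 h2 (HT σ V) (hH V)).1 s τ hs hsτ

/-- monotonicity on the lattice -/
theorem EW_anti (hu : T_UNI) (hl : T_LAW) (ha : T_AVG) (hc : T_CMP)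
    (hΨ : ∀ ξ, Evol (fun x => σ * ξ x) (Ψ ξ)) (i : Fin d) (M : ℕ)
    (h1 : 1 ≤ M) (s τ : ℝ) (hs : 1 ≤ s) (hsτ : s ≤ τ) :
    ∫ ξ, Wz (Ψ ξ) i M τ ∂(GZ d) ≤ ∫ ξ, Wz (Ψ ξ) i M s ∂(GZ d) := by
  obtain ⟨C, hC, hm⟩ := mean_cmp (d := d) hl ha hc
  have h3 : ∀ n : ℕ, ∫ ξ, Wz (Ψ ξ) i M τ ∂(GZ d) - ∫ ξ, Wz (Ψ ξ) i M s ∂(GZ d) ≤
      C * τ ^ 2 / ((n + 1 + 2 * M : ℕ) : ℝ) + C * s ^ 2 / ((n + 1 + 2 * M : ℕ) : ℝ) := by
    intro n
    haveI : NeZero (n + 1 + 2 * M) := ⟨by omega⟩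
    have e1 := hm (n + 1 + 2 * M) M i h1 (by omega) σ Ψ hΨ τ (by linarith)
    have e2 := hm (n + 1 + 2 * M) M i h1 (by omega) σ Ψ hΨ s hs
    have e3 := AL_anti hu ha (n + 1 + 2 * M) M i h1 (by omega) σ s τ (by linarith) hsτ
    have e4 := (abs_le.1 e1).2
    have e5 := (abs_le.1 e2).1
    linarith
  have h4 := (seq_tendsto M C τ).add (seq_tendsto M C s)
  rw [add_zero] at h4
  have h5 := ge_of_tendsto' h4 h3
  linarith

end Pool.Agent.T2h98.QD
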