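import Pool.Agent.T2h98.QD.Lat

/-! The mean of the time averages on the lattice and on all large tori. -/

set_option autoImplicit false
set_option linter.unusedSectionVars false
set_option linter.style.haveILetI false

open scoped BigOperators Matrix Topology
open MeasureTheory ProbabilityTheory Filter

namespace Pool.Agent.T2h98.QD

open Pool.Agent.W788.MFP.Four (T e NN adj K)
open Pool.Agent.W788.BK (nsq hs PP JJ hi Low cr)

theorem lat_main (F : Facts) (hl : T_LAW) (hc : T_CMP) (he : T_EXI) (d : ℕ) (hd : 3 ≤ d)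
    (x s : ℝ) (hx : 0 ≤ x) (hs : 0 < s) (hs1 : s ≤ 1 / 100)
    (hxs : (x + 13 * s) * (7 / 2 + 1 / (d : ℝ)) ≤ 1 - 1 / (d : ℝ)) :
    ∃ y0 : ℝ, 1 ≤ y0 ∧ ∀ y : ℝ, y0 ≤ y → ∀ (M : ℕ) (i : Fin d), 1 ≤ M →
      (M : ℝ) ≤ 5 * Real.exp ((2 + x / 2) * y) →
      (∀ Ψ : (Zd d → ℝ) → ℝ → Zd d → ℂ, (∀ ξ, Evol (fun x => Real.exp (-y) * ξ x) (Ψ ξ)) →
        ∀ τ : ℝ, Real.exp ((2 + x + 11 * s) * y) ≤ τ →
        ∫ ξ, Wz (Ψ ξ) i M τ ∂(GZ d) ≤ Real.exp (-(s / 3) * y)) ∧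
      ∀ (L : ℕ) [NeZero L], Real.exp (7 * y) ≤ L → 2 * M ≤ L ∧
        ∀ τ : ℝ, Real.exp ((2 + x + 11 * s) * y) ≤ τ →
        AL d L (Real.exp (-y)) i M τ ≤ Real.exp (-(s / 3) * y) := by
  obtain ⟨y1, hy1, hmain⟩ := torus_main F d hd x s hx hs hs1 hxs
  obtain ⟨C, hC, hm⟩ := mean_cmp (d := d) hl F.avg hc
  obtain ⟨K0, hK0⟩ : ∃ K0 : ℝ, K0 = 1 + 2048 * (6 * (d : ℝ) + 6) := ⟨_, rfl⟩
  have hd0 : (3 : ℝ) ≤ d := by exact_mod_cast hd
  have hK1 : 1 ≤ K0 := by rw [hK0]; nlinarith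
  have hx2 : x + 13 * s ≤ 2 / 7 := by
    have h1 : 0 < 1 / (d : ℝ) := by positivity
    nlinarith
  refine ⟨max y1 (6 * Real.log (K0 + 2 * C) / s), hy1.trans (le_max_left _ _), ?_⟩
  intro y hy M i hM1 hM2
  have hyy1 := (le_max_left y1 _).trans hy
  have hyy2 := (le_max_right y1 (6 * Real.log (K0 + 2 * C) / s)).trans hy
  have hy0 : 1 ≤ y := hy1.trans hyy1
  obtain ⟨s0, hs0⟩ : ∃ s0, s0 = Real.exp ((2 + x + 11 * s) * y) := ⟨_, rfl⟩
  have hs01 : 1 ≤ s0 := by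
    rw [hs0]
    apply Real.one_le_exp
    positivity
  obtain ⟨L0, hL0⟩ : ∃ L0 : ℕ, L0 = ⌈Real.exp (7 * y)⌉₊ := ⟨_, rfl⟩
  have hL1 : Real.exp (7 * y) ≤ L0 := by rw [hL0]; exact Nat.le_ceil _
  have hL2 : (L0 : ℝ) ≤ Real.exp (8 * y) := by
    have h1 : (L0 : ℝ) ≤ Real.exp (7 * y) + 1 := by
      rw [hL0]
      exact (Nat.ceil_lt_add_one (Real.exp_pos _).le).le
    have h2 : Real.exp (8 * y) = Real.exp (7 * y) * Real.exp y := by
      rw [← Real.exp_add]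
      congr 1
      ring
    have h3 : 1 ≤ Real.exp (7 * y) := Real.one_le_exp (by positivity)
    have h4 : 1 + y ≤ Real.exp y := by
      have := Real.add_one_le_exp y
      linarith
    rw [h2]
    nlinarith
  have hL0pos : 0 < L0 := by
    have : (0 : ℝ) < L0 := (Real.exp_pos _).trans_le hL1
    exact_mod_cast this
  haveI : NeZero L0 := ⟨by omega⟩
  -- the error term
  have herr : ∀ L : ℝ, Real.exp (7 * y) ≤ L →
      C * s0 ^ 2 / L ≤ C * Real.exp (-(s / 2) * y) := by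
    intro L hL
    have hLp : 0 < L := (Real.exp_pos _).trans_le hL
    rw [div_le_iff₀ hLp, mul_assoc]
    apply mul_le_mul_of_nonneg_left _ hC.le
    calc s0 ^ 2 = Real.exp (2 * ((2 + x + 11 * s) * y)) := by
          rw [hs0, ← Real.exp_nat_mul]
          push_cast
          rfl
      _ ≤ Real.exp (-(s / 2) * y + 7 * y) := by
          apply Real.exp_le_exp.2
          nlinarith
      _ = Real.exp (-(s / 2) * y) * Real.exp (7 * y) := Real.exp_add _ _
      _ ≤ Real.exp (-(s / 2) * y) * L := by gcongr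
  have hfin : (K0 + 2 * C) * Real.exp (-(s / 2) * y) ≤ Real.exp (-(s / 3) * y) := by
    have hKC : 0 < K0 + 2 * C := by positivity
    have h1 : Real.log (K0 + 2 * C) ≤ s / 6 * y := by
      rw [div_le_iff₀ hs] at hyy2
      linarith
    have h2 : K0 + 2 * C ≤ Real.exp (s / 6 * y) := by
      rw [← Real.log_le_iff_le_exp hKC]
      exact h1
    calc _ ≤ Real.exp (s / 6 * y) * Real.exp (-(s / 2) * y) := by gcongr
      _ = Real.exp (-(s / 3) * y) := by
        rw [← Real.exp_add]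
        congr 1
        ring
  have hexp := Real.exp_pos (-(s / 2) * y)
  obtain ⟨h2M0, hA0⟩ := hmain y hyy1 L0 M i hL1 hL2 hM1 hM2
  have hA0' : AL d L0 (Real.exp (-y)) i M s0 ≤ K0 * Real.exp (-(s / 2) * y) := by
    rw [hK0]
    exact hA0 s0 (le_of_eq hs0.symm)
  have hE : ∀ Ψ : (Zd d → ℝ) → ℝ → Zd d → ℂ, (∀ ξ, Evol (fun x => Real.exp (-y) * ξ x) (Ψ ξ)) →
      ∫ ξ, Wz (Ψ ξ) i M s0 ∂(GZ d) ≤ (K0 + C) * Real.exp (-(s / 2) * y) := by
    intro Ψ hΨ
    have h1 := (abs_le.1 (hm L0 M i hM1 h2M0 _ Ψ hΨ s0 hs01)).2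
    have h2 := herr L0 hL1
    linarith
  constructor
  · intro Ψ hΨ τ hτ
    have h1 := EW_anti F.uni hl F.avg hc hΨ i M hM1 s0 τ hs01 (by rw [hs0]; exact hτ)
    have h2 := hE Ψ hΨ
    nlinarith
  · intro L _ hL
    have h2ML : 2 * M ≤ L := by
      have h1 : (2 * M : ℝ) ≤ L := by
        have h3 : (M : ℝ) ≤ 5 * Real.exp (3 * y) := by
          refine hM2.trans ?_
          gcongr
          nlinarith
        have h4 : (10 : ℝ) ≤ Real.exp (4 * y) := by
          have h5 : Real.exp 4 ≤ Real.exp (4 * y) := Real.exp_le_exp.2 (by linarith)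
          have h6 : Real.exp 4 = Real.exp 1 ^ 4 := by rw [← Real.exp_nat_mul]; norm_num
          have h7 := Real.exp_one_gt_d9
          have h8 : (2.7 : ℝ) ^ 4 ≤ Real.exp 1 ^ 4 := by gcongr; linarith
          rw [h6] at h5
          norm_num at h8
          linarith
        have h5 : Real.exp (7 * y) = Real.exp (4 * y) * Real.exp (3 * y) := by
          rw [← Real.exp_add]
          congr 1
          ring
        have h6 := Real.exp_pos (3 * y)
        nlinarith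
      exact_mod_cast h1
    refine ⟨h2ML, fun τ hτ => ?_⟩
    obtain ⟨Ψ, hΨ⟩ : ∃ Ψ : (Zd d → ℝ) → ℝ → Zd d → ℂ,
        ∀ ξ, Evol (fun x => Real.exp (-y) * ξ x) (Ψ ξ) :=
      ⟨fun ξ => (he d (fun x => Real.exp (-y) * ξ x)).choose,
        fun ξ => (he d (fun x => Real.exp (-y) * ξ x)).choose_spec.1⟩
    have h1 := AL_anti F.uni F.avg L M i hM1 (by omega) (Real.exp (-y)) s0 τ (by linarith)
      (by rw [hs0]; exact hτ)
    have h2 := (abs_le.1 (hm L M i hM1 h2ML _ Ψ hΨ s0 hs01)).1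
    have h3 := herr L hL
    have h4 := hE Ψ hΨ
    nlinarith

end Pool.Agent.T2h98.QD
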