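import Pool.Agent.T2h98.QD.Lat2
import Pool.Agent.T2h98.QD.Cmp

/-! The mass near a hyperplane. -/

set_option autoImplicit false
set_option linter.unusedSectionVars false
set_option linter.style.haveILetI false

open scoped BigOperators Matrix Topology
open MeasureTheory ProbabilityTheory Filter

namespace Pool.Agent.T2h98.QD

open Pool.Agent.W788.MFP.Four (T e NN adj K)
open Pool.Agent.W788.BK (nsq hs PP JJ hi Low cr)

/-- the mass of `ψ` in the slab `|x_i| ≤ R` -/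
noncomputable def ms {d : ℕ} (i : Fin d) (R : ℝ) (ψ : Zd d → ℂ) : ℝ :=
  ∑' x : Zd d, if |(x i : ℝ)| ≤ R then ‖ψ x‖ ^ 2 else 0

/-- its Abel mean -/
noncomputable def mm {d : ℕ} (i : Fin d) (R τ : ℝ) (ψ : ℝ → Zd d → ℂ) : ℝ :=
  τ⁻¹ * ∫ t in Set.Ioi (0 : ℝ), Real.exp (-(t / τ)) * ms i R (ψ t)

variable {d : ℕ} {v : Zd d → ℝ} {ψ : ℝ → Zd d → ℂ}

theorem ms_nonneg (i : Fin d) (R : ℝ) (φ : Zd d → ℂ) : 0 ≤ ms i R φ :=
  tsum_nonneg fun x => by split_ifs <;> positivity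

theorem ms_le (h : Evol v ψ) (i : Fin d) (R : ℝ) (M : ℕ) (h1 : 1 ≤ M) (hM : 2 * R ≤ M) (t : ℝ) :
    ms i R (ψ t) ≤ 2 * ∑' x, fZ M (x i) * ‖ψ t x‖ ^ 2 := by
  have hM0 : (0 : ℝ) < M := by exact_mod_cast h1
  rw [← tsum_mul_left]
  have hs2 := (Cmp.obs_summable h h1 i t).mul_left 2
  have hle : ∀ x : Zd d, (if |(x i : ℝ)| ≤ R then ‖ψ t x‖ ^ 2 else 0) ≤
      2 * (fZ M (x i) * ‖ψ t x‖ ^ 2) := by
    intro x
    have h3 := Cmp.fZ_mem h1 (x i)
    split_ifs with hx
    · have h4 : 1 / 2 ≤ fZ M (x i) := by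
        unfold fZ
        apply le_max_of_le_right
        have h5 : |(x i : ℝ)| / M ≤ 1 / 2 := by
          rw [div_le_iff₀ hM0]
          linarith
        linarith
      have h6 : 0 ≤ ‖ψ t x‖ ^ 2 := by positivity
      nlinarith
    · have := mul_nonneg h3.1 (by positivity : 0 ≤ ‖ψ t x‖ ^ 2)
      positivity
  refine Summable.tsum_le_tsum hle ?_ hs2
  exact Summable.of_nonneg_of_le (fun x => by split_ifs <;> positivity) hle hs2

theorem obs_int (h : Evol v ψ) {M : ℕ} (h1 : 1 ≤ M) (i : Fin d) {τ : ℝ} (hτ : 0 < τ) :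
    IntegrableOn (fun t => Real.exp (-(t / τ)) * ∑' x, fZ M (x i) * ‖ψ t x‖ ^ 2)
      (Set.Ioi (0 : ℝ)) := by
  have h3 : IntegrableOn (fun t : ℝ => Real.exp (-(t / τ))) (Set.Ioi (0 : ℝ)) := by
    have := integrableOn_exp_mul_Ioi (a := -τ⁻¹) (by simpa using hτ) 0
    refine this.congr_fun (fun t _ => ?_) measurableSet_Ioi
    simp only
    congr 1
    rw [div_eq_mul_inv]
    ring
  refine Integrable.mono' h3 ?_ ?_
  · apply Measurable.aestronglyMeasurable
    exact Measurable.mul (by fun_prop) (Cmp.obs_meas h h1 i)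
  · refine Eventually.of_forall fun t => ?_
    have h4 := Cmp.obs_mem h h1 i t
    rw [Real.norm_eq_abs, abs_mul, abs_of_pos (Real.exp_pos _), abs_of_nonneg h4.1]
    have := Real.exp_pos (-(t / τ))
    nlinarith

theorem mm_nonneg (i : Fin d) (R τ : ℝ) (hτ : 0 < τ) (ψ : ℝ → Zd d → ℂ) : 0 ≤ mm i R τ ψ := by
  unfold mm
  apply mul_nonneg (inv_nonneg.2 hτ.le)
  apply integral_nonneg
  intro t
  exact mul_nonneg (Real.exp_pos _).le (ms_nonneg _ _ _)

theorem mm_le (h : Evol v ψ) (i : Fin d) (R : ℝ) (M : ℕ) (h1 : 1 ≤ M) (hM : 2 * R ≤ M) (τ : ℝ)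
    (hτ : 0 < τ) : mm i R τ ψ ≤ 2 * Wz ψ i M τ := by
  unfold mm Wz
  rw [mul_left_comm]
  apply mul_le_mul_of_nonneg_left _ (inv_nonneg.2 hτ.le)
  rw [← integral_const_mul]
  apply integral_mono_of_nonneg
  · refine Eventually.of_forall fun t => ?_
    exact mul_nonneg (Real.exp_pos _).le (ms_nonneg _ _ _)
  · exact (obs_int h h1 i hτ).const_mul 2
  · refine Eventually.of_forall fun t => ?_
    have h2 := ms_le h i R M h1 hM t
    have := Real.exp_pos (-(t / τ))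
    simp only
    nlinarith

theorem ms_summable (h : Evol v ψ) (i : Fin d) (R : ℝ) (t : ℝ) :
    Summable fun x : Zd d => if |(x i : ℝ)| ≤ R then ‖ψ t x‖ ^ 2 else 0 := by
  refine Summable.of_nonneg_of_le (fun x => by split_ifs <;> positivity) (fun x => ?_)
    (h.mass t).summable
  split_ifs
  · exact le_rfl
  · positivity

theorem exp_int {τ : ℝ} (hτ : 0 < τ) :
    IntegrableOn (fun t : ℝ => Real.exp (-(t / τ))) (Set.Ioi (0 : ℝ)) ∧
      ∫ t in Set.Ioi (0 : ℝ), Real.exp (-(t / τ)) = τ := by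
  have e1 : ∀ t : ℝ, Real.exp (-(t / τ)) = Real.exp (-τ⁻¹ * t) := by
    intro t
    congr 1
    rw [div_eq_mul_inv]
    ring
  have h0 : -τ⁻¹ < 0 := by simpa using hτ
  constructor
  · have := integrableOn_exp_mul_Ioi h0 0
    exact this.congr_fun (fun t _ => (e1 t).symm) measurableSet_Ioi
  · have := integral_exp_mul_Ioi h0 0
    simp only [e1]
    rw [this]
    field_simp
    simp

theorem mm_le_one (h : Evol v ψ) (i : Fin d) (R τ : ℝ) (hτ : 0 < τ) : mm i R τ ψ ≤ 1 := by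
  obtain ⟨h1, h2⟩ := exp_int hτ
  have h3 : ∫ t in Set.Ioi (0 : ℝ), Real.exp (-(t / τ)) * ms i R (ψ t) ≤
      ∫ t in Set.Ioi (0 : ℝ), Real.exp (-(t / τ)) := by
    apply integral_mono_of_nonneg
    · exact Eventually.of_forall fun t => mul_nonneg (Real.exp_pos _).le (ms_nonneg _ _ _)
    · exact h1
    · refine Eventually.of_forall fun t => ?_
      have h4 : ms i R (ψ t) ≤ 1 := by
        rw [← (h.mass t).tsum_eq]
        exact (ms_summable h i R t).tsum_le_tsum (fun x => by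
          split_ifs
          · exact le_rfl
          · positivity) (h.mass t).summable
      have := Real.exp_pos (-(t / τ))
      simp only
      nlinarith
  unfold mm
  rw [h2] at h3
  calc _ ≤ τ⁻¹ * τ := mul_le_mul_of_nonneg_left h3 (inv_nonneg.2 hτ.le)
    _ = 1 := inv_mul_cancel₀ hτ.ne'

theorem mm_meas {σ : ℝ} {Ψ : (Zd d → ℝ) → ℝ → Zd d → ℂ}
    (hc : ∀ x : Zd d, Continuous fun p : (Zd d → ℝ) × ℝ => Ψ p.1 p.2 x)
    (hΨ : ∀ ξ, Evol (fun x => σ * ξ x) (Ψ ξ)) (i : Fin d) (R τ : ℝ) :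
    Measurable fun ξ => mm i R τ (Ψ ξ) := by
  unfold mm
  apply Measurable.const_mul
  have h1 : Measurable fun p : (Zd d → ℝ) × ℝ => Real.exp (-(p.2 / τ)) * ms i R (Ψ p.1 p.2) := by
    apply Measurable.mul (by fun_prop)
    refine measurable_of_tendsto_metrizable' Filter.atTop
      (f := fun (s : Finset (Zd d)) (p : (Zd d → ℝ) × ℝ) =>
        ∑ x ∈ s, if |(x i : ℝ)| ≤ R then ‖Ψ p.1 p.2 x‖ ^ 2 else 0) (fun s => ?_) ?_
    · apply Finset.measurable_sum
      intro x _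
      split_ifs
      · exact ((hc x).norm.pow 2).measurable
      · exact measurable_const
    · rw [tendsto_pi_nhds]
      intro p
      exact (ms_summable (hΨ p.1) i R p.2).hasSum
  exact (h1.stronglyMeasurable.integral_prod_right' (ν := volume.restrict (Set.Ioi (0 : ℝ)))).measurable

/-- the tent functional and the mass of a slab of the torus -/
theorem slab_le (ht : T_TENT) (L M : ℕ) [NeZero L] (i : Fin d) (h1 : 1 ≤ M) (h2 : M ≤ L)
    (u : T d L → ℂ) (R : ℝ) (hR : 2 * R ≤ M) (a : ZMod L) (S : Finset (T d L))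
    (hS : ∀ x ∈ S, ∃ r : ℕ, (r : ℝ) ≤ R ∧ x i = a + (r : ZMod L)) :
    1 / 2 * (∑ x ∈ S, ‖u x‖ ^ 2) ^ 2 ≤ Phi i M (Matrix.vecMulVec u (star u)) := by
  obtain ⟨-, -, -, h3, -, h4, -⟩ := ht L M h1 h2
  have hM0 : (0 : ℝ) < M := by exact_mod_cast h1
  have hlow : ∀ x ∈ S, ∀ y ∈ S, 1 / 2 ≤ ff M (x i - y i) := by
    intro x hx y hy
    obtain ⟨r, hr, hxr⟩ := hS x hx
    obtain ⟨r', hr', hyr⟩ := hS y hy
    have e1 : x i - y i = ((r : ℕ) : ZMod L) - ((r' : ℕ) : ZMod L) := by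
      rw [hxr, hyr]
      ring
    rw [e1]
    have g1 : 2 * r ≤ M := by
      have : (2 * r : ℝ) ≤ M := by linarith
      exact_mod_cast this
    have g2 : 2 * r' ≤ M := by
      have : (2 * r' : ℝ) ≤ M := by linarith
      exact_mod_cast this
    exact h4 r r' (by omega) (by omega) (by omega)
  have e2 : ∀ x y, ‖(Matrix.vecMulVec u (star u) : Matrix (T d L) (T d L) ℂ) x y‖ ^ 2 =
      ‖u x‖ ^ 2 * ‖u y‖ ^ 2 := by
    intro x y
    rw [Matrix.vecMulVec_apply, Pi.star_apply, norm_mul, norm_star]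
    ring
  unfold Phi
  calc 1 / 2 * (∑ x ∈ S, ‖u x‖ ^ 2) ^ 2
      = ∑ x ∈ S, ∑ y ∈ S, 1 / 2 * (‖u x‖ ^ 2 * ‖u y‖ ^ 2) := by
        rw [sq, Finset.sum_mul_sum, Finset.mul_sum]
        exact Finset.sum_congr rfl fun x _ => by rw [Finset.mul_sum]
    _ ≤ ∑ x ∈ S, ∑ y ∈ S, ff M (x i - y i) *
          ‖(Matrix.vecMulVec u (star u) : Matrix (T d L) (T d L) ℂ) x y‖ ^ 2 := by
        apply Finset.sum_le_sum
        intro x hx
        apply Finset.sum_le_sum
        intro y hy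
        rw [e2]
        exact mul_le_mul_of_nonneg_right (hlow x hx y hy) (by positivity)
    _ ≤ ∑ x ∈ S, ∑ y, ff M (x i - y i) *
          ‖(Matrix.vecMulVec u (star u) : Matrix (T d L) (T d L) ℂ) x y‖ ^ 2 := by
        apply Finset.sum_le_sum
        intro x hx
        apply Finset.sum_le_sum_of_subset_of_nonneg (Finset.subset_univ _)
        intro y _ _
        exact mul_nonneg (h3 _).1 (by positivity)
    _ ≤ _ := by
        apply Finset.sum_le_sum_of_subset_of_nonneg (Finset.subset_univ _)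
        intro x _ _
        exact Finset.sum_nonneg fun y _ => mul_nonneg (h3 _).1 (by positivity)

end Pool.Agent.T2h98.QD
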