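import Pool.Agent.T2h98.QD.Lat3

/-! The final form. -/

set_option autoImplicit false
set_option linter.unusedSectionVars false
set_option linter.style.haveILetI false

open scoped BigOperators Matrix Topology
open MeasureTheory ProbabilityTheory Filter

namespace Pool.Agent.T2h98.QD

open Pool.Agent.W788.MFP.Four (T e NN adj K)
open Pool.Agent.W788.BK (nsq hs PP JJ hi Low cr)

instance (n : Type) [Fintype n] : IsProbabilityMeasure (GP n) := by
  show IsProbabilityMeasure (Measure.pi fun _ : n => gaussianReal 0 1)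
  infer_instance

theorem gp_neg (n : Type) [Fintype n] : (GP n).map (fun V x => -V x) = GP n := by
  unfold GP PP
  have h1 := Measure.pi_map_pi (μ := fun _ : n => gaussianReal 0 1)
    (f := fun _ (s : ℝ) => -s) (fun _ => measurable_neg.aemeasurable)
  simp only [gaussianReal_map_neg, neg_zero] at h1
  exact h1

/-- the mass of `u` in the part `x_i ∈ a + [0, R]` of the torus -/
noncomputable def sm {d L : ℕ} [NeZero L] (i : Fin d) (a : ZMod L) (R : ℝ) (u : T d L → ℂ) : ℝ :=
  open Classical in ∑ x : T d L, if ∃ r : ℕ, (r : ℝ) ≤ R ∧ x i = a + (r : ZMod L) then ‖u x‖ ^ 2 else 0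

/-- most eigenvectors are spread out -/
def Spread {d L : ℕ} [NeZero L] (R ε : ℝ) (H : Matrix (T d L) (T d L) ℂ) : Prop :=
  ∀ (u : T d L → T d L → ℂ) (E : T d L → ℝ), (∀ j, H *ᵥ u j = (E j : ℂ) • u j) →
    (∀ j k, star (u j) ⬝ᵥ u k = if j = k then 1 else 0) →
    open Classical in
    ((Finset.univ.filter fun j => ∃ (i : Fin d) (a : ZMod L), ε < sm i a R (u j)).card : ℝ) ≤
      ε * NN d L

theorem spread_of (hu : T_UNI) (ht : T_TENT) {d L : ℕ} [NeZero L] (M : ℕ) (h1 : 1 ≤ M)
    (h2 : M ≤ L) (H : Matrix (T d L) (T d L) ℂ) (hH : H.IsHermitian) (R ε κ s0 : ℝ)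
    (hR : 2 * R ≤ M) (hs0 : 0 < s0) (hε : 0 ≤ ε) (hκ : 0 < κ)
    (hW : ∀ i : Fin d, Wt H i M s0 ≤ κ ^ 2 * NN d L) (h3 : κ ≤ 1 / 2 * ε ^ 2)
    (h4 : d * κ ≤ ε) : Spread R ε H := by
  classical
  intro u E hE ho
  have hN := Pool.Agent.W788.MFP.Four.NN_pos (d := d) (L := L)
  -- large values of the functional
  have hbig : ∀ i : Fin d, ((Finset.univ.filter fun j =>
      κ < Phi i M (Matrix.vecMulVec (u j) (star (u j)))).card : ℝ) ≤ κ * NN d L := by
    intro i
    have g1 := (hu d L M i h1 h2 H hH).2.2.1 u E hE ho s0 hs0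
    have g0 : ∀ j, 0 ≤ Phi i M (Matrix.vecMulVec (u j) (star (u j))) := by
      intro j
      have := slab_le ht L M i h1 h2 (u j) R hR 0 ∅ (by simp)
      simpa using this
    have g2 : κ * ((Finset.univ.filter fun j =>
        κ < Phi i M (Matrix.vecMulVec (u j) (star (u j)))).card : ℝ) ≤
        ∑ j, Phi i M (Matrix.vecMulVec (u j) (star (u j))) := by
      rw [mul_comm, ← nsmul_eq_mul, ← Finset.sum_const]
      calc _ ≤ ∑ j ∈ Finset.univ.filter fun j =>
            κ < Phi i M (Matrix.vecMulVec (u j) (star (u j))),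
            Phi i M (Matrix.vecMulVec (u j) (star (u j))) :=
            Finset.sum_le_sum fun j hj => (Finset.mem_filter.1 hj).2.le
        _ ≤ _ := Finset.sum_le_sum_of_subset_of_nonneg (Finset.filter_subset _ _)
            fun j _ _ => g0 j
    have g3 := (g2.trans g1).trans (hW i)
    have g4 : κ * ((Finset.univ.filter fun j =>
        κ < Phi i M (Matrix.vecMulVec (u j) (star (u j)))).card : ℝ) ≤ κ * (κ * NN d L) := by
      refine g3.trans (le_of_eq ?_)
      ring
    exact le_of_mul_le_mul_left g4 hκ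
  have hsub : (Finset.univ.filter fun j => ∃ (i : Fin d) (a : ZMod L), ε < sm i a R (u j)) ⊆
      Finset.univ.biUnion fun i : Fin d => Finset.univ.filter fun j =>
        κ < Phi i M (Matrix.vecMulVec (u j) (star (u j))) := by
    intro j hj
    obtain ⟨i, a, hia⟩ := (Finset.mem_filter.1 hj).2
    rw [Finset.mem_biUnion]
    refine ⟨i, Finset.mem_univ _, Finset.mem_filter.2 ⟨Finset.mem_univ _, ?_⟩⟩
    have g1 := slab_le ht L M i h1 h2 (u j) R hR a
      (Finset.univ.filter fun x : T d L => ∃ r : ℕ, (r : ℝ) ≤ R ∧ x i = a + (r : ZMod L))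
      (fun x hx => (Finset.mem_filter.1 hx).2)
    rw [Finset.sum_filter] at g1
    have g2 : ε < ∑ x : T d L, if ∃ r : ℕ, (r : ℝ) ≤ R ∧ x i = a + (r : ZMod L) then
        ‖u j x‖ ^ 2 else 0 := by
      unfold sm at hia
      convert hia
    have g3 : ε ^ 2 < (∑ x : T d L, if ∃ r : ℕ, (r : ℝ) ≤ R ∧ x i = a + (r : ZMod L) then
        ‖u j x‖ ^ 2 else 0) ^ 2 := by gcongr
    linarith
  calc _ ≤ ((Finset.univ.biUnion fun i : Fin d => Finset.univ.filter fun j =>
        κ < Phi i M (Matrix.vecMulVec (u j) (star (u j)))).card : ℝ) := by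
        have := Finset.card_le_card hsub
        have h5 : ((Finset.univ.filter fun j => ∃ (i : Fin d) (a : ZMod L),
          ε < sm i a R (u j)).card : ℝ) ≤ ((Finset.univ.biUnion fun i : Fin d =>
            Finset.univ.filter fun j =>
              κ < Phi i M (Matrix.vecMulVec (u j) (star (u j)))).card : ℝ) := by
          exact_mod_cast this
        convert h5
    _ ≤ ∑ i : Fin d, ((Finset.univ.filter fun j =>
        κ < Phi i M (Matrix.vecMulVec (u j) (star (u j)))).card : ℝ) := by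
        exact_mod_cast Finset.card_biUnion_le
    _ ≤ ∑ _i : Fin d, κ * NN d L := Finset.sum_le_sum fun i _ => hbig i
    _ = d * κ * NN d L := by
        rw [Finset.sum_const, Finset.card_univ, Fintype.card_fin, nsmul_eq_mul]
        ring
    _ ≤ ε * NN d L := by gcongr

/-- Markov inequality for the time averages -/
theorem markov (hu : T_UNI) (ha : T_AVG) {d L : ℕ} [NeZero L] (M : ℕ) (h1 : 1 ≤ M)
    (h2 : M ≤ L) (σ s0 A κ : ℝ) (hs0 : 0 < s0) (hκ : 0 < κ)
    (hA : ∀ i : Fin d, AL d L σ i M s0 ≤ A) : ∃ Ω : Set (T d L → ℝ), MeasurableSet Ω ∧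
      1 - d * (A / κ ^ 2) ≤ (GP (T d L)).real Ω ∧
      ∀ V ∈ Ω, ∀ i : Fin d, Wt (HT (d := d) (L := L) σ V) i M s0 ≤ κ ^ 2 * NN d L := by
  have hN := Pool.Agent.W788.MFP.Four.NN_pos (d := d) (L := L)
  obtain ⟨B, hB⟩ : ∃ B : Fin d → Set (T d L → ℝ), B = fun i =>
      {V | κ ^ 2 * NN d L < Wt (HT (d := d) (L := L) σ V) i M s0} := ⟨_, rfl⟩
  have hBm : ∀ i, MeasurableSet (B i) := by
    intro i
    rw [hB]
    exact measurableSet_lt measurable_const (ha d L M i h1 h2 σ s0 hs0).2.1
  have hint : ∀ i : Fin d, Integrable (fun V : T d L → ℝ => Wt (HT (d := d) (L := L) σ V) i M s0)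
      (GP (T d L)) := by
    intro i
    apply Integrable.of_bound (ha d L M i h1 h2 σ s0 hs0).2.1.aestronglyMeasurable (NN d L)
    refine Eventually.of_forall fun V => ?_
    have := (hu d L M i h1 h2 (HT σ V) (HT_herm σ V)).2.1 s0 hs0
    rw [Real.norm_eq_abs, abs_of_nonneg this.1]
    exact this.2
  have hBP : ∀ i, (GP (T d L)).real (B i) ≤ A / κ ^ 2 := by
    intro i
    have g1 := mul_meas_ge_le_integral_of_nonneg (μ := GP (T d L))
      (f := fun V : T d L → ℝ => Wt (HT (d := d) (L := L) σ V) i M s0)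
      (Eventually.of_forall fun V =>
        ((hu d L M i h1 h2 (HT σ V) (HT_herm σ V)).2.1 s0 hs0).1) (hint i) (κ ^ 2 * NN d L)
    have g2 : (GP (T d L)).real (B i) ≤ (GP (T d L)).real
        {V | κ ^ 2 * NN d L ≤ Wt (HT (d := d) (L := L) σ V) i M s0} := by
      apply measureReal_mono
      · intro V hV
        rw [hB] at hV
        have hV' : κ ^ 2 * NN d L < Wt (HT (d := d) (L := L) σ V) i M s0 := hV
        exact hV'.le
      · exact measure_ne_top _ _
    have g3 : ∫ V, Wt (HT (d := d) (L := L) σ V) i M s0 ∂(GP (T d L)) ≤ A * NN d L := by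
      have := hA i
      unfold AL at this
      rw [inv_mul_le_iff₀ hN] at this
      linarith
    rw [le_div_iff₀ (by positivity)]
    have g4 : (κ ^ 2 * NN d L) * (GP (T d L)).real (B i) ≤ A * NN d L := by
      refine le_trans ?_ (g1.trans g3)
      gcongr
    have g5 : NN d L * ((GP (T d L)).real (B i) * κ ^ 2) ≤ NN d L * A := by
      calc _ = (κ ^ 2 * NN d L) * (GP (T d L)).real (B i) := by ring
        _ ≤ A * NN d L := g4
        _ = _ := by ring
    exact le_of_mul_le_mul_left g5 hN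
  refine ⟨(⋃ i, B i)ᶜ, (MeasurableSet.iUnion hBm).compl, ?_, ?_⟩
  · rw [probReal_compl_eq_one_sub (MeasurableSet.iUnion hBm)]
    have g1 : (GP (T d L)).real (⋃ i, B i) ≤ ∑ i, (GP (T d L)).real (B i) :=
      measureReal_iUnion_fintype_le B
    have g2 : ∑ i, (GP (T d L)).real (B i) ≤ ∑ _i : Fin d, A / κ ^ 2 :=
      Finset.sum_le_sum fun i _ => hBP i
    rw [Finset.sum_const, Finset.card_univ, Fintype.card_fin, nsmul_eq_mul] at g2
    linarith
  · intro V hV i
    by_contra hcon
    rw [not_le] at hcon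
    apply hV
    rw [Set.mem_iUnion]
    refine ⟨i, ?_⟩
    rw [hB]
    exact hcon

end Pool.Agent.T2h98.QD
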