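import Pool.Agent.T2h98.QD.Lat4

/-! The final form, with all parameters. -/

set_option autoImplicit false
set_option linter.unusedSectionVars false
set_option linter.style.haveILetI false

open scoped BigOperators Matrix Topology
open MeasureTheory ProbabilityTheory Filter

namespace Pool.Agent.T2h98.QD

open Pool.Agent.W788.MFP.Four (T e NN adj K)
open Pool.Agent.W788.BK (nsq hs PP JJ hi Low cr)

theorem pos_final (F : Facts) (hl : T_LAW) (hc : T_CMP) (he : T_EXI) (d : ℕ) (hd : 3 ≤ d)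
    (a b : ℝ) (ha : 0 ≤ a) (had : a < ((d : ℝ) - 1) / (7 * d + 2)) (hab : 2 * a < b) :
    ∃ y0 c : ℝ, 1 ≤ y0 ∧ 0 < c ∧ ∀ y : ℝ, y0 ≤ y →
      (∀ Ψ : (Zd d → ℝ) → ℝ → Zd d → ℂ, (∀ ξ, Evol (fun x => Real.exp (-y) * ξ x) (Ψ ξ)) →
        ∀ (i : Fin d) (τ : ℝ), Real.exp ((2 + b) * y) ≤ τ →
        ∫ ξ, mm i (Real.exp ((2 + a) * y)) τ (Ψ ξ) ∂(GZ d) ≤ Real.exp (-c * y)) ∧
      ∀ (L : ℕ) [NeZero L], Real.exp (7 * y) ≤ L → ∃ Ω : Set (T d L → ℝ), MeasurableSet Ω ∧
        1 - Real.exp (-c * y) ≤ (GP (T d L)).real Ω ∧ ∀ V ∈ Ω,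
        Spread (Real.exp ((2 + a) * y)) (Real.exp (-c * y))
          (HT (d := d) (L := L) (Real.exp (-y)) V) := by
  have hd0 : (3 : ℝ) ≤ d := by exact_mod_cast hd
  have hg1 : 0 < (2 * (((d : ℝ) - 1) / (7 * d + 2)) - 2 * a) / 13 := by
    have : 0 < 2 * (((d : ℝ) - 1) / (7 * d + 2)) - 2 * a := by linarith
    positivity
  have hg2 : 0 < (b - 2 * a) / 11 := by
    have : 0 < b - 2 * a := by linarith
    positivity
  obtain ⟨s, hs, hs1, hs2, hs3⟩ : ∃ s : ℝ, 0 < s ∧ s ≤ 1 / 100 ∧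
      s ≤ (2 * (((d : ℝ) - 1) / (7 * d + 2)) - 2 * a) / 13 ∧ s ≤ (b - 2 * a) / 11 :=
    ⟨min (1 / 100) (min _ _), lt_min (by norm_num) (lt_min hg1 hg2), min_le_left _ _,
      (min_le_right _ _).trans (min_le_left _ _), (min_le_right _ _).trans (min_le_right _ _)⟩
  have hxs : (2 * a + 13 * s) * (7 / 2 + 1 / (d : ℝ)) ≤ 1 - 1 / (d : ℝ) := by
    have h1 : 2 * a + 13 * s ≤ 2 * (((d : ℝ) - 1) / (7 * d + 2)) := by linarith
    have h2 : (7 / 2 + 1 / (d : ℝ)) = (7 * d + 2) / (2 * d) := by field_simp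
    have h3 : 1 - 1 / (d : ℝ) = 2 * (((d : ℝ) - 1) / (7 * d + 2)) * ((7 * d + 2) / (2 * d)) := by
      field_simp
    rw [h3, h2]
    apply mul_le_mul_of_nonneg_right h1
    positivity
  obtain ⟨y1, hy1, hmain⟩ := lat_main F hl hc he d hd (2 * a) s (by positivity) hs hs1 hxs
  have hlog : 0 ≤ Real.log (2 * d) := Real.log_nonneg (by linarith)
  refine ⟨max y1 (90 * Real.log (2 * d) / s), s / 20, hy1.trans (le_max_left _ _), by positivity,
    ?_⟩
  intro y hy
  have hyy1 := (le_max_left y1 _).trans hy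
  have hyy2 := (le_max_right y1 (90 * Real.log (2 * d) / s)).trans hy
  have hy0 : 1 ≤ y := hy1.trans hyy1
  rw [div_le_iff₀ hs] at hyy2
  have h2d : 2 * (d : ℝ) ≤ Real.exp (s / 90 * y) := by
    rw [← Real.log_le_iff_le_exp (by positivity)]
    linarith
  obtain ⟨R, hR⟩ : ∃ R, R = Real.exp ((2 + a) * y) := ⟨_, rfl⟩
  have hR1 : 1 ≤ R := by
    rw [hR]
    exact Real.one_le_exp (by positivity)
  obtain ⟨M, hM⟩ : ∃ M : ℕ, M = ⌈2 * R⌉₊ := ⟨_, rfl⟩
  have hM1 : 2 * R ≤ M := by rw [hM]; exact Nat.le_ceil _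
  have hM2 : (M : ℝ) ≤ 5 * Real.exp ((2 + 2 * a / 2) * y) := by
    have h1 : (M : ℝ) ≤ 2 * R + 1 := by
      rw [hM]
      exact (Nat.ceil_lt_add_one (by linarith)).le
    have h2 : Real.exp ((2 + 2 * a / 2) * y) = R := by
      rw [hR]
      congr 1
      ring
    rw [h2]
    linarith
  have hM3 : 1 ≤ M := by
    have : (1 : ℝ) ≤ M := by linarith
    exact_mod_cast this
  have hexp : Real.exp (-(s / 3) * y) ≤ 1 := by
    rw [Real.exp_le_one_iff]
    nlinarith
  constructor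
  · intro Ψ hΨ i τ hτ
    have hτ1 : Real.exp ((2 + 2 * a + 11 * s) * y) ≤ τ := by
      refine le_trans (Real.exp_le_exp.2 ?_) hτ
      have : 2 + 2 * a + 11 * s ≤ 2 + b := by linarith
      nlinarith
    have hτ2 : 1 ≤ τ := le_trans (Real.one_le_exp (by positivity)) hτ1
    have h1 := (hmain y hyy1 M i hM3 hM2).1 Ψ hΨ τ hτ1
    rw [← hR]
    calc ∫ ξ, mm i R τ (Ψ ξ) ∂(GZ d) ≤ ∫ ξ, 2 * Wz (Ψ ξ) i M τ ∂(GZ d) := by
          apply integral_mono_of_nonneg
          · exact Eventually.of_forall fun ξ => mm_nonneg i R τ (by linarith) (Ψ ξ)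
          · exact (wz_int F.avg hc hΨ i M hM3 τ hτ2).const_mul 2
          · exact Eventually.of_forall fun ξ => mm_le (hΨ ξ) i R M hM3 hM1 τ (by linarith)
      _ = 2 * ∫ ξ, Wz (Ψ ξ) i M τ ∂(GZ d) := integral_const_mul _ _
      _ ≤ 2 * Real.exp (-(s / 3) * y) := by linarith
      _ ≤ Real.exp (s / 90 * y) * Real.exp (-(s / 3) * y) :=
          mul_le_mul_of_nonneg_right (by linarith) (Real.exp_pos _).le
      _ ≤ Real.exp (-(s / 20) * y) := by
          rw [← Real.exp_add]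
          apply Real.exp_le_exp.2
          nlinarith
  · intro L _ hL
    obtain ⟨h2ML, hAL⟩ := (hmain y hyy1 M ⟨0, by omega⟩ hM3 hM2).2 L hL
    obtain ⟨s0, hs0⟩ : ∃ s0, s0 = Real.exp ((2 + 2 * a + 11 * s) * y) := ⟨_, rfl⟩
    have hs0p : 0 < s0 := by rw [hs0]; positivity
    obtain ⟨κ, hκ⟩ : ∃ κ, κ = Real.exp (-(s / 9) * y) := ⟨_, rfl⟩
    have hκp : 0 < κ := by rw [hκ]; positivity
    obtain ⟨Ω, hΩ, hΩP, hΩW⟩ := markov F.uni F.avg (L := L) M hM3 (by omega) (Real.exp (-y)) s0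
      (Real.exp (-(s / 3) * y)) κ hs0p hκp (fun i =>
        ((hmain y hyy1 M i hM3 hM2).2 L hL).2 s0 (le_of_eq hs0.symm))
    have hdκ : d * κ ≤ Real.exp (-(s / 20) * y) := by
      calc d * κ ≤ Real.exp (s / 90 * y) * Real.exp (-(s / 9) * y) := by
            rw [hκ]
            exact mul_le_mul_of_nonneg_right (by linarith) (Real.exp_pos _).le
        _ ≤ Real.exp (-(s / 20) * y) := by
            rw [← Real.exp_add]
            apply Real.exp_le_exp.2
            nlinarith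
    refine ⟨Ω, hΩ, ?_, ?_⟩
    · have e1 : Real.exp (-(s / 3) * y) / κ ^ 2 = κ := by
        rw [hκ, ← Real.exp_nat_mul, ← Real.exp_sub]
        congr 1
        push_cast
        ring
      rw [e1] at hΩP
      linarith
    · intro V hV
      rw [← hR]
      refine spread_of F.uni F.tent M hM3 (by omega) _ (HT_herm _ V) R _ κ s0 hM1 hs0p
        (Real.exp_pos _).le hκp (hΩW V hV) ?_ hdκ
      have e1 : Real.exp (-(s / 20) * y) ^ 2 = Real.exp (-(s / 10) * y) := by
        rw [← Real.exp_nat_mul]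
        congr 1
        push_cast
        ring
      rw [e1]
      have e2 : 2 * κ ≤ Real.exp (-(s / 10) * y) := by
        calc 2 * κ ≤ Real.exp (s / 90 * y) * Real.exp (-(s / 9) * y) := by
              rw [hκ]
              exact mul_le_mul_of_nonneg_right (by linarith) (Real.exp_pos _).le
          _ ≤ Real.exp (-(s / 10) * y) := by
              rw [← Real.exp_add]
              apply Real.exp_le_exp.2
              nlinarith
      linarith

end Pool.Agent.T2h98.QD
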