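import Pool.Agent.T2h98.QD.Stm10
import Pool.Agent.T2h98.QD.Cmp
import Pool.Agent.T2h98.QD.Avg2

/-! From the torus to the lattice, with the law `GZ` of `Stm6` (copies of `Lat`, `Lat3`, `Lat4`, helper98). -/

set_option autoImplicit false
set_option linter.unusedSectionVars false
set_option linter.style.haveILetI false

open scoped BigOperators Matrix Topology
open MeasureTheory ProbabilityTheory Filter

namespace Pool.Agent.T2h98.QD.W

open Pool.Agent.W788.MFP.Four (T e NN adj K)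
open Pool.Agent.W788.BK (nsq hs PP JJ hi Low cr)

section

theorem law_neg (d : ℕ) : (GZ d).map (fun ξ x => -ξ x) = GZ d := by
  have h1 := Measure.infinitePi_map_pi (μ := fun _ : Zd d => gaussianReal 0 1)
    (f := fun _ (s : ℝ) => -s) (fun _ => measurable_neg)
  simp only [gaussianReal_map_neg, neg_zero] at h1
  exact h1

/-- the mean of `Wt` -/
noncomputable def AL (d L : ℕ) [NeZero L] (σ : ℝ) (i : Fin d) (M : ℕ) (τ : ℝ) : ℝ :=
  (NN d L)⁻¹ * ∫ V, Wt (HT (d := d) (L := L) σ V) i M τ ∂(GP (T d L))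

variable {d : ℕ}

theorem int_Wl (hl : T_LAW) (ha : T_AVG) (L M : ℕ) [NeZero L] (i : Fin d) (h1 : 1 ≤ M)
    (h2 : M ≤ L) (σ τ : ℝ) (hτ : 0 < τ) :
    ∫ ξ, Wl (HT (d := d) (L := L) σ fun k => ξ (rep k)) i M τ ∂(GZ d) = AL d L σ i M τ := by
  obtain ⟨a1, a2, a3, a4⟩ := ha d L M i h1 h2 σ τ hτ
  have hm : Measurable fun (ξ : Zd d → ℝ) (k : T d L) => ξ (rep k) := by fun_prop
  unfold AL
  rw [← a4, ← hl d L, integral_map hm.aemeasurable a1.aestronglyMeasurable]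

theorem meas_Wl (ha : T_AVG) (L M : ℕ) [NeZero L] (i : Fin d) (h1 : 1 ≤ M)
    (h2 : M ≤ L) (σ τ : ℝ) (hτ : 0 < τ) :
    Measurable fun ξ : Zd d → ℝ => Wl (HT (d := d) (L := L) σ fun k => ξ (rep k)) i M τ := by
  obtain ⟨a1, a2, a3, a4⟩ := ha d L M i h1 h2 σ τ hτ
  have hm : Measurable fun (ξ : Zd d → ℝ) (k : T d L) => ξ (rep k) := by fun_prop
  exact a1.comp hm

/-- the sequence of tori -/
theorem seq_tendsto (M : ℕ) (C τ : ℝ) :
    Tendsto (fun n : ℕ => C * τ ^ 2 / ((n + 1 + 2 * M : ℕ) : ℝ)) atTop (𝓝 0) := by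
  have h1 : Tendsto (fun n : ℕ => ((n + 1 + 2 * M : ℕ) : ℝ)) atTop atTop := by
    apply tendsto_natCast_atTop_atTop.comp
    apply tendsto_atTop_mono (f := fun n : ℕ => n) (fun n => by omega) tendsto_id
  exact h1.const_div_atTop _

variable {Ψ : (Zd d → ℝ) → ℝ → Zd d → ℂ} {σ : ℝ}

theorem wz_tendsto (hc : T_CMP) (hΨ : ∀ ξ, Evol (fun x => σ * ξ x) (Ψ ξ)) (i : Fin d) (M : ℕ)
    (h1 : 1 ≤ M) (τ : ℝ) (hτ : 1 ≤ τ) (ξ : Zd d → ℝ) :
    Tendsto (fun n : ℕ => haveI : NeZero (n + 1 + 2 * M) := ⟨by omega⟩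
      Wl (HT (d := d) (L := n + 1 + 2 * M) σ fun k => ξ (rep k)) i M τ) atTop
      (𝓝 (Wz (Ψ ξ) i M τ)) := by
  obtain ⟨C, hC, hcmp⟩ := hc d
  rw [tendsto_iff_norm_sub_tendsto_zero]
  apply squeeze_zero (fun n => norm_nonneg _) _ (seq_tendsto M C τ)
  intro n
  haveI : NeZero (n + 1 + 2 * M) := ⟨by omega⟩
  rw [Real.norm_eq_abs, abs_sub_comm]
  exact hcmp (n + 1 + 2 * M) M i h1 (by omega) σ ξ (Ψ ξ) (hΨ ξ) τ hτ

theorem wz_meas (ha : T_AVG) (hc : T_CMP)
    (hΨ : ∀ ξ, Evol (fun x => σ * ξ x) (Ψ ξ)) (i : Fin d) (M : ℕ)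
    (h1 : 1 ≤ M) (τ : ℝ) (hτ : 1 ≤ τ) : Measurable fun ξ => Wz (Ψ ξ) i M τ := by
  apply measurable_of_tendsto_metrizable (f := fun (n : ℕ) (ξ : Zd d → ℝ) =>
    haveI : NeZero (n + 1 + 2 * M) := ⟨by omega⟩
    Wl (HT (d := d) (L := n + 1 + 2 * M) σ fun k => ξ (rep k)) i M τ)
  · intro n
    haveI : NeZero (n + 1 + 2 * M) := ⟨by omega⟩
    exact meas_Wl ha (n + 1 + 2 * M) M i h1 (by omega) σ τ (by linarith)
  · rw [tendsto_pi_nhds]
    intro ξ
    exact wz_tendsto hc hΨ i M h1 τ hτ ξ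

theorem wz_mem (ha : T_AVG) (hc : T_CMP)
    (hΨ : ∀ ξ, Evol (fun x => σ * ξ x) (Ψ ξ)) (i : Fin d) (M : ℕ)
    (h1 : 1 ≤ M) (τ : ℝ) (hτ : 1 ≤ τ) (ξ : Zd d → ℝ) :
    0 ≤ Wz (Ψ ξ) i M τ ∧ Wz (Ψ ξ) i M τ ≤ 1 := by
  have h2 := wz_tendsto hc hΨ i M h1 τ hτ ξ
  constructor
  · apply ge_of_tendsto' h2
    intro n
    haveI : NeZero (n + 1 + 2 * M) := ⟨by omega⟩
    exact ((ha d (n + 1 + 2 * M) M i h1 (by omega) σ τ (by linarith)).2.2.1 _).1
  · apply le_of_tendsto' h2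
    intro n
    haveI : NeZero (n + 1 + 2 * M) := ⟨by omega⟩
    exact ((ha d (n + 1 + 2 * M) M i h1 (by omega) σ τ (by linarith)).2.2.1 _).2

theorem wz_int (ha : T_AVG) (hc : T_CMP)
    (hΨ : ∀ ξ, Evol (fun x => σ * ξ x) (Ψ ξ)) (i : Fin d) (M : ℕ)
    (h1 : 1 ≤ M) (τ : ℝ) (hτ : 1 ≤ τ) : Integrable (fun ξ => Wz (Ψ ξ) i M τ) (GZ d) := by
  apply Integrable.of_bound (wz_meas ha hc hΨ i M h1 τ hτ).aestronglyMeasurable 1
  refine Eventually.of_forall fun ξ => ?_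
  have := wz_mem ha hc hΨ i M h1 τ hτ ξ
  rw [Real.norm_eq_abs, abs_of_nonneg this.1]
  exact this.2

/-- the means agree -/
theorem mean_cmp (hl : T_LAW) (ha : T_AVG) (hc : T_CMP) : ∃ C : ℝ, 0 < C ∧
    ∀ (L M : ℕ) [NeZero L] (i : Fin d), 1 ≤ M → 2 * M ≤ L → ∀ (σ : ℝ)
    (Ψ : (Zd d → ℝ) → ℝ → Zd d → ℂ), (∀ ξ, Evol (fun x => σ * ξ x) (Ψ ξ)) →
    ∀ τ : ℝ, 1 ≤ τ → |∫ ξ, Wz (Ψ ξ) i M τ ∂(GZ d) - AL d L σ i M τ| ≤ C * τ ^ 2 / L := by
  obtain ⟨C, hC, hcmp⟩ := hc d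
  refine ⟨C, hC, ?_⟩
  intro L M _ i h1 h2 σ Ψ hΨ τ hτ
  have hτ0 : 0 < τ := by linarith
  have hL0 : (0 : ℝ) < L := by exact_mod_cast Nat.pos_of_ne_zero (NeZero.ne L)
  have i1 := wz_int ha hc hΨ i M h1 τ hτ
  have i2 : Integrable (fun ξ : Zd d → ℝ =>
      Wl (HT (d := d) (L := L) σ fun k => ξ (rep k)) i M τ) (GZ d) := by
    apply Integrable.of_bound
      (meas_Wl ha L M i h1 (by omega) σ τ hτ0).aestronglyMeasurable 1
    refine Eventually.of_forall fun ξ => ?_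
    have := (ha d L M i h1 (by omega) σ τ hτ0).2.2.1 (fun k => ξ (rep k))
    rw [Real.norm_eq_abs, abs_of_nonneg this.1]
    exact this.2
  rw [← int_Wl hl ha L M i h1 (by omega) σ τ hτ0, ← integral_sub i1 i2, ← Real.norm_eq_abs]
  calc _ ≤ C * τ ^ 2 / L * (GZ d).real Set.univ := by
        apply norm_integral_le_of_norm_le_const
        refine Eventually.of_forall fun ξ => ?_
        rw [Real.norm_eq_abs]
        exact hcmp L M i h1 h2 σ ξ (Ψ ξ) (hΨ ξ) τ hτ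
    _ = _ := by simp

theorem AL_anti (hu : T_UNI) (ha : T_AVG) (L M : ℕ) [NeZero L] (i : Fin d) (h1 : 1 ≤ M)
    (h2 : M ≤ L) (σ s τ : ℝ) (hs : 0 < s) (hsτ : s ≤ τ) :
    AL d L σ i M τ ≤ AL d L σ i M s := by
  have hN := Pool.Agent.W788.MFP.Four.NN_pos (d := d) (L := L)
  unfold AL
  apply mul_le_mul_of_nonneg_left _ (inv_nonneg.2 hN.le)
  have hH : ∀ V : T d L → ℝ, (HT σ V).IsHermitian := HT_herm σ
  have hint : ∀ t : ℝ, 0 < t → Integrable (fun V : T d L → ℝ => Wt (HT (d := d) (L := L) σ V) i M t)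
      (GP (T d L)) := by
    intro t ht
    apply Integrable.of_bound (ha d L M i h1 h2 σ t ht).2.1.aestronglyMeasurable (NN d L)
    refine Eventually.of_forall fun V => ?_
    have := (hu d L M i h1 h2 (HT σ V) (hH V)).2.1 t ht
    rw [Real.norm_eq_abs, abs_of_nonneg this.1]
    exact this.2
  apply integral_mono (hint τ (by linarith)) (hint s hs)
  intro V
  exact (hu d L M i h1 h2 (HT σ V) (hH V)).1 s τ hs hsτ

/-- monotonicity on the lattice -/
theorem EW_anti (hu : T_UNI) (hl : T_LAW) (ha : T_AVG) (hc : T_CMP)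
    (hΨ : ∀ ξ, Evol (fun x => σ * ξ x) (Ψ ξ)) (i : Fin d) (M : ℕ)
    (h1 : 1 ≤ M) (s τ : ℝ) (hs : 1 ≤ s) (hsτ : s ≤ τ) :
    ∫ ξ, Wz (Ψ ξ) i M τ ∂(GZ d) ≤ ∫ ξ, Wz (Ψ ξ) i M s ∂(GZ d) := by
  obtain ⟨C, hC, hm⟩ := mean_cmp (d := d) hl ha hc
  have h3 : ∀ n : ℕ, ∫ ξ, Wz (Ψ ξ) i M τ ∂(GZ d) - ∫ ξ, Wz (Ψ ξ) i M s ∂(GZ d) ≤
      C * τ ^ 2 / ((n + 1 + 2 * M : ℕ) : ℝ) + C * s ^ 2 / ((n + 1 + 2 * M : ℕ) : ℝ) := by
    intro n
    haveI : NeZero (n + 1 + 2 * M) := ⟨by omega⟩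
    have e1 := hm (n + 1 + 2 * M) M i h1 (by omega) σ Ψ hΨ τ (by linarith)
    have e2 := hm (n + 1 + 2 * M) M i h1 (by omega) σ Ψ hΨ s hs
    have e3 := AL_anti hu ha (n + 1 + 2 * M) M i h1 (by omega) σ s τ (by linarith) hsτ
    have e4 := (abs_le.1 e1).2
    have e5 := (abs_le.1 e2).1
    linarith
  have h4 := (seq_tendsto M C τ).add (seq_tendsto M C s)
  rw [add_zero] at h4
  have h5 := ge_of_tendsto' h4 h3
  linarith

end

section

/-- the mass of `ψ` in the slab `|x_i| ≤ R` -/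
noncomputable def ms {d : ℕ} (i : Fin d) (R : ℝ) (ψ : Zd d → ℂ) : ℝ :=
  ∑' x : Zd d, if |(x i : ℝ)| ≤ R then ‖ψ x‖ ^ 2 else 0

/-- its Abel mean -/
noncomputable def mm {d : ℕ} (i : Fin d) (R τ : ℝ) (ψ : ℝ → Zd d → ℂ) : ℝ :=
  τ⁻¹ * ∫ t in Set.Ioi (0 : ℝ), Real.exp (-(t / τ)) * ms i R (ψ t)

variable {d : ℕ} {v : Zd d → ℝ} {ψ : ℝ → Zd d → ℂ}

theorem ms_nonneg (i : Fin d) (R : ℝ) (φ : Zd d → ℂ) : 0 ≤ ms i R φ :=
  tsum_nonneg fun x => by split_ifs <;> positivity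

theorem ms_le (h : Evol v ψ) (i : Fin d) (R : ℝ) (M : ℕ) (h1 : 1 ≤ M) (hM : 2 * R ≤ M) (t : ℝ) :
    ms i R (ψ t) ≤ 2 * ∑' x, fZ M (x i) * ‖ψ t x‖ ^ 2 := by
  have hM0 : (0 : ℝ) < M := by exact_mod_cast h1
  rw [← tsum_mul_left]
  have hs2 := (Cmp.obs_summable h h1 i t).mul_left 2
  have hle : ∀ x : Zd d, (if |(x i : ℝ)| ≤ R then ‖ψ t x‖ ^ 2 else 0) ≤
      2 * (fZ M (x i) * ‖ψ t x‖ ^ 2) := by
    intro x
    have h3 := Cmp.fZ_mem h1 (x i)
    split_ifs with hx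
    · have h4 : 1 / 2 ≤ fZ M (x i) := by
        unfold fZ
        apply le_max_of_le_right
        have h5 : |(x i : ℝ)| / M ≤ 1 / 2 := by
          rw [div_le_iff₀ hM0]
          linarith
        linarith
      have h6 : 0 ≤ ‖ψ t x‖ ^ 2 := by positivity
      nlinarith
    · have := mul_nonneg h3.1 (by positivity : 0 ≤ ‖ψ t x‖ ^ 2)
      positivity
  refine Summable.tsum_le_tsum hle ?_ hs2
  exact Summable.of_nonneg_of_le (fun x => by split_ifs <;> positivity) hle hs2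

theorem obs_int (h : Evol v ψ) {M : ℕ} (h1 : 1 ≤ M) (i : Fin d) {τ : ℝ} (hτ : 0 < τ) :
    IntegrableOn (fun t => Real.exp (-(t / τ)) * ∑' x, fZ M (x i) * ‖ψ t x‖ ^ 2)
      (Set.Ioi (0 : ℝ)) := by
  have h3 : IntegrableOn (fun t : ℝ => Real.exp (-(t / τ))) (Set.Ioi (0 : ℝ)) := by
    have := integrableOn_exp_mul_Ioi (a := -τ⁻¹) (by simpa using hτ) 0
    refine this.congr_fun (fun t _ => ?_) measurableSet_Ioi
    simp only
    congr 1
    rw [div_eq_mul_inv]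
    ring
  refine Integrable.mono' h3 ?_ ?_
  · apply Measurable.aestronglyMeasurable
    exact Measurable.mul (by fun_prop) (Cmp.obs_meas h h1 i)
  · refine Eventually.of_forall fun t => ?_
    have h4 := Cmp.obs_mem h h1 i t
    rw [Real.norm_eq_abs, abs_mul, abs_of_pos (Real.exp_pos _), abs_of_nonneg h4.1]
    have := Real.exp_pos (-(t / τ))
    nlinarith

theorem mm_nonneg (i : Fin d) (R τ : ℝ) (hτ : 0 < τ) (ψ : ℝ → Zd d → ℂ) : 0 ≤ mm i R τ ψ := by
  unfold mm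
  apply mul_nonneg (inv_nonneg.2 hτ.le)
  apply integral_nonneg
  intro t
  exact mul_nonneg (Real.exp_pos _).le (ms_nonneg _ _ _)

theorem mm_le (h : Evol v ψ) (i : Fin d) (R : ℝ) (M : ℕ) (h1 : 1 ≤ M) (hM : 2 * R ≤ M) (τ : ℝ)
    (hτ : 0 < τ) : mm i R τ ψ ≤ 2 * Wz ψ i M τ := by
  unfold mm Wz
  rw [mul_left_comm]
  apply mul_le_mul_of_nonneg_left _ (inv_nonneg.2 hτ.le)
  rw [← integral_const_mul]
  apply integral_mono_of_nonneg
  · refine Eventually.of_forall fun t => ?_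
    exact mul_nonneg (Real.exp_pos _).le (ms_nonneg _ _ _)
  · exact (obs_int h h1 i hτ).const_mul 2
  · refine Eventually.of_forall fun t => ?_
    have h2 := ms_le h i R M h1 hM t
    have := Real.exp_pos (-(t / τ))
    simp only
    nlinarith

theorem ms_summable (h : Evol v ψ) (i : Fin d) (R : ℝ) (t : ℝ) :
    Summable fun x : Zd d => if |(x i : ℝ)| ≤ R then ‖ψ t x‖ ^ 2 else 0 := by
  refine Summable.of_nonneg_of_le (fun x => by split_ifs <;> positivity) (fun x => ?_)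
    (h.mass t).summable
  split_ifs
  · exact le_rfl
  · positivity

theorem exp_int {τ : ℝ} (hτ : 0 < τ) :
    IntegrableOn (fun t : ℝ => Real.exp (-(t / τ))) (Set.Ioi (0 : ℝ)) ∧
      ∫ t in Set.Ioi (0 : ℝ), Real.exp (-(t / τ)) = τ := by
  have e1 : ∀ t : ℝ, Real.exp (-(t / τ)) = Real.exp (-τ⁻¹ * t) := by
    intro t
    congr 1
    rw [div_eq_mul_inv]
    ring
  have h0 : -τ⁻¹ < 0 := by simpa using hτ
  constructor
  · have := integrableOn_exp_mul_Ioi h0 0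
    exact this.congr_fun (fun t _ => (e1 t).symm) measurableSet_Ioi
  · have := integral_exp_mul_Ioi h0 0
    simp only [e1]
    rw [this]
    field_simp
    simp

theorem mm_le_one (h : Evol v ψ) (i : Fin d) (R τ : ℝ) (hτ : 0 < τ) : mm i R τ ψ ≤ 1 := by
  obtain ⟨h1, h2⟩ := exp_int hτ
  have h3 : ∫ t in Set.Ioi (0 : ℝ), Real.exp (-(t / τ)) * ms i R (ψ t) ≤
      ∫ t in Set.Ioi (0 : ℝ), Real.exp (-(t / τ)) := by
    apply integral_mono_of_nonneg
    · exact Eventually.of_forall fun t => mul_nonneg (Real.exp_pos _).le (ms_nonneg _ _ _)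
    · exact h1
    · refine Eventually.of_forall fun t => ?_
      have h4 : ms i R (ψ t) ≤ 1 := by
        rw [← (h.mass t).tsum_eq]
        exact (ms_summable h i R t).tsum_le_tsum (fun x => by
          split_ifs
          · exact le_rfl
          · positivity) (h.mass t).summable
      have := Real.exp_pos (-(t / τ))
      simp only
      nlinarith
  unfold mm
  rw [h2] at h3
  calc _ ≤ τ⁻¹ * τ := mul_le_mul_of_nonneg_left h3 (inv_nonneg.2 hτ.le)
    _ = 1 := inv_mul_cancel₀ hτ.ne'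

theorem mm_meas {σ : ℝ} {Ψ : (Zd d → ℝ) → ℝ → Zd d → ℂ}
    (hc : ∀ x : Zd d, Continuous fun p : (Zd d → ℝ) × ℝ => Ψ p.1 p.2 x)
    (hΨ : ∀ ξ, Evol (fun x => σ * ξ x) (Ψ ξ)) (i : Fin d) (R τ : ℝ) :
    Measurable fun ξ => mm i R τ (Ψ ξ) := by
  unfold mm
  apply Measurable.const_mul
  have h1 : Measurable fun p : (Zd d → ℝ) × ℝ => Real.exp (-(p.2 / τ)) * ms i R (Ψ p.1 p.2) := by
    apply Measurable.mul (by fun_prop)
    refine measurable_of_tendsto_metrizable' Filter.atTop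
      (f := fun (s : Finset (Zd d)) (p : (Zd d → ℝ) × ℝ) =>
        ∑ x ∈ s, if |(x i : ℝ)| ≤ R then ‖Ψ p.1 p.2 x‖ ^ 2 else 0) (fun s => ?_) ?_
    · apply Finset.measurable_sum
      intro x _
      split_ifs
      · exact ((hc x).norm.pow 2).measurable
      · exact measurable_const
    · rw [tendsto_pi_nhds]
      intro p
      exact (ms_summable (hΨ p.1) i R p.2).hasSum
  exact (h1.stronglyMeasurable.integral_prod_right' (ν := volume.restrict (Set.Ioi (0 : ℝ)))).measurable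

/-- the tent functional and the mass of a slab of the torus -/
theorem slab_le (ht : T_TENT) (L M : ℕ) [NeZero L] (i : Fin d) (h1 : 1 ≤ M) (h2 : M ≤ L)
    (u : T d L → ℂ) (R : ℝ) (hR : 2 * R ≤ M) (a : ZMod L) (S : Finset (T d L))
    (hS : ∀ x ∈ S, ∃ r : ℕ, (r : ℝ) ≤ R ∧ x i = a + (r : ZMod L)) :
    1 / 2 * (∑ x ∈ S, ‖u x‖ ^ 2) ^ 2 ≤ Phi i M (Matrix.vecMulVec u (star u)) := by
  obtain ⟨-, -, -, h3, -, h4, -⟩ := ht L M h1 h2
  have hM0 : (0 : ℝ) < M := by exact_mod_cast h1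
  have hlow : ∀ x ∈ S, ∀ y ∈ S, 1 / 2 ≤ ff M (x i - y i) := by
    intro x hx y hy
    obtain ⟨r, hr, hxr⟩ := hS x hx
    obtain ⟨r', hr', hyr⟩ := hS y hy
    have e1 : x i - y i = ((r : ℕ) : ZMod L) - ((r' : ℕ) : ZMod L) := by
      rw [hxr, hyr]
      ring
    rw [e1]
    have g1 : 2 * r ≤ M := by
      have : (2 * r : ℝ) ≤ M := by linarith
      exact_mod_cast this
    have g2 : 2 * r' ≤ M := by
      have : (2 * r' : ℝ) ≤ M := by linarith
      exact_mod_cast this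
    exact h4 r r' (by omega) (by omega) (by omega)
  have e2 : ∀ x y, ‖(Matrix.vecMulVec u (star u) : Matrix (T d L) (T d L) ℂ) x y‖ ^ 2 =
      ‖u x‖ ^ 2 * ‖u y‖ ^ 2 := by
    intro x y
    rw [Matrix.vecMulVec_apply, Pi.star_apply, norm_mul, norm_star]
    ring
  unfold Phi
  calc 1 / 2 * (∑ x ∈ S, ‖u x‖ ^ 2) ^ 2
      = ∑ x ∈ S, ∑ y ∈ S, 1 / 2 * (‖u x‖ ^ 2 * ‖u y‖ ^ 2) := by
        rw [sq, Finset.sum_mul_sum, Finset.mul_sum]
        exact Finset.sum_congr rfl fun x _ => by rw [Finset.mul_sum]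
    _ ≤ ∑ x ∈ S, ∑ y ∈ S, ff M (x i - y i) *
          ‖(Matrix.vecMulVec u (star u) : Matrix (T d L) (T d L) ℂ) x y‖ ^ 2 := by
        apply Finset.sum_le_sum
        intro x hx
        apply Finset.sum_le_sum
        intro y hy
        rw [e2]
        exact mul_le_mul_of_nonneg_right (hlow x hx y hy) (by positivity)
    _ ≤ ∑ x ∈ S, ∑ y, ff M (x i - y i) *
          ‖(Matrix.vecMulVec u (star u) : Matrix (T d L) (T d L) ℂ) x y‖ ^ 2 := by
        apply Finset.sum_le_sum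
        intro x hx
        apply Finset.sum_le_sum_of_subset_of_nonneg (Finset.subset_univ _)
        intro y _ _
        exact mul_nonneg (h3 _).1 (by positivity)
    _ ≤ _ := by
        apply Finset.sum_le_sum_of_subset_of_nonneg (Finset.subset_univ _)
        intro x _ _
        exact Finset.sum_nonneg fun y _ => mul_nonneg (h3 _).1 (by positivity)

end

section

instance (n : Type) [Fintype n] : IsProbabilityMeasure (GP n) := by
  show IsProbabilityMeasure (Measure.pi fun _ : n => gaussianReal 0 1)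
  infer_instance

theorem gp_neg (n : Type) [Fintype n] : (GP n).map (fun V x => -V x) = GP n := by
  unfold GP PP
  have h1 := Measure.pi_map_pi (μ := fun _ : n => gaussianReal 0 1)
    (f := fun _ (s : ℝ) => -s) (fun _ => measurable_neg.aemeasurable)
  simp only [gaussianReal_map_neg, neg_zero] at h1
  exact h1

/-- the mass of `u` in the part `x_i ∈ a + [0, R]` of the torus -/
noncomputable def sm {d L : ℕ} [NeZero L] (i : Fin d) (a : ZMod L) (R : ℝ) (u : T d L → ℂ) : ℝ :=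
  open Classical in ∑ x : T d L, if ∃ r : ℕ, (r : ℝ) ≤ R ∧ x i = a + (r : ZMod L) then ‖u x‖ ^ 2 else 0

/-- most eigenvectors are spread out -/
def Spread {d L : ℕ} [NeZero L] (R ε : ℝ) (H : Matrix (T d L) (T d L) ℂ) : Prop :=
  ∀ (u : T d L → T d L → ℂ) (E : T d L → ℝ), (∀ j, H *ᵥ u j = (E j : ℂ) • u j) →
    (∀ j k, star (u j) ⬝ᵥ u k = if j = k then 1 else 0) →
    open Classical in
    ((Finset.univ.filter fun j => ∃ (i : Fin d) (a : ZMod L), ε < sm i a R (u j)).card : ℝ) ≤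
      ε * NN d L

theorem spread_of (hu : T_UNI) (ht : T_TENT) {d L : ℕ} [NeZero L] (M : ℕ) (h1 : 1 ≤ M)
    (h2 : M ≤ L) (H : Matrix (T d L) (T d L) ℂ) (hH : H.IsHermitian) (R ε κ s0 : ℝ)
    (hR : 2 * R ≤ M) (hs0 : 0 < s0) (hε : 0 ≤ ε) (hκ : 0 < κ)
    (hW : ∀ i : Fin d, Wt H i M s0 ≤ κ ^ 2 * NN d L) (h3 : κ ≤ 1 / 2 * ε ^ 2)
    (h4 : d * κ ≤ ε) : Spread R ε H := by
  classical
  intro u E hE ho
  have hN := Pool.Agent.W788.MFP.Four.NN_pos (d := d) (L := L)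
  -- large values of the functional
  have hbig : ∀ i : Fin d, ((Finset.univ.filter fun j =>
      κ < Phi i M (Matrix.vecMulVec (u j) (star (u j)))).card : ℝ) ≤ κ * NN d L := by
    intro i
    have g1 := (hu d L M i h1 h2 H hH).2.2.1 u E hE ho s0 hs0
    have g0 : ∀ j, 0 ≤ Phi i M (Matrix.vecMulVec (u j) (star (u j))) := by
      intro j
      have := slab_le ht L M i h1 h2 (u j) R hR 0 ∅ (by simp)
      simpa using this
    have g2 : κ * ((Finset.univ.filter fun j =>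
        κ < Phi i M (Matrix.vecMulVec (u j) (star (u j)))).card : ℝ) ≤
        ∑ j, Phi i M (Matrix.vecMulVec (u j) (star (u j))) := by
      rw [mul_comm, ← nsmul_eq_mul, ← Finset.sum_const]
      calc _ ≤ ∑ j ∈ Finset.univ.filter fun j =>
            κ < Phi i M (Matrix.vecMulVec (u j) (star (u j))),
            Phi i M (Matrix.vecMulVec (u j) (star (u j))) :=
            Finset.sum_le_sum fun j hj => (Finset.mem_filter.1 hj).2.le
        _ ≤ _ := Finset.sum_le_sum_of_subset_of_nonneg (Finset.filter_subset _ _)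
            fun j _ _ => g0 j
    have g3 := (g2.trans g1).trans (hW i)
    have g4 : κ * ((Finset.univ.filter fun j =>
        κ < Phi i M (Matrix.vecMulVec (u j) (star (u j)))).card : ℝ) ≤ κ * (κ * NN d L) := by
      refine g3.trans (le_of_eq ?_)
      ring
    exact le_of_mul_le_mul_left g4 hκ
  have hsub : (Finset.univ.filter fun j => ∃ (i : Fin d) (a : ZMod L), ε < sm i a R (u j)) ⊆
      Finset.univ.biUnion fun i : Fin d => Finset.univ.filter fun j =>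
        κ < Phi i M (Matrix.vecMulVec (u j) (star (u j))) := by
    intro j hj
    obtain ⟨i, a, hia⟩ := (Finset.mem_filter.1 hj).2
    rw [Finset.mem_biUnion]
    refine ⟨i, Finset.mem_univ _, Finset.mem_filter.2 ⟨Finset.mem_univ _, ?_⟩⟩
    have g1 := slab_le ht L M i h1 h2 (u j) R hR a
      (Finset.univ.filter fun x : T d L => ∃ r : ℕ, (r : ℝ) ≤ R ∧ x i = a + (r : ZMod L))
      (fun x hx => (Finset.mem_filter.1 hx).2)
    rw [Finset.sum_filter] at g1
    have g2 : ε < ∑ x : T d L, if ∃ r : ℕ, (r : ℝ) ≤ R ∧ x i = a + (r : ZMod L) then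
        ‖u j x‖ ^ 2 else 0 := by
      unfold sm at hia
      convert hia
    have g3 : ε ^ 2 < (∑ x : T d L, if ∃ r : ℕ, (r : ℝ) ≤ R ∧ x i = a + (r : ZMod L) then
        ‖u j x‖ ^ 2 else 0) ^ 2 := by gcongr
    linarith
  calc _ ≤ ((Finset.univ.biUnion fun i : Fin d => Finset.univ.filter fun j =>
        κ < Phi i M (Matrix.vecMulVec (u j) (star (u j)))).card : ℝ) := by
        have := Finset.card_le_card hsub
        have h5 : ((Finset.univ.filter fun j => ∃ (i : Fin d) (a : ZMod L),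
          ε < sm i a R (u j)).card : ℝ) ≤ ((Finset.univ.biUnion fun i : Fin d =>
            Finset.univ.filter fun j =>
              κ < Phi i M (Matrix.vecMulVec (u j) (star (u j)))).card : ℝ) := by
          exact_mod_cast this
        convert h5
    _ ≤ ∑ i : Fin d, ((Finset.univ.filter fun j =>
        κ < Phi i M (Matrix.vecMulVec (u j) (star (u j)))).card : ℝ) := by
        exact_mod_cast Finset.card_biUnion_le
    _ ≤ ∑ _i : Fin d, κ * NN d L := Finset.sum_le_sum fun i _ => hbig i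
    _ = d * κ * NN d L := by
        rw [Finset.sum_const, Finset.card_univ, Fintype.card_fin, nsmul_eq_mul]
        ring
    _ ≤ ε * NN d L := by gcongr

/-- Markov inequality for the time averages -/
theorem markov (hu : T_UNI) (ha : T_AVG) {d L : ℕ} [NeZero L] (M : ℕ) (h1 : 1 ≤ M)
    (h2 : M ≤ L) (σ s0 A κ : ℝ) (hs0 : 0 < s0) (hκ : 0 < κ)
    (hA : ∀ i : Fin d, AL d L σ i M s0 ≤ A) : ∃ Ω : Set (T d L → ℝ), MeasurableSet Ω ∧
      1 - d * (A / κ ^ 2) ≤ (GP (T d L)).real Ω ∧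
      ∀ V ∈ Ω, ∀ i : Fin d, Wt (HT (d := d) (L := L) σ V) i M s0 ≤ κ ^ 2 * NN d L := by
  have hN := Pool.Agent.W788.MFP.Four.NN_pos (d := d) (L := L)
  obtain ⟨B, hB⟩ : ∃ B : Fin d → Set (T d L → ℝ), B = fun i =>
      {V | κ ^ 2 * NN d L < Wt (HT (d := d) (L := L) σ V) i M s0} := ⟨_, rfl⟩
  have hBm : ∀ i, MeasurableSet (B i) := by
    intro i
    rw [hB]
    exact measurableSet_lt measurable_const (ha d L M i h1 h2 σ s0 hs0).2.1
  have hint : ∀ i : Fin d, Integrable (fun V : T d L → ℝ => Wt (HT (d := d) (L := L) σ V) i M s0)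
      (GP (T d L)) := by
    intro i
    apply Integrable.of_bound (ha d L M i h1 h2 σ s0 hs0).2.1.aestronglyMeasurable (NN d L)
    refine Eventually.of_forall fun V => ?_
    have := (hu d L M i h1 h2 (HT σ V) (HT_herm σ V)).2.1 s0 hs0
    rw [Real.norm_eq_abs, abs_of_nonneg this.1]
    exact this.2
  have hBP : ∀ i, (GP (T d L)).real (B i) ≤ A / κ ^ 2 := by
    intro i
    have g1 := mul_meas_ge_le_integral_of_nonneg (μ := GP (T d L))
      (f := fun V : T d L → ℝ => Wt (HT (d := d) (L := L) σ V) i M s0)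
      (Eventually.of_forall fun V =>
        ((hu d L M i h1 h2 (HT σ V) (HT_herm σ V)).2.1 s0 hs0).1) (hint i) (κ ^ 2 * NN d L)
    have g2 : (GP (T d L)).real (B i) ≤ (GP (T d L)).real
        {V | κ ^ 2 * NN d L ≤ Wt (HT (d := d) (L := L) σ V) i M s0} := by
      apply measureReal_mono
      · intro V hV
        rw [hB] at hV
        have hV' : κ ^ 2 * NN d L < Wt (HT (d := d) (L := L) σ V) i M s0 := hV
        exact hV'.le
      · exact measure_ne_top _ _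
    have g3 : ∫ V, Wt (HT (d := d) (L := L) σ V) i M s0 ∂(GP (T d L)) ≤ A * NN d L := by
      have := hA i
      unfold AL at this
      rw [inv_mul_le_iff₀ hN] at this
      linarith
    rw [le_div_iff₀ (by positivity)]
    have g4 : (κ ^ 2 * NN d L) * (GP (T d L)).real (B i) ≤ A * NN d L := by
      refine le_trans ?_ (g1.trans g3)
      gcongr
    have g5 : NN d L * ((GP (T d L)).real (B i) * κ ^ 2) ≤ NN d L * A := by
      calc _ = (κ ^ 2 * NN d L) * (GP (T d L)).real (B i) := by ring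
        _ ≤ A * NN d L := g4
        _ = _ := by ring
    exact le_of_mul_le_mul_left g5 hN
  refine ⟨(⋃ i, B i)ᶜ, (MeasurableSet.iUnion hBm).compl, ?_, ?_⟩
  · rw [probReal_compl_eq_one_sub (MeasurableSet.iUnion hBm)]
    have g1 : (GP (T d L)).real (⋃ i, B i) ≤ ∑ i, (GP (T d L)).real (B i) :=
      measureReal_iUnion_fintype_le B
    have g2 : ∑ i, (GP (T d L)).real (B i) ≤ ∑ _i : Fin d, A / κ ^ 2 :=
      Finset.sum_le_sum fun i _ => hBP i
    rw [Finset.sum_const, Finset.card_univ, Fintype.card_fin, nsmul_eq_mul] at g2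
    linarith
  · intro V hV i
    by_contra hcon
    rw [not_le] at hcon
    apply hV
    rw [Set.mem_iUnion]
    refine ⟨i, ?_⟩
    rw [hB]
    exact hcon

end

end Pool.Agent.T2h98.QD.W
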