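import Pool.Agent.T2h98.QD.Stm

/-! Numerical statements. -/

set_option autoImplicit false
set_option linter.unusedSectionVars false

open scoped BigOperators Matrix
open MeasureTheory ProbabilityTheory

namespace Pool.Agent.T2h98.QD

open Pool.Agent.W788.MFP.Four (T e NN adj K)
open Pool.Agent.W788.BK (nsq hs PP JJ hi Low cr)

/-- the choice of the parameters -/
def T_NUM : Prop := ∀ (d : ℕ) (x s : ℝ), 3 ≤ d → 0 ≤ x → 0 < s → s ≤ 1 / 100 →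
  (x + 13 * s) * (7 / 2 + 1 / (d : ℝ)) ≤ 1 - 1 / (d : ℝ) →
  ∀ C1 C2 C3 : ℝ, 0 < C1 → 0 < C2 → 0 < C3 → ∃ y0 : ℝ, 1 ≤ y0 ∧ ∀ y : ℝ, y0 ≤ y →
  ∀ σ δ η θ m0 q0 cb Q0 g g' cn ν κ γ : ℝ, σ = Real.exp (-y) → δ = Real.exp (-(2 - s) * y) →
  η = Real.exp (-(x + 12 * s) * y) →
  θ = Real.exp (-((2 + 2 * x + 23 * s) / (d : ℝ)) * y) / 2 →
  m0 = Real.exp (-s * y) → q0 = Real.exp (-(2 + x / 2 + s) * y) →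
  cb = Real.exp (-(2 * s) * y) →
  Q0 = C1 * Real.log (1 / δ) ^ 2 / Real.sqrt (δ * θ) → g = C2 * Real.log (1 / (η * δ)) →
  g' = C3 * Real.log (1 / (η * δ)) ^ 2 → cn = 2 * (2 * θ) ^ d → ν = σ ^ 2 * Q0 / η ^ 2 →
  κ = σ ^ 2 * (Real.sqrt (2 * ν) * Real.sqrt (Q0 * g / (η ^ 3 * δ))) →
  γ = Real.exp (-(x + 8 * s) * y) / 2 →
  δ ≤ 1 / 2 ∧ η * δ ≤ 1 / 2 ∧ η ≤ 1 ∧ θ ≤ 1 ∧ ν ≤ 1 / 2 ∧ κ ≤ 1 / 16 ∧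
  2 * σ ^ 2 * (g + cn / (η * δ)) ≤ δ ∧ 3 * η * δ * g ≤ σ ^ 2 * m0 ^ 2 / 8 ∧
  cn / (η * δ) ≤ m0 / 16 ∧ η * δ ≤ σ ^ 2 * m0 ∧ cb ≤ 1 ∧ 4 * cb * g' ≤ m0 / 8 ∧
  γ ≤ 1 / 4 * (2 * q0 * cb / (8 * σ ^ 2 * g + 2 * q0 * cb)) ^ 2 -
    (κ + cn / (η * δ) / m0) ∧
  (∀ M : ℝ, 0 ≤ M → M ≤ 5 * Real.exp ((2 + x / 2) * y) →
    m0 + 8 * M * q0 * (g + cn / (η * δ)) + (η * δ * (g / (σ ^ 2 * m0)) +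
      6 * (κ * (2 * (g + cn / (η * δ))) + cn / (η * δ))) / γ ≤ Real.exp (-(s / 2) * y)) ∧
  ∀ L : ℝ, Real.exp (7 * y) ≤ L → (1 + 4 / δ) ^ 3 ≤ L ^ 2 ∧ 1 / L ≤ η * δ ∧ 1 / L ≤ δ ∧
    1 ≤ θ * L ∧ 1 / L ≤ cb ∧ 1 / L ≤ q0 ∧ 10 * Real.exp ((2 + x / 2) * y) ≤ L

/-- the good event -/
def T_PROB : Prop := ∀ (d : ℕ) (x s : ℝ), 3 ≤ d → 0 ≤ x → 0 < s → s ≤ 1 / 100 →
  (x + 13 * s) * (7 / 2 + 1 / (d : ℝ)) ≤ 1 - 1 / (d : ℝ) → ∃ y0 : ℝ, 1 ≤ y0 ∧ ∀ y : ℝ, y0 ≤ y →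
  ∀ σ δ η θ : ℝ, σ = Real.exp (-y) → δ = Real.exp (-(2 - s) * y) →
  η = Real.exp (-(x + 12 * s) * y) →
  θ = Real.exp (-((2 + 2 * x + 23 * s) / (d : ℝ)) * y) / 2 →
  ∀ (L : ℕ) [NeZero L], Real.exp (7 * y) ≤ L → (L : ℝ) ≤ Real.exp (8 * y) →
  ∃ Ω : Set (T d L → ℝ), MeasurableSet Ω ∧ (GP (T d L)).real Ωᶜ ≤ Real.exp (-s * y) ∧
    ∀ ξ ∈ Ω, (∀ (E : ℝ) (w : T d L → ℝ), |∑ z, ξ z * w z ^ 2| ≤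
        Real.exp y / 2 * Pool.Agent.W788.MFP.Four.q (JJ E δ) w) ∧
      (∀ z : T d L, |σ * ∑ y, ξ y * K (fun Q => 1 - hi θ Q) (z - y)| ≤ η * δ) ∧
      ∀ z : T d L, |σ * ξ z| ≤ 1

end Pool.Agent.T2h98.QD
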