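import Pool.Agent.T2h98.QD.Avg2
import Pool.Agent.T2h98.QD.Stm3

/-! The averaged time evolution on the torus: choice of the parameters. -/

set_option autoImplicit false
set_option linter.unusedSectionVars false

open scoped BigOperators Matrix
open MeasureTheory ProbabilityTheory

namespace Pool.Agent.T2h98.QD

open Pool.Agent.W788.MFP.Four (T e NN adj K)
open Pool.Agent.W788.BK (nsq hs PP JJ hi Low cr nsq_nonneg S_QB S_LOW)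
open Pool.Agent.W240.BK (BC BM)

/-- the facts used below -/
structure Facts : Prop where
  poin : T_POIN
  ibp : T_IBP
  kq : T_KQ
  psi : T_PSI
  inv : T_INV
  slice : T_SLICE
  badk : T_BADK
  smq : T_SMQ
  gap : T_GAP
  tent : T_TENT
  phi : T_PHI
  win : T_WIN
  uni : T_UNI
  avg : T_AVG
  num : T_NUM
  prob : T_PROB
  qb : S_QB
  low : S_LOW

theorem torus_main (F : Facts) (d : ℕ) (hd : 3 ≤ d) (x s : ℝ) (hx : 0 ≤ x) (hs : 0 < s)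
    (hs1 : s ≤ 1 / 100) (hxs : (x + 13 * s) * (7 / 2 + 1 / (d : ℝ)) ≤ 1 - 1 / (d : ℝ)) :
    ∃ y0 : ℝ, 1 ≤ y0 ∧ ∀ y : ℝ, y0 ≤ y → ∀ (L M : ℕ) [NeZero L] (i : Fin d),
      Real.exp (7 * y) ≤ L → (L : ℝ) ≤ Real.exp (8 * y) → 1 ≤ M →
      (M : ℝ) ≤ 5 * Real.exp ((2 + x / 2) * y) → 2 * M ≤ L ∧
      ∀ τ : ℝ, Real.exp ((2 + x + 11 * s) * y) ≤ τ →
      (NN d L)⁻¹ * ∫ V, Wt (HT (d := d) (L := L) (Real.exp (-y)) V) i M τ ∂(GP (T d L)) ≤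
        (1 + 2048 * (6 * d + 6)) * Real.exp (-(s / 2) * y) := by
  obtain ⟨C1, hC1, hqb⟩ := F.qb
  obtain ⟨C3, hC3, hsl⟩ := F.slice
  obtain ⟨C2, hC2⟩ : ∃ C2, C2 = 2 + 8 * Pool.Agent.W788.MFP.Dos.C3 := ⟨_, rfl⟩
  have hC20 : 0 < C2 := by
    rw [hC2]
    unfold Pool.Agent.W788.MFP.Dos.C3
    norm_num
  obtain ⟨y1, hy1, hnum⟩ := F.num d x s hd hx hs hs1 hxs C1 C2 C3 hC1 hC20 hC3
  obtain ⟨y2, hy2, hprob⟩ := F.prob d x s hd hx hs hs1 hxs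
  refine ⟨max y1 y2, hy1.trans (le_max_left _ _), ?_⟩
  intro y hy L M _ i hL1 hL2 hM1 hM2
  have hyy1 := (le_max_left y1 y2).trans hy
  have hyy2 := (le_max_right y1 y2).trans hy
  have hy0 : 1 ≤ y := hy1.trans hyy1
  obtain ⟨σ, hσ⟩ : ∃ σ, σ = Real.exp (-y) := ⟨_, rfl⟩
  obtain ⟨δ, hδ⟩ : ∃ δ, δ = Real.exp (-(2 - s) * y) := ⟨_, rfl⟩
  obtain ⟨η, hη⟩ : ∃ η, η = Real.exp (-(x + 12 * s) * y) := ⟨_, rfl⟩
  obtain ⟨θ, hθ⟩ : ∃ θ, θ = Real.exp (-((2 + 2 * x + 23 * s) / (d : ℝ)) * y) / 2 := ⟨_, rfl⟩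
  obtain ⟨m0, hm0⟩ : ∃ m0, m0 = Real.exp (-s * y) := ⟨_, rfl⟩
  obtain ⟨q0, hq0⟩ : ∃ q0, q0 = Real.exp (-(2 + x / 2 + s) * y) := ⟨_, rfl⟩
  obtain ⟨cb, hcb⟩ : ∃ cb, cb = Real.exp (-(2 * s) * y) := ⟨_, rfl⟩
  obtain ⟨Q0, hQ0⟩ : ∃ Q0, Q0 = C1 * Real.log (1 / δ) ^ 2 / Real.sqrt (δ * θ) := ⟨_, rfl⟩
  obtain ⟨g, hg⟩ : ∃ g, g = C2 * Real.log (1 / (η * δ)) := ⟨_, rfl⟩
  obtain ⟨g', hg'⟩ : ∃ g', g' = C3 * Real.log (1 / (η * δ)) ^ 2 := ⟨_, rfl⟩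
  obtain ⟨cn, hcn⟩ : ∃ cn, cn = 2 * (2 * θ) ^ d := ⟨_, rfl⟩
  obtain ⟨ν, hν⟩ : ∃ ν, ν = σ ^ 2 * Q0 / η ^ 2 := ⟨_, rfl⟩
  obtain ⟨γ, hγ⟩ : ∃ γ, γ = Real.exp (-(x + 8 * s) * y) / 2 := ⟨_, rfl⟩
  obtain ⟨n1, n2, n3, n4, n5, n6, n7, n8, n9, n10, n11, n12, n13, n14, n15⟩ :=
    hnum y hyy1 σ δ η θ m0 q0 cb Q0 g g' cn ν (kap σ δ η ν Q0 g) γ hσ hδ hη hθ hm0 hq0 hcb hQ0 hg
      hg' hcn hν rfl hγ
  obtain ⟨l1, l2, l3, l4, l5, l6, l7⟩ := n15 L hL1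
  have hσ0 : 0 < σ := by rw [hσ]; positivity
  have hδ0 : 0 < δ := by rw [hδ]; positivity
  have hη0 : 0 < η := by rw [hη]; positivity
  have hθ0 : 0 < θ := by rw [hθ]; positivity
  have hm00 : 0 < m0 := by rw [hm0]; positivity
  have hγ0 : 0 < γ := by rw [hγ]; positivity
  have hηδ0 : 0 < η * δ := mul_pos hη0 hδ0
  have hlogηδ : 0 < Real.log (1 / (η * δ)) := Real.log_pos (by
    rw [lt_div_iff₀ hηδ0]
    linarith)
  have hg0 : 0 ≤ g := by rw [hg]; positivity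
  have hQ00 : 0 ≤ Q0 := by rw [hQ0]; positivity
  have hL0 : (0 : ℝ) < L := by exact_mod_cast Nat.pos_of_ne_zero (NeZero.ne L)
  have h2M : 2 * M ≤ L := by
    have h1 : (2 * M : ℝ) ≤ L := by linarith
    exact_mod_cast h1
  refine ⟨h2M, ?_⟩
  intro τ hτ
  have hM2' : M ≤ L := by omega
  -- the parameters
  have hpar : ∀ E : ℝ, Par d L σ E δ θ η ν Q0 g cn := fun E => {
    hσ := hσ0
    hδ := hδ0
    hη := hη0
    hQ0 := hQ00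
    hQ := fun P hP => by
      rw [hQ0]
      exact hqb d L hd θ δ E hθ0 n4 hδ0 n1 l1 P hP
    hν := by
      rw [hν]
      apply le_of_eq
      field_simp
    hν2 := n5
    hg0 := hg0
    hg := fun E' => by
      have h1 := Pool.Agent.W788.MFP.Dos.green (L := L) d hd E' (η * δ) l2 n2
      have hN := Pool.Agent.W788.MFP.Four.NN_pos (d := d) (L := L)
      rw [inv_mul_le_iff₀ hN, ← hC2, ← hg] at h1
      exact h1.trans (le_of_eq (mul_comm _ _))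
    hcn := by
      rw [hcn]
      exact F.low d L θ hθ0.le n4 l4 }
  obtain ⟨Ω, hΩ, hΩP, hgood⟩ := hprob y hyy2 σ δ η θ hσ hδ hη hθ L hL1 hL2
  obtain ⟨n, rfl⟩ : ∃ n, d = n + 1 := ⟨d - 1, by omega⟩
  have hB : ∀ E : ℝ, η * δ * ((NN (n + 1) L)⁻¹ * ∫ V, Phi i M
      (Gt (d := n + 1) (L := L) σ E δ θ η V) ∂(GP (T (n + 1) L))) ≤
      Real.exp (-(s / 2) * y) := by
    intro E
    have h1 := energy F.poin F.ibp F.kq F.psi F.inv F.gap F.badk F.smq F.tent F.phi (hpar E) n6 i M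
      hM1 hM2' cb q0 m0 g' γ hm00 n7 n8 n9 n10 l5 n11 (fun t => by
        rw [hg']
        exact hsl n L (by omega) t (η * δ) l2 n2) n12 l6 hγ0 n13
    exact h1.trans (n14 M (Nat.cast_nonneg M) hM2)
  have hexp0 := Real.exp_pos (-(s / 2) * y)
  have h1 := torus_wt F.kq F.tent F.phi F.win F.uni F.avg i M hM1 hM2' σ δ η θ (Real.exp y / 2) τ
    (Real.exp (-(s / 2) * y)) hσ0 hδ0 hη0 n3 n2 (by positivity) (by
      rw [hσ, Real.exp_neg]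
      have := Real.exp_pos y
      apply le_of_eq
      field_simp) (by
      have h2 : η * δ * Real.exp ((2 + x + 11 * s) * y) = 1 := by
        rw [hη, hδ, ← Real.exp_add, ← Real.exp_add, ← Real.exp_zero]
        congr 1
        ring
      calc (1 : ℝ) = η * δ * Real.exp ((2 + x + 11 * s) * y) := h2.symm
        _ ≤ η * δ * τ := by gcongr) hexp0.le (fun E => ⟨ν, Q0, g, cn, hpar E⟩) hB Ω hΩ hgood
  rw [hσ] at h1
  refine h1.trans ?_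
  have h3 : (GP (T (n + 1) L)).real Ωᶜ ≤ Real.exp (-(s / 2) * y) := by
    refine hΩP.trans (Real.exp_le_exp.2 ?_)
    nlinarith
  calc _ ≤ Real.exp (-(s / 2) * y) + 2048 * (6 * ((n + 1 : ℕ) : ℝ) + 6) *
        Real.exp (-(s / 2) * y) := by gcongr
    _ = _ := by ring

end Pool.Agent.T2h98.QD
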