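import Pool.Agent.T2h98.QD.Stm9b

/-! Continuity in time: statements. -/

set_option autoImplicit false
set_option linter.unusedSectionVars false

open scoped BigOperators Matrix Topology
open MeasureTheory ProbabilityTheory Filter

namespace Pool.Agent.T2h98.QD

open Pool.Agent.W788.MFP.Four (T e NN adj K)
open Pool.Agent.W788.BK (nsq hs PP JJ hi Low cr)

/-- the characteristic function of the position on the torus -/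
noncomputable def Ft {d L : ℕ} [NeZero L] (q : T d L) (σ : ℝ) (V : T d L → ℝ) (t : ℝ) : ℂ :=
  ∑ x, e q x * ((‖ev (HT (d := d) (L := L) σ V) t x 0‖ ^ 2 : ℝ) : ℂ)

/-- continuity in time on the torus -/
def T_EQT : Prop := ∀ (d L : ℕ) [NeZero L] (q : T d L) (σ t t' S : ℝ), 0 ≤ t' → t' ≤ t →
  t ≤ t' + S → 0 < S →
  ∫ V, ‖Ft q σ V t - Ft q σ V t'‖ ^ 2 ∂(GP (T d L)) ≤
    8 * (1 - (((S⁻¹ : ℝ) : ℂ) * ∫ s in Set.Ioi (0 : ℝ), ((Real.exp (-(s / S)) : ℝ) : ℂ) *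
      ∫ V, Ft q σ V s ∂(GP (T d L))).re)

/-- continuity in time on the lattice -/
def T_EQL : Prop := ∀ (d : ℕ) (Ψ : (Zd d → ℝ) → ℝ → Zd d → ℂ), (∀ v, Evol v (Ψ v)) →
  ∀ q : Fin d → ℝ, (∀ i, |q i| ≤ 1) → ∀ σ t t' S : ℝ, 0 ≤ t' → t' ≤ t → t ≤ t' + S → 0 < S →
  ∫ ξ, ‖Fz q (Ψ (fun x => σ * ξ x) t) - Fz q (Ψ (fun x => σ * ξ x) t')‖ ^ 2 ∂(GZ d) ≤
    8 * (1 - (((S⁻¹ : ℝ) : ℂ) * ∫ s in Set.Ioi (0 : ℝ), ((Real.exp (-(s / S)) : ℝ) : ℂ) *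
      FF Ψ q σ s).re)

end Pool.Agent.T2h98.QD
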