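import Pool.Agent.T2h98.QD.All4
import Pool.Agent.T2h98.QD.Stm11

/-! The diffusive limit at fixed times. -/

set_option autoImplicit false
set_option linter.unusedSectionVars false

open scoped BigOperators Matrix Topology
open MeasureTheory ProbabilityTheory Filter

namespace Pool.Agent.T2h98.QD.U

/-- `F0` is continuous in the time -/
theorem F0_cont {d : ℕ} (hd : 3 ≤ d) (Q : Fin d → ℝ) : ContinuousOn (F0 d Q) (Set.Ici 0) := by
  obtain ⟨c1, c2, p1, p2, -⟩ := dosF d hd
  obtain ⟨-, -, i1, -⟩ := lap dosF d hd Q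
  have hQ : 0 ≤ ∑ i, Q i ^ 2 := Finset.sum_nonneg fun i _ => sq_nonneg _
  intro s hs
  unfold F0
  have hm : ∀ s : ℝ, AEStronglyMeasurable (fun E : ℝ => dn d E *
      Real.exp (-(s * (∑ i, Q i ^ 2) * (dw d E / (2 * Real.pi * dn d E ^ 2))))) volume := by
    intro s
    have m1 := c1.measurable
    have m2 := c2.measurable
    apply Measurable.aestronglyMeasurable
    fun_prop
  refine continuousWithinAt_of_dominated (bound := fun E => dn d E)
    (Eventually.of_forall fun s => hm s) ?_ i1 (Eventually.of_forall fun E => ?_)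
  · filter_upwards [self_mem_nhdsWithin] with t ht
    refine Eventually.of_forall fun E => ?_
    have ht' : 0 ≤ t := ht
    have h1 : Real.exp (-(t * (∑ i, Q i ^ 2) * (dw d E / (2 * Real.pi * dn d E ^ 2)))) ≤ 1 := by
      apply Real.exp_le_one_iff.2
      have h2 : 0 ≤ dw d E / (2 * Real.pi * dn d E ^ 2) :=
        div_nonneg (p2 E) (by positivity)
      have := mul_nonneg (mul_nonneg ht' hQ) h2
      linarith
    rw [Real.norm_eq_abs, abs_of_nonneg (mul_nonneg (p1 E) (Real.exp_pos _).le)]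
    have := p1 E
    have h3 := Real.exp_pos (-(t * (∑ i, Q i ^ 2) * (dw d E / (2 * Real.pi * dn d E ^ 2))))
    nlinarith
  · apply Continuous.continuousWithinAt
    fun_prop

/-- the Abel means tend to one for short times -/
theorem fl_lim {d : ℕ} (hd : 3 ≤ d) (Q : Fin d → ℝ) :
    Tendsto (fun κ : ℝ => ∫ E, fl d Q κ E) (𝓝[>] 0) (𝓝 1) := by
  obtain ⟨c1, c2, p1, p2, -⟩ := dosF d hd
  obtain ⟨-, -, i1, i2, -⟩ := lap dosF d hd Q
  have hQ : 0 ≤ ∑ i, Q i ^ 2 := Finset.sum_nonneg fun i _ => sq_nonneg _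
  rw [← i2]
  refine tendsto_integral_filter_of_dominated_convergence (fun E => dn d E) ?_ ?_ i1 ?_
  · refine Eventually.of_forall fun κ => ?_
    have m1 := c1.measurable
    have m2 := c2.measurable
    apply Measurable.aestronglyMeasurable
    unfold fl
    fun_prop
  · filter_upwards [self_mem_nhdsWithin] with κ hκ
    refine Eventually.of_forall fun E => ?_
    have hκ' : 0 < κ := hκ
    have h2 : 0 ≤ dw d E / (2 * Real.pi * dn d E ^ 2) := div_nonneg (p2 E) (by positivity)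
    have h3 := mul_nonneg (mul_nonneg hκ'.le hQ) h2
    unfold fl
    rw [Real.norm_eq_abs, abs_of_nonneg (div_nonneg (p1 E) (by linarith))]
    exact div_le_self (p1 E) (by linarith)
  · refine Eventually.of_forall fun E => ?_
    have h4 : ContinuousAt (fun κ : ℝ => fl d Q κ E) 0 := by
      unfold fl
      apply ContinuousAt.div continuousAt_const
      · fun_prop
      · simp
    have h5 := h4.tendsto
    have h6 : fl d Q 0 E = dn d E := by
      unfold fl
      simp
    rw [h6] at h5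
    exact h5.mono_left nhdsWithin_le_nhds

/-- a mean square bound gives a mean bound -/
theorem l1_of_l2 {X : Type} [MeasurableSpace X] (μ : Measure X) [IsProbabilityMeasure μ]
    (f : X → ℂ) (hf : AEStronglyMeasurable f μ) {B δ : ℝ} (hb : ∀ x, ‖f x‖ ≤ B) (hδ : 0 < δ)
    (h : ∫ x, ‖f x‖ ^ 2 ∂μ ≤ δ ^ 2) : ∫ x, ‖f x‖ ∂μ ≤ δ := by
  have i2 : Integrable (fun x => ‖f x‖ ^ 2) μ := by
    refine Integrable.of_bound (hf.norm.pow 2) (B ^ 2) (Eventually.of_forall fun x => ?_)
    rw [Real.norm_eq_abs, abs_of_nonneg (by positivity)]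
    have := hb x
    gcongr
  have i1 : Integrable (fun x => ‖f x‖) μ := by
    refine Integrable.of_bound hf.norm B (Eventually.of_forall fun x => ?_)
    rw [Real.norm_eq_abs, abs_of_nonneg (norm_nonneg _)]
    exact hb x
  have h1 : ∫ x, ‖f x‖ ∂μ ≤ ∫ x, ((2 * δ)⁻¹ * ‖f x‖ ^ 2 + δ / 2) ∂μ := by
    apply integral_mono i1 ((i2.const_mul _).add (integrable_const _))
    intro x
    have h2 : 0 ≤ (‖f x‖ - δ) ^ 2 := sq_nonneg _
    have h3 : ‖f x‖ * (2 * δ) ≤ ((2 * δ)⁻¹ * ‖f x‖ ^ 2 + δ / 2) * (2 * δ) := by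
      have : ((2 * δ)⁻¹ * ‖f x‖ ^ 2 + δ / 2) * (2 * δ) = ‖f x‖ ^ 2 + δ ^ 2 := by
        field_simp
      rw [this]
      linarith
    exact le_of_mul_le_mul_right h3 (by positivity)
  rw [integral_add (i2.const_mul _) (integrable_const _), integral_const_mul] at h1
  simp only [integral_const, probReal_univ, smul_eq_mul, one_mul] at h1
  have h4 : (2 * δ)⁻¹ * ∫ x, ‖f x‖ ^ 2 ∂μ ≤ (2 * δ)⁻¹ * δ ^ 2 := by gcongr
  have h5 : (2 * δ)⁻¹ * δ ^ 2 = δ / 2 := by field_simp
  linarith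

/-- one time from time averages -/
theorem one_time {X : Type} [MeasurableSpace X] (μ : Measure X) [IsProbabilityMeasure μ]
    (f : X → ℝ → ℂ) (hf : Measurable fun p : X × ℝ => f p.1 p.2) (hb : ∀ x t, ‖f x t‖ ≤ 1)
    (F : ℝ → ℝ) {s κ δ : ℝ} (hκ : 0 < κ) (hδ : 0 < δ)
    (h : ∀ t, s ≤ t → t ≤ s + κ → ∫ x, ‖f x t - f x s‖ ^ 2 ∂μ ≤ δ ^ 2) :
    ∫ x, ‖f x s - (F s : ℂ)‖ ∂μ ≤ δ + κ⁻¹ * ∫ x, ‖(∫ t in s..(s + κ), f x t) -
      ((∫ t in s..(s + κ), F t : ℝ) : ℂ)‖ ∂μ + |κ⁻¹ * (∫ t in s..(s + κ), F t) - F s| := by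
  have hsk : s ≤ s + κ := by linarith
  have mf : ∀ x, Measurable (f x) := fun x => hf.comp measurable_prodMk_left
  have mt : ∀ t, Measurable fun x => f x t := fun t => hf.comp measurable_prodMk_right
  have ii : ∀ x, IntervalIntegrable (f x) volume s (s + κ) := by
    intro x
    rw [intervalIntegrable_iff_integrableOn_Ioc_of_le hsk]
    refine Measure.integrableOn_of_bounded (M := 1) (by simp)
      (mf x).aestronglyMeasurable (Eventually.of_forall fun t => hb x t)
  have in1 : ∀ x, IntervalIntegrable (fun t => ‖f x t - f x s‖) volume s (s + κ) := by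
    intro x
    rw [intervalIntegrable_iff_integrableOn_Ioc_of_le hsk]
    refine Measure.integrableOn_of_bounded (M := 2) (by simp)
      (by
        apply Measurable.aestronglyMeasurable
        exact ((mf x).sub_const _).norm) (Eventually.of_forall fun t => ?_)
    rw [norm_norm]
    have := norm_sub_le (f x t) (f x s)
    have h1 := hb x t
    have h2 := hb x s
    linarith
  have mI : Measurable fun x => ∫ t in s..(s + κ), f x t := by
    simp only [intervalIntegral.integral_of_le hsk]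
    exact (hf.stronglyMeasurable.integral_prod_right'
      (ν := volume.restrict (Set.Ioc s (s + κ)))).measurable
  have mJ2 : Measurable fun p : X × ℝ => ‖f p.1 p.2 - f p.1 s‖ := by
    have h1 : Measurable fun p : X × ℝ => f p.1 s := (mt s).comp measurable_fst
    exact (hf.sub h1).norm
  have mJ : Measurable fun x => ∫ t in s..(s + κ), ‖f x t - f x s‖ := by
    simp only [intervalIntegral.integral_of_le hsk]
    exact (mJ2.stronglyMeasurable.integral_prod_right'
      (ν := volume.restrict (Set.Ioc s (s + κ)))).measurable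
  have bI : ∀ x, ‖∫ t in s..(s + κ), f x t‖ ≤ κ := by
    intro x
    have := intervalIntegral.norm_integral_le_of_norm_le_const (a := s) (b := s + κ) (C := 1)
      (f := f x) (fun t _ => hb x t)
    rwa [add_sub_cancel_left, abs_of_pos hκ, one_mul] at this
  have bJ : ∀ x, ‖∫ t in s..(s + κ), ‖f x t - f x s‖‖ ≤ 2 * κ := by
    intro x
    have := intervalIntegral.norm_integral_le_of_norm_le_const (a := s) (b := s + κ) (C := 2)
      (f := fun t => ‖f x t - f x s‖) (fun t _ => by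
        rw [norm_norm]
        have h0 := norm_sub_le (f x t) (f x s)
        have h1 := hb x t
        have h2 := hb x s
        linarith)
    rwa [add_sub_cancel_left, abs_of_pos hκ] at this
  -- the pointwise bound
  have hpt : ∀ x, ‖f x s - (F s : ℂ)‖ ≤ κ⁻¹ * (∫ t in s..(s + κ), ‖f x t - f x s‖) +
      κ⁻¹ * ‖(∫ t in s..(s + κ), f x t) - ((∫ t in s..(s + κ), F t : ℝ) : ℂ)‖ +
      |κ⁻¹ * (∫ t in s..(s + κ), F t) - F s| := by
    intro x
    have hκC : (κ : ℂ) ≠ 0 := by exact_mod_cast hκ.ne'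
    have e1 : ∫ t in s..(s + κ), (f x t - f x s) = (∫ t in s..(s + κ), f x t) - κ * f x s := by
      rw [intervalIntegral.integral_sub (ii x) intervalIntegrable_const,
        intervalIntegral.integral_const, add_sub_cancel_left, Complex.real_smul]
    have e2 : f x s - (F s : ℂ) = -(((κ⁻¹ : ℝ) : ℂ) * ∫ t in s..(s + κ), (f x t - f x s)) +
        ((κ⁻¹ : ℝ) : ℂ) * ((∫ t in s..(s + κ), f x t) - ((∫ t in s..(s + κ), F t : ℝ) : ℂ)) +
        ((κ⁻¹ * (∫ t in s..(s + κ), F t) - F s : ℝ) : ℂ) := by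
      rw [e1]
      push_cast
      field_simp
      ring
    rw [e2]
    refine (norm_add_le _ _).trans (add_le_add ((norm_add_le _ _).trans (add_le_add ?_ ?_)) ?_)
    · rw [norm_neg, norm_mul, Complex.norm_real, Real.norm_of_nonneg (inv_pos.2 hκ).le]
      apply mul_le_mul_of_nonneg_left _ (inv_pos.2 hκ).le
      exact intervalIntegral.norm_integral_le_integral_norm hsk
    · rw [norm_mul, Complex.norm_real, Real.norm_of_nonneg (inv_pos.2 hκ).le]
    · rw [Complex.norm_real, Real.norm_eq_abs]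
  -- the mean of the first term
  have hF1 : ∫ x, (∫ t in s..(s + κ), ‖f x t - f x s‖) ∂μ ≤ κ * δ := by
    simp only [intervalIntegral.integral_of_le hsk]
    have hint : Integrable (Function.uncurry fun (x : X) (t : ℝ) => ‖f x t - f x s‖)
        (μ.prod (volume.restrict (Set.Ioc s (s + κ)))) := by
      refine Integrable.of_bound (C := 2) mJ2.aestronglyMeasurable
        (Eventually.of_forall fun p => ?_)
      simp only [Function.uncurry, norm_norm]
      have h0 := norm_sub_le (f p.1 p.2) (f p.1 s)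
      have h1 := hb p.1 p.2
      have h2 := hb p.1 s
      linarith
    rw [integral_integral_swap hint]
    calc ∫ t in Set.Ioc s (s + κ), ∫ x, ‖f x t - f x s‖ ∂μ
        ≤ ∫ _t in Set.Ioc s (s + κ), δ := by
          apply setIntegral_mono_on
          · exact hint.integral_prod_right
          · simp
          · exact measurableSet_Ioc
          · intro t ht
            exact l1_of_l2 μ (fun x => f x t - f x s)
              ((mt t).sub (mt s)).aestronglyMeasurable (B := 2) (fun x => by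
                have h0 := norm_sub_le (f x t) (f x s)
                have h1 := hb x t
                have h2 := hb x s
                linarith) hδ (h t ht.1.le ht.2)
      _ = κ * δ := by
          rw [setIntegral_const]
          simp [hκ.le]
  have iA : Integrable (fun x => κ⁻¹ * (∫ t in s..(s + κ), ‖f x t - f x s‖)) μ :=
    (Integrable.of_bound mJ.aestronglyMeasurable (2 * κ)
      (Eventually.of_forall bJ)).const_mul _
  have iB : Integrable (fun x => κ⁻¹ * ‖(∫ t in s..(s + κ), f x t) -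
      ((∫ t in s..(s + κ), F t : ℝ) : ℂ)‖) μ := by
    refine Integrable.const_mul (Integrable.of_bound
      (mI.sub_const _).norm.aestronglyMeasurable
      (κ + ‖((∫ t in s..(s + κ), F t : ℝ) : ℂ)‖) (Eventually.of_forall fun x => ?_)) _
    rw [norm_norm]
    exact (norm_sub_le _ _).trans (by linarith [bI x])
  calc ∫ x, ‖f x s - (F s : ℂ)‖ ∂μ
      ≤ ∫ x, (κ⁻¹ * (∫ t in s..(s + κ), ‖f x t - f x s‖) +
      κ⁻¹ * ‖(∫ t in s..(s + κ), f x t) - ((∫ t in s..(s + κ), F t : ℝ) : ℂ)‖ +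
      |κ⁻¹ * (∫ t in s..(s + κ), F t) - F s|) ∂μ := by
        apply integral_mono_of_nonneg (Eventually.of_forall fun x => norm_nonneg _)
          ((iA.add iB).add (integrable_const _)) (Eventually.of_forall hpt)
    _ = κ⁻¹ * (∫ x, (∫ t in s..(s + κ), ‖f x t - f x s‖) ∂μ) +
        κ⁻¹ * (∫ x, ‖(∫ t in s..(s + κ), f x t) -
          ((∫ t in s..(s + κ), F t : ℝ) : ℂ)‖ ∂μ) +
        |κ⁻¹ * (∫ t in s..(s + κ), F t) - F s| := by
        have e1 := integral_add (iA.add iB) (integrable_const (μ := μ)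
          |κ⁻¹ * (∫ t in s..(s + κ), F t) - F s|)
        have e2 := integral_add iA iB
        simp only [Pi.add_apply] at e1 e2
        rw [e1, e2, integral_const_mul, integral_const_mul]
        simp
    _ ≤ _ := by
        have h1 : κ⁻¹ * (∫ x, (∫ t in s..(s + κ), ‖f x t - f x s‖) ∂μ) ≤ κ⁻¹ * (κ * δ) := by
          gcongr
        rw [← mul_assoc, inv_mul_cancel₀ hκ.ne', one_mul] at h1
        linarith

/-- the diffusive limit at one time, positive `σ` -/
theorem ptw_pos (heql : T_EQL) {d : ℕ} (hd : 3 ≤ d) {h : ℝ} (h0 : 0 < h)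
    (h1 : h < if d = 3 then 2 / 5 else 4 / 5)
    (Ψ : (Zd d → ℝ) → ℝ → Zd d → ℂ) (hΨ : ∀ v, Evol v (Ψ v)) (Q : Fin d → ℝ) {s : ℝ}
    (hs : 0 ≤ s) :
    Tendsto (fun σ : ℝ => ∫ ξ, ‖Fz (fun i => σ ^ (2 + h / 2) * Q i)
      (Ψ (fun x => σ * ξ x) (s / σ ^ (2 + h))) - ((F0 d Q s : ℝ) : ℂ)‖ ∂(GZ d))
      (𝓝[>] 0) (𝓝 0) := by
  obtain ⟨m1, m2, -, -⟩ := latq2c (cmpq tail_all) (en2c plan) law meas d Ψ hΨ
  rw [Metric.tendsto_nhds]
  intro ε hε
  have hδ : 0 < ε / 4 := by linarith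
  -- continuity of the limit
  have hcont : ∀ᶠ κ in 𝓝[>] (0 : ℝ), |κ⁻¹ * (∫ t in s..(s + κ), F0 d Q t) - F0 d Q s| ≤ ε / 4 := by
    have h2 := (F0_cont hd Q) s hs
    rw [Metric.continuousWithinAt_iff] at h2
    obtain ⟨r, hr, h3⟩ := h2 (ε / 4) hδ
    filter_upwards [self_mem_nhdsWithin, nhdsWithin_le_nhds (eventually_lt_nhds hr)]
      with κ hκ hκr
    have hκ' : 0 < κ := hκ
    have hsk : s ≤ s + κ := by linarith
    have hic : IntervalIntegrable (F0 d Q) volume s (s + κ) := by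
      apply ContinuousOn.intervalIntegrable
      rw [Set.uIcc_of_le hsk]
      exact (F0_cont hd Q).mono fun t ht => le_trans hs ht.1
    have e1 : κ⁻¹ * (∫ t in s..(s + κ), F0 d Q t) - F0 d Q s =
        κ⁻¹ * ∫ t in s..(s + κ), (F0 d Q t - F0 d Q s) := by
      rw [intervalIntegral.integral_sub hic intervalIntegrable_const,
        intervalIntegral.integral_const, add_sub_cancel_left, smul_eq_mul]
      field_simp
    have e2 : ‖∫ t in s..(s + κ), (F0 d Q t - F0 d Q s)‖ ≤ ε / 4 * |s + κ - s| := by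
      apply intervalIntegral.norm_integral_le_of_norm_le_const
      intro t ht
      rw [Set.uIoc_of_le hsk] at ht
      have h4 := h3 (hs.trans ht.1.le : t ∈ Set.Ici (0 : ℝ)) (by
        rw [Real.dist_eq, abs_of_nonneg (by linarith [ht.1])]
        linarith [ht.2])
      rw [Real.dist_eq] at h4
      exact h4.le
    rw [e1, abs_mul, abs_of_pos (inv_pos.2 hκ'), inv_mul_le_iff₀ hκ']
    rw [add_sub_cancel_left, abs_of_pos hκ'] at e2
    rw [mul_comm κ]
    exact e2
  have hfl : ∀ᶠ κ in 𝓝[>] (0 : ℝ), 8 * (1 - ∫ E, fl d Q κ E) < (ε / 4) ^ 2 := by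
    have h2 : Tendsto (fun κ : ℝ => 8 * (1 - ∫ E, fl d Q κ E)) (𝓝[>] 0) (𝓝 (8 * (1 - 1))) :=
      ((fl_lim hd Q).const_sub 1).const_mul 8
    rw [sub_self, mul_zero] at h2
    exact h2.eventually (gt_mem_nhds (by positivity))
  obtain ⟨κ, ⟨hκ1, hκ2⟩, hκ0⟩ := ((hcont.and hfl).and self_mem_nhdsWithin).exists
  have hκ : 0 < κ := hκ0
  -- the conditions on `σ`
  have hA : ∀ᶠ σ in 𝓝[>] (0 : ℝ), κ⁻¹ * (∫ ξ, ‖(∫ t in s..(s + κ),
      Fz (fun i => |σ| ^ (2 + h / 2) * Q i) (Ψ (fun x => σ * ξ x) (t / |σ| ^ (2 + h)))) -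
      ((∫ t in s..(s + κ), F0 d Q t : ℝ) : ℂ)‖ ∂(GZ d)) < ε / 4 := by
    have h2 := (qdl2F hd h0 h1 Ψ hΨ Q hs (by linarith : s ≤ s + κ)).const_mul κ⁻¹
    rw [mul_zero] at h2
    have h3 := h2.mono_left (nhdsWithin_mono (0 : ℝ)
      (fun x hx => ne_of_gt hx : Set.Ioi (0 : ℝ) ⊆ {0}ᶜ))
    exact h3.eventually (gt_mem_nhds hδ)
  have hB : ∀ᶠ σ in 𝓝[>] (0 : ℝ), 8 * (1 - (((κ⁻¹ : ℝ) : ℂ) * ∫ t in Set.Ioi (0 : ℝ),
      ((Real.exp (-(t / κ)) : ℝ) : ℂ) *
        FF Ψ (fun i => σ ^ (2 + h / 2) * Q i) σ (t / σ ^ (2 + h))).re) < (ε / 4) ^ 2 := by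
    have h2 := (limF hd h0 h1 Ψ hΨ Q hκ).const_mul (((κ⁻¹ : ℝ) : ℂ))
    have h3 := (Complex.continuous_re.tendsto _).comp h2
    have h4 := (h3.const_sub 1).const_mul 8
    have e1 : 8 * (1 - ((((κ⁻¹ : ℝ) : ℂ) * ((κ * ∫ E, fl d Q κ E : ℝ) : ℂ))).re) =
        8 * (1 - ∫ E, fl d Q κ E) := by
      rw [← Complex.ofReal_mul, Complex.ofReal_re, ← mul_assoc, inv_mul_cancel₀ hκ.ne', one_mul]
    rw [e1] at h4
    exact h4.eventually (gt_mem_nhds hκ2)
  have hC : ∀ᶠ σ in 𝓝[>] (0 : ℝ), ∀ i, |σ ^ (2 + h / 2) * Q i| ≤ 1 := by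
    have h2 : Tendsto (fun σ : ℝ => σ ^ (2 + h / 2)) (𝓝[>] 0) (𝓝 0) := by
      have h3 := (Real.continuousAt_rpow_const 0 (2 + h / 2) (Or.inr (by linarith))).tendsto
      rw [Real.zero_rpow (by linarith)] at h3
      exact h3.mono_left nhdsWithin_le_nhds
    rw [eventually_all]
    intro i
    have h3 := (h2.mul_const (Q i)).abs
    rw [zero_mul, abs_zero] at h3
    filter_upwards [h3.eventually (gt_mem_nhds one_pos)] with σ hσ
    exact hσ.le
  filter_upwards [hA, hB, hC, self_mem_nhdsWithin] with σ a1 a2 a3 hσ0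
  have hσ : 0 < σ := hσ0
  have hc0 : 0 < σ ^ (2 + h) := Real.rpow_pos_of_pos hσ _
  rw [abs_of_pos hσ] at a1
  have hot := one_time (GZ d) (fun ξ t => Fz (fun i => σ ^ (2 + h / 2) * Q i)
    (Ψ (fun x => σ * ξ x) (t / σ ^ (2 + h))))
    (by
      have h4 := m1 (fun i => σ ^ (2 + h / 2) * Q i) σ
      exact h4.comp (by fun_prop : Measurable fun p : (Zd d → ℝ) × ℝ =>
        ((p.1, p.2 / σ ^ (2 + h)) : (Zd d → ℝ) × ℝ)))
    (fun ξ t => m2 _ _ _ _) (F0 d Q) (s := s) hκ hδ (fun t ht1 ht2 => by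
      have h5 := heql d Ψ hΨ (fun i => σ ^ (2 + h / 2) * Q i) a3 σ (t / σ ^ (2 + h))
        (s / σ ^ (2 + h)) (κ / σ ^ (2 + h)) (by positivity) (by gcongr)
        (by
          rw [← add_div]
          gcongr) (by positivity)
      rw [abel_sub hκ hc0] at h5
      exact h5.trans a2.le)
  rw [Real.dist_eq, sub_zero, abs_of_nonneg (integral_nonneg fun ξ => norm_nonneg _)]
  refine lt_of_le_of_lt hot ?_
  have a1' := a1
  linarith

/-- **the diffusive limit at one time** -/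
theorem ptw (heql : T_EQL) {d : ℕ} (hd : 3 ≤ d) {h : ℝ} (h0 : 0 < h)
    (h1 : h < if d = 3 then 2 / 5 else 4 / 5)
    (Ψ : (Zd d → ℝ) → ℝ → Zd d → ℂ) (hΨ : ∀ v, Evol v (Ψ v)) (Q : Fin d → ℝ) {s : ℝ}
    (hs : 0 ≤ s) :
    Tendsto (fun σ : ℝ => ∫ ξ, ‖Fz (fun i => |σ| ^ (2 + h / 2) * Q i)
      (Ψ (fun x => σ * ξ x) (s / |σ| ^ (2 + h))) - ((F0 d Q s : ℝ) : ℂ)‖ ∂(GZ d))
      (𝓝[≠] 0) (𝓝 0) := by
  obtain ⟨m1, m2, -, -⟩ := latq2c (cmpq tail_all) (en2c plan) law meas d Ψ hΨ
  have h4 : Tendsto (fun σ : ℝ => |σ|) (𝓝[≠] 0) (𝓝[>] 0) := by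
    rw [tendsto_nhdsWithin_iff]
    refine ⟨?_, ?_⟩
    · have := (continuous_abs (G := ℝ)).tendsto 0
      rw [abs_zero] at this
      exact this.mono_left nhdsWithin_le_nhds
    · filter_upwards [self_mem_nhdsWithin] with σ hσ
      exact abs_pos.2 hσ
  have h5 := (ptw_pos heql hd h0 h1 Ψ hΨ Q hs).comp h4
  refine h5.congr fun σ => ?_
  simp only [Function.comp_apply]
  rcases abs_choice σ with hs' | hs'
  · rw [hs']
  · rw [hs']
    have hm : Measurable fun (ξ : Zd d → ℝ) (x : Zd d) => -ξ x := by fun_prop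
    have h6 := W.law_neg d
    have hF : Measurable fun ξ : Zd d → ℝ => ‖Fz (fun i => (-σ) ^ (2 + h / 2) * Q i)
        (Ψ (fun x => σ * ξ x) (s / (-σ) ^ (2 + h))) - ((F0 d Q s : ℝ) : ℂ)‖ := by
      have h7 := (m1 (fun i => (-σ) ^ (2 + h / 2) * Q i) σ).comp
        (by fun_prop : Measurable fun ξ : Zd d → ℝ =>
          ((ξ, s / (-σ) ^ (2 + h)) : (Zd d → ℝ) × ℝ))
      exact (h7.sub_const _).norm
    conv_rhs => rw [← h6]
    rw [integral_map hm.aemeasurable hF.aestronglyMeasurable]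
    refine integral_congr_ae (Eventually.of_forall fun ξ => ?_)
    have e1 : (fun x => -σ * ξ x) = fun x => σ * -ξ x := by
      funext x
      ring
    simp only [e1]

end Pool.Agent.T2h98.QD.U
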