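import Pool.Agent.T2h98.QD.Ptw

/-! The diffusive limit, uniformly in compact time intervals. -/

set_option autoImplicit false
set_option linter.unusedSectionVars false

open scoped BigOperators Matrix Topology
open MeasureTheory ProbabilityTheory Filter

namespace Pool.Agent.T2h98.QD.U

/-- the sign of `σ` -/
theorem abs_eq {d : ℕ} (Ψ : (Zd d → ℝ) → ℝ → Zd d → ℂ) (hΨ : ∀ v, Evol v (Ψ v))
    (q : Fin d → ℝ) (σ t : ℝ) (c : ℂ) :
    ∫ ξ, ‖Fz q (Ψ (fun x => σ * ξ x) t) - c‖ ∂(GZ d) =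
      ∫ ξ, ‖Fz q (Ψ (fun x => |σ| * ξ x) t) - c‖ ∂(GZ d) := by
  obtain ⟨m1, m2, -, -⟩ := latq2c (cmpq tail_all) (en2c plan) law meas d Ψ hΨ
  rcases abs_choice σ with hs' | hs'
  · rw [hs']
  · rw [hs']
    have hm : Measurable fun (ξ : Zd d → ℝ) (x : Zd d) => -ξ x := by fun_prop
    have h6 := W.law_neg d
    have hF : Measurable fun ξ : Zd d → ℝ => ‖Fz q (Ψ (fun x => σ * ξ x) t) - c‖ := by
      have h7 := (m1 q σ).comp
        (by fun_prop : Measurable fun ξ : Zd d → ℝ => ((ξ, t) : (Zd d → ℝ) × ℝ))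
      exact (h7.sub_const _).norm
    conv_lhs => rw [← h6]
    rw [integral_map hm.aemeasurable hF.aestronglyMeasurable]
    refine integral_congr_ae (Eventually.of_forall fun ξ => ?_)
    have e1 : (fun x => -σ * ξ x) = fun x => σ * -ξ x := by
      funext x
      ring
    simp only [e1]

/-- the convergence is uniform in compact time intervals -/
theorem ptw_unif (heql : T_EQL) {d : ℕ} (hd : 3 ≤ d) {h : ℝ} (h0 : 0 < h)
    (h1 : h < if d = 3 then 2 / 5 else 4 / 5)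
    (Ψ : (Zd d → ℝ) → ℝ → Zd d → ℂ) (hΨ : ∀ v, Evol v (Ψ v)) (Q : Fin d → ℝ) (S ε : ℝ)
    (hε : 0 < ε) :
    ∀ᶠ σ : ℝ in 𝓝[≠] 0, ∀ s : ℝ, 0 ≤ s → s ≤ S →
      ∫ ξ, ‖Fz (fun i => |σ| ^ (2 + h / 2) * Q i)
        (Ψ (fun x => σ * ξ x) (s / |σ| ^ (2 + h))) - ((F0 d Q s : ℝ) : ℂ)‖ ∂(GZ d) ≤ ε := by
  obtain ⟨m1, m2, -, -⟩ := latq2c (cmpq tail_all) (en2c plan) law meas d Ψ hΨ
  have hδ : 0 < ε / 4 := by linarith
  -- uniform continuity of the limit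
  have hcpt : IsCompact (Set.Icc (0 : ℝ) (max S 0 + 1)) := isCompact_Icc
  have huc := hcpt.uniformContinuousOn_of_continuous
    ((F0_cont hd Q).mono fun t ht => ht.1)
  rw [Metric.uniformContinuousOn_iff] at huc
  obtain ⟨r, hr, huc⟩ := huc (ε / 4) hδ
  have hfl : ∀ᶠ κ in 𝓝[>] (0 : ℝ), 8 * (1 - ∫ E, fl d Q κ E) < (ε / 4) ^ 2 := by
    have h2 : Tendsto (fun κ : ℝ => 8 * (1 - ∫ E, fl d Q κ E)) (𝓝[>] 0) (𝓝 (8 * (1 - 1))) :=
      ((fl_lim hd Q).const_sub 1).const_mul 8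
    rw [sub_self, mul_zero] at h2
    exact h2.eventually (gt_mem_nhds (by positivity))
  obtain ⟨κ, ⟨hκ2, hκ1⟩, hκ0⟩ := ((hfl.and (nhdsWithin_le_nhds
    (eventually_lt_nhds (lt_min hr one_pos)))).and self_mem_nhdsWithin).exists
  have hκ : 0 < κ := hκ0
  have hκr : κ < r := hκ1.trans_le (min_le_left _ _)
  have hκ1' : κ < 1 := hκ1.trans_le (min_le_right _ _)
  -- the conditions on `σ`
  have hB : ∀ᶠ σ in 𝓝[>] (0 : ℝ), 8 * (1 - (((κ⁻¹ : ℝ) : ℂ) * ∫ t in Set.Ioi (0 : ℝ),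
      ((Real.exp (-(t / κ)) : ℝ) : ℂ) *
        FF Ψ (fun i => σ ^ (2 + h / 2) * Q i) σ (t / σ ^ (2 + h))).re) < (ε / 4) ^ 2 := by
    have h2 := (limF hd h0 h1 Ψ hΨ Q hκ).const_mul (((κ⁻¹ : ℝ) : ℂ))
    have h3 := (Complex.continuous_re.tendsto _).comp h2
    have h4 := (h3.const_sub 1).const_mul 8
    have e1 : 8 * (1 - ((((κ⁻¹ : ℝ) : ℂ) * ((κ * ∫ E, fl d Q κ E : ℝ) : ℂ))).re) =
        8 * (1 - ∫ E, fl d Q κ E) := by
      rw [← Complex.ofReal_mul, Complex.ofReal_re, ← mul_assoc, inv_mul_cancel₀ hκ.ne', one_mul]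
    rw [e1] at h4
    exact h4.eventually (gt_mem_nhds hκ2)
  have hC : ∀ᶠ σ in 𝓝[>] (0 : ℝ), ∀ i, |σ ^ (2 + h / 2) * Q i| ≤ 1 := by
    have h2 : Tendsto (fun σ : ℝ => σ ^ (2 + h / 2)) (𝓝[>] 0) (𝓝 0) := by
      have h3 := (Real.continuousAt_rpow_const 0 (2 + h / 2) (Or.inr (by linarith))).tendsto
      rw [Real.zero_rpow (by linarith)] at h3
      exact h3.mono_left nhdsWithin_le_nhds
    rw [eventually_all]
    intro i
    have h3 := (h2.mul_const (Q i)).abs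
    rw [zero_mul, abs_zero] at h3
    filter_upwards [h3.eventually (gt_mem_nhds one_pos)] with σ hσ
    exact hσ.le
  -- the grid
  have hG : ∀ᶠ σ in 𝓝[>] (0 : ℝ), ∀ j ∈ Finset.range (⌈S / κ⌉₊ + 1),
      ∫ ξ, ‖Fz (fun i => σ ^ (2 + h / 2) * Q i)
        (Ψ (fun x => σ * ξ x) ((j : ℝ) * κ / σ ^ (2 + h))) -
          ((F0 d Q ((j : ℝ) * κ) : ℝ) : ℂ)‖ ∂(GZ d) < ε / 4 := by
    rw [eventually_all_finset]
    intro j _
    exact (ptw_pos heql hd h0 h1 Ψ hΨ Q (s := (j : ℝ) * κ) (by positivity)).eventually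
      (gt_mem_nhds hδ)
  have hpos : ∀ᶠ σ in 𝓝[>] (0 : ℝ), ∀ s : ℝ, 0 ≤ s → s ≤ S →
      ∫ ξ, ‖Fz (fun i => σ ^ (2 + h / 2) * Q i)
        (Ψ (fun x => σ * ξ x) (s / σ ^ (2 + h))) - ((F0 d Q s : ℝ) : ℂ)‖ ∂(GZ d) ≤ ε := by
    filter_upwards [hB, hC, hG, self_mem_nhdsWithin] with σ a1 a2 a3 hσ0 s hs0 hsS
    have hσ : 0 < σ := hσ0
    have hc0 : 0 < σ ^ (2 + h) := Real.rpow_pos_of_pos hσ _
    obtain ⟨j, hj⟩ : ∃ j : ℕ, j = ⌊s / κ⌋₊ := ⟨_, rfl⟩
    have hj1 : (j : ℝ) * κ ≤ s := by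
      have := Nat.floor_le (div_nonneg hs0 hκ.le)
      rw [← hj, le_div_iff₀ hκ] at this
      exact this
    have hj2 : s ≤ (j : ℝ) * κ + κ := by
      have := (Nat.lt_floor_add_one (s / κ)).le
      rw [← hj, div_le_iff₀ hκ] at this
      linarith
    have hj0 : 0 ≤ (j : ℝ) * κ := by positivity
    have hjr : j ∈ Finset.range (⌈S / κ⌉₊ + 1) := by
      rw [Finset.mem_range]
      have h2 : j ≤ ⌈S / κ⌉₊ := by
        rw [hj]
        have h3 : s / κ ≤ S / κ := by gcongr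
        exact (Nat.floor_le_floor h3).trans (Nat.floor_le_ceil _)
      omega
    have b1 := (a3 j hjr).le
    -- the time difference
    have h5 := heql d Ψ hΨ (fun i => σ ^ (2 + h / 2) * Q i) a2 σ (s / σ ^ (2 + h))
        ((j : ℝ) * κ / σ ^ (2 + h)) (κ / σ ^ (2 + h)) (by positivity) (by gcongr)
        (by
          rw [← add_div]
          gcongr) (by positivity)
    rw [abel_sub hκ hc0] at h5
    have mt : ∀ t, Measurable fun ξ : Zd d → ℝ => Fz (fun i => σ ^ (2 + h / 2) * Q i)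
        (Ψ (fun x => σ * ξ x) t) := fun t =>
      (m1 (fun i => σ ^ (2 + h / 2) * Q i) σ).comp
        (by fun_prop : Measurable fun ξ : Zd d → ℝ => ((ξ, t) : (Zd d → ℝ) × ℝ))
    have b2 := l1_of_l2 (GZ d) (fun ξ => Fz (fun i => σ ^ (2 + h / 2) * Q i)
        (Ψ (fun x => σ * ξ x) (s / σ ^ (2 + h))) - Fz (fun i => σ ^ (2 + h / 2) * Q i)
        (Ψ (fun x => σ * ξ x) ((j : ℝ) * κ / σ ^ (2 + h))))
      ((mt _).sub (mt _)).aestronglyMeasurable (B := 2) (fun ξ => by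
        have e1 := norm_sub_le (Fz (fun i => σ ^ (2 + h / 2) * Q i)
          (Ψ (fun x => σ * ξ x) (s / σ ^ (2 + h)))) (Fz (fun i => σ ^ (2 + h / 2) * Q i)
          (Ψ (fun x => σ * ξ x) ((j : ℝ) * κ / σ ^ (2 + h))))
        have e2 := m2 (fun i => σ ^ (2 + h / 2) * Q i) σ ξ (s / σ ^ (2 + h))
        have e3 := m2 (fun i => σ ^ (2 + h / 2) * Q i) σ ξ ((j : ℝ) * κ / σ ^ (2 + h))
        linarith) hδ (h5.trans a1.le)
    have b3 : |F0 d Q ((j : ℝ) * κ) - F0 d Q s| < ε / 4 := by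
      have hS0 : s ≤ max S 0 := hsS.trans (le_max_left _ _)
      have := huc ((j : ℝ) * κ) ⟨hj0, by linarith⟩ s ⟨hs0, by linarith⟩ (by
        rw [Real.dist_eq, abs_sub_comm, abs_of_nonneg (by linarith)]
        linarith)
      rwa [Real.dist_eq] at this
    -- the sum
    have i1 : Integrable (fun ξ : Zd d → ℝ => ‖Fz (fun i => σ ^ (2 + h / 2) * Q i)
        (Ψ (fun x => σ * ξ x) (s / σ ^ (2 + h))) - Fz (fun i => σ ^ (2 + h / 2) * Q i)
        (Ψ (fun x => σ * ξ x) ((j : ℝ) * κ / σ ^ (2 + h)))‖) (GZ d) := by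
      refine Integrable.of_bound ((mt _).sub (mt _)).norm.aestronglyMeasurable 2
        (Eventually.of_forall fun ξ => ?_)
      rw [norm_norm]
      have e1 := norm_sub_le (Fz (fun i => σ ^ (2 + h / 2) * Q i)
        (Ψ (fun x => σ * ξ x) (s / σ ^ (2 + h)))) (Fz (fun i => σ ^ (2 + h / 2) * Q i)
        (Ψ (fun x => σ * ξ x) ((j : ℝ) * κ / σ ^ (2 + h))))
      have e2 := m2 (fun i => σ ^ (2 + h / 2) * Q i) σ ξ (s / σ ^ (2 + h))
      have e3 := m2 (fun i => σ ^ (2 + h / 2) * Q i) σ ξ ((j : ℝ) * κ / σ ^ (2 + h))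
      linarith
    have i2 : Integrable (fun ξ : Zd d → ℝ => ‖Fz (fun i => σ ^ (2 + h / 2) * Q i)
        (Ψ (fun x => σ * ξ x) ((j : ℝ) * κ / σ ^ (2 + h))) -
          ((F0 d Q ((j : ℝ) * κ) : ℝ) : ℂ)‖) (GZ d) := by
      refine Integrable.of_bound ((mt _).sub_const _).norm.aestronglyMeasurable
        (1 + ‖((F0 d Q ((j : ℝ) * κ) : ℝ) : ℂ)‖) (Eventually.of_forall fun ξ => ?_)
      rw [norm_norm]
      refine (norm_sub_le _ _).trans ?_
      have e3 := m2 (fun i => σ ^ (2 + h / 2) * Q i) σ ξ ((j : ℝ) * κ / σ ^ (2 + h))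
      linarith
    calc
      ∫ ξ, ‖Fz (fun i => σ ^ (2 + h / 2) * Q i)
        (Ψ (fun x => σ * ξ x) (s / σ ^ (2 + h))) - ((F0 d Q s : ℝ) : ℂ)‖ ∂(GZ d)
        ≤ ∫ ξ, (‖Fz (fun i => σ ^ (2 + h / 2) * Q i)
        (Ψ (fun x => σ * ξ x) (s / σ ^ (2 + h))) - Fz (fun i => σ ^ (2 + h / 2) * Q i)
        (Ψ (fun x => σ * ξ x) ((j : ℝ) * κ / σ ^ (2 + h)))‖ +
          ‖Fz (fun i => σ ^ (2 + h / 2) * Q i)
        (Ψ (fun x => σ * ξ x) ((j : ℝ) * κ / σ ^ (2 + h))) -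
          ((F0 d Q ((j : ℝ) * κ) : ℝ) : ℂ)‖ + ε / 4) ∂(GZ d) := by
          refine integral_mono_of_nonneg (Eventually.of_forall fun ξ => norm_nonneg _)
            ((i1.add i2).add (integrable_const _)) (Eventually.of_forall fun ξ => ?_)
          have e1 : ‖((F0 d Q ((j : ℝ) * κ) : ℝ) : ℂ) - ((F0 d Q s : ℝ) : ℂ)‖ ≤ ε / 4 := by
            rw [← Complex.ofReal_sub, Complex.norm_real, Real.norm_eq_abs]
            exact b3.le
          have e2 := norm_sub_le_norm_sub_add_norm_sub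
            (Fz (fun i => σ ^ (2 + h / 2) * Q i) (Ψ (fun x => σ * ξ x) (s / σ ^ (2 + h))))
            (Fz (fun i => σ ^ (2 + h / 2) * Q i)
              (Ψ (fun x => σ * ξ x) ((j : ℝ) * κ / σ ^ (2 + h)))) ((F0 d Q s : ℝ) : ℂ)
          have e3 := norm_sub_le_norm_sub_add_norm_sub
            (Fz (fun i => σ ^ (2 + h / 2) * Q i)
              (Ψ (fun x => σ * ξ x) ((j : ℝ) * κ / σ ^ (2 + h))))
            ((F0 d Q ((j : ℝ) * κ) : ℝ) : ℂ) ((F0 d Q s : ℝ) : ℂ)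
          simp only [Pi.add_apply]
          linarith
      _ = _ := rfl
      _ ≤ ε / 4 + ε / 4 + ε / 4 := by
          have e1 := integral_add (i1.add i2) (integrable_const (μ := GZ d) (ε / 4))
          have e2 := integral_add i1 i2
          simp only [Pi.add_apply] at e1 e2
          rw [e1, e2]
          simp only [integral_const, probReal_univ, smul_eq_mul, one_mul]
          linarith
      _ ≤ ε := by linarith
  -- both signs
  have h4 : Tendsto (fun σ : ℝ => |σ|) (𝓝[≠] 0) (𝓝[>] 0) := by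
    rw [tendsto_nhdsWithin_iff]
    refine ⟨?_, ?_⟩
    · have := (continuous_abs (G := ℝ)).tendsto 0
      rw [abs_zero] at this
      exact this.mono_left nhdsWithin_le_nhds
    · filter_upwards [self_mem_nhdsWithin] with σ hσ
      exact abs_pos.2 hσ
  filter_upwards [h4.eventually hpos] with σ hσ s hs0 hsS
  rw [abs_eq Ψ hΨ]
  exact hσ s hs0 hsS

end Pool.Agent.T2h98.QD.U
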