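import Pool.Agent.T2h98.QD.Stm12
import Pool.Agent.T2h98.QD.Plan
import Pool.Agent.T2h98.QD.LatQ

/-! Quantum averages, with high probability (QEM). -/

set_option autoImplicit false
set_option linter.unusedSectionVars false

open scoped BigOperators Matrix Topology
open MeasureTheory ProbabilityTheory Filter

namespace Pool.Agent.T2h98.QD

open Pool.Agent.W788.MFP.Four (T e NN adj K)
open Pool.Agent.W788.BK (nsq hs PP JJ hi Low cr)

namespace QEMS

variable {d L : ℕ} [NeZero L]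

instance : IsProbabilityMeasure (GP (T d L)) := by
  unfold GP PP
  infer_instance

theorem F2_shift (κ : T d L) (σ : ℝ) (V : T d L → ℝ) (t : ℝ) (y : T d L) :
    LQ.F2 κ σ (fun z => V (z + y)) t =
      ∑ x, e κ (x - y) * ((‖ev (HT (d := d) (L := L) σ V) t x y‖ ^ 2 : ℝ) : ℂ) := by
  rw [LQ.F2_eq, ← Equiv.sum_comp (Equiv.addRight y) (fun x =>
    e κ (x - y) * ((‖ev (HT (d := d) (L := L) σ V) t x y‖ ^ 2 : ℝ) : ℂ))]
  refine Finset.sum_congr rfl fun x _ => ?_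
  rw [ev_shift, zero_add, Equiv.coe_addRight, add_sub_cancel_right]

/-- the Abel mean -/
noncomputable def AGm (κ : T d L) (σ τ : ℝ) (V : T d L → ℝ) : ℂ :=
  ((τ⁻¹ : ℝ) : ℂ) * ∫ t in Set.Ioi (0 : ℝ), ((Real.exp (-(t / τ)) : ℝ) : ℂ) * LQ.F2 κ σ V t

theorem AGm_meas (κ : T d L) (σ τ : ℝ) : Measurable (AGm κ σ τ) := by
  unfold AGm
  apply Measurable.const_mul
  have : Measurable fun p : (T d L → ℝ) × ℝ => ((Real.exp (-(p.2 / τ)) : ℝ) : ℂ) *
      LQ.F2 κ σ p.1 p.2 := Measurable.mul (by fun_prop) (LQ.F2_cont κ σ).measurable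
  exact (this.stronglyMeasurable.integral_prod_right'
    (ν := volume.restrict (Set.Ioi (0 : ℝ)))).measurable

theorem F2_int (κ : T d L) (σ : ℝ) {τ : ℝ} (hτ : 0 < τ) (V : T d L → ℝ) :
    IntegrableOn (fun t : ℝ => ((Real.exp (-(t / τ)) : ℝ) : ℂ) * LQ.F2 κ σ V t) (Set.Ioi (0 : ℝ)) := by
  have hc : Continuous fun t : ℝ => LQ.F2 κ σ V t :=
    (LQ.F2_cont κ σ).comp (continuous_const.prodMk continuous_id)
  refine Integrable.mono' (abel_int hτ).1 ?_ (Eventually.of_forall fun t => ?_)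
  · apply Continuous.aestronglyMeasurable
    exact (by fun_prop : Continuous fun t : ℝ => ((Real.exp (-(t / τ)) : ℝ) : ℂ)).mul hc
  · rw [norm_mul, Complex.norm_real, Real.norm_eq_abs, abs_of_pos (Real.exp_pos _)]
    exact mul_le_of_le_one_right (Real.exp_pos _).le (LQ.F2_norm _ _ _ _)

theorem AGm_norm (κ : T d L) (σ : ℝ) {τ : ℝ} (hτ : 0 < τ) (V : T d L → ℝ) : ‖AGm κ σ τ V‖ ≤ 1 := by
  unfold AGm
  rw [norm_mul, Complex.norm_real, Real.norm_eq_abs, abs_of_pos (inv_pos.2 hτ)]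
  have h1 : ‖∫ t in Set.Ioi (0 : ℝ), ((Real.exp (-(t / τ)) : ℝ) : ℂ) * LQ.F2 κ σ V t‖ ≤
      ∫ t in Set.Ioi (0 : ℝ), Real.exp (-(t / τ)) := by
    refine norm_integral_le_of_norm_le (abel_int hτ).1 (Eventually.of_forall fun t => ?_)
    rw [norm_mul, Complex.norm_real, Real.norm_eq_abs, abs_of_pos (Real.exp_pos _)]
    exact mul_le_of_le_one_right (Real.exp_pos _).le (LQ.F2_norm _ _ _ _)
  rw [(abel_int hτ).2] at h1
  calc τ⁻¹ * _ ≤ τ⁻¹ * τ := mul_le_mul_of_nonneg_left h1 (inv_pos.2 hτ).le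
    _ = 1 := inv_mul_cancel₀ hτ.ne'

theorem AGm_integrable (κ : T d L) (σ : ℝ) {τ : ℝ} (hτ : 0 < τ) (y : T d L) :
    Integrable (fun V : T d L → ℝ => AGm κ σ τ (fun z => V (z + y))) (GP (T d L)) := by
  have hm : Measurable fun V : T d L → ℝ => AGm κ σ τ (fun z => V (z + y)) :=
    (AGm_meas κ σ τ).comp (by fun_prop)
  exact Integrable.mono' (integrable_const 1) hm.aestronglyMeasurable
    (Eventually.of_forall fun V => AGm_norm κ σ hτ _)

theorem sum_AGm (κ : T d L) (σ : ℝ) {τ : ℝ} (hτ : 0 < τ) (V : T d L → ℝ) :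
    ((τ⁻¹ : ℝ) : ℂ) * ∫ t in Set.Ioi (0 : ℝ), ((Real.exp (-(t / τ)) : ℝ) : ℂ) *
      ∑ x, ∑ y, e κ (x - y) * ((‖ev (HT (d := d) (L := L) σ V) t x y‖ ^ 2 : ℝ) : ℂ) =
    ∑ y, AGm κ σ τ (fun z => V (z + y)) := by
  have h1 : ∀ t : ℝ, ((Real.exp (-(t / τ)) : ℝ) : ℂ) *
      ∑ x, ∑ y, e κ (x - y) * ((‖ev (HT (d := d) (L := L) σ V) t x y‖ ^ 2 : ℝ) : ℂ) =
      ∑ y, ((Real.exp (-(t / τ)) : ℝ) : ℂ) * LQ.F2 κ σ (fun z => V (z + y)) t := by
    intro t
    rw [Finset.sum_comm, Finset.mul_sum]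
    simp only [F2_shift]
  simp only [h1]
  rw [integral_finsetSum _ fun y _ => F2_int κ σ hτ _, Finset.mul_sum]
  rfl

end QEMS

open QEMS in
/-- QEM -/
theorem qem (h : T_QEA) (hen : T_EN) (hinv : T_INV) : T_QEM := by
  intro d L _ κ σ τ A η hτ hη hA
  have hN := Pool.Agent.W788.MFP.Four.NN_pos (d := d) (L := L)
  set Y : (T d L → ℝ) → ℝ := fun V => (NN d L)⁻¹ * (∑ y, AGm κ σ τ (fun z => V (z + y))).re with hY
  have hint : Integrable (fun V : T d L → ℝ => ∑ y, AGm κ σ τ (fun z => V (z + y))) (GP (T d L)) :=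
    integrable_finsetSum _ fun y _ => AGm_integrable κ σ hτ y
  have hbd : ∀ (V : T d L → ℝ) (u : T d L → T d L → ℂ) (E : T d L → ℝ),
      (∀ j, HT (d := d) (L := L) σ V *ᵥ u j = (E j : ℂ) • u j) →
      (∀ j k, star (u j) ⬝ᵥ u k = if j = k then 1 else 0) →
      ∑ j, ‖∑ x, e κ x * ((‖u j x‖ ^ 2 : ℝ) : ℂ)‖ ^ 2 ≤ Y V * NN d L := by
    intro V u E hE ho
    have h1 := h d L κ (HT σ V) (HT_herm σ V) u E hE ho τ hτ
    rw [sum_AGm κ σ hτ V] at h1
    refine h1.trans (le_of_eq ?_)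
    simp only [hY]
    field_simp
  have hY0 : ∀ V, 0 ≤ Y V := by
    intro V
    obtain ⟨u, E, hE, ho⟩ := PlanS.exists_eigen (HT (d := d) (L := L) σ V) (HT_herm σ V)
    have h1 := hbd V u E hE ho
    have h2 : 0 ≤ ∑ j, ‖∑ x, e κ x * ((‖u j x‖ ^ 2 : ℝ) : ℂ)‖ ^ 2 :=
      Finset.sum_nonneg fun _ _ => by positivity
    exact nonneg_of_mul_nonneg_left (h2.trans h1) hN
  have hYi : Integrable Y (GP (T d L)) := hint.re.const_mul _
  have hYm : Measurable Y := by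
    simp only [hY]
    apply Measurable.const_mul
    apply Complex.measurable_re.comp
    exact Finset.measurable_sum _ fun y _ => (AGm_meas κ σ τ).comp (by fun_prop)
  have hE : ∫ V, Y V ∂(GP (T d L)) ≤ A := by
    have h1 : ∫ V, (∑ y, AGm κ σ τ (fun z => V (z + y))) ∂(GP (T d L)) =
        (NN d L : ℂ) * ∫ V, AGm κ σ τ V ∂(GP (T d L)) := by
      rw [integral_finsetSum _ fun y _ => AGm_integrable κ σ hτ y]
      have h2 : ∀ y : T d L, ∫ V, AGm κ σ τ (fun z => V (z + y)) ∂(GP (T d L)) =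
          ∫ V, AGm κ σ τ V ∂(GP (T d L)) := fun y => (hinv d L y).1 (AGm κ σ τ)
      simp only [h2]
      rw [Finset.sum_const, Finset.card_univ, nsmul_eq_mul]
      congr 1
      unfold NN
      rw [Fintype.card_pi]
      simp
    have h3 := (hen d L σ τ κ hτ).2
    have h4 : ∫ V, AGm κ σ τ V ∂(GP (T d L)) =
        ((1 / (2 * τ) / Real.pi : ℝ) : ℂ) * ∫ E : ℝ, Sr d L σ E (1 / (2 * τ)) κ := by
      rw [← h3]
      unfold AGm
      simp only [LQ.F2_eq]
    have h5 : ∫ V, Y V ∂(GP (T d L)) = (∫ V, AGm κ σ τ V ∂(GP (T d L))).re := by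
      simp only [hY]
      rw [integral_const_mul]
      have h6 := integral_re hint
      simp only [RCLike.re_eq_complex_re] at h6
      rw [h6, h1]
      rw [Complex.re_ofReal_mul]
      field_simp
    rw [h5, h4]
    exact (Complex.re_le_norm _).trans hA
  refine ⟨{V | Y V < η}, hYm measurableSet_Iio, ?_, ?_⟩
  · have h1 := mul_meas_ge_le_integral_of_nonneg (μ := GP (T d L))
      (Eventually.of_forall hY0) hYi η
    have h2 : {V : T d L → ℝ | Y V < η}ᶜ = {V | η ≤ Y V} := by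
      ext V
      simp
    have h3 := probReal_compl_eq_one_sub (μ := GP (T d L))
      (hYm measurableSet_Iio : MeasurableSet {V : T d L → ℝ | Y V < η})
    have h5 : Y ⁻¹' Set.Iio η = {V : T d L → ℝ | Y V < η} := rfl
    rw [h5, h2] at h3
    have h4 : (GP (T d L)).real {V | η ≤ Y V} ≤ A / η := by
      rw [le_div_iff₀ hη, mul_comm]
      exact h1.trans hE
    linarith
  · intro V hV u E hE ho
    exact (hbd V u E hE ho).trans (mul_le_mul_of_nonneg_right (le_of_lt hV) hN.le)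

end Pool.Agent.T2h98.QD
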