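import Pool.Agent.T2h98.QD.Stm6
import Pool.Agent.T2h98.QD.Stm4

/-! Spreading with better exponents: statements. -/

set_option autoImplicit false
set_option linter.unusedSectionVars false

open scoped BigOperators Matrix Topology
open MeasureTheory ProbabilityTheory Filter

namespace Pool.Agent.T2h98.QD

open Pool.Agent.W788.MFP.Four (T e NN adj K)
open Pool.Agent.W788.BK (nsq hs PP JJ hi Low cr)

/-- the limit of the Abel means -/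
def T_LIMA : Prop := ∀ d : ℕ, 3 ≤ d → ∀ h : ℝ, 0 < h → h < (if d = 3 then 2 / 5 else 4 / 5) →
  ∀ Ψ : (Zd d → ℝ) → ℝ → Zd d → ℂ, (∀ v, Evol v (Ψ v)) → ∀ Q : Fin d → ℝ,
  Tendsto (fun σ : ℝ => ∫ s in Set.Ioi (0 : ℝ), ((Real.exp (-s) : ℝ) : ℂ) *
      FF Ψ (fun i => σ ^ (2 + h / 2) * Q i) σ (s / σ ^ (2 + h))) (𝓝[>] 0)
    (𝓝 ((∫ E, fl d Q 1 E : ℝ) : ℂ))

/-- spreading at one time -/
def T_SPR : Prop := ∀ d : ℕ, 3 ≤ d → ∀ h : ℝ, 0 < h → h < (if d = 3 then 2 / 5 else 4 / 5) →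
  ∀ a : ℝ, 0 ≤ a → 2 * a < h → ∀ Ψ : (Zd d → ℝ) → ℝ → Zd d → ℂ, (∀ v, Evol v (Ψ v)) →
  ∀ η : ℝ, 0 < η → ∀ᶠ σ in 𝓝[>] (0 : ℝ), ∀ (i : Fin d) (M : ℕ), 1 ≤ M →
    (M : ℝ) ≤ 5 * σ ^ (-2 - a) →
    ∫ ξ, Wz (Ψ fun x => σ * ξ x) i M (σ ^ (-2 - h)) ∂(GZ d) ≤ η

end Pool.Agent.T2h98.QD
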