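import Pool.Agent.T2h98.QD.Stm8
import Pool.Agent.T2h98.QD.TX4

/-! Quantum ergodicity on tori: definitions and statements of the parts. -/

set_option autoImplicit false
set_option linter.unusedSectionVars false

open scoped BigOperators Matrix Topology
open MeasureTheory ProbabilityTheory Filter

namespace Pool.Agent.T2h98.QD

open Pool.Agent.W788.MFP.Four (T e NN adj K)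
open Pool.Agent.W788.BK (nsq hs PP JJ hi Low cr)

/-- Riemann sums, exponentially small errors -/
def T_JL3 : Prop := ∃ C : ℝ, 0 < C ∧ ∀ (L : ℕ) [NeZero L] (s : ℝ), 16 * |s| ≤ L →
  ‖((L : ℂ)⁻¹ * ∑ j : ZMod L, Complex.exp (((2 * s * cr j : ℝ) : ℂ) * Complex.I)) - jb s‖ ≤
    C * (1 / 2) ^ L ∧
  ‖((L : ℂ)⁻¹ * ∑ j : ZMod L, ((4 * (1 - cr j ^ 2) : ℝ) : ℂ) *
    Complex.exp (((2 * s * cr j : ℝ) : ℂ) * Complex.I)) - kb s‖ ≤ C * (1 / 2) ^ L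

/-- Poisson integrals, small tori -/
def T_POI3 : Prop := ∀ d : ℕ, 3 ≤ d → ∀ θ η : ℝ, 0 < θ → 0 < η → ∃ r : ℝ, 0 < r ∧
  ∀ (E E' Γ : ℝ) (L : ℕ) [NeZero L], |E - E'| < r → 0 < Γ → Γ < r →
  1 / (L : ℝ) ≤ Γ ^ (1 + θ) →
  |(NN d L)⁻¹ * ∑ k : T d L, Γ / ((adj k - E') ^ 2 + Γ ^ 2) - Real.pi * dn d E| ≤ η ∧
  ∀ i : Fin d, |(NN d L)⁻¹ * ∑ k : T d L, 4 * (1 - cr (k i) ^ 2) *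
    (2 * Γ ^ 3 / ((adj k - E') ^ 2 + Γ ^ 2) ^ 2) - Real.pi * dw d E| ≤ η

/-- the difference of the free resolvents at close momenta, small tori -/
def T_DIF3 : Prop := ∀ d : ℕ, 3 ≤ d → ∀ E θ η : ℝ, 0 < θ → 0 < η → ∃ r : ℝ, 0 < r ∧
  ∀ (E' Γ : ℝ) (L : ℕ) [NeZero L] (κ : T d L), |E - E'| < r → 0 < Γ → Γ < r →
  1 / (L : ℝ) ≤ Γ ^ (1 + θ) → Real.sqrt (∑ i, mo κ i ^ 2) ≤ r * Γ →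
  |Γ ^ 3 * ((NN d L)⁻¹ * ∑ k : T d L,
      ‖(((adj (k + κ) - E' : ℝ) : ℂ) - (Γ : ℂ) * Complex.I)⁻¹ -
        (((adj k - E' : ℝ) : ℂ) - (Γ : ℂ) * Complex.I)⁻¹‖ ^ 2) -
    Real.pi / 2 * dw d E * ∑ i, mo κ i ^ 2| ≤ η * ∑ i, mo κ i ^ 2

/-- the embedding, small tori -/
def T_EMB3 : Prop := ∀ d : ℕ, 3 ≤ d → ∀ θ : ℝ, 0 < θ → ∃ C : ℝ, 0 < C ∧
  ∀ (L : ℕ) [NeZero L] (E δ : ℝ), 0 < δ → δ ≤ 1 / 2 → (1 / δ) ^ (1 + θ) ≤ L →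
  ∀ a b : T d L → ℂ,
  ∑ y, ‖a y‖ ^ 2 * ‖b y‖ ^ 2 ≤ C * ke d δ * (qf (J0 E δ) a * qf (J0 E δ) b)

/-- the good event, small tori -/
def T_PROB3 : Prop := ∀ (d K : ℕ) (s : ℝ), 3 ≤ d → 0 < s → s ≤ 1 / 100 →
  ∃ y0 : ℝ, 1 ≤ y0 ∧ ∀ y : ℝ, y0 ≤ y →
  ∀ (L : ℕ) [NeZero L], Real.exp ((2 - s) * y) ≤ L → (L : ℝ) ≤ Real.exp (K * y) →
  ∃ Ω : Set (T d L → ℝ), MeasurableSet Ω ∧ (GP (T d L)).real Ωᶜ ≤ Real.exp (-(K : ℝ) * y) ∧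
    ∀ ξ ∈ Ω, ∀ (E : ℝ) (w : T d L → ℝ), |∑ z, ξ z * w z ^ 2| ≤
      Real.exp y / 2 * Pool.Agent.W788.MFP.Four.q (JJ E (Real.exp (-(2 - s) * y))) w

/-- hypotheses on the parameters, small tori (as `ParU`, but `hg` is at the scale `δ`) -/
structure ParV (d L : ℕ) [NeZero L] (σ E δ ε t Q g p0 : ℝ) (Ω : Set (T d L → ℝ)) : Prop where
  hσ : 0 < σ
  hσ1 : σ ≤ 1
  hε : 0 < ε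
  hεδ : ε ≤ δ
  hδ1 : δ ≤ 1
  ht : 0 ≤ t
  hσt : σ * t ≤ 1 / 2
  hQ1 : 1 ≤ Q
  hQ : ∀ a b : T d L → ℂ, ∑ y, ‖a y‖ ^ 2 * ‖b y‖ ^ 2 ≤ Q * (qf (J0 E δ) a * qf (J0 E δ) b)
  hg1 : 1 ≤ g
  hg : ∀ E' : ℝ, ∑ k : T d L, (JJ E' δ k)⁻¹ ≤ g * NN d L
  hp0 : 0 ≤ p0
  hp : p0 ≤ ε ^ 6
  hΩ : MeasurableSet Ω
  hP : (GP (T d L)).real Ωᶜ ≤ p0
  hgood : ∀ ξ ∈ Ω, ∀ w : T d L → ℝ, |∑ z, ξ z * w z ^ 2| ≤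
    t * Pool.Agent.W788.MFP.Four.q (JJ E δ) w

/-- choice of the parameters, small tori, all `ε` at once -/
def T_SCAL3 : Prop := ∀ β : ℝ, 0 ≤ β → β ≤ 1 / 2 → ∀ d : ℕ, 3 ≤ d → ∀ h : ℝ, 0 < h →
  h < (if d = 3 then 1 else 2) / (2 + β) → ∀ a : ℝ, 0 < a →
  ∀ m0 ζ : ℝ, 0 < m0 → 0 < ζ → ζ ≤ 1 / 4 → ∀ᶠ σ : ℝ in 𝓝[>] 0,
  ∀ (L : ℕ) [NeZero L], σ ^ (-2 - a) ≤ (L : ℝ) → (L : ℝ) ≤ σ ^ (-13 : ℝ) →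
  ∃ (δ t Q g p0 : ℝ) (Ω : Set (T d L → ℝ)),
    (∀ E' Γ : ℝ, m0 * σ ^ 2 ≤ Γ → ∑ k : T d L, (JJ E' Γ k)⁻¹ ≤ g * NN d L) ∧
    ∀ ε : ℝ, σ ^ (2 + h) ≤ ε → ε ≤ σ ^ 2 →
      (∀ E : ℝ, ParV d L σ E δ ε t Q g p0 Ω) ∧ Small2 σ ε δ Q g ζ β

/-- the conclusions of `ParU.fin` for `ParV` -/
def T_FIN3 : Prop := ∀ (d L : ℕ) [NeZero L] (σ E δ ε t Q g p0 ζ β : ℝ) (Ω : Set (T d L → ℝ)),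
  ParV d L σ E δ ε t Q g p0 Ω → Small2 σ ε δ Q g ζ β → 0 ≤ β → ∀ E' Γ : ℝ,
  E' = E + σ ^ 2 * (mT d L σ E ε).re → Γ = ε + σ ^ 2 * (mT d L σ E ε).im →
  ∑ k : T d L, (JJ E' Γ k)⁻¹ ≤ g * NN d L →
    0 ≤ (mT d L σ E ε).im ∧ ‖mT d L σ E ε‖ ≤ 2 * g ∧ |E - E'| ≤ ζ ∧ 0 < Γ ∧ Γ ≤ ζ ∧ ε ≤ Γ ∧
    |(mT d L σ E ε).im - Bf d L E' Γ| ≤ ζ ∧
    (∀ κ : T d L, ‖Sr d L σ E ε κ‖ ≤ (mT d L σ E ε).im / ε) ∧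
    ∀ (κ : T d L) (μ : ℝ), 0 < μ → (∀ k : T d L, |adj k - adj (k + κ)| ≤ μ) →
      ‖(((mT d L σ E ε).im : ℂ) - (ε : ℂ) * Sr d L σ E ε κ) -
        (1 + ((σ ^ 2 : ℝ) : ℂ) * Sr d L σ E ε κ) * ((Γ * Lf d L E' Γ κ / 2 : ℝ) : ℂ)‖ ≤
        μ / ε * (ε / σ ^ 2) ^ β * ζ

/-- simple facts for all parameters -/
def T_SR0 : Prop := ∀ (d L : ℕ) [NeZero L] (σ ε : ℝ), 0 < ε →
  (∀ E : ℝ, 0 ≤ (mT d L σ E ε).im) ∧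
  (∀ (E : ℝ) (κ : T d L), ε * ‖Sr d L σ E ε κ‖ ≤ (mT d L σ E ε).im) ∧
  Integrable (fun E : ℝ => (mT d L σ E ε).im) ∧ ∫ E : ℝ, (mT d L σ E ε).im = Real.pi ∧
  (∀ κ : T d L, Integrable fun E : ℝ => Sr d L σ E ε κ) ∧
  ∀ E : ℝ, ContinuousOn (fun ε : ℝ => (mT d L σ E ε).im) (Set.Ioi 0)

/-- the mean of the diagonal at good energies -/
def T_IMS : Prop := ∀ d : ℕ, 3 ≤ d → ∀ h a : ℝ, 0 < h →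
  h < (if d = 3 then 1 else 2) / (2 + 1 / 2) → 0 < a → ∀ c η : ℝ, 0 < c → 0 < η →
  ∀ᶠ σ : ℝ in 𝓝[>] 0, ∀ (L : ℕ) [NeZero L], σ ^ (-2 - a) ≤ (L : ℝ) → (L : ℝ) ≤ σ ^ (-13 : ℝ) →
  ∀ ε : ℝ, σ ^ (2 + h) ≤ ε → ε ≤ σ ^ 2 → ∀ E : ℝ, c ≤ dn d E →
    |(mT d L σ E ε).im - Real.pi * dn d E| ≤ η

/-- the limit at one energy, small tori -/
def T_LIM3 : Prop := ∀ d : ℕ, 3 ≤ d → ∀ a b : ℝ, 0 < a → b < (if d = 3 then 1 / 5 else 2 / 5) →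
  ∀ τ : ℝ, 0 < τ → ∀ m : Fin d → ℤ, ∀ E : ℝ, 0 < dn d E → ∀ η : ℝ, 0 < η →
  ∀ᶠ σ : ℝ in 𝓝[>] 0, ∀ (L : ℕ) [NeZero L], σ ^ (-2 - a) ≤ (L : ℝ) → (L : ℝ) ≤ σ ^ (-2 - b) →
    ‖((1 / (2 * (τ * σ ^ 2 * (L : ℝ) ^ 2)) : ℝ) : ℂ) *
        Sr d L σ E (1 / (2 * (τ * σ ^ 2 * (L : ℝ) ^ 2))) (fun i => (m i : ZMod L)) -
      ((Real.pi * fl d (fun i => 2 * Real.pi * m i) τ E : ℝ) : ℂ)‖ ≤ η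

/-- the integral over the energies, small tori -/
def T_INT3 : Prop := ∀ d : ℕ, 3 ≤ d → ∀ a b : ℝ, 0 < a → b < (if d = 3 then 1 / 5 else 2 / 5) →
  ∀ m : Fin d → ℤ, m ≠ 0 → ∀ η : ℝ, 0 < η → ∃ τ : ℝ, 0 < τ ∧
  ∀ᶠ σ : ℝ in 𝓝[>] 0, ∀ (L : ℕ) [NeZero L], σ ^ (-2 - a) ≤ (L : ℝ) → (L : ℝ) ≤ σ ^ (-2 - b) →
    ‖((1 / (2 * (τ * σ ^ 2 * (L : ℝ) ^ 2)) / Real.pi : ℝ) : ℂ) * ∫ E : ℝ,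
        Sr d L σ E (1 / (2 * (τ * σ ^ 2 * (L : ℝ) ^ 2))) (fun i => (m i : ZMod L))‖ ≤ η

/-- quantum averages and Abel means -/
def T_QEA : Prop := ∀ (d L : ℕ) [NeZero L] (κ : T d L) (H : Matrix (T d L) (T d L) ℂ),
  H.IsHermitian → ∀ (u : T d L → T d L → ℂ) (E : T d L → ℝ),
  (∀ j, H *ᵥ u j = (E j : ℂ) • u j) →
  (∀ j k, star (u j) ⬝ᵥ u k = if j = k then 1 else 0) → ∀ τ : ℝ, 0 < τ →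
  ∑ j, ‖∑ x, e κ x * ((‖u j x‖ ^ 2 : ℝ) : ℂ)‖ ^ 2 ≤
    (((τ⁻¹ : ℝ) : ℂ) * ∫ t in Set.Ioi (0 : ℝ), ((Real.exp (-(t / τ)) : ℝ) : ℂ) *
      ∑ x, ∑ y, e κ (x - y) * ((‖ev H t x y‖ ^ 2 : ℝ) : ℂ)).re

/-- quantum averages, with high probability -/
def T_QEM : Prop := ∀ (d L : ℕ) [NeZero L] (κ : T d L) (σ τ A η : ℝ), 0 < τ → 0 < η →
  ‖((1 / (2 * τ) / Real.pi : ℝ) : ℂ) * ∫ E : ℝ, Sr d L σ E (1 / (2 * τ)) κ‖ ≤ A →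
  ∃ Ω : Set (T d L → ℝ), MeasurableSet Ω ∧ 1 - A / η ≤ (GP (T d L)).real Ω ∧
    ∀ V ∈ Ω, ∀ (u : T d L → T d L → ℂ) (E : T d L → ℝ),
    (∀ j, HT (d := d) (L := L) σ V *ᵥ u j = (E j : ℂ) • u j) →
    (∀ j k, star (u j) ⬝ᵥ u k = if j = k then 1 else 0) →
    ∑ j, ‖∑ x, e κ x * ((‖u j x‖ ^ 2 : ℝ) : ℂ)‖ ^ 2 ≤ η * NN d L

end Pool.Agent.T2h98.QD
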