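import Pool.Agent.T2h98.QD.TE

/-! The diffusive limit: the limit and the lattice. -/

set_option autoImplicit false
set_option linter.unusedSectionVars false

open scoped BigOperators Matrix Topology
open MeasureTheory ProbabilityTheory Filter

namespace Pool.Agent.T2h98.QD

open Pool.Agent.W788.MFP.Four (T e NN adj K)
open Pool.Agent.W788.BK (nsq hs PP JJ hi Low cr)

/-- the size of the torus -/
noncomputable def LL (σ : ℝ) : ℕ := ⌈(σ ^ 12)⁻¹⌉₊ + 1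

instance (σ : ℝ) : NeZero (LL σ) := ⟨Nat.succ_ne_zero _⟩

/-- the imaginary part of the energy -/
noncomputable def eT (h τ σ : ℝ) : ℝ := σ ^ (2 + h) / (2 * τ)

/-- choice of the parameters -/
def T_SCAL : Prop := ∀ d : ℕ, 3 ≤ d → ∀ h : ℝ, 0 < h → h < 4 * (d - 1) / (7 * (2 * d + 1)) →
  ∀ τ ζ : ℝ, 0 < τ → 0 < ζ → ζ ≤ 1 / 4 → ∀ᶠ σ in 𝓝[>] (0 : ℝ),
  ∃ (δ θ t Q0 g cn p0 : ℝ) (Ω : Set (T d (LL σ) → ℝ)),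
    (∀ E : ℝ, ParT d (LL σ) σ E δ θ (eT h τ σ) t Q0 g cn p0 Ω) ∧
      Small σ (eT h τ σ) δ (Q0 + cn / δ ^ 2) g p0 ζ

/-- the law of the potential on the lattice -/
noncomputable abbrev GZ (d : ℕ) : Measure (Zd d → ℝ) :=
  Measure.infinitePi fun _ : Zd d => gaussianReal 0 1

/-- the characteristic function of the position -/
noncomputable def Fz {d : ℕ} (q : Fin d → ℝ) (p : Zd d → ℂ) : ℂ :=
  ∑' x : Zd d, Complex.exp (((∑ i, q i * (x i : ℝ) : ℝ) : ℂ) * Complex.I) *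
    ((‖p x‖ ^ 2 : ℝ) : ℂ)

/-- its mean -/
noncomputable def FF {d : ℕ} (Ψ : (Zd d → ℝ) → ℝ → Zd d → ℂ) (q : Fin d → ℝ) (σ t : ℝ) : ℂ :=
  ∫ ξ, Fz q (Ψ (fun x => σ * ξ x) t) ∂(GZ d)

/-- the lattice and the torus -/
def T_LATQ : Prop := ∀ (d : ℕ) (Ψ : (Zd d → ℝ) → ℝ → Zd d → ℂ), (∀ v, Evol v (Ψ v)) →
  (∀ q σ, Measurable fun t => FF Ψ q σ t) ∧ (∀ q σ t, ‖FF Ψ q σ t‖ ≤ 1) ∧
  (∀ q σ t, FF Ψ q (-σ) t = FF Ψ q σ t) ∧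
  ∃ C : ℝ, 0 < C ∧ ∀ (L : ℕ) [NeZero L] (κ : T d L) (q : Fin d → ℝ),
    (∀ i, |q i - mo κ i| ≤ 2 * Real.pi / L) → ∀ σ τ : ℝ, 0 < τ →
    ‖((τ⁻¹ : ℝ) : ℂ) * (∫ t in Set.Ioi (0 : ℝ), ((Real.exp (-(t / τ)) : ℝ) : ℂ) * FF Ψ q σ t) -
      ((1 / (2 * τ) / Real.pi : ℝ) : ℂ) * ∫ E : ℝ, Sr d L σ E (1 / (2 * τ)) κ‖ ≤
      C * (1 + τ) ^ 2 / Real.sqrt L

/-- the limit -/
noncomputable def F0 (d : ℕ) (Q : Fin d → ℝ) (s : ℝ) : ℝ :=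
  ∫ E : ℝ, dn d E * Real.exp (-(s * (∑ i, Q i ^ 2) * (dw d E / (2 * Real.pi * dn d E ^ 2))))

/-- the limit of the Abel means, density -/
noncomputable def fl (d : ℕ) (Q : Fin d → ℝ) (τ E : ℝ) : ℝ :=
  dn d E / (1 + τ * (∑ i, Q i ^ 2) * (dw d E / (2 * Real.pi * dn d E ^ 2)))

/-- the limit: basic facts -/
def T_LAP : Prop := ∀ d : ℕ, 3 ≤ d → ∀ Q : Fin d → ℝ,
  (Measurable fun s => F0 d Q (max s 0)) ∧ (∀ s, 0 ≤ F0 d Q (max s 0) ∧ F0 d Q (max s 0) ≤ 1) ∧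
  Integrable (dn d) ∧ ∫ E, dn d E = 1 ∧ ∀ τ : ℝ, 0 < τ → Integrable (fl d Q τ) ∧
    ∫ s in Set.Ioi (0 : ℝ), Real.exp (-(s / τ)) * F0 d Q s = τ * ∫ E, fl d Q τ E

end Pool.Agent.T2h98.QD
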