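import Pool.Agent.T2h98.QD.Stm5

/-! The embedding: statements. -/

set_option autoImplicit false
set_option linter.unusedSectionVars false

open scoped BigOperators Matrix Topology
open MeasureTheory ProbabilityTheory Filter

namespace Pool.Agent.T2h98.QD

open Pool.Agent.W788.MFP.Four (T e NN adj K)
open Pool.Agent.W788.BK (nsq hs PP JJ hi Low cr)

/-- the kernel of `exp(i t Δ)` on the cyclic group `ℤ/L` -/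
noncomputable def pk (L : ℕ) [NeZero L] (t : ℝ) (x : ZMod L) : ℂ :=
  (L : ℂ)⁻¹ * ∑ j : ZMod L, Complex.exp (((2 * t * cr j : ℝ) : ℂ) * Complex.I) *
    (ZMod.stdAddChar (j * x) : ℂ)

/-- uniform bound for the kernel -/
def T_PK : Prop := ∃ C : ℝ, 0 < C ∧ ∀ (L : ℕ) [NeZero L] (t : ℝ) (x : ZMod L),
  16 * (1 + |t|) ≤ L →
  ‖pk L t x‖ ≤ C * ((1 + |t|) * (1 + abs (2 * |t| - |((x.valMinAbs : ℤ) : ℝ)|))) ^ (-(1 / 4) : ℝ)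

/-- time integrals of the kernel -/
def T_PKI : Prop := ∃ C : ℝ, 0 < C ∧ ∀ (L : ℕ) [NeZero L] (s : ℝ) (x : ZMod L), 1 ≤ s →
  64 * s ≤ L →
  ∫ t in s..(2 * s), ‖pk L t x‖ ^ 3 ≤ C / Real.sqrt s ∧
  ∫ t in s..(2 * s), ‖pk L t x‖ ^ 4 ≤ C * (1 + Real.log s) / s

/-- the constant of the embedding on sets -/
noncomputable def kd (d : ℕ) (δ : ℝ) : ℝ :=
  (if d = 3 then δ ^ (-(1 / 4) : ℝ) else 1) * Real.log (1 / δ) ^ 3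

/-- the constant of the embedding -/
noncomputable def ke (d : ℕ) (δ : ℝ) : ℝ :=
  (if d = 3 then δ ^ (-(1 / 2) : ℝ) else 1) * Real.log (1 / δ) ^ 7

/-- the embedding, dual form, on sets -/
def T_SET : Prop := ∀ d : ℕ, 3 ≤ d → ∃ C : ℝ, 0 < C ∧ ∀ (L : ℕ) [NeZero L] (E δ : ℝ), 0 < δ →
  δ ≤ 1 / 2 → 1 / δ ^ 2 ≤ L → ∀ (A : Finset (T d L)) (g : T d L → ℂ),
  (∀ x, ‖g x‖ ≤ if x ∈ A then 1 else 0) →
  qf (J1 E δ) g ≤ C * kd d δ * (A.card : ℝ) ^ (3 / 2 : ℝ)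

/-- the embedding -/
def T_EMB : Prop := ∀ d : ℕ, 3 ≤ d → ∃ C : ℝ, 0 < C ∧ ∀ (L : ℕ) [NeZero L] (E δ : ℝ), 0 < δ →
  δ ≤ 1 / 2 → 1 / δ ^ 2 ≤ L → ∀ a b : T d L → ℂ,
  ∑ y, ‖a y‖ ^ 2 * ‖b y‖ ^ 2 ≤ C * ke d δ * (qf (J0 E δ) a * qf (J0 E δ) b)

end Pool.Agent.T2h98.QD
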