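import Pool.Agent.T2h98.QD.Stm6
import Pool.Agent.T2h98.QD.Stm7

/-! The choice of the parameters, with the direct embedding. -/

set_option autoImplicit false
set_option linter.unusedSectionVars false

open scoped BigOperators Matrix Topology
open MeasureTheory ProbabilityTheory Filter

namespace Pool.Agent.T2h98.QD

open Pool.Agent.W788.MFP.Four (T e NN adj K)
open Pool.Agent.W788.BK (nsq hs PP JJ hi Low cr)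

/-- hypotheses on the parameters, with the direct embedding -/
structure ParU (d L : ℕ) [NeZero L] (σ E δ ε t Q g p0 : ℝ) (Ω : Set (T d L → ℝ)) : Prop where
  hσ : 0 < σ
  hσ1 : σ ≤ 1
  hε : 0 < ε
  hεδ : ε ≤ δ
  hδ1 : δ ≤ 1
  ht : 0 ≤ t
  hσt : σ * t ≤ 1 / 2
  hQ1 : 1 ≤ Q
  hQ : ∀ a b : T d L → ℂ, ∑ y, ‖a y‖ ^ 2 * ‖b y‖ ^ 2 ≤ Q * (qf (J0 E δ) a * qf (J0 E δ) b)
  hg1 : 1 ≤ g
  hg : ∀ E' : ℝ, ∑ k : T d L, (JJ E' ε k)⁻¹ ≤ g * NN d L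
  hp0 : 0 ≤ p0
  hp : p0 ≤ ε ^ 6
  hΩ : MeasurableSet Ω
  hP : (GP (T d L)).real Ωᶜ ≤ p0
  hgood : ∀ ξ ∈ Ω, ∀ w : T d L → ℝ, |∑ z, ξ z * w z ^ 2| ≤
    t * Pool.Agent.W788.MFP.Four.q (JJ E δ) w

/-- smallness of the parameters -/
structure Small2 (σ ε δ Q g ζ β : ℝ) : Prop where
  hεσ : ε ≤ σ ^ 2
  hσδ : σ ^ 2 ≤ δ
  hζ : ζ ≤ 1 / 4
  h1 : 10000 * (σ ^ 2 * Q * (δ / ε) ^ 2) * (σ ^ 2 / ε) ^ β * g ^ 3 ≤ ζ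
  h3 : 3 * σ ^ 2 * g ≤ ζ

/-- choice of the parameters -/
def T_SCAL2 : Prop := ∀ β : ℝ, 0 ≤ β → β ≤ 1 / 2 → ∀ d : ℕ, 3 ≤ d → ∀ h : ℝ, 0 < h →
  h < (if d = 3 then 1 else 2) / (2 + β) →
  ∀ τ ζ : ℝ, 0 < τ → 0 < ζ → ζ ≤ 1 / 4 → ∀ᶠ σ in 𝓝[>] (0 : ℝ),
  ∃ (δ t Q g p0 : ℝ) (Ω : Set (T d (LL σ) → ℝ)),
    (∀ E : ℝ, ParU d (LL σ) σ E δ (eT h τ σ) t Q g p0 Ω) ∧ Small2 σ (eT h τ σ) δ Q g ζ β

end Pool.Agent.T2h98.QD
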