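import Pool.Agent.T2h98.QD.Stm6

/-! The diffusive limit in the mean: statements. -/

set_option autoImplicit false
set_option linter.unusedSectionVars false

open scoped BigOperators Matrix Topology
open MeasureTheory ProbabilityTheory Filter

namespace Pool.Agent.T2h98.QD

open Pool.Agent.W788.MFP.Four (T e NN adj K)
open Pool.Agent.W788.BK (nsq hs PP JJ hi Low cr)

/-- the ladder before taking the mean, `Sr = ∫ KK` -/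
noncomputable def KK (d L : ℕ) [NeZero L] (σ E ε : ℝ) (q : T d L) (V : T d L → ℝ) : ℂ :=
  (cj (e q) (Rh (h0 (d := d) (L := L) E) σ ε V) * (Rh (h0 E) σ ε V)ᴴ) 0 0

/-- energy integrals for each potential -/
def T_EN2 : Prop := ∀ (d L : ℕ) [NeZero L] (σ τ : ℝ) (q : T d L), 0 < τ →
  (∀ V : T d L → ℝ, Integrable (fun E : ℝ => KK d L σ E (1 / (2 * τ)) q V) ∧
    ((τ⁻¹ : ℝ) : ℂ) * ∫ t in Set.Ioi (0 : ℝ), ((Real.exp (-(t / τ)) : ℝ) : ℂ) *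
      ∑ x, e q x * ((‖ev (HT (d := d) (L := L) σ V) t x 0‖ ^ 2 : ℝ) : ℂ) =
    ((1 / (2 * τ) / Real.pi : ℝ) : ℂ) * ∫ E : ℝ, KK d L σ E (1 / (2 * τ)) q V) ∧
  Integrable (fun p : (T d L → ℝ) × ℝ => KK d L σ p.2 (1 / (2 * τ)) q p.1)
    ((GP (T d L)).prod volume)

/-- the lattice and the torus, for each potential -/
def T_LATQ2 : Prop := ∀ (d : ℕ) (Ψ : (Zd d → ℝ) → ℝ → Zd d → ℂ), (∀ v, Evol v (Ψ v)) →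
  (∀ q σ, Measurable fun p : (Zd d → ℝ) × ℝ => Fz q (Ψ (fun x => σ * p.1 x) p.2)) ∧
  (∀ q σ (ξ : Zd d → ℝ) t, ‖Fz q (Ψ (fun x => σ * ξ x) t)‖ ≤ 1) ∧
  (∀ (q : Fin d → ℝ) (σ r a b : ℝ) (c : ℂ),
    ∫ ξ, ‖(∫ s in a..b, Fz q (Ψ (fun x => -σ * ξ x) (s / r))) - c‖ ∂(GZ d) =
    ∫ ξ, ‖(∫ s in a..b, Fz q (Ψ (fun x => σ * ξ x) (s / r))) - c‖ ∂(GZ d)) ∧
  ∃ C : ℝ, 0 < C ∧ ∀ (L : ℕ) [NeZero L] (κ : T d L) (q : Fin d → ℝ),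
    (∀ i, |q i - mo κ i| ≤ 2 * Real.pi / L) → ∀ (σ τ : ℝ) (c : ℂ), 0 < τ →
    ∫ ξ, ‖((τ⁻¹ : ℝ) : ℂ) * (∫ t in Set.Ioi (0 : ℝ), ((Real.exp (-(t / τ)) : ℝ) : ℂ) *
        Fz q (Ψ (fun x => σ * ξ x) t)) - c‖ ∂(GZ d) ≤
      ∫ V, ‖((1 / (2 * τ) / Real.pi : ℝ) : ℂ) * (∫ E : ℝ, KK d L σ E (1 / (2 * τ)) κ V) - c‖
        ∂(GP (T d L)) + C * (1 + τ) ^ 2 / Real.sqrt L

/-- from Abel means to time windows, in the mean -/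
def T_ABEL2 : Prop := ∀ (X : Type) [MeasurableSpace X] (μ : Measure X) [IsProbabilityMeasure μ]
  (ι : Type) (l : Filter ι) (F : ι → X → ℝ → ℂ) (F0 : ℝ → ℂ),
  (∀ i, Measurable fun p : X × ℝ => F i p.1 p.2) → Measurable F0 → (∀ i ω t, ‖F i ω t‖ ≤ 1) →
  (∀ t, ‖F0 t‖ ≤ 1) →
  (∀ τ : ℝ, 0 < τ → Tendsto (fun i => ∫ ω, ‖(∫ t in Set.Ioi (0 : ℝ),
    ((Real.exp (-(t / τ)) : ℝ) : ℂ) * F i ω t) -
    ∫ t in Set.Ioi (0 : ℝ), ((Real.exp (-(t / τ)) : ℝ) : ℂ) * F0 t‖ ∂μ) l (𝓝 0)) →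
  ∀ a b : ℝ, 0 ≤ a → a ≤ b → Tendsto (fun i => ∫ ω, ‖(∫ t in a..b, F i ω t) -
    ∫ t in a..b, F0 t‖ ∂μ) l (𝓝 0)

end Pool.Agent.T2h98.QD
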