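import Pool.Agent.T2h98.QD.TT

/-! The size of the error. -/

set_option autoImplicit false
set_option linter.unusedSectionVars false

open scoped BigOperators Matrix
open MeasureTheory ProbabilityTheory

namespace Pool.Agent.T2h98.QD

open Pool.Agent.W788.MFP.Four (T e NN adj K)
open Pool.Agent.W788.BK (nsq hs PP JJ hi Low cr nsq_nonneg)
open Pool.Agent.W240.BK (BC BM)

/-- the square of the error -/
theorem epsT_sq {σ ε δ Q g p0 im Γ : ℝ} (hσ : 0 < σ) (hε : 0 < ε) (hε1 : ε ≤ 1) (hεδ : ε ≤ δ)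
    (hQ : 1 ≤ Q) (hg : 1 ≤ g) (hp0 : 0 ≤ p0) (hp : p0 ≤ ε ^ 4) (him : 0 ≤ im) (hΓ : 0 < Γ) :
    epsT σ ε δ Q g p0 (g / Γ) im ^ 2 ≤
      8192 * (σ ^ 2 * Q * (δ / ε) ^ 2) ^ 2 * σ ^ 4 * ((g + im) ^ 3 * g / (ε * Γ)) := by
  obtain ⟨D, hD⟩ : ∃ D, D = δ / ε := ⟨_, rfl⟩
  have hD1 : 1 ≤ D := by
    rw [hD, le_div_iff₀ hε, one_mul]
    exact hεδ
  have hDε : δ / ε ^ 2 = D / ε := by
    rw [hD]
    field_simp
  have hv0 : 0 ≤ v2 σ ε δ Q g p0 im := by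
    unfold v2
    rw [← hD]
    positivity
  have hp1 : p0 / ε ^ 4 ≤ 1 := by
    rw [div_le_one (by positivity)]
    exact hp
  have hv : v2 σ ε δ Q g p0 im ≤ 128 * (σ ^ 2 * Q * D ^ 2) * (g + im) ^ 2 := by
    unfold v2
    rw [← hD]
    have e1 : 2 * σ ^ 2 * p0 / ε ^ 4 ≤ 64 * (σ ^ 2 * Q * D ^ 2) * g ^ 2 := by
      calc 2 * σ ^ 2 * p0 / ε ^ 4 = 2 * σ ^ 2 * (p0 / ε ^ 4) := by ring
        _ ≤ 2 * σ ^ 2 * 1 := by gcongr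
        _ ≤ 64 * σ ^ 2 * (Q * (D ^ 2 * g ^ 2)) := by
          have e2 : 1 ≤ D ^ 2 * g ^ 2 := by
            have h1 : (1 : ℝ) ≤ D ^ 2 := one_le_pow₀ hD1
            have h2 : (1 : ℝ) ≤ g ^ 2 := one_le_pow₀ hg
            nlinarith
          have e3 : 1 ≤ Q * (D ^ 2 * g ^ 2) := by nlinarith
          have e4 : 0 < σ ^ 2 := by positivity
          nlinarith
        _ = _ := by ring
    have e2 : 64 * σ ^ 2 * Q * (g ^ 2 + D ^ 2 * im ^ 2) ≤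
        64 * (σ ^ 2 * Q * D ^ 2) * (g ^ 2 + im ^ 2) := by
      have h1 : (1 : ℝ) ≤ D ^ 2 := one_le_pow₀ hD1
      calc 64 * σ ^ 2 * Q * (g ^ 2 + D ^ 2 * im ^ 2) ≤
          64 * σ ^ 2 * Q * (D ^ 2 * g ^ 2 + D ^ 2 * im ^ 2) := by
            have : g ^ 2 ≤ D ^ 2 * g ^ 2 := by nlinarith [sq_nonneg g]
            gcongr
        _ = _ := by ring
    have e3 : 0 ≤ 64 * (σ ^ 2 * Q * D ^ 2) := by positivity
    have e4 : g ^ 2 + im ^ 2 + g ^ 2 ≤ 2 * (g + im) ^ 2 := by nlinarith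
    nlinarith [mul_le_mul_of_nonneg_left e4 e3]
  have hr : rho σ ε δ Q g p0 im ≤ 64 * (σ ^ 2 * Q * D ^ 2) * (g + im) / ε := by
    unfold rho
    have e0 : 32 * σ ^ 2 * Q * (g + δ / ε * im) * δ / ε ^ 2 =
        32 * σ ^ 2 * Q * (g + D * im) * (D / ε) := by
      rw [← hD, ← hDε]
      ring
    rw [e0]
    have e1 : σ ^ 2 * p0 / ε ^ 4 ≤ 32 * (σ ^ 2 * Q * D ^ 2) * (g + im) / ε := by
      calc σ ^ 2 * p0 / ε ^ 4 = σ ^ 2 * (p0 / ε ^ 4) := by ring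
        _ ≤ σ ^ 2 * 1 := by gcongr
        _ ≤ 32 * σ ^ 2 * (Q * (D ^ 2 * (g + im))) := by
          have e2 : 1 ≤ D ^ 2 * (g + im) := by
            have h1 : (1 : ℝ) ≤ D ^ 2 := one_le_pow₀ hD1
            nlinarith
          have e3 : 1 ≤ Q * (D ^ 2 * (g + im)) := by nlinarith
          have e4 : 0 < σ ^ 2 := by positivity
          nlinarith
        _ = 32 * (σ ^ 2 * Q * D ^ 2) * (g + im) * 1 := by ring
        _ ≤ 32 * (σ ^ 2 * Q * D ^ 2) * (g + im) * (1 / ε) := by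
          have : 1 ≤ 1 / ε := by
            rw [le_div_iff₀ hε]
            linarith
          gcongr
        _ = _ := by ring
    have e2 : 32 * σ ^ 2 * Q * (g + D * im) * (D / ε) ≤
        32 * (σ ^ 2 * Q * D ^ 2) * (g + im) / ε := by
      calc 32 * σ ^ 2 * Q * (g + D * im) * (D / ε) ≤
          32 * σ ^ 2 * Q * (D * g + D * im) * (D / ε) := by
            have : g ≤ D * g := by nlinarith
            gcongr
        _ = _ := by ring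
    calc _ ≤ 32 * (σ ^ 2 * Q * D ^ 2) * (g + im) / ε + 32 * (σ ^ 2 * Q * D ^ 2) * (g + im) / ε :=
          add_le_add e2 e1
      _ = _ := by ring
  have hr0 : 0 ≤ rho σ ε δ Q g p0 im := by
    unfold rho
    have hδ : 0 < δ := lt_of_lt_of_le hε hεδ
    positivity
  unfold epsT
  rw [mul_pow, mul_pow, Real.sq_sqrt hv0, Real.sq_sqrt (by positivity), ← hD]
  calc (σ ^ 2) ^ 2 * (v2 σ ε δ Q g p0 im * (rho σ ε δ Q g p0 im * (g / Γ))) ≤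
      (σ ^ 2) ^ 2 * ((128 * (σ ^ 2 * Q * D ^ 2) * (g + im) ^ 2) *
        ((64 * (σ ^ 2 * Q * D ^ 2) * (g + im) / ε) * (g / Γ))) := by gcongr
    _ = _ := by
      field_simp
      ring

/-- smallness of the parameters -/
structure Small (σ ε δ Q g p0 ζ : ℝ) : Prop where
  hε1 : ε ≤ 1
  hεσ : ε ≤ σ ^ 2
  hQ : 1 ≤ Q
  hg : 1 ≤ g
  hp : p0 ≤ ε ^ 4
  hζ : ζ ≤ 1 / 4
  h1 : 384 * (σ ^ 2 * Q * (δ / ε) ^ 2) * (σ ^ 2 / ε) * g ^ 2 ≤ ζ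
  h2 : 471 * (σ ^ 2 * Q * (δ / ε) ^ 2) * ((σ ^ 2 / ε) * Real.sqrt (σ ^ 2 / ε)) * g ^ 2 ≤ ζ
  h3 : 3 * σ ^ 2 * g ≤ ζ

theorem Small.lin {σ ε δ Q g p0 ζ im Γ : ℝ} (s : Small σ ε δ Q g p0 ζ) (hσ : 0 < σ)
    (hε : 0 < ε) (hεδ : ε ≤ δ) (hp0 : 0 ≤ p0) (him : 0 ≤ im) (hΓ : Γ = ε + σ ^ 2 * im) :
    epsT σ ε δ Q g p0 (g / Γ) im ≤ ζ / 3 * ((g + im) / g) := by
  have hg := s.hg
  have hg0 : 0 < g := by linarith
  have hΓε : ε ≤ Γ := by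
    rw [hΓ]
    have : 0 ≤ σ ^ 2 * im := by positivity
    linarith
  have hΓ0 : 0 < Γ := lt_of_lt_of_le hε hΓε
  have hQ0 : 0 < Q := by linarith [s.hQ]
  have hδ : 0 < δ := lt_of_lt_of_le hε hεδ
  have h1 := epsT_sq (Γ := Γ) hσ hε s.hε1 hεδ s.hQ s.hg hp0 s.hp him hΓ0
  have h2 : (g + im) / Γ ≤ 2 * (g / ε) := by
    have e1 : g / Γ ≤ g / ε := by gcongr
    have e2 : im / Γ ≤ g / ε := by
      rw [div_le_div_iff₀ hΓ0 hε, hΓ]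
      have : ε * im ≤ σ ^ 2 * im := by
        have := s.hεσ
        gcongr
      nlinarith [mul_nonneg (sq_nonneg σ) him, mul_pos hg0 hε]
    rw [add_div]
    linarith
  have h3 : epsT σ ε δ Q g p0 (g / Γ) im ^ 2 ≤
      (128 * (σ ^ 2 * Q * (δ / ε) ^ 2) * (σ ^ 2 / ε) * g * (g + im)) ^ 2 := by
    refine h1.trans ?_
    calc 8192 * (σ ^ 2 * Q * (δ / ε) ^ 2) ^ 2 * σ ^ 4 * ((g + im) ^ 3 * g / (ε * Γ)) =
        8192 * (σ ^ 2 * Q * (δ / ε) ^ 2) ^ 2 * σ ^ 4 * ((g + im) ^ 2 * g / ε * ((g + im) / Γ)) := by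
          field_simp
      _ ≤ 8192 * (σ ^ 2 * Q * (δ / ε) ^ 2) ^ 2 * σ ^ 4 *
          ((g + im) ^ 2 * g / ε * (2 * (g / ε))) := by gcongr
      _ = _ := by
          field_simp
          ring
  have h4 : epsT σ ε δ Q g p0 (g / Γ) im ≤
      128 * (σ ^ 2 * Q * (δ / ε) ^ 2) * (σ ^ 2 / ε) * g * (g + im) :=
    le_of_sq_le_sq h3 (by positivity)
  refine h4.trans ?_
  have h5 := s.h1
  calc 128 * (σ ^ 2 * Q * (δ / ε) ^ 2) * (σ ^ 2 / ε) * g * (g + im) =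
      (384 * (σ ^ 2 * Q * (δ / ε) ^ 2) * (σ ^ 2 / ε) * g ^ 2) / 3 * ((g + im) / g) := by
        field_simp
        ring
    _ ≤ _ := by gcongr

theorem Small.reg {σ ε δ Q g p0 ζ im Γ m0 : ℝ} (s : Small σ ε δ Q g p0 ζ) (hσ : 0 < σ)
    (hε : 0 < ε) (hεδ : ε ≤ δ) (hp0 : 0 ≤ p0) (him : 0 ≤ im) (hΓ : Γ = ε + σ ^ 2 * im)
    (him2 : im ≤ 2 * g) (hm0 : 0 < m0) (hm : m0 ≤ im) :
    σ ^ 2 / ε * epsT σ ε δ Q g p0 (g / Γ) im ≤ ζ / Real.sqrt m0 := by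
  have hg := s.hg
  have hg0 : 0 < g := by linarith
  have hΓσ : σ ^ 2 * m0 ≤ Γ := by
    rw [hΓ]
    have : σ ^ 2 * m0 ≤ σ ^ 2 * im := by gcongr
    linarith
  have hΓ0 : 0 < Γ := lt_of_lt_of_le (by positivity) hΓσ
  have hQ0 : 0 < Q := by linarith [s.hQ]
  have hδ : 0 < δ := lt_of_lt_of_le hε hεδ
  have h1 := epsT_sq (Γ := Γ) hσ hε s.hε1 hεδ s.hQ s.hg hp0 s.hp him hΓ0
  have h3 : epsT σ ε δ Q g p0 (g / Γ) im ^ 2 ≤
      (471 * (σ ^ 2 * Q * (δ / ε) ^ 2) * Real.sqrt (σ ^ 2 / ε) * g ^ 2 / Real.sqrt m0) ^ 2 := by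
    refine h1.trans ?_
    have e0 : ∀ A B : ℝ, 0 ≤ B → (471 * A * Real.sqrt B * g ^ 2 / Real.sqrt m0) ^ 2 =
        471 ^ 2 * (A ^ 2 * B * (g ^ 2) ^ 2 / m0) := by
      intro A B hB
      have s1 := Real.sq_sqrt hB
      have s2 := Real.sq_sqrt hm0.le
      calc (471 * A * Real.sqrt B * g ^ 2 / Real.sqrt m0) ^ 2 =
          471 ^ 2 * (A ^ 2 * Real.sqrt B ^ 2 * (g ^ 2) ^ 2 / Real.sqrt m0 ^ 2) := by ring
        _ = _ := by rw [s1, s2]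
    rw [e0 _ _ (by positivity)]
    calc 8192 * (σ ^ 2 * Q * (δ / ε) ^ 2) ^ 2 * σ ^ 4 * ((g + im) ^ 3 * g / (ε * Γ)) ≤
        8192 * (σ ^ 2 * Q * (δ / ε) ^ 2) ^ 2 * σ ^ 4 *
          ((g + 2 * g) ^ 3 * g / (ε * (σ ^ 2 * m0))) := by gcongr
      _ = 221184 * ((σ ^ 2 * Q * (δ / ε) ^ 2) ^ 2 * (σ ^ 2 / ε) * (g ^ 2) ^ 2 / m0) := by
          field_simp
          ring
      _ ≤ 471 ^ 2 * ((σ ^ 2 * Q * (δ / ε) ^ 2) ^ 2 * (σ ^ 2 / ε) * (g ^ 2) ^ 2 / m0) := by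
          have : (221184 : ℝ) ≤ 471 ^ 2 := by norm_num
          gcongr
  have h4 : epsT σ ε δ Q g p0 (g / Γ) im ≤
      471 * (σ ^ 2 * Q * (δ / ε) ^ 2) * Real.sqrt (σ ^ 2 / ε) * g ^ 2 / Real.sqrt m0 :=
    le_of_sq_le_sq h3 (by positivity)
  calc σ ^ 2 / ε * epsT σ ε δ Q g p0 (g / Γ) im ≤ σ ^ 2 / ε *
      (471 * (σ ^ 2 * Q * (δ / ε) ^ 2) * Real.sqrt (σ ^ 2 / ε) * g ^ 2 / Real.sqrt m0) := by
        gcongr
    _ = (471 * (σ ^ 2 * Q * (δ / ε) ^ 2) * ((σ ^ 2 / ε) * Real.sqrt (σ ^ 2 / ε)) * g ^ 2) /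
        Real.sqrt m0 := by ring
    _ ≤ _ := by
        have := s.h2
        gcongr

variable {d L : ℕ} [NeZero L]

theorem Bf_le {E' ε Γ g : ℝ} (hε : 0 < ε) (hΓ : ε ≤ Γ)
    (hg : ∀ E' : ℝ, ∑ k : T d L, (JJ E' ε k)⁻¹ ≤ g * NN d L) :
    ‖((NN d L : ℝ) : ℂ)⁻¹ * ∑ k : T d L, (Yk E' Γ k)⁻¹‖ ≤ g := by
  have hN := Pool.Agent.W788.MFP.Four.NN_pos (d := d) (L := L)
  rw [norm_mul, norm_inv, Complex.norm_real, Real.norm_of_nonneg hN.le, inv_mul_le_iff₀ hN,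
    mul_comm]
  refine (norm_sum_le _ _).trans (le_trans (Finset.sum_le_sum fun k _ => ?_) (hg E'))
  rw [norm_inv, Yk_norm]
  exact JJ_anti E' hε hΓ k

section par

variable {σ E δ θ ε t Q0 g cn p0 ζ : ℝ} {Ω : Set (T d L → ℝ)}

/-- the mean of the diagonal -/
theorem ParT.fin (hP : T_POIN) (hI : T_IBP) (hker : T_KER) (hrqf : T_RQF) (hinv : T_INV)
    (p : ParT d L σ E δ θ ε t Q0 g cn p0 Ω) (s : Small σ ε δ (Q0 + cn / δ ^ 2) g p0 ζ)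
    (E' Γ : ℝ) (hE' : E' = E + σ ^ 2 * (mT d L σ E ε).re)
    (hΓ : Γ = ε + σ ^ 2 * (mT d L σ E ε).im) :
    ‖mT d L σ E ε‖ ≤ 2 * g ∧ |E - E'| ≤ ζ ∧ 0 < Γ ∧ Γ ≤ ζ ∧
    |(mT d L σ E ε).im - Bf d L E' Γ| ≤ ζ ∧
    |(mT d L σ E ε).im - Bf d L E' Γ| ≤
      epsT σ ε δ (Q0 + cn / δ ^ 2) g p0 (g / Γ) (mT d L σ E ε).im := by
  have hσ := p.hσ
  have hε := p.hε
  have him := p.im0 hker hrqf
  have hg := s.hg
  have hg0 : 0 < g := by linarith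
  have hζ0 : 0 < ζ := by
    have := s.h3
    have : 0 < 3 * σ ^ 2 * g := by positivity
    linarith
  have hΓε : ε ≤ Γ := by
    rw [hΓ]
    have : 0 ≤ σ ^ 2 * (mT d L σ E ε).im := by positivity
    linarith
  have h1 := p.mean hP hI hker hrqf hinv E' Γ hE' hΓ
  have h2 := s.lin (im := (mT d L σ E ε).im) hσ hε p.hεδ p.hp0 him hΓ
  have h3 := Bf_le (E' := E') hε hΓε p.hg
  have h4 : (mT d L σ E ε).im ≤ ‖mT d L σ E ε‖ :=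
    (le_abs_self _).trans (Complex.abs_im_le_norm _)
  have h5 : ‖mT d L σ E ε‖ ≤ epsT σ ε δ (Q0 + cn / δ ^ 2) g p0 (g / Γ) (mT d L σ E ε).im +
      g := by
    have e1 := norm_sub_norm_le (mT d L σ E ε) (((NN d L : ℝ) : ℂ)⁻¹ *
      ∑ k : T d L, (Yk E' Γ k)⁻¹)
    linarith
  have h6 : ζ / 3 * ((g + (mT d L σ E ε).im) / g) ≤ 1 / 12 * (g + ‖mT d L σ E ε‖) := by
    have e1 : (g + (mT d L σ E ε).im) / g ≤ g + ‖mT d L σ E ε‖ := by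
      rw [div_le_iff₀ hg0]
      nlinarith [norm_nonneg (mT d L σ E ε)]
    have e2 := s.hζ
    calc ζ / 3 * ((g + (mT d L σ E ε).im) / g) ≤ ζ / 3 * (g + ‖mT d L σ E ε‖) := by gcongr
      _ ≤ 1 / 12 * (g + ‖mT d L σ E ε‖) := by
        have := norm_nonneg (mT d L σ E ε)
        have : 0 ≤ g + ‖mT d L σ E ε‖ := by positivity
        nlinarith
  have h7 : ‖mT d L σ E ε‖ ≤ 2 * g := by linarith
  have h8 : epsT σ ε δ (Q0 + cn / δ ^ 2) g p0 (g / Γ) (mT d L σ E ε).im ≤ ζ := by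
    refine h2.trans ?_
    have e1 : (g + (mT d L σ E ε).im) / g ≤ 3 := by
      rw [div_le_iff₀ hg0]
      linarith
    calc ζ / 3 * ((g + (mT d L σ E ε).im) / g) ≤ ζ / 3 * 3 := by gcongr
      _ = ζ := by ring
  have h9 : |(mT d L σ E ε).im - Bf d L E' Γ| ≤
      epsT σ ε δ (Q0 + cn / δ ^ 2) g p0 (g / Γ) (mT d L σ E ε).im := by
    rw [Bf_im, ← Complex.sub_im]
    exact (Complex.abs_im_le_norm _).trans h1
  refine ⟨h7, ?_, lt_of_lt_of_le hε hΓε, ?_, h9.trans h8, h9⟩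
  · rw [hE']
    have e1 : E - (E + σ ^ 2 * (mT d L σ E ε).re) = -(σ ^ 2 * (mT d L σ E ε).re) := by ring
    rw [e1, abs_neg, abs_mul, abs_of_nonneg (sq_nonneg σ)]
    have e2 := (Complex.abs_re_le_norm (mT d L σ E ε)).trans h7
    have e3 := s.h3
    have e4 : 0 < σ ^ 2 * g := by positivity
    calc σ ^ 2 * |(mT d L σ E ε).re| ≤ σ ^ 2 * (2 * g) := by gcongr
      _ ≤ ζ := by linarith
  · rw [hΓ]
    have e3 := s.h3
    have e4 : σ ^ 2 ≤ σ ^ 2 * g := by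
      have : 0 < σ ^ 2 := by positivity
      nlinarith
    have e5 : σ ^ 2 * (mT d L σ E ε).im ≤ σ ^ 2 * (2 * g) := by
      have := h4.trans h7
      gcongr
    linarith [s.hεσ]

end par

end Pool.Agent.T2h98.QD
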