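import Pool.Agent.T2h98.QD.TL

/-! Mean, ladder and current of the resolvent, with given variance bounds. -/

set_option autoImplicit false
set_option linter.unusedSectionVars false

open scoped BigOperators Matrix
open MeasureTheory ProbabilityTheory

namespace Pool.Agent.T2h98.QD

open Pool.Agent.W788.BK
open Pool.Agent.W240.BK (BC BM cs_int)

variable {n : Type} [Fintype n] [DecidableEq n]

/-- the homogeneous model, with a bound for the variance of the diagonal elements -/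
structure Trg (h : Matrix n n ℂ) (σ ε : ℝ) (mb : ℂ) (G0 : Matrix n n ℂ) (v : ℝ) : Prop where
  hh : h.IsHermitian
  hε : 0 < ε
  hm : ∀ x, ∫ V, Rh h σ ε V x x ∂(GP n) = mb
  hG0 : G0 * (h - ((ε : ℂ) * Complex.I) • (1 : Matrix n n ℂ) -
    (((σ ^ 2 : ℝ) : ℂ) * mb) • (1 : Matrix n n ℂ)) = 1
  hv : ∀ x, var (fun V => Rh h σ ε V x x) ≤ v

section trg

variable {h : Matrix n n ℂ} {σ ε v : ℝ} {mb : ℂ} {G0 : Matrix n n ℂ}

theorem Trg.S (H : Trg h σ ε mb G0 v) : Sys h 1 (fun y => (σ : ℂ) • EY y) ε 1 (σ ^ 2) :=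
  sys_rh H.hh σ ε H.hε

theorem Trg.bmR (H : Trg h σ ε mb G0 v) : BM fun V : n → ℝ => Rh h σ ε V := bm_gg H.S

theorem Trg.bmRH (H : Trg h σ ε mb G0 v) : BM fun V : n → ℝ => (Rh h σ ε V)ᴴ :=
  (MD.gg H.S).star'.bm

theorem Trg.bmC (H : Trg h σ ε mb G0 v) (u : n → ℂ) : BM fun V : n → ℝ => cj u (Rh h σ ε V) :=
  ((MD.gg H.S).cj u).bm

/-- the self-energy term -/
theorem Trg.self_term (H : Trg h σ ε mb G0 v)
    {P Z K : (n → ℝ) → Matrix n n ℂ} (hPb : BM P) (hK : BM K)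
    (hZd : ∀ V x, Z V x x = Rh h σ ε V x x) (R : ℝ)
    (hvar : ∀ x, var (fun V => (K V * P V) x x) ≤ R) :
    ‖∫ V, (P V * (Psi (fun y => (σ : ℂ) • EY y) (Z V) - (((σ ^ 2 : ℝ) : ℂ) * mb) •
      (1 : Matrix n n ℂ)) * K V).trace ∂(GP n)‖ ≤
      Fintype.card n * (σ ^ 2 * (Real.sqrt v * Real.sqrt R)) := by
  have hs2 : 0 ≤ σ ^ 2 := sq_nonneg σ
  have bPK : ∀ x, BC fun V => (K V * P V) x x := fun x => (hK.mul hPb) x x
  have bR : ∀ x, BC fun V : n → ℝ => Rh h σ ε V x x := fun x => H.bmR x x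
  have b1 : ∀ x, BC fun V => (Rh h σ ε V x x - mb) * (K V * P V) x x := fun x =>
    ((bR x).sub (BC.const mb)).mul (bPK x)
  have hpt : ∀ V, (P V * (Psi (fun y => (σ : ℂ) • EY y) (Z V) - (((σ ^ 2 : ℝ) : ℂ) * mb) •
      (1 : Matrix n n ℂ)) * K V).trace =
      ((σ ^ 2 : ℝ) : ℂ) * ∑ x, (Rh h σ ε V x x - mb) * (K V * P V) x x := by
    intro V
    have e1 : Psi (fun y => (σ : ℂ) • EY y) (Z V) - (((σ ^ 2 : ℝ) : ℂ) * mb) •
        (1 : Matrix n n ℂ) =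
        ((σ ^ 2 : ℝ) : ℂ) • Matrix.diagonal (fun x => Rh h σ ε V x x - mb) := by
      rw [psi_EY, mul_smul, ← smul_sub]
      congr 1
      rw [← Matrix.diagonal_one, ← Matrix.diagonal_smul, Matrix.diagonal_sub]
      congr 1
      funext x
      rw [hZd, Pi.smul_apply, smul_eq_mul, mul_one]
    rw [e1, mul_smul_comm, smul_mul_assoc, Matrix.trace_smul, smul_eq_mul, trace_diag]
  have hint : ∫ V, (P V * (Psi (fun y => (σ : ℂ) • EY y) (Z V) - (((σ ^ 2 : ℝ) : ℂ) * mb) •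
      (1 : Matrix n n ℂ)) * K V).trace ∂(GP n) =
      ((σ ^ 2 : ℝ) : ℂ) * ∑ x, ∫ V, (Rh h σ ε V x x - mb) * (K V * P V) x x ∂(GP n) := by
    simp only [hpt]
    rw [integral_const_mul, integral_finsetSum _ fun x _ => (b1 x).integrable _]
  rw [hint, norm_mul, Complex.norm_real, Real.norm_of_nonneg hs2]
  have hx : ∀ x, ‖∫ V, (Rh h σ ε V x x - mb) * (K V * P V) x x ∂(GP n)‖ ≤
      Real.sqrt v * Real.sqrt R := by
    intro x
    refine (cov (bR x) (bPK x) mb (H.hm x)).trans ?_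
    exact mul_le_mul (Real.sqrt_le_sqrt (H.hv x)) (Real.sqrt_le_sqrt (hvar x))
      (Real.sqrt_nonneg _) (Real.sqrt_nonneg _)
  have hsumx : ‖∑ x, ∫ V, (Rh h σ ε V x x - mb) * (K V * P V) x x ∂(GP n)‖ ≤
      Fintype.card n * (Real.sqrt v * Real.sqrt R) := by
    refine (norm_sum_le _ _).trans ((Finset.sum_le_sum fun x _ => hx x).trans (le_of_eq ?_))
    rw [Finset.sum_const, Finset.card_univ, nsmul_eq_mul]
  calc _ ≤ σ ^ 2 * (Fintype.card n * (Real.sqrt v * Real.sqrt R)) :=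
        mul_le_mul_of_nonneg_left hsumx hs2
    _ = _ := by ring

/-- the mean of the resolvent -/
theorem Trg.mean (hI : T_IBP) (H : Trg h σ ε mb G0 v)
    (C : Matrix n n ℂ) (w : ℝ) (hw : ∀ x, var (fun V => (Rh h σ ε V * (C * G0)) x x) ≤ w) :
    ‖∫ V, (C * Rh h σ ε V).trace ∂(GP n) - (C * G0).trace‖ ≤
      Fintype.card n * (σ ^ 2 * (Real.sqrt v * Real.sqrt w)) := by
  have h1 := dyson hI H.S (u := fun _ => 1) (fun _ => by simp) (fun y => cj_onev _)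
    (((σ ^ 2 : ℝ) : ℂ) * mb) G0 H.hG0 (MD.const C)
  simp only [cj_onev, Matrix.zero_mul, Matrix.trace_zero, integral_zero, Finset.sum_const_zero,
    sub_zero, integral_const, probReal_univ, one_smul] at h1
  have h1' : ∫ V, (C * Rh h σ ε V).trace ∂(GP n) = (C * G0).trace +
      ∫ V, (C * G0 * (Psi (fun y => (σ : ℂ) • EY y) (Rh h σ ε V) - (((σ ^ 2 : ℝ) : ℂ) * mb) •
        (1 : Matrix n n ℂ)) * Rh h σ ε V).trace ∂(GP n) := h1
  rw [h1', add_sub_cancel_left]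
  exact H.self_term (P := fun _ => C * G0) (Z := fun V => Rh h σ ε V)
    (K := fun V => Rh h σ ε V) (BM.const _) H.bmR (fun _ _ => rfl) w hw

/-- the ladder equation with a vertex -/
theorem Trg.lad (hI : T_IBP) (H : Trg h σ ε mb G0 v)
    {u : n → ℂ} (hu : ∀ x, ‖u x‖ = 1) (Sq : ℂ)
    (hS : ∀ x, ∫ V, (cj u (Rh h σ ε V) * (Rh h σ ε V)ᴴ) x x ∂(GP n) = Sq)
    (M : Matrix n n ℂ) (v' w w' : ℝ)
    (hv' : ∀ x, var (fun V => (cj u (Rh h σ ε V) * (Rh h σ ε V)ᴴ) x x) ≤ v')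
    (hw : ∀ x, var (fun V => ((Rh h σ ε V)ᴴ * (M * cj u G0)) x x) ≤ w)
    (hw' : ∀ x, var (fun V => (cj u (Rh h σ ε V) * ((Rh h σ ε V)ᴴ * (M * cj u G0))) x x) ≤ w') :
    ‖∫ V, ((Rh h σ ε V)ᴴ * M * cj u (Rh h σ ε V)).trace ∂(GP n) -
      (1 + ((σ ^ 2 : ℝ) : ℂ) * Sq) * ∫ V, ((Rh h σ ε V)ᴴ * (M * cj u G0)).trace ∂(GP n)‖ ≤
      Fintype.card n * (σ ^ 2 * (Real.sqrt v * Real.sqrt w' + Real.sqrt v' * Real.sqrt w)) := by
  have hs2 : 0 ≤ σ ^ 2 := sq_nonneg σ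
  have hA : ∀ y : n, cj u ((σ : ℂ) • EY y) = (σ : ℂ) • EY y := by
    intro y
    rw [cj_smul]
    congr 1
    ext a b
    by_cases hab : a = b
    · subst hab
      rw [cj_diag hu]
    · unfold cj EY
      rw [Matrix.of_apply, Matrix.diagonal_apply_ne _ hab]
      ring
  have hGH := H.bmRH
  have hGc := H.bmC u
  obtain ⟨G1, hG1⟩ : ∃ G1, G1 = M * cj u G0 := ⟨_, rfl⟩
  rw [← hG1] at hw hw' ⊢
  -- integration by parts
  have h1 := dyson hI H.S hu hA (((σ ^ 2 : ℝ) : ℂ) * mb) G0 H.hG0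
    ((MD.gg H.S).star'.mul (MD.const M))
  have h1' : ∫ V, ((Rh h σ ε V)ᴴ * M * cj u (Rh h σ ε V)).trace ∂(GP n) =
      ∫ V, ((Rh h σ ε V)ᴴ * M * cj u G0).trace ∂(GP n) +
      ∫ V, ((Rh h σ ε V)ᴴ * M * cj u G0 * (Psi (fun y => (σ : ℂ) • EY y) (cj u (Rh h σ ε V)) -
        (((σ ^ 2 : ℝ) : ℂ) * mb) • (1 : Matrix n n ℂ)) * cj u (Rh h σ ε V)).trace ∂(GP n) -
      ∑ y, ∫ V, (((-(Rh h σ ε V * ((σ : ℂ) • EY y) * Rh h σ ε V))ᴴ * M +
        (Rh h σ ε V)ᴴ * 0) * cj u G0 *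
        ((σ : ℂ) • EY y) * cj u (Rh h σ ε V)).trace ∂(GP n) := h1
  have a1 : ∀ V : n → ℝ, (Rh h σ ε V)ᴴ * M * cj u G0 = (Rh h σ ε V)ᴴ * G1 := by
    intro V
    rw [hG1, mul_assoc]
  have a2 : ∀ (V : n → ℝ) (y : n), ((-(Rh h σ ε V * ((σ : ℂ) • EY y) * Rh h σ ε V))ᴴ * M +
        (Rh h σ ε V)ᴴ * 0) * cj u G0 = (-(Rh h σ ε V * ((σ : ℂ) • EY y) * Rh h σ ε V))ᴴ * G1 := by
    intro V y
    rw [hG1, mul_zero, add_zero, mul_assoc]
  simp only [a1, a2] at h1'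
  -- the first term
  have h2 := H.self_term (P := fun V => (Rh h σ ε V)ᴴ * G1)
    (Z := fun V => cj u (Rh h σ ε V)) (K := fun V => cj u (Rh h σ ε V))
    (hGH.mul (BM.const _)) hGc (fun V x => cj_diag hu _ x) w' hw'
  -- the second term
  have bY : BM fun V : n → ℝ => (Rh h σ ε V)ᴴ * G1 := hGH.mul (BM.const _)
  have bK : BM fun V : n → ℝ => cj u (Rh h σ ε V) * (Rh h σ ε V)ᴴ := hGc.mul hGH
  have b5 : ∀ x, BC fun V : n → ℝ => ((cj u (Rh h σ ε V) * (Rh h σ ε V)ᴴ) x x - Sq) *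
      ((Rh h σ ε V)ᴴ * G1) x x := fun x => ((bK x x).sub (BC.const Sq)).mul (bY x x)
  have hpt : ∀ V : n → ℝ, -(∑ y, ((-(Rh h σ ε V * ((σ : ℂ) • EY y) * Rh h σ ε V))ᴴ *
      G1 * ((σ : ℂ) • EY y) * cj u (Rh h σ ε V)).trace) =
      ((σ ^ 2 : ℝ) : ℂ) * (∑ x, ((cj u (Rh h σ ε V) * (Rh h σ ε V)ᴴ) x x - Sq) *
        ((Rh h σ ε V)ᴴ * G1) x x + Sq * ((Rh h σ ε V)ᴴ * G1).trace) := by
    intro V
    have e1 : -(∑ y, ((-(Rh h σ ε V * ((σ : ℂ) • EY y) * Rh h σ ε V))ᴴ * G1 *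
        ((σ : ℂ) • EY y) * cj u (Rh h σ ε V)).trace) =
        (Psi (fun y => (σ : ℂ) • EY y) ((Rh h σ ε V)ᴴ * G1) *
        (cj u (Rh h σ ε V) * (Rh h σ ε V)ᴴ)).trace := by
      unfold Psi
      rw [Finset.sum_mul, Matrix.trace_sum, ← Finset.sum_neg_distrib]
      refine Finset.sum_congr rfl fun y _ => ?_
      obtain ⟨A, hAA⟩ : ∃ A, A = ((σ : ℂ) • EY y : Matrix n n ℂ) := ⟨_, rfl⟩
      have hAh : Aᴴ = A := by
        rw [hAA]
        exact (EY_herm σ y).eq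
      beta_reduce
      rw [← hAA, Matrix.conjTranspose_neg, Matrix.conjTranspose_mul, Matrix.conjTranspose_mul, hAh]
      have e2 : -((-((Rh h σ ε V)ᴴ * (A * (Rh h σ ε V)ᴴ)) * G1 *
          A * cj u (Rh h σ ε V)).trace) = ((Rh h σ ε V)ᴴ *
          (A * (Rh h σ ε V)ᴴ * G1 * A * cj u (Rh h σ ε V))).trace := by
        rw [← Matrix.trace_neg]
        congr 1
        noncomm_ring
      rw [e2, Matrix.trace_mul_comm]
      congr 1
      noncomm_ring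
    rw [e1, psi_EY, smul_mul_assoc, Matrix.trace_smul, smul_eq_mul]
    congr 1
    unfold Matrix.trace
    rw [Finset.mul_sum, ← Finset.sum_add_distrib]
    refine Finset.sum_congr rfl fun x _ => ?_
    rw [Matrix.diag_apply, Matrix.diagonal_mul, Matrix.diag_apply]
    ring
  have hbD : ∀ y, BC fun V : n → ℝ => ((-(Rh h σ ε V * ((σ : ℂ) • EY y) * Rh h σ ε V))ᴴ *
      G1 * ((σ : ℂ) • EY y) * cj u (Rh h σ ε V)).trace := fun y =>
    (((((MD.gg H.S).star'.bmD y).mul (BM.const _)).mul (BM.const _)).mul hGc).trace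
  have hint : -(∑ y, ∫ V, ((-(Rh h σ ε V * ((σ : ℂ) • EY y) * Rh h σ ε V))ᴴ * G1 *
      ((σ : ℂ) • EY y) * cj u (Rh h σ ε V)).trace ∂(GP n)) =
      ((σ ^ 2 : ℝ) : ℂ) * (∑ x, ∫ V, ((cj u (Rh h σ ε V) * (Rh h σ ε V)ᴴ) x x - Sq) *
        ((Rh h σ ε V)ᴴ * G1) x x ∂(GP n) +
        Sq * ∫ V, ((Rh h σ ε V)ᴴ * G1).trace ∂(GP n)) := by
    rw [← integral_finsetSum _ fun y _ => (hbD y).integrable _, ← integral_neg]
    simp only [hpt]
    have i1 : Integrable (fun V : n → ℝ => ∑ x, ((cj u (Rh h σ ε V) * (Rh h σ ε V)ᴴ) x x - Sq) *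
        ((Rh h σ ε V)ᴴ * G1) x x) (GP n) :=
      integrable_finsetSum _ fun x _ => (b5 x).integrable _
    have i2 : Integrable (fun V : n → ℝ => Sq * ((Rh h σ ε V)ᴴ * G1).trace) (GP n) :=
      (bY.trace.integrable _).const_mul _
    rw [integral_const_mul, integral_add i1 i2,
      integral_finsetSum _ fun x _ => (b5 x).integrable _, integral_const_mul]
  rw [sub_eq_add_neg, hint] at h1'
  -- bounds
  have hx : ∀ x, ‖∫ V, ((cj u (Rh h σ ε V) * (Rh h σ ε V)ᴴ) x x - Sq) *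
        ((Rh h σ ε V)ᴴ * G1) x x ∂(GP n)‖ ≤ Real.sqrt v' * Real.sqrt w := by
    intro x
    refine (cov (bK x x) (bY x x) Sq (hS x)).trans ?_
    exact mul_le_mul (Real.sqrt_le_sqrt (hv' x)) (Real.sqrt_le_sqrt (hw x)) (Real.sqrt_nonneg _)
      (Real.sqrt_nonneg _)
  have hsumx : ‖∑ x, ∫ V, ((cj u (Rh h σ ε V) * (Rh h σ ε V)ᴴ) x x - Sq) *
        ((Rh h σ ε V)ᴴ * G1) x x ∂(GP n)‖ ≤
      Fintype.card n * (Real.sqrt v' * Real.sqrt w) := by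
    refine (norm_sum_le _ _).trans ((Finset.sum_le_sum fun x _ => hx x).trans (le_of_eq ?_))
    rw [Finset.sum_const, Finset.card_univ, nsmul_eq_mul]
  rw [h1']
  obtain ⟨X1, hX1⟩ : ∃ X1, X1 = ∫ V, ((Rh h σ ε V)ᴴ * G1).trace ∂(GP n) := ⟨_, rfl⟩
  obtain ⟨X2, hX2⟩ : ∃ X2, X2 = ∫ V, ((Rh h σ ε V)ᴴ * G1 *
    (Psi (fun y => (σ : ℂ) • EY y) (cj u (Rh h σ ε V)) -
      (((σ ^ 2 : ℝ) : ℂ) * mb) • (1 : Matrix n n ℂ)) * cj u (Rh h σ ε V)).trace ∂(GP n) :=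
    ⟨_, rfl⟩
  obtain ⟨X3, hX3⟩ : ∃ X3, X3 = ∑ x, ∫ V, ((cj u (Rh h σ ε V) * (Rh h σ ε V)ᴴ) x x - Sq) *
        ((Rh h σ ε V)ᴴ * G1) x x ∂(GP n) := ⟨_, rfl⟩
  rw [← hX2] at h2
  rw [← hX3] at hsumx
  rw [← hX1, ← hX2, ← hX3]
  have e1 : X1 + X2 + ((σ ^ 2 : ℝ) : ℂ) * (X3 + Sq * X1) - (1 + ((σ ^ 2 : ℝ) : ℂ) * Sq) * X1 =
      X2 + ((σ ^ 2 : ℝ) : ℂ) * X3 := by ring
  rw [e1]
  calc ‖X2 + ((σ ^ 2 : ℝ) : ℂ) * X3‖ ≤ ‖X2‖ + σ ^ 2 * ‖X3‖ := by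
        refine (norm_add_le _ _).trans ?_
        rw [norm_mul, Complex.norm_real, Real.norm_of_nonneg hs2]
    _ ≤ Fintype.card n * (σ ^ 2 * (Real.sqrt v * Real.sqrt w')) + σ ^ 2 * (Fintype.card n *
          (Real.sqrt v' * Real.sqrt w)) := by gcongr
    _ = _ := by ring

/-- the continuity equation -/
theorem Trg.cont (H : Trg h σ ε mb G0 v) {u : n → ℂ} (hu : ∀ x, ‖u x‖ = 1) (V : n → ℝ) :
    (Rh h σ ε V)ᴴ * (h - cj u h) * cj u (Rh h σ ε V) = cj u (Rh h σ ε V) - (Rh h σ ε V)ᴴ -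
      (2 * (ε : ℂ) * Complex.I) • ((Rh h σ ε V)ᴴ * cj u (Rh h σ ε V)) := by
  have S := H.S
  obtain ⟨D, hD⟩ : ∃ D : Matrix n n ℂ, D = ∑ y, (V y : ℂ) • ((σ : ℂ) • EY y) := ⟨_, rfl⟩
  obtain ⟨X, hX⟩ : ∃ X, X = XG h 1 (fun y => (σ : ℂ) • EY y) ε V := ⟨_, rfl⟩
  obtain ⟨R, hR⟩ : ∃ R, R = Rh h σ ε V := ⟨_, rfl⟩
  have h1 : X * R = 1 := by
    rw [hX, hR]
    exact xg_gg S V
  have h2 : Rᴴ * Xᴴ = 1 := by
    rw [hX, hR]
    exact ggH_xgH S V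
  have hX1 : X = h + D - ((ε : ℂ) * Complex.I) • (1 : Matrix n n ℂ) := by
    rw [hX, hD]
    rfl
  have hEY : ∀ y : n, cj u ((σ : ℂ) • EY y) = (σ : ℂ) • EY y := by
    intro y
    rw [cj_smul]
    congr 1
    ext a b
    by_cases hab : a = b
    · subst hab
      rw [cj_diag hu]
    · unfold cj EY
      rw [Matrix.of_apply, Matrix.diagonal_apply_ne _ hab]
      ring
  have hDc : cj u D = D := by
    rw [hD, cj_sum]
    refine Finset.sum_congr rfl fun y _ => ?_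
    rw [cj_smul, hEY]
  have hDH : Dᴴ = D := by
    rw [hD, Matrix.conjTranspose_sum]
    refine Finset.sum_congr rfl fun y _ => ?_
    rw [Matrix.conjTranspose_smul, (EY_herm σ y).eq, Complex.star_def, Complex.conj_ofReal]
  have hXH : Xᴴ = h + D + ((ε : ℂ) * Complex.I) • (1 : Matrix n n ℂ) := by
    rw [hX1, Matrix.conjTranspose_sub, Matrix.conjTranspose_add, H.hh.eq, hDH,
      Matrix.conjTranspose_smul, Matrix.conjTranspose_one]
    have e1 : star ((ε : ℂ) * Complex.I) = -((ε : ℂ) * Complex.I) := by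
      rw [Complex.star_def, map_mul, Complex.conj_ofReal, Complex.conj_I, mul_neg]
    rw [e1, neg_smul, sub_neg_eq_add]
  have hXc : cj u X = cj u h + D - ((ε : ℂ) * Complex.I) • (1 : Matrix n n ℂ) := by
    rw [hX1, cj_sub, cj_add, hDc, cj_smul, cj_one hu]
  have h3 : cj u X * cj u R = 1 := by rw [← cj_mul hu, h1, cj_one hu]
  have h4 : h - cj u h = Xᴴ - cj u X - (2 * (ε : ℂ) * Complex.I) • (1 : Matrix n n ℂ) := by
    rw [hXH, hXc]
    have e1 : (2 * (ε : ℂ) * Complex.I) • (1 : Matrix n n ℂ) =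
        ((ε : ℂ) * Complex.I) • (1 : Matrix n n ℂ) + ((ε : ℂ) * Complex.I) •
          (1 : Matrix n n ℂ) := by
      rw [← add_smul]
      congr 1
      ring
    rw [e1]
    abel
  rw [← hR, h4, mul_sub, mul_sub, h2, sub_mul, sub_mul, one_mul, mul_assoc Rᴴ (cj u X), h3,
    mul_one, mul_smul_comm, mul_one, smul_mul_assoc]

/-- the current -/
theorem Trg.cur (hI : T_IBP) (H : Trg h σ ε mb G0 v)
    {u : n → ℂ} (hu : ∀ x, ‖u x‖ = 1) (Sq : ℂ) (x0 : n)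
    (hS : ∀ x, ∫ V, (cj u (Rh h σ ε V) * (Rh h σ ε V)ᴴ) x x ∂(GP n) = Sq)
    (v' w w' e3 : ℝ)
    (hv' : ∀ x, var (fun V => (cj u (Rh h σ ε V) * (Rh h σ ε V)ᴴ) x x) ≤ v')
    (hw : ∀ x, var (fun V => ((Rh h σ ε V)ᴴ * ((h - cj u h) * cj u G0)) x x) ≤ w)
    (hw' : ∀ x, var (fun V => (cj u (Rh h σ ε V) * ((Rh h σ ε V)ᴴ *
      ((h - cj u h) * cj u G0))) x x) ≤ w')
    (he3 : ‖∫ V, (((h - cj u h) * cj u G0)ᴴ * Rh h σ ε V).trace ∂(GP n) -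
      (((h - cj u h) * cj u G0)ᴴ * G0).trace‖ ≤ Fintype.card n * e3) (Tq : ℂ)
    (hTq : (G0ᴴ * ((h - cj u h) * cj u G0)).trace = Fintype.card n * Tq) :
    ‖2 * Complex.I * ((mb.im : ℂ) - (ε : ℂ) * Sq) - (1 + ((σ ^ 2 : ℝ) : ℂ) * Sq) * Tq‖ ≤
      σ ^ 2 * (Real.sqrt v * Real.sqrt w' + Real.sqrt v' * Real.sqrt w) +
        (1 + σ ^ 2 * ‖Sq‖) * e3 := by
  have hn : (0 : ℝ) < Fintype.card n := by exact_mod_cast Fintype.card_pos_iff.2 ⟨x0⟩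
  have l1 := H.lad hI hu Sq hS (h - cj u h) v' w w' hv' hw hw'
  obtain ⟨G1, hG1⟩ : ∃ G1, G1 = (h - cj u h) * cj u G0 := ⟨_, rfl⟩
  rw [← hG1] at l1 he3 hTq
  have hR := H.bmR
  have hRH := H.bmRH
  have hRc := H.bmC u
  have hK : BM fun V : n → ℝ => (Rh h σ ε V)ᴴ * cj u (Rh h σ ε V) := hRH.mul hRc
  -- the trace of the resolvent
  have t1 : ∫ V, (cj u (Rh h σ ε V)).trace ∂(GP n) = Fintype.card n * mb := by
    have e1 : ∀ V : n → ℝ, (cj u (Rh h σ ε V)).trace = ∑ x, Rh h σ ε V x x := by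
      intro V
      unfold Matrix.trace
      refine Finset.sum_congr rfl fun x _ => ?_
      rw [Matrix.diag_apply, cj_diag hu]
    simp only [e1]
    rw [integral_finsetSum _ fun x _ => (hR x x).integrable _]
    simp only [H.hm, Finset.sum_const, Finset.card_univ, nsmul_eq_mul]
  have t2 : ∫ V, ((Rh h σ ε V)ᴴ).trace ∂(GP n) = Fintype.card n * (starRingEnd ℂ) mb := by
    have e1 : ∀ V : n → ℝ, ((Rh h σ ε V)ᴴ).trace =
        (starRingEnd ℂ) (cj u (Rh h σ ε V)).trace := by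
      intro V
      rw [Matrix.trace_conjTranspose, Complex.star_def]
      congr 1
      unfold Matrix.trace
      refine Finset.sum_congr rfl fun x _ => ?_
      rw [Matrix.diag_apply, Matrix.diag_apply, cj_diag hu]
    simp only [e1]
    rw [integral_conj, t1, map_mul, Complex.conj_natCast]
  have t3 : ∫ V, ((Rh h σ ε V)ᴴ * cj u (Rh h σ ε V)).trace ∂(GP n) = Fintype.card n * Sq := by
    have e1 : ∀ V : n → ℝ, ((Rh h σ ε V)ᴴ * cj u (Rh h σ ε V)).trace =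
        ∑ x, (cj u (Rh h σ ε V) * (Rh h σ ε V)ᴴ) x x := by
      intro V
      rw [Matrix.trace_mul_comm]
      rfl
    simp only [e1]
    have hK' : BM fun V : n → ℝ => cj u (Rh h σ ε V) * (Rh h σ ε V)ᴴ := hRc.mul hRH
    rw [integral_finsetSum _ fun x _ => (hK' x x).integrable _]
    simp only [hS, Finset.sum_const, Finset.card_univ, nsmul_eq_mul]
  have t4 : ∫ V, ((Rh h σ ε V)ᴴ * (h - cj u h) * cj u (Rh h σ ε V)).trace ∂(GP n) =
      Fintype.card n * (2 * Complex.I * ((mb.im : ℂ) - (ε : ℂ) * Sq)) := by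
    simp only [H.cont hu, Matrix.trace_sub, Matrix.trace_smul, smul_eq_mul]
    have i1 : Integrable (fun V : n → ℝ => (cj u (Rh h σ ε V)).trace) (GP n) :=
      hRc.trace.integrable _
    have i2 : Integrable (fun V : n → ℝ => ((Rh h σ ε V)ᴴ).trace) (GP n) :=
      hRH.trace.integrable _
    have i3 : Integrable (fun V : n → ℝ => 2 * (ε : ℂ) * Complex.I *
        ((Rh h σ ε V)ᴴ * cj u (Rh h σ ε V)).trace) (GP n) :=
      (hK.trace.integrable _).const_mul _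
    have i12 : Integrable (fun V : n → ℝ => (cj u (Rh h σ ε V)).trace -
        ((Rh h σ ε V)ᴴ).trace) (GP n) := i1.sub i2
    rw [integral_sub i12 i3, integral_sub i1 i2, integral_const_mul, t1, t2, t3]
    have e1 : mb - (starRingEnd ℂ) mb = (2 * mb.im : ℝ) * Complex.I := Complex.sub_conj mb
    push_cast at e1
    linear_combination (Fintype.card n : ℂ) * e1
  -- the mean
  have t5 : ‖∫ V, ((Rh h σ ε V)ᴴ * G1).trace ∂(GP n) - (Fintype.card n : ℂ) * Tq‖ ≤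
      Fintype.card n * e3 := by
    obtain ⟨X, hX⟩ : ∃ X, X = ∫ V, ((Rh h σ ε V)ᴴ * G1).trace ∂(GP n) := ⟨_, rfl⟩
    have e1 : ∫ V, (G1ᴴ * Rh h σ ε V).trace ∂(GP n) = star X := by
      rw [hX, RCLike.star_def, ← integral_conj]
      refine integral_congr_ae (Filter.Eventually.of_forall fun V => ?_)
      simp only
      rw [← RCLike.star_def, ← Matrix.trace_conjTranspose, Matrix.conjTranspose_mul,
        Matrix.conjTranspose_conjTranspose]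
    have e2 : (G1ᴴ * G0).trace = star ((Fintype.card n : ℂ) * Tq) := by
      rw [← hTq, ← Matrix.trace_conjTranspose, Matrix.conjTranspose_mul,
        Matrix.conjTranspose_conjTranspose]
    rw [e1, e2, ← star_sub, norm_star] at he3
    rw [← hX]
    exact he3
  -- combine
  have e30 : 0 ≤ e3 := by
    have h1 := (norm_nonneg _).trans t5
    exact nonneg_of_mul_nonneg_right h1 hn
  rw [t4] at l1
  obtain ⟨X1, hX1⟩ : ∃ X1, X1 = ∫ V, ((Rh h σ ε V)ᴴ * G1).trace ∂(GP n) := ⟨_, rfl⟩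
  rw [← hX1] at l1 t5
  obtain ⟨K, hK⟩ : ∃ K, K = σ ^ 2 * (Real.sqrt v * Real.sqrt w' + Real.sqrt v' * Real.sqrt w) :=
    ⟨_, rfl⟩
  rw [← hK] at l1 ⊢
  have key : ‖(Fintype.card n : ℂ) * (2 * Complex.I * ((mb.im : ℂ) - (ε : ℂ) * Sq) -
      (1 + ((σ ^ 2 : ℝ) : ℂ) * Sq) * Tq)‖ ≤ Fintype.card n * (K + (1 + σ ^ 2 * ‖Sq‖) * e3) := by
    have e1 : (Fintype.card n : ℂ) * (2 * Complex.I * ((mb.im : ℂ) - (ε : ℂ) * Sq) -
        (1 + ((σ ^ 2 : ℝ) : ℂ) * Sq) * Tq) =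
        ((Fintype.card n : ℂ) * (2 * Complex.I * ((mb.im : ℂ) - (ε : ℂ) * Sq)) -
          (1 + ((σ ^ 2 : ℝ) : ℂ) * Sq) * X1) +
        (1 + ((σ ^ 2 : ℝ) : ℂ) * Sq) * (X1 - (Fintype.card n : ℂ) * Tq) := by ring
    have e2 : ‖1 + ((σ ^ 2 : ℝ) : ℂ) * Sq‖ ≤ 1 + σ ^ 2 * ‖Sq‖ := by
      refine (norm_add_le _ _).trans ?_
      rw [norm_one, norm_mul, Complex.norm_real, Real.norm_of_nonneg (sq_nonneg σ)]
    rw [e1]
    refine (norm_add_le _ _).trans ?_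
    rw [norm_mul (1 + ((σ ^ 2 : ℝ) : ℂ) * Sq)]
    calc _ ≤ Fintype.card n * K + (1 + σ ^ 2 * ‖Sq‖) * (Fintype.card n * e3) := by gcongr
      _ = _ := by ring
  rw [norm_mul, Complex.norm_natCast] at key
  exact le_of_mul_le_mul_left key hn

end trg

end Pool.Agent.T2h98.QD
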