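import Pool.Agent.T2h98.QD.TLim
import Pool.Agent.T2h98.QD.Avg

/-! The integral over the energy. -/

set_option autoImplicit false
set_option linter.unusedSectionVars false

open scoped BigOperators Matrix Topology
open MeasureTheory ProbabilityTheory Filter

namespace Pool.Agent.T2h98.QD

open Pool.Agent.W788.MFP.Four (T e NN adj K)
open Pool.Agent.W788.BK (nsq hs PP JJ hi Low cr)
open Pool.Agent.W240.BK (BC BM)

theorem eT_eq {h τ σ : ℝ} (hτ : 0 < τ) (hσ : 0 < σ) :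
    eT h τ σ = 1 / (2 * (τ / σ ^ (2 + h))) := by
  unfold eT
  have := Real.rpow_pos_of_pos hσ (2 + h)
  field_simp

/-- the total mass -/
theorem mass_one (hen : T_EN) {d L : ℕ} [NeZero L] (σ τ : ℝ) (hτ : 0 < τ) :
    ((1 / (2 * τ) / Real.pi : ℝ) : ℂ) * ∫ E : ℝ, Sr d L σ E (1 / (2 * τ)) 0 = 1 := by
  have h1 := (hen d L σ τ 0 hτ).2
  rw [← h1]
  have : IsProbabilityMeasure (GP (T d L)) := by
    show IsProbabilityMeasure (Measure.pi fun _ : T d L => gaussianReal 0 1)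
    infer_instance
  have e1 : ∀ V : T d L → ℝ, (((τ⁻¹ : ℝ) : ℂ) * ∫ t in Set.Ioi (0 : ℝ),
      ((Real.exp (-(t / τ)) : ℝ) : ℂ) *
      ∑ x, e 0 x * ((‖ev (HT (d := d) (L := L) σ V) t x 0‖ ^ 2 : ℝ) : ℂ)) = 1 := by
    intro V
    have e2 : ∀ t : ℝ, ∑ x, e 0 x * ((‖ev (HT (d := d) (L := L) σ V) t x 0‖ ^ 2 : ℝ) : ℂ) = 1 := by
      intro t
      have e3 : ∀ x : T d L, e 0 x = 1 := fun x => by
        rw [Pool.Agent.W788.MFP.Four.e_comm, Pool.Agent.W788.MFP.Four.e_zero]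
      simp only [e3, one_mul]
      rw [← Complex.ofReal_sum, ev_col _ (HT_herm σ V) t 0, Complex.ofReal_one]
    simp only [e2, mul_one]
    rw [integral_complex_ofReal, (abel_int hτ).2, ← Complex.ofReal_mul,
      inv_mul_cancel₀ hτ.ne', Complex.ofReal_one]
  simp only [e1]
  rw [integral_const, probReal_univ, one_smul]

/-- bound for the ladder, all parameters -/
theorem sr_bd {d L : ℕ} [NeZero L] (σ E : ℝ) {ε : ℝ} (hε : 0 < ε) (κ : T d L) :
    ε * ‖Sr d L σ E ε κ‖ ≤ (mT d L σ E ε).im := by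
  have hh : (h0 (d := d) (L := L) E).IsHermitian := by
    unfold h0 Matrix.IsHermitian
    rw [mo_star]
    congr 1
    funext k
    rw [Complex.conj_ofReal]
  have S := sys_rh hh σ ε hε
  have hK : BM fun V : T d L → ℝ => cj (e κ) (Rh (h0 E) σ ε V) * (Rh (h0 E) σ ε V)ᴴ :=
    ((MD.gg S).cj (e κ)).bm.mul (MD.gg S).star'.bm
  have hR : BC fun V : T d L → ℝ => Rh (h0 (d := d) (L := L) E) σ ε V 0 0 := bm_gg S 0 0
  have hpt : ∀ V : T d L → ℝ, ‖(cj (e κ) (Rh (h0 E) σ ε V) * (Rh (h0 E) σ ε V)ᴴ) 0 0‖ ≤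
      (Rh (h0 (d := d) (L := L) E) σ ε V 0 0).im / ε := by
    intro V
    have e1 : (cj (e κ) (Rh (h0 (d := d) (L := L) E) σ ε V) * (Rh (h0 E) σ ε V)ᴴ) 0 0 =
        star ((cj (e κ) (Rh (h0 (d := d) (L := L) E) σ ε V))ᴴ *ᵥ dl 0) ⬝ᵥ
          ((Rh (h0 (d := d) (L := L) E) σ ε V)ᴴ *ᵥ dl 0) := by
      rw [← Pool.Agent.W788.BK.adjoint, Matrix.mulVec_mulVec, form_dl]
    rw [e1]
    refine (Pool.Agent.W788.BK.cs_norm _ _).trans ?_
    rw [← cj_star, nsq_cj_dl (fun x => e_norm κ x),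
      Real.mul_self_sqrt (Pool.Agent.W788.BK.nsq_nonneg _)]
    have h2 := (nsq_gg_im S V (dl 0)).2
    rw [mul_one, form_dl] at h2
    exact h2
  have him : ∫ V, (Rh (h0 (d := d) (L := L) E) σ ε V 0 0).im ∂(GP (T d L)) =
      (mT d L σ E ε).im := integral_im (hR.integrable _)
  have h3 : ‖Sr d L σ E ε κ‖ ≤ (mT d L σ E ε).im / ε := by
    unfold Sr
    calc _ ≤ ∫ V, ‖(cj (e κ) (Rh (h0 (d := d) (L := L) E) σ ε V) *
          (Rh (h0 E) σ ε V)ᴴ) 0 0‖ ∂(GP (T d L)) := norm_integral_le_integral_norm _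
      _ ≤ ∫ V, (Rh (h0 (d := d) (L := L) E) σ ε V 0 0).im / ε ∂(GP (T d L)) :=
          integral_mono (RC.norm (hK 0 0)).integrable ((RC.im hR).integrable.div_const _) hpt
      _ = _ := by rw [integral_div, him]
  rw [le_div_iff₀ hε] at h3
  linarith

/-- the integral over the energy -/
theorem lim_int (F : Fac2) {d : ℕ} {h τ : ℝ} (P : Prm d h τ) (Q : Fin d → ℝ)
    (κ : ∀ σ : ℝ, T d (LL σ))
    (hκ : ∀ᶠ σ in 𝓝[>] (0 : ℝ), ∀ i, |σ ^ (2 + h / 2) * Q i - mo (κ σ) i| ≤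
      2 * Real.pi / (LL σ : ℝ)) (hI1 : ∫ E, dn d E = 1) :
    Tendsto (fun σ : ℝ => ((eT h τ σ / Real.pi : ℝ) : ℂ) *
      ∫ E : ℝ, Sr d (LL σ) σ E (eT h τ σ) (κ σ)) (𝓝[>] 0)
      (𝓝 ((∫ E, fl d Q τ E : ℝ) : ℂ)) := by
  have hτ := P.hτ
  have hpi := Real.pi_pos
  obtain ⟨hc, -, hn0, hw0, hz, -⟩ := F.dos d P.hd
  obtain ⟨A, hA⟩ : ∃ A : Set ℝ, A = Set.Icc (-(2 * (d : ℝ))) (2 * d) := ⟨_, rfl⟩
  have hAm : MeasurableSet A := by
    rw [hA]
    exact measurableSet_Icc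
  have hzA : ∀ E, E ∉ A → dn d E = 0 := by
    intro E hE
    apply (hz E _).1
    rw [hA, Set.mem_Icc, not_and_or, not_le, not_le] at hE
    rcases hE with h1 | h1
    · exact le_abs.2 (Or.inr (by linarith))
    · exact le_abs.2 (Or.inl (by linarith))
  obtain ⟨M, hM⟩ : ∃ M : ℝ → ℝ → ℝ, M = fun σ E => (mT d (LL σ) σ E (eT h τ σ)).im / Real.pi :=
    ⟨_, rfl⟩
  obtain ⟨G, hG⟩ : ∃ G : ℝ → ℝ → ℂ, G = fun σ E => ((eT h τ σ / Real.pi : ℝ) : ℂ) *
    Sr d (LL σ) σ E (eT h τ σ) (κ σ) := ⟨_, rfl⟩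
  have hMi : ∀ σ : ℝ, 0 < σ → Integrable (M σ) := by
    intro σ hσ
    have hε := eT_pos (h := h) hτ hσ
    have hτ' : 0 < τ / σ ^ (2 + h) := div_pos hτ (Real.rpow_pos_of_pos hσ _)
    have h1 := (F.en d (LL σ) σ (τ / σ ^ (2 + h)) 0 hτ').1
    rw [← eT_eq hτ hσ] at h1
    have h2 := h1.re.const_mul (eT h τ σ / Real.pi)
    refine h2.congr (Eventually.of_forall fun E => ?_)
    simp only [sr_zero σ E hε, hM, RCLike.re_to_complex, Complex.ofReal_re]
    field_simp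
  have hM1 : ∀ σ : ℝ, 0 < σ → ∫ E, M σ E = 1 := by
    intro σ hσ
    have hε := eT_pos (h := h) hτ hσ
    have hτ' : 0 < τ / σ ^ (2 + h) := div_pos hτ (Real.rpow_pos_of_pos hσ _)
    have h1 := mass_one F.en (d := d) (L := LL σ) σ (τ / σ ^ (2 + h)) hτ'
    rw [← eT_eq hτ hσ] at h1
    simp only [sr_zero σ _ hε] at h1
    rw [integral_complex_ofReal, ← Complex.ofReal_mul, ← integral_const_mul] at h1
    have h2 : ∫ E : ℝ, eT h τ σ / Real.pi * ((mT d (LL σ) σ E (eT h τ σ)).im / eT h τ σ) = 1 := by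
      exact_mod_cast h1
    rw [← h2]
    refine integral_congr_ae (Eventually.of_forall fun E => ?_)
    simp only [hM]
    field_simp
  have hGi : ∀ σ : ℝ, 0 < σ → Integrable (G σ) := by
    intro σ hσ
    have hτ' : 0 < τ / σ ^ (2 + h) := div_pos hτ (Real.rpow_pos_of_pos hσ _)
    have h1 := (F.en d (LL σ) σ (τ / σ ^ (2 + h)) (κ σ) hτ').1
    rw [← eT_eq hτ hσ] at h1
    rw [hG]
    exact h1.const_mul _
  have hGM : ∀ σ : ℝ, 0 < σ → ∀ E, ‖G σ E‖ ≤ M σ E := by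
    intro σ hσ E
    have hε := eT_pos (h := h) hτ hσ
    have h1 := sr_bd (d := d) (L := LL σ) σ E hε (κ σ)
    simp only [hG, hM]
    rw [norm_mul, Complex.norm_real, Real.norm_of_nonneg (by positivity)]
    calc eT h τ σ / Real.pi * ‖Sr d (LL σ) σ E (eT h τ σ) (κ σ)‖ =
        (eT h τ σ * ‖Sr d (LL σ) σ E (eT h τ σ) (κ σ)‖) / Real.pi := by ring
      _ ≤ _ := by gcongr
  have l_mem : ∀ᶠ σ in 𝓝[>] (0 : ℝ), 0 < σ := self_mem_nhdsWithin
  -- bound
  obtain ⟨C, hC⟩ : ∃ C, ∀ E, dn d E ≤ C := by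
    obtain ⟨x0, -, hx0⟩ := (isCompact_Icc (a := -(2 * (d : ℝ))) (b := 2 * d)).exists_isMaxOn
      (Set.nonempty_Icc.2 (by have : (0 : ℝ) ≤ d := Nat.cast_nonneg d; linarith))
      hc.continuousOn
    refine ⟨max 0 (dn d x0), fun E => ?_⟩
    by_cases hE : E ∈ A
    · rw [hA] at hE
      exact (hx0 hE).trans (le_max_right _ _)
    · rw [hzA E hE]
      exact le_max_left _ _
  have l_M : ∀ E, Tendsto (fun σ => M σ E) (𝓝[>] 0) (𝓝 (dn d E)) := by
    intro E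
    rw [Metric.tendsto_nhds]
    intro η hη
    filter_upwards [lim_im F P (η / 2) (by positivity)] with σ hσ
    rw [Real.dist_eq, hM]
    have h1 := hσ E
    have e1 : (mT d (LL σ) σ E (eT h τ σ)).im / Real.pi - dn d E =
        ((mT d (LL σ) σ E (eT h τ σ)).im - Real.pi * dn d E) / Real.pi := by
      field_simp
    simp only
    rw [e1, abs_div, abs_of_pos hpi, div_lt_iff₀ hpi]
    have h3 := Real.pi_gt_three
    nlinarith
  have l_Mb : ∀ᶠ σ in 𝓝[>] (0 : ℝ), ∀ E, M σ E ≤ C + 1 := by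
    filter_upwards [lim_im F P 1 one_pos] with σ hσ E
    rw [hM]
    simp only
    rw [div_le_iff₀ hpi]
    have h1 := (abs_le.1 (hσ E)).2
    have h2 := hC E
    have h3 := Real.pi_gt_three
    nlinarith
  have hfin : volume A < ⊤ := by
    rw [hA]
    exact isCompact_Icc.measure_lt_top
  -- the part inside
  have l_MA : Tendsto (fun σ => ∫ E in A, M σ E) (𝓝[>] 0) (𝓝 1) := by
    have e1 : ∫ E in A, dn d E = 1 := by
      rw [← hI1, setIntegral_eq_integral_of_forall_compl_eq_zero fun E hE => hzA E hE]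
    rw [← e1]
    refine tendsto_integral_filter_of_dominated_convergence (fun _ => C + 1) ?_ ?_ ?_ ?_
    · filter_upwards [l_mem] with σ hσ
      exact (hMi σ hσ).aestronglyMeasurable.restrict
    · filter_upwards [l_mem, l_Mb] with σ hσ hb
      refine Eventually.of_forall fun E => ?_
      rw [Real.norm_of_nonneg ((norm_nonneg _).trans (hGM σ hσ E))]
      exact hb E
    · exact integrableOn_const hfin.ne
    · exact Eventually.of_forall fun E => l_M E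
  have l_GA : Tendsto (fun σ => ∫ E in A, G σ E) (𝓝[>] 0)
      (𝓝 (∫ E in A, ((fl d Q τ E : ℝ) : ℂ))) := by
    refine tendsto_integral_filter_of_dominated_convergence (fun _ => C + 1) ?_ ?_ ?_ ?_
    · filter_upwards [l_mem] with σ hσ
      exact (hGi σ hσ).aestronglyMeasurable.restrict
    · filter_upwards [l_mem, l_Mb] with σ hσ hb
      exact Eventually.of_forall fun E => (hGM σ hσ E).trans (hb E)
    · exact integrableOn_const hfin.ne
    · refine Eventually.of_forall fun E => ?_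
      have h1 := (lim_pt F P Q κ hκ E).const_mul (((Real.pi)⁻¹ : ℝ) : ℂ)
      have e1 : (((Real.pi)⁻¹ : ℝ) : ℂ) * ((Real.pi * fl d Q τ E : ℝ) : ℂ) =
          ((fl d Q τ E : ℝ) : ℂ) := by
        rw [← Complex.ofReal_mul, ← mul_assoc, inv_mul_cancel₀ hpi.ne', one_mul]
      rw [e1] at h1
      refine h1.congr fun σ => ?_
      rw [hG]
      simp only
      push_cast
      ring
  -- the part outside
  have l_GAc : Tendsto (fun σ => ∫ E in Aᶜ, G σ E) (𝓝[>] 0) (𝓝 0) := by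
    rw [tendsto_zero_iff_norm_tendsto_zero]
    have h1 : Tendsto (fun σ => 1 - ∫ E in A, M σ E) (𝓝[>] 0) (𝓝 0) := by
      have := (tendsto_const_nhds (x := (1 : ℝ)) (f := 𝓝[>] (0 : ℝ))).sub l_MA
      rwa [sub_self] at this
    refine squeeze_zero' (Eventually.of_forall fun σ => norm_nonneg _) ?_ h1
    filter_upwards [l_mem] with σ hσ
    have e1 := integral_add_compl hAm (hMi σ hσ)
    rw [hM1 σ hσ] at e1
    calc ‖∫ E in Aᶜ, G σ E‖ ≤ ∫ E in Aᶜ, ‖G σ E‖ := norm_integral_le_integral_norm _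
      _ ≤ ∫ E in Aᶜ, M σ E :=
        integral_mono (hGi σ hσ).norm.integrableOn (hMi σ hσ).integrableOn fun E => hGM σ hσ E
      _ = _ := by linarith
  have l_tot := l_GA.add l_GAc
  have e2 : (∫ E in A, ((fl d Q τ E : ℝ) : ℂ)) + 0 = ((∫ E, fl d Q τ E : ℝ) : ℂ) := by
    rw [add_zero, ← integral_complex_ofReal,
      setIntegral_eq_integral_of_forall_compl_eq_zero fun E hE => ?_]
    unfold fl
    rw [hzA E hE]
    simp
  rw [e2] at l_tot
  refine l_tot.congr' ?_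
  filter_upwards [l_mem] with σ hσ
  rw [integral_add_compl hAm (hGi σ hσ), hG]
  simp only
  rw [integral_const_mul]

end Pool.Agent.T2h98.QD
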