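import Pool.Agent.T2h98.QD.TLim2

/-! The integral over the energy. -/

set_option autoImplicit false
set_option linter.unusedSectionVars false

open scoped BigOperators Matrix Topology
open MeasureTheory ProbabilityTheory Filter

namespace Pool.Agent.T2h98.QD.U

open Pool.Agent.W788.MFP.Four (T e NN adj K)
open Pool.Agent.W788.BK (nsq hs PP JJ hi Low cr)
open Pool.Agent.W240.BK (BC BM)

/-- the integral over the energy -/
theorem lim_int {d : ℕ} {h τ : ℝ} (P : Fac3 d h τ) (Q : Fin d → ℝ)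
    (κ : ∀ σ : ℝ, T d (LL σ))
    (hκ : ∀ᶠ σ in 𝓝[>] (0 : ℝ), ∀ i, |σ ^ (2 + h / 2) * Q i - mo (κ σ) i| ≤
      2 * Real.pi / (LL σ : ℝ)) (hI1 : ∫ E, dn d E = 1) :
    Tendsto (fun σ : ℝ => ((eT h τ σ / Real.pi : ℝ) : ℂ) *
      ∫ E : ℝ, Sr d (LL σ) σ E (eT h τ σ) (κ σ)) (𝓝[>] 0)
      (𝓝 ((∫ E, fl d Q τ E : ℝ) : ℂ)) := by
  have hτ := P.hτ
  have hpi := Real.pi_pos
  obtain ⟨hc, -, hn0, hw0, hz, -⟩ := P.dos d P.hd
  obtain ⟨A, hA⟩ : ∃ A : Set ℝ, A = Set.Icc (-(2 * (d : ℝ))) (2 * d) := ⟨_, rfl⟩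
  have hAm : MeasurableSet A := by
    rw [hA]
    exact measurableSet_Icc
  have hzA : ∀ E, E ∉ A → dn d E = 0 := by
    intro E hE
    apply (hz E _).1
    rw [hA, Set.mem_Icc, not_and_or, not_le, not_le] at hE
    rcases hE with h1 | h1
    · exact le_abs.2 (Or.inr (by linarith))
    · exact le_abs.2 (Or.inl (by linarith))
  obtain ⟨M, hM⟩ : ∃ M : ℝ → ℝ → ℝ, M = fun σ E => (mT d (LL σ) σ E (eT h τ σ)).im / Real.pi :=
    ⟨_, rfl⟩
  obtain ⟨G, hG⟩ : ∃ G : ℝ → ℝ → ℂ, G = fun σ E => ((eT h τ σ / Real.pi : ℝ) : ℂ) *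
    Sr d (LL σ) σ E (eT h τ σ) (κ σ) := ⟨_, rfl⟩
  have hMi : ∀ σ : ℝ, 0 < σ → Integrable (M σ) := by
    intro σ hσ
    have hε := eT_pos (h := h) hτ hσ
    have hτ' : 0 < τ / σ ^ (2 + h) := div_pos hτ (Real.rpow_pos_of_pos hσ _)
    have h1 := (P.en d (LL σ) σ (τ / σ ^ (2 + h)) 0 hτ').1
    rw [← eT_eq hτ hσ] at h1
    have h2 := h1.re.const_mul (eT h τ σ / Real.pi)
    refine h2.congr (Eventually.of_forall fun E => ?_)
    simp only [sr_zero σ E hε, hM, RCLike.re_to_complex, Complex.ofReal_re]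
    field_simp
  have hM1 : ∀ σ : ℝ, 0 < σ → ∫ E, M σ E = 1 := by
    intro σ hσ
    have hε := eT_pos (h := h) hτ hσ
    have hτ' : 0 < τ / σ ^ (2 + h) := div_pos hτ (Real.rpow_pos_of_pos hσ _)
    have h1 := mass_one P.en (d := d) (L := LL σ) σ (τ / σ ^ (2 + h)) hτ'
    rw [← eT_eq hτ hσ] at h1
    simp only [sr_zero σ _ hε] at h1
    rw [integral_complex_ofReal, ← Complex.ofReal_mul, ← integral_const_mul] at h1
    have h2 : ∫ E : ℝ, eT h τ σ / Real.pi * ((mT d (LL σ) σ E (eT h τ σ)).im / eT h τ σ) = 1 := by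
      exact_mod_cast h1
    rw [← h2]
    refine integral_congr_ae (Eventually.of_forall fun E => ?_)
    simp only [hM]
    field_simp
  have hGi : ∀ σ : ℝ, 0 < σ → Integrable (G σ) := by
    intro σ hσ
    have hτ' : 0 < τ / σ ^ (2 + h) := div_pos hτ (Real.rpow_pos_of_pos hσ _)
    have h1 := (P.en d (LL σ) σ (τ / σ ^ (2 + h)) (κ σ) hτ').1
    rw [← eT_eq hτ hσ] at h1
    rw [hG]
    exact h1.const_mul _
  have hGM : ∀ σ : ℝ, 0 < σ → ∀ E, ‖G σ E‖ ≤ M σ E := by
    intro σ hσ E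
    have hε := eT_pos (h := h) hτ hσ
    have h1 := sr_bd (d := d) (L := LL σ) σ E hε (κ σ)
    simp only [hG, hM]
    rw [norm_mul, Complex.norm_real, Real.norm_of_nonneg (by positivity)]
    calc eT h τ σ / Real.pi * ‖Sr d (LL σ) σ E (eT h τ σ) (κ σ)‖ =
        (eT h τ σ * ‖Sr d (LL σ) σ E (eT h τ σ) (κ σ)‖) / Real.pi := by ring
      _ ≤ _ := by gcongr
  have l_mem : ∀ᶠ σ in 𝓝[>] (0 : ℝ), 0 < σ := self_mem_nhdsWithin
  -- bound
  obtain ⟨C, hC⟩ : ∃ C, ∀ E, dn d E ≤ C := by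
    obtain ⟨x0, -, hx0⟩ := (isCompact_Icc (a := -(2 * (d : ℝ))) (b := 2 * d)).exists_isMaxOn
      (Set.nonempty_Icc.2 (by have : (0 : ℝ) ≤ d := Nat.cast_nonneg d; linarith))
      hc.continuousOn
    refine ⟨max 0 (dn d x0), fun E => ?_⟩
    by_cases hE : E ∈ A
    · rw [hA] at hE
      exact (hx0 hE).trans (le_max_right _ _)
    · rw [hzA E hE]
      exact le_max_left _ _
  have l_M : ∀ E, Tendsto (fun σ => M σ E) (𝓝[>] 0) (𝓝 (dn d E)) := by
    intro E
    rw [Metric.tendsto_nhds]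
    intro η hη
    filter_upwards [lim_im P (η / 2) (by positivity)] with σ hσ
    rw [Real.dist_eq, hM]
    have h1 := hσ E
    have e1 : (mT d (LL σ) σ E (eT h τ σ)).im / Real.pi - dn d E =
        ((mT d (LL σ) σ E (eT h τ σ)).im - Real.pi * dn d E) / Real.pi := by
      field_simp
    simp only
    rw [e1, abs_div, abs_of_pos hpi, div_lt_iff₀ hpi]
    have h3 := Real.pi_gt_three
    nlinarith
  have l_Mb : ∀ᶠ σ in 𝓝[>] (0 : ℝ), ∀ E, M σ E ≤ C + 1 := by
    filter_upwards [lim_im P 1 one_pos] with σ hσ E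
    rw [hM]
    simp only
    rw [div_le_iff₀ hpi]
    have h1 := (abs_le.1 (hσ E)).2
    have h2 := hC E
    have h3 := Real.pi_gt_three
    nlinarith
  have hfin : volume A < ⊤ := by
    rw [hA]
    exact isCompact_Icc.measure_lt_top
  -- the part inside
  have l_MA : Tendsto (fun σ => ∫ E in A, M σ E) (𝓝[>] 0) (𝓝 1) := by
    have e1 : ∫ E in A, dn d E = 1 := by
      rw [← hI1, setIntegral_eq_integral_of_forall_compl_eq_zero fun E hE => hzA E hE]
    rw [← e1]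
    refine tendsto_integral_filter_of_dominated_convergence (fun _ => C + 1) ?_ ?_ ?_ ?_
    · filter_upwards [l_mem] with σ hσ
      exact (hMi σ hσ).aestronglyMeasurable.restrict
    · filter_upwards [l_mem, l_Mb] with σ hσ hb
      refine Eventually.of_forall fun E => ?_
      rw [Real.norm_of_nonneg ((norm_nonneg _).trans (hGM σ hσ E))]
      exact hb E
    · exact integrableOn_const hfin.ne
    · exact Eventually.of_forall fun E => l_M E
  have l_GA : Tendsto (fun σ => ∫ E in A, G σ E) (𝓝[>] 0)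
      (𝓝 (∫ E in A, ((fl d Q τ E : ℝ) : ℂ))) := by
    refine tendsto_integral_filter_of_dominated_convergence (fun _ => C + 1) ?_ ?_ ?_ ?_
    · filter_upwards [l_mem] with σ hσ
      exact (hGi σ hσ).aestronglyMeasurable.restrict
    · filter_upwards [l_mem, l_Mb] with σ hσ hb
      exact Eventually.of_forall fun E => (hGM σ hσ E).trans (hb E)
    · exact integrableOn_const hfin.ne
    · refine Eventually.of_forall fun E => ?_
      have h1 := (lim_pt P Q κ hκ E).const_mul (((Real.pi)⁻¹ : ℝ) : ℂ)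
      have e1 : (((Real.pi)⁻¹ : ℝ) : ℂ) * ((Real.pi * fl d Q τ E : ℝ) : ℂ) =
          ((fl d Q τ E : ℝ) : ℂ) := by
        rw [← Complex.ofReal_mul, ← mul_assoc, inv_mul_cancel₀ hpi.ne', one_mul]
      rw [e1] at h1
      refine h1.congr fun σ => ?_
      rw [hG]
      simp only
      push_cast
      ring
  -- the part outside
  have l_GAc : Tendsto (fun σ => ∫ E in Aᶜ, G σ E) (𝓝[>] 0) (𝓝 0) := by
    rw [tendsto_zero_iff_norm_tendsto_zero]
    have h1 : Tendsto (fun σ => 1 - ∫ E in A, M σ E) (𝓝[>] 0) (𝓝 0) := by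
      have := (tendsto_const_nhds (x := (1 : ℝ)) (f := 𝓝[>] (0 : ℝ))).sub l_MA
      rwa [sub_self] at this
    refine squeeze_zero' (Eventually.of_forall fun σ => norm_nonneg _) ?_ h1
    filter_upwards [l_mem] with σ hσ
    have e1 := integral_add_compl hAm (hMi σ hσ)
    rw [hM1 σ hσ] at e1
    calc ‖∫ E in Aᶜ, G σ E‖ ≤ ∫ E in Aᶜ, ‖G σ E‖ := norm_integral_le_integral_norm _
      _ ≤ ∫ E in Aᶜ, M σ E :=
        integral_mono (hGi σ hσ).norm.integrableOn (hMi σ hσ).integrableOn fun E => hGM σ hσ E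
      _ = _ := by linarith
  have l_tot := l_GA.add l_GAc
  have e2 : (∫ E in A, ((fl d Q τ E : ℝ) : ℂ)) + 0 = ((∫ E, fl d Q τ E : ℝ) : ℂ) := by
    rw [add_zero, ← integral_complex_ofReal,
      setIntegral_eq_integral_of_forall_compl_eq_zero fun E hE => ?_]
    unfold fl
    rw [hzA E hE]
    simp
  rw [e2] at l_tot
  refine l_tot.congr' ?_
  filter_upwards [l_mem] with σ hσ
  rw [integral_add_compl hAm (hGi σ hσ), hG]
  simp only
  rw [integral_const_mul]

end Pool.Agent.T2h98.QD.U
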