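import Pool.Agent.T2h98.QD.TLim2
import Pool.Agent.T2h98.QD.Stm9

/-! The variance of the ladder. -/

set_option autoImplicit false
set_option linter.unusedSectionVars false

open scoped BigOperators Matrix Topology
open MeasureTheory ProbabilityTheory Filter

namespace Pool.Agent.T2h98.QD

open Pool.Agent.W788.MFP.Four (T e NN adj K)
open Pool.Agent.W788.BK (nsq hs PP JJ hi Low cr nsq_nonneg)
open Pool.Agent.W240.BK (BC BM)

variable {d L : ℕ} [NeZero L]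

theorem kk_bc (σ E : ℝ) {ε : ℝ} (hε : 0 < ε) (κ : T d L) :
    BC fun V : T d L → ℝ => KK d L σ E ε κ V := by
  have S := sys_rh (h0_herm (d := d) (L := L) E) σ ε hε
  have hK : BM fun V : T d L → ℝ => cj (e κ) (Rh (h0 E) σ ε V) * (Rh (h0 E) σ ε V)ᴴ :=
    ((MD.gg S).cj (e κ)).bm.mul (MD.gg S).star'.bm
  exact hK 0 0

theorem kk_int (σ E ε : ℝ) (κ : T d L) :
    ∫ V, KK d L σ E ε κ V ∂(GP (T d L)) = Sr d L σ E ε κ := rfl

theorem kk_le (σ E : ℝ) {ε : ℝ} (hε : 0 < ε) (κ : T d L) (V : T d L → ℝ) :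
    ε * ‖KK d L σ E ε κ V‖ ≤ (Rh (h0 (d := d) (L := L) E) σ ε V 0 0).im := by
  have S := sys_rh (h0_herm (d := d) (L := L) E) σ ε hε
  have e1 : KK d L σ E ε κ V =
      star ((cj (e κ) (Rh (h0 (d := d) (L := L) E) σ ε V))ᴴ *ᵥ dl 0) ⬝ᵥ
        ((Rh (h0 (d := d) (L := L) E) σ ε V)ᴴ *ᵥ dl 0) := by
    unfold KK
    rw [← Pool.Agent.W788.BK.adjoint, Matrix.mulVec_mulVec, form_dl]
  have h3 : ‖KK d L σ E ε κ V‖ ≤ (Rh (h0 (d := d) (L := L) E) σ ε V 0 0).im / ε := by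
    rw [e1]
    refine (Pool.Agent.W788.BK.cs_norm _ _).trans ?_
    rw [← cj_star, nsq_cj_dl (fun x => e_norm κ x), Real.mul_self_sqrt (nsq_nonneg _)]
    have h2 := (nsq_gg_im S V (dl 0)).2
    rw [mul_one, form_dl] at h2
    exact h2
  rw [le_div_iff₀ hε] at h3
  linarith

/-- Jensen's inequality for the square -/
theorem jensen_sq {m : Type} [Fintype m] [DecidableEq m] {f : (m → ℝ) → ℝ} (hf : RC f) :
    (∫ V, f V ∂(GP m)) ^ 2 ≤ ∫ V, f V ^ 2 ∂(GP m) := by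
  obtain ⟨c, hc⟩ : ∃ c, c = ∫ V, f V ∂(GP m) := ⟨_, rfl⟩
  have hP : IsProbabilityMeasure (GP m) := by
    show IsProbabilityMeasure (Measure.pi fun _ : m => gaussianReal 0 1)
    infer_instance
  have i1 : Integrable (fun V => f V ^ 2) (GP m) := hf.sq.integrable
  have i2 : Integrable (fun V => 2 * c * f V) (GP m) := hf.integrable.const_mul _
  have i3 : Integrable (fun _ : m → ℝ => c ^ 2) (GP m) := integrable_const _
  have h1 : 0 ≤ ∫ V, (f V - c) ^ 2 ∂(GP m) := integral_nonneg fun V => sq_nonneg _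
  have h2 : ∫ V, (f V - c) ^ 2 ∂(GP m) = ∫ V, f V ^ 2 ∂(GP m) - c ^ 2 := by
    have e1 : ∀ V, (f V - c) ^ 2 = f V ^ 2 - 2 * c * f V + c ^ 2 := fun V => by ring
    simp only [e1]
    have i12 : Integrable (fun V => f V ^ 2 - 2 * c * f V) (GP m) := i1.sub i2
    rw [integral_add i12 i3, integral_sub i1 i2, integral_const_mul, ← hc, integral_const,
      probReal_univ, one_smul]
    ring
  rw [← hc]
  linarith

section par

variable {σ E δ ε t Q g p0 ζ β : ℝ} {Ω : Set (T d L → ℝ)}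

/-- the variance of the ladder -/
theorem ParU.varK (hP : T_POIN) (hrqf : T_RQF) (hinv : T_INV)
    (p : ParU d L σ E δ ε t Q g p0 Ω) (hs : 64 * σ ^ 2 * Q * (δ / ε) ^ 2 ≤ 1) (κ : T d L) :
    var (fun V => KK d L σ E ε κ V) ≤
      1028 * (σ ^ 2 * Q) * ((g + δ / ε * (mT d L σ E ε).im) *
        (g + δ / ε * (mT d L σ E ε).im)) / ε ^ 2 := by
  have Tw := p.trw hrqf hs
  have hg0 : 0 < g := by linarith [p.hg1]
  have h1 := Tw.var3 hP (fun x => e_norm κ x) 0 (dl 0) g (Tw.jdl 0).1 (Tw.jdl 0).2 hg0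
  simp only [form_dl] at h1
  rw [fi_dl hinv σ E p.hε 0] at h1
  exact h1

/-- the mean deviation of the ladder -/
theorem ParU.devK (hP : T_POIN) (hI : T_IBP) (hrqf : T_RQF) (hinv : T_INV)
    (p : ParU d L σ E δ ε t Q g p0 Ω) (s : Small2 σ ε δ Q g ζ β) (hβ : 0 ≤ β) (κ : T d L) :
    ∫ V, ‖(ε : ℂ) * (KK d L σ E ε κ V - Sr d L σ E ε κ)‖ ∂(GP (T d L)) ≤ Real.sqrt ζ := by
  have hσ := p.hσ
  have hε := p.hε
  have hδ := p.hδ
  have hg := p.hg1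
  have hg0 : 0 < g := by linarith
  have hQ1 := p.hQ1
  have hεσ := s.hεσ
  obtain ⟨f1, f2, -⟩ := p.fin hP hI hrqf hinv s hβ _ _ rfl rfl
  have him2 : (mT d L σ E ε).im ≤ 2 * g :=
    ((le_abs_self _).trans (Complex.abs_im_le_norm _)).trans f2
  obtain ⟨D, hD⟩ : ∃ D, D = δ / ε := ⟨_, rfl⟩
  have hD1 : 1 ≤ D := by
    rw [hD, le_div_iff₀ hε, one_mul]
    exact p.hεδ
  obtain ⟨r, hr⟩ : ∃ r, r = σ ^ 2 * Q * D ^ 2 * g ^ 3 := ⟨_, rfl⟩
  have hr0 : 0 ≤ r := by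
    rw [hr]
    positivity
  have hr1 : 10000 * r ≤ ζ := by
    have h1 := s.h1
    rw [← hD] at h1
    have hP1 : 1 ≤ (σ ^ 2 / ε) ^ β := by
      apply Real.one_le_rpow _ hβ
      rw [le_div_iff₀ hε, one_mul]
      exact hεσ
    calc 10000 * r = 10000 * (σ ^ 2 * Q * D ^ 2) * 1 * g ^ 3 := by
          rw [hr]
          ring
      _ ≤ 10000 * (σ ^ 2 * Q * D ^ 2) * (σ ^ 2 / ε) ^ β * g ^ 3 := by gcongr
      _ ≤ ζ := h1
  have hs : 64 * σ ^ 2 * Q * (δ / ε) ^ 2 ≤ 1 := by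
    have e1 : σ ^ 2 * Q * D ^ 2 * 1 ≤ r := by
      rw [hr]
      have : (1 : ℝ) ≤ g ^ 3 := one_le_pow₀ hg
      gcongr
    rw [← hD]
    have := s.hζ
    linarith
  have hv := p.varK hP hrqf hinv hs κ
  rw [← hD] at hv
  have hbc := kk_bc (d := d) (L := L) σ E hε κ
  have hbc1 : BC fun V : T d L → ℝ => (ε : ℂ) * (KK d L σ E ε κ V - Sr d L σ E ε κ) :=
    (BC.const _).mul (hbc.sub (BC.const _))
  have hvar : ∫ V, ‖(ε : ℂ) * (KK d L σ E ε κ V - Sr d L σ E ε κ)‖ ^ 2 ∂(GP (T d L)) ≤ ζ := by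
    have e1 : ∀ V : T d L → ℝ, ‖(ε : ℂ) * (KK d L σ E ε κ V - Sr d L σ E ε κ)‖ ^ 2 =
        ε ^ 2 * ‖KK d L σ E ε κ V - Sr d L σ E ε κ‖ ^ 2 := by
      intro V
      rw [norm_mul, Complex.norm_real, Real.norm_of_nonneg hε.le, mul_pow]
    simp only [e1]
    rw [integral_const_mul]
    have e2 : ∫ V, ‖KK d L σ E ε κ V - Sr d L σ E ε κ‖ ^ 2 ∂(GP (T d L)) =
        var (fun V => KK d L σ E ε κ V) := rfl
    rw [e2]
    have e3 : (g + D * (mT d L σ E ε).im) ≤ 3 * g * D := by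
      have h1 : g * 1 ≤ g * D := by gcongr
      have h2 : D * (mT d L σ E ε).im ≤ D * (2 * g) := by gcongr
      linarith
    have e4 : 0 ≤ g + D * (mT d L σ E ε).im := by positivity
    calc ε ^ 2 * var (fun V => KK d L σ E ε κ V) ≤ ε ^ 2 * (1028 * (σ ^ 2 * Q) *
          ((g + D * (mT d L σ E ε).im) * (g + D * (mT d L σ E ε).im)) / ε ^ 2) := by gcongr
      _ = 1028 * (σ ^ 2 * Q) * ((g + D * (mT d L σ E ε).im) *
          (g + D * (mT d L σ E ε).im)) := by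
          field_simp
      _ ≤ 1028 * (σ ^ 2 * Q) * ((3 * g * D) * (3 * g * D)) := by gcongr
      _ = 9252 * (σ ^ 2 * Q * D ^ 2) * g ^ 2 * 1 := by ring
      _ ≤ 10000 * (σ ^ 2 * Q * D ^ 2) * g ^ 2 * g := by gcongr; norm_num
      _ = 10000 * r := by
          rw [hr]
          ring
      _ ≤ ζ := hr1
  have hcs := Real.sqrt_le_sqrt hvar
  refine le_trans ?_ hcs
  apply Real.le_sqrt_of_sq_le
  have hn : RC fun V : T d L → ℝ => ‖(ε : ℂ) * (KK d L σ E ε κ V - Sr d L σ E ε κ)‖ :=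
    RC.norm hbc1
  exact (jensen_sq hn).trans le_rfl

end par

namespace U

/-- the deviations vanish, uniformly in the energy -/
def EvV (d : ℕ) (h τ : ℝ) : Prop := ∀ ζ : ℝ, 0 < ζ → ∀ᶠ σ in 𝓝[>] (0 : ℝ),
  ∀ (E : ℝ) (κ : T d (LL σ)),
    ∫ V, ‖(eT h τ σ : ℂ) * (KK d (LL σ) σ E (eT h τ σ) κ V - Sr d (LL σ) σ E (eT h τ σ) κ)‖
      ∂(GP (T d (LL σ))) ≤ ζ

theorem evv_of (hP : T_POIN) (hI : T_IBP) (hrqf : T_RQF) (hinv : T_INV) (hscal : T_SCAL2)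
    {d : ℕ} {h τ : ℝ} (hd : 3 ≤ d) (h0 : 0 < h) (h1 : h < (if d = 3 then 1 else 2) / (2 + 1 / 2))
    (hτ : 0 < τ) : EvV d h τ := by
  intro ζ hζ
  obtain ⟨z, hz⟩ : ∃ z, z = min (1 / 4) (ζ ^ 2) := ⟨_, rfl⟩
  have hz0 : 0 < z := by
    rw [hz]
    positivity
  have hz4 : z ≤ 1 / 4 := by
    rw [hz]
    exact min_le_left _ _
  have hzζ : Real.sqrt z ≤ ζ := by
    rw [Real.sqrt_le_left hζ.le, hz]
    exact min_le_right _ _
  filter_upwards [hscal (1 / 2) (by norm_num) le_rfl d hd h h0 h1 τ z hτ hz0 hz4] with σ hσ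
  obtain ⟨δ, t, Q, g, p0, Ω, p, s⟩ := hσ
  intro E κ
  exact ((p E).devK hP hI hrqf hinv s (by norm_num) κ).trans hzζ

end U

end Pool.Agent.T2h98.QD
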