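import Pool.Agent.T2h98.QD.TInt2
import Pool.Agent.T2h98.QD.TX5
import Pool.Agent.T2h98.QD.Stm9b

/-! The integral over the energy, in the mean. -/

set_option autoImplicit false
set_option linter.unusedSectionVars false

open scoped BigOperators Matrix Topology
open MeasureTheory ProbabilityTheory Filter

namespace Pool.Agent.T2h98.QD.U

open Pool.Agent.W788.MFP.Four (T e NN adj K)
open Pool.Agent.W788.BK (nsq hs PP JJ hi Low cr)
open Pool.Agent.W240.BK (BC BM)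

instance gp_prob (n : Type) [Fintype n] : IsProbabilityMeasure (GP n) := by
  show IsProbabilityMeasure (Measure.pi fun _ : n => gaussianReal 0 1)
  infer_instance

/-- the mass -/
noncomputable def Ms (d : ℕ) (h τ σ E : ℝ) : ℝ := (mT d (LL σ) σ E (eT h τ σ)).im / Real.pi

theorem Ms_int {d : ℕ} {h τ : ℝ} (P : Fac3 d h τ) {σ : ℝ} (hσ : 0 < σ) :
    Integrable (Ms d h τ σ) ∧ ∫ E, Ms d h τ σ E = 1 ∧ ∀ E, 0 ≤ Ms d h τ σ E := by
  have hτ := P.hτ
  have hpi := Real.pi_pos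
  have hε := eT_pos (h := h) hτ hσ
  have hτ' : 0 < τ / σ ^ (2 + h) := div_pos hτ (Real.rpow_pos_of_pos hσ _)
  refine ⟨?_, ?_, fun E => ?_⟩
  · have h1 := (P.en d (LL σ) σ (τ / σ ^ (2 + h)) 0 hτ').1
    rw [← eT_eq hτ hσ] at h1
    have h2 := h1.re.const_mul (eT h τ σ / Real.pi)
    refine h2.congr (Eventually.of_forall fun E => ?_)
    simp only [sr_zero σ E hε, Ms, RCLike.re_to_complex, Complex.ofReal_re]
    field_simp
  · have h1 := mass_one P.en (d := d) (L := LL σ) σ (τ / σ ^ (2 + h)) hτ'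
    rw [← eT_eq hτ hσ] at h1
    simp only [sr_zero σ _ hε] at h1
    rw [integral_complex_ofReal, ← Complex.ofReal_mul, ← integral_const_mul] at h1
    have h2 : ∫ E : ℝ, eT h τ σ / Real.pi * ((mT d (LL σ) σ E (eT h τ σ)).im / eT h τ σ) = 1 := by
      exact_mod_cast h1
    rw [← h2]
    refine integral_congr_ae (Eventually.of_forall fun E => ?_)
    simp only [Ms]
    field_simp
  · unfold Ms
    have h1 := sr_bd (d := d) (L := LL σ) σ E hε 0
    have h2 : 0 ≤ eT h τ σ * ‖Sr d (LL σ) σ E (eT h τ σ) 0‖ := by positivity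
    have h3 := h2.trans h1
    positivity

/-- the mass inside the spectrum -/
theorem lim_mass {d : ℕ} {h τ : ℝ} (P : Fac3 d h τ) (hI1 : ∫ E, dn d E = 1) :
    Tendsto (fun σ : ℝ => ∫ E in Set.Icc (-(2 * (d : ℝ))) (2 * d), Ms d h τ σ E) (𝓝[>] 0)
      (𝓝 1) := by
  have hτ := P.hτ
  have hpi := Real.pi_pos
  obtain ⟨hc, -, hn0, hw0, hz, -⟩ := P.dos d P.hd
  obtain ⟨A, hA⟩ : ∃ A : Set ℝ, A = Set.Icc (-(2 * (d : ℝ))) (2 * d) := ⟨_, rfl⟩
  have hzA : ∀ E, E ∉ A → dn d E = 0 := by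
    intro E hE
    apply (hz E _).1
    rw [hA, Set.mem_Icc, not_and_or, not_le, not_le] at hE
    rcases hE with h1 | h1
    · exact le_abs.2 (Or.inr (by linarith))
    · exact le_abs.2 (Or.inl (by linarith))
  have l_mem : ∀ᶠ σ in 𝓝[>] (0 : ℝ), 0 < σ := self_mem_nhdsWithin
  obtain ⟨C, hC⟩ : ∃ C, ∀ E, dn d E ≤ C := by
    obtain ⟨x0, -, hx0⟩ := (isCompact_Icc (a := -(2 * (d : ℝ))) (b := 2 * d)).exists_isMaxOn
      (Set.nonempty_Icc.2 (by have : (0 : ℝ) ≤ d := Nat.cast_nonneg d; linarith))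
      hc.continuousOn
    refine ⟨max 0 (dn d x0), fun E => ?_⟩
    by_cases hE : E ∈ A
    · rw [hA] at hE
      exact (hx0 hE).trans (le_max_right _ _)
    · rw [hzA E hE]
      exact le_max_left _ _
  have l_M : ∀ E, Tendsto (fun σ => Ms d h τ σ E) (𝓝[>] 0) (𝓝 (dn d E)) := by
    intro E
    rw [Metric.tendsto_nhds]
    intro η hη
    filter_upwards [lim_im P (η / 2) (by positivity)] with σ hσ
    rw [Real.dist_eq]
    have h1 := hσ E
    have e1 : Ms d h τ σ E - dn d E =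
        ((mT d (LL σ) σ E (eT h τ σ)).im - Real.pi * dn d E) / Real.pi := by
      unfold Ms
      field_simp
    rw [e1, abs_div, abs_of_pos hpi, div_lt_iff₀ hpi]
    have h3 := Real.pi_gt_three
    nlinarith
  have l_Mb : ∀ᶠ σ in 𝓝[>] (0 : ℝ), ∀ E, Ms d h τ σ E ≤ C + 1 := by
    filter_upwards [lim_im P 1 one_pos] with σ hσ E
    unfold Ms
    rw [div_le_iff₀ hpi]
    have h1 := (abs_le.1 (hσ E)).2
    have h2 := hC E
    have h3 := Real.pi_gt_three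
    nlinarith
  have hfin : volume A < ⊤ := by
    rw [hA]
    exact isCompact_Icc.measure_lt_top
  have e1 : ∫ E in A, dn d E = 1 := by
    rw [← hI1, setIntegral_eq_integral_of_forall_compl_eq_zero fun E hE => hzA E hE]
  rw [← e1, ← hA]
  refine tendsto_integral_filter_of_dominated_convergence (fun _ => C + 1) ?_ ?_ ?_ ?_
  · filter_upwards [l_mem] with σ hσ
    exact (Ms_int P hσ).1.aestronglyMeasurable.restrict
  · filter_upwards [l_mem, l_Mb] with σ hσ hb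
    refine Eventually.of_forall fun E => ?_
    rw [Real.norm_of_nonneg ((Ms_int P hσ).2.2 E)]
    exact hb E
  · exact integrableOn_const hfin.ne
  · exact Eventually.of_forall fun E => l_M E

/-- the mean deviation of the energy integral -/
theorem lim_dev {d : ℕ} {h τ : ℝ} (P : Fac3 d h τ) (hen2 : T_EN2c) (hv : EvV d h τ)
    (κ : ∀ σ : ℝ, T d (LL σ)) (hI1 : ∫ E, dn d E = 1) :
    Tendsto (fun σ : ℝ => ∫ V, ‖((eT h τ σ / Real.pi : ℝ) : ℂ) *
      (∫ E : ℝ, KK d (LL σ) σ E (eT h τ σ) (κ σ) V) -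
      ((eT h τ σ / Real.pi : ℝ) : ℂ) * ∫ E : ℝ, Sr d (LL σ) σ E (eT h τ σ) (κ σ)‖
        ∂(GP (T d (LL σ)))) (𝓝[>] 0) (𝓝 0) := by
  have hτ := P.hτ
  have hpi := Real.pi_pos
  obtain ⟨A, hA⟩ : ∃ A : Set ℝ, A = Set.Icc (-(2 * (d : ℝ))) (2 * d) := ⟨_, rfl⟩
  have hAm : MeasurableSet A := by
    rw [hA]
    exact measurableSet_Icc
  have hfin : volume A < ⊤ := by
    rw [hA]
    exact isCompact_Icc.measure_lt_top
  have l_mem : ∀ᶠ σ in 𝓝[>] (0 : ℝ), 0 < σ := self_mem_nhdsWithin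
  have l_MA := lim_mass P hI1
  rw [← hA] at l_MA
  -- the deviation at one energy
  obtain ⟨w, hw⟩ : ∃ w : ℝ → ℝ → ℝ, w = fun σ E => ∫ V, ‖((eT h τ σ / Real.pi : ℝ) : ℂ) *
    (KK d (LL σ) σ E (eT h τ σ) (κ σ) V - Sr d (LL σ) σ E (eT h τ σ) (κ σ))‖
      ∂(GP (T d (LL σ))) := ⟨_, rfl⟩
  have hw0 : ∀ σ E, 0 ≤ w σ E := fun σ E => by
    rw [hw]
    exact integral_nonneg fun V => norm_nonneg _
  -- product integrability
  have hprod : ∀ σ : ℝ, 0 < σ → Integrable (fun p : (T d (LL σ) → ℝ) × ℝ =>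
      ((eT h τ σ / Real.pi : ℝ) : ℂ) * (KK d (LL σ) σ p.2 (eT h τ σ) (κ σ) p.1 -
        Sr d (LL σ) σ p.2 (eT h τ σ) (κ σ))) ((GP (T d (LL σ))).prod volume) := by
    intro σ hσ
    have hτ' : 0 < τ / σ ^ (2 + h) := div_pos hτ (Real.rpow_pos_of_pos hσ _)
    have h1 := (hen2 d (LL σ) σ (τ / σ ^ (2 + h)) (κ σ) hτ').2
    have h2 := (P.en d (LL σ) σ (τ / σ ^ (2 + h)) (κ σ) hτ').1
    rw [← eT_eq hτ hσ] at h1 h2
    have h3 : Integrable (fun p : (T d (LL σ) → ℝ) × ℝ =>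
        Sr d (LL σ) σ p.2 (eT h τ σ) (κ σ)) ((GP (T d (LL σ))).prod volume) := by
      have := (integrable_const (μ := GP (T d (LL σ))) (1 : ℂ)).mul_prod h2
      refine this.congr (Eventually.of_forall fun p => ?_)
      simp
    exact (h1.sub h3).const_mul _
  have hwi : ∀ σ : ℝ, 0 < σ → Integrable (w σ) := by
    intro σ hσ
    have h1 := (hprod σ hσ).norm.swap
    have h2 := h1.integral_prod_left
    rw [hw]
    exact h2
  have hwM : ∀ σ : ℝ, 0 < σ → ∀ E, w σ E ≤ 2 * Ms d h τ σ E := by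
    intro σ hσ E
    have hε := eT_pos (h := h) hτ hσ
    have S := sys_rh (h0_herm (d := d) (L := LL σ) E) σ (eT h τ σ) hε
    have hR : BC fun V : T d (LL σ) → ℝ => Rh (h0 (d := d) (L := LL σ) E) σ (eT h τ σ) V 0 0 :=
      bm_gg S 0 0
    have hKbc := kk_bc (d := d) (L := LL σ) σ E hε (κ σ)
    have h1 : ∀ V : T d (LL σ) → ℝ, ‖((eT h τ σ / Real.pi : ℝ) : ℂ) *
        (KK d (LL σ) σ E (eT h τ σ) (κ σ) V - Sr d (LL σ) σ E (eT h τ σ) (κ σ))‖ ≤
        ((Rh (h0 (d := d) (L := LL σ) E) σ (eT h τ σ) V 0 0).im +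
          (mT d (LL σ) σ E (eT h τ σ)).im) / Real.pi := by
      intro V
      rw [norm_mul, Complex.norm_real, Real.norm_of_nonneg (by positivity)]
      have e1 := kk_le (d := d) (L := LL σ) σ E hε (κ σ) V
      have e2 := sr_bd (d := d) (L := LL σ) σ E hε (κ σ)
      have e3 := norm_sub_le (KK d (LL σ) σ E (eT h τ σ) (κ σ) V)
        (Sr d (LL σ) σ E (eT h τ σ) (κ σ))
      calc eT h τ σ / Real.pi * ‖KK d (LL σ) σ E (eT h τ σ) (κ σ) V -
            Sr d (LL σ) σ E (eT h τ σ) (κ σ)‖ ≤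
          eT h τ σ / Real.pi * (‖KK d (LL σ) σ E (eT h τ σ) (κ σ) V‖ +
            ‖Sr d (LL σ) σ E (eT h τ σ) (κ σ)‖) := by gcongr
        _ = (eT h τ σ * ‖KK d (LL σ) σ E (eT h τ σ) (κ σ) V‖ +
            eT h τ σ * ‖Sr d (LL σ) σ E (eT h τ σ) (κ σ)‖) / Real.pi := by ring
        _ ≤ _ := by gcongr
    have him : ∫ V, (Rh (h0 (d := d) (L := LL σ) E) σ (eT h τ σ) V 0 0).im
        ∂(GP (T d (LL σ))) = (mT d (LL σ) σ E (eT h τ σ)).im := integral_im (hR.integrable _)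
    rw [hw]
    simp only
    have i1 : Integrable (fun V : T d (LL σ) → ℝ =>
        (Rh (h0 (d := d) (L := LL σ) E) σ (eT h τ σ) V 0 0).im) (GP (T d (LL σ))) :=
      (RC.im hR).integrable
    have i2 : Integrable (fun V : T d (LL σ) → ℝ =>
        ((Rh (h0 (d := d) (L := LL σ) E) σ (eT h τ σ) V 0 0).im +
          (mT d (LL σ) σ E (eT h τ σ)).im) / Real.pi) (GP (T d (LL σ))) :=
      (i1.add (integrable_const _)).div_const _
    have i3 : Integrable (fun V : T d (LL σ) → ℝ => ‖((eT h τ σ / Real.pi : ℝ) : ℂ) *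
        (KK d (LL σ) σ E (eT h τ σ) (κ σ) V - Sr d (LL σ) σ E (eT h τ σ) (κ σ))‖)
        (GP (T d (LL σ))) :=
      (RC.norm ((BC.const _).mul (hKbc.sub (BC.const _)))).integrable
    refine (integral_mono i3 i2 h1).trans (le_of_eq ?_)
    rw [integral_div, integral_add i1 (integrable_const _), him, integral_const, probReal_univ,
      one_smul]
    unfold Ms
    ring
  -- bound by the deviations
  have hbd : ∀ σ : ℝ, 0 < σ → ∫ V, ‖((eT h τ σ / Real.pi : ℝ) : ℂ) *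
      (∫ E : ℝ, KK d (LL σ) σ E (eT h τ σ) (κ σ) V) -
      ((eT h τ σ / Real.pi : ℝ) : ℂ) * ∫ E : ℝ, Sr d (LL σ) σ E (eT h τ σ) (κ σ)‖
        ∂(GP (T d (LL σ))) ≤ ∫ E, w σ E := by
    intro σ hσ
    have hε := eT_pos (h := h) hτ hσ
    have hτ' : 0 < τ / σ ^ (2 + h) := div_pos hτ (Real.rpow_pos_of_pos hσ _)
    have h1 := (hen2 d (LL σ) σ (τ / σ ^ (2 + h)) (κ σ) hτ').1
    have h2 := (P.en d (LL σ) σ (τ / σ ^ (2 + h)) (κ σ) hτ').1
    rw [← eT_eq hτ hσ] at h1 h2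
    have hp := hprod σ hσ
    have e1 : ∀ V : T d (LL σ) → ℝ, ((eT h τ σ / Real.pi : ℝ) : ℂ) *
        (∫ E : ℝ, KK d (LL σ) σ E (eT h τ σ) (κ σ) V) -
        ((eT h τ σ / Real.pi : ℝ) : ℂ) * ∫ E : ℝ, Sr d (LL σ) σ E (eT h τ σ) (κ σ) =
        ∫ E : ℝ, ((eT h τ σ / Real.pi : ℝ) : ℂ) * (KK d (LL σ) σ E (eT h τ σ) (κ σ) V -
          Sr d (LL σ) σ E (eT h τ σ) (κ σ)) := by
      intro V
      rw [integral_const_mul, integral_sub (h1 V).1 h2, mul_sub]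
    simp only [e1]
    have h3 : ∫ V, ‖∫ E : ℝ, ((eT h τ σ / Real.pi : ℝ) : ℂ) *
        (KK d (LL σ) σ E (eT h τ σ) (κ σ) V - Sr d (LL σ) σ E (eT h τ σ) (κ σ))‖
        ∂(GP (T d (LL σ))) ≤ ∫ V, (∫ E : ℝ, ‖((eT h τ σ / Real.pi : ℝ) : ℂ) *
        (KK d (LL σ) σ E (eT h τ σ) (κ σ) V - Sr d (LL σ) σ E (eT h τ σ) (κ σ))‖)
        ∂(GP (T d (LL σ))) := by
      refine integral_mono hp.integral_prod_left.norm hp.norm.integral_prod_left fun V => ?_
      exact norm_integral_le_integral_norm _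
    refine h3.trans (le_of_eq ?_)
    rw [hw]
    exact integral_integral_swap (f := fun (V : T d (LL σ) → ℝ) (E : ℝ) =>
      ‖((eT h τ σ / Real.pi : ℝ) : ℂ) * (KK d (LL σ) σ E (eT h τ σ) (κ σ) V -
        Sr d (LL σ) σ E (eT h τ σ) (κ σ))‖) hp.norm
  -- conclusion
  rw [Metric.tendsto_nhds]
  intro η hη
  obtain ⟨vA, hvA⟩ : ∃ vA, vA = volume.real A := ⟨_, rfl⟩
  have hvA0 : 0 ≤ vA := by
    rw [hvA]
    exact measureReal_nonneg
  obtain ⟨ζ, hζ⟩ : ∃ ζ, ζ = η / (4 * (vA + 1)) := ⟨_, rfl⟩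
  have hζ0 : 0 < ζ := by
    rw [hζ]
    positivity
  have hMA : ∀ᶠ σ in 𝓝[>] (0 : ℝ), 1 - η / 8 < ∫ E in A, Ms d h τ σ E :=
    l_MA.eventually (lt_mem_nhds (by linarith))
  filter_upwards [l_mem, hv ζ hζ0, hMA] with σ hσ hdev hmass
  have hε := eT_pos (h := h) hτ hσ
  rw [Real.dist_eq, sub_zero, abs_of_nonneg (integral_nonneg fun V => norm_nonneg _)]
  refine (hbd σ hσ).trans_lt ?_
  have hwA : ∀ E, w σ E ≤ ζ := by
    intro E
    refine le_trans ?_ (hdev E (κ σ))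
    rw [hw]
    simp only
    have e1 : ∀ V : T d (LL σ) → ℝ, ‖((eT h τ σ / Real.pi : ℝ) : ℂ) *
        (KK d (LL σ) σ E (eT h τ σ) (κ σ) V - Sr d (LL σ) σ E (eT h τ σ) (κ σ))‖ =
        Real.pi⁻¹ * ‖(eT h τ σ : ℂ) * (KK d (LL σ) σ E (eT h τ σ) (κ σ) V -
          Sr d (LL σ) σ E (eT h τ σ) (κ σ))‖ := by
      intro V
      rw [norm_mul, norm_mul, Complex.norm_real, Complex.norm_real,
        Real.norm_of_nonneg (by positivity), Real.norm_of_nonneg hε.le]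
      ring
    simp only [e1]
    rw [integral_const_mul]
    have e2 : Real.pi⁻¹ ≤ 1 := inv_le_one_of_one_le₀ (by linarith [Real.pi_gt_three])
    exact mul_le_of_le_one_left (integral_nonneg fun V => norm_nonneg _) e2
  have s1 := integral_add_compl hAm (hwi σ hσ)
  have s2 := integral_add_compl hAm (Ms_int P hσ).1
  rw [(Ms_int P hσ).2.1] at s2
  have s3 : ∫ E in A, w σ E ≤ ζ * vA := by
    calc ∫ E in A, w σ E ≤ ∫ E in A, ζ := by
          refine setIntegral_mono (hwi σ hσ).integrableOn (integrableOn_const hfin.ne) hwA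
      _ = ζ * vA := by
          rw [setIntegral_const, smul_eq_mul, hvA, mul_comm]
  have s4 : ∫ E in Aᶜ, w σ E ≤ 2 * ∫ E in Aᶜ, Ms d h τ σ E := by
    rw [← integral_const_mul]
    exact setIntegral_mono (hwi σ hσ).integrableOn
      ((Ms_int P hσ).1.const_mul 2).integrableOn (hwM σ hσ)
  have s5 : ζ * vA ≤ η / 4 := by
    rw [hζ, div_mul_eq_mul_div, div_le_div_iff₀ (by positivity) (by norm_num)]
    nlinarith
  linarith

/-- the energy integral, in the mean -/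
theorem lim_l1 {d : ℕ} {h τ : ℝ} (P : Fac3 d h τ) (hen2 : T_EN2c) (hv : EvV d h τ)
    (Q : Fin d → ℝ) (κ : ∀ σ : ℝ, T d (LL σ))
    (hκ : ∀ᶠ σ in 𝓝[>] (0 : ℝ), ∀ i, |σ ^ (2 + h / 2) * Q i - mo (κ σ) i| ≤
      2 * Real.pi / (LL σ : ℝ)) (hI1 : ∫ E, dn d E = 1) :
    Tendsto (fun σ : ℝ => ∫ V, ‖((eT h τ σ / Real.pi : ℝ) : ℂ) *
      (∫ E : ℝ, KK d (LL σ) σ E (eT h τ σ) (κ σ) V) - ((∫ E, fl d Q τ E : ℝ) : ℂ)‖
        ∂(GP (T d (LL σ)))) (𝓝[>] 0) (𝓝 0) := by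
  have hτ := P.hτ
  have h1 := lim_dev P hen2 hv κ hI1
  have h2 := lim_int P Q κ hκ hI1
  have h3 : Tendsto (fun σ : ℝ => ‖((eT h τ σ / Real.pi : ℝ) : ℂ) *
      (∫ E : ℝ, Sr d (LL σ) σ E (eT h τ σ) (κ σ)) - ((∫ E, fl d Q τ E : ℝ) : ℂ)‖)
      (𝓝[>] 0) (𝓝 0) := by
    rw [← tendsto_iff_norm_sub_tendsto_zero]
    exact h2
  have h4 := h1.add h3
  rw [add_zero] at h4
  refine squeeze_zero' (Eventually.of_forall fun σ => integral_nonneg fun V => norm_nonneg _)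
    ?_ h4
  filter_upwards [self_mem_nhdsWithin] with σ hσ0
  have hσ : 0 < σ := hσ0
  have hτ' : 0 < τ / σ ^ (2 + h) := div_pos hτ (Real.rpow_pos_of_pos hσ _)
  have hp := (hen2 d (LL σ) σ (τ / σ ^ (2 + h)) (κ σ) hτ').2
  rw [← eT_eq hτ hσ] at hp
  have i1 : Integrable (fun V : T d (LL σ) → ℝ => ((eT h τ σ / Real.pi : ℝ) : ℂ) *
      ∫ E : ℝ, KK d (LL σ) σ E (eT h τ σ) (κ σ) V) (GP (T d (LL σ))) :=
    hp.integral_prod_left.const_mul _
  have i2 : Integrable (fun V : T d (LL σ) → ℝ => ‖((eT h τ σ / Real.pi : ℝ) : ℂ) *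
      (∫ E : ℝ, KK d (LL σ) σ E (eT h τ σ) (κ σ) V) -
      ((eT h τ σ / Real.pi : ℝ) : ℂ) * ∫ E : ℝ, Sr d (LL σ) σ E (eT h τ σ) (κ σ)‖)
      (GP (T d (LL σ))) := (i1.sub (integrable_const _)).norm
  have i3 : Integrable (fun V : T d (LL σ) → ℝ => ‖((eT h τ σ / Real.pi : ℝ) : ℂ) *
      (∫ E : ℝ, KK d (LL σ) σ E (eT h τ σ) (κ σ) V) - ((∫ E, fl d Q τ E : ℝ) : ℂ)‖)
      (GP (T d (LL σ))) := (i1.sub (integrable_const _)).norm
  calc _ ≤ ∫ V, (‖((eT h τ σ / Real.pi : ℝ) : ℂ) *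
        (∫ E : ℝ, KK d (LL σ) σ E (eT h τ σ) (κ σ) V) -
        ((eT h τ σ / Real.pi : ℝ) : ℂ) * ∫ E : ℝ, Sr d (LL σ) σ E (eT h τ σ) (κ σ)‖ +
        ‖((eT h τ σ / Real.pi : ℝ) : ℂ) *
          (∫ E : ℝ, Sr d (LL σ) σ E (eT h τ σ) (κ σ)) - ((∫ E, fl d Q τ E : ℝ) : ℂ)‖)
        ∂(GP (T d (LL σ))) := by
        refine integral_mono i3 (i2.add (integrable_const _)) fun V => ?_
        exact norm_sub_le_norm_sub_add_norm_sub _ _ _
    _ = _ := by
        rw [integral_add i2 (integrable_const _), integral_const, probReal_univ, one_smul]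

end Pool.Agent.T2h98.QD.U
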