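import Pool.Agent.T2h98.QD.TV3
import Pool.Agent.T2h98.QD.Ladder2

/-! The resolvent without regularization: mean and ladder equation. -/

set_option autoImplicit false
set_option linter.unusedSectionVars false

open scoped BigOperators Matrix
open MeasureTheory ProbabilityTheory

namespace Pool.Agent.T2h98.QD

open Pool.Agent.W788.BK
open Pool.Agent.W240.BK (BC BM cs_int)

variable {n : Type} [Fintype n] [DecidableEq n]

/-- the homogeneous model -/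
structure Tra (h J J' : Matrix n n ℂ) (σ ε δ Q g p0 : ℝ) (Ω : Set (n → ℝ)) (mb : ℂ)
    (G0 : Matrix n n ℂ) (Θ : ℝ) : Prop where
  H : Tru h J J' σ ε δ Q g p0 Ω
  hm : ∀ x, ∫ V, Rh h σ ε V x x ∂(GP n) = mb
  him : 0 ≤ mb.im
  hs : 32 * σ ^ 2 * Q * (δ / ε) ^ 2 ≤ 1 / 2
  hG0 : G0 * (h - ((ε : ℂ) * Complex.I) • (1 : Matrix n n ℂ) -
    (((σ ^ 2 : ℝ) : ℂ) * mb) • (1 : Matrix n n ℂ)) = 1
  hb : ∀ w : n → ℂ, nsq (G0 *ᵥ w) ≤ ((ε + σ ^ 2 * mb.im)⁻¹) ^ 2 * nsq w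
  hbH : ∀ w : n → ℂ, nsq (G0ᴴ *ᵥ w) ≤ ((ε + σ ^ 2 * mb.im)⁻¹) ^ 2 * nsq w
  hΘ : ∀ x, nsq (G0 *ᵥ dl x) ≤ Θ

/-- the error -/
noncomputable def epsT (σ ε δ Q g p0 Θ im : ℝ) : ℝ :=
  σ ^ 2 * (Real.sqrt (v2 σ ε δ Q g p0 im) * Real.sqrt (rho σ ε δ Q g p0 im * Θ))

theorem psi_EY (σ : ℝ) (Z : Matrix n n ℂ) : Psi (fun y => (σ : ℂ) • EY y) Z =
    (((σ ^ 2 : ℝ) : ℂ)) • Matrix.diagonal (fun x => Z x x) := by
  unfold Psi
  ext a b
  rw [Matrix.sum_apply, Matrix.smul_apply, smul_eq_mul]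
  have h1 : ∀ y, (((σ : ℂ) • EY y) * Z * ((σ : ℂ) • EY y)) a b =
      (σ : ℂ) ^ 2 * ((Pi.single y (1 : ℂ) : n → ℂ) a * Z a b * (Pi.single y (1 : ℂ) : n → ℂ) b) := by
    intro y
    unfold EY
    rw [smul_mul_assoc, smul_mul_assoc, mul_smul_comm, Matrix.smul_apply, Matrix.smul_apply,
      Matrix.mul_diagonal, Matrix.diagonal_mul, smul_eq_mul, smul_eq_mul]
    ring
  simp only [h1]
  rw [← Finset.mul_sum, Finset.sum_eq_single a]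
  · rw [Pi.single_eq_same]
    by_cases hab : a = b
    · subst hab
      rw [Pi.single_eq_same, Matrix.diagonal_apply_eq]
      push_cast
      ring
    · rw [Pi.single_eq_of_ne (Ne.symm hab), Matrix.diagonal_apply_ne _ hab]
      ring
  · intro y _ hy
    rw [Pi.single_eq_of_ne (Ne.symm hy)]
    ring
  · intro ha
    exact absurd (Finset.mem_univ a) ha

section tra

variable {h J J' : Matrix n n ℂ} {σ ε δ Q g p0 : ℝ} {Ω : Set (n → ℝ)} {mb : ℂ}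
  {G0 : Matrix n n ℂ} {Θ : ℝ}

theorem Tra.Θ0 (H : Tra h J J' σ ε δ Q g p0 Ω mb G0 Θ) (x : n) : 0 ≤ Θ :=
  (nsq_nonneg _).trans (H.hΘ x)

theorem Tra.Γ0 (H : Tra h J J' σ ε δ Q g p0 Ω mb G0 Θ) : 0 < ε + σ ^ 2 * mb.im := by
  have h1 := H.H.hε
  have h2 := H.him
  positivity

/-- the self-energy term -/
theorem Tra.self_term (hP : T_POIN) (H : Tra h J J' σ ε δ Q g p0 Ω mb G0 Θ)
    {P Z K : (n → ℝ) → Matrix n n ℂ} (hPb : BM P) (hK : BM K)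
    (hZd : ∀ V x, Z V x x = Rh h σ ε V x x) (R : ℝ)
    (hvar : ∀ x, var (fun V => (K V * P V) x x) ≤ R) :
    ‖∫ V, (P V * (Psi (fun y => (σ : ℂ) • EY y) (Z V) - (((σ ^ 2 : ℝ) : ℂ) * mb) •
      (1 : Matrix n n ℂ)) * K V).trace ∂(GP n)‖ ≤
      Fintype.card n * (σ ^ 2 * (Real.sqrt (v2 σ ε δ Q g p0 mb.im) * Real.sqrt R)) := by
  have hs2 : 0 ≤ σ ^ 2 := sq_nonneg σ
  have bPK : ∀ x, BC fun V => (K V * P V) x x := fun x => (hK.mul hPb) x x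
  have bR : ∀ x, BC fun V : n → ℝ => Rh h σ ε V x x := fun x => bm_gg H.H.S x x
  have b1 : ∀ x, BC fun V => (Rh h σ ε V x x - mb) * (K V * P V) x x := fun x =>
    ((bR x).sub (BC.const mb)).mul (bPK x)
  have hpt : ∀ V, (P V * (Psi (fun y => (σ : ℂ) • EY y) (Z V) - (((σ ^ 2 : ℝ) : ℂ) * mb) •
      (1 : Matrix n n ℂ)) * K V).trace =
      ((σ ^ 2 : ℝ) : ℂ) * ∑ x, (Rh h σ ε V x x - mb) * (K V * P V) x x := by
    intro V
    have e1 : Psi (fun y => (σ : ℂ) • EY y) (Z V) - (((σ ^ 2 : ℝ) : ℂ) * mb) •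
        (1 : Matrix n n ℂ) =
        ((σ ^ 2 : ℝ) : ℂ) • Matrix.diagonal (fun x => Rh h σ ε V x x - mb) := by
      rw [psi_EY, mul_smul, ← smul_sub]
      congr 1
      rw [← Matrix.diagonal_one, ← Matrix.diagonal_smul, Matrix.diagonal_sub]
      congr 1
      funext x
      rw [hZd, Pi.smul_apply, smul_eq_mul, mul_one]
    rw [e1, mul_smul_comm, smul_mul_assoc, Matrix.trace_smul, smul_eq_mul, trace_diag]
  have hint : ∫ V, (P V * (Psi (fun y => (σ : ℂ) • EY y) (Z V) - (((σ ^ 2 : ℝ) : ℂ) * mb) •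
      (1 : Matrix n n ℂ)) * K V).trace ∂(GP n) =
      ((σ ^ 2 : ℝ) : ℂ) * ∑ x, ∫ V, (Rh h σ ε V x x - mb) * (K V * P V) x x ∂(GP n) := by
    simp only [hpt]
    rw [integral_const_mul, integral_finsetSum _ fun x _ => (b1 x).integrable _]
  rw [hint, norm_mul, Complex.norm_real, Real.norm_of_nonneg hs2]
  have hx : ∀ x, ‖∫ V, (Rh h σ ε V x x - mb) * (K V * P V) x x ∂(GP n)‖ ≤
      Real.sqrt (v2 σ ε δ Q g p0 mb.im) * Real.sqrt R := by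
    intro x
    obtain ⟨v1, -⟩ := H.H.tv1 hP mb x (H.hm x) H.hs
    refine (cov (bR x) (bPK x) mb (H.hm x)).trans ?_
    exact mul_le_mul (Real.sqrt_le_sqrt v1) (Real.sqrt_le_sqrt (hvar x)) (Real.sqrt_nonneg _)
      (Real.sqrt_nonneg _)
  have hsumx : ‖∑ x, ∫ V, (Rh h σ ε V x x - mb) * (K V * P V) x x ∂(GP n)‖ ≤
      Fintype.card n * (Real.sqrt (v2 σ ε δ Q g p0 mb.im) * Real.sqrt R) := by
    refine (norm_sum_le _ _).trans ((Finset.sum_le_sum fun x _ => hx x).trans (le_of_eq ?_))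
    rw [Finset.sum_const, Finset.card_univ, nsmul_eq_mul]
  calc _ ≤ σ ^ 2 * (Fintype.card n * (Real.sqrt (v2 σ ε δ Q g p0 mb.im) * Real.sqrt R)) :=
        mul_le_mul_of_nonneg_left hsumx hs2
    _ = _ := by ring

/-- the mean of the resolvent -/
theorem Tra.mean (hP : T_POIN) (hI : T_IBP) (H : Tra h J J' σ ε δ Q g p0 Ω mb G0 Θ)
    (C : Matrix n n ℂ) (c : ℝ) (hc0 : 0 ≤ c) (hC : ∀ w : n → ℂ, nsq (C *ᵥ w) ≤ c ^ 2 * nsq w) :
    ‖∫ V, (C * Rh h σ ε V).trace ∂(GP n) - (C * G0).trace‖ ≤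
      Fintype.card n * (c * epsT σ ε δ Q g p0 Θ mb.im) := by
  have him := H.him
  have hr := rho_nonneg H.H mb.im him
  have h1 := dyson hI H.H.S (u := fun _ => 1) (fun _ => by simp) (fun y => cj_onev _)
    (((σ ^ 2 : ℝ) : ℂ) * mb) G0 H.hG0 (MD.const C)
  simp only [cj_onev, Matrix.zero_mul, Matrix.trace_zero, integral_zero, Finset.sum_const_zero,
    sub_zero, integral_const, probReal_univ, one_smul] at h1
  have h1' : ∫ V, (C * Rh h σ ε V).trace ∂(GP n) = (C * G0).trace +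
      ∫ V, (C * G0 * (Psi (fun y => (σ : ℂ) • EY y) (Rh h σ ε V) - (((σ ^ 2 : ℝ) : ℂ) * mb) •
        (1 : Matrix n n ℂ)) * Rh h σ ε V).trace ∂(GP n) := h1
  rw [h1', add_sub_cancel_left]
  rcases isEmpty_or_nonempty n with hn | ⟨⟨x0⟩⟩
  · simp [Matrix.trace]
  have hΘ0 := H.Θ0 x0
  have h2 := H.self_term hP (P := fun _ => C * G0) (Z := fun V => Rh h σ ε V)
    (K := fun V => Rh h σ ε V) (BM.const _) (bm_gg H.H.S) (fun _ _ => rfl)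
    (c ^ 2 * (rho σ ε δ Q g p0 mb.im * Θ)) (fun x => by
      have e1 := (H.H.tv2 hP mb x (H.hm x) ((C * G0) *ᵥ dl x)).1
      have e2 : ∀ V, star (dl x) ⬝ᵥ (Rh h σ ε V *ᵥ ((C * G0) *ᵥ dl x)) =
          (Rh h σ ε V * (C * G0)) x x := by
        intro V
        rw [Matrix.mulVec_mulVec, form_dl]
      simp only [e2] at e1
      refine e1.trans ?_
      have e3 : nsq ((C * G0) *ᵥ dl x) ≤ c ^ 2 * Θ := by
        rw [← Matrix.mulVec_mulVec]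
        exact (hC _).trans (mul_le_mul_of_nonneg_left (H.hΘ x) (sq_nonneg _))
      calc rho σ ε δ Q g p0 mb.im * nsq ((C * G0) *ᵥ dl x) ≤
          rho σ ε δ Q g p0 mb.im * (c ^ 2 * Θ) := by gcongr
        _ = _ := by ring)
  refine h2.trans (le_of_eq ?_)
  rw [Real.sqrt_mul (sq_nonneg c), Real.sqrt_sq hc0]
  unfold epsT
  ring

/-- the ladder equation, first form -/
theorem Tra.lad1 (hP : T_POIN) (hI : T_IBP) (H : Tra h J J' σ ε δ Q g p0 Ω mb G0 Θ)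
    {u : n → ℂ} (hu : ∀ x, ‖u x‖ = 1) (Sq : ℂ)
    (hS : ∀ x, ∫ V, (cj u (Rh h σ ε V) * (Rh h σ ε V)ᴴ) x x ∂(GP n) = Sq) :
    ‖∫ V, ((Rh h σ ε V)ᴴ * cj u (Rh h σ ε V)).trace ∂(GP n) -
      (1 + ((σ ^ 2 : ℝ) : ℂ) * Sq) * ∫ V, ((Rh h σ ε V)ᴴ * cj u G0).trace ∂(GP n)‖ ≤
      Fintype.card n * (6 * (epsT σ ε δ Q g p0 Θ mb.im / ε)) := by
  have hε := H.H.hε
  have him := H.him
  have hs2 : 0 ≤ σ ^ 2 := sq_nonneg σ
  rcases isEmpty_or_nonempty n with hn | ⟨⟨x0⟩⟩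
  · simp [Matrix.trace]
  have hΘ0 := H.Θ0 x0
  have hr := rho_nonneg H.H mb.im him
  have hv := v2_nonneg H.H mb.im
  obtain ⟨ρ, hρ⟩ : ∃ ρ, ρ = rho σ ε δ Q g p0 mb.im * Θ := ⟨_, rfl⟩
  have hρ0 : 0 ≤ ρ := by
    rw [hρ]
    positivity
  have hA : ∀ y : n, cj u ((σ : ℂ) • EY y) = (σ : ℂ) • EY y := by
    intro y
    rw [cj_smul]
    congr 1
    ext a b
    by_cases hab : a = b
    · subst hab
      rw [cj_diag hu]
    · unfold cj EY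
      rw [Matrix.of_apply, Matrix.diagonal_apply_ne _ hab]
      ring
  have hG : BM fun V : n → ℝ => Rh h σ ε V := bm_gg H.H.S
  have hGH : BM fun V : n → ℝ => (Rh h σ ε V)ᴴ := (MD.gg H.H.S).star'.bm
  have hGc : BM fun V : n → ℝ => cj u (Rh h σ ε V) := ((MD.gg H.H.S).cj u).bm
  -- integration by parts
  have h1 := dyson hI H.H.S hu hA (((σ ^ 2 : ℝ) : ℂ) * mb) G0 H.hG0 (MD.gg H.H.S).star'
  have h1' : ∫ V, ((Rh h σ ε V)ᴴ * cj u (Rh h σ ε V)).trace ∂(GP n) =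
      ∫ V, ((Rh h σ ε V)ᴴ * cj u G0).trace ∂(GP n) +
      ∫ V, ((Rh h σ ε V)ᴴ * cj u G0 * (Psi (fun y => (σ : ℂ) • EY y) (cj u (Rh h σ ε V)) -
        (((σ ^ 2 : ℝ) : ℂ) * mb) • (1 : Matrix n n ℂ)) * cj u (Rh h σ ε V)).trace ∂(GP n) -
      ∑ y, ∫ V, ((-(Rh h σ ε V * ((σ : ℂ) • EY y) * Rh h σ ε V))ᴴ * cj u G0 *
        ((σ : ℂ) • EY y) * cj u (Rh h σ ε V)).trace ∂(GP n) := h1
  -- the first term
  have h2 := H.self_term hP (P := fun V => (Rh h σ ε V)ᴴ * cj u G0)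
    (Z := fun V => cj u (Rh h σ ε V)) (K := fun V => cj u (Rh h σ ε V))
    (hGH.mul (BM.const _)) hGc (fun V x => cj_diag hu _ x)
    (6 * ρ / ε ^ 2) (fun x => by
      have e1 := H.H.tv3b hP hu mb x (H.hm x) (cj u G0 *ᵥ dl x)
      have e2 : ∀ V, star (dl x) ⬝ᵥ ((cj u (Rh h σ ε V) * (Rh h σ ε V)ᴴ) *ᵥ
          (cj u G0 *ᵥ dl x)) = (cj u (Rh h σ ε V) * ((Rh h σ ε V)ᴴ * cj u G0)) x x := by
        intro V
        rw [Matrix.mulVec_mulVec, form_dl, mul_assoc]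
      simp only [e2] at e1
      refine e1.trans ?_
      rw [nsq_cj_dl hu, hρ]
      have := H.hΘ x
      gcongr)
  -- the second term
  have bY : BM fun V : n → ℝ => (Rh h σ ε V)ᴴ * cj u G0 := hGH.mul (BM.const _)
  have bK : BM fun V : n → ℝ => cj u (Rh h σ ε V) * (Rh h σ ε V)ᴴ := hGc.mul hGH
  have b5 : ∀ x, BC fun V : n → ℝ => ((cj u (Rh h σ ε V) * (Rh h σ ε V)ᴴ) x x - Sq) *
      ((Rh h σ ε V)ᴴ * cj u G0) x x := fun x => ((bK x x).sub (BC.const Sq)).mul (bY x x)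
  have hpt : ∀ V : n → ℝ, -(∑ y, ((-(Rh h σ ε V * ((σ : ℂ) • EY y) * Rh h σ ε V))ᴴ *
      cj u G0 * ((σ : ℂ) • EY y) * cj u (Rh h σ ε V)).trace) =
      ((σ ^ 2 : ℝ) : ℂ) * (∑ x, ((cj u (Rh h σ ε V) * (Rh h σ ε V)ᴴ) x x - Sq) *
        ((Rh h σ ε V)ᴴ * cj u G0) x x + Sq * ((Rh h σ ε V)ᴴ * cj u G0).trace) := by
    intro V
    have e1 : -(∑ y, ((-(Rh h σ ε V * ((σ : ℂ) • EY y) * Rh h σ ε V))ᴴ * cj u G0 *
        ((σ : ℂ) • EY y) * cj u (Rh h σ ε V)).trace) =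
        (Psi (fun y => (σ : ℂ) • EY y) ((Rh h σ ε V)ᴴ * cj u G0) *
        (cj u (Rh h σ ε V) * (Rh h σ ε V)ᴴ)).trace := by
      unfold Psi
      rw [Finset.sum_mul, Matrix.trace_sum, ← Finset.sum_neg_distrib]
      refine Finset.sum_congr rfl fun y _ => ?_
      obtain ⟨A, hAA⟩ : ∃ A, A = ((σ : ℂ) • EY y : Matrix n n ℂ) := ⟨_, rfl⟩
      have hAh : Aᴴ = A := by
        rw [hAA]
        exact (EY_herm σ y).eq
      beta_reduce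
      rw [← hAA, Matrix.conjTranspose_neg, Matrix.conjTranspose_mul, Matrix.conjTranspose_mul, hAh]
      have e2 : -((-((Rh h σ ε V)ᴴ * (A * (Rh h σ ε V)ᴴ)) * cj u G0 *
          A * cj u (Rh h σ ε V)).trace) = ((Rh h σ ε V)ᴴ *
          (A * (Rh h σ ε V)ᴴ * cj u G0 * A * cj u (Rh h σ ε V))).trace := by
        rw [← Matrix.trace_neg]
        congr 1
        noncomm_ring
      rw [e2, Matrix.trace_mul_comm]
      congr 1
      noncomm_ring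
    rw [e1, psi_EY, smul_mul_assoc, Matrix.trace_smul, smul_eq_mul]
    congr 1
    unfold Matrix.trace
    rw [Finset.mul_sum, ← Finset.sum_add_distrib]
    refine Finset.sum_congr rfl fun x _ => ?_
    rw [Matrix.diag_apply, Matrix.diagonal_mul, Matrix.diag_apply]
    ring
  have hbD : ∀ y, BC fun V : n → ℝ => ((-(Rh h σ ε V * ((σ : ℂ) • EY y) * Rh h σ ε V))ᴴ *
      cj u G0 * ((σ : ℂ) • EY y) * cj u (Rh h σ ε V)).trace := fun y =>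
    (((((MD.gg H.H.S).star'.bmD y).mul (BM.const _)).mul (BM.const _)).mul hGc).trace
  have hint : -(∑ y, ∫ V, ((-(Rh h σ ε V * ((σ : ℂ) • EY y) * Rh h σ ε V))ᴴ * cj u G0 *
      ((σ : ℂ) • EY y) * cj u (Rh h σ ε V)).trace ∂(GP n)) =
      ((σ ^ 2 : ℝ) : ℂ) * (∑ x, ∫ V, ((cj u (Rh h σ ε V) * (Rh h σ ε V)ᴴ) x x - Sq) *
        ((Rh h σ ε V)ᴴ * cj u G0) x x ∂(GP n) +
        Sq * ∫ V, ((Rh h σ ε V)ᴴ * cj u G0).trace ∂(GP n)) := by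
    rw [← integral_finsetSum _ fun y _ => (hbD y).integrable _, ← integral_neg]
    simp only [hpt]
    have i1 : Integrable (fun V : n → ℝ => ∑ x, ((cj u (Rh h σ ε V) * (Rh h σ ε V)ᴴ) x x - Sq) *
        ((Rh h σ ε V)ᴴ * cj u G0) x x) (GP n) :=
      integrable_finsetSum _ fun x _ => (b5 x).integrable _
    have i2 : Integrable (fun V : n → ℝ => Sq * ((Rh h σ ε V)ᴴ * cj u G0).trace) (GP n) :=
      (bY.trace.integrable _).const_mul _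
    rw [integral_const_mul, integral_add i1 i2,
      integral_finsetSum _ fun x _ => (b5 x).integrable _, integral_const_mul]
  rw [sub_eq_add_neg, hint] at h1'
  -- bounds
  have hx : ∀ x, ‖∫ V, ((cj u (Rh h σ ε V) * (Rh h σ ε V)ᴴ) x x - Sq) *
        ((Rh h σ ε V)ᴴ * cj u G0) x x ∂(GP n)‖ ≤
      Real.sqrt (8 * v2 σ ε δ Q g p0 mb.im / ε ^ 2) * Real.sqrt ρ := by
    intro x
    have v1 := H.H.tv3a hP hu mb x (H.hm x) H.hs
    have w2 : var (fun V : n → ℝ => ((Rh h σ ε V)ᴴ * cj u G0) x x) ≤ ρ := by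
      have e1 := (H.H.tv2 hP mb x (H.hm x) (cj u G0 *ᵥ dl x)).2
      rw [← var_star] at e1
      have e2 : ∀ V : n → ℝ, star (star (cj u G0 *ᵥ dl x) ⬝ᵥ (Rh h σ ε V *ᵥ dl x)) =
          ((Rh h σ ε V)ᴴ * cj u G0) x x := by
        intro V
        rw [star_form, Matrix.mulVec_mulVec, form_dl]
      simp only [e2] at e1
      refine e1.trans ?_
      rw [nsq_cj_dl hu, hρ]
      have := H.hΘ x
      gcongr
    refine (cov (bK x x) (bY x x) Sq (hS x)).trans ?_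
    exact mul_le_mul (Real.sqrt_le_sqrt v1) (Real.sqrt_le_sqrt w2) (Real.sqrt_nonneg _)
      (Real.sqrt_nonneg _)
  have hsumx : ‖∑ x, ∫ V, ((cj u (Rh h σ ε V) * (Rh h σ ε V)ᴴ) x x - Sq) *
        ((Rh h σ ε V)ᴴ * cj u G0) x x ∂(GP n)‖ ≤
      Fintype.card n * (Real.sqrt (8 * v2 σ ε δ Q g p0 mb.im / ε ^ 2) * Real.sqrt ρ) := by
    refine (norm_sum_le _ _).trans ((Finset.sum_le_sum fun x _ => hx x).trans (le_of_eq ?_))
    rw [Finset.sum_const, Finset.card_univ, nsmul_eq_mul]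
  rw [h1']
  obtain ⟨X1, hX1⟩ : ∃ X1, X1 = ∫ V, ((Rh h σ ε V)ᴴ * cj u G0).trace ∂(GP n) := ⟨_, rfl⟩
  obtain ⟨X2, hX2⟩ : ∃ X2, X2 = ∫ V, ((Rh h σ ε V)ᴴ * cj u G0 *
    (Psi (fun y => (σ : ℂ) • EY y) (cj u (Rh h σ ε V)) -
      (((σ ^ 2 : ℝ) : ℂ) * mb) • (1 : Matrix n n ℂ)) * cj u (Rh h σ ε V)).trace ∂(GP n) :=
    ⟨_, rfl⟩
  obtain ⟨X3, hX3⟩ : ∃ X3, X3 = ∑ x, ∫ V, ((cj u (Rh h σ ε V) * (Rh h σ ε V)ᴴ) x x - Sq) *
        ((Rh h σ ε V)ᴴ * cj u G0) x x ∂(GP n) := ⟨_, rfl⟩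
  rw [← hX2] at h2
  rw [← hX3] at hsumx
  rw [← hX1, ← hX2, ← hX3]
  have e1 : X1 + X2 + ((σ ^ 2 : ℝ) : ℂ) * (X3 + Sq * X1) - (1 + ((σ ^ 2 : ℝ) : ℂ) * Sq) * X1 =
      X2 + ((σ ^ 2 : ℝ) : ℂ) * X3 := by ring
  rw [e1]
  have s6 : Real.sqrt (6 * ρ / ε ^ 2) ≤ 3 * Real.sqrt ρ / ε := by
    rw [Real.sqrt_le_left (by positivity)]
    have s1 := Real.sq_sqrt hρ0
    calc 6 * ρ / ε ^ 2 ≤ 9 * ρ / ε ^ 2 := by gcongr; norm_num
      _ = (3 * Real.sqrt ρ / ε) ^ 2 := by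
        rw [div_pow, mul_pow, s1]
        norm_num
  have s8 : Real.sqrt (8 * v2 σ ε δ Q g p0 mb.im / ε ^ 2) ≤
      3 * Real.sqrt (v2 σ ε δ Q g p0 mb.im) / ε := by
    rw [Real.sqrt_le_left (by positivity)]
    have s1 := Real.sq_sqrt hv
    calc 8 * v2 σ ε δ Q g p0 mb.im / ε ^ 2 ≤ 9 * v2 σ ε δ Q g p0 mb.im / ε ^ 2 := by
          gcongr
          norm_num
      _ = (3 * Real.sqrt (v2 σ ε δ Q g p0 mb.im) / ε) ^ 2 := by
        rw [div_pow, mul_pow, s1]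
        norm_num
  calc ‖X2 + ((σ ^ 2 : ℝ) : ℂ) * X3‖ ≤ ‖X2‖ + σ ^ 2 * ‖X3‖ := by
        refine (norm_add_le _ _).trans ?_
        rw [norm_mul, Complex.norm_real, Real.norm_of_nonneg hs2]
    _ ≤ Fintype.card n * (σ ^ 2 * (Real.sqrt (v2 σ ε δ Q g p0 mb.im) *
          Real.sqrt (6 * ρ / ε ^ 2))) + σ ^ 2 * (Fintype.card n *
          (Real.sqrt (8 * v2 σ ε δ Q g p0 mb.im / ε ^ 2) * Real.sqrt ρ)) := by gcongr
    _ ≤ Fintype.card n * (σ ^ 2 * (Real.sqrt (v2 σ ε δ Q g p0 mb.im) *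
          (3 * Real.sqrt ρ / ε))) + σ ^ 2 * (Fintype.card n *
          ((3 * Real.sqrt (v2 σ ε δ Q g p0 mb.im) / ε) * Real.sqrt ρ)) := by gcongr
    _ = _ := by
        unfold epsT
        rw [← hρ]
        ring

theorem Tra.sq_bd (H : Tra h J J' σ ε δ Q g p0 Ω mb G0 Θ)
    {u : n → ℂ} (hu : ∀ x, ‖u x‖ = 1) (Sq : ℂ) (x : n)
    (hS : ∫ V, (cj u (Rh h σ ε V) * (Rh h σ ε V)ᴴ) x x ∂(GP n) = Sq) :
    ‖Sq‖ ≤ mb.im / ε := by
  have hε := H.H.hε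
  have hK : BM fun V : n → ℝ => cj u (Rh h σ ε V) * (Rh h σ ε V)ᴴ :=
    ((MD.gg H.H.S).cj u).bm.mul (MD.gg H.H.S).star'.bm
  have hpt : ∀ V : n → ℝ, ‖(cj u (Rh h σ ε V) * (Rh h σ ε V)ᴴ) x x‖ ≤
      (Rh h σ ε V x x).im / ε := by
    intro V
    have e1 : (cj u (Rh h σ ε V) * (Rh h σ ε V)ᴴ) x x =
        star ((cj u (Rh h σ ε V))ᴴ *ᵥ dl x) ⬝ᵥ ((Rh h σ ε V)ᴴ *ᵥ dl x) := by
      rw [← adjoint, Matrix.mulVec_mulVec, form_dl]
    rw [e1]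
    refine (cs_norm _ _).trans ?_
    rw [← cj_star, nsq_cj_dl hu, Real.mul_self_sqrt (nsq_nonneg _)]
    have := (H.H.nsq_im V (dl x)).2
    rwa [form_dl] at this
  rw [← hS]
  calc ‖∫ V, (cj u (Rh h σ ε V) * (Rh h σ ε V)ᴴ) x x ∂(GP n)‖ ≤
      ∫ V, ‖(cj u (Rh h σ ε V) * (Rh h σ ε V)ᴴ) x x‖ ∂(GP n) :=
        norm_integral_le_integral_norm _
    _ ≤ ∫ V, (Rh h σ ε V x x).im / ε ∂(GP n) :=
        integral_mono (RC.norm (hK x x)).integrable ((H.H.rc_im x).integrable.div_const _) hpt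
    _ = _ := by rw [integral_div, H.H.int_im x (H.hm x)]

/-- the ladder equation -/
theorem Tra.lad2 (hP : T_POIN) (hI : T_IBP) (H : Tra h J J' σ ε δ Q g p0 Ω mb G0 Θ)
    {u : n → ℂ} (hu : ∀ x, ‖u x‖ = 1) (Sq : ℂ) (x0 : n)
    (hS : ∀ x, ∫ V, (cj u (Rh h σ ε V) * (Rh h σ ε V)ᴴ) x x ∂(GP n) = Sq) (Tq : ℂ)
    (hTq : (G0ᴴ * cj u G0).trace = Fintype.card n * Tq) :
    ‖Sq * (1 - ((σ ^ 2 : ℝ) : ℂ) * Tq) - Tq‖ ≤ 7 * (epsT σ ε δ Q g p0 Θ mb.im / ε) := by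
  have hε := H.H.hε
  have him := H.him
  have hs2 : 0 ≤ σ ^ 2 := sq_nonneg σ
  have hΘ0 := H.Θ0 x0
  have hr := rho_nonneg H.H mb.im him
  have hv := v2_nonneg H.H mb.im
  have hΓ := H.Γ0
  have heps : 0 ≤ epsT σ ε δ Q g p0 Θ mb.im := by
    unfold epsT
    positivity
  have hn : (0 : ℝ) < Fintype.card n := by exact_mod_cast Fintype.card_pos_iff.2 ⟨x0⟩
  have l1 := H.lad1 hP hI hu Sq hS
  have l2 := H.mean hP hI (cj u G0)ᴴ (ε + σ ^ 2 * mb.im)⁻¹ (by positivity) (by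
    rw [← cj_star]
    exact nsq_cj hu _ _ H.hbH)
  obtain ⟨X, hX⟩ : ∃ X, X = ∫ V, ((Rh h σ ε V)ᴴ * cj u G0).trace ∂(GP n) := ⟨_, rfl⟩
  rw [← hX] at l1
  have hXc : ∫ V, ((cj u G0)ᴴ * Rh h σ ε V).trace ∂(GP n) = star X := by
    rw [hX, RCLike.star_def, ← integral_conj]
    refine integral_congr_ae (Filter.Eventually.of_forall fun V => ?_)
    simp only
    rw [← RCLike.star_def, ← Matrix.trace_conjTranspose, Matrix.conjTranspose_mul,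
      Matrix.conjTranspose_conjTranspose]
  have hTc : ((cj u G0)ᴴ * G0).trace = star ((Fintype.card n : ℂ) * Tq) := by
    rw [← hTq, ← Matrix.trace_conjTranspose, Matrix.conjTranspose_mul,
      Matrix.conjTranspose_conjTranspose]
  rw [hXc, hTc, ← star_sub, norm_star] at l2
  have hSS : ∫ V, ((Rh h σ ε V)ᴴ * cj u (Rh h σ ε V)).trace ∂(GP n) =
      Fintype.card n * Sq := by
    have e1 : ∀ V : n → ℝ, ((Rh h σ ε V)ᴴ * cj u (Rh h σ ε V)).trace =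
        ∑ x, (cj u (Rh h σ ε V) * (Rh h σ ε V)ᴴ) x x := by
      intro V
      rw [Matrix.trace_mul_comm]
      rfl
    simp only [e1]
    have hK : BM fun V : n → ℝ => cj u (Rh h σ ε V) * (Rh h σ ε V)ᴴ :=
      ((MD.gg H.H.S).cj u).bm.mul (MD.gg H.H.S).star'.bm
    rw [integral_finsetSum _ fun x _ => (hK x x).integrable _]
    simp only [hS, Finset.sum_const, Finset.card_univ, nsmul_eq_mul]
  rw [hSS] at l1
  have hSb := H.sq_bd hu Sq x0 (hS x0)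
  -- combine
  have key : ‖(Fintype.card n : ℂ) * (Sq * (1 - ((σ ^ 2 : ℝ) : ℂ) * Tq) - Tq)‖ ≤
      Fintype.card n * (7 * (epsT σ ε δ Q g p0 Θ mb.im / ε)) := by
    have e1 : (Fintype.card n : ℂ) * (Sq * (1 - ((σ ^ 2 : ℝ) : ℂ) * Tq) - Tq) =
        ((Fintype.card n : ℂ) * Sq - (1 + ((σ ^ 2 : ℝ) : ℂ) * Sq) * X) +
        (1 + ((σ ^ 2 : ℝ) : ℂ) * Sq) * (X - (Fintype.card n : ℂ) * Tq) := by ring
    have e2 : ‖1 + ((σ ^ 2 : ℝ) : ℂ) * Sq‖ ≤ 1 + σ ^ 2 * (mb.im / ε) := by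
      refine (norm_add_le _ _).trans ?_
      rw [norm_one, norm_mul, Complex.norm_real, Real.norm_of_nonneg hs2]
      gcongr
    have e3 : (1 + σ ^ 2 * (mb.im / ε)) * (ε + σ ^ 2 * mb.im)⁻¹ = 1 / ε := by
      field_simp
    rw [e1]
    calc _ ≤ ‖(Fintype.card n : ℂ) * Sq - (1 + ((σ ^ 2 : ℝ) : ℂ) * Sq) * X‖ +
          ‖1 + ((σ ^ 2 : ℝ) : ℂ) * Sq‖ * ‖X - (Fintype.card n : ℂ) * Tq‖ := by
          refine (norm_add_le _ _).trans ?_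
          rw [norm_mul (1 + ((σ ^ 2 : ℝ) : ℂ) * Sq)]
      _ ≤ Fintype.card n * (6 * (epsT σ ε δ Q g p0 Θ mb.im / ε)) +
          (1 + σ ^ 2 * (mb.im / ε)) *
            (Fintype.card n * ((ε + σ ^ 2 * mb.im)⁻¹ * epsT σ ε δ Q g p0 Θ mb.im)) := by
          gcongr
      _ = Fintype.card n * (6 * (epsT σ ε δ Q g p0 Θ mb.im / ε) +
          ((1 + σ ^ 2 * (mb.im / ε)) * (ε + σ ^ 2 * mb.im)⁻¹) *
            epsT σ ε δ Q g p0 Θ mb.im) := by ring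
      _ = _ := by
          rw [e3]
          ring
  rw [norm_mul, Complex.norm_natCast] at key
  exact le_of_mul_le_mul_left key hn

end tra

end Pool.Agent.T2h98.QD
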