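import Pool.Agent.T2h98.QD.Stm6

/-! The limit at one energy. -/

set_option autoImplicit false
set_option linter.unusedSectionVars false

open scoped BigOperators Matrix Topology
open MeasureTheory ProbabilityTheory Filter

namespace Pool.Agent.T2h98.QD

open Pool.Agent.W788.MFP.Four (T e NN adj K)
open Pool.Agent.W788.BK (nsq hs PP JJ hi Low cr)

/-- the facts used for the diffusive limit -/
structure Fac2 : Prop where
  poin : T_POIN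
  ibp : T_IBP
  inv : T_INV
  ker : T_KER
  rqf : T_RQF
  poi : T_POI
  dif : T_DIF
  dos : T_DOS
  en : T_EN
  scal : T_SCAL

/-- the parameters of the limit -/
structure Prm (d : ℕ) (h τ : ℝ) : Prop where
  hd : 3 ≤ d
  h0 : 0 < h
  h1 : h < 4 * (d - 1) / (7 * (2 * d + 1))
  hτ : 0 < τ

theorem Prm.hh {d : ℕ} {h τ : ℝ} (P : Prm d h τ) : h < 1 := by
  have h1 := P.h1
  have hd : (3 : ℝ) ≤ d := by exact_mod_cast P.hd
  have h2 : 4 * ((d : ℝ) - 1) / (7 * (2 * d + 1)) ≤ 1 := by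
    rw [div_le_one (by positivity)]
    linarith
  linarith

theorem eT_pos {h τ σ : ℝ} (hτ : 0 < τ) (hσ : 0 < σ) : 0 < eT h τ σ := by
  unfold eT
  have := Real.rpow_pos_of_pos hσ (2 + h)
  positivity

theorem LL_ge {σ : ℝ} (_hσ : 0 < σ) : (σ ^ 12)⁻¹ ≤ (LL σ : ℝ) := by
  unfold LL
  push_cast
  linarith [Nat.le_ceil (σ ^ 12)⁻¹]

/-- the torus is large -/
theorem ev_LL {d : ℕ} {h τ : ℝ} (P : Prm d h τ) (r : ℝ) (hr : 0 < r) :
    ∀ᶠ σ in 𝓝[>] (0 : ℝ), 1 / (LL σ : ℝ) ≤ r * eT h τ σ ^ 2 := by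
  have hτ := P.hτ
  have h1 : ∀ᶠ σ in 𝓝[>] (0 : ℝ), σ < 1 := nhdsWithin_le_nhds (eventually_lt_nhds one_pos)
  have h2 : Tendsto (fun σ : ℝ => σ ^ 6) (𝓝[>] 0) (𝓝 0) := by
    have := (continuous_pow 6 (M := ℝ)).tendsto 0
    simp only [ne_eq, OfNat.ofNat_ne_zero, not_false_eq_true, zero_pow] at this
    exact this.mono_left nhdsWithin_le_nhds
  have h3 := h2.eventually (eventually_lt_nhds (show (0 : ℝ) < r / (4 * τ ^ 2) by positivity))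
  filter_upwards [h1, h3, self_mem_nhdsWithin] with σ hσ1 hσ3 hσ0
  have hσ0' : 0 < σ := hσ0
  have e1 : 1 / (LL σ : ℝ) ≤ σ ^ 12 := by
    have := LL_ge hσ0'
    rw [one_div]
    calc (LL σ : ℝ)⁻¹ ≤ ((σ ^ 12)⁻¹)⁻¹ := inv_anti₀ (by positivity) this
      _ = σ ^ 12 := inv_inv _
  have e2 : σ ^ 3 ≤ σ ^ (2 + h) := by
    rw [← Real.rpow_natCast]
    apply Real.rpow_le_rpow_of_exponent_ge hσ0' hσ1.le
    push_cast
    linarith [P.hh]
  calc 1 / (LL σ : ℝ) ≤ σ ^ 12 := e1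
    _ = σ ^ 6 * (σ ^ 3) ^ 2 := by ring
    _ ≤ r / (4 * τ ^ 2) * (σ ^ (2 + h)) ^ 2 := by gcongr
    _ = _ := by
      unfold eT
      field_simp
      ring

/-- everything at a small `σ` -/
theorem ev_main (F : Fac2) {d : ℕ} {h τ : ℝ} (P : Prm d h τ) (ζ : ℝ) (hζ : 0 < ζ)
    (hζ4 : ζ ≤ 1 / 4) : ∀ᶠ σ in 𝓝[>] (0 : ℝ), ∀ (E E' Γ : ℝ),
      E' = E + σ ^ 2 * (mT d (LL σ) σ E (eT h τ σ)).re →
      Γ = eT h τ σ + σ ^ 2 * (mT d (LL σ) σ E (eT h τ σ)).im →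
      0 ≤ (mT d (LL σ) σ E (eT h τ σ)).im ∧ |E - E'| ≤ ζ ∧ 0 < Γ ∧ Γ ≤ ζ ∧ eT h τ σ ≤ Γ ∧
      |(mT d (LL σ) σ E (eT h τ σ)).im - Bf d (LL σ) E' Γ| ≤ ζ ∧
      (∀ κ : T d (LL σ), ‖Sr d (LL σ) σ E (eT h τ σ) κ‖ ≤
        (mT d (LL σ) σ E (eT h τ σ)).im / eT h τ σ) ∧
      ∀ m0 : ℝ, 0 < m0 → m0 ≤ (mT d (LL σ) σ E (eT h τ σ)).im →
        σ ^ 2 / eT h τ σ * |(mT d (LL σ) σ E (eT h τ σ)).im - Bf d (LL σ) E' Γ| ≤
          ζ / Real.sqrt m0 ∧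
        ∀ κ : T d (LL σ), σ ^ 2 * ‖Sr d (LL σ) σ E (eT h τ σ) κ * (1 - ((σ ^ 2 : ℝ) : ℂ) *
          ((Bf d (LL σ) E' Γ / Γ - Lf d (LL σ) E' Γ κ / 2 : ℝ) : ℂ)) -
          ((Bf d (LL σ) E' Γ / Γ - Lf d (LL σ) E' Γ κ / 2 : ℝ) : ℂ)‖ ≤
            7 * (ζ / Real.sqrt m0) := by
  filter_upwards [F.scal d P.hd h P.h0 P.h1 τ ζ P.hτ hζ hζ4, self_mem_nhdsWithin] with σ hσ hσ0
  have hσ0' : 0 < σ := hσ0
  have hε := eT_pos (h := h) P.hτ hσ0'
  obtain ⟨δ, θ, t, Q0, g, cn, p0, Ω, p, s⟩ := hσ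
  intro E E' Γ hE' hΓ
  have him := (p E).im0 F.ker F.rqf
  obtain ⟨f1, f2, f3, f4, f5, f6⟩ := (p E).fin F.poin F.ibp F.ker F.rqf F.inv s E' Γ hE' hΓ
  have him2 : (mT d (LL σ) σ E (eT h τ σ)).im ≤ 2 * g :=
    ((le_abs_self _).trans (Complex.abs_im_le_norm _)).trans f1
  refine ⟨him, f2, f3, f4, ?_, f5, fun κ => (p E).sr_bd F.ker F.rqf F.inv κ, ?_⟩
  · rw [hΓ]
    have : 0 ≤ σ ^ 2 * (mT d (LL σ) σ E (eT h τ σ)).im := by positivity
    linarith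
  · intro m0 hm0 hm
    have h1 := s.reg hσ0' hε (p E).hεδ (p E).hp0 him hΓ him2 hm0 hm
    refine ⟨le_trans (mul_le_mul_of_nonneg_left f6 (by positivity)) h1, ?_⟩
    intro κ
    have h2 := (p E).ladder F.poin F.ibp F.ker F.rqf F.inv E' Γ hE' hΓ κ
    calc _ ≤ σ ^ 2 * (7 * (epsT σ (eT h τ σ) δ (Q0 + cn / δ ^ 2) g p0 (g / Γ)
          (mT d (LL σ) σ E (eT h τ σ)).im / eT h τ σ)) :=
          mul_le_mul_of_nonneg_left h2 (by positivity)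
      _ = 7 * (σ ^ 2 / eT h τ σ * epsT σ (eT h τ σ) δ (Q0 + cn / δ ^ 2) g p0 (g / Γ)
          (mT d (LL σ) σ E (eT h τ σ)).im) := by ring
      _ ≤ _ := by gcongr

/-- the mean of the diagonal converges uniformly to the density of states -/
theorem lim_im (F : Fac2) {d : ℕ} {h τ : ℝ} (P : Prm d h τ) (η : ℝ) (hη : 0 < η) :
    ∀ᶠ σ in 𝓝[>] (0 : ℝ), ∀ E : ℝ,
      |(mT d (LL σ) σ E (eT h τ σ)).im - Real.pi * dn d E| ≤ η := by
  obtain ⟨r, hr, hpoi⟩ := F.poi d P.hd (η / 2) (by positivity)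
  obtain ⟨ζ, hζ⟩ : ∃ ζ, ζ = min (1 / 4) (min (r / 2) (η / 2)) := ⟨_, rfl⟩
  have hζ0 : 0 < ζ := by
    rw [hζ]
    positivity
  have hζ4 : ζ ≤ 1 / 4 := by
    rw [hζ]
    exact min_le_left _ _
  have hζr : ζ ≤ r / 2 := by
    rw [hζ]
    exact (min_le_right _ _).trans (min_le_left _ _)
  have hζη : ζ ≤ η / 2 := by
    rw [hζ]
    exact (min_le_right _ _).trans (min_le_right _ _)
  filter_upwards [ev_main F P ζ hζ0 hζ4, ev_LL P r hr, self_mem_nhdsWithin] with σ hσ hL hσ0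
  have hσ0' : 0 < σ := hσ0
  have hε := eT_pos (h := h) P.hτ hσ0'
  intro E
  obtain ⟨f1, f2, f3, f4, f5, f6, -, -⟩ := hσ E _ _ rfl rfl
  have h1 := (hpoi E _ _ (LL σ) (lt_of_le_of_lt f2 (by linarith)) f3 (lt_of_le_of_lt f4 (by linarith))
    (hL.trans (by gcongr))).1
  have h2 : |(mT d (LL σ) σ E (eT h τ σ)).im - Real.pi * dn d E| ≤ ζ + η / 2 := by
    refine (abs_sub_le _ _ _).trans (add_le_add f6 h1)
  linarith

/-- the imaginary part of the energy is small compared with `σ²` -/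
theorem lim_eT {d : ℕ} {h τ : ℝ} (P : Prm d h τ) :
    Tendsto (fun σ : ℝ => eT h τ σ / σ ^ 2) (𝓝[>] 0) (𝓝 0) := by
  have h1 : Tendsto (fun σ : ℝ => σ ^ h / (2 * τ)) (𝓝[>] 0) (𝓝 0) := by
    have := (Real.continuousAt_rpow_const 0 h (Or.inr P.h0.le)).tendsto
    rw [Real.zero_rpow P.h0.ne'] at this
    have h2 := (this.mono_left (nhdsWithin_le_nhds (s := Set.Ioi (0 : ℝ)))).div_const (2 * τ)
    rwa [zero_div] at h2
  refine h1.congr' ?_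
  filter_upwards [self_mem_nhdsWithin] with σ hσ0
  have hσ0' : 0 < σ := hσ0
  unfold eT
  rw [Real.rpow_add hσ0', Real.rpow_two]
  have := P.hτ
  field_simp

theorem u_sq {h τ σ : ℝ} (hτ : 0 < τ) (hσ : 0 < σ) :
    (σ ^ (2 + h / 2)) ^ 2 = 2 * τ * eT h τ σ * σ ^ 2 := by
  unfold eT
  rw [← Real.rpow_natCast, ← Real.rpow_mul hσ.le]
  have e1 : (2 + h / 2) * ((2 : ℕ) : ℝ) = (2 + h) + 2 := by
    push_cast
    ring
  rw [e1, Real.rpow_add hσ, Real.rpow_two]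
  field_simp

/-- the momentum -/
theorem lim_S2 {d : ℕ} {h τ : ℝ} (P : Prm d h τ) (Q : Fin d → ℝ) (κ : ∀ σ : ℝ, T d (LL σ))
    (hκ : ∀ᶠ σ in 𝓝[>] (0 : ℝ), ∀ i, |σ ^ (2 + h / 2) * Q i - mo (κ σ) i| ≤
      2 * Real.pi / (LL σ : ℝ)) :
    Tendsto (fun σ : ℝ => (∑ i, mo (κ σ) i ^ 2) / (2 * τ * eT h τ σ * σ ^ 2)) (𝓝[>] 0)
      (𝓝 (∑ i, Q i ^ 2)) := by
  have hτ := P.hτ
  have h1 : ∀ i, Tendsto (fun σ : ℝ => mo (κ σ) i / σ ^ (2 + h / 2)) (𝓝[>] 0) (𝓝 (Q i)) := by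
    intro i
    rw [tendsto_iff_norm_sub_tendsto_zero]
    have h2 : Tendsto (fun σ : ℝ => 2 * Real.pi * σ ^ 9) (𝓝[>] 0) (𝓝 0) := by
      have h5 : Continuous (fun σ : ℝ => 2 * Real.pi * σ ^ 9) := by fun_prop
      have h6 := h5.tendsto 0
      have h7 : 2 * Real.pi * (0 : ℝ) ^ 9 = 0 := by norm_num
      rw [h7] at h6
      exact h6.mono_left nhdsWithin_le_nhds
    refine squeeze_zero' (Eventually.of_forall fun σ => norm_nonneg _) ?_ h2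
    have h3 : ∀ᶠ σ in 𝓝[>] (0 : ℝ), σ < 1 := nhdsWithin_le_nhds (eventually_lt_nhds one_pos)
    filter_upwards [hκ, h3, self_mem_nhdsWithin] with σ hσ hσ1 hσ0
    have hσ0' : 0 < σ := hσ0
    have hu := Real.rpow_pos_of_pos hσ0' (2 + h / 2)
    have e1 : σ ^ 3 ≤ σ ^ (2 + h / 2) := by
      rw [← Real.rpow_natCast]
      apply Real.rpow_le_rpow_of_exponent_ge hσ0' hσ1.le
      push_cast
      linarith [P.hh, P.h0]
    have e2 : mo (κ σ) i / σ ^ (2 + h / 2) - Q i =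
        -((σ ^ (2 + h / 2) * Q i - mo (κ σ) i) / σ ^ (2 + h / 2)) := by
      field_simp
      ring
    have e3 : 1 / (LL σ : ℝ) ≤ σ ^ 12 := by
      have := LL_ge hσ0'
      rw [one_div]
      calc (LL σ : ℝ)⁻¹ ≤ ((σ ^ 12)⁻¹)⁻¹ := inv_anti₀ (by positivity) this
        _ = σ ^ 12 := inv_inv _
    rw [e2, norm_neg, norm_div, Real.norm_of_nonneg hu.le, div_le_iff₀ hu, Real.norm_eq_abs]
    calc |σ ^ (2 + h / 2) * Q i - mo (κ σ) i| ≤ 2 * Real.pi / (LL σ : ℝ) := hσ i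
      _ = 2 * Real.pi * (1 / (LL σ : ℝ)) := by ring
      _ ≤ 2 * Real.pi * σ ^ 12 := by
        have := Real.pi_pos
        gcongr
      _ = 2 * Real.pi * σ ^ 9 * σ ^ 3 := by ring
      _ ≤ _ := by
        have := Real.pi_pos
        gcongr
  have h4 : Tendsto (fun σ : ℝ => ∑ i, (mo (κ σ) i / σ ^ (2 + h / 2)) ^ 2) (𝓝[>] 0)
      (𝓝 (∑ i, Q i ^ 2)) := tendsto_finsetSum _ fun i _ => (h1 i).pow 2
  refine h4.congr' ?_
  filter_upwards [self_mem_nhdsWithin] with σ hσ0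
  have hσ0' : 0 < σ := hσ0
  rw [← u_sq hτ hσ0', Finset.sum_div]
  refine Finset.sum_congr rfl fun i _ => ?_
  rw [div_pow]

/-- the limit at one energy -/
theorem lim_pt (F : Fac2) {d : ℕ} {h τ : ℝ} (P : Prm d h τ) (Q : Fin d → ℝ)
    (κ : ∀ σ : ℝ, T d (LL σ))
    (hκ : ∀ᶠ σ in 𝓝[>] (0 : ℝ), ∀ i, |σ ^ (2 + h / 2) * Q i - mo (κ σ) i| ≤
      2 * Real.pi / (LL σ : ℝ)) (E : ℝ) :
    Tendsto (fun σ : ℝ => ((eT h τ σ : ℝ) : ℂ) * Sr d (LL σ) σ E (eT h τ σ) (κ σ)) (𝓝[>] 0)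
      (𝓝 ((Real.pi * fl d Q τ E : ℝ) : ℂ)) := by
  have hτ := P.hτ
  have hpi := Real.pi_pos
  obtain ⟨-, -, hn0, hw0, -, -⟩ := F.dos d P.hd
  -- the functions
  obtain ⟨im, him⟩ : ∃ im : ℝ → ℝ, im = fun σ => (mT d (LL σ) σ E (eT h τ σ)).im := ⟨_, rfl⟩
  have l_im : Tendsto im (𝓝[>] 0) (𝓝 (Real.pi * dn d E)) := by
    rw [Metric.tendsto_nhds]
    intro η hη
    filter_upwards [lim_im F P (η / 2) (by positivity)] with σ hσ
    rw [Real.dist_eq, him]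
    have := hσ E
    linarith
  rcases (hn0 E).eq_or_lt with hn | hn
  · -- zero density
    have e1 : Real.pi * fl d Q τ E = 0 := by
      unfold fl
      rw [← hn]
      simp
    rw [e1, Complex.ofReal_zero, tendsto_zero_iff_norm_tendsto_zero]
    rw [← hn, mul_zero] at l_im
    refine squeeze_zero' (Eventually.of_forall fun σ => norm_nonneg _) ?_ l_im
    filter_upwards [ev_main F P (1 / 4) (by norm_num) le_rfl, self_mem_nhdsWithin] with σ hσ hσ0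
    have hσ0' : 0 < σ := hσ0
    have hε := eT_pos (h := h) hτ hσ0'
    obtain ⟨-, -, -, -, -, -, f7, -⟩ := hσ E _ _ rfl rfl
    rw [norm_mul, Complex.norm_real, Real.norm_of_nonneg hε.le, him]
    have := f7 (κ σ)
    rw [le_div_iff₀ hε] at this
    linarith
  · -- positive density
    obtain ⟨Γ, hΓ⟩ : ∃ Γ : ℝ → ℝ, Γ = fun σ => eT h τ σ + σ ^ 2 * im σ := ⟨_, rfl⟩
    obtain ⟨E', hE'⟩ : ∃ E' : ℝ → ℝ, E' = fun σ => E + σ ^ 2 * (mT d (LL σ) σ E (eT h τ σ)).re :=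
      ⟨_, rfl⟩
    obtain ⟨B, hB⟩ : ∃ B : ℝ → ℝ, B = fun σ => Bf d (LL σ) (E' σ) (Γ σ) := ⟨_, rfl⟩
    obtain ⟨Λ, hΛ⟩ : ∃ Λ : ℝ → ℝ, Λ = fun σ => Lf d (LL σ) (E' σ) (Γ σ) (κ σ) := ⟨_, rfl⟩
    obtain ⟨S, hS⟩ : ∃ S : ℝ → ℂ, S = fun σ => Sr d (LL σ) σ E (eT h τ σ) (κ σ) := ⟨_, rfl⟩
    obtain ⟨Er, hEr⟩ : ∃ Er : ℝ → ℂ, Er = fun σ => S σ * (1 - ((σ ^ 2 : ℝ) : ℂ) *
      ((B σ / Γ σ - Λ σ / 2 : ℝ) : ℂ)) - ((B σ / Γ σ - Λ σ / 2 : ℝ) : ℂ) := ⟨_, rfl⟩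
    obtain ⟨S2, hS2⟩ : ∃ S2 : ℝ → ℝ, S2 = fun σ => ∑ i, mo (κ σ) i ^ 2 := ⟨_, rfl⟩
    obtain ⟨n, hnn⟩ : ∃ n, n = dn d E := ⟨_, rfl⟩
    obtain ⟨w, hww⟩ : ∃ w, w = dw d E := ⟨_, rfl⟩
    rw [← hnn] at hn l_im
    have hπn : 0 < Real.pi * n := by positivity
    have l_mem : ∀ᶠ σ in 𝓝[>] (0 : ℝ), 0 < σ := self_mem_nhdsWithin
    have l_m0 : ∀ᶠ σ in 𝓝[>] (0 : ℝ), Real.pi * n / 2 ≤ im σ :=
      (l_im.eventually (lt_mem_nhds (show Real.pi * n / 2 < Real.pi * n by linarith))).mono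
        fun σ hσ => hσ.le
    have hs0 : 0 < Real.sqrt (Real.pi * n / 2) := Real.sqrt_pos.2 (by positivity)
    -- eventual facts for each `ζ`
    have ev : ∀ ζ : ℝ, 0 < ζ → ζ ≤ 1 / 4 → ∀ᶠ σ in 𝓝[>] (0 : ℝ),
        |E - E' σ| ≤ ζ ∧ 0 < Γ σ ∧ Γ σ ≤ ζ ∧ eT h τ σ ≤ Γ σ ∧ |im σ - B σ| ≤ ζ ∧
        σ ^ 2 / eT h τ σ * |im σ - B σ| ≤ ζ / Real.sqrt (Real.pi * n / 2) ∧
        σ ^ 2 * ‖Er σ‖ ≤ 7 * (ζ / Real.sqrt (Real.pi * n / 2)) := by
      intro ζ h1 h2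
      filter_upwards [ev_main F P ζ h1 h2, l_m0] with σ hσ hm
      obtain ⟨f1, f2, f3, f4, f5, f6, f7, f8⟩ := hσ E (E' σ) (Γ σ) (by rw [hE'])
        (by rw [hΓ, him])
      obtain ⟨f9, f10⟩ := f8 (Real.pi * n / 2) (by positivity) (by
        rw [him] at hm
        exact hm)
      refine ⟨f2, f3, f4, f5, ?_, ?_, ?_⟩
      · rw [him, hB]
        exact f6
      · rw [him, hB]
        exact f9
      · rw [hEr, hS, hB, hΛ]
        exact f10 (κ σ)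
    have ev4 := ev (1 / 4) (by norm_num) le_rfl
    -- limits from the eventual facts
    have l_of : ∀ (f : ℝ → ℝ) (c : ℝ), 0 < c → (∀ ζ : ℝ, 0 < ζ → ζ ≤ 1 / 4 →
        ∀ᶠ σ in 𝓝[>] (0 : ℝ), |f σ| ≤ c * ζ) → Tendsto f (𝓝[>] 0) (𝓝 0) := by
      intro f c hc hf
      rw [Metric.tendsto_nhds]
      intro η hη
      filter_upwards [hf (min (1 / 4) (η / (2 * c))) (by positivity) (min_le_left _ _)] with σ hσ
      rw [Real.dist_eq, sub_zero]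
      calc |f σ| ≤ c * min (1 / 4) (η / (2 * c)) := hσ
        _ ≤ c * (η / (2 * c)) := by
          gcongr
          exact min_le_right _ _
        _ = η / 2 := by field_simp
        _ < η := by linarith
    have l_imB : Tendsto (fun σ => im σ - B σ) (𝓝[>] 0) (𝓝 0) :=
      l_of _ 1 one_pos fun ζ h1 h2 => (ev ζ h1 h2).mono fun σ hσ => by
        rw [one_mul]
        exact hσ.2.2.2.2.1
    have l_B : Tendsto B (𝓝[>] 0) (𝓝 (Real.pi * n)) := by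
      have := l_im.sub l_imB
      rw [sub_zero] at this
      refine this.congr fun σ => ?_
      ring
    have l_c : Tendsto (fun σ => σ ^ 2 / eT h τ σ * (im σ - B σ)) (𝓝[>] 0) (𝓝 0) := by
      refine l_of _ (1 / Real.sqrt (Real.pi * n / 2)) (by positivity) fun ζ h1 h2 => ?_
      filter_upwards [ev ζ h1 h2, l_mem] with σ hσ hσ0
      have hε := eT_pos (h := h) hτ hσ0
      rw [abs_mul, abs_of_nonneg (by positivity)]
      calc _ ≤ ζ / Real.sqrt (Real.pi * n / 2) := hσ.2.2.2.2.2.1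
        _ = _ := by ring
    have l_Er : Tendsto (fun σ => σ ^ 2 * ‖Er σ‖) (𝓝[>] 0) (𝓝 0) := by
      refine l_of _ (7 / Real.sqrt (Real.pi * n / 2)) (by positivity) fun ζ h1 h2 => ?_
      filter_upwards [ev ζ h1 h2] with σ hσ
      rw [abs_of_nonneg (by positivity)]
      calc _ ≤ 7 * (ζ / Real.sqrt (Real.pi * n / 2)) := hσ.2.2.2.2.2.2
        _ = _ := by ring
    have l_ε := lim_eT P
    have l_Γ : Tendsto (fun σ => Γ σ / σ ^ 2) (𝓝[>] 0) (𝓝 (Real.pi * n)) := by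
      have := l_ε.add l_im
      rw [zero_add] at this
      refine this.congr' ?_
      filter_upwards [l_mem] with σ hσ0
      rw [hΓ]
      field_simp
    have l_Γi : Tendsto (fun σ => σ ^ 2 / Γ σ) (𝓝[>] 0) (𝓝 (Real.pi * n)⁻¹) := by
      refine (l_Γ.inv₀ hπn.ne').congr fun σ => ?_
      rw [inv_div]
    have l_S2 : Tendsto (fun σ => S2 σ / (2 * τ * eT h τ σ * σ ^ 2)) (𝓝[>] 0)
        (𝓝 (∑ i, Q i ^ 2)) := by
      rw [hS2]
      exact lim_S2 P Q κ hκ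
    -- the momentum is small
    have l_S2Γ : Tendsto (fun σ => S2 σ / Γ σ ^ 2) (𝓝[>] 0) (𝓝 0) := by
      have := (l_S2.mul (l_ε.const_mul (2 * τ))).mul (l_Γi.pow 2)
      rw [mul_zero, mul_zero, zero_mul] at this
      refine this.congr' ?_
      filter_upwards [l_mem, ev4] with σ hσ0 hσ
      have hε := eT_pos (h := h) hτ hσ0
      have hΓ0 := hσ.2.1
      field_simp
    -- the difference of the resolvents
    have l_X : Tendsto (fun σ => (Γ σ ^ 3 * Λ σ - Real.pi / 2 * w * S2 σ) /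
        (2 * τ * eT h τ σ * σ ^ 2)) (𝓝[>] 0) (𝓝 0) := by
      rw [Metric.tendsto_nhds]
      intro η hη
      obtain ⟨C, hC⟩ : ∃ C, C = ∑ i, Q i ^ 2 + 1 := ⟨_, rfl⟩
      have hC0 : 0 < C := by
        rw [hC]
        have : 0 ≤ ∑ i, Q i ^ 2 := Finset.sum_nonneg fun i _ => sq_nonneg _
        linarith
      obtain ⟨r, hr, hdif⟩ := F.dif d P.hd E (η / (2 * C)) (by positivity)
      have b1 := l_S2.eventually (gt_mem_nhds (show ∑ i, Q i ^ 2 < C by rw [hC]; linarith))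
      have b2 := l_S2Γ.eventually (gt_mem_nhds (show (0 : ℝ) < r ^ 2 by positivity))
      filter_upwards [l_mem, ev (min (1 / 4) (r / 2)) (by positivity) (min_le_left _ _), b1, b2,
        ev_LL P r hr] with σ hσ0 hσ hb1 hb2 hL
      have hε := eT_pos (h := h) hτ hσ0
      obtain ⟨g1, g2, g3, g4, -, -, -⟩ := hσ
      have hr2 : min (1 / 4) (r / 2) < r := lt_of_le_of_lt (min_le_right _ _) (by linarith)
      have hD : 0 < 2 * τ * eT h τ σ * σ ^ 2 := by positivity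
      have hS20 : 0 ≤ S2 σ := by
        rw [hS2]
        exact Finset.sum_nonneg fun i _ => sq_nonneg _
      have k1 := hdif (E' σ) (Γ σ) (LL σ) (κ σ) (lt_of_le_of_lt g1 hr2) g2
        (lt_of_le_of_lt g3 hr2) (hL.trans (by gcongr)) (by
          rw [Real.sqrt_le_left (by positivity)]
          rw [div_lt_iff₀ (by positivity), hS2] at hb2
          calc _ ≤ r ^ 2 * Γ σ ^ 2 := hb2.le
            _ = _ := by ring)
      have k2 : |Γ σ ^ 3 * Λ σ - Real.pi / 2 * w * S2 σ| ≤ η / (2 * C) * S2 σ := by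
        rw [hΛ, hww, hS2]
        exact k1
      rw [Real.dist_eq, sub_zero, abs_div, abs_of_pos hD, div_lt_iff₀ hD]
      rw [div_lt_iff₀ hD] at hb1
      calc _ ≤ η / (2 * C) * S2 σ := k2
        _ ≤ η / (2 * C) * (C * (2 * τ * eT h τ σ * σ ^ 2)) := by
          have := hb1.le
          gcongr
        _ = η / 2 * (2 * τ * eT h τ σ * σ ^ 2) := by
          field_simp
        _ < η * (2 * τ * eT h τ σ * σ ^ 2) := by
          apply mul_lt_mul_of_pos_right _ hD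
          linarith
    have l_Λ : Tendsto (fun σ => Γ σ * Λ σ * σ ^ 2 / (2 * eT h τ σ)) (𝓝[>] 0)
        (𝓝 (τ * (∑ i, Q i ^ 2) * (w / (2 * Real.pi * n ^ 2)))) := by
      have := (l_X.add (l_S2.const_mul (Real.pi / 2 * w))).mul ((l_Γi.pow 2).const_mul τ)
      have e1 : (0 + Real.pi / 2 * w * ∑ i, Q i ^ 2) * (τ * ((Real.pi * n)⁻¹) ^ 2) =
          τ * (∑ i, Q i ^ 2) * (w / (2 * Real.pi * n ^ 2)) := by
        field_simp
        ring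
      rw [e1] at this
      refine this.congr' ?_
      filter_upwards [l_mem, ev4] with σ hσ0 hσ
      have hε := eT_pos (h := h) hτ hσ0
      have hΓ0 := hσ.2.1
      field_simp
      ring
    have l_Λ0 : Tendsto (fun σ => Γ σ * Λ σ / 2) (𝓝[>] 0) (𝓝 0) := by
      have := l_Λ.mul l_ε
      rw [mul_zero] at this
      refine this.congr' ?_
      filter_upwards [l_mem] with σ hσ0
      have hε := eT_pos (h := h) hτ hσ0
      field_simp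
    -- the ladder equation
    have l_br : Tendsto (fun σ => ((1 + σ ^ 2 / eT h τ σ * (im σ - B σ) +
        Γ σ * Λ σ * σ ^ 2 / (2 * eT h τ σ) : ℝ) : ℂ)) (𝓝[>] 0)
        (𝓝 ((1 + τ * (∑ i, Q i ^ 2) * (w / (2 * Real.pi * n ^ 2)) : ℝ) : ℂ)) := by
      have := (tendsto_const_nhds (x := (1 : ℝ)) (f := 𝓝[>] (0 : ℝ))).add l_c |>.add l_Λ
      rw [add_zero] at this
      exact (Complex.continuous_ofReal.tendsto _).comp this
    have l_ErC : Tendsto (fun σ => ((Γ σ / σ ^ 2 : ℝ) : ℂ) * (((σ ^ 2 : ℝ) : ℂ) * Er σ))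
        (𝓝[>] 0) (𝓝 0) := by
      have h1 : Tendsto (fun σ => ((σ ^ 2 : ℝ) : ℂ) * Er σ) (𝓝[>] 0) (𝓝 0) := by
        rw [tendsto_zero_iff_norm_tendsto_zero]
        refine l_Er.congr fun σ => ?_
        rw [norm_mul, Complex.norm_real, Real.norm_of_nonneg (sq_nonneg σ)]
      have h2 := ((Complex.continuous_ofReal.tendsto _).comp l_Γ).mul h1
      rw [mul_zero] at h2
      exact h2
    have l_r : Tendsto (fun σ => ((B σ - Γ σ * Λ σ / 2 : ℝ) : ℂ) +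
        ((Γ σ / σ ^ 2 : ℝ) : ℂ) * (((σ ^ 2 : ℝ) : ℂ) * Er σ)) (𝓝[>] 0)
        (𝓝 ((Real.pi * n : ℝ) : ℂ)) := by
      have h1 := l_B.sub l_Λ0
      rw [sub_zero] at h1
      have h2 := ((Complex.continuous_ofReal.tendsto _).comp h1).add l_ErC
      rw [add_zero] at h2
      exact h2
    have hc0 : 0 < 1 + τ * (∑ i, Q i ^ 2) * (w / (2 * Real.pi * n ^ 2)) := by
      have h1 : 0 ≤ ∑ i, Q i ^ 2 := Finset.sum_nonneg fun i _ => sq_nonneg _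
      have h2 : 0 ≤ w := by
        rw [hww]
        exact hw0 E
      positivity
    have hc1 : ((1 + τ * (∑ i, Q i ^ 2) * (w / (2 * Real.pi * n ^ 2)) : ℝ) : ℂ) ≠ 0 := by
      exact_mod_cast hc0.ne'
    have l_fin := l_r.div l_br hc1
    have e2 : ((Real.pi * n : ℝ) : ℂ) /
        ((1 + τ * (∑ i, Q i ^ 2) * (w / (2 * Real.pi * n ^ 2)) : ℝ) : ℂ) =
        ((Real.pi * fl d Q τ E : ℝ) : ℂ) := by
      unfold fl
      rw [← hnn, ← hww]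
      push_cast
      ring
    rw [e2] at l_fin
    refine l_fin.congr' ?_
    filter_upwards [l_mem, ev4, l_br.eventually_ne hc1] with σ hσ0 hσ hne
    have hε := eT_pos (h := h) hτ hσ0
    have hΓ0 := hσ.2.1
    have hΓC : (Γ σ : ℂ) ≠ 0 := by exact_mod_cast hΓ0.ne'
    have hεC : (eT h τ σ : ℂ) ≠ 0 := by exact_mod_cast hε.ne'
    have hσC : (σ : ℂ) ≠ 0 := by exact_mod_cast hσ0.ne'
    rw [Pi.div_apply, div_eq_iff hne]
    have k0 : (Γ σ : ℂ) = (eT h τ σ : ℂ) + (σ : ℂ) ^ 2 * (im σ : ℂ) := by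
      rw [hΓ]
      push_cast
      ring
    have k1 : Er σ = S σ * (1 - ((σ ^ 2 : ℝ) : ℂ) *
      ((B σ / Γ σ - Λ σ / 2 : ℝ) : ℂ)) - ((B σ / Γ σ - Λ σ / 2 : ℝ) : ℂ) := by rw [hEr]
    have k2 : S σ = Sr d (LL σ) σ E (eT h τ σ) (κ σ) := by rw [hS]
    rw [k1, ← k2]
    push_cast
    field_simp
    rw [k0]
    ring

end Pool.Agent.T2h98.QD
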