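import Pool.Agent.T2h98.QD.TL
import Pool.Agent.T2h98.QD.Energy

/-! The resolvent on the torus. -/

set_option autoImplicit false
set_option linter.unusedSectionVars false

open scoped BigOperators Matrix
open MeasureTheory ProbabilityTheory

namespace Pool.Agent.T2h98.QD

open Pool.Agent.W788.MFP.Four (T e NN adj K)
open Pool.Agent.W788.BK (nsq hs PP JJ hi Low cr nsq_nonneg)
open Pool.Agent.W240.BK (BC BM)

variable {d L : ℕ} [NeZero L]

/-- translations of the resolvent -/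
theorem rh_inv (a : T d L) (σ E ε : ℝ) (V : T d L → ℝ) (x y : T d L) :
    Rh (h0 E) σ ε (fun z => V (z + a)) x y = Rh (h0 E) σ ε V (x + a) (y + a) := by
  have hMo : ∀ (m : T d L → ℂ) (x y : T d L), Mo m (x + a) (y + a) = Mo m x y := by
    intro m x y
    simp only [Mo, Matrix.of_apply, add_sub_add_right_eq_sub]
  have hX : XG (h0 (d := d) (L := L) E) 1 (fun y => (σ : ℂ) • EY y) ε (fun z => V (z + a)) =
      (XG (h0 (d := d) (L := L) E) 1 (fun y => (σ : ℂ) • EY y) ε V).submatrix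
        (Equiv.addRight a) (Equiv.addRight a) := by
    ext u v
    simp only [XG, Matrix.submatrix_apply, Matrix.sub_apply, Matrix.add_apply,
      Matrix.smul_apply, Matrix.sum_apply, Equiv.coe_addRight, h0, hMo]
    congr 2
    · symm
      rw [← Equiv.sum_comp (Equiv.addRight a)]
      refine Finset.sum_congr rfl fun z _ => ?_
      simp only [Equiv.coe_addRight, EY, Matrix.diagonal_apply, add_left_inj, Pi.single_apply]
    · simp only [Matrix.one_apply, add_left_inj]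
  show (XG (h0 (d := d) (L := L) E) 1 (fun y => (σ : ℂ) • EY y) ε (fun z => V (z + a)))⁻¹ x y =
    (XG (h0 (d := d) (L := L) E) 1 (fun y => (σ : ℂ) • EY y) ε V)⁻¹ (x + a) (y + a)
  rw [hX, Matrix.inv_submatrix_equiv]
  rfl

/-- the mean of the diagonal of the resolvent -/
noncomputable def mT (d L : ℕ) [NeZero L] (σ E ε : ℝ) : ℂ :=
  ∫ V, Rh (h0 (d := d) (L := L) E) σ ε V 0 0 ∂(GP (T d L))

theorem mT_eq (hinv : T_INV) (σ E ε : ℝ) (x : T d L) :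
    ∫ V, Rh (h0 (d := d) (L := L) E) σ ε V x x ∂(GP (T d L)) = mT d L σ E ε := by
  obtain ⟨h1, -⟩ := hinv d L x
  have h3 := h1 fun V => Rh (h0 (d := d) (L := L) E) σ ε V 0 0
  simp only [rh_inv x, zero_add] at h3
  exact h3

/-- translation invariance of the ladder -/
theorem sr_inv (hinv : T_INV) (σ E ε : ℝ) (q x : T d L) :
    ∫ V, (cj (e q) (Rh (h0 (d := d) (L := L) E) σ ε V) * (Rh (h0 E) σ ε V)ᴴ) x x ∂(GP (T d L)) =
      Sr d L σ E ε q := by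
  obtain ⟨h1, -⟩ := hinv d L x
  unfold Sr
  have h3 := h1 fun V => (cj (e q) (Rh (h0 (d := d) (L := L) E) σ ε V) *
    (Rh (h0 E) σ ε V)ᴴ) 0 0
  rw [← h3]
  refine integral_congr_ae (Filter.Eventually.of_forall fun V => ?_)
  simp only [Matrix.mul_apply, Matrix.conjTranspose_apply]
  rw [← Equiv.sum_comp (Equiv.addRight x) (fun y => cj (e q)
    (Rh (h0 (d := d) (L := L) E) σ ε V) x y * star (Rh (h0 (d := d) (L := L) E) σ ε V x y))]
  refine Finset.sum_congr rfl fun y _ => ?_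
  rw [Equiv.coe_addRight]
  have h4 := rh_inv x σ E ε V 0 y
  rw [zero_add] at h4
  unfold cj
  simp only [Matrix.of_apply]
  rw [h4]
  have h5 : e q x * star (e q (y + x)) = e q 0 * star (e q y) := by
    rw [Pool.Agent.W788.MFP.Four.e_add, Pool.Agent.W788.MFP.Four.e_zero, star_mul', one_mul,
      Complex.star_def]
    have h6 := Pool.Agent.W788.MFP.Four.e_normSq q x
    linear_combination (starRingEnd ℂ) (e q y) * h6
  linear_combination (Rh (h0 E) σ ε V x (y + x) * star (Rh (h0 E) σ ε V x (y + x))) * h5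

/-- the denominators of the mean resolvent -/
noncomputable def Yk (E' Γ : ℝ) (k : T d L) : ℂ := ((adj k - E' : ℝ) : ℂ) - (Γ : ℂ) * Complex.I

theorem Yk_re (E' Γ : ℝ) (k : T d L) : (Yk E' Γ k).re = adj k - E' := by
  unfold Yk
  simp

theorem Yk_im (E' Γ : ℝ) (k : T d L) : (Yk E' Γ k).im = -Γ := by
  unfold Yk
  simp

theorem Yk_nsq (E' Γ : ℝ) (k : T d L) : ‖Yk E' Γ k‖ ^ 2 = (adj k - E') ^ 2 + Γ ^ 2 := by
  rw [← Complex.normSq_eq_norm_sq, Complex.normSq_apply, Yk_re, Yk_im]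
  ring

theorem Yk_norm (E' Γ : ℝ) (k : T d L) : ‖Yk E' Γ k‖ = JJ E' Γ k := by
  unfold JJ
  rw [← Yk_nsq, Real.sqrt_sq (norm_nonneg _)]

theorem Yk_ne (E' : ℝ) {Γ : ℝ} (hΓ : 0 < Γ) (k : T d L) : Yk E' Γ k ≠ 0 := by
  intro h
  have h1 := congrArg Complex.im h
  rw [Yk_im, Complex.zero_im] at h1
  linarith

theorem JJ_anti (E' : ℝ) {Γ Γ' : ℝ} (h0 : 0 < Γ) (h : Γ ≤ Γ') (k : T d L) :
    (JJ E' Γ' k)⁻¹ ≤ (JJ E' Γ k)⁻¹ := by
  apply inv_anti₀ (lt_of_lt_of_le h0 (JJ_ge E' Γ h0 k))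
  unfold JJ
  apply Real.sqrt_le_sqrt
  have := pow_le_pow_left₀ h0.le h 2
  linarith

/-- hypotheses on the parameters -/
structure ParT (d L : ℕ) [NeZero L] (σ E δ θ ε t Q0 g cn p0 : ℝ) (Ω : Set (T d L → ℝ)) :
    Prop where
  hσ : 0 < σ
  hε : 0 < ε
  hεδ : ε ≤ δ
  ht : 0 ≤ t
  hσt : σ * t ≤ 1 / 2
  hQ0 : 0 ≤ Q0
  hQ : ∀ P : T d L, ¬ Low θ P → ∑ k : T d L, (JJ E δ k * JJ E δ (k + P))⁻¹ ≤ Q0 * NN d L
  hg0 : 0 ≤ g
  hg : ∀ E' : ℝ, ∑ k : T d L, (JJ E' ε k)⁻¹ ≤ g * NN d L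
  hcn : ∑ Q : T d L, (1 - hi θ Q) ≤ cn * NN d L
  hp0 : 0 ≤ p0
  hΩ : MeasurableSet Ω
  hP : (GP (T d L)).real Ωᶜ ≤ p0
  hgood : ∀ ξ ∈ Ω, ∀ w : T d L → ℝ, |∑ z, ξ z * w z ^ 2| ≤
    t * Pool.Agent.W788.MFP.Four.q (JJ E δ) w
  hs : 32 * σ ^ 2 * (Q0 + cn / δ ^ 2) * (δ / ε) ^ 2 ≤ 1 / 2

section par

variable {σ E δ θ ε t Q0 g cn p0 : ℝ} {Ω : Set (T d L → ℝ)}

theorem ParT.hδ (p : ParT d L σ E δ θ ε t Q0 g cn p0 Ω) : 0 < δ := p.hε.trans_le p.hεδ

theorem ParT.hcn0 (p : ParT d L σ E δ θ ε t Q0 g cn p0 Ω) : 0 ≤ cn := by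
  have hN := Pool.Agent.W788.MFP.Four.NN_pos (d := d) (L := L)
  have h1 : 0 ≤ cn * NN d L := (Finset.sum_nonneg fun Q _ => hi_le θ Q).trans p.hcn
  exact nonneg_of_mul_nonneg_left h1 hN

theorem ParT.tru (hker : T_KER) (hrqf : T_RQF) (p : ParT d L σ E δ θ ε t Q0 g cn p0 Ω) :
    Tru (h0 (d := d) (L := L) E) (J0 E δ) (J1 E δ) σ ε δ (Q0 + cn / δ ^ 2) g p0 Ω := by
  have hN := Pool.Agent.W788.MFP.Four.NN_pos (d := d) (L := L)
  have hδ := p.hδ
  have hcn0 := p.hcn0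
  have hJ : ∀ k : T d L, 0 < JJ E δ k := fun k => lt_of_lt_of_le hδ (JJ_ge E δ hδ k)
  exact {
    hh := by
      unfold h0 Matrix.IsHermitian
      rw [mo_star]
      congr 1
      funext k
      rw [Complex.conj_ofReal]
    hσ := p.hσ
    hε := p.hε
    hεδ := p.hεδ
    hQ0 := by
      have := p.hQ0
      positivity
    hg0 := p.hg0
    hp0 := p.hp0
    hJ0 := fun w => by
      unfold J0
      rw [KQ.qf_Mo]
      exact mul_nonneg (by positivity) (Finset.sum_nonneg fun k _ =>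
        mul_nonneg (hJ k).le (by positivity))
    hQ := hker d L E δ θ Q0 cn hδ p.hQ0 p.hQ p.hcn
    hΩ := p.hΩ
    hP := p.hP
    hR := fun V hV b => hrqf d L E δ ε t σ hδ p.hε p.ht p.hσ.le p.hσt V (p.hgood V hV) b
    hJ'0 := fun w => by
      unfold J1
      rw [KQ.qf_Mo]
      exact mul_nonneg (by positivity) (Finset.sum_nonneg fun k _ =>
        mul_nonneg (inv_nonneg.2 (hJ k).le) (by positivity))
    hJ' := fun w => by
      unfold J1
      rw [KQ.qf_Mo, nsq_fc, div_eq_mul_inv, mul_assoc]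
      apply mul_le_mul_of_nonneg_left _ (by positivity)
      rw [Finset.sum_mul]
      refine Finset.sum_le_sum fun k _ => ?_
      rw [mul_comm]
      exact mul_le_mul_of_nonneg_left (inv_anti₀ hδ (JJ_ge E δ hδ k)) (by positivity)
    hJx := fun x c hc => by
      unfold J1
      rw [KQ.qf_Mo, inv_mul_le_iff₀ hN, mul_comm]
      refine le_trans (Finset.sum_le_sum fun k _ => ?_) (p.hg E)
      have e1 : KQ.fc (c • dl x) k = c * e k x := by
        rw [← fc_dl x k]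
        unfold KQ.fc
        rw [Finset.mul_sum]
        refine Finset.sum_congr rfl fun y _ => ?_
        rw [Pi.smul_apply, smul_eq_mul, mul_assoc]
      rw [e1, norm_mul, hc, e_norm, one_mul, one_pow, mul_one]
      exact JJ_anti E p.hε p.hεδ k }

theorem ParT.im0 (p : ParT d L σ E δ θ ε t Q0 g cn p0 Ω) (hker : T_KER) (hrqf : T_RQF) :
    0 ≤ (mT d L σ E ε).im := by
  have H := p.tru hker hrqf
  have h1 := H.int_im (mb := mT d L σ E ε) 0 rfl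
  rw [← h1]
  exact integral_nonneg fun V => H.im0 V 0

/-- the homogeneous model -/
theorem ParT.tra (hker : T_KER) (hrqf : T_RQF) (hinv : T_INV)
    (p : ParT d L σ E δ θ ε t Q0 g cn p0 Ω) (E' Γ : ℝ) (hE' : E' = E + σ ^ 2 * (mT d L σ E ε).re)
    (hΓ : Γ = ε + σ ^ 2 * (mT d L σ E ε).im) :
    Tra (h0 (d := d) (L := L) E) (J0 E δ) (J1 E δ) σ ε δ (Q0 + cn / δ ^ 2) g p0 Ω
      (mT d L σ E ε) (Mo fun k => (Yk E' Γ k)⁻¹) (g / Γ) := by
  have hN := Pool.Agent.W788.MFP.Four.NN_pos (d := d) (L := L)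
  have hm := p.im0 hker hrqf
  have hε := p.hε
  have hΓε : ε ≤ Γ := by
    rw [hΓ]
    have : 0 ≤ σ ^ 2 * (mT d L σ E ε).im := by positivity
    linarith
  have hΓ0 : 0 < Γ := lt_of_lt_of_le hε hΓε
  have hb2 : ∀ k : T d L, ‖(Yk E' Γ k)⁻¹‖ ^ 2 ≤ (Γ⁻¹) ^ 2 := by
    intro k
    rw [norm_inv, Yk_norm]
    have h1 := JJ_ge E' Γ hΓ0 k
    exact pow_le_pow_left₀ (inv_nonneg.2 (hΓ0.le.trans h1)) (inv_anti₀ hΓ0 h1) 2
  exact {
    H := p.tru hker hrqf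
    hm := fun x => mT_eq hinv σ E ε x
    him := hm
    hs := p.hs
    hG0 := by
      have h1 : h0 (d := d) (L := L) E - ((ε : ℂ) * Complex.I) • (1 : Matrix (T d L) (T d L) ℂ) -
          (((σ ^ 2 : ℝ) : ℂ) * mT d L σ E ε) • (1 : Matrix (T d L) (T d L) ℂ) =
          Mo fun k => Yk E' Γ k := by
        unfold h0
        rw [← mo_one, mo_smul, mo_smul, mo_sub, mo_sub]
        congr 1
        funext k
        unfold Yk
        rw [hE', hΓ]
        have h2 : ((mT d L σ E ε).re : ℂ) + ((mT d L σ E ε).im : ℂ) * Complex.I =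
          mT d L σ E ε := Complex.re_add_im _
        push_cast
        linear_combination ((σ : ℂ) ^ 2) * h2
      rw [h1, mo_mul, ← mo_one]
      congr 1
      funext k
      exact inv_mul_cancel₀ (Yk_ne E' hΓ0 k)
    hb := fun w => by
      rw [← hΓ]
      exact nsq_mo _ _ hb2 w
    hbH := fun w => by
      rw [← hΓ, mo_star]
      refine nsq_mo _ _ (fun k => ?_) w
      rw [RCLike.norm_conj]
      exact hb2 k
    hΘ := fun x => by
      rw [nsq_mo_dl, inv_mul_le_iff₀ hN]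
      have h3 : ∀ k : T d L, ‖(Yk E' Γ k)⁻¹‖ ^ 2 ≤ Γ⁻¹ * (JJ E' ε k)⁻¹ := by
        intro k
        have h1 := JJ_ge E' Γ hΓ0 k
        rw [norm_inv, Yk_norm, sq]
        exact mul_le_mul (inv_anti₀ hΓ0 h1) (JJ_anti E' hε hΓε k)
          (inv_nonneg.2 (hΓ0.le.trans h1)) (by positivity)
      refine (Finset.sum_le_sum fun k _ => h3 k).trans ?_
      rw [← Finset.mul_sum]
      calc _ ≤ Γ⁻¹ * (g * NN d L) := mul_le_mul_of_nonneg_left (p.hg _) (by positivity)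
        _ = _ := by
          field_simp }

/-- the error on the torus -/
theorem ParT.mean (hP : T_POIN) (hI : T_IBP) (hker : T_KER) (hrqf : T_RQF) (hinv : T_INV)
    (p : ParT d L σ E δ θ ε t Q0 g cn p0 Ω) (E' Γ : ℝ) (hE' : E' = E + σ ^ 2 * (mT d L σ E ε).re)
    (hΓ : Γ = ε + σ ^ 2 * (mT d L σ E ε).im) :
    ‖mT d L σ E ε - ((NN d L : ℝ) : ℂ)⁻¹ * ∑ k : T d L, (Yk E' Γ k)⁻¹‖ ≤
      epsT σ ε δ (Q0 + cn / δ ^ 2) g p0 (g / Γ) (mT d L σ E ε).im := by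
  have H := p.tra hker hrqf hinv E' Γ hE' hΓ
  have hN := Pool.Agent.W788.MFP.Four.NN_pos (d := d) (L := L)
  have h1 := H.mean hP hI 1 1 (by norm_num) (fun w => by rw [Matrix.one_mulVec]; simp)
  simp only [one_mul] at h1
  rw [mo_trace, card_NN] at h1
  have h2 : ∫ V, (Rh (h0 (d := d) (L := L) E) σ ε V).trace ∂(GP (T d L)) =
      ((NN d L : ℝ) : ℂ) * mT d L σ E ε := by
    have hG : BM fun V : T d L → ℝ => Rh (h0 (d := d) (L := L) E) σ ε V := bm_gg H.H.S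
    have e1 : ∀ V : T d L → ℝ, (Rh (h0 (d := d) (L := L) E) σ ε V).trace =
        ∑ x, Rh (h0 (d := d) (L := L) E) σ ε V x x := fun V => rfl
    simp only [e1]
    rw [integral_finsetSum _ fun x _ => (hG x x).integrable _]
    simp only [H.hm, Finset.sum_const, Finset.card_univ, nsmul_eq_mul]
    rw [← card_NN]
    push_cast
    rfl
  rw [h2] at h1
  have h3 : ((NN d L : ℝ) : ℂ) * mT d L σ E ε - ∑ k : T d L, (Yk E' Γ k)⁻¹ =
      ((NN d L : ℝ) : ℂ) * (mT d L σ E ε - ((NN d L : ℝ) : ℂ)⁻¹ *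
      ∑ k : T d L, (Yk E' Γ k)⁻¹) := by
    have := KQ.N_ne (d := d) (L := L)
    field_simp
  rw [h3, norm_mul, Complex.norm_real, Real.norm_of_nonneg hN.le] at h1
  exact le_of_mul_le_mul_left h1 hN

/-- the density at a complex energy -/
noncomputable def Bf (d L : ℕ) [NeZero L] (E' Γ : ℝ) : ℝ :=
  (NN d L)⁻¹ * ∑ k : T d L, Γ / ((adj k - E') ^ 2 + Γ ^ 2)

/-- the differences of the free resolvents -/
noncomputable def Lf (d L : ℕ) [NeZero L] (E' Γ : ℝ) (κ : T d L) : ℝ :=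
  (NN d L)⁻¹ * ∑ k : T d L, ‖(Yk E' Γ (k + κ))⁻¹ - (Yk E' Γ k)⁻¹‖ ^ 2

theorem Bf_im (E' Γ : ℝ) : Bf d L E' Γ =
    (((NN d L : ℝ) : ℂ)⁻¹ * ∑ k : T d L, (Yk E' Γ k)⁻¹).im := by
  rw [← Complex.ofReal_inv, Complex.im_ofReal_mul, Complex.im_sum]
  unfold Bf
  congr 1
  refine Finset.sum_congr rfl fun k _ => ?_
  rw [Complex.inv_im, Yk_im, neg_neg, Complex.normSq_eq_norm_sq, Yk_nsq]

theorem theta_real (E' Γ : ℝ) (κ : T d L) :
    (starRingEnd ℂ) (∑ k : T d L, (starRingEnd ℂ) (Yk E' Γ k)⁻¹ * (Yk E' Γ (k + κ))⁻¹) =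
      ∑ k : T d L, (starRingEnd ℂ) (Yk E' Γ k)⁻¹ * (Yk E' Γ (k + κ))⁻¹ := by
  rw [map_sum, ← Equiv.sum_comp (Equiv.subLeft (-κ))
    (fun k : T d L => (starRingEnd ℂ) (Yk E' Γ k)⁻¹ * (Yk E' Γ (k + κ))⁻¹)]
  refine Finset.sum_congr rfl fun k _ => ?_
  have e1 : Yk E' Γ (-κ - k) = Yk E' Γ (k + κ) := by
    unfold Yk
    rw [← Pool.Agent.W788.MFP.Four.adj_neg (k + κ)]
    congr 4
    abel
  have e2 : Yk E' Γ (-κ - k + κ) = Yk E' Γ k := by
    unfold Yk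
    rw [← Pool.Agent.W788.MFP.Four.adj_neg k]
    congr 4
    abel
  rw [Equiv.subLeft_apply, e1, e2, map_mul, Complex.conj_conj, mul_comm]

/-- the kernel of the ladder -/
theorem theta_eq (E' : ℝ) {Γ : ℝ} (hΓ : 0 < Γ) (κ : T d L) :
    ((NN d L : ℝ) : ℂ)⁻¹ * ∑ k : T d L, (starRingEnd ℂ) (Yk E' Γ k)⁻¹ * (Yk E' Γ (k + κ))⁻¹ =
      ((Bf d L E' Γ / Γ - Lf d L E' Γ κ / 2 : ℝ) : ℂ) := by
  have hr := theta_real (d := d) (L := L) E' Γ κ
  have hre : ((∑ k : T d L, (starRingEnd ℂ) (Yk E' Γ k)⁻¹ * (Yk E' Γ (k + κ))⁻¹).re : ℂ) =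
      ∑ k : T d L, (starRingEnd ℂ) (Yk E' Γ k)⁻¹ * (Yk E' Γ (k + κ))⁻¹ :=
    Complex.conj_eq_iff_re.1 hr
  rw [← hre, ← Complex.ofReal_inv, ← Complex.ofReal_mul]
  congr 1
  have h1 : ∀ a b : ℂ, ((starRingEnd ℂ) a * b).re = (‖a‖ ^ 2 + ‖b‖ ^ 2 - ‖b - a‖ ^ 2) / 2 := by
    intro a b
    rw [← Complex.normSq_eq_norm_sq, ← Complex.normSq_eq_norm_sq, ← Complex.normSq_eq_norm_sq,
      Complex.normSq_apply, Complex.normSq_apply, Complex.normSq_apply, Complex.mul_re,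
      Complex.conj_re, Complex.conj_im, Complex.sub_re, Complex.sub_im]
    ring
  rw [Complex.re_sum]
  simp only [h1]
  have h2 : ∑ k : T d L, ‖(Yk E' Γ (k + κ))⁻¹‖ ^ 2 = ∑ k : T d L, ‖(Yk E' Γ k)⁻¹‖ ^ 2 :=
    Equiv.sum_comp (Equiv.addRight κ) (fun k : T d L => ‖(Yk E' Γ k)⁻¹‖ ^ 2)
  have h3 : Bf d L E' Γ / Γ = (NN d L)⁻¹ * ∑ k : T d L, ‖(Yk E' Γ k)⁻¹‖ ^ 2 := by
    unfold Bf
    rw [mul_div_assoc, Finset.sum_div]
    congr 1
    refine Finset.sum_congr rfl fun k _ => ?_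
    rw [norm_inv, inv_pow, Yk_nsq]
    have : 0 < (adj k - E') ^ 2 + Γ ^ 2 := by positivity
    field_simp
  rw [h3, ← Finset.sum_div, Finset.sum_sub_distrib, Finset.sum_add_distrib, h2]
  unfold Lf
  ring

/-- the ladder equation on the torus -/
theorem ParT.ladder (hP : T_POIN) (hI : T_IBP) (hker : T_KER) (hrqf : T_RQF) (hinv : T_INV)
    (p : ParT d L σ E δ θ ε t Q0 g cn p0 Ω) (E' Γ : ℝ) (hE' : E' = E + σ ^ 2 * (mT d L σ E ε).re)
    (hΓ : Γ = ε + σ ^ 2 * (mT d L σ E ε).im) (κ : T d L) :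
    ‖Sr d L σ E ε κ * (1 - ((σ ^ 2 : ℝ) : ℂ) *
        ((Bf d L E' Γ / Γ - Lf d L E' Γ κ / 2 : ℝ) : ℂ)) -
      ((Bf d L E' Γ / Γ - Lf d L E' Γ κ / 2 : ℝ) : ℂ)‖ ≤
      7 * (epsT σ ε δ (Q0 + cn / δ ^ 2) g p0 (g / Γ) (mT d L σ E ε).im / ε) := by
  have H := p.tra hker hrqf hinv E' Γ hE' hΓ
  have hΓ0 : 0 < Γ := by
    rw [hΓ]
    exact H.Γ0
  exact H.lad2 hP hI (u := e κ) (fun x => e_norm κ x) (Sr d L σ E ε κ) 0
    (fun x => sr_inv hinv σ E ε κ x) _ (by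
      rw [← theta_eq E' hΓ0 κ, mo_star, cj_mo, mo_mul, mo_trace]
      have e1 : (Fintype.card (T d L) : ℂ) = ((NN d L : ℝ) : ℂ) := by
        rw [← card_NN]
        push_cast
        rfl
      rw [e1, ← mul_assoc, mul_inv_cancel₀ (KQ.N_ne (d := d) (L := L)), one_mul])

/-- bound for the ladder -/
theorem ParT.sr_bd (hker : T_KER) (hrqf : T_RQF) (hinv : T_INV)
    (p : ParT d L σ E δ θ ε t Q0 g cn p0 Ω) (κ : T d L) :
    ‖Sr d L σ E ε κ‖ ≤ (mT d L σ E ε).im / ε :=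
  (p.tra hker hrqf hinv _ _ rfl rfl).sq_bd (u := e κ) (fun x => e_norm κ x)
    (Sr d L σ E ε κ) 0 rfl

/-- the ladder at momentum zero -/
theorem sr_zero (σ E : ℝ) {ε : ℝ} (hε : 0 < ε) :
    Sr d L σ E ε 0 = (((mT d L σ E ε).im / ε : ℝ) : ℂ) := by
  have hh : (h0 (d := d) (L := L) E).IsHermitian := by
    unfold h0 Matrix.IsHermitian
    rw [mo_star]
    congr 1
    funext k
    rw [Complex.conj_ofReal]
  have S := sys_rh hh σ ε hε
  have e1 : ∀ V : T d L → ℝ, (cj (e 0) (Rh (h0 (d := d) (L := L) E) σ ε V) *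
      (Rh (h0 E) σ ε V)ᴴ) 0 0 = (((Rh (h0 (d := d) (L := L) E) σ ε V 0 0).im / ε : ℝ) : ℂ) := by
    intro V
    have h1 := (gg_ward S V (dl 0)).2
    rw [qf_one, form_dl] at h1
    have h2 : (cj (e 0) (Rh (h0 (d := d) (L := L) E) σ ε V) * (Rh (h0 E) σ ε V)ᴴ) 0 0 =
        star ((Rh (h0 (d := d) (L := L) E) σ ε V)ᴴ *ᵥ dl 0) ⬝ᵥ
          ((Rh (h0 (d := d) (L := L) E) σ ε V)ᴴ *ᵥ dl 0) := by
      have h4 : cj (e 0) (Rh (h0 (d := d) (L := L) E) σ ε V) = Rh (h0 E) σ ε V := by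
        ext x y
        unfold cj
        rw [Matrix.of_apply, Pool.Agent.W788.MFP.Four.e_comm 0 x,
          Pool.Agent.W788.MFP.Four.e_comm 0 y, Pool.Agent.W788.MFP.Four.e_zero,
          Pool.Agent.W788.MFP.Four.e_zero]
        simp
      rw [← Pool.Agent.W788.BK.adjoint, Matrix.mulVec_mulVec, form_dl, h4]
    have h3 : ∀ w : T d L → ℂ, star w ⬝ᵥ w = ((nsq w : ℝ) : ℂ) := by
      intro w
      unfold nsq dotProduct
      push_cast
      refine Finset.sum_congr rfl fun x _ => ?_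
      rw [Pi.star_apply, RCLike.star_def, mul_comm, Complex.mul_conj, Complex.normSq_eq_norm_sq]
      push_cast
      rfl
    rw [h2, h3]
    congr 1
    rw [eq_div_iff hε.ne', mul_comm]
    exact h1.symm
  unfold Sr
  simp only [e1]
  rw [integral_complex_ofReal, integral_div]
  congr 2
  unfold mT
  exact integral_im ((bm_gg S 0 0).integrable _)

end par

end Pool.Agent.T2h98.QD
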