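import Pool.Agent.T2h98.QD.TV

/-! The resolvent without regularization: variance bounds. -/

set_option autoImplicit false
set_option linter.unusedSectionVars false

open scoped BigOperators Matrix
open MeasureTheory ProbabilityTheory

namespace Pool.Agent.T2h98.QD

open Pool.Agent.W788.BK
open Pool.Agent.W240.BK (BC BM cs_int)

variable {n : Type} [Fintype n] [DecidableEq n]

section tru

variable {h J J' : Matrix n n ℂ} {σ ε δ Q g p0 : ℝ} {Ω : Set (n → ℝ)}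

/-- the bound for the variance of the diagonal elements -/
noncomputable def v2 (σ ε δ Q g p0 im : ℝ) : ℝ :=
  64 * σ ^ 2 * Q * (g ^ 2 + (δ / ε) ^ 2 * im ^ 2) + 2 * σ ^ 2 * p0 / ε ^ 4

/-- the bound for the variance of the other matrix elements -/
noncomputable def rho (σ ε δ Q g p0 im : ℝ) : ℝ :=
  32 * σ ^ 2 * Q * (g + δ / ε * im) * δ / ε ^ 2 + σ ^ 2 * p0 / ε ^ 4

theorem v2_nonneg (H : Tru h J J' σ ε δ Q g p0 Ω) (im : ℝ) : 0 ≤ v2 σ ε δ Q g p0 im := by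
  have hε := H.hε
  have hδ := H.hδ
  have hQ := H.hQ0
  have hp := H.hp0
  unfold v2
  positivity

theorem rho_nonneg (H : Tru h J J' σ ε δ Q g p0 Ω) (im : ℝ) (him : 0 ≤ im) :
    0 ≤ rho σ ε δ Q g p0 im := by
  have hε := H.hε
  have hδ := H.hδ
  have hQ := H.hQ0
  have hp := H.hp0
  have hg := H.hg0
  unfold rho
  positivity

theorem Tru.int_im (H : Tru h J J' σ ε δ Q g p0 Ω) {mb : ℂ} (x : n)
    (hm : ∫ V, Rh h σ ε V x x ∂(GP n) = mb) : ∫ V, (Rh h σ ε V x x).im ∂(GP n) = mb.im := by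
  rw [← hm]
  exact integral_im ((bm_gg H.S x x).integrable _)

/-- squares of the diagonal elements -/
theorem Tru.tv1 (hP : T_POIN) (H : Tru h J J' σ ε δ Q g p0 Ω) (mb : ℂ) (x : n)
    (hm : ∫ V, Rh h σ ε V x x ∂(GP n) = mb)
    (hs : 32 * σ ^ 2 * Q * (δ / ε) ^ 2 ≤ 1 / 2) :
    var (fun V => Rh h σ ε V x x) ≤ v2 σ ε δ Q g p0 mb.im ∧
    32 * σ ^ 2 * Q * (g ^ 2 + (δ / ε) ^ 2 * ∫ V, (Rh h σ ε V x x).im ^ 2 ∂(GP n)) +
      σ ^ 2 * p0 / ε ^ 4 ≤ v2 σ ε δ Q g p0 mb.im := by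
  have hε := H.hε
  have hδ := H.hδ
  have hQ := H.hQ0
  have hg := H.hg0
  have hp := H.hp0
  have h2 := sq_im_le ((bm_gg H.S) x x)
  have hm' : ∫ V, GG h 1 (fun y => (σ : ℂ) • EY y) ε V x x ∂(GP n) = mb := hm
  rw [hm'] at h2
  have h2' : ∫ V, (Rh h σ ε V x x).im ^ 2 ∂(GP n) ≤
      mb.im ^ 2 + var (fun V => Rh h σ ε V x x) := h2
  have hform : ∀ (V : n → ℝ) (y : n), ‖star (dl x) ⬝ᵥ (-(GG h 1 (fun y => (σ : ℂ) • EY y) ε V *
      ((σ : ℂ) • EY y) * GG h 1 (fun y => (σ : ℂ) • EY y) ε V) *ᵥ dl x)‖ =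
      ‖star ((Rh h σ ε V)ᴴ *ᵥ dl x) ⬝ᵥ (((σ : ℂ) • EY y) *ᵥ (Rh h σ ε V *ᵥ dl x))‖ := by
    intro V y
    unfold Rh
    rw [Matrix.neg_mulVec, dotProduct_neg, norm_neg, ← Matrix.mulVec_mulVec,
      ← Matrix.mulVec_mulVec, adjoint (GG h 1 (fun y => (σ : ℂ) • EY y) ε V)]
  have h1 := var_split hP ((MD.gg H.S).form (star (dl x)) (dl x))
    (G := fun V => 32 * σ ^ 2 * Q * (g ^ 2 + (δ / ε) ^ 2 * (Rh h σ ε V x x).im ^ 2))
    ((RC.const _).mul ((RC.const _).add ((RC.const _).mul (H.rc_im x).sq)))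
    (fun V => by positivity) (c := σ ^ 2 / ε ^ 4) (by positivity) H.hΩ H.hP
    (fun V hV => by
      simp only [hform]
      rw [sum_form_EY]
      have e1 := (H.qf_dl hV x 1 (by simp)).1
      have e2 := (H.qf_dl hV x 1 (by simp)).2
      rw [one_smul] at e1 e2
      have e3 := H.im0 V x
      calc σ ^ 2 * ∑ y, ‖((Rh h σ ε V)ᴴ *ᵥ dl x) y‖ ^ 2 * ‖(Rh h σ ε V *ᵥ dl x) y‖ ^ 2 ≤
          σ ^ 2 * (Q * (qf J ((Rh h σ ε V)ᴴ *ᵥ dl x) * qf J (Rh h σ ε V *ᵥ dl x))) := by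
            have := H.hQ ((Rh h σ ε V)ᴴ *ᵥ dl x) (Rh h σ ε V *ᵥ dl x)
            gcongr
        _ ≤ σ ^ 2 * (Q * ((4 * (g + δ / ε * (Rh h σ ε V x x).im)) *
              (4 * (g + δ / ε * (Rh h σ ε V x x).im)))) := by
            have := H.hJ0 (Rh h σ ε V *ᵥ dl x)
            gcongr
        _ = 16 * σ ^ 2 * Q * (g + δ / ε * (Rh h σ ε V x x).im) ^ 2 := by ring
        _ ≤ 16 * σ ^ 2 * Q * (2 * (g ^ 2 + (δ / ε) ^ 2 * (Rh h σ ε V x x).im ^ 2)) := by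
            apply mul_le_mul_of_nonneg_left _ (by positivity)
            nlinarith [sq_nonneg (g - δ / ε * (Rh h σ ε V x x).im)]
        _ = _ := by ring)
    (fun V => by
      simp only [hform]
      rw [sum_form_EY]
      have e1 := (H.nsq_le V (dl x)).1
      have e2 := (H.nsq_le V (dl x)).2
      rw [nsq_dl] at e1 e2
      calc σ ^ 2 * ∑ y, ‖((Rh h σ ε V)ᴴ *ᵥ dl x) y‖ ^ 2 * ‖(Rh h σ ε V *ᵥ dl x) y‖ ^ 2 ≤
          σ ^ 2 * (nsq ((Rh h σ ε V)ᴴ *ᵥ dl x) * nsq (Rh h σ ε V *ᵥ dl x)) := by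
            have := sum_le_nsq ((Rh h σ ε V)ᴴ *ᵥ dl x) (Rh h σ ε V *ᵥ dl x)
            gcongr
        _ ≤ σ ^ 2 * ((1 / ε ^ 2) * (1 / ε ^ 2)) := by
            have := nsq_nonneg (Rh h σ ε V *ᵥ dl x)
            gcongr
        _ = _ := by ring)
  simp only [form_dl] at h1
  have h1' : var (fun V => Rh h σ ε V x x) ≤
      ∫ V, 32 * σ ^ 2 * Q * (g ^ 2 + (δ / ε) ^ 2 * (Rh h σ ε V x x).im ^ 2) ∂(GP n) +
      σ ^ 2 / ε ^ 4 * p0 := h1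
  have h3 : ∫ V, 32 * σ ^ 2 * Q * (g ^ 2 + (δ / ε) ^ 2 * (Rh h σ ε V x x).im ^ 2) ∂(GP n) =
      32 * σ ^ 2 * Q * (g ^ 2 + (δ / ε) ^ 2 * ∫ V, (Rh h σ ε V x x).im ^ 2 ∂(GP n)) := by
    have i1 : Integrable (fun V : n → ℝ => (δ / ε) ^ 2 * (Rh h σ ε V x x).im ^ 2) (GP n) :=
      (H.rc_im x).sq.integrable.const_mul _
    rw [integral_const_mul, integral_add (RC.const (m := n) (g ^ 2)).integrable i1,
      integral_const_mul, integral_const, probReal_univ, one_smul]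
  rw [h3] at h1'
  obtain ⟨W, hW⟩ : ∃ W, W = 32 * σ ^ 2 * Q *
    (g ^ 2 + (δ / ε) ^ 2 * ∫ V, (Rh h σ ε V x x).im ^ 2 ∂(GP n)) + σ ^ 2 * p0 / ε ^ 4 := ⟨_, rfl⟩
  have e0 : σ ^ 2 / ε ^ 4 * p0 = σ ^ 2 * p0 / ε ^ 4 := by ring
  rw [e0, ← hW] at h1'
  rw [← hW]
  have h4 : W ≤ v2 σ ε δ Q g p0 mb.im := by
    have h5 : W ≤ 32 * σ ^ 2 * Q * (g ^ 2 + (δ / ε) ^ 2 * (mb.im ^ 2 + W)) +
        σ ^ 2 * p0 / ε ^ 4 := by
      calc W = 32 * σ ^ 2 * Q *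
            (g ^ 2 + (δ / ε) ^ 2 * ∫ V, (Rh h σ ε V x x).im ^ 2 ∂(GP n)) +
            σ ^ 2 * p0 / ε ^ 4 := hW
        _ ≤ _ := by
            have := h2'.trans (add_le_add_right h1' (mb.im ^ 2))
            gcongr
    have hW0 : 0 ≤ W := (var_nonneg _).trans h1'
    have h6 : 32 * σ ^ 2 * Q * (δ / ε) ^ 2 * W ≤ 1 / 2 * W := by gcongr
    unfold v2
    have e7 : 32 * σ ^ 2 * Q * (g ^ 2 + (δ / ε) ^ 2 * (mb.im ^ 2 + W)) + σ ^ 2 * p0 / ε ^ 4 =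
        1 / 2 * (64 * σ ^ 2 * Q * (g ^ 2 + (δ / ε) ^ 2 * mb.im ^ 2) + 2 * σ ^ 2 * p0 / ε ^ 4) +
        32 * σ ^ 2 * Q * (δ / ε) ^ 2 * W := by ring
    rw [e7] at h5
    linarith
  exact ⟨h1'.trans h4, h4⟩

/-- matrix elements with one site -/
theorem Tru.tv2 (hP : T_POIN) (H : Tru h J J' σ ε δ Q g p0 Ω) (mb : ℂ) (x : n)
    (hm : ∫ V, Rh h σ ε V x x ∂(GP n) = mb) (b : n → ℂ) :
    var (fun V => star (dl x) ⬝ᵥ (Rh h σ ε V *ᵥ b)) ≤ rho σ ε δ Q g p0 mb.im * nsq b ∧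
    var (fun V => star b ⬝ᵥ (Rh h σ ε V *ᵥ dl x)) ≤ rho σ ε δ Q g p0 mb.im * nsq b := by
  have hε := H.hε
  have hδ := H.hδ
  have hQ := H.hQ0
  have hg := H.hg0
  have hp := H.hp0
  have hb0 := nsq_nonneg b
  have hform : ∀ (a c : n → ℂ) (V : n → ℝ) (y : n),
      ‖star a ⬝ᵥ (-(GG h 1 (fun y => (σ : ℂ) • EY y) ε V *
      ((σ : ℂ) • EY y) * GG h 1 (fun y => (σ : ℂ) • EY y) ε V) *ᵥ c)‖ =
      ‖star ((Rh h σ ε V)ᴴ *ᵥ a) ⬝ᵥ (((σ : ℂ) • EY y) *ᵥ (Rh h σ ε V *ᵥ c))‖ := by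
    intro a c V y
    unfold Rh
    rw [Matrix.neg_mulVec, dotProduct_neg, norm_neg, ← Matrix.mulVec_mulVec,
      ← Matrix.mulVec_mulVec, adjoint (GG h 1 (fun y => (σ : ℂ) • EY y) ε V)]
  have key : ∀ a c : n → ℂ, (∀ V ∈ Ω, qf J ((Rh h σ ε V)ᴴ *ᵥ a) * qf J (Rh h σ ε V *ᵥ c) ≤
      4 * (g + δ / ε * (Rh h σ ε V x x).im) * (8 * δ * nsq b / ε ^ 2)) →
      (∀ V, nsq ((Rh h σ ε V)ᴴ *ᵥ a) * nsq (Rh h σ ε V *ᵥ c) ≤ nsq b / ε ^ 4) →
      var (fun V => star a ⬝ᵥ (Rh h σ ε V *ᵥ c)) ≤ rho σ ε δ Q g p0 mb.im * nsq b := by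
    intro a c k1 k2
    have h1 := var_split hP ((MD.gg H.S).form (star a) c)
      (G := fun V => 32 * σ ^ 2 * Q * δ * nsq b / ε ^ 2 * (g + δ / ε * (Rh h σ ε V x x).im))
      ((RC.const _).mul ((RC.const _).add ((RC.const _).mul (H.rc_im x))))
      (fun V => by
        have := H.im0 V x
        positivity) (c := σ ^ 2 * nsq b / ε ^ 4) (by positivity) H.hΩ H.hP
      (fun V hV => by
        simp only [hform]
        rw [sum_form_EY]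
        calc σ ^ 2 * ∑ y, ‖((Rh h σ ε V)ᴴ *ᵥ a) y‖ ^ 2 * ‖(Rh h σ ε V *ᵥ c) y‖ ^ 2 ≤
            σ ^ 2 * (Q * (qf J ((Rh h σ ε V)ᴴ *ᵥ a) * qf J (Rh h σ ε V *ᵥ c))) := by
              have := H.hQ ((Rh h σ ε V)ᴴ *ᵥ a) (Rh h σ ε V *ᵥ c)
              gcongr
          _ ≤ σ ^ 2 * (Q * (4 * (g + δ / ε * (Rh h σ ε V x x).im) *
                (8 * δ * nsq b / ε ^ 2))) := by
              have := k1 V hV
              gcongr
          _ = _ := by ring)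
      (fun V => by
        simp only [hform]
        rw [sum_form_EY]
        calc σ ^ 2 * ∑ y, ‖((Rh h σ ε V)ᴴ *ᵥ a) y‖ ^ 2 * ‖(Rh h σ ε V *ᵥ c) y‖ ^ 2 ≤
            σ ^ 2 * (nsq ((Rh h σ ε V)ᴴ *ᵥ a) * nsq (Rh h σ ε V *ᵥ c)) := by
              have := sum_le_nsq ((Rh h σ ε V)ᴴ *ᵥ a) (Rh h σ ε V *ᵥ c)
              gcongr
          _ ≤ σ ^ 2 * (nsq b / ε ^ 4) := by
              have := k2 V
              gcongr
          _ = _ := by ring)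
    have h1' : var (fun V => star a ⬝ᵥ (Rh h σ ε V *ᵥ c)) ≤
        ∫ V, 32 * σ ^ 2 * Q * δ * nsq b / ε ^ 2 * (g + δ / ε * (Rh h σ ε V x x).im) ∂(GP n) +
        σ ^ 2 * nsq b / ε ^ 4 * p0 := h1
    refine h1'.trans (le_of_eq ?_)
    have i1 : Integrable (fun V : n → ℝ => δ / ε * (Rh h σ ε V x x).im) (GP n) :=
      (H.rc_im x).integrable.const_mul _
    rw [integral_const_mul, integral_add (RC.const (m := n) g).integrable i1,
      integral_const_mul, integral_const, probReal_univ, one_smul, H.int_im x hm]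
    unfold rho
    ring
  constructor
  · refine key (dl x) b (fun V hV => ?_) fun V => ?_
    · have e1 := (H.qf_dl hV x 1 (by simp)).2
      rw [one_smul] at e1
      have e2 := (H.qf_gen hV b).1
      exact mul_le_mul e1 e2 (H.hJ0 _) (by
        have := H.im0 V x
        positivity)
    · have e1 := (H.nsq_le V (dl x)).2
      have e2 := (H.nsq_le V b).1
      rw [nsq_dl] at e1
      calc _ ≤ 1 / ε ^ 2 * (nsq b / ε ^ 2) := mul_le_mul e1 e2 (nsq_nonneg _) (by positivity)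
        _ = _ := by ring
  · refine key b (dl x) (fun V hV => ?_) fun V => ?_
    · have e1 := (H.qf_dl hV x 1 (by simp)).1
      rw [one_smul] at e1
      have e2 := (H.qf_gen hV b).2
      rw [mul_comm]
      exact mul_le_mul e1 e2 (H.hJ0 _) (by
        have := H.im0 V x
        positivity)
    · have e1 := (H.nsq_le V (dl x)).1
      have e2 := (H.nsq_le V b).2
      rw [nsq_dl] at e1
      calc _ ≤ nsq b / ε ^ 2 * (1 / ε ^ 2) := mul_le_mul e2 e1 (nsq_nonneg _) (by positivity)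
        _ = _ := by ring

end tru

end Pool.Agent.T2h98.QD
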