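import Pool.Agent.T2h98.QD.TV2

/-! The resolvent without regularization: variances of products. -/

set_option autoImplicit false
set_option linter.unusedSectionVars false

open scoped BigOperators Matrix
open MeasureTheory ProbabilityTheory

namespace Pool.Agent.T2h98.QD

open Pool.Agent.W788.BK
open Pool.Agent.W240.BK (BC BM cs_int)

variable {n : Type} [Fintype n] [DecidableEq n]

section tru

variable {h J J' : Matrix n n ℂ} {σ ε δ Q g p0 : ℝ} {Ω : Set (n → ℝ)}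

theorem diag_dl (u : n → ℂ) (x : n) : (Matrix.diagonal u)ᴴ *ᵥ dl x = star (u x) • dl x := by
  rw [Matrix.diagonal_conjTranspose]
  funext y
  rw [Matrix.mulVec_diagonal, Pi.star_apply, Pi.smul_apply, smul_eq_mul]
  by_cases hxy : y = x
  · rw [hxy]
  · unfold dl
    rw [Pi.single_eq_of_ne hxy, mul_zero, mul_zero]

/-- variances of products -/
theorem Tru.tv3 (hP : T_POIN) (H : Tru h J J' σ ε δ Q g p0 Ω) {u : n → ℂ}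
    (hu : ∀ x, ‖u x‖ = 1) (x : n) (c : n → ℂ) {G1 : (n → ℝ) → ℝ} (hG1 : RC G1)
    (hG0 : ∀ V, 0 ≤ G1 V)
    (hb : ∀ V ∈ Ω, 2 * σ ^ 2 * Q * (4 * (g + δ / ε * (Rh h σ ε V x x).im) *
      (8 * δ * nsq ((Rh h σ ε V)ᴴ *ᵥ c) / ε ^ 2) +
      8 * δ * ((Rh h σ ε V x x).im / ε) / ε ^ 2 * qf J ((Rh h σ ε V)ᴴ *ᵥ c)) ≤ G1 V) :
    var (fun V => star (dl x) ⬝ᵥ ((cj u (Rh h σ ε V) * (Rh h σ ε V)ᴴ) *ᵥ c)) ≤
      ∫ V, G1 V ∂(GP n) + 4 * σ ^ 2 * nsq c / ε ^ 6 * p0 := by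
  have hε := H.hε
  have hδ := H.hδ
  have hQ := H.hQ0
  have hg := H.hg0
  have hc0 := nsq_nonneg c
  obtain ⟨U, hU⟩ : ∃ U, U = Matrix.diagonal u := ⟨_, rfl⟩
  have hform : ∀ (V : n → ℝ) (y : n), star (dl x) ⬝ᵥ ((cj u (-(Rh h σ ε V * ((σ : ℂ) • EY y) *
      Rh h σ ε V)) * (Rh h σ ε V)ᴴ + cj u (Rh h σ ε V) * (-(Rh h σ ε V * ((σ : ℂ) • EY y) *
      Rh h σ ε V))ᴴ) *ᵥ c) =
      -(star ((Rh h σ ε V)ᴴ *ᵥ (Uᴴ *ᵥ dl x)) ⬝ᵥ (((σ : ℂ) • EY y) *ᵥ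
        (Rh h σ ε V *ᵥ (Uᴴ *ᵥ ((Rh h σ ε V)ᴴ *ᵥ c))))) -
        star (Rh h σ ε V *ᵥ (U *ᵥ ((Rh h σ ε V)ᴴ *ᵥ (Uᴴ *ᵥ dl x)))) ⬝ᵥ (((σ : ℂ) • EY y) *ᵥ
          ((Rh h σ ε V)ᴴ *ᵥ c)) := by
    intro V y
    obtain ⟨G, hG⟩ : ∃ G, G = Rh h σ ε V := ⟨_, rfl⟩
    obtain ⟨A, hA⟩ : ∃ A, A = ((σ : ℂ) • EY y : Matrix n n ℂ) := ⟨_, rfl⟩
    have hAh : Aᴴ = A := by
      rw [hA]
      exact (EY_herm σ y).eq
    rw [← hG, ← hA, cj_neg, Matrix.conjTranspose_neg, Matrix.conjTranspose_mul,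
      Matrix.conjTranspose_mul, hAh, cj_eq, cj_eq, ← hU]
    rw [← adjoint, ← adjoint]
    have e1 : star (G *ᵥ (U *ᵥ (Gᴴ *ᵥ (Uᴴ *ᵥ dl x)))) ⬝ᵥ (A *ᵥ (Gᴴ *ᵥ c)) =
        star (dl x) ⬝ᵥ ((U * G * Uᴴ * Gᴴ * A * Gᴴ) *ᵥ c) := by
      have h1 := adjoint Gᴴ (U *ᵥ (Gᴴ *ᵥ (Uᴴ *ᵥ dl x))) (A *ᵥ (Gᴴ *ᵥ c))
      rw [Matrix.conjTranspose_conjTranspose] at h1
      rw [← h1]
      have h2 := adjoint Uᴴ (Gᴴ *ᵥ (Uᴴ *ᵥ dl x)) (Gᴴ *ᵥ (A *ᵥ (Gᴴ *ᵥ c)))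
      rw [Matrix.conjTranspose_conjTranspose] at h2
      rw [← h2, ← adjoint, ← adjoint]
      simp only [Matrix.mulVec_mulVec, Matrix.mul_assoc]
    have e2 : star (dl x) ⬝ᵥ (U *ᵥ (G *ᵥ (A *ᵥ (G *ᵥ (Uᴴ *ᵥ (Gᴴ *ᵥ c)))))) =
        star (dl x) ⬝ᵥ ((U * (G * A * G) * Uᴴ * Gᴴ) *ᵥ c) := by
      simp only [Matrix.mulVec_mulVec, Matrix.mul_assoc]
    rw [e1, e2, ← dotProduct_neg, ← dotProduct_sub]
    congr 1
    rw [← Matrix.neg_mulVec, ← Matrix.sub_mulVec]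
    congr 1
    noncomm_ring
  have hUd : Uᴴ *ᵥ dl x = star (u x) • dl x := by
    rw [hU]
    exact diag_dl u x
  have hux : ‖star (u x)‖ = 1 := by rw [norm_star, hu]
  have hnU : ∀ w : n → ℂ, nsq (U *ᵥ w) = nsq w := fun w => by
    rw [hU]
    exact (nsq_diag hu w).1
  have hnU' : ∀ w : n → ℂ, nsq (Uᴴ *ᵥ w) = nsq w := fun w => by
    rw [hU]
    exact (nsq_diag hu w).2
  -- the sum of the squares
  have hsum : ∀ V : n → ℝ, ∑ y, ‖star (dl x) ⬝ᵥ ((cj u (-(Rh h σ ε V * ((σ : ℂ) • EY y) *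
      Rh h σ ε V)) * (Rh h σ ε V)ᴴ + cj u (Rh h σ ε V) * (-(Rh h σ ε V * ((σ : ℂ) • EY y) *
      Rh h σ ε V))ᴴ) *ᵥ c)‖ ^ 2 ≤
      2 * σ ^ 2 * (∑ y, ‖((Rh h σ ε V)ᴴ *ᵥ (Uᴴ *ᵥ dl x)) y‖ ^ 2 *
        ‖(Rh h σ ε V *ᵥ (Uᴴ *ᵥ ((Rh h σ ε V)ᴴ *ᵥ c))) y‖ ^ 2 +
      ∑ y, ‖(Rh h σ ε V *ᵥ (U *ᵥ ((Rh h σ ε V)ᴴ *ᵥ (Uᴴ *ᵥ dl x)))) y‖ ^ 2 *
        ‖((Rh h σ ε V)ᴴ *ᵥ c) y‖ ^ 2) := by
    intro V
    simp only [hform]
    refine (Finset.sum_le_sum fun y _ => norm_sub_sq_le _ _).trans (le_of_eq ?_)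
    rw [Finset.sum_add_distrib, ← Finset.mul_sum, ← Finset.mul_sum, sum_form_EY, sum_form_EY]
    ring
  have h1 := var_split hP ((((MD.gg H.S).cj u).mul (MD.gg H.S).star').form (star (dl x)) c)
    hG1 hG0 (c := 4 * σ ^ 2 * nsq c / ε ^ 6) (by positivity) H.hΩ H.hP
    (fun V hV => by
      refine le_trans (hsum V) (le_trans ?_ (hb V hV))
      have hI := H.im0 V x
      have q1 := (H.qf_dl hV x (star (u x)) hux).2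
      rw [← hUd] at q1
      have q2 := (H.qf_gen hV (Uᴴ *ᵥ ((Rh h σ ε V)ᴴ *ᵥ c))).1
      rw [hnU'] at q2
      have q3 : qf J (Rh h σ ε V *ᵥ (U *ᵥ ((Rh h σ ε V)ᴴ *ᵥ (Uᴴ *ᵥ dl x)))) ≤
          8 * δ * ((Rh h σ ε V x x).im / ε) / ε ^ 2 := by
        refine ((H.qf_gen hV (U *ᵥ ((Rh h σ ε V)ᴴ *ᵥ (Uᴴ *ᵥ dl x)))).1).trans ?_
        rw [hnU]
        have e1 := (H.nsq_im V (Uᴴ *ᵥ dl x)).2
        have e2 : (star (Uᴴ *ᵥ dl x) ⬝ᵥ (Rh h σ ε V *ᵥ (Uᴴ *ᵥ dl x))).im =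
            (Rh h σ ε V x x).im := by
          rw [hUd, Matrix.mulVec_smul, star_smul, smul_dotProduct, dotProduct_smul, form_dl,
            smul_smul]
          have e2 : star (star (u x)) * star (u x) = 1 := by
            rw [star_star, RCLike.star_def, Complex.mul_conj, Complex.normSq_eq_norm_sq, hu]
            simp
          rw [e2, one_smul]
        rw [e2] at e1
        gcongr
      have b1 := H.hQ ((Rh h σ ε V)ᴴ *ᵥ (Uᴴ *ᵥ dl x))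
        (Rh h σ ε V *ᵥ (Uᴴ *ᵥ ((Rh h σ ε V)ᴴ *ᵥ c)))
      have b2 := H.hQ (Rh h σ ε V *ᵥ (U *ᵥ ((Rh h σ ε V)ᴴ *ᵥ (Uᴴ *ᵥ dl x))))
        ((Rh h σ ε V)ᴴ *ᵥ c)
      have c0 := H.hJ0 ((Rh h σ ε V)ᴴ *ᵥ c)
      have c1 := H.hJ0 (Rh h σ ε V *ᵥ (Uᴴ *ᵥ ((Rh h σ ε V)ᴴ *ᵥ c)))
      calc _ ≤ 2 * σ ^ 2 * (Q * (qf J ((Rh h σ ε V)ᴴ *ᵥ (Uᴴ *ᵥ dl x)) *
            qf J (Rh h σ ε V *ᵥ (Uᴴ *ᵥ ((Rh h σ ε V)ᴴ *ᵥ c)))) +
            Q * (qf J (Rh h σ ε V *ᵥ (U *ᵥ ((Rh h σ ε V)ᴴ *ᵥ (Uᴴ *ᵥ dl x)))) *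
              qf J ((Rh h σ ε V)ᴴ *ᵥ c))) := by gcongr
        _ ≤ 2 * σ ^ 2 * (Q * (4 * (g + δ / ε * (Rh h σ ε V x x).im) *
            (8 * δ * nsq ((Rh h σ ε V)ᴴ *ᵥ c) / ε ^ 2)) +
            Q * (8 * δ * ((Rh h σ ε V x x).im / ε) / ε ^ 2 *
              qf J ((Rh h σ ε V)ᴴ *ᵥ c))) := by gcongr
        _ = _ := by ring)
    (fun V => by
      refine (hsum V).trans ?_
      have b1 := sum_le_nsq ((Rh h σ ε V)ᴴ *ᵥ (Uᴴ *ᵥ dl x))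
        (Rh h σ ε V *ᵥ (Uᴴ *ᵥ ((Rh h σ ε V)ᴴ *ᵥ c)))
      have b2 := sum_le_nsq (Rh h σ ε V *ᵥ (U *ᵥ ((Rh h σ ε V)ᴴ *ᵥ (Uᴴ *ᵥ dl x))))
        ((Rh h σ ε V)ᴴ *ᵥ c)
      have n0 : nsq (Uᴴ *ᵥ dl x) = 1 := by rw [hnU', nsq_dl]
      have n1 : nsq ((Rh h σ ε V)ᴴ *ᵥ (Uᴴ *ᵥ dl x)) ≤ 1 / ε ^ 2 := by
        have := (H.nsq_le V (Uᴴ *ᵥ dl x)).2
        rwa [n0] at this
      have n2 : nsq ((Rh h σ ε V)ᴴ *ᵥ c) ≤ nsq c / ε ^ 2 := (H.nsq_le V c).2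
      have n3 : nsq (Rh h σ ε V *ᵥ (Uᴴ *ᵥ ((Rh h σ ε V)ᴴ *ᵥ c))) ≤ nsq c / ε ^ 4 := by
        refine ((H.nsq_le V _).1).trans ?_
        rw [hnU']
        calc nsq ((Rh h σ ε V)ᴴ *ᵥ c) / ε ^ 2 ≤ (nsq c / ε ^ 2) / ε ^ 2 := by gcongr
          _ = _ := by
            field_simp
      have n4 : nsq (Rh h σ ε V *ᵥ (U *ᵥ ((Rh h σ ε V)ᴴ *ᵥ (Uᴴ *ᵥ dl x)))) ≤ 1 / ε ^ 4 := by
        refine ((H.nsq_le V _).1).trans ?_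
        rw [hnU]
        calc nsq ((Rh h σ ε V)ᴴ *ᵥ (Uᴴ *ᵥ dl x)) / ε ^ 2 ≤ (1 / ε ^ 2) / ε ^ 2 := by gcongr
          _ = _ := by
            field_simp
      have p1 : nsq ((Rh h σ ε V)ᴴ *ᵥ (Uᴴ *ᵥ dl x)) *
          nsq (Rh h σ ε V *ᵥ (Uᴴ *ᵥ ((Rh h σ ε V)ᴴ *ᵥ c))) ≤ nsq c / ε ^ 6 := by
        calc _ ≤ 1 / ε ^ 2 * (nsq c / ε ^ 4) := mul_le_mul n1 n3 (nsq_nonneg _) (by positivity)
          _ = _ := by
            field_simp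
      have p2 : nsq (Rh h σ ε V *ᵥ (U *ᵥ ((Rh h σ ε V)ᴴ *ᵥ (Uᴴ *ᵥ dl x)))) *
          nsq ((Rh h σ ε V)ᴴ *ᵥ c) ≤ nsq c / ε ^ 6 := by
        calc _ ≤ 1 / ε ^ 4 * (nsq c / ε ^ 2) := mul_le_mul n4 n2 (nsq_nonneg _) (by positivity)
          _ = _ := by
            field_simp
      calc _ ≤ 2 * σ ^ 2 * (nsq c / ε ^ 6 + nsq c / ε ^ 6) := by
            have t1 := b1.trans p1
            have t2 := b2.trans p2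
            gcongr
        _ = _ := by ring)
  exact h1

/-- diagonal elements of products -/
theorem Tru.tv3a (hP : T_POIN) (H : Tru h J J' σ ε δ Q g p0 Ω) {u : n → ℂ}
    (hu : ∀ x, ‖u x‖ = 1) (mb : ℂ) (x : n) (hm : ∫ V, Rh h σ ε V x x ∂(GP n) = mb)
    (hs : 32 * σ ^ 2 * Q * (δ / ε) ^ 2 ≤ 1 / 2) :
    var (fun V => (cj u (Rh h σ ε V) * (Rh h σ ε V)ᴴ) x x) ≤
      8 * v2 σ ε δ Q g p0 mb.im / ε ^ 2 := by
  have hε := H.hε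
  have hδ := H.hδ
  have hQ := H.hQ0
  have hg := H.hg0
  have hp := H.hp0
  have h1 := H.tv3 hP hu x (dl x)
    (G1 := fun V => 256 * σ ^ 2 * Q / ε ^ 2 * (g ^ 2 + (δ / ε) ^ 2 * (Rh h σ ε V x x).im ^ 2))
    ((RC.const _).mul ((RC.const _).add ((RC.const _).mul (H.rc_im x).sq)))
    (fun V => by positivity) (fun V hV => by
      have hI := H.im0 V x
      obtain ⟨I, hI'⟩ : ∃ I, I = (Rh h σ ε V x x).im := ⟨_, rfl⟩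
      have e1 := (H.nsq_im V (dl x)).2
      rw [form_dl] at e1
      have e2 := (H.qf_dl hV x 1 (by simp)).2
      rw [one_smul] at e2
      rw [← hI'] at hI e1 e2 ⊢
      calc 2 * σ ^ 2 * Q * (4 * (g + δ / ε * I) * (8 * δ * nsq ((Rh h σ ε V)ᴴ *ᵥ dl x) / ε ^ 2) +
          8 * δ * (I / ε) / ε ^ 2 * qf J ((Rh h σ ε V)ᴴ *ᵥ dl x)) ≤
          2 * σ ^ 2 * Q * (4 * (g + δ / ε * I) * (8 * δ * (I / ε) / ε ^ 2) +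
          8 * δ * (I / ε) / ε ^ 2 * (4 * (g + δ / ε * I))) := by gcongr
        _ = 128 * σ ^ 2 * Q / ε ^ 2 * ((g + δ / ε * I) * (δ / ε * I)) := by
            field_simp
            ring
        _ ≤ 128 * σ ^ 2 * Q / ε ^ 2 * (2 * (g ^ 2 + (δ / ε) ^ 2 * I ^ 2)) := by
            apply mul_le_mul_of_nonneg_left _ (by positivity)
            nlinarith [sq_nonneg (g - δ / ε * I), sq_nonneg g, sq_nonneg (δ / ε * I)]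
        _ = _ := by ring)
  simp only [form_dl] at h1
  refine h1.trans ?_
  obtain ⟨-, h2⟩ := H.tv1 hP mb x hm hs
  have h3 : ∫ V, 256 * σ ^ 2 * Q / ε ^ 2 * (g ^ 2 + (δ / ε) ^ 2 * (Rh h σ ε V x x).im ^ 2)
      ∂(GP n) = 256 * σ ^ 2 * Q / ε ^ 2 *
        (g ^ 2 + (δ / ε) ^ 2 * ∫ V, (Rh h σ ε V x x).im ^ 2 ∂(GP n)) := by
    have i1 : Integrable (fun V : n → ℝ => (δ / ε) ^ 2 * (Rh h σ ε V x x).im ^ 2) (GP n) :=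
      (H.rc_im x).sq.integrable.const_mul _
    rw [integral_const_mul, integral_add (RC.const (m := n) (g ^ 2)).integrable i1,
      integral_const_mul, integral_const, probReal_univ, one_smul]
  rw [h3, nsq_dl]
  calc 256 * σ ^ 2 * Q / ε ^ 2 *
        (g ^ 2 + (δ / ε) ^ 2 * ∫ V, (Rh h σ ε V x x).im ^ 2 ∂(GP n)) +
        4 * σ ^ 2 * 1 / ε ^ 6 * p0 ≤ 256 * σ ^ 2 * Q / ε ^ 2 *
        (g ^ 2 + (δ / ε) ^ 2 * ∫ V, (Rh h σ ε V x x).im ^ 2 ∂(GP n)) +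
        8 * σ ^ 2 * 1 / ε ^ 6 * p0 := by gcongr; norm_num
    _ = 8 * (32 * σ ^ 2 * Q * (g ^ 2 + (δ / ε) ^ 2 * ∫ V, (Rh h σ ε V x x).im ^ 2 ∂(GP n)) +
        σ ^ 2 * p0 / ε ^ 4) / ε ^ 2 := by
        field_simp
        ring
    _ ≤ _ := by gcongr

/-- matrix elements of products -/
theorem Tru.tv3b (hP : T_POIN) (H : Tru h J J' σ ε δ Q g p0 Ω) {u : n → ℂ}
    (hu : ∀ x, ‖u x‖ = 1) (mb : ℂ) (x : n) (hm : ∫ V, Rh h σ ε V x x ∂(GP n) = mb)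
    (c : n → ℂ) :
    var (fun V => star (dl x) ⬝ᵥ ((cj u (Rh h σ ε V) * (Rh h σ ε V)ᴴ) *ᵥ c)) ≤
      6 * (rho σ ε δ Q g p0 mb.im * nsq c) / ε ^ 2 := by
  have hε := H.hε
  have hδ := H.hδ
  have hQ := H.hQ0
  have hg := H.hg0
  have hp := H.hp0
  have hc0 := nsq_nonneg c
  have h1 := H.tv3 hP hu x c
    (G1 := fun V => 192 * σ ^ 2 * Q * δ * nsq c / ε ^ 4 * (g + δ / ε * (Rh h σ ε V x x).im))
    ((RC.const _).mul ((RC.const _).add ((RC.const _).mul (H.rc_im x))))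
    (fun V => by
      have := H.im0 V x
      positivity) (fun V hV => by
      have hI := H.im0 V x
      have e1 := (H.nsq_le V c).2
      have e2 := (H.qf_gen hV c).2
      obtain ⟨I, hI'⟩ : ∃ I, I = (Rh h σ ε V x x).im := ⟨_, rfl⟩
      rw [← hI'] at hI ⊢
      calc 2 * σ ^ 2 * Q * (4 * (g + δ / ε * I) * (8 * δ * nsq ((Rh h σ ε V)ᴴ *ᵥ c) / ε ^ 2) +
          8 * δ * (I / ε) / ε ^ 2 * qf J ((Rh h σ ε V)ᴴ *ᵥ c)) ≤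
          2 * σ ^ 2 * Q * (4 * (g + δ / ε * I) * (8 * δ * (nsq c / ε ^ 2) / ε ^ 2) +
          8 * δ * (I / ε) / ε ^ 2 * (8 * δ * nsq c / ε ^ 2)) := by gcongr
        _ = 2 * σ ^ 2 * Q * (δ * nsq c / ε ^ 4) * (32 * g + 96 * (δ / ε * I)) := by
            field_simp
            ring
        _ ≤ 2 * σ ^ 2 * Q * (δ * nsq c / ε ^ 4) * (96 * (g + δ / ε * I)) := by
            apply mul_le_mul_of_nonneg_left _ (by positivity)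
            linarith
        _ = _ := by ring)
  refine h1.trans ?_
  have i1 : Integrable (fun V : n → ℝ => δ / ε * (Rh h σ ε V x x).im) (GP n) :=
    (H.rc_im x).integrable.const_mul _
  rw [integral_const_mul, integral_add (RC.const (m := n) g).integrable i1,
    integral_const_mul, integral_const, probReal_univ, one_smul, H.int_im x hm]
  unfold rho
  calc 192 * σ ^ 2 * Q * δ * nsq c / ε ^ 4 * (g + δ / ε * mb.im) +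
        4 * σ ^ 2 * nsq c / ε ^ 6 * p0 ≤
        192 * σ ^ 2 * Q * δ * nsq c / ε ^ 4 * (g + δ / ε * mb.im) +
        6 * σ ^ 2 * nsq c / ε ^ 6 * p0 := by gcongr; norm_num
    _ = _ := by
        field_simp
        ring

end tru

end Pool.Agent.T2h98.QD
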