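import Pool.Agent.T2h98.QD.TG

/-! Variance bounds in terms of the means. -/

set_option autoImplicit false
set_option linter.unusedSectionVars false

open scoped BigOperators Matrix
open MeasureTheory ProbabilityTheory

namespace Pool.Agent.T2h98.QD

open Pool.Agent.W788.BK
open Pool.Agent.W240.BK (BC BM cs_int)

variable {n : Type} [Fintype n] [DecidableEq n]

/-- the model with normalized parameters -/
structure Trw (h J J' : Matrix n n ℂ) (σ ε δ Q g p0 : ℝ) (Ω : Set (n → ℝ)) : Prop where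
  H : Tru h J J' σ ε δ Q g p0 Ω
  hQ1 : 1 ≤ Q
  hg1 : 1 ≤ g
  hσ1 : σ ≤ 1
  hδ1 : δ ≤ 1
  hp : p0 ≤ ε ^ 6
  hs : 64 * σ ^ 2 * Q * (δ / ε) ^ 2 ≤ 1

/-- the imaginary part of `⟨b, R b⟩` -/
noncomputable def Fi (h : Matrix n n ℂ) (σ ε : ℝ) (b : n → ℂ) (V : n → ℝ) : ℝ :=
  (star b ⬝ᵥ (Rh h σ ε V *ᵥ b)).im

/-- its mean -/
noncomputable def fi (h : Matrix n n ℂ) (σ ε : ℝ) (b : n → ℂ) : ℝ :=
  ∫ V, Fi h σ ε b V ∂(GP n)

section trw

variable {h J J' : Matrix n n ℂ} {σ ε δ Q g p0 : ℝ} {Ω : Set (n → ℝ)}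

theorem Trw.Fi0 (T : Trw h J J' σ ε δ Q g p0 Ω) (b : n → ℂ) (V : n → ℝ) : 0 ≤ Fi h σ ε b V :=
  form_im_nonneg T.H.S V b

theorem Trw.fi0 (T : Trw h J J' σ ε δ Q g p0 Ω) (b : n → ℂ) : 0 ≤ fi h σ ε b :=
  integral_nonneg fun V => T.Fi0 b V

theorem Trw.rcFi (T : Trw h J J' σ ε δ Q g p0 Ω) (b : n → ℂ) : RC fun V => Fi h σ ε b V :=
  RC.im ((MD.gg T.H.S).form (star b) b).bF

theorem Fi_dl (x : n) (V : n → ℝ) : Fi h σ ε (dl x) V = (Rh h σ ε V x x).im := by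
  unfold Fi
  rw [form_dl]

/-- columns on the good event -/
theorem Trw.qf_b (T : Trw h J J' σ ε δ Q g p0 Ω) {V : n → ℝ} (hV : V ∈ Ω) (b : n → ℂ) (j : ℝ)
    (hj : qf J' b ≤ j) :
    qf J (Rh h σ ε V *ᵥ b) ≤ 4 * (j + δ / ε * Fi h σ ε b V) ∧
    qf J ((Rh h σ ε V)ᴴ *ᵥ b) ≤ 4 * (j + δ / ε * Fi h σ ε b V) := by
  have hε := T.H.hε
  have hδ := T.H.hδ
  obtain ⟨h1, h2⟩ := T.H.hR V hV b
  obtain ⟨h3, h4⟩ := T.H.nsq_im V b
  have e2 : ∀ s : ℝ, s ≤ Fi h σ ε b V / ε →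
      4 * (qf J' b + δ * s) ≤ 4 * (j + δ / ε * Fi h σ ε b V) := by
    intro s hs
    calc 4 * (qf J' b + δ * s) ≤ 4 * (j + δ * (Fi h σ ε b V / ε)) := by gcongr
      _ = _ := by ring
  exact ⟨h1.trans (e2 _ h3), h2.trans (e2 _ h4)⟩

/-- the basic variance bound -/
theorem Trw.var_ab (hP : T_POIN) (T : Trw h J J' σ ε δ Q g p0 Ω) (a b : n → ℂ) (ja jb : ℝ)
    (ha : qf J' a ≤ ja) (hb : qf J' b ≤ jb) (ha0 : 0 ≤ ja) (hb0 : 0 ≤ jb) :
    var (fun V => star a ⬝ᵥ (Rh h σ ε V *ᵥ b)) ≤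
      16 * (σ ^ 2 * Q) * ∫ V, (ja + δ / ε * Fi h σ ε a V) * (jb + δ / ε * Fi h σ ε b V) ∂(GP n) +
      σ ^ 2 * (nsq a * nsq b) / ε ^ 4 * p0 := by
  have hε := T.H.hε
  have hδ := T.H.hδ
  have hQ := T.H.hQ0
  have na := nsq_nonneg a
  have nb := nsq_nonneg b
  have hform : ∀ (V : n → ℝ) (y : n),
      ‖star a ⬝ᵥ (-(GG h 1 (fun y => (σ : ℂ) • EY y) ε V *
      ((σ : ℂ) • EY y) * GG h 1 (fun y => (σ : ℂ) • EY y) ε V) *ᵥ b)‖ =
      ‖star ((Rh h σ ε V)ᴴ *ᵥ a) ⬝ᵥ (((σ : ℂ) • EY y) *ᵥ (Rh h σ ε V *ᵥ b))‖ := by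
    intro V y
    unfold Rh
    rw [Matrix.neg_mulVec, dotProduct_neg, norm_neg, ← Matrix.mulVec_mulVec,
      ← Matrix.mulVec_mulVec, adjoint (GG h 1 (fun y => (σ : ℂ) • EY y) ε V)]
  have hrc : RC fun V : n → ℝ => (ja + δ / ε * Fi h σ ε a V) * (jb + δ / ε * Fi h σ ε b V) :=
    ((RC.const _).add ((RC.const _).mul (T.rcFi a))).mul
      ((RC.const _).add ((RC.const _).mul (T.rcFi b)))
  have h1 := var_split hP ((MD.gg T.H.S).form (star a) b)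
    (G := fun V => 16 * (σ ^ 2 * Q) *
      ((ja + δ / ε * Fi h σ ε a V) * (jb + δ / ε * Fi h σ ε b V)))
    ((RC.const _).mul hrc)
    (fun V => by
      have := T.Fi0 a V
      have := T.Fi0 b V
      positivity) (c := σ ^ 2 * (nsq a * nsq b) / ε ^ 4) (by positivity) T.H.hΩ T.H.hP
    (fun V hV => by
      simp only [hform]
      rw [sum_form_EY]
      have e1 := (T.qf_b hV a ja ha).2
      have e2 := (T.qf_b hV b jb hb).1
      calc σ ^ 2 * ∑ y, ‖((Rh h σ ε V)ᴴ *ᵥ a) y‖ ^ 2 * ‖(Rh h σ ε V *ᵥ b) y‖ ^ 2 ≤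
          σ ^ 2 * (Q * (qf J ((Rh h σ ε V)ᴴ *ᵥ a) * qf J (Rh h σ ε V *ᵥ b))) := by
            have := T.H.hQ ((Rh h σ ε V)ᴴ *ᵥ a) (Rh h σ ε V *ᵥ b)
            gcongr
        _ ≤ σ ^ 2 * (Q * ((4 * (ja + δ / ε * Fi h σ ε a V)) *
              (4 * (jb + δ / ε * Fi h σ ε b V)))) := by
            have := mul_le_mul e1 e2 (T.H.hJ0 _) (by
              have := T.Fi0 a V
              positivity)
            gcongr
        _ = _ := by ring)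
    (fun V => by
      simp only [hform]
      rw [sum_form_EY]
      calc σ ^ 2 * ∑ y, ‖((Rh h σ ε V)ᴴ *ᵥ a) y‖ ^ 2 * ‖(Rh h σ ε V *ᵥ b) y‖ ^ 2 ≤
          σ ^ 2 * (nsq ((Rh h σ ε V)ᴴ *ᵥ a) * nsq (Rh h σ ε V *ᵥ b)) := by
            have := sum_le_nsq ((Rh h σ ε V)ᴴ *ᵥ a) (Rh h σ ε V *ᵥ b)
            gcongr
        _ ≤ σ ^ 2 * ((nsq a / ε ^ 2) * (nsq b / ε ^ 2)) := by
            have e1 := (T.H.nsq_le V a).2
            have e2 := (T.H.nsq_le V b).1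
            have := mul_le_mul e1 e2 (nsq_nonneg _) (by positivity)
            gcongr
        _ = _ := by ring)
  rw [integral_const_mul] at h1
  exact h1

/-- the second moment of the imaginary part -/
theorem Trw.sqF (hP : T_POIN) (T : Trw h J J' σ ε δ Q g p0 Ω) (b : n → ℂ) (j : ℝ)
    (hj : qf J' b ≤ j) (hn : nsq b ≤ j) (hj0 : 0 ≤ j) :
    ∫ V, (j + δ / ε * Fi h σ ε b V) ^ 2 ∂(GP n) ≤ 8 * (j + δ / ε * fi h σ ε b) ^ 2 := by
  have hε := T.H.hε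
  have hδ := T.H.hδ
  have hQ := T.H.hQ0
  have hσ := T.H.hσ
  have hf0 := T.fi0 b
  have hp0 := T.H.hp0
  have nb := nsq_nonneg b
  obtain ⟨D, hD⟩ : ∃ D, D = δ / ε := ⟨_, rfl⟩
  have hD0 : 0 < D := by
    rw [hD]
    positivity
  obtain ⟨A, hA⟩ : ∃ A, A = σ ^ 2 * Q := ⟨_, rfl⟩
  have hA0 : 0 ≤ A := by
    rw [hA]
    positivity
  obtain ⟨W, hW⟩ : ∃ W, W = ∫ V, Fi h σ ε b V ^ 2 ∂(GP n) := ⟨_, rfl⟩
  have hW0 : 0 ≤ W := by
    rw [hW]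
    exact integral_nonneg fun V => sq_nonneg _
  have rF := T.rcFi b
  have hexp : ∫ V, (j + D * Fi h σ ε b V) ^ 2 ∂(GP n) ≤ 2 * j ^ 2 + 2 * D ^ 2 * W := by
    have i1 : Integrable (fun V : n → ℝ => 2 * D ^ 2 * Fi h σ ε b V ^ 2) (GP n) :=
      rF.sq.integrable.const_mul _
    calc ∫ V, (j + D * Fi h σ ε b V) ^ 2 ∂(GP n) ≤
        ∫ V, (2 * j ^ 2 + 2 * D ^ 2 * Fi h σ ε b V ^ 2) ∂(GP n) := by
          refine integral_mono (((RC.const j).add ((RC.const D).mul rF)).sq.integrable)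
            ((RC.const (m := n) (2 * j ^ 2)).integrable.add i1) fun V => ?_
          nlinarith [sq_nonneg (j - D * Fi h σ ε b V)]
      _ = _ := by
          rw [integral_add (RC.const (m := n) (2 * j ^ 2)).integrable i1,
            integral_const, probReal_univ, one_smul, hW]
          congr 1
          exact integral_const_mul _ _
  have h1 := T.var_ab hP b b j j hj hj hj0 hj0
  rw [← hD, ← hA] at h1
  have h2 : ∫ V, (j + D * Fi h σ ε b V) * (j + D * Fi h σ ε b V) ∂(GP n) ≤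
      2 * j ^ 2 + 2 * D ^ 2 * W := by
    simp only [← sq]
    exact hexp
  have h3 := sq_im_le ((MD.gg T.H.S).form (star b) b).bF
  have h3' : W ≤ fi h σ ε b ^ 2 + var (fun V => star b ⬝ᵥ (Rh h σ ε V *ᵥ b)) := by
    have e1 : (∫ V, star b ⬝ᵥ (Rh h σ ε V *ᵥ b) ∂(GP n)).im = fi h σ ε b :=
      (integral_im (((MD.gg T.H.S).form (star b) b).bF.integrable _)).symm
    rw [← e1, hW]
    exact h3
  have h4 : σ ^ 2 * (nsq b * nsq b) / ε ^ 4 * p0 ≤ σ ^ 2 * j ^ 2 * ε ^ 2 := by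
    calc σ ^ 2 * (nsq b * nsq b) / ε ^ 4 * p0 ≤ σ ^ 2 * (j * j) / ε ^ 4 * ε ^ 6 := by
          have := T.hp
          gcongr
      _ = _ := by
          field_simp
  have h5 : 64 * A * D ^ 2 ≤ 1 := by
    rw [hA, hD]
    have := T.hs
    linarith
  have h6 : W ≤ 2 * fi h σ ε b ^ 2 + 64 * A * j ^ 2 + 2 * (σ ^ 2 * j ^ 2 * ε ^ 2) := by
    have e1 : 16 * A * ∫ V, (j + D * Fi h σ ε b V) * (j + D * Fi h σ ε b V) ∂(GP n) ≤
        16 * A * (2 * j ^ 2 + 2 * D ^ 2 * W) := by gcongr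
    have e2 : 16 * A * (2 * j ^ 2 + 2 * D ^ 2 * W) = 32 * A * j ^ 2 + (64 * A * D ^ 2) * W / 2 := by
      ring
    have e3 : (64 * A * D ^ 2) * W / 2 ≤ W / 2 := by nlinarith
    linarith
  have h7 : D ^ 2 * (σ ^ 2 * j ^ 2 * ε ^ 2) ≤ j ^ 2 := by
    have e1 : D ^ 2 * (σ ^ 2 * j ^ 2 * ε ^ 2) = (σ ^ 2 * δ ^ 2) * j ^ 2 := by
      rw [hD]
      field_simp
    rw [e1]
    have e2 : σ ^ 2 ≤ 1 := pow_le_one₀ hσ.le T.hσ1
    have e3 : δ ^ 2 ≤ 1 := pow_le_one₀ hδ.le T.hδ1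
    have e4 : σ ^ 2 * δ ^ 2 ≤ 1 := mul_le_one₀ e2 (sq_nonneg _) e3
    nlinarith [sq_nonneg j]
  rw [← hD]
  refine hexp.trans ?_
  have h8 : 2 * D ^ 2 * W ≤ 4 * D ^ 2 * fi h σ ε b ^ 2 + 2 * j ^ 2 + 4 * j ^ 2 := by
    calc 2 * D ^ 2 * W ≤ 2 * D ^ 2 * (2 * fi h σ ε b ^ 2 + 64 * A * j ^ 2 +
          2 * (σ ^ 2 * j ^ 2 * ε ^ 2)) := by gcongr
      _ = 4 * D ^ 2 * fi h σ ε b ^ 2 + 2 * (64 * A * D ^ 2) * j ^ 2 +
          4 * (D ^ 2 * (σ ^ 2 * j ^ 2 * ε ^ 2)) := by ring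
      _ ≤ 4 * D ^ 2 * fi h σ ε b ^ 2 + 2 * 1 * j ^ 2 + 4 * j ^ 2 := by gcongr
      _ = _ := by ring
  have h9 : 0 ≤ j * (D * fi h σ ε b) := by positivity
  nlinarith [sq_nonneg (D * fi h σ ε b)]

/-- the mean of the product -/
theorem Trw.prodF (hP : T_POIN) (T : Trw h J J' σ ε δ Q g p0 Ω) (a b : n → ℂ) (ja jb : ℝ)
    (ha : qf J' a ≤ ja) (hb : qf J' b ≤ jb) (hna : nsq a ≤ ja) (hnb : nsq b ≤ jb)
    (ha0 : 0 < ja) (hb0 : 0 < jb) :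
    ∫ V, (ja + δ / ε * Fi h σ ε a V) * (jb + δ / ε * Fi h σ ε b V) ∂(GP n) ≤
      8 * ((ja + δ / ε * fi h σ ε a) * (jb + δ / ε * fi h σ ε b)) := by
  have hε := T.H.hε
  have hδ := T.H.hδ
  have s1 := T.sqF hP a ja ha hna ha0.le
  have s2 := T.sqF hP b jb hb hnb hb0.le
  have rA := (RC.const (m := n) ja).add ((RC.const (δ / ε)).mul (T.rcFi a))
  have rB := (RC.const (m := n) jb).add ((RC.const (δ / ε)).mul (T.rcFi b))
  obtain ⟨Ga, hGa⟩ : ∃ Ga, Ga = ja + δ / ε * fi h σ ε a := ⟨_, rfl⟩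
  obtain ⟨Gb, hGb⟩ : ∃ Gb, Gb = jb + δ / ε * fi h σ ε b := ⟨_, rfl⟩
  have ga0 : 0 < Ga := by
    rw [hGa]
    have := T.fi0 a
    positivity
  have gb0 : 0 < Gb := by
    rw [hGb]
    have := T.fi0 b
    positivity
  rw [← hGa] at s1
  rw [← hGb] at s2
  rw [← hGa, ← hGb]
  calc ∫ V, (ja + δ / ε * Fi h σ ε a V) * (jb + δ / ε * Fi h σ ε b V) ∂(GP n) ≤
      ∫ V, (Gb / Ga / 2 * (ja + δ / ε * Fi h σ ε a V) ^ 2 +
        Ga / Gb / 2 * (jb + δ / ε * Fi h σ ε b V) ^ 2) ∂(GP n) := by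
        refine integral_mono (rA.mul rB).integrable
          ((rA.sq.integrable.const_mul _).add (rB.sq.integrable.const_mul _)) fun V => ?_
        simp only
        obtain ⟨X, hX⟩ : ∃ X, X = ja + δ / ε * Fi h σ ε a V := ⟨_, rfl⟩
        obtain ⟨Y, hY⟩ : ∃ Y, Y = jb + δ / ε * Fi h σ ε b V := ⟨_, rfl⟩
        rw [← hX, ← hY]
        have e1 : Gb / Ga / 2 * X ^ 2 + Ga / Gb / 2 * Y ^ 2 - X * Y =
            (Gb * X - Ga * Y) ^ 2 / (2 * (Ga * Gb)) := by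
          field_simp
          ring
        have e2 : 0 ≤ (Gb * X - Ga * Y) ^ 2 / (2 * (Ga * Gb)) := by positivity
        linarith
    _ = Gb / Ga / 2 * ∫ V, (ja + δ / ε * Fi h σ ε a V) ^ 2 ∂(GP n) +
        Ga / Gb / 2 * ∫ V, (jb + δ / ε * Fi h σ ε b V) ^ 2 ∂(GP n) := by
        rw [integral_add (rA.sq.integrable.const_mul _) (rB.sq.integrable.const_mul _),
          integral_const_mul, integral_const_mul]
    _ ≤ Gb / Ga / 2 * (8 * Ga ^ 2) + Ga / Gb / 2 * (8 * Gb ^ 2) := by gcongr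
    _ = _ := by
        field_simp
        ring

/-- variances of matrix elements -/
theorem Trw.var1 (hP : T_POIN) (T : Trw h J J' σ ε δ Q g p0 Ω) (a b : n → ℂ) (ja jb : ℝ)
    (ha : qf J' a ≤ ja) (hb : qf J' b ≤ jb) (hna : nsq a ≤ ja) (hnb : nsq b ≤ jb)
    (ha0 : 0 < ja) (hb0 : 0 < jb) :
    var (fun V => star a ⬝ᵥ (Rh h σ ε V *ᵥ b)) ≤
      129 * (σ ^ 2 * Q) * ((ja + δ / ε * fi h σ ε a) * (jb + δ / ε * fi h σ ε b)) := by
  have hε := T.H.hε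
  have hδ := T.H.hδ
  have hQ := T.H.hQ0
  have hσ := T.H.hσ
  have na := nsq_nonneg a
  have nb := nsq_nonneg b
  have fa := T.fi0 a
  have fb := T.fi0 b
  have h1 := T.var_ab hP a b ja jb ha hb ha0.le hb0.le
  have h2 := T.prodF hP a b ja jb ha hb hna hnb ha0 hb0
  have h3 : σ ^ 2 * (nsq a * nsq b) / ε ^ 4 * p0 ≤
      (σ ^ 2 * Q) * ((ja + δ / ε * fi h σ ε a) * (jb + δ / ε * fi h σ ε b)) := by
    have e1 : ε ≤ 1 := T.H.hεδ.trans T.hδ1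
    have e2 : ε ^ 2 ≤ 1 := pow_le_one₀ hε.le e1
    have hp0 := T.H.hp0
    calc σ ^ 2 * (nsq a * nsq b) / ε ^ 4 * p0 ≤ σ ^ 2 * (ja * jb) / ε ^ 4 * ε ^ 6 := by
          have := T.hp
          gcongr
      _ = σ ^ 2 * (ja * jb) * ε ^ 2 := by
          field_simp
      _ ≤ σ ^ 2 * (ja * jb) * 1 := by gcongr
      _ = (σ ^ 2 * 1) * (ja * jb) := by ring
      _ ≤ (σ ^ 2 * Q) * ((ja + δ / ε * fi h σ ε a) * (jb + δ / ε * fi h σ ε b)) := by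
          have e3 : ja ≤ ja + δ / ε * fi h σ ε a := by
            have : 0 ≤ δ / ε * fi h σ ε a := by positivity
            linarith
          have e4 : jb ≤ jb + δ / ε * fi h σ ε b := by
            have : 0 ≤ δ / ε * fi h σ ε b := by positivity
            linarith
          have e5 := T.hQ1
          gcongr
  have h4 : 16 * (σ ^ 2 * Q) *
      ∫ V, (ja + δ / ε * Fi h σ ε a V) * (jb + δ / ε * Fi h σ ε b V) ∂(GP n) ≤
      16 * (σ ^ 2 * Q) * (8 * ((ja + δ / ε * fi h σ ε a) * (jb + δ / ε * fi h σ ε b))) := by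
    gcongr
  linarith

theorem Trw.jdl (T : Trw h J J' σ ε δ Q g p0 Ω) (x : n) : qf J' (dl x) ≤ g ∧ nsq (dl x) ≤ g := by
  have h1 := T.H.hJx x 1 (by simp)
  rw [one_smul] at h1
  rw [nsq_dl]
  exact ⟨h1, T.hg1⟩

/-- variances of matrix elements of products -/
theorem Trw.var3 (hP : T_POIN) (T : Trw h J J' σ ε δ Q g p0 Ω) {u : n → ℂ}
    (hu : ∀ x, ‖u x‖ = 1) (x : n) (c : n → ℂ) (j : ℝ) (hj : qf J' c ≤ j) (hn : nsq c ≤ j)
    (hj0 : 0 < j) :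
    var (fun V => star (dl x) ⬝ᵥ ((cj u (Rh h σ ε V) * (Rh h σ ε V)ᴴ) *ᵥ c)) ≤
      1028 * (σ ^ 2 * Q) * ((g + δ / ε * fi h σ ε (dl x)) * (j + δ / ε * fi h σ ε c)) /
        ε ^ 2 := by
  have hε := T.H.hε
  have hδ := T.H.hδ
  have hQ := T.H.hQ0
  have hσ := T.H.hσ
  have hg1 := T.hg1
  have hg0 : 0 < g := by linarith
  have nc := nsq_nonneg c
  have fx := T.fi0 (dl x)
  have fc := T.fi0 c
  obtain ⟨jx, nx⟩ := T.jdl x
  have rA := (RC.const (m := n) g).add ((RC.const (δ / ε)).mul (T.rcFi (dl x)))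
  have rB := (RC.const (m := n) j).add ((RC.const (δ / ε)).mul (T.rcFi c))
  have h1 := T.H.tv3 hP hu x c
    (G1 := fun V => 128 * (σ ^ 2 * Q) / ε ^ 2 *
      ((g + δ / ε * Fi h σ ε (dl x) V) * (j + δ / ε * Fi h σ ε c V)))
    ((RC.const _).mul (rA.mul rB))
    (fun V => by
      have := T.Fi0 (dl x) V
      have := T.Fi0 c V
      positivity) (fun V hV => by
      have hI := T.Fi0 (dl x) V
      have hC := T.Fi0 c V
      have e1 := (T.H.nsq_im V c).2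
      have e2 := (T.qf_b hV c j hj).2
      have e3 : Fi h σ ε (dl x) V = (Rh h σ ε V x x).im := Fi_dl x V
      rw [← e3]
      have e1' : nsq ((Rh h σ ε V)ᴴ *ᵥ c) ≤ Fi h σ ε c V / ε := e1
      obtain ⟨X, hX⟩ : ∃ X, X = Fi h σ ε (dl x) V := ⟨_, rfl⟩
      obtain ⟨Y, hY⟩ : ∃ Y, Y = Fi h σ ε c V := ⟨_, rfl⟩
      rw [← hX] at hI ⊢
      rw [← hY] at hC e1' e2 ⊢
      calc 2 * σ ^ 2 * Q * (4 * (g + δ / ε * X) * (8 * δ * nsq ((Rh h σ ε V)ᴴ *ᵥ c) / ε ^ 2) +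
          8 * δ * (X / ε) / ε ^ 2 * qf J ((Rh h σ ε V)ᴴ *ᵥ c)) ≤
          2 * σ ^ 2 * Q * (4 * (g + δ / ε * X) * (8 * δ * (Y / ε) / ε ^ 2) +
          8 * δ * (X / ε) / ε ^ 2 * (4 * (j + δ / ε * Y))) := by gcongr
        _ = 64 * (σ ^ 2 * Q) / ε ^ 2 * ((g + δ / ε * X) * (δ / ε * Y) +
            (δ / ε * X) * (j + δ / ε * Y)) := by
            field_simp
            ring
        _ ≤ 64 * (σ ^ 2 * Q) / ε ^ 2 * ((g + δ / ε * X) * (j + δ / ε * Y) +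
            (g + δ / ε * X) * (j + δ / ε * Y)) := by
            have e4 : δ / ε * Y ≤ j + δ / ε * Y := by linarith
            have e5 : δ / ε * X ≤ g + δ / ε * X := by linarith
            gcongr
        _ = _ := by ring)
  have h2 := T.prodF hP (dl x) c g j jx hj nx hn hg0 hj0
  rw [integral_const_mul] at h1
  refine h1.trans ?_
  have h3 : 4 * σ ^ 2 * nsq c / ε ^ 6 * p0 ≤
      4 * (σ ^ 2 * Q) * ((g + δ / ε * fi h σ ε (dl x)) * (j + δ / ε * fi h σ ε c)) / ε ^ 2 := by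
    have e1 : ε ≤ 1 := T.H.hεδ.trans T.hδ1
    have e2 : ε ^ 2 ≤ 1 := pow_le_one₀ hε.le e1
    have hp0 := T.H.hp0
    calc 4 * σ ^ 2 * nsq c / ε ^ 6 * p0 ≤ 4 * σ ^ 2 * j / ε ^ 6 * ε ^ 6 := by
          have := T.hp
          gcongr
      _ = 4 * (σ ^ 2 * 1) * (1 * j) / 1 := by
          field_simp
      _ ≤ 4 * (σ ^ 2 * Q) * ((g + δ / ε * fi h σ ε (dl x)) * (j + δ / ε * fi h σ ε c)) /
          ε ^ 2 := by
          have e3 : 1 ≤ g + δ / ε * fi h σ ε (dl x) := by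
            have : 0 ≤ δ / ε * fi h σ ε (dl x) := by positivity
            linarith
          have e4 : j ≤ j + δ / ε * fi h σ ε c := by
            have : 0 ≤ δ / ε * fi h σ ε c := by positivity
            linarith
          have e5 := T.hQ1
          gcongr
  calc _ ≤ 128 * (σ ^ 2 * Q) / ε ^ 2 *
        (8 * ((g + δ / ε * fi h σ ε (dl x)) * (j + δ / ε * fi h σ ε c))) +
        4 * (σ ^ 2 * Q) * ((g + δ / ε * fi h σ ε (dl x)) * (j + δ / ε * fi h σ ε c)) /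
          ε ^ 2 := by gcongr
    _ = _ := by ring

end trw

end Pool.Agent.T2h98.QD
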