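import Pool.Agent.T2h98.QD.TW
import Pool.Agent.T2h98.QD.Stm8

/-! The model on the torus with the direct embedding. -/

set_option autoImplicit false
set_option linter.unusedSectionVars false

open scoped BigOperators Matrix
open MeasureTheory ProbabilityTheory

namespace Pool.Agent.T2h98.QD

open Pool.Agent.W788.MFP.Four (T e NN adj K)
open Pool.Agent.W788.BK (nsq hs PP JJ hi Low cr nsq_nonneg)
open Pool.Agent.W240.BK (BC BM)

variable {d L : ℕ} [NeZero L]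

section par

variable {σ E δ ε t Q g p0 : ℝ} {Ω : Set (T d L → ℝ)}

theorem ParU.hδ (p : ParU d L σ E δ ε t Q g p0 Ω) : 0 < δ := p.hε.trans_le p.hεδ

theorem ParU.tru (hrqf : T_RQF) (p : ParU d L σ E δ ε t Q g p0 Ω) :
    Tru (h0 (d := d) (L := L) E) (J0 E δ) (J1 E δ) σ ε δ Q g p0 Ω := by
  have hN := Pool.Agent.W788.MFP.Four.NN_pos (d := d) (L := L)
  have hδ := p.hδ
  have hJ : ∀ k : T d L, 0 < JJ E δ k := fun k => lt_of_lt_of_le hδ (JJ_ge E δ hδ k)
  exact {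
    hh := by
      unfold h0 Matrix.IsHermitian
      rw [mo_star]
      congr 1
      funext k
      rw [Complex.conj_ofReal]
    hσ := p.hσ
    hε := p.hε
    hεδ := p.hεδ
    hQ0 := by linarith [p.hQ1]
    hg0 := by linarith [p.hg1]
    hp0 := p.hp0
    hJ0 := fun w => by
      unfold J0
      rw [KQ.qf_Mo]
      exact mul_nonneg (by positivity) (Finset.sum_nonneg fun k _ =>
        mul_nonneg (hJ k).le (by positivity))
    hQ := p.hQ
    hΩ := p.hΩ
    hP := p.hP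
    hR := fun V hV b => hrqf d L E δ ε t σ hδ p.hε p.ht p.hσ.le p.hσt V (p.hgood V hV) b
    hJ'0 := fun w => by
      unfold J1
      rw [KQ.qf_Mo]
      exact mul_nonneg (by positivity) (Finset.sum_nonneg fun k _ =>
        mul_nonneg (inv_nonneg.2 (hJ k).le) (by positivity))
    hJ' := fun w => by
      unfold J1
      rw [KQ.qf_Mo, nsq_fc, div_eq_mul_inv, mul_assoc]
      apply mul_le_mul_of_nonneg_left _ (by positivity)
      rw [Finset.sum_mul]
      refine Finset.sum_le_sum fun k _ => ?_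
      rw [mul_comm]
      exact mul_le_mul_of_nonneg_left (inv_anti₀ hδ (JJ_ge E δ hδ k)) (by positivity)
    hJx := fun x c hc => by
      unfold J1
      rw [KQ.qf_Mo, inv_mul_le_iff₀ hN, mul_comm]
      refine le_trans (Finset.sum_le_sum fun k _ => ?_) (p.hg E)
      have e1 : KQ.fc (c • dl x) k = c * e k x := by
        rw [← fc_dl x k]
        unfold KQ.fc
        rw [Finset.mul_sum]
        refine Finset.sum_congr rfl fun y _ => ?_
        rw [Pi.smul_apply, smul_eq_mul, mul_assoc]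
      rw [e1, norm_mul, hc, e_norm, one_mul, one_pow, mul_one]
      exact JJ_anti E p.hε p.hεδ k }

theorem ParU.trw (hrqf : T_RQF) (p : ParU d L σ E δ ε t Q g p0 Ω)
    (hs : 64 * σ ^ 2 * Q * (δ / ε) ^ 2 ≤ 1) :
    Trw (h0 (d := d) (L := L) E) (J0 E δ) (J1 E δ) σ ε δ Q g p0 Ω where
  H := p.tru hrqf
  hQ1 := p.hQ1
  hg1 := p.hg1
  hσ1 := p.hσ1
  hδ1 := p.hδ1
  hp := p.hp
  hs := hs

/-- the norms of multipliers -/
theorem ParU.mul_dl (p : ParU d L σ E δ ε t Q g p0 Ω) (β : T d L → ℂ) (c : ℝ)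
    (hβ : ∀ k, ‖β k‖ ≤ c) (x : T d L) :
    qf (J1 E δ) (Mo β *ᵥ dl x) ≤ c ^ 2 * g ∧ nsq (Mo β *ᵥ dl x) ≤ c ^ 2 * g := by
  have hN := Pool.Agent.W788.MFP.Four.NN_pos (d := d) (L := L)
  have hg1 := p.hg1
  have h2 : ∀ k, ‖β k‖ ^ 2 ≤ c ^ 2 := fun k => pow_le_pow_left₀ (norm_nonneg _) (hβ k) 2
  constructor
  · unfold J1
    rw [KQ.qf_Mo, inv_mul_le_iff₀ hN]
    calc ∑ k, (JJ E δ k)⁻¹ * ‖KQ.fc (Mo β *ᵥ dl x) k‖ ^ 2 ≤ ∑ k : T d L, c ^ 2 * (JJ E ε k)⁻¹ := by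
          refine Finset.sum_le_sum fun k _ => ?_
          rw [fc_mo, fc_dl, norm_mul, e_norm, mul_one, mul_comm]
          have h3 := JJ_anti E p.hε p.hεδ k
          have h4 : 0 < JJ E δ k := lt_of_lt_of_le p.hδ (JJ_ge E δ p.hδ k)
          exact mul_le_mul (h2 k) h3 (inv_nonneg.2 h4.le) (sq_nonneg c)
      _ = c ^ 2 * ∑ k : T d L, (JJ E ε k)⁻¹ := by rw [Finset.mul_sum]
      _ ≤ c ^ 2 * (g * NN d L) := mul_le_mul_of_nonneg_left (p.hg E) (sq_nonneg c)
      _ = _ := by ring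
  · have h3 := nsq_mo β (c ^ 2) h2 (dl x)
    rw [nsq_dl, mul_one] at h3
    nlinarith [sq_nonneg c]

end par

/-- the mean of the trace against a multiplier -/
noncomputable def rk (d L : ℕ) [NeZero L] (σ E ε : ℝ) (k : T d L) : ℂ :=
  ∫ V, (Mo (Pi.single k 1) * Rh (h0 (d := d) (L := L) E) σ ε V).trace ∂(GP (T d L))

/-- the error, mode by mode -/
noncomputable def ph (d L : ℕ) [NeZero L] (σ E ε E' Γ : ℝ) (k : T d L) : ℂ :=
  ((NN d L : ℝ) : ℂ)⁻¹ * (rk d L σ E ε k - (Yk E' Γ k)⁻¹)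

/-- the size of the error -/
noncomputable def es (d L : ℕ) [NeZero L] (σ E ε E' Γ : ℝ) : ℝ := ∑ k : T d L, ‖ph d L σ E ε E' Γ k‖

theorem es_nonneg (σ E ε E' Γ : ℝ) : 0 ≤ es d L σ E ε E' Γ :=
  Finset.sum_nonneg fun _ _ => norm_nonneg _

theorem mo_single (m : T d L → ℂ) : Mo m = ∑ k, m k • Mo (Pi.single k (1 : ℂ)) := by
  ext x y
  rw [Matrix.sum_apply, mo_apply, Finset.mul_sum]
  refine Finset.sum_congr rfl fun k _ => ?_
  rw [Matrix.smul_apply, smul_eq_mul, mo_apply, Finset.sum_eq_single k]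
  · rw [Pi.single_eq_same]
    ring
  · intro l _ hl
    rw [Pi.single_eq_of_ne hl, zero_mul]
  · intro h
    exact absurd (Finset.mem_univ k) h

theorem h0_herm (E : ℝ) : (h0 (d := d) (L := L) E).IsHermitian := by
  unfold h0 Matrix.IsHermitian
  rw [mo_star]
  congr 1
  funext k
  rw [Complex.conj_ofReal]

theorem tr_mo (m : T d L → ℂ) (σ E : ℝ) {ε : ℝ} (hε : 0 < ε) :
    ∫ V, (Mo m * Rh (h0 (d := d) (L := L) E) σ ε V).trace ∂(GP (T d L)) =
      ∑ k, m k * rk d L σ E ε k := by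
  have S := sys_rh (h0_herm (d := d) (L := L) E) σ ε hε
  have bm : BM fun V : T d L → ℝ => Rh (h0 (d := d) (L := L) E) σ ε V := bm_gg S
  have h1 : ∀ V : T d L → ℝ, (Mo m * Rh (h0 (d := d) (L := L) E) σ ε V).trace =
      ∑ k, m k * (Mo (Pi.single k 1) * Rh (h0 (d := d) (L := L) E) σ ε V).trace := by
    intro V
    rw [mo_single m, Finset.sum_mul, Matrix.trace_sum]
    refine Finset.sum_congr rfl fun k _ => ?_
    rw [smul_mul_assoc, Matrix.trace_smul, smul_eq_mul]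
  simp only [h1]
  have h2 : ∀ k : T d L, Integrable (fun V : T d L → ℝ =>
      (Mo (Pi.single k 1) * Rh (h0 (d := d) (L := L) E) σ ε V).trace) (GP (T d L)) := fun k =>
    ((BM.const _).mul bm).trace.integrable _
  rw [integral_finsetSum _ fun k _ => (h2 k).const_mul _]
  refine Finset.sum_congr rfl fun k _ => ?_
  rw [integral_const_mul]
  rfl

/-- the error, linear in the multiplier -/
theorem tr_ph (m : T d L → ℂ) (σ E E' Γ : ℝ) {ε : ℝ} (hε : 0 < ε) :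
    ∫ V, (Mo m * Rh (h0 (d := d) (L := L) E) σ ε V).trace ∂(GP (T d L)) -
      ∑ k, m k * (Yk E' Γ k)⁻¹ = ((NN d L : ℝ) : ℂ) * ∑ k, m k * ph d L σ E ε E' Γ k := by
  rw [tr_mo m σ E hε, ← Finset.sum_sub_distrib, Finset.mul_sum]
  refine Finset.sum_congr rfl fun k _ => ?_
  unfold ph
  have hN := KQ.N_ne (d := d) (L := L)
  field_simp

theorem ph_le (m : T d L → ℂ) (c : ℝ) (hm : ∀ k, ‖m k‖ ≤ c) (σ E ε E' Γ : ℝ) :
    ‖∑ k, m k * ph d L σ E ε E' Γ k‖ ≤ c * es d L σ E ε E' Γ := by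
  unfold es
  rw [Finset.mul_sum]
  refine (norm_sum_le _ _).trans (Finset.sum_le_sum fun k _ => ?_)
  rw [norm_mul]
  exact mul_le_mul_of_nonneg_right (hm k) (norm_nonneg _)

/-- the optimal multiplier -/
theorem ph_opt (σ E ε E' Γ : ℝ) : ∃ m : T d L → ℂ, (∀ k, ‖m k‖ ≤ 1) ∧
    ∑ k, m k * ph d L σ E ε E' Γ k = ((es d L σ E ε E' Γ : ℝ) : ℂ) := by
  refine ⟨fun k => (starRingEnd ℂ) (ph d L σ E ε E' Γ k) / (‖ph d L σ E ε E' Γ k‖ : ℂ),
    fun k => ?_, ?_⟩
  · simp only [norm_div, RCLike.norm_conj, Complex.norm_real, norm_norm]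
    exact div_self_le_one _
  · unfold es
    push_cast
    refine Finset.sum_congr rfl fun k _ => ?_
    by_cases h : ph d L σ E ε E' Γ k = 0
    · rw [h]
      simp
    · have h1 : (‖ph d L σ E ε E' Γ k‖ : ℂ) ≠ 0 := by
        simpa using h
      rw [div_mul_eq_mul_div, div_eq_iff h1, mul_comm, Complex.mul_conj']
      ring

/-- the mean of the quadratic form at a multiplier -/
theorem fi_mo (hinv : T_INV) (β : T d L → ℂ) (σ E : ℝ) {ε : ℝ} (hε : 0 < ε) (x : T d L) :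
    fi (h0 (d := d) (L := L) E) σ ε (Mo β *ᵥ dl x) = ((NN d L)⁻¹ : ℝ) *
      (∫ V, (Mo (fun k => ((‖β k‖ ^ 2 : ℝ) : ℂ)) *
        Rh (h0 (d := d) (L := L) E) σ ε V).trace ∂(GP (T d L))).im := by
  have hN := Pool.Agent.W788.MFP.Four.NN_pos (d := d) (L := L)
  have S := sys_rh (h0_herm (d := d) (L := L) E) σ ε hε
  have bm : BM fun V : T d L → ℝ => Rh (h0 (d := d) (L := L) E) σ ε V := bm_gg S
  obtain ⟨A, hA⟩ : ∃ A : (T d L → ℝ) → Matrix (T d L) (T d L) ℂ,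
      A = fun V => (Mo β)ᴴ * Rh (h0 (d := d) (L := L) E) σ ε V * Mo β := ⟨_, rfl⟩
  have bA : BM A := by
    rw [hA]
    exact ((BM.const _).mul bm).mul (BM.const _)
  have h1 : ∀ (V : T d L → ℝ) (y : T d L), star (Mo β *ᵥ dl y) ⬝ᵥ
      (Rh (h0 (d := d) (L := L) E) σ ε V *ᵥ (Mo β *ᵥ dl y)) = A V y y := by
    intro V y
    rw [hA]
    show _ = ((Mo β)ᴴ * Rh (h0 (d := d) (L := L) E) σ ε V * Mo β) y y
    rw [← form_dl ((Mo β)ᴴ * _ * Mo β) y y, Matrix.mulVec_mulVec, mul_assoc,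
      ← Matrix.mulVec_mulVec (dl y) (Mo β)ᴴ, Matrix.star_mulVec, ← Matrix.dotProduct_mulVec]
  -- translation invariance
  have hMo : ∀ (m : T d L → ℂ) (a x y : T d L), Mo m (x + a) (y + a) = Mo m x y := by
    intro m a x y
    simp only [Mo, Matrix.of_apply, add_sub_add_right_eq_sub]
  have h2 : ∀ (a : T d L) (V : T d L → ℝ), A (fun z => V (z + a)) 0 0 = A V a a := by
    intro a V
    rw [hA]
    simp only [mo_star, Matrix.mul_apply]
    symm
    rw [← Equiv.sum_comp (Equiv.addRight a)]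
    refine Finset.sum_congr rfl fun y _ => ?_
    simp only [Equiv.coe_addRight]
    have e1 : Mo β y 0 = Mo β (y + a) a := by
      rw [← hMo β a y 0, zero_add]
    rw [e1]
    congr 1
    rw [← Equiv.sum_comp (Equiv.addRight a)]
    refine Finset.sum_congr rfl fun z _ => ?_
    simp only [Equiv.coe_addRight]
    rw [rh_inv a]
    have e2 := hMo (fun k => (starRingEnd ℂ) (β k)) a 0 z
    rw [zero_add] at e2
    rw [e2]
  have h3 : ∀ y : T d L, ∫ V, A V y y ∂(GP (T d L)) = ∫ V, A V 0 0 ∂(GP (T d L)) := by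
    intro y
    obtain ⟨g1, -⟩ := hinv d L y
    have h4 := g1 fun V => A V 0 0
    simp only [h2 y] at h4
    exact h4
  have h4 : ∫ V, (A V).trace ∂(GP (T d L)) = ((NN d L : ℝ) : ℂ) * ∫ V, A V x x ∂(GP (T d L)) := by
    have e1 : ∀ V, (A V).trace = ∑ y, A V y y := fun V => rfl
    simp only [e1]
    rw [integral_finsetSum _ fun y _ => (bA y y).integrable _]
    have e2 : ∀ y : T d L, ∫ V, A V y y ∂(GP (T d L)) = ∫ V, A V x x ∂(GP (T d L)) :=
      fun y => (h3 y).trans (h3 x).symm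
    simp only [e2, Finset.sum_const, Finset.card_univ, nsmul_eq_mul]
    rw [← card_NN]
    push_cast
    rfl
  have h5 : ∀ V, (A V).trace = (Mo (fun k => ((‖β k‖ ^ 2 : ℝ) : ℂ)) *
      Rh (h0 (d := d) (L := L) E) σ ε V).trace := by
    intro V
    rw [hA]
    simp only
    rw [Matrix.trace_mul_comm, ← mul_assoc, mo_star, mo_mul]
    congr 3
    funext k
    rw [Complex.mul_conj']
    push_cast
    rfl
  unfold fi Fi
  simp only [h1]
  have h6 : ∫ V, (A V x x).im ∂(GP (T d L)) = (∫ V, A V x x ∂(GP (T d L))).im :=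
    integral_im ((bA x x).integrable _)
  rw [h6]
  simp only [h5] at h4
  rw [h4, Complex.im_ofReal_mul, ← mul_assoc, inv_mul_cancel₀ hN.ne', one_mul]

/-- bound for the mean of the quadratic form -/
theorem fi_le (hinv : T_INV) (β : T d L → ℂ) (c : ℝ) (hβ : ∀ k, ‖β k‖ ≤ c) (σ E E' : ℝ)
    {ε Γ : ℝ} (hε : 0 < ε) (hΓ : 0 < Γ) (x : T d L) :
    fi (h0 (d := d) (L := L) E) σ ε (Mo β *ᵥ dl x) ≤
      c ^ 2 * (Bf d L E' Γ + es d L σ E ε E' Γ) := by
  have hN := Pool.Agent.W788.MFP.Four.NN_pos (d := d) (L := L)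
  have h2 : ∀ k, ‖β k‖ ^ 2 ≤ c ^ 2 := fun k => pow_le_pow_left₀ (norm_nonneg _) (hβ k) 2
  obtain ⟨m, hm⟩ : ∃ m : T d L → ℂ, m = fun k => ((‖β k‖ ^ 2 : ℝ) : ℂ) := ⟨_, rfl⟩
  have hmc : ∀ k, ‖m k‖ ≤ c ^ 2 := by
    intro k
    rw [hm]
    simp only
    rw [Complex.norm_real, Real.norm_of_nonneg (by positivity)]
    exact h2 k
  have h3 := tr_ph m σ E E' Γ hε
  have h4 := ph_le m (c ^ 2) hmc σ E ε E' Γ
  rw [fi_mo hinv β σ E hε x, ← hm]
  have h5 : ∫ V, (Mo m * Rh (h0 (d := d) (L := L) E) σ ε V).trace ∂(GP (T d L)) =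
      ∑ k, m k * (Yk E' Γ k)⁻¹ + ((NN d L : ℝ) : ℂ) * ∑ k, m k * ph d L σ E ε E' Γ k := by
    rw [← h3]
    ring
  rw [h5, Complex.add_im, Complex.im_ofReal_mul, mul_add, ← mul_assoc, inv_mul_cancel₀ hN.ne',
    one_mul, mul_add]
  refine add_le_add ?_ ((le_abs_self _).trans ((Complex.abs_im_le_norm _).trans h4))
  rw [Complex.im_sum]
  unfold Bf
  rw [mul_left_comm]
  apply mul_le_mul_of_nonneg_left _ (by positivity)
  rw [Finset.mul_sum]
  refine Finset.sum_le_sum fun k _ => ?_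
  have e1 : (m k * (Yk E' Γ k)⁻¹).im = ‖β k‖ ^ 2 * (Γ / ((adj k - E') ^ 2 + Γ ^ 2)) := by
    rw [hm]
    simp only
    rw [Complex.im_ofReal_mul, Complex.inv_im, Yk_im, neg_neg, Complex.normSq_eq_norm_sq,
      Yk_nsq]
  rw [e1]
  exact mul_le_mul_of_nonneg_right (h2 k) (by positivity)

end Pool.Agent.T2h98.QD
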