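import Pool.Agent.T2h98.QD.TX

/-! The self-energy and the current on the torus. -/

set_option autoImplicit false
set_option linter.unusedSectionVars false

open scoped BigOperators Matrix
open MeasureTheory ProbabilityTheory

namespace Pool.Agent.T2h98.QD

open Pool.Agent.W788.MFP.Four (T e NN adj K)
open Pool.Agent.W788.BK (nsq hs PP JJ hi Low cr nsq_nonneg cs_norm)
open Pool.Agent.W240.BK (BC BM)

variable {d L : ℕ} [NeZero L]

/-- the size of the fluctuations -/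
noncomputable def ups (σ ε δ Q g im W Γ : ℝ) : ℝ :=
  σ ^ 2 * Q * (σ ^ 2 / Γ) * Real.sqrt ((g + δ / ε * im) ^ 3 * (g + δ / ε * W))

section par

variable {σ E δ ε t Q g p0 : ℝ} {Ω : Set (T d L → ℝ)}

theorem fi_dl (hinv : T_INV) (σ E : ℝ) {ε : ℝ} (hε : 0 < ε) (x : T d L) :
    fi (h0 (d := d) (L := L) E) σ ε (dl x) = (mT d L σ E ε).im := by
  have S := sys_rh (h0_herm (d := d) (L := L) E) σ ε hε
  have bm : BM fun V : T d L → ℝ => Rh (h0 (d := d) (L := L) E) σ ε V := bm_gg S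
  unfold fi
  simp only [Fi_dl]
  rw [← mT_eq hinv σ E ε x]
  exact integral_im ((bm x x).integrable _)

theorem ParU.im0 (hrqf : T_RQF) (p : ParU d L σ E δ ε t Q g p0 Ω) :
    0 ≤ (mT d L σ E ε).im := by
  have H := p.tru hrqf
  have h1 := H.int_im (mb := mT d L σ E ε) 0 rfl
  rw [← h1]
  exact integral_nonneg fun V => H.im0 V 0

/-- the homogeneous model -/
theorem ParU.trg (hP : T_POIN) (hrqf : T_RQF) (hinv : T_INV)
    (p : ParU d L σ E δ ε t Q g p0 Ω) (hs : 64 * σ ^ 2 * Q * (δ / ε) ^ 2 ≤ 1)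
    (E' Γ : ℝ) (hE' : E' = E + σ ^ 2 * (mT d L σ E ε).re)
    (hΓ : Γ = ε + σ ^ 2 * (mT d L σ E ε).im) :
    Trg (h0 (d := d) (L := L) E) σ ε (mT d L σ E ε) (Mo fun k => (Yk E' Γ k)⁻¹)
      (129 * (σ ^ 2 * Q) * ((g + δ / ε * (mT d L σ E ε).im) *
        (g + δ / ε * (mT d L σ E ε).im))) := by
  have hm := p.im0 hrqf
  have hε := p.hε
  have hΓε : ε ≤ Γ := by
    rw [hΓ]
    have : 0 ≤ σ ^ 2 * (mT d L σ E ε).im := by positivity
    linarith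
  have hΓ0 : 0 < Γ := lt_of_lt_of_le hε hΓε
  exact {
    hh := h0_herm E
    hε := hε
    hm := fun x => mT_eq hinv σ E ε x
    hG0 := by
      have h1 : h0 (d := d) (L := L) E - ((ε : ℂ) * Complex.I) • (1 : Matrix (T d L) (T d L) ℂ) -
          (((σ ^ 2 : ℝ) : ℂ) * mT d L σ E ε) • (1 : Matrix (T d L) (T d L) ℂ) =
          Mo fun k => Yk E' Γ k := by
        unfold h0
        rw [← mo_one, mo_smul, mo_smul, mo_sub, mo_sub]
        congr 1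
        funext k
        unfold Yk
        rw [hE', hΓ]
        have h2 : ((mT d L σ E ε).re : ℂ) + ((mT d L σ E ε).im : ℂ) * Complex.I =
          mT d L σ E ε := Complex.re_add_im _
        push_cast
        linear_combination ((σ : ℂ) ^ 2) * h2
      rw [h1, mo_mul, ← mo_one]
      congr 1
      funext k
      exact inv_mul_cancel₀ (Yk_ne E' hΓ0 k)
    hv := fun x => by
      have Tw := p.trw hrqf hs
      have hg1 := p.hg1
      have h1 := Tw.var1 hP (dl x) (dl x) g g (Tw.jdl x).1 (Tw.jdl x).1 (Tw.jdl x).2 (Tw.jdl x).2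
        (by linarith) (by linarith)
      simp only [form_dl] at h1
      rwa [fi_dl hinv σ E hε x] at h1 }

/-- variances of `⟨δx, R b⟩` for multipliers -/
theorem ParU.var_b (hP : T_POIN) (hrqf : T_RQF) (hinv : T_INV)
    (p : ParU d L σ E δ ε t Q g p0 Ω) (hs : 64 * σ ^ 2 * Q * (δ / ε) ^ 2 ≤ 1)
    (E' Γ : ℝ) (hΓ0 : 0 < Γ) (β : T d L → ℂ) (c : ℝ) (hc : 0 < c) (hβ : ∀ k, ‖β k‖ ≤ c)
    (x : T d L) :
    var (fun V => (Rh (h0 (d := d) (L := L) E) σ ε V * Mo β) x x) ≤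
      129 * (σ ^ 2 * Q) * ((g + δ / ε * (mT d L σ E ε).im) *
        (c ^ 2 * (g + δ / ε * (Bf d L E' Γ + es d L σ E ε E' Γ)))) ∧
    var (fun V => ((Rh (h0 (d := d) (L := L) E) σ ε V)ᴴ * Mo β) x x) ≤
      129 * (σ ^ 2 * Q) * ((g + δ / ε * (mT d L σ E ε).im) *
        (c ^ 2 * (g + δ / ε * (Bf d L E' Γ + es d L σ E ε E' Γ)))) ∧
    ∀ u : T d L → ℂ, (∀ x, ‖u x‖ = 1) →
      var (fun V => (cj u (Rh (h0 (d := d) (L := L) E) σ ε V) *
        ((Rh (h0 (d := d) (L := L) E) σ ε V)ᴴ * Mo β)) x x) ≤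
      1028 * (σ ^ 2 * Q) * ((g + δ / ε * (mT d L σ E ε).im) *
        (c ^ 2 * (g + δ / ε * (Bf d L E' Γ + es d L σ E ε E' Γ)))) / ε ^ 2 := by
  have Tw := p.trw hrqf hs
  have hε := p.hε
  have hδ := p.hδ
  have hg1 := p.hg1
  have hg0 : 0 < g := by linarith
  have hQ1 := p.hQ1
  have hm := p.im0 hrqf
  obtain ⟨b1, b2⟩ := p.mul_dl β c hβ x
  have hb0 : 0 < c ^ 2 * g := by positivity
  have hf := fi_le hinv β c hβ σ E E' hε hΓ0 x
  have hf2 : c ^ 2 * g + δ / ε * fi (h0 (d := d) (L := L) E) σ ε (Mo β *ᵥ dl x) ≤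
      c ^ 2 * (g + δ / ε * (Bf d L E' Γ + es d L σ E ε E' Γ)) := by
    calc _ ≤ c ^ 2 * g + δ / ε * (c ^ 2 * (Bf d L E' Γ + es d L σ E ε E' Γ)) := by gcongr
      _ = _ := by ring
  refine ⟨?_, ?_, fun u hu => ?_⟩
  · have h1 := Tw.var1 hP (dl x) (Mo β *ᵥ dl x) g (c ^ 2 * g) (Tw.jdl x).1 b1 (Tw.jdl x).2 b2
      hg0 hb0
    simp only [Matrix.mulVec_mulVec, form_dl] at h1
    rw [fi_dl hinv σ E hε x] at h1
    refine h1.trans ?_
    gcongr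
  · have h1 := Tw.var1 hP (Mo β *ᵥ dl x) (dl x) (c ^ 2 * g) g b1 (Tw.jdl x).1 b2 (Tw.jdl x).2
      hb0 hg0
    rw [fi_dl hinv σ E hε x] at h1
    have h2 : ∀ V : T d L → ℝ, ((Rh (h0 (d := d) (L := L) E) σ ε V)ᴴ * Mo β) x x =
        star (star (Mo β *ᵥ dl x) ⬝ᵥ (Rh (h0 (d := d) (L := L) E) σ ε V *ᵥ dl x)) := by
      intro V
      rw [← form_dl ((Rh (h0 (d := d) (L := L) E) σ ε V)ᴴ * Mo β) x x, ← Matrix.mulVec_mulVec,
        Pool.Agent.W788.BK.adjoint, Matrix.conjTranspose_conjTranspose,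
        ← Matrix.star_dotProduct_star, star_star]
    simp only [h2]
    rw [var_star]
    refine h1.trans ?_
    rw [mul_comm (c ^ 2 * g + _)]
    gcongr
  · have h1 := Tw.var3 hP hu x (Mo β *ᵥ dl x) (c ^ 2 * g) b1 b2 hb0
    rw [fi_dl hinv σ E hε x] at h1
    have h2 : ∀ V : T d L → ℝ, (cj u (Rh (h0 (d := d) (L := L) E) σ ε V) *
        ((Rh (h0 (d := d) (L := L) E) σ ε V)ᴴ * Mo β)) x x = star (dl x) ⬝ᵥ
        ((cj u (Rh (h0 (d := d) (L := L) E) σ ε V) * (Rh (h0 E) σ ε V)ᴴ) *ᵥ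
          (Mo β *ᵥ dl x)) := by
      intro V
      rw [Matrix.mulVec_mulVec, form_dl, mul_assoc]
    simp only [h2]
    refine h1.trans ?_
    gcongr

end par

theorem sqrt_mul_le {v w K : ℝ} (hv : 0 ≤ v) (hK : 0 ≤ K) (h : v * w ≤ K ^ 2) :
    Real.sqrt v * Real.sqrt w ≤ K := by
  rw [← Real.sqrt_mul hv]
  exact Real.sqrt_le_iff.2 ⟨hK, h⟩

section par

variable {σ E δ ε t Q g p0 : ℝ} {Ω : Set (T d L → ℝ)}

/-- the self-energy -/
theorem ParU.es_le (hP : T_POIN) (hI : T_IBP) (hrqf : T_RQF) (hinv : T_INV)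
    (p : ParU d L σ E δ ε t Q g p0 Ω) (hs : 64 * σ ^ 2 * Q * (δ / ε) ^ 2 ≤ 1)
    (E' Γ : ℝ) (hE' : E' = E + σ ^ 2 * (mT d L σ E ε).re)
    (hΓ : Γ = ε + σ ^ 2 * (mT d L σ E ε).im) :
    es d L σ E ε E' Γ ≤ 129 * ups σ ε δ Q g (mT d L σ E ε).im
      (Bf d L E' Γ + es d L σ E ε E' Γ) Γ := by
  have hN := Pool.Agent.W788.MFP.Four.NN_pos (d := d) (L := L)
  have hm := p.im0 hrqf
  have hε := p.hε
  have hδ := p.hδ
  have hg1 := p.hg1
  have hg0 : 0 < g := by linarith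
  have hQ1 := p.hQ1
  have hΓε : ε ≤ Γ := by
    rw [hΓ]
    have : 0 ≤ σ ^ 2 * (mT d L σ E ε).im := by positivity
    linarith
  have hΓ0 : 0 < Γ := lt_of_lt_of_le hε hΓε
  have H := p.trg hP hrqf hinv hs E' Γ hE' hΓ
  obtain ⟨m, hm1, hm2⟩ := ph_opt (d := d) (L := L) σ E ε E' Γ
  obtain ⟨β, hβ⟩ : ∃ β : T d L → ℂ, β = fun k => m k * (Yk E' Γ k)⁻¹ := ⟨_, rfl⟩
  have hYi : ∀ k : T d L, ‖(Yk E' Γ k)⁻¹‖ ≤ Γ⁻¹ := by
    intro k
    rw [norm_inv, Yk_norm]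
    exact inv_anti₀ hΓ0 (JJ_ge E' Γ hΓ0 k)
  have hβc : ∀ k, ‖β k‖ ≤ Γ⁻¹ := by
    intro k
    rw [hβ]
    simp only
    rw [norm_mul]
    calc ‖m k‖ * ‖(Yk E' Γ k)⁻¹‖ ≤ 1 * Γ⁻¹ :=
          mul_le_mul (hm1 k) (hYi k) (norm_nonneg _) (by norm_num)
      _ = _ := one_mul _
  obtain ⟨W, hW⟩ : ∃ W, W = Bf d L E' Γ + es d L σ E ε E' Γ := ⟨_, rfl⟩
  have hW0 : 0 ≤ W := by
    rw [hW]
    have h1 := es_nonneg (d := d) (L := L) σ E ε E' Γ
    have h2 : 0 ≤ Bf d L E' Γ := by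
      unfold Bf
      exact mul_nonneg (by positivity) (Finset.sum_nonneg fun k _ => by positivity)
    linarith
  obtain ⟨im, him⟩ : ∃ im, im = (mT d L σ E ε).im := ⟨_, rfl⟩
  rw [← him] at hm
  have hw : ∀ x, var (fun V => (Rh (h0 (d := d) (L := L) E) σ ε V *
      (Mo m * Mo fun k => (Yk E' Γ k)⁻¹) : Matrix (T d L) (T d L) ℂ) x x) ≤
      129 * (σ ^ 2 * Q) * ((g + δ / ε * im) * (Γ⁻¹ ^ 2 * (g + δ / ε * W))) := by
    intro x
    have h1 := (p.var_b hP hrqf hinv hs E' Γ hΓ0 β Γ⁻¹ (by positivity) hβc x).1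
    rw [← him, ← hW, hβ, ← mo_mul] at h1
    exact h1
  have h1 := H.mean hI (Mo m) _ hw
  rw [mo_mul, mo_trace, tr_ph m σ E E' Γ hε, hm2, card_NN, norm_mul, Complex.norm_real,
    Complex.norm_real, Real.norm_of_nonneg hN.le, Real.norm_of_nonneg (es_nonneg _ _ _ _ _),
    ← him] at h1
  have h2 := le_of_mul_le_mul_left h1 hN
  refine h2.trans ?_
  rw [← him, ← hW]
  unfold ups
  have h3 : Real.sqrt (129 * (σ ^ 2 * Q) * ((g + δ / ε * im) * (g + δ / ε * im))) *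
      Real.sqrt (129 * (σ ^ 2 * Q) * ((g + δ / ε * im) * (Γ⁻¹ ^ 2 * (g + δ / ε * W)))) ≤
      129 * (σ ^ 2 * Q) * Γ⁻¹ * Real.sqrt ((g + δ / ε * im) ^ 3 * (g + δ / ε * W)) := by
    apply sqrt_mul_le (by positivity) (by positivity)
    rw [mul_pow, Real.sq_sqrt (by positivity)]
    apply le_of_eq
    ring
  calc σ ^ 2 * (Real.sqrt (129 * (σ ^ 2 * Q) * ((g + δ / ε * im) * (g + δ / ε * im))) *
      Real.sqrt (129 * (σ ^ 2 * Q) * ((g + δ / ε * im) * (Γ⁻¹ ^ 2 * (g + δ / ε * W))))) ≤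
      σ ^ 2 * (129 * (σ ^ 2 * Q) * Γ⁻¹ *
        Real.sqrt ((g + δ / ε * im) ^ 3 * (g + δ / ε * W))) := by gcongr
    _ = _ := by
      field_simp

/-- bound for the ladder -/
theorem ParU.sr_bd (hrqf : T_RQF) (p : ParU d L σ E δ ε t Q g p0 Ω) (κ : T d L) :
    ‖Sr d L σ E ε κ‖ ≤ (mT d L σ E ε).im / ε := by
  have H := p.tru hrqf
  have hε := p.hε
  have hu : ∀ x, ‖e κ x‖ = 1 := fun x => e_norm κ x
  have hK : BM fun V : T d L → ℝ => cj (e κ) (Rh (h0 (d := d) (L := L) E) σ ε V) *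
      (Rh (h0 (d := d) (L := L) E) σ ε V)ᴴ :=
    ((MD.gg H.S).cj (e κ)).bm.mul (MD.gg H.S).star'.bm
  have hpt : ∀ V : T d L → ℝ, ‖(cj (e κ) (Rh (h0 (d := d) (L := L) E) σ ε V) *
      (Rh (h0 (d := d) (L := L) E) σ ε V)ᴴ) 0 0‖ ≤
      (Rh (h0 (d := d) (L := L) E) σ ε V 0 0).im / ε := by
    intro V
    have e1 : (cj (e κ) (Rh (h0 (d := d) (L := L) E) σ ε V) *
        (Rh (h0 (d := d) (L := L) E) σ ε V)ᴴ) 0 0 =
        star ((cj (e κ) (Rh (h0 (d := d) (L := L) E) σ ε V))ᴴ *ᵥ dl 0) ⬝ᵥ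
          ((Rh (h0 (d := d) (L := L) E) σ ε V)ᴴ *ᵥ dl 0) := by
      rw [← Pool.Agent.W788.BK.adjoint, Matrix.mulVec_mulVec, form_dl]
    rw [e1]
    refine (cs_norm _ _).trans ?_
    rw [← cj_star, nsq_cj_dl hu, Real.mul_self_sqrt (nsq_nonneg _)]
    have := (H.nsq_im V (dl 0)).2
    rwa [form_dl] at this
  unfold Sr
  calc ‖∫ V, (cj (e κ) (Rh (h0 (d := d) (L := L) E) σ ε V) *
      (Rh (h0 (d := d) (L := L) E) σ ε V)ᴴ) 0 0 ∂(GP (T d L))‖ ≤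
      ∫ V, ‖(cj (e κ) (Rh (h0 (d := d) (L := L) E) σ ε V) *
        (Rh (h0 (d := d) (L := L) E) σ ε V)ᴴ) 0 0‖ ∂(GP (T d L)) :=
        norm_integral_le_integral_norm _
    _ ≤ ∫ V, (Rh (h0 (d := d) (L := L) E) σ ε V 0 0).im / ε ∂(GP (T d L)) :=
        integral_mono (RC.norm (hK 0 0)).integrable ((H.rc_im 0).integrable.div_const _) hpt
    _ = _ := by rw [integral_div, H.int_im 0 rfl]; rfl

end par

end Pool.Agent.T2h98.QD
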