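import Pool.Agent.T2h98.QD.TX2

/-! The current on the torus. -/

set_option autoImplicit false
set_option linter.unusedSectionVars false

open scoped BigOperators Matrix
open MeasureTheory ProbabilityTheory

namespace Pool.Agent.T2h98.QD

open Pool.Agent.W788.MFP.Four (T e NN adj K)
open Pool.Agent.W788.BK (nsq hs PP JJ hi Low cr nsq_nonneg)
open Pool.Agent.W240.BK (BC BM)

variable {d L : ℕ} [NeZero L]

/-- the trace of the current -/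
theorem cur_trace (E' : ℝ) {Γ : ℝ} (hΓ : 0 < Γ) (κ : T d L) :
    ∑ k : T d L, (starRingEnd ℂ) (Yk E' Γ k)⁻¹ * (((adj k - adj (k + κ) : ℝ) : ℂ) *
      (Yk E' Γ (k + κ))⁻¹) =
      ((NN d L : ℝ) : ℂ) * (Complex.I * ((Γ * Lf d L E' Γ κ : ℝ) : ℂ)) := by
  have hN := KQ.N_ne (d := d) (L := L)
  have hY : ∀ k : T d L, Yk E' Γ k ≠ 0 := Yk_ne E' hΓ
  have h1 : ∀ k : T d L, (starRingEnd ℂ) (Yk E' Γ k)⁻¹ * (((adj k - adj (k + κ) : ℝ) : ℂ) *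
      (Yk E' Γ (k + κ))⁻¹) = (Yk E' Γ (k + κ))⁻¹ - (starRingEnd ℂ) (Yk E' Γ k)⁻¹ -
      2 * Complex.I * (Γ : ℂ) *
        ((starRingEnd ℂ) (Yk E' Γ k)⁻¹ * (Yk E' Γ (k + κ))⁻¹) := by
    intro k
    have hc : (starRingEnd ℂ) (Yk E' Γ k) ≠ 0 := by
      rw [Ne, map_eq_zero]
      exact hY k
    have e1 : ((adj k - adj (k + κ) : ℝ) : ℂ) = (starRingEnd ℂ) (Yk E' Γ k) -
        Yk E' Γ (k + κ) - 2 * Complex.I * (Γ : ℂ) := by
      unfold Yk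
      simp only [map_sub, map_mul, Complex.conj_ofReal, Complex.conj_I]
      push_cast
      ring
    rw [e1, map_inv₀]
    have := hY (k + κ)
    field_simp
  rw [Finset.sum_congr rfl fun k _ => h1 k, Finset.sum_sub_distrib, Finset.sum_sub_distrib,
    ← Finset.mul_sum]
  have h2 : ∑ k : T d L, (Yk E' Γ (k + κ))⁻¹ = ∑ k : T d L, (Yk E' Γ k)⁻¹ :=
    Equiv.sum_comp (Equiv.addRight κ) (fun k : T d L => (Yk E' Γ k)⁻¹)
  have h3 : ∑ k : T d L, (Yk E' Γ k)⁻¹ - ∑ k : T d L, (starRingEnd ℂ) (Yk E' Γ k)⁻¹ =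
      ((NN d L : ℝ) : ℂ) * (2 * Complex.I * ((Bf d L E' Γ : ℝ) : ℂ)) := by
    rw [Bf_im, ← map_sum, Complex.sub_conj, ← Complex.ofReal_inv, Complex.im_ofReal_mul]
    push_cast
    have : ((NN d L : ℝ) : ℂ) * ((NN d L : ℝ) : ℂ)⁻¹ = 1 := mul_inv_cancel₀ hN
    linear_combination (-(2 * ((∑ k : T d L, (Yk E' Γ k)⁻¹).im : ℂ) * Complex.I)) * this
  have h4 : ∑ k : T d L, (starRingEnd ℂ) (Yk E' Γ k)⁻¹ * (Yk E' Γ (k + κ))⁻¹ =
      ((NN d L : ℝ) : ℂ) * ((Bf d L E' Γ / Γ - Lf d L E' Γ κ / 2 : ℝ) : ℂ) := by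
    rw [← theta_eq E' hΓ κ, ← mul_assoc, mul_inv_cancel₀ hN, one_mul]
  rw [h2, h3, h4]
  have hΓC : (Γ : ℂ) ≠ 0 := by exact_mod_cast hΓ.ne'
  push_cast
  field_simp
  ring

section par

variable {σ E δ ε t Q g p0 : ℝ} {Ω : Set (T d L → ℝ)}

/-- the current on the torus -/
theorem ParU.cur (hP : T_POIN) (hI : T_IBP) (hrqf : T_RQF) (hinv : T_INV)
    (p : ParU d L σ E δ ε t Q g p0 Ω) (hs : 64 * σ ^ 2 * Q * (δ / ε) ^ 2 ≤ 1)
    (E' Γ : ℝ) (hE' : E' = E + σ ^ 2 * (mT d L σ E ε).re)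
    (hΓ : Γ = ε + σ ^ 2 * (mT d L σ E ε).im) (κ : T d L) (μ : ℝ) (hμ0 : 0 < μ)
    (hμ : ∀ k : T d L, |adj k - adj (k + κ)| ≤ μ) :
    ‖(((mT d L σ E ε).im : ℂ) - (ε : ℂ) * Sr d L σ E ε κ) -
      (1 + ((σ ^ 2 : ℝ) : ℂ) * Sr d L σ E ε κ) * ((Γ * Lf d L E' Γ κ / 2 : ℝ) : ℂ)‖ ≤
      μ / ε * (430 * ups σ ε δ Q g (mT d L σ E ε).im
        (Bf d L E' Γ + es d L σ E ε E' Γ) Γ) := by
  have hN := Pool.Agent.W788.MFP.Four.NN_pos (d := d) (L := L)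
  have hm := p.im0 hrqf
  have hσ := p.hσ
  have hε := p.hε
  have hδ := p.hδ
  have hg1 := p.hg1
  have hg0 : 0 < g := by linarith
  have hQ1 := p.hQ1
  have hΓε : ε ≤ Γ := by
    rw [hΓ]
    have : 0 ≤ σ ^ 2 * (mT d L σ E ε).im := by positivity
    linarith
  have hΓ0 : 0 < Γ := lt_of_lt_of_le hε hΓε
  have H := p.trg hP hrqf hinv hs E' Γ hE' hΓ
  have hes := p.es_le hP hI hrqf hinv hs E' Γ hE' hΓ
  have hsr := p.sr_bd hrqf κ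
  have hu : ∀ x, ‖e κ x‖ = 1 := fun x => e_norm κ x
  -- the vertex
  obtain ⟨β, hβ⟩ : ∃ β : T d L → ℂ, β = fun k => ((adj k - adj (k + κ) : ℝ) : ℂ) *
    (Yk E' Γ (k + κ))⁻¹ := ⟨_, rfl⟩
  have hG1 : (h0 (d := d) (L := L) E - cj (e κ) (h0 E)) *
      cj (e κ) (Mo fun k => (Yk E' Γ k)⁻¹) = Mo β := by
    unfold h0
    rw [cj_mo, cj_mo, mo_sub, mo_mul, hβ]
    congr 1
    funext k
    push_cast
    ring
  have hYi : ∀ k : T d L, ‖(Yk E' Γ k)⁻¹‖ ≤ Γ⁻¹ := by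
    intro k
    rw [norm_inv, Yk_norm]
    exact inv_anti₀ hΓ0 (JJ_ge E' Γ hΓ0 k)
  have hβc : ∀ k, ‖β k‖ ≤ μ * Γ⁻¹ := by
    intro k
    rw [hβ]
    simp only
    rw [norm_mul, Complex.norm_real, Real.norm_eq_abs]
    exact mul_le_mul (hμ k) (hYi _) (norm_nonneg _) hμ0.le
  obtain ⟨W, hW⟩ : ∃ W, W = Bf d L E' Γ + es d L σ E ε E' Γ := ⟨_, rfl⟩
  have hes0 := es_nonneg (d := d) (L := L) σ E ε E' Γ
  have hW0 : 0 ≤ W := by
    rw [hW]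
    have h2 : 0 ≤ Bf d L E' Γ := by
      unfold Bf
      exact mul_nonneg (by positivity) (Finset.sum_nonneg fun k _ => by positivity)
    linarith
  obtain ⟨im, him⟩ : ∃ im, im = (mT d L σ E ε).im := ⟨_, rfl⟩
  obtain ⟨S, hS⟩ : ∃ S, S = Sr d L σ E ε κ := ⟨_, rfl⟩
  obtain ⟨c, hc⟩ : ∃ c, c = μ * Γ⁻¹ := ⟨_, rfl⟩
  have hc0 : 0 < c := by
    rw [hc]
    positivity
  have hv := fun x => p.var_b hP hrqf hinv hs E' Γ hΓ0 β c hc0 (by rw [hc]; exact hβc) x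
  have Tw := p.trw hrqf hs
  have hv' : ∀ x, var (fun V => (cj (e κ) (Rh (h0 (d := d) (L := L) E) σ ε V) *
      (Rh (h0 (d := d) (L := L) E) σ ε V)ᴴ) x x) ≤
      1028 * (σ ^ 2 * Q) * ((g + δ / ε * im) * (g + δ / ε * im)) / ε ^ 2 := by
    intro x
    have h1 := Tw.var3 hP hu x (dl x) g (Tw.jdl x).1 (Tw.jdl x).2 hg0
    simp only [form_dl] at h1
    rwa [fi_dl hinv σ E hε x, ← him] at h1
  have hTq : ((Mo fun k => (Yk E' Γ k)⁻¹)ᴴ * ((h0 (d := d) (L := L) E - cj (e κ) (h0 E)) *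
      cj (e κ) (Mo fun k => (Yk E' Γ k)⁻¹))).trace =
      (Fintype.card (T d L) : ℂ) * (Complex.I * ((Γ * Lf d L E' Γ κ : ℝ) : ℂ)) := by
    rw [hG1, mo_star, mo_mul, mo_trace, hβ, cur_trace E' hΓ0 κ, ← card_NN]
    push_cast
    rfl
  have he3 : ‖∫ V, (((h0 (d := d) (L := L) E - cj (e κ) (h0 E)) *
      cj (e κ) (Mo fun k => (Yk E' Γ k)⁻¹))ᴴ * Rh (h0 E) σ ε V).trace ∂(GP (T d L)) -
      (((h0 (d := d) (L := L) E - cj (e κ) (h0 E)) *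
      cj (e κ) (Mo fun k => (Yk E' Γ k)⁻¹))ᴴ * Mo fun k => (Yk E' Γ k)⁻¹).trace‖ ≤
      Fintype.card (T d L) * (c * es d L σ E ε E' Γ) := by
    rw [hG1, mo_star, mo_mul, mo_trace, tr_ph _ σ E E' Γ hε, card_NN, norm_mul,
      Complex.norm_real, Real.norm_of_nonneg hN.le]
    apply mul_le_mul_of_nonneg_left _ hN.le
    apply ph_le
    intro k
    rw [RCLike.norm_conj, hc]
    exact hβc k
  have h1 := H.cur hI hu (Sr d L σ E ε κ) 0 (fun x => sr_inv hinv σ E ε κ x) _ _ _ _ hv'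
    (fun x => by
      rw [hG1]
      exact (hv x).2.1) (fun x => by
      rw [hG1]
      exact (hv x).2.2 _ hu) he3 _ hTq
  rw [← him, ← hW, ← hS] at h1
  rw [← him, ← hW] at hes
  rw [← him, ← hS] at hsr
  rw [← him, ← hS, ← hW]
  rw [← him] at hm
  obtain ⟨U, hU⟩ : ∃ U, U = ups σ ε δ Q g im W Γ := ⟨_, rfl⟩
  have hU1 : U = σ ^ 2 * Q * (σ ^ 2 / Γ) *
      Real.sqrt ((g + δ / ε * im) ^ 3 * (g + δ / ε * W)) := hU
  have h365 : (129 : ℝ) * 1028 ≤ 365 ^ 2 := by norm_num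
  have k1 : Real.sqrt (129 * (σ ^ 2 * Q) * ((g + δ / ε * im) * (g + δ / ε * im))) *
      Real.sqrt (1028 * (σ ^ 2 * Q) * ((g + δ / ε * im) * (c ^ 2 * (g + δ / ε * W))) / ε ^ 2) ≤
      365 * (σ ^ 2 * Q) * (c / ε) * Real.sqrt ((g + δ / ε * im) ^ 3 * (g + δ / ε * W)) := by
    apply sqrt_mul_le (by positivity) (by positivity)
    rw [mul_pow, Real.sq_sqrt (by positivity)]
    calc _ = (129 * 1028) * ((σ ^ 2 * Q) ^ 2 * (c / ε) ^ 2 *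
          ((g + δ / ε * im) ^ 3 * (g + δ / ε * W))) := by
          field_simp
      _ ≤ 365 ^ 2 * ((σ ^ 2 * Q) ^ 2 * (c / ε) ^ 2 *
          ((g + δ / ε * im) ^ 3 * (g + δ / ε * W))) := by gcongr
      _ = _ := by ring
  have k2 : Real.sqrt (1028 * (σ ^ 2 * Q) * ((g + δ / ε * im) * (g + δ / ε * im)) / ε ^ 2) *
      Real.sqrt (129 * (σ ^ 2 * Q) * ((g + δ / ε * im) * (c ^ 2 * (g + δ / ε * W)))) ≤
      365 * (σ ^ 2 * Q) * (c / ε) * Real.sqrt ((g + δ / ε * im) ^ 3 * (g + δ / ε * W)) := by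
    apply sqrt_mul_le (by positivity) (by positivity)
    rw [mul_pow, Real.sq_sqrt (by positivity)]
    calc _ = (129 * 1028) * ((σ ^ 2 * Q) ^ 2 * (c / ε) ^ 2 *
          ((g + δ / ε * im) ^ 3 * (g + δ / ε * W))) := by
          field_simp
      _ ≤ 365 ^ 2 * ((σ ^ 2 * Q) ^ 2 * (c / ε) ^ 2 *
          ((g + δ / ε * im) ^ 3 * (g + δ / ε * W))) := by gcongr
      _ = _ := by ring
  have k3 : (1 + σ ^ 2 * ‖S‖) * (c * es d L σ E ε E' Γ) ≤ μ / ε * (129 * U) := by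
    have e1 : 1 + σ ^ 2 * ‖S‖ ≤ Γ / ε := by
      rw [hΓ, ← him]
      calc 1 + σ ^ 2 * ‖S‖ ≤ 1 + σ ^ 2 * (im / ε) := by gcongr
        _ = _ := by
          field_simp
    calc _ ≤ Γ / ε * (c * (129 * U)) := by
          rw [hU]
          gcongr
      _ = _ := by
          rw [hc]
          field_simp
  have k4 : σ ^ 2 * (365 * (σ ^ 2 * Q) * (c / ε) *
      Real.sqrt ((g + δ / ε * im) ^ 3 * (g + δ / ε * W))) = μ / ε * (365 * U) := by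
    rw [hU1, hc]
    field_simp
  have h2 : ‖2 * Complex.I * ((im : ℂ) - (ε : ℂ) * S) - (1 + ((σ ^ 2 : ℝ) : ℂ) * S) *
      (Complex.I * ((Γ * Lf d L E' Γ κ : ℝ) : ℂ))‖ ≤ μ / ε * (859 * U) := by
    refine h1.trans ?_
    rw [mul_add]
    have e1 := mul_le_mul_of_nonneg_left k1 (sq_nonneg σ)
    have e2 := mul_le_mul_of_nonneg_left k2 (sq_nonneg σ)
    rw [k4] at e1 e2
    linarith
  have h3 : 2 * Complex.I * ((im : ℂ) - (ε : ℂ) * S) - (1 + ((σ ^ 2 : ℝ) : ℂ) * S) *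
      (Complex.I * ((Γ * Lf d L E' Γ κ : ℝ) : ℂ)) = 2 * Complex.I *
      (((im : ℂ) - (ε : ℂ) * S) - (1 + ((σ ^ 2 : ℝ) : ℂ) * S) *
        ((Γ * Lf d L E' Γ κ / 2 : ℝ) : ℂ)) := by
    push_cast
    ring
  rw [h3, norm_mul, norm_mul, Complex.norm_I, Complex.norm_ofNat, mul_one] at h2
  have hU0 : 0 ≤ U := by
    rw [hU1]
    positivity
  rw [← hU]
  have h4 : 0 ≤ μ / ε * U := by positivity
  linarith

end par

end Pool.Agent.T2h98.QD
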