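import Pool.Agent.T2h98.QD.MoA
import Pool.Agent.T2h98.QD.Ladder3
import Pool.Agent.T2h98.QD.Psi

/-! The filtered Anderson model on the torus is a homogeneous model. -/

set_option autoImplicit false
set_option linter.unusedSectionVars false

open scoped BigOperators Matrix
open MeasureTheory ProbabilityTheory

namespace Pool.Agent.T2h98.QD

open Pool.Agent.W788.MFP.Four (T e NN adj K)
open Pool.Agent.W788.BK (nsq hs PP JJ hi Low cr nsq_nonneg)
open Pool.Agent.W240.BK (BC BM)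

variable {d L : ℕ} [NeZero L]

theorem JJ_ge (E δ : ℝ) (_hδ : 0 < δ) (k : T d L) : δ ≤ JJ E δ k := by
  unfold JJ
  apply Real.le_sqrt_of_sq_le
  nlinarith [sq_nonneg (adj k - E)]

theorem JJ_le (E δ : ℝ) (hδ : 0 < δ) (k : T d L) : JJ E δ k ≤ |adj k - E| + δ := by
  unfold JJ
  rw [Real.sqrt_le_left (by positivity)]
  have h1 := abs_nonneg (adj k - E)
  have h2 := sq_abs (adj k - E)
  nlinarith

theorem hi_le (θ : ℝ) (Q : T d L) : 0 ≤ 1 - hi θ Q := by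
  unfold hi
  split_ifs <;> norm_num

theorem py_herm (θ : ℝ) (y : T d L) : (PY θ y).IsHermitian := by
  unfold PY Matrix.IsHermitian
  rw [Matrix.diagonal_conjTranspose]
  congr 1
  funext x
  rw [Pi.star_apply, Complex.star_def, Complex.conj_ofReal]

theorem sys_torus (hkq : T_KQ) {σ E δ θ η Q0 : ℝ} (hδ : 0 < δ) (hη : 0 < η) (hQ0 : 0 ≤ Q0)
    (hQ : ∀ P : T d L, ¬ Low θ P → ∑ k : T d L, (JJ E δ k * JJ E δ (k + P))⁻¹ ≤ Q0 * NN d L) :
    Sys (h0 (d := d) (L := L) E) (J0 E δ) (fun y => (σ : ℂ) • PY θ y) η δ (σ ^ 2 * Q0) where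
  hh := by
    unfold h0 Matrix.IsHermitian
    rw [mo_star]
    congr 1
    funext k
    rw [Complex.conj_ofReal]
  hJ := by
    unfold J0 Matrix.IsHermitian
    rw [mo_star]
    congr 1
    funext k
    rw [Complex.conj_ofReal]
  hA := fun y => by
    unfold Matrix.IsHermitian
    rw [Matrix.conjTranspose_smul, (py_herm θ y).eq, Complex.star_def, Complex.conj_ofReal]
  hη := hη
  hδ := hδ
  hQ0 := by positivity
  hJδ := fun w => by
    have hN := Pool.Agent.W788.MFP.Four.NN_pos (d := d) (L := L)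
    unfold J0
    rw [KQ.qf_Mo, nsq_fc, mul_left_comm]
    apply mul_le_mul_of_nonneg_left _ (by positivity)
    rw [Finset.mul_sum]
    refine Finset.sum_le_sum fun k _ => ?_
    exact mul_le_mul_of_nonneg_right (JJ_ge E δ hδ k) (by positivity)
  hQ := fun a b => by
    have h1 := hkq d L E δ θ Q0 hδ hQ0 hQ a b
    have h2 : ∀ y, ‖star a ⬝ᵥ (((σ : ℂ) • PY θ y) *ᵥ b)‖ ^ 2 =
        σ ^ 2 * ‖star a ⬝ᵥ (PY θ y *ᵥ b)‖ ^ 2 := by
      intro y
      rw [Matrix.smul_mulVec, dotProduct_smul, smul_eq_mul, norm_mul, mul_pow, Complex.norm_real,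
        Real.norm_eq_abs, sq_abs]
    simp only [h2]
    rw [← Finset.mul_sum, mul_assoc]
    exact mul_le_mul_of_nonneg_left h1 (sq_nonneg _)

/-- the denominators of the mean resolvent -/
noncomputable def Xk (s2 E δ η : ℝ) (mb : ℂ) (k : T d L) : ℂ :=
  ((adj k - E : ℝ) : ℂ) - (η * JJ E δ k : ℝ) * Complex.I - (s2 : ℂ) * mb

theorem Xk_re (s2 E δ η : ℝ) (mb : ℂ) (k : T d L) :
    (Xk s2 E δ η mb k).re = adj k - (E + s2 * mb.re) := by
  unfold Xk
  simp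
  ring

theorem Xk_im (s2 E δ η : ℝ) (mb : ℂ) (k : T d L) :
    (Xk s2 E δ η mb k).im = -(η * JJ E δ k + s2 * mb.im) := by
  unfold Xk
  simp
  ring

theorem Xk_norm_im {s2 E δ η : ℝ} {mb : ℂ} (hη : 0 ≤ η) (hδ : 0 < δ) (k : T d L) (hm : 0 < mb.im)
    (hs : 0 < s2) : s2 * mb.im ≤ ‖Xk s2 E δ η mb k‖ ∧ η * δ ≤ ‖Xk s2 E δ η mb k‖ := by
  have h1 := Complex.abs_im_le_norm (Xk s2 E δ η mb k)
  rw [Xk_im, abs_neg] at h1
  have h2 := le_abs_self (η * JJ E δ k + s2 * mb.im)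
  have h3 := JJ_ge E δ hδ k
  have h4 : η * δ ≤ η * JJ E δ k := mul_le_mul_of_nonneg_left h3 hη
  have h5 : 0 < s2 * mb.im := mul_pos hs hm
  have h6 : 0 ≤ η * δ := mul_nonneg hη hδ.le
  constructor <;> linarith

theorem Xk_ne {s2 E δ η : ℝ} {mb : ℂ} (hη : 0 ≤ η) (hδ : 0 < δ) (k : T d L) (hm : 0 < mb.im)
    (hs : 0 < s2) : Xk s2 E δ η mb k ≠ 0 := by
  have h1 := (Xk_norm_im hη hδ k hm hs (E := E)).1
  have h2 : 0 < s2 * mb.im := mul_pos hs hm
  intro h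
  rw [h, norm_zero] at h1
  linarith

theorem Xk_max {s2 E δ η : ℝ} {mb : ℂ} (hη : 0 ≤ η) (hδ : 0 < δ) (k : T d L) (hm : 0 < mb.im)
    (hs : 0 < s2) : max |adj k - (E + s2 * mb.re)| (η * δ) ≤ ‖Xk s2 E δ η mb k‖ := by
  apply max_le
  · rw [← Xk_re s2 E δ η mb k]
    exact Complex.abs_re_le_norm _
  · exact (Xk_norm_im hη hδ k hm hs).2

theorem Xk_JJ {s2 E δ η : ℝ} {mb : ℂ} (hη : 0 < η) (hδ : 0 < δ) (k : T d L) (hm : 0 < mb.im)
    (hs : 0 < s2) : ‖Xk s2 E δ η mb k‖⁻¹ ≤ (JJ (E + s2 * mb.re) (η * δ) k)⁻¹ := by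
  have hp : 0 < η * δ := mul_pos hη hδ
  have h0 := JJ_ge (E + s2 * mb.re) (η * δ) hp k
  apply inv_anti₀ (by linarith)
  unfold JJ
  rw [Real.sqrt_le_left (norm_nonneg _), ← Complex.normSq_eq_norm_sq, Complex.normSq_apply,
    Xk_re, Xk_im]
  have h3 := JJ_ge E δ hδ k
  have h4 : η * δ ≤ η * JJ E δ k := mul_le_mul_of_nonneg_left h3 hη.le
  have h5 : 0 < s2 * mb.im := mul_pos hs hm
  nlinarith

/-- hypotheses on the parameters -/
structure Par (d L : ℕ) [NeZero L] (σ E δ θ η ν Q0 g cn : ℝ) : Prop where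
  hσ : 0 < σ
  hδ : 0 < δ
  hη : 0 < η
  hQ0 : 0 ≤ Q0
  hQ : ∀ P : T d L, ¬ Low θ P → ∑ k : T d L, (JJ E δ k * JJ E δ (k + P))⁻¹ ≤ Q0 * NN d L
  hν : σ ^ 2 * Q0 ≤ ν * η ^ 2
  hν2 : ν ≤ 1 / 2
  hg0 : 0 ≤ g
  hg : ∀ E' : ℝ, ∑ k : T d L, (JJ E' (η * δ) k)⁻¹ ≤ g * NN d L
  hcn : ∑ Q : T d L, (1 - hi θ Q) ≤ cn * NN d L

/-- the mean of the diagonal of the resolvent -/
noncomputable def mbar (d L : ℕ) [NeZero L] (σ E δ θ η : ℝ) : ℂ :=
  ∫ V, Gt (d := d) (L := L) σ E δ θ η V 0 0 ∂(GP (T d L))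

section par

variable {σ E δ θ η ν Q0 g cn : ℝ}

theorem Par.sys (hkq : T_KQ) (p : Par d L σ E δ θ η ν Q0 g cn) :
    Sys (h0 (d := d) (L := L) E) (J0 E δ) (fun y => (σ : ℂ) • PY θ y) η δ (σ ^ 2 * Q0) :=
  sys_torus hkq p.hδ p.hη p.hQ0 p.hQ

theorem mbar_eq (hinv : T_INV) (x : T d L) :
    ∫ V, Gt (d := d) (L := L) σ E δ θ η V x x ∂(GP (T d L)) = mbar d L σ E δ θ η := by
  obtain ⟨h1, h2⟩ := hinv d L x
  have h3 := h1 fun V => Gt (d := d) (L := L) σ E δ θ η V 0 0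
  simp only [h2, zero_add] at h3
  exact h3

theorem mbar_pos (hkq : T_KQ) (p : Par d L σ E δ θ η ν Q0 g cn) :
    0 < (mbar d L σ E δ θ η).im := by
  have S := p.sys hkq
  have e1 : (mbar d L σ E δ θ η).im =
      ∫ V, (Gt (d := d) (L := L) σ E δ θ η V 0 0).im ∂(GP (T d L)) := by
    unfold mbar
    exact (integral_im ((bm_gg S 0 0).integrable _)).symm
  rw [e1]
  have hpos : ∀ V : T d L → ℝ, 0 < (Gt (d := d) (L := L) σ E δ θ η V 0 0).im := by
    intro V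
    have h1 := (gg_ward S V (dl 0)).1
    rw [form_dl] at h1
    have h2 := S.hJδ (GG (h0 (d := d) (L := L) E) (J0 E δ) (fun y => (σ : ℂ) • PY θ y) η V *ᵥ dl 0)
    have h3 : 0 < nsq (GG (h0 (d := d) (L := L) E) (J0 E δ) (fun y => (σ : ℂ) • PY θ y) η V *ᵥ
        dl 0) := by
      refine lt_of_le_of_ne (nsq_nonneg _) fun h => ?_
      have h4 := Pool.Agent.W788.BK.nsq_eq_zero _ h.symm
      have h5 : (XG (h0 (d := d) (L := L) E) (J0 E δ) (fun y => (σ : ℂ) • PY θ y) η V *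
          GG (h0 (d := d) (L := L) E) (J0 E δ) (fun y => (σ : ℂ) • PY θ y) η V) *ᵥ dl 0 = 0 := by
        rw [← Matrix.mulVec_mulVec, h4, Matrix.mulVec_zero]
      rw [xg_gg S V, Matrix.one_mulVec] at h5
      have h6 := nsq_dl (0 : T d L)
      rw [h5] at h6
      simp [nsq] at h6
    unfold Gt
    rw [h1]
    have h7 : 0 < δ * nsq (GG (h0 (d := d) (L := L) E) (J0 E δ) (fun y => (σ : ℂ) • PY θ y) η V *ᵥ
        dl 0) := mul_pos S.hδ h3
    exact mul_pos S.hη (by linarith)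
  rw [integral_pos_iff_support_of_nonneg (fun V => (hpos V).le) (rc_im S 0).integrable]
  have h8 : Function.support (fun V : T d L → ℝ =>
      (Gt (d := d) (L := L) σ E δ θ η V 0 0).im) = Set.univ :=
    Set.eq_univ_of_forall fun V => (hpos V).ne'
  rw [h8, measure_univ]
  norm_num

/-- the homogeneous model -/
theorem Par.hom (hkq : T_KQ) (hpsi : T_PSI) (hinv : T_INV) (p : Par d L σ E δ θ η ν Q0 g cn) :
    Hom (h0 (d := d) (L := L) E) (J0 E δ) (fun y => (σ : ℂ) • PY θ y) η δ (σ ^ 2 * Q0) (σ ^ 2)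
      (fun Q : T d L => (NN d L)⁻¹ * (1 - hi θ Q)) (fun Q => e Q) (mbar d L σ E δ θ η)
      (Mo fun k => (Xk (σ ^ 2) E δ η (mbar d L σ E δ θ η) k)⁻¹) ν
      (g / (σ ^ 2 * (mbar d L σ E δ θ η).im)) cn := by
  have hm := mbar_pos hkq p
  have hN := Pool.Agent.W788.MFP.Four.NN_pos (d := d) (L := L)
  have hs : 0 < σ ^ 2 := pow_pos p.hσ 2
  have hX := fun k : T d L => Xk_ne (E := E) (k := k) p.hη.le p.hδ hm hs
  have hb2 : ∀ k : T d L, ‖(Xk (σ ^ 2) E δ η (mbar d L σ E δ θ η) k)⁻¹‖ ^ 2 ≤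
      ((σ ^ 2 * (mbar d L σ E δ θ η).im)⁻¹) ^ 2 := by
    intro k
    rw [norm_inv]
    exact pow_le_pow_left₀ (by positivity)
      (inv_anti₀ (by positivity) (Xk_norm_im p.hη.le p.hδ k hm hs).1) 2
  exact {
    S := p.sys hkq
    hs2 := hs
    hul := fun Q x => e_norm Q x
    hlam := fun Q => mul_nonneg (by positivity) (hi_le θ Q)
    hcn := by
      rw [← Finset.mul_sum, inv_mul_le_iff₀ hN, mul_comm]
      exact p.hcn
    hpsi := fun Z => by
      have h1 := hpsi d L θ Z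
      unfold Pool.Agent.W788.BK.Psi
      have h2 : ∀ y : T d L, ((σ : ℂ) • PY θ y) * Z * ((σ : ℂ) • PY θ y) =
          ((σ ^ 2 : ℝ) : ℂ) • (PY θ y * Z * PY θ y) := by
        intro y
        rw [smul_mul_assoc, smul_mul_assoc, mul_smul_comm, smul_smul]
        congr 1
        push_cast
        ring
      simp only [h2]
      rw [← Finset.smul_sum, h1]
    hm := fun x => mbar_eq hinv x
    him := hm
    hν := p.hν
    hν2 := p.hν2
    hG0 := by
      have h1 : h0 (d := d) (L := L) E - ((η : ℂ) * Complex.I) • J0 E δ -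
          (((σ ^ 2 : ℝ) : ℂ) * mbar d L σ E δ θ η) • (1 : Matrix (T d L) (T d L) ℂ) =
          Mo fun k => Xk (σ ^ 2) E δ η (mbar d L σ E δ θ η) k := by
        unfold h0 J0
        rw [← mo_one, mo_smul, mo_smul, mo_sub, mo_sub]
        congr 1
        funext k
        unfold Xk
        push_cast
        ring
      rw [h1, mo_mul, ← mo_one]
      congr 1
      funext k
      exact inv_mul_cancel₀ (hX k)
    hb := fun w => nsq_mo _ _ hb2 w
    hbH := fun w => by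
      rw [mo_star]
      refine nsq_mo _ _ (fun k => ?_) w
      rw [RCLike.norm_conj]
      exact hb2 k
    hΘ := fun x => by
      rw [nsq_mo_dl, inv_mul_le_iff₀ hN]
      have h3 : ∀ k : T d L, ‖(Xk (σ ^ 2) E δ η (mbar d L σ E δ θ η) k)⁻¹‖ ^ 2 ≤
          (σ ^ 2 * (mbar d L σ E δ θ η).im)⁻¹ *
            (JJ (E + σ ^ 2 * (mbar d L σ E δ θ η).re) (η * δ) k)⁻¹ := by
        intro k
        rw [norm_inv, sq]
        exact mul_le_mul (inv_anti₀ (by positivity) (Xk_norm_im p.hη.le p.hδ k hm hs).1)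
          (Xk_JJ p.hη p.hδ k hm hs) (by positivity) (by positivity)
      refine (Finset.sum_le_sum fun k _ => h3 k).trans ?_
      rw [← Finset.mul_sum]
      calc _ ≤ (σ ^ 2 * (mbar d L σ E δ θ η).im)⁻¹ * (g * NN d L) :=
            mul_le_mul_of_nonneg_left (p.hg _) (by positivity)
        _ = _ := by
          field_simp }

end par

end Pool.Agent.T2h98.QD
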